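import Pool.Agent.Lib.SQF.AEval
import Pool.Agent.Lib.SQF4.QMinor

/-!
# SQF: rich curves have clusters

`exists_cluster` (Prm) with a set of primes `q` in `[Y^ρ, C Y^ρ]` avoiding `F` (`exists_primes` with more
primes), then `exists_affine` (integers `x` with `v x = u` modulo `q^K`) and `qminor_int`: the row of `z` is
multiplied by `w ((p m)^2)^s`, `w` an inverse of `(m^2)^s v^(6 s + r)` modulo `q^K`.
`acluster'` is the version with levels (for OneCurve): columns `m^(2 j) fv (r - 2 j) c`, `|J| = s - j`, all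
with the same `6 s + r`.
-/

set_option autoImplicit false

open Polynomial

namespace Pool.Agent.Lib.SQF

/-- degrees of the coefficients of the column polynomials -/
private lemma deg_col {b : Fin 4 → ℤ[X][X]} (hb : ∀ j l, ((b j).coeff l).natDegree ≤ 6)
    {ν : ℤ[X]} (hν : ν.natDegree ≤ 4) (s j i : ℕ) (c : ℕ × (Fin 4 → ℕ)) (hc : IsCol i s c) (l : ℕ) :
    ((C (ν ^ (2 * j)) * fpol b c).coeff l).natDegree ≤ 6 * (s + j) + (i + 2 * j) := by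
  revert l
  have h1 : Bez.degT (C (ν ^ (2 * j)) * fpol b c) ≤ 6 * (s + j) + (i + 2 * j) := by
    have e1 : Bez.degT (C (ν ^ (2 * j)) : ℤ[X][X]) ≤ 8 * j := by
      rw [Bez.degT_C]
      refine natDegree_pow_le.trans ?_
      have := Nat.mul_le_mul_left (2 * j) hν
      linarith
    have e2 : Bez.degT (C (X ^ c.1) : ℤ[X][X]) ≤ i := by
      rw [Bez.degT_C, natDegree_X_pow]; exact hc.1
    have e3 : ∀ (S : Finset (Fin 4)), Bez.degT (∏ l ∈ S, b l ^ c.2 l) ≤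
        ∑ l ∈ S, 6 * c.2 l := by
      intro S
      classical
      induction S using Finset.induction_on with
      | empty => simp [Bez.degT]
      | insert a S ha ih =>
        rw [Finset.prod_insert ha, Finset.sum_insert ha]
        refine (Bez.degT_mul_le _ _).trans (Nat.add_le_add ?_ ih)
        have e4 : ∀ k : ℕ, Bez.degT (b a ^ k) ≤ 6 * k := by
          intro k
          induction k with
          | zero => simp [Bez.degT]
          | succ k ihk =>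
            rw [pow_succ]
            refine (Bez.degT_mul_le _ _).trans ?_
            have := (Bez.degT_le_iff (b a) 6).2 (hb a)
            omega
        exact e4 _
    have e5 := e3 Finset.univ
    rw [← Finset.mul_sum, hc.2] at e5
    refine (Bez.degT_mul_le _ _).trans ?_
    have e6 : Bez.degT (fpol b c) ≤ i + 6 * s := by
      rw [fpol]
      exact (Bez.degT_mul_le _ _).trans (Nat.add_le_add e2 e5)
    omega
  exact (Bez.degT_le_iff _ _).1 h1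

/-- the divisibility for one cluster -/
private lemma cluster_dvd {g : ℤ[X]} {θ : Fin 4 → ℂ} {e1 e2 : Fin 4 → ℤ} {B E : ℝ}
    {b : Fin 4 → ℤ[X][X]} {ν : ℤ[X]} (hb : SlicePol g θ e1 e2 B E b ν) (r s e N : ℕ) (K Y P : ℝ)
    (G : ℤ[X][X]) (hGe : ∀ l, (G.coeff l).natDegree ≤ e) (q : ℕ) (hq : q.Prime) (x0 y0 : ℤ)
    (hder : ¬ (q : ℤ) ∣ (derivative G).evalEval x0 y0) (C' : Finset ZPt)
    (hC : ∀ z ∈ C', AOK g K Y P e1 e2 z ∧ hev e G z.u z.v z.n = 0 ∧ ¬ (q : ℤ) ∣ z.v ∧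
      (q : ℤ) ∣ z.v * x0 - z.u ∧ (q : ℤ) ∣ z.n - y0 ∧ ¬ (q : ℤ) ∣ z.p ∧ ¬ (q : ℤ) ∣ z.m)
    (lev : Fin N → ℕ) (cols : Fin N → ℕ × (Fin 4 → ℕ))
    (hcols : ∀ c, 2 * lev c ≤ r ∧ lev c ≤ s ∧ IsCol (r - 2 * lev c) (s - lev c) (cols c))
    (x : Fin N → ZPt) (R : Finset (Fin N)) (hR : ∀ r' ∈ R, x r' ∈ C') :
    (q : ℤ) ^ (R.card * (R.card - 1) / 2) ∣ Matrix.det (Matrix.of fun r' c =>
      (x r').m ^ (2 * lev c) * fv (r - 2 * lev c) (cols c) (x r')) := by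
  classical
  have hqp : Prime (q : ℤ) := Nat.prime_iff_prime_int.1 hq
  set k := R.card * (R.card - 1) / 2 with hk
  -- the affine points
  have h1 : ∀ i : Fin N, ∃ X : ℤ, i ∈ R → (q : ℤ) ^ k ∣ (x i).v * X - (x i).u ∧
      (q : ℤ) ∣ X - x0 ∧ (q : ℤ) ^ k ∣ G.evalEval X (x i).n := by
    intro i
    by_cases hi : i ∈ R
    · obtain ⟨-, a2, a3, a4, -⟩ := hC _ (hR i hi)
      obtain ⟨X, hX⟩ := exists_affine q hq k e G hGe (x i).u (x i).v (x i).n x0 a3 a4 a2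
      exact ⟨X, fun _ => hX⟩
    · exact ⟨0, fun h => absurd h hi⟩
  choose ξ hξ using h1
  -- inverses of the units
  have h2 : ∀ i : Fin N, ∃ w : ℤ, i ∈ R → ¬ (q : ℤ) ∣ w ∧
      (q : ℤ) ^ k ∣ w * (((x i).m ^ 2) ^ s * (x i).v ^ (6 * s + r)) - 1 := by
    intro i
    by_cases hi : i ∈ R
    · obtain ⟨-, -, a3, -, -, -, a7⟩ := hC _ (hR i hi)
      have a8 : ¬ (q : ℤ) ∣ ((x i).m ^ 2) ^ s * (x i).v ^ (6 * s + r) := by
        intro h
        rcases hqp.dvd_or_dvd h with h | h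
        · exact a7 (hqp.dvd_of_dvd_pow (hqp.dvd_of_dvd_pow h))
        · exact a3 (hqp.dvd_of_dvd_pow h)
      have hcop : IsCoprime (((x i).m ^ 2) ^ s * (x i).v ^ (6 * s + r)) (q : ℤ) := by
        rw [isCoprime_comm]
        exact (Prime.coprime_iff_not_dvd hqp).2 a8
      obtain ⟨w, t, hwt⟩ := hcop.pow_right (n := k + 1)
      have a9 : (q : ℤ) ^ (k + 1) ∣ w * (((x i).m ^ 2) ^ s * (x i).v ^ (6 * s + r)) - 1 :=
        ⟨-t, by linear_combination hwt⟩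
      refine ⟨w, fun _ => ⟨?_, (pow_dvd_pow _ (Nat.le_succ k)).trans a9⟩⟩
      intro h
      have a10 : (q : ℤ) ∣ w * (((x i).m ^ 2) ^ s * (x i).v ^ (6 * s + r)) - 1 :=
        (dvd_pow_self _ (Nat.succ_ne_zero k)).trans a9
      have a11 : (q : ℤ) ∣ 1 := by
        have := dvd_sub (Dvd.dvd.mul_right h (((x i).m ^ 2) ^ s * (x i).v ^ (6 * s + r))) a10
        rwa [sub_sub_cancel] at this
      exact hqp.not_isUnit (isUnit_of_dvd_one a11)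
    · exact ⟨0, fun h => absurd h hi⟩
  choose w hw using h2
  refine SQF4.qminor_int q hq _ R G x0 y0 ξ (fun i => (x i).n)
    (fun i => w i * ((((x i).p : ℤ) * (x i).m) ^ 2) ^ s) ?_ (fun i hi => (hξ i hi).2.1)
    (fun i hi => ((hC _ (hR i hi)).2.2.2.2.1)) (fun i hi => (hξ i hi).2.2) hder
    (fun c => C (ν ^ (2 * lev c)) * fpol b (cols c)) ?_
  · intro i hi h
    obtain ⟨-, -, -, -, -, a6, a7⟩ := hC _ (hR i hi)
    rcases hqp.dvd_or_dvd h with h | h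
    · exact (hw i hi).1 h
    · rcases hqp.dvd_or_dvd (hqp.dvd_of_dvd_pow (hqp.dvd_of_dvd_pow h)) with h | h
      · exact a6 h
      · exact a7 h
  · intro i hi c
    obtain ⟨c1, c2, c3⟩ := hcols c
    obtain ⟨a1, -⟩ := hC _ (hR i hi)
    have d1 : s - lev c + lev c = s := by omega
    have d2 : r - 2 * lev c + 2 * lev c = r := by omega
    have b1 := fv_eval hb (r - 2 * lev c) (s - lev c) (lev c) (cols c) c3 K Y P (x i) a1
    rw [d1, d2] at b1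
    have b2 := deg_col (fun j => (hb.bdd j).2.1) hb.ν_deg (s - lev c) (lev c) (r - 2 * lev c)
      (cols c) c3
    rw [d1, d2] at b2
    have b3 := hev_congr (6 * s + r) (C (ν ^ (2 * lev c)) * fpol b (cols c)) b2 (x i).u (x i).v
      (x i).n (ξ i) ((q : ℤ) ^ k) (hξ i hi).1
    have b4 := (hw i hi).2
    rw [Matrix.of_apply]
    set f := C (ν ^ (2 * lev c)) * fpol b (cols c) with hf
    set V := f.evalEval (ξ i) (x i).n with hV
    set H := hev (6 * s + r) f (x i).u (x i).v (x i).n with hH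
    have b5 : w i * ((((x i).p : ℤ) * (x i).m) ^ 2) ^ s * ((x i).m ^ (2 * lev c) *
        fv (r - 2 * lev c) (cols c) (x i)) - V =
        (w i * (((x i).m ^ 2) ^ s * (x i).v ^ (6 * s + r)) - 1) * V -
        (w i * ((x i).m ^ 2) ^ s) * ((x i).v ^ (6 * s + r) * V - H) := by
      rw [mul_assoc, b1]
      ring
    rw [b5]
    exact dvd_sub (Dvd.dvd.mul_right b4 _) (Dvd.dvd.mul_left b3 _)

theorem acluster' {g : ℤ[X]} {θ : Fin 4 → ℂ} (hg : Roots4 g θ) (r s a e J N : ℕ)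
    (K L A ρ ε : ℝ) (hρ : 0 < ρ) (hρ1 : ρ ≤ 1 / 2) (hε : 0 < ε) :
    ∃ Y0 : ℝ, 1 ≤ Y0 ∧ ∀ Y P : ℝ, Y0 ≤ Y → Y ≤ L * P → P ≤ Y ^ A → ∀ e1 e2 : Fin 4 → ℤ,
      SliceOK θ (Y ^ A) e1 e2 → ∀ G : ℤ[X][X], Irreducible G → 1 ≤ G.natDegree →
      Bdd a e (Y ^ A) G → ∀ S : Finset ZPt,
      (∀ z ∈ S, AOK g K Y P e1 e2 z ∧ On G z ∧ |(z.u : ℝ)| ≤ Y ^ A ∧ |(z.v : ℝ)| ≤ Y ^ A) →
      TInj S → Y ^ (ρ + ε) ≤ S.card → ∀ F : Finset ℕ, F.card < J →
      ∃ q : ℕ, q.Prime ∧ q ∉ F ∧ Y ^ ρ ≤ q ∧ ∃ C' ⊆ S, Y ^ (ε / 2) ≤ C'.card ∧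
        ∀ (lev : Fin N → ℕ) (cols : Fin N → ℕ × (Fin 4 → ℕ)),
        (∀ c, 2 * lev c ≤ r ∧ lev c ≤ s ∧ IsCol (r - 2 * lev c) (s - lev c) (cols c)) →
        ∀ (x : Fin N → ZPt) (R : Finset (Fin N)), (∀ r' ∈ R, x r' ∈ C') →
          (q : ℤ) ^ (R.card * (R.card - 1) / 2) ∣ Matrix.det (Matrix.of fun r' c =>
            (x r').m ^ (2 * lev c) * fv (r - 2 * lev c) (cols c) (x r')) := by
  classical
  obtain ⟨B, hB, hexb⟩ := exists_b hg
  set M : ℝ := max A 1 with hM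
  obtain ⟨k, hk⟩ := exists_nat_ge (((M + 1) * ((a + e + 2 : ℕ) : ℝ) + 1) / ρ)
  set c0 : ℕ := 2 * k + J with hc0
  have hevt : ∀ᶠ Y : ℝ in Filter.atTop, 5 ≤ Y ∧ (((a + 1) * (e + 1) * a : ℕ) : ℝ) < Y ∧
      K < Y ^ ρ ∧ 2 ^ (c0 + 1) * max L 1 < Y ^ ((1 : ℝ) / 2) ∧
      ((2 * a * e : ℕ) : ℝ) < Y ^ (ρ + ε) ∧
      ((2 * a * e + 2 * a * (2 ^ c0 * 2) : ℕ) : ℝ) < Y ^ (ε / 2) := by
    filter_upwards [Filter.eventually_ge_atTop 5,
      Filter.eventually_gt_atTop (((a + 1) * (e + 1) * a : ℕ) : ℝ),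
      (tendsto_rpow_atTop hρ).eventually_gt_atTop K,
      (tendsto_rpow_atTop (by norm_num : (0 : ℝ) < 1 / 2)).eventually_gt_atTop
        (2 ^ (c0 + 1) * max L 1),
      (tendsto_rpow_atTop (by linarith : 0 < ρ + ε)).eventually_gt_atTop ((2 * a * e : ℕ) : ℝ),
      (tendsto_rpow_atTop (by linarith : 0 < ε / 2)).eventually_gt_atTop
        ((2 * a * e + 2 * a * (2 ^ c0 * 2) : ℕ) : ℝ)] with Y h1 h2 h3 h4 h5 h6
    exact ⟨h1, h2, h3, h4, h5, h6⟩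
  obtain ⟨Y0, hY0⟩ := Filter.eventually_atTop.1 hevt
  refine ⟨max Y0 1, le_max_right _ _, ?_⟩
  intro Y P hY hYP hPA e1 e2 hs G hG hG1 hGb S hS hinj hcard F hF
  obtain ⟨c1, c2, c3, c4, c5, c6⟩ := hY0 Y ((le_max_left _ _).trans hY)
  have hYpos : (0 : ℝ) < Y := by linarith
  have hY1 : (1 : ℝ) ≤ Y := by linarith
  have hE1 : (1 : ℝ) ≤ Y ^ A := by
    obtain ⟨j, hj⟩ := Function.ne_iff.1 hs.ne1
    have h1 : (1 : ℝ) ≤ |(e1 j : ℝ)| := by
      have : (1 : ℤ) ≤ |e1 j| := Int.one_le_abs hj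
      exact_mod_cast this
    exact h1.trans (hs.le1 j)
  obtain ⟨b, ν, hb⟩ := hexb (Y ^ A) hE1 e1 e2 hs
  -- the sizes
  set Z : ℕ := ⌈Y ^ ρ⌉₊ with hZ
  have hYρ1 : (1 : ℝ) ≤ Y ^ ρ := Real.one_le_rpow hY1 hρ.le
  have hZle : Y ^ ρ ≤ Z := Nat.le_ceil _
  have hZ1 : 1 ≤ Z := by
    have : (1 : ℝ) ≤ (Z : ℝ) := hYρ1.trans hZle
    exact_mod_cast this
  have hZlt : (Z : ℝ) ≤ 2 * Y ^ ρ := by
    have := Nat.ceil_lt_add_one (by linarith : 0 ≤ Y ^ ρ)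
    linarith
  set T : ℤ := ⌈Y ^ A⌉ + ⌈2 * Y⌉ with hT
  have t1 : Y ^ A ≤ (⌈Y ^ A⌉ : ℝ) := Int.le_ceil _
  have t2 : 2 * Y ≤ (⌈2 * Y⌉ : ℝ) := Int.le_ceil _
  have hTA : Y ^ A ≤ (T : ℝ) := by rw [hT]; push_cast; linarith
  have hTY : 2 * Y ≤ (T : ℝ) := by rw [hT]; push_cast; linarith
  have hT1 : 1 ≤ T := by
    have : (1 : ℝ) ≤ (T : ℝ) := by linarith
    exact_mod_cast this
  have hTup : (T : ℝ) ≤ Y ^ (M + 1) := by
    have h1 : Y ^ A ≤ Y ^ M := Real.rpow_le_rpow_of_exponent_le hY1 (le_max_left _ _)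
    have h2 : Y ≤ Y ^ M := by
      calc Y = Y ^ (1 : ℝ) := (Real.rpow_one Y).symm
        _ ≤ Y ^ M := Real.rpow_le_rpow_of_exponent_le hY1 (le_max_right _ _)
    have h3 : (⌈Y ^ A⌉ : ℝ) < Y ^ A + 1 := Int.ceil_lt_add_one _
    have h4 : (⌈2 * Y⌉ : ℝ) < 2 * Y + 1 := Int.ceil_lt_add_one _
    have h5 : (T : ℝ) ≤ 5 * Y ^ M := by rw [hT]; push_cast; linarith
    rw [Real.rpow_add hYpos, Real.rpow_one]
    have h6 : (0 : ℝ) ≤ Y ^ M := by positivity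
    nlinarith
  have hsize : (((a + 1) * (e + 1) * a : ℕ) : ℤ) * T ^ (a + e + 2) < (Z : ℤ) ^ k := by
    have h1 : (((a + 1) * (e + 1) * a : ℕ) : ℝ) * (T : ℝ) ^ (a + e + 2) < (Z : ℝ) ^ k := by
      have hT0 : (0 : ℝ) < (T : ℝ) := by linarith
      calc (((a + 1) * (e + 1) * a : ℕ) : ℝ) * (T : ℝ) ^ (a + e + 2)
          < Y * (T : ℝ) ^ (a + e + 2) := by
            exact mul_lt_mul_of_pos_right c2 (pow_pos hT0 _)
        _ ≤ Y * (Y ^ (M + 1)) ^ (a + e + 2) := by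
            refine mul_le_mul_of_nonneg_left ?_ hYpos.le
            exact pow_le_pow_left₀ hT0.le hTup _
        _ = Y ^ ((M + 1) * ((a + e + 2 : ℕ) : ℝ) + 1) := by
            rw [Real.rpow_add hYpos ((M + 1) * ((a + e + 2 : ℕ) : ℝ)) 1, Real.rpow_one,
              Real.rpow_mul hYpos.le (M + 1), Real.rpow_natCast]
            ring
        _ ≤ Y ^ (ρ * k) := by
            refine Real.rpow_le_rpow_of_exponent_le hY1 ?_
            rw [div_le_iff₀ hρ] at hk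
            linarith
        _ = (Y ^ ρ) ^ k := by rw [Real.rpow_mul hYpos.le, Real.rpow_natCast]
        _ ≤ (Z : ℝ) ^ k := pow_le_pow_left₀ (by linarith) hZle _
    exact_mod_cast h1
  -- the primes
  obtain ⟨Q, hQc, hQ⟩ := exists_primes (2 * k + J) Z hZ1
  have hQF : 2 * k ≤ (Q \ F).card := by
    have h1 := Finset.le_card_sdiff F Q
    omega
  -- the points
  set pt : ZPt → ℤ × ℤ × ℤ := fun z => (z.u, z.v, z.n) with hpt
  have hptinj : Set.InjOn pt (S : Set ZPt) := by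
    intro z hz z' hz' h
    simp only [hpt, Prod.mk.injEq] at h
    exact hinj z hz z' hz' (by rw [h.1, h.2.1])
  have hmem : ∀ P' ∈ S.image pt, ∃ z ∈ S, pt z = P' := fun P' hP => Finset.mem_image.1 hP
  have hcast : ∀ x : ℤ, |(x : ℝ)| ≤ (T : ℝ) → |x| ≤ T := by
    intro x hx
    exact_mod_cast hx
  have hhev : ∀ z ∈ S, hev e G z.u z.v z.n = 0 := by
    intro z hz
    obtain ⟨h1, h2, -⟩ := hS z hz
    have h3 := hev_eq e G hGb.2.1 z.u z.v z.n h1.1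
    have h4 : (G.map (mapRingHom (Int.castRingHom ℚ))).evalEval ((z.u : ℚ) / z.v) (z.n : ℚ) = 0 :=
      h2
    rw [h4, mul_zero] at h3
    exact_mod_cast h3
  have h2ae : 2 * a * e < S.card := by
    have : ((2 * a * e : ℕ) : ℝ) < (S.card : ℝ) := c5.trans_le hcard
    exact_mod_cast this
  obtain ⟨q, hqQ, C1, hC1, hcard1, x0, y0, hder, hx0⟩ := exists_cluster a e k Z T hT1 G hG hG1
    hGb.1 hGb.2.1 (fun i j => hcast _ ((hGb.2.2 i j).trans hTA)) (S.image pt)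
    (by rintro P' hP; obtain ⟨z, hz, rfl⟩ := hmem P' hP; exact (hS z hz).1.1)
    (by
      rintro P' hP
      obtain ⟨z, hz, rfl⟩ := hmem P' hP
      obtain ⟨h1, -, h3, h4⟩ := hS z hz
      exact ⟨hcast _ (h3.trans hTA), hcast _ (h4.trans hTA), hcast _ (h1.2.upper.le.trans hTY)⟩)
    (by
      rintro P' hP P'' hP' h
      obtain ⟨z, hz, rfl⟩ := hmem P' hP
      obtain ⟨z', hz', rfl⟩ := hmem P'' hP'
      rw [hinj z hz z' hz' h])
    (by rintro P' hP; obtain ⟨z, hz, rfl⟩ := hmem P' hP; exact hhev z hz)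
    (Q \ F) (fun q hq => ⟨(hQ q (Finset.mem_sdiff.1 hq).1).1, (hQ q (Finset.mem_sdiff.1 hq).1).2.1⟩)
    hQF hsize (by rw [Finset.card_image_of_injOn hptinj]; exact h2ae)
  rw [Finset.mem_sdiff] at hqQ
  obtain ⟨hqp, hZq, hqZ⟩ := hQ q hqQ.1
  have hqle : (q : ℝ) ≤ 2 ^ c0 * (2 * Y ^ ρ) := by
    calc (q : ℝ) ≤ ((2 ^ (2 * k + J) * Z : ℕ) : ℝ) := by exact_mod_cast hqZ
      _ = 2 ^ c0 * (Z : ℝ) := by push_cast; rfl
      _ ≤ 2 ^ c0 * (2 * Y ^ ρ) := by gcongr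
  have hqge : Y ^ ρ ≤ (q : ℝ) := hZle.trans (by exact_mod_cast hZq)
  set C' := S.filter (fun z => pt z ∈ C1) with hC'
  have hC'S : C' ⊆ S := Finset.filter_subset _ _
  have hCC : C1.card = C'.card := by
    have h1 : C1 = C'.image pt := by
      ext P'
      rw [Finset.mem_image]
      constructor
      · intro hP
        obtain ⟨z, hz, rfl⟩ := hmem P' (hC1 hP)
        exact ⟨z, Finset.mem_filter.2 ⟨hz, hP⟩, rfl⟩
      · rintro ⟨z, hz, rfl⟩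
        exact (Finset.mem_filter.1 hz).2
    rw [h1, Finset.card_image_of_injOn (fun z hz z' hz' h => hptinj (hC'S hz) (hC'S hz') h)]
  rw [Finset.card_image_of_injOn hptinj, hCC] at hcard1
  refine ⟨q, hqp, hqQ.2, hqge, C', hC'S, ?_, ?_⟩
  · -- the number of points of the cluster
    by_contra hcon
    push Not at hcon
    have h1 : (S.card : ℝ) ≤ ((2 * a * e : ℕ) : ℝ) + ((2 * a : ℕ) : ℝ) * q * C'.card := by
      exact_mod_cast hcard1
    have h2 : (q : ℝ) * C'.card ≤ 2 ^ c0 * (2 * Y ^ ρ) * Y ^ (ε / 2) :=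
      mul_le_mul hqle hcon.le (Nat.cast_nonneg _) (by positivity)
    have h3 : Y ^ (ρ + ε) = Y ^ ρ * Y ^ (ε / 2) * Y ^ (ε / 2) := by
      rw [← Real.rpow_add hYpos, ← Real.rpow_add hYpos]
      congr 1; ring
    have h4 : (1 : ℝ) ≤ Y ^ (ε / 2) := Real.one_le_rpow hY1 (by linarith)
    set D : ℝ := Y ^ ρ * Y ^ (ε / 2) with hD
    have h5 : (1 : ℝ) ≤ D := by
      rw [hD]
      nlinarith
    have h6 : (S.card : ℝ) ≤ ((2 * a * e + 2 * a * (2 ^ c0 * 2) : ℕ) : ℝ) * D := by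
      refine h1.trans ?_
      have h7 : ((2 * a * e : ℕ) : ℝ) ≤ ((2 * a * e : ℕ) : ℝ) * D :=
        le_mul_of_one_le_right (Nat.cast_nonneg _) h5
      have h8 : ((2 * a : ℕ) : ℝ) * q * C'.card ≤ ((2 * a * (2 ^ c0 * 2) : ℕ) : ℝ) * D := by
        calc ((2 * a : ℕ) : ℝ) * q * C'.card = ((2 * a : ℕ) : ℝ) * (q * C'.card) := by ring
          _ ≤ ((2 * a : ℕ) : ℝ) * (2 ^ c0 * (2 * Y ^ ρ) * Y ^ (ε / 2)) := by gcongr
          _ = ((2 * a * (2 ^ c0 * 2) : ℕ) : ℝ) * D := by rw [hD]; push_cast; ring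
      have h9 : ((2 * a * e + 2 * a * (2 ^ c0 * 2) : ℕ) : ℝ) * D =
          ((2 * a * e : ℕ) : ℝ) * D + ((2 * a * (2 ^ c0 * 2) : ℕ) : ℝ) * D := by push_cast; ring
      rw [h9]
      exact add_le_add h7 h8
    have h7 : ((2 * a * e + 2 * a * (2 ^ c0 * 2) : ℕ) : ℝ) * D < Y ^ (ε / 2) * D :=
      mul_lt_mul_of_pos_right c6 (by linarith)
    have h8 : Y ^ (ρ + ε) = Y ^ (ε / 2) * D := by rw [h3]; ring
    linarith
  · -- the divisibility
    intro lev cols hcols x R hR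
    refine cluster_dvd hb r s e N K Y P G hGb.2.1 q hqp x0 y0 hder C' ?_ lev cols hcols x R hR
    intro z hz
    have hzS := hC'S hz
    obtain ⟨h1, -⟩ := hS z hzS
    obtain ⟨h2, h3, h4⟩ := hx0 (pt z) (Finset.mem_filter.1 hz).2
    refine ⟨h1, hhev z hzS, h2, h3, h4, ?_, ?_⟩
    · intro hd
      have h5 : q ∣ z.p := by exact_mod_cast hd
      have h6 : q = z.p := (Nat.prime_dvd_prime_iff_eq hqp h1.2.prime).1 h5
      have hP0 : 0 < P := by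
        have h7 := h1.2.plt
        have h8 : (0 : ℝ) ≤ (z.p : ℝ) := Nat.cast_nonneg _
        linarith
      have h9 : Y ≤ max L 1 * P := hYP.trans (mul_le_mul_of_nonneg_right (le_max_left _ _) hP0.le)
      have h10 : Y ^ ρ ≤ Y ^ ((1 : ℝ) / 2) := Real.rpow_le_rpow_of_exponent_le hY1 hρ1
      have hL0 : (0 : ℝ) < max L 1 := lt_of_lt_of_le one_pos (le_max_right _ _)
      have hY2 : Y ^ ((1 : ℝ) / 2) * Y ^ ((1 : ℝ) / 2) = Y := by
        rw [← Real.rpow_add hYpos]; norm_num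
      have h11 : max L 1 * (q : ℝ) < Y := by
        calc max L 1 * (q : ℝ) ≤ max L 1 * (2 ^ c0 * (2 * Y ^ ρ)) := by gcongr
          _ = 2 ^ (c0 + 1) * max L 1 * Y ^ ρ := by rw [pow_succ]; ring
          _ ≤ 2 ^ (c0 + 1) * max L 1 * Y ^ ((1 : ℝ) / 2) := by gcongr
          _ < Y ^ ((1 : ℝ) / 2) * Y ^ ((1 : ℝ) / 2) :=
              mul_lt_mul_of_pos_right c4 (Real.rpow_pos_of_pos hYpos _)
          _ = Y := hY2
      have h12 : P ≤ (q : ℝ) := by rw [h6]; exact h1.2.ple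
      have h13 : max L 1 * P ≤ max L 1 * (q : ℝ) := mul_le_mul_of_nonneg_left h12 hL0.le
      linarith
    · intro hd
      have h5 : (q : ℤ) ≤ |z.m| :=
        Int.le_of_dvd (abs_pos.2 h1.2.m_ne) ((dvd_abs _ _).2 hd)
      have h6 : (q : ℝ) ≤ |(z.m : ℝ)| := by exact_mod_cast h5
      have h7 := h1.2.m_le
      linarith

theorem acluster {g : ℤ[X]} {θ : Fin 4 → ℂ} (hg : Roots4 g θ) (i s a e J N : ℕ) (K L A ρ ε : ℝ)
    (hρ : 0 < ρ) (hρ1 : ρ ≤ 1 / 2) (hε : 0 < ε) :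
    ∃ Y0 : ℝ, 1 ≤ Y0 ∧ ∀ Y P : ℝ, Y0 ≤ Y → Y ≤ L * P → P ≤ Y ^ A → ∀ e1 e2 : Fin 4 → ℤ,
      SliceOK θ (Y ^ A) e1 e2 → ∀ G : ℤ[X][X], Irreducible G → 1 ≤ G.natDegree →
      Bdd a e (Y ^ A) G → ∀ S : Finset ZPt,
      (∀ z ∈ S, AOK g K Y P e1 e2 z ∧ On G z ∧ |(z.u : ℝ)| ≤ Y ^ A ∧ |(z.v : ℝ)| ≤ Y ^ A) →
      TInj S → Y ^ (ρ + ε) ≤ S.card → ∀ F : Finset ℕ, F.card < J →
      ∃ q : ℕ, q.Prime ∧ q ∉ F ∧ Y ^ ρ ≤ q ∧ ∃ C' ⊆ S, Y ^ (ε / 2) ≤ C'.card ∧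
        ∀ cols : Fin N → ℕ × (Fin 4 → ℕ), (∀ c, IsCol i s (cols c)) →
        ∀ (x : Fin N → ZPt) (R : Finset (Fin N)), (∀ r ∈ R, x r ∈ C') →
          (q : ℤ) ^ (R.card * (R.card - 1) / 2) ∣
            Matrix.det (Matrix.of fun r c => fv i (cols c) (x r)) := by
  obtain _ | i := i
  · obtain ⟨Y0, h1, h2⟩ := acluster' hg 0 s a e J N K L A ρ ε hρ hρ1 hε
    refine ⟨Y0, h1, fun Y P hY hYP hP e1 e2 hs G hG hG1 hGb S hS hinj hcard F hF => ?_⟩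
    obtain ⟨q, hq, hqF, hYq, C', hC', hcC, hdiv⟩ := h2 Y P hY hYP hP e1 e2 hs G hG hG1 hGb S hS hinj
      hcard F hF
    refine ⟨q, hq, hqF, hYq, C', hC', hcC, fun cols hcols x R hR => ?_⟩
    simpa using hdiv (fun _ => 0) cols (fun c => by simpa using hcols c) x R hR
  · obtain ⟨Y0, h1, h2⟩ := acluster' hg (i + 1) s a e J N K L A ρ ε hρ hρ1 hε
    refine ⟨Y0, h1, fun Y P hY hYP hP e1 e2 hs G hG hG1 hGb S hS hinj hcard F hF => ?_⟩
    obtain ⟨q, hq, hqF, hYq, C', hC', hcC, hdiv⟩ := h2 Y P hY hYP hP e1 e2 hs G hG hG1 hGb S hS hinj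
      hcard F hF
    refine ⟨q, hq, hqF, hYq, C', hC', hcC, fun cols hcols x R hR => ?_⟩
    simpa using hdiv (fun _ => 0) cols (fun c => by simpa using hcols c) x R hR

end Pool.Agent.Lib.SQF
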