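import Pool.Agent.Lib.SQF.AEval

/-!
# SQF: independent monomial forms on an α-slice

From `exists_b`, `fv_eval` (`j = 0`) and `exists_indep_monomials` (IndA, applied to `toC (b j)`): `F = ∑ k_c fpol b c`
is nonzero since `toC F = ∑ k_c toC (fpol b c)` and the `toC (fpol b c)` are independent; degrees by
`natDegree_prod_le`, coefficients of a product of `s` polynomials of bounded degree at most `C (B E^6)^s`.
`On F z ↔ hev F = 0` (`hev_eq`, `v ≠ 0`) `↔ ∑ k_c fv_c = 0` (`p m ≠ 0`, `m ≠ 0`).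
-/

set_option autoImplicit false

open Polynomial

namespace Pool.Agent.Lib.SQF

private lemma ac_sum_le (f : ℕ → ℝ) (l a : ℕ) (M : ℝ) (hM : 0 ≤ M) (h1 : ∀ k, f k ≤ M)
    (h2 : ∀ k, a < k → f k = 0) : ∑ k ∈ Finset.range l, f k ≤ (a + 1) * M := by
  have h3 : ∑ k ∈ Finset.range l, f k = ∑ k ∈ (Finset.range l).filter (fun k => k ≤ a), f k := by
    rw [Finset.sum_filter]
    refine Finset.sum_congr rfl fun k _ => ?_
    split_ifs with h
    · rfl
    · exact h2 k (by omega)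
  rw [h3]
  refine (Finset.sum_le_sum fun k _ => h1 k).trans ?_
  rw [Finset.sum_const, nsmul_eq_mul]
  refine mul_le_mul_of_nonneg_right ?_ hM
  have h4 : ((Finset.range l).filter (fun k => k ≤ a)).card ≤ a + 1 := by
    rw [← Finset.card_range (a + 1)]
    refine Finset.card_le_card fun k hk => ?_
    rw [Finset.mem_filter] at hk
    rw [Finset.mem_range]
    omega
  exact_mod_cast h4

/-- products of bounded polynomials -/
lemma bdd_mul {a1 e1 a2 e2 : ℕ} {T1 T2 : ℝ} {F1 F2 : ℤ[X][X]} (hT1 : 0 ≤ T1) (hT2 : 0 ≤ T2)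
    (h1 : Bdd a1 e1 T1 F1) (h2 : Bdd a2 e2 T2 F2) :
    Bdd (a1 + a2) (e1 + e2) ((a1 + 1) * ((e1 + 1) * (T1 * T2))) (F1 * F2) := by
  refine ⟨natDegree_mul_le.trans (Nat.add_le_add h1.1 h2.1), ?_, ?_⟩
  · exact (Bez.degT_le_iff _ _).1 ((Bez.degT_mul_le _ _).trans (Nat.add_le_add
      ((Bez.degT_le_iff _ _).2 h1.2.1) ((Bez.degT_le_iff _ _).2 h2.2.1)))
  · intro l l'
    rw [coeff_mul, Finset.Nat.sum_antidiagonal_eq_sum_range_succ_mk, finsetSum_coeff]
    push_cast
    refine (Finset.abs_sum_le_sum_abs _ _).trans ?_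
    refine ac_sum_le _ _ a1 _ (by positivity) (fun k => ?_) (fun k hk => ?_)
    · rw [coeff_mul, Finset.Nat.sum_antidiagonal_eq_sum_range_succ_mk]
      push_cast
      refine (Finset.abs_sum_le_sum_abs _ _).trans ?_
      refine ac_sum_le _ _ e1 _ (by positivity) (fun k' => ?_) (fun k' hk' => ?_)
      · rw [abs_mul]
        exact mul_le_mul (h1.2.2 _ _) (h2.2.2 _ _) (abs_nonneg _) hT1
      · have : (F1.coeff k).coeff k' = 0 :=
          coeff_eq_zero_of_natDegree_lt ((h1.2.1 k).trans_lt hk')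
        simp [this]
    · have : F1.coeff k = 0 := coeff_eq_zero_of_natDegree_lt (h1.1.trans_lt hk)
      simp [this]

lemma bdd_mono {a e a' e' : ℕ} {T T' : ℝ} {F : ℤ[X][X]} (h : Bdd a e T F) (ha : a ≤ a')
    (he : e ≤ e') (hT : T ≤ T') : Bdd a' e' T' F :=
  ⟨h.1.trans ha, fun l => (h.2.1 l).trans he, fun l l' => (h.2.2 l l').trans hT⟩

lemma bdd_pow_mul {a e k : ℕ} {M T : ℝ} {F Q : ℤ[X][X]} (hM : 0 ≤ M) (hT : 0 ≤ T)
    (hF : Bdd 1 6 M F) (hQ : Bdd a e T Q) :
    Bdd (k + a) (6 * k + e) ((14 * M) ^ k * T) (F ^ k * Q) := by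
  induction k with
  | zero => simpa using hQ
  | succ k ih =>
    have h1 := bdd_mul hM (by positivity) hF ih
    have e1 : F ^ (k + 1) * Q = F * (F ^ k * Q) := by ring
    rw [e1]
    refine bdd_mono h1 (by omega) (by omega) (le_of_eq ?_)
    push_cast
    ring

lemma bdd_prod {M : ℝ} {b : Fin 4 → ℤ[X][X]} (hM : 0 ≤ M) (hb : ∀ j, Bdd 1 6 M (b j))
    (c : Fin 4 → ℕ) (S : Finset (Fin 4)) :
    Bdd (∑ j ∈ S, c j) (6 * ∑ j ∈ S, c j) ((14 * M) ^ (∑ j ∈ S, c j)) (∏ j ∈ S, b j ^ c j) := by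
  classical
  induction S using Finset.induction_on with
  | empty =>
    refine ⟨by simp, fun l => ?_, fun l l' => ?_⟩
    · simp only [Finset.prod_empty, coeff_one]
      split_ifs <;> simp
    · simp only [Finset.prod_empty, coeff_one, Finset.sum_empty, pow_zero]
      split_ifs
      · rw [coeff_one]
        split_ifs <;> simp
      · simp
  | insert j S hj ih =>
    rw [Finset.prod_insert hj, Finset.sum_insert hj]
    refine bdd_mono (bdd_pow_mul hM (by positivity) (hb j) ih) le_rfl (by omega) (le_of_eq ?_)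
    rw [pow_add]

lemma bdd_fpol {M : ℝ} {b : Fin 4 → ℤ[X][X]} (hM : 0 ≤ M) (hb : ∀ j, Bdd 1 6 M (b j)) {i s : ℕ}
    {c : ℕ × (Fin 4 → ℕ)} (hc : IsCol i s c) :
    Bdd s (6 * s + i) ((i + 1) * (14 * M) ^ s) (fpol b c) := by
  have h1 := bdd_prod hM hb c.2 Finset.univ
  rw [hc.2] at h1
  have h2 : Bdd 0 i 1 (C (X ^ c.1) : ℤ[X][X]) := by
    refine ⟨by simp, fun l => ?_, fun l l' => ?_⟩
    · rw [coeff_C]
      split_ifs
      · rw [natDegree_X_pow]; exact hc.1
      · simp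
    · rw [coeff_C]
      split_ifs
      · rw [coeff_X_pow]
        split_ifs <;> simp
      · simp
  refine bdd_mono (bdd_mul zero_le_one (by positivity) h2 h1) (by omega) (by omega)
    (le_of_eq ?_)
  push_cast
  ring

lemma bdd_comb {N a e : ℕ} {M T : ℝ} {F : Fin N → ℤ[X][X]}
    (hF : ∀ c, Bdd a e M (F c)) (k : Fin N → ℤ) (hk : ∀ c, |((k c : ℤ) : ℝ)| ≤ T) :
    Bdd a e (N * (T * M)) (∑ c, C (C (k c)) * F c) := by
  refine ⟨?_, fun l => ?_, fun l l' => ?_⟩
  · exact natDegree_sum_le_of_forall_le _ _ fun c _ => (natDegree_C_mul_le _ _).trans (hF c).1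
  · rw [finsetSum_coeff]
    refine natDegree_sum_le_of_forall_le _ _ fun c _ => ?_
    rw [coeff_C_mul]
    exact (natDegree_C_mul_le _ _).trans ((hF c).2.1 l)
  · rw [finsetSum_coeff, finsetSum_coeff]
    push_cast
    refine (Finset.abs_sum_le_sum_abs _ _).trans ?_
    refine (Finset.sum_le_sum (g := fun _ => T * M) fun c _ => ?_).trans (le_of_eq ?_)
    · rw [coeff_C_mul, coeff_C_mul]
      push_cast
      rw [abs_mul]
      exact mul_le_mul (hk c) ((hF c).2.2 l l') (abs_nonneg _)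
        ((abs_nonneg _).trans (hk c))
    · rw [Finset.sum_const, Finset.card_univ, Fintype.card_fin, nsmul_eq_mul]

lemma toC_fpol (b : Fin 4 → ℤ[X][X]) (c : ℕ × (Fin 4 → ℕ)) :
    toC (fpol b c) = C (X ^ c.1) * ∏ j, toC (b j) ^ c.2 j := by
  simp [toC, fpol, Polynomial.map_mul, Polynomial.map_prod, Polynomial.map_pow]

lemma toC_comb {N : ℕ} (k : Fin N → ℤ) (F : Fin N → ℤ[X][X]) :
    toC (∑ c, C (C (k c)) * F c) = ∑ c, ((k c : ℤ) : ℂ) • toC (F c) := by
  rw [toC, Polynomial.map_sum]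
  refine Finset.sum_congr rfl fun c _ => ?_
  rw [Polynomial.map_mul, map_C, coe_mapRingHom, map_C, eq_intCast, toC]
  rw [← smul_eq_C_mul, ← Polynomial.algebraMap_eq, algebraMap_smul]

theorem exists_cols {g : ℤ[X]} {θ : Fin 4 → ℂ} (hg : Roots4 g θ) (i s N : ℕ) (hi : 1 ≤ i)
    (hN : N = (s + 1) * (2 * s + 1 + i)) :
    ∃ B : ℝ, 1 ≤ B ∧ ∀ E : ℝ, 1 ≤ E → ∀ e1 e2 : Fin 4 → ℤ, SliceOK θ E e1 e2 →
      ∃ cols : Fin N → ℕ × (Fin 4 → ℕ), GoodCols g e1 e2 i s N (B * E ^ (6 * s)) cols := by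
  subst hN
  set N := (s + 1) * (2 * s + 1 + i) with hN
  obtain ⟨B0, hB0, H⟩ := exists_b hg
  refine ⟨((N : ℝ) + 1) * ((i + 1) * (14 * B0) ^ s), ?_, ?_⟩
  · have h1 : (1 : ℝ) ≤ (14 * B0) ^ s := one_le_pow₀ (by linarith)
    have h2 : (1 : ℝ) ≤ (i : ℝ) + 1 := by linarith [(Nat.cast_nonneg i : (0 : ℝ) ≤ i)]
    have h3 : (1 : ℝ) ≤ (N : ℝ) + 1 := by linarith [(Nat.cast_nonneg N : (0 : ℝ) ≤ N)]
    exact one_le_mul_of_one_le_of_one_le h3 (one_le_mul_of_one_le_of_one_le h2 h1)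
  · intro E hE e1 e2 hs
    obtain ⟨b, ν, hb⟩ := H E hE e1 e2 hs
    have hr := roots_of hg
    have hinj : Function.Injective (tt θ e1 e2) := AE.tauS_injective hr hs.ne1 hs.dist
    obtain ⟨cols, h1, -, h3⟩ := exists_indep_monomials θ (tt θ e1 e2) hg.inj hinj
      (fun j => toC (b j)) hb.span i s hi
    refine ⟨cols, h1, fun k hk => ⟨∑ c, C (C (k c)) * fpol b (cols c), ?_, ?_, ?_⟩⟩
    · intro h0
      apply hk
      have h4 := toC_comb k (fun c => fpol b (cols c))
      rw [h0] at h4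
      simp only [toC_fpol] at h4
      have h5 : (toC 0 : ℂ[X][X]) = 0 := by simp [toC]
      rw [h5] at h4
      have h6 := Fintype.linearIndependent_iff.1 h3 (fun c => ((k c : ℤ) : ℂ)) h4.symm
      funext c
      have := h6 c
      simpa using this
    · intro T hT
      have hM : 0 ≤ B0 * E ^ 6 := by positivity
      rcases Nat.eq_zero_or_pos N with h0 | h0
      · exfalso
        apply hk
        funext c
        exact absurd c.2 (by omega)
      have hT0 : 0 ≤ T := (abs_nonneg _).trans (hT ⟨0, h0⟩)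
      refine bdd_mono (bdd_comb (fun c => bdd_fpol hM hb.bdd (h1 c)) k hT)
        le_rfl le_rfl ?_
      have h4 : (14 * (B0 * E ^ 6)) ^ s = (14 * B0) ^ s * E ^ (6 * s) := by
        rw [pow_mul, ← mul_pow]
        congr 1
        ring
      rw [h4]
      have h5 : 0 ≤ T * ((i + 1) * ((14 * B0) ^ s * E ^ (6 * s))) := by positivity
      calc (N : ℝ) * (T * ((i + 1) * ((14 * B0) ^ s * E ^ (6 * s))))
          ≤ ((N : ℝ) + 1) * (T * ((i + 1) * ((14 * B0) ^ s * E ^ (6 * s)))) := by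
            refine mul_le_mul_of_nonneg_right (by linarith) h5
        _ = _ := by ring
    · intro K Y P z hz
      have hv := hz.1
      have hv' : (z.v : ℚ) ≠ 0 := by exact_mod_cast hv
      have hp : (z.p : ℤ) ≠ 0 := by exact_mod_cast hz.2.prime.ne_zero
      have hm := hz.2.m_ne
      have hbd : ∀ c, Bdd s (6 * s + i) ((i + 1) * (14 * (B0 * E ^ 6)) ^ s) (fpol b (cols c)) :=
        fun c => bdd_fpol (by positivity) hb.bdd (h1 c)
      have h4 : ∀ c, (((z.p : ℤ) * z.m) ^ 2) ^ s * fv i (cols c) z =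
          (z.m ^ 2) ^ s * hev (6 * s + i) (fpol b (cols c)) z.u z.v z.n := by
        intro c
        have := fv_eval hb i s 0 (cols c) (h1 c) K Y P z hz
        simpa using this
      have h5 : ((((z.p : ℤ) * z.m) ^ 2) ^ s : ℚ) *
          ((∑ c, k c * fv i (cols c) z : ℤ) : ℚ) = ((z.m : ℚ) ^ 2) ^ s * ((z.v : ℚ) ^ (6 * s + i) *
          ((∑ c, C (C (k c)) * fpol b (cols c)).map
            (mapRingHom (Int.castRingHom ℚ))).evalEval ((z.u : ℚ) / z.v) (z.n : ℚ)) := by
        have h6 : ((∑ c, C (C (k c)) * fpol b (cols c)).map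
            (mapRingHom (Int.castRingHom ℚ))).evalEval ((z.u : ℚ) / z.v) (z.n : ℚ) =
            ∑ c, (k c : ℚ) * ((fpol b (cols c)).map
            (mapRingHom (Int.castRingHom ℚ))).evalEval ((z.u : ℚ) / z.v) (z.n : ℚ) := by
          rw [Polynomial.map_sum, evalEval_finsetSum]
          refine Finset.sum_congr rfl fun c _ => ?_
          rw [Polynomial.map_mul, evalEval_mul, Polynomial.map_C, coe_mapRingHom, Polynomial.map_C,
            evalEval_CC, eq_intCast]
        rw [h6]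
        push_cast
        rw [Finset.mul_sum, Finset.mul_sum, Finset.mul_sum]
        refine Finset.sum_congr rfl fun c _ => ?_
        have h7 : (((((z.p : ℤ) * z.m) ^ 2) ^ s * fv i (cols c) z : ℤ) : ℚ) =
            (((z.m ^ 2) ^ s * hev (6 * s + i) (fpol b (cols c)) z.u z.v z.n : ℤ) : ℚ) := by
          rw [h4 c]
        push_cast at h7
        have h8 := hev_eq (6 * s + i) (fpol b (cols c)) (hbd c).2.1 z.u z.v z.n hv
        rw [h8] at h7
        linear_combination (k c : ℚ) * h7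
      have hA : ((((z.p : ℤ) * z.m) ^ 2) ^ s : ℚ) ≠ 0 := by
        have h9 : ((z.p : ℤ) : ℚ) ≠ 0 := by exact_mod_cast hp
        have h10 : (z.m : ℚ) ≠ 0 := by exact_mod_cast hm
        positivity
      have hB : ((z.m : ℚ) ^ 2) ^ s ≠ 0 := by
        have h10 : (z.m : ℚ) ≠ 0 := by exact_mod_cast hm
        positivity
      constructor
      · intro hon
        unfold On at hon
        rw [hon, mul_zero, mul_zero] at h5
        have := (mul_eq_zero.1 h5).resolve_left hA
        exact_mod_cast this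
      · intro h0
        rw [h0, Int.cast_zero, mul_zero] at h5
        have h11 := (mul_eq_zero.1 h5.symm).resolve_left hB
        exact (mul_eq_zero.1 h11).resolve_left (pow_ne_zero _ hv')

end Pool.Agent.Lib.SQF
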