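import Pool.Agent.Lib.SQF.ADefs
import Pool.Agent.Lib.SQF4.Basis

/-!
# SQF: auxiliary lemmas for the per-slice theorem A
-/

set_option autoImplicit false

open Polynomial

namespace Pool.Agent.Lib.SQF

open Pool.Agent.SQF4 (sn RBasis)

/-- the scales are nonnegative and decreasing -/
lemma acore_w (T : ℕ) (w : ℕ → ℝ) (hwT : w T = 0) (hw : ∀ l, l < T → w (l + 1) < w l) :
    (∀ l l', l' ≤ l → l ≤ T → w l ≤ w l') ∧ ∀ l, l ≤ T → 0 ≤ w l := by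
  have h1 : ∀ d l', l' + d ≤ T → w (l' + d) ≤ w l' := by
    intro d
    induction d with
    | zero => intro l' _; exact le_rfl
    | succ d ih =>
      intro l' h
      have h2 := ih l' (by omega)
      have h3 := hw (l' + d) (by omega)
      rw [← add_assoc]
      linarith
  refine ⟨?_, ?_⟩
  · intro l l' h h'
    have h2 := h1 (l - l') l' (by omega)
    rwa [Nat.add_sub_cancel' h] at h2
  · intro l h
    have h2 := h1 (T - l) l (by omega)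
    rw [Nat.add_sub_cancel' h, hwT] at h2
    exact h2

lemma IsSol.mono' {g : ℤ[X]} {K K' Y P : ℝ} {n : ℤ} {p : ℕ} {α β : Fin 4 → ℤ} {m : ℤ}
    (h : IsSol 4 g K Y P n p α β m) (hK : K ≤ K') (hY : 0 ≤ Y) (hP : 0 ≤ P) :
    IsSol 4 g K' Y P n p α β m where
  lower := h.lower
  upper := h.upper
  prime := h.prime
  ple := h.ple
  plt := h.plt
  sq_dvd := h.sq_dvd
  m_ne := h.m_ne
  m_le := h.m_le.trans hK
  eqn := h.eqn
  dvd_eval := h.dvd_eval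
  res := h.res
  not_dvd := h.not_dvd
  coeffα := fun i => (h.coeffα i).trans (by gcongr)
  coeffβ := fun i => (h.coeffβ i).trans (by gcongr)
  lowα := fun z hz => (h.lowα z hz).trans (by gcongr)
  uppα := fun z hz => (h.uppα z hz).trans (by gcongr)
  lowβ := fun z hz => (h.lowβ z hz).trans (by gcongr)
  uppβ := fun z hz => (h.uppβ z hz).trans (by gcongr)

lemma AOK.mono {g : ℤ[X]} {K K' Y P : ℝ} {e1 e2 : Fin 4 → ℤ} {z : ZPt}
    (h : AOK g K Y P e1 e2 z) (hK : K ≤ K') (hY : 0 ≤ Y) (hP : 0 ≤ P) :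
    AOK g K' Y P e1 e2 z := ⟨h.1, h.2.mono' hK hY hP⟩

lemma Bdd.monoT {a e : ℕ} {T T' : ℝ} {G : ℤ[X][X]} (h : Bdd a e T G) (hT : T ≤ T') :
    Bdd a e T' G := ⟨h.1, h.2.1, fun l l' => (h.2.2 l l').trans hT⟩

lemma SliceOK.mono {θ : Fin 4 → ℂ} {E E' : ℝ} {e1 e2 : Fin 4 → ℤ} (h : SliceOK θ E e1 e2)
    (hE : E ≤ E') : SliceOK θ E' e1 e2 :=
  ⟨h.ne1, h.ne2, h.dist, fun j => (h.le1 j).trans hE, fun j => (h.le2 j).trans hE⟩

lemma GoodCols.mono {g : ℤ[X]} {e1 e2 : Fin 4 → ℤ} {i s N : ℕ} {B B' : ℝ}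
    {cols : Fin N → ℕ × (Fin 4 → ℕ)} (h : GoodCols g e1 e2 i s N B cols) (hB : B ≤ B') :
    GoodCols g e1 e2 i s N B' cols := by
  refine ⟨h.1, fun k hk => ?_⟩
  obtain ⟨F, hF, hb, hz⟩ := h.2 k hk
  refine ⟨F, hF, fun T hT => (hb T hT).monoT ?_, hz⟩
  obtain ⟨c, _⟩ : ∃ c, k c ≠ 0 := by
    by_contra hcon
    push Not at hcon
    exact hk (funext hcon)
  exact mul_le_mul_of_nonneg_right hB ((abs_nonneg _).trans (hT c))

/-- sizes of the coordinates -/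
lemma acore_size {g : ℤ[X]} {K Y P x1 : ℝ} (hK : 1 ≤ K) (hY : 1 ≤ Y) (hP : 1 ≤ P)
    {a b e1 e2 : Fin 4 → ℤ} (hb : RBasis a b e1 e2)
    (hlow : P ^ ((1 : ℝ) / 12) ≤ K * Y ^ x1 * (sn e1 : ℝ)) {z : ZPt}
    (hz : AOK g K Y P e1 e2 z) :
    |(z.u : ℝ)| ≤ 6 * K ^ 2 * P ^ ((1 : ℝ) / 6) * Y ^ x1 ∧
      |(z.v : ℝ)| ≤ 6 * K ^ 2 * P ^ ((1 : ℝ) / 6) * Y ^ x1 := by
  have hK0 : 0 < K := by linarith
  have hP0 : 0 < P := by linarith
  have hYx : 0 < Y ^ x1 := Real.rpow_pos_of_pos (by linarith) _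
  have ha : z.a e1 e2 = z.u • e1 + z.v • e2 := by
    funext i
    simp [ZPt.a]
  have hP4 : P ^ ((1 : ℝ) / ((4 : ℕ) : ℝ)) = P ^ ((1 : ℝ) / 12) * P ^ ((1 : ℝ) / 6) := by
    rw [← Real.rpow_add hP0]
    norm_num
  have hsn : (sn (z.a e1 e2) : ℝ) ≤ K * (P ^ ((1 : ℝ) / 12) * P ^ ((1 : ℝ) / 6)) := by
    obtain ⟨i, hi⟩ := Pool.Agent.SQF4.exists_eq_sn (z.a e1 e2)
    have h1 := hz.2.coeffα i
    rw [hP4] at h1
    have h2 : ((sn (z.a e1 e2) : ℕ) : ℝ) = |((z.a e1 e2 i : ℤ) : ℝ)| := by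
      rw [← hi, Nat.cast_natAbs]
      push_cast
      rfl
    rw [h2]
    exact h1
  have hs1 := hb.size1 z.u z.v
  have hs2 := hb.size2 z.u z.v
  rw [← ha] at hs1 hs2
  have hs1' : |(z.u : ℝ)| * sn e1 ≤ 3 * sn (z.a e1 e2) := by
    have h2 : ((z.u.natAbs * sn e1 : ℕ) : ℝ) ≤ ((3 * sn (z.a e1 e2) : ℕ) : ℝ) := by
      exact_mod_cast hs1
    push_cast at h2
    rw [Nat.cast_natAbs] at h2
    push_cast at h2
    exact h2
  have hs2' : |(z.v : ℝ)| * sn e2 ≤ 3 * sn (z.a e1 e2) := by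
    have h2 : ((z.v.natAbs * sn e2 : ℕ) : ℝ) ≤ ((3 * sn (z.a e1 e2) : ℕ) : ℝ) := by
      exact_mod_cast hs2
    push_cast at h2
    rw [Nat.cast_natAbs] at h2
    push_cast at h2
    exact h2
  have h12 : (sn e1 : ℝ) ≤ 2 * sn e2 := by
    have h2 : ((sn e1 : ℕ) : ℝ) ≤ ((2 * sn e2 : ℕ) : ℝ) := by exact_mod_cast hb.sn_le
    push_cast at h2
    exact h2
  have he1 : (0 : ℝ) < sn e1 := by
    exact_mod_cast Pool.Agent.SQF4.sn_pos e1 hb.ne1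
  have he2 : (0 : ℝ) < sn e2 := by
    exact_mod_cast Pool.Agent.SQF4.sn_pos e2 hb.ne2
  set Q := P ^ ((1 : ℝ) / 6) with hQ
  have hQ0 : 0 < Q := Real.rpow_pos_of_pos hP0 _
  set R := P ^ ((1 : ℝ) / 12) with hR
  have key : 3 * (sn (z.a e1 e2) : ℝ) ≤ 3 * K ^ 2 * Q * Y ^ x1 * sn e1 := by
    calc 3 * (sn (z.a e1 e2) : ℝ) ≤ 3 * (K * (R * Q)) := by linarith
      _ ≤ 3 * (K * ((K * Y ^ x1 * (sn e1 : ℝ)) * Q)) := by gcongr
      _ = 3 * K ^ 2 * Q * Y ^ x1 * sn e1 := by ring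
  constructor
  · have h3 : |(z.u : ℝ)| * sn e1 ≤ (3 * K ^ 2 * Q * Y ^ x1) * sn e1 := hs1'.trans key
    have h4 := le_of_mul_le_mul_right h3 he1
    have h5 : 0 ≤ 3 * K ^ 2 * Q * Y ^ x1 := by positivity
    linarith
  · have h3 : |(z.v : ℝ)| * sn e2 ≤ (6 * K ^ 2 * Q * Y ^ x1) * sn e2 := by
      refine hs2'.trans (key.trans ?_)
      have h5 : 0 ≤ 3 * K ^ 2 * Q * Y ^ x1 := by positivity
      nlinarith
    exact le_of_mul_le_mul_right h3 he2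

lemma acore_KK {K : ℝ} (hK : 1 ≤ K) : K ≤ 6 * K ^ 2 := by nlinarith

lemma acore_rpow {x Y t : ℝ} (hx : 0 ≤ x) (ht : 0 < t) (h : x ^ (1 / t) ≤ Y) : x ≤ Y ^ t := by
  have h1 := Real.rpow_le_rpow (Real.rpow_nonneg hx _) h ht.le
  rwa [← Real.rpow_mul hx, one_div, inv_mul_cancel₀ ht.ne', Real.rpow_one] at h1

lemma acore_big {K Y P x : ℝ} (hY : 1 ≤ Y) (hP : 0 < P) (hK : 0 ≤ K) (hKY : K ^ 2 ≤ Y)
    (hPY : P ≤ Y ^ ((3 : ℝ) / 2)) (hx : x ≤ 1 / 4) : K * P ^ ((1 : ℝ) / 6) * Y ^ x ≤ Y := by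
  have hY0 : 0 < Y := by linarith
  have h1 : K ≤ Y ^ ((1 : ℝ) / 2) := by
    rw [← Real.sqrt_eq_rpow]
    exact Real.le_sqrt_of_sq_le hKY
  have h2 : P ^ ((1 : ℝ) / 6) ≤ Y ^ ((1 : ℝ) / 4) := by
    have h3 := Real.rpow_le_rpow hP.le hPY (by norm_num : (0 : ℝ) ≤ 1 / 6)
    rw [← Real.rpow_mul hY0.le] at h3
    norm_num at h3 ⊢
    exact h3
  have h3 : Y ^ x ≤ Y ^ ((1 : ℝ) / 4) := Real.rpow_le_rpow_of_exponent_le hY hx
  calc K * P ^ ((1 : ℝ) / 6) * Y ^ x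
      ≤ Y ^ ((1 : ℝ) / 2) * Y ^ ((1 : ℝ) / 4) * Y ^ ((1 : ℝ) / 4) := by
        have := Real.rpow_nonneg hP.le ((1 : ℝ) / 6)
        have := Real.rpow_nonneg hY0.le x
        gcongr
    _ = Y := by
      rw [← Real.rpow_add hY0, ← Real.rpow_add hY0]
      norm_num

/-- points on bad curves -/
lemma acore_bad {α κ ι : Type*} [DecidableEq α] [DecidableEq κ] [DecidableEq ι] (S : Finset α)
    (f : α → ι) (Γ : ι → Finset κ) (O : κ → α → Prop) (Q : κ → Prop) (s A : ℕ) (b : ℝ)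
    (hb : 0 ≤ b) (hA : (S.image f).card ≤ A) (hΓ : ∀ a, (Γ a).card ≤ s) (S' : Finset α)
    (hS' : S' ⊆ S) (h : ∀ x ∈ S', ∃ γ ∈ Γ (f x), Q γ ∧ O γ x)
    (hcard : ∀ a, ∀ γ ∈ Γ a, Q γ → ∀ U ⊆ S, (∀ x ∈ U, O γ x) → (U.card : ℝ) ≤ b) :
    (S'.card : ℝ) ≤ A * (s * b) := by
  classical
  have h1 : S' ⊆ (S.image f).biUnion fun a => ((Γ a).filter Q).biUnion fun γ =>
      S.filter (O γ) := by
    intro x hx
    obtain ⟨γ, hγ, hQ, hO⟩ := h x hx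
    rw [Finset.mem_biUnion]
    refine ⟨f x, Finset.mem_image_of_mem _ (hS' hx), ?_⟩
    rw [Finset.mem_biUnion]
    exact ⟨γ, Finset.mem_filter.2 ⟨hγ, hQ⟩, Finset.mem_filter.2 ⟨hS' hx, hO⟩⟩
  have h2 : ((S'.card : ℕ) : ℝ) ≤ ∑ a ∈ S.image f, ∑ γ ∈ (Γ a).filter Q,
      ((S.filter (O γ)).card : ℝ) := by
    have h3 := (Finset.card_le_card h1).trans Finset.card_biUnion_le
    have h4 : ((S'.card : ℕ) : ℝ) ≤ ((∑ a ∈ S.image f, (((Γ a).filter Q).biUnion fun γ =>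
      S.filter (O γ)).card : ℕ) : ℝ) := by exact_mod_cast h3
    refine h4.trans ?_
    push_cast
    refine Finset.sum_le_sum fun a _ => ?_
    have h5 : (((Γ a).filter Q).biUnion fun γ => S.filter (O γ)).card ≤
      ∑ γ ∈ (Γ a).filter Q, (S.filter (O γ)).card := Finset.card_biUnion_le
    exact_mod_cast h5
  refine h2.trans ?_
  have h3 : ∀ a ∈ S.image f, ∑ γ ∈ (Γ a).filter Q, ((S.filter (O γ)).card : ℝ) ≤ s * b := by
    intro a _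
    have h4 : ∑ γ ∈ (Γ a).filter Q, ((S.filter (O γ)).card : ℝ) ≤
        ((Γ a).filter Q).card • b := by
      refine Finset.sum_le_card_nsmul _ _ _ fun γ hγ => ?_
      rw [Finset.mem_filter] at hγ
      exact hcard a γ hγ.1 hγ.2 _ (Finset.filter_subset _ _)
        (fun x hx => (Finset.mem_filter.1 hx).2)
    refine h4.trans ?_
    rw [nsmul_eq_mul]
    have h5 : (((Γ a).filter Q).card : ℝ) ≤ s := by
      exact_mod_cast (Finset.card_filter_le _ _).trans (hΓ a)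
    exact mul_le_mul_of_nonneg_right h5 hb
  refine (Finset.sum_le_card_nsmul _ _ _ h3).trans ?_
  rw [nsmul_eq_mul]
  have h5 : ((S.image f).card : ℝ) ≤ A := by exact_mod_cast hA
  exact mul_le_mul_of_nonneg_right h5 (by positivity)

/-- exceptional points -/
lemma acore_exc {α ι : Type*} [DecidableEq α] [DecidableEq ι] (S : Finset α)
    (f : α → ι) (A m : ℕ) (hA : (S.image f).card ≤ A) (S' : Finset α) (hS' : S' ⊆ S)
    (h : ∀ a, (S'.filter fun x => f x = a).card ≤ m) : S'.card ≤ A * m := by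
  have h1 : (S'.image f).card ≤ A :=
    (Finset.card_le_card (Finset.image_subset_image hS')).trans hA
  have h2 := Finset.card_le_mul_card_image (s := S') (f := f) m (fun a _ => h a)
  calc S'.card ≤ m * (S'.image f).card := h2
    _ ≤ m * A := Nat.mul_le_mul_left _ h1
    _ = A * m := mul_comm _ _

end Pool.Agent.Lib.SQF
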