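import Mathlib

/-!
# SQF: the cluster lemma and the multi-scale count, abstract form

`α` is the type of solutions, `v x : Fin N → ℤ` the values of `N` forms at the solution `x`,
`κ` the type of curves.
-/

set_option autoImplicit false

open Finset Matrix

namespace Pool.Agent.Lib.SQF

section Rank

variable {α : Type*} {N : ℕ}

/-- the rational vector of a solution -/
def qvec (v : α → Fin N → ℤ) (x : α) : Fin N → ℚ := fun j => (v x j : ℚ)

/-- the rank of the vectors `v x`, `x ∈ C` -/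
noncomputable def vrank (v : α → Fin N → ℤ) (C : Set α) : ℕ :=
  Module.finrank ℚ (Submodule.span ℚ (qvec v '' C))

/-- clearing denominators: a rational relation gives an integral one -/
lemma exists_int_rel {R : ℕ} (g : Fin R → ℚ) (hg : g ≠ 0) :
    ∃ (m : ℕ) (h : Fin R → ℤ), 0 < m ∧ h ≠ 0 ∧ ∀ i, (h i : ℚ) = m * g i := by
  classical
  refine ⟨∏ i, (g i).den, fun i => (g i).num * ∏ k ∈ Finset.univ.erase i, ((g k).den : ℤ), ?_, ?_, ?_⟩
  · exact Finset.prod_pos fun i _ => (g i).den_pos
  · intro h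
    apply hg
    funext i
    have h1 := congrFun h i
    simp only [Pi.zero_apply, mul_eq_zero] at h1
    rcases h1 with h1 | h1
    · exact Rat.num_eq_zero.1 h1
    · exfalso
      rw [Finset.prod_eq_zero_iff] at h1
      obtain ⟨k, _, hk⟩ := h1
      exact (g k).den_ne_zero (by exact_mod_cast hk)
  · intro i
    have h1 : (∏ i, ((g i).den : ℚ)) = (g i).den * ∏ k ∈ Finset.univ.erase i, ((g k).den : ℚ) :=
      (Finset.mul_prod_erase Finset.univ _ (Finset.mem_univ i)).symm
    push_cast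
    rw [h1]
    have h2 : ((g i).num : ℚ) = (g i).den * g i := by
      rw [mul_comm]; exact (Rat.mul_den_eq_num (g i)).symm
    rw [h2]
    ring

/-- if some proper subspace contains all vectors there is an integral relation -/
lemma exists_rel_of_span_ne_top (v : α → Fin N → ℤ) (C : Set α)
    (h : Submodule.span ℚ (qvec v '' C) ≠ ⊤) :
    ∃ g : Fin N → ℤ, g ≠ 0 ∧ ∀ x ∈ C, ∑ j, g j * v x j = 0 := by
  obtain ⟨f, hf0, hf⟩ := Submodule.exists_le_ker_of_lt_top _ (lt_top_iff_ne_top.2 h)
  set g : Fin N → ℚ := fun j => f (Pi.single j 1) with hg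
  have hfg : ∀ w, f w = ∑ j, g j * w j := by
    intro w
    conv_lhs => rw [← Finset.univ_sum_single w]
    rw [map_sum]
    refine Finset.sum_congr rfl fun j _ => ?_
    have : (Pi.single j (w j) : Fin N → ℚ) = w j • Pi.single j 1 := by
      rw [← Pi.single_smul, smul_eq_mul, mul_one]
    rw [this, map_smul, smul_eq_mul, mul_comm]
  have hg0 : g ≠ 0 := by
    intro h0
    apply hf0
    ext j
    simpa [hg] using congrFun h0 j
  obtain ⟨m, h, hm, hh0, hh⟩ := exists_int_rel g hg0
  refine ⟨h, hh0, fun x hx => ?_⟩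
  have h1 : f (qvec v x) = 0 := by
    have := hf (Submodule.subset_span (Set.mem_image_of_mem _ hx))
    simpa using this
  have h2 : (∑ j, (h j : ℚ) * (v x j : ℚ)) = m * f (qvec v x) := by
    rw [hfg, Finset.mul_sum]
    refine Finset.sum_congr rfl fun j _ => ?_
    rw [hh j, qvec]; ring
  rw [h1, mul_zero] at h2
  exact_mod_cast h2

/-- **Lower bound for the rank**: `R` of the coordinates without a relation on `C`. -/
theorem le_vrank (v : α → Fin N → ℤ) (C : Set α) (R : ℕ) (s : Fin R → Fin N)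
    (h : ∀ g : Fin R → ℤ, (∀ x ∈ C, ∑ i, g i * v x (s i) = 0) → g = 0) :
    R ≤ vrank v C := by
  classical
  let π : (Fin N → ℚ) →ₗ[ℚ] (Fin R → ℚ) := LinearMap.funLeft ℚ ℚ s
  have h1 : (Submodule.span ℚ (qvec v '' C)).map π = ⊤ := by
    rw [Submodule.map_span]
    by_contra hne
    have h2 : (π '' (qvec v '' C)) = qvec (fun x i => v x (s i)) '' C := by
      rw [Set.image_image]
      rfl
    rw [h2] at hne
    obtain ⟨g, hg0, hg⟩ := exists_rel_of_span_ne_top (fun x i => v x (s i)) C hne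
    exact hg0 (h g hg)
  have h2 := Submodule.finrank_map_le π (Submodule.span ℚ (qvec v '' C))
  rw [h1, finrank_top, Module.finrank_fin_fun] at h2
  exact h2

lemma vrank_mono (v : α → Fin N → ℤ) {C D : Set α} (h : C ⊆ D) : vrank v C ≤ vrank v D :=
  Submodule.finrank_mono (Submodule.span_mono (Set.image_mono h))

lemma vrank_le (v : α → Fin N → ℤ) (C : Set α) : vrank v C ≤ N := by
  have := Submodule.finrank_le (Submodule.span ℚ (qvec v '' C))
  rwa [Module.finrank_fin_fun] at this

/-- greedy choice of independent solutions, level by level -/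
lemma greedy [DecidableEq α] (v : α → Fin N → ℤ) (C : ℕ → Finset α) (J : ℕ) :
    ∃ (s : Finset α) (lev : α → ℕ), LinearIndepOn ℚ (qvec v) (s : Set α) ∧
      Submodule.span ℚ (qvec v '' (s : Set α)) =
        Submodule.span ℚ (qvec v '' (⋃ i ∈ Finset.range J, (C i : Set α))) ∧
      (∀ x ∈ s, lev x < J ∧ x ∈ C (lev x)) ∧
      ∀ j ≤ J, (s.filter fun x => lev x < j).card
        = vrank v (⋃ i ∈ Finset.range j, (C i : Set α)) := by
  induction J with
  | zero =>
    refine ⟨∅, fun _ => 0, by simp, by simp, by simp, ?_⟩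
    intro j hj
    obtain rfl : j = 0 := by omega
    have h0 : (⋃ i ∈ Finset.range 0, (C i : Set α)) = ∅ := by simp
    rw [vrank, h0, Set.image_empty, Submodule.span_empty, finrank_bot]
    simp
  | succ J ih =>
    obtain ⟨s, lev, hli, hspan, hlev, hrk⟩ := ih
    set U : Set α := ⋃ i ∈ Finset.range J, (C i : Set α) with hU
    set U' : Set α := ⋃ i ∈ Finset.range (J + 1), (C i : Set α) with hU'
    have hUU' : U' = U ∪ C J := by
      rw [hU', hU, Finset.range_add_one]
      simp [Set.union_comm]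
    have hsU : (s : Set α) ⊆ U' := by
      intro x hx
      have := hlev x hx
      rw [hU']
      simp only [Set.mem_iUnion]
      exact ⟨lev x, Finset.mem_range.2 (by omega), this.2⟩
    have hU'fin : U'.Finite := by
      rw [hU']
      exact Set.Finite.biUnion (Finset.finite_toSet _) fun i _ => Finset.finite_toSet _
    set t : Set α := hli.extend hsU with ht
    have htU : t ⊆ U' := hli.extend_subset hsU
    have htfin : t.Finite := hU'fin.subset htU
    have hst : (s : Set α) ⊆ t := hli.subset_extend hsU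
    have htli : LinearIndepOn ℚ (qvec v) t := hli.linearIndepOn_extend hsU
    have htspan : Submodule.span ℚ (qvec v '' t) = Submodule.span ℚ (qvec v '' U') :=
      hli.span_image_extend_eq_span_image hsU
    have hnew : ∀ x ∈ t, x ∉ (s : Set α) → x ∈ C J := by
      intro x hx hxs
      have h1 : x ∈ U ∪ C J := by rw [← hUU']; exact htU hx
      rcases h1 with h1 | h1
      · exfalso
        have h2 : qvec v x ∈ Submodule.span ℚ (qvec v '' (s : Set α)) := by
          rw [hspan]; exact Submodule.subset_span (Set.mem_image_of_mem _ h1)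
        have h3 : LinearIndepOn ℚ (qvec v) (insert x (s : Set α)) :=
          htli.mono (Set.insert_subset hx hst)
        rw [linearIndepOn_insert hxs] at h3
        exact h3.2 h2
      · exact h1
    refine ⟨htfin.toFinset, fun x => if x ∈ s then lev x else J, ?_, ?_, ?_, ?_⟩
    · rw [Set.Finite.coe_toFinset]; exact htli
    · rw [Set.Finite.coe_toFinset]; exact htspan
    · intro x hx
      rw [Set.Finite.mem_toFinset] at hx
      by_cases hxs : x ∈ s
      · simp only [if_pos hxs]
        exact ⟨by have := (hlev x hxs).1; omega, (hlev x hxs).2⟩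
      · simp only [if_neg hxs]
        exact ⟨by omega, hnew x hx (by simpa using hxs)⟩
    · intro j hj
      rcases Nat.lt_or_ge j (J + 1) with hjJ | hjJ
      · rw [← hrk j (by omega)]
        congr 1
        ext x
        simp only [Finset.mem_filter, Set.Finite.mem_toFinset]
        constructor
        · rintro ⟨hx, hl⟩
          by_cases hxs : x ∈ s
          · rw [if_pos hxs] at hl; exact ⟨hxs, hl⟩
          · rw [if_neg hxs] at hl; omega
        · rintro ⟨hx, hl⟩
          exact ⟨hst hx, by rw [if_pos hx]; exact hl⟩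
      · obtain rfl : j = J + 1 := by omega
        have h1 : (htfin.toFinset.filter fun x => (if x ∈ s then lev x else J) < J + 1)
            = htfin.toFinset := by
          refine Finset.filter_true_of_mem fun x hx => ?_
          by_cases hxs : x ∈ s
          · rw [if_pos hxs]; have := (hlev x hxs).1; omega
          · rw [if_neg hxs]; omega
        rw [h1, vrank, ← htspan]
        have h2 : Submodule.span ℚ (qvec v '' t)
            = Submodule.span ℚ (Set.range fun x : t => qvec v x) := by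
          rw [Set.image_eq_range]
        have : Fintype t := htfin.fintype
        rw [h2, finrank_span_eq_card htli]
        rw [Set.Finite.card_toFinset]

/-- the vectors of clusters without a common relation give a non-zero determinant, with `n i`
rows from the `i`-th cluster, `n 0 + ... + n (j - 1)` being the rank of the first `j` clusters -/
theorem exists_rows [DecidableEq α] (v : α → Fin N → ℤ) (J : ℕ) (C : ℕ → Finset α)
    (hspan : ∀ g : Fin N → ℤ, (∀ i < J, ∀ x ∈ C i, ∑ j, g j * v x j = 0) → g = 0) :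
    ∃ (x : Fin N → α) (lev : Fin N → ℕ), (∀ r, lev r < J ∧ x r ∈ C (lev r)) ∧
      Matrix.det (Matrix.of fun r => v (x r)) ≠ 0 ∧
      ∀ j ≤ J, (Finset.univ.filter fun r => lev r < j).card
        = vrank v (⋃ i ∈ Finset.range j, (C i : Set α)) := by
  classical
  obtain ⟨s, lev, hli, hspan', hlev, hrk⟩ := greedy v C J
  have htop : Submodule.span ℚ (qvec v '' (s : Set α)) = ⊤ := by
    rw [hspan']
    by_contra hne
    obtain ⟨g, hg0, hg⟩ := exists_rel_of_span_ne_top v _ hne
    apply hg0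
    apply hspan
    intro i hi x hx
    apply hg
    simp only [Set.mem_iUnion]
    exact ⟨i, Finset.mem_range.2 hi, hx⟩
  have hcard : s.card = N := by
    have h2 : Submodule.span ℚ (qvec v '' (s : Set α))
        = Submodule.span ℚ (Set.range fun x : (s : Set α) => qvec v x) := by
      rw [Set.image_eq_range]
    have h3 := finrank_span_eq_card hli
    rw [← h2, htop, finrank_top, Module.finrank_fin_fun] at h3
    simpa using h3.symm
  set e : Fin N ≃ s := (s.equivFinOfCardEq hcard).symm with he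
  refine ⟨fun r => e r, fun r => lev (e r), fun r => hlev _ (e r).2, ?_, ?_⟩
  · intro h0
    have h1 : LinearIndependent ℚ (fun r : Fin N => qvec v (e r : α)) := by
      have h2 : LinearIndependent ℚ (fun x : (s : Set α) => qvec v x) := hli
      exact h2.comp (fun r => (e r : (s : Set α))) (fun a b hab => e.injective (by simpa using hab))
    have h3 : LinearIndependent ℚ (Matrix.row (Matrix.of fun r : Fin N => qvec v (e r : α))) := h1
    rw [Matrix.linearIndependent_rows_iff_isUnit, Matrix.isUnit_iff_isUnit_det] at h3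
    apply h3.ne_zero
    have h4 : (Matrix.of fun r : Fin N => qvec v (e r : α)) =
        (Int.castRingHom ℚ).mapMatrix (Matrix.of fun r => v (e r : α)) := by
      ext i j; simp [qvec]
    rw [h4, ← RingHom.map_det, h0, map_zero]
  · intro j hj
    rw [← hrk j hj]
    refine Finset.card_bij (fun r _ => (e r : α)) ?_ ?_ ?_
    · intro r hr
      rw [Finset.mem_filter] at hr ⊢
      exact ⟨(e r).2, hr.2⟩
    · intro a _ b _ hab
      exact e.injective (Subtype.ext hab)
    · intro y hy
      rw [Finset.mem_filter] at hy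
      refine ⟨e.symm ⟨y, hy.1⟩, ?_, by simp⟩
      rw [Finset.mem_filter]
      exact ⟨Finset.mem_univ _, by simpa using hy.2⟩

/-- **Cluster determinant.**  `C i`, `i < J`, are clusters of solutions with distinct primes `q i`,
no non-zero integer combination of the `N` forms vanishes on all of them, and minors with `k` rows
in `C i` are divisible by `q i ^ (k (k - 1) / 2)`. -/
theorem cluster_det [DecidableEq α] (v : α → Fin N → ℤ) (J : ℕ) (C : ℕ → Finset α) (q : ℕ → ℕ)
    (hq : ∀ i < J, (q i).Prime) (hne : ∀ i < J, ∀ j < J, i ≠ j → q i ≠ q j)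
    (hdiv : ∀ i < J, ∀ x : Fin N → α, (∀ r, ∃ k < J, x r ∈ C k) → ∀ R : Finset (Fin N),
      (∀ r ∈ R, x r ∈ C i) →
      ((q i : ℕ) : ℤ) ^ (R.card * (R.card - 1) / 2) ∣ Matrix.det (Matrix.of fun r => v (x r)))
    (hspan : ∀ g : Fin N → ℤ, (∀ i < J, ∀ x ∈ C i, ∑ j, g j * v x j = 0) → g = 0) :
    ∃ (x : Fin N → α) (n : ℕ → ℕ), (∀ r, ∃ k < J, x r ∈ C k) ∧
      (∀ j ≤ J, ∑ i ∈ Finset.range j, n i = vrank v (⋃ i ∈ Finset.range j, (C i : Set α))) ∧
      ∑ i ∈ Finset.range J, n i = N ∧
      Matrix.det (Matrix.of fun r => v (x r)) ≠ 0 ∧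
      ∏ i ∈ Finset.range J, ((q i : ℕ) : ℤ) ^ (n i * (n i - 1) / 2) ∣
        Matrix.det (Matrix.of fun r => v (x r)) := by
  classical
  obtain ⟨x, lev, hlev, hdet, hrk⟩ := exists_rows v J C hspan
  have hx : ∀ r, ∃ k < J, x r ∈ C k := fun r => ⟨lev r, (hlev r).1, (hlev r).2⟩
  set n : ℕ → ℕ := fun i => (Finset.univ.filter fun r => lev r = i).card with hn
  have hsum : ∀ j, ∑ i ∈ Finset.range j, n i = (Finset.univ.filter fun r => lev r < j).card := by
    intro j
    rw [Finset.card_eq_sum_card_fiberwise (f := lev) (t := Finset.range j)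
      (s := Finset.univ.filter fun r => lev r < j) (by
        intro r hr
        have := (Finset.mem_filter.1 hr).2
        exact Finset.mem_coe.2 (Finset.mem_range.2 this))]
    refine Finset.sum_congr rfl fun i hi => ?_
    simp only [hn]
    congr 1
    ext r
    simp only [Finset.mem_filter, Finset.mem_univ, true_and]
    have := Finset.mem_range.1 hi
    constructor
    · intro h; exact ⟨by omega, h⟩
    · intro h; exact h.2
  refine ⟨x, n, hx, ?_, ?_, hdet, ?_⟩
  · intro j hj
    rw [hsum, hrk j hj]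
  · rw [hsum]
    rw [Finset.filter_true_of_mem fun r _ => (hlev r).1]
    simp
  · refine Finset.prod_dvd_of_coprime ?_ ?_
    · intro i hi j hj hij
      have hi' := Finset.mem_range.1 (Finset.mem_coe.1 hi)
      have hj' := Finset.mem_range.1 (Finset.mem_coe.1 hj)
      apply IsCoprime.pow
      exact Nat.isCoprime_iff_coprime.2
        ((Nat.coprime_primes (hq i hi') (hq j hj')).2 (hne i hi' j hj' hij))
    · intro i hi
      have hi' := Finset.mem_range.1 hi
      refine hdiv i hi' x hx (Finset.univ.filter fun r => lev r = i) ?_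
      intro r hr
      have h1 := (Finset.mem_filter.1 hr).2
      rw [← h1]
      exact (hlev r).2

/-- numerical consequence: `Z ^ e` is at most the determinant -/
theorem cluster_bound [DecidableEq α] (v : α → Fin N → ℤ) (J : ℕ) (C : ℕ → Finset α) (q : ℕ → ℕ)
    (Z : ℕ) (hq : ∀ i < J, (q i).Prime ∧ Z ≤ q i) (hne : ∀ i < J, ∀ j < J, i ≠ j → q i ≠ q j)
    (hdiv : ∀ i < J, ∀ x : Fin N → α, (∀ r, ∃ k < J, x r ∈ C k) → ∀ R : Finset (Fin N),
      (∀ r ∈ R, x r ∈ C i) →
      ((q i : ℕ) : ℤ) ^ (R.card * (R.card - 1) / 2) ∣ Matrix.det (Matrix.of fun r => v (x r)))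
    (hspan : ∀ g : Fin N → ℤ, (∀ i < J, ∀ x ∈ C i, ∑ j, g j * v x j = 0) → g = 0) :
    ∃ (x : Fin N → α) (n : ℕ → ℕ), (∀ r, ∃ k < J, x r ∈ C k) ∧
      (∀ j ≤ J, ∑ i ∈ Finset.range j, n i = vrank v (⋃ i ∈ Finset.range j, (C i : Set α))) ∧
      ∑ i ∈ Finset.range J, n i = N ∧
      (Z : ℤ) ^ (∑ i ∈ Finset.range J, n i * (n i - 1) / 2) ≤
        |Matrix.det (Matrix.of fun r => v (x r))| := by
  obtain ⟨x, n, hx, hrk, hsum, hdet, hdvd⟩ :=
    cluster_det v J C q (fun i hi => (hq i hi).1) hne hdiv hspan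
  refine ⟨x, n, hx, hrk, hsum, ?_⟩
  have h1 : ∏ i ∈ Finset.range J, ((q i : ℕ) : ℤ) ^ (n i * (n i - 1) / 2) ≤
      |Matrix.det (Matrix.of fun r => v (x r))| :=
    Int.le_of_dvd (abs_pos.2 hdet) ((dvd_abs _ _).2 hdvd)
  refine le_trans ?_ h1
  rw [← Finset.prod_pow_eq_pow_sum]
  refine Finset.prod_le_prod (fun i _ => by positivity) fun i hi => ?_
  have := (hq i (Finset.mem_range.1 hi)).2
  exact pow_le_pow_left₀ (by positivity) (by exact_mod_cast this) _

end Rank

section Numeric

/-- Cauchy-Schwarz: `J (2 e + N) ≤ N²` gives `e ≤ ∑ n i (n i - 1) / 2` -/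
theorem he_cauchy (J N e : ℕ) (h : J * (2 * e + N) ≤ N ^ 2) (hJ : 0 < J) (n : ℕ → ℕ)
    (hn : ∑ i ∈ Finset.range J, n i = N) : e ≤ ∑ i ∈ Finset.range J, n i * (n i - 1) / 2 := by
  have h1 : ∀ i, 2 * (n i * (n i - 1) / 2) + n i = n i ^ 2 := by
    intro i
    have h2 := Nat.even_mul_pred_self (n i)
    rw [Nat.mul_div_cancel' h2.two_dvd]
    rcases Nat.eq_zero_or_pos (n i) with h3 | h3
    · rw [h3]; rfl
    · obtain ⟨k, hk⟩ := Nat.exists_eq_succ_of_ne_zero h3.ne'
      rw [hk]; simp; ring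
  have h3 : 2 * (∑ i ∈ Finset.range J, n i * (n i - 1) / 2) + N
      = ∑ i ∈ Finset.range J, n i ^ 2 := by
    rw [← hn, Finset.mul_sum, ← Finset.sum_add_distrib]
    exact Finset.sum_congr rfl fun i _ => h1 i
  have h4 : N ^ 2 ≤ J * ∑ i ∈ Finset.range J, n i ^ 2 := by
    have := sq_sum_le_card_mul_sum_sq (s := Finset.range J) (f := n)
    rwa [hn, Finset.card_range] at this
  rw [← h3] at h4
  have h5 := Nat.le_of_mul_le_mul_left (h.trans h4) hJ
  omega

/-- the same with a lower bound `R` for `n 0` -/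
theorem he_first (J N R e : ℕ) (hR : R ≤ N) (hJR : N ≤ (J + 1) * R)
    (h : J * (2 * e + N) ≤ J * R ^ 2 + (N - R) ^ 2) (hJ : 0 < J) (n : ℕ → ℕ)
    (hn : ∑ i ∈ Finset.range (J + 1), n i = N) (hn0 : R ≤ n 0) :
    e ≤ ∑ i ∈ Finset.range (J + 1), n i * (n i - 1) / 2 := by
  have h1 : ∀ i, 2 * (n i * (n i - 1) / 2) + n i = n i ^ 2 := by
    intro i
    have h2 := Nat.even_mul_pred_self (n i)
    rw [Nat.mul_div_cancel' h2.two_dvd]
    rcases Nat.eq_zero_or_pos (n i) with h3 | h3
    · rw [h3]; rfl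
    · obtain ⟨k, hk⟩ := Nat.exists_eq_succ_of_ne_zero h3.ne'
      rw [hk]; simp; ring
  have h3 : 2 * (∑ i ∈ Finset.range (J + 1), n i * (n i - 1) / 2) + N
      = ∑ i ∈ Finset.range (J + 1), n i ^ 2 := by
    rw [← hn, Finset.mul_sum, ← Finset.sum_add_distrib]
    exact Finset.sum_congr rfl fun i _ => h1 i
  rw [Finset.sum_range_succ'] at hn
  rw [Finset.sum_range_succ' (fun i => n i ^ 2)] at h3
  set A := ∑ i ∈ Finset.range J, n (i + 1) with hA
  set B := ∑ i ∈ Finset.range J, n (i + 1) ^ 2 with hB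
  have h4 : A ^ 2 ≤ J * B := by
    have := sq_sum_le_card_mul_sum_sq (s := Finset.range J) (f := fun i => n (i + 1))
    rwa [Finset.card_range] at this
  have h5 : J * R ^ 2 + (N - R) ^ 2 ≤ J * (B + n 0 ^ 2) := by
    obtain ⟨x, hx⟩ : ∃ x, n 0 = R + x := ⟨n 0 - R, by omega⟩
    obtain ⟨y, hy⟩ : ∃ y, N = R + y := ⟨N - R, by omega⟩
    have hyA : y = A + x := by omega
    have h6 : y ≤ J * R := by
      have : (J + 1) * R = J * R + R := by ring
      omega
    rw [hx, hy, Nat.add_sub_cancel_left]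
    have h7 : J * R ^ 2 + y ^ 2 ≤ J * (R + x) ^ 2 + A ^ 2 := by
      have h8 : y ^ 2 = A ^ 2 + 2 * A * x + x ^ 2 := by rw [hyA]; ring
      have h9 : J * (R + x) ^ 2 = J * R ^ 2 + 2 * (J * R) * x + J * x ^ 2 := by ring
      have h10 : A * x ≤ (J * R) * x := Nat.mul_le_mul_right x (by omega)
      have h11 : x ^ 2 ≤ J * x ^ 2 := Nat.le_mul_of_pos_left _ hJ
      rw [h8, h9]
      nlinarith
    nlinarith
  have h6 : J * (2 * e + N) ≤ J * (B + n 0 ^ 2) := h.trans h5
  have h7 := Nat.le_of_mul_le_mul_left h6 hJ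
  omega

end Numeric

section Rich

variable {α κ : Type*} {N : ℕ}

/-- `S'` contains a cluster: outside every set of fewer than `J` primes there are a prime `q ≥ Z`
and a subset `C'` of `S'` with at least `Cmin` elements such that every determinant of `N`
solutions of `S`, `k` of them in `C'`, is divisible by `q ^ (k (k - 1) / 2)`. -/
def HasCluster (v : α → Fin N → ℤ) (S S' : Finset α) (J Z Cmin : ℕ) : Prop :=
  ∀ F : Finset ℕ, F.card < J → ∃ q : ℕ, q.Prime ∧ q ∉ F ∧ Z ≤ q ∧ ∃ C' ⊆ S', Cmin ≤ C'.card ∧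
    ∀ x : Fin N → α, (∀ r, x r ∈ S) → ∀ R : Finset (Fin N), (∀ r ∈ R, x r ∈ C') →
      (q : ℤ) ^ (R.card * (R.card - 1) / 2) ∣ Matrix.det (Matrix.of fun r => v (x r))

/-- **Fewer than `J` rich curves in one arc.**  `S` is the set of solutions of the arc. -/
theorem rich_lt [DecidableEq α] [DecidableEq κ] (v : α → Fin N → ℤ) (S : Finset α)
    (On : κ → α → Prop) [∀ γ, DecidablePred (On γ)] (good : κ → Prop) (J B Z Cmin Rk e : ℕ)
    (hJ : 0 < J)
    (hcl : ∀ γ, good γ → B < (S.filter fun x => On γ x).card →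
      HasCluster v S (S.filter fun x => On γ x) J Z Cmin)
    (hspan : ∀ γ : ℕ → κ, (∀ i < J, good (γ i)) → (∀ i < J, ∀ j < J, i ≠ j → γ i ≠ γ j) →
      ∀ C : ℕ → Finset α, (∀ i < J, C i ⊆ S ∧ (∀ x ∈ C i, On (γ i) x) ∧ Cmin ≤ (C i).card) →
      ∀ g : Fin N → ℤ, (∀ i < J, ∀ x ∈ C i, ∑ j, g j * v x j = 0) → g = 0)
    (hrank : ∀ γ, good γ → ∀ C ⊆ S, (∀ x ∈ C, On γ x) → Cmin ≤ C.card → Rk ≤ vrank v (C : Set α))
    (he : ∀ n : ℕ → ℕ, ∑ i ∈ Finset.range J, n i = N → Rk ≤ n 0 →
      e ≤ ∑ i ∈ Finset.range J, n i * (n i - 1) / 2)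
    (hZ : 0 < Z)
    (hreal : ∀ x : Fin N → α, (∀ r, x r ∈ S) →
      |Matrix.det (Matrix.of fun r => v (x r))| < (Z : ℤ) ^ e)
    (T : Finset κ) (hT : ∀ γ ∈ T, good γ ∧ B < (S.filter fun x => On γ x).card) :
    T.card < J := by
  classical
  by_contra hcon
  push Not at hcon
  -- `J` distinct curves
  obtain ⟨γ0, hγ0⟩ : T.Nonempty := Finset.card_pos.1 (by omega)
  set γ : ℕ → κ := fun i => if h : i < T.card then (T.equivFin.symm ⟨i, h⟩ : κ) else γ0 with hγ
  have hγT : ∀ i, γ i ∈ T := by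
    intro i
    simp only [hγ]
    split_ifs with h
    · exact (T.equivFin.symm ⟨i, h⟩).2
    · exact hγ0
  have hγne : ∀ i < J, ∀ j < J, i ≠ j → γ i ≠ γ j := by
    intro i hi j hj hij h
    simp only [hγ] at h
    rw [dif_pos (by omega), dif_pos (by omega)] at h
    have h1 := T.equivFin.symm.injective (Subtype.ext h)
    exact hij (by simpa using h1)
  -- clusters with distinct primes
  have key : ∀ k ≤ J, ∃ (q : ℕ → ℕ) (C : ℕ → Finset α),
      (∀ i < k, (q i).Prime ∧ Z ≤ q i) ∧ (∀ i < k, ∀ j < k, i ≠ j → q i ≠ q j) ∧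
      (∀ i < k, C i ⊆ S ∧ (∀ x ∈ C i, On (γ i) x) ∧ Cmin ≤ (C i).card) ∧
      (∀ i < k, ∀ x : Fin N → α, (∀ r, x r ∈ S) → ∀ R : Finset (Fin N), (∀ r ∈ R, x r ∈ C i) →
        ((q i : ℕ) : ℤ) ^ (R.card * (R.card - 1) / 2) ∣
          Matrix.det (Matrix.of fun r => v (x r))) := by
    intro k
    induction k with
    | zero =>
      intro _
      exact ⟨fun _ => 0, fun _ => ∅, by simp, by simp, by simp, by simp⟩
    | succ k ih =>
      intro hk
      obtain ⟨q, C, h1, h2, h3, h4⟩ := ih (by omega)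
      obtain ⟨q', hq'p, hq'F, hq'Z, C', hC'S, hC'c, hC'd⟩ :=
        hcl (γ k) (hT _ (hγT k)).1 (hT _ (hγT k)).2 ((Finset.range k).image q)
          (lt_of_le_of_lt Finset.card_image_le (by rw [Finset.card_range]; omega))
      have hq'ne : ∀ i < k, q i ≠ q' := by
        intro i hi h
        exact hq'F (Finset.mem_image.2 ⟨i, Finset.mem_range.2 hi, h⟩)
      refine ⟨fun i => if i = k then q' else q i, fun i => if i = k then C' else C i, ?_, ?_, ?_, ?_⟩
      · intro i hi
        by_cases hik : i = k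
        · simp only [if_pos hik]; exact ⟨hq'p, hq'Z⟩
        · simp only [if_neg hik]; exact h1 i (by omega)
      · intro i hi j hj hij
        by_cases hik : i = k
        · have hjk : j ≠ k := by omega
          simp only [if_pos hik, if_neg hjk]
          exact (hq'ne j (by omega)).symm
        · by_cases hjk : j = k
          · simp only [if_neg hik, if_pos hjk]
            exact hq'ne i (by omega)
          · simp only [if_neg hik, if_neg hjk]
            exact h2 i (by omega) j (by omega) hij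
      · intro i hi
        by_cases hik : i = k
        · subst hik
          simp only [if_true]
          refine ⟨hC'S.trans (Finset.filter_subset _ _), fun x hx => ?_, hC'c⟩
          exact (Finset.mem_filter.1 (hC'S hx)).2
        · simp only [if_neg hik]; exact h3 i (by omega)
      · intro i hi x hx R hR
        by_cases hik : i = k
        · simp only [if_pos hik] at hR ⊢
          exact hC'd x hx R hR
        · simp only [if_neg hik] at hR ⊢
          exact h4 i (by omega) x hx R hR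
  obtain ⟨q, C, h1, h2, h3, h4⟩ := key J le_rfl
  have hxS : ∀ x : Fin N → α, (∀ r, ∃ k < J, x r ∈ C k) → ∀ r, x r ∈ S := by
    intro x hx r
    obtain ⟨k, hk, hxk⟩ := hx r
    exact (h3 k hk).1 hxk
  obtain ⟨x, n, hx, hrk, hsum, hdet⟩ := cluster_bound v J C q Z h1 h2
    (fun i hi x hx R hR => h4 i hi x (hxS x hx) R hR)
    (hspan γ (fun i _ => (hT _ (hγT i)).1) hγne C h3)
  have hn0 : Rk ≤ n 0 := by
    have h5 := hrk 1 (by omega)
    rw [Finset.sum_range_one] at h5
    have h6 : (⋃ i ∈ Finset.range 1, (C i : Set α)) = (C 0 : Set α) := by simp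
    rw [h5, h6]
    exact hrank (γ 0) (hT _ (hγT 0)).1 (C 0) (h3 0 hJ).1 (h3 0 hJ).2.1 (h3 0 hJ).2.2
  have h7 := he n hsum hn0
  have h8 := hreal x (hxS x hx)
  have h9 : (Z : ℤ) ^ e ≤ (Z : ℤ) ^ (∑ i ∈ Finset.range J, n i * (n i - 1) / 2) :=
    pow_le_pow_right₀ (by exact_mod_cast hZ) h7
  exact absurd (h9.trans hdet) (not_le.2 h8)

end Rich

section Scales

variable {α κ ι : Type*}

lemma card_two [DecidableEq κ] [DecidableEq ι] (S : Finset α) (f : α → ι)
    (c : α → κ) (G : ι → Finset κ) (J b A : ℕ) (hf : (S.image f).card ≤ A)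
    (hG : ∀ a, (G a).card ≤ J) (hcG : ∀ x ∈ S, c x ∈ G (f x))
    (hfib : ∀ x ∈ S, (S.filter fun y => f y = f x ∧ c y = c x).card ≤ b) :
    S.card ≤ J * A * b := by
  classical
  have h1 : ∀ x ∈ S, (⟨f x, c x⟩ : Σ _ : ι, κ) ∈ (S.image f).sigma G := by
    intro x hx
    rw [Finset.mem_sigma]
    exact ⟨Finset.mem_image_of_mem _ hx, hcG x hx⟩
  have h2 := Finset.card_le_mul_card_image_of_maps_to
    (f := fun x => (⟨f x, c x⟩ : Σ _ : ι, κ)) (s := S) (t := S.image fun x => ⟨f x, c x⟩)
    (fun x hx => Finset.mem_image_of_mem _ hx) b (by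
      intro y hy
      obtain ⟨x, hx, rfl⟩ := Finset.mem_image.1 hy
      refine le_trans (Finset.card_le_card ?_) (hfib x hx)
      intro z hz
      rw [Finset.mem_filter] at hz ⊢
      refine ⟨hz.1, ?_⟩
      have := hz.2
      simp only [Sigma.mk.injEq, heq_eq_eq] at this
      exact this)
  have h3 : (S.image fun x => (⟨f x, c x⟩ : Σ _ : ι, κ)).card ≤ A * J := by
    refine le_trans (Finset.card_le_card (Finset.image_subset_iff.2 h1)) ?_
    rw [Finset.card_sigma]
    refine le_trans (Finset.sum_le_card_nsmul _ _ J fun a _ => hG a) ?_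
    rw [smul_eq_mul]
    exact Nat.mul_le_mul_right _ hf
  calc S.card ≤ b * (S.image fun x => (⟨f x, c x⟩ : Σ _ : ι, κ)).card := h2
    _ ≤ b * (A * J) := Nat.mul_le_mul_left _ h3
    _ = J * A * b := by ring

/-- **The multi-scale count.**  `arc l x` is the arc of scale `l` of the solution `x` (nested),
`c x` a curve through `x`; at most `J0` curves per arc of scale `0`, at most `J` curves with more
than `B l` solutions in one arc of scale `l ≥ 1`, at most `B (T + 1)` solutions on one curve. -/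
theorem multi_scale [DecidableEq κ] [DecidableEq ι] (S : Finset α) (T : ℕ)
    (arc : ℕ → α → ι)
    (hnest : ∀ l < T, ∀ x ∈ S, ∀ y ∈ S, arc l x = arc l y → arc (l + 1) x = arc (l + 1) y)
    (A : ℕ → ℕ) (hA : ∀ l ≤ T, (S.image (arc l)).card ≤ A l)
    (On : κ → α → Prop) [∀ γ, DecidablePred (On γ)] (c : α → κ) (hc : ∀ x ∈ S, On (c x) x)
    (J0 J : ℕ) (hJ0 : ∀ a, ((S.filter fun x => arc 0 x = a).image c).card ≤ J0) (B : ℕ → ℕ)
    (hrich : ∀ l, 1 ≤ l → l ≤ T → ∀ a, ((S.image c).filter fun γ =>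
      B l < (S.filter fun x => arc l x = a ∧ On γ x).card).card ≤ J)
    (hlast : ∀ x ∈ S, (S.filter fun y => On (c x) y).card ≤ B (T + 1)) :
    S.card ≤ J0 * A 0 * B 1 + ∑ l ∈ Finset.Icc 1 T, J * A l * B (l + 1) := by
  classical
  set ν : ℕ → α → ℕ := fun l x => (S.filter fun y => arc l y = arc l x ∧ On (c x) y).card with hν
  have hmono : ∀ l < T, ∀ x ∈ S, ν l x ≤ ν (l + 1) x := by
    intro l hl x hx
    apply Finset.card_le_card
    intro y hy
    rw [Finset.mem_filter] at hy ⊢
    exact ⟨hy.1, hnest l hl y hy.1 x hx hy.2.1, hy.2.2⟩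
  have hlastν : ∀ x ∈ S, ν T x ≤ B (T + 1) := by
    intro x hx
    refine le_trans (Finset.card_le_card ?_) (hlast x hx)
    intro y hy
    rw [Finset.mem_filter] at hy ⊢
    exact ⟨hy.1, hy.2.2⟩
  have hex : ∀ x, x ∈ S → ∃ l, ν l x ≤ B (l + 1) := fun x hx => ⟨T, hlastν x hx⟩
  set lev : α → ℕ := fun x => if h : ∃ l, ν l x ≤ B (l + 1) then Nat.find h else 0 with hlev
  have hlev1 : ∀ x ∈ S, ν (lev x) x ≤ B (lev x + 1) := by
    intro x hx
    simp only [hlev, dif_pos (hex x hx)]
    exact Nat.find_spec (hex x hx)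
  have hlev2 : ∀ x ∈ S, lev x ≤ T := by
    intro x hx
    simp only [hlev, dif_pos (hex x hx)]
    exact Nat.find_min' (hex x hx) (hlastν x hx)
  have hlev3 : ∀ x ∈ S, ∀ k < lev x, B (k + 1) < ν k x := by
    intro x hx k hk
    simp only [hlev, dif_pos (hex x hx)] at hk
    exact not_le.1 (Nat.find_min (hex x hx) hk)
  -- one level
  have hsub : ∀ (l : ℕ), ∀ x ∈ S.filter (fun x => lev x = l),
      ((S.filter fun x => lev x = l).filter fun y => arc l y = arc l x ∧ c y = c x).card
        ≤ B (l + 1) := by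
    intro l x hx
    rw [Finset.mem_filter] at hx
    have h1 := hlev1 x hx.1
    rw [hx.2] at h1
    refine le_trans (Finset.card_le_card ?_) h1
    intro y hy
    simp only [Finset.mem_filter] at hy ⊢
    refine ⟨hy.1.1, hy.2.1, ?_⟩
    rw [← hy.2.2]
    exact hc y hy.1.1
  have h0 : (S.filter fun x => lev x = 0).card ≤ J0 * A 0 * B 1 := by
    refine card_two (S.filter fun x => lev x = 0) (arc 0) c
      (fun a => (S.filter fun x => arc 0 x = a).image c) J0 (B 1) (A 0) ?_ hJ0 ?_ (hsub 0)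
    · exact le_trans (Finset.card_le_card (Finset.image_subset_image (Finset.filter_subset _ _)))
        (hA 0 (Nat.zero_le _))
    · intro x hx
      rw [Finset.mem_filter] at hx
      exact Finset.mem_image.2 ⟨x, Finset.mem_filter.2 ⟨hx.1, rfl⟩, rfl⟩
  have hl : ∀ l ∈ Finset.Icc 1 T, (S.filter fun x => lev x = l).card ≤ J * A l * B (l + 1) := by
    intro l hl
    rw [Finset.mem_Icc] at hl
    refine card_two (S.filter fun x => lev x = l) (arc l) c
      (fun a => (S.image c).filter fun γ =>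
        B l < (S.filter fun x => arc l x = a ∧ On γ x).card) J (B (l + 1)) (A l) ?_
      (hrich l hl.1 hl.2) ?_ (hsub l)
    · exact le_trans (Finset.card_le_card (Finset.image_subset_image (Finset.filter_subset _ _)))
        (hA l hl.2)
    · intro x hx
      rw [Finset.mem_filter] at hx ⊢
      refine ⟨Finset.mem_image_of_mem _ hx.1, ?_⟩
      have h1 := hlev3 x hx.1 (l - 1) (by omega)
      have h2 := hmono (l - 1) (by omega) x hx.1
      have h3 : l - 1 + 1 = l := by omega
      rw [h3] at h1 h2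
      exact lt_of_lt_of_le h1 h2
  have hS : S.card = ∑ l ∈ Finset.range (T + 1), (S.filter fun x => lev x = l).card := by
    apply Finset.card_eq_sum_card_fiberwise
    intro x hx
    have := hlev2 x (Finset.mem_coe.1 hx)
    exact Finset.mem_coe.2 (Finset.mem_range.2 (by omega))
  rw [hS, Finset.range_eq_Ico, Finset.sum_eq_sum_Ico_succ_bot (Nat.succ_pos T)]
  refine Nat.add_le_add h0 ?_
  have h5 : Finset.Ico (0 + 1) (T + 1) = Finset.Icc 1 T := by
    ext l; simp only [Finset.mem_Ico, Finset.mem_Icc]; omega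
  rw [h5]
  exact Finset.sum_le_sum hl

/-- **Cluster lemma and multi-scale count together.**  Scale `l` (`1 ≤ l ≤ T`) has the richness
`B l`, the prime size `Z l` and the real bound `|det| < Z l ^ e` for `N` solutions of one arc. -/
theorem cluster_count {N : ℕ} [DecidableEq α] [DecidableEq κ] [DecidableEq ι]
    (v : α → Fin N → ℤ) (S : Finset α) (T : ℕ) (arc : ℕ → α → ι)
    (hnest : ∀ l < T, ∀ x ∈ S, ∀ y ∈ S, arc l x = arc l y → arc (l + 1) x = arc (l + 1) y)
    (A : ℕ → ℕ) (hA : ∀ l ≤ T, (S.image (arc l)).card ≤ A l)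
    (On : κ → α → Prop) [∀ γ, DecidablePred (On γ)] (c : α → κ) (good : κ → Prop)
    (hc : ∀ x ∈ S, good (c x) ∧ On (c x) x)
    (J0 J : ℕ) (hJ : 0 < J)
    (hJ0 : ∀ a, ((S.filter fun x => arc 0 x = a).image c).card ≤ J0)
    (B Z : ℕ → ℕ) (Cmin Rk e : ℕ)
    (hcl : ∀ l, 1 ≤ l → l ≤ T → ∀ γ, good γ → ∀ S' ⊆ S, (∀ x ∈ S', On γ x) →
      B l < S'.card → HasCluster v S S' J (Z l) Cmin)
    (hspan : ∀ γ : ℕ → κ, (∀ i < J, good (γ i)) → (∀ i < J, ∀ j < J, i ≠ j → γ i ≠ γ j) →
      ∀ C : ℕ → Finset α, (∀ i < J, C i ⊆ S ∧ (∀ x ∈ C i, On (γ i) x) ∧ Cmin ≤ (C i).card) →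
      ∀ g : Fin N → ℤ, (∀ i < J, ∀ x ∈ C i, ∑ j, g j * v x j = 0) → g = 0)
    (hrank : ∀ γ, good γ → ∀ C ⊆ S, (∀ x ∈ C, On γ x) → Cmin ≤ C.card → Rk ≤ vrank v (C : Set α))
    (he : ∀ n : ℕ → ℕ, ∑ i ∈ Finset.range J, n i = N → Rk ≤ n 0 →
      e ≤ ∑ i ∈ Finset.range J, n i * (n i - 1) / 2)
    (hZ : ∀ l, 1 ≤ l → l ≤ T → 0 < Z l)
    (hreal : ∀ l, 1 ≤ l → l ≤ T → ∀ x : Fin N → α, (∀ r, x r ∈ S) →
      (∀ r r', arc l (x r) = arc l (x r')) →
      |Matrix.det (Matrix.of fun r => v (x r))| < (Z l : ℤ) ^ e)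
    (hlast : ∀ x ∈ S, (S.filter fun y => On (c x) y).card ≤ B (T + 1)) :
    S.card ≤ J0 * A 0 * B 1 + ∑ l ∈ Finset.Icc 1 T, J * A l * B (l + 1) := by
  classical
  refine multi_scale S T arc hnest A hA On c (fun x hx => (hc x hx).2) J0 J hJ0 B ?_ hlast
  intro l hl1 hlT a
  refine le_of_lt (rich_lt v (S.filter fun x => arc l x = a) On good J (B l) (Z l) Cmin Rk e hJ
    ?_ ?_ ?_ he (hZ l hl1 hlT) ?_ _ ?_)
  · intro γ hγ hB F hF
    obtain ⟨q, hq, hqF, hqZ, C', hC', hC'c, hC'd⟩ := hcl l hl1 hlT γ hγ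
      ((S.filter fun x => arc l x = a).filter fun x => On γ x)
      ((Finset.filter_subset _ _).trans (Finset.filter_subset _ _))
      (fun x hx => (Finset.mem_filter.1 hx).2) hB F hF
    exact ⟨q, hq, hqF, hqZ, C', hC', hC'c, fun x hx R hR =>
      hC'd x (fun r => (Finset.mem_filter.1 (hx r)).1) R hR⟩
  · intro γ hγ hne C hC g hg
    exact hspan γ hγ hne C (fun i hi => ⟨(hC i hi).1.trans (Finset.filter_subset _ _),
      (hC i hi).2.1, (hC i hi).2.2⟩) g hg
  · intro γ hγ C hC hon hCc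
    exact hrank γ hγ C (hC.trans (Finset.filter_subset _ _)) hon hCc
  · intro x hx
    refine hreal l hl1 hlT x (fun r => (Finset.mem_filter.1 (hx r)).1) fun r r' => ?_
    rw [(Finset.mem_filter.1 (hx r)).2, (Finset.mem_filter.1 (hx r')).2]
  · intro γ hγ
    rw [Finset.mem_filter, Finset.mem_image] at hγ
    obtain ⟨⟨x, hx, rfl⟩, h2⟩ := hγ
    refine ⟨(hc x hx).1, ?_⟩
    rwa [Finset.filter_filter]

end Scales

end Pool.Agent.Lib.SQF
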