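import Pool.Agent.Lib.SQF.IndA

/-!
# SQF, section S5: rank of the alpha-forms modulo powers of `1/n`

`k[X][X]`: outer variable `n`, inner variable `t`. `V = tA k i * vA θ t ^ s` is the space of
forms of bidegree `(i,s)` on the slice, `Wn m` the space of polynomials of `n`-degree `< m`.
`dvd_of_mem_forms`: if `F ∈ V` has `n`-degree `≤ s - j` then `∏ (t - t_l)^(2j)` divides `F`.
`finrank_map_le`: the image of `V` modulo `Wn (s - J)` has dimension at most
`∑_{j ≤ J} (6 s + i + 1 - 8 j)`.
-/

set_option autoImplicit false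

open Polynomial Pointwise

namespace Pool.Agent.Lib.SQF

variable {k : Type*} [Field k]

/-- Polynomials with vanishing coefficients from `m` on. -/
def Wn (k : Type*) [Field k] (m : ℕ) : Submodule k k[X][X] where
  carrier := {F | ∀ n, m ≤ n → F.coeff n = 0}
  add_mem' := by
    intro a b ha hb n hn
    rw [coeff_add, ha n hn, hb n hn, add_zero]
  zero_mem' := by
    intro n _
    simp
  smul_mem' := by
    intro c x hx n hn
    rw [coeff_smul, hx n hn, smul_zero]

lemma mem_Wn {m : ℕ} {F : k[X][X]} : F ∈ Wn k m ↔ ∀ n, m ≤ n → F.coeff n = 0 := Iff.rfl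

/-- weighted order at least `s` at the point `(t - .. : D, n = θ0)` -/
def OrdP (θ0 : k) (D : k[X]) (s : ℕ) (F : k[X][X]) : Prop :=
  ∃ G : ℕ → k[X][X], F = ∑ r ∈ Finset.range (s + 1), (X - C (C θ0)) ^ (s - r) * C D ^ r * G r

lemma OrdP.zero (θ0 : k) (D : k[X]) (s : ℕ) : OrdP θ0 D s 0 := ⟨fun _ => 0, by simp⟩

lemma OrdP.add {θ0 : k} {D : k[X]} {s : ℕ} {F F' : k[X][X]} (h : OrdP θ0 D s F)
    (h' : OrdP θ0 D s F') : OrdP θ0 D s (F + F') := by
  obtain ⟨G, rfl⟩ := h
  obtain ⟨G', rfl⟩ := h'
  refine ⟨fun r => G r + G' r, ?_⟩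
  rw [← Finset.sum_add_distrib]
  exact Finset.sum_congr rfl (fun r _ => by ring)

lemma OrdP.mul {θ0 : k} {D : k[X]} {s : ℕ} {F : k[X][X]} (H : k[X][X]) (h : OrdP θ0 D s F) :
    OrdP θ0 D s (F * H) := by
  obtain ⟨G, rfl⟩ := h
  refine ⟨fun r => G r * H, ?_⟩
  rw [Finset.sum_mul]
  exact Finset.sum_congr rfl (fun r _ => by ring)

lemma OrdP.step1 {θ0 : k} {D : k[X]} {s : ℕ} {F : k[X][X]} (h : OrdP θ0 D s F) :
    OrdP θ0 D (s + 1) (F * (X - C (C θ0))) := by
  obtain ⟨G, rfl⟩ := h
  refine ⟨fun r => if r ≤ s then G r else 0, ?_⟩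
  rw [Finset.sum_range_succ _ (s + 1)]
  simp only [Nat.not_succ_le_self, if_false, mul_zero, add_zero]
  rw [Finset.sum_mul]
  refine Finset.sum_congr rfl (fun r hr => ?_)
  rw [Finset.mem_range] at hr
  have h1 : s + 1 - r = (s - r) + 1 := by omega
  rw [h1, pow_succ, if_pos (by omega)]
  ring

lemma OrdP.step2 {θ0 : k} {D : k[X]} {s : ℕ} {F : k[X][X]} (h : OrdP θ0 D s F) :
    OrdP θ0 D (s + 1) (F * C D) := by
  obtain ⟨G, rfl⟩ := h
  refine ⟨fun r => if r = 0 then 0 else G (r - 1), ?_⟩
  rw [Finset.sum_range_succ' _ (s + 1)]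
  simp only [if_true, mul_zero, add_zero]
  rw [Finset.sum_mul]
  refine Finset.sum_congr rfl (fun r hr => ?_)
  rw [Finset.mem_range] at hr
  have h1 : s + 1 - (r + 1) = s - r := by omega
  rw [h1, pow_succ, if_neg (by omega), Nat.add_sub_cancel]
  ring

lemma OrdP.base (θ0 : k) (D : k[X]) (F : k[X][X]) : OrdP θ0 D 0 F :=
  ⟨fun _ => F, by simp⟩

lemma OrdP.mul_xA {θ t : Fin 4 → k} {l : Fin 4} {s : ℕ} {F : k[X][X]}
    (h : OrdP (θ l) ((X - C (t l)) ^ 2) s F) (i : Fin 4) :
    OrdP (θ l) ((X - C (t l)) ^ 2) (s + 1) (F * xA θ t i) := by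
  by_cases hil : i = l
  · subst hil
    rw [xA, ← mul_assoc]
    exact h.step1.mul _
  · have hl : l ∈ Finset.univ.erase i :=
      Finset.mem_erase.2 ⟨fun h' => hil h'.symm, Finset.mem_univ _⟩
    rw [xA, ← Finset.mul_prod_erase _ _ hl, map_mul]
    have h1 : F * ((X - C (C (θ i))) * (C ((X - C (t l)) ^ 2) *
        C (∏ x ∈ (Finset.univ.erase i).erase l, (X - C (t x)) ^ 2))) =
        F * C ((X - C (t l)) ^ 2) * ((X - C (C (θ i))) *
        C (∏ x ∈ (Finset.univ.erase i).erase l, (X - C (t x)) ^ 2)) := by ring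
    rw [h1]
    exact h.step2.mul _

lemma ordP_of_mem_pow (θ t : Fin 4 → k) (l : Fin 4) (s : ℕ) :
    ∀ F ∈ (vA θ t ^ s : Submodule k k[X][X]), OrdP (θ l) ((X - C (t l)) ^ 2) s F := by
  induction s with
  | zero => intro F _; exact OrdP.base _ _ _
  | succ s ih =>
    intro F hF
    rw [pow_succ] at hF
    induction hF using Submodule.mul_induction_on' with
    | mem_mul_mem a ha b hb =>
      have ha' := ih a ha
      rw [vA] at hb
      induction hb using Submodule.span_induction with
      | mem x hx =>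
        obtain ⟨j, rfl⟩ := hx
        exact ha'.mul_xA j
      | zero => rw [mul_zero]; exact OrdP.zero _ _ _
      | add x y _ _ hx hy => rw [mul_add]; exact hx.add hy
      | smul c x _ hx =>
        rw [mul_smul_comm, Algebra.smul_def, mul_comm]
        exact hx.mul _
    | add x _ y _ hx hy => exact hx.add hy

lemma ordP_of_mem (θ t : Fin 4 → k) (l : Fin 4) (i s : ℕ) (F : k[X][X])
    (hF : F ∈ (tA k i * vA θ t ^ s : Submodule k k[X][X])) :
    OrdP (θ l) ((X - C (t l)) ^ 2) s F := by
  induction hF using Submodule.mul_induction_on' with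
  | mem_mul_mem a _ b hb =>
    rw [mul_comm]
    exact (ordP_of_mem_pow θ t l s b hb).mul a
  | add x _ y _ hx hy => exact hx.add hy

/-- an element of weighted order `≥ s` of small `n`-degree is divisible by `D^j` -/
lemma dvd_of_ord (θ0 : k) (D : k[X]) (s j : ℕ) (hj : j ≤ s) (F : k[X][X])
    (hF : OrdP θ0 D s F)
    (hdeg : ∀ n, s - j < n → F.coeff n = 0) : C (D ^ j) ∣ F := by
  -- modulo `D^j`
  set φ : k[X] →+* k[X] ⧸ Ideal.span {D ^ j} := Ideal.Quotient.mk (Ideal.span {D ^ j}) with hφ
  have key : (X - C (φ (C θ0))) ^ (s + 1 - j) ∣ Polynomial.map φ F ∨ j = 0 := by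
    rcases Nat.eq_zero_or_pos j with h0 | hpos
    · exact Or.inr h0
    left
    obtain ⟨G, rfl⟩ := hF
    rw [Polynomial.map_sum]
    apply Finset.dvd_sum
    intro r hr
    rw [Finset.mem_range] at hr
    rw [Polynomial.map_mul, Polynomial.map_mul, Polynomial.map_pow, Polynomial.map_pow]
    simp only [Polynomial.map_sub, Polynomial.map_X, Polynomial.map_C]
    by_cases hrj : j ≤ r
    · have h0 : (C (φ D) : (k[X] ⧸ Ideal.span {D ^ j})[X]) ^ r = 0 := by
        rw [← map_pow, ← map_pow]
        have : φ (D ^ r) = 0 := by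
          rw [hφ, Ideal.Quotient.eq_zero_iff_mem, Ideal.mem_span_singleton]
          exact pow_dvd_pow _ hrj
        rw [this, map_zero]
      rw [h0, mul_zero, zero_mul]
      exact dvd_zero _
    · rw [mul_assoc]
      exact Dvd.dvd.mul_right (pow_dvd_pow _ (by omega)) _
  rcases key with key | h0
  swap
  · subst h0
    simp
  rcases Nat.eq_zero_or_pos j with h0 | hpos
  · subst h0
    simp
  -- the map of F is zero
  have hz : Polynomial.map φ F = 0 := by
    obtain ⟨Q, hQ⟩ := key
    by_cases hQ0 : Q = 0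
    · rw [hQ, hQ0, mul_zero]
    exfalso
    have hmon : ((X - C (φ (C θ0))) ^ (s + 1 - j) : (k[X] ⧸ Ideal.span {D ^ j})[X]).Monic :=
      (monic_X_sub_C _).pow _
    by_cases htriv : Nontrivial (k[X] ⧸ Ideal.span {D ^ j})
    · have hd : (Polynomial.map φ F).natDegree = (s + 1 - j) + Q.natDegree := by
        rw [hQ, hmon.natDegree_mul' hQ0, (monic_X_sub_C _).natDegree_pow, natDegree_X_sub_C, mul_one]
      have hne : Polynomial.map φ F ≠ 0 := by
        rw [hQ]
        intro h
        exact hQ0 ((hmon.isRegular.left.mul_left_eq_zero_iff).1 h)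
      have hlc : (Polynomial.map φ F).coeff (Polynomial.map φ F).natDegree ≠ 0 := by
        rw [coeff_natDegree]
        exact leadingCoeff_ne_zero.2 hne
      apply hlc
      rw [coeff_map, hdeg _ (by omega), map_zero]
    · rw [not_nontrivial_iff_subsingleton] at htriv
      exact hQ0 (Subsingleton.elim _ _)
  rw [Polynomial.C_dvd_iff_dvd_coeff]
  intro n
  have h1 : φ (F.coeff n) = 0 := by
    rw [← coeff_map, hz, coeff_zero]
  rwa [hφ, Ideal.Quotient.eq_zero_iff_mem, Ideal.mem_span_singleton] at h1

/-- elements of the forms of `n`-degree `≤ s - j` are divisible by `∏ (t - t_l)^(2j)` -/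
lemma dvd_of_mem_forms (θ t : Fin 4 → k) (ht : Function.Injective t) (i s j : ℕ) (hj : j ≤ s)
    (F : k[X][X]) (hF : F ∈ (tA k i * vA θ t ^ s : Submodule k k[X][X]))
    (hdeg : ∀ n, s - j < n → F.coeff n = 0) (n : ℕ) :
    (∏ l, (X - C (t l)) ^ 2) ^ j ∣ F.coeff n := by
  rw [← Finset.prod_pow]
  apply Finset.prod_dvd_of_coprime
  · intro a _ b _ hab
    apply IsCoprime.pow
    exact coprime_sq (fun h => hab (ht h))
  · intro l _
    have h1 := dvd_of_ord (θ l) ((X - C (t l)) ^ 2) s j hj F (ordP_of_mem θ t l i s F hF) hdeg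
    rw [Polynomial.C_dvd_iff_dvd_coeff] at h1
    exact h1 n

/-- `t`-degree of the coefficients of the forms -/
lemma natDegree_coeff_forms (θ t : Fin 4 → k) (i s : ℕ) (F : k[X][X])
    (hF : F ∈ (tA k i * vA θ t ^ s : Submodule k k[X][X])) (n : ℕ) :
    (F.coeff n).natDegree ≤ 6 * s + i := by
  have hx : ∀ j n, ((xA θ t j).coeff n).natDegree ≤ 6 := by
    intro j n
    rw [xA, sub_mul, coeff_sub, ← map_mul]
    have hD : (∏ l ∈ Finset.univ.erase j, (X - C (t l)) ^ 2 : k[X]).natDegree ≤ 6 := by
      refine (natDegree_prod_le _ _).trans ?_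
      refine (Finset.sum_le_sum (g := fun _ => 2) ?_).trans ?_
      · intro l _
        refine natDegree_pow_le.trans ?_
        rw [natDegree_X_sub_C]
      · rw [Finset.sum_const, Finset.card_erase_of_mem (Finset.mem_univ _), Finset.card_univ,
          Fintype.card_fin]
        simp
    have hCD : (C (θ j) * ∏ l ∈ Finset.univ.erase j, (X - C (t l)) ^ 2 : k[X]).natDegree ≤ 6 :=
      (natDegree_C_mul_le _ _).trans hD
    refine (natDegree_sub_le _ _).trans (max_le ?_ ?_)
    · rcases n with _ | n
      · rw [mul_coeff_zero, coeff_X_zero, zero_mul]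
        simp
      · rw [coeff_X_mul, coeff_C]
        split_ifs
        · exact hD
        · simp
    · rw [coeff_C]
      split_ifs
      · exact hCD
      · simp
  have hv : ∀ F ∈ vA θ t, ∀ n, (F.coeff n).natDegree ≤ 6 := by
    intro F hF
    rw [vA] at hF
    induction hF using Submodule.span_induction with
    | mem x hx' =>
      obtain ⟨j, rfl⟩ := hx'
      exact hx j
    | zero => intro n; simp
    | add x y _ _ hx' hy' =>
      intro n
      rw [coeff_add]
      exact (natDegree_add_le _ _).trans (max_le (hx' n) (hy' n))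
    | smul c x _ hx' =>
      intro n
      rw [coeff_smul]
      exact (natDegree_smul_le _ _).trans (hx' n)
  have hmul : ∀ (F G : k[X][X]) (a b : ℕ), (∀ n, (F.coeff n).natDegree ≤ a) →
      (∀ n, (G.coeff n).natDegree ≤ b) → ∀ n, ((F * G).coeff n).natDegree ≤ a + b := by
    intro F G a b hF hG n
    rw [coeff_mul]
    refine natDegree_sum_le_of_forall_le _ _ ?_
    intro x _
    exact natDegree_mul_le.trans (add_le_add (hF _) (hG _))
  have hvs : ∀ s, ∀ F ∈ (vA θ t ^ s : Submodule k k[X][X]), ∀ n, (F.coeff n).natDegree ≤ 6 * s := by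
    intro s
    induction s with
    | zero =>
      intro F hF n
      rw [pow_zero, Submodule.mem_one] at hF
      obtain ⟨c, rfl⟩ := hF
      rw [Polynomial.algebraMap_apply, coeff_C]
      split_ifs
      · rw [Polynomial.algebraMap_apply]
        simp
      · simp
    | succ s ih =>
      intro F hF
      rw [pow_succ] at hF
      induction hF using Submodule.mul_induction_on' with
      | mem_mul_mem m hm n' hn' =>
        intro n
        have := hmul m n' (6 * s) 6 (ih m hm) (hv n' hn') n
        omega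
      | add x _ y _ hx' hy' =>
        intro n
        rw [coeff_add]
        exact (natDegree_add_le _ _).trans (max_le (hx' n) (hy' n))
  have ht : ∀ F ∈ tA k i, ∀ n, (F.coeff n).natDegree ≤ i := by
    intro F hF
    rw [tA] at hF
    induction hF using Submodule.span_induction with
    | mem x hx' =>
      obtain ⟨a, ha, rfl⟩ := hx'
      intro n
      rw [coeff_C]
      split_ifs
      · rw [natDegree_X_pow]; exact ha
      · simp
    | zero => intro n; simp
    | add x y _ _ hx' hy' =>
      intro n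
      rw [coeff_add]
      exact (natDegree_add_le _ _).trans (max_le (hx' n) (hy' n))
    | smul c x _ hx' =>
      intro n
      rw [coeff_smul]
      exact (natDegree_smul_le _ _).trans (hx' n)
  induction hF using Submodule.mul_induction_on' with
  | mem_mul_mem m hm n' hn' =>
    have := hmul m n' i (6 * s) (ht m hm) (hvs s n' hn') n
    omega
  | add x _ y _ hx' hy' =>
    rw [coeff_add]
    exact (natDegree_add_le _ _).trans (max_le hx' hy')

lemma finrank_inf_ker_add_map {V W : Type*} [AddCommGroup V] [Module k V] [AddCommGroup W]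
    [Module k W] (f : V →ₗ[k] W) (A : Submodule k V) [Module.Finite k A] :
    Module.finrank k ↥(A ⊓ LinearMap.ker f) + Module.finrank k ↥(A.map f) = Module.finrank k A := by
  have h1 := LinearMap.finrank_range_add_finrank_ker (f.domRestrict A)
  have h2 : LinearMap.range (f.domRestrict A) = A.map f := by
    rw [LinearMap.range_domRestrict]
  have h3 : Module.finrank k ↥(LinearMap.ker (f.domRestrict A)) =
      Module.finrank k ↥(A ⊓ LinearMap.ker f) := by
    have h4 : LinearMap.ker (f.domRestrict A) = Submodule.comap A.subtype (LinearMap.ker f) := by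
      rw [LinearMap.ker_domRestrict]
    rw [h4, ← Submodule.finrank_map_subtype_eq A (Submodule.comap A.subtype (LinearMap.ker f)),
      Submodule.map_comap_subtype]
  rw [h2, h3] at h1
  omega

/-- one step of the filtration by the `n`-degree -/
lemma finrank_step (θ t : Fin 4 → k) (ht : Function.Injective t) (i s j : ℕ) (hj : j ≤ s) :
    Module.finrank k ↥((tA k i * vA θ t ^ s : Submodule k k[X][X]) ⊓ Wn k (s + 1 - j)) ≤
      Module.finrank k ↥((tA k i * vA θ t ^ s : Submodule k k[X][X]) ⊓ Wn k (s - j)) +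
        (6 * s + i + 1 - 8 * j) := by
  set V : Submodule k k[X][X] := tA k i * vA θ t ^ s with hV
  have hVf : Module.Finite k V := Module.Finite.iff_fg.mpr (fg_forms θ t i s)
  have hVn : IsNoetherian k V := isNoetherian_of_isNoetherianRing_of_finite k V
  set A : Submodule k k[X][X] := V ⊓ Wn k (s + 1 - j) with hA
  have hAf : Module.Finite k A :=
    Module.Finite.of_injective (Submodule.inclusion (inf_le_left : A ≤ V))
      (Submodule.inclusion_injective _)
  let f : k[X][X] →ₗ[k] k[X] := (Polynomial.lcoeff k[X] (s - j)).restrictScalars k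
  have hfa : ∀ F : k[X][X], f F = F.coeff (s - j) := fun F => rfl
  have h1 := finrank_inf_ker_add_map f A
  have h2 : A ⊓ LinearMap.ker f ≤ V ⊓ Wn k (s - j) := by
    rintro F ⟨⟨hF1, hF2⟩, hF3⟩
    refine ⟨hF1, ?_⟩
    intro n hn
    rcases Nat.lt_or_ge n (s + 1 - j) with h | h
    · have hn' : n = s - j := by omega
      rw [hn']
      exact hF3
    · exact hF2 n h
  have h2' : Module.finrank k ↥(A ⊓ LinearMap.ker f) ≤ Module.finrank k ↥(V ⊓ Wn k (s - j)) := by
    have : Module.Finite k ↥(V ⊓ Wn k (s - j)) :=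
      Module.Finite.of_injective (Submodule.inclusion (inf_le_left : V ⊓ Wn k (s - j) ≤ V))
        (Submodule.inclusion_injective _)
    exact Submodule.finrank_mono h2
  set Q : k[X] := ∏ l, (X - C (t l)) ^ 2 with hQ
  have hQm : Q.Monic := monic_prod_of_monic _ _ (fun l _ => (monic_X_sub_C _).pow 2)
  have hQd : Q.natDegree = 8 := by
    rw [hQ, natDegree_prod_of_monic _ _ (fun l _ => (monic_X_sub_C _).pow 2)]
    simp [(monic_X_sub_C _).natDegree_pow]
  set M : Submodule k k[X] :=
    (Polynomial.degreeLT k (6 * s + i + 1 - 8 * j)).map (LinearMap.mulLeft k (Q ^ j)) with hM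
  have h3 : A.map f ≤ M := by
    rintro _ ⟨F, ⟨hF1, hF2⟩, rfl⟩
    rw [hfa]
    have hdvd := dvd_of_mem_forms θ t ht i s j hj F hF1
      (fun n hn => hF2 n (by omega)) (s - j)
    obtain ⟨G, hG⟩ := hdvd
    refine ⟨G, ?_, ?_⟩
    · rw [SetLike.mem_coe, Polynomial.mem_degreeLT]
      by_cases hG0 : G = 0
      · rw [hG0, degree_zero]
        exact WithBot.bot_lt_coe _
      have hnd := natDegree_coeff_forms θ t i s F hF1 (s - j)
      rw [hG, (hQm.pow j).natDegree_mul' hG0, hQm.natDegree_pow, hQd] at hnd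
      rw [degree_eq_natDegree hG0]
      exact_mod_cast (by omega : G.natDegree < 6 * s + i + 1 - 8 * j)
    · rw [LinearMap.mulLeft_apply]
      exact hG.symm
  have h4 : Module.finrank k M ≤ 6 * s + i + 1 - 8 * j := by
    refine (Submodule.finrank_map_le _ _).trans ?_
    rw [(Polynomial.degreeLTEquiv k (6 * s + i + 1 - 8 * j)).finrank_eq]
    simp
  have hMf : Module.Finite k M := by
    have : Module.Finite k ↥(Polynomial.degreeLT k (6 * s + i + 1 - 8 * j)) :=
      Module.Finite.equiv (Polynomial.degreeLTEquiv k (6 * s + i + 1 - 8 * j)).symm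
    exact inferInstanceAs (Module.Finite k ↥(Submodule.map _ _))
  have h5 : Module.finrank k ↥(A.map f) ≤ Module.finrank k M := Submodule.finrank_mono h3
  omega

/-- the rank constraint, as a sum -/
def RA (i s J : ℕ) : ℕ := ∑ j ∈ Finset.range (J + 1), (6 * s + i + 1 - 8 * j)

lemma finrank_forms_le (θ t : Fin 4 → k) (ht : Function.Injective t) (i s J : ℕ) (hJ : J ≤ s)
    (h0 : (tA k i * vA θ t ^ s : Submodule k k[X][X]) ≤ Wn k (s + 1)) :
    Module.finrank k ↥(tA k i * vA θ t ^ s : Submodule k k[X][X]) ≤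
      Module.finrank k ↥((tA k i * vA θ t ^ s : Submodule k k[X][X]) ⊓ Wn k (s - J)) +
        RA i s J := by
  induction J with
  | zero =>
    have h1 := finrank_step θ t ht i s 0 (by omega)
    rw [Nat.sub_zero, inf_eq_left.2 h0] at h1
    rw [RA, Finset.sum_range_one]
    exact h1
  | succ J ih =>
    have h1 := finrank_step θ t ht i s (J + 1) hJ
    have h2 := ih (by omega)
    rw [RA, Finset.sum_range_succ]
    rw [RA] at h2
    have h3 : s + 1 - (J + 1) = s - J := by omega
    rw [h3] at h1
    omega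

lemma forms_le_Wn (θ t : Fin 4 → k) (i s : ℕ) :
    (tA k i * vA θ t ^ s : Submodule k k[X][X]) ≤ Wn k (s + 1) := by
  have hx : ∀ j, (xA θ t j).natDegree ≤ 1 := by
    intro j
    rw [xA]
    refine natDegree_mul_le.trans ?_
    rw [natDegree_X_sub_C, natDegree_C]
  have hv : ∀ s, ∀ F ∈ (vA θ t ^ s : Submodule k k[X][X]), F.natDegree ≤ s := by
    intro s
    induction s with
    | zero =>
      intro F hF
      rw [pow_zero, Submodule.mem_one] at hF
      obtain ⟨c, rfl⟩ := hF
      rw [Polynomial.algebraMap_apply, natDegree_C]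
    | succ s ih =>
      intro F hF
      rw [pow_succ] at hF
      induction hF using Submodule.mul_induction_on' with
      | mem_mul_mem a ha b hb =>
        have hb' : b.natDegree ≤ 1 := by
          rw [vA] at hb
          induction hb using Submodule.span_induction with
          | mem x hx' =>
            obtain ⟨j, rfl⟩ := hx'
            exact hx j
          | zero => simp
          | add x y _ _ hx' hy' => exact (natDegree_add_le _ _).trans (max_le hx' hy')
          | smul c x _ hx' => exact (natDegree_smul_le _ _).trans hx'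
        exact natDegree_mul_le.trans (by have := ih a ha; omega)
      | add x _ y _ hx' hy' => exact (natDegree_add_le _ _).trans (max_le hx' hy')
  intro F hF
  have hFd : F.natDegree ≤ s := by
    induction hF using Submodule.mul_induction_on' with
    | mem_mul_mem a ha b hb =>
      have ha' : a.natDegree ≤ 0 := by
        rw [tA] at ha
        induction ha using Submodule.span_induction with
        | mem x hx' =>
          obtain ⟨c, _, rfl⟩ := hx'
          rw [natDegree_C]
        | zero => simp
        | add x y _ _ hx' hy' => exact (natDegree_add_le _ _).trans (max_le hx' hy')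
        | smul c x _ hx' => exact (natDegree_smul_le _ _).trans hx'
      exact natDegree_mul_le.trans (by have := hv s b hb; omega)
    | add x _ y _ hx' hy' => exact (natDegree_add_le _ _).trans (max_le hx' hy')
  intro n hn
  exact coeff_eq_zero_of_natDegree_lt (by omega)

/-- **Rank constraint**: for forms `P c` of bidegree `(i,s)` the vectors of values of functionals
that only see the coefficients of `n^m`, `m ≥ s - J`, lie in a subspace of dimension `≤ RA i s J`. -/
theorem exists_rank_subspace (θ t : Fin 4 → k) (ht : Function.Injective t) (i s J : ℕ) (hJ : J ≤ s)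
    {N : ℕ} (P : Fin N → k[X][X])
    (hP : ∀ c, P c ∈ (tA k i * vA θ t ^ s : Submodule k k[X][X])) :
    ∃ U : Submodule k (Fin N → k), Module.finrank k U ≤ RA i s J ∧
      ∀ ℓ : k[X][X] →ₗ[k] k, Wn k (s - J) ≤ LinearMap.ker ℓ → (fun c => ℓ (P c)) ∈ U := by
  set V : Submodule k k[X][X] := tA k i * vA θ t ^ s with hV
  have hVf : Module.Finite k V := Module.Finite.iff_fg.mpr (fg_forms θ t i s)
  set q := (Wn k (s - J)).mkQ with hq
  have h1 := finrank_inf_ker_add_map q V
  rw [hq, Submodule.ker_mkQ] at h1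
  have h2 := finrank_forms_le θ t ht i s J hJ (forms_le_Wn θ t i s)
  rw [← hV] at h2
  set Vb := V.map q with hVb
  have hVbf : Module.Finite k Vb := inferInstanceAs (Module.Finite k ↥(Submodule.map _ _))
  let T : Module.Dual k Vb →ₗ[k] (Fin N → k) :=
    { toFun := fun φ c => φ ⟨q (P c), Submodule.mem_map_of_mem (hP c)⟩
      map_add' := by intro φ ψ; rfl
      map_smul' := by intro a φ; rfl }
  refine ⟨LinearMap.range T, ?_, ?_⟩
  · refine (LinearMap.finrank_range_le T).trans ?_
    rw [Subspace.dual_finrank_eq]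
    omega
  · intro ℓ hℓ
    refine ⟨((Wn k (s - J)).liftQ ℓ hℓ).comp Vb.subtype, ?_⟩
    funext c
    change (Wn k (s - J)).liftQ ℓ hℓ (q (P c)) = ℓ (P c)
    rw [hq, Submodule.mkQ_apply, Submodule.liftQ_apply]

end Pool.Agent.Lib.SQF
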