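import Pool.Agent.Lib.SQF.RealDet
import Pool.Agent.Lib.SQF.RealRank

/-!
# SQF, section S5: the real determinant bound on alpha-slices

`poly_det_le`: determinants of the polynomials `P_c(δ, n)`, forms of bidegree `(i,s)` of the slice
in the centred parameter `δ = t - t0`.
`real_det_alpha`: the determinant of the integral monomial forms `u^(i-a) v^a ∏ b_k^(J_k)` at `N`
solutions of one chart.
-/

set_option autoImplicit false

open Polynomial Pointwise Finset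

namespace Pool.Agent.Lib.SQF

/-! ## majorants -/

/-- `G` is a coefficientwise majorant of `F`. -/
def Maj (F : ℂ[X][X]) (G : ℝ[X][X]) : Prop := ∀ n m, ‖(F.coeff n).coeff m‖ ≤ (G.coeff n).coeff m

lemma Maj.nonneg {F : ℂ[X][X]} {G : ℝ[X][X]} (h : Maj F G) (n m : ℕ) : 0 ≤ (G.coeff n).coeff m :=
  (norm_nonneg _).trans (h n m)

lemma Maj.add {F F' : ℂ[X][X]} {G G' : ℝ[X][X]} (h : Maj F G) (h' : Maj F' G') :
    Maj (F + F') (G + G') := by
  intro n m
  simp only [coeff_add]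
  exact (norm_add_le _ _).trans (add_le_add (h n m) (h' n m))

lemma Maj.zero : Maj 0 0 := by intro n m; simp

lemma Maj.sum {ι : Type*} (S : Finset ι) (F : ι → ℂ[X][X]) (G : ι → ℝ[X][X])
    (h : ∀ j ∈ S, Maj (F j) (G j)) : Maj (∑ j ∈ S, F j) (∑ j ∈ S, G j) := by
  classical
  induction S using Finset.induction_on with
  | empty => simpa using Maj.zero
  | insert a S ha ih =>
    rw [Finset.sum_insert ha, Finset.sum_insert ha]
    exact (h a (Finset.mem_insert_self _ _)).add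
      (ih (fun j hj => h j (Finset.mem_insert_of_mem hj)))

lemma Maj.mul {F F' : ℂ[X][X]} {G G' : ℝ[X][X]} (h : Maj F G) (h' : Maj F' G') :
    Maj (F * F') (G * G') := by
  intro n m
  simp only [coeff_mul, finsetSum_coeff]
  refine (norm_sum_le _ _).trans (Finset.sum_le_sum ?_)
  intro x _
  refine (norm_sum_le _ _).trans (Finset.sum_le_sum ?_)
  intro y _
  rw [norm_mul]
  exact mul_le_mul (h _ _) (h' _ _) (norm_nonneg _) (h.nonneg _ _)

lemma Maj.one : Maj 1 1 := by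
  intro n m
  rw [coeff_one, coeff_one]
  split_ifs
  · rw [coeff_one, coeff_one]
    split_ifs <;> simp
  · simp

lemma Maj.pow {F : ℂ[X][X]} {G : ℝ[X][X]} (h : Maj F G) (r : ℕ) : Maj (F ^ r) (G ^ r) := by
  induction r with
  | zero => rw [pow_zero, pow_zero]; exact Maj.one
  | succ r ih => rw [pow_succ, pow_succ]; exact ih.mul h

lemma Maj.prod {ι : Type*} (S : Finset ι) (F : ι → ℂ[X][X]) (G : ι → ℝ[X][X])
    (h : ∀ j ∈ S, Maj (F j) (G j)) : Maj (∏ j ∈ S, F j) (∏ j ∈ S, G j) := by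
  classical
  induction S using Finset.induction_on with
  | empty => simpa using Maj.one
  | insert a S ha ih =>
    rw [Finset.prod_insert ha, Finset.prod_insert ha]
    exact (h a (Finset.mem_insert_self _ _)).mul
      (ih (fun j hj => h j (Finset.mem_insert_of_mem hj)))

lemma Maj.CC {c : ℂ} {M : ℝ} (h : ‖c‖ ≤ M) : Maj (C (C c)) (C (C M)) := by
  intro n m
  rw [coeff_C, coeff_C]
  split_ifs
  · rw [coeff_C, coeff_C]
    split_ifs
    · exact h
    · simp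
  · simp

lemma Maj.X' : Maj X X := by
  intro n m
  rw [coeff_X, coeff_X]
  split_ifs
  · rw [coeff_one, coeff_one]
    split_ifs <;> simp
  · simp

lemma Maj.CX : Maj (C X) (C X) := by
  intro n m
  rw [coeff_C, coeff_C]
  split_ifs
  · rw [coeff_X, coeff_X]
    split_ifs <;> simp
  · simp

lemma Maj.neg {F : ℂ[X][X]} {G : ℝ[X][X]} (h : Maj F G) : Maj (-F) G := by
  intro n m
  rw [coeff_neg, coeff_neg, norm_neg]
  exact h n m

/-- every coefficient is at most the value of the majorant at `(1,1)` -/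
lemma Maj.coeff_le {F : ℂ[X][X]} {G : ℝ[X][X]} (h : Maj F G) (n m : ℕ) :
    ‖(F.coeff n).coeff m‖ ≤ (G.eval 1).eval 1 := by
  have h1 : ∀ n, 0 ≤ (G.coeff n).eval 1 := by
    intro n
    rw [eval_eq_sum_range]
    exact Finset.sum_nonneg (fun j _ => by simpa using h.nonneg n j)
  have h2 : (G.eval 1).eval 1 = ∑ n ∈ Finset.range (G.natDegree + 1), (G.coeff n).eval 1 := by
    have h2a : G.eval 1 = ∑ n ∈ Finset.range (G.natDegree + 1), G.coeff n * 1 ^ n :=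
      eval_eq_sum_range (p := G) 1
    rw [h2a, eval_finsetSum]
    simp
  have h3 : (G.coeff n).coeff m ≤ (G.coeff n).eval 1 := by
    by_cases hm : m ≤ (G.coeff n).natDegree
    · rw [eval_eq_sum_range]
      simp only [one_pow, mul_one]
      exact Finset.single_le_sum (f := fun j => (G.coeff n).coeff j)
        (fun j _ => h.nonneg n j) (Finset.mem_range.2 (by omega))
    · rw [coeff_eq_zero_of_natDegree_lt (by omega)]
      exact h1 n
  have h4 : (G.coeff n).eval 1 ≤ (G.eval 1).eval 1 := by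
    rw [h2]
    by_cases hn : n ≤ G.natDegree
    · exact Finset.single_le_sum (f := fun j => (G.coeff j).eval 1)
        (fun j _ => h1 j) (Finset.mem_range.2 (by omega))
    · rw [coeff_eq_zero_of_natDegree_lt (by omega), eval_zero]
      exact Finset.sum_nonneg (fun j _ => h1 j)
  exact (h n m).trans (h3.trans h4)

/-! ## the forms -/

/-- the linear form `z_l + y_l δ` as a polynomial in `δ` -/
noncomputable def linP (z y : Fin 4 → ℂ) (l : Fin 4) : ℂ[X] := C (z l) + C (y l) * X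

/-- `∑_j W_kj (n - θ_j) ∏_{l ≠ j} (z_l + y_l δ)^2` -/
noncomputable def gP (θ : Fin 4 → ℂ) (W : Fin 4 → Fin 4 → ℂ) (z y : Fin 4 → ℂ) (κ : Fin 4) :
    ℂ[X][X] :=
  ∑ j, C (C (W κ j)) * ((X - C (C (θ j))) * C (∏ l ∈ Finset.univ.erase j, linP z y l ^ 2))

/-- the form `(t0 + δ)^a ∏_k g_k^(J_k)` -/
noncomputable def fP (θ : Fin 4 → ℂ) (W : Fin 4 → Fin 4 → ℂ) (z y : Fin 4 → ℂ) (t0 : ℂ)
    (m : ℕ × (Fin 4 → ℕ)) : ℂ[X][X] :=
  C ((C t0 + X) ^ m.1) * ∏ κ, gP θ W z y κ ^ m.2 κ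

lemma gP_mem (θ : Fin 4 → ℂ) (W : Fin 4 → Fin 4 → ℂ) (z y : Fin 4 → ℂ) (hy : ∀ l, y l ≠ 0)
    (κ : Fin 4) : gP θ W z y κ ∈ vA θ (fun l => -(z l / y l)) := by
  rw [gP]
  apply Submodule.sum_mem
  intro j _
  have h1 : ∀ l, linP z y l = C (y l) * (X - C (-(z l / y l))) := by
    intro l
    rw [linP, mul_sub, ← C_mul, mul_neg, mul_div_cancel₀ _ (hy l), map_neg, sub_neg_eq_add,
      add_comm]
  have h2 : C (C (W κ j)) * ((X - C (C (θ j))) * C (∏ l ∈ Finset.univ.erase j, linP z y l ^ 2)) =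
      (W κ j * ∏ l ∈ Finset.univ.erase j, y l ^ 2) • xA θ (fun l => -(z l / y l)) j := by
    have h3 : (∏ l ∈ Finset.univ.erase j, linP z y l ^ 2 : ℂ[X]) =
        C (∏ l ∈ Finset.univ.erase j, y l ^ 2) *
          ∏ l ∈ Finset.univ.erase j, (X - C (-(z l / y l))) ^ 2 := by
      rw [map_prod, ← Finset.prod_mul_distrib]
      refine Finset.prod_congr rfl (fun l _ => ?_)
      rw [h1 l, mul_pow, map_pow]
    rw [h3, xA, Algebra.smul_def, Polynomial.algebraMap_apply, Polynomial.algebraMap_apply]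
    simp only [map_mul, Algebra.algebraMap_self, RingHom.id_apply]
    ring
  rw [h2]
  exact Submodule.smul_mem _ _ (xA_mem _ _ _)

lemma prod_pow_mem (θ t : Fin 4 → ℂ) (g : Fin 4 → ℂ[X][X]) (hg : ∀ κ, g κ ∈ vA θ t)
    (J : Fin 4 → ℕ) (S : Finset (Fin 4)) :
    ∏ κ ∈ S, g κ ^ J κ ∈ (vA θ t ^ (∑ κ ∈ S, J κ) : Submodule ℂ ℂ[X][X]) := by
  classical
  induction S using Finset.induction_on with
  | empty =>
    rw [Finset.prod_empty, Finset.sum_empty, pow_zero]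
    exact Submodule.one_le.mp le_rfl
  | insert a S ha ih =>
    rw [Finset.prod_insert ha, Finset.sum_insert ha, pow_add]
    exact Submodule.mul_mem_mul (Submodule.pow_mem_pow _ (hg a) _) ih

lemma fP_mem (θ : Fin 4 → ℂ) (W : Fin 4 → Fin 4 → ℂ) (z y : Fin 4 → ℂ) (hy : ∀ l, y l ≠ 0)
    (t0 : ℂ) (i s : ℕ) (m : ℕ × (Fin 4 → ℕ)) (h1 : m.1 ≤ i) (h2 : ∑ κ, m.2 κ = s) :
    fP θ W z y t0 m ∈
      (tA ℂ i * vA θ (fun l => -(z l / y l)) ^ s : Submodule ℂ ℂ[X][X]) := by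
  rw [fP]
  apply Submodule.mul_mem_mul
  · apply C_mem_tA
    rw [Polynomial.mem_degreeLT]
    have hd : ((C t0 + X : ℂ[X]) ^ m.1).natDegree ≤ m.1 := by
      refine natDegree_pow_le.trans ?_
      have : (C t0 + X : ℂ[X]).natDegree ≤ 1 :=
        (natDegree_add_le _ _).trans (max_le (by simp) (by simp))
      nlinarith
    refine lt_of_le_of_lt degree_le_natDegree ?_
    exact_mod_cast (by omega : ((C t0 + X : ℂ[X]) ^ m.1).natDegree < i + 1)
  · have := prod_pow_mem θ (fun l => -(z l / y l)) (gP θ W z y) (gP_mem θ W z y hy) m.2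
      Finset.univ
    rwa [h2] at this

/-- the constant bounding the coefficients -/
noncomputable def KA (i s : ℕ) (Wb Θ Zb Yb : ℝ) : ℝ := 2 ^ i * (4 * Wb * (1 + Θ) * (Zb + Yb) ^ 6) ^ s

lemma KA_nonneg (i s : ℕ) {Wb Θ Zb Yb : ℝ} (h1 : 0 ≤ Wb) (h2 : 0 ≤ Θ) :
    0 ≤ KA i s Wb Θ Zb Yb := by
  unfold KA
  positivity

lemma fP_coeff_le (θ : Fin 4 → ℂ) (W : Fin 4 → Fin 4 → ℂ) (z y : Fin 4 → ℂ) (t0 : ℂ) (i s : ℕ)
    (m : ℕ × (Fin 4 → ℕ)) (h1 : m.1 ≤ i) (h2 : ∑ κ, m.2 κ = s) {Wb Θ Zb Yb : ℝ}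
    (hW : ∀ a b, ‖W a b‖ ≤ Wb) (hΘ : ∀ a, ‖θ a‖ ≤ Θ) (hZ : ∀ a, ‖z a‖ ≤ Zb) (hY : ∀ a, ‖y a‖ ≤ Yb)
    (ht0 : ‖t0‖ ≤ 1) (n p : ℕ) :
    ‖((fP θ W z y t0 m).coeff n).coeff p‖ ≤ KA i s Wb Θ Zb Yb := by
  have hlin : ∀ l, Maj (C (linP z y l)) (C (C Zb + C Yb * X)) := by
    intro l
    rw [linP, map_add, map_add, map_mul, map_mul]
    exact (Maj.CC (hZ l)).add ((Maj.CC (hY l)).mul Maj.CX)
  have hg : ∀ κ, Maj (gP θ W z y κ) (∑ j : Fin 4, C (C Wb) * ((X + C (C Θ)) *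
      C (∏ l ∈ Finset.univ.erase j, (C Zb + C Yb * X) ^ 2))) := by
    intro κ
    rw [gP]
    apply Maj.sum
    intro j _
    refine (Maj.CC (hW κ j)).mul (Maj.mul ?_ ?_)
    · rw [sub_eq_add_neg]
      exact Maj.X'.add (Maj.CC (hΘ j)).neg
    · rw [map_prod, map_prod]
      apply Maj.prod
      intro l _
      rw [map_pow, map_pow]
      exact (hlin l).pow 2
  have hf : Maj (fP θ W z y t0 m) (C ((C 1 + X) ^ m.1) * ∏ κ, (∑ j : Fin 4, C (C Wb) *
      ((X + C (C Θ)) * C (∏ l ∈ Finset.univ.erase j, (C Zb + C Yb * X) ^ 2))) ^ m.2 κ) := by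
    rw [fP]
    refine Maj.mul ?_ ?_
    · rw [map_pow, map_pow, map_add, map_add]
      exact ((Maj.CC ht0).add Maj.CX).pow _
    · apply Maj.prod
      intro κ _
      exact (hg κ).pow _
  refine (hf.coeff_le n p).trans ?_
  have hcard : ∀ j : Fin 4, (Finset.univ.erase j).card = 3 := by
    intro j
    rw [Finset.card_erase_of_mem (Finset.mem_univ _), Finset.card_univ, Fintype.card_fin]
  have he : ((C ((C 1 + X) ^ m.1) * ∏ κ, (∑ j : Fin 4, C (C Wb) *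
      ((X + C (C Θ)) * C (∏ l ∈ Finset.univ.erase j, (C Zb + C Yb * X) ^ 2))) ^ m.2 κ :
        ℝ[X][X]).eval 1).eval 1 = 2 ^ m.1 * (4 * Wb * (1 + Θ) * (Zb + Yb) ^ 6) ^ s := by
    simp only [eval_mul, eval_C, eval_pow, eval_add, eval_X, eval_prod, eval_finsetSum, eval_one]
    rw [← h2, ← Finset.prod_pow_eq_pow_sum]
    congr 1
    · norm_num
    · refine Finset.prod_congr rfl (fun κ _ => ?_)
      congr 1
      simp only [Finset.prod_const, hcard, Finset.sum_const, Finset.card_univ, Fintype.card_fin,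
        nsmul_eq_mul]
      push_cast
      ring
  rw [he, KA]
  have hWb : 0 ≤ Wb := (norm_nonneg _).trans (hW 0 0)
  have hΘ0 : 0 ≤ Θ := (norm_nonneg _).trans (hΘ 0)
  have hZ0 : 0 ≤ Zb := (norm_nonneg _).trans (hZ 0)
  have hY0 : 0 ≤ Yb := (norm_nonneg _).trans (hY 0)
  refine mul_le_mul_of_nonneg_right ?_ (by positivity)
  exact pow_le_pow_right₀ (by norm_num) h1

/-- the index set of the monomials `δ^p ν^q` -/
def IA (i s : ℕ) : Finset (ℕ × ℕ) := Finset.range (6 * s + i + 1) ×ˢ Finset.range (s + 1)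

/-- admissible sets of monomials -/
def admA (i s : ℕ) (T : Finset (ℕ × ℕ)) : Prop :=
  ∀ J ≤ s, (T.filter (fun m => m.2 ≤ J)).card ≤ RA i s J

lemma evalEval_expand (i s : ℕ) (P : ℂ[X][X]) (h1 : P ∈ Wn ℂ (s + 1))
    (h2 : ∀ n, (P.coeff n).natDegree ≤ 6 * s + i) (δ n ν : ℂ) (hν : ν * n = 1) :
    P.evalEval δ n = n ^ s * ∑ m ∈ IA i s, (P.coeff (s - m.2)).coeff m.1 * (δ ^ m.1 * ν ^ m.2) := by
  have hd : P.natDegree < s + 1 := by
    rw [Nat.lt_succ_iff, natDegree_le_iff_coeff_eq_zero]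
    intro N hN
    exact h1 N (by omega)
  rw [evalEval, eval_eq_sum_range' hd, eval_finsetSum, ← Finset.sum_range_reflect]
  rw [IA, Finset.sum_product_right, Finset.mul_sum]
  refine Finset.sum_congr rfl (fun q hq => ?_)
  rw [Finset.mem_range] at hq
  have hq' : s + 1 - 1 - q = s - q := by omega
  rw [hq', eval_mul, eval_pow, eval_C,
    eval_eq_sum_range' (lt_of_le_of_lt (h2 (s - q)) (Nat.lt_succ_self _)), Finset.mul_sum,
    Finset.sum_mul]
  refine Finset.sum_congr rfl (fun p _ => ?_)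
  have hn : n ^ (s - q) = n ^ s * ν ^ q := by
    have hs : s = (s - q) + q := by omega
    conv_rhs => rw [hs, pow_add]
    rw [mul_assoc, ← mul_pow, mul_comm n ν, hν, one_pow, mul_one]
  rw [hn]
  ring

/-- **Determinants of forms on an arc (polynomial version).** -/
theorem poly_det_le {N : ℕ} (i s : ℕ) (θ : Fin 4 → ℂ) (W : Fin 4 → Fin 4 → ℂ) (z y : Fin 4 → ℂ)
    (hy : ∀ l, y l ≠ 0) (hinj : Function.Injective (fun l => -(z l / y l))) (t0 : ℂ)
    (cols : Fin N → ℕ × (Fin 4 → ℕ)) (hc1 : ∀ c, (cols c).1 ≤ i) (hc2 : ∀ c, ∑ κ, (cols c).2 κ = s)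
    (K : ℝ) (hK : 0 ≤ K)
    (hKb : ∀ c n p, ‖((fP θ W z y t0 (cols c)).coeff n).coeff p‖ ≤ K)
    (δ n ν : Fin N → ℂ) (hν : ∀ r, ν r * n r = 1) (τ η : ℝ) (hδ : ∀ r, ‖δ r‖ ≤ τ)
    (hη : ∀ r, ‖ν r‖ ≤ η) (Wt : ℝ) (hWt0 : 0 ≤ Wt)
    (hWt : ∀ T ⊆ IA i s, T.card = N → admA i s T → ∏ m ∈ T, τ ^ m.1 * η ^ m.2 ≤ Wt) :
    ‖Matrix.det (Matrix.of fun r c => (fP θ W z y t0 (cols c)).evalEval (δ r) (n r))‖ ≤
      (∏ r, ‖n r‖ ^ s) * ((N.factorial : ℝ) * ((IA i s).card : ℝ) ^ N * K ^ N * Wt) := by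
  classical
  have hmem : ∀ c, fP θ W z y t0 (cols c) ∈
      (tA ℂ i * vA θ (fun l => -(z l / y l)) ^ s : Submodule ℂ ℂ[X][X]) :=
    fun c => fP_mem θ W z y hy t0 i s (cols c) (hc1 c) (hc2 c)
  have hexp : ∀ r c, (fP θ W z y t0 (cols c)).evalEval (δ r) (n r) =
      n r ^ s * ∑ m ∈ IA i s, ((fP θ W z y t0 (cols c)).coeff (s - m.2)).coeff m.1 *
        (δ r ^ m.1 * ν r ^ m.2) := fun r c =>
    evalEval_expand i s _ (forms_le_Wn _ _ _ _ (hmem c))
      (natDegree_coeff_forms _ _ _ _ _ (hmem c)) _ _ _ (hν r)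
  have hdet : Matrix.det (Matrix.of fun r c =>
      (fP θ W z y t0 (cols c)).evalEval (δ r) (n r)) = (∏ r, n r ^ s) *
      Matrix.det (Matrix.of fun r c => ∑ m ∈ IA i s,
        ((fP θ W z y t0 (cols c)).coeff (s - m.2)).coeff m.1 * (δ r ^ m.1 * ν r ^ m.2)) := by
    rw [← Matrix.det_mul_column]
    congr 1
    ext r c
    simp only [Matrix.of_apply]
    exact hexp r c
  rw [hdet, norm_mul, norm_prod]
  have hpow : ∀ r, ‖n r ^ s‖ = ‖n r‖ ^ s := fun r => norm_pow _ _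
  simp only [hpow]
  refine mul_le_mul_of_nonneg_left ?_ (Finset.prod_nonneg (fun r _ => by positivity))
  refine det_norm_le_adm (IA i s)
    (fun c m => ((fP θ W z y t0 (cols c)).coeff (s - m.2)).coeff m.1)
    (fun m r => δ r ^ m.1 * ν r ^ m.2) K (fun m => τ ^ m.1 * η ^ m.2) Wt (admA i s) hK
    (fun c m _ => hKb c _ _) ?_ ?_ hWt hWt0
  · intro m _ r
    rw [norm_mul, norm_pow, norm_pow]
    exact mul_le_mul (pow_le_pow_left₀ (norm_nonneg _) (hδ r) _)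
      (pow_le_pow_left₀ (norm_nonneg _) (hη r) _) (by positivity)
      (pow_nonneg ((norm_nonneg _).trans (hδ r)) _)
  · intro σ hσ hσI hadm
    unfold admA at hadm
    push Not at hadm
    obtain ⟨J, hJ, hJc⟩ := hadm
    obtain ⟨U, hU1, hU2⟩ := exists_rank_subspace θ (fun l => -(z l / y l)) hinj i s J hJ
      (fun c => fP θ W z y t0 (cols c)) hmem
    refine minor_eq_zero_of_rank _ (Finset.univ.filter (fun a => (σ a).2 ≤ J)) U ?_ ?_
    · intro a ha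
      rw [Finset.mem_filter] at ha
      let ℓ : ℂ[X][X] →ₗ[ℂ] ℂ := (Polynomial.lcoeff ℂ (σ a).1).comp
        ((Polynomial.lcoeff ℂ[X] (s - (σ a).2)).restrictScalars ℂ)
      have hℓ : Wn ℂ (s - J) ≤ LinearMap.ker ℓ := by
        intro F hF
        change (F.coeff (s - (σ a).2)).coeff (σ a).1 = 0
        rw [hF _ (by omega), coeff_zero]
      exact hU2 ℓ hℓ
    · refine lt_of_le_of_lt hU1 (lt_of_lt_of_le hJc ?_)
      have himg : (Finset.univ.image σ).filter (fun m => m.2 ≤ J) =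
          (Finset.univ.filter (fun a => (σ a).2 ≤ J)).image σ := by
        ext m
        simp only [Finset.mem_filter, Finset.mem_image, Finset.mem_univ, true_and]
        constructor
        · rintro ⟨⟨a, rfl⟩, h⟩
          exact ⟨a, h, rfl⟩
        · rintro ⟨a, h, rfl⟩
          exact ⟨⟨a, rfl⟩, h⟩
      rw [himg]
      exact Finset.card_image_le

lemma evalEval_gP (θ : Fin 4 → ℂ) (W : Fin 4 → Fin 4 → ℂ) (z y : Fin 4 → ℂ) (κ : Fin 4)
    (δ n : ℂ) : (gP θ W z y κ).evalEval δ n =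
      ∑ j, W κ j * ((n - θ j) * ∏ l ∈ Finset.univ.erase j, (z l + y l * δ) ^ 2) := by
  simp only [evalEval, gP, linP, eval_finsetSum, eval_mul, eval_C, eval_sub, eval_X, eval_prod,
    eval_pow, eval_add]

lemma evalEval_fP (θ : Fin 4 → ℂ) (W : Fin 4 → Fin 4 → ℂ) (z y : Fin 4 → ℂ) (t0 : ℂ)
    (m : ℕ × (Fin 4 → ℕ)) (δ n : ℂ) : (fP θ W z y t0 m).evalEval δ n =
      (t0 + δ) ^ m.1 * ∏ κ, ((gP θ W z y κ).evalEval δ n) ^ m.2 κ := by
  simp only [evalEval, fP, eval_mul, eval_C, eval_pow, eval_add, eval_X, eval_prod]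

/-- **The real determinant bound on alpha-slices** (S5, Theorem 5.2, with the laminar gain). -/
theorem real_det_alpha (N i s : ℕ) (θ : Fin 4 → ℂ) (W : Fin 4 → Fin 4 → ℂ) (C₀ c₀ : ℝ)
    (hc₀ : 0 < c₀) (hC₀ : 1 ≤ C₀) (hθ : ∀ j, ‖θ j‖ ≤ C₀) (hW : ∀ a j, ‖W a j‖ ≤ C₀)
    (w G : ℝ)
    (hG : ∀ E : Finset (ℕ × ℕ), E.card = N → (∀ x ∈ E, x.1 ≤ 6 * s + i ∧ x.2 ≤ s) →
      (∀ J ≤ s, (E.filter (fun x => x.2 ≤ J)).card ≤ RA i s J) →
      G ≤ ∑ x ∈ E, (w * x.1 + x.2)) :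
    ∃ K : ℝ, 0 < K ∧ ∀ (Y H : ℝ), 1 ≤ Y → 0 < H → ∀ (e1 e2 : Fin 4 → ℂ) (E1 E2 : ℝ),
      0 < E1 → 0 < E2 → (∀ j, ‖e1 j‖ ≤ C₀ * E1) → (∀ j, ‖e2 j‖ ≤ C₀ * E2) → (∀ j, e2 j ≠ 0) →
      (∀ j l, j ≠ l → e1 j * e2 l ≠ e1 l * e2 j) → ∀ (t0 : ℝ), |t0| ≤ 1 →
      ∀ (cols : Fin N → ℕ × (Fin 4 → ℕ)), (∀ c, (cols c).1 ≤ i) → (∀ c, ∑ κ, (cols c).2 κ = s) →
      ∀ (u v n κ : Fin N → ℝ) (b β : Fin N → Fin 4 → ℂ),
      (∀ r a, b r a = ∑ j, W a j * β r j) →
      (∀ r j, β r j * (u r * e1 j + v r * e2 j) ^ 2 = κ r * (n r - θ j)) →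
      (∀ r j, c₀ * H ≤ ‖(u r * e1 j + v r * e2 j : ℂ)‖) →
      (∀ r, |v r| * E2 ≤ |u r| * E1) → (∀ r, |u r| * E1 ≤ C₀ * H) →
      (∀ r, |v r * E2 / (u r * E1) - t0| ≤ Y ^ (-w)) →
      (∀ r, Y ≤ |n r|) → (∀ r, |n r| ≤ C₀ * Y) → (∀ r, |κ r| ≤ C₀) →
      ‖Matrix.det (Matrix.of fun r c : Fin N =>
        ((u r : ℂ) ^ (i - (cols c).1) * (v r : ℂ) ^ (cols c).1 * ∏ a, b r a ^ (cols c).2 a))‖ *
        ∏ c, (E1 ^ (i - (cols c).1) * E2 ^ (cols c).1) ≤
      K * (H ^ i * (Y / H ^ 2) ^ s) ^ N * Y ^ (-G) := by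
  classical
  have hC0 : 0 < C₀ := by linarith
  set KA0 : ℝ := KA i s C₀ C₀ (2 * C₀) C₀ with hKA0
  have hKA0n : 0 ≤ KA0 := KA_nonneg i s hC0.le hC0.le
  -- the row constant
  set ρ : ℝ := C₀ ^ i * (C₀ / ((c₀ / (2 * C₀)) ^ 2 * ((c₀ / C₀) ^ 2) ^ 4)) ^ s with hρ
  have hρ0 : 0 < ρ := by positivity
  refine ⟨(ρ * C₀ ^ s) ^ N * ((N.factorial : ℝ) * ((IA i s).card : ℝ) ^ N * KA0 ^ N) + 1,
    by positivity, ?_⟩
  intro Y H hY hH e1 e2 E1 E2 hE1 hE2 he1 he2 he2' hdist t0 ht0 cols hc1 hc2 u v n κ b β hb hβ hα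
    hchart hu ht hn1 hn2 hκ
  have hY0 : 0 < Y := by linarith
  have hE1c : (E1 : ℂ) ≠ 0 := by exact_mod_cast hE1.ne'
  have hE2c : (E2 : ℂ) ≠ 0 := by exact_mod_cast hE2.ne'
  -- the data of the slice
  set y : Fin 4 → ℂ := fun l => e2 l / E2 with hydef
  set z : Fin 4 → ℂ := fun l => e1 l / E1 + t0 * (e2 l / E2) with hzdef
  have hy : ∀ l, y l ≠ 0 := fun l => div_ne_zero (he2' l) hE2c
  have hYb : ∀ l, ‖y l‖ ≤ C₀ := by
    intro l
    rw [hydef]
    simp only [norm_div, Complex.norm_real, Real.norm_eq_abs, abs_of_pos hE2]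
    rw [div_le_iff₀ hE2]
    exact he2 l
  have he1b : ∀ l, ‖e1 l / E1‖ ≤ C₀ := by
    intro l
    simp only [norm_div, Complex.norm_real, Real.norm_eq_abs, abs_of_pos hE1]
    rw [div_le_iff₀ hE1]
    exact he1 l
  have hZb : ∀ l, ‖z l‖ ≤ 2 * C₀ := by
    intro l
    rw [hzdef]
    refine (norm_add_le _ _).trans ?_
    have h1 : ‖(t0 : ℂ) * (e2 l / E2)‖ ≤ C₀ := by
      rw [norm_mul, Complex.norm_real, Real.norm_eq_abs]
      have := hYb l
      calc |t0| * ‖e2 l / E2‖ ≤ 1 * C₀ :=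
            mul_le_mul ht0 this (norm_nonneg _) (by norm_num)
        _ = C₀ := one_mul _
    have := he1b l
    linarith
  have hinj : Function.Injective (fun l => -(z l / y l)) := by
    intro j l hjl
    by_contra hne
    have h1 : z j / y j = z l / y l := neg_injective hjl
    rw [div_eq_div_iff (hy j) (hy l)] at h1
    apply hdist j l hne
    rw [hzdef, hydef] at h1
    simp only at h1
    field_simp at h1
    have h2 : (E2 : ℂ) * (e1 j * e2 l) = E2 * (e1 l * e2 j) := by linear_combination h1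
    exact mul_left_cancel₀ hE2c h2
  -- the row data
  set δ : Fin N → ℂ := fun r => ((v r * E2 / (u r * E1) - t0 : ℝ) : ℂ) with hδdef
  have hun : ∀ r, u r ≠ 0 := by
    intro r h0
    have h1 := hchart r
    rw [h0, abs_zero, zero_mul] at h1
    have h2 : v r = 0 := by
      by_contra hv
      have : 0 < |v r| * E2 := mul_pos (abs_pos.2 hv) hE2
      linarith
    have h3 := hα r 0
    rw [h0, h2] at h3
    simp at h3
    have : 0 < c₀ * H := mul_pos hc₀ hH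
    linarith
  set D : Fin N → Fin 4 → ℂ := fun r l => z l + y l * δ r with hDdef
  have hαD : ∀ r l, (u r * e1 l + v r * e2 l : ℂ) = (u r * E1 : ℂ) * D r l := by
    intro r l
    have huc : (u r : ℂ) ≠ 0 := by exact_mod_cast hun r
    rw [hDdef, hzdef, hydef, hδdef]
    simp only
    push_cast
    field_simp
    ring
  have hDne : ∀ r l, D r l ≠ 0 := by
    intro r l h0
    have h3 := hα r l
    rw [hαD r l, h0, mul_zero, norm_zero] at h3
    have : 0 < c₀ * H := mul_pos hc₀ hH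
    linarith
  have huE : ∀ r, ‖(u r * E1 : ℂ)‖ = |u r| * E1 := by
    intro r
    rw [norm_mul, Complex.norm_real, Complex.norm_real, Real.norm_eq_abs, Real.norm_eq_abs,
      abs_of_pos hE1]
  have hupos : ∀ r, 0 < |u r| * E1 := fun r => mul_pos (abs_pos.2 (hun r)) hE1
  have hDlow : ∀ r l, c₀ / C₀ ≤ ‖D r l‖ := by
    intro r l
    have h3 := hα r l
    rw [hαD r l, norm_mul, huE] at h3
    rw [div_le_iff₀ hC0]
    have h4 : c₀ * H ≤ (C₀ * H) * ‖D r l‖ :=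
      h3.trans (mul_le_mul_of_nonneg_right (hu r) (norm_nonneg _))
    have h5 : c₀ * H ≤ (‖D r l‖ * C₀) * H := by linarith
    exact le_of_mul_le_mul_right h5 hH
  have htb : ∀ r, |v r * E2 / (u r * E1)| ≤ 1 := by
    intro r
    rw [abs_div, abs_mul, abs_mul, abs_of_pos hE1, abs_of_pos hE2, div_le_one (hupos r)]
    exact hchart r
  have hDup : ∀ r l, ‖D r l‖ ≤ 2 * C₀ := by
    intro r l
    have h1 : D r l = e1 l / E1 + ((v r * E2 / (u r * E1) : ℝ) : ℂ) * (e2 l / E2) := by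
      rw [hDdef, hzdef, hydef, hδdef]
      push_cast
      ring
    rw [h1]
    refine (norm_add_le _ _).trans ?_
    have h2 : ‖((v r * E2 / (u r * E1) : ℝ) : ℂ) * (e2 l / E2)‖ ≤ C₀ := by
      rw [norm_mul, Complex.norm_real, Real.norm_eq_abs]
      calc |v r * E2 / (u r * E1)| * ‖e2 l / E2‖ ≤ 1 * C₀ :=
            mul_le_mul (htb r) (hYb l) (norm_nonneg _) (by norm_num)
        _ = C₀ := one_mul _
    have := he1b l
    linarith
  have hulow : ∀ r, c₀ / (2 * C₀) * H ≤ |u r| * E1 := by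
    intro r
    have h3 := hα r 0
    rw [hαD r 0, norm_mul, huE] at h3
    have h4 : c₀ * H ≤ (|u r| * E1) * (2 * C₀) :=
      h3.trans (mul_le_mul_of_nonneg_left (hDup r 0) (hupos r).le)
    rw [div_mul_eq_mul_div, div_le_iff₀ (by positivity)]
    exact h4
  -- `b` in terms of `gP`
  have hprodD : ∀ r, ∏ l, D r l ≠ 0 := fun r => Finset.prod_ne_zero_iff.2 (fun l _ => hDne r l)
  have hbg : ∀ r a, b r a = κ r / ((u r * E1) ^ 2 * ∏ l, D r l ^ 2) *
      (gP θ W z y a).evalEval (δ r) (n r) := by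
    intro r a
    have huc : (u r * E1 : ℂ) ≠ 0 := by
      rw [← norm_pos_iff, huE]
      exact hupos r
    rw [hb r a, evalEval_gP, Finset.mul_sum]
    refine Finset.sum_congr rfl (fun j _ => ?_)
    have h1 : β r j = κ r * (n r - θ j) / (u r * e1 j + v r * e2 j) ^ 2 := by
      rw [eq_div_iff]
      · exact hβ r j
      · apply pow_ne_zero
        rw [hαD r j]
        exact mul_ne_zero huc (hDne r j)
    have h2 : ∏ l, D r l ^ 2 = D r j ^ 2 * ∏ l ∈ Finset.univ.erase j, (z l + y l * δ r) ^ 2 := by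
      rw [← Finset.mul_prod_erase _ _ (Finset.mem_univ j)]
    have h3 : ∏ l ∈ Finset.univ.erase j, (z l + y l * δ r) ^ 2 ≠ 0 :=
      Finset.prod_ne_zero_iff.2 (fun l _ => pow_ne_zero _ (hDne r l))
    rw [h1, h2, hαD r j]
    have h4 := hDne r j
    generalize (∏ l ∈ Finset.univ.erase j, (z l + y l * δ r) ^ 2) = P at h3 ⊢
    generalize (u r * E1 : ℂ) = U at huc ⊢
    field_simp
  -- factorisation of the matrix
  set R : Fin N → ℂ := fun r => (u r * E1 : ℂ) ^ i * (κ r / ((u r * E1) ^ 2 * ∏ l, D r l ^ 2)) ^ s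
    with hR
  have hentry : ∀ r c, ((u r : ℂ) ^ (i - (cols c).1) * (v r : ℂ) ^ (cols c).1 *
      ∏ a, b r a ^ (cols c).2 a) * ((E1 : ℂ) ^ (i - (cols c).1) * (E2 : ℂ) ^ (cols c).1) =
      R r * (fP θ W z y t0 (cols c)).evalEval (δ r) (n r) := by
    intro r c
    have huc : (u r : ℂ) ≠ 0 := by exact_mod_cast hun r
    have h1 : ∏ a, b r a ^ (cols c).2 a = (κ r / ((u r * E1) ^ 2 * ∏ l, D r l ^ 2)) ^ s *
        ∏ a, ((gP θ W z y a).evalEval (δ r) (n r)) ^ (cols c).2 a := by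
      rw [← hc2 c, ← Finset.prod_pow_eq_pow_sum, ← Finset.prod_mul_distrib]
      refine Finset.prod_congr rfl (fun a _ => ?_)
      rw [hbg r a, mul_pow]
    have h2 : (u r : ℂ) ^ (i - (cols c).1) * (v r : ℂ) ^ (cols c).1 *
        ((E1 : ℂ) ^ (i - (cols c).1) * (E2 : ℂ) ^ (cols c).1) =
        (u r * E1 : ℂ) ^ i * (t0 + δ r) ^ (cols c).1 := by
      have h3 : (t0 : ℂ) + δ r = v r * E2 / (u r * E1) := by
        rw [hδdef]
        push_cast
        ring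
      have h4 : (u r * E1 : ℂ) ^ i = (u r * E1 : ℂ) ^ (i - (cols c).1) *
          (u r * E1 : ℂ) ^ (cols c).1 := by
        rw [← pow_add]
        congr 1
        have := hc1 c
        omega
      rw [h3, h4, mul_assoc ((u r * E1 : ℂ) ^ (i - (cols c).1)), ← mul_pow (u r * E1 : ℂ) _ (cols c).1,
        mul_div_cancel₀ _ (mul_ne_zero huc hE1c), mul_pow, mul_pow]
      ring
    rw [evalEval_fP, h1, hR]
    calc _ = ((u r : ℂ) ^ (i - (cols c).1) * (v r : ℂ) ^ (cols c).1 *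
        ((E1 : ℂ) ^ (i - (cols c).1) * (E2 : ℂ) ^ (cols c).1)) *
        ((κ r / ((u r * E1) ^ 2 * ∏ l, D r l ^ 2)) ^ s *
        ∏ a, ((gP θ W z y a).evalEval (δ r) (n r)) ^ (cols c).2 a) := by ring
      _ = _ := by
        rw [h2]
        ring
  have hdet : Matrix.det (Matrix.of fun r c : Fin N =>
        ((u r : ℂ) ^ (i - (cols c).1) * (v r : ℂ) ^ (cols c).1 * ∏ a, b r a ^ (cols c).2 a)) *
        ∏ c, ((E1 : ℂ) ^ (i - (cols c).1) * (E2 : ℂ) ^ (cols c).1) =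
      (∏ r, R r) * Matrix.det (Matrix.of fun r c : Fin N =>
        (fP θ W z y t0 (cols c)).evalEval (δ r) (n r)) := by
    rw [mul_comm, ← Matrix.det_mul_row, ← Matrix.det_mul_column]
    congr 1
    ext r c
    simp only [Matrix.of_apply]
    rw [mul_comm]
    exact hentry r c
  have hRb : ∀ r, ‖R r‖ ≤ ρ * (H ^ i * (1 / H ^ 2) ^ s) := by
    intro r
    rw [hR]
    simp only
    rw [norm_mul, norm_pow, huE, norm_pow, norm_div, norm_mul, norm_pow, huE, norm_prod,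
      Complex.norm_real, Real.norm_eq_abs]
    have h1 : (|u r| * E1) ^ i ≤ (C₀ * H) ^ i := pow_le_pow_left₀ (hupos r).le (hu r) _
    have h2 : ((c₀ / C₀) ^ 2) ^ 4 ≤ ∏ l, ‖D r l ^ 2‖ := by
      have : ∏ _l : Fin 4, (c₀ / C₀) ^ 2 ≤ ∏ l, ‖D r l ^ 2‖ := by
        refine Finset.prod_le_prod (fun _ _ => by positivity) (fun l _ => ?_)
        rw [norm_pow]
        exact pow_le_pow_left₀ (by positivity) (hDlow r l) _
      simpa using this
    have h3 : (c₀ / (2 * C₀) * H) ^ 2 * ((c₀ / C₀) ^ 2) ^ 4 ≤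
        (|u r| * E1) ^ 2 * ∏ l, ‖D r l ^ 2‖ :=
      mul_le_mul (pow_le_pow_left₀ (by positivity) (hulow r) _) h2 (by positivity) (by positivity)
    have h4 : |κ r| / ((|u r| * E1) ^ 2 * ∏ l, ‖D r l ^ 2‖) ≤
        C₀ / ((c₀ / (2 * C₀) * H) ^ 2 * ((c₀ / C₀) ^ 2) ^ 4) :=
      div_le_div₀ hC0.le (hκ r) (by positivity) h3
    have h5 : C₀ / ((c₀ / (2 * C₀) * H) ^ 2 * ((c₀ / C₀) ^ 2) ^ 4) =
        C₀ / ((c₀ / (2 * C₀)) ^ 2 * ((c₀ / C₀) ^ 2) ^ 4) * (1 / H ^ 2) := by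
      rw [mul_pow]
      field_simp
    calc (|u r| * E1) ^ i * (|κ r| / ((|u r| * E1) ^ 2 * ∏ l, ‖D r l ^ 2‖)) ^ s ≤
        (C₀ * H) ^ i * (C₀ / ((c₀ / (2 * C₀)) ^ 2 * ((c₀ / C₀) ^ 2) ^ 4) * (1 / H ^ 2)) ^ s := by
          refine mul_le_mul h1 ?_ (by positivity) (by positivity)
          rw [← h5]
          exact pow_le_pow_left₀ (by positivity) h4 _
      _ = ρ * (H ^ i * (1 / H ^ 2) ^ s) := by
          rw [hρ, mul_pow, mul_pow]
          ring
  -- the polynomial determinant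
  have hnne : ∀ r, (n r : ℂ) ≠ 0 := by
    intro r
    have h1 := hn1 r
    have : n r ≠ 0 := by
      intro h0
      rw [h0, abs_zero] at h1
      linarith
    exact_mod_cast this
  have hWt : ∀ T ⊆ IA i s, T.card = N → admA i s T →
      ∏ m ∈ T, (Y ^ (-w)) ^ m.1 * (Y ^ (-1 : ℝ)) ^ m.2 ≤ Y ^ (-G) := by
    intro T hT hTc hTa
    have h1 := hG T hTc (fun x hx => by
      have := hT hx
      rw [IA, Finset.mem_product, Finset.mem_range, Finset.mem_range] at this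
      omega) hTa
    have h2 : ∏ m ∈ T, (Y ^ (-w)) ^ m.1 * (Y ^ (-1 : ℝ)) ^ m.2 =
        Y ^ (-(∑ x ∈ T, (w * x.1 + x.2))) := by
      have h3 : ∀ m ∈ T, (Y ^ (-w)) ^ m.1 * (Y ^ (-1 : ℝ)) ^ m.2 =
          Y ^ (-(w * m.1 + m.2)) := by
        intro m _
        rw [← Real.rpow_natCast, ← Real.rpow_natCast, ← Real.rpow_mul hY0.le,
          ← Real.rpow_mul hY0.le, ← Real.rpow_add hY0]
        congr 1
        ring
      rw [Finset.prod_congr rfl h3, ← Real.rpow_sum_of_pos hY0, Finset.sum_neg_distrib]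
    rw [h2]
    exact Real.rpow_le_rpow_of_exponent_le hY (by linarith)
  have hpd := poly_det_le i s θ W z y hy hinj t0 cols hc1 hc2 KA0 hKA0n
    (fun c n' p => fP_coeff_le θ W z y t0 i s (cols c) (hc1 c) (hc2 c) hW hθ hZb hYb
      (by rw [Complex.norm_real, Real.norm_eq_abs]; exact ht0) n' p)
    δ (fun r => (n r : ℂ)) (fun r => (n r : ℂ)⁻¹) (fun r => inv_mul_cancel₀ (hnne r))
    (Y ^ (-w)) (Y ^ (-1 : ℝ))
    (fun r => by
      rw [hδdef]
      simp only [Complex.norm_real, Real.norm_eq_abs]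
      exact ht r)
    (fun r => by
      rw [norm_inv, Complex.norm_real, Real.norm_eq_abs, Real.rpow_neg_one]
      exact inv_anti₀ hY0 (hn1 r))
    (Y ^ (-G)) (by positivity) hWt
  have hnprod : ∏ r : Fin N, ‖(n r : ℂ)‖ ^ s ≤ ((C₀ * Y) ^ s) ^ N := by
    have : ∏ r : Fin N, ‖(n r : ℂ)‖ ^ s ≤ ∏ _r : Fin N, (C₀ * Y) ^ s := by
      refine Finset.prod_le_prod (fun _ _ => by positivity) (fun r _ => ?_)
      rw [Complex.norm_real, Real.norm_eq_abs]
      exact pow_le_pow_left₀ (abs_nonneg _) (hn2 r) _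
    simpa using this
  have hRprod : ∏ r : Fin N, ‖R r‖ ≤ (ρ * (H ^ i * (1 / H ^ 2) ^ s)) ^ N := by
    have : ∏ r : Fin N, ‖R r‖ ≤ ∏ _r : Fin N, (ρ * (H ^ i * (1 / H ^ 2) ^ s)) :=
      Finset.prod_le_prod (fun _ _ => norm_nonneg _) (fun r _ => hRb r)
    simpa using this
  have hnormE : ‖∏ c : Fin N, ((E1 : ℂ) ^ (i - (cols c).1) * (E2 : ℂ) ^ (cols c).1)‖ =
      ∏ c : Fin N, (E1 ^ (i - (cols c).1) * E2 ^ (cols c).1) := by
    rw [norm_prod]
    refine Finset.prod_congr rfl (fun c _ => ?_)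
    rw [norm_mul, norm_pow, norm_pow, Complex.norm_real, Complex.norm_real, Real.norm_eq_abs,
      Real.norm_eq_abs, abs_of_pos hE1, abs_of_pos hE2]
  rw [← hnormE, ← norm_mul, hdet, norm_mul, norm_prod]
  have hYG : 0 ≤ Y ^ (-G) := by positivity
  calc (∏ r, ‖R r‖) * ‖Matrix.det (Matrix.of fun r c : Fin N =>
        (fP θ W z y t0 (cols c)).evalEval (δ r) (n r))‖ ≤
      (ρ * (H ^ i * (1 / H ^ 2) ^ s)) ^ N * (((C₀ * Y) ^ s) ^ N *
        ((N.factorial : ℝ) * ((IA i s).card : ℝ) ^ N * KA0 ^ N * Y ^ (-G))) := by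
        refine mul_le_mul hRprod (hpd.trans ?_) (norm_nonneg _) (by positivity)
        exact mul_le_mul_of_nonneg_right hnprod (by positivity)
    _ = ((ρ * C₀ ^ s) ^ N * ((N.factorial : ℝ) * ((IA i s).card : ℝ) ^ N * KA0 ^ N)) *
        (H ^ i * (Y / H ^ 2) ^ s) ^ N * Y ^ (-G) := by
        have h9 : (Y / H ^ 2) ^ s = (1 / H ^ 2) ^ s * Y ^ s := by
          rw [← mul_pow]
          congr 1
          ring
        rw [h9, mul_pow C₀ Y s]
        ring
    _ ≤ _ := by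
        refine mul_le_mul_of_nonneg_right (mul_le_mul_of_nonneg_right ?_ (by positivity)) hYG
        linarith

end Pool.Agent.Lib.SQF
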