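import Pool.Agent.Lib.SQF.Defs
import Pool.Agent.Lib.SQF.RealA
import Pool.Agent.Lib.SQF4.Basis

/-!
# SQF, GlueA: from solutions on a reduced slice to the real determinant bound

`arcA`: the dyadic arc of scale `k` of a point `(u, v)` of a slice with basis lengths `E1, E2`
(with its chart); `arcA_nest`, `arcA_card`; `kdy Y w`: the scale with `2 ^ k ~ Y ^ w`.
`glueA`: the hypotheses of `real_det_alpha` for solutions (`IsSol`) on a slice with a reduced basis.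
`glueA_pow`: the same as a power of `Y`.
-/

set_option autoImplicit false

open Polynomial Finset

namespace Pool.Agent.Lib.SQF

open Pool.Agent.SQF4 (sn RBasis)

/-! ## arcs -/

/-- the normalised parameter in its chart -/
noncomputable def tparA (E1 E2 : ℝ) (u v : ℤ) : ℝ :=
  if |(v : ℝ)| * E2 ≤ |(u : ℝ)| * E1 then v * E2 / (u * E1) else u * E1 / (v * E2)

/-- the arc of scale `k` -/
noncomputable def arcA (E1 E2 : ℝ) (k : ℕ) (u v : ℤ) : Bool × ℤ :=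
  (decide (|(v : ℝ)| * E2 ≤ |(u : ℝ)| * E1), ⌊(2 : ℝ) ^ k * tparA E1 E2 u v⌋)

lemma abs_tparA_le {E1 E2 : ℝ} (h1 : 0 < E1) (h2 : 0 < E2) (u v : ℤ) :
    |tparA E1 E2 u v| ≤ 1 := by
  unfold tparA
  split_ifs with h
  · rw [abs_div, abs_mul, abs_mul, abs_of_pos h1, abs_of_pos h2]
    exact div_le_one_of_le₀ h (by positivity)
  · rw [abs_div, abs_mul, abs_mul, abs_of_pos h1, abs_of_pos h2]
    exact div_le_one_of_le₀ (not_le.1 h).le (by positivity)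

lemma floor_dyadic_nest {k k' : ℕ} (hk : k' ≤ k) {x y : ℝ}
    (h : ⌊(2 : ℝ) ^ k * x⌋ = ⌊(2 : ℝ) ^ k * y⌋) : ⌊(2 : ℝ) ^ k' * x⌋ = ⌊(2 : ℝ) ^ k' * y⌋ := by
  obtain ⟨r, rfl⟩ := Nat.exists_eq_add_of_le hk
  have h1 : ∀ z : ℝ, (2 : ℝ) ^ k' * z = ((2 : ℝ) ^ (k' + r) * z) / ((2 ^ r : ℕ) : ℝ) := by
    intro z
    rw [pow_add]
    push_cast
    field_simp
  rw [h1 x, h1 y, Int.floor_div_natCast, Int.floor_div_natCast, h]

lemma arcA_nest {E1 E2 : ℝ} {k k' : ℕ} (hk : k' ≤ k) {u v u' v' : ℤ}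
    (h : arcA E1 E2 k u v = arcA E1 E2 k u' v') : arcA E1 E2 k' u v = arcA E1 E2 k' u' v' := by
  unfold arcA at h ⊢
  rw [Prod.mk.injEq] at h ⊢
  exact ⟨h.1, floor_dyadic_nest hk h.2⟩

lemma arcA_card {α : Type*} [DecidableEq α] {E1 E2 : ℝ} (h1 : 0 < E1) (h2 : 0 < E2) (k : ℕ)
    (u v : α → ℤ) (S : Finset α) :
    (S.image fun x => arcA E1 E2 k (u x) (v x)).card ≤ 6 * 2 ^ k := by
  have h : S.image (fun x => arcA E1 E2 k (u x) (v x)) ⊆
      (Finset.univ : Finset Bool) ×ˢ Finset.Icc (-(2 : ℤ) ^ k) (2 ^ k) := by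
    intro y hy
    obtain ⟨x, -, rfl⟩ := Finset.mem_image.1 hy
    rw [Finset.mem_product, Finset.mem_Icc]
    refine ⟨Finset.mem_univ _, ?_⟩
    have h3 := abs_le.1 (abs_tparA_le h1 h2 (u x) (v x))
    have h4 : (0 : ℝ) < 2 ^ k := by positivity
    unfold arcA
    simp only
    constructor
    · apply Int.le_floor.2
      push_cast
      nlinarith [h3.1]
    · have h5 : ⌊(2 : ℝ) ^ k * tparA E1 E2 (u x) (v x)⌋ ≤ ⌊((2 ^ k : ℤ) : ℝ)⌋ := by
        apply Int.floor_le_floor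
        push_cast
        nlinarith [h3.2]
      rwa [Int.floor_intCast] at h5
  refine (Finset.card_le_card h).trans ?_
  rw [Finset.card_product, Finset.card_univ, Fintype.card_bool, Int.card_Icc]
  have h5 : ((2 : ℤ) ^ k + 1 - -2 ^ k).toNat = 2 * 2 ^ k + 1 := by
    have : ((2 : ℤ) ^ k + 1 - -2 ^ k) = ((2 * 2 ^ k + 1 : ℕ) : ℤ) := by push_cast; ring
    rw [this, Int.toNat_natCast]
  rw [h5]
  have : 1 ≤ 2 ^ k := Nat.one_le_two_pow
  omega

/-- the dyadic scale `2 ^ k ~ Y ^ w` -/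
noncomputable def kdy (Y w : ℝ) : ℕ := ⌈w * Real.logb 2 Y⌉₊

lemma kdy_mono {Y w w' : ℝ} (hY : 1 ≤ Y) (h : w' ≤ w) : kdy Y w' ≤ kdy Y w :=
  Nat.ceil_le_ceil (mul_le_mul_of_nonneg_right h (Real.logb_nonneg (by norm_num) hY))

lemma rpow_eq_two_rpow {Y : ℝ} (hY : 0 < Y) (w : ℝ) :
    Y ^ w = (2 : ℝ) ^ (w * Real.logb 2 Y) := by
  rw [mul_comm, Real.rpow_mul (by norm_num), Real.rpow_logb (by norm_num) (by norm_num) hY]

lemma le_two_pow_kdy {Y : ℝ} (hY : 1 ≤ Y) (w : ℝ) : Y ^ w ≤ 2 ^ kdy Y w := by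
  rw [rpow_eq_two_rpow (by linarith) w, ← Real.rpow_natCast]
  exact Real.rpow_le_rpow_of_exponent_le (by norm_num) (Nat.le_ceil _)

lemma two_pow_kdy_le {Y : ℝ} (hY : 1 ≤ Y) {w : ℝ} (hw : 0 ≤ w) :
    (2 : ℝ) ^ kdy Y w ≤ 2 * Y ^ w := by
  have h0 : 0 ≤ w * Real.logb 2 Y := mul_nonneg hw (Real.logb_nonneg (by norm_num) hY)
  have h1 : ((kdy Y w : ℕ) : ℝ) ≤ 1 + w * Real.logb 2 Y := by
    have := Nat.ceil_lt_add_one h0
    unfold kdy
    linarith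
  calc (2 : ℝ) ^ kdy Y w = (2 : ℝ) ^ ((kdy Y w : ℕ) : ℝ) := (Real.rpow_natCast _ _).symm
    _ ≤ (2 : ℝ) ^ (1 + w * Real.logb 2 Y) :=
        Real.rpow_le_rpow_of_exponent_le (by norm_num) h1
    _ = 2 * Y ^ w := by
        rw [Real.rpow_add (by norm_num), Real.rpow_one, rpow_eq_two_rpow (by linarith) w]

/-- points of one arc lie in an interval of length `Y ^ (-w)` around one of them -/
lemma exists_centre {N : ℕ} {E1 E2 Y w : ℝ} (h1 : 0 < E1) (h2 : 0 < E2) (hY : 1 ≤ Y) {k : ℕ}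
    (hk : Y ^ w ≤ 2 ^ k) (u v : Fin N → ℤ)
    (h : ∀ r r', arcA E1 E2 k (u r) (v r) = arcA E1 E2 k (u r') (v r')) :
    ∃ t0 : ℝ, |t0| ≤ 1 ∧ ∀ r, |tparA E1 E2 (u r) (v r) - t0| ≤ Y ^ (-w) := by
  rcases isEmpty_or_nonempty (Fin N) with hN | ⟨⟨r0⟩⟩
  · exact ⟨0, by simp, fun r => (hN.false r).elim⟩
  · refine ⟨tparA E1 E2 (u r0) (v r0), abs_tparA_le h1 h2 _ _, fun r => ?_⟩
    have h3 := h r r0
    unfold arcA at h3
    rw [Prod.mk.injEq] at h3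
    have h4 := Int.abs_sub_lt_one_of_floor_eq_floor h3.2
    rw [← mul_sub, abs_mul, abs_of_pos (by positivity : (0 : ℝ) < 2 ^ k)] at h4
    have hYw : 0 < Y ^ w := Real.rpow_pos_of_pos (by linarith) _
    rw [Real.rpow_neg (by linarith)]
    rw [← one_div, le_div_iff₀ hYw, mul_comm]
    exact (mul_le_mul_of_nonneg_right hk (abs_nonneg _)).trans h4.le

/-! ## values at the roots -/

private lemma natDegree_pol_lt {d : ℕ} (hd : 0 < d) (a : Fin d → ℤ) : (pol a).natDegree < d := by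
  unfold pol
  refine lt_of_le_of_lt (natDegree_sum_le_of_forall_le (n := d - 1) _ _ fun i _ => ?_) (by omega)
  exact (natDegree_C_mul_X_pow_le _ _).trans (by omega)

private lemma coeff_pol {d : ℕ} (a : Fin d → ℤ) (i : Fin d) : (pol a).coeff (i : ℕ) = a i := by
  unfold pol
  rw [finsetSum_coeff, Finset.sum_eq_single i]
  · simp
  · intro j _ hj
    rw [coeff_C_mul, coeff_X_pow, if_neg (fun h => hj (Fin.ext h.symm)), mul_zero]
  · intro h
    exact absurd (Finset.mem_univ i) h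

private lemma pol_ne_zero {d : ℕ} {a : Fin d → ℤ} (ha : a ≠ 0) : pol a ≠ 0 := by
  intro h
  apply ha
  funext i
  rw [← coeff_pol a i, h]
  simp

/-- an integral vector does not vanish at a root of an irreducible polynomial of degree 4 -/
private lemma ev_ne_zero_of_ne {g : ℤ[X]} (hg : g.Monic) (hirr : Irreducible g) (hdeg : g.natDegree = 4)
    {z : ℂ} (hz : aeval z g = 0) {a : Fin 4 → ℤ} (ha : a ≠ 0) : ev a z ≠ 0 := by
  intro h
  have hint : IsIntegral ℤ z := ⟨g, hg, by rwa [aeval_def] at hz⟩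
  have h1 : minpoly ℤ z ∣ g := minpoly.isIntegrallyClosed_dvd hint hz
  have h2 : minpoly ℤ z ∣ pol a :=
    minpoly.isIntegrallyClosed_dvd hint (by rw [aeval_pol]; exact h)
  have h3 : ¬ IsUnit (minpoly ℤ z) := minpoly.not_isUnit ℤ z
  have h4 : g ∣ minpoly ℤ z := by
    obtain ⟨q, hq⟩ := h1
    rcases hirr.isUnit_or_isUnit hq with h5 | h5
    · exact absurd h5 h3
    · rw [hq]
      exact (h5.mul_right_dvd).2 dvd_rfl
  have h5 := natDegree_le_of_dvd (h4.trans h2) (pol_ne_zero ha)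
  have h6 := natDegree_pol_lt (by norm_num) a
  omega

/-- the size of a value -/
private lemma norm_ev_le (a : Fin 4 → ℤ) {z : ℂ} {Θ : ℝ} (hΘ : ‖z‖ ≤ Θ) :
    ‖ev a z‖ ≤ 4 * (1 + Θ) ^ 3 * sn a := by
  have hΘ0 : 0 ≤ Θ := (norm_nonneg _).trans hΘ
  unfold ev
  refine (norm_sum_le _ _).trans ?_
  have h1 : ∀ i ∈ (Finset.univ : Finset (Fin 4)), ‖((a i : ℤ) : ℂ) * z ^ (i : ℕ)‖ ≤
      (1 + Θ) ^ 3 * sn a := by
    intro i _
    rw [norm_mul, norm_pow, Complex.norm_intCast]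
    have h2 : |((a i : ℤ) : ℝ)| ≤ sn a := by
      have h3 := Pool.Agent.SQF4.le_sn a i
      have h4 : |((a i : ℤ) : ℝ)| = ((a i).natAbs : ℝ) := by
        rw [Nat.cast_natAbs, Int.cast_abs]
      rw [h4]
      exact_mod_cast h3
    have h3 : ‖z‖ ^ (i : ℕ) ≤ (1 + Θ) ^ 3 := by
      calc ‖z‖ ^ (i : ℕ) ≤ (1 + Θ) ^ (i : ℕ) := pow_le_pow_left₀ (norm_nonneg _) (by linarith) _
        _ ≤ (1 + Θ) ^ 3 := pow_le_pow_right₀ (by linarith) (by omega)
    calc |((a i : ℤ) : ℝ)| * ‖z‖ ^ (i : ℕ) ≤ sn a * (1 + Θ) ^ 3 :=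
          mul_le_mul h2 h3 (by positivity) (by positivity)
      _ = (1 + Θ) ^ 3 * sn a := mul_comm _ _
  refine (Finset.sum_le_sum h1).trans ?_
  rw [Finset.sum_const, Finset.card_univ, Fintype.card_fin, nsmul_eq_mul]
  push_cast
  linarith

/-- the inverse Vandermonde matrix recovers the coordinates -/
private lemma vinv_ev {θ : Fin 4 → ℂ} (hθ : Function.Injective θ) (b : Fin 4 → ℤ) (a : Fin 4) :
    ((b a : ℤ) : ℂ) = ∑ j, (Matrix.vandermonde θ)⁻¹ a j * ev b (θ j) := by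
  have hdet : IsUnit (Matrix.vandermonde θ).det :=
    (Matrix.det_vandermonde_ne_zero_iff.2 hθ).isUnit
  have h1 : (fun j => ev b (θ j)) = (Matrix.vandermonde θ).mulVec (fun i => ((b i : ℤ) : ℂ)) := by
    funext j
    simp only [ev, Matrix.mulVec, dotProduct, Matrix.vandermonde_apply]
    exact Finset.sum_congr rfl fun i _ => mul_comm _ _
  have h2 : (Matrix.vandermonde θ)⁻¹.mulVec (fun j => ev b (θ j)) =
      fun i => ((b i : ℤ) : ℂ) := by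
    rw [h1, Matrix.mulVec_mulVec, Matrix.nonsing_inv_mul _ hdet, Matrix.one_mulVec]
  have h3 := congrFun h2 a
  rw [← h3]
  rfl

/-! ## the bridge -/

/-- the constant of the bridge -/
noncomputable def CG (θ : Fin 4 → ℂ) (K : ℝ) : ℝ :=
  2 + ∑ j, ‖θ j‖ + ∑ a, ∑ j, ‖(Matrix.vandermonde θ)⁻¹ a j‖ + 4 * (1 + ∑ j, ‖θ j‖) ^ 3 +
    3 * K + K ^ 2

/-- **Solutions on a reduced slice satisfy the real determinant bound.** -/
theorem glueA (g : ℤ[X]) (hg : g.Monic) (hirr : Irreducible g) (hdeg : g.natDegree = 4)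
    (θ : Fin 4 → ℂ) (hθ : Function.Injective θ) (hroot : ∀ j, aeval (θ j) g = 0)
    (K : ℝ) (hK : 1 ≤ K) (N i s : ℕ) (w G : ℝ)
    (hG : ∀ E : Finset (ℕ × ℕ), E.card = N → (∀ x ∈ E, x.1 ≤ 6 * s + i ∧ x.2 ≤ s) →
      (∀ J ≤ s, (E.filter (fun x => x.2 ≤ J)).card ≤ RA i s J) →
      G ≤ ∑ x ∈ E, (w * x.1 + x.2)) :
    ∃ C : ℝ, 1 ≤ C ∧ ∀ Y P : ℝ, 1 ≤ Y → 0 < P → ∀ a b e1 e2 : Fin 4 → ℤ, RBasis a b e1 e2 →
      (∀ j l, j ≠ l → ev e1 (θ j) * ev e2 (θ l) ≠ ev e1 (θ l) * ev e2 (θ j)) →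
      ∀ cols : Fin N → ℕ × (Fin 4 → ℕ), (∀ c, (cols c).1 ≤ i) → (∀ c, ∑ k, (cols c).2 k = s) →
      ∀ (n : Fin N → ℤ) (p : Fin N → ℕ) (α β : Fin N → Fin 4 → ℤ) (m u v : Fin N → ℤ),
      (∀ r, IsSol 4 g K Y P (n r) (p r) (α r) (β r) (m r)) →
      (∀ r, OnSlice e1 e2 (α r) (u r) (v r)) →
      ∀ k : ℕ, Y ^ w ≤ 2 ^ k →
      (∀ r r', arcA (sn e1) (sn e2) k (u r) (v r) = arcA (sn e1) (sn e2) k (u r') (v r')) →
      |((Matrix.det (Matrix.of fun r c : Fin N =>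
        (u r) ^ (i - (cols c).1) * (v r) ^ (cols c).1 * ∏ a, (β r a) ^ (cols c).2 a) : ℤ) : ℝ)| *
        ∏ c, ((sn e1 : ℝ) ^ (i - (cols c).1) * (sn e2 : ℝ) ^ (cols c).1) ≤
      C * ((P ^ ((1 : ℝ) / 4)) ^ i * (Y / (P ^ ((1 : ℝ) / 4)) ^ 2) ^ s) ^ N * Y ^ (-G) := by
  classical
  set W : Fin 4 → Fin 4 → ℂ := fun a j => (Matrix.vandermonde θ)⁻¹ a j with hW
  set C₀ : ℝ := CG θ K with hC₀
  have hΘ0 : 0 ≤ ∑ j, ‖θ j‖ := Finset.sum_nonneg fun j _ => norm_nonneg _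
  have hW0 : 0 ≤ ∑ a, ∑ j, ‖(Matrix.vandermonde θ)⁻¹ a j‖ :=
    Finset.sum_nonneg fun a _ => Finset.sum_nonneg fun j _ => norm_nonneg _
  have h43 : 0 ≤ 4 * (1 + ∑ j, ‖θ j‖) ^ 3 := by positivity
  have hK2 : 0 ≤ K ^ 2 := sq_nonneg K
  have hθj : ∀ j, ‖θ j‖ ≤ ∑ j, ‖θ j‖ := fun j =>
    Finset.single_le_sum (f := fun j => ‖θ j‖) (fun j _ => norm_nonneg _) (Finset.mem_univ j)
  have hθb : ∀ j, ‖θ j‖ ≤ C₀ := by
    intro j
    have := hθj j
    rw [hC₀, CG]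
    linarith
  have hWb : ∀ a j, ‖W a j‖ ≤ C₀ := by
    intro a j
    have h1 : ‖(Matrix.vandermonde θ)⁻¹ a j‖ ≤ ∑ j, ‖(Matrix.vandermonde θ)⁻¹ a j‖ :=
      Finset.single_le_sum (f := fun j => ‖(Matrix.vandermonde θ)⁻¹ a j‖)
        (fun j _ => norm_nonneg _) (Finset.mem_univ j)
    have h2 : ∑ j, ‖(Matrix.vandermonde θ)⁻¹ a j‖ ≤ ∑ a, ∑ j, ‖(Matrix.vandermonde θ)⁻¹ a j‖ :=
      Finset.single_le_sum (f := fun a => ∑ j, ‖(Matrix.vandermonde θ)⁻¹ a j‖)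
        (fun a _ => Finset.sum_nonneg fun j _ => norm_nonneg _) (Finset.mem_univ a)
    rw [hC₀, CG, hW]
    simp only
    linarith
  have hC1 : 1 ≤ C₀ := by rw [hC₀, CG]; linarith
  have h2C : 2 ≤ C₀ := by rw [hC₀, CG]; linarith
  have h4C : 4 * (1 + ∑ j, ‖θ j‖) ^ 3 ≤ C₀ := by rw [hC₀, CG]; linarith
  have h3K : 3 * K ≤ C₀ := by rw [hC₀, CG]; linarith
  have hKK : K ^ 2 ≤ C₀ := by rw [hC₀, CG]; linarith
  have hK0 : 0 < K := by linarith
  obtain ⟨KK, hKK0, hmain⟩ := real_det_alpha N i s θ W C₀ (1 / K) (by positivity) hC1 hθb hWb w G hG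
  refine ⟨KK + 1, by linarith, ?_⟩
  intro Y P hY hP a b e1 e2 hrb hns cols hc1 hc2 n p α β m u v hsol hsl k hk harc
  set H : ℝ := P ^ ((1 : ℝ) / 4) with hH
  have hH0 : 0 < H := Real.rpow_pos_of_pos hP _
  have hHd : P ^ ((1 : ℝ) / ((4 : ℕ) : ℝ)) = H := by rw [hH]; norm_num
  have hs1 : 0 < (sn e1 : ℝ) := by exact_mod_cast Pool.Agent.SQF4.sn_pos e1 hrb.ne1
  have hs2 : 0 < (sn e2 : ℝ) := by exact_mod_cast Pool.Agent.SQF4.sn_pos e2 hrb.ne2
  obtain ⟨t0, ht0, ht⟩ := exists_centre hs1 hs2 hY hk u v harc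
  -- sizes
  have hb1 : ∀ j, ‖ev e1 (θ j)‖ ≤ C₀ * sn e1 := fun j =>
    (norm_ev_le e1 (hθj j)).trans (mul_le_mul_of_nonneg_right h4C hs1.le)
  have hb2 : ∀ j, ‖ev e2 (θ j)‖ ≤ C₀ * sn e2 := fun j =>
    (norm_ev_le e2 (hθj j)).trans (mul_le_mul_of_nonneg_right h4C hs2.le)
  have hn1 : ∀ j, ev e1 (θ j) ≠ 0 := fun j => ev_ne_zero_of_ne hg hirr hdeg (hroot j) hrb.ne1
  have hn2 : ∀ j, ev e2 (θ j) ≠ 0 := fun j => ev_ne_zero_of_ne hg hirr hdeg (hroot j) hrb.ne2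
  have hsnα : ∀ r, (sn (α r) : ℝ) ≤ K * H := by
    intro r
    obtain ⟨l, hl⟩ := Pool.Agent.SQF4.exists_eq_sn (α r)
    have h1 := (hsol r).coeffα l
    rw [hHd] at h1
    rw [← hl, Nat.cast_natAbs, Int.cast_abs]
    exact h1
  have hαs : ∀ r, α r = u r • e1 + v r • e2 := by
    intro r
    funext l
    rw [hsl r l]
    simp
  have hu : ∀ r, |(u r : ℝ)| * sn e1 ≤ C₀ * H := by
    intro r
    have h1 := hrb.size1 (u r) (v r)
    rw [← hαs r] at h1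
    have h2 : (((u r).natAbs * sn e1 : ℕ) : ℝ) ≤ ((3 * sn (α r) : ℕ) : ℝ) := by exact_mod_cast h1
    push_cast at h2
    rw [Nat.cast_natAbs, Int.cast_abs] at h2
    nlinarith [hsnα r]
  have hv : ∀ r, |(v r : ℝ)| * sn e2 ≤ C₀ * H := by
    intro r
    have h1 := hrb.size2 (u r) (v r)
    rw [← hαs r] at h1
    have h2 : (((v r).natAbs * sn e2 : ℕ) : ℝ) ≤ ((3 * sn (α r) : ℕ) : ℝ) := by exact_mod_cast h1
    push_cast at h2
    rw [Nat.cast_natAbs, Int.cast_abs] at h2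
    nlinarith [hsnα r]
  have hevα : ∀ r j, ev (α r) (θ j) = (u r : ℂ) * ev e1 (θ j) + (v r : ℂ) * ev e2 (θ j) :=
    fun r j => ev_slice (hsl r) (θ j)
  have hlow : ∀ r j, 1 / K * H ≤ ‖ev (α r) (θ j)‖ := by
    intro r j
    have h1 := (hsol r).lowα (θ j) (hroot j)
    rw [hHd] at h1
    rw [one_div, inv_mul_le_iff₀ hK0]
    exact h1
  have heq : ∀ r j, ev (β r) (θ j) * ev (α r) (θ j) ^ 2 = (m r : ℂ) ^ 2 * ((n r : ℂ) - θ j) := by
    intro r j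
    rw [mul_comm]
    exact (hsol r).eq_at (hroot j)
  have hnl : ∀ r, Y ≤ |(n r : ℝ)| := fun r => (hsol r).lower
  have hnu : ∀ r, |(n r : ℝ)| ≤ C₀ * Y := by
    intro r
    have := (hsol r).upper
    nlinarith
  have hm2 : ∀ r, |((m r : ℝ)) ^ 2| ≤ C₀ := by
    intro r
    rw [abs_pow]
    exact (pow_le_pow_left₀ (abs_nonneg _) (hsol r).m_le 2).trans hKK
  have hcast : ∀ M : Matrix (Fin N) (Fin N) ℤ,
      |((M.det : ℤ) : ℝ)| = ‖(M.map (fun x : ℤ => (x : ℂ))).det‖ := by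
    intro M
    have h1 : (M.map (fun x : ℤ => (x : ℂ))).det = ((M.det : ℤ) : ℂ) := by
      have := (Int.castRingHom ℂ).map_det M
      rw [eq_comm]
      exact this
    rw [h1, Complex.norm_intCast]
  rw [hcast]
  have hfin : ∀ X : ℝ, X ≤ KK * (H ^ i * (Y / H ^ 2) ^ s) ^ N * Y ^ (-G) →
      X ≤ (KK + 1) * (H ^ i * (Y / H ^ 2) ^ s) ^ N * Y ^ (-G) := by
    intro X hX
    refine hX.trans ?_
    have h1 : 0 ≤ (H ^ i * (Y / H ^ 2) ^ s) ^ N := by positivity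
    have h2 : 0 ≤ Y ^ (-G) := Real.rpow_nonneg (by linarith) _
    have h3 := mul_nonneg h1 h2
    nlinarith
  apply hfin
  rcases isEmpty_or_nonempty (Fin N) with hNe | ⟨⟨r0⟩⟩
  · have h1 := hmain Y H hY hH0 (fun j => ev e1 (θ j)) (fun j => ev e2 (θ j)) (sn e1) (sn e2)
      hs1 hs2 hb1 hb2 hn2 hns 0 (by simp) cols hc1 hc2 (fun r => (hNe.false r).elim)
      (fun r => (hNe.false r).elim) (fun r => (hNe.false r).elim) (fun r => (hNe.false r).elim)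
      (fun r => (hNe.false r).elim) (fun r => (hNe.false r).elim) (fun r => (hNe.false r).elim)
      (fun r => (hNe.false r).elim) (fun r => (hNe.false r).elim) (fun r => (hNe.false r).elim)
      (fun r => (hNe.false r).elim) (fun r => (hNe.false r).elim) (fun r => (hNe.false r).elim)
      (fun r => (hNe.false r).elim) (fun r => (hNe.false r).elim)
    refine le_trans (le_of_eq ?_) h1
    congr 2
    refine congrArg Matrix.det ?_
    ext r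
    exact (hNe.false r).elim
  by_cases hch : |(v r0 : ℝ)| * sn e2 ≤ |(u r0 : ℝ)| * sn e1
  · -- chart A
    have hchart : ∀ r, |(v r : ℝ)| * sn e2 ≤ |(u r : ℝ)| * sn e1 := by
      intro r
      have h1 := congrArg Prod.fst (harc r r0)
      simp only [arcA] at h1
      rw [decide_eq_decide] at h1
      exact h1.2 hch
    have htt : ∀ r, |(v r : ℝ) * sn e2 / ((u r : ℝ) * sn e1) - t0| ≤ Y ^ (-w) := by
      intro r
      have h1 := ht r
      unfold tparA at h1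
      rwa [if_pos (hchart r)] at h1
    have h1 := hmain Y H hY hH0 (fun j => ev e1 (θ j)) (fun j => ev e2 (θ j)) (sn e1) (sn e2)
      hs1 hs2 hb1 hb2 hn2 hns t0 ht0 cols hc1 hc2 (fun r => (u r : ℝ)) (fun r => (v r : ℝ))
      (fun r => (n r : ℝ)) (fun r => (m r : ℝ) ^ 2) (fun r a => ((β r a : ℤ) : ℂ))
      (fun r j => ev (β r) (θ j)) (fun r a => vinv_ev hθ (β r) a)
      (fun r j => by
        have h2 := heq r j
        rw [hevα r j] at h2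
        push_cast
        exact h2)
      (fun r j => by
        have h2 := hlow r j
        rw [hevα r j] at h2
        push_cast
        exact h2) hchart hu htt hnl hnu hm2
    refine le_trans (le_of_eq ?_) h1
    congr 2
    refine congrArg Matrix.det ?_
    ext r c
    simp only [Matrix.map_apply, Matrix.of_apply]
    push_cast
    ring
  · -- chart B
    have hchart0 : ∀ r, ¬ |(v r : ℝ)| * sn e2 ≤ |(u r : ℝ)| * sn e1 := by
      intro r h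
      have h1 := congrArg Prod.fst (harc r r0)
      simp only [arcA] at h1
      rw [decide_eq_decide] at h1
      exact hch (h1.1 h)
    have hchart : ∀ r, |(u r : ℝ)| * sn e1 ≤ |(v r : ℝ)| * sn e2 := fun r =>
      (not_le.1 (hchart0 r)).le
    have htt : ∀ r, |(u r : ℝ) * sn e1 / ((v r : ℝ) * sn e2) - t0| ≤ Y ^ (-w) := by
      intro r
      have h1 := ht r
      unfold tparA at h1
      rwa [if_neg (hchart0 r)] at h1
    have h1 := hmain Y H hY hH0 (fun j => ev e2 (θ j)) (fun j => ev e1 (θ j)) (sn e2) (sn e1)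
      hs2 hs1 hb2 hb1 hn1 (fun j l hjl h => hns j l hjl (by rw [mul_comm (ev e1 (θ j)), mul_comm (ev e1 (θ l))]; exact h.symm))
      t0 ht0 (fun c => (i - (cols c).1, (cols c).2)) (fun c => Nat.sub_le _ _) hc2
      (fun r => (v r : ℝ)) (fun r => (u r : ℝ))
      (fun r => (n r : ℝ)) (fun r => (m r : ℝ) ^ 2) (fun r a => ((β r a : ℤ) : ℂ))
      (fun r j => ev (β r) (θ j)) (fun r a => vinv_ev hθ (β r) a)
      (fun r j => by
        have h2 := heq r j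
        rw [hevα r j, add_comm] at h2
        push_cast
        exact h2)
      (fun r j => by
        have h2 := hlow r j
        rw [hevα r j, add_comm] at h2
        push_cast
        exact h2) hchart hv htt hnl hnu hm2
    have hii : ∀ c, i - (i - (cols c).1) = (cols c).1 := fun c => by
      have := hc1 c
      omega
    simp only [hii] at h1
    refine le_trans (le_of_eq ?_) h1
    congr 1
    · congr 1
      refine congrArg Matrix.det ?_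
      ext r c
      simp only [Matrix.map_apply, Matrix.of_apply]
      push_cast
      ring
    · exact Finset.prod_congr rfl fun c _ => mul_comm _ _

/-- **The bridge as a power of `Y`**: on a slice with `|e1| ≥ H Y^(-x) / M` and `P ≥ Y^(1+d0) / L`
the determinant of `N` solutions of one arc of length `Y^(-w)` is at most
`C Y^(N (i x + s (1 - d0) / 2) - G)`. -/
theorem glueA_pow (g : ℤ[X]) (hg : g.Monic) (hirr : Irreducible g) (hdeg : g.natDegree = 4)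
    (θ : Fin 4 → ℂ) (hθ : Function.Injective θ) (hroot : ∀ j, aeval (θ j) g = 0)
    (K : ℝ) (hK : 1 ≤ K) (N i s : ℕ) (w G d0 x L M : ℝ) (hL : 1 ≤ L) (hM : 0 < M)
    (hG : ∀ E : Finset (ℕ × ℕ), E.card = N → (∀ x ∈ E, x.1 ≤ 6 * s + i ∧ x.2 ≤ s) →
      (∀ J ≤ s, (E.filter (fun x => x.2 ≤ J)).card ≤ RA i s J) →
      G ≤ ∑ x ∈ E, (w * x.1 + x.2)) :
    ∃ C : ℝ, 1 ≤ C ∧ ∀ Y P : ℝ, 1 ≤ Y → 0 < P → Y ^ (1 + d0) ≤ L * P →
      ∀ a b e1 e2 : Fin 4 → ℤ, RBasis a b e1 e2 →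
      (∀ j l, j ≠ l → ev e1 (θ j) * ev e2 (θ l) ≠ ev e1 (θ l) * ev e2 (θ j)) →
      P ^ ((1 : ℝ) / 4) * Y ^ (-x) ≤ M * sn e1 →
      ∀ cols : Fin N → ℕ × (Fin 4 → ℕ), (∀ c, (cols c).1 ≤ i) → (∀ c, ∑ k, (cols c).2 k = s) →
      ∀ (n : Fin N → ℤ) (p : Fin N → ℕ) (α β : Fin N → Fin 4 → ℤ) (m u v : Fin N → ℤ),
      (∀ r, IsSol 4 g K Y P (n r) (p r) (α r) (β r) (m r)) →
      (∀ r, OnSlice e1 e2 (α r) (u r) (v r)) →
      ∀ k : ℕ, Y ^ w ≤ 2 ^ k →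
      (∀ r r', arcA (sn e1) (sn e2) k (u r) (v r) = arcA (sn e1) (sn e2) k (u r') (v r')) →
      |((Matrix.det (Matrix.of fun r c : Fin N =>
        (u r) ^ (i - (cols c).1) * (v r) ^ (cols c).1 * ∏ a, (β r a) ^ (cols c).2 a) : ℤ) : ℝ)| ≤
      C * Y ^ (N * (i * x + s * ((1 - d0) / 2)) - G) := by
  obtain ⟨C, hC, hmain⟩ := glueA g hg hirr hdeg θ hθ hroot K hK N i s w G hG
  have hCL : 0 < ((2 * M) ^ i * (L ^ ((1 : ℝ) / 2)) ^ s) ^ N := by
    have : 0 < L ^ ((1 : ℝ) / 2) := Real.rpow_pos_of_pos (by linarith) _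
    positivity
  refine ⟨C * ((2 * M) ^ i * (L ^ ((1 : ℝ) / 2)) ^ s) ^ N + 1, by nlinarith, ?_⟩
  intro Y P hY hP hYP a b e1 e2 hrb hns hE cols hc1 hc2 n p α β m u v hsol hsl k hk harc
  have h1 := hmain Y P hY hP a b e1 e2 hrb hns cols hc1 hc2 n p α β m u v hsol hsl k hk harc
  set D := |((Matrix.det (Matrix.of fun r c : Fin N =>
        (u r) ^ (i - (cols c).1) * (v r) ^ (cols c).1 * ∏ a, (β r a) ^ (cols c).2 a) : ℤ) : ℝ)|
    with hD
  have hD0 : 0 ≤ D := abs_nonneg _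
  have hY0 : 0 < Y := by linarith
  have hL0 : 0 < L := by linarith
  set H : ℝ := P ^ ((1 : ℝ) / 4) with hH
  have hH0 : 0 < H := Real.rpow_pos_of_pos hP _
  have hYx : 0 < Y ^ x := Real.rpow_pos_of_pos hY0 _
  -- the basis lengths
  set T : ℝ := H * Y ^ (-x) / (2 * M) with hT
  have hT0 : 0 < T := by
    have : 0 < Y ^ (-x) := Real.rpow_pos_of_pos hY0 _
    positivity
  have hs1 : 0 < (sn e1 : ℝ) := by exact_mod_cast Pool.Agent.SQF4.sn_pos e1 hrb.ne1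
  have hT1 : 2 * T ≤ sn e1 := by
    rw [hT, mul_div_assoc', div_le_iff₀ (by positivity)]
    linarith
  have hT2 : T ≤ sn e2 := by
    have h2 : ((sn e1 : ℕ) : ℝ) ≤ ((2 * sn e2 : ℕ) : ℝ) := by exact_mod_cast hrb.sn_le
    push_cast at h2
    linarith
  have hprod : (T ^ i) ^ N ≤ ∏ c : Fin N, ((sn e1 : ℝ) ^ (i - (cols c).1) * (sn e2 : ℝ) ^ (cols c).1) := by
    have h2 : ∏ _c : Fin N, T ^ i ≤
        ∏ c : Fin N, ((sn e1 : ℝ) ^ (i - (cols c).1) * (sn e2 : ℝ) ^ (cols c).1) := by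
      refine Finset.prod_le_prod (fun _ _ => by positivity) fun c _ => ?_
      have h3 : T ^ i = T ^ (i - (cols c).1) * T ^ (cols c).1 := by
        rw [← pow_add]
        congr 1
        have := hc1 c
        omega
      rw [h3]
      exact mul_le_mul (pow_le_pow_left₀ hT0.le (by linarith) _)
        (pow_le_pow_left₀ hT0.le hT2 _) (by positivity) (by positivity)
    simpa using h2
  have h2 : D * (T ^ i) ^ N ≤ C * (H ^ i * (Y / H ^ 2) ^ s) ^ N * Y ^ (-G) :=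
    (mul_le_mul_of_nonneg_left hprod hD0).trans h1
  -- `Y / H ^ 2`
  have hYH : Y / H ^ 2 ≤ L ^ ((1 : ℝ) / 2) * Y ^ ((1 - d0) / 2) := by
    have h3 : H ^ 2 = P ^ ((1 : ℝ) / 2) := by
      rw [hH, ← Real.rpow_natCast, ← Real.rpow_mul hP.le]
      norm_num
    have h4 : (Y ^ (1 + d0)) ^ ((1 : ℝ) / 2) ≤ (L * P) ^ ((1 : ℝ) / 2) :=
      Real.rpow_le_rpow (by positivity) hYP (by norm_num)
    rw [Real.mul_rpow hL0.le hP.le, ← Real.rpow_mul hY0.le] at h4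
    rw [h3, div_le_iff₀ (Real.rpow_pos_of_pos hP _)]
    have h5 : Y = Y ^ ((1 - d0) / 2) * Y ^ ((1 + d0) * (1 / 2)) := by
      rw [← Real.rpow_add hY0]
      have : (1 - d0) / 2 + (1 + d0) * (1 / 2) = 1 := by ring
      rw [this, Real.rpow_one]
    have h6 : 0 ≤ Y ^ ((1 - d0) / 2) := Real.rpow_nonneg hY0.le _
    calc Y = Y ^ ((1 - d0) / 2) * Y ^ ((1 + d0) * (1 / 2)) := h5
      _ ≤ Y ^ ((1 - d0) / 2) * (L ^ ((1 : ℝ) / 2) * P ^ ((1 : ℝ) / 2)) :=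
          mul_le_mul_of_nonneg_left h4 h6
      _ = L ^ ((1 : ℝ) / 2) * Y ^ ((1 - d0) / 2) * P ^ ((1 : ℝ) / 2) := by ring
  have hHT : H = T * (2 * M * Y ^ x) := by
    rw [hT, Real.rpow_neg hY0.le]
    field_simp
  have h3 : C * (H ^ i * (Y / H ^ 2) ^ s) ^ N * Y ^ (-G) ≤
      (T ^ i) ^ N * (C * ((2 * M) ^ i * (L ^ ((1 : ℝ) / 2)) ^ s) ^ N *
        (((Y ^ x) ^ i * (Y ^ ((1 - d0) / 2)) ^ s) ^ N * Y ^ (-G))) := by
    have h4 : (Y / H ^ 2) ^ s ≤ (L ^ ((1 : ℝ) / 2) * Y ^ ((1 - d0) / 2)) ^ s :=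
      pow_le_pow_left₀ (by positivity) hYH _
    have h5 : (H ^ i * (Y / H ^ 2) ^ s) ^ N ≤
        (H ^ i * (L ^ ((1 : ℝ) / 2) * Y ^ ((1 - d0) / 2)) ^ s) ^ N := by
      refine pow_le_pow_left₀ (by positivity) ?_ _
      exact mul_le_mul_of_nonneg_left h4 (by positivity)
    have h6 : 0 ≤ Y ^ (-G) := Real.rpow_nonneg hY0.le _
    calc C * (H ^ i * (Y / H ^ 2) ^ s) ^ N * Y ^ (-G) ≤
        C * (H ^ i * (L ^ ((1 : ℝ) / 2) * Y ^ ((1 - d0) / 2)) ^ s) ^ N * Y ^ (-G) := by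
          refine mul_le_mul_of_nonneg_right (mul_le_mul_of_nonneg_left h5 (by linarith)) h6
      _ = _ := by
          have h7 : H ^ i * (L ^ ((1 : ℝ) / 2) * Y ^ ((1 - d0) / 2)) ^ s =
              T ^ i * (((2 * M) ^ i * (L ^ ((1 : ℝ) / 2)) ^ s) *
                ((Y ^ x) ^ i * (Y ^ ((1 - d0) / 2)) ^ s)) := by
            rw [mul_pow (L ^ ((1 : ℝ) / 2))]
            nth_rewrite 1 [hHT]
            rw [mul_pow, mul_pow (2 * M)]
            ring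
          rw [h7, mul_pow (T ^ i), mul_pow ((2 * M) ^ i * (L ^ ((1 : ℝ) / 2)) ^ s)]
          ring
  have h4 : ((Y ^ x) ^ i * (Y ^ ((1 - d0) / 2)) ^ s) ^ N * Y ^ (-G) =
      Y ^ (N * (i * x + s * ((1 - d0) / 2)) - G) := by
    rw [← Real.rpow_natCast (Y ^ x), ← Real.rpow_mul hY0.le,
      ← Real.rpow_natCast (Y ^ ((1 - d0) / 2)), ← Real.rpow_mul hY0.le, ← Real.rpow_add hY0,
      ← Real.rpow_natCast, ← Real.rpow_mul hY0.le, ← Real.rpow_add hY0]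
    congr 1
    ring
  rw [h4] at h3
  have h5 : (T ^ i) ^ N * D ≤ (T ^ i) ^ N * (C * ((2 * M) ^ i * (L ^ ((1 : ℝ) / 2)) ^ s) ^ N *
      Y ^ (N * (i * x + s * ((1 - d0) / 2)) - G)) := by
    rw [mul_comm]
    exact h2.trans h3
  have h6 : 0 < (T ^ i) ^ N := by positivity
  have h7 := le_of_mul_le_mul_left h5 h6
  refine h7.trans ?_
  have h8 : 0 ≤ Y ^ (N * (i * x + s * ((1 - d0) / 2)) - G) := Real.rpow_nonneg hY0.le _
  nlinarith

end Pool.Agent.Lib.SQF
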