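import Pool.Agent.Lib.SQF.ANoForm
import Pool.Agent.Lib.SQF.GlueA
import Pool.Agent.Lib.SQF.Cluster

/-!
# SQF: the multi-scale count on the curves of the first step (section S6)
-/

set_option autoImplicit false

open Polynomial

namespace Pool.Agent.Lib.SQF

/-- `cluster_count` with powers of `Y` -/
theorem acore_main {g : ℤ[X]} {s s2 T N J e : ℕ} (hs2 : s = 2 * s2 + 1)
    (hN : N = 2 * (s + 1) ^ 2) (hJ : J = s2 + 1) (he : e = (s + 1) ^ 2 * (4 * s + 3))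
    (w ρ : ℕ → ℝ) (ε E : ℝ) (hwanti : ∀ l l', l' ≤ l → l ≤ T → w l ≤ w l')
    (hwnn : ∀ l, l ≤ T → 0 ≤ w l) (hE : ∀ l, l ≤ T → w l + ρ (l + 1) + ε ≤ E)
    (Y P K B H E1 E2 : ℝ) (hY : 1 ≤ Y) (hE1 : 0 < E1) (hE2 : 0 < E2) (e1 e2 : Fin 4 → ℤ)
    (cols : Fin N → ℕ × (Fin 4 → ℕ)) (hgc : GoodCols g e1 e2 1 s N B cols)
    (S : Finset ZPt) (htinj : TInj S) (hS : ∀ z ∈ S, AOK g K Y P e1 e2 z)
    (good : ℤ[X][X] → Prop)
    (hgood : ∀ γ, good γ → Irreducible γ ∧ normalize γ = γ ∧ 2 ≤ γ.natDegree ∧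
      Bdd s (6 * s + 1) H γ)
    (c : ZPt → ℤ[X][X]) (hc : ∀ z ∈ S, good (c z) ∧ On (c z) z)
    (hJ0 : ∀ a : Bool × ℤ, ∀ U ⊆ S, (∀ z ∈ U, arcA E1 E2 (kdy Y (w 0)) z.u z.v = a) →
      ∃ Γ : Finset ℤ[X][X], Γ.card ≤ s ∧ ∀ z ∈ U, c z ∈ Γ)
    (hM : ((2 * s * (6 * s + 1) + 1 : ℕ) : ℝ) ≤ Y ^ (ε / 2))
    (hcl : ∀ l, 1 ≤ l → l ≤ T → ∀ γ, good γ → ∀ S' ⊆ S, (∀ x ∈ S', On γ x) →
      Y ^ (ρ l + ε) ≤ S'.card → ∀ F : Finset ℕ, F.card < J → ∃ q : ℕ, q.Prime ∧ q ∉ F ∧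
        Y ^ (ρ l) ≤ q ∧ ∃ C' ⊆ S', Y ^ (ε / 2) ≤ C'.card ∧
        ∀ (x : Fin N → ZPt) (R : Finset (Fin N)), (∀ r ∈ R, x r ∈ C') →
          (q : ℤ) ^ (R.card * (R.card - 1) / 2) ∣
            Matrix.det (Matrix.of fun r c => fv 1 (cols c) (x r)))
    (hdet : ∀ l, l ≤ T → ∀ x : Fin N → ZPt, (∀ r, x r ∈ S) →
      (∀ r r', arcA E1 E2 (kdy Y (w l)) (x r).u (x r).v =
        arcA E1 E2 (kdy Y (w l)) (x r').u (x r').v) →
      |((Matrix.det (Matrix.of fun r c => fv 1 (cols c) (x r)) : ℤ) : ℝ)| <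
        Y ^ (ρ l * (e : ℝ)))
    (hlast : ∀ z ∈ S, ∀ U ⊆ S, (∀ x ∈ U, On (c z) x) → (U.card : ℝ) ≤ Y ^ (ρ (T + 1) + ε)) :
    (S.card : ℝ) ≤ 12 * s * (T + 1) * Y ^ E := by
  classical
  have hYpos : 0 < Y := by linarith
  set arc : ℕ → ZPt → Bool × ℤ := fun l z => arcA E1 E2 (kdy Y (w l)) z.u z.v with harc
  set Bn : ℕ → ℕ := fun l => ⌊Y ^ (ρ l + ε)⌋₊ with hBn
  set Z : ℕ → ℕ := fun l => ⌈Y ^ (ρ l)⌉₊ with hZ
  have hcount := cluster_count (N := N) (fun z j => fv 1 (cols j) z) S T arc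
    (fun l hl x _ y _ h => arcA_nest (kdy_mono hY (hwanti (l + 1) l (Nat.le_succ _) hl)) h)
    (fun l => 6 * 2 ^ (kdy Y (w l))) (fun l _ => arcA_card hE1 hE2 _ _ _ _) On c good hc s J
    (by omega)
    (by
      intro a
      obtain ⟨Γ, hΓ, hcΓ⟩ := hJ0 a (S.filter fun x => arc 0 x = a) (Finset.filter_subset _ _)
        (fun z hz => (Finset.mem_filter.1 hz).2)
      refine le_trans (Finset.card_le_card ?_) hΓ
      intro γ hγ
      obtain ⟨z, hz, rfl⟩ := Finset.mem_image.1 hγ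
      exact hcΓ z hz)
    Bn Z (2 * s * (6 * s + 1) + 1) 0 e
    (by
      intro l hl1 hl γ hγ S' hS' hon hcard F hF
      obtain ⟨q, hq, hqF, hYq, C', hC', hcC, hdiv⟩ := hcl l hl1 hl γ hγ S' hS' hon
        (Nat.lt_of_floor_lt hcard).le F hF
      refine ⟨q, hq, hqF, Nat.ceil_le.2 hYq, C', hC', ?_, fun x _ R hR => hdiv x R hR⟩
      exact_mod_cast hM.trans hcC)
    (by
      intro γ hγ hne C hC k hk
      by_contra hk0
      obtain ⟨j, z, hz, hz0⟩ := no_form e1 e2 s N J (6 * s + 1) B K Y P cols hgc (by omega)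
        le_rfl (fun j : Fin J => γ j)
        (fun j => by
          obtain ⟨g1, g2, g3, g4⟩ := hgood _ (hγ j j.2)
          exact ⟨g1, g2, g3, g4.1, g4.2.1⟩)
        (fun i j hij => by
          by_contra hne'
          exact hne i i.2 j j.2 (fun h => hne' (Fin.ext h)) hij)
        (fun j => C j)
        (fun j z hz => ⟨hS z ((hC j j.2).1 hz), (hC j j.2).2.1 z hz⟩)
        (fun j z hz z' hz' h => htinj z ((hC j j.2).1 hz) z' ((hC j j.2).1 hz') h)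
        (fun j => (hC j j.2).2.2) k hk0
      exact hz0 (hk j j.2 z hz))
    (fun _ _ _ _ _ _ => Nat.zero_le _)
    (by
      intro n hn _
      refine he_cauchy J N e ?_ (by omega) n hn
      rw [hJ, hN, he, hs2]
      apply le_of_eq
      ring)
    (fun l _ _ => Nat.ceil_pos.2 (Real.rpow_pos_of_pos hYpos _))
    (by
      intro l _ hl x hx hxa
      have h2 := hdet l hl x hx hxa
      have h3 : Y ^ (ρ l * (e : ℝ)) ≤ ((Z l : ℕ) : ℝ) ^ e := by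
        rw [Real.rpow_mul hYpos.le, Real.rpow_natCast]
        exact pow_le_pow_left₀ (Real.rpow_nonneg hYpos.le _) (Nat.le_ceil _) _
      have h4 := h2.trans_le h3
      exact_mod_cast h4)
    (by
      intro x hx
      refine Nat.le_floor ?_
      exact hlast x hx _ (Finset.filter_subset _ _) (fun z hz => (Finset.mem_filter.1 hz).2))
  have hterm : ∀ l, l ≤ T → ∀ m : ℕ, m ≤ s →
      ((m * (6 * 2 ^ (kdy Y (w l))) * Bn (l + 1) : ℕ) : ℝ) ≤ 12 * s * Y ^ E := by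
    intro l hl m hm
    have h2 := two_pow_kdy_le hY (hwnn l hl)
    have h3 : ((Bn (l + 1) : ℕ) : ℝ) ≤ Y ^ (ρ (l + 1) + ε) :=
      Nat.floor_le (Real.rpow_nonneg hYpos.le _)
    have h4 : Y ^ (w l) * Y ^ (ρ (l + 1) + ε) ≤ Y ^ E := by
      rw [← Real.rpow_add hYpos]
      exact Real.rpow_le_rpow_of_exponent_le hY (by linarith [hE l hl])
    have h5 : (m : ℝ) ≤ s := by exact_mod_cast hm
    have h6 : 0 ≤ Y ^ (w l) := Real.rpow_nonneg hYpos.le _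
    have h7 : 0 ≤ Y ^ (ρ (l + 1) + ε) := Real.rpow_nonneg hYpos.le _
    push_cast
    calc (m : ℝ) * (6 * 2 ^ (kdy Y (w l))) * (Bn (l + 1) : ℝ)
        ≤ s * (6 * (2 * Y ^ (w l))) * Y ^ (ρ (l + 1) + ε) := by gcongr
      _ = 12 * s * (Y ^ (w l) * Y ^ (ρ (l + 1) + ε)) := by ring
      _ ≤ 12 * s * Y ^ E := by gcongr
  have h2 : ((S.card : ℕ) : ℝ) ≤ ((s * (6 * 2 ^ (kdy Y (w 0))) * Bn 1 +
      ∑ l ∈ Finset.Icc 1 T, J * (6 * 2 ^ (kdy Y (w l))) * Bn (l + 1) : ℕ) : ℝ) := by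
    exact_mod_cast hcount
  rw [Nat.cast_add, Nat.cast_sum] at h2
  have h3 := hterm 0 (Nat.zero_le _) s le_rfl
  have h4 : ∑ l ∈ Finset.Icc 1 T, ((J * (6 * 2 ^ (kdy Y (w l))) * Bn (l + 1) : ℕ) : ℝ) ≤
      (Finset.Icc 1 T).card • (12 * s * Y ^ E) := by
    refine Finset.sum_le_card_nsmul _ _ _ fun l hl => ?_
    rw [Finset.mem_Icc] at hl
    exact hterm l hl.2 J (by omega)
  rw [Nat.card_Icc, nsmul_eq_mul, Nat.add_sub_cancel] at h4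
  rw [zero_add] at h3
  calc ((S.card : ℕ) : ℝ) ≤ _ := h2
    _ ≤ 12 * s * Y ^ E + T * (12 * s * Y ^ E) := add_le_add h3 h4
    _ = 12 * s * (T + 1) * Y ^ E := by ring

end Pool.Agent.Lib.SQF
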