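import Mathlib

/-!
# SQF, one-root curves (section S7): a polynomial family carries few solutions

`ballsP` : for a prime `l`, the integers `x` with `l ^ a ∣ F(x)` form a union of at most
`max 1 (deg F)` residue classes modulo powers of `l`.
`weights` : `N h G'(y) = ∑ w_j G(y + j h)` for all polynomials of degree `≤ D`.
`one_root_class` : a polynomial `G` all of whose values are divisible by `c`, a finite set of
arguments with `|G| ≤ c X` where a prime `p ≥ X / L`, `p ∤ c`, divides `G'`: at most `K(D,L)` of them.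
`one_root_card` : the same with only the values at the points of the set divisible by `c`:
at most `K(D,L) D ^ ω(c)` points.
-/

open Finset Polynomial

namespace Pool.Agent.Lib.SQF

/-! ### sublevel sets of polynomials are unions of few balls -/

theorem OneRootP_primitive (l : ℕ) (hl : l.Prime) (G : ℤ[X]) (hG : G ≠ 0) :
    ∃ (c : ℕ) (F : ℤ[X]), G = C ((l : ℤ) ^ c) * F ∧
      F.map (Int.castRingHom (ZMod l)) ≠ 0 := by
  classical
  have : Fact l.Prime := ⟨hl⟩
  have hl1 : 1 < l := hl.one_lt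
  -- multiplicity of C l in G
  have hfin : ∃ n : ℕ, ¬ (C ((l : ℤ) ^ n) ∣ G) := by
    obtain ⟨i, hi⟩ : ∃ i, G.coeff i ≠ 0 := by
      by_contra h
      push Not at h
      exact hG (Polynomial.ext (by simpa using h))
    refine ⟨(G.coeff i).natAbs, fun h => ?_⟩
    have h1 := (C_dvd_iff_dvd_coeff _ _).1 h i
    have h2 : ((l : ℤ) ^ (G.coeff i).natAbs).natAbs ≤ (G.coeff i).natAbs :=
      Nat.le_of_dvd (Int.natAbs_pos.2 hi) (Int.natAbs_dvd_natAbs.2 h1)
    have h3 : (G.coeff i).natAbs < l ^ (G.coeff i).natAbs := Nat.lt_pow_self hl1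
    rw [Int.natAbs_pow, Int.natAbs_natCast] at h2
    omega
  set n := Nat.find hfin with hn
  have hn1 : ¬ (C ((l : ℤ) ^ n) ∣ G) := Nat.find_spec hfin
  have hn0 : n ≠ 0 := by
    intro h
    rw [h] at hn1
    exact hn1 (by simp)
  obtain ⟨c, hc⟩ : ∃ c, n = c + 1 := ⟨n - 1, by omega⟩
  have hc1 : C ((l : ℤ) ^ c) ∣ G := by
    by_contra h
    have := Nat.find_min' hfin h
    omega
  obtain ⟨F, hF⟩ := hc1
  refine ⟨c, F, hF, fun h => hn1 ?_⟩
  have h1 : C (l : ℤ) ∣ F := by
    rw [C_dvd_iff_dvd_coeff]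
    intro i
    have h2 := congrArg (fun q => q.coeff i) h
    simp only [coeff_map, coeff_zero, eq_intCast] at h2
    exact (ZMod.intCast_zmod_eq_zero_iff_dvd _ _).1 h2 |> fun h => by exact_mod_cast h
  obtain ⟨F', hF'⟩ := h1
  rw [hF, hF', hc, pow_succ, ← mul_assoc, ← C_mul]
  exact dvd_mul_right _ _

theorem OneRootP_mult (l : ℕ) [Fact l.Prime] (F : ℤ[X])
    (hF : F.map (Int.castRingHom (ZMod l)) ≠ 0) (r : ℤ)
    (hr : (F.map (Int.castRingHom (ZMod l))).IsRoot (r : ZMod l)) :
    ∃ (c : ℕ) (F1 : ℤ[X]), 1 ≤ c ∧ F.comp (C r + C (l : ℤ) * X) = C ((l : ℤ) ^ c) * F1 ∧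
      F1.map (Int.castRingHom (ZMod l)) ≠ 0 ∧
      (F1.map (Int.castRingHom (ZMod l))).natDegree ≤
        (F.map (Int.castRingHom (ZMod l))).rootMultiplicity (r : ZMod l) := by
  classical
  have hl : l.Prime := Fact.out
  have hl0 : (l : ℤ) ≠ 0 := by exact_mod_cast hl.ne_zero
  set φ := Int.castRingHom (ZMod l) with hφ
  set f := F.map φ with hf
  set μ := f.rootMultiplicity (r : ZMod l) with hμ
  set G := F.comp (C r + C (l : ℤ) * X) with hG
  have hF0 : F ≠ 0 := by
    rintro rfl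
    exact hF (by simp [hf])
  -- coefficients of G
  have hcoeff : ∀ i, G.coeff i = (l : ℤ) ^ i * (taylor r F).coeff i := by
    intro i
    have h1 : G = (taylor r F).comp (C (l : ℤ) * X) := by
      rw [hG, taylor_apply, comp_assoc]
      congr 1
      simp [add_comm]
    rw [h1, comp_C_mul_X_coeff, mul_comm]
  have hG0 : G ≠ 0 := by
    intro h
    have h1 : taylor r F = 0 := by
      ext i
      have h2 := hcoeff i
      rw [h, coeff_zero] at h2
      have := (mul_eq_zero.1 h2.symm).resolve_left (pow_ne_zero _ hl0)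
      simpa using this
    exact hF0 ((taylor_injective r) (by simpa using h1))
  obtain ⟨c, F1, hGF, hF1⟩ := OneRootP_primitive l hl G hG0
  -- reduction of the taylor coefficients
  have htay : ∀ i, φ ((taylor r F).coeff i) = (taylor (r : ZMod l) f).coeff i := by
    intro i
    have h1 : (taylor r F).map φ = taylor (φ r) (F.map φ) := by
      rw [taylor_apply, taylor_apply, Polynomial.map_comp]
      simp
    have h2 := congrArg (fun q => q.coeff i) h1
    simp only [coeff_map] at h2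
    rw [h2]
    simp [hφ, hf]
  have hfac : ∃ g : (ZMod l)[X], f = (X - C (r : ZMod l)) ^ μ * g ∧ g.eval (r : ZMod l) ≠ 0 := by
    obtain ⟨g, hg, hg'⟩ := exists_eq_pow_rootMultiplicity_mul_and_not_dvd f hF (r : ZMod l)
    refine ⟨g, hg, fun h => hg' ?_⟩
    exact dvd_iff_isRoot.2 h
  obtain ⟨g, hg, hg0⟩ := hfac
  have hmu : (taylor (r : ZMod l) f).coeff μ ≠ 0 := by
    rw [hg, taylor_mul, taylor_pow]
    have h1 : taylor (r : ZMod l) (X - C (r : ZMod l)) = X := by
      simp [taylor_apply]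
    rw [h1]
    have h2 := coeff_X_pow_mul (taylor (r : ZMod l) g) μ 0
    rw [zero_add] at h2
    rw [h2, taylor_coeff_zero]
    exact hg0
  have hdvd : ∀ i, (l : ℤ) ^ c ∣ G.coeff i := by
    intro i
    rw [hGF, coeff_C_mul]
    exact dvd_mul_right _ _
  have hcμ : c ≤ μ := by
    by_contra h
    push Not at h
    have h1 := hdvd μ
    rw [hcoeff μ] at h1
    have h2 : (l : ℤ) ^ (μ + 1) ∣ (l : ℤ) ^ μ * (taylor r F).coeff μ :=
      (pow_dvd_pow _ h).trans h1
    rw [pow_succ] at h2
    have h3 := (mul_dvd_mul_iff_left (pow_ne_zero μ hl0)).1 h2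
    have h4 : φ ((taylor r F).coeff μ) = 0 := by
      simp only [hφ, eq_intCast]
      exact (ZMod.intCast_zmod_eq_zero_iff_dvd _ _).2 (by exact_mod_cast h3)
    rw [htay μ] at h4
    exact hmu h4
  have hc1 : 1 ≤ c := by
    by_contra h
    have hc0 : c = 0 := by omega
    subst hc0
    simp only [pow_zero, C_1, one_mul] at hGF
    apply hF1
    rw [← hGF]
    ext i
    rw [coeff_map, coeff_zero]
    rcases Nat.eq_zero_or_pos i with hi | hi
    · subst hi
      rw [hcoeff 0, pow_zero, one_mul, htay 0, taylor_coeff_zero]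
      exact hr
    · rw [hcoeff i]
      simp only [eq_intCast]
      apply (ZMod.intCast_zmod_eq_zero_iff_dvd _ _).2
      exact_mod_cast (dvd_pow_self (l : ℤ) (by omega : i ≠ 0)).mul_right _
  refine ⟨c, F1, hc1, hGF, hF1, ?_⟩
  rw [natDegree_le_iff_coeff_eq_zero]
  intro i hi
  rw [coeff_map]
  have h1 : (l : ℤ) ^ c * F1.coeff i = (l : ℤ) ^ i * (taylor r F).coeff i := by
    rw [← hcoeff i, hGF, coeff_C_mul]
  have h2 : (l : ℤ) ∣ F1.coeff i := by
    have h3 : (l : ℤ) ^ c * (l : ℤ) ∣ (l : ℤ) ^ c * F1.coeff i := by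
      rw [h1, ← pow_succ]
      exact (pow_dvd_pow _ (by omega)).mul_right _
    exact (mul_dvd_mul_iff_left (pow_ne_zero c hl0)).1 h3
  simp only [eq_intCast]
  exact (ZMod.intCast_zmod_eq_zero_iff_dvd _ _).2 (by exact_mod_cast h2)

/-- **Balls**: for a prime `l` and a polynomial which is nonzero modulo `l`, the integers with
`l ^ a ∣ F x`, `a ≥ 1`, form a union of at most `deg (F mod l)` residue classes modulo powers
of `l` -/
theorem OneRootP_balls1 (l : ℕ) [Fact l.Prime] (a : ℕ) : ∀ (F : ℤ[X]), 1 ≤ a →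
    F.map (Int.castRingHom (ZMod l)) ≠ 0 →
    ∃ B : Finset (ℤ × ℕ), B.card ≤ (F.map (Int.castRingHom (ZMod l))).natDegree ∧
      ∀ x : ℤ, (l : ℤ) ^ a ∣ F.eval x ↔ ∃ b ∈ B, (l : ℤ) ^ b.2 ∣ x - b.1 := by
  classical
  induction a using Nat.strong_induction_on with
  | _ a ih =>
  intro F ha hF
  have hl : l.Prime := Fact.out
  have hl0 : (l : ℤ) ≠ 0 := by exact_mod_cast hl.ne_zero
  set φ := Int.castRingHom (ZMod l) with hφ
  set f := F.map φ with hf
  have key : ∀ ρ ∈ f.roots.toFinset, ∃ B : Finset (ℤ × ℕ), B.card ≤ f.rootMultiplicity ρ ∧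
      (∀ b ∈ B, 1 ≤ b.2 ∧ (b.1 : ZMod l) = ρ) ∧
      ∀ x : ℤ, (x : ZMod l) = ρ →
        ((l : ℤ) ^ a ∣ F.eval x ↔ ∃ b ∈ B, (l : ℤ) ^ b.2 ∣ x - b.1) := by
    intro ρ hρ
    have hroot : f.IsRoot ρ := by
      have := Multiset.mem_toFinset.1 hρ
      exact (mem_roots hF).1 this
    obtain ⟨r, hr⟩ : ∃ r : ℤ, (r : ZMod l) = ρ := ⟨(ρ.val : ℤ), by simp⟩
    subst hr
    obtain ⟨c, F1, hc1, hG, hF1, hdeg⟩ := OneRootP_mult l F hF r hroot
    have hev : ∀ y : ℤ, F.eval (r + l * y) = (l : ℤ) ^ c * F1.eval y := by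
      intro y
      have h1 := congrArg (fun q => q.eval y) hG
      simpa [eval_comp] using h1
    have hxy : ∀ x : ℤ, (x : ZMod l) = (r : ZMod l) → ∃ y : ℤ, x = r + l * y := by
      intro x hx
      have h1 : ((x - r : ℤ) : ZMod l) = 0 := by push_cast; rw [hx, sub_self]
      obtain ⟨y, hy⟩ := (ZMod.intCast_zmod_eq_zero_iff_dvd _ _).1 h1
      exact ⟨y, by linarith⟩
    have hμ1 : 1 ≤ f.rootMultiplicity (r : ZMod l) :=
      (rootMultiplicity_pos hF).2 hroot
    by_cases hac : a ≤ c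
    · refine ⟨{(r, 1)}, by simpa using hμ1, by simp, fun x hx => ?_⟩
      obtain ⟨y, rfl⟩ := hxy x hx
      constructor
      · intro _
        exact ⟨(r, 1), by simp, by simp⟩
      · intro _
        rw [hev]
        exact (pow_dvd_pow _ hac).mul_right _
    · push Not at hac
      obtain ⟨B, hB, hBx⟩ := ih (a - c) (by omega) F1 (by omega) hF1
      refine ⟨B.image (fun b => (r + l * b.1, b.2 + 1)),
        (card_image_le.trans hB).trans hdeg, ?_, ?_⟩
      · intro b hb
        obtain ⟨b', _, rfl⟩ := mem_image.1 hb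
        refine ⟨by simp, by simp⟩
      · intro x hx
        obtain ⟨y, rfl⟩ := hxy x hx
        rw [hev]
        have h1 : (l : ℤ) ^ a = (l : ℤ) ^ c * (l : ℤ) ^ (a - c) := by
          rw [← pow_add]; congr 1; omega
        rw [h1, mul_dvd_mul_iff_left (pow_ne_zero c hl0), hBx y]
        constructor
        · rintro ⟨b, hb, hdv⟩
          refine ⟨(r + l * b.1, b.2 + 1), mem_image_of_mem _ hb, ?_⟩
          have h2 : r + (l : ℤ) * y - (r + l * b.1) = l * (y - b.1) := by ring
          simp only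
          rw [h2, pow_succ, mul_comm ((l : ℤ) ^ b.2)]
          exact mul_dvd_mul_left _ hdv
        · rintro ⟨b, hb, hdv⟩
          obtain ⟨b', hb', rfl⟩ := mem_image.1 hb
          refine ⟨b', hb', ?_⟩
          have h2 : r + (l : ℤ) * y - (r + l * b'.1) = l * (y - b'.1) := by ring
          simp only at hdv
          rw [h2, pow_succ, mul_comm ((l : ℤ) ^ b'.2)] at hdv
          exact (mul_dvd_mul_iff_left hl0).1 hdv
  choose! B hBcard hB1 hB2 using key
  refine ⟨f.roots.toFinset.biUnion B, ?_, ?_⟩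
  · calc (f.roots.toFinset.biUnion B).card ≤ ∑ ρ ∈ f.roots.toFinset, (B ρ).card :=
          card_biUnion_le
      _ ≤ ∑ ρ ∈ f.roots.toFinset, f.roots.count ρ := by
          apply sum_le_sum
          intro ρ hρ
          rw [count_roots]
          exact hBcard ρ hρ
      _ = f.roots.card := Multiset.toFinset_sum_count_eq _
      _ ≤ f.natDegree := card_roots' f
  · intro x
    constructor
    · intro hx
      have h1 : f.IsRoot (x : ZMod l) := by
        have h2 : (l : ℤ) ∣ F.eval x := (dvd_pow_self _ (by omega)).trans hx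
        have h3 : ((F.eval x : ℤ) : ZMod l) = 0 :=
          (ZMod.intCast_zmod_eq_zero_iff_dvd _ _).2 (by exact_mod_cast h2)
        have h4 : f.eval (φ x) = φ (F.eval x) := by rw [hf, eval_map, eval₂_at_apply]
        simp only [hφ, eq_intCast] at h4
        rw [IsRoot.def, h4, h3]
      have h2 : (x : ZMod l) ∈ f.roots.toFinset :=
        Multiset.mem_toFinset.2 ((mem_roots hF).2 h1)
      obtain ⟨b, hb, hdv⟩ := (hB2 _ h2 x rfl).1 hx
      exact ⟨b, mem_biUnion.2 ⟨_, h2, hb⟩, hdv⟩
    · rintro ⟨b, hb, hdv⟩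
      obtain ⟨ρ, hρ, hbρ⟩ := mem_biUnion.1 hb
      obtain ⟨h1, h2⟩ := hB1 ρ hρ b hbρ
      have h3 : (x : ZMod l) = ρ := by
        have h4 : (l : ℤ) ∣ x - b.1 := (dvd_pow_self _ (by omega)).trans hdv
        have h5 : ((x - b.1 : ℤ) : ZMod l) = 0 :=
          (ZMod.intCast_zmod_eq_zero_iff_dvd _ _).2 (by exact_mod_cast h4)
        push_cast at h5
        rw [← h2]
        exact sub_eq_zero.1 h5
      exact (hB2 ρ hρ x h3).2 ⟨b, hbρ, hdv⟩

/-- **Balls**, general form -/
theorem ballsP (l : ℕ) (hl : l.Prime) (F : ℤ[X]) (hF : F ≠ 0) (a : ℕ) :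
    ∃ B : Finset (ℤ × ℕ), B.card ≤ max 1 F.natDegree ∧
      ∀ x : ℤ, (l : ℤ) ^ a ∣ F.eval x ↔ ∃ b ∈ B, (l : ℤ) ^ b.2 ∣ x - b.1 := by
  classical
  have : Fact l.Prime := ⟨hl⟩
  have hl0 : (l : ℤ) ≠ 0 := by exact_mod_cast hl.ne_zero
  obtain ⟨c, F1, hFF, hF1⟩ := OneRootP_primitive l hl F hF
  by_cases hac : a ≤ c
  · refine ⟨{(0, 0)}, by simp, fun x => ?_⟩
    constructor
    · intro _
      exact ⟨(0, 0), by simp, by simp⟩
    · intro _
      rw [hFF, eval_mul, eval_C]
      exact (pow_dvd_pow _ hac).mul_right _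
  · push Not at hac
    obtain ⟨B, hB, hBx⟩ := OneRootP_balls1 l (a - c) F1 (by omega) hF1
    refine ⟨B, ?_, fun x => ?_⟩
    · have h1 : (F1.map (Int.castRingHom (ZMod l))).natDegree ≤ F1.natDegree :=
        natDegree_map_le
      have h2 : F.natDegree = F1.natDegree := by
        rw [hFF, natDegree_C_mul (pow_ne_zero c hl0)]
      omega
    · rw [hFF, eval_mul, eval_C]
      have h1 : (l : ℤ) ^ a = (l : ℤ) ^ c * (l : ℤ) ^ (a - c) := by
        rw [← pow_add]; congr 1; omega
      rw [h1, mul_dvd_mul_iff_left (pow_ne_zero c hl0), hBx x]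

/-! ### weights -/

/-- numerical differentiation: integer weights -/
theorem weights (D : ℕ) : ∃ (N : ℕ) (w : ℕ → ℤ), 0 < N ∧
    ∀ G : ℤ[X], G.natDegree ≤ D → ∀ y h : ℤ,
      (N : ℤ) * (h * G.derivative.eval y) =
        ∑ j ∈ range (D + 1), w j * G.eval (y + j * h) := by
  classical
  set v : ℕ → ℚ := fun j => (j : ℚ) with hv
  set s := range (D + 1) with hs
  set q : ℕ → ℚ := fun j => (derivative (Lagrange.basis s v j)).eval 0 with hq
  have hinj : Set.InjOn v s := by
    intro i _ j _ hij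
    have h : (i : ℚ) = (j : ℚ) := hij
    exact_mod_cast h
  have key : ∀ f : ℚ[X], f.natDegree ≤ D → f.derivative.eval 0 = ∑ j ∈ s, f.eval (j : ℚ) * q j := by
    intro f hf
    have hdeg : f.degree < (s.card : ℕ) := by
      rw [hs, card_range]
      refine lt_of_le_of_lt degree_le_natDegree ?_
      exact_mod_cast (by omega : f.natDegree < D + 1)
    have h1 := Lagrange.eq_interpolate hinj hdeg
    have h2 : f.derivative = derivative (∑ j ∈ s, C (f.eval (v j)) * Lagrange.basis s v j) := by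
      rw [← Lagrange.interpolate_apply, ← h1]
    rw [h2, derivative_sum, eval_finsetSum]
    refine sum_congr rfl fun j _ => ?_
    rw [derivative_C_mul, eval_mul, eval_C]
  set N := ∏ j ∈ s, (q j).den with hN
  have hNpos : 0 < N := prod_pos fun j _ => (q j).den_pos
  have hw : ∀ j ∈ s, ∃ w : ℤ, (w : ℚ) = N * q j := by
    intro j hj
    obtain ⟨m, hm⟩ := dvd_prod_of_mem (fun j => (q j).den) hj
    refine ⟨m * (q j).num, ?_⟩
    have h1 : (N : ℚ) = (q j).den * m := by exact_mod_cast hm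
    have h2 : ((q j).den : ℚ) * q j = (q j).num := by
      rw [mul_comm]
      exact Rat.mul_den_eq_num (q j)
    push_cast
    rw [h1]
    linear_combination (-(m : ℚ)) * h2
  choose! w hw using hw
  refine ⟨N, w, hNpos, fun G hG y h => ?_⟩
  set f : ℚ[X] := (G.map (Int.castRingHom ℚ)).comp (C (y : ℚ) + C (h : ℚ) * X) with hf
  have hfdeg : f.natDegree ≤ D := by
    have h1 : (C (y : ℚ) + C (h : ℚ) * X).natDegree ≤ 1 := by
      refine (natDegree_add_le _ _).trans ?_
      rw [natDegree_C]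
      refine max_le (by norm_num) ?_
      exact (natDegree_C_mul_le _ _).trans natDegree_X_le
    calc f.natDegree ≤ (G.map (Int.castRingHom ℚ)).natDegree * (C (y : ℚ) + C (h : ℚ) * X).natDegree :=
          natDegree_comp_le
      _ ≤ D * 1 := Nat.mul_le_mul (natDegree_map_le.trans hG) h1
      _ = D := mul_one D
  have h1 := key f hfdeg
  have hev : ∀ z : ℚ, f.eval z = (G.map (Int.castRingHom ℚ)).eval (y + h * z) := by
    intro z
    rw [hf, eval_comp]
    simp
  have hevi : ∀ z : ℤ, (G.map (Int.castRingHom ℚ)).eval (z : ℚ) = (G.eval z : ℤ) := by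
    intro z
    rw [eval_map, ← eq_intCast (Int.castRingHom ℚ) z, eval₂_at_apply]
    simp
  have hdevi : ∀ z : ℤ, (G.map (Int.castRingHom ℚ)).derivative.eval (z : ℚ) =
      (G.derivative.eval z : ℤ) := by
    intro z
    rw [derivative_map, eval_map, ← eq_intCast (Int.castRingHom ℚ) z, eval₂_at_apply]
    simp
  have hder : f.derivative.eval 0 = h * (G.derivative.eval y : ℤ) := by
    rw [hf, derivative_comp, eval_mul, eval_comp]
    have h2 : eval (0 : ℚ) (C (y : ℚ) + C (h : ℚ) * X) = y := by simp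
    rw [h2, hdevi]
    simp
  rw [hder] at h1
  have h3 : ((N : ℤ) * (h * G.derivative.eval y) : ℚ) =
      ((∑ j ∈ range (D + 1), w j * G.eval (y + j * h) : ℤ) : ℚ) := by
    push_cast
    rw [h1, mul_sum]
    refine sum_congr rfl fun j hj => ?_
    rw [hw j hj, hev]
    have h4 : ((y : ℚ) + h * (j : ℚ)) = ((y + j * h : ℤ) : ℚ) := by push_cast; ring
    rw [h4, hevi]
    ring
  exact_mod_cast h3

/-! ### one class -/

/-- between two points without a critical point in between, the polynomial is bounded by its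
values at the ends -/
theorem OneRootP_between (G : ℝ[X]) (a b M : ℝ) (hab : a ≤ b) (ha : |G.eval a| ≤ M)
    (hb : |G.eval b| ≤ M) (hno : ∀ x, a < x → x < b → G.derivative.eval x ≠ 0) :
    ∀ x, a ≤ x → x ≤ b → |G.eval x| ≤ M := by
  have hcont : ContinuousOn (fun x => G.eval x) (Set.Icc a b) :=
    G.continuous.continuousOn
  have hne : (Set.Icc a b).Nonempty := ⟨a, le_refl a, hab⟩
  intro x hax hxb
  have hx : x ∈ Set.Icc a b := ⟨hax, hxb⟩
  rw [abs_le]
  constructor
  · obtain ⟨m, hm, hmin⟩ := isCompact_Icc.exists_isMinOn hne hcont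
    have h1 : G.eval m ≤ G.eval x := hmin hx
    refine le_trans ?_ h1
    rcases eq_or_lt_of_le hm.1 with h | h
    · rw [← h]; exact (abs_le.1 ha).1
    rcases eq_or_lt_of_le hm.2 with h' | h'
    · rw [h']; exact (abs_le.1 hb).1
    exfalso
    have h2 : IsLocalMin (fun x => G.eval x) m :=
      hmin.isLocalMin (Icc_mem_nhds h h')
    exact hno m h h' (h2.hasDerivAt_eq_zero (G.hasDerivAt m))
  · obtain ⟨m, hm, hmax⟩ := isCompact_Icc.exists_isMaxOn hne hcont
    have h1 : G.eval x ≤ G.eval m := hmax hx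
    refine le_trans h1 ?_
    rcases eq_or_lt_of_le hm.1 with h | h
    · rw [← h]; exact (abs_le.1 ha).2
    rcases eq_or_lt_of_le hm.2 with h' | h'
    · rw [h']; exact (abs_le.1 hb).2
    exfalso
    have h2 : IsLocalMax (fun x => G.eval x) m :=
      hmax.isLocalMax (Icc_mem_nhds h h')
    exact hno m h h' (h2.hasDerivAt_eq_zero (G.hasDerivAt m))

/-- one class: all values of `G` are divisible by `c` -/
theorem one_root_class (D L : ℕ) : ∃ K : ℕ, ∀ G : ℤ[X], G.natDegree ≤ D → 0 < G.natDegree →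
    ∀ c : ℕ, c ≠ 0 → (∀ y : ℤ, (c : ℤ) ∣ G.eval y) → ∀ (B : ℝ) (T : Finset ℤ),
    (∀ y ∈ T, |((G.eval y : ℤ) : ℝ)| ≤ c * B ∧
      ∃ p : ℕ, p.Prime ∧ B ≤ L * p ∧ ¬ p ∣ c ∧ (p : ℤ) ∣ G.derivative.eval y) →
    T.card ≤ K := by
  classical
  obtain ⟨N, w, hN, hw⟩ := weights D
  set W : ℕ := ∑ j ∈ range (D + 1), (w j).natAbs with hW
  set h0 : ℕ := W * L + 1 with hh0
  set K0 : ℕ := 2 * D * h0 + 2 with hK0
  refine ⟨D * (K0 + 1), fun G hGD hG1 c hc hdiv B T hT => ?_⟩
  have hcR : (0 : ℝ) < c := by exact_mod_cast Nat.pos_of_ne_zero hc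
  have hD1 : 1 ≤ D := by omega
  -- the real polynomial
  set g : ℝ[X] := G.map (Int.castRingHom ℝ) with hg
  have hgev : ∀ y : ℤ, g.eval (y : ℝ) = ((G.eval y : ℤ) : ℝ) := by
    intro y
    rw [hg, eval_map, ← eq_intCast (Int.castRingHom ℝ) y, eval₂_at_apply]
    simp
  have hgd : ∀ y : ℤ, g.derivative.eval (y : ℝ) = ((G.derivative.eval y : ℤ) : ℝ) := by
    intro y
    rw [hg, derivative_map, eval_map, ← eq_intCast (Int.castRingHom ℝ) y, eval₂_at_apply]
    simp
  have hgdeg : g.natDegree = G.natDegree :=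
    natDegree_map_eq_of_injective (RingHom.injective_int (Int.castRingHom ℝ)) G
  have hg' : g.derivative ≠ 0 := by
    intro h
    have h1 := derivative_eq_zero.1 h
    omega
  set R : Finset ℝ := g.derivative.roots.toFinset with hR
  have hRcard : R.card ≤ D - 1 := by
    calc R.card ≤ g.derivative.roots.card := Multiset.toFinset_card_le _
      _ ≤ g.derivative.natDegree := card_roots' _
      _ ≤ g.natDegree - 1 := natDegree_derivative_le g
      _ ≤ D - 1 := by omega
  -- pieces
  set φ : ℤ → ℕ := fun y => (R.filter (fun x => x < (y : ℝ))).card with hφ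
  have hmaps : ∀ y ∈ T, φ y ∈ range D := by
    intro y _
    have h1 : φ y ≤ R.card := card_filter_le _ _
    exact mem_range.2 (by omega)
  by_contra hcon
  push Not at hcon
  obtain ⟨k, hk, hcard⟩ := exists_lt_card_fiber_of_mul_lt_card_of_maps_to hmaps
    (by rw [card_range]; exact hcon : (range D).card * (K0 + 1) < T.card)
  set S := T.filter (fun y => φ y = k) with hS
  have hSne : S.Nonempty := card_pos.1 (by omega)
  set a := S.min' hSne with ha
  set b := S.max' hSne with hb
  have haS : a ∈ S := S.min'_mem hSne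
  have hbS : b ∈ S := S.max'_mem hSne
  have hST : ∀ y ∈ S, y ∈ T ∧ φ y = k := fun y hy => by
    rw [hS, mem_filter] at hy; exact hy
  have hle : ∀ y ∈ S, a ≤ y ∧ y ≤ b := fun y hy => ⟨S.min'_le y hy, S.le_max' y hy⟩
  -- length
  have hlen : (K0 : ℤ) + 1 ≤ b - a := by
    have h1 : S ⊆ Icc a b := fun y hy => mem_Icc.2 (hle y hy)
    have h2 := card_le_card h1
    rw [Int.card_Icc] at h2
    have h3 : (K0 : ℤ) + 1 < (b + 1 - a).toNat := by exact_mod_cast lt_of_lt_of_le hcard h2
    have h4 : ((b + 1 - a).toNat : ℤ) = b + 1 - a := Int.toNat_of_nonneg (by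
      by_contra h
      push Not at h
      rw [Int.toNat_of_nonpos h.le] at h3
      simp at h3
      omega)
    omega
  -- no critical point in between
  have hno : ∀ x : ℝ, (a : ℝ) < x → x < b → g.derivative.eval x ≠ 0 := by
    intro x hax hxb hx
    have hxR : x ∈ R := Multiset.mem_toFinset.2 ((mem_roots hg').2 hx)
    have h1 : R.filter (fun x => x < (a : ℝ)) ⊂ R.filter (fun x => x < (b : ℝ)) := by
      rw [ssubset_iff_of_subset]
      · refine ⟨x, mem_filter.2 ⟨hxR, hxb⟩, fun h => ?_⟩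
        exact absurd (mem_filter.1 h).2 (not_lt.2 hax.le)
      · intro z hz
        rw [mem_filter] at hz ⊢
        refine ⟨hz.1, hz.2.trans (hax.trans hxb)⟩
    have h2 : φ a < φ b := card_lt_card h1
    rw [(hST a haS).2, (hST b hbS).2] at h2
    exact lt_irrefl _ h2
  have hab : (a : ℝ) ≤ b := by exact_mod_cast (hle a haS).2
  have hbound : ∀ y : ℤ, a ≤ y → y ≤ b → |((G.eval y : ℤ) : ℝ)| ≤ c * B := by
    intro y hay hyb
    have h1 := OneRootP_between g a b (c * B) hab
      (by rw [hgev]; exact (hT a (hST a haS).1).1) (by rw [hgev]; exact (hT b (hST b hbS).1).1)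
      hno y (by exact_mod_cast hay) (by exact_mod_cast hyb)
    rwa [hgev] at h1
  -- every point of S is a critical point
  have hcrit : ∀ y ∈ S, G.derivative.eval y = 0 := by
    intro y hy
    obtain ⟨hyT, _⟩ := hST y hy
    obtain ⟨_, p, hp, hBp, hpc, hpd⟩ := hT y hyT
    obtain ⟨hay, hyb⟩ := hle y hy
    -- integrality
    have hint : (c : ℤ) ∣ (N : ℤ) * G.derivative.eval y := by
      have h1 := hw G hGD y 1
      rw [one_mul] at h1
      rw [h1]
      exact dvd_sum fun j _ => (hdiv _).mul_left _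
    obtain ⟨E, hE⟩ := hint
    have hpE : (p : ℤ) ∣ E := by
      have h1 : (p : ℤ) ∣ c * E := by
        rw [← hE]; exact hpd.mul_left _
      have h2 : IsCoprime (p : ℤ) (c : ℤ) := by
        rw [Nat.isCoprime_iff_coprime]
        exact (Nat.Prime.coprime_iff_not_dvd hp).2 hpc
      exact h2.dvd_of_dvd_mul_left h1
    -- size
    have hstep : ∃ s : ℤ, (s = 1 ∨ s = -1) ∧ ∀ j ∈ range (D + 1),
        a ≤ y + j * (s * h0) ∧ y + j * (s * h0) ≤ b := by
      have hjD : ∀ j ∈ range (D + 1), (0 : ℤ) ≤ j * h0 ∧ (j : ℤ) * h0 ≤ D * h0 := by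
        intro j hj
        have hj' : j ≤ D := Nat.lt_succ_iff.1 (mem_range.1 hj)
        refine ⟨by positivity, ?_⟩
        exact_mod_cast Nat.mul_le_mul_right h0 hj'
      have hK0' : (K0 : ℤ) = 2 * (D * h0) + 2 := by rw [hK0]; push_cast; ring
      rcases le_or_gt (2 * (y - a)) (b - a) with h | h
      · refine ⟨1, Or.inl rfl, fun j hj => ?_⟩
        obtain ⟨h1, h2⟩ := hjD j hj
        rw [one_mul]
        constructor <;> linarith
      · refine ⟨-1, Or.inr rfl, fun j hj => ?_⟩
        obtain ⟨h1, h2⟩ := hjD j hj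
        have h3 : (j : ℤ) * (-1 * h0) = -(j * h0) := by ring
        rw [h3]
        constructor <;> linarith
    obtain ⟨s, hs, hsj⟩ := hstep
    have hsize : (h0 : ℝ) * |(E : ℝ)| ≤ W * B := by
      have h1 := hw G hGD y (s * h0)
      have h2 : (N : ℤ) * (s * h0 * G.derivative.eval y) = s * h0 * (c * E) := by
        rw [← hE]; ring
      rw [h2] at h1
      have h3 : ((s * h0 * (c * E) : ℤ) : ℝ) =
          ∑ j ∈ range (D + 1), (w j : ℝ) * ((G.eval (y + j * (s * h0)) : ℤ) : ℝ) := by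
        rw [h1]; push_cast; rfl
      have h4 : |((s * h0 * (c * E) : ℤ) : ℝ)| ≤ W * (c * B) := by
        rw [h3]
        calc |∑ j ∈ range (D + 1), (w j : ℝ) * ((G.eval (y + j * (s * h0)) : ℤ) : ℝ)|
            ≤ ∑ j ∈ range (D + 1), |(w j : ℝ) * ((G.eval (y + j * (s * h0)) : ℤ) : ℝ)| :=
              abs_sum_le_sum_abs _ _
          _ ≤ ∑ j ∈ range (D + 1), ((w j).natAbs : ℝ) * (c * B) := by
              refine sum_le_sum fun j hj => ?_
              rw [abs_mul]
              have h5 : |(w j : ℝ)| = ((w j).natAbs : ℝ) := by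
                rw [Nat.cast_natAbs]; push_cast; rfl
              rw [h5]
              exact mul_le_mul_of_nonneg_left (hbound _ (hsj j hj).1 (hsj j hj).2)
                (Nat.cast_nonneg _)
          _ = W * (c * B) := by rw [← sum_mul, hW]; push_cast; rfl
      have h5 : |((s * h0 * (c * E) : ℤ) : ℝ)| = c * (h0 * |(E : ℝ)|) := by
        push_cast
        rw [abs_mul, abs_mul, abs_mul]
        have h6 : |(s : ℝ)| = 1 := by rcases hs with rfl | rfl <;> simp
        rw [h6, Nat.abs_cast, Nat.abs_cast]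
        ring
      rw [h5] at h4
      have h6 : (c : ℝ) * (h0 * |(E : ℝ)|) ≤ c * (W * B) := by linarith
      exact le_of_mul_le_mul_left h6 hcR
    have hE0 : E = 0 := by
      by_contra hne
      have h1 : (p : ℝ) ≤ |(E : ℝ)| := by
        have h2 : p ≤ E.natAbs := Nat.le_of_dvd (Int.natAbs_pos.2 hne)
          (by simpa using Int.natAbs_dvd_natAbs.2 hpE)
        have h3 : |(E : ℝ)| = (E.natAbs : ℝ) := by rw [Nat.cast_natAbs]; push_cast; rfl
        rw [h3]; exact_mod_cast h2
      have hp0 : (0 : ℝ) < p := by exact_mod_cast hp.pos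
      have h2 : (h0 : ℝ) * p ≤ W * (L * p) := by
        calc (h0 : ℝ) * p ≤ h0 * |(E : ℝ)| := mul_le_mul_of_nonneg_left h1 (Nat.cast_nonneg _)
          _ ≤ W * B := hsize
          _ ≤ W * (L * p) := mul_le_mul_of_nonneg_left hBp (Nat.cast_nonneg _)
      have h3 : (h0 : ℝ) = W * L + 1 := by rw [hh0]; push_cast; rfl
      rw [h3] at h2
      nlinarith
    rw [hE0, mul_zero] at hE
    exact (mul_eq_zero.1 hE).resolve_left (by exact_mod_cast hN.ne')
  -- contradiction
  obtain ⟨y, hyS, hay, hyb⟩ : ∃ y ∈ S, a < y ∧ y < b := by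
    by_contra h
    push Not at h
    have h1 : S ⊆ {a, b} := by
      intro y hy
      obtain ⟨h2, h3⟩ := hle y hy
      rcases eq_or_lt_of_le h2 with h4 | h4
      · simp [h4]
      · have := h y hy h4
        have h5 : y = b := le_antisymm h3 this
        simp [h5]
    have h2 := card_le_card h1
    have h3 : ({a, b} : Finset ℤ).card ≤ 2 := card_le_two
    omega
  have h1 := hcrit y hyS
  have h2 := hno (y : ℝ) (by exact_mod_cast hay) (by exact_mod_cast hyb)
  rw [hgd, h1] at h2
  simp at h2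

/-! ### all classes -/

/-- **One-root curves** (section S7): a polynomial family carries few solutions -/
theorem one_root_card (D L : ℕ) : ∃ K : ℕ, ∀ F : ℤ[X], F.natDegree ≤ D → 0 < F.natDegree →
    ∀ c : ℕ, c ≠ 0 → ∀ (B : ℝ) (T : Finset ℤ),
    (∀ x ∈ T, (c : ℤ) ∣ F.eval x ∧ |((F.eval x : ℤ) : ℝ)| ≤ c * B ∧
      ∃ p : ℕ, p.Prime ∧ B ≤ L * p ∧ ¬ p ∣ c ∧ (p : ℤ) ∣ F.derivative.eval x) →
    T.card ≤ K * D ^ c.primeFactors.card := by
  classical
  obtain ⟨K, hK⟩ := one_root_class D L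
  refine ⟨K, fun F hFD hF1 c hc B T hT => ?_⟩
  have hF0 : F ≠ 0 := by
    rintro rfl
    simp at hF1
  have hmax : max 1 F.natDegree ≤ D := by omega
  have hballs : ∀ l ∈ c.primeFactors, ∃ Bl : Finset (ℤ × ℕ), Bl.card ≤ D ∧
      ∀ x : ℤ, (l : ℤ) ^ (c.factorization l) ∣ F.eval x ↔
        ∃ b ∈ Bl, (l : ℤ) ^ b.2 ∣ x - b.1 := by
    intro l hl
    obtain ⟨Bl, h1, h2⟩ := ballsP l (Nat.prime_of_mem_primeFactors hl) F hF0 (c.factorization l)
    exact ⟨Bl, h1.trans hmax, h2⟩
  choose! Bl hBcard hBl using hballs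
  have hpow : ∀ l ∈ c.primeFactors, (l : ℤ) ^ (c.factorization l) ∣ (c : ℤ) := by
    intro l _
    exact_mod_cast Nat.ordProj_dvd c l
  have hprod : (c : ℤ) = ∏ l ∈ c.primeFactors, (l : ℤ) ^ (c.factorization l) := by
    conv_lhs => rw [← Nat.prod_factorization_pow_eq_self hc]
    rw [Finsupp.prod]
    push_cast
    rfl
  have hcop : ∀ e : ℕ → ℕ, ((c.primeFactors : Set ℕ)).Pairwise
      (Function.onFun IsCoprime (fun l : ℕ => (l : ℤ) ^ e l)) := by
    intro e l hl l' hl' hne
    refine IsCoprime.pow ?_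
    rw [Nat.isCoprime_iff_coprime]
    exact (Nat.coprime_primes (Nat.prime_of_mem_primeFactors hl)
      (Nat.prime_of_mem_primeFactors hl')).2 hne
  -- choice of the balls
  have hch : ∀ x ∈ T, ∀ l ∈ c.primeFactors, ∃ b ∈ Bl l, (l : ℤ) ^ b.2 ∣ x - b.1 := by
    intro x hx l hl
    exact (hBl l hl x).1 ((hpow l hl).trans (hT x hx).1)
  have hch2 : ∀ x : ℤ, ∃ β : (l : ℕ) → l ∈ c.primeFactors → ℤ × ℕ,
      x ∈ T → ∀ l (hl : l ∈ c.primeFactors), β l hl ∈ Bl l ∧
        (l : ℤ) ^ (β l hl).2 ∣ x - (β l hl).1 := by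
    intro x
    by_cases hx : x ∈ T
    · choose β h1 h2 using hch x hx
      exact ⟨β, fun _ l hl => ⟨h1 l hl, h2 l hl⟩⟩
    · exact ⟨fun _ _ => (0, 0), fun h => absurd h hx⟩
  choose β hβ using hch2
  set P := c.primeFactors.pi Bl with hP
  have hPcard : P.card ≤ D ^ c.primeFactors.card := by
    rw [hP, card_pi]
    calc ∏ l ∈ c.primeFactors, (Bl l).card ≤ ∏ _l ∈ c.primeFactors, D :=
          prod_le_prod' fun l hl => hBcard l hl
      _ = D ^ c.primeFactors.card := by rw [prod_const]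
  have hmaps : ∀ x ∈ T, β x ∈ P := by
    intro x hx
    rw [hP, mem_pi]
    exact fun l hl => (hβ x hx l hl).1
  have hfib : ∀ γ ∈ P, (T.filter (fun x => β x = γ)).card ≤ K := by
    intro γ _
    rcases (T.filter (fun x => β x = γ)).eq_empty_or_nonempty with h | ⟨x0, hx0⟩
    · rw [h]; simp
    rw [mem_filter] at hx0
    obtain ⟨hx0T, hx0γ⟩ := hx0
    -- modulus
    set e : ℕ → ℕ := fun l => if hl : l ∈ c.primeFactors then (γ l hl).2 else 0 with he
    set M : ℤ := ∏ l ∈ c.primeFactors, (l : ℤ) ^ e l with hM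
    have hM0 : M ≠ 0 := by
      rw [hM]
      refine prod_ne_zero_iff.2 fun l hl => pow_ne_zero _ ?_
      exact_mod_cast (Nat.prime_of_mem_primeFactors hl).ne_zero
    have hdx : ∀ x ∈ T, β x = γ → M ∣ x - x0 := by
      intro x hx hxγ
      rw [hM]
      refine Finset.prod_dvd_of_coprime (hcop e) fun l hl => ?_
      have h1 := (hβ x hx l hl).2
      have h2 := (hβ x0 hx0T l hl).2
      rw [hxγ] at h1
      rw [hx0γ] at h2
      have h3 : e l = (γ l hl).2 := by rw [he]; simp [hl]
      rw [h3]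
      have h4 : x - x0 = (x - (γ l hl).1) - (x0 - (γ l hl).1) := by ring
      rw [h4]
      exact dvd_sub h1 h2
    -- the polynomial on the class
    set G : ℤ[X] := F.comp (C x0 + C M * X) with hG
    have hGev : ∀ y : ℤ, G.eval y = F.eval (x0 + M * y) := by
      intro y
      rw [hG, eval_comp]
      simp
    have hGder : ∀ y : ℤ, G.derivative.eval y = M * F.derivative.eval (x0 + M * y) := by
      intro y
      rw [hG, derivative_comp, eval_mul, eval_comp]
      simp
    have hlin : (C x0 + C M * X : ℤ[X]).natDegree = 1 := by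
      rw [add_comm]
      exact natDegree_linear hM0
    have hGdeg : G.natDegree = F.natDegree := by
      rw [hG, natDegree_comp, hlin, mul_one]
    have hGdiv : ∀ y : ℤ, (c : ℤ) ∣ G.eval y := by
      intro y
      rw [hprod]
      refine Finset.prod_dvd_of_coprime (hcop _) fun l hl => ?_
      rw [hGev, hBl l hl]
      refine ⟨γ l hl, ?_, ?_⟩
      · have := (hβ x0 hx0T l hl).1
        rwa [hx0γ] at this
      · have h2 := (hβ x0 hx0T l hl).2
        rw [hx0γ] at h2
        have h3 : x0 + M * y - (γ l hl).1 = (x0 - (γ l hl).1) + M * y := by ring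
        rw [h3]
        refine dvd_add h2 (Dvd.dvd.mul_right ?_ _)
        have h4 : e l = (γ l hl).2 := by rw [he]; simp [hl]
        rw [← h4]
        exact dvd_prod_of_mem (fun l : ℕ => (l : ℤ) ^ e l) hl
    -- transport
    have hexy : ∀ x ∈ T.filter (fun x => β x = γ), ∃ y : ℤ, x = x0 + M * y := by
      intro x hx
      rw [mem_filter] at hx
      obtain ⟨y, hy⟩ := hdx x hx.1 hx.2
      exact ⟨y, by linarith⟩
    choose! Y hY using hexy
    have hinj : Set.InjOn Y (T.filter (fun x => β x = γ)) := by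
      intro x hx x' hx' hxx
      rw [hY x hx, hY x' hx', hxx]
    rw [← card_image_of_injOn hinj]
    refine hK G (by omega) (by omega) c hc hGdiv B _ fun y hy => ?_
    obtain ⟨x, hx, rfl⟩ := mem_image.1 hy
    have hxT := (mem_filter.1 hx).1
    obtain ⟨_, h2, p, hp, hBp, hpc, hpd⟩ := hT x hxT
    have hxe := hY x hx
    refine ⟨?_, p, hp, hBp, hpc, ?_⟩
    · rw [hGev, ← hxe]; exact h2
    · rw [hGder, ← hxe]; exact hpd.mul_left _
  calc T.card ≤ K * P.card := by
        have := card_le_mul_card_image_of_maps_to hmaps K hfib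
        exact this
    _ ≤ K * D ^ c.primeFactors.card := Nat.mul_le_mul_left K hPcard

/-- the same with the divisor function -/
theorem one_root_divisors (D L : ℕ) : ∃ K : ℕ, ∀ F : ℤ[X], F.natDegree ≤ D → 0 < F.natDegree →
    ∀ c : ℕ, c ≠ 0 → ∀ (B : ℝ) (T : Finset ℤ),
    (∀ x ∈ T, (c : ℤ) ∣ F.eval x ∧ |((F.eval x : ℤ) : ℝ)| ≤ c * B ∧
      ∃ p : ℕ, p.Prime ∧ B ≤ L * p ∧ ¬ p ∣ c ∧ (p : ℤ) ∣ F.derivative.eval x) →
    T.card ≤ K * c.divisors.card ^ D := by
  obtain ⟨K, hK⟩ := one_root_card D L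
  refine ⟨K, fun F hFD hF1 c hc B T hT => (hK F hFD hF1 c hc B T hT).trans ?_⟩
  refine Nat.mul_le_mul_left K ?_
  have h1 : 2 ^ c.primeFactors.card ≤ c.divisors.card := by
    have h2 : (c.primeFactors.powerset).card ≤ c.divisors.card := by
      refine card_le_card_of_injOn (fun s => ∏ l ∈ s, l) (fun s hs => ?_) ?_
      · show (∏ l ∈ s, l) ∈ (c.divisors : Set ℕ)
        rw [mem_coe, Nat.mem_divisors]
        have hs' := mem_powerset.1 hs
        refine ⟨(prod_dvd_prod_of_subset _ _ _ hs').trans (Nat.prod_primeFactors_dvd c), hc⟩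
      · intro s hs t ht hst
        have hs' := mem_powerset.1 hs
        have ht' := mem_powerset.1 ht
        have h3 : ∀ u ⊆ c.primeFactors, (∏ l ∈ u, l).primeFactors = u := fun u hu =>
          Nat.primeFactors_prod fun l hl => Nat.prime_of_mem_primeFactors (hu hl)
        rw [← h3 s hs', ← h3 t ht']
        simp only at hst
        rw [hst]
    rwa [card_powerset] at h2
  calc D ^ c.primeFactors.card ≤ (2 ^ D) ^ c.primeFactors.card :=
        Nat.pow_le_pow_left (Nat.lt_two_pow_self).le _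
    _ = (2 ^ c.primeFactors.card) ^ D := by rw [← pow_mul, ← pow_mul, mul_comm]
    _ ≤ c.divisors.card ^ D := Nat.pow_le_pow_left h1 D

/-- how the derivative condition arises: `α ^ 2 β = n - s` along a parametrised curve -/
theorem dvd_deriv {R : Type*} [CommRing R] (p : ℕ) (φ : R →+* ZMod p) (A B : R[X]) (F : ℤ[X])
    (s : R) (h : A ^ 2 * B = F.map (Int.castRingHom R) - C s) (w : ℤ)
    (hw : φ (A.eval (w : R)) = 0) : (p : ℤ) ∣ F.derivative.eval w := by
  have h1 := congrArg (fun q => φ ((derivative q).eval (w : R))) h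
  simp only [derivative_mul, derivative_sub, derivative_C, sub_zero, derivative_pow,
    derivative_map, eval_add, eval_mul, eval_pow, eval_C, map_add, map_mul, map_pow, hw] at h1
  have h2 : φ (eval (w : R) (map (Int.castRingHom R) (derivative F))) =
      ((F.derivative.eval w : ℤ) : ZMod p) := by
    rw [eval_map, ← eq_intCast (Int.castRingHom R) w, eval₂_at_apply]
    simp
  rw [h2] at h1
  apply (ZMod.intCast_zmod_eq_zero_iff_dvd _ _).1
  rw [← h1]
  simp

end Pool.Agent.Lib.SQF
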