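import Pool.Agent.Lib.SQF4.Sec
import Pool.Agent.Lib.MP_0b15c0_nt.DivisorBound
import Pool.Agent.Lib.SQF.OneRootP

set_option autoImplicit false

open Polynomial

namespace Pool.Agent.Lib.SQF.RC

open Pool.Agent.SQF4

/-- length (`ℓ¹` norm of the coefficients) of an integer polynomial -/
noncomputable def len (P : ℤ[X]) : ℝ := P.sum fun _ c => |(c : ℝ)|

lemma len_eq (P : ℤ[X]) (n : ℕ) (h : P.natDegree < n) :
    len P = ∑ i ∈ Finset.range n, |(P.coeff i : ℝ)| := by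
  unfold len
  rw [Polynomial.sum_over_range' P _ n h]
  intro i; simp

lemma len_nonneg (P : ℤ[X]) : 0 ≤ len P := by
  rw [len_eq P _ (Nat.lt_succ_self _)]
  exact Finset.sum_nonneg (fun i _ => abs_nonneg _)

lemma coeff_le_len (P : ℤ[X]) (i : ℕ) : |(P.coeff i : ℝ)| ≤ len P := by
  by_cases h : i ≤ P.natDegree
  · rw [len_eq P _ (Nat.lt_succ_self _)]
    exact Finset.single_le_sum (f := fun i => |(P.coeff i : ℝ)|) (fun i _ => abs_nonneg _)
      (Finset.mem_range.2 (by omega))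
  · rw [Polynomial.coeff_eq_zero_of_natDegree_lt (by omega)]
    simpa using len_nonneg P

lemma len_le_of_coeff (P : ℤ[X]) (n : ℕ) (h : P.natDegree ≤ n) (T : ℝ)
    (hT : ∀ i, |(P.coeff i : ℝ)| ≤ T) : len P ≤ (n + 1) * T := by
  rw [len_eq P (n + 1) (by omega)]
  refine (Finset.sum_le_card_nsmul _ _ T (fun i _ => hT i)).trans ?_
  rw [Finset.card_range, nsmul_eq_mul]
  push_cast
  exact le_rfl

lemma len_C (c : ℤ) : len (C c) = |(c : ℝ)| := by
  rw [len_eq (C c) 1 (by simp)]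
  simp

lemma len_X : len X = 1 := by
  rw [len_eq X 2 (by simp)]
  simp [Finset.sum_range_succ, coeff_X]

lemma len_one : len 1 = 1 := by
  have := len_C 1
  simpa using this

lemma len_zero : len 0 = 0 := by
  have := len_C 0
  simpa using this

lemma len_add (P Q : ℤ[X]) : len (P + Q) ≤ len P + len Q := by
  set n := max P.natDegree Q.natDegree + 1 with hn
  have h1 : (P + Q).natDegree < n := by
    have := Polynomial.natDegree_add_le P Q
    omega
  rw [len_eq (P + Q) n h1, len_eq P n (by omega), len_eq Q n (by omega),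
    ← Finset.sum_add_distrib]
  refine Finset.sum_le_sum ?_
  intro i _
  rw [coeff_add]
  push_cast
  exact abs_add_le _ _

lemma len_sum {ι : Type*} (s : Finset ι) (f : ι → ℤ[X]) :
    len (∑ i ∈ s, f i) ≤ ∑ i ∈ s, len (f i) := by
  classical
  induction s using Finset.induction_on with
  | empty => simp [len_zero]
  | insert a s ha ih =>
    rw [Finset.sum_insert ha, Finset.sum_insert ha]
    exact (len_add _ _).trans (by linarith)

lemma len_monomial_mul (n : ℕ) (c : ℤ) (Q : ℤ[X]) :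
    len (monomial n c * Q) ≤ |(c : ℝ)| * len Q := by
  have h1 : (monomial n c * Q).natDegree < n + (Q.natDegree + 1) := by
    have h2 := Polynomial.natDegree_mul_le (p := monomial n c) (q := Q)
    have h3 := Polynomial.natDegree_monomial_le c (m := n)
    omega
  rw [len_eq _ _ h1, Finset.sum_range_add, len_eq Q _ (Nat.lt_succ_self _), Finset.mul_sum]
  have h4 : ∑ x ∈ Finset.range n, |((monomial n c * Q).coeff x : ℝ)| = 0 := by
    refine Finset.sum_eq_zero ?_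
    intro i hi
    have := Finset.mem_range.1 hi
    rw [← C_mul_X_pow_eq_monomial, mul_assoc, coeff_C_mul, coeff_X_pow_mul', if_neg (by omega)]
    simp
  rw [h4, zero_add]
  refine Finset.sum_le_sum ?_
  intro i _
  rw [← C_mul_X_pow_eq_monomial, mul_assoc, coeff_C_mul, coeff_X_pow_mul', if_pos (by omega)]
  push_cast
  rw [abs_mul]
  simp

lemma len_mul (P Q : ℤ[X]) : len (P * Q) ≤ len P * len Q := by
  conv_lhs => rw [P.as_sum_range]
  rw [Finset.sum_mul]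
  refine (len_sum _ _).trans ?_
  refine (Finset.sum_le_sum (fun i _ => len_monomial_mul i (P.coeff i) Q)).trans ?_
  rw [← Finset.sum_mul, ← len_eq P _ (Nat.lt_succ_self _)]

lemma len_pow (P : ℤ[X]) (n : ℕ) : len (P ^ n) ≤ len P ^ n := by
  induction n with
  | zero => simp [len_one]
  | succ n ih =>
    rw [pow_succ, pow_succ]
    refine (len_mul _ _).trans ?_
    exact mul_le_mul_of_nonneg_right ih (len_nonneg _)

lemma len_C_mul (c : ℤ) (P : ℤ[X]) : len (C c * P) ≤ |(c : ℝ)| * len P := by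
  refine (len_mul _ _).trans ?_
  rw [len_C]

/-- Mignotte: the length of a factor. -/
lemma len_factor (P Q : ℤ[X]) (hQ : Q ≠ 0) (n : ℕ) (hn : P.natDegree ≤ n) :
    len P ≤ (n + 1) * (2 ^ n * len (P * Q)) := by
  refine len_le_of_coeff P n hn _ ?_
  intro i
  have h1 : (1 : ℝ) ≤ (Q.map (Int.castRingHom ℂ)).mahlerMeasure := by
    refine one_le_mahlerMeasure_of_one_le_norm_leadingCoeff ?_
    rw [Polynomial.leadingCoeff_map_of_injective (RingHom.injective_int _)]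
    have h5 : (1 : ℤ) ≤ |Q.leadingCoeff| := Int.one_le_abs (leadingCoeff_ne_zero.2 hQ)
    have h6 : (1 : ℝ) ≤ |(Q.leadingCoeff : ℝ)| := by exact_mod_cast h5
    simpa using h6
  have h2 := norm_coeff_le_choose_mul_mahlerMeasure_of_one_le_mahlerMeasure i
    (P.map (Int.castRingHom ℂ)) (Q.map (Int.castRingHom ℂ)) h1
  have h3 : ‖(P.map (Int.castRingHom ℂ)).coeff i‖ = |(P.coeff i : ℝ)| := by
    rw [coeff_map]; simp
  rw [h3] at h2
  refine h2.trans ?_
  have h4 : ((P.map (Int.castRingHom ℂ)).natDegree.choose i : ℝ) ≤ 2 ^ n := by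
    have h5 : (P.map (Int.castRingHom ℂ)).natDegree ≤ n := (Polynomial.natDegree_map_le).trans hn
    have h6 : (P.map (Int.castRingHom ℂ)).natDegree.choose i ≤ 2 ^ (P.map (Int.castRingHom ℂ)).natDegree :=
      Nat.choose_le_two_pow _ _
    have h7 : (2 : ℕ) ^ (P.map (Int.castRingHom ℂ)).natDegree ≤ 2 ^ n :=
      Nat.pow_le_pow_right (by norm_num) h5
    exact_mod_cast h6.trans h7
  refine mul_le_mul h4 ?_ (mahlerMeasure_nonneg _) (by positivity)
  rw [← Polynomial.map_mul]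
  refine (mahlerMeasure_le_sum_norm_coeff _).trans ?_
  rw [Polynomial.sum_over_range' _ _ ((P * Q).natDegree + 1) _]
  · rw [len_eq (P * Q) _ (Nat.lt_succ_self _)]
    refine Finset.sum_le_sum ?_
    intro j _
    rw [coeff_map]; simp
  · intro j; simp
  · have := Polynomial.natDegree_map_le (p := P * Q) (f := Int.castRingHom ℂ)
    omega


/-! ### Bezout relations over `ℤ` -/

lemma coprime_of_relprime (E F : ℤ[X]) (hE : E ≠ 0) (h : IsRelPrime E F) :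
    IsCoprime (E.map (Int.castRingHom ℚ)) (F.map (Int.castRingHom ℚ)) := by
  classical
  have hinj : Function.Injective (Int.castRingHom ℚ) := RingHom.injective_int _
  have hE' : E.map (Int.castRingHom ℚ) ≠ 0 := (Polynomial.map_ne_zero_iff hinj).2 hE
  refine isCoprime_of_irreducible_dvd (fun hh => hE' hh.1) ?_
  intro z hz hzE hzF
  obtain ⟨f, hf, u, hu⟩ := WfDvdMonoid.exists_factors E hE
  have hzp : Prime z := hz.prime
  have h1 : z ∣ (f.map (fun e => e.map (Int.castRingHom ℚ))).prod *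
      ((u : ℤ[X]).map (Int.castRingHom ℚ)) := by
    have : E.map (Int.castRingHom ℚ) = (f.map (fun e => e.map (Int.castRingHom ℚ))).prod *
        ((u : ℤ[X]).map (Int.castRingHom ℚ)) := by
      rw [← hu, Polynomial.map_mul]
      congr 1
      have := map_multiset_prod (Polynomial.mapRingHom (Int.castRingHom ℚ)) f
      simpa [Polynomial.coe_mapRingHom] using this
    rwa [this] at hzE
  rcases hzp.dvd_or_dvd h1 with h2 | h2
  · obtain ⟨e, hef, hze⟩ := hzp.exists_mem_multiset_map_dvd h2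
    have hei := hf e hef
    have heE : e ∣ E := (Multiset.dvd_prod hef).trans ⟨_, hu.symm⟩
    have hdeg : e.natDegree ≠ 0 := by
      intro h0
      obtain ⟨c, hc⟩ := Polynomial.natDegree_eq_zero.1 h0
      have hc0 : c ≠ 0 := by
        rintro rfl
        apply hei.ne_zero
        rw [← hc]; simp
      apply hz.not_isUnit
      refine isUnit_of_dvd_unit hze ?_
      rw [← hc, Polynomial.map_C]
      refine Polynomial.isUnit_C.2 ?_
      refine isUnit_iff_ne_zero.2 ?_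
      simpa using hc0
    have hprim : e.IsPrimitive := hei.isPrimitive hdeg
    have heq : Irreducible (e.map (Int.castRingHom ℚ)) :=
      (IsPrimitive.Int.irreducible_iff_irreducible_map_cast hprim).1 hei
    have hass : Associated z (e.map (Int.castRingHom ℚ)) := hz.associated_of_dvd heq hze
    have h3 : e.map (Int.castRingHom ℚ) ∣ F.map (Int.castRingHom ℚ) := hass.symm.dvd.trans hzF
    have h4 : e ∣ F := (IsPrimitive.Int.dvd_iff_map_cast_dvd_map_cast e F hprim).2 h3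
    exact hei.not_isUnit (h heE h4)
  · apply hz.not_isUnit
    refine isUnit_of_dvd_unit h2 ?_
    exact (u.isUnit).map (Polynomial.mapRingHom (Int.castRingHom ℚ))

lemma bezout' (e : ℕ) (P Q : ℤ[X]) (T : ℝ) (hT : 1 ≤ T) (hP : P.natDegree ≤ e)
    (hQ : Q.natDegree ≤ e)
    (hco : IsCoprime (P.map (Int.castRingHom ℚ)) (Q.map (Int.castRingHom ℚ)))
    (hlP : len P ≤ T) (hlQ : len Q ≤ T) :
    ∃ (p q : ℤ[X]) (r : ℤ), r ≠ 0 ∧ P * p + Q * q = C r ∧
      |(r : ℝ)| ≤ ((2 * e).factorial : ℝ) * T ^ (2 * e + 1) := by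
  have hf1 : (1 : ℝ) ≤ ((2 * e).factorial : ℝ) := by
    exact_mod_cast Nat.one_le_iff_ne_zero.2 (Nat.factorial_ne_zero _)
  have hT0 : 0 ≤ T := by linarith
  by_cases hpos : 0 < P.natDegree + Q.natDegree
  · obtain ⟨p, q, r, hr, -, -, h1, h2⟩ := bezout_bound e P Q T hT hP hQ hco
      (fun i => (coeff_le_len P i).trans hlP) (fun i => (coeff_le_len Q i).trans hlQ) hpos
    refine ⟨p, q, r, hr, h1, h2.trans ?_⟩
    have : T ^ (2 * e) ≤ T ^ (2 * e + 1) := pow_le_pow_right₀ hT (by omega)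
    gcongr
  · have hP0 : P.natDegree = 0 := by omega
    have hQ0 : Q.natDegree = 0 := by omega
    obtain ⟨x, hx⟩ := Polynomial.natDegree_eq_zero.1 hP0
    obtain ⟨y, hy⟩ := Polynomial.natDegree_eq_zero.1 hQ0
    have hTT : T ≤ ((2 * e).factorial : ℝ) * T ^ (2 * e + 1) := by
      have h1 : T ≤ T ^ (2 * e + 1) := by
        conv_lhs => rw [← pow_one T]
        exact pow_le_pow_right₀ hT (by omega)
      have h2 : T ^ (2 * e + 1) ≤ ((2 * e).factorial : ℝ) * T ^ (2 * e + 1) :=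
        le_mul_of_one_le_left (by positivity) hf1
      exact h1.trans h2
    by_cases hx0 : x = 0
    · have hy0 : y ≠ 0 := by
        rintro rfl
        subst hx0
        rw [← hx, ← hy] at hco
        simp only [C_0, Polynomial.map_zero, isCoprime_zero_left] at hco
        exact not_isUnit_zero hco
      refine ⟨0, 1, y, hy0, ?_, ?_⟩
      · rw [← hy]; simp
      · refine le_trans ?_ hTT
        rw [← len_C, hy]
        exact hlQ
    · refine ⟨1, 0, x, hx0, ?_, ?_⟩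
      · rw [← hx]; simp
      · refine le_trans ?_ hTT
        rw [← len_C, hx]
        exact hlP

/-- If `p ∥ E(w)` and `p² ∣ F(w)` then `p ∣ F'(w)`, unless `p` divides a fixed integer. -/
lemma key_gcd (n : ℕ) (E F : ℤ[X]) (hE : E ≠ 0) (hF : F ≠ 0) (B : ℝ) (hB : 1 ≤ B)
    (hnE : E.natDegree ≤ n) (hnF : F.natDegree ≤ n) (hlE : len E ≤ B) (hlF : len F ≤ B) :
    ∃ ρ : ℤ, ρ ≠ 0 ∧
      |(ρ : ℝ)| ≤ ((2 * n).factorial : ℝ) * (((n : ℝ) + 1) * (2 ^ n * B)) ^ (2 * n + 1) ∧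
      ∀ p : ℕ, p.Prime → ¬ (p : ℤ) ∣ ρ → ∀ w : ℤ, (p : ℤ) ∣ E.eval w → ¬ (p : ℤ) ^ 2 ∣ E.eval w →
        (p : ℤ) ^ 2 ∣ F.eval w → (p : ℤ) ∣ F.derivative.eval w := by
  classical
  obtain ⟨E1, F1, h, hrel, hE1, hF1⟩ := UniqueFactorizationMonoid.exists_reduced_factors E hE F
  have hh0 : h ≠ 0 := by rintro rfl; apply hE; rw [← hE1]; simp
  have hE10 : E1 ≠ 0 := by rintro rfl; apply hE; rw [← hE1]; simp
  have hF10 : F1 ≠ 0 := by rintro rfl; apply hF; rw [← hF1]; simp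
  have hdE : E1.natDegree ≤ n := by
    have := Polynomial.natDegree_le_of_dvd (Dvd.intro_left _ hE1) hE
    omega
  have hdF : F1.natDegree ≤ n := by
    have := Polynomial.natDegree_le_of_dvd (Dvd.intro_left _ hF1) hF
    omega
  set T : ℝ := ((n : ℝ) + 1) * (2 ^ n * B) with hTdef
  have hT1 : 1 ≤ T := by
    have h1 : (1 : ℝ) ≤ (n : ℝ) + 1 := by
      have : (0 : ℝ) ≤ n := Nat.cast_nonneg n
      linarith
    have h2 : (1 : ℝ) ≤ 2 ^ n := one_le_pow₀ (by norm_num)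
    have h3 : (1 : ℝ) ≤ 2 ^ n * B := one_le_mul_of_one_le_of_one_le h2 hB
    exact one_le_mul_of_one_le_of_one_le h1 h3
  have hlE1 : len E1 ≤ T := by
    refine (len_factor E1 h hh0 n hdE).trans ?_
    rw [mul_comm E1 h, hE1, hTdef]
    gcongr
  have hlF1 : len F1 ≤ T := by
    refine (len_factor F1 h hh0 n hdF).trans ?_
    rw [mul_comm F1 h, hF1, hTdef]
    gcongr
  obtain ⟨U, V, r, hr, hbez, hrb⟩ := bezout' n E1 F1 T hT1 hdE hdF
    (coprime_of_relprime E1 F1 hE10 hrel) hlE1 hlF1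
  refine ⟨r, hr, hrb, ?_⟩
  intro p hp hpr w hpE hpE2 hpF
  have hpz : Prime (p : ℤ) := Nat.prime_iff_prime_int.1 hp
  have e1 : E.eval w = h.eval w * E1.eval w := by rw [← hE1, eval_mul]
  have e2 : F.eval w = h.eval w * F1.eval w := by rw [← hF1, eval_mul]
  have e3 : r * h.eval w = U.eval w * E.eval w + V.eval w * F.eval w := by
    have := congrArg (fun q => q.eval w) hbez
    simp only [eval_add, eval_mul, eval_C] at this
    rw [e1, e2, ← this]; ring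
  have hph : (p : ℤ) ∣ h.eval w := by
    have h1 : (p : ℤ) ∣ r * h.eval w := by
      rw [e3]
      refine dvd_add (Dvd.dvd.mul_left hpE _) (Dvd.dvd.mul_left ?_ _)
      exact (dvd_pow_self _ (by norm_num)).trans hpF
    exact (hpz.dvd_or_dvd h1).resolve_left hpr
  have hpF1 : (p : ℤ) ∣ F1.eval w := by
    by_contra hno
    apply hpE2
    rw [e1]
    refine Dvd.dvd.mul_right ?_ _
    rw [e2] at hpF
    have hco : IsCoprime ((p : ℤ) ^ 2) (F1.eval w) := by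
      refine IsCoprime.pow_left ?_
      exact (Prime.coprime_iff_not_dvd hpz).2 hno
    exact hco.dvd_of_dvd_mul_right hpF
  have e4 : F.derivative.eval w =
      h.derivative.eval w * F1.eval w + h.eval w * F1.derivative.eval w := by
    rw [← hF1, derivative_mul, eval_add, eval_mul, eval_mul]
  rw [e4]
  exact dvd_add (Dvd.dvd.mul_left hpF1 _) (Dvd.dvd.mul_right hph _)

/-! ### Polynomial bounds -/

/-- `f` is bounded by a fixed power of `Z` for `Z ≥ 2`. -/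
def PB (f : ℝ → ℝ) : Prop := ∃ m : ℕ, ∀ Z : ℝ, 2 ≤ Z → 0 ≤ f Z ∧ f Z ≤ Z ^ m

lemma PB.const (c : ℝ) (hc : 0 ≤ c) : PB (fun _ => c) := by
  obtain ⟨m, hm⟩ := exists_nat_ge c
  refine ⟨m, fun Z hZ => ⟨hc, hm.trans ?_⟩⟩
  have h1 : (m : ℝ) ≤ 2 ^ m := by exact_mod_cast (Nat.lt_two_pow_self).le
  exact h1.trans (pow_le_pow_left₀ (by norm_num) hZ m)

lemma PB.id : PB (fun Z => Z) := ⟨1, fun Z hZ => ⟨by linarith, by simp⟩⟩

lemma PB.mul {f g : ℝ → ℝ} (hf : PB f) (hg : PB g) : PB (fun Z => f Z * g Z) := by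
  obtain ⟨m, hm⟩ := hf
  obtain ⟨n, hn⟩ := hg
  refine ⟨m + n, fun Z hZ => ⟨mul_nonneg (hm Z hZ).1 (hn Z hZ).1, ?_⟩⟩
  rw [pow_add]
  exact mul_le_mul (hm Z hZ).2 (hn Z hZ).2 (hn Z hZ).1 (by positivity)

lemma PB.add {f g : ℝ → ℝ} (hf : PB f) (hg : PB g) : PB (fun Z => f Z + g Z) := by
  obtain ⟨m, hm⟩ := hf
  obtain ⟨n, hn⟩ := hg
  refine ⟨max m n + 1, fun Z hZ => ⟨add_nonneg (hm Z hZ).1 (hn Z hZ).1, ?_⟩⟩
  have h1 : Z ^ m ≤ Z ^ (max m n) := pow_le_pow_right₀ (by linarith) (le_max_left _ _)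
  have h2 : Z ^ n ≤ Z ^ (max m n) := pow_le_pow_right₀ (by linarith) (le_max_right _ _)
  have h3 := (hm Z hZ).2
  have h4 := (hn Z hZ).2
  rw [pow_succ]
  have h5 : 0 ≤ Z ^ (max m n) := by positivity
  nlinarith

lemma PB.pow {f : ℝ → ℝ} (hf : PB f) (k : ℕ) : PB (fun Z => f Z ^ k) := by
  obtain ⟨m, hm⟩ := hf
  refine ⟨m * k, fun Z hZ => ⟨pow_nonneg (hm Z hZ).1 k, ?_⟩⟩
  rw [pow_mul]
  exact pow_le_pow_left₀ (hm Z hZ).1 (hm Z hZ).2 k

/-! ### Counting lemmas -/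

lemma primes_card (Z : ℝ) (hZ : 2 ≤ Z) (m : ℕ) (R : ℤ) (hR : R ≠ 0) (hRB : |(R : ℝ)| ≤ Z ^ m)
    (P : Finset ℕ) (hP : ∀ p ∈ P, p.Prime ∧ Z ≤ p ∧ (p : ℤ) ∣ R) : P.card ≤ m := by
  have h1 : ∏ p ∈ P, p ∣ R.natAbs := by
    refine Finset.prod_primes_dvd _ (fun p hp => (Nat.prime_iff.1 (hP p hp).1)) ?_
    intro p hp
    exact Int.natCast_dvd.1 (hP p hp).2.2
  have h2 : ∏ p ∈ P, p ≤ R.natAbs := Nat.le_of_dvd (Int.natAbs_pos.2 hR) h1
  have h3 : Z ^ P.card ≤ ∏ p ∈ P, (p : ℝ) := by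
    rw [← Finset.prod_const]
    refine Finset.prod_le_prod (fun _ _ => by linarith) ?_
    intro p hp
    exact (hP p hp).2.1
  have h4 : ((R.natAbs : ℕ) : ℝ) = |(R : ℝ)| := by
    rw [Nat.cast_natAbs]; push_cast; rfl
  have h5 : Z ^ P.card ≤ Z ^ m := by
    refine h3.trans (le_trans ?_ hRB)
    rw [← h4]
    have h6 : ((∏ p ∈ P, p : ℕ) : ℝ) ≤ (R.natAbs : ℝ) := by exact_mod_cast h2
    rw [Nat.cast_prod] at h6
    exact h6
  exact (pow_le_pow_iff_right₀ (by linarith)).1 h5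

lemma n_count (g : ℤ[X]) (hg : g.Monic) (L : ℕ) (Z : ℝ) (p : ℕ) (hp : p.Prime)
    (hpZ : Z ≤ p) (S : Finset ℤ)
    (hS : ∀ n ∈ S, |(n : ℝ)| ≤ L * Z ∧ (p : ℤ) ∣ g.eval n) :
    S.card ≤ g.natDegree * (2 * L + 3) := by
  classical
  have : Fact p.Prime := ⟨hp⟩
  have hg' : g.map (Int.castRingHom (ZMod p)) ≠ 0 := (hg.map _).ne_zero
  set R := (g.map (Int.castRingHom (ZMod p))).roots.toFinset with hR
  set I := Finset.Icc (-((L : ℤ) + 1)) ((L : ℤ) + 1) with hI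
  have hcard : (R ×ˢ I).card ≤ g.natDegree * (2 * L + 3) := by
    rw [Finset.card_product]
    refine Nat.mul_le_mul ?_ ?_
    · refine (Multiset.toFinset_card_le _).trans ?_
      refine (Polynomial.card_roots' _).trans ?_
      exact Polynomial.natDegree_map_le
    · rw [hI, Int.card_Icc]
      omega
  refine le_trans ?_ hcard
  refine Finset.card_le_card_of_injOn (fun n : ℤ => ((n : ZMod p), n / (p : ℤ))) ?_ ?_
  · intro n hn
    obtain ⟨h1, h2⟩ := hS n hn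
    have hp0 : (0 : ℝ) < p := by exact_mod_cast hp.pos
    refine Finset.mem_coe.2 (Finset.mem_product.2 ⟨?_, ?_⟩)
    · rw [hR, Multiset.mem_toFinset, Polynomial.mem_roots hg', IsRoot.def]
      have h3 : (g.map (Int.castRingHom (ZMod p))).eval (n : ZMod p) =
          ((g.eval n : ℤ) : ZMod p) := by
        have := Polynomial.eval_map (f := Int.castRingHom (ZMod p)) (p := g) (x := (n : ZMod p))
        rw [this]
        have h4 := Polynomial.eval₂_at_apply (f := Int.castRingHom (ZMod p)) (p := g) n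
        simpa only [eq_intCast] using h4
      rw [h3]
      exact (ZMod.intCast_zmod_eq_zero_iff_dvd _ _).2 h2
    · have h5 : |(n : ℝ)| ≤ L * p := h1.trans (by gcongr)
      have h6 : |n| ≤ L * p := by exact_mod_cast h5
      have hpz : (0 : ℤ) < p := by exact_mod_cast hp.pos
      rw [abs_le] at h6
      rw [hI, Finset.mem_Icc]
      constructor
      · rw [Int.le_ediv_iff_mul_le hpz]
        nlinarith [h6.1]
      · have h7 : n / (p : ℤ) < (L : ℤ) + 2 := by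
          rw [Int.ediv_lt_iff_lt_mul hpz]
          nlinarith [h6.2]
        change n / (p : ℤ) ≤ (L : ℤ) + 1
        omega
  · intro n hn n' hn' h
    have h1 : ((n : ℤ) : ZMod p) = (n' : ZMod p) := (Prod.mk.inj h).1
    have h2 : n / (p : ℤ) = n' / (p : ℤ) := (Prod.mk.inj h).2
    have h3 : n % (p : ℤ) = n' % (p : ℤ) := (ZMod.intCast_eq_intCast_iff' _ _ _).1 h1
    calc n = p * (n / p) + n % p := (Int.mul_ediv_add_emod n p).symm
      _ = p * (n' / p) + n' % p := by rw [h2, h3]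
      _ = n' := Int.mul_ediv_add_emod n' p

/-- A set of `w` whose primes `p w` divide a fixed integer is small. -/
lemma exc_count (g : ℤ[X]) (hg : g.Monic) (L k m : ℕ) (Z : ℝ) (hZ : 2 ≤ Z) (R : ℤ) (hR : R ≠ 0)
    (hRB : |(R : ℝ)| ≤ Z ^ m) (Q : ℤ[X]) (hQ : Q.natDegree ≤ k) (hQ0 : 0 < Q.natDegree) (Δ : ℤ)
    (T : Finset ℤ) (n : ℤ → ℤ) (p : ℤ → ℕ)
    (hT : ∀ w ∈ T, Q.eval w = Δ * n w ∧ |(n w : ℝ)| ≤ L * Z ∧ (p w).Prime ∧ Z ≤ p w ∧
      (p w : ℤ) ∣ g.eval (n w) ∧ (p w : ℤ) ∣ R) :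
    T.card ≤ k * (g.natDegree * (2 * L + 3)) * m := by
  classical
  have h1 : (T.image p).card ≤ m := by
    refine primes_card Z hZ m R hR hRB _ ?_
    intro q hq
    obtain ⟨w, hw, rfl⟩ := Finset.mem_image.1 hq
    obtain ⟨-, -, h3, h4, -, h6⟩ := hT w hw
    exact ⟨h3, h4, h6⟩
  have h2 : T.card ≤ (k * (g.natDegree * (2 * L + 3))) * (T.image p).card := by
    refine Finset.card_le_mul_card_image T _ ?_
    intro q hq
    obtain ⟨w0, hw0, hw0q⟩ := Finset.mem_image.1 hq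
    set T' := T.filter (fun w => p w = q) with hT'
    have hqp : q.Prime := by rw [← hw0q]; exact (hT w0 hw0).2.2.1
    have hqZ : Z ≤ q := by rw [← hw0q]; exact (hT w0 hw0).2.2.2.1
    have h3 : (T'.image n).card ≤ g.natDegree * (2 * L + 3) := by
      refine n_count g hg L Z q hqp hqZ _ ?_
      intro ν hν
      obtain ⟨w, hw, rfl⟩ := Finset.mem_image.1 hν
      rw [hT', Finset.mem_filter] at hw
      obtain ⟨-, h4, -, -, h7, -⟩ := hT w hw.1
      rw [hw.2] at h7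
      exact ⟨h4, h7⟩
    have h4 : T'.card ≤ k * (T'.image n).card := by
      refine Finset.card_le_mul_card_image T' _ ?_
      intro ν hν
      have hne : Q - C (Δ * ν) ≠ 0 := by
        intro h
        have : Q = C (Δ * ν) := sub_eq_zero.1 h
        rw [this, natDegree_C] at hQ0
        exact absurd hQ0 (lt_irrefl 0)
      have h5 : (T'.filter (fun w => n w = ν)) ⊆ (Q - C (Δ * ν)).roots.toFinset := by
        intro w hw
        rw [Finset.mem_filter, hT', Finset.mem_filter] at hw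
        rw [Multiset.mem_toFinset, Polynomial.mem_roots hne, IsRoot.def, eval_sub, eval_C,
          (hT w hw.1.1).1, hw.2, sub_self]
      refine (Finset.card_le_card h5).trans ?_
      refine (Multiset.toFinset_card_le _).trans ?_
      refine (Polynomial.card_roots' _).trans ?_
      rw [Polynomial.natDegree_sub_C]
      exact hQ
    calc T'.card ≤ k * (T'.image n).card := h4
      _ ≤ k * (g.natDegree * (2 * L + 3)) := Nat.mul_le_mul_left _ h3
  exact h2.trans (Nat.mul_le_mul_left _ h1)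

/-! ### Vectors of polynomials without common zero -/

lemma aeval_map_rat (P : ℤ[X]) (z : ℂ) :
    aeval z (P.map (Int.castRingHom ℚ)) = aeval z P := by
  have := Polynomial.aeval_map_algebraMap (A := ℚ) (B := ℂ) z P
  rwa [algebraMap_int_eq] at this

lemma coprime_of_no_root (P Q : ℤ[X]) (h : ∀ z : ℂ, aeval z P ≠ 0 ∨ aeval z Q ≠ 0) :
    IsCoprime (P.map (Int.castRingHom ℚ)) (Q.map (Int.castRingHom ℚ)) := by
  rw [Polynomial.isCoprime_iff_aeval_ne_zero_of_isAlgClosed ℚ ℂ]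
  intro z
  rw [aeval_map_rat, aeval_map_rat]
  exact h z

lemma exists_rhoA (d a : ℕ) (A : Fin d → ℤ[X]) (B : ℝ) (hB : 1 ≤ B)
    (ha : ∀ i, (A i).natDegree ≤ a) (hl : ∀ i, len (A i) ≤ B)
    (h0 : ∀ z : ℂ, ∃ i, aeval z (A i) ≠ 0) :
    ∃ ρ : ℤ, ρ ≠ 0 ∧
      |(ρ : ℝ)| ≤ ((2 * a).factorial : ℝ) * (((d : ℝ) + 1) * (((a : ℝ) * d + 1) ^ d * B)) ^ (2 * a + 1) ∧
      ∀ p : ℕ, p.Prime → ¬ (p : ℤ) ∣ ρ → ∀ w : ℤ, ∃ i, ¬ (p : ℤ) ∣ (A i).eval w := by
  classical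
  obtain ⟨i0, hi0⟩ := h0 0
  set P := A i0 with hP
  have hP0 : P ≠ 0 := by rintro h; rw [h] at hi0; simp at hi0
  set r : ℂ → ℂ[X] := fun z => ∑ i : Fin d, C (aeval z (A i)) * X ^ (i : ℕ) with hr
  have hr0 : ∀ z, r z ≠ 0 := by
    intro z hz
    obtain ⟨i, hi⟩ := h0 z
    have h1 : (r z).coeff (i : ℕ) = aeval z (A i) := by
      rw [hr]
      simp only [finsetSum_coeff, coeff_C_mul, coeff_X_pow]
      rw [Finset.sum_eq_single i]
      · simp
      · intro j _ hj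
        rw [if_neg]
        · simp
        · intro h; exact hj (Fin.ext h.symm)
      · intro h; exact absurd (Finset.mem_univ i) h
    rw [hz] at h1
    simp at h1
    exact hi h1.symm
  have hrd : ∀ z, (r z).natDegree ≤ d := by
    intro z
    rw [hr]
    refine Polynomial.natDegree_sum_le_of_forall_le _ _ ?_
    intro i _
    refine (Polynomial.natDegree_C_mul_X_pow_le _ _).trans i.2.le
  set Rt := (P.map (Int.castRingHom ℂ)).roots.toFinset with hRt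
  have hRtc : Rt.card ≤ a := by
    refine (Multiset.toFinset_card_le _).trans ?_
    refine (Polynomial.card_roots' _).trans ?_
    exact (Polynomial.natDegree_map_le).trans (ha i0)
  set H : ℂ[X] := ∏ z ∈ Rt, r z with hH
  have hH0 : H ≠ 0 := Finset.prod_ne_zero_iff.2 (fun z _ => hr0 z)
  have hHd : H.natDegree ≤ a * d := by
    refine (Polynomial.natDegree_prod_le _ _).trans ?_
    refine (Finset.sum_le_card_nsmul _ _ d (fun z _ => hrd z)).trans ?_
    rw [smul_eq_mul]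
    exact Nat.mul_le_mul_right _ hRtc
  obtain ⟨t, htr, ht⟩ : ∃ t ∈ Finset.range (a * d + 1), H.eval (t : ℂ) ≠ 0 := by
    by_contra hcon
    push Not at hcon
    apply hH0
    refine Polynomial.eq_zero_of_natDegree_lt_card_of_eval_eq_zero' H
      ((Finset.range (a * d + 1)).image (fun t : ℕ => (t : ℂ))) ?_ ?_
    · intro x hx
      obtain ⟨t, ht, rfl⟩ := Finset.mem_image.1 hx
      exact hcon t ht
    · rw [Finset.card_image_of_injective _ Nat.cast_injective, Finset.card_range]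
      omega
  set Q : ℤ[X] := ∑ i : Fin d, C ((t : ℤ) ^ (i : ℕ)) * A i with hQ
  have hQd : Q.natDegree ≤ a := by
    refine Polynomial.natDegree_sum_le_of_forall_le _ _ ?_
    intro i _
    refine (Polynomial.natDegree_C_mul_le _ _).trans (ha i)
  have hco : IsCoprime (P.map (Int.castRingHom ℚ)) (Q.map (Int.castRingHom ℚ)) := by
    refine coprime_of_no_root P Q ?_
    intro z
    by_contra hcon
    push Not at hcon
    have hz : z ∈ Rt := by
      rw [hRt, Multiset.mem_toFinset, Polynomial.mem_roots, IsRoot.def]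
      · rw [Polynomial.eval_map]
        have := hcon.1
        rw [Polynomial.aeval_def] at this
        simpa using this
      · exact (Polynomial.map_ne_zero_iff (RingHom.injective_int _)).2 hP0
    have h1 : (r z).eval (t : ℂ) ≠ 0 := by
      intro h
      apply ht
      rw [hH, Polynomial.eval_prod]
      exact Finset.prod_eq_zero hz h
    apply h1
    rw [← hcon.2, hr, hQ]
    simp only [eval_finsetSum, eval_mul, eval_C, eval_pow, eval_X, map_sum, map_mul, map_pow]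
    refine Finset.sum_congr rfl ?_
    intro i _
    rw [mul_comm]
    simp
  set T : ℝ := ((d : ℝ) + 1) * (((a : ℝ) * d + 1) ^ d * B) with hT
  have hx1 : (1 : ℝ) ≤ (a : ℝ) * d + 1 := by
    have : (0 : ℝ) ≤ (a : ℝ) * d := by positivity
    linarith
  have hx2 : (1 : ℝ) ≤ ((a : ℝ) * d + 1) ^ d := one_le_pow₀ hx1
  have hBT : B ≤ T := by
    have h1 : B ≤ ((a : ℝ) * d + 1) ^ d * B := le_mul_of_one_le_left (by linarith) hx2
    have h2 : ((a : ℝ) * d + 1) ^ d * B ≤ T := by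
      rw [hT]
      refine le_mul_of_one_le_left (by positivity) ?_
      have : (0 : ℝ) ≤ d := Nat.cast_nonneg d
      linarith
    exact h1.trans h2
  have hlQ : len Q ≤ T := by
    rw [hQ]
    refine (len_sum _ _).trans ?_
    have h1 : ∀ i ∈ (Finset.univ : Finset (Fin d)),
        len (C ((t : ℤ) ^ (i : ℕ)) * A i) ≤ ((a : ℝ) * d + 1) ^ d * B := by
      intro i _
      refine (len_C_mul _ _).trans ?_
      refine mul_le_mul ?_ (hl i) (len_nonneg _) (by positivity)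
      push_cast
      rw [abs_of_nonneg (by positivity)]
      have ht1 : (t : ℝ) ≤ (a : ℝ) * d + 1 := by
        have := Finset.mem_range.1 htr
        have h3 : (t : ℝ) ≤ ((a * d + 1 : ℕ) : ℝ) := by exact_mod_cast this.le
        push_cast at h3
        exact h3
      calc (t : ℝ) ^ (i : ℕ) ≤ ((a : ℝ) * d + 1) ^ (i : ℕ) := by gcongr
        _ ≤ ((a : ℝ) * d + 1) ^ d := pow_le_pow_right₀ hx1 i.2.le
    refine (Finset.sum_le_card_nsmul _ _ _ h1).trans ?_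
    rw [Finset.card_univ, Fintype.card_fin, nsmul_eq_mul, hT]
    gcongr
    linarith
  obtain ⟨U, V, ρ, hρ, hbez, hρb⟩ := bezout' a P Q T (hB.trans hBT) (ha i0) hQd hco
    ((hl i0).trans hBT) hlQ
  refine ⟨ρ, hρ, hρb, ?_⟩
  intro p hp hpr w
  by_contra hcon
  push Not at hcon
  apply hpr
  have e1 : ρ = P.eval w * U.eval w + Q.eval w * V.eval w := by
    have := congrArg (fun q => q.eval w) hbez
    simp only [eval_add, eval_mul, eval_C] at this
    exact this.symm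
  rw [e1]
  refine dvd_add (Dvd.dvd.mul_right (hcon i0) _) (Dvd.dvd.mul_right ?_ _)
  rw [hQ, eval_finsetSum]
  refine Finset.dvd_sum ?_
  intro i _
  rw [eval_mul]
  exact Dvd.dvd.mul_left (hcon i) _

/-! ### One line: `n = Q(w)/Δ` -/

lemma eval_E (d : ℕ) (A : Fin d → ℤ[X]) (Q : ℤ[X]) (Δ w n : ℤ) (h : Q.eval w = Δ * n) :
    (∑ i : Fin d, A i * Q ^ (i : ℕ) * C (Δ ^ (d - 1 - (i : ℕ)))).eval w =
      Δ ^ (d - 1) * ∑ i : Fin d, (A i).eval w * n ^ (i : ℕ) := by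
  rw [eval_finsetSum, Finset.mul_sum]
  refine Finset.sum_congr rfl ?_
  intro i _
  rw [eval_mul, eval_mul, eval_pow, eval_C, h, mul_pow]
  have hi := i.2
  have h1 : Δ ^ (d - 1) = Δ ^ (i : ℕ) * Δ ^ (d - 1 - (i : ℕ)) := by
    rw [← pow_add]; congr 1; omega
  rw [h1]; ring

lemma eval_F (g : ℤ[X]) (d : ℕ) (hd : g.natDegree = d) (Q : ℤ[X]) (Δ w n : ℤ)
    (h : Q.eval w = Δ * n) :
    (∑ i ∈ Finset.range (d + 1), C (g.coeff i * Δ ^ (d - i)) * Q ^ i).eval w =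
      Δ ^ d * g.eval n := by
  rw [eval_finsetSum, Polynomial.eval_eq_sum_range' (n := d + 1) (by omega), Finset.mul_sum]
  refine Finset.sum_congr rfl ?_
  intro i hi
  have hi' := Finset.mem_range.1 hi
  rw [eval_mul, eval_pow, eval_C, h, mul_pow]
  have h1 : Δ ^ d = Δ ^ i * Δ ^ (d - i) := by
    rw [← pow_add]; congr 1; omega
  rw [h1]; ring

lemma eval_F' (g : ℤ[X]) (d : ℕ) (hd : g.natDegree = d) (Q : ℤ[X]) (Δ w n : ℤ)
    (h : Q.eval w = Δ * n) :
    (∑ i ∈ Finset.range (d + 1), C (g.coeff i * Δ ^ (d - i)) * Q ^ i).derivative.eval w =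
      Δ ^ (d - 1) * g.derivative.eval n * Q.derivative.eval w := by
  rw [derivative_sum, eval_finsetSum, Polynomial.derivative_eval,
    Polynomial.sum_over_range' g _ (d + 1) (by omega), Finset.mul_sum, Finset.sum_mul]
  · refine Finset.sum_congr rfl ?_
    intro i hi
    have hi' := Finset.mem_range.1 hi
    rw [derivative_C_mul, derivative_pow]
    simp only [eval_mul, eval_C, eval_pow, h, mul_pow]
    rcases Nat.eq_zero_or_pos i with h0 | h0
    · subst h0; simp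
    · have h1 : Δ ^ (d - 1) = Δ ^ (i - 1) * Δ ^ (d - i) := by
        rw [← pow_add]; congr 1; omega
      rw [h1]; ring
  · intro i; simp

lemma len_E (d : ℕ) (A : Fin d → ℤ[X]) (Q : ℤ[X]) (Δ : ℤ) (B : ℝ) (hB : 1 ≤ B)
    (hA : ∀ i, len (A i) ≤ B) (hQ : len Q ≤ B) (hΔ : |(Δ : ℝ)| ≤ B) :
    len (∑ i : Fin d, A i * Q ^ (i : ℕ) * C (Δ ^ (d - 1 - (i : ℕ)))) ≤
      (d : ℝ) * (B * B ^ d * B ^ d) := by
  have h1 : ∀ i ∈ (Finset.univ : Finset (Fin d)),
      len (A i * Q ^ (i : ℕ) * C (Δ ^ (d - 1 - (i : ℕ)))) ≤ B * B ^ d * B ^ d := by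
    intro i _
    refine (len_mul _ _).trans ?_
    refine mul_le_mul ?_ ?_ (len_nonneg _) (by positivity)
    · refine (len_mul _ _).trans ?_
      refine mul_le_mul (hA i) ?_ (len_nonneg _) (by positivity)
      refine (len_pow _ _).trans ?_
      calc len Q ^ (i : ℕ) ≤ B ^ (i : ℕ) := pow_le_pow_left₀ (len_nonneg _) hQ _
        _ ≤ B ^ d := pow_le_pow_right₀ hB i.2.le
    · rw [len_C]
      push_cast
      rw [abs_pow]
      calc |(Δ : ℝ)| ^ (d - 1 - (i : ℕ)) ≤ B ^ (d - 1 - (i : ℕ)) :=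
            pow_le_pow_left₀ (abs_nonneg _) hΔ _
        _ ≤ B ^ d := pow_le_pow_right₀ hB (by omega)
  refine (len_sum _ _).trans ((Finset.sum_le_card_nsmul _ _ _ h1).trans ?_)
  rw [Finset.card_univ, Fintype.card_fin, nsmul_eq_mul]

lemma len_F (g : ℤ[X]) (d : ℕ) (Q : ℤ[X]) (Δ : ℤ) (B : ℝ) (hB : 1 ≤ B)
    (hQ : len Q ≤ B) (hΔ : |(Δ : ℝ)| ≤ B) :
    len (∑ i ∈ Finset.range (d + 1), C (g.coeff i * Δ ^ (d - i)) * Q ^ i) ≤
      ((d : ℝ) + 1) * (len g * B ^ d * B ^ d) := by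
  have h1 : ∀ i ∈ Finset.range (d + 1),
      len (C (g.coeff i * Δ ^ (d - i)) * Q ^ i) ≤ len g * B ^ d * B ^ d := by
    intro i hi
    have hi' := Finset.mem_range.1 hi
    refine (len_C_mul _ _).trans ?_
    refine mul_le_mul ?_ ?_ (len_nonneg _) (by have := len_nonneg g; positivity)
    · push_cast
      rw [abs_mul, abs_pow]
      refine mul_le_mul (coeff_le_len g i) ?_ (by positivity) (len_nonneg _)
      calc |(Δ : ℝ)| ^ (d - i) ≤ B ^ (d - i) := pow_le_pow_left₀ (abs_nonneg _) hΔ _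
        _ ≤ B ^ d := pow_le_pow_right₀ hB (by omega)
    · refine (len_pow _ _).trans ?_
      calc len Q ^ i ≤ B ^ i := pow_le_pow_left₀ (len_nonneg _) hQ _
        _ ≤ B ^ d := pow_le_pow_right₀ hB (by omega)
  refine (len_sum _ _).trans ((Finset.sum_le_card_nsmul _ _ _ h1).trans ?_)
  rw [Finset.card_range, nsmul_eq_mul]
  push_cast
  exact le_rfl

lemma natDegree_E (d a k : ℕ) (A : Fin d → ℤ[X]) (Q : ℤ[X]) (Δ : ℤ)
    (hA : ∀ i, (A i).natDegree ≤ a) (hQ : Q.natDegree ≤ k) :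
    (∑ i : Fin d, A i * Q ^ (i : ℕ) * C (Δ ^ (d - 1 - (i : ℕ)))).natDegree ≤ a + k * d := by
  refine Polynomial.natDegree_sum_le_of_forall_le _ _ ?_
  intro i _
  refine (Polynomial.natDegree_mul_C_le _ _).trans ?_
  refine (Polynomial.natDegree_mul_le).trans ?_
  have h1 : (Q ^ (i : ℕ)).natDegree ≤ k * d := by
    refine (Polynomial.natDegree_pow_le).trans ?_
    rw [mul_comm]
    exact Nat.mul_le_mul hQ i.2.le
  exact Nat.add_le_add (hA i) h1

lemma natDegree_F (g : ℤ[X]) (d a k : ℕ) (Q : ℤ[X]) (Δ : ℤ) (hQ : Q.natDegree ≤ k) :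
    (∑ i ∈ Finset.range (d + 1), C (g.coeff i * Δ ^ (d - i)) * Q ^ i).natDegree ≤ a + k * d := by
  refine Polynomial.natDegree_sum_le_of_forall_le _ _ ?_
  intro i hi
  have hi' := Finset.mem_range.1 hi
  refine (Polynomial.natDegree_C_mul_le _ _).trans ?_
  refine (Polynomial.natDegree_pow_le).trans ?_
  have h1 : i * Q.natDegree ≤ k * d := by
    rw [mul_comm]
    exact Nat.mul_le_mul hQ (by omega)
  omega

/-- an irreducible integer polynomial of degree `≥ 2` has no integer zero -/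
lemma eval_ne_zero_of_irreducible (g : ℤ[X]) (hirr : Irreducible g) (hd : 2 ≤ g.natDegree)
    (n : ℤ) : g.eval n ≠ 0 := by
  intro h
  obtain ⟨q, hq⟩ := Polynomial.dvd_iff_isRoot.2 h
  rcases hirr.isUnit_or_isUnit hq with h1 | h1
  · exact Polynomial.not_isUnit_X_sub_C n h1
  · have h2 : q.natDegree = 0 := Polynomial.natDegree_eq_zero_of_isUnit h1
    have hq0 : q ≠ 0 := by rintro rfl; exact hirr.ne_zero (by rw [hq]; simp)
    have h3 : g.natDegree = 1 := by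
      rw [hq, Polynomial.natDegree_mul (Polynomial.X_sub_C_ne_zero n) hq0, h2,
        Polynomial.natDegree_X_sub_C]
    omega

/-- the discriminant-type integer of `g` -/
lemma exists_disc (g : ℤ[X]) (hg : g.Monic) (hirr : Irreducible g) (hd : 2 ≤ g.natDegree) :
    ∃ r : ℤ, r ≠ 0 ∧ ∀ p : ℕ, p.Prime → ∀ n : ℤ, (p : ℤ) ∣ g.eval n →
      (p : ℤ) ∣ g.derivative.eval n → (p : ℤ) ∣ r := by
  have hirr' : Irreducible (g.map (Int.castRingHom ℚ)) :=
    (IsPrimitive.Int.irreducible_iff_irreducible_map_cast hg.isPrimitive).1 hirr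
  have hsep : (g.map (Int.castRingHom ℚ)).Separable := hirr'.separable
  have hco : IsCoprime (g.map (Int.castRingHom ℚ)) (g.derivative.map (Int.castRingHom ℚ)) := by
    have := hsep
    rw [Polynomial.separable_def, Polynomial.derivative_map] at this
    exact this
  set T : ℝ := 1 + len g + len g.derivative with hT
  have h1 := len_nonneg g
  have h2 := len_nonneg g.derivative
  obtain ⟨U, V, r, hr, hbez, -⟩ := bezout' g.natDegree g g.derivative T (by linarith) le_rfl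
    ((Polynomial.natDegree_derivative_le g).trans (Nat.sub_le _ _)) hco (by linarith) (by linarith)
  refine ⟨r, hr, ?_⟩
  intro p _ n hpn hpn'
  have e1 : r = g.eval n * U.eval n + g.derivative.eval n * V.eval n := by
    have := congrArg (fun q => q.eval n) hbez
    simp only [eval_add, eval_mul, eval_C] at this
    exact this.symm
  rw [e1]
  exact dvd_add (Dvd.dvd.mul_right hpn _) (Dvd.dvd.mul_right hpn' _)

/-- proportional vectors have the same divisibility -/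
lemma prop_dvd (d : ℕ) (p : ℕ) (hp : p.Prime) (α β : Fin d → ℤ) (n : ℤ)
    (hα : ∃ i, ¬ (p : ℤ) ∣ α i) (hβ : ∃ i, ¬ (p : ℤ) ∣ β i)
    (h : ∀ i j, α i * β j = α j * β i) (h1 : (p : ℤ) ∣ ∑ i, α i * n ^ (i : ℕ))
    (h2 : ¬ (p : ℤ) ^ 2 ∣ ∑ i, α i * n ^ (i : ℕ)) :
    (p : ℤ) ∣ ∑ i, β i * n ^ (i : ℕ) ∧ ¬ (p : ℤ) ^ 2 ∣ ∑ i, β i * n ^ (i : ℕ) := by
  have hpz : Prime (p : ℤ) := Nat.prime_iff_prime_int.1 hp
  obtain ⟨i, hi⟩ := hα
  obtain ⟨j, hj⟩ := hβ
  have hαj : ¬ (p : ℤ) ∣ α j := by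
    intro hc
    have : (p : ℤ) ∣ α i * β j := by rw [h i j]; exact Dvd.dvd.mul_right hc _
    rcases hpz.dvd_or_dvd this with h3 | h3
    · exact hi h3
    · exact hj h3
  have key : α j * ∑ i, β i * n ^ (i : ℕ) = β j * ∑ i, α i * n ^ (i : ℕ) := by
    rw [Finset.mul_sum, Finset.mul_sum]
    refine Finset.sum_congr rfl ?_
    intro l _
    have := h j l
    calc α j * (β l * n ^ (l : ℕ)) = (α j * β l) * n ^ (l : ℕ) := by ring
      _ = (α l * β j) * n ^ (l : ℕ) := by rw [this]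
      _ = β j * (α l * n ^ (l : ℕ)) := by ring
  constructor
  · have : (p : ℤ) ∣ α j * ∑ i, β i * n ^ (i : ℕ) := by rw [key]; exact Dvd.dvd.mul_left h1 _
    exact (hpz.dvd_or_dvd this).resolve_left hαj
  · intro hc
    apply h2
    have h3 : (p : ℤ) ^ 2 ∣ β j * ∑ i, α i * n ^ (i : ℕ) := by
      rw [← key]; exact Dvd.dvd.mul_left hc _
    have hco : IsCoprime ((p : ℤ) ^ 2) (β j) :=
      IsCoprime.pow_left ((Prime.coprime_iff_not_dvd hpz).2 hj)
    exact hco.dvd_of_dvd_mul_left h3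

theorem rc_line (d a k N L : ℕ) (g : ℤ[X]) (hg : g.Monic) (hirr : Irreducible g)
    (hd : g.natDegree = d) (hd2 : 2 ≤ d) :
    ∃ K : ℕ, ∀ Z : ℝ, 2 ≤ Z → ∀ (A : Fin d → ℤ[X]) (Q : ℤ[X]) (Δ : ℤ),
      (∀ i, (A i).natDegree ≤ a) → (∀ i, len (A i) ≤ Z ^ N) → Q.natDegree ≤ k →
      0 < Q.natDegree → len Q ≤ Z ^ N → Δ ≠ 0 → |(Δ : ℝ)| ≤ Z ^ N →
      (∀ z : ℂ, ∃ i, aeval z (A i) ≠ 0) → ∀ T : Finset ℤ,
      (∀ w ∈ T, ∃ (n : ℤ) (p : ℕ) (α : Fin d → ℤ), Q.eval w = Δ * n ∧ |(n : ℝ)| ≤ L * Z ∧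
        p.Prime ∧ Z ≤ p ∧ (p : ℤ) ^ 2 ∣ g.eval n ∧ (p : ℤ) ∣ ∑ i, α i * n ^ (i : ℕ) ∧
        ¬ (p : ℤ) ^ 2 ∣ ∑ i, α i * n ^ (i : ℕ) ∧ (∃ i, ¬ (p : ℤ) ∣ α i) ∧
        ∀ i j, α i * (A j).eval w = α j * (A i).eval w) →
      T.card ≤ K * (Δ.natAbs.divisors.card ^ k + 1) := by
  classical
  obtain ⟨rg, hrg, hrgp⟩ := exists_disc g hg hirr (by omega)
  -- the bounds
  have hPN : PB (fun Z => Z ^ N) := PB.id.pow N
  have hPA : PB (fun Z => ((2 * a).factorial : ℝ) *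
      (((d : ℝ) + 1) * (((a : ℝ) * d + 1) ^ d * Z ^ N)) ^ (2 * a + 1)) :=
    (PB.const _ (by positivity)).mul (((PB.const _ (by positivity)).mul
      ((PB.const _ (by positivity)).mul hPN)).pow _)
  set e : ℕ := a + k * d with he
  set BE : ℝ → ℝ := fun Z => (1 + (d : ℝ) * (Z ^ N * (Z ^ N) ^ d * (Z ^ N) ^ d)) +
    ((d : ℝ) + 1) * (len g * (Z ^ N) ^ d * (Z ^ N) ^ d) with hBE
  have hPBE : PB BE :=
    ((PB.const 1 (by norm_num)).add ((PB.const _ (by positivity)).mul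
      ((hPN.mul (hPN.pow d)).mul (hPN.pow d)))).add ((PB.const _ (by positivity)).mul
      (((PB.const _ (len_nonneg g)).mul (hPN.pow d)).mul (hPN.pow d)))
  have hPE : PB (fun Z => ((2 * e).factorial : ℝ) *
      (((e : ℝ) + 1) * (2 ^ e * BE Z)) ^ (2 * e + 1)) :=
    (PB.const _ (by positivity)).mul (((PB.const _ (by positivity)).mul
      ((PB.const _ (by positivity)).mul hPBE)).pow _)
  obtain ⟨m, hm⟩ := ((hPN.mul hPA).mul hPE).mul (PB.const |(rg : ℝ)| (abs_nonneg _))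
  obtain ⟨K1, hK1⟩ := one_root_divisors k L
  refine ⟨K1 + k * (d * (2 * L + 3)) * m, ?_⟩
  intro Z hZ A Q Δ hAd hAl hQd hQ0 hQl hΔ hΔb hA0 T hT
  have hZN : (1 : ℝ) ≤ Z ^ N := one_le_pow₀ (by linarith)
  rcases T.eq_empty_or_nonempty with hTe | hTne
  · subst hTe; simp
  choose! n p α hprop using hT
  obtain ⟨ρA, hρA, hρAb, hρAp⟩ := exists_rhoA d a A (Z ^ N) hZN hAd hAl hA0
  set E : ℤ[X] := ∑ i : Fin d, A i * Q ^ (i : ℕ) * C (Δ ^ (d - 1 - (i : ℕ))) with hE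
  set F : ℤ[X] := ∑ i ∈ Finset.range (d + 1), C (g.coeff i * Δ ^ (d - i)) * Q ^ i with hF
  have hF0 : F ≠ 0 := by
    obtain ⟨w, hw⟩ := hTne
    intro h
    have h1 := eval_F g d hd Q Δ w (n w) (hprop w hw).1
    rw [← hF, h] at h1
    have h2 := eval_ne_zero_of_irreducible g hirr (by omega) (n w)
    have h3 : Δ ^ d * g.eval (n w) ≠ 0 := mul_ne_zero (pow_ne_zero _ hΔ) h2
    apply h3
    rw [← h1]; simp
  have hlE : len E ≤ BE Z := by
    have h1 := len_E d A Q Δ (Z ^ N) hZN hAl hQl hΔb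
    have h2 : 0 ≤ ((d : ℝ) + 1) * (len g * (Z ^ N) ^ d * (Z ^ N) ^ d) := by
      have := len_nonneg g
      positivity
    rw [hBE]
    change len E ≤ (1 + (d : ℝ) * (Z ^ N * (Z ^ N) ^ d * (Z ^ N) ^ d)) +
      ((d : ℝ) + 1) * (len g * (Z ^ N) ^ d * (Z ^ N) ^ d)
    rw [← hE] at h1
    linarith
  have hlF : len F ≤ BE Z := by
    have h1 := len_F g d Q Δ (Z ^ N) hZN hQl hΔb
    have h2 : 0 ≤ (d : ℝ) * (Z ^ N * (Z ^ N) ^ d * (Z ^ N) ^ d) := by positivity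
    rw [hBE]
    change len F ≤ (1 + (d : ℝ) * (Z ^ N * (Z ^ N) ^ d * (Z ^ N) ^ d)) +
      ((d : ℝ) + 1) * (len g * (Z ^ N) ^ d * (Z ^ N) ^ d)
    rw [← hF] at h1
    linarith
  have hBE1 : 1 ≤ BE Z := by
    have h1 : 0 ≤ (d : ℝ) * (Z ^ N * (Z ^ N) ^ d * (Z ^ N) ^ d) := by positivity
    have h2 : 0 ≤ ((d : ℝ) + 1) * (len g * (Z ^ N) ^ d * (Z ^ N) ^ d) := by
      have := len_nonneg g
      positivity
    rw [hBE]
    change 1 ≤ (1 + (d : ℝ) * (Z ^ N * (Z ^ N) ^ d * (Z ^ N) ^ d)) +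
      ((d : ℝ) + 1) * (len g * (Z ^ N) ^ d * (Z ^ N) ^ d)
    linarith
  -- the key dichotomy, uniformly
  have hEex : ∃ ρE : ℤ, ρE ≠ 0 ∧ |(ρE : ℝ)| ≤ ((2 * e).factorial : ℝ) *
      (((e : ℝ) + 1) * (2 ^ e * BE Z)) ^ (2 * e + 1) ∧
      ∀ q : ℕ, q.Prime → ¬ (q : ℤ) ∣ ρE → ∀ w : ℤ, (q : ℤ) ∣ E.eval w →
        ¬ (q : ℤ) ^ 2 ∣ E.eval w → (q : ℤ) ^ 2 ∣ F.eval w → (q : ℤ) ∣ F.derivative.eval w := by
    by_cases hE0 : E = 0
    · refine ⟨1, one_ne_zero, ?_, ?_⟩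
      · have h1 : (1 : ℝ) ≤ ((2 * e).factorial : ℝ) := by
          exact_mod_cast Nat.one_le_iff_ne_zero.2 (Nat.factorial_ne_zero _)
        have h2 : (1 : ℝ) ≤ ((e : ℝ) + 1) * (2 ^ e * BE Z) := by
          have h3 : (1 : ℝ) ≤ (e : ℝ) + 1 := by
            have : (0 : ℝ) ≤ e := Nat.cast_nonneg e
            linarith
          have h4 : (1 : ℝ) ≤ 2 ^ e := one_le_pow₀ (by norm_num)
          exact one_le_mul_of_one_le_of_one_le h3 (one_le_mul_of_one_le_of_one_le h4 hBE1)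
        have h3 := one_le_pow₀ h2 (n := 2 * e + 1)
        simpa using one_le_mul_of_one_le_of_one_le h1 h3
      · intro q _ _ w _ h2 _
        exfalso
        apply h2
        rw [hE0]; simp
    · exact key_gcd e E F hE0 hF0 (BE Z) hBE1 (natDegree_E d a k A Q Δ hAd hQd)
        (natDegree_F g d a k Q Δ hQd) hlE hlF
  obtain ⟨ρE, hρE, hρEb, hρEp⟩ := hEex
  set R : ℤ := Δ * ρA * ρE * rg with hR
  have hR0 : R ≠ 0 := mul_ne_zero (mul_ne_zero (mul_ne_zero hΔ hρA) hρE) hrg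
  have hRb : |(R : ℝ)| ≤ Z ^ m := by
    refine le_trans ?_ (hm Z hZ).2
    rw [hR]
    push_cast
    rw [abs_mul, abs_mul, abs_mul]
    gcongr
  -- split
  set T1 := T.filter (fun w => ¬ (p w : ℤ) ∣ R) with hT1
  set T2 := T.filter (fun w => (p w : ℤ) ∣ R) with hT2
  have hcard : T.card = T2.card + T1.card :=
    (Finset.card_filter_add_card_filter_not (s := T) (fun w => (p w : ℤ) ∣ R)).symm
  have hT2c : T2.card ≤ k * (d * (2 * L + 3)) * m := by
    have := exc_count g hg L k m Z hZ R hR0 hRb Q hQd hQ0 Δ T2 n p (by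
      intro w hw
      rw [hT2, Finset.mem_filter] at hw
      obtain ⟨h1, h2, h3, h4, h5, -⟩ := hprop w hw.1
      exact ⟨h1, h2, h3, h4, (dvd_pow_self _ (by norm_num)).trans h5, hw.2⟩)
    rwa [hd] at this
  have hT1c : T1.card ≤ K1 * Δ.natAbs.divisors.card ^ k := by
    refine hK1 Q hQd hQ0 Δ.natAbs (Int.natAbs_ne_zero.2 hΔ) (L * Z) T1 ?_
    intro w hw
    rw [hT1, Finset.mem_filter] at hw
    obtain ⟨hw1, hpR⟩ := hw
    obtain ⟨h1, h2, h3, h4, h5, h6, h7, h8, h9⟩ := hprop w hw1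
    have hpz : Prime (p w : ℤ) := Nat.prime_iff_prime_int.1 h3
    have hpΔ : ¬ (p w : ℤ) ∣ Δ := fun h => hpR (by
      rw [hR]; exact Dvd.dvd.mul_right (Dvd.dvd.mul_right (Dvd.dvd.mul_right h _) _) _)
    have hpA : ¬ (p w : ℤ) ∣ ρA := fun h => hpR (by
      rw [hR]; exact Dvd.dvd.mul_right (Dvd.dvd.mul_right (Dvd.dvd.mul_left h _) _) _)
    have hpE : ¬ (p w : ℤ) ∣ ρE := fun h => hpR (by
      rw [hR]; exact Dvd.dvd.mul_right (Dvd.dvd.mul_left h _) _)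
    have hpg : ¬ (p w : ℤ) ∣ rg := fun h => hpR (by
      rw [hR]; exact Dvd.dvd.mul_left h _)
    have hp1 : (p w : ℤ) ∣ g.eval (n w) := (dvd_pow_self _ (by norm_num)).trans h5
    refine ⟨?_, ?_, p w, h3, ?_, ?_, ?_⟩
    · rw [h1]
      exact Dvd.dvd.mul_right (Int.natAbs_dvd.2 dvd_rfl) _
    · rw [h1]
      push_cast
      rw [abs_mul]
      have h10 : ((Δ.natAbs : ℕ) : ℝ) = |(Δ : ℝ)| := by
        rw [Nat.cast_natAbs]; push_cast; rfl
      rw [h10]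
      gcongr
    · gcongr
    · intro h
      exact hpΔ (Int.natCast_dvd.2 h)
    · obtain ⟨h11, h12⟩ := prop_dvd d (p w) h3 (α w) (fun i => (A i).eval w) (n w) h8
        (hρAp (p w) h3 hpA w) h9 h6 h7
      have hEe := eval_E d A Q Δ w (n w) h1
      have hFe := eval_F g d hd Q Δ w (n w) h1
      have hF'e := eval_F' g d hd Q Δ w (n w) h1
      have hd1 : (p w : ℤ) ∣ F.derivative.eval w := by
        refine hρEp (p w) h3 hpE w ?_ ?_ ?_
        · rw [hE, hEe]; exact Dvd.dvd.mul_left h11 _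
        · rw [hE, hEe]
          intro hc
          apply h12
          have hco : IsCoprime ((p w : ℤ) ^ 2) (Δ ^ (d - 1)) :=
            IsCoprime.pow ((Prime.coprime_iff_not_dvd hpz).2 hpΔ)
          exact hco.dvd_of_dvd_mul_left hc
        · rw [hF, hFe]; exact Dvd.dvd.mul_left h5 _
      rw [hF, hF'e] at hd1
      rcases hpz.dvd_or_dvd hd1 with h13 | h13
      · rcases hpz.dvd_or_dvd h13 with h14 | h14
        · exact absurd (hpz.dvd_of_dvd_pow h14) hpΔ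
        · exact absurd (hrgp (p w) h3 (n w) hp1 h14) hpg
      · exact h13
  rw [hcard]
  have h1 : K1 * Δ.natAbs.divisors.card ^ k ≤
      K1 * (Δ.natAbs.divisors.card ^ k + 1) := Nat.mul_le_mul_left _ (by omega)
  have h2 : k * (d * (2 * L + 3)) * m ≤
      k * (d * (2 * L + 3)) * m * (Δ.natAbs.divisors.card ^ k + 1) :=
    Nat.le_mul_of_pos_right _ (by omega)
  calc T2.card + T1.card ≤ k * (d * (2 * L + 3)) * m * (Δ.natAbs.divisors.card ^ k + 1) +
      K1 * (Δ.natAbs.divisors.card ^ k + 1) := Nat.add_le_add (hT2c.trans h2) (hT1c.trans h1)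
    _ = (K1 + k * (d * (2 * L + 3)) * m) * (Δ.natAbs.divisors.card ^ k + 1) := by ring

/-! ### Restriction of binary forms to lines -/

/-- the form of degree `m` attached to `P`, restricted to the line `(u0 + b w, v0 - a w)` -/
noncomputable def lineP (P : ℤ[X]) (m : ℕ) (u0 v0 b a : ℤ) : ℤ[X] :=
  ∑ i ∈ Finset.range (m + 1), C (P.coeff i) * (C u0 + C b * X) ^ i * (C v0 - C a * X) ^ (m - i)

lemma eval_lineP (P : ℤ[X]) (m : ℕ) (u0 v0 b a w : ℤ) :
    (lineP P m u0 v0 b a).eval w = hf P m (u0 + b * w) (v0 - a * w) := by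
  unfold lineP hf
  rw [eval_finsetSum]
  refine Finset.sum_congr rfl ?_
  intro i _
  simp only [eval_mul, eval_pow, eval_add, eval_sub, eval_C, eval_X]

lemma aeval_lineP (P : ℤ[X]) (m : ℕ) (u0 v0 b a : ℤ) (z : ℂ) :
    aeval z (lineP P m u0 v0 b a) = ∑ i ∈ Finset.range (m + 1),
      (P.coeff i : ℂ) * ((u0 : ℂ) + b * z) ^ i * ((v0 : ℂ) - a * z) ^ (m - i) := by
  unfold lineP
  rw [map_sum]
  refine Finset.sum_congr rfl ?_
  intro i _
  simp

lemma natDegree_line1 (u0 b : ℤ) : (C u0 + C b * X : ℤ[X]).natDegree ≤ 1 := by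
  compute_degree

lemma natDegree_line2 (v0 a : ℤ) : (C v0 - C a * X : ℤ[X]).natDegree ≤ 1 := by
  compute_degree

lemma natDegree_line_pow1 (u0 b : ℤ) (i : ℕ) : ((C u0 + C b * X : ℤ[X]) ^ i).natDegree ≤ i := by
  refine (Polynomial.natDegree_pow_le).trans ?_
  calc i * (C u0 + C b * X : ℤ[X]).natDegree ≤ i * 1 := Nat.mul_le_mul_left _ (natDegree_line1 u0 b)
    _ = i := mul_one i

lemma natDegree_line_pow2 (v0 a : ℤ) (i : ℕ) : ((C v0 - C a * X : ℤ[X]) ^ i).natDegree ≤ i := by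
  refine (Polynomial.natDegree_pow_le).trans ?_
  calc i * (C v0 - C a * X : ℤ[X]).natDegree ≤ i * 1 := Nat.mul_le_mul_left _ (natDegree_line2 v0 a)
    _ = i := mul_one i

lemma natDegree_lineP (P : ℤ[X]) (m : ℕ) (u0 v0 b a : ℤ) :
    (lineP P m u0 v0 b a).natDegree ≤ m := by
  unfold lineP
  refine Polynomial.natDegree_sum_le_of_forall_le _ _ ?_
  intro i hi
  have hi' := Finset.mem_range.1 hi
  refine (Polynomial.natDegree_mul_le).trans ?_
  have h1 : (C (P.coeff i) * (C u0 + C b * X) ^ i : ℤ[X]).natDegree ≤ i :=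
    (Polynomial.natDegree_C_mul_le _ _).trans (natDegree_line_pow1 u0 b i)
  have h2 := natDegree_line_pow2 v0 a (m - i)
  omega

lemma coeff_lineP (P : ℤ[X]) (m : ℕ) (u0 v0 b a : ℤ) :
    (lineP P m u0 v0 b a).coeff m = hf P m b (-a) := by
  unfold lineP hf
  rw [finsetSum_coeff]
  refine Finset.sum_congr rfl ?_
  intro i hi
  have hi' := Finset.mem_range.1 hi
  have h1 : (C (P.coeff i) * (C u0 + C b * X) ^ i : ℤ[X]).natDegree ≤ i :=
    (Polynomial.natDegree_C_mul_le _ _).trans (natDegree_line_pow1 u0 b i)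
  have h3 := coeff_mul_add_eq_of_natDegree_le h1 (natDegree_line_pow2 v0 a (m - i))
  rw [show i + (m - i) = m by omega] at h3
  rw [h3, coeff_C_mul]
  have h4 := coeff_pow_of_natDegree_le (m := i) (natDegree_line1 u0 b)
  have h5 := coeff_pow_of_natDegree_le (m := m - i) (natDegree_line2 v0 a)
  rw [mul_one] at h4 h5
  have e1 : (C u0 + C b * X : ℤ[X]).coeff 1 = b := by
    rw [coeff_add, coeff_C_mul, coeff_X_one, coeff_C, if_neg one_ne_zero, mul_one, zero_add]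
  have e2 : (C v0 - C a * X : ℤ[X]).coeff 1 = -a := by
    rw [coeff_sub, coeff_C_mul, coeff_X_one, coeff_C, if_neg one_ne_zero, mul_one, zero_sub]
  rw [h4, h5, e1, e2]

lemma len_lineP (P : ℤ[X]) (m : ℕ) (u0 v0 b a : ℤ) (B : ℝ) (hB : 1 ≤ B)
    (hP : ∀ i, |(P.coeff i : ℝ)| ≤ B) (hu : |(u0 : ℝ)| ≤ B) (hv : |(v0 : ℝ)| ≤ B)
    (hb : |(b : ℝ)| ≤ B) (ha : |(a : ℝ)| ≤ B) :
    len (lineP P m u0 v0 b a) ≤ ((m : ℝ) + 1) * (B * (2 * B) ^ m) := by
  unfold lineP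
  have hl1 : len (C u0 + C b * X) ≤ 2 * B := by
    refine (len_add _ _).trans ?_
    have h1 := len_C_mul b X
    rw [len_X, mul_one] at h1
    rw [len_C]
    linarith
  have hl2 : len (C v0 - C a * X) ≤ 2 * B := by
    have h0 : (C v0 - C a * X : ℤ[X]) = C v0 + C (-a) * X := by
      rw [C_neg]; ring
    rw [h0]
    refine (len_add _ _).trans ?_
    have h1 := len_C_mul (-a) X
    rw [len_X, mul_one] at h1
    push_cast at h1
    rw [abs_neg] at h1
    rw [len_C]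
    linarith
  have h1 : ∀ i ∈ Finset.range (m + 1),
      len (C (P.coeff i) * (C u0 + C b * X) ^ i * (C v0 - C a * X) ^ (m - i)) ≤
        B * (2 * B) ^ m := by
    intro i hi
    have hi' := Finset.mem_range.1 hi
    refine (len_mul _ _).trans ?_
    have h2 : len (C (P.coeff i) * (C u0 + C b * X) ^ i) ≤ B * (2 * B) ^ i := by
      refine (len_C_mul _ _).trans ?_
      refine mul_le_mul (hP i) ?_ (len_nonneg _) (by linarith)
      exact (len_pow _ _).trans (pow_le_pow_left₀ (len_nonneg _) hl1 _)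
    have h3 : len ((C v0 - C a * X) ^ (m - i)) ≤ (2 * B) ^ (m - i) :=
      (len_pow _ _).trans (pow_le_pow_left₀ (len_nonneg _) hl2 _)
    calc len (C (P.coeff i) * (C u0 + C b * X) ^ i) * len ((C v0 - C a * X) ^ (m - i))
        ≤ (B * (2 * B) ^ i) * (2 * B) ^ (m - i) :=
          mul_le_mul h2 h3 (len_nonneg _) (by positivity)
      _ = B * (2 * B) ^ m := by
          rw [mul_assoc, ← pow_add]
          congr 3
          omega
  refine (len_sum _ _).trans ((Finset.sum_le_card_nsmul _ _ _ h1).trans ?_)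
  rw [Finset.card_range, nsmul_eq_mul]
  push_cast
  exact le_rfl

lemma hf_smul (P : ℤ[X]) (k : ℕ) (t u v : ℤ) : hf P k (t * u) (t * v) = t ^ k * hf P k u v := by
  unfold hf
  rw [Finset.mul_sum]
  refine Finset.sum_congr rfl ?_
  intro i hi
  have hi' := Finset.mem_range.1 hi
  have h1 : t ^ k = t ^ i * t ^ (k - i) := by rw [← pow_add]; congr 1; omega
  rw [mul_pow, mul_pow, h1]; ring

lemma hf_sub_dvd_right (P : ℤ[X]) (k : ℕ) (x y y' : ℤ) :
    (y - y') ∣ hf P k x y - hf P k x y' := by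
  unfold hf
  rw [← Finset.sum_sub_distrib]
  refine Finset.dvd_sum ?_
  intro i _
  rw [← mul_sub]
  exact Dvd.dvd.mul_left (sub_dvd_pow_sub_pow _ _ _) _

lemma hf_sub_dvd_left (P : ℤ[X]) (k : ℕ) (x x' y : ℤ) :
    (x - x') ∣ hf P k x y - hf P k x' y := by
  unfold hf
  rw [← Finset.sum_sub_distrib]
  refine Finset.dvd_sum ?_
  intro i _
  have h1 : P.coeff i * x ^ i * y ^ (k - i) - P.coeff i * x' ^ i * y ^ (k - i) =
      (x ^ i - x' ^ i) * (P.coeff i * y ^ (k - i)) := by ring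
  rw [h1]
  exact Dvd.dvd.mul_right (sub_dvd_pow_sub_pow _ _ _) _

lemma line_dvd (P : ℤ[X]) (k : ℕ) (a b u v : ℤ) (hco : IsCoprime u v)
    (h : (a * u + b * v) ∣ hf P k u v) : (a * u + b * v) ∣ hf P k b (-a) := by
  have h1 : (a * u + b * v) ∣ u ^ k * hf P k b (-a) := by
    have h2 := hf_sub_dvd_right P k (b * u) (b * v) (u * (-a))
    have h3 : hf P k (b * u) (u * (-a)) = u ^ k * hf P k b (-a) := by
      rw [mul_comm b u, hf_smul]
    rw [h3, hf_smul, show b * v - u * (-a) = a * u + b * v by ring] at h2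
    exact (dvd_sub_right (Dvd.dvd.mul_left h _)).1 h2
  have h4 : (a * u + b * v) ∣ v ^ k * hf P k b (-a) := by
    have h2 := hf_sub_dvd_left P k (a * u) ((-v) * b) (a * v)
    have h3 : hf P k ((-v) * b) (a * v) = (-v) ^ k * hf P k b (-a) := by
      rw [← hf_smul]; congr 1; ring
    rw [h3, hf_smul, show a * u - (-v) * b = a * u + b * v by ring] at h2
    have h5 := (dvd_sub_right (Dvd.dvd.mul_left h _)).1 h2
    rw [neg_pow, mul_assoc] at h5
    have h6 := Dvd.dvd.mul_left h5 ((-1) ^ k)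
    rw [← mul_assoc, ← pow_add, Even.neg_one_pow ⟨k, rfl⟩, one_mul] at h6
    exact h6
  obtain ⟨x, y, hxy⟩ := (hco.pow (m := k) (n := k))
  have h7 : hf P k b (-a) = x * (u ^ k * hf P k b (-a)) + y * (v ^ k * hf P k b (-a)) := by
    calc hf P k b (-a) = 1 * hf P k b (-a) := (one_mul _).symm
      _ = (x * u ^ k + y * v ^ k) * hf P k b (-a) := by rw [hxy]
      _ = _ := by ring
  rw [h7]
  exact dvd_add (Dvd.dvd.mul_left h1 _) (Dvd.dvd.mul_left h4 _)

lemma hf_cast (P : ℤ[X]) (k : ℕ) (u v : ℤ) : ((hf P k u v : ℤ) : ℂ) =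
    ∑ j ∈ Finset.range (k + 1), (P.coeff j : ℂ) * (u : ℂ) ^ j * (v : ℂ) ^ (k - j) := by
  unfold hf
  push_cast
  rfl

lemma hf_abs_le (P : ℤ[X]) (k : ℕ) (u v : ℤ) (B : ℝ) (hB : 1 ≤ B)
    (hP : ∀ i, |(P.coeff i : ℝ)| ≤ B) (hu : |(u : ℝ)| ≤ B) (hv : |(v : ℝ)| ≤ B) :
    |((hf P k u v : ℤ) : ℝ)| ≤ ((k : ℝ) + 1) * (B * (2 * B) ^ k) := by
  unfold hf
  push_cast
  refine (Finset.abs_sum_le_sum_abs _ _).trans ?_
  have h1 : ∀ i ∈ Finset.range (k + 1),
      |(P.coeff i : ℝ) * (u : ℝ) ^ i * (v : ℝ) ^ (k - i)| ≤ B * (2 * B) ^ k := by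
    intro i hi
    have hi' := Finset.mem_range.1 hi
    rw [abs_mul, abs_mul, abs_pow, abs_pow]
    calc |(P.coeff i : ℝ)| * |(u : ℝ)| ^ i * |(v : ℝ)| ^ (k - i) ≤ B * B ^ i * B ^ (k - i) := by
          gcongr
          exact hP i
      _ = B * B ^ k := by rw [mul_assoc, ← pow_add]; congr 2; omega
      _ ≤ B * (2 * B) ^ k := by
          gcongr
          linarith
  refine (Finset.sum_le_card_nsmul _ _ _ h1).trans ?_
  rw [Finset.card_range, nsmul_eq_mul]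
  push_cast
  exact le_rfl

/-- the case of one line -/
theorem rc_fiber (d a k N0 L : ℕ) (g : ℤ[X]) (hg : g.Monic) (hirr : Irreducible g)
    (hd : g.natDegree = d) (hd2 : 2 ≤ d) (hk : 1 ≤ k) :
    ∃ (K N : ℕ), ∀ Z : ℝ, 2 ≤ Z → ∀ (A : Fin d → ℤ[X]) (Ξ Ψ : ℤ[X]) (c a1 b1 r0 : ℤ),
      (∀ i j, |((A i).coeff j : ℝ)| ≤ Z ^ N0) → (∀ j, |(Ξ.coeff j : ℝ)| ≤ Z ^ N0) →
      |(c : ℝ)| ≤ Z ^ N0 → |(a1 : ℝ)| ≤ Z ^ N0 → |(b1 : ℝ)| ≤ Z ^ N0 →
      (∀ u v : ℤ, hf Ψ k u v = c * (a1 * u + b1 * v) ^ k) → IsCoprime a1 b1 →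
      hf Ξ k b1 (-a1) ≠ 0 → c ≠ 0 → r0 ≠ 0 →
      (∀ u v : ℂ, (u, v) ≠ (0, 0) →
        ∃ i, ∑ j ∈ Finset.range (a + 1), ((A i).coeff j : ℂ) * u ^ j * v ^ (a - j) ≠ 0) →
      ∀ S : Finset (ℤ × ℤ), S.Nonempty →
      (∀ s ∈ S, a1 * s.1 + b1 * s.2 = r0 ∧ |(s.1 : ℝ)| ≤ Z ^ N0 ∧ |(s.2 : ℝ)| ≤ Z ^ N0 ∧
        ∃ (n : ℤ) (p : ℕ) (α : Fin d → ℤ),
          n * hf Ψ k s.1 s.2 = hf Ξ k s.1 s.2 ∧ |(n : ℝ)| ≤ L * Z ∧ p.Prime ∧ Z ≤ p ∧
          (p : ℤ) ^ 2 ∣ g.eval n ∧ (p : ℤ) ∣ ∑ i, α i * n ^ (i : ℕ) ∧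
          ¬ (p : ℤ) ^ 2 ∣ ∑ i, α i * n ^ (i : ℕ) ∧ (∃ i, ¬ (p : ℤ) ∣ α i) ∧
          ∀ i j, α i * hf (A j) a s.1 s.2 = α j * hf (A i) a s.1 s.2) →
      |((c * r0 ^ k : ℤ) : ℝ)| ≤ Z ^ N ∧
      S.card ≤ K * ((c * r0 ^ k).natAbs.divisors.card ^ k + 1) := by
  classical
  have hPN : PB (fun Z => Z ^ N0) := PB.id.pow N0
  have hP1 : PB (fun Z => ((a : ℝ) + 1) * (Z ^ N0 * (2 * Z ^ N0) ^ a)) :=
    (PB.const _ (by positivity)).mul (hPN.mul (((PB.const 2 (by norm_num)).mul hPN).pow a))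
  have hP2 : PB (fun Z => ((k : ℝ) + 1) * (Z ^ N0 * (2 * Z ^ N0) ^ k)) :=
    (PB.const _ (by positivity)).mul (hPN.mul (((PB.const 2 (by norm_num)).mul hPN).pow k))
  have hP3 : PB (fun Z => Z ^ N0 * (2 * (Z ^ N0 * Z ^ N0)) ^ k) :=
    hPN.mul (((PB.const 2 (by norm_num)).mul (hPN.mul hPN)).pow k)
  obtain ⟨m1, hm1⟩ := hP1
  obtain ⟨m2, hm2⟩ := hP2
  obtain ⟨m3, hm3⟩ := hP3
  set N := m1 + m2 + m3 with hN
  obtain ⟨K, hK⟩ := rc_line d a k N L g hg hirr hd hd2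
  refine ⟨K, N + 1, ?_⟩
  intro Z hZ A Ξ Ψ c a1 b1 r0 hA hΞ hc ha1 hb1 hΨ hco hξ hc0 hr0 hNZ S hSne hS
  have hZ1 : (1 : ℝ) ≤ Z := by linarith
  have hB : (1 : ℝ) ≤ Z ^ N0 := one_le_pow₀ hZ1
  have hM1 : Z ^ m1 ≤ Z ^ N := pow_le_pow_right₀ hZ1 (by omega)
  have hM2 : Z ^ m2 ≤ Z ^ N := pow_le_pow_right₀ hZ1 (by omega)
  have hM3 : Z ^ m3 ≤ Z ^ N := pow_le_pow_right₀ hZ1 (by omega)
  obtain ⟨s0, hs0⟩ := hSne
  have hΔb : |((c * r0 ^ k : ℤ) : ℝ)| ≤ Z ^ N := by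
    refine le_trans ?_ ((hm3 Z hZ).2.trans hM3)
    obtain ⟨h1, h2, h3, -⟩ := hS s0 hs0
    push_cast
    rw [abs_mul, abs_pow]
    have h4 : |(r0 : ℝ)| ≤ 2 * (Z ^ N0 * Z ^ N0) := by
      rw [← h1]
      push_cast
      refine (abs_add_le _ _).trans ?_
      rw [abs_mul, abs_mul]
      have h5 : |(a1 : ℝ)| * |(s0.1 : ℝ)| ≤ Z ^ N0 * Z ^ N0 := by gcongr
      have h6 : |(b1 : ℝ)| * |(s0.2 : ℝ)| ≤ Z ^ N0 * Z ^ N0 := by gcongr
      linarith
    gcongr
  refine ⟨hΔb.trans (pow_le_pow_right₀ hZ1 (by omega)), ?_⟩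
  obtain ⟨x, y, hxy⟩ := hco
  obtain ⟨hs01, hs02, hs03, -⟩ := hS s0 hs0
  set φ : ℤ × ℤ → ℤ := fun s => y * (s.1 - s0.1) - x * (s.2 - s0.2) with hφ
  have hrel : ∀ s ∈ S, s.1 = s0.1 + b1 * φ s ∧ s.2 = s0.2 - a1 * φ s := by
    intro s hs
    have h1 := (hS s hs).1
    have h2 : b1 * (s.2 - s0.2) = - (a1 * (s.1 - s0.1)) := by linear_combination h1 - hs01
    constructor
    · rw [hφ]
      linear_combination (-(s.1 - s0.1)) * hxy + x * h2
    · rw [hφ]
      linear_combination (-(s.2 - s0.2)) * hxy + y * h2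
  have hinj : Set.InjOn φ (S : Set (ℤ × ℤ)) := by
    intro s hs t ht hst
    have h1 := hrel s hs
    have h2 := hrel t ht
    rw [hst] at h1
    exact Prod.ext (h1.1.trans h2.1.symm) (h1.2.trans h2.2.symm)
  rw [← Finset.card_image_of_injOn hinj]
  set Q := lineP Ξ k s0.1 s0.2 b1 a1 with hQ
  have hQk : Q.coeff k = hf Ξ k b1 (-a1) := coeff_lineP _ _ _ _ _ _
  have hQd : Q.natDegree ≤ k := natDegree_lineP _ _ _ _ _ _
  have hQ0 : 0 < Q.natDegree := by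
    have h1 : Q.coeff k ≠ 0 := by rw [hQk]; exact hξ
    have h2 : k ≤ Q.natDegree := Polynomial.le_natDegree_of_ne_zero h1
    omega
  refine hK Z hZ (fun i => lineP (A i) a s0.1 s0.2 b1 a1) Q (c * r0 ^ k)
    (fun i => natDegree_lineP _ _ _ _ _ _) ?_ hQd hQ0 ?_ (mul_ne_zero hc0 (pow_ne_zero _ hr0))
    hΔb ?_ _ ?_
  · intro i
    exact (len_lineP (A i) a s0.1 s0.2 b1 a1 _ hB (hA i) hs02 hs03 hb1 ha1).trans
      ((hm1 Z hZ).2.trans hM1)
  · exact (len_lineP Ξ k s0.1 s0.2 b1 a1 _ hB hΞ hs02 hs03 hb1 ha1).trans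
      ((hm2 Z hZ).2.trans hM2)
  · intro z
    have hne : (((s0.1 : ℂ) + b1 * z), ((s0.2 : ℂ) - a1 * z)) ≠ (0, 0) := by
      intro h
      have h1 := (Prod.mk.inj h).1
      have h2 := (Prod.mk.inj h).2
      apply hr0
      have h3 : ((r0 : ℤ) : ℂ) = 0 := by
        rw [← hs01]
        push_cast
        linear_combination (a1 : ℂ) * h1 + (b1 : ℂ) * h2
      exact_mod_cast h3
    obtain ⟨i, hi⟩ := hNZ _ _ hne
    refine ⟨i, ?_⟩
    rw [aeval_lineP]
    exact hi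
  · intro w hw
    obtain ⟨s, hs, rfl⟩ := Finset.mem_image.1 hw
    obtain ⟨h1, h2, h3, n, p, α, h4, h5, h6, h7, h8, h9, h10, h11, h12⟩ := hS s hs
    have e1 : s0.1 + b1 * φ s = s.1 := (hrel s hs).1.symm
    have e2 : s0.2 - a1 * φ s = s.2 := (hrel s hs).2.symm
    refine ⟨n, p, α, ?_, h5, h6, h7, h8, h9, h10, h11, ?_⟩
    · rw [hQ, eval_lineP, e1, e2, ← h4, hΨ, h1]; ring
    · intro i j
      rw [eval_lineP, eval_lineP, e1, e2]
      exact h12 i j


/-- **Lemma RC**, general degree: a parametrised curve carries `≪ Y^ε` solutions. -/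
theorem rc_count_gen (d : ℕ) (g : ℤ[X]) (hg : g.Monic) (hirr : Irreducible g)
    (hd : g.natDegree = d) (hd2 : 2 ≤ d) (a k : ℕ) (hk : 1 ≤ k) (C' L ε : ℝ) (hε : 0 < ε) :
    ∃ K : ℝ, 0 < K ∧ ∀ Y : ℝ, 1 ≤ Y → ∀ (A : Fin d → ℤ[X]) (Ξ Ψ : ℤ[X]),
      (∀ i, (A i).natDegree ≤ a) → Ξ.natDegree ≤ k → Ψ.natDegree ≤ k →
      (∀ i j, |((A i).coeff j : ℝ)| ≤ L * Y ^ C') → (∀ j, |(Ξ.coeff j : ℝ)| ≤ L * Y ^ C') →
      (∀ j, |(Ψ.coeff j : ℝ)| ≤ L * Y ^ C') →
      (∀ u v : ℂ, (u, v) ≠ (0, 0) →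
        ∃ i, ∑ j ∈ Finset.range (a + 1), ((A i).coeff j : ℂ) * u ^ j * v ^ (a - j) ≠ 0) →
      (∀ u v : ℂ, (u, v) ≠ (0, 0) →
        ∑ j ∈ Finset.range (k + 1), (Ξ.coeff j : ℂ) * u ^ j * v ^ (k - j) ≠ 0 ∨
        ∑ j ∈ Finset.range (k + 1), (Ψ.coeff j : ℂ) * u ^ j * v ^ (k - j) ≠ 0) →
      ∀ S : Finset (ℤ × ℤ),
      (∀ s ∈ S, IsCoprime s.1 s.2 ∧ |(s.1 : ℝ)| ≤ L * Y ^ C' ∧ |(s.2 : ℝ)| ≤ L * Y ^ C' ∧
        ∃ (n : ℤ) (p : ℕ) (α : Fin d → ℤ), hf Ψ k s.1 s.2 ≠ 0 ∧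
          n * hf Ψ k s.1 s.2 = hf Ξ k s.1 s.2 ∧ |(n : ℝ)| ≤ L * Y ∧ p.Prime ∧ Y ≤ L * p ∧
          (p : ℤ) ^ 2 ∣ g.eval n ∧ (p : ℤ) ∣ ∑ i, α i * n ^ (i : ℕ) ∧
          ¬ (p : ℤ) ^ 2 ∣ ∑ i, α i * n ^ (i : ℕ) ∧ (∃ i, ¬ (p : ℤ) ∣ α i) ∧
          ∀ i j, α i * hf (A j) a s.1 s.2 = α j * hf (A i) a s.1 s.2) →
      (S.card : ℝ) ≤ K * Y ^ ε := by
  classical
  obtain ⟨L1, hL1'⟩ := exists_nat_ge (max L 1)
  have hL1 : (1 : ℝ) ≤ L1 := (le_max_right _ _).trans hL1'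
  have hLL1 : L ≤ L1 := (le_max_left _ _).trans hL1'
  obtain ⟨Cn, hCn⟩ := exists_nat_ge C'
  set j0 : ℕ := 2 * L1 with hj0
  have hj : ((2 * L1 : ℕ) : ℝ) ≤ 2 ^ j0 := by exact_mod_cast (Nat.lt_two_pow_self).le
  set N0 : ℕ := j0 + (1 + j0) * Cn with hN0
  obtain ⟨K2, N, hK2⟩ := rc_fiber d a k N0 (L1 * L1) g hg hirr hd hd2 hk
  obtain ⟨D1, hD1, hsec⟩ := section_count k hk (ε / ((N0 : ℝ) + 1)) (by positivity)
  obtain ⟨mξ, hmξ⟩ : PB (fun Z => ((k : ℝ) + 1) * (Z ^ N0 * (2 * Z ^ N0) ^ k)) :=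
    (PB.const _ (by positivity)).mul ((PB.id.pow N0).mul
      (((PB.const 2 (by norm_num)).mul (PB.id.pow N0)).pow k))
  set M : ℕ := mξ + N * k with hM
  set ε1 : ℝ := ε / ((M : ℝ) + 1) with hε1
  have hε1pos : 0 < ε1 := by positivity
  obtain ⟨C1, hC1, hdiv⟩ := Pool.Agent.Lib.MP0b15c0.divisor_bound hε1pos
  set M0 : ℕ := L1 * (2 * L1) ^ Cn with hM0
  refine ⟨((2 * M0 + 1 : ℕ) : ℝ) ^ 2 + D1 + 2 * C1 * (K2 * (C1 ^ k + 1)), by positivity, ?_⟩
  intro Y hY A Ξ Ψ hAd hΞd hΨd hAc hΞc hΨc hNZ hNZ2 S hS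
  have hY0 : (0 : ℝ) < Y := by linarith
  have hYε : (1 : ℝ) ≤ Y ^ ε := Real.one_le_rpow hY hε.le
  have hYC : Y ^ C' ≤ Y ^ Cn := by
    rw [← Real.rpow_natCast]
    exact Real.rpow_le_rpow_of_exponent_le hY hCn
  have hYC0 : 0 ≤ Y ^ C' := Real.rpow_nonneg hY0.le _
  have hLY : L * Y ^ C' ≤ L1 * Y ^ Cn :=
    (mul_le_mul_of_nonneg_right hLL1 hYC0).trans (mul_le_mul_of_nonneg_left hYC (by linarith))
  have hKpos1 : 0 ≤ ((2 * M0 + 1 : ℕ) : ℝ) ^ 2 := by positivity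
  have hKpos2 : 0 ≤ 2 * C1 * (K2 * (C1 ^ k + 1)) := by positivity
  by_cases hsmall : Y < 2 * L1
  · -- small Y
    have hb : L1 * Y ^ Cn ≤ (M0 : ℝ) := by
      rw [hM0]
      push_cast
      gcongr
    have hbox : S ⊆ (Finset.Icc (-(M0 : ℤ)) M0) ×ˢ (Finset.Icc (-(M0 : ℤ)) M0) := by
      intro s hs
      obtain ⟨-, h2, h3, -⟩ := hS s hs
      have h4 : |(s.1 : ℝ)| ≤ (M0 : ℝ) := h2.trans (hLY.trans hb)
      have h5 : |(s.2 : ℝ)| ≤ (M0 : ℝ) := h3.trans (hLY.trans hb)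
      have h6 : |s.1| ≤ (M0 : ℤ) := by exact_mod_cast h4
      have h7 : |s.2| ≤ (M0 : ℤ) := by exact_mod_cast h5
      rw [abs_le] at h6 h7
      exact Finset.mem_product.2 ⟨Finset.mem_Icc.2 h6, Finset.mem_Icc.2 h7⟩
    have h1 := Finset.card_le_card hbox
    rw [Finset.card_product, Int.card_Icc] at h1
    have h2 : ((M0 : ℤ) + 1 - -(M0 : ℤ)).toNat = 2 * M0 + 1 := by omega
    rw [h2] at h1
    have h3 : (S.card : ℝ) ≤ ((2 * M0 + 1 : ℕ) : ℝ) ^ 2 := by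
      rw [sq]; exact_mod_cast h1
    calc (S.card : ℝ) ≤ ((2 * M0 + 1 : ℕ) : ℝ) ^ 2 * 1 := by rw [mul_one]; exact h3
      _ ≤ (((2 * M0 + 1 : ℕ) : ℝ) ^ 2 + D1 + 2 * C1 * (K2 * (C1 ^ k + 1))) * Y ^ ε := by
          refine mul_le_mul ?_ hYε (by norm_num) (by positivity)
          linarith
  · rw [not_lt] at hsmall
    have hL0 : (0 : ℝ) < L1 := by linarith
    set Z : ℝ := Y / L1 with hZdef
    have hYZ : Y = L1 * Z := by rw [hZdef]; field_simp
    have hZ : 2 ≤ Z := by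
      rw [hZdef, le_div_iff₀ hL0]; exact hsmall
    have hZ1 : (1 : ℝ) ≤ Z := by linarith
    have hZY : Z ≤ Y := by
      rw [hYZ]
      exact le_mul_of_one_le_left (by linarith) hL1
    have hL1Z : (L1 : ℝ) ≤ Z ^ j0 := by
      calc (L1 : ℝ) ≤ ((2 * L1 : ℕ) : ℝ) := by push_cast; linarith
        _ ≤ 2 ^ j0 := hj
        _ ≤ Z ^ j0 := pow_le_pow_left₀ (by norm_num) hZ _
    have hYZ' : Y ≤ Z ^ (1 + j0) := by
      rw [pow_add, pow_one]
      calc Y = L1 * Z := hYZ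
        _ ≤ Z ^ j0 * Z := by gcongr
        _ = Z * Z ^ j0 := mul_comm _ _
    have hB : L1 * Y ^ Cn ≤ Z ^ N0 := by
      have h1 : Y ^ Cn ≤ (Z ^ (1 + j0)) ^ Cn := pow_le_pow_left₀ hY0.le hYZ' Cn
      have h2 : Z ^ N0 = Z ^ j0 * (Z ^ (1 + j0)) ^ Cn := by
        rw [hN0, pow_add Z j0 ((1 + j0) * Cn), pow_mul Z (1 + j0) Cn]
      rw [h2]
      exact mul_le_mul hL1Z h1 (by positivity) (by positivity)
    have hB' : L * Y ^ C' ≤ Z ^ N0 := hLY.trans hB
    have hZN : (1 : ℝ) ≤ Z ^ N0 := one_le_pow₀ hZ1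
    have hAc' : ∀ i j, |((A i).coeff j : ℝ)| ≤ Z ^ N0 := fun i j => (hAc i j).trans hB'
    have hΞc' : ∀ j, |(Ξ.coeff j : ℝ)| ≤ Z ^ N0 := fun j => (hΞc j).trans hB'
    have hΨc' : ∀ j, |(Ψ.coeff j : ℝ)| ≤ Z ^ N0 := fun j => (hΨc j).trans hB'
    by_cases hpow : ∃ c a0 b0 : ℤ, ∀ u v : ℤ, hf Ψ k u v = c * (a0 * u + b0 * v) ^ k
    · -- one root
      rcases S.eq_empty_or_nonempty with hSe | ⟨s0, hs0⟩
      · subst hSe
        simp only [Finset.card_empty, Nat.cast_zero]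
        positivity
      obtain ⟨c, a0, b0, hcab⟩ := hpow
      have hs00 : hf Ψ k s0.1 s0.2 ≠ 0 := by
        obtain ⟨-, -, -, n, p, α, h, -⟩ := hS s0 hs0
        exact h
      have hc0 : c ≠ 0 := by
        rintro rfl
        apply hs00
        rw [hcab, zero_mul]
      have hab0 : a0 ≠ 0 ∨ b0 ≠ 0 := by
        by_contra hcon
        push Not at hcon
        apply hs00
        rw [hcab, hcon.1, hcon.2, zero_mul, zero_mul, add_zero, zero_pow (by omega), mul_zero]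
      have hg0 : (Int.gcd a0 b0 : ℤ) ≠ 0 := by
        intro h
        have h1 := Int.gcd_eq_zero_iff.1 (by exact_mod_cast h : Int.gcd a0 b0 = 0)
        rcases hab0 with h2 | h2
        · exact h2 h1.1
        · exact h2 h1.2
      set γ : ℤ := (Int.gcd a0 b0 : ℤ) with hγ
      obtain ⟨a1, ha1⟩ : γ ∣ a0 := Int.gcd_dvd_left _ _
      obtain ⟨b1, hb1⟩ : γ ∣ b0 := Int.gcd_dvd_right _ _
      have hco : IsCoprime a1 b1 := by
        obtain ⟨x, y, hxy⟩ : ∃ x y : ℤ, γ = a0 * x + b0 * y :=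
          ⟨Int.gcdA a0 b0, Int.gcdB a0 b0, Int.gcd_eq_gcd_ab a0 b0⟩
        refine ⟨x, y, ?_⟩
        have h1 : γ * (x * a1 + y * b1) = γ * 1 := by
          rw [mul_one]
          nth_rewrite 2 [hxy]
          rw [ha1, hb1]
          ring
        exact mul_left_cancel₀ hg0 h1
      set c1 : ℤ := c * γ ^ k with hc1
      have hc10 : c1 ≠ 0 := mul_ne_zero hc0 (pow_ne_zero _ hg0)
      have hΨ1 : ∀ u v : ℤ, hf Ψ k u v = c1 * (a1 * u + b1 * v) ^ k := by
        intro u v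
        rw [hcab u v, ha1, hb1, hc1]
        have : γ * a1 * u + γ * b1 * v = γ * (a1 * u + b1 * v) := by ring
        rw [this, mul_pow]; ring
      have hcoefk : Ψ.coeff k = c1 * a1 ^ k := by
        have := hΨ1 1 0
        rw [hf_zero_right] at this
        simpa using this
      have hcoef0 : Ψ.coeff 0 = c1 * b1 ^ k := by
        have h1 := hΨ1 0 1
        have h2 : hf Ψ k 0 1 = Ψ.coeff 0 := by
          unfold hf
          rw [Finset.sum_eq_single 0]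
          · simp
          · intro i _ hi
            rw [zero_pow hi]; simp
          · intro h; exact absurd (Finset.mem_range.2 (Nat.succ_pos k)) h
        rw [h2] at h1
        simpa using h1
      have hab1 : a1 ≠ 0 ∨ b1 ≠ 0 := by
        by_contra hcon
        push Not at hcon
        rw [hcon.1, hcon.2] at hco
        exact not_isCoprime_zero_zero hco
      have hone : ∀ x : ℤ, x ≠ 0 → (1 : ℝ) ≤ |(x : ℝ)| := by
        intro x hx
        have h5 : (1 : ℤ) ≤ |x| := Int.one_le_abs hx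
        exact_mod_cast h5
      have hc1b : |(c1 : ℝ)| ≤ Z ^ N0 := by
        rcases hab1 with h | h
        · have h1 := hΨc' k
          rw [hcoefk] at h1
          push_cast at h1
          rw [abs_mul, abs_pow] at h1
          have h2 : (1 : ℝ) ≤ |(a1 : ℝ)| ^ k := one_le_pow₀ (hone a1 h)
          exact (le_mul_of_one_le_right (abs_nonneg _) h2).trans h1
        · have h1 := hΨc' 0
          rw [hcoef0] at h1
          push_cast at h1
          rw [abs_mul, abs_pow] at h1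
          have h2 : (1 : ℝ) ≤ |(b1 : ℝ)| ^ k := one_le_pow₀ (hone b1 h)
          exact (le_mul_of_one_le_right (abs_nonneg _) h2).trans h1
      have hlin : ∀ x : ℤ, |((c1 * x ^ k : ℤ) : ℝ)| ≤ Z ^ N0 → |(x : ℝ)| ≤ Z ^ N0 := by
        intro x hx
        by_cases h0 : x = 0
        · rw [h0]; simp only [Int.cast_zero, abs_zero]; linarith
        · push_cast at hx
          rw [abs_mul, abs_pow] at hx
          have h1 : |(x : ℝ)| ≤ |(x : ℝ)| ^ k := le_self_pow₀ (hone x h0) (by omega)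
          have h2 : |(x : ℝ)| ^ k ≤ |(c1 : ℝ)| * |(x : ℝ)| ^ k :=
            le_mul_of_one_le_left (by positivity) (hone c1 hc10)
          exact h1.trans (h2.trans hx)
      have ha1b : |(a1 : ℝ)| ≤ Z ^ N0 := hlin a1 (by rw [← hcoefk]; exact hΨc' k)
      have hb1b : |(b1 : ℝ)| ≤ Z ^ N0 := hlin b1 (by rw [← hcoef0]; exact hΨc' 0)
      set ξ : ℤ := hf Ξ k b1 (-a1) with hξ
      have hξ0 : ξ ≠ 0 := by
        intro h
        have hne : (((b1 : ℤ) : ℂ), ((-a1 : ℤ) : ℂ)) ≠ (0, 0) := by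
          intro h1
          have h2 := (Prod.mk.inj h1).1
          have h3 := (Prod.mk.inj h1).2
          have h4 : b1 = 0 := by exact_mod_cast h2
          have h5 : -a1 = 0 := by exact_mod_cast h3
          rcases hab1 with h6 | h6
          · exact h6 (by omega)
          · exact h6 h4
        rcases hNZ2 _ _ hne with h1 | h1
        · apply h1
          rw [← hf_cast, ← hξ, h]; simp
        · apply h1
          rw [← hf_cast, hΨ1]
          have : a1 * b1 + b1 * (-a1) = 0 := by ring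
          rw [this, zero_pow (by omega), mul_zero]; simp
      have hξb : |((ξ : ℤ) : ℝ)| ≤ Z ^ mξ := by
        refine le_trans ?_ (hmξ Z hZ).2
        exact hf_abs_le Ξ k b1 (-a1) _ hZN hΞc' hb1b (by push_cast; rw [abs_neg]; exact ha1b)
      -- the fibres
      set ρ : ℤ × ℤ → ℤ := fun s => a1 * s.1 + b1 * s.2 with hρ
      have hρ0 : ∀ s ∈ S, ρ s ≠ 0 := by
        intro s hs h
        obtain ⟨-, -, -, n, p, α, h1, -⟩ := hS s hs
        apply h1
        rw [hΨ1]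
        change c1 * (ρ s) ^ k = 0
        rw [h, zero_pow (by omega), mul_zero]
      have hρξ : ∀ s ∈ S, ρ s ∣ ξ := by
        intro s hs
        obtain ⟨h0, -, -, n, p, α, -, h1, -⟩ := hS s hs
        refine line_dvd Ξ k a1 b1 s.1 s.2 h0 ?_
        rw [← h1, hΨ1]
        have h2 : k = (k - 1) + 1 := by omega
        rw [h2, pow_succ]
        exact ⟨n * (c1 * (a1 * s.1 + b1 * s.2) ^ (k - 1)), by ring⟩
      have hdivξ : (((ξ.natAbs).divisors.card : ℕ) : ℝ) ≤ C1 * (Z ^ mξ) ^ ε1 := by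
        refine (hdiv _ (Int.natAbs_ne_zero.2 hξ0)).trans ?_
        have h1 : ((ξ.natAbs : ℕ) : ℝ) = |(ξ : ℝ)| := by
          rw [Nat.cast_natAbs]; push_cast; rfl
        rw [h1]
        gcongr
      have himg : (S.image ρ).card ≤ 2 * (ξ.natAbs).divisors.card := by
        have h1 : S.image ρ ⊆ ((ξ.natAbs).divisors.image (fun m : ℕ => (m : ℤ))) ∪
            ((ξ.natAbs).divisors.image (fun m : ℕ => -(m : ℤ))) := by
          intro r hr
          obtain ⟨s, hs, rfl⟩ := Finset.mem_image.1 hr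
          have h2 : (ρ s).natAbs ∈ (ξ.natAbs).divisors :=
            Nat.mem_divisors.2 ⟨Int.natAbs_dvd_natAbs.2 (hρξ s hs), Int.natAbs_ne_zero.2 hξ0⟩
          rcases Int.natAbs_eq (ρ s) with h3 | h3
          · refine Finset.mem_union_left _ (Finset.mem_image.2 ⟨_, h2, h3.symm⟩)
          · refine Finset.mem_union_right _ (Finset.mem_image.2 ⟨_, h2, h3.symm⟩)
        refine (Finset.card_le_card h1).trans ((Finset.card_union_le _ _).trans ?_)
        have h2 := Finset.card_image_le (s := (ξ.natAbs).divisors) (f := fun m : ℕ => (m : ℤ))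
        have h3 := Finset.card_image_le (s := (ξ.natAbs).divisors) (f := fun m : ℕ => -(m : ℤ))
        omega
      set W : ℝ := (K2 : ℝ) * ((C1 * (Z ^ N) ^ ε1) ^ k + 1) with hW
      have hW0 : 0 ≤ W := by positivity
      have hfib : ∀ r ∈ S.image ρ, ((S.filter (fun s => ρ s = r)).card : ℝ) ≤ W := by
        intro r hr
        obtain ⟨s1, hs1, hs1r⟩ := Finset.mem_image.1 hr
        have hr0 : r ≠ 0 := by rw [← hs1r]; exact hρ0 s1 hs1
        obtain ⟨h1, h2⟩ := hK2 Z hZ A Ξ Ψ c1 a1 b1 r hAc' hΞc' hc1b ha1b hb1b hΨ1 hco hξ0 hc10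
          hr0 hNZ (S.filter (fun s => ρ s = r)) ⟨s1, Finset.mem_filter.2 ⟨hs1, hs1r⟩⟩ (by
            intro s hs
            obtain ⟨hs', hsr⟩ := Finset.mem_filter.1 hs
            obtain ⟨q1, q2, q3, n, p, α, q4, q5, q6, q7, q8, q9, q10, q11, q12, q13⟩ := hS s hs'
            refine ⟨hsr, q2.trans hB', q3.trans hB', n, p, α, q5, ?_, q7, ?_, q9, q10, q11, q12,
              q13⟩
            · calc |(n : ℝ)| ≤ L * Y := q6
                _ ≤ L1 * Y := by gcongr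
                _ = ((L1 * L1 : ℕ) : ℝ) * Z := by rw [hYZ]; push_cast; ring
            · rw [hZdef, div_le_iff₀ hL0]
              calc Y ≤ L * p := q8
                _ ≤ L1 * p := by gcongr
                _ = p * L1 := mul_comm _ _)
        have hΔ0 : c1 * r ^ k ≠ 0 := mul_ne_zero hc10 (pow_ne_zero _ hr0)
        have h3 : ((((c1 * r ^ k).natAbs).divisors.card : ℕ) : ℝ) ≤ C1 * (Z ^ N) ^ ε1 := by
          refine (hdiv _ (Int.natAbs_ne_zero.2 hΔ0)).trans ?_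
          have h4 : (((c1 * r ^ k).natAbs : ℕ) : ℝ) = |((c1 * r ^ k : ℤ) : ℝ)| := by
            rw [Nat.cast_natAbs, Int.cast_abs]
          rw [h4]
          gcongr
        calc ((S.filter (fun s => ρ s = r)).card : ℝ) ≤
            ((K2 * (((c1 * r ^ k).natAbs).divisors.card ^ k + 1) : ℕ) : ℝ) := by exact_mod_cast h2
          _ = (K2 : ℝ) * (((((c1 * r ^ k).natAbs).divisors.card : ℕ) : ℝ) ^ k + 1) := by push_cast; ring
          _ ≤ W := by
              have h5 := pow_le_pow_left₀ (Nat.cast_nonneg _) h3 k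
              rw [hW]
              exact mul_le_mul_of_nonneg_left (add_le_add_left h5 1) (Nat.cast_nonneg _)
      have hsum : (S.card : ℝ) ≤ ((S.image ρ).card : ℝ) * W := by
        rw [Finset.card_eq_sum_card_image ρ S]
        push_cast
        refine (Finset.sum_le_card_nsmul _ _ W hfib).trans ?_
        rw [nsmul_eq_mul]
      have himg' : ((S.image ρ).card : ℝ) ≤ 2 * (C1 * (Z ^ mξ) ^ ε1) := by
        calc ((S.image ρ).card : ℝ) ≤ ((2 * (ξ.natAbs).divisors.card : ℕ) : ℝ) := by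
              exact_mod_cast himg
          _ = 2 * (((ξ.natAbs).divisors.card : ℕ) : ℝ) := by push_cast; ring
          _ ≤ _ := by linarith
      -- exponents
      have hZ0 : (0 : ℝ) ≤ Z := by linarith
      have e1 : (Z ^ mξ) ^ ε1 = Z ^ ((mξ : ℝ) * ε1) := by
        rw [← Real.rpow_natCast, ← Real.rpow_mul hZ0]
      have e2 : ((Z ^ N) ^ ε1) ^ k = Z ^ (((N * k : ℕ) : ℝ) * ε1) := by
        rw [← Real.rpow_natCast, ← Real.rpow_natCast, ← Real.rpow_mul hZ0, ← Real.rpow_mul hZ0]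
        congr 1
        push_cast
        ring
      have e3 : (1 : ℝ) ≤ ((Z ^ N) ^ ε1) ^ k := by
        rw [e2]
        exact Real.one_le_rpow hZ1 (by positivity)
      have e4 : (Z ^ mξ) ^ ε1 * ((Z ^ N) ^ ε1) ^ k ≤ Y ^ ε := by
        rw [e1, e2, ← Real.rpow_add (by linarith)]
        calc Z ^ ((mξ : ℝ) * ε1 + ((N * k : ℕ) : ℝ) * ε1) ≤ Z ^ ε := by
              refine Real.rpow_le_rpow_of_exponent_le hZ1 ?_
              have h1 : (mξ : ℝ) * ε1 + ((N * k : ℕ) : ℝ) * ε1 = (M : ℝ) * ε1 := by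
                rw [hM]; push_cast; ring
              rw [h1, hε1]
              have h2 : (M : ℝ) * (ε / ((M : ℝ) + 1)) = ε * ((M : ℝ) / ((M : ℝ) + 1)) := by ring
              rw [h2]
              have h3 : (M : ℝ) / ((M : ℝ) + 1) ≤ 1 := by
                rw [div_le_one (by positivity)]; linarith
              calc ε * ((M : ℝ) / ((M : ℝ) + 1)) ≤ ε * 1 := by gcongr
                _ = ε := mul_one ε
          _ ≤ Y ^ ε := Real.rpow_le_rpow hZ0 hZY hε.le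
      have hWb : W ≤ (K2 * (C1 ^ k + 1)) * ((Z ^ N) ^ ε1) ^ k := by
        rw [hW, mul_pow]
        have h1 : C1 ^ k * ((Z ^ N) ^ ε1) ^ k + 1 ≤ (C1 ^ k + 1) * ((Z ^ N) ^ ε1) ^ k := by
          rw [add_mul, one_mul]
          linarith
        calc (K2 : ℝ) * (C1 ^ k * ((Z ^ N) ^ ε1) ^ k + 1) ≤
            K2 * ((C1 ^ k + 1) * ((Z ^ N) ^ ε1) ^ k) := by gcongr
          _ = _ := by ring
      calc (S.card : ℝ) ≤ ((S.image ρ).card : ℝ) * W := hsum
        _ ≤ (2 * (C1 * (Z ^ mξ) ^ ε1)) * ((K2 * (C1 ^ k + 1)) * ((Z ^ N) ^ ε1) ^ k) := by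
            refine mul_le_mul himg' hWb hW0 (by positivity)
        _ = (2 * C1 * (K2 * (C1 ^ k + 1))) * ((Z ^ mξ) ^ ε1 * ((Z ^ N) ^ ε1) ^ k) := by ring
        _ ≤ (2 * C1 * (K2 * (C1 ^ k + 1))) * Y ^ ε := by gcongr
        _ ≤ (((2 * M0 + 1 : ℕ) : ℝ) ^ 2 + D1 + 2 * C1 * (K2 * (C1 ^ k + 1))) * Y ^ ε := by
            refine mul_le_mul_of_nonneg_right ?_ (by positivity)
            linarith
    · -- at least two roots
      have htop : Ψ.coeff k ≠ 0 ∨ Ξ.coeff k ≠ 0 := by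
        have hne : ((1 : ℂ), (0 : ℂ)) ≠ (0, 0) := by
          intro h
          exact one_ne_zero (Prod.mk.inj h).1
        have key : ∀ P : ℤ[X], ∑ j ∈ Finset.range (k + 1), (P.coeff j : ℂ) * (1 : ℂ) ^ j *
            (0 : ℂ) ^ (k - j) = (P.coeff k : ℂ) := by
          intro P
          rw [Finset.sum_eq_single k]
          · simp
          · intro i hi hik
            have := Finset.mem_range.1 hi
            rw [zero_pow (by omega)]; simp
          · intro h; exact absurd (Finset.mem_range.2 (Nat.lt_succ_self k)) h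
        rcases hNZ2 1 0 hne with h | h
        · right; intro h0; apply h; rw [key, h0]; simp
        · left; intro h0; apply h; rw [key, h0]; simp
      have hcop : IsCoprime (Ψ.map (Int.castRingHom ℚ)) (Ξ.map (Int.castRingHom ℚ)) := by
        refine coprime_of_no_root Ψ Ξ ?_
        intro z
        have key : ∀ P : ℤ[X], P.natDegree ≤ k → aeval z P =
            ∑ j ∈ Finset.range (k + 1), (P.coeff j : ℂ) * z ^ j * (1 : ℂ) ^ (k - j) := by
          intro P hP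
          rw [Polynomial.aeval_eq_sum_range' (n := k + 1) (by omega)]
          refine Finset.sum_congr rfl ?_
          intro i _
          simp
        have hne : ((z : ℂ), (1 : ℂ)) ≠ (0, 0) := by
          intro h
          exact one_ne_zero (Prod.mk.inj h).2
        rcases hNZ2 z 1 hne with h | h
        · right; rw [key Ξ hΞd]; exact h
        · left; rw [key Ψ hΨd]; exact h
      have h1 := hsec Ψ Ξ (Z ^ N0) hZN hΨd hΞd htop hcop hΨc' hΞc' hpow S (by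
        intro s hs
        obtain ⟨q1, q2, q3, n, p, α, q4, q5, -⟩ := hS s hs
        exact ⟨q1, q2.trans hB', q3.trans hB', Dvd.intro_left n q5⟩)
      have hZ0 : (0 : ℝ) ≤ Z := by linarith
      have h2 : (Z ^ N0) ^ (ε / ((N0 : ℝ) + 1)) ≤ Y ^ ε := by
        rw [← Real.rpow_natCast, ← Real.rpow_mul hZ0]
        calc Z ^ ((N0 : ℝ) * (ε / ((N0 : ℝ) + 1))) ≤ Z ^ ε := by
              refine Real.rpow_le_rpow_of_exponent_le hZ1 ?_
              have h2 : (N0 : ℝ) * (ε / ((N0 : ℝ) + 1)) = ε * ((N0 : ℝ) / ((N0 : ℝ) + 1)) := by ring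
              rw [h2]
              have h3 : (N0 : ℝ) / ((N0 : ℝ) + 1) ≤ 1 := by
                rw [div_le_one (by positivity)]; linarith
              calc ε * ((N0 : ℝ) / ((N0 : ℝ) + 1)) ≤ ε * 1 := by gcongr
                _ = ε := mul_one ε
          _ ≤ Y ^ ε := Real.rpow_le_rpow hZ0 hZY hε.le
      calc (S.card : ℝ) ≤ D1 * (Z ^ N0) ^ (ε / ((N0 : ℝ) + 1)) := h1
        _ ≤ D1 * Y ^ ε := by gcongr
        _ ≤ (((2 * M0 + 1 : ℕ) : ℝ) ^ 2 + D1 + 2 * C1 * (K2 * (C1 ^ k + 1))) * Y ^ ε := by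
            refine mul_le_mul_of_nonneg_right ?_ (by positivity)
            linarith

end Pool.Agent.Lib.SQF.RC

namespace Pool.Agent.Lib.SQF

open Pool.Agent.SQF4

/-- **Lemma RC**, general degree `d ≥ 2`, with a constant `L` in all bounds. -/
theorem rc_count_gen (d : ℕ) (g : ℤ[X]) (hg : g.Monic) (hirr : Irreducible g)
    (hd : g.natDegree = d) (hd2 : 2 ≤ d) (a k : ℕ) (hk : 1 ≤ k) (C L ε : ℝ) (hε : 0 < ε) :
    ∃ K : ℝ, 0 < K ∧ ∀ Y : ℝ, 1 ≤ Y → ∀ (A : Fin d → ℤ[X]) (Ξ Ψ : ℤ[X]),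
      (∀ i, (A i).natDegree ≤ a) → Ξ.natDegree ≤ k → Ψ.natDegree ≤ k →
      (∀ i j, |((A i).coeff j : ℝ)| ≤ L * Y ^ C) → (∀ j, |(Ξ.coeff j : ℝ)| ≤ L * Y ^ C) →
      (∀ j, |(Ψ.coeff j : ℝ)| ≤ L * Y ^ C) →
      (∀ u v : ℂ, (u, v) ≠ (0, 0) →
        ∃ i, ∑ j ∈ Finset.range (a + 1), ((A i).coeff j : ℂ) * u ^ j * v ^ (a - j) ≠ 0) →
      (∀ u v : ℂ, (u, v) ≠ (0, 0) →
        ∑ j ∈ Finset.range (k + 1), (Ξ.coeff j : ℂ) * u ^ j * v ^ (k - j) ≠ 0 ∨
        ∑ j ∈ Finset.range (k + 1), (Ψ.coeff j : ℂ) * u ^ j * v ^ (k - j) ≠ 0) →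
      ∀ S : Finset (ℤ × ℤ),
      (∀ s ∈ S, IsCoprime s.1 s.2 ∧ |(s.1 : ℝ)| ≤ L * Y ^ C ∧ |(s.2 : ℝ)| ≤ L * Y ^ C ∧
        ∃ (n : ℤ) (p : ℕ) (α : Fin d → ℤ), hf Ψ k s.1 s.2 ≠ 0 ∧
          n * hf Ψ k s.1 s.2 = hf Ξ k s.1 s.2 ∧ |(n : ℝ)| ≤ L * Y ∧ p.Prime ∧ Y ≤ L * p ∧
          (p : ℤ) ^ 2 ∣ g.eval n ∧ (p : ℤ) ∣ ∑ i, α i * n ^ (i : ℕ) ∧
          ¬ (p : ℤ) ^ 2 ∣ ∑ i, α i * n ^ (i : ℕ) ∧ (∃ i, ¬ (p : ℤ) ∣ α i) ∧
          ∀ i j, α i * hf (A j) a s.1 s.2 = α j * hf (A i) a s.1 s.2) →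
      (S.card : ℝ) ≤ K * Y ^ ε :=
  RC.rc_count_gen d g hg hirr hd hd2 a k hk C L ε hε

/-- **Lemma RC** for quartics: a parametrised curve carries `≪ Y^ε` solutions. -/
theorem rc_count (g : ℤ[X]) (hg : g.Monic) (hirr : Irreducible g)
    (hd : g.natDegree = 4) (a k : ℕ) (hk : 1 ≤ k) (C L ε : ℝ) (hε : 0 < ε) :
    ∃ K : ℝ, 0 < K ∧ ∀ Y : ℝ, 1 ≤ Y → ∀ (A : Fin 4 → ℤ[X]) (Ξ Ψ : ℤ[X]),
      (∀ i, (A i).natDegree ≤ a) → Ξ.natDegree ≤ k → Ψ.natDegree ≤ k →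
      (∀ i j, |((A i).coeff j : ℝ)| ≤ Y ^ C) → (∀ j, |(Ξ.coeff j : ℝ)| ≤ Y ^ C) →
      (∀ j, |(Ψ.coeff j : ℝ)| ≤ Y ^ C) →
      (∀ u v : ℂ, (u, v) ≠ (0, 0) →
        ∃ i, ∑ j ∈ Finset.range (a + 1), ((A i).coeff j : ℂ) * u ^ j * v ^ (a - j) ≠ 0) →
      (∀ u v : ℂ, (u, v) ≠ (0, 0) →
        ∑ j ∈ Finset.range (k + 1), (Ξ.coeff j : ℂ) * u ^ j * v ^ (k - j) ≠ 0 ∨
        ∑ j ∈ Finset.range (k + 1), (Ψ.coeff j : ℂ) * u ^ j * v ^ (k - j) ≠ 0) →
      ∀ S : Finset (ℤ × ℤ),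
      (∀ s ∈ S, IsCoprime s.1 s.2 ∧ |(s.1 : ℝ)| ≤ Y ^ C ∧ |(s.2 : ℝ)| ≤ Y ^ C ∧
        ∃ (n : ℤ) (p : ℕ) (α : Fin 4 → ℤ), hf Ψ k s.1 s.2 ≠ 0 ∧
          n * hf Ψ k s.1 s.2 = hf Ξ k s.1 s.2 ∧ |(n : ℝ)| ≤ L * Y ∧ p.Prime ∧ Y ≤ L * p ∧
          (p : ℤ) ^ 2 ∣ g.eval n ∧ (p : ℤ) ∣ ∑ i, α i * n ^ (i : ℕ) ∧
          ¬ (p : ℤ) ^ 2 ∣ ∑ i, α i * n ^ (i : ℕ) ∧ (∃ i, ¬ (p : ℤ) ∣ α i) ∧
          ∀ i j, α i * hf (A j) a s.1 s.2 = α j * hf (A i) a s.1 s.2) →
      (S.card : ℝ) ≤ K * Y ^ ε := by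
  obtain ⟨K, hK, h⟩ := rc_count_gen 4 g hg hirr hd (by norm_num) a k hk C (max L 1) ε hε
  refine ⟨K, hK, ?_⟩
  intro Y hY A Ξ Ψ hA hΞ hΨ hAc hΞc hΨc hNZ hNZ2 S hS
  have hY0 : (0 : ℝ) < Y := by linarith
  have hYC : Y ^ C ≤ max L 1 * Y ^ C :=
    le_mul_of_one_le_left (Real.rpow_nonneg hY0.le _) (le_max_right _ _)
  refine h Y hY A Ξ Ψ hA hΞ hΨ (fun i j => (hAc i j).trans hYC) (fun j => (hΞc j).trans hYC)
    (fun j => (hΨc j).trans hYC) hNZ hNZ2 S ?_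
  intro s hs
  obtain ⟨h1, h2, h3, n, p, α, h4, h5, h6, h7, h8, h9⟩ := hS s hs
  refine ⟨h1, h2.trans hYC, h3.trans hYC, n, p, α, h4, h5, ?_, h7, ?_, h9⟩
  · exact h6.trans (mul_le_mul_of_nonneg_right (le_max_left _ _) hY0.le)
  · exact h8.trans (mul_le_mul_of_nonneg_right (le_max_left _ _) (Nat.cast_nonneg _))

end Pool.Agent.Lib.SQF
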