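import Pool.Agent.Lib.SQF4.Sec

/-!
# Removing common factors in the count of solutions on a rational curve
-/

set_option autoImplicit false

open Polynomial

namespace Pool.Agent.Lib.SQF

open Pool.Agent.SQF4

/-- a primitive integer polynomial with a given algebraic root divides all integer polynomials
with that root -/
private lemma rcg_prim (z : ℂ) (P : ℤ[X]) (hP : P ≠ 0)
    (hz : (P.map (Int.castRingHom ℂ)).eval z = 0) :
    ∃ M : ℤ[X], 0 < M.natDegree ∧ ∀ Q : ℤ[X], (Q.map (Int.castRingHom ℂ)).eval z = 0 → M ∣ Q := by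
  classical
  have hQC : ∀ Q : ℤ[X], (Q.map (Int.castRingHom ℂ)).eval z = 0 →
      (aeval z) (Q.map (Int.castRingHom ℚ)) = 0 := by
    intro Q hQ
    rw [aeval_def, eval₂_eq_eval_map, Polynomial.map_map]
    have : (algebraMap ℚ ℂ).comp (Int.castRingHom ℚ) = Int.castRingHom ℂ := RingHom.ext_int _ _
    rw [this]
    exact hQ
  have hP' : P.map (Int.castRingHom ℚ) ≠ 0 := by
    rw [Ne, Polynomial.map_eq_zero_iff (RingHom.injective_int _)]
    exact hP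
  have hint : IsIntegral ℚ z := by
    have : IsAlgebraic ℚ z := ⟨_, hP', hQC P hz⟩
    exact this.isIntegral
  set g := minpoly ℚ z with hg
  have hg0 : g ≠ 0 := minpoly.ne_zero hint
  have hgd : 0 < g.natDegree := minpoly.natDegree_pos hint
  obtain ⟨b, hbm, hb⟩ := IsLocalization.integerNormalization_spec (nonZeroDivisors ℤ) g
  set G0 := IsLocalization.integerNormalization (nonZeroDivisors ℤ) g with hG0
  have hb0 : (b : ℤ) ≠ 0 := nonZeroDivisors.ne_zero hbm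
  have hmap : G0.map (algebraMap ℤ ℚ) = C ((b : ℤ) : ℚ) * g := by
    rw [hb]
    ext i
    simp
  have hbu : IsUnit (C ((b : ℤ) : ℚ) : ℚ[X]) := by
    rw [Polynomial.isUnit_C]
    exact isUnit_iff_ne_zero.mpr (by exact_mod_cast hb0)
  have hprim : G0.primPart.IsPrimitive := G0.isPrimitive_primPart
  have hdvd : (G0.primPart).map (algebraMap ℤ ℚ) ∣ g := by
    have h1 : (G0.primPart).map (algebraMap ℤ ℚ) ∣ G0.map (algebraMap ℤ ℚ) :=
      Polynomial.map_dvd _ (G0.primPart_dvd)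
    rw [hmap] at h1
    exact (hbu.dvd_mul_left).mp h1
  refine ⟨G0.primPart, ?_, ?_⟩
  · rw [Polynomial.natDegree_primPart]
    have h1 : (G0.map (algebraMap ℤ ℚ)).natDegree = G0.natDegree :=
      Polynomial.natDegree_map_eq_of_injective (RingHom.injective_int _) _
    rw [hmap, Polynomial.natDegree_C_mul (by exact_mod_cast hb0)] at h1
    omega
  · intro Q hQ
    refine hprim.dvd_of_fraction_map_dvd_fraction_map (K := ℚ) (hdvd.trans ?_)
    exact minpoly.dvd ℚ z (hQC Q hQ)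

private lemma rcg_coeff {P G P1 : ℤ[X]} {K : ℝ} {D : ℕ} (hP : P ≠ 0) (hG : P = G * P1)
    (hK : 0 ≤ K)
    (hD : P.natDegree ≤ D) (hc : ∀ i, |(P.coeff i : ℝ)| ≤ K) (i : ℕ) :
    |(P1.coeff i : ℝ)| ≤ 2 ^ D * ((D + 1) * K) := by
  have hG0 : G ≠ 0 := by
    rintro rfl
    exact hP (by rw [hG, zero_mul])
  have hP10 : P1 ≠ 0 := by
    rintro rfl
    exact hP (by rw [hG, mul_zero])
  have hdeg1 : P1.natDegree ≤ D := by
    have := Polynomial.natDegree_mul hG0 hP10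
    rw [← hG] at this
    omega
  have h1 := norm_coeff_le_choose_mul_mahlerMeasure i (P1.map (Int.castRingHom ℂ))
  have hinj : Function.Injective (Int.castRingHom ℂ) := RingHom.injective_int _
  rw [Polynomial.natDegree_map_eq_of_injective hinj, Polynomial.coeff_map] at h1
  have h2 : ‖(Int.castRingHom ℂ) (P1.coeff i)‖ = |(P1.coeff i : ℝ)| := by
    simp [Complex.norm_intCast]
  rw [h2] at h1
  have h3 : (P.map (Int.castRingHom ℂ)).mahlerMeasure
      = (G.map (Int.castRingHom ℂ)).mahlerMeasure * (P1.map (Int.castRingHom ℂ)).mahlerMeasure := by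
    rw [hG, Polynomial.map_mul, mahlerMeasure_mul]
  have h4 := one_le_mahlerMeasure_of_ne_zero hG0
  have h5 : (P1.map (Int.castRingHom ℂ)).mahlerMeasure ≤
      (P.map (Int.castRingHom ℂ)).mahlerMeasure := by
    rw [h3]
    have := mahlerMeasure_nonneg (P1.map (Int.castRingHom ℂ))
    nlinarith
  have h6 : (P.map (Int.castRingHom ℂ)).mahlerMeasure ≤ (D + 1) * K := by
    refine (mahlerMeasure_le_sum_norm_coeff _).trans ?_
    rw [Polynomial.sum_over_range _ (fun _ => norm_zero)]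
    rw [Polynomial.natDegree_map_eq_of_injective hinj]
    calc ∑ a ∈ Finset.range (P.natDegree + 1), ‖(P.map (Int.castRingHom ℂ)).coeff a‖
        ≤ ∑ a ∈ Finset.range (P.natDegree + 1), K := by
          apply Finset.sum_le_sum
          intro a _
          rw [Polynomial.coeff_map]
          have : ‖(Int.castRingHom ℂ) (P.coeff a)‖ = |(P.coeff a : ℝ)| := by
            simp [Complex.norm_intCast]
          rw [this]
          exact hc a
      _ = (P.natDegree + 1) * K := by simp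
      _ ≤ (D + 1) * K := by
          gcongr
  have h7 : ((P1.natDegree.choose i : ℕ) : ℝ) ≤ 2 ^ D := by
    have : P1.natDegree.choose i ≤ 2 ^ P1.natDegree := Nat.choose_le_two_pow _ _
    have h8 : 2 ^ P1.natDegree ≤ 2 ^ D := Nat.pow_le_pow_right (by norm_num) hdeg1
    exact_mod_cast this.trans h8
  calc |(P1.coeff i : ℝ)| ≤ (P1.natDegree.choose i : ℕ) *
        (P1.map (Int.castRingHom ℂ)).mahlerMeasure := h1
    _ ≤ 2 ^ D * ((D + 1) * K) := by
        apply mul_le_mul h7 (h5.trans h6) (mahlerMeasure_nonneg _) (by positivity)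

/-- REMOVAL OF THE COMMON FACTOR of a finite family of binary forms of degree `a`. -/
theorem forms_reduce {ι : Type} [Fintype ι] [Nonempty ι] (a : ℕ) (A : ι → ℤ[X])
    (hA : ∀ i, (A i).natDegree ≤ a) (hne : ∃ i, A i ≠ 0) (K : ℝ) (hK : 0 ≤ K)
    (hc : ∀ i j, |((A i).coeff j : ℝ)| ≤ K) :
    ∃ (a0 : ℕ) (D : ℤ[X]) (B : ι → ℤ[X]), a0 ≤ a ∧ (∀ i, (B i).natDegree ≤ a0) ∧
      (∀ i j, |((B i).coeff j : ℝ)| ≤ 2 ^ a * ((a + 1) * K)) ∧
      (∀ i s r, hf (A i) a s r = hf D (a - a0) s r * hf (B i) a0 s r) ∧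
      (∀ u v : ℂ, (u, v) ≠ (0, 0) →
        ∃ i, ∑ j ∈ Finset.range (a0 + 1), ((B i).coeff j : ℂ) * u ^ j * v ^ (a0 - j) ≠ 0) := by
  classical
  let _ : StrongNormalizationMonoid ℤ[X] := UniqueFactorizationMonoid.strongNormalizationMonoid
  let _ : NormalizedGCDMonoid ℤ[X] := UniqueFactorizationMonoid.toNormalizedGCDMonoid ℤ[X]
  obtain ⟨B, hB, hB1⟩ := Finset.extract_gcd A (Finset.univ_nonempty (α := ι))
  set D := Finset.univ.gcd A with hD
  have hD0 : D ≠ 0 := by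
    intro h0
    obtain ⟨i, hi⟩ := hne
    exact hi (by rw [hB i (Finset.mem_univ i), h0, zero_mul])
  have hB0 : ∃ i, B i ≠ 0 := by
    obtain ⟨i, hi⟩ := hne
    refine ⟨i, fun h0 => hi ?_⟩
    rw [hB i (Finset.mem_univ i), h0, mul_zero]
  set a0 := Finset.univ.sup (fun i => (B i).natDegree) with ha0
  have hBd : ∀ i, (B i).natDegree ≤ a0 := fun i =>
    Finset.le_sup (f := fun i => (B i).natDegree) (Finset.mem_univ i)
  have hcase : ∀ i, B i ≠ 0 → D.natDegree + (B i).natDegree ≤ a := by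
    intro i hi
    have h1 := Polynomial.natDegree_mul hD0 hi
    rw [← hB i (Finset.mem_univ i)] at h1
    have := hA i
    omega
  -- an index with exact degree
  obtain ⟨i0, hi0, hi0d⟩ : ∃ i, B i ≠ 0 ∧ (B i).natDegree = a0 := by
    obtain ⟨i1, -, hi1⟩ := Finset.exists_mem_eq_sup (Finset.univ : Finset ι) Finset.univ_nonempty
      (fun i => (B i).natDegree)
    by_cases h : B i1 = 0
    · obtain ⟨i2, hi2⟩ := hB0
      refine ⟨i2, hi2, ?_⟩
      have h3 : a0 = 0 := by rw [ha0, hi1]; simp [h]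
      have := hBd i2
      omega
    · exact ⟨i1, h, by rw [ha0, hi1]⟩
  have hDa : D.natDegree + a0 ≤ a := by rw [← hi0d]; exact hcase i0 hi0
  refine ⟨a0, D, B, by omega, hBd, ?_, ?_, ?_⟩
  · intro i j
    by_cases h : A i = 0
    · have h1 : B i = 0 := by
        have h2 := hB i (Finset.mem_univ i)
        rw [h] at h2
        exact (mul_eq_zero.1 h2.symm).resolve_left hD0
      rw [h1]
      simp
      positivity
    · exact rcg_coeff h (hB i (Finset.mem_univ i)) hK (hA i) (hc i) j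
  · intro i s r
    have h1 := hf_mul D (B i) (a - a0) a0 (by omega) (hBd i) s r
    rw [← hB i (Finset.mem_univ i), show a - a0 + a0 = a by omega] at h1
    exact h1
  · intro u v huv
    by_cases hv : v = 0
    · subst hv
      have hu : u ≠ 0 := fun h => huv (by rw [h])
      refine ⟨i0, ?_⟩
      rw [Finset.sum_range_succ, Finset.sum_eq_zero, zero_add, Nat.sub_self, pow_zero, mul_one]
      · refine mul_ne_zero ?_ (pow_ne_zero _ hu)
        rw [← hi0d]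
        have : (B i0).coeff (B i0).natDegree ≠ 0 := by
          rw [Polynomial.coeff_natDegree]
          exact Polynomial.leadingCoeff_ne_zero.2 hi0
        exact_mod_cast this
      · intro j hj
        have := Finset.mem_range.1 hj
        rw [zero_pow (by omega), mul_zero]
    · have hform : ∀ i, ∑ j ∈ Finset.range (a0 + 1), ((B i).coeff j : ℂ) * u ^ j * v ^ (a0 - j)
          = v ^ a0 * ((B i).map (Int.castRingHom ℂ)).eval (u / v) := by
        intro i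
        rw [eval_eq_sum_range' (n := a0 + 1) (by
          have : ((B i).map (Int.castRingHom ℂ)).natDegree ≤ (B i).natDegree := natDegree_map_le
          have := hBd i
          omega), Finset.mul_sum]
        refine Finset.sum_congr rfl ?_
        intro j hj
        have hj' := Finset.mem_range.1 hj
        rw [coeff_map, eq_intCast]
        have : v ^ a0 = v ^ (a0 - j) * v ^ j := by rw [← pow_add]; congr 1; omega
        rw [this, div_pow]
        field_simp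
      by_contra hcon
      push Not at hcon
      have hz : ∀ i, ((B i).map (Int.castRingHom ℂ)).eval (u / v) = 0 := by
        intro i
        have h1 := hcon i
        rw [hform i] at h1
        exact (mul_eq_zero.1 h1).resolve_left (pow_ne_zero _ hv)
      obtain ⟨M, hM0, hM⟩ := rcg_prim (u / v) (B i0) hi0 (hz i0)
      have h1 : M ∣ Finset.univ.gcd B := Finset.dvd_gcd (fun i _ => hM (B i) (hz i))
      rw [hB1] at h1
      have h2 := Polynomial.natDegree_eq_zero_of_isUnit (isUnit_of_dvd_one h1)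
      omega

/-- the statement of `rc_count` -/
def RCStmt (g : ℤ[X]) (a k : ℕ) (C L ε : ℝ) : Prop :=
  ∃ K : ℝ, 0 < K ∧ ∀ Y : ℝ, 1 ≤ Y → ∀ (A : Fin 4 → ℤ[X]) (Ξ Ψ : ℤ[X]),
      (∀ i, (A i).natDegree ≤ a) → Ξ.natDegree ≤ k → Ψ.natDegree ≤ k →
      (∀ i j, |((A i).coeff j : ℝ)| ≤ Y ^ C) → (∀ j, |(Ξ.coeff j : ℝ)| ≤ Y ^ C) →
      (∀ j, |(Ψ.coeff j : ℝ)| ≤ Y ^ C) →
      (∀ u v : ℂ, (u, v) ≠ (0, 0) →
        ∃ i, ∑ j ∈ Finset.range (a + 1), ((A i).coeff j : ℂ) * u ^ j * v ^ (a - j) ≠ 0) →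
      (∀ u v : ℂ, (u, v) ≠ (0, 0) →
        ∑ j ∈ Finset.range (k + 1), (Ξ.coeff j : ℂ) * u ^ j * v ^ (k - j) ≠ 0 ∨
        ∑ j ∈ Finset.range (k + 1), (Ψ.coeff j : ℂ) * u ^ j * v ^ (k - j) ≠ 0) →
      ∀ S : Finset (ℤ × ℤ),
      (∀ s ∈ S, IsCoprime s.1 s.2 ∧ |(s.1 : ℝ)| ≤ Y ^ C ∧ |(s.2 : ℝ)| ≤ Y ^ C ∧
        ∃ (n : ℤ) (p : ℕ) (α : Fin 4 → ℤ), hf Ψ k s.1 s.2 ≠ 0 ∧
          n * hf Ψ k s.1 s.2 = hf Ξ k s.1 s.2 ∧ |(n : ℝ)| ≤ L * Y ∧ p.Prime ∧ Y ≤ L * p ∧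
          (p : ℤ) ^ 2 ∣ g.eval n ∧ (p : ℤ) ∣ ∑ i, α i * n ^ (i : ℕ) ∧
          ¬ (p : ℤ) ^ 2 ∣ ∑ i, α i * n ^ (i : ℕ) ∧ (∃ i, ¬ (p : ℤ) ∣ α i) ∧
          ∀ i j, α i * hf (A j) a s.1 s.2 = α j * hf (A i) a s.1 s.2) →
      (S.card : ℝ) ≤ K * Y ^ ε

/-- the constant valid for all degrees `a0 ≤ a`, `1 ≤ k0 ≤ k` -/
private lemma rcg_unif (a k : ℕ) (Pr : ℕ → ℕ → ℝ → Prop)
    (hmono : ∀ a0 k0 K K', K ≤ K' → Pr a0 k0 K → Pr a0 k0 K')
    (h : ∀ a0 k0, 1 ≤ k0 → ∃ K : ℝ, 0 < K ∧ Pr a0 k0 K) :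
    ∃ K : ℝ, 0 < K ∧ ∀ a0 k0, a0 ≤ a → 1 ≤ k0 → k0 ≤ k → Pr a0 k0 K := by
  classical
  have h' : ∀ x : ℕ × ℕ, ∃ K : ℝ, 0 < K ∧ (1 ≤ x.2 → Pr x.1 x.2 K) := by
    intro x
    by_cases hx : 1 ≤ x.2
    · obtain ⟨K, hK, hP⟩ := h x.1 x.2 hx
      exact ⟨K, hK, fun _ => hP⟩
    · exact ⟨1, one_pos, fun h => absurd h hx⟩
  choose Kf hKf hP using h'
  refine ⟨1 + ∑ x ∈ Finset.range (a + 1) ×ˢ Finset.range (k + 1), Kf x, ?_, ?_⟩
  · have : 0 ≤ ∑ x ∈ Finset.range (a + 1) ×ˢ Finset.range (k + 1), Kf x :=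
      Finset.sum_nonneg fun x _ => (hKf x).le
    linarith
  · intro a0 k0 ha hk1 hk
    refine hmono a0 k0 (Kf (a0, k0)) _ ?_ (hP (a0, k0) hk1)
    have h1 : Kf (a0, k0) ≤ ∑ x ∈ Finset.range (a + 1) ×ˢ Finset.range (k + 1), Kf x :=
      Finset.single_le_sum (f := Kf) (fun x _ => (hKf x).le)
        (Finset.mem_product.2 ⟨Finset.mem_range.2 (by simp only; omega),
          Finset.mem_range.2 (by simp only; omega)⟩)
    linarith

/-- RATIONAL CURVES, no coprimality: the number of different `n`. -/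
theorem rat_count_of (g : ℤ[X]) (a k : ℕ) (C L ε : ℝ) (hε : 0 < ε)
    (hrc : ∀ (a0 k0 : ℕ) (C1 L1 : ℝ), 1 ≤ k0 → RCStmt g a0 k0 C1 L1 ε) : ∃ K : ℝ, 0 < K ∧ ∀ Y : ℝ, 1 ≤ Y →
    ∀ (A : Fin 4 → ℤ[X]) (Ξ Ψ : ℤ[X]), (∀ i, (A i).natDegree ≤ a) → Ξ.natDegree ≤ k →
    Ψ.natDegree ≤ k → (∀ i j, |((A i).coeff j : ℝ)| ≤ Y ^ C) → (∀ j, |(Ξ.coeff j : ℝ)| ≤ Y ^ C) →
    (∀ j, |(Ψ.coeff j : ℝ)| ≤ Y ^ C) →
    ∀ {ι : Type} (T : Finset ι) (n : ι → ℤ), Set.InjOn n T →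
    (∀ z ∈ T, ∃ (s r : ℤ) (p : ℕ) (α : Fin 4 → ℤ), IsCoprime s r ∧ |(s : ℝ)| ≤ Y ^ C ∧
      |(r : ℝ)| ≤ Y ^ C ∧ (∃ i, hf (A i) a s r ≠ 0) ∧
      (∀ i j, α i * hf (A j) a s r = α j * hf (A i) a s r) ∧ hf Ψ k s r ≠ 0 ∧
      n z * hf Ψ k s r = hf Ξ k s r ∧ |(n z : ℝ)| ≤ L * Y ∧ p.Prime ∧ Y ≤ L * p ∧
      (p : ℤ) ^ 2 ∣ g.eval (n z) ∧ (p : ℤ) ∣ ∑ i, α i * (n z) ^ (i : ℕ) ∧
      ¬ (p : ℤ) ^ 2 ∣ ∑ i, α i * (n z) ^ (i : ℕ) ∧ ∃ i, ¬ (p : ℤ) ∣ α i) →
    (T.card : ℝ) ≤ K * Y ^ ε := by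
  classical
  -- enlarged parameters
  set C1 : ℝ := max C 1 with hC1
  set B : ℝ := 2 ^ (a + k) * (a + k + 1) with hB
  have hB1 : 1 ≤ B := by
    rw [hB]
    have h1 : (1 : ℝ) ≤ 2 ^ (a + k) := one_le_pow₀ (by norm_num)
    have h2 : (1 : ℝ) ≤ (a : ℝ) + k + 1 := by
      have : (0 : ℝ) ≤ (a : ℝ) + k := by positivity
      linarith
    nlinarith
  set L1 : ℝ := B * max L 1 with hL1
  obtain ⟨K, hK0, hK⟩ := rcg_unif a k (fun a0 k0 K => ∀ Y : ℝ, 1 ≤ Y →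
    ∀ (A : Fin 4 → ℤ[X]) (Ξ Ψ : ℤ[X]), (∀ i, (A i).natDegree ≤ a0) → Ξ.natDegree ≤ k0 →
    Ψ.natDegree ≤ k0 → (∀ i j, |((A i).coeff j : ℝ)| ≤ Y ^ C1) →
    (∀ j, |(Ξ.coeff j : ℝ)| ≤ Y ^ C1) → (∀ j, |(Ψ.coeff j : ℝ)| ≤ Y ^ C1) →
    (∀ u v : ℂ, (u, v) ≠ (0, 0) →
      ∃ i, ∑ j ∈ Finset.range (a0 + 1), ((A i).coeff j : ℂ) * u ^ j * v ^ (a0 - j) ≠ 0) →
    (∀ u v : ℂ, (u, v) ≠ (0, 0) →
      ∑ j ∈ Finset.range (k0 + 1), (Ξ.coeff j : ℂ) * u ^ j * v ^ (k0 - j) ≠ 0 ∨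
      ∑ j ∈ Finset.range (k0 + 1), (Ψ.coeff j : ℂ) * u ^ j * v ^ (k0 - j) ≠ 0) →
    ∀ S : Finset (ℤ × ℤ), (∀ s ∈ S, IsCoprime s.1 s.2 ∧ |(s.1 : ℝ)| ≤ Y ^ C1 ∧
      |(s.2 : ℝ)| ≤ Y ^ C1 ∧ ∃ (n : ℤ) (p : ℕ) (α : Fin 4 → ℤ), hf Ψ k0 s.1 s.2 ≠ 0 ∧
        n * hf Ψ k0 s.1 s.2 = hf Ξ k0 s.1 s.2 ∧ |(n : ℝ)| ≤ L1 * Y ∧ p.Prime ∧ Y ≤ L1 * p ∧
        (p : ℤ) ^ 2 ∣ g.eval n ∧ (p : ℤ) ∣ ∑ i, α i * n ^ (i : ℕ) ∧
        ¬ (p : ℤ) ^ 2 ∣ ∑ i, α i * n ^ (i : ℕ) ∧ (∃ i, ¬ (p : ℤ) ∣ α i) ∧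
        ∀ i j, α i * hf (A j) a0 s.1 s.2 = α j * hf (A i) a0 s.1 s.2) →
    (S.card : ℝ) ≤ K * Y ^ ε)
    (by
      intro a0 k0 K K' hKK h Y hY A Ξ Ψ h1 h2 h3 h4 h5 h6 h7 h8 S hS
      have h9 := h Y hY A Ξ Ψ h1 h2 h3 h4 h5 h6 h7 h8 S hS
      have : (0 : ℝ) ≤ Y ^ ε := by positivity
      nlinarith)
    (fun a0 k0 hk0 => hrc a0 k0 C1 L1 hk0)
  refine ⟨max 1 (K * B ^ ε), lt_of_lt_of_le one_pos (le_max_left _ _), ?_⟩
  intro Y hY A Ξ Ψ hA hΞ hΨ hAc hΞc hΨc ι T n hn hT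
  have hY0 : (0 : ℝ) < Y := by linarith
  have hYε : 1 ≤ Y ^ ε := Real.one_le_rpow hY hε.le
  rcases T.eq_empty_or_nonempty with rfl | ⟨z0, hz0⟩
  · simp
    positivity
  obtain ⟨s0, r0, p0, α0, hco0, -, -, hA0, -, hΨ0, -⟩ := hT z0 hz0
  have hneA : ∃ i, A i ≠ 0 := by
    obtain ⟨i, hi⟩ := hA0
    refine ⟨i, fun h => hi ?_⟩
    rw [h]; simp [hf]
  have hneΨ : Ψ ≠ 0 := fun h => hΨ0 (by rw [h]; simp [hf])
  have hYC : (0 : ℝ) ≤ Y ^ C := by positivity
  obtain ⟨a0, D, A', ha0, hA'd, hA'c, hA'f, hA'z⟩ := forms_reduce a A hA hneA (Y ^ C) hYC hAc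
  obtain ⟨k0, E, Q, hk0, hQd, hQc, hQf, hQz⟩ := forms_reduce (ι := Bool) k
    (fun b => if b then Ξ else Ψ) (by intro b; cases b <;> simpa) ⟨false, by simpa using hneΨ⟩
    (Y ^ C) hYC (by intro b j; cases b <;> simp [hΞc, hΨc])
  have hQfΞ : ∀ s r, hf Ξ k s r = hf E (k - k0) s r * hf (Q true) k0 s r := fun s r => by
    simpa using hQf true s r
  have hQfΨ : ∀ s r, hf Ψ k s r = hf E (k - k0) s r * hf (Q false) k0 s r := fun s r => by
    simpa using hQf false s r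
  -- the reduced data at a point
  have hred : ∀ (s r m : ℤ), hf Ψ k s r ≠ 0 → m * hf Ψ k s r = hf Ξ k s r →
      hf (Q false) k0 s r ≠ 0 ∧ m * hf (Q false) k0 s r = hf (Q true) k0 s r := by
    intro s r m h1 h2
    rw [hQfΨ] at h1 h2
    rw [hQfΞ] at h2
    have hE : hf E (k - k0) s r ≠ 0 := left_ne_zero_of_mul h1
    refine ⟨right_ne_zero_of_mul h1, ?_⟩
    apply mul_left_cancel₀ hE
    rw [← h2]; ring
  by_cases hk1 : k0 = 0
  · -- `n` is constant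
    subst hk1
    have hone : T.card ≤ 1 := by
      rw [Finset.card_le_one]
      intro z hz w hw
      apply hn hz hw
      obtain ⟨s, r, p, α, -, -, -, -, -, h1, h2, -⟩ := hT z hz
      obtain ⟨s', r', p', α', -, -, -, -, -, h1', h2', -⟩ := hT w hw
      obtain ⟨h3, h4⟩ := hred s r (n z) h1 h2
      obtain ⟨h3', h4'⟩ := hred s' r' (n w) h1' h2'
      rw [hf_zero] at h3 h4 h3' h4'
      rw [hf_zero] at h4 h4'
      apply mul_right_cancel₀ h3
      rw [h4, h4']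
    have h1 : (T.card : ℝ) ≤ 1 := by exact_mod_cast hone
    calc (T.card : ℝ) ≤ 1 * 1 := by linarith
      _ ≤ max 1 (K * B ^ ε) * Y ^ ε := mul_le_mul (le_max_left _ _) hYε (by norm_num) (by positivity)
  · have hk01 : 1 ≤ k0 := Nat.one_le_iff_ne_zero.2 hk1
    -- the enlarged size
    set Y1 : ℝ := B * Y with hY1
    have hY11 : 1 ≤ Y1 := by rw [hY1]; nlinarith
    have hYY1 : Y ≤ Y1 := by rw [hY1]; nlinarith
    have hpow : Y ^ C ≤ Y1 ^ C1 := by
      calc Y ^ C ≤ Y ^ C1 := Real.rpow_le_rpow_of_exponent_le hY (le_max_left _ _)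
        _ ≤ Y1 ^ C1 := Real.rpow_le_rpow hY0.le hYY1 (le_trans zero_le_one (le_max_right _ _))
    have hpowB : B * Y ^ C ≤ Y1 ^ C1 := by
      have h1 : B ≤ B ^ C1 := by
        calc B = B ^ (1 : ℝ) := (Real.rpow_one B).symm
          _ ≤ B ^ C1 := Real.rpow_le_rpow_of_exponent_le hB1 (le_max_right _ _)
      calc B * Y ^ C ≤ B ^ C1 * Y ^ C1 :=
            mul_le_mul h1 (Real.rpow_le_rpow_of_exponent_le hY (le_max_left _ _)) hYC
              (by positivity)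
        _ = Y1 ^ C1 := by rw [hY1, Real.mul_rpow (by linarith) hY0.le]
    have hBa : (2 : ℝ) ^ a * ((a + 1) * Y ^ C) ≤ Y1 ^ C1 := by
      refine le_trans ?_ hpowB
      rw [hB]
      have h1 : (2 : ℝ) ^ a ≤ 2 ^ (a + k) := pow_le_pow_right₀ (by norm_num) (by omega)
      have h2 : (a : ℝ) + 1 ≤ a + k + 1 := by
        have : (0 : ℝ) ≤ k := by positivity
        linarith
      calc (2 : ℝ) ^ a * ((a + 1) * Y ^ C) = (2 ^ a * (a + 1)) * Y ^ C := by ring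
        _ ≤ (2 ^ (a + k) * (a + k + 1)) * Y ^ C := by gcongr
    have hBk : (2 : ℝ) ^ k * ((k + 1) * Y ^ C) ≤ Y1 ^ C1 := by
      refine le_trans ?_ hpowB
      rw [hB]
      have h1 : (2 : ℝ) ^ k ≤ 2 ^ (a + k) := pow_le_pow_right₀ (by norm_num) (by omega)
      have h2 : (k : ℝ) + 1 ≤ a + k + 1 := by
        have : (0 : ℝ) ≤ a := by positivity
        linarith
      calc (2 : ℝ) ^ k * ((k + 1) * Y ^ C) = (2 ^ k * (k + 1)) * Y ^ C := by ring
        _ ≤ (2 ^ (a + k) * (a + k + 1)) * Y ^ C := by gcongr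
    -- choose parameters
    choose! sf rf pf αf h1 h2 h3 h4 h5 h6 h7 h8 h9 h10 h11 h12 h13 h14 using hT
    set S : Finset (ℤ × ℤ) := T.image (fun z => (sf z, rf z)) with hS
    have hinj : Set.InjOn (fun z => (sf z, rf z)) (T : Set ι) := by
      intro z hz w hw hzw
      simp only [Prod.mk.injEq] at hzw
      apply hn hz hw
      have e1 := h7 z hz
      have e2 := h7 w hw
      rw [← hzw.1, ← hzw.2] at e2
      apply mul_right_cancel₀ (h6 z hz)
      rw [e1, e2]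
    have hcard : S.card = T.card := Finset.card_image_of_injOn hinj
    have hfin := hK a0 k0 ha0 hk01 hk0 Y1 hY11 A' (Q true) (Q false) hA'd (hQd true) (hQd false)
      (fun i j => (hA'c i j).trans hBa) (fun j => (hQc true j).trans hBk)
      (fun j => (hQc false j).trans hBk) hA'z (by
        intro u v huv
        obtain ⟨b, hb⟩ := hQz u v huv
        cases b
        · exact Or.inr hb
        · exact Or.inl hb) S (by
        intro x hx
        obtain ⟨z, hz, rfl⟩ := Finset.mem_image.1 hx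
        obtain ⟨e1, e2⟩ := hred (sf z) (rf z) (n z) (h6 z hz) (h7 z hz)
        have hDne : hf D (a - a0) (sf z) (rf z) ≠ 0 := by
          obtain ⟨i, hi⟩ := h4 z hz
          rw [hA'f] at hi
          exact left_ne_zero_of_mul hi
        have hp0 : (0 : ℝ) ≤ pf z := by positivity
        refine ⟨h1 z hz, (h2 z hz).trans hpow, (h3 z hz).trans hpow, n z, pf z, αf z, e1, e2, ?_,
          h9 z hz, ?_, h11 z hz, h12 z hz, h13 z hz, h14 z hz, ?_⟩
        · refine (h8 z hz).trans ?_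
          have hL : L ≤ L1 := by
            rw [hL1]
            have := le_max_left L 1
            have h0 : (0 : ℝ) ≤ max L 1 := le_trans zero_le_one (le_max_right _ _)
            nlinarith
          have hL10 : 0 ≤ L1 := by
            rw [hL1]
            have h0 : (0 : ℝ) ≤ max L 1 := le_trans zero_le_one (le_max_right _ _)
            positivity
          calc L * Y ≤ L1 * Y := mul_le_mul_of_nonneg_right hL hY0.le
            _ ≤ L1 * Y1 := mul_le_mul_of_nonneg_left hYY1 hL10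
        · have e3 := h10 z hz
          have hB0 : (0 : ℝ) ≤ B := by linarith
          calc Y1 = B * Y := hY1
            _ ≤ B * (max L 1 * pf z) := mul_le_mul_of_nonneg_left
                (e3.trans (mul_le_mul_of_nonneg_right (le_max_left _ _) hp0)) hB0
            _ = L1 * pf z := by rw [hL1]; ring
        · intro i j
          have e4 := h5 z hz i j
          rw [hA'f, hA'f] at e4
          apply mul_left_cancel₀ hDne
          simp only
          linear_combination e4)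
    rw [hcard] at hfin
    calc (T.card : ℝ) ≤ K * Y1 ^ ε := hfin
      _ = (K * B ^ ε) * Y ^ ε := by
          rw [hY1, Real.mul_rpow (by linarith) hY0.le]; ring
      _ ≤ max 1 (K * B ^ ε) * Y ^ ε := mul_le_mul_of_nonneg_right (le_max_right _ _) (by positivity)

end Pool.Agent.Lib.SQF
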