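import Mathlib

/-!
# SQF, section S2 (helper48): balanced factorisation

`balanced`: for a monic irreducible `g : ℤ[X]` of degree `d` there are `K, p0` such that for all
primes `p ≥ p0` and all `N` with `p² ∣ g(N)` there are `A B : ℤ[X]` of degree `< d` and `m ≠ 0`,
`|m| ≤ K`, with `A² B ≡ m² (N - X) mod g`, `p ∣ A(N)`, `Res(g,A) = p m`, coefficients of `A` at most
`p^(1/d)`, `|A(θ)| ≍ p^(1/d)` and `|B(θ)| ≍ |N - θ| p^(-2/d)` at every complex root `θ` of `g`, and
coefficients of `B` at most `K (|N|+1) p^(-2/d)`.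
`content_dvd`: an integer dividing all coefficients of `B` divides `m²`.
`coeff_le_of_values`: coefficients are bounded by the values at the roots.
-/

open Polynomial

namespace Pool.Agent.Lib.SQF

/-- Pigeonhole: a small nonzero polynomial vanishing at `N` modulo `p`. -/
theorem exists_small (d : ℕ) (hd : 0 < d) (p : ℕ) (hp : 0 < p) (N : ℤ) :
    ∃ A : ℤ[X], A ≠ 0 ∧ A.natDegree < d ∧ (p : ℤ) ∣ A.eval N ∧
      ∀ i, |((A.coeff i : ℤ) : ℝ)| ≤ (p : ℝ) ^ ((1 : ℝ) / d) := by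
  classical
  set k : ℕ := ⌊(p : ℝ) ^ ((1 : ℝ) / d)⌋₊ with hk
  have hp0 : (0 : ℝ) ≤ p := by positivity
  have hpk : (p : ℝ) < ((k + 1 : ℕ) : ℝ) ^ d := by
    have h1 : (p : ℝ) ^ ((1 : ℝ) / d) < (k + 1 : ℕ) := by
      rw [hk]; push_cast; exact Nat.lt_floor_add_one _
    have h2 : (p : ℝ) = ((p : ℝ) ^ ((1 : ℝ) / d)) ^ d := by
      rw [← Real.rpow_natCast, ← Real.rpow_mul hp0]
      have : (1 : ℝ) / d * d = 1 := by field_simp
      rw [this, Real.rpow_one]
    calc (p : ℝ) = ((p : ℝ) ^ ((1 : ℝ) / d)) ^ d := h2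
      _ < ((k + 1 : ℕ) : ℝ) ^ d := by
        apply pow_lt_pow_left₀ h1 (by positivity) (by omega)
  have : NeZero p := ⟨by omega⟩
  let φ : (Fin d → Fin (k + 1)) → ZMod p := fun a => ∑ i, ((a i : ℕ) : ZMod p) * (N : ZMod p) ^ (i : ℕ)
  have hcard : Fintype.card (ZMod p) < Fintype.card (Fin d → Fin (k + 1)) := by
    rw [ZMod.card, Fintype.card_fun, Fintype.card_fin, Fintype.card_fin]
    exact_mod_cast hpk
  obtain ⟨a, b, hab, hφ⟩ := Fintype.exists_ne_map_eq_of_card_lt φ hcard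
  let c : ℕ → ℤ := fun i => if h : i < d then ((a ⟨i, h⟩ : ℕ) : ℤ) - ((b ⟨i, h⟩ : ℕ) : ℤ) else 0
  refine ⟨∑ i ∈ Finset.range d, C (c i) * X ^ i, ?_, ?_, ?_, ?_⟩
  · intro h0
    apply hab
    funext i
    have := congrArg (fun q => coeff q (i : ℕ)) h0
    simp only [finsetSum_coeff, coeff_C_mul, coeff_X_pow, coeff_zero] at this
    simp only [mul_ite, mul_one, mul_zero, Finset.sum_ite_eq, Finset.mem_range, i.2, if_true] at this
    simp only [c, i.2, dif_pos, Fin.eta] at this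
    ext
    omega
  · refine (Nat.lt_of_le_pred hd ?_)
    apply natDegree_sum_le_of_forall_le
    intro i hi
    rw [Finset.mem_range] at hi
    refine (natDegree_C_mul_X_pow_le _ _).trans ?_
    exact Nat.le_pred_of_lt hi
  · rw [← ZMod.intCast_zmod_eq_zero_iff_dvd]
    rw [eval_finsetSum]
    push_cast
    simp only [eval_mul, eval_C, eval_pow, eval_X]
    rw [Finset.sum_range]
    have h3 : ∀ i : Fin d, (((c i * N ^ (i : ℕ) : ℤ)) : ZMod p) =
        ((a i : ℕ) : ZMod p) * (N : ZMod p) ^ (i : ℕ) - ((b i : ℕ) : ZMod p) * (N : ZMod p) ^ (i : ℕ) := by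
      intro i
      simp only [c, i.2, dif_pos]
      push_cast
      ring
    rw [Finset.sum_congr rfl (fun i _ => h3 i), Finset.sum_sub_distrib]
    exact sub_eq_zero.mpr hφ
  · intro i
    have hkk : (k : ℝ) ≤ (p : ℝ) ^ ((1 : ℝ) / d) := Nat.floor_le (by positivity)
    refine le_trans ?_ hkk
    simp only [finsetSum_coeff, coeff_C_mul, coeff_X_pow]
    simp only [mul_ite, mul_one, mul_zero, Finset.sum_ite_eq, Finset.mem_range]
    by_cases h : i < d
    · simp only [h, if_true, c, dif_pos]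
      have h1 := (a ⟨i, h⟩).2
      have h2 := (b ⟨i, h⟩).2
      push_cast
      rw [abs_le]
      have h1' : ((a ⟨i, h⟩ : ℕ) : ℝ) ≤ k := by exact_mod_cast Nat.lt_succ_iff.mp h1
      have h2' : ((b ⟨i, h⟩ : ℕ) : ℝ) ≤ k := by exact_mod_cast Nat.lt_succ_iff.mp h2
      have h3 : (0 : ℝ) ≤ ((a ⟨i, h⟩ : ℕ) : ℝ) := by positivity
      have h4 : (0 : ℝ) ≤ ((b ⟨i, h⟩ : ℕ) : ℝ) := by positivity
      constructor <;> linarith
    · simp [h]

/-- `Res(g,A) ≡ A(N) Res(h,A) mod p^2`. -/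
theorem res_congr (g : ℤ[X]) (hg : g.Monic) (hd : 0 < g.natDegree) (p : ℕ) (hp : p.Prime) (N : ℤ)
    (hN : ((p : ℤ) ^ 2) ∣ g.eval N) (A : ℤ[X]) (hA : A.natDegree < g.natDegree) :
    ((p : ℤ) ^ 2) ∣ resultant g A g.natDegree g.natDegree -
      A.eval N * resultant (g /ₘ (X - C N)) A (g.natDegree - 1) g.natDegree := by
  classical
  set d := g.natDegree with hdd
  obtain ⟨e, he⟩ := hN
  set h := g /ₘ (X - C N) with hh
  have hgh : g = (X - C N) * h + C (g.eval N) := by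
    have := modByMonic_add_div g (X - C N)
    rw [modByMonic_X_sub_C_eq_C_eval] at this
    rw [← hh] at this
    rw [add_comm]; exact this.symm
  have hhm : h.Monic := by
    have := leadingCoeff_divByMonic_X_sub_C g
      (by rw [degree_eq_natDegree hg.ne_zero]; exact_mod_cast hd.ne') N
    rw [← hh, hg.leadingCoeff] at this
    exact this
  have hhd : h.natDegree = d - 1 := by
    rw [hh, natDegree_divByMonic g (monic_X_sub_C N), natDegree_X_sub_C]
  have hp2 : ((p ^ 2 : ℕ) : ℤ) = (p : ℤ) ^ 2 := by push_cast; ring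
  rw [← hp2, ← ZMod.intCast_zmod_eq_zero_iff_dvd]
  push_cast
  have h1 : (((resultant g A d d : ℤ)) : ZMod (p ^ 2)) =
      (Int.castRingHom (ZMod (p ^ 2))) (resultant g A d d) := by
    simp
  rw [h1, ← resultant_map_map]
  have h2 : g.map (Int.castRingHom (ZMod (p ^ 2))) =
      (X - C (N : ZMod (p ^ 2))) * h.map (Int.castRingHom (ZMod (p ^ 2))) := by
    conv_lhs => rw [hgh]
    rw [Polynomial.map_add, Polynomial.map_mul, map_C, Polynomial.map_sub, map_X, map_C]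
    have : (Int.castRingHom (ZMod (p ^ 2))) (g.eval N) = 0 := by
      rw [he]
      have : ((p : ZMod (p ^ 2))) ^ 2 = 0 := by
        have := ZMod.natCast_self (p ^ 2)
        push_cast at this
        exact this
      simp [this]
    rw [this]
    simp
  have hp1 : 1 < p ^ 2 := Nat.one_lt_pow (by norm_num) hp.one_lt
  have : Fact (1 < p ^ 2) := ⟨hp1⟩
  have h3 : (h.map (Int.castRingHom (ZMod (p ^ 2)))).natDegree = d - 1 := by
    rw [hhm.natDegree_map, hhd]
  have h4 : (X - C (N : ZMod (p ^ 2))).natDegree = 1 := natDegree_X_sub_C _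
  have h5 : (A.map (Int.castRingHom (ZMod (p ^ 2)))).natDegree ≤ d :=
    natDegree_map_le.trans hA.le
  have h6 := resultant_mul_left (X - C (N : ZMod (p ^ 2)))
    (h.map (Int.castRingHom (ZMod (p ^ 2)))) (A.map (Int.castRingHom (ZMod (p ^ 2)))) d h5
  rw [h3, h4, resultant_X_sub_C_left _ _ _ h5, resultant_map_map,
    show 1 + (d - 1) = d by omega, ← h2] at h6
  rw [h6]
  have h7 : eval (N : ZMod (p ^ 2)) (A.map (Int.castRingHom (ZMod (p ^ 2)))) =
      ((A.eval N : ℤ) : ZMod (p ^ 2)) := by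
    have := Polynomial.eval_map_apply (Int.castRingHom (ZMod (p ^ 2))) (p := A) N
    simpa using this
  rw [h7]
  simp

/-- The algebraic heart: from `p ∣ A(N)`, `p^2 ∣ g(N)`, `Res(g,A) = p m`, `p ∤ m`. -/
theorem exists_beta (g : ℤ[X]) (hg : g.Monic) (hd : 0 < g.natDegree) (p : ℕ) (hp : p.Prime) (N : ℤ)
    (hN : ((p : ℤ) ^ 2) ∣ g.eval N) (A : ℤ[X]) (hA : A.natDegree < g.natDegree)
    (hAN : (p : ℤ) ∣ A.eval N) (m : ℤ) (hm : resultant g A g.natDegree g.natDegree = p * m)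
    (hpm : ¬ (p : ℤ) ∣ m) :
    ∃ B : ℤ[X], B.natDegree < g.natDegree ∧ g ∣ A ^ 2 * B - C (m ^ 2) * (C N - X) := by
  classical
  set d := g.natDegree with hdd
  obtain ⟨e, he⟩ := hN
  obtain ⟨a, ha⟩ := hAN
  set h := g /ₘ (X - C N) with hh
  have hgh : g = (X - C N) * h + C (g.eval N) := by
    have := modByMonic_add_div g (X - C N)
    rw [modByMonic_X_sub_C_eq_C_eval] at this
    rw [← hh] at this
    rw [add_comm]; exact this.symm
  have hhm : h.Monic := by
    have := leadingCoeff_divByMonic_X_sub_C g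
      (by rw [degree_eq_natDegree hg.ne_zero]; exact_mod_cast hd.ne') N
    rw [← hh, hg.leadingCoeff] at this
    exact this
  have hhd : h.natDegree = d - 1 := by
    rw [hh, natDegree_divByMonic g (monic_X_sub_C N), natDegree_X_sub_C]
  set ρ := resultant h A (d - 1) d with hρ
  have key : ((p : ℤ) ^ 2) ∣ (p : ℤ) * m - A.eval N * ρ := by
    have := res_congr g hg hd p hp N ⟨e, he⟩ A hA
    rw [← hdd, hm] at this
    exact this
  have hp0 : (p : ℤ) ≠ 0 := by exact_mod_cast hp.ne_zero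
  have hpρ : ¬ (p : ℤ) ∣ ρ := by
    intro hρp
    apply hpm
    obtain ⟨t, ht⟩ := key
    obtain ⟨u, hu⟩ := hρp
    refine ⟨t + a * u, ?_⟩
    apply mul_left_cancel₀ hp0
    rw [ha, hu] at ht
    linear_combination ht
  -- Bezout relations
  obtain ⟨U', V', -, -, hUV'⟩ := exists_mul_add_mul_eq_C_resultant (m := d - 1) (n := d) h A
    (by rw [hhd]) hA.le (Or.inr hd.ne')
  obtain ⟨U, V, -, -, hUV⟩ := exists_mul_add_mul_eq_C_resultant (m := d) (n := d) g A
    le_rfl hA.le (Or.inr hd.ne')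
  rw [hm] at hUV
  rw [← hρ] at hUV'
  obtain ⟨s, t, hst⟩ : ∃ s t : ℤ, s * ρ = 1 + p * t := by
    have hcop : IsCoprime (ρ) (p : ℤ) := by
      have := (Nat.prime_iff_prime_int.mp hp).coprime_iff_not_dvd.mpr hpρ
      exact this.symm
    obtain ⟨x, y, hxy⟩ := hcop
    exact ⟨x, -y, by linear_combination hxy⟩
  rw [he] at hgh
  -- `V = h Z + p W`
  set Z := C s * (U' * V - V' * (X - C N) * U) with hZ
  set W := C s * (V' * C m - C (p : ℤ) * C e * V' * U) - C t * V with hW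
  have hst' : (C s * C ρ : ℤ[X]) = 1 + C (p : ℤ) * C t := by
    rw [← C_mul, hst]; simp
  have hV : V = h * Z + C (p : ℤ) * W := by
    have e1 : C ρ * V = h * (U' * V - V' * (X - C N) * U) +
        C (p : ℤ) * (V' * C m - C (p : ℤ) * C e * V' * U) := by
      have e2 : C ((p : ℤ) ^ 2 * e) = C (p : ℤ) * C (p : ℤ) * C e := by
        simp only [← C_mul]; congr 1; ring
      have e3 : C ((p : ℤ) * m) = C (p : ℤ) * C m := by rw [C_mul]
      rw [e3] at hUV
      rw [e2] at hgh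
      linear_combination (-V) * hUV' + V' * hUV + (-(V' * U)) * hgh
    have e4 : V = C s * (C ρ * V) - C (p : ℤ) * C t * V := by
      linear_combination (-V) * hst'
    rw [e4, e1, hZ, hW]
    ring
  set B0 := C e * (h * Z ^ 2 + 2 * C (p : ℤ) * Z * W) + (C N - X) * W ^ 2 with hB0
  have hdvd : g ∣ C ((p : ℤ) ^ 2) * (A ^ 2 * B0 - C (m ^ 2) * (C N - X)) := by
    have e1 : (C N - X) * V ^ 2 = -g * (h * Z ^ 2 + 2 * C (p : ℤ) * Z * W) +
        C ((p : ℤ) ^ 2) * B0 := by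
      rw [hV, hB0]
      have e2 : C ((p : ℤ) ^ 2 * e) = C ((p : ℤ) ^ 2) * C e := by rw [C_mul]
      have e3 : C ((p : ℤ) ^ 2) = C (p : ℤ) ^ 2 := by rw [C_pow]
      rw [e2] at hgh
      rw [e3] at hgh ⊢
      linear_combination (h * Z ^ 2 + 2 * C (p : ℤ) * Z * W) * hgh
    refine ⟨(h * Z ^ 2 + 2 * C (p : ℤ) * Z * W) * A ^ 2 +
      (C N - X) * (-2 * C ((p : ℤ) * m) * U + g * U ^ 2), ?_⟩
    have e5 : A * V = C ((p : ℤ) * m) - g * U := by linear_combination hUV
    have e6 : C ((p : ℤ) ^ 2) * C (m ^ 2) = C ((p : ℤ) * m) ^ 2 := by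
      rw [← C_mul, ← C_pow]; congr 1; ring
    linear_combination (-(A ^ 2)) * e1 + (C N - X) * (A * V + C ((p : ℤ) * m) - g * U) * e5 -
      (C N - X) * e6
  have hdvd2 : g ∣ A ^ 2 * B0 - C (m ^ 2) * (C N - X) := by
    rw [← modByMonic_eq_zero_iff_dvd hg] at hdvd ⊢
    rw [← smul_eq_C_mul, smul_modByMonic] at hdvd
    have := (smul_eq_zero.mp hdvd).resolve_left (by positivity)
    exact this
  refine ⟨B0 %ₘ g, ?_, ?_⟩
  · apply natDegree_modByMonic_lt _ hg
    intro h1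
    rw [hdd, h1] at hd
    simp at hd
  · have e7 : A ^ 2 * (B0 %ₘ g) - C (m ^ 2) * (C N - X) =
        (A ^ 2 * B0 - C (m ^ 2) * (C N - X)) - g * (A ^ 2 * (B0 /ₘ g)) := by
      have := modByMonic_add_div B0 g
      linear_combination (A ^ 2) * this
    rw [e7]
    exact dvd_sub hdvd2 (Dvd.intro _ rfl)

/-- A bound for the complex roots. -/
theorem root_bound (g : ℤ[X]) (hg : g ≠ 0) :
    ∃ R : ℝ, 1 ≤ R ∧ ∀ z : ℂ, aeval z g = 0 → ‖z‖ ≤ R := by
  classical
  refine ⟨1 + ∑ z ∈ (g.aroots ℂ).toFinset, ‖z‖, ?_, ?_⟩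
  · have : 0 ≤ ∑ z ∈ (g.aroots ℂ).toFinset, ‖z‖ := Finset.sum_nonneg (fun _ _ => norm_nonneg _)
    linarith
  · intro z hz
    have hmem : z ∈ (g.aroots ℂ).toFinset := by
      rw [Multiset.mem_toFinset, mem_aroots]
      exact ⟨hg, hz⟩
    have := Finset.single_le_sum (f := fun z : ℂ => ‖z‖) (fun _ _ => norm_nonneg _) hmem
    have h2 : ‖z‖ ≤ ∑ z ∈ (g.aroots ℂ).toFinset, ‖z‖ := this
    linarith

theorem norm_aeval_le (A : ℤ[X]) (d : ℕ) (hA : A.natDegree < d) (T R : ℝ) (hT : 0 ≤ T)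
    (hR : 1 ≤ R) (hAT : ∀ i, |((A.coeff i : ℤ) : ℝ)| ≤ T) (z : ℂ) (hz : ‖z‖ ≤ R) :
    ‖aeval z A‖ ≤ d * R ^ d * T := by
  rw [aeval_eq_sum_range' hA]
  refine (norm_sum_le _ _).trans ?_
  have : ∀ i ∈ Finset.range d, ‖A.coeff i • z ^ i‖ ≤ R ^ d * T := by
    intro i hi
    rw [Finset.mem_range] at hi
    rw [zsmul_eq_mul, norm_mul, norm_pow, mul_comm (R ^ d)]
    have h1 : ‖((A.coeff i : ℤ) : ℂ)‖ ≤ T := by
      rw [Complex.norm_intCast]; exact hAT i
    have h2 : ‖z‖ ^ i ≤ R ^ d := by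
      calc ‖z‖ ^ i ≤ R ^ i := pow_le_pow_left₀ (norm_nonneg _) hz i
        _ ≤ R ^ d := pow_le_pow_right₀ hR hi.le
    exact mul_le_mul h1 h2 (by positivity) hT
  refine (Finset.sum_le_card_nsmul _ _ _ this).trans ?_
  rw [Finset.card_range, nsmul_eq_mul]
  linarith [mul_assoc (d : ℝ) (R ^ d) T]

/-- The resultant with a monic polynomial as a product over the complex roots. -/
theorem resultant_cast (g : ℤ[X]) (hg : g.Monic) (A : ℤ[X]) (n : ℕ) (hA : A.natDegree ≤ n) :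
    ((resultant g A g.natDegree n : ℤ) : ℂ) = ((g.aroots ℂ).map (fun z => aeval z A)).prod := by
  have h0 : ((resultant g A g.natDegree n : ℤ) : ℂ) =
      (algebraMap ℤ ℂ) (resultant g A g.natDegree n) := by simp
  rw [h0, ← resultant_map_map]
  have hmon : (g.map (algebraMap ℤ ℂ)).Monic := hg.map _
  have h1 := resultant_eq_prod_eval (g.map (algebraMap ℤ ℂ)) (A.map (algebraMap ℤ ℂ)) n
    (natDegree_map_le.trans hA) (IsAlgClosed.splits _)
  rw [hg.natDegree_map] at h1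
  rw [h1, hmon.leadingCoeff, one_pow, one_mul]
  congr 1
  apply Multiset.map_congr rfl
  intro z _
  exact eval_map_algebraMap _ _

theorem aeval_ne_zero_of_lt (g : ℤ[X]) (hg : g.Monic) (hirr : Irreducible g) (A : ℤ[X]) (hA0 : A ≠ 0)
    (hA : A.natDegree < g.natDegree) (z : ℂ) (hz : aeval z g = 0) : aeval z A ≠ 0 := by
  intro hzA
  have hirrQ : Irreducible (g.map (Int.castRingHom ℚ)) :=
    (IsPrimitive.Int.irreducible_iff_irreducible_map_cast hg.isPrimitive).mp hirr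
  have hz1 : aeval z (g.map (Int.castRingHom ℚ)) = 0 := by
    have := aeval_map_algebraMap ℚ z g
    rw [← hz, ← this]; rfl
  have hz2 : aeval z (A.map (Int.castRingHom ℚ)) = 0 := by
    have := aeval_map_algebraMap ℚ z A
    rw [← hzA, ← this]; rfl
  have hdvd : g.map (Int.castRingHom ℚ) ∣ A.map (Int.castRingHom ℚ) := by
    have h1 : minpoly ℚ z ∣ A.map (Int.castRingHom ℚ) := minpoly.dvd ℚ z hz2
    have h2 := minpoly.eq_of_irreducible_of_monic hirrQ hz1 (hg.map _)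
    rwa [← h2] at h1
  have hAne : A.map (Int.castRingHom ℚ) ≠ 0 := by
    rw [Ne, Polynomial.map_eq_zero_iff (RingHom.injective_int _)]
    exact hA0
  have := natDegree_le_of_dvd hdvd hAne
  rw [hg.natDegree_map, natDegree_map_eq_of_injective (RingHom.injective_int _)] at this
  omega

/-- Lower bound for each factor of a product of complex numbers of bounded norm. -/
theorem le_norm_of_prod (s : Multiset ℂ) (T : ℝ) (hT : 0 < T) (f : ℂ → ℂ)
    (hf : ∀ z ∈ s, ‖f z‖ ≤ T) (L : ℝ) (hL : L ≤ ‖(s.map f).prod‖) (z : ℂ) (hz : z ∈ s) :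
    L ≤ ‖f z‖ * T ^ (Multiset.card s - 1) := by
  classical
  have hs : s = z ::ₘ s.erase z := (Multiset.cons_erase hz).symm
  have h1 : (s.map f).prod = f z * ((s.erase z).map f).prod := by
    conv_lhs => rw [hs]
    rw [Multiset.map_cons, Multiset.prod_cons]
  have h2 : ∀ t : Multiset ℂ, (∀ z ∈ t, ‖f z‖ ≤ T) → ‖(t.map f).prod‖ ≤ T ^ (Multiset.card t) := by
    intro t
    induction t using Multiset.induction_on with
    | empty => intro _; simp
    | cons a t ih =>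
      intro ht
      rw [Multiset.map_cons, Multiset.prod_cons, norm_mul, Multiset.card_cons, pow_succ,
        mul_comm (T ^ _)]
      exact mul_le_mul (ht a (Multiset.mem_cons_self a t))
        (ih (fun z hz => ht z (Multiset.mem_cons_of_mem hz))) (norm_nonneg _) hT.le
  rw [h1, norm_mul] at hL
  refine hL.trans ?_
  apply mul_le_mul_of_nonneg_left _ (norm_nonneg _)
  have h3 := h2 (s.erase z) (fun w hw => hf w (Multiset.mem_of_mem_erase hw))
  rw [Multiset.card_erase_of_mem hz] at h3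
  exact h3

theorem norm_prod_le (T : ℝ) (hT : 0 < T) (f : ℂ → ℂ) (t : Multiset ℂ)
    (ht : ∀ z ∈ t, ‖f z‖ ≤ T) : ‖(t.map f).prod‖ ≤ T ^ (Multiset.card t) := by
  induction t using Multiset.induction_on with
  | empty => simp
  | cons a t ih =>
    rw [Multiset.map_cons, Multiset.prod_cons, norm_mul, Multiset.card_cons, pow_succ,
      mul_comm (T ^ _)]
    exact mul_le_mul (ht a (Multiset.mem_cons_self a t))
      (ih (fun z hz => ht z (Multiset.mem_cons_of_mem hz))) (norm_nonneg _) hT.le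

/-- Coefficients are bounded by the values at the roots. -/
theorem coeff_le_of_values (g : ℤ[X]) (hg : g.Monic) (hirr : Irreducible g) :
    ∃ K : ℝ, 1 ≤ K ∧ ∀ B : ℤ[X], B.natDegree < g.natDegree → ∀ T : ℝ,
      (∀ z : ℂ, aeval z g = 0 → ‖aeval z B‖ ≤ T) → ∀ i, |((B.coeff i : ℤ) : ℝ)| ≤ K * T := by
  classical
  have hirrQ : Irreducible (g.map (Int.castRingHom ℚ)) :=
    (IsPrimitive.Int.irreducible_iff_irreducible_map_cast hg.isPrimitive).mp hirr
  set s : Finset ℂ := (g.aroots ℂ).toFinset with hs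
  have hmem : ∀ z, z ∈ s ↔ aeval z g = 0 := by
    intro z
    rw [hs, Multiset.mem_toFinset, mem_aroots]
    exact ⟨fun h => h.2, fun h => ⟨hg.ne_zero, h⟩⟩
  have hmap : (g.map (Int.castRingHom ℚ)).map (algebraMap ℚ ℂ) = g.map (algebraMap ℤ ℂ) := by
    rw [Polynomial.map_map]
    congr 1
  have hnd : (g.aroots ℂ).Nodup := by
    have h1 := nodup_roots (hirrQ.separable.map (f := algebraMap ℚ ℂ))
    rw [hmap] at h1
    exact h1
  have hcard : s.card = g.natDegree := by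
    rw [hs, Multiset.toFinset_card_of_nodup hnd]
    have := (IsAlgClosed.splits (g.map (algebraMap ℤ ℂ))).natDegree_eq_card_roots
    rw [hg.natDegree_map] at this
    exact this.symm
  refine ⟨1 + ∑ i ∈ Finset.range g.natDegree, ∑ z ∈ s, ‖(Lagrange.basis s id z).coeff i‖, ?_, ?_⟩
  · have : 0 ≤ ∑ i ∈ Finset.range g.natDegree, ∑ z ∈ s, ‖(Lagrange.basis s id z).coeff i‖ :=
      Finset.sum_nonneg (fun _ _ => Finset.sum_nonneg (fun _ _ => norm_nonneg _))
    linarith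
  · intro B hB T hT i
    have hT0 : 0 ≤ T := by
      obtain ⟨z, hz⟩ : ∃ z : ℂ, aeval z g = 0 := by
        apply IsAlgClosed.exists_aeval_eq_zero
        rw [degree_eq_natDegree hg.ne_zero]
        have : 0 < g.natDegree := by omega
        exact_mod_cast this.ne'
      exact (norm_nonneg _).trans (hT z hz)
    by_cases hi : i < g.natDegree
    · have hdeg : (B.map (algebraMap ℤ ℂ)).degree < s.card := by
        rw [hcard]
        refine lt_of_le_of_lt degree_map_le ?_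
        exact lt_of_le_of_lt degree_le_natDegree (by exact_mod_cast hB)
      have h1 := Lagrange.eq_interpolate (v := (id : ℂ → ℂ)) (s := s)
        (Function.injective_id.injOn) hdeg
      have h2 : ((B.coeff i : ℤ) : ℂ) = ∑ z ∈ s, aeval z B * (Lagrange.basis s id z).coeff i := by
        have h3 : ((B.coeff i : ℤ) : ℂ) = (B.map (algebraMap ℤ ℂ)).coeff i := by
          rw [coeff_map]; simp
        rw [h3, h1, Lagrange.interpolate_apply, finsetSum_coeff]
        apply Finset.sum_congr rfl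
        intro z _
        rw [coeff_C_mul]
        congr 1
        exact eval_map_algebraMap _ _
      have h4 : |((B.coeff i : ℤ) : ℝ)| = ‖((B.coeff i : ℤ) : ℂ)‖ := by
        rw [Complex.norm_intCast]
      rw [h4, h2]
      refine (norm_sum_le _ _).trans ?_
      have h5 : ∑ z ∈ s, ‖aeval z B * (Lagrange.basis s id z).coeff i‖ ≤
          (∑ z ∈ s, ‖(Lagrange.basis s id z).coeff i‖) * T := by
        rw [Finset.sum_mul]
        apply Finset.sum_le_sum
        intro z hz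
        rw [norm_mul, mul_comm]
        exact mul_le_mul_of_nonneg_left (hT z ((hmem z).mp hz)) (norm_nonneg _)
      refine h5.trans (mul_le_mul_of_nonneg_right ?_ hT0)
      have h6 := Finset.single_le_sum
        (f := fun i => ∑ z ∈ s, ‖(Lagrange.basis s id z).coeff i‖)
        (fun _ _ => Finset.sum_nonneg (fun _ _ => norm_nonneg _)) (Finset.mem_range.mpr hi)
      have h7 : ∑ z ∈ s, ‖(Lagrange.basis s id z).coeff i‖ ≤
        ∑ i ∈ Finset.range g.natDegree, ∑ z ∈ s, ‖(Lagrange.basis s id z).coeff i‖ := h6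
      linarith
    · rw [coeff_eq_zero_of_natDegree_lt (by omega)]
      simp only [Int.cast_zero, abs_zero]
      apply mul_nonneg _ hT0
      have : 0 ≤ ∑ i ∈ Finset.range g.natDegree, ∑ z ∈ s, ‖(Lagrange.basis s id z).coeff i‖ :=
        Finset.sum_nonneg (fun _ _ => Finset.sum_nonneg (fun _ _ => norm_nonneg _))
      linarith

/-- **S2.** Balanced factorisation `A² B = m² (N - θ)` in `ℤ[X]/(g)` when `p² ∣ g(N)`. -/
theorem balanced (g : ℤ[X]) (hg : g.Monic) (hirr : Irreducible g) :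
    ∃ K : ℝ, 1 ≤ K ∧ ∃ p0 : ℕ, ∀ p : ℕ, p.Prime → p0 ≤ p → ∀ N : ℤ, (p : ℤ) ^ 2 ∣ g.eval N →
      ∃ (A B : ℤ[X]) (m : ℤ), m ≠ 0 ∧ |(m : ℝ)| ≤ K ∧ A.natDegree < g.natDegree ∧
        B.natDegree < g.natDegree ∧ g ∣ A ^ 2 * B - C (m ^ 2) * (C N - X) ∧
        (p : ℤ) ∣ A.eval N ∧ resultant g A g.natDegree g.natDegree = p * m ∧ ¬ (p : ℤ) ∣ m ∧
        (∀ i, |((A.coeff i : ℤ) : ℝ)| ≤ (p : ℝ) ^ ((1 : ℝ) / g.natDegree)) ∧
        (∀ i, |((B.coeff i : ℤ) : ℝ)| * ((p : ℝ) ^ ((1 : ℝ) / g.natDegree)) ^ 2 ≤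
          K * (|(N : ℝ)| + 1)) ∧
        ∀ z : ℂ, aeval z g = 0 →
          (p : ℝ) ^ ((1 : ℝ) / g.natDegree) ≤ K * ‖aeval z A‖ ∧
          ‖aeval z A‖ ≤ K * (p : ℝ) ^ ((1 : ℝ) / g.natDegree) ∧
          ‖aeval z B‖ * ((p : ℝ) ^ ((1 : ℝ) / g.natDegree)) ^ 2 ≤ K * ‖(N : ℂ) - z‖ ∧
          ‖(N : ℂ) - z‖ ≤ K * (‖aeval z B‖ * ((p : ℝ) ^ ((1 : ℝ) / g.natDegree)) ^ 2) := by
  classical
  have hd : 0 < g.natDegree := by
    rcases Nat.eq_zero_or_pos g.natDegree with h | h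
    · exfalso
      rw [hg.natDegree_eq_zero.mp h] at hirr
      exact hirr.not_isUnit isUnit_one
    · exact h
  obtain ⟨R, hR1, hR⟩ := root_bound g hg.ne_zero
  obtain ⟨K0, hK0, hK0c⟩ := coeff_le_of_values g hg hirr
  set d := g.natDegree with hdd
  set C1 : ℝ := d * R ^ d with hC1
  have hC1one : 1 ≤ C1 := by
    have h1 : (1 : ℝ) ≤ d := by exact_mod_cast hd
    have h2 : (1 : ℝ) ≤ R ^ d := one_le_pow₀ hR1
    nlinarith
  have hC1pos : 0 < C1 := by linarith
  -- the constant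
  set K : ℝ := K0 * C1 ^ (4 * d) * R with hK
  have hpow : ∀ j, j ≤ 4 * d → C1 ^ j ≤ K := by
    intro j hj
    have h1 : C1 ^ j ≤ C1 ^ (4 * d) := pow_le_pow_right₀ hC1one hj
    have h2 : C1 ^ (4 * d) ≤ K0 * C1 ^ (4 * d) := by
      have : (0 : ℝ) < C1 ^ (4 * d) := by positivity
      nlinarith
    have h3 : K0 * C1 ^ (4 * d) ≤ K := by
      have : (0 : ℝ) < K0 * C1 ^ (4 * d) := by positivity
      rw [hK]; nlinarith
    linarith
  refine ⟨K, (by simpa using hpow 0 (by omega)), ⌈C1 ^ d⌉₊ + 1, ?_⟩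
  intro p hp hpp0 N hN
  have hp0 : (0 : ℝ) < p := by exact_mod_cast hp.pos
  set H : ℝ := (p : ℝ) ^ ((1 : ℝ) / d) with hH
  have hHpos : 0 < H := by rw [hH]; positivity
  have hHd : H ^ d = p := by
    rw [hH, ← Real.rpow_natCast, ← Real.rpow_mul hp0.le]
    have : (1 : ℝ) / d * d = 1 := by
      have : (d : ℝ) ≠ 0 := by exact_mod_cast hd.ne'
      field_simp
    rw [this, Real.rpow_one]
  obtain ⟨A, hA0, hAd, hAN, hAc⟩ := exists_small d hd p hp.pos N
  have hAz : ∀ z : ℂ, aeval z g = 0 → ‖aeval z A‖ ≤ C1 * H := by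
    intro z hz
    exact norm_aeval_le A d hAd H R hHpos.le hR1 hAc z (hR z hz)
  set r := resultant g A d d with hr
  have hrp : (p : ℤ) ∣ r := by
    have h1 := res_congr g hg hd p hp N hN A hAd
    rw [← hdd, ← hr] at h1
    have h2 : (p : ℤ) ∣ A.eval N * resultant (g /ₘ (X - C N)) A (d - 1) d :=
      Dvd.dvd.mul_right hAN _
    have h3 : (p : ℤ) ∣ r - A.eval N * resultant (g /ₘ (X - C N)) A (d - 1) d :=
      (dvd_pow_self _ (by norm_num)).trans h1
    have := dvd_add h3 h2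
    simpa using this
  obtain ⟨m, hm⟩ := hrp
  have hcast := resultant_cast g hg A d hAd.le
  rw [← hdd, ← hr] at hcast
  have hcard : Multiset.card (g.aroots ℂ) = d := by
    have := (IsAlgClosed.splits (g.map (algebraMap ℤ ℂ))).natDegree_eq_card_roots
    rw [hg.natDegree_map] at this
    exact this.symm
  have hroot : ∀ z ∈ g.aroots ℂ, aeval z g = 0 := fun z hz => (mem_aroots.mp hz).2
  have hmem : ∀ z : ℂ, aeval z g = 0 → z ∈ g.aroots ℂ := fun z hz =>
    mem_aroots.mpr ⟨hg.ne_zero, hz⟩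
  have hr0 : r ≠ 0 := by
    intro h0
    rw [h0, Int.cast_zero] at hcast
    have := Multiset.prod_eq_zero_iff.mp hcast.symm
    obtain ⟨z, hz, hz0⟩ := Multiset.mem_map.mp this
    exact aeval_ne_zero_of_lt g hg hirr A hA0 hAd z (hroot z hz) hz0
  have hm0 : m ≠ 0 := by
    rintro rfl
    apply hr0; rw [hm, mul_zero]
  have hrabs : ‖((g.aroots ℂ).map (fun z => aeval z A)).prod‖ = p * |(m : ℝ)| := by
    rw [← hcast, Complex.norm_intCast, hm]
    push_cast
    rw [abs_mul, abs_of_pos hp0]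
  have hC1H : 0 < C1 * H := by positivity
  have hmle : |(m : ℝ)| ≤ C1 ^ d := by
    have h1 := norm_prod_le (C1 * H) hC1H (fun z => aeval z A) (g.aroots ℂ)
      (fun z hz => hAz z (hroot z hz))
    rw [hrabs, hcard, mul_pow, hHd, mul_comm] at h1
    exact le_of_mul_le_mul_right h1 hp0
  have hm1 : (1 : ℝ) ≤ |(m : ℝ)| := by
    have : (1 : ℤ) ≤ |m| := Int.one_le_abs hm0
    exact_mod_cast this
  have hpm : ¬ (p : ℤ) ∣ m := by
    intro h
    have h1 : (p : ℤ) ≤ |m| := by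
      have := Int.le_of_dvd (abs_pos.mpr hm0) ((dvd_abs _ _).mpr h)
      exact this
    have h2 : (p : ℝ) ≤ |(m : ℝ)| := by exact_mod_cast h1
    have h3 : C1 ^ d < p := by
      have h4 : C1 ^ d ≤ ⌈C1 ^ d⌉₊ := Nat.le_ceil _
      have h5 : ((⌈C1 ^ d⌉₊ + 1 : ℕ) : ℝ) ≤ p := by exact_mod_cast hpp0
      push_cast at h5
      linarith
    linarith
  obtain ⟨B, hBd, hgB⟩ := exists_beta g hg hd p hp N hN A hAd hAN m hm hpm
  have hrel : ∀ z : ℂ, aeval z g = 0 → (aeval z A) ^ 2 * aeval z B = (m : ℂ) ^ 2 * ((N : ℂ) - z) := by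
    intro z hz
    obtain ⟨Q, hQ⟩ := hgB
    have := congrArg (aeval z) hQ
    simp only [map_sub, map_mul, map_pow, hz, zero_mul, aeval_X, aeval_C] at this
    have h2 := sub_eq_zero.mp this
    simpa using h2
  have hlow : ∀ z : ℂ, aeval z g = 0 → H ≤ C1 ^ (d - 1) * ‖aeval z A‖ := by
    intro z hz
    have h1 := le_norm_of_prod (g.aroots ℂ) (C1 * H) hC1H (fun z => aeval z A)
      (fun z hz => hAz z (hroot z hz)) p (by rw [hrabs]; nlinarith) z (hmem z hz)
    rw [hcard, mul_pow] at h1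
    have h2 : H * H ^ (d - 1) ≤ (C1 ^ (d - 1) * ‖aeval z A‖) * H ^ (d - 1) := by
      rw [← pow_succ', show d - 1 + 1 = d by omega, hHd]
      linarith
    exact le_of_mul_le_mul_right h2 (by positivity)
  have hBup : ∀ z : ℂ, aeval z g = 0 → ‖aeval z B‖ * H ^ 2 ≤ C1 ^ (4 * d) * ‖(N : ℂ) - z‖ := by
    intro z hz
    have h1 := hlow z hz
    have h2 : H ^ 2 ≤ (C1 ^ (d - 1)) ^ 2 * ‖aeval z A‖ ^ 2 := by
      rw [← mul_pow]; exact pow_le_pow_left₀ hHpos.le h1 2
    have h3 : ‖aeval z A‖ ^ 2 * ‖aeval z B‖ = |(m : ℝ)| ^ 2 * ‖(N : ℂ) - z‖ := by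
      have := congrArg norm (hrel z hz)
      rw [norm_mul, norm_pow, norm_mul, norm_pow, Complex.norm_intCast] at this
      exact this
    calc ‖aeval z B‖ * H ^ 2 ≤ ‖aeval z B‖ * ((C1 ^ (d - 1)) ^ 2 * ‖aeval z A‖ ^ 2) :=
          mul_le_mul_of_nonneg_left h2 (norm_nonneg _)
      _ = (C1 ^ (d - 1)) ^ 2 * (|(m : ℝ)| ^ 2 * ‖(N : ℂ) - z‖) := by rw [← h3]; ring
      _ ≤ (C1 ^ (d - 1)) ^ 2 * ((C1 ^ d) ^ 2 * ‖(N : ℂ) - z‖) := by
          apply mul_le_mul_of_nonneg_left _ (by positivity)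
          apply mul_le_mul_of_nonneg_right _ (norm_nonneg _)
          exact pow_le_pow_left₀ (abs_nonneg _) hmle 2
      _ = C1 ^ (2 * (d - 1) + 2 * d) * ‖(N : ℂ) - z‖ := by ring
      _ ≤ C1 ^ (4 * d) * ‖(N : ℂ) - z‖ := by
          apply mul_le_mul_of_nonneg_right _ (norm_nonneg _)
          exact pow_le_pow_right₀ hC1one (by omega)
  refine ⟨A, B, m, hm0, hmle.trans (hpow d (by omega)), hAd, hBd, hgB, hAN, hm, hpm, hAc, ?_, ?_⟩
  · intro i
    have hT : ∀ z : ℂ, aeval z g = 0 →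
        ‖aeval z B‖ ≤ C1 ^ (4 * d) * (R * (|(N : ℝ)| + 1)) / H ^ 2 := by
      intro z hz
      rw [le_div_iff₀ (by positivity)]
      refine (hBup z hz).trans ?_
      apply mul_le_mul_of_nonneg_left _ (by positivity)
      calc ‖(N : ℂ) - z‖ ≤ ‖(N : ℂ)‖ + ‖z‖ := norm_sub_le _ _
        _ ≤ |(N : ℝ)| + R := by rw [Complex.norm_intCast]; linarith [hR z hz]
        _ ≤ R * (|(N : ℝ)| + 1) := by nlinarith [abs_nonneg (N : ℝ)]
    have h1 := hK0c B hBd _ hT i
    have h2 : |((B.coeff i : ℤ) : ℝ)| * H ^ 2 ≤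
        (K0 * (C1 ^ (4 * d) * (R * (|(N : ℝ)| + 1)) / H ^ 2)) * H ^ 2 :=
      mul_le_mul_of_nonneg_right h1 (by positivity)
    refine h2.trans (le_of_eq ?_)
    rw [hK]
    field_simp
  · intro z hz
    refine ⟨?_, ?_, ?_, ?_⟩
    · exact (hlow z hz).trans (mul_le_mul_of_nonneg_right (hpow (d - 1) (by omega)) (norm_nonneg _))
    · refine (hAz z hz).trans (mul_le_mul_of_nonneg_right ?_ hHpos.le)
      simpa using hpow 1 (by omega)
    · exact (hBup z hz).trans (mul_le_mul_of_nonneg_right (hpow (4 * d) le_rfl) (norm_nonneg _))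
    · have h3 : ‖aeval z A‖ ^ 2 * ‖aeval z B‖ = |(m : ℝ)| ^ 2 * ‖(N : ℂ) - z‖ := by
        have := congrArg norm (hrel z hz)
        rw [norm_mul, norm_pow, norm_mul, norm_pow, Complex.norm_intCast] at this
        exact this
      calc ‖(N : ℂ) - z‖ ≤ |(m : ℝ)| ^ 2 * ‖(N : ℂ) - z‖ := by
            have : (1 : ℝ) ≤ |(m : ℝ)| ^ 2 := one_le_pow₀ hm1
            nlinarith [norm_nonneg ((N : ℂ) - z)]
        _ = ‖aeval z A‖ ^ 2 * ‖aeval z B‖ := h3.symm
        _ ≤ (C1 * H) ^ 2 * ‖aeval z B‖ := by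
            apply mul_le_mul_of_nonneg_right _ (norm_nonneg _)
            exact pow_le_pow_left₀ (norm_nonneg _) (hAz z hz) 2
        _ = C1 ^ 2 * (‖aeval z B‖ * H ^ 2) := by ring
        _ ≤ K * (‖aeval z B‖ * H ^ 2) := by
            apply mul_le_mul_of_nonneg_right _ (by positivity)
            exact hpow 2 (by omega)

/-- `B` is primitive up to `m²`. -/
theorem content_dvd (g : ℤ[X]) (hg : g.Monic) (hd : 2 ≤ g.natDegree) (A B : ℤ[X]) (m N : ℤ)
    (hgB : g ∣ A ^ 2 * B - C (m ^ 2) * (C N - X)) (q : ℤ) (hq : C q ∣ B) : q ∣ m ^ 2 := by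
  obtain ⟨B', rfl⟩ := hq
  set S := (A ^ 2 * B') %ₘ g with hS
  have h1 : (A ^ 2 * (C q * B')) %ₘ g = C q * S := by
    rw [show A ^ 2 * (C q * B') = C q * (A ^ 2 * B') by ring, ← smul_eq_C_mul, smul_modByMonic,
      smul_eq_C_mul]
  have h2 : (C (m ^ 2) * (C N - X)) %ₘ g = C (m ^ 2) * (C N - X) := by
    rw [modByMonic_eq_self_iff hg]
    have h0 : (C N - X : ℤ[X]).degree = 1 := by
      rw [← neg_sub, degree_neg, degree_X_sub_C]
    refine lt_of_le_of_lt ((degree_mul_le _ _).trans (add_le_add degree_C_le h0.le)) ?_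
    rw [degree_eq_natDegree hg.ne_zero, zero_add]
    exact_mod_cast hd
  have h3 : (A ^ 2 * (C q * B')) %ₘ g = (C (m ^ 2) * (C N - X)) %ₘ g := by
    rw [← sub_eq_zero, ← sub_modByMonic, modByMonic_eq_zero_iff_dvd hg]
    exact hgB
  rw [h1, h2] at h3
  have h4 := congrArg (fun f => coeff f 1) h3
  simp only [coeff_C_mul, coeff_sub, coeff_C, coeff_X_one] at h4
  norm_num at h4
  exact ⟨-S.coeff 1, by linear_combination h4⟩

end Pool.Agent.Lib.SQF
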