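import Pool.Agent.Lib.SQF.Defs
import Pool.Agent.Lib.SQF.S2
import Pool.Agent.Lib.SQF.RCG0

/-!
# SQF, module SecRC0 (helper66): the callers of the RC lemma on alpha-slices, modulo `rc_count`

`root_count_of`: solutions of a slice with `u / v` a root of one fixed polynomial.
`sec_count_of`: solutions of a slice on a section `A(t) n + B(t) = 0`.
`pencil_count_of`: solutions of a slice on a curve `Λ(E₁,E₂) + t Μ(E₁,E₂) = 0`, `E_j = A_j n + B_j`.
All three carry at most `K Y^ε` solutions, provided `rat_count` holds (hypothesis `RatAll g`).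
-/

set_option autoImplicit false

open Polynomial Finset
open Pool.Agent.SQF4 (hf hf_mul hf_one hf_zero hf_add hf_C)

namespace Pool.Agent.Lib.SQF

/-- the facts of one solution which the RC lemmas use -/
def RCSol (g : ℤ[X]) (L Y : ℝ) (n : ℤ) (p : ℕ) (α : Fin 4 → ℤ) : Prop :=
  |(n : ℝ)| ≤ L * Y ∧ p.Prime ∧ Y ≤ L * p ∧ (p : ℤ) ^ 2 ∣ g.eval n ∧
    (p : ℤ) ∣ ∑ i, α i * n ^ (i : ℕ) ∧ ¬ (p : ℤ) ^ 2 ∣ ∑ i, α i * n ^ (i : ℕ) ∧
    ∃ i, ¬ (p : ℤ) ∣ α i

/-- the statement of `rat_count` for all parameters -/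
def RatAll (g : ℤ[X]) : Prop := ∀ (a k : ℕ) (E L ε : ℝ), 0 < ε → ∃ K : ℝ, 0 < K ∧
    ∀ Y : ℝ, 1 ≤ Y →
    ∀ (A : Fin 4 → ℤ[X]) (Ξ Ψ : ℤ[X]), (∀ i, (A i).natDegree ≤ a) → Ξ.natDegree ≤ k →
    Ψ.natDegree ≤ k → (∀ i j, |((A i).coeff j : ℝ)| ≤ Y ^ E) → (∀ j, |(Ξ.coeff j : ℝ)| ≤ Y ^ E) →
    (∀ j, |(Ψ.coeff j : ℝ)| ≤ Y ^ E) →
    ∀ T : Finset ℤ,
    (∀ n ∈ T, ∃ (s r : ℤ) (p : ℕ) (α : Fin 4 → ℤ), IsCoprime s r ∧ |(s : ℝ)| ≤ Y ^ E ∧
      |(r : ℝ)| ≤ Y ^ E ∧ (∃ i, hf (A i) a s r ≠ 0) ∧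
      (∀ i j, α i * hf (A j) a s r = α j * hf (A i) a s r) ∧ hf Ψ k s r ≠ 0 ∧
      n * hf Ψ k s r = hf Ξ k s r ∧ RCSol g L Y n p α) →
    (T.card : ℝ) ≤ K * Y ^ ε

/-- `RatAll` from `rc_count` -/
theorem ratAll_of (g : ℤ[X])
    (hrc : ∀ (a0 k0 : ℕ) (C1 L1 ε : ℝ), 0 < ε → 1 ≤ k0 → RCStmt g a0 k0 C1 L1 ε) : RatAll g := by
  intro a k E L ε hε
  obtain ⟨K, hK, h⟩ := rat_count_of g a k E L ε hε (fun a0 k0 C1 L1 hk => hrc a0 k0 C1 L1 ε hε hk)
  refine ⟨K, hK, ?_⟩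
  intro Y hY A Ξ Ψ hA hΞ hΨ cA cΞ cΨ T hT
  exact h Y hY A Ξ Ψ hA hΞ hΨ cA cΞ cΨ T id (fun _ _ _ _ h => h) hT

lemma eval_pol {d : ℕ} (a : Fin d → ℤ) (n : ℤ) :
    (pol a).eval n = ∑ i : Fin d, a i * n ^ (i : ℕ) := by
  unfold pol
  rw [eval_finsetSum]
  refine Finset.sum_congr rfl fun i _ => ?_
  rw [eval_mul, eval_C, eval_pow, eval_X]

lemma pol_natDegree_lt {d : ℕ} (hd : 0 < d) (a : Fin d → ℤ) : (pol a).natDegree < d := by
  unfold pol
  refine Nat.lt_of_le_pred hd ?_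
  refine natDegree_sum_le_of_forall_le _ _ fun i _ => ?_
  exact (natDegree_C_mul_X_pow_le _ _).trans (Nat.le_pred_of_lt i.2)

/-- the solutions of `Defs` give the facts for the RC lemmas -/
theorem IsSol.rcSol {g : ℤ[X]} (hg : g.Monic) (hd : g.natDegree = 4) {K Y P L : ℝ} {n : ℤ} {p : ℕ}
    {α β : Fin 4 → ℤ} {m : ℤ} (h : IsSol 4 g K Y P n p α β m) (hL : 2 ≤ L) (hY : 0 ≤ Y)
    (hP : Y ≤ L * P) : RCSol g L Y n p α := by
  refine ⟨?_, h.prime, ?_, h.sq_dvd, ?_, ?_, ?_⟩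
  · refine h.upper.le.trans ?_
    exact mul_le_mul_of_nonneg_right hL hY
  · refine hP.trans ?_
    exact mul_le_mul_of_nonneg_left h.ple (by linarith)
  · rw [← eval_pol]; exact h.dvd_eval
  · rw [← eval_pol]
    intro h2
    have h3 := res_congr g hg (by omega) p h.prime n h.sq_dvd (pol α)
      (by rw [hd]; exact pol_natDegree_lt (by norm_num) α)
    rw [hd, h.res] at h3
    have h4 : ((p : ℤ) ^ 2) ∣ (p : ℤ) * m := by
      have h5 := dvd_mul_of_dvd_left h2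
        (resultant (g /ₘ (X - C n)) (pol α) (4 - 1) 4)
      have h6 := dvd_add h3 h5
      rwa [sub_add_cancel] at h6
    rw [sq] at h4
    have hp0 : (p : ℤ) ≠ 0 := by exact_mod_cast h.prime.ne_zero
    exact h.not_dvd ((mul_dvd_mul_iff_left hp0).1 h4)
  · by_contra hcon
    push Not at hcon
    choose b hb using hcon
    have h1 : pol α = C (p : ℤ) * pol b := by
      unfold pol
      rw [Finset.mul_sum]
      refine Finset.sum_congr rfl fun i _ => ?_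
      rw [hb i, C_mul, mul_assoc]
    have h2 := h.res
    rw [h1, resultant_C_mul_right] at h2
    have hp0 : (p : ℤ) ≠ 0 := by exact_mod_cast h.prime.ne_zero
    apply h.not_dvd
    refine ⟨(p : ℤ) ^ 2 * resultant g (pol b) 4 4, ?_⟩
    apply mul_left_cancel₀ hp0
    rw [← h2]
    ring

/-! ### preliminaries on binary forms -/

private lemma hf_smul (P : ℤ[X]) (k : ℕ) (c s r : ℤ) :
    hf P k (c * s) (c * r) = c ^ k * hf P k s r := by
  unfold hf
  rw [mul_sum]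
  refine sum_congr rfl fun i hi => ?_
  have hi' : i ≤ k := Nat.lt_succ_iff.1 (mem_range.1 hi)
  have h1 : c ^ k = c ^ i * c ^ (k - i) := by rw [← pow_add, Nat.add_sub_cancel' hi']
  rw [h1, mul_pow, mul_pow]
  ring

private lemma hf_Cmul (P : ℤ[X]) (k : ℕ) (c s r : ℤ) :
    hf (C c * P) k s r = c * hf P k s r := by
  unfold hf
  rw [mul_sum]
  refine sum_congr rfl fun i _ => ?_
  rw [coeff_C_mul]
  ring

private lemma hf_neg (P : ℤ[X]) (k : ℕ) (s r : ℤ) : hf (-P) k s r = -hf P k s r := by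
  unfold hf
  rw [← sum_neg_distrib]
  refine sum_congr rfl fun i _ => ?_
  rw [coeff_neg]
  ring

private lemma hf_sub (P Q : ℤ[X]) (k : ℕ) (s r : ℤ) :
    hf (P - Q) k s r = hf P k s r - hf Q k s r := by
  rw [sub_eq_add_neg, hf_add, hf_neg, ← sub_eq_add_neg]

private lemma hf_sum {ι : Type*} (S : Finset ι) (P : ι → ℤ[X]) (k : ℕ) (s r : ℤ) :
    hf (∑ i ∈ S, P i) k s r = ∑ i ∈ S, hf (P i) k s r := by
  classical
  induction S using Finset.induction_on with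
  | empty => simp [hf]
  | insert a S ha ih => rw [sum_insert ha, sum_insert ha, hf_add, ih]

private lemma hf_pow' (P : ℤ[X]) (d : ℕ) (hP : P.natDegree ≤ d) (m : ℕ) (s r : ℤ) :
    hf (P ^ m) (d * m) s r = hf P d s r ^ m := by
  induction m with
  | zero => simp [hf]
  | succ m ih =>
    rw [pow_succ, pow_succ, ← ih, Nat.mul_succ,
      hf_mul (P ^ m) P (d * m) d (natDegree_pow_le_of_le m hP |>.trans (by rw [mul_comm])) hP]

/-- the size of a form -/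
private lemma abs_hf_le (P : ℤ[X]) (k : ℕ) (s r : ℤ) (H : ℝ) (hH : 1 ≤ H)
    (hP : ∀ j, |(P.coeff j : ℝ)| ≤ H) (hs : |(s : ℝ)| ≤ H) (hr : |(r : ℝ)| ≤ H) :
    |((hf P k s r : ℤ) : ℝ)| ≤ (k + 1) * H ^ (k + 1) := by
  unfold hf
  push_cast
  refine (Finset.abs_sum_le_sum_abs _ _).trans ?_
  have : ∀ i ∈ range (k + 1), |(P.coeff i : ℝ) * (s : ℝ) ^ i * (r : ℝ) ^ (k - i)| ≤ H ^ (k + 1) := by
    intro i hi
    have hi' : i ≤ k := Nat.lt_succ_iff.1 (mem_range.1 hi)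
    rw [abs_mul, abs_mul, abs_pow, abs_pow]
    have h1 : H ^ (k + 1) = H * H ^ i * H ^ (k - i) := by
      rw [mul_assoc, ← pow_add, Nat.add_sub_cancel' hi', pow_succ]
      ring
    rw [h1]
    have h0 : (0 : ℝ) ≤ H := by linarith
    gcongr
    exact hP i
  refine (sum_le_sum this).trans ?_
  rw [sum_const, card_range, nsmul_eq_mul]
  push_cast
  exact le_refl _

private lemma exists_coprime' (u v : ℤ) (h : u ≠ 0 ∨ v ≠ 0) : ∃ s r c : ℤ, IsCoprime s r ∧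
    u = c * s ∧ v = c * r ∧ c ≠ 0 ∧ |s| ≤ |u| ∧ |r| ≤ |v| := by
  have hg : 0 < Int.gcd u v := by
    rcases h with h | h
    · exact Int.gcd_pos_of_ne_zero_left v h
    · exact Int.gcd_pos_of_ne_zero_right u h
  obtain ⟨s, hs⟩ := Int.gcd_dvd_left (a := u) (b := v)
  obtain ⟨r, hr⟩ := Int.gcd_dvd_right (a := u) (b := v)
  have hg0 : ((Int.gcd u v : ℕ) : ℤ) ≠ 0 := by exact_mod_cast hg.ne'
  have hg1 : (1 : ℤ) ≤ ((Int.gcd u v : ℕ) : ℤ) := by exact_mod_cast hg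
  refine ⟨s, r, Int.gcd u v, ?_, hs, hr, hg0, ?_, ?_⟩
  · have h1 := Int.gcd_eq_gcd_ab u v
    refine ⟨Int.gcdA u v, Int.gcdB u v, ?_⟩
    apply mul_left_cancel₀ hg0
    linear_combination (-(Int.gcdA u v)) * hs - (Int.gcdB u v) * hr - h1
  · conv_rhs => rw [hs]
    rw [abs_mul, abs_of_pos (by omega : (0 : ℤ) < ((Int.gcd u v : ℕ) : ℤ))]
    exact le_mul_of_one_le_left (abs_nonneg _) hg1
  · conv_rhs => rw [hr]
    rw [abs_mul, abs_of_pos (by omega : (0 : ℤ) < ((Int.gcd u v : ℕ) : ℤ))]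
    exact le_mul_of_one_le_left (abs_nonneg _) hg1

/-- at most `d` ratios `u / v` (with `v ≠ 0`) are roots of a nonzero form -/
private lemma ratio_card (R : ℤ[X]) (hR : R ≠ 0) (d : ℕ) (hRd : R.natDegree ≤ d) (T : Finset ℤ)
    (u v : ℤ → ℤ) (hT : ∀ n ∈ T, v n ≠ 0 ∧ hf R d (u n) (v n) = 0) :
    (T.image (fun n => ((u n : ℚ) / (v n : ℚ)))).card ≤ d := by
  classical
  have hR' : R.map (Int.castRingHom ℚ) ≠ 0 :=
    (Polynomial.map_ne_zero_iff (RingHom.injective_int _)).2 hR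
  refine le_trans (card_le_card (t := (R.map (Int.castRingHom ℚ)).roots.toFinset) ?_) ?_
  · intro x hx
    obtain ⟨n, hn, rfl⟩ := mem_image.1 hx
    rw [Multiset.mem_toFinset, mem_roots hR', IsRoot.def]
    obtain ⟨hv, h0⟩ := hT n hn
    have hv' : ((v n : ℤ) : ℚ) ≠ 0 := by exact_mod_cast hv
    rw [eval_map, eval₂_eq_sum_range' _ (Nat.lt_succ_of_le hRd)]
    have h1 : ((hf R d (u n) (v n) : ℤ) : ℚ) = 0 := by exact_mod_cast h0
    unfold hf at h1
    push_cast at h1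
    have h2 : ((v n : ℤ) : ℚ) ^ d * ∑ i ∈ range (d + 1), (Int.castRingHom ℚ) (R.coeff i) *
        ((u n : ℚ) / (v n : ℚ)) ^ i = 0 := by
      rw [mul_sum, ← h1]
      refine sum_congr rfl fun i hi => ?_
      have hi' : i ≤ d := Nat.lt_succ_iff.1 (mem_range.1 hi)
      have h3 : ((v n : ℤ) : ℚ) ^ d = (v n : ℚ) ^ i * (v n : ℚ) ^ (d - i) := by
        rw [← pow_add, Nat.add_sub_cancel' hi']
      rw [h3, div_pow, eq_intCast]
      field_simp
    exact (mul_eq_zero.1 h2).resolve_left (pow_ne_zero _ hv')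
  · refine (Multiset.toFinset_card_le _).trans ?_
    refine (card_roots' _).trans ?_
    exact natDegree_map_le.trans hRd

/-- sizes -/
private lemma size_le {H M Y E c : ℝ} (κ : ℕ) (hH : 1 ≤ H) (hY : 1 ≤ Y) (hc : 0 ≤ c)
    (h : H ≤ M * Y ^ E) : c * H ^ κ ≤ (c * M ^ κ) * Y ^ (E * κ) := by
  have h0 : (0 : ℝ) ≤ H := by linarith
  have h1 : H ^ κ ≤ (M * Y ^ E) ^ κ := pow_le_pow_left₀ h0 h κ
  have h2 : (Y ^ E) ^ κ = Y ^ (E * κ) := by
    rw [← Real.rpow_natCast, ← Real.rpow_mul (by linarith)]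
  rw [mul_pow, h2] at h1
  calc c * H ^ κ ≤ c * (M ^ κ * Y ^ (E * κ)) := mul_le_mul_of_nonneg_left h1 hc
    _ = _ := by ring

/-- `rat_count` with a bound `H ≤ M Y^E` for all sizes -/
theorem rat_count' (g : ℤ[X]) (hrat : RatAll g)
    (a k : ℕ) (E M L ε : ℝ) (hε : 0 < ε) : ∃ K : ℝ, 0 < K ∧ ∀ Y H : ℝ, 1 ≤ Y →
    H ≤ M * Y ^ E →
    ∀ (A : Fin 4 → ℤ[X]) (Ξ Ψ : ℤ[X]), (∀ i, (A i).natDegree ≤ a) → Ξ.natDegree ≤ k →
    Ψ.natDegree ≤ k → (∀ i j, |((A i).coeff j : ℝ)| ≤ H) →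
    (∀ j, |(Ξ.coeff j : ℝ)| ≤ H) → (∀ j, |(Ψ.coeff j : ℝ)| ≤ H) →
    ∀ T : Finset ℤ, (∀ n ∈ T, ∃ (s r : ℤ) (p : ℕ) (α : Fin 4 → ℤ), IsCoprime s r ∧
      |(s : ℝ)| ≤ H ∧ |(r : ℝ)| ≤ H ∧ (∃ i, hf (A i) a s r ≠ 0) ∧
      (∀ i j, α i * hf (A j) a s r = α j * hf (A i) a s r) ∧
      hf Ψ k s r ≠ 0 ∧ n * hf Ψ k s r = hf Ξ k s r ∧ RCSol g L Y n p α) →
    (T.card : ℝ) ≤ K * Y ^ ε := by
  obtain ⟨K, hK, hcount⟩ := hrat a k (E + 1) L ε hε
  refine ⟨K + (2 * (|L| * |M|) + 1), by positivity, ?_⟩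
  intro Y H hY hHM A Ξ Ψ hA hXi hPsi hcA hcX hcP T hT
  have hYε : 1 ≤ Y ^ ε := Real.one_le_rpow hY hε.le
  by_cases hYM : M ≤ Y
  · have hH' : H ≤ Y ^ (E + 1) := by
      rw [Real.rpow_add (by linarith), Real.rpow_one]
      have h1 : (0 : ℝ) ≤ Y ^ E := Real.rpow_nonneg (by linarith) _
      calc H ≤ M * Y ^ E := hHM
        _ ≤ Y * Y ^ E := mul_le_mul_of_nonneg_right hYM h1
        _ = _ := by ring
    have := hcount Y hY A Ξ Ψ hA hXi hPsi (fun i j => (hcA i j).trans hH')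
      (fun j => (hcX j).trans hH') (fun j => (hcP j).trans hH') T (by
        intro n hn
        obtain ⟨s, r, p, α, h1, h2, h3, h4⟩ := hT n hn
        exact ⟨s, r, p, α, h1, h2.trans hH', h3.trans hH', h4⟩)
    refine this.trans ?_
    have h2 : 0 ≤ (2 * (|L| * |M|) + 1) * Y ^ ε := by positivity
    nlinarith
  · push Not at hYM
    have hsub : T ⊆ Finset.Icc (-⌊|L| * |M|⌋) ⌊|L| * |M|⌋ := by
      intro n hn
      obtain ⟨s, r, p, α, -, -, -, -, -, -, -, h⟩ := hT n hn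
      have h1 : |(n : ℝ)| ≤ |L| * |M| := by
        refine h.1.trans ?_
        have h2 : L * Y ≤ |L| * Y := mul_le_mul_of_nonneg_right (le_abs_self L) (by linarith)
        refine h2.trans (mul_le_mul_of_nonneg_left ?_ (abs_nonneg _))
        exact hYM.le.trans (le_abs_self M)
      rw [Finset.mem_Icc]
      have h3 := abs_le.1 h1
      constructor
      · have : -n ≤ ⌊|L| * |M|⌋ := Int.le_floor.2 (by push_cast; linarith [h3.1])
        linarith
      · exact Int.le_floor.2 h3.2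
    have hcard := card_le_card hsub
    rw [Int.card_Icc] at hcard
    have h3 : 0 ≤ ⌊|L| * |M|⌋ := Int.floor_nonneg.2 (by positivity)
    have h4 : ((⌊|L| * |M|⌋ + 1 - -⌊|L| * |M|⌋).toNat : ℝ) = 2 * ⌊|L| * |M|⌋ + 1 := by
      have : ((⌊|L| * |M|⌋ + 1 - -⌊|L| * |M|⌋).toNat : ℤ) = 2 * ⌊|L| * |M|⌋ + 1 := by
        rw [Int.toNat_of_nonneg (by omega)]; ring
      exact_mod_cast this
    have h5 : (T.card : ℝ) ≤ 2 * ⌊|L| * |M|⌋ + 1 := by
      rw [← h4]; exact_mod_cast hcard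
    have h6 : (⌊|L| * |M|⌋ : ℝ) ≤ |L| * |M| := Int.floor_le _
    have h7 : (2 * (|L| * |M|) + 1) ≤ (2 * (|L| * |M|) + 1) * Y ^ ε :=
      le_mul_of_one_le_right (by positivity) hYε
    have h8 : 0 ≤ K * Y ^ ε := by positivity
    nlinarith

/-- the solutions of one slice -/
def SlSol (g : ℤ[X]) (L Y H : ℝ) (e1 e2 : Fin 4 → ℤ) (n u v : ℤ) : Prop :=
  v ≠ 0 ∧ |(u : ℝ)| ≤ H ∧ |(v : ℝ)| ≤ H ∧ ∃ (p : ℕ) (α : Fin 4 → ℤ), RCSol g L Y n p α ∧
    OnSlice e1 e2 α u v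

/-- solutions with a fixed ratio `u / v` -/
private theorem ray_count (g : ℤ[X]) (hrat : RatAll g)
    (E M L ε : ℝ) (hε : 0 < ε) : ∃ K : ℝ, 0 < K ∧ ∀ Y H : ℝ, 1 ≤ Y → Y ≤ H →
    H ≤ M * Y ^ E → ∀ e1 e2 : Fin 4 → ℤ, (∀ i, |(e1 i : ℝ)| ≤ H) → (∀ i, |(e2 i : ℝ)| ≤ H) →
    ∀ (T : Finset ℤ) (u v : ℤ → ℤ), (∀ n ∈ T, SlSol g L Y H e1 e2 n (u n) (v n)) →
    (∀ n ∈ T, ∀ n' ∈ T, (u n : ℚ) / (v n : ℚ) = (u n' : ℚ) / (v n' : ℚ)) →
    (T.card : ℝ) ≤ K * Y ^ ε := by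
  obtain ⟨K, hK, hcount⟩ := rat_count' g hrat 0 1 (E * (2 : ℕ)) ((2 + |L|) * M ^ 2) L ε hε
  refine ⟨K, hK, ?_⟩
  intro Y H hY hYH hHM e1 e2 he1 he2 T u v hT hrat
  have hH : 1 ≤ H := hY.trans hYH
  have hL0 : 0 ≤ |L| := abs_nonneg L
  rcases T.eq_empty_or_nonempty with rfl | ⟨n0, hn0⟩
  · simp only [card_empty, Nat.cast_zero]
    have := Real.rpow_nonneg (by linarith : (0 : ℝ) ≤ Y) ε
    positivity
  have hH2 : (2 + |L|) * H ^ 2 ≤ (2 + |L|) * M ^ 2 * Y ^ (E * (2 : ℕ)) :=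
    size_le 2 hH hY (by positivity) hHM
  have hHH : H ≤ H ^ 2 := by nlinarith
  have hH1 : H ≤ (2 + |L|) * H ^ 2 := by nlinarith
  have hone : (1 : ℝ) ≤ (2 + |L|) * H ^ 2 := by linarith
  have hLH : |L| * Y ≤ (2 + |L|) * H ^ 2 := by nlinarith
  obtain ⟨hv0, hu0H, hv0H, p0, α0, hR0, hS0⟩ := hT n0 hn0
  refine hcount Y ((2 + |L|) * H ^ 2) hY hH2
    (fun i => C (u n0 * e1 i + v n0 * e2 i)) X 1 ?_ ?_ ?_ ?_ ?_ ?_ T ?_
  · intro i
    exact (natDegree_C _).le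
  · exact natDegree_X_le
  · rw [natDegree_one]; exact Nat.zero_le _
  · intro i j
    rw [coeff_C]
    split_ifs
    · push_cast
      refine (abs_add_le _ _).trans ?_
      rw [abs_mul, abs_mul]
      have h1 : |(u n0 : ℝ)| * |(e1 i : ℝ)| ≤ H * H :=
        mul_le_mul hu0H (he1 i) (abs_nonneg _) (by linarith)
      have h2 : |(v n0 : ℝ)| * |(e2 i : ℝ)| ≤ H * H :=
        mul_le_mul hv0H (he2 i) (abs_nonneg _) (by linarith)
      nlinarith
    · simp; linarith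
  · intro j
    rw [coeff_X]
    split_ifs <;> simp <;> linarith
  · intro j
    rw [coeff_one]
    split_ifs <;> simp <;> linarith
  · intro n hn
    obtain ⟨hv, huH, hvH, p, α, hR, hS⟩ := hT n hn
    have hr := hrat n hn n0 hn0
    have hvQ : ((v n : ℤ) : ℚ) ≠ 0 := by exact_mod_cast hv
    have hv0Q : ((v n0 : ℤ) : ℚ) ≠ 0 := by exact_mod_cast hv0
    rw [div_eq_div_iff hvQ hv0Q] at hr
    have hr' : u n * v n0 = u n0 * v n := by exact_mod_cast hr
    have hne : ∀ i, α i ≠ 0 → u n0 * e1 i + v n0 * e2 i ≠ 0 := by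
      intro i hi h0
      apply hi
      have h1 : v n0 * α i = 0 := by
        rw [hS i]
        linear_combination (e1 i) * hr' + (v n) * h0
      exact (mul_eq_zero.1 h1).resolve_left hv0
    refine ⟨n, 1, p, α, isCoprime_one_right, ?_, by simpa using hone, ?_, ?_, ?_, ?_, hR⟩
    · refine hR.1.trans ?_
      have h2 : L * Y ≤ |L| * Y := mul_le_mul_of_nonneg_right (le_abs_self L) (by linarith)
      linarith
    · obtain ⟨i, hi⟩ := hR.2.2.2.2.2.2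
      refine ⟨i, ?_⟩
      rw [hf_zero, coeff_C_zero]
      apply hne
      rintro h0
      rw [h0] at hi
      exact hi (dvd_zero _)
    · intro i j
      rw [hf_zero, hf_zero, coeff_C_zero, coeff_C_zero, hS i, hS j]
      linear_combination (e1 i * e2 j - e1 j * e2 i) * hr'
    · rw [hf_one]; simp [coeff_one]
    · rw [hf_one, hf_one]; simp [coeff_one, coeff_X]

/-- **Roots.** Solutions of a slice with `u / v` a root of one nonzero polynomial. -/
theorem root_count_of (g : ℤ[X]) (hrat : RatAll g)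
    (d : ℕ) (E M L ε : ℝ) (hε : 0 < ε) : ∃ K : ℝ, 0 < K ∧ ∀ Y H : ℝ, 1 ≤ Y → Y ≤ H →
    H ≤ M * Y ^ E → ∀ e1 e2 : Fin 4 → ℤ, (∀ i, |(e1 i : ℝ)| ≤ H) → (∀ i, |(e2 i : ℝ)| ≤ H) →
    ∀ (T : Finset ℤ) (u v : ℤ → ℤ), (∀ n ∈ T, SlSol g L Y H e1 e2 n (u n) (v n)) →
    ∀ R : ℤ[X], R ≠ 0 → R.natDegree ≤ d → (∀ n ∈ T, hf R d (u n) (v n) = 0) →
    (T.card : ℝ) ≤ K * Y ^ ε := by
  classical
  obtain ⟨K, hK, hray⟩ := ray_count g hrat E M L ε hε
  refine ⟨(d + 1) * K, by positivity, ?_⟩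
  intro Y H hY hYH hHM e1 e2 he1 he2 T u v hT R hR hRd hroot
  have hYε : 0 ≤ Y ^ ε := Real.rpow_nonneg (by linarith) _
  have h1 := ratio_card R hR d hRd T u v (fun n hn => ⟨(hT n hn).1, hroot n hn⟩)
  have h2 : (T.card : ℝ) = ∑ x ∈ T.image (fun n => ((u n : ℚ) / (v n : ℚ))),
      ((T.filter (fun n => ((u n : ℚ) / (v n : ℚ)) = x)).card : ℝ) := by
    rw [card_eq_sum_card_image (fun n => ((u n : ℚ) / (v n : ℚ))) T]
    push_cast
    rfl
  rw [h2]
  refine (sum_le_card_nsmul _ _ (K * Y ^ ε) ?_).trans ?_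
  · intro x _
    refine hray Y H hY hYH hHM e1 e2 he1 he2 _ u v (fun n hn => hT n (mem_filter.1 hn).1) ?_
    intro n hn n' hn'
    rw [(mem_filter.1 hn).2, (mem_filter.1 hn').2]
  · rw [nsmul_eq_mul]
    have h3 : ((T.image (fun n => ((u n : ℚ) / (v n : ℚ)))).card : ℝ) ≤ d := by exact_mod_cast h1
    have h4 : 0 ≤ K * Y ^ ε := by positivity
    nlinarith

/-- **Sections.** Solutions of a slice on `A(t) n + B(t) = 0`, `(A, B) ≠ 0`. -/
theorem sec_count_of (g : ℤ[X]) (hrat : RatAll g)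
    (d : ℕ) (E M L ε : ℝ) (hε : 0 < ε) : ∃ K : ℝ, 0 < K ∧ ∀ Y H : ℝ, 1 ≤ Y → Y ≤ H →
    H ≤ M * Y ^ E → ∀ e1 e2 : Fin 4 → ℤ, (∀ i, |(e1 i : ℝ)| ≤ H) → (∀ i, |(e2 i : ℝ)| ≤ H) →
    ∀ (T : Finset ℤ) (u v : ℤ → ℤ), (∀ n ∈ T, SlSol g L Y H e1 e2 n (u n) (v n)) →
    ∀ A B : ℤ[X], (A ≠ 0 ∨ B ≠ 0) → A.natDegree ≤ d → B.natDegree ≤ d →
    (∀ j, |(A.coeff j : ℝ)| ≤ H) → (∀ j, |(B.coeff j : ℝ)| ≤ H) →
    (∀ n ∈ T, hf A d (u n) (v n) * n + hf B d (u n) (v n) = 0) →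
    (T.card : ℝ) ≤ K * Y ^ ε := by
  classical
  obtain ⟨K1, hK1, hroot⟩ := root_count_of g hrat d E M L ε hε
  obtain ⟨K2, hK2, hrat2⟩ := rat_count' g hrat 1 d E M L ε hε
  refine ⟨K1 + K2, by positivity, ?_⟩
  intro Y H hY hYH hHM e1 e2 he1 he2 T u v hT A B hAB hAd hBd hA hB hsec
  have hH : 1 ≤ H := hY.trans hYH
  have hYε : 0 ≤ Y ^ ε := Real.rpow_nonneg (by linarith) _
  -- the points with `A(t) = 0`
  have c1 : ((T.filter (fun n => hf A d (u n) (v n) = 0)).card : ℝ) ≤ K1 * Y ^ ε := by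
    by_cases hA0 : A = 0
    · have hB0 : B ≠ 0 := by
        rcases hAB with h | h
        · exact absurd hA0 h
        · exact h
      refine hroot Y H hY hYH hHM e1 e2 he1 he2 _ u v (fun n hn => hT n (mem_filter.1 hn).1) B hB0
        hBd ?_
      intro n hn
      have h1 := hsec n (mem_filter.1 hn).1
      rw [(mem_filter.1 hn).2, zero_mul, zero_add] at h1
      exact h1
    · exact hroot Y H hY hYH hHM e1 e2 he1 he2 _ u v (fun n hn => hT n (mem_filter.1 hn).1) A hA0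
        hAd (fun n hn => (mem_filter.1 hn).2)
  have c2 : ((T.filter (fun n => ¬ hf A d (u n) (v n) = 0)).card : ℝ) ≤ K2 * Y ^ ε := by
    refine hrat2 Y H hY hHM (fun i => C (e1 i) * X + C (e2 i)) (-B) A ?_ ?_ hAd ?_ ?_ hA _ ?_
    · intro i
      exact natDegree_linear_le
    · rwa [natDegree_neg]
    · intro i j
      rcases j with _ | _ | j
      · rw [coeff_add, coeff_C_mul, coeff_X_zero, mul_zero, zero_add, coeff_C_zero]
        exact he2 i
      · rw [coeff_add, coeff_C_mul, coeff_X_one, mul_one, coeff_C_succ, add_zero]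
        exact he1 i
      · have : (C (e1 i) * X + C (e2 i) : ℤ[X]).coeff (j + 2) = 0 :=
          coeff_eq_zero_of_natDegree_lt (lt_of_le_of_lt natDegree_linear_le (by omega))
        rw [this]
        simp; linarith
    · intro j
      rw [coeff_neg]
      push_cast
      rw [abs_neg]
      exact hB j
    · intro n hn
      rw [mem_filter] at hn
      obtain ⟨hn, hAn⟩ := hn
      obtain ⟨hv, huH, hvH, p, α, hR, hS⟩ := hT n hn
      obtain ⟨s, r, c, hcop, hu, hv', hc, hs, hr⟩ := exists_coprime' (u n) (v n) (Or.inr hv)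
      have hfA : hf A d (u n) (v n) = c ^ d * hf A d s r := by rw [hu, hv', hf_smul]
      have hfB : hf B d (u n) (v n) = c ^ d * hf B d s r := by rw [hu, hv', hf_smul]
      have hcd : c ^ d ≠ 0 := pow_ne_zero _ hc
      have hlin : ∀ i, hf (C (e1 i) * X + C (e2 i)) 1 s r = e1 i * s + e2 i * r := by
        intro i
        rw [hf_one, coeff_add, coeff_C_mul, coeff_X_one, mul_one, coeff_C_succ, add_zero,
          coeff_add, coeff_C_mul, coeff_X_zero, mul_zero, zero_add, coeff_C_zero]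
      have hα : ∀ i, α i = c * (e1 i * s + e2 i * r) := by
        intro i
        rw [hS i, hu, hv']
        ring
      refine ⟨s, r, p, α, hcop, ?_, ?_, ?_, ?_, ?_, ?_, hR⟩
      · refine le_trans ?_ huH
        exact_mod_cast hs
      · refine le_trans ?_ hvH
        exact_mod_cast hr
      · obtain ⟨i, hi⟩ := hR.2.2.2.2.2.2
        refine ⟨i, ?_⟩
        rw [hlin]
        intro h0
        apply hi
        rw [hα i, h0, mul_zero]
        exact dvd_zero _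
      · intro i j
        rw [hlin, hlin, hα i, hα j]
        ring
      · intro h0
        apply hAn
        rw [hfA, h0, mul_zero]
      · rw [hf_neg]
        apply mul_left_cancel₀ hcd
        have h1 := hsec n hn
        rw [hfA, hfB] at h1
        linear_combination h1
  have hsplit := card_filter_add_card_filter_not (s := T) (fun n => hf A d (u n) (v n) = 0)
  have : (T.card : ℝ) = ((T.filter (fun n => hf A d (u n) (v n) = 0)).card : ℝ) +
      ((T.filter (fun n => ¬ hf A d (u n) (v n) = 0)).card : ℝ) := by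
    exact_mod_cast hsplit.symm
  rw [this]
  linarith

/-! ### pencils -/

/-- bounds for the coefficients of a product -/
private lemma coeff_mul_le (P Q : ℤ[X]) (D : ℕ) (X1 X2 : ℝ) (hX1 : 0 ≤ X1) (hX2 : 0 ≤ X2)
    (hP : P.natDegree ≤ D) (h1 : ∀ j, |(P.coeff j : ℝ)| ≤ X1) (h2 : ∀ j, |(Q.coeff j : ℝ)| ≤ X2)
    (j : ℕ) : |((P * Q).coeff j : ℝ)| ≤ (D + 1) * X1 * X2 := by
  rw [coeff_mul, Finset.Nat.sum_antidiagonal_eq_sum_range_succ_mk]
  push_cast
  refine (Finset.abs_sum_le_sum_abs _ _).trans ?_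
  have hsub : ∀ i ∈ range (j + 1), |(P.coeff i : ℝ) * (Q.coeff (j - i) : ℝ)| ≤
      if i ∈ range (D + 1) then X1 * X2 else 0 := by
    intro i _
    split_ifs with h
    · rw [abs_mul]
      exact mul_le_mul (h1 i) (h2 _) (abs_nonneg _) hX1
    · have : P.coeff i = 0 := coeff_eq_zero_of_natDegree_lt (by
        rw [mem_range] at h; omega)
      rw [this]; simp
  refine (sum_le_sum hsub).trans ?_
  rw [← sum_filter]
  refine (sum_le_card_nsmul _ _ (X1 * X2) (fun i _ => le_refl _)).trans ?_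
  rw [nsmul_eq_mul]
  have hc : ((range (j + 1)).filter (fun i => i ∈ range (D + 1))).card ≤ D + 1 := by
    calc _ ≤ (range (D + 1)).card := card_le_card (fun i hi => (mem_filter.1 hi).2)
      _ = D + 1 := card_range _
  have hc' : (((range (j + 1)).filter (fun i => i ∈ range (D + 1))).card : ℝ) ≤ D + 1 := by
    exact_mod_cast hc
  have h0 : 0 ≤ X1 * X2 := mul_nonneg hX1 hX2
  nlinarith

private lemma coeff_pow_le (P : ℤ[X]) (a : ℕ) (Z : ℝ) (hZ : 1 ≤ Z) (hP : P.natDegree ≤ a)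
    (h : ∀ j, |(P.coeff j : ℝ)| ≤ Z) (m j : ℕ) :
    |((P ^ m).coeff j : ℝ)| ≤ ((a + 1) * Z) ^ m := by
  induction m generalizing j with
  | zero =>
    rw [pow_zero, pow_zero, coeff_one]
    split_ifs <;> simp
  | succ m ih =>
    have h0 : (0 : ℝ) ≤ (a + 1) * Z := by positivity
    rw [pow_succ', pow_succ']
    have := coeff_mul_le P (P ^ m) a Z (((a + 1) * Z) ^ m) (by linarith) (by positivity) hP h ih j
    exact this

/-- the substitution of a pair of forms into a form -/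
private noncomputable def cmp (Λ Μ P : ℤ[X]) (d : ℕ) : ℤ[X] :=
  ∑ j ∈ range (d + 1), C (P.coeff j) * (Λ ^ j * (-Μ) ^ (d - j))

private lemma cmp_natDegree (Λ Μ P : ℤ[X]) (a d : ℕ) (hΛ : Λ.natDegree ≤ a)
    (hΜ : Μ.natDegree ≤ a) : (cmp Λ Μ P d).natDegree ≤ a * d := by
  unfold cmp
  refine natDegree_sum_le_of_forall_le _ _ fun j hj => ?_
  have hj' : j ≤ d := Nat.lt_succ_iff.1 (mem_range.1 hj)
  refine (natDegree_C_mul_le _ _).trans ?_
  refine natDegree_mul_le.trans ?_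
  have h1 : (Λ ^ j).natDegree ≤ a * j := by
    refine natDegree_pow_le.trans ?_
    rw [mul_comm]; exact Nat.mul_le_mul_right _ hΛ
  have h2 : ((-Μ) ^ (d - j)).natDegree ≤ a * (d - j) := by
    refine natDegree_pow_le.trans ?_
    rw [natDegree_neg, mul_comm]; exact Nat.mul_le_mul_right _ hΜ
  calc _ ≤ a * j + a * (d - j) := Nat.add_le_add h1 h2
    _ = a * d := by rw [← Nat.mul_add, Nat.add_sub_cancel' hj']

private lemma hf_cmp (Λ Μ P : ℤ[X]) (a d : ℕ) (hΛ : Λ.natDegree ≤ a) (hΜ : Μ.natDegree ≤ a)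
    (s r : ℤ) : hf (cmp Λ Μ P d) (a * d) s r = hf P d (hf Λ a s r) (-(hf Μ a s r)) := by
  unfold cmp
  rw [hf_sum]
  conv_rhs => rw [hf]
  refine sum_congr rfl fun j hj => ?_
  have hj' : j ≤ d := Nat.lt_succ_iff.1 (mem_range.1 hj)
  have h1 : (Λ ^ j).natDegree ≤ a * j := by
    refine natDegree_pow_le.trans ?_
    rw [mul_comm]; exact Nat.mul_le_mul_right _ hΛ
  have h2 : ((-Μ) ^ (d - j)).natDegree ≤ a * (d - j) := by
    refine natDegree_pow_le.trans ?_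
    rw [natDegree_neg, mul_comm]; exact Nat.mul_le_mul_right _ hΜ
  have h3 : a * d = a * j + a * (d - j) := by rw [← Nat.mul_add, Nat.add_sub_cancel' hj']
  rw [hf_Cmul, h3, hf_mul _ _ _ _ h1 h2, hf_pow' _ _ hΛ, hf_pow' _ _ (by rwa [natDegree_neg]),
    hf_neg]
  ring

private lemma cmp_coeff_le (Λ Μ P : ℤ[X]) (a d : ℕ) (H : ℝ) (hH : 1 ≤ H)
    (hΛ : Λ.natDegree ≤ a) (hΜ : Μ.natDegree ≤ a) (h1 : ∀ j, |(Λ.coeff j : ℝ)| ≤ H)
    (h2 : ∀ j, |(Μ.coeff j : ℝ)| ≤ H) (h3 : ∀ j, |(P.coeff j : ℝ)| ≤ H) (j : ℕ) :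
    |((cmp Λ Μ P d).coeff j : ℝ)| ≤ (d + 1) * ((a * d + 1) * (a + 1) ^ d * H ^ (d + 1)) := by
  unfold cmp
  rw [finsetSum_coeff]
  push_cast
  refine (Finset.abs_sum_le_sum_abs _ _).trans ?_
  refine (sum_le_card_nsmul _ _ ((a * d + 1) * (a + 1) ^ d * H ^ (d + 1)) ?_).trans ?_
  · intro i hi
    have hi' : i ≤ d := Nat.lt_succ_iff.1 (mem_range.1 hi)
    rw [coeff_C_mul]
    push_cast
    rw [abs_mul]
    have hd1 : (Λ ^ i).natDegree ≤ a * d := by
      refine natDegree_pow_le.trans ?_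
      rw [mul_comm]; exact Nat.mul_le_mul hΛ hi'
    have h4 := coeff_mul_le (Λ ^ i) ((-Μ) ^ (d - i)) (a * d) (((a + 1) * H) ^ i)
      (((a + 1) * H) ^ (d - i)) (by positivity) (by positivity) hd1
      (fun j => coeff_pow_le Λ a H hH hΛ h1 i j)
      (fun j => coeff_pow_le (-Μ) a H hH (by rwa [natDegree_neg])
        (fun j => by rw [coeff_neg]; push_cast; rw [abs_neg]; exact h2 j) (d - i) j) j
    have h5 : ((a * d : ℕ) + 1 : ℝ) * ((a + 1) * H) ^ i * ((a + 1) * H) ^ (d - i) =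
        (a * d + 1) * (a + 1) ^ d * H ^ d := by
      rw [mul_assoc, ← pow_add, Nat.add_sub_cancel' hi', mul_pow]
      push_cast
      ring
    rw [h5] at h4
    have h6 := mul_le_mul (h3 i) h4 (abs_nonneg _) (by linarith)
    refine h6.trans (le_of_eq ?_)
    ring
  · rw [card_range, nsmul_eq_mul]
    push_cast
    exact le_refl _

private lemma hf_succ (P : ℤ[X]) (k : ℕ) (hP : P.natDegree ≤ k) (s r : ℤ) :
    hf P (k + 1) s r = r * hf P k s r := by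
  have h := hf_mul P 1 k 1 hP (by rw [natDegree_one]; exact Nat.zero_le _) s r
  rw [mul_one] at h
  rw [h, hf_one]
  simp [coeff_one]
  ring

private lemma hf_X_mul (P : ℤ[X]) (k : ℕ) (hP : P.natDegree ≤ k) (s r : ℤ) :
    hf (X * P) (k + 1) s r = s * hf P k s r := by
  have h := hf_mul X P 1 k natDegree_X_le hP s r
  rw [add_comm 1 k] at h
  rw [h, hf_one]
  simp [coeff_X]

private lemma cmp2_natDegree (Λ Μ P Q : ℤ[X]) (a d : ℕ) (hΛ : Λ.natDegree ≤ a)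
    (hΜ : Μ.natDegree ≤ a) : (cmp Λ Μ P d - X * cmp Λ Μ Q d).natDegree ≤ a * d + 1 := by
  refine (natDegree_sub_le _ _).trans (max_le ?_ ?_)
  · exact (cmp_natDegree Λ Μ P a d hΛ hΜ).trans (Nat.le_succ _)
  · refine natDegree_mul_le.trans ?_
    rw [add_comm]
    exact Nat.add_le_add (cmp_natDegree Λ Μ Q a d hΛ hΜ) natDegree_X_le

private lemma hf_cmp2 (Λ Μ P Q : ℤ[X]) (a d : ℕ) (hΛ : Λ.natDegree ≤ a)
    (hΜ : Μ.natDegree ≤ a) (s r : ℤ) :
    hf (cmp Λ Μ P d - X * cmp Λ Μ Q d) (a * d + 1) s r =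
      r * hf P d (hf Λ a s r) (-(hf Μ a s r)) - s * hf Q d (hf Λ a s r) (-(hf Μ a s r)) := by
  rw [hf_sub, hf_succ _ _ (cmp_natDegree Λ Μ P a d hΛ hΜ),
    hf_X_mul _ _ (cmp_natDegree Λ Μ Q a d hΛ hΜ), hf_cmp Λ Μ P a d hΛ hΜ, hf_cmp Λ Μ Q a d hΛ hΜ]

private lemma cmp2_coeff_le (Λ Μ P Q : ℤ[X]) (a d : ℕ) (H : ℝ) (hH : 1 ≤ H)
    (hΛ : Λ.natDegree ≤ a) (hΜ : Μ.natDegree ≤ a) (h1 : ∀ j, |(Λ.coeff j : ℝ)| ≤ H)
    (h2 : ∀ j, |(Μ.coeff j : ℝ)| ≤ H) (h3 : ∀ j, |(P.coeff j : ℝ)| ≤ H)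
    (h4 : ∀ j, |(Q.coeff j : ℝ)| ≤ H) (j : ℕ) :
    |((cmp Λ Μ P d - X * cmp Λ Μ Q d).coeff j : ℝ)| ≤
      2 * ((d + 1) * ((a * d + 1) * (a + 1) ^ d * H ^ (d + 1))) := by
  rw [coeff_sub]
  push_cast
  refine (abs_sub _ _).trans ?_
  have h5 := cmp_coeff_le Λ Μ P a d H hH hΛ hΜ h1 h2 h3 j
  have h6 : |((X * cmp Λ Μ Q d).coeff j : ℝ)| ≤
      (d + 1) * ((a * d + 1) * (a + 1) ^ d * H ^ (d + 1)) := by
    rcases j with _ | j
    · rw [coeff_X_mul_zero]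
      have : (0 : ℝ) ≤ H := by linarith
      simp
      positivity
    · rw [coeff_X_mul]
      exact cmp_coeff_le Λ Μ Q a d H hH hΛ hΜ h1 h2 h4 j
  linarith

/-- **Pencils.** Solutions of a slice on `Λ(E₁,E₂) + t Μ(E₁,E₂) = 0`, `E_j = A_j(t) n + B_j(t)`. -/
theorem pencil_count_of (g : ℤ[X]) (hrat : RatAll g)
    (a d : ℕ) (E M L ε : ℝ) (hε : 0 < ε) : ∃ K : ℝ, 0 < K ∧ ∀ Y H : ℝ, 1 ≤ Y → Y ≤ H →
    H ≤ M * Y ^ E → ∀ e1 e2 : Fin 4 → ℤ, (∀ i, |(e1 i : ℝ)| ≤ H) → (∀ i, |(e2 i : ℝ)| ≤ H) →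
    ∀ (T : Finset ℤ) (u v : ℤ → ℤ), (∀ n ∈ T, SlSol g L Y H e1 e2 n (u n) (v n)) →
    ∀ A1 B1 A2 B2 Λ Μ : ℤ[X], A1.natDegree ≤ d → B1.natDegree ≤ d → A2.natDegree ≤ d →
    B2.natDegree ≤ d → Λ.natDegree ≤ a → Μ.natDegree ≤ a →
    (∀ j, |(A1.coeff j : ℝ)| ≤ H) → (∀ j, |(B1.coeff j : ℝ)| ≤ H) →
    (∀ j, |(A2.coeff j : ℝ)| ≤ H) → (∀ j, |(B2.coeff j : ℝ)| ≤ H) →
    (∀ j, |(Λ.coeff j : ℝ)| ≤ H) → (∀ j, |(Μ.coeff j : ℝ)| ≤ H) →
    A1 * B2 - A2 * B1 ≠ 0 → (Λ ≠ 0 ∨ Μ ≠ 0) →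
    (∀ n ∈ T, v n * hf Λ a (hf A1 d (u n) (v n) * n + hf B1 d (u n) (v n))
        (hf A2 d (u n) (v n) * n + hf B2 d (u n) (v n)) +
      u n * hf Μ a (hf A1 d (u n) (v n) * n + hf B1 d (u n) (v n))
        (hf A2 d (u n) (v n) * n + hf B2 d (u n) (v n)) = 0) →
    (T.card : ℝ) ≤ K * Y ^ ε := by
  classical
  -- the constants
  set c0 : ℝ := 2 * (d + 1) * (a * d + 1) * (a + 1) ^ d * (|L| + 1) with hc0
  have hc0pos : 0 ≤ c0 := by positivity
  obtain ⟨K1, hK1, hroot⟩ := root_count_of g hrat (2 * d) (E * (d + 3 : ℕ))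
    (c0 * M ^ (d + 3)) L ε hε
  obtain ⟨K2, hK2, hsec⟩ := sec_count_of g hrat d (E * (d + 3 : ℕ))
    (c0 * M ^ (d + 3)) L ε hε
  obtain ⟨K3, hK3, hrat3⟩ := rat_count' g hrat a (a * d + 1) (E * (d + 3 : ℕ))
    (c0 * M ^ (d + 3)) L ε hε
  refine ⟨K1 + (K2 + a * K2) + K3, by positivity, ?_⟩
  intro Y H hY hYH hHM e1 e2 he1 he2 T u v hT A1 B1 A2 B2 Λ Μ hA1 hB1 hA2 hB2 hΛ hΜ cA1 cB1 cA2
    cB2 cΛ cΜ hD hΛΜ heq
  have hH : 1 ≤ H := hY.trans hYH
  have hL0 : 0 ≤ |L| := abs_nonneg L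
  have hYε : 0 ≤ Y ^ ε := Real.rpow_nonneg (by linarith) _
  set H' : ℝ := c0 * H ^ (d + 3) with hH'
  have hH'M : H' ≤ c0 * M ^ (d + 3) * Y ^ (E * (d + 3 : ℕ)) := size_le (d + 3) hH hY hc0pos hHM
  -- comparison of `H'` with the sizes
  have hone : (1 : ℝ) ≤ (a * d + 1) * (a + 1) ^ d := by
    have h1 : (1 : ℝ) ≤ a * d + 1 := by
      have : (0 : ℝ) ≤ (a : ℝ) * d := by positivity
      linarith
    have h2 : (1 : ℝ) ≤ (a + 1) ^ d := one_le_pow₀ (by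
      have : (0 : ℝ) ≤ (a : ℝ) := by positivity
      linarith)
    nlinarith
  have hHp : ∀ m, m ≤ d + 3 → H ^ m ≤ H ^ (d + 3) := fun m hm => pow_le_pow_right₀ hH hm
  have hbig1 : 2 * (d + 1) * (|L| + 1) * H ^ (d + 3) ≤ H' := by
    rw [hH', hc0]
    have h0 : 0 ≤ 2 * ((d : ℝ) + 1) * (|L| + 1) * H ^ (d + 3) := by positivity
    calc 2 * ((d : ℝ) + 1) * (|L| + 1) * H ^ (d + 3)
        ≤ 2 * ((d : ℝ) + 1) * (|L| + 1) * H ^ (d + 3) * ((a * d + 1) * (a + 1) ^ d) :=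
          le_mul_of_one_le_right h0 hone
      _ = _ := by ring
  have hbig2 : 2 * ((d + 1) * ((a * d + 1) * (a + 1) ^ d * H ^ (d + 1))) ≤ H' := by
    rw [hH', hc0]
    have h0 : 0 ≤ 2 * ((d : ℝ) + 1) * ((a * d + 1) * (a + 1) ^ d) := by positivity
    calc 2 * (((d : ℝ) + 1) * ((a * d + 1) * (a + 1) ^ d * H ^ (d + 1)))
        = 2 * ((d : ℝ) + 1) * ((a * d + 1) * (a + 1) ^ d) * H ^ (d + 1) := by ring
      _ ≤ 2 * ((d : ℝ) + 1) * ((a * d + 1) * (a + 1) ^ d) * H ^ (d + 3) :=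
          mul_le_mul_of_nonneg_left (hHp _ (by omega)) h0
      _ ≤ 2 * ((d : ℝ) + 1) * ((a * d + 1) * (a + 1) ^ d) * H ^ (d + 3) * (|L| + 1) := by
          refine le_mul_of_one_le_right (by positivity) (by linarith)
      _ = _ := by ring
  have hd0 : (0 : ℝ) ≤ d := Nat.cast_nonneg _
  have hbig3 : 2 * (H * H) ≤ H' := by
    refine le_trans ?_ hbig1
    have h1 : H * H ≤ H ^ (d + 3) := by rw [← sq]; exact hHp 2 (by omega)
    have h2 : (1 : ℝ) ≤ (d + 1) * (|L| + 1) := by nlinarith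
    have h3 : 0 ≤ H ^ (d + 3) := by positivity
    nlinarith
  have hHH' : H ≤ H' := by nlinarith
  have hYH' : Y ≤ H' := hYH.trans hHH'
  have he1' : ∀ i, |(e1 i : ℝ)| ≤ H' := fun i => (he1 i).trans hHH'
  have he2' : ∀ i, |(e2 i : ℝ)| ≤ H' := fun i => (he2 i).trans hHH'
  have hT' : ∀ n ∈ T, SlSol g L Y H' e1 e2 n (u n) (v n) := by
    intro n hn
    obtain ⟨h1, h2, h3, h4⟩ := hT n hn
    exact ⟨h1, h2.trans hHH', h3.trans hHH', h4⟩
  -- the two values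
  set F1 : ℤ → ℤ := fun n => hf A1 d (u n) (v n) * n + hf B1 d (u n) (v n) with hF1
  set F2 : ℤ → ℤ := fun n => hf A2 d (u n) (v n) * n + hf B2 d (u n) (v n) with hF2
  have heq' : ∀ n ∈ T, v n * hf Λ a (F1 n) (F2 n) + u n * hf Μ a (F1 n) (F2 n) = 0 := heq
  have hval : ∀ (A B : ℤ[X]), (∀ j, |(A.coeff j : ℝ)| ≤ H) → (∀ j, |(B.coeff j : ℝ)| ≤ H) →
      ∀ n ∈ T, |((hf A d (u n) (v n) * n + hf B d (u n) (v n) : ℤ) : ℝ)| ≤
        (d + 1) * (|L| + 1) * H ^ (d + 2) := by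
    intro A B cA cB n hn
    obtain ⟨-, hu, hv, p, α, hR, -⟩ := hT n hn
    push_cast
    refine (abs_add_le _ _).trans ?_
    rw [abs_mul]
    have h1 := abs_hf_le A d (u n) (v n) H hH cA hu hv
    have h2 := abs_hf_le B d (u n) (v n) H hH cB hu hv
    have h3 : |(n : ℝ)| ≤ |L| * H := by
      refine hR.1.trans ?_
      have h4 : L * Y ≤ |L| * Y := mul_le_mul_of_nonneg_right (le_abs_self L) (by linarith)
      exact h4.trans (mul_le_mul_of_nonneg_left hYH hL0)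
    have h5 : |((hf A d (u n) (v n) : ℤ) : ℝ)| * |(n : ℝ)| ≤
        ((d + 1) * H ^ (d + 1)) * (|L| * H) :=
      mul_le_mul h1 h3 (abs_nonneg _) (by positivity)
    have h6 : (d + 1) * H ^ (d + 1) ≤ (d + 1) * H ^ (d + 2) :=
      mul_le_mul_of_nonneg_left (pow_le_pow_right₀ hH (by omega)) (by positivity)
    calc _ ≤ ((d + 1) * H ^ (d + 1)) * (|L| * H) + (d + 1) * H ^ (d + 2) :=
          add_le_add h5 (h2.trans h6)
      _ = _ := by ring
  have hF1b := hval A1 B1 cA1 cB1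
  have hF2b := hval A2 B2 cA2 cB2
  have hFH' : ∀ x : ℤ, |(x : ℝ)| ≤ (d + 1) * (|L| + 1) * H ^ (d + 2) → |(x : ℝ)| ≤ H' := by
    intro x hx
    refine hx.trans (le_trans ?_ hbig1)
    have h1 : H ^ (d + 2) ≤ H ^ (d + 3) := hHp _ (by omega)
    have h2 : 0 ≤ ((d : ℝ) + 1) * (|L| + 1) := by positivity
    have h3 : 0 ≤ H ^ (d + 3) := by positivity
    nlinarith [mul_le_mul_of_nonneg_left h1 h2, mul_nonneg h2 h3]
  -- the discriminant
  set D : ℤ[X] := A1 * B2 - A2 * B1 with hDdef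
  have hDd : D.natDegree ≤ 2 * d := by
    refine (natDegree_sub_le _ _).trans (max_le ?_ ?_)
    · exact natDegree_mul_le.trans (by omega)
    · exact natDegree_mul_le.trans (by omega)
  have hDf : ∀ s r : ℤ, hf D (2 * d) s r = hf A1 d s r * hf B2 d s r -
      hf A2 d s r * hf B1 d s r := by
    intro s r
    rw [hDdef, hf_sub, two_mul, hf_mul A1 B2 d d hA1 hB2, hf_mul A2 B1 d d hA2 hB1]
  set TD : Finset ℤ := T.filter (fun n => hf D (2 * d) (u n) (v n) = 0) with hTD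
  set TS : Finset ℤ := T.filter (fun n => hf Λ a (F1 n) (F2 n) = 0 ∧ hf Μ a (F1 n) (F2 n) = 0)
    with hTS
  set TR : Finset ℤ := T.filter (fun n => ¬ hf D (2 * d) (u n) (v n) = 0 ∧
    ¬ (hf Λ a (F1 n) (F2 n) = 0 ∧ hf Μ a (F1 n) (F2 n) = 0)) with hTR
  have cD : (TD.card : ℝ) ≤ K1 * Y ^ ε :=
    hroot Y H' hY hYH' hH'M e1 e2 he1' he2' TD u v
      (fun n hn => hT' n (mem_filter.1 hn).1) D hD hDd (fun n hn => (mem_filter.1 hn).2)
  have cS : (TS.card : ℝ) ≤ (K2 + a * K2) * Y ^ ε := by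
    obtain ⟨W, hW0, hWa, hWF⟩ : ∃ W : ℤ[X], W ≠ 0 ∧ W.natDegree ≤ a ∧
        ∀ n ∈ TS, hf W a (F1 n) (F2 n) = 0 := by
      rcases hΛΜ with h | h
      · exact ⟨Λ, h, hΛ, fun n hn => (mem_filter.1 hn).2.1⟩
      · exact ⟨Μ, h, hΜ, fun n hn => (mem_filter.1 hn).2.2⟩
    have hTS' : ∀ n ∈ TS, n ∈ T := fun n hn => (mem_filter.1 hn).1
    -- `F2 = 0`
    have c1 : ((TS.filter (fun n => F2 n = 0)).card : ℝ) ≤ K2 * Y ^ ε := by
      refine hsec Y H' hY hYH' hH'M e1 e2 he1' he2' _ u v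
        (fun n hn => hT' n (hTS' n (mem_filter.1 hn).1)) A2 B2 ?_ hA2 hB2
        (fun j => (cA2 j).trans hHH') (fun j => (cB2 j).trans hHH')
        (fun n hn => (mem_filter.1 hn).2)
      by_contra hcon
      push Not at hcon
      apply hD
      rw [hDdef, hcon.1, hcon.2]
      ring
    have c2 : ((TS.filter (fun n => ¬ F2 n = 0)).card : ℝ) ≤ (a * K2) * Y ^ ε := by
      set T2 := TS.filter (fun n => ¬ F2 n = 0) with hT2
      have h1 := ratio_card W hW0 a hWa T2 F1 F2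
        (fun n hn => ⟨(mem_filter.1 hn).2, hWF n (mem_filter.1 hn).1⟩)
      have h2 : (T2.card : ℝ) = ∑ x ∈ T2.image (fun n => ((F1 n : ℚ) / (F2 n : ℚ))),
          ((T2.filter (fun n => ((F1 n : ℚ) / (F2 n : ℚ)) = x)).card : ℝ) := by
        rw [card_eq_sum_card_image (fun n => ((F1 n : ℚ) / (F2 n : ℚ))) T2]
        push_cast
        rfl
      rw [h2]
      refine (sum_le_card_nsmul _ _ (K2 * Y ^ ε) ?_).trans ?_
      · intro x hx
        obtain ⟨n0, hn0, hx0⟩ := mem_image.1 hx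
        have hn0T : n0 ∈ T := hTS' n0 (mem_filter.1 hn0).1
        have hn0F : F2 n0 ≠ 0 := (mem_filter.1 hn0).2
        have hcoef : ∀ P Q : ℤ[X], (∀ j, |(P.coeff j : ℝ)| ≤ H) → (∀ j, |(Q.coeff j : ℝ)| ≤ H) →
            ∀ j, |((C (F2 n0) * P - C (F1 n0) * Q).coeff j : ℝ)| ≤ H' := by
          intro P Q hP hQ j
          rw [coeff_sub, coeff_C_mul, coeff_C_mul]
          push_cast
          refine (abs_sub _ _).trans ?_
          rw [abs_mul, abs_mul]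
          have h3 := mul_le_mul (hF2b n0 hn0T) (hP j) (abs_nonneg _) (by positivity)
          have h4 := mul_le_mul (hF1b n0 hn0T) (hQ j) (abs_nonneg _) (by positivity)
          refine (add_le_add h3 h4).trans (le_trans (le_of_eq ?_) hbig1)
          ring
        refine hsec Y H' hY hYH' hH'M e1 e2 he1' he2' _ u v
          (fun n hn => hT' n (hTS' n (mem_filter.1 (mem_filter.1 hn).1).1))
          (C (F2 n0) * A1 - C (F1 n0) * A2) (C (F2 n0) * B1 - C (F1 n0) * B2) ?_ ?_ ?_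
          (hcoef A1 A2 cA1 cA2) (hcoef B1 B2 cB1 cB2) ?_
        · by_contra hcon
          push Not at hcon
          obtain ⟨h3, h4⟩ := hcon
          have h5 : C (F2 n0) * D = 0 := by
            rw [hDdef]
            linear_combination B2 * h3 - A2 * h4
          rcases mul_eq_zero.1 h5 with h6 | h6
          · exact hn0F (C_eq_zero.1 h6)
          · exact hD h6
        · exact (natDegree_sub_le _ _).trans (max_le ((natDegree_C_mul_le _ _).trans hA1)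
            ((natDegree_C_mul_le _ _).trans hA2))
        · exact (natDegree_sub_le _ _).trans (max_le ((natDegree_C_mul_le _ _).trans hB1)
            ((natDegree_C_mul_le _ _).trans hB2))
        · intro n hn
          obtain ⟨hn2, hnx⟩ := mem_filter.1 hn
          have hnF : F2 n ≠ 0 := (mem_filter.1 hn2).2
          rw [← hx0] at hnx
          have hq1 : ((F2 n : ℤ) : ℚ) ≠ 0 := by exact_mod_cast hnF
          have hq2 : ((F2 n0 : ℤ) : ℚ) ≠ 0 := by exact_mod_cast hn0F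
          rw [div_eq_div_iff hq1 hq2] at hnx
          have h3 : F1 n * F2 n0 = F1 n0 * F2 n := by exact_mod_cast hnx
          rw [hf_sub, hf_sub, hf_Cmul, hf_Cmul, hf_Cmul, hf_Cmul]
          have h4 : F1 n = hf A1 d (u n) (v n) * n + hf B1 d (u n) (v n) := rfl
          have h5 : F2 n = hf A2 d (u n) (v n) * n + hf B2 d (u n) (v n) := rfl
          linear_combination h3 - (F2 n0) * h4 + (F1 n0) * h5
      · rw [nsmul_eq_mul]
        have h3 : ((T2.image (fun n => ((F1 n : ℚ) / (F2 n : ℚ)))).card : ℝ) ≤ a := by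
          exact_mod_cast h1
        have h4 : 0 ≤ K2 * Y ^ ε := by positivity
        nlinarith
    have hsplit := card_filter_add_card_filter_not (s := TS) (fun n => F2 n = 0)
    have h3 : (TS.card : ℝ) = ((TS.filter (fun n => F2 n = 0)).card : ℝ) +
        ((TS.filter (fun n => ¬ F2 n = 0)).card : ℝ) := by
      exact_mod_cast hsplit.symm
    rw [h3]
    linarith
  have cR : (TR.card : ℝ) ≤ K3 * Y ^ ε := by
    refine hrat3 Y H' hY hH'M (fun i => C (e1 i) * Λ - C (e2 i) * Μ)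
      (-(cmp Λ Μ B1 d - X * cmp Λ Μ B2 d)) (cmp Λ Μ A1 d - X * cmp Λ Μ A2 d) ?_ ?_ ?_ ?_ ?_ ?_ TR ?_
    · intro i
      exact (natDegree_sub_le _ _).trans (max_le ((natDegree_C_mul_le _ _).trans hΛ)
        ((natDegree_C_mul_le _ _).trans hΜ))
    · rw [natDegree_neg]
      exact cmp2_natDegree Λ Μ B1 B2 a d hΛ hΜ
    · exact cmp2_natDegree Λ Μ A1 A2 a d hΛ hΜ
    · intro i j
      rw [coeff_sub, coeff_C_mul, coeff_C_mul]
      push_cast
      refine (abs_sub _ _).trans ?_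
      rw [abs_mul, abs_mul]
      have h1 := mul_le_mul (he1 i) (cΛ j) (abs_nonneg _) (by linarith)
      have h2 := mul_le_mul (he2 i) (cΜ j) (abs_nonneg _) (by linarith)
      linarith
    · intro j
      rw [coeff_neg]
      push_cast
      rw [abs_neg]
      exact (cmp2_coeff_le Λ Μ B1 B2 a d H hH hΛ hΜ cΛ cΜ cB1 cB2 j).trans hbig2
    · exact fun j => (cmp2_coeff_le Λ Μ A1 A2 a d H hH hΛ hΜ cΛ cΜ cA1 cA2 j).trans hbig2
    · intro n hn
      obtain ⟨hnT, hnD, hnS⟩ := mem_filter.1 hn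
      obtain ⟨hv, huH, hvH, p, α, hR, hS⟩ := hT n hnT
      rw [hDf] at hnD
      have h4 : F1 n = hf A1 d (u n) (v n) * n + hf B1 d (u n) (v n) := rfl
      have h5 : F2 n = hf A2 d (u n) (v n) * n + hf B2 d (u n) (v n) := rfl
      have hne : F1 n ≠ 0 ∨ F2 n ≠ 0 := by
        by_contra hcon
        push Not at hcon
        apply hnD
        linear_combination (hf A1 d (u n) (v n)) * (h5.symm.trans hcon.2) -
          (hf A2 d (u n) (v n)) * (h4.symm.trans hcon.1)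
      obtain ⟨s, r, c, hcop, hs1, hr1, hc, hs, hr⟩ := exists_coprime' (F1 n) (F2 n) hne
      obtain ⟨x, y, hxy⟩ := id hcop
      have hrs : r * F1 n = s * F2 n := by rw [hs1, hr1]; ring
      have hvu : v n * hf Λ a s r + u n * hf Μ a s r = 0 := by
        have h6 := heq' n hnT
        rw [hs1, hr1, hf_smul, hf_smul] at h6
        have h7 : c ^ a * (v n * hf Λ a s r + u n * hf Μ a s r) = 0 := by
          linear_combination h6
        exact (mul_eq_zero.1 h7).resolve_left (pow_ne_zero _ hc)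
      have hμ : hf Μ a s r ≠ 0 := by
        intro h6
        rw [h6, mul_zero, add_zero] at hvu
        have h7 := (mul_eq_zero.1 hvu).resolve_left hv
        apply hnS
        rw [hs1, hr1, hf_smul, hf_smul, h6, h7]
        simp
      have htr : ∀ P : ℤ[X], v n ^ d * hf P d (hf Λ a s r) (-(hf Μ a s r)) =
          (-(hf Μ a s r)) ^ d * hf P d (u n) (v n) := by
        intro P
        rw [← hf_smul, ← hf_smul]
        congr 1
        · linear_combination hvu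
        · ring
      have hvd : v n ^ d ≠ 0 := pow_ne_zero _ hv
      have hμd : (-(hf Μ a s r)) ^ d ≠ 0 := pow_ne_zero _ (neg_ne_zero.2 hμ)
      have hα : ∀ i, hf (C (e1 i) * Λ - C (e2 i) * Μ) a s r =
          e1 i * hf Λ a s r - e2 i * hf Μ a s r := by
        intro i
        rw [hf_sub, hf_Cmul, hf_Cmul]
      refine ⟨s, r, p, α, hcop, ?_, ?_, ?_, ?_, ?_, ?_, hR⟩
      · refine le_trans ?_ (hFH' _ (hF1b n hnT))
        exact_mod_cast hs
      · refine le_trans ?_ (hFH' _ (hF2b n hnT))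
        exact_mod_cast hr
      · obtain ⟨i, hi⟩ := hR.2.2.2.2.2.2
        refine ⟨i, ?_⟩
        rw [hα]
        intro h0
        apply hi
        have h6 : hf Μ a s r * α i = 0 := by
          rw [hS i]
          linear_combination (-(v n)) * h0 + (e1 i) * hvu
        rw [(mul_eq_zero.1 h6).resolve_left hμ]
        exact dvd_zero _
      · intro i j
        rw [hα, hα, hS i, hS j]
        linear_combination (e1 j * e2 i - e1 i * e2 j) * hvu
      · rw [hf_cmp2 Λ Μ A1 A2 a d hΛ hΜ]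
        intro h0
        have h6 : (-(hf Μ a s r)) ^ d *
            (r * hf A1 d (u n) (v n) - s * hf A2 d (u n) (v n)) = 0 := by
          linear_combination (v n ^ d) * h0 - r * htr A1 + s * htr A2
        have h7 := (mul_eq_zero.1 h6).resolve_left hμd
        have h8 : r * hf B1 d (u n) (v n) - s * hf B2 d (u n) (v n) = 0 := by
          linear_combination hrs - r * h4 + s * h5 - n * h7
        apply hnD
        linear_combination (-(hf A1 d (u n) (v n) * hf B2 d (u n) (v n) -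
          hf A2 d (u n) (v n) * hf B1 d (u n) (v n))) * hxy +
          (x * hf B1 d (u n) (v n) + y * hf B2 d (u n) (v n)) * h7 -
          (x * hf A1 d (u n) (v n) + y * hf A2 d (u n) (v n)) * h8
      · rw [hf_neg, hf_cmp2 Λ Μ A1 A2 a d hΛ hΜ, hf_cmp2 Λ Μ B1 B2 a d hΛ hΜ]
        apply mul_left_cancel₀ hvd
        linear_combination (n * r) * htr A1 - (n * s) * htr A2 + r * htr B1 - s * htr B2 +
          (-(hf Μ a s r)) ^ d * (hrs - r * h4 + s * h5)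
  have hcover : T ⊆ (TD ∪ TS) ∪ TR := by
    intro n hn
    rw [mem_union, mem_union, hTD, hTS, hTR, mem_filter, mem_filter, mem_filter]
    by_cases h1 : hf D (2 * d) (u n) (v n) = 0
    · exact Or.inl (Or.inl ⟨hn, h1⟩)
    · by_cases h2 : hf Λ a (F1 n) (F2 n) = 0 ∧ hf Μ a (F1 n) (F2 n) = 0
      · exact Or.inl (Or.inr ⟨hn, h2⟩)
      · exact Or.inr ⟨hn, h1, h2⟩
  have hcard : T.card ≤ TD.card + TS.card + TR.card :=
    (card_le_card hcover).trans ((card_union_le _ _).trans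
      (Nat.add_le_add_right (card_union_le _ _) _))
  have hcard' : (T.card : ℝ) ≤ TD.card + TS.card + TR.card := by exact_mod_cast hcard
  nlinarith

end Pool.Agent.Lib.SQF
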