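import Pool.Agent.Lib.SQF.ADefs
import Pool.Agent.Lib.SQF.SecRC0
import Pool.Agent.Lib.SQF.RC

/-!
# SQF, module SecRC (helper66): sections and pencils on alpha-slices

`valQ G z` is the value of `G` at `(u / v, n)`.
`ratAll`: `rat_count` for all parameters. `root_count`, `sec_count`, `pencil_count`: solutions (with
different `n`) of one slice with `u / v` a root of a fixed polynomial, on a section
`A(t) n + B(t) = 0`, on a curve `∑ (λ_l + μ_l t) E₁^l E₂^(a-l) = 0`: at most `C Y^ε`.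
-/

set_option autoImplicit false

open Polynomial Finset
open Pool.Agent.SQF4 (hf hf_mul hf_one hf_zero hf_add hf_C)

namespace Pool.Agent.Lib.SQF

/-- `rat_count` for all parameters -/
theorem ratAll (g : ℤ[X]) (hg : g.Monic) (hirr : Irreducible g) (hd : g.natDegree = 4) :
    RatAll g :=
  ratAll_of g fun a0 k0 C1 L1 ε hε hk => rc_count g hg hirr hd a0 k0 hk C1 L1 ε hε

/-- the value of `G` at the point `(u / v, n)` -/
noncomputable def valQ (G : ℤ[X][X]) (z : ZPt) : ℚ :=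
  (G.map (mapRingHom (Int.castRingHom ℚ))).evalEval ((z.u : ℚ) / z.v) (z.n : ℚ)

lemma on_iff_valQ (G : ℤ[X][X]) (z : ZPt) : On G z ↔ valQ G z = 0 := Iff.rfl

/-- the value of a polynomial of degree at most one in `n` -/
private lemma hev_le_one (e : ℕ) (G : ℤ[X][X]) (hG : G.natDegree ≤ 1) (u v n : ℤ) :
    hev e G u v n = hf (G.coeff 1) e u v * n + hf (G.coeff 0) e u v := by
  have h1 : hev e G u v n = ∑ i ∈ range 2, hf (G.coeff i) e u v * n ^ i := by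
    have h2 : hev e G u v n = ∑ i ∈ range (G.natDegree + 1), hf (G.coeff i) e u v * n ^ i := by
      unfold hev hf
      refine sum_congr rfl fun i _ => ?_
      rw [sum_mul]
      refine sum_congr rfl fun j _ => ?_
      ring
    rw [h2]
    refine sum_subset (range_subset_range.2 (by omega)) fun i _ hi => ?_
    have hi' : G.coeff i = 0 := coeff_eq_zero_of_natDegree_lt (by
      rw [mem_range] at hi; omega)
    rw [hi']
    simp [hf]
  rw [h1, sum_range_succ, sum_range_one]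
  ring

/-- from points to values of `n` -/
private lemma exists_fun (S : Finset ZPt) (hinj : ∀ z ∈ S, ∀ z' ∈ S, z.n = z'.n → z = z') :
    ∃ (T : Finset ℤ) (f : ℤ → ZPt), T.card = S.card ∧ ∀ n ∈ T, f n ∈ S ∧ (f n).n = n := by
  classical
  refine ⟨S.image ZPt.n, fun n => if h : ∃ z ∈ S, z.n = n then h.choose else ⟨0, 0, 0, 0, 0, 0⟩,
    card_image_of_injOn fun z hz z' hz' h => hinj z hz z' hz' h, ?_⟩
  intro n hn
  have h : ∃ z ∈ S, z.n = n := by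
    obtain ⟨z, hz, h⟩ := mem_image.1 hn
    exact ⟨z, hz, h⟩
  simp only [h, dif_pos]
  exact h.choose_spec

private lemma slSol_of {g : ℤ[X]} (hg : g.Monic) (hd : g.natDegree = 4) {K L Y P H : ℝ}
    (hY : 1 ≤ Y) (hP : Y ≤ L * P) {e1 e2 : Fin 4 → ℤ} {z : ZPt} (h : AOK g K Y P e1 e2 z)
    (hu : |(z.u : ℝ)| ≤ H) (hv : |(z.v : ℝ)| ≤ H) :
    SlSol g (max 2 L) Y H e1 e2 z.n z.u z.v := by
  obtain ⟨h1, h2⟩ := h
  have hP0 : 0 < P := by
    have h3 := h2.plt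
    have h4 : (0 : ℝ) ≤ z.p := Nat.cast_nonneg _
    linarith
  refine ⟨h1, hu, hv, z.p, z.a e1 e2, h2.rcSol hg hd (le_max_left _ _) (by linarith) ?_,
    fun i => rfl⟩
  exact hP.trans (mul_le_mul_of_nonneg_right (le_max_right _ _) hP0.le)

/-- the size bound `Y^A` in the form of `SecRC0` -/
private lemma exists_H (A : ℝ) {Y : ℝ} (hY : 1 ≤ Y) :
    Y ≤ Y ^ (max 1 A) ∧ Y ^ (max 1 A) ≤ 1 * Y ^ (max 1 A) ∧ Y ^ A ≤ Y ^ (max 1 A) := by
  refine ⟨?_, by rw [one_mul], Real.rpow_le_rpow_of_exponent_le hY (le_max_right _ _)⟩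
  calc Y = Y ^ (1 : ℝ) := (Real.rpow_one Y).symm
    _ ≤ Y ^ (max 1 A) := Real.rpow_le_rpow_of_exponent_le hY (le_max_left _ _)

/-- **Roots.** -/
theorem root_count (g : ℤ[X]) (hg : g.Monic) (hirr : Irreducible g) (hd : g.natDegree = 4)
    (d : ℕ) (K L A ε : ℝ) (hε : 0 < ε) : ∃ C : ℝ, 1 ≤ C ∧ ∀ Y P : ℝ, 1 ≤ Y → Y ≤ L * P →
    ∀ e1 e2 : Fin 4 → ℤ, (∀ j, |(e1 j : ℝ)| ≤ Y ^ A) → (∀ j, |(e2 j : ℝ)| ≤ Y ^ A) →
    ∀ R : ℤ[X], R ≠ 0 → R.natDegree ≤ d → ∀ S : Finset ZPt,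
    (∀ z ∈ S, AOK g K Y P e1 e2 z ∧ (R.map (Int.castRingHom ℚ)).eval ((z.u : ℚ) / z.v) = 0 ∧
      |(z.u : ℝ)| ≤ Y ^ A ∧ |(z.v : ℝ)| ≤ Y ^ A) →
    (∀ z ∈ S, ∀ z' ∈ S, z.n = z'.n → z = z') → (S.card : ℝ) ≤ C * Y ^ ε := by
  obtain ⟨C, hC, hcount⟩ := root_count_of g (ratAll g hg hirr hd) d (max 1 A) 1 (max 2 L) ε hε
  refine ⟨max 1 C, le_max_left _ _, ?_⟩
  intro Y P hY hYP e1 e2 he1 he2 R hR hRd S hS hinj
  obtain ⟨h1, h2, h3⟩ := exists_H A hY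
  obtain ⟨T, f, hT, hf'⟩ := exists_fun S hinj
  have hYε : 0 ≤ Y ^ ε := Real.rpow_nonneg (by linarith) _
  have := hcount Y (Y ^ (max 1 A)) hY h1 h2 e1 e2 (fun j => (he1 j).trans h3)
    (fun j => (he2 j).trans h3) T (fun n => (f n).u) (fun n => (f n).v) (by
      intro n hn
      obtain ⟨hfS, hfn⟩ := hf' n hn
      obtain ⟨h4, -, h5, h6⟩ := hS _ hfS
      have h7 := slSol_of hg hd hY hYP h4 (h5.trans h3) (h6.trans h3)
      rwa [hfn] at h7) R hR hRd (by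
      intro n hn
      obtain ⟨hfS, hfn⟩ := hf' n hn
      obtain ⟨h4, h5, -, -⟩ := hS _ hfS
      have hv : ((f n).v : ℚ) ≠ 0 := by exact_mod_cast h4.1
      rw [eval_map, eval₂_eq_sum_range' _ (Nat.lt_succ_of_le hRd)] at h5
      have h6 : ((hf R d (f n).u (f n).v : ℤ) : ℚ) = ((f n).v : ℚ) ^ d *
          ∑ i ∈ range (d + 1), (Int.castRingHom ℚ) (R.coeff i) *
            (((f n).u : ℚ) / ((f n).v : ℚ)) ^ i := by
        unfold hf
        push_cast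
        rw [mul_sum]
        refine sum_congr rfl fun i hi => ?_
        have hi' : i ≤ d := Nat.lt_succ_iff.1 (mem_range.1 hi)
        have h3 : ((f n).v : ℚ) ^ d = ((f n).v : ℚ) ^ i * ((f n).v : ℚ) ^ (d - i) := by
          rw [← pow_add, Nat.add_sub_cancel' hi']
        rw [h3, div_pow, eq_intCast]
        field_simp
      rw [h5, mul_zero] at h6
      exact_mod_cast h6)
  rw [hT] at this
  refine this.trans (mul_le_mul_of_nonneg_right (le_max_right _ _) hYε)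

/-- **Sections.** -/
theorem sec_count (g : ℤ[X]) (hg : g.Monic) (hirr : Irreducible g) (hd : g.natDegree = 4)
    (d : ℕ) (K L A ε : ℝ) (hε : 0 < ε) : ∃ C : ℝ, 1 ≤ C ∧ ∀ Y P : ℝ, 1 ≤ Y → Y ≤ L * P →
    ∀ e1 e2 : Fin 4 → ℤ, (∀ j, |(e1 j : ℝ)| ≤ Y ^ A) → (∀ j, |(e2 j : ℝ)| ≤ Y ^ A) →
    ∀ G : ℤ[X][X], G ≠ 0 → Bdd 1 d (Y ^ A) G → ∀ S : Finset ZPt,
    (∀ z ∈ S, AOK g K Y P e1 e2 z ∧ On G z ∧ |(z.u : ℝ)| ≤ Y ^ A ∧ |(z.v : ℝ)| ≤ Y ^ A) →
    (∀ z ∈ S, ∀ z' ∈ S, z.n = z'.n → z = z') → (S.card : ℝ) ≤ C * Y ^ ε := by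
  obtain ⟨C, hC, hcount⟩ := sec_count_of g (ratAll g hg hirr hd) d (max 1 A) 1 (max 2 L) ε hε
  refine ⟨max 1 C, le_max_left _ _, ?_⟩
  intro Y P hY hYP e1 e2 he1 he2 G hG hGb S hS hinj
  obtain ⟨h1, h2, h3⟩ := exists_H A hY
  obtain ⟨T, f, hT, hf'⟩ := exists_fun S hinj
  have hYε : 0 ≤ Y ^ ε := Real.rpow_nonneg (by linarith) _
  have hAB : G.coeff 1 ≠ 0 ∨ G.coeff 0 ≠ 0 := by
    by_contra hcon
    push Not at hcon
    apply hG
    ext1 i
    rcases i with _ | _ | i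
    · rw [hcon.2, coeff_zero]
    · rw [hcon.1, coeff_zero]
    · rw [coeff_zero]
      exact coeff_eq_zero_of_natDegree_lt (lt_of_le_of_lt hGb.1 (by omega))
  have := hcount Y (Y ^ (max 1 A)) hY h1 h2 e1 e2 (fun j => (he1 j).trans h3)
    (fun j => (he2 j).trans h3) T (fun n => (f n).u) (fun n => (f n).v) (by
      intro n hn
      obtain ⟨hfS, hfn⟩ := hf' n hn
      obtain ⟨h4, -, h5, h6⟩ := hS _ hfS
      have h7 := slSol_of hg hd hY hYP h4 (h5.trans h3) (h6.trans h3)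
      rwa [hfn] at h7) (G.coeff 1) (G.coeff 0) hAB (hGb.2.1 1) (hGb.2.1 0)
    (fun j => (hGb.2.2 1 j).trans h3) (fun j => (hGb.2.2 0 j).trans h3) (by
      intro n hn
      obtain ⟨hfS, hfn⟩ := hf' n hn
      obtain ⟨h4, h5, -, -⟩ := hS _ hfS
      have h6 := hev_eq d G hGb.2.1 (f n).u (f n).v (f n).n h4.1
      rw [(show (G.map (mapRingHom (Int.castRingHom ℚ))).evalEval (((f n).u : ℚ) / (f n).v)
        ((f n).n : ℚ) = 0 from h5), mul_zero, hev_le_one d G hGb.1, hfn] at h6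
      exact_mod_cast h6)
  rw [hT] at this
  refine this.trans (mul_le_mul_of_nonneg_right (le_max_right _ _) hYε)

/-- **Pencils.** -/
theorem pencil_count (g : ℤ[X]) (hg : g.Monic) (hirr : Irreducible g) (hd : g.natDegree = 4)
    (a d : ℕ) (K L A ε : ℝ) (hε : 0 < ε) : ∃ C : ℝ, 1 ≤ C ∧ ∀ Y P : ℝ, 1 ≤ Y → Y ≤ L * P →
    ∀ e1 e2 : Fin 4 → ℤ, (∀ j, |(e1 j : ℝ)| ≤ Y ^ A) → (∀ j, |(e2 j : ℝ)| ≤ Y ^ A) →
    ∀ E1 E2 : ℤ[X][X], Bdd 1 d (Y ^ A) E1 → Bdd 1 d (Y ^ A) E2 →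
    E1.coeff 1 * E2.coeff 0 - E2.coeff 1 * E1.coeff 0 ≠ 0 →
    ∀ lam mu : ℕ → ℤ, (∀ l, |(lam l : ℝ)| ≤ Y ^ A) → (∀ l, |(mu l : ℝ)| ≤ Y ^ A) →
    (∃ l ≤ a, lam l ≠ 0 ∨ mu l ≠ 0) → ∀ S : Finset ZPt,
    (∀ z ∈ S, AOK g K Y P e1 e2 z ∧
      ∑ l ∈ range (a + 1), ((lam l : ℚ) + mu l * ((z.u : ℚ) / z.v)) *
        (valQ E1 z ^ l * valQ E2 z ^ (a - l)) = 0 ∧
      |(z.u : ℝ)| ≤ Y ^ A ∧ |(z.v : ℝ)| ≤ Y ^ A) →
    (∀ z ∈ S, ∀ z' ∈ S, z.n = z'.n → z = z') → (S.card : ℝ) ≤ C * Y ^ ε := by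
  obtain ⟨C', hC, hcount⟩ := pencil_count_of g (ratAll g hg hirr hd) a d (max 1 A) 1 (max 2 L) ε hε
  refine ⟨max 1 C', le_max_left _ _, ?_⟩
  intro Y P hY hYP e1 e2 he1 he2 E1 E2 hE1 hE2 hD lam mu hlam hmu hne S hS hinj
  obtain ⟨h1, h2, h3⟩ := exists_H A hY
  obtain ⟨T, f, hT, hf'⟩ := exists_fun S hinj
  have hYε : 0 ≤ Y ^ ε := Real.rpow_nonneg (by linarith) _
  have hH0 : 0 ≤ Y ^ (max 1 A) := Real.rpow_nonneg (by linarith) _
  -- the two polynomials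
  have hpol : ∀ c : ℕ → ℤ, ∀ l, (∑ i ∈ range (a + 1), C (c i) * X ^ i : ℤ[X]).coeff l =
      if l ≤ a then c l else 0 := by
    intro c l
    rw [finsetSum_coeff]
    simp only [coeff_C_mul, coeff_X_pow, mul_ite, mul_one, mul_zero]
    rw [sum_ite_eq (range (a + 1)) l c]
    simp only [mem_range, Nat.lt_succ_iff]
  have hdeg : ∀ c : ℕ → ℤ, (∑ i ∈ range (a + 1), C (c i) * X ^ i : ℤ[X]).natDegree ≤ a := by
    intro c
    refine natDegree_sum_le_of_forall_le _ _ fun i hi => ?_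
    exact (natDegree_C_mul_X_pow_le _ _).trans (Nat.lt_succ_iff.1 (mem_range.1 hi))
  have hbd : ∀ c : ℕ → ℤ, (∀ l, |(c l : ℝ)| ≤ Y ^ A) →
      ∀ j, |((∑ i ∈ range (a + 1), C (c i) * X ^ i : ℤ[X]).coeff j : ℝ)| ≤ Y ^ (max 1 A) := by
    intro c hc j
    rw [hpol]
    split_ifs
    · exact (hc j).trans h3
    · simpa using hH0
  have hhf : ∀ c : ℕ → ℤ, ∀ x y : ℤ, hf (∑ i ∈ range (a + 1), C (c i) * X ^ i : ℤ[X]) a x y =
      ∑ l ∈ range (a + 1), c l * (x ^ l * y ^ (a - l)) := by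
    intro c x y
    unfold hf
    refine sum_congr rfl fun l hl => ?_
    rw [hpol, if_pos (Nat.lt_succ_iff.1 (mem_range.1 hl))]
    ring
  have hΛΜ : (∑ i ∈ range (a + 1), C (lam i) * X ^ i : ℤ[X]) ≠ 0 ∨
      (∑ i ∈ range (a + 1), C (mu i) * X ^ i : ℤ[X]) ≠ 0 := by
    obtain ⟨l, hl, h⟩ := hne
    rcases h with h | h
    · refine Or.inl fun h0 => h ?_
      have := hpol lam l
      rw [h0, coeff_zero, if_pos hl] at this
      exact this.symm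
    · refine Or.inr fun h0 => h ?_
      have := hpol mu l
      rw [h0, coeff_zero, if_pos hl] at this
      exact this.symm
  have := hcount Y (Y ^ (max 1 A)) hY h1 h2 e1 e2 (fun j => (he1 j).trans h3)
    (fun j => (he2 j).trans h3) T (fun n => (f n).u) (fun n => (f n).v) (by
      intro n hn
      obtain ⟨hfS, hfn⟩ := hf' n hn
      obtain ⟨h4, -, h5, h6⟩ := hS _ hfS
      have h7 := slSol_of hg hd hY hYP h4 (h5.trans h3) (h6.trans h3)
      rwa [hfn] at h7) (E1.coeff 1) (E1.coeff 0) (E2.coeff 1) (E2.coeff 0)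
    (∑ i ∈ range (a + 1), C (lam i) * X ^ i) (∑ i ∈ range (a + 1), C (mu i) * X ^ i)
    (hE1.2.1 1) (hE1.2.1 0) (hE2.2.1 1) (hE2.2.1 0) (hdeg lam) (hdeg mu)
    (fun j => (hE1.2.2 1 j).trans h3) (fun j => (hE1.2.2 0 j).trans h3)
    (fun j => (hE2.2.2 1 j).trans h3) (fun j => (hE2.2.2 0 j).trans h3)
    (hbd lam hlam) (hbd mu hmu) hD hΛΜ (by
      intro n hn
      obtain ⟨hfS, hfn⟩ := hf' n hn
      obtain ⟨h4, h5, -, -⟩ := hS _ hfS
      have hv : ((f n).v : ℚ) ≠ 0 := by exact_mod_cast h4.1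
      have e1' := hev_eq d E1 hE1.2.1 (f n).u (f n).v (f n).n h4.1
      have e2' := hev_eq d E2 hE2.2.1 (f n).u (f n).v (f n).n h4.1
      rw [hev_le_one d E1 hE1.1, hfn] at e1'
      rw [hev_le_one d E2 hE2.1, hfn] at e2'
      have e1'' : ((hf (E1.coeff 1) d (f n).u (f n).v * n + hf (E1.coeff 0) d (f n).u (f n).v : ℤ) :
          ℚ) = ((f n).v : ℚ) ^ d * valQ E1 (f n) := by
        rw [e1']; unfold valQ; rw [hfn]
      have e2'' : ((hf (E2.coeff 1) d (f n).u (f n).v * n + hf (E2.coeff 0) d (f n).u (f n).v : ℤ) :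
          ℚ) = ((f n).v : ℚ) ^ d * valQ E2 (f n) := by
        rw [e2']; unfold valQ; rw [hfn]
      rw [hhf, hhf]
      have key : (((f n).v * ∑ l ∈ range (a + 1), lam l *
          ((hf (E1.coeff 1) d (f n).u (f n).v * n + hf (E1.coeff 0) d (f n).u (f n).v) ^ l *
          (hf (E2.coeff 1) d (f n).u (f n).v * n + hf (E2.coeff 0) d (f n).u (f n).v) ^ (a - l)) +
          (f n).u * ∑ l ∈ range (a + 1), mu l *
          ((hf (E1.coeff 1) d (f n).u (f n).v * n + hf (E1.coeff 0) d (f n).u (f n).v) ^ l *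
          (hf (E2.coeff 1) d (f n).u (f n).v * n + hf (E2.coeff 0) d (f n).u (f n).v) ^ (a - l)) :
          ℤ) : ℚ) = ((f n).v : ℚ) ^ (a * d + 1) *
          ∑ l ∈ range (a + 1), ((lam l : ℚ) + mu l * (((f n).u : ℚ) / (f n).v)) *
            (valQ E1 (f n) ^ l * valQ E2 (f n) ^ (a - l)) := by
        generalize hx : (hf (E1.coeff 1) d (f n).u (f n).v * n + hf (E1.coeff 0) d (f n).u (f n).v) =
          x at e1''
        generalize hy : (hf (E2.coeff 1) d (f n).u (f n).v * n + hf (E2.coeff 0) d (f n).u (f n).v) =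
          y at e2''
        push_cast
        rw [e1'', e2'', mul_sum, mul_sum, ← sum_add_distrib, mul_sum]
        refine sum_congr rfl fun l hl => ?_
        have hl' : l ≤ a := Nat.lt_succ_iff.1 (mem_range.1 hl)
        have h8 : ((f n).v : ℚ) ^ (a * d + 1) =
            (f n).v * ((((f n).v : ℚ) ^ d) ^ l * (((f n).v : ℚ) ^ d) ^ (a - l)) := by
          rw [← pow_add, Nat.add_sub_cancel' hl', ← pow_mul, mul_comm d a, pow_succ]
          ring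
        rw [h8, mul_pow, mul_pow]
        field_simp
      rw [h5, mul_zero] at key
      exact_mod_cast key)
  rw [hT] at this
  refine this.trans (mul_le_mul_of_nonneg_right (le_max_right _ _) hYε)

end Pool.Agent.Lib.SQF
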