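import Pool.Agent.Lib.SQF.WOne
import Pool.Agent.Lib.SQF.SecRC

/-!
# SQF: every curve is rich in forms or carries few solutions (arch70, sections 2, 4)

`G` irreducible, `a = natDegree G ≥ 1`. `a = 1`: `sec_count` (SecRC). `a ≥ 2`, class `c ≥ 2`:
`RankOK` (Lemma 7', WRank). Class `≤ 1`: unbalanced slices are excluded by `no_pair`, on balanced
slices the curve is a member of the pencil (`class_one`) and `pencil_count` (SecRC) applies.
-/

set_option autoImplicit false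

open Polynomial

namespace Pool.Agent.Lib.SQF

/-- real version of `abs_hev_le` -/
lemma abs_hev_le_real (e : ℕ) (G : ℤ[X][X]) (H Q : ℝ)
    (hH : ∀ i j, |(((G.coeff i).coeff j : ℤ) : ℝ)| ≤ H) (u v n : ℤ) (hQ : 1 ≤ Q)
    (hu : |(u : ℝ)| ≤ Q) (hv : |(v : ℝ)| ≤ Q) (hn : |(n : ℝ)| ≤ Q) :
    |((hev e G u v n : ℤ) : ℝ)| ≤ (G.natDegree + 1) * (e + 1) * H * Q ^ (e + G.natDegree) := by
  have hH0 : 0 ≤ H := (abs_nonneg _).trans (hH 0 0)
  have hfl : ∀ (x : ℤ) (T : ℝ), |(x : ℝ)| ≤ T → |x| ≤ ⌊T⌋ := by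
    intro x T h
    rw [Int.le_floor]
    push_cast
    exact h
  have h1 := abs_hev_le e G ⌊H⌋ ⌊Q⌋ (fun i j => hfl _ _ (hH i j)) u v n
    (by rw [Int.le_floor]; exact_mod_cast hQ) (hfl _ _ hu) (hfl _ _ hv) (hfl _ _ hn)
  have h2 : |((hev e G u v n : ℤ) : ℝ)| ≤
      (G.natDegree + 1) * (e + 1) * (⌊H⌋ : ℝ) * (⌊Q⌋ : ℝ) ^ (e + G.natDegree) := by
    exact_mod_cast h1
  refine h2.trans ?_
  have hQ0 : (0 : ℝ) ≤ ⌊Q⌋ := by
    have : (0 : ℤ) ≤ ⌊Q⌋ := Int.floor_nonneg.mpr (by linarith)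
    exact_mod_cast this
  have hHf : (0 : ℝ) ≤ ⌊H⌋ := by
    have : (0 : ℤ) ≤ ⌊H⌋ := Int.floor_nonneg.mpr hH0
    exact_mod_cast this
  gcongr
  · exact Int.floor_le H
  · exact Int.floor_le Q

/-- values of `toC F` at rational points -/
lemma evalEval_toC (F : ℤ[X][X]) (t n : ℚ) :
    (toC F).evalEval (t : ℂ) (n : ℂ) =
      (((F.map (mapRingHom (Int.castRingHom ℚ))).evalEval t n : ℚ) : ℂ) := by
  have h1 : toC F = (F.map (mapRingHom (Int.castRingHom ℚ))).map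
      (mapRingHom (algebraMap ℚ ℂ)) := by
    unfold toC
    rw [Polynomial.map_map]
    congr 1
    apply RingHom.ext
    intro p
    simp only [RingHom.coe_comp, Function.comp_apply, coe_mapRingHom, Polynomial.map_map]
    congr 1
  rw [h1]
  exact map_mapRingHom_evalEval (algebraMap ℚ ℂ) (F.map (mapRingHom (Int.castRingHom ℚ))) t n

lemma toC_eq_mapk (F : ℤ[X][X]) :
    toC F = WC.mapk ℚ ℂ (F.map (mapRingHom (Int.castRingHom ℚ))) := by
  unfold toC WC.mapk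
  rw [coe_mapRingHom, Polynomial.map_map]
  congr 1
  apply RingHom.ext
  intro p
  simp only [RingHom.coe_comp, Function.comp_apply, coe_mapRingHom, Polynomial.map_map]
  congr 1

lemma toC_injective : Function.Injective toC :=
  Polynomial.map_injective _ (Polynomial.map_injective _ (RingHom.injective_int (Int.castRingHom ℂ)))

lemma natDegree_toC (F : ℤ[X][X]) : (toC F).natDegree = F.natDegree :=
  natDegree_map_eq_of_injective
    (Polynomial.map_injective _ (RingHom.injective_int (Int.castRingHom ℂ))) F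

lemma ev_ne_zero4 {g : ℤ[X]} {θ : Fin 4 → ℂ} (hg : Roots4 g θ) {e : Fin 4 → ℤ} (he : e ≠ 0)
    (σ : Fin 4) : ev e (θ σ) ≠ 0 := by
  intro h
  rw [← aeval_pol] at h
  have hpol : pol e ≠ 0 := by
    intro h0
    apply he
    ext j
    have := coeff_pol e (j : ℕ)
    rw [h0, coeff_zero, dif_pos j.2] at this
    exact this.symm
  have hdegp : (pol e).natDegree < 4 := by
    have : (pol e).natDegree ≤ 3 := by
      rw [natDegree_le_iff_coeff_eq_zero]
      intro N hN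
      rw [coeff_pol, dif_neg (by omega)]
    omega
  have hirr : Irreducible (g.map (Int.castRingHom ℚ)) :=
    (IsPrimitive.Int.irreducible_iff_irreducible_map_cast hg.monic.isPrimitive).mp hg.irr
  have hz' : aeval (θ σ) (g.map (Int.castRingHom ℚ)) = 0 := by
    have : (g.map (Int.castRingHom ℚ)) = g.map (algebraMap ℤ ℚ) := rfl
    rw [this, aeval_map_algebraMap]
    exact hg.root σ
  have h' : aeval (θ σ) ((pol e).map (Int.castRingHom ℚ)) = 0 := by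
    have : ((pol e).map (Int.castRingHom ℚ)) = (pol e).map (algebraMap ℤ ℚ) := rfl
    rw [this, aeval_map_algebraMap]
    exact h
  have hmin : minpoly ℚ (θ σ) = g.map (Int.castRingHom ℚ) :=
    (minpoly.eq_of_irreducible_of_monic hirr hz' (hg.monic.map _)).symm
  have hdvd : g.map (Int.castRingHom ℚ) ∣ (pol e).map (Int.castRingHom ℚ) := by
    rw [← hmin]
    exact minpoly.dvd ℚ _ h'
  have hne : (pol e).map (Int.castRingHom ℚ) ≠ 0 :=
    (Polynomial.map_ne_zero_iff (RingHom.injective_int _)).mpr hpol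
  have h4 := natDegree_le_of_dvd hdvd hne
  rw [natDegree_map_eq_of_injective (RingHom.injective_int _),
    natDegree_map_eq_of_injective (RingHom.injective_int _), hg.deg] at h4
  omega

lemma tt_injective {g : ℤ[X]} {θ : Fin 4 → ℂ} (hg : Roots4 g θ) {E : ℝ} {e1 e2 : Fin 4 → ℤ}
    (h : SliceOK θ E e1 e2) : Function.Injective (tt θ e1 e2) := by
  intro σ ρ hσρ
  by_contra hne
  apply h.dist σ ρ hne
  have h1 := ev_ne_zero4 hg h.ne1 σ
  have h2 := ev_ne_zero4 hg h.ne1 ρ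
  unfold tt at hσρ
  rw [div_eq_div_iff h1 h2] at hσρ
  linear_combination hσρ

/-- **Class at most one on a balanced slice**: the complex identity -/
theorem class_one_identity {θ τ : Fin 4 → ℂ} (hτ : Function.Injective τ) (hbal : Bal τ θ)
    {G : ℤ[X][X]} (hG0 : G ≠ 0) {μ : Fin 4 → ℕ} (hμ1 : ∀ i, WO (τ i) (θ i) (μ i) (toC G))
    (hμa : ∀ i, μ i ≤ 2 * G.natDegree)
    (hsum : (Bivariate.swap (toC G)).natDegree + 4 * G.natDegree ≤ ∑ i, μ i + 1)
    {A1 B1 A2 B2 : ℤ[X]} (dA1 : A1.natDegree ≤ 4) (dB1 : B1.natDegree ≤ 4)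
    (dA2 : A2.natDegree ≤ 4) (dB2 : B2.natDegree ≤ 4)
    (h1 : ∀ i, (X - C (τ i)) ^ 2 ∣ B1.map (Int.castRingHom ℂ) +
      C (θ i) * A1.map (Int.castRingHom ℂ))
    (h2 : ∀ i, (X - C (τ i)) ^ 2 ∣ B2.map (Int.castRingHom ℂ) +
      C (θ i) * A2.map (Int.castRingHom ℂ))
    (hΔ : A1 * B2 - A2 * B1 ≠ 0) (hA2 : A2 ≠ 0) :
    ∃ c : Fin (G.natDegree + 1) → ℂ × ℂ, c ≠ 0 ∧ ∃ Q : ℂ[X], toC G * C Q =
      ∑ l : Fin (G.natDegree + 1), C (C (c l).1 + C (c l).2 * X) *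
        ((toC (C A1 * X + C B1)) ^ (l : ℕ) * (toC (C A2 * X + C B2)) ^ (G.natDegree - l)) := by
  set φ := Int.castRingHom ℂ with hφ
  have hφinj : Function.Injective φ := RingHom.injective_int _
  have htoC0 : toC G ≠ 0 := fun h => hG0 (toC_injective (by rw [h]; simp [toC]))
  have hbal' : WC.Balanced θ τ := by
    unfold WC.Balanced
    rw [← WS_eq_Wsub, Submodule.eq_bot_iff]
    exact hbal
  have e1 : toC (C A1 * X + C B1) = C (A1.map φ) * X + C (B1.map φ) := by simp [toC, hφ]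
  have e2 : toC (C A2 * X + C B2) = C (A2.map φ) * X + C (B2.map φ) := by simp [toC, hφ]
  have m1 : C (A1.map φ) * X + C (B1.map φ) ∈ WC.Wsub θ τ 1 (4 + 1) 2 :=
    WC.mem_Wsub_one (WC.mem_degreeLT_of_natDegree_le (natDegree_map_le.trans dA1))
      (WC.mem_degreeLT_of_natDegree_le (natDegree_map_le.trans dB1)) h1
  have m2 : C (A2.map φ) * X + C (B2.map φ) ∈ WC.Wsub θ τ 1 (4 + 1) 2 :=
    WC.mem_Wsub_one (WC.mem_degreeLT_of_natDegree_le (natDegree_map_le.trans dA2))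
      (WC.mem_degreeLT_of_natDegree_le (natDegree_map_le.trans dB2)) h2
  have hA2' : A2.map φ ≠ 0 := (Polynomial.map_ne_zero_iff hφinj).mpr hA2
  have hΔ' : A1.map φ * B2.map φ - A2.map φ * B1.map φ ≠ 0 := by
    have := (Polynomial.map_ne_zero_iff hφinj).mpr hΔ
    simpa using this
  set a := G.natDegree with ha
  set m : Fin 4 → ℕ := fun i => 2 * a - μ i with hm
  set Q : ℂ[X] := ∏ i, (X - C (τ i)) ^ m i with hQ
  have hQ0 : Q ≠ 0 := Finset.prod_ne_zero_iff.mpr fun i _ => pow_ne_zero _ (X_sub_C_ne_zero _)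
  have hsm : ∑ i, m i + ∑ i, μ i = 8 * a := by
    rw [← Finset.sum_add_distrib]
    have : ∀ i : Fin 4, m i + μ i = 2 * a := fun i => by
      have := hμa i
      simp only [hm]
      omega
    rw [Finset.sum_congr rfl (fun i _ => this i)]
    simp
    ring
  have hH0 : toC G * C Q ≠ 0 := mul_ne_zero htoC0 (C_ne_zero.mpr hQ0)
  have hH : toC G * C Q ∈ WC.Wsub θ τ a (4 * a + 2) (2 * a) := by
    refine ⟨?_, ?_, fun i => ?_⟩
    · refine natDegree_mul_le.trans ?_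
      rw [natDegree_C, natDegree_toC]
      omega
    · rw [WC.tdeg_lt_iff hH0, WC.tdeg_mul htoC0 (C_ne_zero.mpr hQ0), WC.tdeg_C,
        WC.natDegree_prod_pow]
      have : WC.tdeg (toC G) = (Bivariate.swap (toC G)).natDegree := rfl
      omega
    · have h3 : WC.ordGE (θ i) (τ i) (m i) (C Q) :=
        WC.ordGE_C (Finset.dvd_prod_of_mem (fun i => (X - C (τ i)) ^ m i) (Finset.mem_univ i))
      have h4 := WC.ordGE_mul ((wo_iff_ordGE _ _ _ _).mp (hμ1 i)) h3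
      refine WC.ordGE_mono ?_ h4
      have := hμa i
      simp only [hm]
      omega
  obtain ⟨c, hc⟩ := class_one hbal' hτ m1 m2 hA2' hΔ' a hH
  rw [pencilMap_apply] at hc
  refine ⟨c, ?_, Q, ?_⟩
  · rintro rfl
    apply hH0
    rw [hc]
    simp
  · rw [hc, e1, e2]


lemma row_alg {F : Type*} [Field F] (a : ℕ) (u v x y : F) (hv : v ≠ 0) (p q : ℕ → F) :
    ∑ l ∈ Finset.range (a + 1), (v * ((v ^ 4 * x) ^ l * (v ^ 4 * y) ^ (a - l)) * p l +
      u * ((v ^ 4 * x) ^ l * (v ^ 4 * y) ^ (a - l)) * q l) =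
    v ^ (4 * a + 1) * ∑ l ∈ Finset.range (a + 1), (p l + q l * (u / v)) * (x ^ l * y ^ (a - l)) := by
  rw [Finset.mul_sum]
  apply Finset.sum_congr rfl
  intro l hl
  rw [Finset.mem_range] at hl
  have e : v ^ (4 * a + 1) = v * ((v ^ 4) ^ l * (v ^ 4) ^ (a - l)) := by
    rw [← pow_add, ← pow_mul]
    have : l + (a - l) = a := by omega
    rw [this, pow_succ]
    ring
  rw [e, mul_pow, mul_pow]
  field_simp

/-- an integral identity with small coefficients on a finite set of points -/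
theorem exists_int_identity {a a' : ℕ} (ha' : a' ≤ a) {E1 E2 G : ℤ[X][X]}
    (hE1 : ∀ i, (E1.coeff i).natDegree ≤ 4) (hE2 : ∀ i, (E2.coeff i).natDegree ≤ 4)
    {c : Fin (a' + 1) → ℂ × ℂ} (hc : c ≠ 0) {Q : ℂ[X]}
    (hid : toC G * C Q = ∑ l : Fin (a' + 1), C (C (c l).1 + C (c l).2 * X) *
      ((toC E1) ^ (l : ℕ) * (toC E2) ^ (a' - l)))
    (S : Finset ZPt) (hS : ∀ z ∈ S, z.v ≠ 0 ∧ On G z) (B : ℝ) (hB : 1 ≤ B)
    (hBd : ∀ z ∈ S, ∀ l ≤ a,
      |((z.v * (hev 4 E1 z.u z.v z.n ^ l * hev 4 E2 z.u z.v z.n ^ (a - l)) : ℤ) : ℝ)| ≤ B ∧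
      |((z.u * (hev 4 E1 z.u z.v z.n ^ l * hev 4 E2 z.u z.v z.n ^ (a - l)) : ℤ) : ℝ)| ≤ B) :
    ∃ lam mu : ℕ → ℤ,
      (∀ l, |(lam l : ℝ)| ≤ (((2 * (a + 1) : ℕ) : ℝ) * B) ^ (2 * (a + 1))) ∧
      (∀ l, |(mu l : ℝ)| ≤ (((2 * (a + 1) : ℕ) : ℝ) * B) ^ (2 * (a + 1))) ∧
      (∃ l ≤ a, lam l ≠ 0 ∨ mu l ≠ 0) ∧
      ∀ z ∈ S, ∑ l ∈ Finset.range (a + 1), ((lam l : ℚ) + mu l * ((z.u : ℚ) / z.v)) *
        (valQ E1 z ^ l * valQ E2 z ^ (a - l)) = 0 := by
  set cz : ℕ → ℂ × ℂ := fun l => if h : l < a' + 1 then c ⟨l, h⟩ else 0 with hcz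
  set r : S → Fin 2 × Fin (a + 1) → ℤ := fun z i =>
    (if i.1 = 0 then z.1.v else z.1.u) *
      (hev 4 E1 z.1.u z.1.v z.1.n ^ (i.2 : ℕ) * hev 4 E2 z.1.u z.1.v z.1.n ^ (a - i.2)) with hr
  set w : Fin 2 × Fin (a + 1) → ℂ := fun i =>
    if i.1 = 0 then (cz i.2).1 else (cz i.2).2 with hw
  have hsplit : ∀ {M : Type} [AddCommMonoid M] (f : Fin 2 × Fin (a + 1) → M),
      ∑ x, f x = ∑ j : Fin (a + 1), (f (0, j) + f (1, j)) := by
    intro M _ f
    rw [Fintype.sum_prod_type, Fin.sum_univ_two, ← Finset.sum_add_distrib]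
  have h10 : ¬ ((1 : Fin 2) = 0) := by decide
  -- values
  have hval : ∀ (E : ℤ[X][X]), (∀ i, (E.coeff i).natDegree ≤ 4) → ∀ z : ZPt, z.v ≠ 0 →
      ((hev 4 E z.u z.v z.n : ℤ) : ℚ) = (z.v : ℚ) ^ 4 * valQ E z := by
    intro E hE z hz
    exact hev_eq 4 E hE z.u z.v z.n hz
  have hw0 : w ≠ 0 := by
    intro h0
    apply hc
    ext l
    · have := congrFun h0 (0, ⟨l, by have := l.2; omega⟩)
      simp only [hw, hcz, if_true] at this
      rw [dif_pos l.2] at this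
      exact this
    · have := congrFun h0 (1, ⟨l, by have := l.2; omega⟩)
      simp only [hw, hcz, if_neg h10] at this
      rw [dif_pos l.2] at this
      exact this
  have hrows : ∀ z : S, ∑ i, (r z i : ℂ) * w i = 0 := by
    intro z
    obtain ⟨hv, hon⟩ := hS z.1 z.2
    have hvC : (z.1.v : ℂ) ≠ 0 := by exact_mod_cast hv
    have hX : ((hev 4 E1 z.1.u z.1.v z.1.n : ℤ) : ℂ) = (z.1.v : ℂ) ^ 4 * (valQ E1 z.1 : ℂ) := by
      have := hval E1 hE1 z.1 hv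
      have h2 := congrArg (Rat.cast : ℚ → ℂ) this
      push_cast at h2
      exact h2
    have hY : ((hev 4 E2 z.1.u z.1.v z.1.n : ℤ) : ℂ) = (z.1.v : ℂ) ^ 4 * (valQ E2 z.1 : ℂ) := by
      have := hval E2 hE2 z.1 hv
      have h2 := congrArg (Rat.cast : ℚ → ℂ) this
      push_cast at h2
      exact h2
    -- the identity at the point
    have hpt := congrArg (fun F : ℂ[X][X] => F.evalEval (((z.1.u : ℚ) / z.1.v : ℚ) : ℂ)
      ((z.1.n : ℚ) : ℂ)) hid
    simp only [evalEval_mul, evalEval_finsetSum, evalEval_pow, evalEval_toC, evalEval_C,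
      eval_add, eval_mul, eval_C, eval_X] at hpt
    have hG : ((G.map (mapRingHom (Int.castRingHom ℚ))).evalEval ((z.1.u : ℚ) / z.1.v)
      (z.1.n : ℚ)) = 0 := hon
    rw [hG] at hpt
    have hpt' : ∑ l ∈ Finset.range (a' + 1), ((cz l).1 + (cz l).2 * ((z.1.u : ℂ) / z.1.v)) *
        ((valQ E1 z.1 : ℂ) ^ l * (valQ E2 z.1 : ℂ) ^ (a' - l)) = 0 := by
      rw [Finset.sum_range]
      have h0 : (((0 : ℚ) : ℂ)) * eval (((z.1.u : ℚ) / z.1.v : ℚ) : ℂ) Q = 0 := by simp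
      rw [h0] at hpt
      rw [hpt]
      apply Finset.sum_congr rfl
      intro l _
      have e : cz l = c l := by simp only [hcz]; rw [dif_pos l.2]
      rw [e]
      push_cast
      rfl
    have hfull : ∑ l ∈ Finset.range (a + 1), ((cz l).1 + (cz l).2 * ((z.1.u : ℂ) / z.1.v)) *
        ((valQ E1 z.1 : ℂ) ^ l * (valQ E2 z.1 : ℂ) ^ (a - l)) = 0 := by
      have h1 : ∑ l ∈ Finset.range (a' + 1), ((cz l).1 + (cz l).2 * ((z.1.u : ℂ) / z.1.v)) *
          ((valQ E1 z.1 : ℂ) ^ l * (valQ E2 z.1 : ℂ) ^ (a - l)) =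
          ∑ l ∈ Finset.range (a + 1), ((cz l).1 + (cz l).2 * ((z.1.u : ℂ) / z.1.v)) *
          ((valQ E1 z.1 : ℂ) ^ l * (valQ E2 z.1 : ℂ) ^ (a - l)) := by
        apply Finset.sum_subset
        · intro l hl
          rw [Finset.mem_range] at hl ⊢
          omega
        · intro l _ hl
          rw [Finset.mem_range] at hl
          have e : cz l = 0 := by simp only [hcz]; rw [dif_neg hl]
          rw [e]
          simp
      rw [← h1]
      have h2 : ∑ l ∈ Finset.range (a' + 1), ((cz l).1 + (cz l).2 * ((z.1.u : ℂ) / z.1.v)) *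
          ((valQ E1 z.1 : ℂ) ^ l * (valQ E2 z.1 : ℂ) ^ (a - l)) =
          (valQ E2 z.1 : ℂ) ^ (a - a') * ∑ l ∈ Finset.range (a' + 1),
          ((cz l).1 + (cz l).2 * ((z.1.u : ℂ) / z.1.v)) *
          ((valQ E1 z.1 : ℂ) ^ l * (valQ E2 z.1 : ℂ) ^ (a' - l)) := by
        rw [Finset.mul_sum]
        apply Finset.sum_congr rfl
        intro l hl
        rw [Finset.mem_range] at hl
        have e : a - l = (a - a') + (a' - l) := by omega
        rw [e, pow_add]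
        ring
      rw [h2, hpt', mul_zero]
    have halg := row_alg a (z.1.u : ℂ) (z.1.v : ℂ) (valQ E1 z.1 : ℂ) (valQ E2 z.1 : ℂ) hvC
      (fun l => (cz l).1) (fun l => (cz l).2)
    rw [hfull, mul_zero] at halg
    rw [hsplit]
    refine Eq.trans ?_ halg
    rw [Finset.sum_range]
    apply Finset.sum_congr rfl
    intro l _
    simp only [hr, hw, if_true, if_neg h10]
    push_cast
    rw [hX, hY]
  have hcard : Fintype.card (Fin 2 × Fin (a + 1)) = 2 * (a + 1) := by simp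
  obtain ⟨x, hx0, hx1, hx2⟩ := small_kernel hcard r B hB (by
    intro z i
    have hi : (i.2 : ℕ) ≤ a := by have := i.2.2; omega
    obtain ⟨b1, b2⟩ := hBd z.1 z.2 i.2 hi
    simp only [hr]
    split_ifs
    · exact b1
    · exact b2) w hw0 hrows
  set bd : ℝ := (((2 * (a + 1) : ℕ) : ℝ) * B) ^ (2 * (a + 1)) with hbd
  have hbd0 : 0 ≤ bd := by positivity
  set f : Fin 2 → ℕ → ℤ := fun s l => if h : l < a + 1 then x (s, ⟨l, h⟩) else 0 with hf
  have hfb : ∀ s l, |(f s l : ℝ)| ≤ bd := by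
    intro s l
    simp only [hf]
    split_ifs with h
    · exact hx2 _
    · simpa using hbd0
  refine ⟨f 0, f 1, hfb 0, hfb 1, ?_, ?_⟩
  · by_contra hcon
    apply hx0
    ext ⟨s, l⟩
    have hl : (l : ℕ) < a + 1 := l.2
    have h1 : f 0 l = 0 ∧ f 1 l = 0 := by
      constructor
      · by_contra h; exact hcon ⟨l, by omega, Or.inl h⟩
      · by_contra h; exact hcon ⟨l, by omega, Or.inr h⟩
    simp only [hf] at h1
    rw [dif_pos hl, dif_pos hl] at h1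
    fin_cases s
    · exact h1.1
    · exact h1.2
  · intro z hz
    obtain ⟨hv, -⟩ := hS z hz
    have hvQ : (z.v : ℚ) ≠ 0 := by exact_mod_cast hv
    have h1 := hx1 ⟨z, hz⟩
    have h2 : ∑ i, ((r ⟨z, hz⟩ i : ℤ) : ℚ) * (x i : ℚ) = 0 := by exact_mod_cast h1
    rw [hsplit] at h2
    have halg := row_alg a (z.u : ℚ) (z.v : ℚ) (valQ E1 z) (valQ E2 z) hvQ
      (fun l => (f 0 l : ℚ)) (fun l => (f 1 l : ℚ))
    have h3 : ∑ l ∈ Finset.range (a + 1),
        ((z.v : ℚ) * (((z.v : ℚ) ^ 4 * valQ E1 z) ^ l * ((z.v : ℚ) ^ 4 * valQ E2 z) ^ (a - l)) *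
          (f 0 l : ℚ) +
        (z.u : ℚ) * (((z.v : ℚ) ^ 4 * valQ E1 z) ^ l * ((z.v : ℚ) ^ 4 * valQ E2 z) ^ (a - l)) *
          (f 1 l : ℚ)) = 0 := by
      refine Eq.trans ?_ h2
      rw [Finset.sum_range]
      apply Finset.sum_congr rfl
      intro l _
      have e0 : f 0 l = x (0, l) := by simp only [hf]; rw [dif_pos l.2]
      have e1 : f 1 l = x (1, l) := by simp only [hf]; rw [dif_pos l.2]
      rw [e0, e1]
      simp only [hr, if_true, if_neg h10]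
      push_cast
      rw [hval E1 hE1 z hv, hval E2 hE2 z hv]
    rw [h3] at halg
    exact (mul_eq_zero.mp halg.symm).resolve_left (pow_ne_zero _ hvQ)

lemma card_le_nine {S : Finset ZPt} (hn : ∀ z ∈ S, |(z.n : ℝ)| < 4)
    (hinj : ∀ z ∈ S, ∀ z' ∈ S, z.n = z'.n → z = z') : S.card ≤ 9 := by
  classical
  have h1 : S.card = (S.image ZPt.n).card :=
    (Finset.card_image_of_injOn fun z hz z' hz' h => hinj z hz z' hz' h).symm
  have h2 : S.image ZPt.n ⊆ Finset.Icc (-4) 4 := by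
    intro n hn'
    obtain ⟨z, hz, rfl⟩ := Finset.mem_image.mp hn'
    have h3 := hn z hz
    rw [abs_lt] at h3
    rw [Finset.mem_Icc]
    constructor
    · have : ((-4 : ℤ) : ℝ) < z.n := by push_cast; exact h3.1
      have : (-4 : ℤ) < z.n := by exact_mod_cast this
      omega
    · have : (z.n : ℝ) < ((4 : ℤ) : ℝ) := by push_cast; exact h3.2
      have : z.n < (4 : ℤ) := by exact_mod_cast this
      omega
  rw [h1]
  exact (Finset.card_le_card h2).trans (by simp)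

lemma coeff_pair {R : Type*} [CommRing R] (A B : R[X]) (l : ℕ) :
    (C A * X + C B : R[X][X]).coeff l = if l = 1 then A else if l = 0 then B else 0 := by
  rw [coeff_add, coeff_C_mul, coeff_X, coeff_C]
  rcases l with _ | _ | l
  · simp
  · simp
  · simp

lemma Bdd_pair {A B : ℤ[X]} {T : ℝ} (dA : A.natDegree ≤ 4) (dB : B.natDegree ≤ 4)
    (hA : ∀ j, |(A.coeff j : ℝ)| ≤ T) (hB : ∀ j, |(B.coeff j : ℝ)| ≤ T) :
    Bdd 1 4 T (C A * X + C B) := by
  have hT : 0 ≤ T := (abs_nonneg _).trans (hA 0)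
  refine ⟨natDegree_linear_le, fun l => ?_, fun l j => ?_⟩
  · rw [coeff_pair]
    split_ifs
    · exact dA
    · exact dB
    · simp
  · rw [coeff_pair]
    split_ifs
    · exact hA j
    · exact hB j
    · simpa using hT

/-- **Every curve has large rank or few solutions** -/
theorem small_or_rank {g : ℤ[X]} {θ : Fin 4 → ℂ} (hg : Roots4 g θ) (a e : ℕ) (K L A ε : ℝ)
    (hε : 0 < ε) : ∃ C : ℝ, 1 ≤ C ∧ ∀ Y P : ℝ, 1 ≤ Y → Y ≤ L * P → P ≤ Y ^ A →
      ∀ e1 e2 : Fin 4 → ℤ, SliceOK θ (Y ^ A) e1 e2 → ∀ G : ℤ[X][X], Irreducible G →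
      1 ≤ G.natDegree → Bdd a e (Y ^ A) G →
      RankOK θ (tt θ e1 e2) G ∨ ∀ S : Finset ZPt,
        (∀ z ∈ S, AOK g K Y P e1 e2 z ∧ On G z ∧ |(z.u : ℝ)| ≤ Y ^ A ∧ |(z.v : ℝ)| ≤ Y ^ A) →
        TInj S → (∀ z ∈ S, ∀ z' ∈ S, z.n = z'.n → z = z') → (S.card : ℝ) ≤ C * Y ^ ε := by
  obtain ⟨C1, hC1, hsec⟩ := sec_count g hg.monic hg.irr hg.deg e K L A ε hε
  obtain ⟨K1, κ, hK1, hpen⟩ := exists_small_pencil hg
  set q : ℕ := ⌈|A|⌉₊ with hq
  set K2 : ℝ := 2 * (320 * K1) ^ a with hK2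
  set κ2 : ℕ := (q + 1) + a * (q * κ + 5 * (q + 1)) with hκ2
  set K3 : ℝ := (((2 * (a + 1) : ℕ) : ℝ) * K2) ^ (2 * (a + 1)) with hK3
  set κ3 : ℕ := κ2 * (2 * (a + 1)) with hκ3
  have hK2' : 1 ≤ K2 := by
    have : (1 : ℝ) ≤ (320 * K1) ^ a := one_le_pow₀ (by linarith)
    linarith
  have hK3' : 1 ≤ K3 := by
    apply one_le_pow₀
    have : (1 : ℝ) ≤ ((2 * (a + 1) : ℕ) : ℝ) := by
      have : 1 ≤ 2 * (a + 1) := by omega
      exact_mod_cast this
    nlinarith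
  obtain ⟨N, hN⟩ := pow_unbounded_of_one_lt (K1 * K3) (one_lt_two : (1 : ℝ) < 2)
  set A' : ℕ := κ3 + q * κ + q + N with hA'
  obtain ⟨C2, hC2, hpc⟩ := pencil_count g hg.monic hg.irr hg.deg a 4 K L (A' : ℝ) ε hε
  refine ⟨max (max C1 C2) 9, le_max_of_le_left (le_max_of_le_left hC1), ?_⟩
  intro Y P hY hYP hPY e1 e2 hsl G hG hGdeg hGb
  have hY0 : (0 : ℝ) < Y := by linarith
  have hYε : 1 ≤ Y ^ ε := Real.one_le_rpow hY hε.le
  set τ := tt θ e1 e2 with hτdef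
  have hτ : Function.Injective τ := tt_injective hg hsl
  have hne1 : ∀ σ, ev e1 (θ σ) ≠ 0 := ev_ne_zero4 hg hsl.ne1
  by_cases ha1 : G.natDegree = 1
  · right
    intro S hS _ hinj
    have h1 := hsec Y P hY hYP e1 e2 hsl.le1 hsl.le2 G hG.ne_zero
      ⟨ha1.le, hGb.2.1, hGb.2.2⟩ S hS hinj
    refine h1.trans (mul_le_mul_of_nonneg_right ?_ (by linarith))
    exact le_max_of_le_left (le_max_left _ _)
  have ha2 : 2 ≤ G.natDegree := by omega
  have hGQ := Bez.irreducible_map_rat hG (by omega)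
  have hdegQ : (G.map (mapRingHom (Int.castRingHom ℚ))).natDegree = G.natDegree :=
    natDegree_map_eq_of_injective
      (Polynomial.map_injective _ (RingHom.injective_int (Int.castRingHom ℚ))) G
  have hprim : (G.map (mapRingHom (Int.castRingHom ℚ))).IsPrimitive :=
    hGQ.isPrimitive (by rw [hdegQ]; omega)
  have hnd : ∀ i, ¬ C (X - C (τ i)) ∣ toC G := by
    intro i
    rw [toC_eq_mapk]
    exact WC.not_C_dvd_map hprim (τ i)
  obtain ⟨μ, hμa, hμ1, hμ2⟩ := exists_orders (θ := θ) (τ := τ) (g := toC G) hnd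
  have htoC0 : toC G ≠ 0 := fun h => hG.ne_zero (toC_injective (by rw [h]; simp [toC]))
  by_cases hcls : ∑ i, μ i + 2 ≤ (Bivariate.swap (toC G)).natDegree + 4 * G.natDegree
  · left
    refine ⟨ha2, ?_⟩
    intro s r hs hr b hb n x hx M hn hM
    exact exists_indep_mod hτ hg.inj htoC0 (by rw [natDegree_toC]; exact ha2) μ hμ1 hμ2 hμa
      (c := (Bivariate.swap (toC G)).natDegree + 4 * G.natDegree - ∑ i, μ i) (by omega)
      (by rw [natDegree_toC]; omega) s r hs hr b hb x hx M hn hM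
  right
  intro S hS _ hinj
  by_cases hbal : Bal τ θ
  swap
  · exfalso
    obtain ⟨x, hx0, hx⟩ := exists_unbal hg hne1 hbal
    refine no_pair hG ha2 hτ hμ1 (D := 3) (Apol 3 x) (Bpol 3 x) (pair_ne_zero 3 hx0)
      (natDegree_Apol 3 x) (natDegree_Bpol 3 x) hx ?_
    omega
  rcases lt_or_ge Y 2 with hY2 | hY2
  · have h9 : S.card ≤ 9 := card_le_nine (fun z hz => by
      have h1 := (hS z hz).1.2.upper
      linarith) hinj
    have h9' : (S.card : ℝ) ≤ 9 := by exact_mod_cast h9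
    have h10 : (9 : ℝ) ≤ max (max C1 C2) 9 := le_max_right _ _
    nlinarith
  -- the pencil
  have hrq : ∀ m : ℕ, Y ^ (m : ℝ) = Y ^ m := fun m => Real.rpow_natCast Y m
  have hYA : Y ^ A ≤ Y ^ q := by
    rw [← hrq]
    apply Real.rpow_le_rpow_of_exponent_le hY
    exact (le_abs_self A).trans (Nat.le_ceil _)
  have hT1 : 1 ≤ Y ^ A := by
    obtain ⟨j, hj⟩ : ∃ j, e1 j ≠ 0 := by
      by_contra hcon
      push Not at hcon
      exact hsl.ne1 (funext hcon)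
    refine le_trans ?_ (hsl.le1 j)
    have : 1 ≤ |e1 j| := Int.one_le_abs hj
    exact_mod_cast this
  obtain ⟨x, y, hxb, hyb, hxd, hyd, hΔ, hA2⟩ := hpen e1 e2 (Y ^ A) hT1 hsl.le1 hsl.le2 hne1 hτ hbal
  have hTκ : K1 * (Y ^ A) ^ κ ≤ K1 * Y ^ (q * κ) := by
    apply mul_le_mul_of_nonneg_left _ (by linarith)
    rw [pow_mul]
    exact pow_le_pow_left₀ (by linarith) hYA κ
  have hKK0 : 0 ≤ K1 * (Y ^ A) ^ κ := by
    have : (0 : ℝ) ≤ (Y ^ A) ^ κ := pow_nonneg (by linarith) κ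
    nlinarith
  set E1 : ℤ[X][X] := C (Apol 4 x) * X + C (Bpol 4 x) with hE1
  set E2 : ℤ[X][X] := C (Apol 4 y) * X + C (Bpol 4 y) with hE2
  have hb1 : Bdd 1 4 (K1 * Y ^ (q * κ)) E1 :=
    Bdd_pair (natDegree_Apol 4 x) (natDegree_Bpol 4 x)
      (fun j => (abs_coeff_Apol hKK0 hxb j).trans hTκ)
      (fun j => (abs_coeff_Bpol hKK0 hxb j).trans hTκ)
  have hb2 : Bdd 1 4 (K1 * Y ^ (q * κ)) E2 :=
    Bdd_pair (natDegree_Apol 4 y) (natDegree_Bpol 4 y)
      (fun j => (abs_coeff_Apol hKK0 hyb j).trans hTκ)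
      (fun j => (abs_coeff_Bpol hKK0 hyb j).trans hTκ)
  obtain ⟨c, hc0, Q, hid⟩ := class_one_identity hτ hbal hG.ne_zero hμ1
    (fun i => by have := hμa i; rwa [natDegree_toC] at this) (by omega)
    (natDegree_Apol 4 x) (natDegree_Bpol 4 x) (natDegree_Apol 4 y) (natDegree_Bpol 4 y)
    hxd hyd hΔ hA2
  -- sizes of the rows
  set Qy : ℝ := 2 * Y ^ (q + 1) with hQy
  have hpow1 : ∀ m : ℕ, (1 : ℝ) ≤ Y ^ m := fun m => one_le_pow₀ hY
  have hQy1 : 1 ≤ Qy := by have := hpow1 (q + 1); linarith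
  have hYq : Y ^ q ≤ Qy := by
    have : Y ^ q ≤ Y ^ (q + 1) := pow_le_pow_right₀ hY (by omega)
    have h2 := hpow1 (q + 1)
    linarith
  have hYQ : 2 * Y ≤ Qy := by
    have : Y ^ 1 ≤ Y ^ (q + 1) := pow_le_pow_right₀ hY (by omega)
    rw [pow_one] at this
    linarith
  have hhev : ∀ E : ℤ[X][X], Bdd 1 4 (K1 * Y ^ (q * κ)) E → ∀ z ∈ S,
      |((hev 4 E z.u z.v z.n : ℤ) : ℝ)| ≤ (320 * K1) * Y ^ (q * κ + 5 * (q + 1)) := by
    intro E hE z hz
    obtain ⟨h1, h2, h3, h4⟩ := hS z hz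
    have h5 := abs_hev_le_real 4 E _ Qy hE.2.2 z.u z.v z.n hQy1 (h3.trans (hYA.trans hYq))
      (h4.trans (hYA.trans hYq)) (h1.2.upper.le.trans hYQ)
    refine h5.trans ?_
    have h6 : (E.natDegree : ℝ) + 1 ≤ 2 := by
      have : (E.natDegree : ℝ) ≤ 1 := by exact_mod_cast hE.1
      linarith
    have h7 : Qy ^ (4 + E.natDegree) ≤ Qy ^ 5 :=
      pow_le_pow_right₀ hQy1 (by have := hE.1; omega)
    have h8 : (0 : ℝ) ≤ K1 * Y ^ (q * κ) := by positivity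
    calc ((E.natDegree : ℝ) + 1) * (((4 : ℕ) : ℝ) + 1) * (K1 * Y ^ (q * κ)) * Qy ^ (4 + E.natDegree)
        ≤ 2 * (((4 : ℕ) : ℝ) + 1) * (K1 * Y ^ (q * κ)) * Qy ^ 5 := by
          gcongr
      _ = (320 * K1) * Y ^ (q * κ + 5 * (q + 1)) := by
          rw [hQy, mul_pow, ← pow_mul, pow_add]
          push_cast
          rw [mul_comm (q + 1) 5]
          ring
  set M1 : ℝ := (320 * K1) * Y ^ (q * κ + 5 * (q + 1)) with hM1
  have hM1' : 1 ≤ M1 := by
    have := hpow1 (q * κ + 5 * (q + 1))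
    nlinarith
  set B : ℝ := K2 * Y ^ κ2 with hB
  have hBeq : Qy * M1 ^ a = B := by
    rw [hQy, hM1, hB, hK2, hκ2, mul_pow, ← pow_mul, pow_add, mul_comm _ a]
    ring
  have hrow : ∀ z ∈ S, ∀ l ≤ a, ∀ w : ℤ, |(w : ℝ)| ≤ Qy →
      |((w * (hev 4 E1 z.u z.v z.n ^ l * hev 4 E2 z.u z.v z.n ^ (a - l)) : ℤ) : ℝ)| ≤ B := by
    intro z hz l hl w hw
    push_cast
    rw [abs_mul, abs_mul, abs_pow, abs_pow, ← hBeq]
    have h1 : |((hev 4 E1 z.u z.v z.n : ℤ) : ℝ)| ^ l ≤ M1 ^ l :=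
      pow_le_pow_left₀ (abs_nonneg _) (hhev E1 hb1 z hz) l
    have h2 : |((hev 4 E2 z.u z.v z.n : ℤ) : ℝ)| ^ (a - l) ≤ M1 ^ (a - l) :=
      pow_le_pow_left₀ (abs_nonneg _) (hhev E2 hb2 z hz) (a - l)
    have h3 : M1 ^ a = M1 ^ l * M1 ^ (a - l) := by
      rw [← pow_add]; congr 1; omega
    rw [h3]
    have hM0 : (0 : ℝ) ≤ M1 := by linarith
    exact mul_le_mul hw (mul_le_mul h1 h2 (by positivity) (by positivity)) (by positivity)
      (by linarith)
  have hB1 : 1 ≤ B := by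
    have := hpow1 κ2
    nlinarith
  have ha' : G.natDegree ≤ a := hGb.1
  obtain ⟨lam, mu, hlam, hmu, hne, hrel⟩ := exists_int_identity ha' (E1 := E1) (E2 := E2)
    hb1.2.1 hb2.2.1 hc0 hid S (fun z hz => ⟨(hS z hz).1.1, (hS z hz).2.1⟩) B hB1 (by
      intro z hz l hl
      obtain ⟨h1, h2, h3, h4⟩ := hS z hz
      exact ⟨hrow z hz l hl z.v (h4.trans (hYA.trans hYq)),
        hrow z hz l hl z.u (h3.trans (hYA.trans hYq))⟩)
  have hsize : (((2 * (a + 1) : ℕ) : ℝ) * B) ^ (2 * (a + 1)) = K3 * Y ^ κ3 := by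
    rw [hB, hK3, hκ3, pow_mul Y κ2 (2 * (a + 1)), ← mul_pow]
    congr 1
    ring
  -- comparison with `Y ^ A'`
  have h2N : (2 : ℝ) ^ N ≤ Y ^ N := pow_le_pow_left₀ (by norm_num) hY2 N
  have hK1N : K1 ≤ Y ^ N := by
    have : K1 ≤ K1 * K3 := le_mul_of_one_le_right (by linarith) hK3'
    linarith
  have hK3N : K3 ≤ Y ^ N := by
    have : K3 ≤ K1 * K3 := le_mul_of_one_le_left (by linarith) hK1
    linarith
  have hYA' : Y ^ A ≤ Y ^ (A' : ℝ) := by
    rw [hrq]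
    exact hYA.trans (pow_le_pow_right₀ hY (by omega))
  have hcA' : K1 * Y ^ (q * κ) ≤ Y ^ (A' : ℝ) := by
    rw [hrq]
    calc K1 * Y ^ (q * κ) ≤ Y ^ N * Y ^ (q * κ) :=
          mul_le_mul_of_nonneg_right hK1N (by positivity)
      _ = Y ^ (N + q * κ) := by rw [pow_add]
      _ ≤ Y ^ A' := pow_le_pow_right₀ hY (by omega)
  have hlA' : K3 * Y ^ κ3 ≤ Y ^ (A' : ℝ) := by
    rw [hrq]
    calc K3 * Y ^ κ3 ≤ Y ^ N * Y ^ κ3 :=
          mul_le_mul_of_nonneg_right hK3N (by positivity)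
      _ = Y ^ (N + κ3) := by rw [pow_add]
      _ ≤ Y ^ A' := pow_le_pow_right₀ hY (by omega)
  have hres := hpc Y P hY hYP e1 e2 (fun j => (hsl.le1 j).trans hYA')
    (fun j => (hsl.le2 j).trans hYA') E1 E2
    ⟨hb1.1, hb1.2.1, fun l j => (hb1.2.2 l j).trans hcA'⟩
    ⟨hb2.1, hb2.2.1, fun l j => (hb2.2.2 l j).trans hcA'⟩
    (by
      rw [hE1, hE2, coeff_pair, coeff_pair, coeff_pair, coeff_pair]
      simpa using hΔ)
    lam mu (fun l => (hlam l).trans (by rw [hsize]; exact hlA'))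
    (fun l => (hmu l).trans (by rw [hsize]; exact hlA')) hne S
    (fun z hz => ⟨(hS z hz).1, hrel z hz, (hS z hz).2.2.1.trans hYA',
      (hS z hz).2.2.2.trans hYA'⟩) hinj
  refine hres.trans (mul_le_mul_of_nonneg_right ?_ (by linarith))
  exact le_max_of_le_left (le_max_right _ _)

end Pool.Agent.Lib.SQF
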