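import Mathlib

/-!
# SQF (MP_8842b2_nt): common definitions

`pol a` is the integer polynomial with coefficient vector `a`, `ev a z` its value at `z`.
`IsSol` collects what S2 (`balanced`) gives for one pair `(n, p)` in a window
`Y ≤ |n| < 2Y`, `P ≤ p < 2P`.  `OnSlice` says that a vector is `u e + v f`.
-/

set_option autoImplicit false

namespace Pool.Agent.Lib.SQF

open Polynomial

noncomputable section

/-- the polynomial with coefficient vector `a` -/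
def pol {d : ℕ} (a : Fin d → ℤ) : ℤ[X] := ∑ i : Fin d, C (a i) * X ^ (i : ℕ)

/-- its value at a complex number -/
def ev {d : ℕ} (a : Fin d → ℤ) (z : ℂ) : ℂ := ∑ i : Fin d, (a i : ℂ) * z ^ (i : ℕ)

/-- the output of S2 for one pair `(n, p)`, `g` monic of degree `d`, `H = P ^ (1/d)`:
`α ^ 2 β = m ^ 2 (n - θ)` with `α`, `β` balanced at all roots -/
structure IsSol (d : ℕ) (g : ℤ[X]) (K Y P : ℝ) (n : ℤ) (p : ℕ) (α β : Fin d → ℤ) (m : ℤ) :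
    Prop where
  lower : Y ≤ |(n : ℝ)|
  upper : |(n : ℝ)| < 2 * Y
  prime : p.Prime
  ple : P ≤ p
  plt : (p : ℝ) < 2 * P
  sq_dvd : (p : ℤ) ^ 2 ∣ g.eval n
  m_ne : m ≠ 0
  m_le : |(m : ℝ)| ≤ K
  eqn : g ∣ pol α ^ 2 * pol β - C (m ^ 2) * (C n - X)
  dvd_eval : (p : ℤ) ∣ (pol α).eval n
  res : resultant g (pol α) d d = p * m
  not_dvd : ¬ (p : ℤ) ∣ m
  coeffα : ∀ i, |((α i : ℤ) : ℝ)| ≤ K * P ^ ((1 : ℝ) / d)
  coeffβ : ∀ i, |((β i : ℤ) : ℝ)| * (P ^ ((1 : ℝ) / d)) ^ 2 ≤ K * Y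
  lowα : ∀ z : ℂ, aeval z g = 0 → P ^ ((1 : ℝ) / d) ≤ K * ‖ev α z‖
  uppα : ∀ z : ℂ, aeval z g = 0 → ‖ev α z‖ ≤ K * P ^ ((1 : ℝ) / d)
  lowβ : ∀ z : ℂ, aeval z g = 0 → Y ≤ K * (‖ev β z‖ * (P ^ ((1 : ℝ) / d)) ^ 2)
  uppβ : ∀ z : ℂ, aeval z g = 0 → ‖ev β z‖ * (P ^ ((1 : ℝ) / d)) ^ 2 ≤ K * Y

/-- `a = u e + v f` -/
def OnSlice {d : ℕ} (e f : Fin d → ℤ) (a : Fin d → ℤ) (u v : ℤ) : Prop :=
  ∀ i, a i = u * e i + v * f i

end

lemma aeval_pol {d : ℕ} (a : Fin d → ℤ) (z : ℂ) : aeval z (pol a) = ev a z := by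
  simp [pol, ev, map_sum, mul_comm]

lemma ev_slice {d : ℕ} {e f a : Fin d → ℤ} {u v : ℤ} (h : OnSlice e f a u v) (z : ℂ) :
    ev a z = u * ev e z + v * ev f z := by
  simp only [ev, h _, Finset.mul_sum, ← Finset.sum_add_distrib]
  refine Finset.sum_congr rfl fun i _ => ?_
  push_cast
  ring

/-- the identity `α² β = m² (n - z)` at a root `z` of `g` -/
lemma IsSol.eq_at {d : ℕ} {g : ℤ[X]} {K Y P : ℝ} {n : ℤ} {p : ℕ} {α β : Fin d → ℤ} {m : ℤ}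
    (h : IsSol d g K Y P n p α β m) {z : ℂ} (hz : aeval z g = 0) :
    ev α z ^ 2 * ev β z = (m : ℂ) ^ 2 * ((n : ℂ) - z) := by
  obtain ⟨q, hq⟩ := h.eqn
  have h1 := congrArg (aeval z) hq
  rw [map_mul, hz, zero_mul] at h1
  simp only [map_sub, map_mul, map_pow, aeval_C, aeval_X, aeval_pol] at h1
  have h2 := sub_eq_zero.1 h1
  rw [h2]
  simp

end Pool.Agent.Lib.SQF
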