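import Mathlib

/-!
# Independence of the forms of bidegree `(i,s)` on the alpha-slices

Section S4 of the paper on squarefree values of quartics. In `k[X][X]` the outer variable is `n`
and the inner variable is `t`. The four polynomials
`X_i = (n - θ_i) * prod_{l <> i} (t - t_l)^2` are, up to the common factor `prod_l (t - t_l)^2`,
the conjugates of `beta` on the slice. Main result `le_finrank_tA_mul_vA_pow`: the forms
`t^a * X^m`, `a ≤ i`, `|m| = s`, span a space of dimension at least `(s+1)(2s+1+i)`.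
-/

set_option autoImplicit false

open Polynomial Pointwise

namespace Pool.Agent.Lib.SQF

variable {k : Type*} [Field k]

/-- The polynomial `(n - θ_i) * prod_{l <> i} (t - t_l)^2`. -/
noncomputable def xA (θ t : Fin 4 → k) (i : Fin 4) : k[X][X] :=
  (X - C (C (θ i))) * C (∏ l ∈ Finset.univ.erase i, (X - C (t l)) ^ 2)

/-- The span of `1, t, ..., t^i`. -/
noncomputable def tA (k : Type*) [Field k] (i : ℕ) : Submodule k k[X][X] :=
  Submodule.span k {F | ∃ a ≤ i, F = C (X ^ a)}

/-- The span of the four polynomials `xA`. -/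
noncomputable def vA (θ t : Fin 4 → k) : Submodule k k[X][X] :=
  Submodule.span k (Set.range (xA θ t))

/-- Inner independence: over a commutative ring in which `a - b` is a unit, the polynomials
`(n - a)^j (n - b)^(K-j)` are independent. -/
lemma inner_indep {S : Type*} [CommRing S] (a b : S) (hab : IsUnit (a - b)) (K : ℕ) (c : ℕ → S)
    (h : ∑ j ∈ Finset.range (K + 1), C (c j) * ((X - C a) ^ j * (X - C b) ^ (K - j)) = 0) :
    ∀ j ≤ K, c j = 0 := by
  induction K generalizing c with
  | zero =>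
    intro j hj
    obtain rfl : j = 0 := by omega
    have := h
    simp at this
    exact this
  | succ K ih =>
    have h0 : c 0 = 0 := by
      have := congrArg (Polynomial.eval a) h
      rw [Polynomial.eval_finsetSum, Finset.sum_range_succ'] at this
      simp at this
      have h2 : c 0 * (a - b) ^ (K + 1) = 0 := by
        simpa using this
      exact (hab.pow (K + 1)).mul_left_eq_zero.mp h2
    have h1 : ∑ j ∈ Finset.range (K + 1), C (c (j + 1)) * ((X - C a) ^ j * (X - C b) ^ (K - j)) = 0 := by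
      have hm : (X - C a) * ∑ j ∈ Finset.range (K + 1),
          C (c (j + 1)) * ((X - C a) ^ j * (X - C b) ^ (K - j)) = 0 := by
        rw [Finset.sum_range_succ', h0] at h
        rw [Finset.mul_sum]
        refine Eq.trans ?_ h
        simp only [map_zero, zero_mul, add_zero]
        apply Finset.sum_congr rfl
        intro j _
        have : K + 1 - (j + 1) = K - j := by omega
        rw [this]
        ring
      exact (Polynomial.monic_X_sub_C a).isRegular.left.mul_left_eq_zero_iff.mp hm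
    intro j hj
    rcases j with _ | j
    · exact h0
    · exact ih (fun j => c (j + 1)) h1 j (by omega)

/-- The key step: independence of the monomials `x_2^p x_3^q x_0^(s-p-q)`, `p + q < s`, modulo the
monomials `x_2^p x_3^q x_1^(s-p-q)`. -/
lemma key_step (D a0 a1 a2 a3 : k[X]) (hD : D.natDegree = 2) (h0 : IsCoprime a0 D)
    (h2 : IsCoprime a2 D) (h3 : IsCoprime a3 D) (θ0 θ1 θ2 θ3 : k) (h23 : θ2 ≠ θ3) (s : ℕ)
    (P Q : ℕ → ℕ → k[X]) (hP : ∀ p q, p + q < s → (P p q).natDegree ≤ 1)
    (h : ∑ r ∈ Finset.range (s + 1), ∑ p ∈ Finset.range (r + 1),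
      (C (P p (r - p)) * (((X - C (C θ2)) * C (D * a2)) ^ p * ((X - C (C θ3)) * C (D * a3)) ^ (r - p) *
          ((X - C (C θ0)) * C a0) ^ (s - r)) +
        C (Q p (r - p)) * (((X - C (C θ2)) * C (D * a2)) ^ p * ((X - C (C θ3)) * C (D * a3)) ^ (r - p) *
          ((X - C (C θ1)) * C (D * a1)) ^ (s - r))) = 0) :
    ∀ r < s, ∀ p ≤ r, P p (r - p) = 0 := by
  have hD0 : D ≠ 0 := by
    intro h; rw [h] at hD; simp at hD
  intro r
  induction r using Nat.strong_induction_on with
  | _ r ih =>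
  intro hrs
  have hg : (C D : k[X][X]) ^ r * (∑ r' ∈ Finset.range (s + 1), ∑ p ∈ Finset.range (r' + 1),
      ((if r' < r then 0 else C D ^ (r' - r) * (C (P p (r' - p)) * (((X - C (C θ2)) * C a2) ^ p *
        ((X - C (C θ3)) * C a3) ^ (r' - p) * ((X - C (C θ0)) * C a0) ^ (s - r')))) +
        C D ^ (s - r) * (C (Q p (r' - p)) * (((X - C (C θ2)) * C a2) ^ p *
          ((X - C (C θ3)) * C a3) ^ (r' - p) * ((X - C (C θ1)) * C a1) ^ (s - r'))))) = 0 := by
    refine Eq.trans ?_ h
    rw [Finset.mul_sum]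
    apply Finset.sum_congr rfl
    intro r' hr'
    rw [Finset.mem_range] at hr'
    rw [Finset.mul_sum]
    apply Finset.sum_congr rfl
    intro p hp
    rw [Finset.mem_range] at hp
    rw [mul_add]
    refine congrArg₂ (· + ·) ?_ ?_
    · split_ifs with hc
      · rw [ih r' hc (by omega) p (by omega)]
        simp
      · have e1 : (C D : k[X][X]) ^ r * (C D ^ (r' - r) * (C (P p (r' - p)) * (((X - C (C θ2)) * C a2) ^ p *
            ((X - C (C θ3)) * C a3) ^ (r' - p) * ((X - C (C θ0)) * C a0) ^ (s - r'))))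
            = (C D ^ r * C D ^ (r' - r)) * (C (P p (r' - p)) * (((X - C (C θ2)) * C a2) ^ p *
            ((X - C (C θ3)) * C a3) ^ (r' - p) * ((X - C (C θ0)) * C a0) ^ (s - r'))) := by ring
        rw [e1, ← pow_add]
        have e2 : r + (r' - r) = p + (r' - p) := by omega
        rw [e2, pow_add]
        simp only [map_mul, mul_pow]
        ring
    · have e1 : (C D : k[X][X]) ^ r * (C D ^ (s - r) * (C (Q p (r' - p)) * (((X - C (C θ2)) * C a2) ^ p *
            ((X - C (C θ3)) * C a3) ^ (r' - p) * ((X - C (C θ1)) * C a1) ^ (s - r'))))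
            = (C D ^ r * C D ^ (s - r)) * (C (Q p (r' - p)) * (((X - C (C θ2)) * C a2) ^ p *
            ((X - C (C θ3)) * C a3) ^ (r' - p) * ((X - C (C θ1)) * C a1) ^ (s - r'))) := by ring
      rw [e1, ← pow_add]
      have e2 : r + (s - r) = p + (r' - p) + (s - r') := by omega
      rw [e2, pow_add, pow_add]
      simp only [map_mul, mul_pow]
      ring
  have hg0 := (mul_eq_zero.mp hg).resolve_left (pow_ne_zero _ (by simpa using hD0))
  set φ : k[X] →+* k[X] ⧸ Ideal.span {D} := Ideal.Quotient.mk (Ideal.span {D}) with hφ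
  have hφD : φ D = 0 := by
    rw [hφ, Ideal.Quotient.eq_zero_iff_mem]
    exact Ideal.mem_span_singleton_self D
  have hmap := congrArg (Polynomial.mapRingHom φ) hg0
  rw [map_zero, map_sum] at hmap
  rw [Finset.sum_eq_single_of_mem r (by simp; omega)] at hmap
  · rw [map_sum] at hmap
    have hcop : ∀ a : k[X], IsCoprime a D → IsUnit (φ a) := by
      intro a ha
      obtain ⟨u, v, huv⟩ := ha
      have : φ u * φ a = 1 := by
        have := congrArg φ huv
        simpa [hφD] using this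
      exact IsUnit.of_mul_eq_one_right _ this
    have h3' : ∑ p ∈ Finset.range (r + 1), C (φ (P p (r - p)) * (φ a2 ^ p * φ a3 ^ (r - p)
        * φ a0 ^ (s - r))) * ((X - C (φ (C θ2))) ^ p * (X - C (φ (C θ3))) ^ (r - p)) = 0 := by
      have hmon : ((X - C (φ (C θ0))) ^ (s - r) : (k[X] ⧸ Ideal.span {D})[X]) *
          ∑ p ∈ Finset.range (r + 1), C (φ (P p (r - p)) * (φ a2 ^ p * φ a3 ^ (r - p)
          * φ a0 ^ (s - r))) * ((X - C (φ (C θ2))) ^ p * (X - C (φ (C θ3))) ^ (r - p)) = 0 := by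
        refine Eq.trans ?_ hmap
        rw [Finset.mul_sum]
        apply Finset.sum_congr rfl
        intro p hp
        have hs : s - r ≠ 0 := by omega
        simp only [lt_irrefl, if_false, Nat.sub_self, pow_zero, one_mul, map_add, map_mul, map_pow,
          Polynomial.coe_mapRingHom, Polynomial.map_sub, mul_pow,
          Polynomial.map_X, Polynomial.map_C, hφD, map_zero, zero_pow hs, zero_mul, add_zero]
        ring
      exact ((Polynomial.monic_X_sub_C (φ (C θ0))).pow (s - r)).isRegular.left.mul_left_eq_zero_iff.mp hmon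
    have hunit : IsUnit (φ (C θ2) - φ (C θ3)) := by
      rw [← map_sub, ← map_sub]
      exact (((isUnit_iff_ne_zero.mpr (sub_ne_zero.mpr h23)).map (C : k →+* k[X])).map φ)
    intro p hp
    have h5 := inner_indep _ _ hunit r _ h3' p hp
    have hu : IsUnit (φ a2 ^ p * φ a3 ^ (r - p) * φ a0 ^ (s - r)) :=
      (((hcop a2 h2).pow p).mul ((hcop a3 h3).pow (r - p))).mul ((hcop a0 h0).pow (s - r))
    have h6 : φ (P p (r - p)) = 0 := (hu.mul_left_eq_zero).mp h5
    rw [hφ, Ideal.Quotient.eq_zero_iff_mem, Ideal.mem_span_singleton] at h6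
    by_contra hne
    have := Polynomial.natDegree_le_of_dvd h6 hne
    have := hP p (r - p) (by omega)
    omega
  · intro r' hr' hne
    rw [Finset.mem_range] at hr'
    rw [map_sum]
    apply Finset.sum_eq_zero
    intro p hp
    have hs : s - r ≠ 0 := by omega
    by_cases hc : r' < r
    · simp [hc, hφD, zero_pow hs]
    · have hs2 : r' - r ≠ 0 := by omega
      simp [hc, hφD, zero_pow hs, zero_pow hs2]

lemma coprime_sq {a b : k} (h : a ≠ b) : IsCoprime ((X - C a) ^ 2 : k[X]) ((X - C b) ^ 2) := by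
  apply IsCoprime.pow
  exact Polynomial.isCoprime_X_sub_C_of_isUnit_sub (isUnit_iff_ne_zero.mpr (sub_ne_zero.mpr h))

lemma xA_zero (θ t : Fin 4 → k) : xA θ t 0 = (X - C (C (θ 0))) *
    C ((X - C (t 1)) ^ 2 * ((X - C (t 2)) ^ 2 * (X - C (t 3)) ^ 2)) := by
  have : (Finset.univ.erase (0 : Fin 4)) = {1, 2, 3} := by decide
  rw [xA, this]
  simp [Finset.prod_insert]

lemma xA_one (θ t : Fin 4 → k) : xA θ t 1 = (X - C (C (θ 1))) *
    C ((X - C (t 0)) ^ 2 * ((X - C (t 2)) ^ 2 * (X - C (t 3)) ^ 2)) := by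
  have : (Finset.univ.erase (1 : Fin 4)) = {0, 2, 3} := by decide
  rw [xA, this]
  simp [Finset.prod_insert]

lemma xA_two (θ t : Fin 4 → k) : xA θ t 2 = (X - C (C (θ 2))) *
    C ((X - C (t 0)) ^ 2 * ((X - C (t 1)) ^ 2 * (X - C (t 3)) ^ 2)) := by
  have : (Finset.univ.erase (2 : Fin 4)) = {0, 1, 3} := by decide
  rw [xA, this]
  simp [Finset.prod_insert]

lemma xA_three (θ t : Fin 4 → k) : xA θ t 3 = (X - C (C (θ 3))) *
    C ((X - C (t 0)) ^ 2 * ((X - C (t 1)) ^ 2 * (X - C (t 2)) ^ 2)) := by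
  have : (Finset.univ.erase (3 : Fin 4)) = {0, 1, 2} := by decide
  rw [xA, this]
  simp [Finset.prod_insert]

/-- Lemma A of the paper in polynomial form. -/
theorem indepA (θ t : Fin 4 → k) (hθ : Function.Injective θ) (ht : Function.Injective t) (s : ℕ)
    (P Q : ℕ → ℕ → k[X]) (hP : ∀ p q, p + q < s → (P p q).natDegree ≤ 1)
    (hQ : ∀ p q, p + q < s → (Q p q).natDegree ≤ 1)
    (h : ∑ r ∈ Finset.range (s + 1), ∑ p ∈ Finset.range (r + 1),
        C (P p (r - p)) * (xA θ t 2 ^ p * xA θ t 3 ^ (r - p) * xA θ t 0 ^ (s - r)) +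
      ∑ r ∈ Finset.range s, ∑ p ∈ Finset.range (r + 1),
        C (Q p (r - p)) * (xA θ t 2 ^ p * xA θ t 3 ^ (r - p) * xA θ t 1 ^ (s - r)) = 0) :
    (∀ r ≤ s, ∀ p ≤ r, P p (r - p) = 0) ∧ (∀ r < s, ∀ p ≤ r, Q p (r - p) = 0) := by
  have t01 : t 0 ≠ t 1 := fun h => by simpa using ht h
  have t02 : t 0 ≠ t 2 := fun h => by simpa using ht h
  have t03 : t 0 ≠ t 3 := fun h => by simpa using ht h
  have t12 : t 1 ≠ t 2 := fun h => by simpa using ht h
  have t13 : t 1 ≠ t 3 := fun h => by simpa using ht h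
  have h23 : θ 2 ≠ θ 3 := fun h => by simpa using hθ h
  set Q' : ℕ → ℕ → k[X] := fun p q => if p + q < s then Q p q else 0 with hQ'
  have hsum : ∑ r ∈ Finset.range (s + 1), ∑ p ∈ Finset.range (r + 1),
      (C (P p (r - p)) * (xA θ t 2 ^ p * xA θ t 3 ^ (r - p) * xA θ t 0 ^ (s - r)) +
        C (Q' p (r - p)) * (xA θ t 2 ^ p * xA θ t 3 ^ (r - p) * xA θ t 1 ^ (s - r))) = 0 := by
    refine Eq.trans ?_ h
    simp only [Finset.sum_add_distrib]
    refine congrArg₂ (· + ·) rfl ?_
    rw [Finset.sum_range_succ]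
    have hz : ∑ p ∈ Finset.range (s + 1),
        C (Q' p (s - p)) * (xA θ t 2 ^ p * xA θ t 3 ^ (s - p) * xA θ t 1 ^ (s - s)) = 0 := by
      apply Finset.sum_eq_zero
      intro p hp
      rw [Finset.mem_range] at hp
      have : ¬ (p + (s - p) < s) := by omega
      simp [hQ', this]
    rw [hz, add_zero]
    apply Finset.sum_congr rfl
    intro r hr
    rw [Finset.mem_range] at hr
    apply Finset.sum_congr rfl
    intro p hp
    rw [Finset.mem_range] at hp
    have : p + (r - p) < s := by omega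
    simp [hQ', this]
  have hD : ∀ a : k, ((X - C a) ^ 2 : k[X]).natDegree = 2 := by
    intro a
    rw [Polynomial.natDegree_pow, Polynomial.natDegree_X_sub_C]
  have hP0 := key_step ((X - C (t 0)) ^ 2)
    ((X - C (t 1)) ^ 2 * ((X - C (t 2)) ^ 2 * (X - C (t 3)) ^ 2))
    ((X - C (t 2)) ^ 2 * (X - C (t 3)) ^ 2)
    ((X - C (t 1)) ^ 2 * (X - C (t 3)) ^ 2)
    ((X - C (t 1)) ^ 2 * (X - C (t 2)) ^ 2) (hD _)
    ((coprime_sq t01.symm).mul_left ((coprime_sq t02.symm).mul_left (coprime_sq t03.symm)))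
    ((coprime_sq t01.symm).mul_left (coprime_sq t03.symm))
    ((coprime_sq t01.symm).mul_left (coprime_sq t02.symm))
    (θ 0) (θ 1) (θ 2) (θ 3) h23 s P Q' hP (by
      rw [← hsum]
      simp only [xA_zero, xA_one, xA_two, xA_three])
  have hQ'' : ∀ p q, p + q < s → (Q' p q).natDegree ≤ 1 := by
    intro p q hpq
    simp only [hQ', hpq, if_true]
    exact hQ p q hpq
  have hQ0 := key_step ((X - C (t 1)) ^ 2)
    ((X - C (t 0)) ^ 2 * ((X - C (t 2)) ^ 2 * (X - C (t 3)) ^ 2))
    ((X - C (t 2)) ^ 2 * (X - C (t 3)) ^ 2)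
    ((X - C (t 0)) ^ 2 * (X - C (t 3)) ^ 2)
    ((X - C (t 0)) ^ 2 * (X - C (t 2)) ^ 2) (hD _)
    ((coprime_sq t01).mul_left ((coprime_sq t12.symm).mul_left (coprime_sq t13.symm)))
    ((coprime_sq t01).mul_left (coprime_sq t13.symm))
    ((coprime_sq t01).mul_left (coprime_sq t12.symm))
    (θ 1) (θ 0) (θ 2) (θ 3) h23 s Q' P hQ'' (by
      rw [← hsum]
      simp only [xA_zero, xA_one, xA_two, xA_three]
      apply Finset.sum_congr rfl
      intro r _
      apply Finset.sum_congr rfl
      intro p _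
      rw [add_comm]
      have e2 : ((X - C (t 1)) ^ 2 * ((X - C (t 0)) ^ 2 * (X - C (t 3)) ^ 2) : k[X]) =
        (X - C (t 0)) ^ 2 * ((X - C (t 1)) ^ 2 * (X - C (t 3)) ^ 2) := by ring
      have e3 : ((X - C (t 1)) ^ 2 * ((X - C (t 0)) ^ 2 * (X - C (t 2)) ^ 2) : k[X]) =
        (X - C (t 0)) ^ 2 * ((X - C (t 1)) ^ 2 * (X - C (t 2)) ^ 2) := by ring
      rw [e2, e3])
  have hQ1 : ∀ r < s, ∀ p ≤ r, Q p (r - p) = 0 := by
    intro r hr p hp
    have := hQ0 r hr p hp
    have h2 : p + (r - p) < s := by omega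
    simpa [hQ', h2] using this
  refine ⟨?_, hQ1⟩
  intro r hr p hp
  rcases Nat.lt_or_ge r s with hrs | hrs
  · exact hP0 r hrs p hp
  · obtain rfl : r = s := by omega
    have hlast : ∑ p ∈ Finset.range (r + 1),
        C (P p (r - p)) * (xA θ t 2 ^ p * xA θ t 3 ^ (r - p)) = 0 := by
      have z1 : ∑ r' ∈ Finset.range r, ∑ p ∈ Finset.range (r' + 1),
          C (P p (r' - p)) * (xA θ t 2 ^ p * xA θ t 3 ^ (r' - p) * xA θ t 0 ^ (r - r')) = 0 := by
        apply Finset.sum_eq_zero
        intro r' hr'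
        rw [Finset.mem_range] at hr'
        apply Finset.sum_eq_zero
        intro p hp
        rw [Finset.mem_range] at hp
        rw [hP0 r' hr' p (by omega)]
        simp
      have z2 : ∑ r' ∈ Finset.range r, ∑ p ∈ Finset.range (r' + 1),
          C (Q p (r' - p)) * (xA θ t 2 ^ p * xA θ t 3 ^ (r' - p) * xA θ t 1 ^ (r - r')) = 0 := by
        apply Finset.sum_eq_zero
        intro r' hr'
        rw [Finset.mem_range] at hr'
        apply Finset.sum_eq_zero
        intro p hp
        rw [Finset.mem_range] at hp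
        rw [hQ1 r' hr' p (by omega)]
        simp
      rw [Finset.sum_range_succ, z1, z2, zero_add, add_zero] at h
      simpa using h
    set b2 : k[X] := (X - C (t 0)) ^ 2 * ((X - C (t 1)) ^ 2 * (X - C (t 3)) ^ 2) with hb2
    set b3 : k[X] := (X - C (t 0)) ^ 2 * ((X - C (t 1)) ^ 2 * (X - C (t 2)) ^ 2) with hb3
    have hl2 : ∑ p ∈ Finset.range (r + 1), C (P p (r - p) * (b2 ^ p * b3 ^ (r - p))) *
        ((X - C (C (θ 2))) ^ p * (X - C (C (θ 3))) ^ (r - p)) = 0 := by
      refine Eq.trans ?_ hlast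
      apply Finset.sum_congr rfl
      intro p _
      rw [xA_two, xA_three, ← hb2, ← hb3]
      simp only [map_mul, map_pow, mul_pow]
      ring
    have hunit : IsUnit (C (θ 2) - C (θ 3) : k[X]) := by
      rw [← map_sub]
      exact (isUnit_iff_ne_zero.mpr (sub_ne_zero.mpr h23)).map (C : k →+* k[X])
    have := inner_indep _ _ hunit r _ hl2 p hp
    have hne : b2 ^ p * b3 ^ (r - p) ≠ 0 := by
      have hX : ∀ a : k, (X - C a : k[X]) ≠ 0 := fun a => Polynomial.X_sub_C_ne_zero a
      rw [hb2, hb3]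
      exact mul_ne_zero (pow_ne_zero _ (mul_ne_zero (pow_ne_zero _ (hX _))
        (mul_ne_zero (pow_ne_zero _ (hX _)) (pow_ne_zero _ (hX _)))))
        (pow_ne_zero _ (mul_ne_zero (pow_ne_zero _ (hX _))
        (mul_ne_zero (pow_ne_zero _ (hX _)) (pow_ne_zero _ (hX _)))))
    exact (mul_eq_zero.mp this).resolve_right hne

/-- multiplication of a polynomial in `t` with a fixed element -/
noncomputable def embA (m : k[X][X]) : k[X] →ₗ[k] k[X][X] :=
  (LinearMap.mulRight k m) ∘ₗ (Polynomial.CAlgHom (R := k) (A := k[X])).toLinearMap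

lemma embA_apply (m : k[X][X]) (P : k[X]) : embA m P = C P * m := rfl

/-- a polynomial of degree `< n` from its coefficients -/
noncomputable def polyOf (k : Type*) [Field k] (n : ℕ) : (Fin n → k) →ₗ[k] k[X] :=
  (Polynomial.degreeLT k n).subtype ∘ₗ (Polynomial.degreeLTEquiv k n).symm.toLinearMap

lemma polyOf_mem (n : ℕ) (c : Fin n → k) : polyOf k n c ∈ Polynomial.degreeLT k n :=
  ((Polynomial.degreeLTEquiv k n).symm c).2

lemma polyOf_injective (n : ℕ) : Function.Injective (polyOf k n) :=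
  (Subtype.val_injective).comp (Polynomial.degreeLTEquiv k n).symm.injective

/-- the coefficient space -/
abbrev CoefA (k : Type*) (i s : ℕ) : Type _ :=
  ((r : Fin (s + 1)) → Fin (r + 1) → Fin (if (r : ℕ) < s then 2 else i + 1) → k) ×
  ((r : Fin s) → Fin (r + 1) → Fin 2 → k)

/-- the forms with given coefficients -/
noncomputable def formA (θ t : Fin 4 → k) (i s : ℕ) : CoefA k i s →ₗ[k] k[X][X] :=
  LinearMap.coprod
    (∑ r : Fin (s + 1), ∑ p : Fin (r + 1),
      (embA (xA θ t 2 ^ (p : ℕ) * xA θ t 3 ^ ((r : ℕ) - p) * xA θ t 0 ^ (s - r))) ∘ₗ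
        (polyOf k _) ∘ₗ (LinearMap.proj p) ∘ₗ (LinearMap.proj r))
    (∑ r : Fin s, ∑ p : Fin (r + 1),
      (embA (xA θ t 2 ^ (p : ℕ) * xA θ t 3 ^ ((r : ℕ) - p) * xA θ t 1 ^ (s - r))) ∘ₗ
        (polyOf k _) ∘ₗ (LinearMap.proj p) ∘ₗ (LinearMap.proj r))

lemma formA_apply (θ t : Fin 4 → k) (i s : ℕ) (c : CoefA k i s) :
    formA θ t i s c =
      ∑ r : Fin (s + 1), ∑ p : Fin (r + 1), C (polyOf k _ (c.1 r p)) *
        (xA θ t 2 ^ (p : ℕ) * xA θ t 3 ^ ((r : ℕ) - p) * xA θ t 0 ^ (s - r)) +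
      ∑ r : Fin s, ∑ p : Fin (r + 1), C (polyOf k _ (c.2 r p)) *
        (xA θ t 2 ^ (p : ℕ) * xA θ t 3 ^ ((r : ℕ) - p) * xA θ t 1 ^ (s - r)) := by
  simp [formA, embA_apply]

lemma natDegree_le_one_of_mem {P : k[X]} (h : P ∈ Polynomial.degreeLT k 2) : P.natDegree ≤ 1 := by
  rw [Polynomial.mem_degreeLT] at h
  by_cases hP : P = 0
  · simp [hP]
  · rw [Polynomial.degree_eq_natDegree hP] at h
    have : P.natDegree < 2 := by exact_mod_cast h
    omega

lemma formA_injective (θ t : Fin 4 → k) (hθ : Function.Injective θ) (ht : Function.Injective t)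
    (i s : ℕ) : Function.Injective (formA θ t i s) := by
  rw [injective_iff_map_eq_zero]
  intro c hc
  rw [formA_apply] at hc
  set F : ℕ → ℕ → k[X] := fun r p => if h : r < s + 1 ∧ p < r + 1 then
    polyOf k _ (c.1 ⟨r, h.1⟩ ⟨p, h.2⟩) else 0 with hF
  set G : ℕ → ℕ → k[X] := fun r p => if h : r < s ∧ p < r + 1 then
    polyOf k _ (c.2 ⟨r, h.1⟩ ⟨p, h.2⟩) else 0 with hG
  have hFr : ∀ (r : Fin (s + 1)) (p : Fin (r + 1)), F r p = polyOf k _ (c.1 r p) := by
    intro r p
    have : (r : ℕ) < s + 1 ∧ (p : ℕ) < r + 1 := ⟨r.2, p.2⟩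
    simp only [hF, this, and_self, dite_true]
  have hGr : ∀ (r : Fin s) (p : Fin (r + 1)), G r p = polyOf k _ (c.2 r p) := by
    intro r p
    have : (r : ℕ) < s ∧ (p : ℕ) < r + 1 := ⟨r.2, p.2⟩
    simp only [hG, this, and_self, dite_true]
  have key := indepA θ t hθ ht s (fun p q => F (p + q) p) (fun p q => G (p + q) p)
    (by
      intro p q hpq
      apply natDegree_le_one_of_mem
      show F (p + q) p ∈ _
      have h1 : p + q < s + 1 ∧ p < p + q + 1 := ⟨by omega, by omega⟩
      have e := hFr ⟨p + q, h1.1⟩ ⟨p, h1.2⟩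
      simp only at e
      rw [e]
      have hm := polyOf_mem _ (c.1 ⟨p + q, h1.1⟩ ⟨p, h1.2⟩)
      simpa [hpq] using hm)
    (by
      intro p q hpq
      apply natDegree_le_one_of_mem
      show G (p + q) p ∈ _
      have h1 : p + q < s ∧ p < p + q + 1 := ⟨by omega, by omega⟩
      have e := hGr ⟨p + q, h1.1⟩ ⟨p, h1.2⟩
      simp only at e
      rw [e]
      exact polyOf_mem _ _)
    (by
      refine Eq.trans ?_ hc
      rw [Finset.sum_range, Finset.sum_range]
      refine congrArg₂ (· + ·) ?_ ?_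
      · apply Finset.sum_congr rfl
        intro r _
        rw [Finset.sum_range]
        apply Finset.sum_congr rfl
        intro p _
        have hp : (p : ℕ) + (r - p) = r := by have := p.2; omega
        simp only [hp]
        rw [hFr]
      · apply Finset.sum_congr rfl
        intro r _
        rw [Finset.sum_range]
        apply Finset.sum_congr rfl
        intro p _
        have hp : (p : ℕ) + (r - p) = r := by have := p.2; omega
        simp only [hp]
        rw [hGr])
  obtain ⟨k1, k2⟩ := key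
  apply Prod.ext
  · funext r p
    have h1 := k1 r (by have := r.2; omega) p (by have := p.2; omega)
    have hp : (p : ℕ) + (r - p) = r := by have := p.2; omega
    simp only [hp] at h1
    rw [hFr] at h1
    have := polyOf_injective _ (h1.trans (map_zero (polyOf k _)).symm)
    exact this
  · funext r p
    have h1 := k2 r r.2 p (by have := p.2; omega)
    have hp : (p : ℕ) + (r - p) = r := by have := p.2; omega
    simp only [hp] at h1
    rw [hGr] at h1
    have := polyOf_injective _ (h1.trans (map_zero (polyOf k _)).symm)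
    exact this

lemma C_mem_tA (i : ℕ) {P : k[X]} (hP : P ∈ Polynomial.degreeLT k (i + 1)) : C P ∈ tA k i := by
  rw [Polynomial.mem_degreeLT] at hP
  have hn : P.natDegree < i + 1 := by
    by_cases h0 : P = 0
    · simp [h0]
    · rw [Polynomial.degree_eq_natDegree h0] at hP
      exact_mod_cast hP
  rw [P.as_sum_range_C_mul_X_pow, map_sum]
  apply Submodule.sum_mem
  intro j hj
  rw [Finset.mem_range] at hj
  have : (C (C (P.coeff j) * X ^ j) : k[X][X]) = P.coeff j • C (X ^ j) := by
    rw [← Polynomial.smul_eq_C_mul, ← Polynomial.smul_C]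
  rw [this]
  exact Submodule.smul_mem _ _ (Submodule.subset_span ⟨j, by omega, rfl⟩)

lemma xA_mem (θ t : Fin 4 → k) (j : Fin 4) : xA θ t j ∈ vA θ t :=
  Submodule.subset_span ⟨j, rfl⟩

lemma mon_mem (θ t : Fin 4 → k) (j : Fin 4) (s r p : ℕ) (hr : r ≤ s) (hp : p ≤ r) :
    xA θ t 2 ^ p * xA θ t 3 ^ (r - p) * xA θ t j ^ (s - r) ∈ vA θ t ^ s := by
  have e : s = p + (r - p) + (s - r) := by omega
  have h1 := Submodule.mul_mem_mul (Submodule.mul_mem_mul
    (Submodule.pow_mem_pow _ (xA_mem θ t 2) p) (Submodule.pow_mem_pow _ (xA_mem θ t 3) (r - p)))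
    (Submodule.pow_mem_pow _ (xA_mem θ t j) (s - r))
  rw [← pow_add, ← pow_add] at h1
  rw [← e] at h1
  exact h1

lemma formA_mem (θ t : Fin 4 → k) (i s : ℕ) (hi : 1 ≤ i) (c : CoefA k i s) :
    formA θ t i s c ∈ tA k i * vA θ t ^ s := by
  rw [formA_apply]
  apply Submodule.add_mem
  · apply Submodule.sum_mem
    intro r _
    apply Submodule.sum_mem
    intro p _
    apply Submodule.mul_mem_mul
    · apply C_mem_tA
      refine Polynomial.degreeLT_mono ?_ (polyOf_mem _ _)
      split_ifs <;> omega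
    · exact mon_mem θ t 0 s r p (by have := r.2; omega) (by have := p.2; omega)
  · apply Submodule.sum_mem
    intro r _
    apply Submodule.sum_mem
    intro p _
    apply Submodule.mul_mem_mul
    · apply C_mem_tA
      exact Polynomial.degreeLT_mono (by omega) (polyOf_mem _ _)
    · exact mon_mem θ t 1 s r p (by have := r.2; omega) (by have := p.2; omega)

lemma fg_tA (i : ℕ) : (tA k i).FG := by
  apply Submodule.fg_span
  have : {F : k[X][X] | ∃ a ≤ i, F = C (X ^ a)} = (fun a : ℕ => (C (X ^ a) : k[X][X])) '' Set.Iic i := by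
    ext F
    constructor
    · rintro ⟨a, ha, rfl⟩; exact ⟨a, ha, rfl⟩
    · rintro ⟨a, ha, rfl⟩; exact ⟨a, ha, rfl⟩
  rw [this]
  exact (Set.finite_Iic i).image _

lemma fg_vA (θ t : Fin 4 → k) : (vA θ t).FG :=
  Submodule.fg_span (Set.finite_range _)

lemma fg_forms (θ t : Fin 4 → k) (i s : ℕ) : (tA k i * vA θ t ^ s).FG :=
  (fg_tA i).mul ((fg_vA θ t).pow s)

lemma sum_two (s : ℕ) : ∑ r : Fin s, ((r : ℕ) + 1) * 2 = s * (s + 1) := by
  rw [Fin.sum_univ_eq_sum_range (fun r => (r + 1) * 2)]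
  induction s with
  | zero => simp
  | succ s ih => rw [Finset.sum_range_succ, ih]; ring

lemma finrank_coefA (i s : ℕ) : Module.finrank k (CoefA k i s) = (s + 1) * (2 * s + 1 + i) := by
  rw [Module.finrank_prod]
  simp only [Module.finrank_pi_fintype, Module.finrank_self, Finset.sum_const, Finset.card_univ,
    Fintype.card_fin, smul_eq_mul, mul_one]
  rw [sum_two, Fin.sum_univ_castSucc]
  have h1 : ∑ r : Fin s, (((Fin.castSucc r : Fin (s + 1)) : ℕ) + 1) *
      (if ((Fin.castSucc r : Fin (s + 1)) : ℕ) < s then 2 else i + 1) = s * (s + 1) := by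
    rw [← sum_two s]
    apply Finset.sum_congr rfl
    intro r _
    simp [r.2]
  rw [h1]
  simp
  ring

/-- **Lemma A**: the forms of bidegree `(i,s)` on an alpha-slice with pairwise distinct roots span
a space of dimension at least `(s+1)(2s+1+i)`. -/
theorem le_finrank_formsA (θ t : Fin 4 → k) (hθ : Function.Injective θ)
    (ht : Function.Injective t) (i s : ℕ) (hi : 1 ≤ i) :
    (s + 1) * (2 * s + 1 + i) ≤ Module.finrank k ↥(tA k i * vA θ t ^ s) := by
  have : Module.Finite k ↥(tA k i * vA θ t ^ s) := Module.Finite.iff_fg.mpr (fg_forms θ t i s)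
  rw [← finrank_coefA (k := k) i s]
  exact LinearMap.finrank_le_finrank_of_injective
    (f := (formA θ t i s).codRestrict _ (formA_mem θ t i s hi))
    (by
      intro a b hab
      apply formA_injective θ t hθ ht i s
      exact congrArg Subtype.val hab)

lemma mem_pow_range (b : Fin 4 → k[X][X]) (s : ℕ) (x : k[X][X]) (hx : x ∈ (Set.range b) ^ s) :
    ∃ m : Fin 4 → ℕ, ∑ j, m j = s ∧ x = ∏ j, b j ^ m j := by
  induction s generalizing x with
  | zero =>
    rw [pow_zero, Set.mem_one] at hx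
    exact ⟨fun _ => 0, by simp, by simp [hx]⟩
  | succ s ih =>
    rw [pow_succ, Set.mem_mul] at hx
    obtain ⟨y, hy, z, ⟨j, rfl⟩, rfl⟩ := hx
    obtain ⟨m, hm, rfl⟩ := ih y hy
    refine ⟨m + Pi.single j 1, ?_, ?_⟩
    · simp [Finset.sum_add_distrib, hm]
    · simp only [Pi.add_apply, pow_add, Finset.prod_mul_distrib]
      congr 1
      rw [Finset.prod_eq_single j]
      · simp
      · intro l _ hl
        simp [Pi.single_eq_of_ne hl]
      · simp

/-- If `b_0..b_3` span the same space as the `xA`, the monomials `t^a b^m`, `a ≤ i`, `|m| = s`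
span the space of forms. -/
lemma forms_le_span (θ t : Fin 4 → k) (b : Fin 4 → k[X][X])
    (hb : Submodule.span k (Set.range b) = vA θ t) (i s : ℕ) :
    tA k i * vA θ t ^ s = Submodule.span k {F : k[X][X] | ∃ a ≤ i, ∃ m : Fin 4 → ℕ,
      ∑ j, m j = s ∧ F = C (X ^ a) * ∏ j, b j ^ m j} := by
  apply le_antisymm
  · rw [← hb, Submodule.span_pow, tA, Submodule.span_mul_span]
    apply Submodule.span_mono
    intro F hF
    rw [Set.mem_mul] at hF
    obtain ⟨y, ⟨a, ha, rfl⟩, z, hz, rfl⟩ := hF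
    obtain ⟨m, hm, rfl⟩ := mem_pow_range b s z hz
    exact ⟨a, ha, m, hm, rfl⟩
  · rw [Submodule.span_le]
    rintro F ⟨a, ha, m, hm, rfl⟩
    apply Submodule.mul_mem_mul
    · exact Submodule.subset_span ⟨a, ha, rfl⟩
    · have hbj : ∀ j, b j ∈ vA θ t := fun j => by
        rw [← hb]; exact Submodule.subset_span ⟨j, rfl⟩
      have : ∏ j, b j ^ m j ∈ vA θ t ^ (∑ j, m j) := by
        rw [Fin.prod_univ_four, Fin.sum_univ_four, pow_add, pow_add, pow_add]
        exact Submodule.mul_mem_mul (Submodule.mul_mem_mul (Submodule.mul_mem_mul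
          (Submodule.pow_mem_pow _ (hbj 0) _) (Submodule.pow_mem_pow _ (hbj 1) _))
          (Submodule.pow_mem_pow _ (hbj 2) _)) (Submodule.pow_mem_pow _ (hbj 3) _)
      rwa [hm] at this

/-- Independent monomials in any four coordinates spanning the same space as the `xA`. -/
theorem exists_indep_monomials (θ t : Fin 4 → k) (hθ : Function.Injective θ)
    (ht : Function.Injective t) (b : Fin 4 → k[X][X])
    (hb : Submodule.span k (Set.range b) = vA θ t) (i s : ℕ) (hi : 1 ≤ i) :
    ∃ f : Fin ((s + 1) * (2 * s + 1 + i)) → ℕ × (Fin 4 → ℕ),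
      (∀ e, (f e).1 ≤ i ∧ ∑ j, (f e).2 j = s) ∧ Function.Injective f ∧
      LinearIndependent k (fun e => (C (X ^ (f e).1) * ∏ j, b j ^ (f e).2 j : k[X][X])) := by
  set S : Set k[X][X] := {F : k[X][X] | ∃ a ≤ i, ∃ m : Fin 4 → ℕ,
      ∑ j, m j = s ∧ F = C (X ^ a) * ∏ j, b j ^ m j} with hS
  have hspan := forms_le_span θ t b hb i s
  rw [← hS] at hspan
  have hN := le_finrank_formsA θ t hθ ht i s hi
  rw [hspan] at hN
  obtain ⟨B, hBS, hBspan, hBind⟩ := exists_linearIndependent k S
  have hfin : Module.Finite k ↥(Submodule.span k S) := by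
    rw [← hspan]; exact Module.Finite.iff_fg.mpr (fg_forms θ t i s)
  rw [← hBspan] at hN hfin
  have hBfin : B.Finite := by
    have h1 : LinearIndependent k (fun x : B => (⟨x.1, Submodule.subset_span x.2⟩ :
        Submodule.span k B)) := by
      apply LinearIndependent.of_comp (Submodule.span k B).subtype
      exact hBind
    have := h1.finite
    exact Set.toFinite B
  have hBF : Fintype B := hBfin.fintype
  have hcard : Module.finrank k ↥(Submodule.span k B) = Fintype.card B := by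
    have := finrank_span_eq_card hBind
    rw [Subtype.range_coe] at this
    exact this
  rw [hcard] at hN
  have hemb : Nonempty (Fin ((s + 1) * (2 * s + 1 + i)) ↪ B) := by
    apply Function.Embedding.nonempty_of_card_le
    simpa using hN
  obtain ⟨g⟩ := hemb
  have hch : ∀ x : B, ∃ q : ℕ × (Fin 4 → ℕ), (q.1 ≤ i ∧ ∑ j, q.2 j = s) ∧
      (x : k[X][X]) = C (X ^ q.1) * ∏ j, b j ^ q.2 j := by
    rintro ⟨x, hx⟩
    obtain ⟨a, ha, m, hm, hx'⟩ := hBS hx
    exact ⟨(a, m), ⟨ha, hm⟩, hx'⟩
  choose q hq hq' using hch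
  have hcomp : (fun e => (C (X ^ (q (g e)).1) * ∏ j, b j ^ (q (g e)).2 j : k[X][X])) =
      (fun e => ((g e : B) : k[X][X])) := by
    funext e
    exact (hq' (g e)).symm
  refine ⟨fun e => q (g e), fun e => hq (g e), ?_, ?_⟩
  · intro e e' h
    apply g.injective
    apply Subtype.ext
    have h' : q (g e) = q (g e') := h
    rw [hq' (g e), hq' (g e'), h']
  · rw [hcomp]
    exact hBind.comp g g.injective

end Pool.Agent.Lib.SQF
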