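import Mathlib

/-!
# SQF, sections 6.2 and 6.3: factor heights, Bezout, choice of primes

Polynomials in `ℤ[X][X]`: the outer variable is `n`, the inner variable is `t`.
A point is `P = (u, v, n) : ℤ × ℤ × ℤ`, `t = u / v`.
-/

set_option autoImplicit false

open Polynomial

namespace Pool.Agent.Lib.SQF

/-- the homogenised value `v ^ e * g (u / v, n)` -/
noncomputable def hev (e : ℕ) (g : ℤ[X][X]) (u v n : ℤ) : ℤ :=
  ∑ i ∈ Finset.range (g.natDegree + 1), ∑ j ∈ Finset.range (e + 1),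
    (g.coeff i).coeff j * (u ^ j * v ^ (e - j)) * n ^ i

private theorem prm_evalEval {R : Type*} [CommRing R] (e : ℕ) (g : R[X][X])
    (hg : ∀ i, (g.coeff i).natDegree ≤ e) (x y : R) :
    g.evalEval x y = ∑ i ∈ Finset.range (g.natDegree + 1), ∑ j ∈ Finset.range (e + 1),
      (g.coeff i).coeff j * x ^ j * y ^ i := by
  have h0 : Polynomial.eval (C y) g =
      ∑ i ∈ Finset.range (g.natDegree + 1), g.coeff i * C y ^ i :=
    Polynomial.eval_eq_sum_range (p := g) (C y)
  rw [Polynomial.evalEval, h0, Polynomial.eval_finsetSum]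
  refine Finset.sum_congr rfl fun i _ => ?_
  rw [Polynomial.eval_mul, Polynomial.eval_pow, Polynomial.eval_C,
    Polynomial.eval_eq_sum_range' (n := e + 1) (Nat.lt_succ_of_le (hg i)), Finset.sum_mul]

/-- meaning of `hev` -/
theorem hev_eq (e : ℕ) (g : ℤ[X][X]) (hg : ∀ i, (g.coeff i).natDegree ≤ e) (u v n : ℤ)
    (hv : v ≠ 0) :
    ((hev e g u v n : ℤ) : ℚ) =
      (v : ℚ) ^ e * (g.map (mapRingHom (Int.castRingHom ℚ))).evalEval ((u : ℚ) / v) (n : ℚ) := by
  have hv' : (v : ℚ) ≠ 0 := by exact_mod_cast hv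
  have hinj : Function.Injective (mapRingHom (Int.castRingHom ℚ)) :=
    Polynomial.map_injective _ (RingHom.injective_int _)
  have hd : (g.map (mapRingHom (Int.castRingHom ℚ))).natDegree = g.natDegree :=
    Polynomial.natDegree_map_eq_of_injective hinj g
  have hg' : ∀ i, ((g.map (mapRingHom (Int.castRingHom ℚ))).coeff i).natDegree ≤ e := by
    intro i
    rw [Polynomial.coeff_map]
    exact (Polynomial.natDegree_map_le).trans (hg i)
  rw [prm_evalEval e _ hg', hd, hev, Finset.mul_sum]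
  push_cast
  refine Finset.sum_congr rfl fun i _ => ?_
  rw [Finset.mul_sum]
  refine Finset.sum_congr rfl fun j hj => ?_
  have hj' : j ≤ e := Nat.lt_succ_iff.1 (Finset.mem_range.1 hj)
  have h1 : (v : ℚ) ^ e = v ^ j * v ^ (e - j) := by
    rw [← pow_add, Nat.add_sub_cancel' hj']
  rw [Polynomial.coeff_map, Polynomial.coe_mapRingHom, Polynomial.coeff_map, h1, div_pow]
  simp only [eq_intCast]
  field_simp

/-- `hev` modulo `M` at an integer `x` with `v x = u` modulo `M` -/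
theorem hev_congr (e : ℕ) (g : ℤ[X][X]) (hg : ∀ i, (g.coeff i).natDegree ≤ e)
    (u v n x M : ℤ) (hx : M ∣ v * x - u) :
    M ∣ v ^ e * g.evalEval x n - hev e g u v n := by
  rw [prm_evalEval e g hg, hev, Finset.mul_sum, ← Finset.sum_sub_distrib]
  refine Finset.dvd_sum fun i _ => ?_
  rw [Finset.mul_sum, ← Finset.sum_sub_distrib]
  refine Finset.dvd_sum fun j hj => ?_
  have hj' : j ≤ e := Nat.lt_succ_iff.1 (Finset.mem_range.1 hj)
  have h1 : (v : ℤ) ^ e = v ^ j * v ^ (e - j) := by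
    rw [← pow_add, Nat.add_sub_cancel' hj']
  have h2 : v ^ e * ((g.coeff i).coeff j * x ^ j * n ^ i) -
      (g.coeff i).coeff j * (u ^ j * v ^ (e - j)) * n ^ i =
      ((v * x) ^ j - u ^ j) * ((g.coeff i).coeff j * v ^ (e - j) * n ^ i) := by
    rw [h1, mul_pow]; ring
  rw [h2]
  exact Dvd.dvd.mul_right (hx.trans (sub_dvd_pow_sub_pow _ _ j)) _

/-- bound for `hev` -/
theorem abs_hev_le (e : ℕ) (g : ℤ[X][X]) (H T : ℤ) (hH : ∀ i j, |(g.coeff i).coeff j| ≤ H)
    (u v n : ℤ) (hT : 1 ≤ T) (hu : |u| ≤ T) (hv : |v| ≤ T) (hn : |n| ≤ T) :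
    |hev e g u v n| ≤ (g.natDegree + 1) * (e + 1) * H * T ^ (e + g.natDegree) := by
  have hH0 : 0 ≤ H := (abs_nonneg _).trans (hH 0 0)
  have hT0 : 0 ≤ T := by linarith
  have h1 : ∀ i ∈ Finset.range (g.natDegree + 1), |∑ j ∈ Finset.range (e + 1),
      (g.coeff i).coeff j * (u ^ j * v ^ (e - j)) * n ^ i| ≤
      (e + 1) * H * T ^ (e + g.natDegree) := by
    intro i hi
    have hi' : i ≤ g.natDegree := Nat.lt_succ_iff.1 (Finset.mem_range.1 hi)
    have h2 : ∀ j ∈ Finset.range (e + 1),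
        |(g.coeff i).coeff j * (u ^ j * v ^ (e - j)) * n ^ i| ≤ H * T ^ (e + g.natDegree) := by
      intro j hj
      have hj' : j ≤ e := Nat.lt_succ_iff.1 (Finset.mem_range.1 hj)
      rw [abs_mul, abs_mul, abs_mul, abs_pow, abs_pow, abs_pow]
      have h3 : |u| ^ j ≤ T ^ j := pow_le_pow_left₀ (abs_nonneg _) hu _
      have h4 : |v| ^ (e - j) ≤ T ^ (e - j) := pow_le_pow_left₀ (abs_nonneg _) hv _
      have h5 : |n| ^ i ≤ T ^ g.natDegree :=
        (pow_le_pow_left₀ (abs_nonneg _) hn _).trans (pow_le_pow_right₀ hT hi')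
      calc |(g.coeff i).coeff j| * (|u| ^ j * |v| ^ (e - j)) * |n| ^ i
          ≤ H * (T ^ j * T ^ (e - j)) * T ^ g.natDegree := by
            have := hH i j
            gcongr
        _ = H * T ^ (e + g.natDegree) := by
            rw [← pow_add, Nat.add_sub_cancel' hj', mul_assoc, ← pow_add]
    calc |∑ j ∈ Finset.range (e + 1), (g.coeff i).coeff j * (u ^ j * v ^ (e - j)) * n ^ i|
        ≤ ∑ j ∈ Finset.range (e + 1), |(g.coeff i).coeff j * (u ^ j * v ^ (e - j)) * n ^ i| :=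
          Finset.abs_sum_le_sum_abs _ _
      _ ≤ ∑ _j ∈ Finset.range (e + 1), H * T ^ (e + g.natDegree) := Finset.sum_le_sum h2
      _ = (e + 1) * H * T ^ (e + g.natDegree) := by
          rw [Finset.sum_const, Finset.card_range, nsmul_eq_mul]; push_cast; ring
  calc |hev e g u v n| ≤ ∑ i ∈ Finset.range (g.natDegree + 1), |∑ j ∈ Finset.range (e + 1),
      (g.coeff i).coeff j * (u ^ j * v ^ (e - j)) * n ^ i| := Finset.abs_sum_le_sum_abs _ _
    _ ≤ ∑ _i ∈ Finset.range (g.natDegree + 1), (e + 1) * H * T ^ (e + g.natDegree) :=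
        Finset.sum_le_sum h1
    _ = (g.natDegree + 1) * (e + 1) * H * T ^ (e + g.natDegree) := by
        rw [Finset.sum_const, Finset.card_range, nsmul_eq_mul]; push_cast; ring

/-- the integer points needed in the minors lemma -/
theorem exists_affine (q : ℕ) (hq : q.Prime) (K e : ℕ) (g : ℤ[X][X])
    (hg : ∀ i, (g.coeff i).natDegree ≤ e) (u v n x0 : ℤ) (hv : ¬ (q : ℤ) ∣ v)
    (hx0 : (q : ℤ) ∣ v * x0 - u) (h0 : hev e g u v n = 0) :
    ∃ x : ℤ, (q : ℤ) ^ K ∣ v * x - u ∧ (q : ℤ) ∣ x - x0 ∧ (q : ℤ) ^ K ∣ g.evalEval x n := by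
  have hqp : Prime (q : ℤ) := Nat.prime_iff_prime_int.1 hq
  have hcop : IsCoprime v (q : ℤ) := by
    rw [isCoprime_comm]
    exact (Prime.coprime_iff_not_dvd hqp).2 hv
  obtain ⟨a, b, hab⟩ := hcop.pow_right (n := K + 1)
  have h1 : (q : ℤ) ^ (K + 1) ∣ v * (a * u) - u :=
    ⟨-(b * u), by linear_combination u * hab⟩
  have h2 : (q : ℤ) ∣ v * (a * u) - u := (dvd_pow_self _ (Nat.succ_ne_zero K)).trans h1
  have h3 : (q : ℤ) ^ K ∣ v * (a * u) - u := (pow_dvd_pow _ (Nat.le_succ K)).trans h1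
  refine ⟨a * u, h3, ?_, ?_⟩
  · have h4 : (q : ℤ) ∣ v * (a * u - x0) := by
      have := dvd_sub h2 hx0
      have h5 : v * (a * u) - u - (v * x0 - u) = v * (a * u - x0) := by ring
      rwa [h5] at this
    exact (hqp.dvd_or_dvd h4).resolve_left hv
  · have h6 := hev_congr e g hg u v n (a * u) _ h3
    rw [h0, sub_zero] at h6
    exact ((hcop.symm.pow_right (n := e)).pow_left (m := K)).dvd_of_dvd_mul_left h6

private theorem prm_natDegree_coeff_iff (e : ℕ) (g : ℤ[X][X]) :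
    (∀ i, (g.coeff i).natDegree ≤ e) ↔ (Bivariate.swap g).natDegree ≤ e := by
  have hsw : ∀ (g : ℤ[X][X]) (i j : ℕ),
      ((Bivariate.swap g).coeff j).coeff i = (g.coeff i).coeff j := by
    intro g
    induction g using Polynomial.induction_on' with
    | add p q hp hq =>
      intro i j
      rw [map_add, Polynomial.coeff_add, Polynomial.coeff_add, Polynomial.coeff_add,
        Polynomial.coeff_add, hp, hq]
    | monomial n a =>
      intro i j
      induction a using Polynomial.induction_on' with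
      | add p q hp hq =>
        rw [map_add, map_add, Polynomial.coeff_add, Polynomial.coeff_add, Polynomial.coeff_add,
          Polynomial.coeff_add, hp, hq]
      | monomial m r =>
        rw [Bivariate.swap_monomial_monomial]
        simp only [Polynomial.coeff_monomial]
        by_cases h1 : m = j <;> by_cases h2 : n = i <;> simp [h1, h2, Polynomial.coeff_monomial]
  constructor
  · intro h
    rw [Polynomial.natDegree_le_iff_coeff_eq_zero]
    intro N hN
    ext i
    rw [hsw, Polynomial.coeff_zero]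
    exact Polynomial.coeff_eq_zero_of_natDegree_lt (lt_of_le_of_lt (h i) hN)
  · intro h i
    rw [Polynomial.natDegree_le_iff_coeff_eq_zero]
    intro N hN
    rw [← hsw, Polynomial.coeff_eq_zero_of_natDegree_lt (lt_of_le_of_lt h hN),
      Polynomial.coeff_zero]

private theorem prm_kron_coeff (e : ℕ) (g : ℤ[X][X]) (hg : ∀ i, (g.coeff i).natDegree ≤ e)
    (i j : ℕ) (hj : j ≤ e) :
    (g.eval (X ^ (e + 1))).coeff (i * (e + 1) + j) = (g.coeff i).coeff j := by
  rw [Polynomial.eval_eq_sum_range, Polynomial.finsetSum_coeff]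
  have h1 : ∀ l ∈ Finset.range (g.natDegree + 1), l ≠ i →
      (g.coeff l * (X ^ (e + 1)) ^ l).coeff (i * (e + 1) + j) = 0 := by
    intro l _ hl
    rw [← pow_mul, Polynomial.coeff_mul_X_pow']
    split_ifs with h
    · apply Polynomial.coeff_eq_zero_of_natDegree_lt
      refine lt_of_le_of_lt (hg l) ?_
      have h2 : l < i ∨ i < l := lt_or_gt_of_ne hl
      rcases h2 with h2 | h2
      · have h3 : (e + 1) * l + (e + 1) ≤ i * (e + 1) := by nlinarith
        omega
      · exfalso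
        have h3 : i * (e + 1) + (e + 1) ≤ (e + 1) * l := by nlinarith
        omega
    · rfl
  by_cases hi : i ∈ Finset.range (g.natDegree + 1)
  · rw [Finset.sum_eq_single_of_mem i hi h1, ← pow_mul, Polynomial.coeff_mul_X_pow',
      if_pos (by nlinarith)]
    congr 1
    have : i * (e + 1) = (e + 1) * i := mul_comm _ _
    omega
  · rw [Finset.sum_eq_zero fun l hl => h1 l hl fun h => hi (h ▸ hl)]
    have h4 : g.natDegree < i := by
      rw [Finset.mem_range] at hi; omega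
    rw [Polynomial.coeff_eq_zero_of_natDegree_lt h4, Polynomial.coeff_zero]

private theorem prm_kron_natDegree (a e : ℕ) (g : ℤ[X][X]) (hga : g.natDegree ≤ a)
    (hg : ∀ i, (g.coeff i).natDegree ≤ e) :
    (g.eval (X ^ (e + 1))).natDegree ≤ a * (e + 1) + e := by
  rw [Polynomial.eval_eq_sum_range]
  refine Polynomial.natDegree_sum_le_of_forall_le _ _ fun i hi => ?_
  have hi' : i ≤ g.natDegree := Nat.lt_succ_iff.1 (Finset.mem_range.1 hi)
  refine Polynomial.natDegree_mul_le.trans ?_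
  rw [← pow_mul, Polynomial.natDegree_X_pow]
  have h1 := hg i
  have h2 : (e + 1) * i ≤ a * (e + 1) := by nlinarith
  omega

/-- heights of factors -/
theorem factor_height (a e : ℕ) : ∃ C : ℕ, ∀ f g : ℤ[X][X], f ≠ 0 → g ∣ f →
    f.natDegree ≤ a → (∀ i, (f.coeff i).natDegree ≤ e) →
    g.natDegree ≤ a ∧ (∀ i, (g.coeff i).natDegree ≤ e) ∧
    ∀ T : ℤ, (∀ i j, |(f.coeff i).coeff j| ≤ T) → ∀ i j, |(g.coeff i).coeff j| ≤ C * T := by
  set N : ℕ := a * (e + 1) + e with hN
  refine ⟨2 ^ N * (N + 1), fun f g hf hgf hfa hfe => ?_⟩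
  have hga : g.natDegree ≤ a := (Polynomial.natDegree_le_of_dvd hgf hf).trans hfa
  have hge : ∀ i, (g.coeff i).natDegree ≤ e := by
    rw [prm_natDegree_coeff_iff] at hfe ⊢
    refine (Polynomial.natDegree_le_of_dvd (_root_.map_dvd (Bivariate.swap (R := ℤ)) hgf) ?_).trans hfe
    simpa using hf
  refine ⟨hga, hge, fun T hT i j => ?_⟩
  have hT0 : 0 ≤ T := (abs_nonneg _).trans (hT 0 0)
  by_cases hj : e < j
  · rw [Polynomial.coeff_eq_zero_of_natDegree_lt (lt_of_le_of_lt (hge i) hj), abs_zero]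
    positivity
  push Not at hj
  obtain ⟨h, hfgh⟩ := hgf
  have hh : h ≠ 0 := fun h0 => hf (by rw [hfgh, h0, mul_zero])
  -- one variable
  set φ : ℤ[X][X] →+* ℤ[X] := evalRingHom (X ^ (e + 1)) with hφ
  have hhe : ∀ i, (h.coeff i).natDegree ≤ e := by
    have hfe' := hfe
    rw [prm_natDegree_coeff_iff] at hfe' ⊢
    refine (Polynomial.natDegree_le_of_dvd (_root_.map_dvd (Bivariate.swap (R := ℤ)) ⟨g, ?_⟩) ?_).trans hfe'
    · rw [hfgh]; ring
    · simpa using hf
  have hinj : ∀ p : ℤ[X][X], (∀ i, (p.coeff i).natDegree ≤ e) → p ≠ 0 →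
      p.eval (X ^ (e + 1)) ≠ 0 := by
    intro p hp hp0 hz
    apply hp0
    ext i j
    by_cases hj : e < j
    · rw [Polynomial.coeff_eq_zero_of_natDegree_lt (lt_of_le_of_lt (hp i) hj)]
      simp
    · push Not at hj
      rw [← prm_kron_coeff e p hp i j hj, hz]
      simp
  set c : ℤ →+* ℂ := Int.castRingHom ℂ with hc
  have hcn : ∀ z : ℤ, ‖c z‖ = |(z : ℝ)| := by
    intro z
    simp [hc]
  set G := (g.eval (X ^ (e + 1))).map c with hG
  set Hh := (h.eval (X ^ (e + 1))).map c with hHh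
  set F := (f.eval (X ^ (e + 1))).map c with hF
  have hFGH : F = G * Hh := by
    rw [hF, hG, hHh, ← Polynomial.map_mul, ← Polynomial.eval_mul, ← hfgh]
  have hcinj : Function.Injective c := RingHom.injective_int c
  have hlc : 1 ≤ ‖Hh.leadingCoeff‖ := by
    rw [hHh, Polynomial.leadingCoeff_map_of_injective hcinj, hcn]
    have h1 : (h.eval (X ^ (e + 1))).leadingCoeff ≠ 0 :=
      Polynomial.leadingCoeff_ne_zero.2 (hinj h hhe hh)
    have h2 := Int.one_le_abs h1
    exact_mod_cast h2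
  have hm1 := one_le_mahlerMeasure_of_one_le_norm_leadingCoeff hlc
  have hb := norm_coeff_le_choose_mul_mahlerMeasure_of_one_le_mahlerMeasure (i * (e + 1) + j)
    G Hh hm1
  rw [← hFGH] at hb
  have hGc : G.coeff (i * (e + 1) + j) = c ((g.coeff i).coeff j) := by
    rw [hG, Polynomial.coeff_map, prm_kron_coeff e g hge i j hj]
  rw [hGc, hcn] at hb
  have hGd : G.natDegree ≤ N := (Polynomial.natDegree_map_le).trans
    (prm_kron_natDegree a e g hga hge)
  have hFd : F.natDegree ≤ N := (Polynomial.natDegree_map_le).trans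
    (prm_kron_natDegree a e f hfa hfe)
  have hch : ((G.natDegree.choose (i * (e + 1) + j) : ℕ) : ℝ) ≤ 2 ^ N := by
    have h1 : G.natDegree.choose (i * (e + 1) + j) ≤ 2 ^ G.natDegree :=
      Nat.choose_le_two_pow _ _
    have h2 : 2 ^ G.natDegree ≤ 2 ^ N := Nat.pow_le_pow_right (by norm_num) hGd
    exact_mod_cast h1.trans h2
  have hMF : F.mahlerMeasure ≤ (N + 1) * (T : ℝ) := by
    refine (mahlerMeasure_le_sum_norm_coeff F).trans ?_
    rw [Polynomial.sum_def]
    have h1 : ∀ m ∈ F.support, ‖F.coeff m‖ ≤ (T : ℝ) := by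
      intro m _
      rw [hF, Polynomial.coeff_map, hcn]
      have h2 : m = (m / (e + 1)) * (e + 1) + m % (e + 1) := by
        rw [mul_comm]; exact (Nat.div_add_mod m (e + 1)).symm
      have h3 : m % (e + 1) ≤ e := Nat.lt_succ_iff.1 (Nat.mod_lt _ (Nat.succ_pos e))
      rw [h2, prm_kron_coeff e f hfe _ _ h3]
      exact_mod_cast hT _ _
    refine (Finset.sum_le_card_nsmul _ _ _ h1).trans ?_
    rw [nsmul_eq_mul]
    have h4 : F.support.card ≤ N + 1 := by
      have h5 : F.support ⊆ Finset.range (N + 1) := by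
        intro m hm
        rw [Finset.mem_range]
        exact Nat.lt_succ_of_le ((Polynomial.le_natDegree_of_mem_supp m hm).trans hFd)
      have := Finset.card_le_card h5
      rwa [Finset.card_range] at this
    have h6 : ((F.support.card : ℕ) : ℝ) ≤ (N : ℝ) + 1 := by exact_mod_cast h4
    have h7 : (0 : ℝ) ≤ T := by exact_mod_cast hT0
    exact mul_le_mul_of_nonneg_right h6 h7
  have hfin : |((((g.coeff i).coeff j : ℤ)) : ℝ)| ≤ 2 ^ N * ((N + 1) * (T : ℝ)) :=
    hb.trans (mul_le_mul hch hMF (Polynomial.mahlerMeasure_nonneg _) (by positivity))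
  have h8 : ((|(g.coeff i).coeff j| : ℤ) : ℝ) ≤ ((((2 ^ N * (N + 1) : ℕ) : ℤ) * T : ℤ) : ℝ) := by
    push_cast
    linarith
  exact_mod_cast h8

private theorem prm_sylvester_natDegree (e m n : ℕ) (f g : ℤ[X][X])
    (hf : ∀ i, (f.coeff i).natDegree ≤ e) (hg : ∀ i, (g.coeff i).natDegree ≤ e)
    (i j : Fin (m + n)) : (sylvester f g m n i j).natDegree ≤ e := by
  unfold sylvester
  rw [Matrix.of_apply]
  induction j using Fin.addCases with
  | left j =>
    simp only [Fin.addCases_left]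
    split_ifs
    · exact hg _
    · simp
  | right j =>
    simp only [Fin.addCases_right]
    split_ifs
    · exact hf _
    · simp

private theorem prm_resultant_natDegree (e m n : ℕ) (f g : ℤ[X][X])
    (hf : ∀ i, (f.coeff i).natDegree ≤ e) (hg : ∀ i, (g.coeff i).natDegree ≤ e) :
    (resultant f g m n).natDegree ≤ (m + n) * e := by
  unfold resultant
  rw [Matrix.det_apply]
  refine Polynomial.natDegree_sum_le_of_forall_le _ _ fun σ _ => ?_
  refine (Polynomial.natDegree_smul_le _ _).trans ?_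
  refine (Polynomial.natDegree_prod_le _ _).trans ?_
  refine (Finset.sum_le_sum fun i _ => prm_sylvester_natDegree e m n f g hf hg _ _).trans ?_
  simp

/-- Bezout, resultant form -/
theorem exists_resultant (a b e : ℕ) (g F : ℤ[X][X]) (hg : Irreducible g) (hg0 : 0 < g.natDegree)
    (hga : g.natDegree ≤ a) (hFb : F.natDegree ≤ b)
    (hge : ∀ i, (g.coeff i).natDegree ≤ e) (hFe : ∀ i, (F.coeff i).natDegree ≤ e)
    (hF : ¬ g ∣ F) :
    ∃ R : ℤ[X], R ≠ 0 ∧ R.natDegree ≤ (a + b) * e ∧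
      ∀ t n : ℚ, (g.map (mapRingHom (Int.castRingHom ℚ))).evalEval t n = 0 →
        (F.map (mapRingHom (Int.castRingHom ℚ))).evalEval t n = 0 → aeval t R = 0 := by
  classical
  refine ⟨resultant g F g.natDegree F.natDegree, ?_, ?_, ?_⟩
  · -- nonzero
    set K := FractionRing ℤ[X]
    have hinj : Function.Injective (algebraMap ℤ[X] K) := IsFractionRing.injective _ _
    have hprim : g.IsPrimitive := hg.isPrimitive hg0.ne'
    have hirr : Irreducible (g.map (algebraMap ℤ[X] K)) :=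
      (hprim.irreducible_iff_irreducible_map_fraction_map (K := K)).1 hg
    have hnd : ¬ g.map (algebraMap ℤ[X] K) ∣ F.map (algebraMap ℤ[X] K) := fun h =>
      hF (hprim.dvd_of_fraction_map_dvd_fraction_map h)
    have hcop : IsCoprime (g.map (algebraMap ℤ[X] K)) (F.map (algebraMap ℤ[X] K)) :=
      (hirr.coprime_iff_not_dvd).2 hnd
    have h1 : resultant (g.map (algebraMap ℤ[X] K)) (F.map (algebraMap ℤ[X] K)) ≠ 0 := by
      rw [Ne, resultant_eq_zero_iff]
      push Not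
      exact fun _ => hcop
    intro h2
    apply h1
    rw [Polynomial.natDegree_map_eq_of_injective hinj, Polynomial.natDegree_map_eq_of_injective hinj,
      resultant_map_map, h2, map_zero]
  · refine (prm_resultant_natDegree e _ _ g F hge hFe).trans ?_
    exact Nat.mul_le_mul_right _ (Nat.add_le_add hga hFb)
  · intro t n h1 h2
    obtain ⟨p, q, -, -, hpq⟩ := exists_mul_add_mul_eq_C_resultant g F
      (m := g.natDegree) (n := F.natDegree) le_rfl le_rfl (Or.inl hg0.ne')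
    have h3 := congrArg (fun P : ℤ[X][X] =>
      (P.map (mapRingHom (Int.castRingHom ℚ))).evalEval t n) hpq
    simp only [Polynomial.map_add, Polynomial.map_mul, evalEval_add, evalEval_mul, h1, h2,
      zero_mul, add_zero, Polynomial.map_C, evalEval_C] at h3
    rw [Polynomial.aeval_def, ← Polynomial.eval_map]
    exact h3.symm

/-- Bezout, counting form -/
theorem bezout_card (a b e : ℕ) (g F : ℤ[X][X]) (hg : Irreducible g) (hg0 : 0 < g.natDegree)
    (hga : g.natDegree ≤ a) (hFb : F.natDegree ≤ b)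
    (hge : ∀ i, (g.coeff i).natDegree ≤ e) (hFe : ∀ i, (F.coeff i).natDegree ≤ e)
    (hF : ¬ g ∣ F) (S : Finset (ℤ × ℤ × ℤ)) (hv : ∀ P ∈ S, P.2.1 ≠ 0)
    (hinj : ∀ P ∈ S, ∀ Q ∈ S, P.1 * Q.2.1 = Q.1 * P.2.1 → P = Q)
    (hz : ∀ P ∈ S, hev e g P.1 P.2.1 P.2.2 = 0 ∧ hev e F P.1 P.2.1 P.2.2 = 0) :
    S.card ≤ (a + b) * e := by
  classical
  obtain ⟨R, hR, hRd, hRz⟩ := exists_resultant a b e g F hg hg0 hga hFb hge hFe hF
  refine le_trans ?_ hRd
  set R' : ℚ[X] := R.map (Int.castRingHom ℚ) with hR'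
  have hR'0 : R' ≠ 0 := (Polynomial.map_ne_zero_iff (RingHom.injective_int _)).2 hR
  have h1 : S.card ≤ R'.roots.toFinset.card := by
    refine Finset.card_le_card_of_injOn (fun P => (P.1 : ℚ) / P.2.1) ?_ ?_
    · intro P hP
      have hv' : (P.2.1 : ℚ) ≠ 0 := by exact_mod_cast hv P hP
      have h2 := (hz P hP).1
      have h3 := (hz P hP).2
      have h4 := hev_eq e g hge P.1 P.2.1 P.2.2 (hv P hP)
      have h5 := hev_eq e F hFe P.1 P.2.1 P.2.2 (hv P hP)
      rw [h2, Int.cast_zero] at h4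
      rw [h3, Int.cast_zero] at h5
      have h6 := (mul_eq_zero.1 h4.symm).resolve_left (pow_ne_zero _ hv')
      have h7 := (mul_eq_zero.1 h5.symm).resolve_left (pow_ne_zero _ hv')
      have h8 := hRz _ _ h6 h7
      simp only [Finset.mem_coe, Multiset.mem_toFinset]
      rw [Polynomial.mem_roots hR'0, Polynomial.IsRoot.def, hR', Polynomial.eval_map]
      rw [Polynomial.aeval_def] at h8
      exact h8
    · intro P hP Q hQ hPQ
      have hv1 : (P.2.1 : ℚ) ≠ 0 := by exact_mod_cast hv P hP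
      have hv2 : (Q.2.1 : ℚ) ≠ 0 := by exact_mod_cast hv Q hQ
      refine hinj P hP Q hQ ?_
      have h2 : (P.1 : ℚ) / P.2.1 = Q.1 / Q.2.1 := hPQ
      rw [div_eq_div_iff hv1 hv2] at h2
      exact_mod_cast h2
  refine h1.trans ((Multiset.toFinset_card_le _).trans ((Polynomial.card_roots' _).trans ?_))
  exact Polynomial.natDegree_map_le

/-- `K` primes between `Z` and `2 ^ K * Z` -/
theorem exists_primes (K Z : ℕ) (hZ : 1 ≤ Z) : ∃ Q : Finset ℕ, Q.card = K ∧
    ∀ q ∈ Q, q.Prime ∧ Z ≤ q ∧ q ≤ 2 ^ K * Z := by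
  induction K with
  | zero => exact ⟨∅, rfl, by simp⟩
  | succ K ih =>
    obtain ⟨Q, hQ, hQ2⟩ := ih
    obtain ⟨p, hp, h1, h2⟩ := Nat.exists_prime_lt_and_le_two_mul (2 ^ K * Z)
      (Nat.mul_ne_zero (pow_ne_zero _ (by norm_num)) (by omega))
    have h3 : Z ≤ 2 ^ K * Z := Nat.le_mul_of_pos_left _ (pow_pos (by norm_num) _)
    have h4 : p ∉ Q := fun h => by
      have := (hQ2 p h).2.2
      omega
    refine ⟨insert p Q, by rw [Finset.card_insert_of_notMem h4, hQ], fun q hq => ?_⟩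
    rw [Finset.mem_insert] at hq
    have h5 : 2 ^ (K + 1) * Z = 2 * (2 ^ K * Z) := by rw [pow_succ]; ring
    rcases hq with rfl | hq
    · exact ⟨hp, by omega, by omega⟩
    · obtain ⟨h6, h7, h8⟩ := hQ2 q hq
      exact ⟨h6, h7, by omega⟩

private theorem prm_card_primes (Q : Finset ℕ) (Z k : ℕ) (D : ℤ) (hQ : ∀ q ∈ Q, q.Prime ∧ Z ≤ q)
    (hD : D ≠ 0) (hZ : |D| < (Z : ℤ) ^ k) : (Q.filter (fun q : ℕ => (q : ℤ) ∣ D)).card < k := by
  by_contra hcon
  push Not at hcon
  set W := Q.filter (fun q : ℕ => (q : ℤ) ∣ D) with hW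
  have hZ1 : 1 ≤ Z := by
    rcases Nat.eq_zero_or_pos Z with h | h
    · exfalso
      subst h
      have h1 : 0 < |D| := abs_pos.2 hD
      rcases Nat.eq_zero_or_pos k with h2 | h2
      · subst h2
        rw [pow_zero] at hZ
        omega
      · rw [Nat.cast_zero, zero_pow h2.ne'] at hZ
        omega
    · exact h
  have h1 : ∏ q ∈ W, (q : ℤ) ∣ D := by
    refine Finset.prod_dvd_of_coprime ?_ ?_
    · intro p hp q hq hpq
      rw [Finset.mem_coe, hW, Finset.mem_filter] at hp hq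
      exact Nat.isCoprime_iff_coprime.2 ((Nat.coprime_primes (hQ p hp.1).1 (hQ q hq.1).1).2 hpq)
    · intro q hq
      rw [hW, Finset.mem_filter] at hq
      exact hq.2
  have h2 : (Z : ℤ) ^ W.card ≤ ∏ q ∈ W, (q : ℤ) := by
    have h3 : ∏ _q ∈ W, (Z : ℤ) ≤ ∏ q ∈ W, (q : ℤ) := by
      refine Finset.prod_le_prod (fun _ _ => by positivity) fun q hq => ?_
      rw [hW, Finset.mem_filter] at hq
      exact_mod_cast (hQ q hq.1).2
    rwa [Finset.prod_const] at h3
  have h4 : (Z : ℤ) ^ k ≤ (Z : ℤ) ^ W.card := pow_le_pow_right₀ (by exact_mod_cast hZ1) hcon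
  have h5 : ∏ q ∈ W, (q : ℤ) ≤ |D| := Int.le_of_dvd (abs_pos.2 hD) ((dvd_abs _ _).2 h1)
  linarith

private theorem prm_hev_C_mul (e : ℕ) (g : ℤ[X][X]) (hge : ∀ i, (g.coeff i).natDegree ≤ e)
    (q : ℕ) (hq : q.Prime) (P : ℤ × ℤ × ℤ) (x0 : ℤ) (hx0 : (q : ℤ) ∣ P.2.1 * x0 - P.1)
    (hv : ¬ (q : ℤ) ∣ P.2.1) :
    ((q : ℤ) ∣ hev e g P.1 P.2.1 P.2.2 ↔ (q : ℤ) ∣ g.evalEval x0 P.2.2) := by
  have hqp : Prime (q : ℤ) := Nat.prime_iff_prime_int.1 hq
  have h1 := hev_congr e g hge P.1 P.2.1 P.2.2 x0 _ hx0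
  constructor
  · intro h2
    have h3 := dvd_add h1 h2
    rw [sub_add_cancel] at h3
    exact (hqp.dvd_or_dvd h3).resolve_left fun h => hv (hqp.dvd_of_dvd_pow h)
  · intro h2
    have h3 := dvd_sub (Dvd.dvd.mul_left h2 (P.2.1 ^ e)) h1
    rwa [sub_sub_cancel] at h3

/-- **Choice of the prime and of the cluster.** `T` bounds the coordinates and the coefficients,
`Q` is a set of at least `2 k` primes `≥ Z`, `(a+1)(e+1) a T^(a+e+2) < Z^k`. There are `q ∈ Q` and
`C' ⊆ S`, `|S| ≤ 2 a e + 2 a q |C'|`, such that all points of `C'` are congruent modulo `q` to one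
point `(x0, y0)` with `∂g/∂n (x0, y0) ≠ 0` modulo `q`. -/
theorem exists_cluster (a e k Z : ℕ) (T : ℤ) (hT : 1 ≤ T) (g : ℤ[X][X]) (hg : Irreducible g)
    (hg0 : 0 < g.natDegree) (hga : g.natDegree ≤ a) (hge : ∀ i, (g.coeff i).natDegree ≤ e)
    (hgT : ∀ i j, |(g.coeff i).coeff j| ≤ T)
    (S : Finset (ℤ × ℤ × ℤ)) (hv : ∀ P ∈ S, P.2.1 ≠ 0)
    (hST : ∀ P ∈ S, |P.1| ≤ T ∧ |P.2.1| ≤ T ∧ |P.2.2| ≤ T)
    (hinj : ∀ P ∈ S, ∀ Q ∈ S, P.1 * Q.2.1 = Q.1 * P.2.1 → P = Q)
    (hz : ∀ P ∈ S, hev e g P.1 P.2.1 P.2.2 = 0)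
    (Q : Finset ℕ) (hQ : ∀ q ∈ Q, q.Prime ∧ Z ≤ q) (hQk : 2 * k ≤ Q.card)
    (hZ : (((a + 1) * (e + 1) * a : ℕ) : ℤ) * T ^ (a + e + 2) < (Z : ℤ) ^ k)
    (hS : 2 * a * e < S.card) :
    ∃ q ∈ Q, ∃ C' ⊆ S, S.card ≤ 2 * a * e + 2 * a * q * C'.card ∧
      ∃ x0 y0 : ℤ, ¬ (q : ℤ) ∣ (derivative g).evalEval x0 y0 ∧
        ∀ P ∈ C', ¬ (q : ℤ) ∣ P.2.1 ∧ (q : ℤ) ∣ P.2.1 * x0 - P.1 ∧ (q : ℤ) ∣ P.2.2 - y0 := by
  classical
  set g' := derivative g with hg'
  have ha : 1 ≤ a := le_trans hg0 hga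
  have hg'd : g'.natDegree < g.natDegree := Polynomial.natDegree_derivative_lt hg0.ne'
  have hg'0 : g' ≠ 0 := by
    intro h
    have := Polynomial.derivative_eq_zero.1 h
    omega
  have hg'e : ∀ i, (g'.coeff i).natDegree ≤ e := by
    intro i
    rw [hg', Polynomial.coeff_derivative]
    have h1 : ((i : ℤ[X]) + 1) = C ((i : ℤ) + 1) := by simp
    rw [h1]
    exact (Polynomial.natDegree_mul_C_le _ _).trans (hge _)
  have hg'T : ∀ i j, |(g'.coeff i).coeff j| ≤ a * T := by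
    intro i j
    rw [hg', Polynomial.coeff_derivative]
    have h1 : ((i : ℤ[X]) + 1) = C ((i : ℤ) + 1) := by simp
    rw [h1, Polynomial.coeff_mul_C, abs_mul]
    by_cases hi : i + 1 ≤ g.natDegree
    · have h2 : |((i : ℤ) + 1)| ≤ a := by
        rw [abs_of_nonneg (by positivity)]
        exact_mod_cast hi.trans hga
      calc |(g.coeff (i + 1)).coeff j| * |((i : ℤ) + 1)| ≤ T * a :=
            mul_le_mul (hgT _ _) h2 (abs_nonneg _) (by linarith)
        _ = a * T := mul_comm _ _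
    · push Not at hi
      rw [Polynomial.coeff_eq_zero_of_natDegree_lt hi]
      simp only [Polynomial.coeff_zero, abs_zero, zero_mul]
      positivity
  have hnd : ¬ g ∣ g' := by
    intro h
    have := Polynomial.natDegree_le_of_dvd h hg'0
    omega
  -- the integer D
  set D : ℤ × ℤ × ℤ → ℤ := fun P => P.2.1 * hev e g' P.1 P.2.1 P.2.2 with hD
  have hDb : ∀ P ∈ S, |D P| < (Z : ℤ) ^ k := by
    intro P hP
    obtain ⟨h1, h2, h3⟩ := hST P hP
    refine lt_of_le_of_lt ?_ hZ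
    have h4 := abs_hev_le e g' (a * T) T hg'T P.1 P.2.1 P.2.2 hT h1 h2 h3
    have hT0 : (0 : ℤ) ≤ T := by linarith
    have h5 : ((g'.natDegree : ℤ) + 1) ≤ a + 1 := by
      have : g'.natDegree ≤ a := by omega
      have : (g'.natDegree : ℤ) ≤ a := by exact_mod_cast this
      linarith
    have h6 : T ^ (e + g'.natDegree) ≤ T ^ (e + a) := pow_le_pow_right₀ hT (by omega)
    rw [hD]
    simp only
    rw [abs_mul]
    calc |P.2.1| * |hev e g' P.1 P.2.1 P.2.2|
        ≤ T * ((g'.natDegree + 1) * (e + 1) * (a * T) * T ^ (e + g'.natDegree)) :=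
          mul_le_mul h2 h4 (abs_nonneg _) hT0
      _ ≤ T * ((a + 1) * (e + 1) * (a * T) * T ^ (e + a)) := by gcongr
      _ = (((a + 1) * (e + 1) * a : ℕ) : ℤ) * T ^ (a + e + 2) := by
          push_cast
          ring
  -- the points with D = 0
  set S0 := S.filter (fun P => D P = 0) with hS0
  have hS0c : S0.card ≤ 2 * a * e := by
    have h1 := bezout_card a a e g g' hg hg0 hga (by omega) hge hg'e hnd S0
      (fun P hP => hv P (Finset.mem_filter.1 hP).1)
      (fun P hP R hR h => hinj P (Finset.mem_filter.1 hP).1 R (Finset.mem_filter.1 hR).1 h)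
      (fun P hP => by
        obtain ⟨h2, h3⟩ := Finset.mem_filter.1 hP
        exact ⟨hz P h2, (mul_eq_zero.1 h3).resolve_left (hv P h2)⟩)
    have h2 : (a + a) * e = 2 * a * e := by ring
    rwa [h2] at h1
  set S1 := S.filter (fun P => D P ≠ 0) with hS1
  have hS01 : S0.card + S1.card = S.card := by
    rw [hS0, hS1]
    exact Finset.card_filter_add_card_filter_not (s := S) (fun P => D P = 0)
  have hS1pos : 0 < S1.card := by omega
  -- double counting
  have hdc : ∃ q ∈ Q, 2 * (S1.filter (fun P => (q : ℤ) ∣ D P)).card ≤ S1.card := by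
    by_contra hcon
    push Not at hcon
    have h1 : ∑ q ∈ Q, (S1.filter (fun P => (q : ℤ) ∣ D P)).card =
        ∑ P ∈ S1, (Q.filter (fun q : ℕ => (q : ℤ) ∣ D P)).card := by
      simp only [Finset.card_filter]
      rw [Finset.sum_comm]
    have h2 : ∑ P ∈ S1, (Q.filter (fun q : ℕ => (q : ℤ) ∣ D P)).card < S1.card * k := by
      calc ∑ P ∈ S1, (Q.filter (fun q : ℕ => (q : ℤ) ∣ D P)).card < ∑ _P ∈ S1, k := by
            refine Finset.sum_lt_sum_of_nonempty (Finset.card_pos.1 hS1pos) fun P hP => ?_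
            obtain ⟨h3, h4⟩ := Finset.mem_filter.1 hP
            exact prm_card_primes Q Z k (D P) hQ h4 (hDb P h3)
        _ = S1.card * k := by rw [Finset.sum_const, smul_eq_mul]
    have h3 : Q.card * S1.card ≤ 2 * ∑ q ∈ Q, (S1.filter (fun P => (q : ℤ) ∣ D P)).card := by
      rw [Finset.mul_sum]
      calc Q.card * S1.card = ∑ _q ∈ Q, S1.card := by rw [Finset.sum_const, smul_eq_mul]
        _ ≤ ∑ q ∈ Q, 2 * (S1.filter (fun P => (q : ℤ) ∣ D P)).card :=
            Finset.sum_le_sum fun q hq => (hcon q hq).le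
    rw [h1] at h3
    have h4 : 2 * k * S1.card ≤ Q.card * S1.card := Nat.mul_le_mul_right _ hQk
    nlinarith
  obtain ⟨q, hq, hq2⟩ := hdc
  obtain ⟨hqp, hqZ⟩ := hQ q hq
  have hqp' : Prime (q : ℤ) := Nat.prime_iff_prime_int.1 hqp
  set S2 := S1.filter (fun P => ¬ (q : ℤ) ∣ D P) with hS2
  have hS12 : S1.card ≤ 2 * S2.card := by
    have h1 : (S1.filter (fun P => (q : ℤ) ∣ D P)).card + S2.card = S1.card :=
      Finset.card_filter_add_card_filter_not (s := S1) (fun P => (q : ℤ) ∣ D P)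
    omega
  have hS2v : ∀ P ∈ S2, P ∈ S ∧ ¬ (q : ℤ) ∣ P.2.1 ∧ ¬ (q : ℤ) ∣ hev e g' P.1 P.2.1 P.2.2 := by
    intro P hP
    obtain ⟨h1, h2⟩ := Finset.mem_filter.1 hP
    refine ⟨(Finset.mem_filter.1 h1).1, fun h => h2 (Dvd.dvd.mul_right h _),
      fun h => h2 (Dvd.dvd.mul_left h _)⟩
  have : Fact q.Prime := ⟨hqp⟩
  -- the classes
  set cl : ℤ × ℤ × ℤ → ZMod q × ZMod q := fun P => ((P.1 : ZMod q) * ((P.2.1 : ZMod q))⁻¹, (P.2.2 : ZMod q))
    with hcl
  set ψ : ℤ →+* ZMod q := Int.castRingHom (ZMod q) with hψ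
  -- the allowed classes
  set gq : (ZMod q)[X][X] := g.map (mapRingHom ψ) with hgq
  have hcast : ∀ (G : ℤ[X][X]) (x y : ℤ), (G.map (mapRingHom ψ)).evalEval (ψ x) (ψ y) =
      ψ (G.evalEval x y) := fun G x y => map_mapRingHom_evalEval ψ G x y
  have hψz : ∀ z : ℤ, ψ z = 0 ↔ (q : ℤ) ∣ z := fun z => by
    rw [hψ, eq_intCast]
    exact ZMod.intCast_zmod_eq_zero_iff_dvd z q
  -- every point of S2 has an integer x with v x = u mod q
  have hx : ∀ P ∈ S2, ∃ x : ℤ, (q : ℤ) ∣ P.2.1 * x - P.1 ∧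
      (x : ZMod q) = (P.1 : ZMod q) * ((P.2.1 : ZMod q))⁻¹ := by
    intro P hP
    obtain ⟨h1, h2, h3⟩ := hS2v P hP
    obtain ⟨x, hx⟩ := ZMod.intCast_surjective ((P.1 : ZMod q) * ((P.2.1 : ZMod q))⁻¹)
    refine ⟨x, ?_, hx⟩
    have hv0 : ((P.2.1 : ℤ) : ZMod q) ≠ 0 := fun h =>
      h2 ((ZMod.intCast_zmod_eq_zero_iff_dvd _ _).1 h)
    rw [← ZMod.intCast_zmod_eq_zero_iff_dvd]
    push_cast
    rw [hx]
    field_simp
    ring
  set cls : Finset (ZMod q × ZMod q) := Finset.univ.filter (fun c =>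
    gq.evalEval c.1 c.2 = 0 ∧ (gq.map (evalRingHom c.1)) ≠ 0) with hcls
  have hmaps : ∀ P ∈ S2, cl P ∈ cls := by
    intro P hP
    obtain ⟨h1, h2, h3⟩ := hS2v P hP
    obtain ⟨x, hx1, hx2⟩ := hx P hP
    rw [hcls, Finset.mem_filter]
    refine ⟨Finset.mem_univ _, ?_, ?_⟩
    · have h4 : (q : ℤ) ∣ g.evalEval x P.2.2 :=
        (prm_hev_C_mul e g hge q hqp P x hx1 h2).1 (by rw [hz P h1]; exact dvd_zero _)
      have h5 := hcast g x P.2.2
      rw [(hψz _).2 h4] at h5
      rw [hcl]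
      simp only
      rw [← hx2]
      exact h5
    · intro h6
      apply h3
      rw [prm_hev_C_mul e g' hg'e q hqp P x hx1 h2, ← hψz, ← hcast, hg', ← Polynomial.derivative_map,
        ← map_evalRingHom_eval, ← Polynomial.derivative_map]
      have h7 : (g.map (mapRingHom ψ)).map (evalRingHom (ψ x)) = 0 := by
        have h8 : ψ x = (cl P).1 := by
          rw [hcl]
          exact hx2
        rw [h8]
        exact h6
      rw [h7]
      simp
  have hclsc : cls.card ≤ q * a := by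
    have h1 : cls ⊆ (Finset.univ : Finset (ZMod q)).biUnion (fun t =>
        ((gq.map (evalRingHom t)).roots.toFinset).image (fun s => (t, s))) := by
      intro c hc
      rw [hcls, Finset.mem_filter] at hc
      obtain ⟨-, h2, h3⟩ := hc
      rw [Finset.mem_biUnion]
      refine ⟨c.1, Finset.mem_univ _, ?_⟩
      rw [Finset.mem_image]
      refine ⟨c.2, ?_, rfl⟩
      rw [Multiset.mem_toFinset, Polynomial.mem_roots h3, Polynomial.IsRoot.def,
        map_evalRingHom_eval]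
      exact h2
    refine (Finset.card_le_card h1).trans (Finset.card_biUnion_le.trans ?_)
    have h4 : ∀ t ∈ (Finset.univ : Finset (ZMod q)),
        (((gq.map (evalRingHom t)).roots.toFinset).image (fun s => (t, s))).card ≤ a := by
      intro t _
      refine Finset.card_image_le.trans ((Multiset.toFinset_card_le _).trans
        ((Polynomial.card_roots' _).trans ?_))
      exact ((Polynomial.natDegree_map_le).trans (Polynomial.natDegree_map_le)).trans hga
    refine (Finset.sum_le_sum h4).trans ?_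
    rw [Finset.sum_const, Finset.card_univ, ZMod.card, smul_eq_mul]
  -- pigeonhole
  have hpig : ∃ c ∈ cls, S2.card ≤ (q * a) * (S2.filter (fun P => cl P = c)).card := by
    by_contra hcon
    push Not at hcon
    have hclsne : cls.Nonempty := by
      have h1 : 0 < S2.card := by omega
      obtain ⟨P, hP⟩ := Finset.card_pos.1 h1
      exact ⟨cl P, hmaps P hP⟩
    have h1 : S2.card = ∑ c ∈ cls, (S2.filter (fun P => cl P = c)).card :=
      Finset.card_eq_sum_card_fiberwise fun P hP => hmaps P hP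
    have h2 : ∑ c ∈ cls, (q * a) * (S2.filter (fun P => cl P = c)).card < ∑ _c ∈ cls, S2.card :=
      Finset.sum_lt_sum_of_nonempty hclsne fun c hc => hcon c hc
    rw [← Finset.mul_sum, ← h1, Finset.sum_const, smul_eq_mul] at h2
    have h3 : cls.card * S2.card ≤ (q * a) * S2.card := Nat.mul_le_mul_right _ hclsc
    omega
  obtain ⟨c, hc, hc2⟩ := hpig
  set C' := S2.filter (fun P => cl P = c) with hC'
  have hC'ne : C'.Nonempty := by
    rw [← Finset.card_pos]
    rcases Nat.eq_zero_or_pos C'.card with h | h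
    · rw [h, mul_zero] at hc2
      omega
    · exact h
  obtain ⟨P0, hP0⟩ := hC'ne
  have hP0' := (Finset.mem_filter.1 hP0).1
  obtain ⟨h01, h02, h03⟩ := hS2v P0 hP0'
  obtain ⟨x0, hx01, hx02⟩ := hx P0 hP0'
  refine ⟨q, hq, C', fun P hP => (hS2v P (Finset.mem_filter.1 hP).1).1, ?_, x0, P0.2.2, ?_, ?_⟩
  · have h1 : 2 * a * q * C'.card = 2 * (q * a * C'.card) := by ring
    rw [h1]
    omega
  · intro h
    exact h03 ((prm_hev_C_mul e g' hg'e q hqp P0 x0 hx01 h02).2 h)
  · intro P hP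
    obtain ⟨hP1, hP2⟩ := Finset.mem_filter.1 hP
    obtain ⟨h1, h2, h3⟩ := hS2v P hP1
    have hclP : cl P = cl P0 := hP2.trans (Finset.mem_filter.1 hP0).2.symm
    have h4 : (P.1 : ZMod q) * ((P.2.1 : ZMod q))⁻¹ = (x0 : ZMod q) := by
      rw [hx02]
      exact congrArg Prod.fst hclP
    have h5 : (P.2.2 : ZMod q) = (P0.2.2 : ZMod q) := congrArg Prod.snd hclP
    have hv0 : ((P.2.1 : ℤ) : ZMod q) ≠ 0 := fun h =>
      h2 ((ZMod.intCast_zmod_eq_zero_iff_dvd _ _).1 h)
    refine ⟨h2, ?_, ?_⟩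
    · rw [← ZMod.intCast_zmod_eq_zero_iff_dvd]
      push_cast
      rw [← h4]
      field_simp
      ring
    · rw [← ZMod.intCast_zmod_eq_zero_iff_dvd]
      push_cast
      rw [h5, sub_self]

end Pool.Agent.Lib.SQF
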