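import Mathlib
import Pool.Agent.Lib.SQF.Defs
import Pool.Agent.Lib.SQF.Prm
import Pool.Agent.Lib.SQF.IndA
import Pool.Agent.Lib.SQF.RealRank

/-!
# SQF: definitions for the per-slice theorem A (helper82)

Conventions: slice `(e1, e2)`, `α = u e1 + v e2`, `v ≠ 0`, `t = u / v`; polynomials in `ℤ[X][X]`, outer
variable `n`, inner variable `t`. `ZPt` is a point with its solution data `(u, v, n, p, m, β)`.
`On G z`: `G(u/v, n) = 0`. `fv i (a, J) z = u^a v^(i-a) β^J`.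
-/

set_option autoImplicit false

open Polynomial

namespace Pool.Agent.Lib.SQF

/-- a point with its solution data -/
@[ext] structure ZPt where
  u : ℤ
  v : ℤ
  n : ℤ
  p : ℕ
  m : ℤ
  b : Fin 4 → ℤ

noncomputable instance : DecidableEq ZPt := Classical.decEq _

/-- the vector `α = u e1 + v e2` -/
def ZPt.a (z : ZPt) (e1 e2 : Fin 4 → ℤ) : Fin 4 → ℤ := fun i => z.u * e1 i + z.v * e2 i

/-- `z` is a solution on the slice `(e1, e2)` -/
def AOK (g : ℤ[X]) (K Y P : ℝ) (e1 e2 : Fin 4 → ℤ) (z : ZPt) : Prop :=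
  z.v ≠ 0 ∧ IsSol 4 g K Y P z.n z.p (z.a e1 e2) z.b z.m

/-- the point lies on the curve `G(t, n) = 0` -/
def On (G : ℤ[X][X]) (z : ZPt) : Prop :=
  (G.map (mapRingHom (Int.castRingHom ℚ))).evalEval ((z.u : ℚ) / z.v) (z.n : ℚ) = 0

/-- different points have different `t` -/
def TInj (S : Finset ZPt) : Prop := ∀ z ∈ S, ∀ z' ∈ S, z.u * z'.v = z'.u * z.v → z = z'

/-- `θ` enumerates the roots of the monic irreducible quartic `g` -/
structure Roots4 (g : ℤ[X]) (θ : Fin 4 → ℂ) : Prop where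
  monic : g.Monic
  irr : Irreducible g
  deg : g.natDegree = 4
  inj : Function.Injective θ
  root : ∀ σ, aeval (θ σ) g = 0
  all : ∀ z : ℂ, aeval z g = 0 → ∃ σ, z = θ σ

/-- the zero of `t e1 + e2` in the conjugate `σ` -/
noncomputable def tt (θ : Fin 4 → ℂ) (e1 e2 : Fin 4 → ℤ) (σ : Fin 4) : ℂ :=
  -ev e2 (θ σ) / ev e1 (θ σ)

/-- hypotheses on the basis of the slice: non-special, bounded -/
structure SliceOK (θ : Fin 4 → ℂ) (E : ℝ) (e1 e2 : Fin 4 → ℤ) : Prop where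
  ne1 : e1 ≠ 0
  ne2 : e2 ≠ 0
  dist : ∀ σ ρ, σ ≠ ρ → ev e1 (θ σ) * ev e2 (θ ρ) ≠ ev e1 (θ ρ) * ev e2 (θ σ)
  le1 : ∀ j, |(e1 j : ℝ)| ≤ E
  le2 : ∀ j, |(e2 j : ℝ)| ≤ E

/-- exponents of a monomial `(i, s)`-form -/
def IsCol (i s : ℕ) (c : ℕ × (Fin 4 → ℕ)) : Prop := c.1 ≤ i ∧ ∑ j, c.2 j = s

/-- value of the monomial form `u^a v^(i-a) β^J`, `c = (a, J)` -/
def fv (i : ℕ) (c : ℕ × (Fin 4 → ℕ)) (z : ZPt) : ℤ :=
  z.u ^ c.1 * z.v ^ (i - c.1) * ∏ j, z.b j ^ c.2 j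

/-- to complex coefficients -/
noncomputable def toC (F : ℤ[X][X]) : ℂ[X][X] := F.map (mapRingHom (Int.castRingHom ℂ))

/-- the bounds on a curve: degree at most `a` in `n`, at most `e` in `t`, coefficients at most `T` -/
def Bdd (a e : ℕ) (T : ℝ) (G : ℤ[X][X]) : Prop :=
  G.natDegree ≤ a ∧ (∀ l, (G.coeff l).natDegree ≤ e) ∧ ∀ l l', |(((G.coeff l).coeff l' : ℤ) : ℝ)| ≤ T

/-- `cols` are independent `(i, s)`-monomials on the slice: every nonzero integral combination is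
given by a nonzero polynomial of degrees at most `s`, `6 s + i` -/
def GoodCols (g : ℤ[X]) (e1 e2 : Fin 4 → ℤ) (i s N : ℕ) (B : ℝ) (cols : Fin N → ℕ × (Fin 4 → ℕ)) :
    Prop :=
  (∀ c, IsCol i s (cols c)) ∧ ∀ k : Fin N → ℤ, k ≠ 0 → ∃ F : ℤ[X][X], F ≠ 0 ∧
    (∀ T : ℝ, (∀ c, |(k c : ℝ)| ≤ T) → Bdd s (6 * s + i) (B * T) F) ∧
    ∀ (K Y P : ℝ) (z : ZPt), AOK g K Y P e1 e2 z → (On F z ↔ ∑ c, k c * fv i (cols c) z = 0)

/-- `h` has degree at least two in `n`, and the forms of every bidegree `(r, s)` have rank at least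
`6 s + 2 r` modulo `h`, realised by monomials extending any given independent family (conclusion of
`exists_indep_mod`, WRank) -/
def RankOK (θ τ : Fin 4 → ℂ) (h : ℤ[X][X]) : Prop :=
  2 ≤ h.natDegree ∧ ∀ s r : ℕ, 1 ≤ s → 1 ≤ r → ∀ b : Fin 4 → ℂ[X][X],
    Submodule.span ℂ (Set.range b) = vA θ τ → ∀ (n : ℕ)
    (x : Fin n → ℂ[X][X] ⧸ (Ideal.span {toC h}).restrictScalars ℂ), LinearIndependent ℂ x →
    ∀ N : ℕ, n ≤ N → N ≤ 6 * s + 2 * r →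
    ∃ y : Fin N → ℂ[X][X] ⧸ (Ideal.span {toC h}).restrictScalars ℂ, LinearIndependent ℂ y ∧
      (∀ (i : Fin N) (hi : (i : ℕ) < n), y i = x ⟨i, hi⟩) ∧
      ∀ i : Fin N, n ≤ (i : ℕ) → ∃ (e : ℕ) (m : Fin 4 → ℕ), e ≤ r ∧ ∑ j, m j = s ∧
        y i = ((Ideal.span {toC h}).restrictScalars ℂ).mkQ (C (X ^ e) * ∏ j, b j ^ m j)

end Pool.Agent.Lib.SQF
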