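import Pool.Agent.Lib.SQF.Bez

/-!
# Curves in the plane: irreducible factors, degree sums, rank on a curve
-/

open Polynomial
open scoped Polynomial.Bivariate

namespace Pool.Agent.Lib.SQF.Bez

section products

variable {M : Type*} [CommRing M] [UniqueFactorizationMonoid M]

/-- pairwise non-associated irreducible divisors: the product divides -/
theorem prod_dvd {ι : Type*} (s : Finset ι) (g : ι → M) (hg : ∀ i ∈ s, Irreducible (g i))
    (hne : ∀ i ∈ s, ∀ j ∈ s, i ≠ j → ¬ Associated (g i) (g j)) (P : M)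
    (h : ∀ i ∈ s, g i ∣ P) : ∏ i ∈ s, g i ∣ P := by
  classical
  induction s using Finset.induction_on generalizing P with
  | empty => simp
  | insert j s hj ih =>
    obtain ⟨k, rfl⟩ := h j (Finset.mem_insert_self _ _)
    rw [Finset.prod_insert hj]
    apply mul_dvd_mul_left
    apply ih (fun i hi => hg i (Finset.mem_insert_of_mem hi))
      (fun i hi i' hi' => hne i (Finset.mem_insert_of_mem hi) i' (Finset.mem_insert_of_mem hi'))
    intro i hi
    have hp : Prime (g i) := (hg i (Finset.mem_insert_of_mem hi)).prime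
    rcases hp.dvd_or_dvd (h i (Finset.mem_insert_of_mem hi)) with h1 | h1
    · exfalso
      refine hne i (Finset.mem_insert_of_mem hi) j (Finset.mem_insert_self _ _) ?_ ?_
      · rintro rfl; exact hj hi
      · exact ((hg i (Finset.mem_insert_of_mem hi)).dvd_irreducible_iff_associated
          (hg j (Finset.mem_insert_self _ _))).1 h1
    · exact h1

end products

section sums

variable {D : Type*} [CommRing D] [IsDomain D] [UniqueFactorizationMonoid D]

theorem sum_natDegree_le {ι : Type*} (s : Finset ι) (g : ι → D[X][Y])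
    (hg : ∀ i ∈ s, Irreducible (g i))
    (hne : ∀ i ∈ s, ∀ j ∈ s, i ≠ j → ¬ Associated (g i) (g j)) (P : D[X][Y]) (hP : P ≠ 0)
    (h : ∀ i ∈ s, g i ∣ P) : ∑ i ∈ s, (g i).natDegree ≤ P.natDegree := by
  rw [← natDegree_prod _ _ (fun i hi => (hg i hi).ne_zero)]
  exact natDegree_le_of_dvd (prod_dvd s g hg hne P h) hP

theorem sum_degT_le {ι : Type*} (s : Finset ι) (g : ι → D[X][Y])
    (hg : ∀ i ∈ s, Irreducible (g i))
    (hne : ∀ i ∈ s, ∀ j ∈ s, i ≠ j → ¬ Associated (g i) (g j)) (P : D[X][Y]) (hP : P ≠ 0)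
    (h : ∀ i ∈ s, g i ∣ P) : ∑ i ∈ s, degT (g i) ≤ degT P := by
  rw [← degT_prod _ _ (fun i hi => (hg i hi).ne_zero)]
  exact degT_le_of_dvd (prod_dvd s g hg hne P h) hP

end sums

section curves

open UniqueFactorizationMonoid

/-- a normalised irreducible polynomial -/
def IsCurve (g : ℤ[X][Y]) : Prop := Irreducible g ∧ normalize g = g

lemma IsCurve.eq_of_associated {g h : ℤ[X][Y]} (hg : IsCurve g) (hh : IsCurve h)
    (hgh : Associated g h) : g = h := by
  rw [← hg.2, ← hh.2]
  exact normalize_eq_normalize_iff_associated.2 hgh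

lemma IsCurve.eq_of_dvd {g h : ℤ[X][Y]} (hg : IsCurve g) (hh : IsCurve h)
    (hgh : g ∣ h) : g = h :=
  hg.eq_of_associated hh ((hg.1.dvd_irreducible_iff_associated hh.1).1 hgh)

open Classical in
/-- the curves contained in `P = 0` -/
noncomputable def curves (P : ℤ[X][Y]) : Finset ℤ[X][Y] :=
  (normalizedFactors P).toFinset.filter (fun g => g.natDegree + degT g ≠ 0)

lemma mem_curves {P g : ℤ[X][Y]} (hP : P ≠ 0) :
    g ∈ curves P ↔ IsCurve g ∧ g ∣ P ∧ g.natDegree + degT g ≠ 0 := by
  classical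
  unfold curves IsCurve
  rw [Finset.mem_filter, Multiset.mem_toFinset, mem_normalizedFactors_iff' hP]
  tauto

/-- a polynomial of total degree `0` is a constant -/
lemma eq_CC_of_degree {R : Type*} [CommRing R] (g : R[X][Y]) (h : g.natDegree + degT g = 0) :
    g = C (C ((g.coeff 0).coeff 0)) := by
  have h1 : g.natDegree = 0 := by omega
  have h2 : (g.coeff 0).natDegree = 0 := by
    have := natDegree_coeff_le g 0
    omega
  conv_lhs => rw [eq_C_of_natDegree_eq_zero h1, eq_C_of_natDegree_eq_zero h2]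

lemma exists_mem_curves {P : ℤ[X][Y]} (hP : P ≠ 0) {F : Type*} [CommRing F] [IsDomain F]
    (φ : ℤ →+* F) (hφ : Function.Injective φ) (t x : F) (h : ev φ t x P = 0) :
    ∃ g ∈ curves P, ev φ t x g = 0 := by
  classical
  have h1 := (prod_normalizedFactors hP).symm
  obtain ⟨u, hu⟩ := h1
  have h2 : ev φ t x (normalizedFactors P).prod = 0 := by
    rw [← hu, map_mul, h, zero_mul]
  rw [map_multiset_prod, Multiset.prod_eq_zero_iff, Multiset.mem_map] at h2
  obtain ⟨g, hg, hg0⟩ := h2
  refine ⟨g, ?_, hg0⟩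
  rw [mem_curves hP]
  rw [mem_normalizedFactors_iff' hP] at hg
  refine ⟨⟨hg.1, hg.2.1⟩, hg.2.2, ?_⟩
  intro h3
  have h4 := eq_CC_of_degree g h3
  rw [h4, ev_C, eval₂_C] at hg0
  have h5 : (g.coeff 0).coeff 0 = 0 := (map_eq_zero_iff φ hφ).1 hg0
  rw [h5, C_0, C_0] at h4
  exact hg.1.ne_zero h4

lemma curves_not_associated {P : ℤ[X][Y]} (hP : P ≠ 0) : ∀ g ∈ curves P, ∀ h ∈ curves P,
    g ≠ h → ¬ Associated g h := by
  intro g hg h hh hne hass
  exact hne (((mem_curves hP).1 hg).1.eq_of_associated ((mem_curves hP).1 hh).1 hass)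

lemma card_curves_le {P : ℤ[X][Y]} (hP : P ≠ 0) : (curves P).card ≤ P.natDegree + degT P := by
  have h1 := sum_natDegree_le (curves P) id (fun g hg => ((mem_curves hP).1 hg).1.1)
    (curves_not_associated hP) P hP (fun g hg => ((mem_curves hP).1 hg).2.1)
  have h2 := sum_degT_le (curves P) id (fun g hg => ((mem_curves hP).1 hg).1.1)
    (curves_not_associated hP) P hP (fun g hg => ((mem_curves hP).1 hg).2.1)
  refine le_trans ?_ (add_le_add h1 h2)
  rw [← Finset.sum_add_distrib, Finset.card_eq_sum_ones]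
  apply Finset.sum_le_sum
  intro g hg
  have := ((mem_curves hP).1 hg).2.2
  simp only [id]
  omega

end curves

section rational

lemma map_CC (c : ℤ) : (C (C c) : ℤ[X][Y]).map (mapRingHom (Int.castRingHom ℚ)) =
    C (C (c : ℚ)) := by
  rw [map_C, coe_mapRingHom, map_C]; rfl

lemma exists_clear (A : ℚ[X][Y]) : ∃ c : ℤ, c ≠ 0 ∧ ∃ A0 : ℤ[X][Y],
    A0.map (mapRingHom (Int.castRingHom ℚ)) = C (C (c : ℚ)) * A := by
  induction A using Polynomial.induction_on' with
  | add p q hp hq =>
    obtain ⟨c, hc, A, hA⟩ := hp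
    obtain ⟨d, hd, B, hB⟩ := hq
    refine ⟨c * d, mul_ne_zero hc hd, C (C d) * A + C (C c) * B, ?_⟩
    rw [Polynomial.map_add, Polynomial.map_mul, Polynomial.map_mul, hA, hB, map_CC, map_CC]
    rw [Int.cast_mul, C_mul, C_mul]
    ring
  | monomial n a =>
    induction a using Polynomial.induction_on' with
    | add p q hp hq =>
      obtain ⟨c, hc, A, hA⟩ := hp
      obtain ⟨d, hd, B, hB⟩ := hq
      refine ⟨c * d, mul_ne_zero hc hd, C (C d) * A + C (C c) * B, ?_⟩
      rw [Polynomial.map_add, Polynomial.map_mul, Polynomial.map_mul, hA, hB, map_CC, map_CC,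
        map_add, Int.cast_mul, C_mul, C_mul]
      ring
    | monomial m r =>
      refine ⟨r.den, by exact_mod_cast r.den_ne_zero, monomial n (monomial m r.num), ?_⟩
      rw [map_monomial, coe_mapRingHom, map_monomial, C_mul_monomial, C_mul_monomial]
      congr 2
      rw [eq_intCast]
      have := Rat.mul_den_eq_num r
      rw [← this]
      push_cast
      ring

lemma map_injective_rat : Function.Injective
    (Polynomial.map (mapRingHom (Int.castRingHom ℚ)) : ℤ[X][Y] → ℚ[X][Y]) := by
  apply Polynomial.map_injective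
  exact Polynomial.map_injective _ Int.cast_injective

lemma natDegree_map_rat (g : ℤ[X][Y]) :
    (g.map (mapRingHom (Int.castRingHom ℚ))).natDegree = g.natDegree := by
  apply natDegree_map_eq_of_injective
  exact Polynomial.map_injective _ Int.cast_injective

lemma degT_map_rat (g : ℤ[X][Y]) :
    degT (g.map (mapRingHom (Int.castRingHom ℚ))) = degT g := by
  apply le_antisymm (degT_map_le _ _)
  rw [degT_le_iff]
  intro i
  have := natDegree_coeff_le (g.map (mapRingHom (Int.castRingHom ℚ))) i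
  rw [coeff_map, coe_mapRingHom, natDegree_map_eq_of_injective Int.cast_injective] at this
  exact this

/-- an irreducible polynomial of positive total degree is prime to the constants -/
lemma dvd_of_dvd_C_mul {g P : ℤ[X][Y]} (hg : Irreducible g) (hd : g.natDegree + degT g ≠ 0)
    {c : ℤ} (hc : c ≠ 0) (h : g ∣ C (C c) * P) : g ∣ P := by
  rcases hg.prime.dvd_or_dvd h with h1 | h1
  · exfalso
    have hc' : (C (C c) : ℤ[X][Y]) ≠ 0 := by
      rw [Ne, C_eq_zero, C_eq_zero]; exact hc
    have h2 := natDegree_le_of_dvd h1 hc'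
    have h3 := degT_le_of_dvd h1 hc'
    rw [degT_C] at h3
    simp only [natDegree_C] at h2 h3
    omega
  · exact h1

theorem dvd_of_map_dvd {g P : ℤ[X][Y]} (hg : Irreducible g) (hd : g.natDegree + degT g ≠ 0)
    (h : g.map (mapRingHom (Int.castRingHom ℚ)) ∣ P.map (mapRingHom (Int.castRingHom ℚ))) :
    g ∣ P := by
  obtain ⟨Q, hQ⟩ := h
  obtain ⟨c, hc, Q0, hQ0⟩ := exists_clear Q
  apply dvd_of_dvd_C_mul hg hd hc
  refine ⟨Q0, map_injective_rat ?_⟩
  rw [Polynomial.map_mul, Polynomial.map_mul, hQ0, hQ, map_CC]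
  ring

theorem irreducible_map_rat {g : ℤ[X][Y]} (hg : Irreducible g) (hd : g.natDegree + degT g ≠ 0) :
    Irreducible (g.map (mapRingHom (Int.castRingHom ℚ))) := by
  apply Prime.irreducible
  refine ⟨?_, ?_, ?_⟩
  · intro h
    exact hg.ne_zero (map_injective_rat (by rw [h, Polynomial.map_zero]))
  · intro h
    have h1 : (g.map (mapRingHom (Int.castRingHom ℚ))) ∣ 1 := h.dvd
    have h2 := natDegree_le_of_dvd h1 one_ne_zero
    have h3 := degT_le_of_dvd h1 one_ne_zero
    rw [natDegree_map_rat] at h2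
    rw [degT_map_rat] at h3
    have h4 : degT (1 : ℚ[X][Y]) = 0 := by simp [degT]
    rw [h4] at h3
    rw [natDegree_one] at h2
    omega
  · intro A B h
    obtain ⟨a, ha, A0, hA0⟩ := exists_clear A
    obtain ⟨b, hb, B0, hB0⟩ := exists_clear B
    have h1 : g.map (mapRingHom (Int.castRingHom ℚ)) ∣
        (A0 * B0).map (mapRingHom (Int.castRingHom ℚ)) := by
      rw [Polynomial.map_mul, hA0, hB0]
      have : C (C (a : ℚ)) * A * (C (C (b : ℚ)) * B) =
        A * B * (C (C (a : ℚ)) * C (C (b : ℚ))) := by ring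
      rw [this]
      exact Dvd.dvd.mul_right h _
    have hunit : ∀ c : ℤ, c ≠ 0 → IsUnit (C (C (c : ℚ)) : ℚ[X][Y]) := by
      intro c hc
      rw [isUnit_C, isUnit_C]
      exact isUnit_iff_ne_zero.2 (by exact_mod_cast hc)
    rcases hg.prime.dvd_or_dvd (dvd_of_map_dvd hg hd h1) with h2 | h2
    · left
      have h3 := Polynomial.map_dvd (mapRingHom (Int.castRingHom ℚ)) h2
      rw [hA0] at h3
      exact ((hunit a ha).dvd_mul_left).1 h3
    · right
      have h3 := Polynomial.map_dvd (mapRingHom (Int.castRingHom ℚ)) h2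
      rw [hB0] at h3
      exact ((hunit b hb).dvd_mul_left).1 h3

end rational

section rank

/-- `N` rows with nonzero determinant -/
theorem exists_rows {K ι : Type*} [Field K] {N : ℕ} (T : Set ι) (v : ι → Fin N → K)
    (h : ∀ c : Fin N → K, (∀ i ∈ T, ∑ j, c j * v i j = 0) → c = 0) :
    ∃ p : Fin N → ι, (∀ k, p k ∈ T) ∧ (Matrix.of fun k j => v (p k) j).det ≠ 0 := by
  classical
  have hspan : Submodule.span K (v '' T) = ⊤ := by
    by_contra hne
    obtain ⟨f, hf0, hf⟩ := Submodule.exists_le_ker_of_lt_top _ (lt_top_iff_ne_top.2 hne)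
    apply hf0
    have hfv : ∀ w : Fin N → K, f w = ∑ j, f (Pi.single j 1) * w j := by
      intro w
      conv_lhs => rw [← Finset.univ_sum_single w]
      rw [map_sum]
      apply Finset.sum_congr rfl
      intro j _
      have : (Pi.single j (w j) : Fin N → K) = w j • Pi.single j 1 := by
        rw [← Pi.single_smul, smul_eq_mul, mul_one]
      rw [this, map_smul, smul_eq_mul, mul_comm]
    have h0 := h (fun j => f (Pi.single j 1)) (by
      intro i hi
      rw [← hfv]
      exact hf (Submodule.subset_span ⟨i, hi, rfl⟩))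
    ext j
    simpa using congrFun h0 j
  obtain ⟨b, hbT, hbspan, hbind⟩ := exists_linearIndependent K (v '' T)
  rw [hspan] at hbspan
  have hbfin : Finite b := hbind.finite
  have hbF : Fintype b := Fintype.ofFinite b
  have hcard : Fintype.card b = N := by
    have h1 := finrank_span_eq_card hbind
    rw [Subtype.range_coe, hbspan, finrank_top, Module.finrank_fin_fun] at h1
    exact h1.symm
  have e : Fin N ≃ b := (Fintype.equivFinOfCardEq hcard).symm
  have hp : ∀ k : Fin N, ∃ i, i ∈ T ∧ v i = (e k : Fin N → K) := fun k => hbT (e k).2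
  choose p hpT hpv using hp
  refine ⟨p, hpT, ?_⟩
  have h2 : LinearIndependent K (fun k : Fin N => v (p k)) := by
    have : (fun k : Fin N => v (p k)) = (fun x : b => (x : Fin N → K)) ∘ e := by
      ext k j
      rw [hpv]; rfl
    rw [this]
    exact hbind.comp e e.injective
  have h3 : LinearIndependent K (Matrix.of fun k j => v (p k) j).row := h2
  rw [Matrix.linearIndependent_rows_iff_isUnit, Matrix.isUnit_iff_isUnit_det] at h3
  exact h3.ne_zero

/-- On an irreducible curve with many points independent functions have a nonzero determinant. -/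
theorem exists_det_ne_zero {K : Type*} [Field K] {N : ℕ} (g : K[X][Y]) (hg : Irreducible g)
    (a e : ℕ) (hga : g.natDegree ≤ a) (hge : degT g ≤ e) (f : Fin N → K[X][Y])
    (hfa : ∀ j, (f j).natDegree ≤ a) (hfe : ∀ j, degT (f j) ≤ e)
    (hind : ∀ c : Fin N → K, g ∣ ∑ j, C (C (c j)) * f j → c = 0)
    (T : Finset (K × K)) (hinj : ∀ p ∈ T, ∀ q ∈ T, p.1 = q.1 → p = q)
    (h0 : ∀ p ∈ T, g.evalEval p.1 p.2 = 0) (hcard : 2 * a * e + e < T.card) :
    ∃ p : Fin N → K × K, (∀ k, p k ∈ T) ∧
      (Matrix.of fun k j => (f j).evalEval (p k).1 (p k).2).det ≠ 0 := by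
  classical
  apply exists_rows (T : Set (K × K)) (fun p j => (f j).evalEval p.1 p.2)
  intro c hc
  apply hind
  apply dvd_of_many (RingHom.id K) Function.injective_id g _ hg a e hga hge ?_ ?_
    (T.image Prod.fst) ?_ ?_
  · apply natDegree_sum_le_of_forall_le
    intro j _
    exact (natDegree_C_mul_le _ _).trans (hfa j)
  · rw [degT_le_iff]
    intro i
    rw [finsetSum_coeff]
    apply natDegree_sum_le_of_forall_le
    intro j _
    rw [coeff_C_mul]
    exact (natDegree_C_mul_le _ _).trans ((natDegree_coeff_le _ _).trans (hfe j))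
  · intro t ht
    obtain ⟨p, hp, rfl⟩ := Finset.mem_image.1 ht
    refine ⟨p.2, ?_, ?_⟩
    · rw [ev_id]; exact h0 p hp
    · rw [ev_id, evalEval_finsetSum]
      rw [← hc p hp]
      apply Finset.sum_congr rfl
      intro j _
      rw [evalEval_mul, evalEval_C, eval_C]
  · rw [Finset.card_image_of_injOn]
    · exact hcard
    · intro p hp q hq hpq
      exact hinj p hp q hq hpq

/-- the monomial `t ^ i * n ^ j` -/
noncomputable def mono (K : Type*) [Field K] (p : ℕ × ℕ) : K[X][Y] := monomial p.2 (monomial p.1 1)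

lemma coeff_mono {K : Type*} [Field K] (p : ℕ × ℕ) (i j : ℕ) :
    ((mono K p).coeff j).coeff i = if p = (i, j) then 1 else 0 := by
  obtain ⟨a, b⟩ := p
  unfold mono
  rw [coeff_monomial]
  simp only [Prod.mk.injEq]
  by_cases h2 : b = j
  · by_cases h1 : a = i <;> simp [h1, h2, coeff_monomial]
  · simp [h2]

lemma mono_eval {K : Type*} [Field K] (p : ℕ × ℕ) (t x : K) :
    (mono K p).evalEval t x = t ^ p.1 * x ^ p.2 := by
  unfold mono evalEval
  simp

lemma natDegree_mono_le {K : Type*} [Field K] (p : ℕ × ℕ) : (mono K p).natDegree ≤ p.2 :=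
  natDegree_monomial_le _

lemma degT_mono_le {K : Type*} [Field K] (p : ℕ × ℕ) : degT (mono K p) ≤ p.1 := by
  rw [degT_le_iff]
  intro i
  unfold mono
  rw [coeff_monomial]
  split_ifs
  · exact natDegree_monomial_le _
  · simp

/-- the polynomial with coefficients `c (i, j)`: `t`-degree `< m`, outer degree `< n` -/
noncomputable def box (K : Type*) [Field K] (m n : ℕ) : (Fin m × Fin n → K) →ₗ[K] K[X][Y] :=
  Fintype.linearCombination K (fun p : Fin m × Fin n => mono K ((p.1 : ℕ), (p.2 : ℕ)))

lemma box_apply {K : Type*} [Field K] (m n : ℕ) (c : Fin m × Fin n → K) :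
    box K m n c = ∑ p : Fin m × Fin n, c p • mono K ((p.1 : ℕ), (p.2 : ℕ)) := by
  unfold box
  rw [Fintype.linearCombination_apply]

lemma coeff_box {K : Type*} [Field K] (m n : ℕ) (c : Fin m × Fin n → K) (i : Fin m) (j : Fin n) :
    ((box K m n c).coeff j).coeff i = c (i, j) := by
  rw [box_apply, finsetSum_coeff, finsetSum_coeff, Finset.sum_eq_single (i, j)]
  · rw [coeff_smul, coeff_smul, coeff_mono, if_pos rfl, smul_eq_mul, mul_one]
  · intro p _ hp
    rw [coeff_smul, coeff_smul, coeff_mono, if_neg, smul_zero]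
    intro h
    apply hp
    rw [Prod.mk.injEq] at h
    exact Prod.ext (Fin.ext h.1) (Fin.ext h.2)
  · intro h
    exact absurd (Finset.mem_univ _) h

lemma coeff_box_of_le {K : Type*} [Field K] (m n : ℕ) (c : Fin m × Fin n → K) (i j : ℕ)
    (h : m ≤ i ∨ n ≤ j) : ((box K m n c).coeff j).coeff i = 0 := by
  rw [box_apply, finsetSum_coeff, finsetSum_coeff]
  apply Finset.sum_eq_zero
  intro p _
  rw [coeff_smul, coeff_smul, coeff_mono, if_neg, smul_zero]
  intro hp
  rw [Prod.mk.injEq] at hp
  have h1 := p.1.2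
  have h2 := p.2.2
  omega

lemma box_injective (K : Type*) [Field K] (m n : ℕ) : Function.Injective (box K m n) := by
  intro c d h
  ext p
  obtain ⟨i, j⟩ := p
  rw [← coeff_box m n c i j, ← coeff_box m n d i j, h]

/-- the range of `box` -/
lemma mem_range_box {K : Type*} [Field K] (m n : ℕ) (F : K[X][Y]) :
    F ∈ LinearMap.range (box K m n) ↔ ∀ i j, (m ≤ i ∨ n ≤ j) → (F.coeff j).coeff i = 0 := by
  constructor
  · rintro ⟨c, rfl⟩ i j h
    exact coeff_box_of_le m n c i j h
  · intro h
    refine ⟨fun p => (F.coeff p.2).coeff p.1, ?_⟩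
    ext j i
    rcases lt_or_ge i m with hi | hi
    · rcases lt_or_ge j n with hj | hj
      · have := coeff_box m n (fun p => (F.coeff p.2).coeff p.1) ⟨i, hi⟩ ⟨j, hj⟩
        exact this
      · rw [coeff_box_of_le _ _ _ _ _ (Or.inr hj), h i j (Or.inr hj)]
    · rw [coeff_box_of_le _ _ _ _ _ (Or.inl hi), h i j (Or.inl hi)]

lemma mem_range_box_of_le {K : Type*} [Field K] (r s : ℕ) (F : K[X][Y]) (h1 : F.natDegree ≤ r)
    (h2 : degT F ≤ s) : F ∈ LinearMap.range (box K (s + 1) (r + 1)) := by
  rw [mem_range_box]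
  rintro i j (h | h)
  · apply coeff_eq_zero_of_natDegree_lt
    have := natDegree_coeff_le F j
    omega
  · have h3 : F.coeff j = 0 := coeff_eq_zero_of_natDegree_lt (by omega)
    rw [h3, coeff_zero]

lemma natDegree_box_le {K : Type*} [Field K] (r s : ℕ) (c : Fin (s + 1) × Fin (r + 1) → K) :
    (box K (s + 1) (r + 1) c).natDegree ≤ r ∧ degT (box K (s + 1) (r + 1) c) ≤ s := by
  constructor
  · rw [natDegree_le_iff_coeff_eq_zero]
    intro N hN
    ext i
    rw [coeff_box_of_le _ _ _ _ _ (Or.inr hN), coeff_zero]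
  · rw [degT_le_iff]
    intro j
    rw [natDegree_le_iff_coeff_eq_zero]
    intro N hN
    exact coeff_box_of_le _ _ _ _ _ (Or.inl hN)

/-- the combinations of the monomials of a box which are divisible by `g` -/
noncomputable def boxKer {K : Type*} [Field K] (g : K[X][Y]) (m n : ℕ) :
    Submodule K (Fin m × Fin n → K) :=
  ((Ideal.span {g}).restrictScalars K).comap (box K m n)

lemma mem_boxKer {K : Type*} [Field K] (g : K[X][Y]) (m n : ℕ) (c : Fin m × Fin n → K) :
    c ∈ boxKer g m n ↔ g ∣ box K m n c := by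
  unfold boxKer
  rw [Submodule.mem_comap, Submodule.restrictScalars_mem, Ideal.mem_span_singleton]

theorem finrank_boxKer_le {K : Type*} [Field K] (g : K[X][Y]) (hg : g ≠ 0) (r s : ℕ) :
    Module.finrank K (boxKer g (s + 1) (r + 1)) ≤
      (r + 1 - g.natDegree) * (s + 1 - degT g) := by
  set M : (Fin (s + 1 - degT g) × Fin (r + 1 - g.natDegree) → K) →ₗ[K] K[X][Y] :=
    (LinearMap.mulLeft K g).comp (box K (s + 1 - degT g) (r + 1 - g.natDegree)) with hM
  have h1 : (boxKer g (s + 1) (r + 1)).map (box K (s + 1) (r + 1)) ≤ LinearMap.range M := by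
    rintro _ ⟨c, hc, rfl⟩
    rw [SetLike.mem_coe, mem_boxKer] at hc
    obtain ⟨h, hh⟩ := hc
    rcases eq_or_ne h 0 with h0 | h0
    · rw [hh, h0, mul_zero]; exact Submodule.zero_mem _
    obtain ⟨hb1, hb2⟩ := natDegree_box_le r s c
    rw [hh, natDegree_mul hg h0] at hb1
    rw [hh, degT_mul hg h0] at hb2
    have h2 : h ∈ LinearMap.range (box K (s + 1 - degT g) (r + 1 - g.natDegree)) := by
      rw [mem_range_box]
      rintro i j (h' | h')
      · apply coeff_eq_zero_of_natDegree_lt
        have := natDegree_coeff_le h j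
        omega
      · have h3 : h.coeff j = 0 := coeff_eq_zero_of_natDegree_lt (by omega)
        rw [h3, coeff_zero]
    obtain ⟨d, hd⟩ := h2
    refine ⟨d, ?_⟩
    rw [hM, LinearMap.comp_apply, hd, LinearMap.mulLeft_apply, hh]
  have h2 : Module.finrank K (boxKer g (s + 1) (r + 1)) =
      Module.finrank K ((boxKer g (s + 1) (r + 1)).map (box K (s + 1) (r + 1))) :=
    (Submodule.equivMapOfInjective _ (box_injective K _ _) _).finrank_eq
  rw [h2]
  refine (Submodule.finrank_mono h1).trans ?_
  refine (LinearMap.finrank_range_le M).trans ?_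
  rw [Module.finrank_pi, Fintype.card_prod, Fintype.card_fin, Fintype.card_fin, mul_comm]

/-- **Rank on a curve**: `R = (r+1)(s+1) - (r+1-deg_n g)(s+1-deg_t g)` monomials `t^i n^j`, `i ≤ s`,
`j ≤ r`, are independent modulo `g`. -/
theorem exists_mono_indep {K : Type*} [Field K] (g : K[X][Y]) (hg : g ≠ 0) (r s : ℕ) (R : ℕ)
    (hR : R + (r + 1 - g.natDegree) * (s + 1 - degT g) ≤ (r + 1) * (s + 1)) :
    ∃ m : Fin R → ℕ × ℕ, Function.Injective m ∧ (∀ k, (m k).1 ≤ s ∧ (m k).2 ≤ r) ∧
      ∀ c : Fin R → K, g ∣ ∑ k, C (C (c k)) * mono K (m k) → c = 0 := by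
  classical
  set Q := (Fin (s + 1) × Fin (r + 1) → K) ⧸ boxKer g (s + 1) (r + 1) with hQ
  set b : Fin (s + 1) × Fin (r + 1) → Q :=
    fun p => (boxKer g (s + 1) (r + 1)).mkQ (Pi.single p 1) with hb
  obtain ⟨κ, a, ha, hspan, hind⟩ := exists_linearIndependent' K b
  have hfull : Submodule.span K (Set.range b) = ⊤ := by
    have h1 : Set.range b = (boxKer g (s + 1) (r + 1)).mkQ ''
        (Set.range (fun p : Fin (s + 1) × Fin (r + 1) => (Pi.single p 1 : _ → K))) := by
      rw [← Set.range_comp]; rfl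
    rw [h1, ← Submodule.map_span]
    have h2 : Submodule.span K (Set.range
        (fun p : Fin (s + 1) × Fin (r + 1) => (Pi.single p 1 : _ → K))) = ⊤ := by
      have := (Pi.basisFun K (Fin (s + 1) × Fin (r + 1))).span_eq
      rwa [show (⇑(Pi.basisFun K (Fin (s + 1) × Fin (r + 1)))) =
        (fun p : Fin (s + 1) × Fin (r + 1) => (Pi.single p 1 : _ → K)) from by
          ext p; simp] at this
    rw [h2, Submodule.map_top, Submodule.range_mkQ]
  have hκ : Finite κ := Finite.of_injective a ha
  have hκF : Fintype κ := Fintype.ofFinite κ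
  have hcard : R ≤ Fintype.card κ := by
    have h1 := finrank_span_eq_card hind
    rw [hspan, hfull, finrank_top] at h1
    rw [← h1]
    have h2 := Submodule.finrank_quotient_add_finrank (boxKer g (s + 1) (r + 1))
    have h3 := finrank_boxKer_le g hg r s
    have h4 : Module.finrank K (Fin (s + 1) × Fin (r + 1) → K) = (r + 1) * (s + 1) := by
      rw [Module.finrank_pi, Fintype.card_prod, Fintype.card_fin, Fintype.card_fin, mul_comm]
    rw [h4] at h2
    have h5 : Module.finrank K Q + Module.finrank K (boxKer g (s + 1) (r + 1)) =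
      (r + 1) * (s + 1) := h2
    omega
  obtain ⟨ι⟩ : Nonempty (Fin R ↪ κ) := by
    apply Function.Embedding.nonempty_of_card_le
    rwa [Fintype.card_fin]
  refine ⟨fun k => (((a (ι k)).1 : ℕ), ((a (ι k)).2 : ℕ)), ?_, ?_, ?_⟩
  · intro k l hkl
    simp only [Prod.mk.injEq] at hkl
    apply ι.injective
    apply ha
    exact Prod.ext (Fin.ext hkl.1) (Fin.ext hkl.2)
  · intro k
    have h1 := (a (ι k)).1.2
    have h2 := (a (ι k)).2.2
    simp only
    omega
  · intro c hc
    have h1 : LinearIndependent K (fun k : Fin R => b (a (ι k))) := hind.comp ι ι.injective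
    rw [Fintype.linearIndependent_iff] at h1
    have h2 : ∑ k, c k • b (a (ι k)) = 0 := by
      have h3 : ∑ k, c k • b (a (ι k)) = (boxKer g (s + 1) (r + 1)).mkQ
          (∑ k, c k • (Pi.single (a (ι k)) 1 : _ → K)) := by
        rw [map_sum]
        apply Finset.sum_congr rfl
        intro k _
        rw [map_smul]
      rw [h3, Submodule.mkQ_apply, Submodule.Quotient.mk_eq_zero, mem_boxKer, map_sum]
      have h4 : ∑ k, box K (s + 1) (r + 1) (c k • (Pi.single (a (ι k)) 1 : _ → K)) =
          ∑ k, C (C (c k)) * mono K (((a (ι k)).1 : ℕ), ((a (ι k)).2 : ℕ)) := by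
        apply Finset.sum_congr rfl
        intro k _
        rw [map_smul]
        have h5 : box K (s + 1) (r + 1) (Pi.single (a (ι k)) 1) =
            mono K (((a (ι k)).1 : ℕ), ((a (ι k)).2 : ℕ)) := by
          rw [box_apply, Finset.sum_eq_single (a (ι k))]
          · rw [Pi.single_eq_same, one_smul]
          · intro p _ hp
            rw [Pi.single_eq_of_ne hp, zero_smul]
          · intro h
            exact absurd (Finset.mem_univ _) h
        rw [h5]
        ext i j
        rw [coeff_smul, coeff_smul, coeff_C_mul, coeff_C_mul, smul_eq_mul]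
      rw [h4]
      exact hc
    ext k
    exact h1 c h2 k

/-- monomials and points with nonzero determinant -/
theorem exists_mono_det {K : Type*} [Field K] (g : K[X][Y]) (hg : Irreducible g) (r s : ℕ) (R : ℕ)
    (hR : R + (r + 1 - g.natDegree) * (s + 1 - degT g) ≤ (r + 1) * (s + 1))
    (a e : ℕ) (hga : g.natDegree ≤ a) (hge : degT g ≤ e) (hra : r ≤ a) (hse : s ≤ e)
    (T : Finset (K × K)) (hinj : ∀ p ∈ T, ∀ q ∈ T, p.1 = q.1 → p = q)
    (h0 : ∀ p ∈ T, g.evalEval p.1 p.2 = 0) (hcard : 2 * a * e + e < T.card) :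
    ∃ m : Fin R → ℕ × ℕ, Function.Injective m ∧ (∀ k, (m k).1 ≤ s ∧ (m k).2 ≤ r) ∧
      ∃ p : Fin R → K × K, (∀ k, p k ∈ T) ∧
        (Matrix.of fun k j => (p k).1 ^ (m j).1 * (p k).2 ^ (m j).2).det ≠ 0 := by
  obtain ⟨m, hm, hmb, hind⟩ := exists_mono_indep g hg.ne_zero r s R hR
  obtain ⟨p, hp, hdet⟩ := exists_det_ne_zero g hg a e hga hge (fun k => mono K (m k))
    (fun j => (natDegree_mono_le _).trans ((hmb j).2.trans hra))
    (fun j => (degT_mono_le _).trans ((hmb j).1.trans hse)) hind T hinj h0 hcard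
  refine ⟨m, hm, hmb, p, hp, ?_⟩
  simpa only [mono_eval] using hdet

end rank

end Pool.Agent.Lib.SQF.Bez
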