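import Mathlib

/-!
# Bounded integral solutions by minors

A system of linear equations (any number of rows, `N` columns) with integral coefficients of
absolute value at most `T` which has a non-zero solution over some field of characteristic zero
has a non-zero integral solution with entries at most `N! * T ^ N`.
-/

set_option autoImplicit false

namespace Pool.Agent.Lib.SQF.MinorSol

/-- bound for a determinant with bounded entries -/
lemma det_le {n : ℕ} {T : ℤ} (A : Matrix (Fin n) (Fin n) ℤ)
    (hA : ∀ i j, |A i j| ≤ T) : |A.det| ≤ n.factorial * T ^ n := by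
  rw [Matrix.det_apply]
  refine (Finset.abs_sum_le_sum_abs _ _).trans ?_
  have h1 : ∀ σ ∈ (Finset.univ : Finset (Equiv.Perm (Fin n))),
      |Equiv.Perm.sign σ • ∏ i, A (σ i) i| ≤ T ^ n := by
    intro σ _
    have h2 : |Equiv.Perm.sign σ • ∏ i, A (σ i) i| = |∏ i, A (σ i) i| := by
      rcases Int.units_eq_one_or (Equiv.Perm.sign σ) with h | h <;> rw [h] <;> simp
    rw [h2, Finset.abs_prod]
    calc ∏ i, |A (σ i) i| ≤ ∏ _i : Fin n, T :=
          Finset.prod_le_prod (fun i _ => abs_nonneg _) fun i _ => hA _ _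
      _ = T ^ n := by simp
  calc ∑ σ, |Equiv.Perm.sign σ • ∏ i, A (σ i) i| ≤ ∑ _σ : Equiv.Perm (Fin n), T ^ n :=
        Finset.sum_le_sum h1
    _ = n.factorial * T ^ n := by
        rw [Finset.sum_const, Finset.card_univ, Fintype.card_perm, Fintype.card_fin, nsmul_eq_mul]

/-- **Solutions by minors.** -/
theorem exists_int_sol {ι F : Type*} [Field F] [CharZero F] {N : ℕ} {T : ℤ} (hT : 1 ≤ T)
    (M : ι → Fin N → ℤ) (hM : ∀ i j, |M i j| ≤ T) (c : Fin N → F) (hc : c ≠ 0)
    (h : ∀ i, ∑ j, (M i j : F) * c j = 0) :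
    ∃ x : Fin N → ℤ, x ≠ 0 ∧ (∀ j, |x j| ≤ N.factorial * T ^ N) ∧ ∀ i, ∑ j, M i j * x j = 0 := by
  classical
  -- a non-zero minor of maximal size
  let P : ℕ → Prop := fun m => ∃ (I : Fin m → ι) (J : Fin m → Fin N),
    (Matrix.of fun a b => M (I a) (J b)).det ≠ 0
  have hP0 : P 0 := ⟨Fin.elim0, Fin.elim0, by simp⟩
  have hinj : ∀ (m : ℕ) (I : Fin m → ι) (J : Fin m → Fin N),
      (Matrix.of fun a b => M (I a) (J b)).det ≠ 0 → Function.Injective J := by
    intro m I J h1 a b hab
    by_contra h2
    exact h1 (Matrix.det_zero_of_column_eq h2 fun i => by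
      rw [Matrix.of_apply, Matrix.of_apply, hab])
  have hlt : ∀ m, P m → m < N := by
    rintro m ⟨I, J, h1⟩
    have h2 := hinj m I J h1
    have h3 : m ≤ N := by simpa using Fintype.card_le_of_injective J h2
    rcases Nat.lt_or_ge m N with h4 | h4
    · exact h4
    have h5 : m = N := le_antisymm h3 h4
    subst h5
    exfalso
    have h6 : Function.Bijective J := (Fintype.bijective_iff_injective_and_card J).2 ⟨h2, rfl⟩
    let A : Matrix (Fin m) (Fin m) F := Matrix.of fun a b => (M (I a) (J b) : F)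
    have h7 : A.det ≠ 0 := by
      have h8 : A = (Matrix.of fun a b => M (I a) (J b)).map (Int.castRingHom F) := by
        ext a b; simp [A]
      rw [h8, ← RingHom.mapMatrix_apply, ← RingHom.map_det]
      simpa using h1
    have h8 : A.mulVec (fun b => c (J b)) = 0 := by
      funext a
      have h9 := h (I a)
      rw [Pi.zero_apply, ← h9]
      exact (Equiv.ofBijective J h6).sum_comp (fun j => (M (I a) j : F) * c j)
    have h9 := Matrix.eq_zero_of_mulVec_eq_zero h7 h8
    apply hc
    funext j
    obtain ⟨b, rfl⟩ := h6.2 j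
    exact congrFun h9 b
  obtain ⟨m, hm, hmax⟩ : ∃ m, P m ∧ ¬ P (m + 1) := by
    by_contra h1
    push Not at h1
    have h2 : ∀ n, P n := fun n => by
      induction n with
      | zero => exact hP0
      | succ n ih => exact h1 n ih
    exact lt_irrefl N (hlt N (h2 N))
  obtain ⟨I, J, hIJ⟩ := hm
  have hmN := hlt m ⟨I, J, hIJ⟩
  have hJ := hinj m I J hIJ
  obtain ⟨j0, hj0⟩ : ∃ j0, ∀ b, J b ≠ j0 := by
    by_contra h1
    push Not at h1
    have h2 : Function.Surjective J := fun j => h1 j
    have h3 := Fintype.card_le_of_surjective J h2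
    simp at h3
    omega
  let J' : Fin (m + 1) → Fin N := Fin.cons j0 J
  have hJ' : Function.Injective J' :=
    Fin.cons_injective_iff.2 ⟨fun ⟨b, hb⟩ => hj0 b hb, hJ⟩
  let mi : Fin (m + 1) → ℤ := fun k =>
    (Matrix.of fun (a b : Fin m) => M (I a) (J' (k.succAbove b))).det
  let x : Fin N → ℤ := fun j => ∑ k : Fin (m + 1), if J' k = j then (-1) ^ (k : ℕ) * mi k else 0
  have hxk : ∀ k, x (J' k) = (-1) ^ (k : ℕ) * mi k := by
    intro k
    change ∑ k' : Fin (m + 1), (if J' k' = J' k then (-1) ^ (k' : ℕ) * mi k' else 0) = _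
    rw [Finset.sum_eq_single k]
    · rw [if_pos rfl]
    · intro b _ hb
      rw [if_neg fun h1 => hb (hJ' h1)]
    · intro h1; exact absurd (Finset.mem_univ _) h1
  have hbd : ∀ k, |mi k| ≤ N.factorial * T ^ N := by
    intro k
    refine (det_le _ fun a b => hM _ _).trans ?_
    have h1 : ((m.factorial : ℕ) : ℤ) ≤ N.factorial := by
      exact_mod_cast Nat.factorial_le hmN.le
    have h2 : T ^ m ≤ T ^ N := pow_le_pow_right₀ hT hmN.le
    have h3 : (0 : ℤ) ≤ T ^ m := by positivity
    exact mul_le_mul h1 h2 h3 (by positivity)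
  refine ⟨x, ?_, ?_, ?_⟩
  · intro h1
    have h2 := hxk 0
    rw [h1] at h2
    simp only [Pi.zero_apply, Fin.val_zero, pow_zero, one_mul] at h2
    apply hIJ
    rw [h2]
    rfl
  · intro j
    by_cases h1 : ∃ k, J' k = j
    · obtain ⟨k, rfl⟩ := h1
      rw [hxk, abs_mul, abs_pow, abs_neg, abs_one, one_pow, one_mul]
      exact hbd k
    · push Not at h1
      have h2 : x j = 0 := Finset.sum_eq_zero fun k _ => if_neg (h1 k)
      rw [h2, abs_zero]
      positivity
  · intro i
    let B : Matrix (Fin (m + 1)) (Fin (m + 1)) ℤ :=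
      Matrix.of fun a b => M ((Fin.cons i I : Fin (m + 1) → ι) a) (J' b)
    have hB : B.det = 0 := by
      by_contra h1
      exact hmax ⟨Fin.cons i I, J', h1⟩
    rw [Matrix.det_succ_row_zero] at hB
    rw [← hB]
    have h1 : ∑ j, M i j * x j = ∑ k : Fin (m + 1), ∑ j,
        (if J' k = j then M i j * ((-1) ^ (k : ℕ) * mi k) else 0) := by
      rw [Finset.sum_comm]
      refine Finset.sum_congr rfl fun j _ => ?_
      change M i j * ∑ k : Fin (m + 1), (if J' k = j then (-1) ^ (k : ℕ) * mi k else 0) = _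
      rw [Finset.mul_sum]
      refine Finset.sum_congr rfl fun k _ => ?_
      split_ifs
      · rfl
      · rw [mul_zero]
    rw [h1]
    refine Finset.sum_congr rfl fun k _ => ?_
    rw [Finset.sum_ite_eq Finset.univ (J' k), if_pos (Finset.mem_univ _)]
    have h2 : B 0 k = M i (J' k) := rfl
    have h3 : (B.submatrix Fin.succ k.succAbove).det = mi k := rfl
    rw [h2, h3]
    ring

/-- The same when the rows are integral and the system has rank less than the number of columns:
stated with a finite index type of columns. -/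
theorem exists_int_sol' {ι κ F : Type*} [Fintype κ] [Field F] [CharZero F] {T : ℤ} (hT : 1 ≤ T)
    (M : ι → κ → ℤ) (hM : ∀ i j, |M i j| ≤ T) (c : κ → F) (hc : c ≠ 0)
    (h : ∀ i, ∑ j, (M i j : F) * c j = 0) :
    ∃ x : κ → ℤ, x ≠ 0 ∧
      (∀ j, |x j| ≤ (Fintype.card κ).factorial * T ^ Fintype.card κ) ∧
      ∀ i, ∑ j, M i j * x j = 0 := by
  classical
  let e := Fintype.equivFin κ
  obtain ⟨x, hx, hx1, hx2⟩ := exists_int_sol (F := F) hT (fun i j => M i (e.symm j))
    (fun i j => hM _ _) (fun j => c (e.symm j)) (fun h1 => hc (by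
      funext j
      have h2 := congrFun h1 (e j)
      simpa using h2)) (fun i => by
      rw [← h i]
      exact e.symm.sum_comp (fun j => (M i j : F) * c j))
  refine ⟨fun j => x (e j), fun h1 => hx (by
    funext j
    have h2 := congrFun h1 (e.symm j)
    simpa using h2), fun j => hx1 _, fun i => ?_⟩
  rw [← hx2 i, ← e.sum_comp]
  simp

end Pool.Agent.Lib.SQF.MinorSol
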