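import Mathlib
import Pool.Agent.Lib.SQF.ADefs
import Pool.Agent.Lib.SQF.Bez2
import Pool.Agent.Lib.SQF.MinorSol

/-!
# SQF: the first step. If all determinants of an arc vanish, its points lie on few curves

If every `N × N` determinant of `fv 1 (cols c)` at points of `S` is `0`, there is an integral vector
`k ≠ 0` with entries at most `C(N) (max |fv|)^N` and `∑ k_c fv_c = 0` on `S` (`exists_int_sol`, MinorSol), so
by `GoodCols` a polynomial `F ≠ 0` with `On F z` on `S`. `curves F` (Bez2): irreducible normalised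
factors, at most `natDegree + degT`, coefficients by `coeff_le_of_dvd`; the factors with
`natDegree = 0` are polynomials in `t` and vanish at `≤ 6 s + 1` values of `t` in all (product divides).
-/

set_option autoImplicit false

open Polynomial

namespace Pool.Agent.Lib.SQF

private lemma on_iff_ev (G : ℤ[X][X]) (z : ZPt) :
    On G z ↔ Bez.ev (Int.castRingHom ℚ) ((z.u : ℚ) / z.v) (z.n : ℚ) G = 0 := by
  rw [Bez.ev_eq_evalEval_map]
  rfl

private lemma t_inj {S : Finset ZPt} (hinj : TInj S) (hv : ∀ z ∈ S, z.v ≠ 0) :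
    Set.InjOn (fun z : ZPt => (z.u : ℚ) / z.v) S := by
  intro z hz z' hz' h
  apply hinj z hz z' hz'
  have h1 : (z.v : ℚ) ≠ 0 := by exact_mod_cast hv z hz
  have h2 : (z'.v : ℚ) ≠ 0 := by exact_mod_cast hv z' hz'
  simp only at h
  rw [div_eq_div_iff h1 h2] at h
  exact_mod_cast h

/-- the curves of a nonzero polynomial `F` vanishing at the points of `S` -/
theorem curves_cover (s e : ℕ) (H : ℝ) (F : ℤ[X][X]) (hF : F ≠ 0) (hFb : Bdd s e H F)
    (S : Finset ZPt) (hv : ∀ z ∈ S, z.v ≠ 0) (hinj : TInj S) (hz : ∀ z ∈ S, On F z) :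
    ∃ Γ : Finset ℤ[X][X], Γ.card ≤ s ∧
      (∀ G ∈ Γ, Irreducible G ∧ normalize G = G ∧ 1 ≤ G.natDegree ∧
        Bdd s e (Bez.hc s e * H) G) ∧
      ∀ Z ⊆ S, (∀ z ∈ Z, ∀ G ∈ Γ, ¬ On G z) → Z.card ≤ e := by
  classical
  have hFe : Bez.degT F ≤ e := (Bez.degT_le_iff F e).2 hFb.2.1
  have hirr : ∀ g ∈ Bez.curves F, Irreducible g := fun g hg => ((Bez.mem_curves hF).1 hg).1.1
  have hdvd : ∀ g ∈ Bez.curves F, g ∣ F := fun g hg => ((Bez.mem_curves hF).1 hg).2.1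
  refine ⟨(Bez.curves F).filter (fun G => 1 ≤ G.natDegree), ?_, ?_, ?_⟩
  · have h1 := Bez.sum_natDegree_le (Bez.curves F) id hirr (Bez.curves_not_associated hF) F hF hdvd
    refine le_trans ?_ (h1.trans hFb.1)
    rw [Finset.card_eq_sum_ones]
    refine (Finset.sum_le_sum fun G hG => (Finset.mem_filter.1 hG).2).trans ?_
    exact Finset.sum_le_sum_of_subset (Finset.filter_subset _ _)
  · intro G hG
    obtain ⟨hG1, hG2⟩ := Finset.mem_filter.1 hG
    obtain ⟨hc, hd, -⟩ := (Bez.mem_curves hF).1 hG1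
    refine ⟨hc.1, hc.2, hG2, (natDegree_le_of_dvd hd hF).trans hFb.1, ?_, ?_⟩
    · exact (Bez.degT_le_iff G e).1 ((Bez.degT_le_of_dvd hd hF).trans hFe)
    · intro l l'
      exact Bez.coeff_le_of_dvd G F hd hF s e hFb.1 hFe H hFb.2.2 l l'
  · intro Z hZ hZG
    set W := (Bez.curves F).filter (fun G => G.natDegree = 0) with hW
    have hWc : W ⊆ Bez.curves F := Finset.filter_subset _ _
    set R : ℤ[X] := ∏ G ∈ W, G.coeff 0 with hR
    have hGC : ∀ G ∈ W, G = C (G.coeff 0) := fun G hG =>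
      eq_C_of_natDegree_eq_zero (Finset.mem_filter.1 hG).2
    have hG0 : ∀ G ∈ W, G.coeff 0 ≠ 0 := by
      intro G hG h0
      have h1 := hGC G hG
      rw [h0, C_0] at h1
      exact (hirr G (hWc hG)).ne_zero h1
    have hR0 : R ≠ 0 := Finset.prod_ne_zero_iff.2 hG0
    have hRd : R.natDegree ≤ e := by
      rw [hR, natDegree_prod _ _ hG0]
      have h1 := Bez.sum_degT_le W id (fun g hg => hirr g (hWc hg))
        (fun g hg h hh hne => Bez.curves_not_associated hF g (hWc hg) h (hWc hh) hne) F hF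
        (fun g hg => hdvd g (hWc hg))
      refine le_trans (Finset.sum_le_sum fun G hG => ?_) (h1.trans hFe)
      exact Bez.natDegree_coeff_le G 0
    have hRm : (R.map (Int.castRingHom ℚ)) ≠ 0 :=
      (Polynomial.map_ne_zero_iff (RingHom.injective_int _)).2 hR0
    have hroot : ∀ z ∈ Z, ((z.u : ℚ) / z.v) ∈ (R.map (Int.castRingHom ℚ)).roots.toFinset := by
      intro z hzZ
      have h1 := (on_iff_ev F z).1 (hz z (hZ hzZ))
      obtain ⟨G, hG, hG0'⟩ := Bez.exists_mem_curves hF (Int.castRingHom ℚ)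
        (RingHom.injective_int _) _ _ h1
      have hGd : G.natDegree = 0 := by
        by_contra hne
        exact hZG z hzZ G (Finset.mem_filter.2 ⟨hG, Nat.one_le_iff_ne_zero.2 hne⟩)
          ((on_iff_ev G z).2 hG0')
      have hGW : G ∈ W := Finset.mem_filter.2 ⟨hG, hGd⟩
      rw [hGC G hGW, Bez.ev_C] at hG0'
      rw [Multiset.mem_toFinset, mem_roots hRm, IsRoot, eval_map, hR, eval₂_finset_prod]
      exact Finset.prod_eq_zero hGW hG0'
    calc Z.card = (Z.image fun z : ZPt => (z.u : ℚ) / z.v).card := by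
          rw [Finset.card_image_of_injOn]
          exact (t_inj hinj hv).mono (by exact_mod_cast hZ)
      _ ≤ (R.map (Int.castRingHom ℚ)).roots.toFinset.card := by
          apply Finset.card_le_card
          intro q hq
          obtain ⟨z, hzZ, rfl⟩ := Finset.mem_image.1 hq
          exact hroot z hzZ
      _ ≤ (R.map (Int.castRingHom ℚ)).natDegree :=
          (Multiset.toFinset_card_le _).trans (card_roots' _)
      _ ≤ R.natDegree := natDegree_map_le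
      _ ≤ e := hRd

/-- the size of a `(1, s)`-monomial at a solution -/
private lemma abs_fv_le {g : ℤ[X]} {s : ℕ} {K Y P U : ℝ} {e1 e2 : Fin 4 → ℤ} {z : ZPt}
    (hY : 1 ≤ Y) (hP : 1 ≤ P) (hz : AOK g K Y P e1 e2 z) (hu : |(z.u : ℝ)| ≤ U)
    (hv : |(z.v : ℝ)| ≤ U) (c : ℕ × (Fin 4 → ℕ)) (hc : IsCol 1 s c) :
    |((fv 1 c z : ℤ) : ℝ)| ≤ U * (K * Y) ^ s := by
  have hb : ∀ j, |((z.b j : ℤ) : ℝ)| ≤ K * Y := by
    intro j
    have h1 := hz.2.coeffβ j
    have h2 : (1 : ℝ) ≤ (P ^ ((1 : ℝ) / (4 : ℕ))) ^ 2 :=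
      one_le_pow₀ (Real.one_le_rpow hP (by positivity))
    calc |((z.b j : ℤ) : ℝ)| = |((z.b j : ℤ) : ℝ)| * 1 := by ring
      _ ≤ |((z.b j : ℤ) : ℝ)| * (P ^ ((1 : ℝ) / (4 : ℕ))) ^ 2 :=
          mul_le_mul_of_nonneg_left h2 (abs_nonneg _)
      _ ≤ K * Y := h1
  have hKY : 0 ≤ K * Y := (abs_nonneg _).trans (hb 0)
  have hU : 0 ≤ U := (abs_nonneg _).trans hu
  unfold fv
  push_cast
  rw [abs_mul, abs_mul, Finset.abs_prod]
  have h1 : |(z.u : ℝ) ^ c.1| * |(z.v : ℝ) ^ (1 - c.1)| ≤ U := by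
    have h2 : c.1 = 0 ∨ c.1 = 1 := by
      have := hc.1
      omega
    rcases h2 with h2 | h2 <;> rw [h2] <;> simp
    · exact hv
    · exact hu
  have h3 : ∏ j, |((z.b j : ℤ) : ℝ) ^ c.2 j| ≤ (K * Y) ^ s := by
    rw [← hc.2, ← Finset.prod_pow_eq_pow_sum]
    apply Finset.prod_le_prod
    · intro j _; positivity
    · intro j _
      rw [abs_pow]
      exact pow_le_pow_left₀ (abs_nonneg _) (hb j) _
  exact mul_le_mul h1 h3 (Finset.prod_nonneg fun _ _ => abs_nonneg _) hU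

open Classical in
theorem afirst {g : ℤ[X]} (s N : ℕ) (K A : ℝ) : ∃ A' : ℝ, 0 < A' ∧ ∃ Y0 : ℝ, 1 ≤ Y0 ∧
    ∀ Y P : ℝ, Y0 ≤ Y → 1 ≤ P → ∀ (e1 e2 : Fin 4 → ℤ) (cols : Fin N → ℕ × (Fin 4 → ℕ)),
      GoodCols g e1 e2 1 s N (Y ^ A) cols → ∀ S : Finset ZPt,
      (∀ z ∈ S, AOK g K Y P e1 e2 z ∧ |(z.u : ℝ)| ≤ Y ^ A ∧ |(z.v : ℝ)| ≤ Y ^ A) → TInj S →
      (∀ x : Fin N → ZPt, (∀ r, x r ∈ S) →
        Matrix.det (Matrix.of fun r c => fv 1 (cols c) (x r)) = 0) →
      ∃ Γ : Finset ℤ[X][X], Γ.card ≤ s ∧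
        (∀ G ∈ Γ, Irreducible G ∧ normalize G = G ∧ 1 ≤ G.natDegree ∧ Bdd s (6 * s + 1) (Y ^ A') G) ∧
        (S.filter fun z => ∀ G ∈ Γ, ¬ On G z).card ≤ 6 * s + 1 := by
  set C0 : ℝ := Bez.hc s (6 * s + 1) * (N.factorial * 2 ^ N) with hC0
  set a : ℝ := |A| + 2 * s with ha
  have ha0 : 0 ≤ a := by positivity
  refine ⟨1 + |A| + N * a, by positivity, max 1 (max |K| C0), le_max_left _ _, ?_⟩
  intro Y P hY0 hP e1 e2 cols hcols S hS hinj hdet
  have hY1 : 1 ≤ Y := (le_max_left _ _).trans hY0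
  have hYpos : 0 < Y := by linarith
  have hYK : |K| ≤ Y := (le_max_left _ _).trans ((le_max_right _ _).trans hY0)
  have hYC : C0 ≤ Y := (le_max_right _ _).trans ((le_max_right _ _).trans hY0)
  rcases S.eq_empty_or_nonempty with rfl | ⟨z0, hz0⟩
  · exact ⟨∅, by simp, by simp, by simp⟩
  have hYA : Y ^ A ≤ Y ^ |A| := Real.rpow_le_rpow_of_exponent_le hY1 (le_abs_self A)
  -- the size of the values
  have hval : ∀ z ∈ S, ∀ c, |((fv 1 (cols c) z : ℤ) : ℝ)| ≤ Y ^ a := by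
    intro z hz c
    have h1 := abs_fv_le hY1 hP (hS z hz).1 (hS z hz).2.1 (hS z hz).2.2 (cols c) (hcols.1 c)
    have hKY : K * Y ≤ Y ^ (2 : ℝ) := by
      have h2 : K * Y ≤ |K| * Y := mul_le_mul_of_nonneg_right (le_abs_self K) hYpos.le
      have h3 : |K| * Y ≤ Y * Y := mul_le_mul_of_nonneg_right hYK hYpos.le
      calc K * Y ≤ Y * Y := h2.trans h3
        _ = Y ^ (2 : ℝ) := by rw [Real.rpow_two]; ring
    have hKY0 : 0 ≤ K * Y := by
      have h2 := (hS z hz).1.2.m_le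
      have h3 : 0 ≤ K := (abs_nonneg _).trans h2
      positivity
    calc |((fv 1 (cols c) z : ℤ) : ℝ)| ≤ Y ^ A * (K * Y) ^ s := h1
      _ ≤ Y ^ |A| * (Y ^ (2 : ℝ)) ^ s := by
          apply mul_le_mul hYA (pow_le_pow_left₀ hKY0 hKY s) (by positivity) (by positivity)
      _ = Y ^ a := by
          rw [← Real.rpow_natCast, ← Real.rpow_mul hYpos.le, ← Real.rpow_add hYpos]
  set T : ℤ := ⌈Y ^ a⌉ with hT
  have hYa : 1 ≤ Y ^ a := Real.one_le_rpow hY1 ha0
  have hT1 : 1 ≤ T := by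
    rw [hT]
    exact Int.one_le_ceil_iff.2 (by linarith)
  have hT2 : (T : ℝ) ≤ 2 * Y ^ a := by
    have := (Int.ceil_lt_add_one (Y ^ a)).le
    rw [hT]
    linarith
  have hTval : ∀ z ∈ S, ∀ c, |fv 1 (cols c) z| ≤ T := by
    intro z hz c
    have h1 := hval z hz c
    have h2 : ((|fv 1 (cols c) z| : ℤ) : ℝ) ≤ (T : ℝ) := by
      rw [Int.cast_abs]
      exact h1.trans (Int.le_ceil _)
    exact_mod_cast h2
  -- a rational relation
  obtain ⟨c, hc0, hc⟩ : ∃ c : Fin N → ℚ, c ≠ 0 ∧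
      ∀ z ∈ S, ∑ j, ((fv 1 (cols j) z : ℤ) : ℚ) * c j = 0 := by
    by_contra hne
    push Not at hne
    obtain ⟨p, hp, hpd⟩ := Bez.exists_rows (K := ℚ) (N := N) (S : Set ZPt)
      (fun z j => ((fv 1 (cols j) z : ℤ) : ℚ)) (by
        intro c hc
        by_contra hc0
        obtain ⟨z, hz, hz'⟩ := hne c hc0
        apply hz'
        rw [← hc z hz]
        exact Finset.sum_congr rfl fun j _ => mul_comm _ _)
    apply hpd
    have h1 := hdet p (fun r => by exact_mod_cast hp r)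
    have h2 : (Matrix.of fun k j => ((fv 1 (cols j) (p k) : ℤ) : ℚ)) =
        (Matrix.of fun r c => fv 1 (cols c) (p r)).map (Int.cast : ℤ → ℚ) := rfl
    rw [h2, ← Int.cast_det, h1, Int.cast_zero]
  obtain ⟨k, hk0, hkT, hk⟩ := MinorSol.exists_int_sol (F := ℚ) (ι := S) (N := N) hT1
    (fun z j => fv 1 (cols j) z) (fun z j => hTval z z.2 j) c hc0 (fun z => hc z z.2)
  -- the polynomial
  obtain ⟨F, hF0, hFb, hFon⟩ := hcols.2 k hk0
  have hTR : ∀ c, |((k c : ℤ) : ℝ)| ≤ N.factorial * (2 * Y ^ a) ^ N := by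
    intro c
    have h1 := hkT c
    have h2 : ((|k c| : ℤ) : ℝ) ≤ ((N.factorial * T ^ N : ℤ) : ℝ) := by exact_mod_cast h1
    rw [Int.cast_abs] at h2
    refine h2.trans ?_
    push_cast
    have hT0 : (0 : ℝ) ≤ (T : ℝ) := by
      have : (1 : ℝ) ≤ (T : ℝ) := by exact_mod_cast hT1
      linarith
    exact mul_le_mul_of_nonneg_left (pow_le_pow_left₀ hT0 hT2 N) (by positivity)
  have hFb' := hFb _ hTR
  have hOn : ∀ z ∈ S, On F z := by
    intro z hz
    rw [hFon K Y P z (hS z hz).1]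
    rw [← hk ⟨z, hz⟩]
    exact Finset.sum_congr rfl fun j _ => mul_comm _ _
  obtain ⟨Γ, hΓ1, hΓ2, hΓ3⟩ := curves_cover s (6 * s + 1) _ F hF0 hFb' S
    (fun z hz => (hS z hz).1.1) hinj hOn
  refine ⟨Γ, hΓ1, fun G hG => ?_, ?_⟩
  · obtain ⟨h1, h2, h3, h4, h5, h6⟩ := hΓ2 G hG
    refine ⟨h1, h2, h3, h4, h5, fun l l' => (h6 l l').trans ?_⟩
    calc (Bez.hc s (6 * s + 1) : ℝ) * (Y ^ A * (N.factorial * (2 * Y ^ a) ^ N))
        = C0 * (Y ^ A * (Y ^ a) ^ N) := by rw [hC0, mul_pow]; ring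
      _ ≤ Y * (Y ^ |A| * (Y ^ a) ^ N) := by
          apply mul_le_mul hYC _ (by positivity) hYpos.le
          exact mul_le_mul_of_nonneg_right hYA (by positivity)
      _ = Y ^ (1 + |A| + N * a) := by
          rw [← Real.rpow_natCast (Y ^ a) N, ← Real.rpow_mul hYpos.le, Real.rpow_add hYpos,
            Real.rpow_add hYpos, Real.rpow_one, mul_comm a (N : ℝ)]
          ring
  · apply hΓ3 _ (Finset.filter_subset _ _)
    intro z hz
    exact (Finset.mem_filter.1 hz).2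

end Pool.Agent.Lib.SQF
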