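import Mathlib
import Pool.Agent.Lib.SQF.ADefs
import Pool.Agent.Lib.SQF.Bez2

/-!
# SQF: a form of `n`-degree `≤ s` does not vanish on `J > s / 2` curves of `n`-degree `≥ 2`

`bez_dvd`: a polynomial vanishing at more than Bezout many points of an irreducible curve is divisible
by it (`bezout_card` of Prm; `On` is `hev = 0`, `hev_eq`).
`no_form`: by `GoodCols` the combination is a polynomial `F ≠ 0` with `natDegree F ≤ s`; if it vanished on
all `C j`, all `G j` would divide `F`, so `∑ natDegree (G j) ≤ s` (`sum_natDegree_le` of Bez2), but the sum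
is at least `2 J > s`.
-/

set_option autoImplicit false

open Polynomial

namespace Pool.Agent.Lib.SQF

theorem bez_dvd (a b e : ℕ) (G F : ℤ[X][X]) (hG : Irreducible G) (hG1 : 1 ≤ G.natDegree)
    (hGa : G.natDegree ≤ a) (hFb : F.natDegree ≤ b) (hGe : ∀ l, (G.coeff l).natDegree ≤ e)
    (hFe : ∀ l, (F.coeff l).natDegree ≤ e) (S : Finset ZPt) (hS : ∀ z ∈ S, z.v ≠ 0 ∧ On G z ∧ On F z)
    (hinj : TInj S) (hcard : (a + b) * e < S.card) : G ∣ F := by
  classical
  by_contra hF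
  have hon : ∀ (H : ℤ[X][X]), (∀ l, (H.coeff l).natDegree ≤ e) → ∀ z : ZPt, z.v ≠ 0 → On H z →
      hev e H z.u z.v z.n = 0 := by
    intro H hH z hv h
    have h1 := hev_eq e H hH z.u z.v z.n hv
    have h2 : (H.map (mapRingHom (Int.castRingHom ℚ))).evalEval ((z.u : ℚ) / z.v) (z.n : ℚ) = 0 := h
    rw [h2, mul_zero] at h1
    exact_mod_cast h1
  set f : ZPt → ℤ × ℤ × ℤ := fun z => (z.u, z.v, z.n) with hf
  have hfi : Set.InjOn f S := by
    intro z hz z' hz' h
    apply hinj z hz z' hz'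
    have h1 : z.u = z'.u := congrArg (fun q : ℤ × ℤ × ℤ => q.1) h
    have h2 : z.v = z'.v := congrArg (fun q : ℤ × ℤ × ℤ => q.2.1) h
    rw [h1, h2]
  have h1 := bezout_card a b e G F hG (by omega) hGa hFb hGe hFe hF (S.image f)
    (by
      intro Q hQ
      obtain ⟨z, hz, rfl⟩ := Finset.mem_image.1 hQ
      exact (hS z hz).1)
    (by
      intro Q hQ Q' hQ' h
      obtain ⟨z, hz, rfl⟩ := Finset.mem_image.1 hQ
      obtain ⟨z', hz', rfl⟩ := Finset.mem_image.1 hQ'
      rw [hinj z hz z' hz' h])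
    (by
      intro Q hQ
      obtain ⟨z, hz, rfl⟩ := Finset.mem_image.1 hQ
      exact ⟨hon G hGe z (hS z hz).1 (hS z hz).2.1, hon F hFe z (hS z hz).1 (hS z hz).2.2⟩)
  rw [Finset.card_image_of_injOn hfi] at h1
  omega

theorem no_form {g : ℤ[X]} (e1 e2 : Fin 4 → ℤ) (s N J e : ℕ) (B K Y P : ℝ)
    (cols : Fin N → ℕ × (Fin 4 → ℕ)) (hcols : GoodCols g e1 e2 1 s N B cols) (hJ : s < 2 * J)
    (he : 6 * s + 1 ≤ e)
    (G : Fin J → ℤ[X][X]) (hG : ∀ j, Irreducible (G j) ∧ normalize (G j) = G j ∧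
      2 ≤ (G j).natDegree ∧ (G j).natDegree ≤ s ∧ ∀ l, ((G j).coeff l).natDegree ≤ e)
    (hGi : Function.Injective G) (C : Fin J → Finset ZPt)
    (hC : ∀ j, ∀ z ∈ C j, AOK g K Y P e1 e2 z ∧ On (G j) z) (hinj : ∀ j, TInj (C j))
    (hcard : ∀ j, 2 * s * e < (C j).card) (k : Fin N → ℤ) (hk : k ≠ 0) :
    ∃ j, ∃ z ∈ C j, ∑ c, k c * fv 1 (cols c) z ≠ 0 := by
  classical
  by_contra hne
  push Not at hne
  obtain ⟨F, hF0, hFb, hFon⟩ := hcols.2 k hk
  obtain ⟨hFs, hFe, -⟩ := hFb (∑ c, |((k c : ℤ) : ℝ)|) (fun c =>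
    Finset.single_le_sum (f := fun c => |((k c : ℤ) : ℝ)|) (fun _ _ => abs_nonneg _)
      (Finset.mem_univ c))
  have hdvd : ∀ j, G j ∣ F := by
    intro j
    obtain ⟨h1, h2, h3, h4, h5⟩ := hG j
    refine bez_dvd s s e (G j) F h1 (by omega) h4 hFs h5 (fun l => (hFe l).trans he) (C j) ?_
      (hinj j) ?_
    · intro z hz
      exact ⟨(hC j z hz).1.1, (hC j z hz).2, (hFon K Y P z (hC j z hz).1).2 (hne j z hz)⟩
    · have h6 := hcard j
      calc (s + s) * e = 2 * s * e := by ring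
        _ < (C j).card := h6
  have hsum := Bez.sum_natDegree_le (Finset.univ : Finset (Fin J)) G (fun j _ => (hG j).1)
    (by
      intro i _ j _ hij hass
      apply hij
      apply hGi
      rw [← (hG i).2.1, ← (hG j).2.1]
      exact normalize_eq_normalize_iff_associated.2 hass) F hF0 (fun j _ => hdvd j)
  have h1 : ∑ _j : Fin J, 2 ≤ ∑ j : Fin J, (G j).natDegree :=
    Finset.sum_le_sum fun j _ => (hG j).2.2.1
  rw [Finset.sum_const, Finset.card_univ, Fintype.card_fin, smul_eq_mul] at h1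
  omega

end Pool.Agent.Lib.SQF
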