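import Pool.Agent.Lib.SQF.RealRank

/-!
# SQF, numerics of range A (S6 6.8)

`Adm N s R E`: admissible sets of exponents `(i, l)` (monomials `t^i nu^l`) of an `N x N`
determinant with the laminar caps `R J` on the number of exponents with `l <= J`.
`GainOK N s R w G`: every admissible set has weight at least `G`, the weight of `(i, l)` being
`w * i + l`.
`CertA d0 d1 x0 x1`, `CertU d0 d1 x0 x1`: the scales of the cluster lemma exist, for all
`d` in `[d0, d1]` and all slices with `|u|, |v| <= Y ^ ((1+d)/6 + x)`, `x` in `[x0, x1]`.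
`numA_glue`: a finite chain of such boxes covers `[-1/100, 38/100]`.
-/

set_option autoImplicit false

open Finset

namespace Pool.Agent.Lib.SQF

/-- Admissible sets of exponents (laminar caps). -/
def Adm (N s : ℕ) (R : ℕ → ℕ) (E : Finset (ℕ × ℕ)) : Prop :=
  E.card = N ∧ (∀ x ∈ E, x.2 ≤ s) ∧ ∀ J, J ≤ s → (E.filter (fun x => x.2 ≤ J)).card ≤ R J

/-- `G` is a gain at scale `w`. -/
def GainOK (N s : ℕ) (R : ℕ → ℕ) (w G : ℝ) : Prop :=
  ∀ E : Finset (ℕ × ℕ), Adm N s R E → G ≤ ∑ x ∈ E, (w * (x.1 : ℝ) + (x.2 : ℝ))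

theorem GainOK.mono {N s : ℕ} {R : ℕ → ℕ} {w w' G G' : ℝ} (h : GainOK N s R w G)
    (hw : w ≤ w') (hG : G' ≤ G) : GainOK N s R w' G' := by
  intro E hE
  refine (hG.trans (h E hE)).trans (Finset.sum_le_sum (fun x _ => ?_))
  have h1 : (0 : ℝ) ≤ (x.1 : ℝ) := Nat.cast_nonneg _
  nlinarith

/-- Weak duality for the weight of admissible sets. -/
theorem gainOK_dual (N s : ℕ) (R : ℕ → ℕ) (w τ : ℝ) (M : ℕ → ℝ)
    (hM : ∀ q, q ≤ s → M (q + 1) ≤ M q) (hM0 : M (s + 1) = 0) (c : ℕ → ℕ)
    (hc1 : ∀ q ≤ s, ∀ i, i < c q → 0 ≤ τ - q - M q - w * i)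
    (hc2 : ∀ q ≤ s, ∀ i, c q ≤ i → τ - q - M q - w * i ≤ 0) (G : ℝ)
    (hG : G ≤ N * τ - ∑ J ∈ range (s + 1), (M J - M (J + 1)) * (R J : ℝ) -
      ∑ q ∈ range (s + 1), ∑ i ∈ range (c q), (τ - q - M q - w * i)) :
    GainOK N s R w G := by
  classical
  intro E hE
  obtain ⟨hcard, hs, hcap⟩ := hE
  refine hG.trans ?_
  -- telescoping
  have htel : ∀ q, q ≤ s → M q = ∑ J ∈ range (s + 1), if q ≤ J then (M J - M (J + 1)) else 0 := by
    intro q hq
    rw [← Finset.sum_filter]
    have h1 : (range (s + 1)).filter (fun J => q ≤ J) = Finset.Ico q (s + 1) := by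
      ext J
      simp only [Finset.mem_filter, Finset.mem_range, Finset.mem_Ico]
      tauto
    rw [h1, Finset.sum_Ico_eq_sub _ (by omega : q ≤ s + 1), Finset.sum_range_sub',
      Finset.sum_range_sub', hM0]
    ring
  have h1 : ∑ x ∈ E, M x.2 ≤ ∑ J ∈ range (s + 1), (M J - M (J + 1)) * (R J : ℝ) := by
    have h2 : ∑ x ∈ E, M x.2 =
        ∑ J ∈ range (s + 1), (M J - M (J + 1)) * ((E.filter (fun x => x.2 ≤ J)).card : ℝ) := by
      rw [Finset.sum_congr rfl (fun x hx => htel x.2 (hs x hx)), Finset.sum_comm]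
      refine Finset.sum_congr rfl (fun J _ => ?_)
      rw [← Finset.sum_filter, Finset.sum_const, nsmul_eq_mul, mul_comm]
    rw [h2]
    refine Finset.sum_le_sum (fun J hJ => ?_)
    have h3 : J ≤ s := by
      have := Finset.mem_range.1 hJ
      omega
    exact mul_le_mul_of_nonneg_left (by exact_mod_cast hcap J h3) (by linarith [hM J h3])
  -- the positive parts
  have h4 : ∑ x ∈ E, (τ - (x.2 : ℝ) - M x.2 - w * (x.1 : ℝ)) ≤
      ∑ q ∈ range (s + 1), ∑ i ∈ range (c q), (τ - q - M q - w * i) := by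
    have h5 : ∑ x ∈ E, (τ - (x.2 : ℝ) - M x.2 - w * (x.1 : ℝ)) =
        ∑ q ∈ range (s + 1), ∑ x ∈ E.filter (fun x => x.2 = q),
          (τ - (x.2 : ℝ) - M x.2 - w * (x.1 : ℝ)) := by
      rw [Finset.sum_fiberwise_of_maps_to]
      intro x hx
      rw [Finset.mem_range]
      have := hs x hx
      omega
    rw [h5]
    refine Finset.sum_le_sum (fun q hq => ?_)
    have hq' : q ≤ s := by
      have := Finset.mem_range.1 hq
      omega
    set A : Finset ℕ := (E.filter (fun x => x.2 = q)).image Prod.fst with hA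
    have h6 : ∑ x ∈ E.filter (fun x => x.2 = q), (τ - (x.2 : ℝ) - M x.2 - w * (x.1 : ℝ)) =
        ∑ i ∈ A, (τ - q - M q - w * i) := by
      rw [hA, Finset.sum_image]
      · refine Finset.sum_congr rfl (fun x hx => ?_)
        rw [(Finset.mem_filter.1 hx).2]
      · intro x hx y hy hxy
        have hx2 := (Finset.mem_filter.1 (Finset.mem_coe.1 hx)).2
        have hy2 := (Finset.mem_filter.1 (Finset.mem_coe.1 hy)).2
        exact Prod.ext hxy (hx2.trans hy2.symm)
    rw [h6]
    have h7 : ∑ i ∈ A, (τ - q - M q - w * i) ≤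
        ∑ i ∈ A.filter (fun i => i < c q), (τ - q - M q - w * i) := by
      rw [← Finset.sum_filter_add_sum_filter_not A (fun i => i < c q)]
      have h8 : ∑ i ∈ A.filter (fun i => ¬ i < c q), (τ - q - M q - w * (i : ℝ)) ≤ 0 :=
        Finset.sum_nonpos (fun i hi => hc2 q hq' i (not_lt.1 (Finset.mem_filter.1 hi).2))
      linarith
    refine h7.trans ?_
    refine Finset.sum_le_sum_of_subset_of_nonneg ?_ ?_
    · intro i hi
      rw [Finset.mem_range]
      exact (Finset.mem_filter.1 hi).2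
    · intro i hi _
      exact hc1 q hq' i (Finset.mem_range.1 hi)
  have h9 : ∑ x ∈ E, (w * (x.1 : ℝ) + (x.2 : ℝ)) =
      N * τ - ∑ x ∈ E, M x.2 - ∑ x ∈ E, (τ - (x.2 : ℝ) - M x.2 - w * (x.1 : ℝ)) := by
    have h10 : (N : ℝ) * τ = ∑ _x ∈ E, τ := by
      rw [Finset.sum_const, nsmul_eq_mul, hcard]
    rw [h10, ← Finset.sum_sub_distrib, ← Finset.sum_sub_distrib]
    refine Finset.sum_congr rfl (fun x _ => ?_)
    ring
  rw [h9]
  linarith

/-! ### integer certificates -/

/-- size of level `q` -/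
def nlev (s q : ℕ) : ℕ := 6 * s + 2 - 8 * q

/-- multiplier of level `q`, scaled by `D` -/
def mlev (s D W T q : ℕ) : ℕ := T - (D * q + W * nlev s q)

def alev (s D W T q : ℕ) : ℕ := T - D * q - mlev s D W T q

def clev (s D W T q : ℕ) : ℕ := (alev s D W T q + W - 1) / W

def plev (s D W T q : ℕ) : ℕ :=
  2 * mlev s D W T q * nlev s q + clev s D W T q * (2 * alev s D W T q + W - W * clev s D W T q)

/-- the sum of `plev` over the levels `< n` -/
def psum (s D W T : ℕ) : ℕ → ℕ
  | 0 => 0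
  | n + 1 => psum s D W T n + plev s D W T n

/-- antitone multipliers on the levels `≤ n` -/
def okMon (s D W T : ℕ) : ℕ → Bool
  | 0 => true
  | n + 1 => okMon s D W T n && Nat.ble (mlev s D W T (n + 1)) (mlev s D W T n)

/-- all `alev` on the levels `< n` vanish -/
def okZero (s D W T : ℕ) : ℕ → Bool
  | 0 => true
  | n + 1 => okZero s D W T n && Nat.beq (alev s D W T n) 0

def okScale (s D W T : ℕ) : Bool :=
  okMon s D W T s && (Nat.ble 1 W || okZero s D W T (s + 1))

private lemma numA_okMon (s D W T : ℕ) : ∀ n, okMon s D W T n = true →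
    ∀ q, q < n → mlev s D W T (q + 1) ≤ mlev s D W T q := by
  intro n
  induction n with
  | zero => intro _ q hq; omega
  | succ n ih =>
    intro h q hq
    rw [okMon, Bool.and_eq_true] at h
    rcases Nat.lt_succ_iff_lt_or_eq.1 hq with h1 | h1
    · exact ih h.1 q h1
    · subst h1
      exact Nat.le_of_ble_eq_true h.2

private lemma numA_okZero (s D W T : ℕ) : ∀ n, okZero s D W T n = true →
    ∀ q, q < n → alev s D W T q = 0 := by
  intro n
  induction n with
  | zero => intro _ q hq; omega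
  | succ n ih =>
    intro h q hq
    rw [okZero, Bool.and_eq_true] at h
    rcases Nat.lt_succ_iff_lt_or_eq.1 hq with h1 | h1
    · exact ih h.1 q h1
    · subst h1
      exact Nat.eq_of_beq_eq_true h.2

private lemma numA_psum (s D W T n : ℕ) :
    psum s D W T n = ∑ q ∈ range n, plev s D W T q := by
  induction n with
  | zero => simp [psum]
  | succ n ih => rw [psum, ih, Finset.sum_range_succ]

private lemma numA_abel (s : ℕ) (M : ℕ → ℝ) (n : ℕ) :
    ∑ J ∈ range n, (M J - M (J + 1)) * (RA 1 s J : ℝ) =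
      ∑ q ∈ range n, M q * (nlev s q : ℝ) - M n * ∑ q ∈ range n, (nlev s q : ℝ) := by
  induction n with
  | zero => simp
  | succ n ih =>
    rw [Finset.sum_range_succ, ih, Finset.sum_range_succ, Finset.sum_range_succ]
    have h1 : (RA 1 s n : ℝ) = ∑ q ∈ range n, (nlev s q : ℝ) + (nlev s n : ℝ) := by
      rw [← Finset.sum_range_succ]
      unfold RA nlev
      push_cast
      rfl
    rw [h1]
    ring

private lemma numA_sum_lin (c : ℕ) (a w : ℝ) :
    ∑ i ∈ range c, (a - w * (i : ℝ)) = c * a - w * (c * (c - 1) / 2) := by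
  induction c with
  | zero => simp
  | succ c ih =>
    rw [Finset.sum_range_succ, ih]
    push_cast
    ring

/-- The integer computation gives a gain. -/
theorem gainOK_scale (s D W T : ℕ) (hD : 0 < D) (hok : okScale s D W T = true) :
    GainOK (2 * (s + 1) ^ 2) s (RA 1 s) ((W : ℝ) / D)
      ((2 * ((2 * (s + 1) ^ 2 : ℕ) : ℝ) * T - (psum s D W T (s + 1) : ℝ)) / (2 * D)) := by
  have hD' : (0 : ℝ) < D := by exact_mod_cast hD
  rw [okScale, Bool.and_eq_true, Bool.or_eq_true] at hok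
  obtain ⟨hmon, hz⟩ := hok
  have hmon' := numA_okMon s D W T s hmon
  have hz' : W = 0 → ∀ q, q ≤ s → alev s D W T q = 0 := by
    intro hW q hq
    rcases hz with h | h
    · have := Nat.le_of_ble_eq_true h
      omega
    · exact numA_okZero s D W T (s + 1) h q (by omega)
  -- basic facts on one level
  have hreal : ∀ q, ((T : ℝ) - D * q - (mlev s D W T q : ℝ)) ≤ (alev s D W T q : ℝ) := by
    intro q
    have h1 : T ≤ alev s D W T q + D * q + mlev s D W T q := by
      unfold alev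
      omega
    have h2 : (T : ℝ) ≤ (alev s D W T q : ℝ) + D * q + (mlev s D W T q : ℝ) := by
      exact_mod_cast h1
    linarith
  have hreal' : ∀ q, 0 < alev s D W T q →
      ((T : ℝ) - D * q - (mlev s D W T q : ℝ)) = (alev s D W T q : ℝ) := by
    intro q hq
    have h1 : T = alev s D W T q + D * q + mlev s D W T q := by
      unfold alev at hq ⊢
      omega
    have h2 : (T : ℝ) = (alev s D W T q : ℝ) + D * q + (mlev s D W T q : ℝ) := by
      exact_mod_cast h1
    linarith
  have hc0 : ∀ q, 0 < clev s D W T q → 0 < W ∧ 0 < alev s D W T q := by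
    intro q hq
    have hW : 0 < W := by
      rcases Nat.eq_zero_or_pos W with h | h
      · rw [clev, h, Nat.div_zero] at hq
        omega
      · exact h
    refine ⟨hW, ?_⟩
    by_contra hcon
    have h0 : alev s D W T q = 0 := by omega
    have h1 : clev s D W T q = 0 := by
      rw [clev, h0]
      exact Nat.div_eq_of_lt (by omega)
    omega
  have hcl : ∀ q, 0 < W → W * clev s D W T q ≤ alev s D W T q + W - 1 := by
    intro q _
    rw [clev]
    exact Nat.mul_div_le _ _
  have hcu : ∀ q, 0 < W → alev s D W T q ≤ W * clev s D W T q := by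
    intro q hW
    have h1 : alev s D W T q + W - 1 < W * ((alev s D W T q + W - 1) / W + 1) :=
      Nat.lt_mul_div_succ _ hW
    rw [← clev, Nat.mul_add, Nat.mul_one] at h1
    omega
  set M : ℕ → ℝ := fun q => if q ≤ s then (mlev s D W T q : ℝ) / D else 0 with hMdef
  have hMq : ∀ q, q ≤ s → M q = (mlev s D W T q : ℝ) / D := fun q hq => if_pos hq
  have hτ : ∀ q, q ≤ s → ∀ i : ℕ, ((T : ℝ) / D - q - M q - (W : ℝ) / D * i) =
      ((T : ℝ) - D * q - (mlev s D W T q : ℝ) - W * i) / D := by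
    intro q hq i
    rw [hMq q hq]
    field_simp
  refine gainOK_dual _ s _ _ ((T : ℝ) / D) M ?_ ?_ (clev s D W T) ?_ ?_ _ ?_
  · intro q hq
    rcases Nat.lt_or_ge q s with h | h
    · rw [hMq q hq, hMq (q + 1) h]
      exact div_le_div_of_nonneg_right (by exact_mod_cast hmon' q h) hD'.le
    · have h1 : M (q + 1) = 0 := if_neg (by omega)
      rw [h1, hMq q hq]
      positivity
  · exact if_neg (by omega)
  · intro q hq i hi
    rw [hτ q hq i]
    obtain ⟨hW, ha⟩ := hc0 q (by omega)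
    rw [hreal' q ha]
    refine div_nonneg ?_ hD'.le
    have h1 := hcl q hW
    have h2 : W * (i + 1) ≤ W * clev s D W T q := Nat.mul_le_mul_left _ hi
    rw [Nat.mul_add, Nat.mul_one] at h2
    have h3 : W * i ≤ alev s D W T q := by omega
    have h4 : (W : ℝ) * i ≤ (alev s D W T q : ℝ) := by exact_mod_cast h3
    linarith
  · intro q hq i hi
    rw [hτ q hq i]
    refine div_nonpos_of_nonpos_of_nonneg ?_ hD'.le
    rcases Nat.eq_zero_or_pos W with hW | hW
    · have h1 := hz' hW q hq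
      have h2 := hreal q
      rw [h1] at h2
      have h3 : (W : ℝ) = 0 := by exact_mod_cast hW
      rw [h3]
      push_cast at h2
      linarith
    · have h1 := hcu q hW
      have h2 : W * clev s D W T q ≤ W * i := Nat.mul_le_mul_left _ hi
      have h3 : (alev s D W T q : ℝ) ≤ (W : ℝ) * i := by exact_mod_cast h1.trans h2
      linarith [hreal q]
  · rw [numA_abel, show M (s + 1) = 0 from if_neg (by omega), zero_mul, sub_zero]
    have hlev : ∀ q ∈ range (s + 1), M q * (nlev s q : ℝ) +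
        ∑ i ∈ range (clev s D W T q), ((T : ℝ) / D - q - M q - (W : ℝ) / D * i) =
        (plev s D W T q : ℝ) / (2 * D) := by
      intro q hq
      have hq' : q ≤ s := by
        have := Finset.mem_range.1 hq
        omega
      rcases Nat.eq_zero_or_pos (clev s D W T q) with hc | hc
      · rw [hc, Finset.sum_range_zero, hMq q hq', plev, hc]
        push_cast
        field_simp
        ring
      · obtain ⟨hW, ha⟩ := hc0 q hc
        have h1 := hcl q hW
        have h2 : W * clev s D W T q ≤ 2 * alev s D W T q + W := by omega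
        rw [Finset.sum_congr rfl (fun i _ => hτ q hq' i), hreal' q ha, ← Finset.sum_div,
          numA_sum_lin, hMq q hq', plev, Nat.cast_add, Nat.cast_mul (clev s D W T q),
          Nat.cast_sub h2]
        push_cast
        field_simp
        ring
    have hsum : ∑ q ∈ range (s + 1), M q * (nlev s q : ℝ) +
        ∑ q ∈ range (s + 1), ∑ i ∈ range (clev s D W T q),
          ((T : ℝ) / D - q - M q - (W : ℝ) / D * i) =
        (psum s D W T (s + 1) : ℝ) / (2 * D) := by
      rw [← Finset.sum_add_distrib, Finset.sum_congr rfl hlev, ← Finset.sum_div, numA_psum]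
      push_cast
      rfl
    have hfin : (2 * ((2 * (s + 1) ^ 2 : ℕ) : ℝ) * T - (psum s D W T (s + 1) : ℝ)) / (2 * D) =
        ((2 * (s + 1) ^ 2 : ℕ) : ℝ) * ((T : ℝ) / D) - (psum s D W T (s + 1) : ℝ) / (2 * D) := by
      field_simp
    rw [hfin, ← hsum]
    linarith

/-! ### the certificates of range A -/

/-- rank of the forms of bidegree `(r - 2 i, s - i)` on a curve with `a, c >= 2` -/
def Rcurve (r s i : ℕ) : ℕ := 6 * (s - i) + 2 * (r - 2 * i)

/-- cost of the determinant of S6 Prop. 9: columns `gamma ^ i * F (r - 2 i, s - i)` -/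
noncomputable def cost9 (r s : ℕ) (v k : ℝ) : ℝ :=
  (Rcurve r s 0 : ℝ) * (r * v + s * k) -
    (2 * v + k) * ∑ i ∈ range ((r - 1) / 2), (Rcurve r s (i + 1) : ℝ)

/-- Certificate of range A. `v` and `k` are the exponents of `|u|, |v|` and of `|beta|` at
`d = d0`, `x = x1` (largest cost); the allowed exponent is taken at `d = d1`, `x = x0`. -/
def CertA (d0 d1 x0 x1 : ℝ) : Prop :=
  ∃ (s T r s' : ℕ) (w ρ G : ℕ → ℝ) (η : ℝ), 0 < η ∧ Odd s ∧ Odd r ∧ (r - 1) / 2 < s' ∧
    w T = 0 ∧ (∀ l, l < T → w (l + 1) < w l) ∧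
    ρ 0 = 0 ∧ (∀ l, l ≤ T → ρ l < ρ (l + 1)) ∧
    (∀ l, l ≤ T → GainOK (2 * (s + 1) ^ 2) s (RA 1 s) (w l) (G l)) ∧
    (∀ l, l ≤ T → 2 * ((s : ℝ) + 1) ^ 2 * (((1 + d0) / 6 + x1) + s * ((1 - d0) / 2)) - G l + η ≤
      ρ l * (((s : ℝ) + 1) ^ 2 * (4 * s + 3))) ∧
    (∀ l, l ≤ T → w l + ρ (l + 1) + η ≤ 1 - 2 / 3 * (1 + d1) + 2 * x0) ∧
    cost9 r s' ((1 + d0) / 6 + x1) ((1 - d0) / 2) + η ≤
      ρ (T + 1) * ((Rcurve r s' 0 : ℝ) * ((Rcurve r s' 0 : ℝ) - 1) / 2) ∧
    -d0 ≤ ρ 1

def allLt (f : ℕ → Bool) : ℕ → Bool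
  | 0 => true
  | n + 1 => allLt f n && f n

lemma allLt_spec (f : ℕ → Bool) : ∀ n, allLt f n = true → ∀ i, i < n → f i = true := by
  intro n
  induction n with
  | zero => intro _ i hi; omega
  | succ n ih =>
    intro h i hi
    rw [allLt, Bool.and_eq_true] at h
    rcases Nat.lt_succ_iff_lt_or_eq.1 hi with h1 | h1
    · exact ih h.1 i h1
    · subst h1
      exact h.2

def sumLt (f : ℕ → ℕ) : ℕ → ℕ
  | 0 => 0
  | n + 1 => sumLt f n + f n

lemma sumLt_eq (f : ℕ → ℕ) (n : ℕ) : sumLt f n = ∑ i ∈ range n, f i := by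
  induction n with
  | zero => simp [sumLt]
  | succ n ih => rw [sumLt, ih, Finset.sum_range_succ]

def wL (L : List (ℕ × ℕ)) (l : ℕ) : ℕ := (L.getD l (0, 0)).1
def tL (L : List (ℕ × ℕ)) (l : ℕ) : ℕ := (L.getD l (0, 0)).2

def rhoL (lam : ℕ) (L : List (ℕ × ℕ)) : ℕ → ℕ
  | 0 => 0
  | l + 1 => lam - wL L l

/-- one scale: `(C)` -/
def chkC (s V K rho W T : ℕ) : Bool :=
  okScale s 120000 W T &&
    Nat.ble (2 * (2 * (s + 1) ^ 2) * (V + s * K) + 24 + psum s 120000 W T (s + 1))
      (2 * (2 * (s + 1) ^ 2) * T + 2 * rho * ((s + 1) ^ 2 * (4 * s + 3)))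

def chkL (s V K lam : ℕ) (L : List (ℕ × ℕ)) (l : ℕ) : Bool :=
  chkC s V K (rhoL lam L l) (wL L l) (tL L l) && Nat.ble (wL L l + 1) lam &&
    (if l + 1 < L.length then Nat.ble (wL L (l + 1) + 1) (wL L l) else Nat.beq (wL L l) 0)

/-- the whole certificate; `a0 = 1000 (1 + d0)`, `a1 = 1000 (1 + d1)` -/
def chkA (a0 a1 x0 x1 s r : ℕ) (L : List (ℕ × ℕ)) : Bool :=
  let V := 20 * a0 + 120 * x1
  let K := 60 * (2000 - a0)
  let lam := 120000 + 240 * x0 - (80 * a1 + 12)
  Nat.ble a0 2000 && Nat.ble (80 * a1 + 12) (120000 + 240 * x0) && Nat.beq (s % 2) 1 &&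
    Nat.beq (r % 2) 1 && Nat.ble 1 L.length && allLt (chkL s V K lam L) L.length &&
    Nat.ble (2 * Rcurve r r 0 * (r * V + r * K) + 24)
      (lam * (Rcurve r r 0 * (Rcurve r r 0 - 1)) +
        2 * (2 * V + K) * sumLt (fun i => Rcurve r r (i + 1)) ((r - 1) / 2)) &&
    Nat.ble 120000 (rhoL lam L 1 + 120 * a0)

theorem certA_of_chk (a0 a1 x0 x1 s r : ℕ) (L : List (ℕ × ℕ))
    (h : chkA a0 a1 x0 x1 s r L = true) :
    CertA ((a0 : ℝ) / 1000 - 1) ((a1 : ℝ) / 1000 - 1) ((x0 : ℝ) / 1000) ((x1 : ℝ) / 1000) := by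
  simp only [chkA, Bool.and_eq_true] at h
  obtain ⟨⟨⟨⟨⟨⟨⟨ha0, hal⟩, hs⟩, hr⟩, hlen⟩, hall⟩, h9⟩, h10⟩ := h
  have ha0' := Nat.le_of_ble_eq_true ha0
  have hal' := Nat.le_of_ble_eq_true hal
  have hs' := Nat.eq_of_beq_eq_true hs
  have hr' := Nat.eq_of_beq_eq_true hr
  have hlen' := Nat.le_of_ble_eq_true hlen
  have h9' := Nat.le_of_ble_eq_true h9
  have h10' := Nat.le_of_ble_eq_true h10
  clear ha0 hal hs hr hlen h9 h10
  set V : ℕ := 20 * a0 + 120 * x1 with hV
  set K : ℕ := 60 * (2000 - a0) with hK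
  set lam : ℕ := 120000 + 240 * x0 - (80 * a1 + 12) with hlam
  have hVr : (V : ℝ) = 120000 * ((1 + ((a0 : ℝ) / 1000 - 1)) / 6 + (x1 : ℝ) / 1000) := by
    rw [hV]
    push_cast
    ring
  have hKr : (K : ℝ) = 120000 * ((1 - ((a0 : ℝ) / 1000 - 1)) / 2) := by
    rw [hK]
    push_cast [Nat.cast_sub ha0']
    ring
  have hlr : (lam : ℝ) + 12 = 120000 * (1 - 2 / 3 * (1 + ((a1 : ℝ) / 1000 - 1)) +
      2 * ((x0 : ℝ) / 1000)) := by
    rw [hlam]
    push_cast [Nat.cast_sub hal']
    ring
  obtain ⟨T, hT⟩ : ∃ T, L.length = T + 1 := ⟨L.length - 1, by omega⟩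
  rw [hT] at hall
  have hL : ∀ l, l ≤ T → chkL s V K lam L l = true := fun l hl =>
    allLt_spec _ _ hall l (by omega)
  have hL1 : ∀ l, l ≤ T → okScale s 120000 (wL L l) (tL L l) = true ∧
      2 * (2 * (s + 1) ^ 2) * (V + s * K) + 24 + psum s 120000 (wL L l) (tL L l) (s + 1) ≤
      2 * (2 * (s + 1) ^ 2) * tL L l + 2 * rhoL lam L l * ((s + 1) ^ 2 * (4 * s + 3)) := by
    intro l hl
    have h1 := hL l hl
    simp only [chkL, chkC, Bool.and_eq_true] at h1
    exact ⟨h1.1.1.1, Nat.le_of_ble_eq_true h1.1.1.2⟩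
  have hL2 : ∀ l, l ≤ T → wL L l < lam := by
    intro l hl
    have h1 := hL l hl
    simp only [chkL, Bool.and_eq_true] at h1
    have := Nat.le_of_ble_eq_true h1.1.2
    omega
  have hL3 : ∀ l, l < T → wL L (l + 1) < wL L l := by
    intro l hl
    have h1 := hL l hl.le
    simp only [chkL, Bool.and_eq_true] at h1
    have h2 := h1.2
    rw [if_pos (by omega)] at h2
    have := Nat.le_of_ble_eq_true h2
    omega
  have hL4 : wL L T = 0 := by
    have h1 := hL T le_rfl
    simp only [chkL, Bool.and_eq_true] at h1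
    have h2 := h1.2
    rw [if_neg (by omega)] at h2
    exact Nat.eq_of_beq_eq_true h2
  have hrho : ∀ l, l ≤ T → ((rhoL lam L (l + 1) : ℕ) : ℝ) = (lam : ℝ) - (wL L l : ℝ) := by
    intro l hl
    rw [rhoL, Nat.cast_sub (hL2 l hl).le]
  refine ⟨s, T, r, r, fun l => (wL L l : ℝ) / 120000, fun l => (rhoL lam L l : ℝ) / 120000,
    fun l => (2 * ((2 * (s + 1) ^ 2 : ℕ) : ℝ) * (tL L l : ℝ) -
      (psum s 120000 (wL L l) (tL L l) (s + 1) : ℝ)) / (2 * 120000), 12 / 120000, by norm_num,
    Nat.odd_iff.2 hs', Nat.odd_iff.2 hr', by omega, ?_, ?_, ?_, ?_, ?_, ?_, ?_, ?_, ?_⟩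
  · simp [hL4]
  · intro l hl
    have h1 : (wL L (l + 1) : ℝ) < (wL L l : ℝ) := by exact_mod_cast hL3 l hl
    exact div_lt_div_of_pos_right h1 (by norm_num)
  · simp [rhoL]
  · intro l hl
    refine div_lt_div_of_pos_right ?_ (by norm_num)
    rw [hrho l hl]
    rcases l with _ | l
    · have h1 : (wL L 0 : ℝ) < (lam : ℝ) := by exact_mod_cast hL2 0 hl
      simp only [rhoL, Nat.cast_zero]
      linarith
    · rw [hrho l (by omega)]
      have h1 : (wL L (l + 1) : ℝ) < (wL L l : ℝ) := by exact_mod_cast hL3 l (by omega)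
      linarith
  · intro l hl
    have h1 := gainOK_scale s 120000 (wL L l) (tL L l) (by norm_num) (hL1 l hl).1
    exact_mod_cast h1
  · intro l hl
    have h1 := (hL1 l hl).2
    have h2 : (2 * (2 * ((s : ℝ) + 1) ^ 2) * ((V : ℝ) + s * K) + 24 +
        (psum s 120000 (wL L l) (tL L l) (s + 1) : ℝ)) ≤
        2 * (2 * ((s : ℝ) + 1) ^ 2) * (tL L l : ℝ) +
          2 * (rhoL lam L l : ℝ) * (((s : ℝ) + 1) ^ 2 * (4 * s + 3)) := by
      exact_mod_cast h1
    rw [hVr, hKr] at h2
    push_cast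
    have h3 : ∀ a b : ℝ, 240000 * a ≤ 240000 * b → a ≤ b := fun a b hab => by linarith
    refine h3 _ _ ?_
    have h4 : 240000 * (2 * ((s : ℝ) + 1) ^ 2 * (((1 + ((a0 : ℝ) / 1000 - 1)) / 6 +
        (x1 : ℝ) / 1000) + s * ((1 - ((a0 : ℝ) / 1000 - 1)) / 2)) -
        (2 * (2 * ((s : ℝ) + 1) ^ 2) * (tL L l : ℝ) -
          (psum s 120000 (wL L l) (tL L l) (s + 1) : ℝ)) / (2 * 120000) + 12 / 120000) =
        2 * (2 * ((s : ℝ) + 1) ^ 2) * (120000 * ((1 + ((a0 : ℝ) / 1000 - 1)) / 6 +
          (x1 : ℝ) / 1000) + s * (120000 * ((1 - ((a0 : ℝ) / 1000 - 1)) / 2))) + 24 +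
          (psum s 120000 (wL L l) (tL L l) (s + 1) : ℝ) -
          2 * (2 * ((s : ℝ) + 1) ^ 2) * (tL L l : ℝ) := by
      ring
    have h5 : 240000 * ((rhoL lam L l : ℝ) / 120000 * (((s : ℝ) + 1) ^ 2 * (4 * s + 3))) =
        2 * (rhoL lam L l : ℝ) * (((s : ℝ) + 1) ^ 2 * (4 * s + 3)) := by
      ring
    rw [h4, h5]
    linarith
  · intro l hl
    rw [show 1 - 2 / 3 * (1 + ((a1 : ℝ) / 1000 - 1)) + 2 * ((x0 : ℝ) / 1000) =
      ((lam : ℝ) + 12) / 120000 by rw [hlr]; ring]
    show (wL L l : ℝ) / 120000 + (rhoL lam L (l + 1) : ℝ) / 120000 + 12 / 120000 ≤ _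
    rw [hrho l hl]
    apply le_of_eq
    ring
  · have h1 : ((rhoL lam L (T + 1) : ℕ) : ℝ) = (lam : ℝ) := by
      rw [hrho T le_rfl, hL4]
      simp
    show cost9 r r _ _ + 12 / 120000 ≤ (rhoL lam L (T + 1) : ℝ) / 120000 * _
    rw [h1]
    have hR1 : 1 ≤ Rcurve r r 0 := by
      unfold Rcurve
      omega
    have h2 : (2 * (Rcurve r r 0 : ℝ) * (r * (V : ℝ) + r * K) + 24) ≤
        (lam : ℝ) * ((Rcurve r r 0 : ℝ) * ((Rcurve r r 0 : ℝ) - 1)) +
          2 * (2 * (V : ℝ) + K) * ∑ i ∈ range ((r - 1) / 2), (Rcurve r r (i + 1) : ℝ) := by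
      rw [sumLt_eq] at h9'
      have h3 : ((Rcurve r r 0 - 1 : ℕ) : ℝ) = (Rcurve r r 0 : ℝ) - 1 := by
        rw [Nat.cast_sub hR1, Nat.cast_one]
      rw [← h3]
      exact_mod_cast h9'
    rw [hVr, hKr] at h2
    unfold cost9
    have h3 : ∀ a b : ℝ, 240000 * a ≤ 240000 * b → a ≤ b := fun a b hab => by linarith
    refine h3 _ _ ?_
    generalize (∑ i ∈ range ((r - 1) / 2), (Rcurve r r (i + 1) : ℝ)) = S9 at h2 ⊢
    nlinarith [h2]
  · have h1 : (120000 : ℝ) ≤ (rhoL lam L 1 : ℝ) + 120 * (a0 : ℝ) := by exact_mod_cast h10'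
    show -((a0 : ℝ) / 1000 - 1) ≤ (rhoL lam L 1 : ℝ) / 120000
    linarith

private lemma certA_0_0 : chkA 990 1100 0 3 3 3
    [(21357, 325427), (9654, 226196), (0, 120003)] = true := by
  decide +kernel

private lemma certA_0_1 : chkA 990 1100 3 30 3 3
    [(21943, 327769), (9933, 229263), (0, 120003)] = true := by
  decide +kernel

private lemma certA_0_2 : chkA 990 1100 30 120 3 3
    [(24001, 336000), (7138, 198522), (0, 120003)] = true := by
  decide +kernel

private lemma certA_1_0 : chkA 1100 1200 0 3 3 3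
    [(18374, 303741), (12213, 242131), (6381, 190193), (914, 130055), (0, 120003)] = true := by
  decide +kernel

private lemma certA_1_1 : chkA 1100 1200 3 30 3 3
    [(18900, 309003), (12447, 244474), (6331, 189641), (597, 126571), (0, 120003)] = true := by
  decide +kernel

private lemma certA_1_2 : chkA 1100 1200 30 120 3 3
    [(20720, 322878), (9362, 222985), (0, 120003)] = true := by
  decide +kernel

private lemma certA_2_0 : chkA 1200 1250 0 3 5 3
    [(14096, 423252), (8342, 360001), (2995, 284928), (0, 240004)] = true := by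
  decide +kernel

private lemma certA_2_1 : chkA 1200 1250 3 30 3 3
    [(16357, 283572), (11784, 240003), (7459, 202053), (3405, 157459), (0, 120003)] = true := by
  decide +kernel

private lemma certA_2_2 : chkA 1200 1250 30 120 3 3
    [(18055, 300554), (8613, 214745), (0, 120003)] = true := by
  decide +kernel

private lemma certA_3_0 : chkA 1250 1300 0 3 5 3
    [(12853, 402768), (9804, 369807), (6935, 344029), (4272, 304083), (1800, 267003), (0, 240004)] = true := by
  decide +kernel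

private lemma certA_3_1 : chkA 1250 1300 3 30 5 3
    [(13133, 408929), (9652, 369656), (6387, 335807), (3356, 290343), (543, 248148), (0, 240004)] = true := by
  decide +kernel

private lemma certA_3_2 : chkA 1250 1300 30 120 3 3
    [(16782, 287823), (10170, 231873), (3971, 163685), (0, 120003)] = true := by
  decide +kernel

private lemma certA_4_0 : chkA 1300 1320 0 3 9 3
    [(10158, 662848), (6163, 609424), (2464, 536676), (0, 480001)] = true := by
  decide +kernel

private lemma certA_4_1 : chkA 1300 1320 3 30 7 3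
    [(10920, 523922), (6943, 484977), (3257, 421887), (0, 360001)] = true := by
  decide +kernel

private lemma certA_4_2 : chkA 1300 1320 30 120 3 3
    [(15568, 275680), (9532, 224853), (3873, 162604), (0, 120003)] = true := by
  decide +kernel

private lemma certA_5_0 : chkA 1320 1340 0 3 7 5
    [(10223, 516021), (7787, 492379), (5514, 464769), (3410, 424794), (1463, 387799), (0, 360001)] = true := by
  decide +kernel

private lemma certA_5_1 : chkA 1320 1340 3 30 7 3
    [(10422, 521398), (7493, 487494), (4769, 450615), (2248, 402715), (0, 360001)] = true := by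
  decide +kernel

private lemma certA_5_2 : chkA 1320 1340 30 120 5 3
    [(12372, 397118), (5157, 317356), (0, 240004)] = true := by
  decide +kernel

private lemma certA_6_0 : chkA 1340 1350 0 3 9 5
    [(9143, 644575), (6461, 612924), (3971, 571337), (1670, 518410), (0, 480001)] = true := by
  decide +kernel

private lemma certA_6_1 : chkA 1340 1350 3 30 11 5
    [(8882, 782177), (5288, 730576), (1964, 653029), (0, 600004)] = true := by
  decide +kernel

private lemma certA_6_2 : chkA 1340 1350 30 120 5 3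
    [(11891, 393496), (5001, 315019), (0, 240004)] = true := by
  decide +kernel

private lemma certA_7_0 : chkA 1350 1360 0 3 11 5
    [(8494, 777293), (5963, 737891), (3613, 697555), (1442, 638935), (0, 600004)] = true := by
  decide +kernel

private lemma certA_7_1 : chkA 1350 1360 3 30 9 5
    [(9048, 642864), (6353, 612708), (3853, 568619), (1542, 515468), (0, 480001)] = true := by
  decide +kernel

private lemma certA_7_2 : chkA 1350 1360 30 120 5 3
    [(11654, 388044), (5298, 319470), (0, 240004)] = true := by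
  decide +kernel

private lemma certA_8_0 : chkA 1360 1370 0 3 13 7
    [(7950, 903601), (5665, 867290), (3541, 829775), (1580, 768980), (0, 720001)] = true := by
  decide +kernel

private lemma certA_8_1 : chkA 1360 1370 3 30 11 7
    [(8367, 772847), (5793, 737381), (3405, 691935), (1200, 632401), (0, 600004)] = true := by
  decide +kernel

private lemma certA_8_2 : chkA 1360 1370 30 120 7 3
    [(10102, 512754), (3097, 418847), (0, 360001)] = true := by
  decide +kernel

private lemma certA_9_0 : chkA 1370 1375 0 3 13 9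
    [(7690, 899914), (5537, 863966), (3537, 829650), (1690, 772392), (0, 720001)] = true := by
  decide +kernel

private lemma certA_9_1 : chkA 1370 1375 3 30 11 7
    [(8111, 768667), (5673, 736154), (3412, 692124), (1324, 635752), (0, 600004)] = true := by
  decide +kernel

private lemma certA_9_2 : chkA 1370 1375 30 120 7 3
    [(9856, 509572), (3001, 417021), (0, 360001)] = true := by
  decide +kernel

private lemma certA_10_0 : chkA 1375 1380 0 3 15 11
    [(7341, 1030866), (5239, 991435), (3286, 955014), (1483, 891909), (0, 840000)] = true := by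
  decide +kernel

private lemma certA_10_1 : chkA 1375 1380 3 30 15 9
    [(7438, 1033390), (4754, 982623), (2269, 919416), (0, 840000)] = true := by
  decide +kernel

private lemma certA_10_2 : chkA 1375 1380 30 120 7 3
    [(9733, 509200), (3138, 419626), (0, 360001)] = true := by
  decide +kernel

private lemma certA_11_0 : chkA 1380 1383 0 3 13 13
    [(7431, 892017), (5635, 866512), (3963, 840000), (2419, 794991), (994, 750816), (0, 720001)] = true := by
  decide +kernel

private lemma certA_11_1 : chkA 1380 1383 3 30 13 9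
    [(7542, 894141), (5176, 859754), (2983, 812474), (958, 749701), (0, 720001)] = true := by
  decide +kernel

private lemma certA_11_2 : chkA 1380 1383 30 120 7 3
    [(9610, 508830), (3127, 419416), (0, 360001)] = true := by
  decide +kernel

/-- One box of `d`: the three classes of `x` together cover `[0, 3/25]`. -/
def BoxA (d0 d1 : ℝ) : Prop :=
  CertA d0 d1 0 (3 / 1000) ∧ CertA d0 d1 (3 / 1000) (3 / 100) ∧ CertA d0 d1 (3 / 100) (3 / 25)

private lemma numA_box (a0 a1 : ℕ) (d0 d1 : ℝ) (h0 : (a0 : ℝ) / 1000 - 1 = d0)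
    (h1 : (a1 : ℝ) / 1000 - 1 = d1) (s1 s2 s3 r1 r2 r3 : ℕ) (L1 L2 L3 : List (ℕ × ℕ))
    (c1 : chkA a0 a1 0 3 s1 r1 L1 = true) (c2 : chkA a0 a1 3 30 s2 r2 L2 = true)
    (c3 : chkA a0 a1 30 120 s3 r3 L3 = true) : BoxA d0 d1 := by
  have e1 := certA_of_chk _ _ _ _ _ _ _ c1
  have e2 := certA_of_chk _ _ _ _ _ _ _ c2
  have e3 := certA_of_chk _ _ _ _ _ _ _ c3
  rw [h0, h1] at e1 e2 e3
  refine ⟨?_, ?_, ?_⟩
  · have h2 : ((0 : ℕ) : ℝ) / 1000 = 0 := by norm_num
    have h3 : ((3 : ℕ) : ℝ) / 1000 = 3 / 1000 := by norm_num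
    rw [h2, h3] at e1
    exact e1
  · have h2 : ((3 : ℕ) : ℝ) / 1000 = 3 / 1000 := by norm_num
    have h3 : ((30 : ℕ) : ℝ) / 1000 = 3 / 100 := by norm_num
    rw [h2, h3] at e2
    exact e2
  · have h2 : ((30 : ℕ) : ℝ) / 1000 = 3 / 100 := by norm_num
    have h3 : ((120 : ℕ) : ℝ) / 1000 = 3 / 25 := by norm_num
    rw [h2, h3] at e3
    exact e3

/-- **Numerics of range A.** A property of intervals which holds on every certified box and can
be glued holds on `[-1/100, 383/1000]`. -/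
theorem numA_glue (Q : ℝ → ℝ → Prop)
    (hQ : ∀ d0 d1 : ℝ, -(10 / 1000) ≤ d0 → d0 < d1 → d1 ≤ 383 / 1000 → BoxA d0 d1 → Q d0 d1)
    (hglue : ∀ a b c : ℝ, a < b → b < c → Q a b → Q b c → Q a c) :
    Q (-(1 / 100)) (383 / 1000) := by
  have b0 : Q (-(10 / 1000)) (100 / 1000) := hQ _ _ (by norm_num) (by norm_num) (by norm_num)
    (numA_box 990 1100 _ _ (by norm_num) (by norm_num) _ _ _ _ _ _ _ _ _ certA_0_0 certA_0_1 certA_0_2)
  have b1 : Q (100 / 1000) (200 / 1000) := hQ _ _ (by norm_num) (by norm_num) (by norm_num)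
    (numA_box 1100 1200 _ _ (by norm_num) (by norm_num) _ _ _ _ _ _ _ _ _ certA_1_0 certA_1_1 certA_1_2)
  have b2 : Q (200 / 1000) (250 / 1000) := hQ _ _ (by norm_num) (by norm_num) (by norm_num)
    (numA_box 1200 1250 _ _ (by norm_num) (by norm_num) _ _ _ _ _ _ _ _ _ certA_2_0 certA_2_1 certA_2_2)
  have b3 : Q (250 / 1000) (300 / 1000) := hQ _ _ (by norm_num) (by norm_num) (by norm_num)
    (numA_box 1250 1300 _ _ (by norm_num) (by norm_num) _ _ _ _ _ _ _ _ _ certA_3_0 certA_3_1 certA_3_2)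
  have b4 : Q (300 / 1000) (320 / 1000) := hQ _ _ (by norm_num) (by norm_num) (by norm_num)
    (numA_box 1300 1320 _ _ (by norm_num) (by norm_num) _ _ _ _ _ _ _ _ _ certA_4_0 certA_4_1 certA_4_2)
  have b5 : Q (320 / 1000) (340 / 1000) := hQ _ _ (by norm_num) (by norm_num) (by norm_num)
    (numA_box 1320 1340 _ _ (by norm_num) (by norm_num) _ _ _ _ _ _ _ _ _ certA_5_0 certA_5_1 certA_5_2)
  have b6 : Q (340 / 1000) (350 / 1000) := hQ _ _ (by norm_num) (by norm_num) (by norm_num)
    (numA_box 1340 1350 _ _ (by norm_num) (by norm_num) _ _ _ _ _ _ _ _ _ certA_6_0 certA_6_1 certA_6_2)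
  have b7 : Q (350 / 1000) (360 / 1000) := hQ _ _ (by norm_num) (by norm_num) (by norm_num)
    (numA_box 1350 1360 _ _ (by norm_num) (by norm_num) _ _ _ _ _ _ _ _ _ certA_7_0 certA_7_1 certA_7_2)
  have b8 : Q (360 / 1000) (370 / 1000) := hQ _ _ (by norm_num) (by norm_num) (by norm_num)
    (numA_box 1360 1370 _ _ (by norm_num) (by norm_num) _ _ _ _ _ _ _ _ _ certA_8_0 certA_8_1 certA_8_2)
  have b9 : Q (370 / 1000) (375 / 1000) := hQ _ _ (by norm_num) (by norm_num) (by norm_num)
    (numA_box 1370 1375 _ _ (by norm_num) (by norm_num) _ _ _ _ _ _ _ _ _ certA_9_0 certA_9_1 certA_9_2)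
  have b10 : Q (375 / 1000) (380 / 1000) := hQ _ _ (by norm_num) (by norm_num) (by norm_num)
    (numA_box 1375 1380 _ _ (by norm_num) (by norm_num) _ _ _ _ _ _ _ _ _ certA_10_0 certA_10_1 certA_10_2)
  have b11 : Q (380 / 1000) (383 / 1000) := hQ _ _ (by norm_num) (by norm_num) (by norm_num)
    (numA_box 1380 1383 _ _ (by norm_num) (by norm_num) _ _ _ _ _ _ _ _ _ certA_11_0 certA_11_1 certA_11_2)
  have g0 := b0
  have g1 := hglue _ _ _ (by norm_num) (by norm_num) g0 b1
  have g2 := hglue _ _ _ (by norm_num) (by norm_num) g1 b2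
  have g3 := hglue _ _ _ (by norm_num) (by norm_num) g2 b3
  have g4 := hglue _ _ _ (by norm_num) (by norm_num) g3 b4
  have g5 := hglue _ _ _ (by norm_num) (by norm_num) g4 b5
  have g6 := hglue _ _ _ (by norm_num) (by norm_num) g5 b6
  have g7 := hglue _ _ _ (by norm_num) (by norm_num) g6 b7
  have g8 := hglue _ _ _ (by norm_num) (by norm_num) g7 b8
  have g9 := hglue _ _ _ (by norm_num) (by norm_num) g8 b9
  have g10 := hglue _ _ _ (by norm_num) (by norm_num) g9 b10
  have g11 := hglue _ _ _ (by norm_num) (by norm_num) g10 b11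
  have h0 : (-(1 / 100) : ℝ) = -(10 / 1000) := by norm_num
  rw [h0]
  exact g11

end Pool.Agent.Lib.SQF
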