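import Pool.Agent.Lib.SQF.ADefs
import Pool.Agent.Lib.SQF.GlueA
import Pool.Agent.Lib.SQF.NumA

/-!
# SQF: the real determinant bound for `ZPt` (wrapper of `glueA_pow`)

`size_uv`: the sizes of `u, v` on a slice with a reduced basis; `areal`: determinants of the values
`fv i (cols c)` at `N` points of one arc `arcA (sn e1) (sn e2) k`; `areal2`: the same for `i = 1`,
`N = 2 (s + 1) ^ 2` under `P ^ (1/12) ≤ K Y ^ x sn e1`, `Y ^ (1 + d0) ≤ P` (for the core theorem).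
-/

set_option autoImplicit false

open Polynomial

namespace Pool.Agent.Lib.SQF

open Pool.Agent.SQF4 (sn RBasis)

/-- the sizes of `u`, `v` in the slice -/
theorem size_uv {g : ℤ[X]} {K Y P V : ℝ} {a b e1 e2 : Fin 4 → ℤ} (hrb : RBasis a b e1 e2)
    (hP : 0 < P) (h1 : P ^ (1 / 4 : ℝ) ≤ V * sn e1) (h2 : P ^ (1 / 4 : ℝ) ≤ V * sn e2) {z : ZPt}
    (hz : AOK g K Y P e1 e2 z) : |(z.u : ℝ)| ≤ 3 * K * V ∧ |(z.v : ℝ)| ≤ 3 * K * V := by
  have hH0 : 0 < P ^ (1 / 4 : ℝ) := Real.rpow_pos_of_pos hP _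
  have hHd : P ^ ((1 : ℝ) / ((4 : ℕ) : ℝ)) = P ^ (1 / 4 : ℝ) := by norm_num
  have hs1 : 0 < (sn e1 : ℝ) := by exact_mod_cast Pool.Agent.SQF4.sn_pos e1 hrb.ne1
  have hs2 : 0 < (sn e2 : ℝ) := by exact_mod_cast Pool.Agent.SQF4.sn_pos e2 hrb.ne2
  have hsα : (sn (z.a e1 e2) : ℝ) ≤ K * P ^ (1 / 4 : ℝ) := by
    obtain ⟨l, hl⟩ := Pool.Agent.SQF4.exists_eq_sn (z.a e1 e2)
    have h3 := hz.2.coeffα l
    rw [hHd] at h3
    rw [← hl, Nat.cast_natAbs, Int.cast_abs]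
    exact h3
  have hαs : z.a e1 e2 = z.u • e1 + z.v • e2 := by
    funext l
    simp [ZPt.a]
  have hK0 : 0 ≤ K := by
    by_contra hK
    have : (0 : ℝ) ≤ sn (z.a e1 e2) := Nat.cast_nonneg _
    nlinarith
  have key : ∀ (c S : ℝ), 0 < S → P ^ (1 / 4 : ℝ) ≤ V * S → |c| * S ≤ 3 * (K * P ^ (1 / 4 : ℝ)) →
      |c| ≤ 3 * K * V := by
    intro c S hS hV hc
    have h4 : |c| * S ≤ (3 * K * V) * S := by
      calc |c| * S ≤ 3 * (K * P ^ (1 / 4 : ℝ)) := hc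
        _ ≤ 3 * (K * (V * S)) := by
            have := mul_le_mul_of_nonneg_left hV hK0
            linarith
        _ = (3 * K * V) * S := by ring
    exact le_of_mul_le_mul_right h4 hS
  constructor
  · apply key _ _ hs1 h1
    have h3 := hrb.size1 z.u z.v
    rw [← hαs] at h3
    have h4 : ((z.u.natAbs * sn e1 : ℕ) : ℝ) ≤ ((3 * sn (z.a e1 e2) : ℕ) : ℝ) := by
      exact_mod_cast h3
    push_cast at h4
    rw [Nat.cast_natAbs, Int.cast_abs] at h4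
    linarith
  · apply key _ _ hs2 h2
    have h3 := hrb.size2 z.u z.v
    rw [← hαs] at h3
    have h4 : ((z.v.natAbs * sn e2 : ℕ) : ℝ) ≤ ((3 * sn (z.a e1 e2) : ℕ) : ℝ) := by
      exact_mod_cast h3
    push_cast at h4
    rw [Nat.cast_natAbs, Int.cast_abs] at h4
    linarith

/-- **Real determinant bound for points of one arc.** -/
theorem areal {g : ℤ[X]} {θ : Fin 4 → ℂ} (hg : Roots4 g θ) (K : ℝ) (hK : 1 ≤ K) (N i s : ℕ)
    (w G d0 x L M : ℝ) (hL : 1 ≤ L) (hM : 0 < M)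
    (hG : ∀ E : Finset (ℕ × ℕ), E.card = N → (∀ y ∈ E, y.1 ≤ 6 * s + i ∧ y.2 ≤ s) →
      (∀ J ≤ s, (E.filter (fun y => y.2 ≤ J)).card ≤ RA i s J) →
      G ≤ ∑ y ∈ E, (w * y.1 + y.2)) :
    ∃ C : ℝ, 1 ≤ C ∧ ∀ Y P : ℝ, 1 ≤ Y → 0 < P → Y ^ (1 + d0) ≤ L * P →
      ∀ a b e1 e2 : Fin 4 → ℤ, RBasis a b e1 e2 →
      (∀ σ ρ, σ ≠ ρ → ev e1 (θ σ) * ev e2 (θ ρ) ≠ ev e1 (θ ρ) * ev e2 (θ σ)) →
      P ^ (1 / 4 : ℝ) * Y ^ (-x) ≤ M * sn e1 →
      ∀ cols : Fin N → ℕ × (Fin 4 → ℕ), (∀ c, IsCol i s (cols c)) →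
      ∀ z : Fin N → ZPt, (∀ r, AOK g K Y P e1 e2 (z r)) → ∀ k : ℕ, Y ^ w ≤ 2 ^ k →
      (∀ r r', arcA (sn e1) (sn e2) k (z r).u (z r).v = arcA (sn e1) (sn e2) k (z r').u (z r').v) →
      |((Matrix.det (Matrix.of fun r c => fv i (cols c) (z r)) : ℤ) : ℝ)| ≤
        C * Y ^ (N * (i * x + s * ((1 - d0) / 2)) - G) := by
  obtain ⟨C, hC, hmain⟩ := glueA_pow g hg.monic hg.irr hg.deg θ hg.inj hg.root K hK N i s w G d0 x L
    M hL hM hG
  refine ⟨C, hC, ?_⟩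
  intro Y P hY hP hYP a b e1 e2 hrb hns hE cols hcols z hz k hk harc
  have h1 := hmain Y P hY hP hYP a b e1 e2 hrb hns hE (fun c => (i - (cols c).1, (cols c).2))
    (fun c => Nat.sub_le _ _) (fun c => (hcols c).2) (fun r => (z r).n) (fun r => (z r).p)
    (fun r => (z r).a e1 e2) (fun r => (z r).b) (fun r => (z r).m) (fun r => (z r).u)
    (fun r => (z r).v) (fun r => (hz r).2) (fun r l => rfl) k hk harc
  have h2 : (Matrix.of fun r c => fv i (cols c) (z r)) = Matrix.of fun r c : Fin N =>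
      (z r).u ^ (i - (i - (cols c).1)) * (z r).v ^ (i - (cols c).1) *
        ∏ a, (z r).b a ^ (cols c).2 a := by
    ext r c
    simp only [Matrix.of_apply, fv]
    have h3 : i - (i - (cols c).1) = (cols c).1 := by
      have := (hcols c).1
      omega
    rw [h3]
  rw [h2]
  exact h1

/-- **Real determinant bound for `2 (s + 1) ^ 2` points of one arc**, `i = 1`. -/
theorem areal2 {g : ℤ[X]} {θ : Fin 4 → ℂ} (hg : Roots4 g θ) (s : ℕ) (hs : 1 ≤ s)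
    (K d0 x w G : ℝ) (hK : 1 ≤ K) (hG : GainOK (2 * (s + 1) ^ 2) s (RA 1 s) w G) :
    ∃ C : ℝ, 1 ≤ C ∧ ∀ Y P : ℝ, 1 ≤ Y → Y ^ (1 + d0) ≤ P →
      ∀ a b e1 e2 : Fin 4 → ℤ, RBasis a b e1 e2 →
      (∀ j l, j ≠ l → ev e1 (θ j) * ev e2 (θ l) ≠ ev e1 (θ l) * ev e2 (θ j)) →
      P ^ ((1 : ℝ) / 12) ≤ K * Y ^ x * (sn e1 : ℝ) →
      ∀ cols : Fin (2 * (s + 1) ^ 2) → ℕ × (Fin 4 → ℕ), (∀ c, IsCol 1 s (cols c)) →
      ∀ z : Fin (2 * (s + 1) ^ 2) → ZPt, (∀ r, AOK g K Y P e1 e2 (z r)) → ∀ k : ℕ, Y ^ w ≤ 2 ^ k →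
      (∀ r r', arcA (sn e1) (sn e2) k (z r).u (z r).v = arcA (sn e1) (sn e2) k (z r').u (z r').v) →
      |((Matrix.det (Matrix.of fun r c => fv 1 (cols c) (z r)) : ℤ) : ℝ)| ≤
        C * Y ^ (2 * ((s : ℝ) + 1) ^ 2 * (((1 + d0) / 6 + x) + s * ((1 - d0) / 2)) - G) := by
  obtain ⟨C, hC, hmain⟩ := glueA g hg.monic hg.irr hg.deg θ hg.inj hg.root K hK
    (2 * (s + 1) ^ 2) 1 s w G (fun E h1 h2 h3 => hG E ⟨h1, fun y hy => (h2 y hy).2, h3⟩)
  have hN : ((2 * (s + 1) ^ 2 : ℕ) : ℝ) = 2 * ((s : ℝ) + 1) ^ 2 := by push_cast; ring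
  set N : ℕ := 2 * (s + 1) ^ 2 with hNdef
  have hK0 : 0 < K := by linarith
  have hs' : (1 : ℝ) ≤ (s : ℝ) := by exact_mod_cast hs
  refine ⟨C * (2 * K) ^ N, ?_, ?_⟩
  · have h1 : (1 : ℝ) ≤ (2 * K) ^ N := one_le_pow₀ (by linarith)
    nlinarith
  intro Y P hY hYP a b e1 e2 hrb hns hE cols hcols z hz k hk harc
  have hY0 : 0 < Y := by linarith
  have hP : 0 < P := lt_of_lt_of_le (Real.rpow_pos_of_pos hY0 _) hYP
  have h1 := hmain Y P hY hP a b e1 e2 hrb hns (fun c => (1 - (cols c).1, (cols c).2))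
    (fun c => Nat.sub_le _ _) (fun c => (hcols c).2) (fun r => (z r).n) (fun r => (z r).p)
    (fun r => (z r).a e1 e2) (fun r => (z r).b) (fun r => (z r).m) (fun r => (z r).u)
    (fun r => (z r).v) (fun r => (hz r).2) (fun r l => rfl) k hk harc
  have h2 : (Matrix.of fun r c => fv 1 (cols c) (z r)) = Matrix.of fun r c : Fin N =>
      (z r).u ^ (1 - (1 - (cols c).1)) * (z r).v ^ (1 - (cols c).1) *
        ∏ a, (z r).b a ^ (cols c).2 a := by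
    ext r c
    simp only [Matrix.of_apply, fv]
    have h3 : 1 - (1 - (cols c).1) = (cols c).1 := by
      have := (hcols c).1
      omega
    rw [h3]
  rw [h2]
  set D := |((Matrix.det (Matrix.of fun r c : Fin N =>
      (z r).u ^ (1 - (1 - (cols c).1)) * (z r).v ^ (1 - (cols c).1) *
        ∏ a, (z r).b a ^ (cols c).2 a) : ℤ) : ℝ)| with hD
  have hD0 : 0 ≤ D := abs_nonneg _
  set H : ℝ := P ^ ((1 : ℝ) / 4) with hH
  have hH0 : 0 < H := Real.rpow_pos_of_pos hP _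
  have hYx : 0 < Y ^ x := Real.rpow_pos_of_pos hY0 _
  set T : ℝ := P ^ ((1 : ℝ) / 12) / (2 * K * Y ^ x) with hT
  have hP12 : 0 < P ^ ((1 : ℝ) / 12) := Real.rpow_pos_of_pos hP _
  have hT0 : 0 < T := by positivity
  have hs1 : 0 < (sn e1 : ℝ) := by exact_mod_cast Pool.Agent.SQF4.sn_pos e1 hrb.ne1
  have hT1 : 2 * T ≤ sn e1 := by
    have h3 : 2 * T = P ^ ((1 : ℝ) / 12) / (K * Y ^ x) := by
      rw [hT]
      field_simp
    rw [h3, div_le_iff₀ (by positivity)]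
    linarith
  have hT2 : T ≤ sn e2 := by
    have h2 : ((sn e1 : ℕ) : ℝ) ≤ ((2 * sn e2 : ℕ) : ℝ) := by exact_mod_cast hrb.sn_le
    push_cast at h2
    linarith
  have hprod : T ^ N ≤ ∏ c : Fin N, ((sn e1 : ℝ) ^ (1 - (1 - (cols c).1)) *
      (sn e2 : ℝ) ^ (1 - (cols c).1)) := by
    have h2 : ∏ _c : Fin N, T ≤
        ∏ c : Fin N, ((sn e1 : ℝ) ^ (1 - (1 - (cols c).1)) * (sn e2 : ℝ) ^ (1 - (cols c).1)) := by
      refine Finset.prod_le_prod (fun _ _ => hT0.le) fun c _ => ?_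
      have h3 : T = T ^ (1 - (1 - (cols c).1)) * T ^ (1 - (cols c).1) := by
        rw [← pow_add]
        have h4 : 1 - (1 - (cols c).1) + (1 - (cols c).1) = 1 := by
          have := (hcols c).1
          omega
        rw [h4, pow_one]
      calc T = T ^ (1 - (1 - (cols c).1)) * T ^ (1 - (cols c).1) := h3
        _ ≤ _ := mul_le_mul (pow_le_pow_left₀ hT0.le (by linarith) _)
            (pow_le_pow_left₀ hT0.le hT2 _) (by positivity) (by positivity)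
    simpa using h2
  have h3 : T ^ N * D ≤ C * (H ^ 1 * (Y / H ^ 2) ^ s) ^ N * Y ^ (-G) := by
    rw [mul_comm]
    exact (mul_le_mul_of_nonneg_left hprod hD0).trans h1
  -- the base
  have hbase : H ^ 1 * (Y / H ^ 2) ^ s ≤
      T * (2 * K * Y ^ (((1 + d0) / 6 + x) + s * ((1 - d0) / 2))) := by
    have e1 : H ^ 1 * (Y / H ^ 2) ^ s = P ^ ((1 : ℝ) / 4 - s / 2) * Y ^ (s : ℝ) := by
      have e2 : (H ^ 2) ^ s = P ^ ((s : ℝ) / 2) := by
        rw [← pow_mul, hH, ← Real.rpow_natCast, ← Real.rpow_mul hP.le]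
        congr 1
        push_cast
        ring
      rw [div_pow, e2, pow_one, Real.rpow_natCast, Real.rpow_sub hP]
      ring
    have e3 : P ^ ((1 : ℝ) / 4 - s / 2) = P ^ ((1 : ℝ) / 12) * P ^ ((1 : ℝ) / 6 - s / 2) := by
      rw [← Real.rpow_add hP]
      congr 1
      ring
    have e4 : P ^ ((1 : ℝ) / 6 - s / 2) ≤ Y ^ ((1 + d0) * (1 / 6 - s / 2)) := by
      rw [Real.rpow_mul hY0.le]
      exact Real.rpow_le_rpow_of_nonpos (Real.rpow_pos_of_pos hY0 _) hYP (by linarith)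
    have e5 : T * (2 * K * Y ^ (((1 + d0) / 6 + x) + s * ((1 - d0) / 2))) =
        P ^ ((1 : ℝ) / 12) * (Y ^ ((1 + d0) * (1 / 6 - s / 2)) * Y ^ (s : ℝ)) := by
      have e6 : Y ^ (((1 + d0) / 6 + x) + s * ((1 - d0) / 2)) =
          Y ^ x * (Y ^ ((1 + d0) * (1 / 6 - s / 2)) * Y ^ (s : ℝ)) := by
        rw [← Real.rpow_add hY0, ← Real.rpow_add hY0]
        congr 1
        ring
      rw [e6, hT]
      field_simp
    rw [e1, e3, e5, mul_assoc]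
    exact mul_le_mul_of_nonneg_left (mul_le_mul_of_nonneg_right e4 (by positivity)) hP12.le
  have h4 : T ^ N * D ≤ T ^ N * (C * (2 * K) ^ N *
      Y ^ (2 * ((s : ℝ) + 1) ^ 2 * (((1 + d0) / 6 + x) + s * ((1 - d0) / 2)) - G)) := by
    refine h3.trans ?_
    have h5 : (H ^ 1 * (Y / H ^ 2) ^ s) ^ N ≤
        (T * (2 * K * Y ^ (((1 + d0) / 6 + x) + s * ((1 - d0) / 2)))) ^ N :=
      pow_le_pow_left₀ (by positivity) hbase _
    have h6 : 0 ≤ Y ^ (-G) := Real.rpow_nonneg hY0.le _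
    calc C * (H ^ 1 * (Y / H ^ 2) ^ s) ^ N * Y ^ (-G) ≤
        C * (T * (2 * K * Y ^ (((1 + d0) / 6 + x) + s * ((1 - d0) / 2)))) ^ N * Y ^ (-G) :=
          mul_le_mul_of_nonneg_right (mul_le_mul_of_nonneg_left h5 (by linarith)) h6
      _ = T ^ N * (C * (2 * K) ^ N *
          ((Y ^ (((1 + d0) / 6 + x) + s * ((1 - d0) / 2))) ^ N * Y ^ (-G))) := by
          rw [mul_pow, mul_pow (2 * K)]
          ring
      _ = _ := by
          rw [← Real.rpow_natCast (Y ^ (((1 + d0) / 6 + x) + s * ((1 - d0) / 2))),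
            ← Real.rpow_mul hY0.le, ← Real.rpow_add hY0, ← hN]
          congr 3
          ring
  have h6 : 0 < T ^ N := by positivity
  exact le_of_mul_le_mul_left h4 h6

end Pool.Agent.Lib.SQF
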