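import Pool.Agent.Lib.SQF.AEval
import Pool.Agent.Lib.SQF.NumA
import Pool.Agent.Lib.SQF.Bez2

/-!
# SQF: the columns of the one-curve determinant (S6, Proposition 9; helper18)

Levels `j = 0 .. (r - 1) / 2`: a column of level `j` is `ν ^ (2 j)` times a monomial form of
bidegree `(r - 2 j, s' - j)`; exactly `Rcurve r s' j` columns have level at least `j`, and no
nonzero integral combination is divisible by `G`. `ocols`: the same with the level `olev r s' c`
(statement of helper39).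
-/

set_option autoImplicit false

open Polynomial

namespace Pool.Agent.Lib.SQF

/-! ### primitivity over `ℂ` -/

private noncomputable def toCh : ℤ[X][X] →+* ℂ[X][X] :=
  mapRingHom (mapRingHom (Int.castRingHom ℂ))

private theorem toC_eq (F : ℤ[X][X]) : toC F = toCh F := rfl

private theorem prim_toC {G : ℤ[X][X]} (hG : Irreducible G) (hG1 : G.natDegree ≠ 0) :
    (toC G).IsPrimitive := by
  have h1 : Irreducible (G.map (mapRingHom (Int.castRingHom ℚ))) :=
    Bez.irreducible_map_rat hG (by omega)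
  have hinj : Function.Injective (mapRingHom (Int.castRingHom ℚ)) :=
    Polynomial.map_injective _ (RingHom.injective_int _)
  have h2 : (G.map (mapRingHom (Int.castRingHom ℚ))).natDegree ≠ 0 := by
    rw [Polynomial.natDegree_map_eq_of_injective hinj]
    exact hG1
  have h3 := h1.isPrimitive h2
  set GQ := G.map (mapRingHom (Int.castRingHom ℚ)) with hGQ
  obtain ⟨d, hd⟩ := (IsPrincipalIdealRing.principal (Ideal.span (Set.range GQ.coeff))).principal
  have hd1 : C d ∣ GQ := by
    rw [C_dvd_iff_dvd_coeff]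
    intro i
    have h4 : GQ.coeff i ∈ Ideal.span (Set.range GQ.coeff) := Ideal.subset_span ⟨i, rfl⟩
    have h5 : GQ.coeff i ∈ Submodule.span ℚ[X] {d} := by rw [← hd]; exact h4
    exact Ideal.mem_span_singleton.1 h5
  have hd2 : IsUnit d := h3 d hd1
  have h6 : (1 : ℚ[X]) ∈ Ideal.span (Set.range GQ.coeff) := by
    have h7 : (1 : ℚ[X]) ∈ Submodule.span ℚ[X] {d} :=
      Ideal.mem_span_singleton.2 (hd2.dvd)
    rw [← hd] at h7
    exact h7
  intro w hw
  rw [C_dvd_iff_dvd_coeff] at hw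
  let ψ : ℚ[X] →+* ℂ[X] := mapRingHom (algebraMap ℚ ℂ)
  have h8 : Ideal.span (Set.range GQ.coeff) ≤ (Ideal.span {w}).comap ψ := by
    rw [Ideal.span_le]
    rintro _ ⟨i, rfl⟩
    simp only [SetLike.mem_coe, Ideal.mem_comap]
    rw [Ideal.mem_span_singleton]
    have h9 : ψ (GQ.coeff i) = (toC G).coeff i := by
      rw [hGQ]
      unfold toC
      rw [coeff_map, coeff_map]
      ext j
      simp [ψ]
    rw [h9]
    exact hw i
  have h10 := h8 h6
  rw [Ideal.mem_comap, map_one, Ideal.mem_span_singleton] at h10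
  exact isUnit_of_dvd_one h10

private theorem dvd_cancel {P F : ℂ[X][X]} (hP : P.IsPrimitive) {w : ℂ[X]} (hw : w ≠ 0)
    (h : P ∣ C w * F) : P ∣ F := by
  classical
  obtain ⟨i⟩ : Nonempty (NormalizedGCDMonoid ℂ[X]) := inferInstance
  rcases eq_or_ne F 0 with rfl | hF
  · exact dvd_zero _
  have hCw : (C w : ℂ[X][X]) ≠ 0 := by simpa using hw
  have h1 := (hP.dvd_primPart_iff_dvd (mul_ne_zero hCw hF)).2 h
  have h2 := h1.trans (associated_primPart_mul (mul_ne_zero hCw hF)).dvd
  rw [← hP.dvd_primPart_iff_dvd hF]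
  exact ((isUnit_primPart_C w).dvd_mul_left).1 h2

/-! ### the choice of the columns -/

private noncomputable abbrev qm (G : ℤ[X][X]) :
    ℂ[X][X] →ₗ[ℂ] ℂ[X][X] ⧸ (Ideal.span {toC G}).restrictScalars ℂ :=
  ((Ideal.span {toC G}).restrictScalars ℂ).mkQ

private theorem qm_eq_zero {G : ℤ[X][X]} {F : ℂ[X][X]} : qm G F = 0 ↔ toC G ∣ F := by
  rw [← LinearMap.mem_ker, Submodule.ker_mkQ, Submodule.restrictScalars_mem,
    Ideal.mem_span_singleton]

/-- the polynomial of a column -/
private noncomputable def colP (b : Fin 4 → ℤ[X][X]) (ν : ℤ[X]) (l : ℕ) (c : ℕ × (Fin 4 → ℕ)) :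
    ℤ[X][X] := C (ν ^ (2 * l)) * fpol b c

private theorem toC_fpol (b : Fin 4 → ℤ[X][X]) (c : ℕ × (Fin 4 → ℕ)) :
    toC (fpol b c) = C (X ^ c.1) * ∏ j, toC (b j) ^ c.2 j := by
  simp only [toC_eq, fpol, map_mul, map_prod, map_pow]
  congr 2
  simp [toCh]

private theorem toC_colP (b : Fin 4 → ℤ[X][X]) (ν : ℤ[X]) (c : ℕ × (Fin 4 → ℕ)) :
    toC (colP b ν 0 c) = C (X ^ c.1) * ∏ j, toC (b j) ^ c.2 j := by
  rw [← toC_fpol]
  simp [colP]

private theorem li_mul {G : ℤ[X][X]} (hG : (toC G).IsPrimitive) {ν : ℤ[X]} (hν : ν ≠ 0) {n : ℕ}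
    (F F' : Fin n → ℤ[X][X]) (hF : ∀ i, F' i = C (ν ^ 2) * F i)
    (h : LinearIndependent ℂ fun i => qm G (toC (F i))) :
    LinearIndependent ℂ fun i => qm G (toC (F' i)) := by
  rw [Fintype.linearIndependent_iff] at h ⊢
  intro a ha
  apply h a
  have h1 : ∑ i, a i • qm G (toC (F' i)) = qm G (C ((ν ^ 2).map (Int.castRingHom ℂ)) *
      ∑ i, a i • toC (F i)) := by
    rw [Finset.mul_sum, map_sum]
    refine Finset.sum_congr rfl fun i _ => ?_
    rw [← map_smul]
    congr 1
    rw [hF, toC_eq, map_mul, mul_smul_comm]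
    congr 2
    simp [toCh]
  rw [h1, qm_eq_zero] at ha
  have h2 : (ν ^ 2).map (Int.castRingHom ℂ) ≠ 0 := by
    rw [Polynomial.map_ne_zero_iff (RingHom.injective_int _)]
    exact pow_ne_zero 2 hν
  have h3 := dvd_cancel hG h2 ha
  rw [← qm_eq_zero, map_sum] at h3
  rw [← h3]
  refine Finset.sum_congr rfl fun i _ => ?_
  rw [map_smul]

private theorem cols_aux {g : ℤ[X]} {θ : Fin 4 → ℂ} {e1 e2 : Fin 4 → ℤ} {B E : ℝ}
    {b : Fin 4 → ℤ[X][X]} {ν : ℤ[X]} (hb : SlicePol g θ e1 e2 B E b ν) (r s' J : ℕ)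
    (hr : 2 * J + 1 = r) (hrs : J < s') {G : ℤ[X][X]} (hG : Irreducible G)
    (hrank : RankOK θ (tt θ e1 e2) G) (d : ℕ) : ∀ j, d + j = J →
    ∃ (lev : Fin (Rcurve r s' j) → ℕ) (cols : Fin (Rcurve r s' j) → ℕ × (Fin 4 → ℕ)),
      (∀ c, j ≤ lev c ∧ lev c ≤ J ∧ IsCol (r - 2 * lev c) (s' - lev c) (cols c)) ∧
      (∀ c l, j ≤ l → l ≤ J → (l ≤ lev c ↔ (c : ℕ) < Rcurve r s' l)) ∧
      LinearIndependent ℂ (fun c => qm G (toC (colP b ν (lev c - j) (cols c)))) := by
  have hprim : (toC G).IsPrimitive := prim_toC hG (by have := hrank.1; omega)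
  induction d with
  | zero =>
    intro j hj
    have hj' : j = J := by omega
    subst hj'
    obtain ⟨y, hy1, -, hy2⟩ := hrank.2 (s' - j) (r - 2 * j) (by omega) (by omega)
      (fun l => toC (b l)) hb.span 0 (fun i => i.elim0) (linearIndependent_empty_type)
      (Rcurve r s' j) (Nat.zero_le _) (by unfold Rcurve; omega)
    choose e m he hm hy3 using fun i => hy2 i (Nat.zero_le _)
    refine ⟨fun _ => j, fun i => (e i, m i), fun c => ?_, fun c l h1 h2 => ?_, ?_⟩
    · exact ⟨le_rfl, le_rfl, he c, hm c⟩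
    · have h3 : l = j := by omega
      subst h3
      have := c.2
      simp
    · convert hy1 using 1
      funext i
      rw [hy3 i, Nat.sub_self, toC_colP]
  | succ d ih =>
    intro j hj
    obtain ⟨lev, cols, h1, h2, h3⟩ := ih (j + 1) (by omega)
    have h4 := li_mul hprim hb.ν_ne (fun c => colP b ν (lev c - (j + 1)) (cols c))
      (fun c => colP b ν (lev c - j) (cols c)) (fun c => by
        have h5 : 2 * (lev c - j) = 2 + 2 * (lev c - (j + 1)) := by
          have := (h1 c).1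
          omega
        simp only [colP]
        rw [h5, pow_add, C_mul, mul_assoc]) h3
    have hle : Rcurve r s' (j + 1) ≤ Rcurve r s' j := by
      unfold Rcurve
      omega
    obtain ⟨y, hy1, hy0, hy2⟩ := hrank.2 (s' - j) (r - 2 * j) (by omega) (by omega)
      (fun l => toC (b l)) hb.span (Rcurve r s' (j + 1)) _ h4
      (Rcurve r s' j) hle (by unfold Rcurve; omega)
    choose e m he hm hy3 using hy2
    classical
    refine ⟨fun i => if hi : (i : ℕ) < Rcurve r s' (j + 1) then lev ⟨i, hi⟩ else j,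
      fun i => if hi : (i : ℕ) < Rcurve r s' (j + 1) then cols ⟨i, hi⟩ else
        (e i (not_lt.1 hi), m i (not_lt.1 hi)), fun c => ?_, fun c l hl1 hl2 => ?_, ?_⟩
    · by_cases hc : (c : ℕ) < Rcurve r s' (j + 1)
      · simp only [dif_pos hc]
        obtain ⟨h5, h6, h7⟩ := h1 ⟨c, hc⟩
        exact ⟨by omega, h6, h7⟩
      · simp only [dif_neg hc]
        exact ⟨le_rfl, by omega, he c (not_lt.1 hc), hm c (not_lt.1 hc)⟩
    · by_cases hc : (c : ℕ) < Rcurve r s' (j + 1)
      · simp only [dif_pos hc]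
        rcases Nat.eq_or_lt_of_le hl1 with h5 | h5
        · subst h5
          have h6 := (h1 ⟨c, hc⟩).1
          constructor
          · intro _
            omega
          · intro _
            omega
        · exact h2 ⟨c, hc⟩ l h5 hl2
      · simp only [dif_neg hc]
        rcases Nat.eq_or_lt_of_le hl1 with h5 | h5
        · subst h5
          have := c.2
          simp
        · constructor
          · intro h6
            omega
          · intro h6
            exfalso
            have h7 : Rcurve r s' l ≤ Rcurve r s' (j + 1) := by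
              unfold Rcurve
              omega
            omega
    · convert hy1 using 1
      funext c
      by_cases hc : (c : ℕ) < Rcurve r s' (j + 1)
      · simp only [dif_pos hc]
        rw [hy0 c hc]
      · simp only [dif_neg hc]
        rw [hy3 c (not_lt.1 hc), Nat.sub_self, toC_colP]

/-! ### degrees, values, conclusion -/

private theorem degT_pow_le {p : ℤ[X][X]} {D : ℕ} (hp : Bez.degT p ≤ D) (n : ℕ) :
    Bez.degT (p ^ n) ≤ D * n := by
  induction n with
  | zero =>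
    have h1 : (p ^ 0 : ℤ[X][X]) = C 1 := by simp
    rw [h1, Bez.degT_C]
    simp
  | succ n ih =>
    rw [pow_succ]
    refine (Bez.degT_mul_le _ _).trans ?_
    rw [mul_add, mul_one]
    exact add_le_add ih hp

private theorem degT_prod_le {b : Fin 4 → ℤ[X][X]} (hb : ∀ j, Bez.degT (b j) ≤ 6)
    (m : Fin 4 → ℕ) : Bez.degT (∏ j, b j ^ m j) ≤ 6 * ∑ j, m j := by
  rw [Fin.prod_univ_four, Fin.sum_univ_four]
  refine (Bez.degT_mul_le _ _).trans ?_
  have h1 := degT_pow_le (hb 3) (m 3)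
  have h2 := (Bez.degT_mul_le (b 0 ^ m 0 * b 1 ^ m 1) (b 2 ^ m 2))
  have h3 := (Bez.degT_mul_le (b 0 ^ m 0) (b 1 ^ m 1))
  have h4 := degT_pow_le (hb 0) (m 0)
  have h5 := degT_pow_le (hb 1) (m 1)
  have h6 := degT_pow_le (hb 2) (m 2)
  omega

private theorem degT_colP {b : Fin 4 → ℤ[X][X]} {ν : ℤ[X]} (hν : ν.natDegree ≤ 4)
    (hb : ∀ j, (b j).natDegree ≤ 1 ∧ ∀ l, ((b j).coeff l).natDegree ≤ 6) (r s' l : ℕ)
    (hl : 2 * l ≤ r) (hl' : l ≤ s') (c : ℕ × (Fin 4 → ℕ)) (hc : IsCol (r - 2 * l) (s' - l) c) :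
    (colP b ν l c).natDegree ≤ s' ∧ ∀ i, ((colP b ν l c).coeff i).natDegree ≤ 6 * s' + r := by
  obtain ⟨hc1, hc2⟩ := hc
  constructor
  · unfold colP fpol
    have h1 : (∏ j, b j ^ c.2 j).natDegree ≤ s' - l := by
      rw [← hc2]
      refine (natDegree_prod_le _ _).trans (Finset.sum_le_sum fun j _ => ?_)
      refine natDegree_pow_le.trans ?_
      have := (hb j).1
      nlinarith
    refine natDegree_mul_le.trans ?_
    rw [natDegree_C, zero_add]
    refine natDegree_mul_le.trans ?_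
    rw [natDegree_C, zero_add]
    omega
  · rw [← Bez.degT_le_iff]
    unfold colP fpol
    have h1 := degT_prod_le (b := b) (fun j => (Bez.degT_le_iff _ _).2 (hb j).2) c.2
    rw [hc2] at h1
    refine (Bez.degT_mul_le _ _).trans ?_
    have h2 := Bez.degT_mul_le (C (X ^ c.1) : ℤ[X][X]) (∏ j, b j ^ c.2 j)
    rw [Bez.degT_C, natDegree_X_pow] at h2
    rw [Bez.degT_C]
    have h3 : (ν ^ (2 * l)).natDegree ≤ 8 * l := by
      refine natDegree_pow_le.trans ?_
      nlinarith
    omega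

private theorem hev_sum {n : ℕ} (e : ℕ) (f : Fin n → ℤ[X][X]) (k : Fin n → ℤ)
    (hf : ∀ c i, ((f c).coeff i).natDegree ≤ e) (u v m : ℤ) (hv : v ≠ 0) :
    hev e (∑ c, C (C (k c)) * f c) u v m = ∑ c, k c * hev e (f c) u v m := by
  have h0 : ∀ i, ((∑ c, C (C (k c)) * f c).coeff i).natDegree ≤ e := by
    intro i
    rw [finsetSum_coeff]
    refine natDegree_sum_le_of_forall_le _ _ fun c _ => ?_
    rw [coeff_C_mul]
    exact (natDegree_C_mul_le _ _).trans (hf c i)
  have h1 := hev_eq e _ h0 u v m hv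
  have h2 : ((∑ c, k c * hev e (f c) u v m : ℤ) : ℚ) = (v : ℚ) ^ e *
      ((∑ c, C (C (k c)) * f c).map (mapRingHom (Int.castRingHom ℚ))).evalEval
        ((u : ℚ) / v) (m : ℚ) := by
    push_cast
    rw [Polynomial.map_sum, Polynomial.evalEval_finsetSum, Finset.mul_sum]
    refine Finset.sum_congr rfl fun c _ => ?_
    rw [hev_eq e _ (hf c) u v m hv, Polynomial.map_mul, Polynomial.evalEval_mul]
    simp
    ring
  rw [← h2] at h1
  exact_mod_cast h1

private theorem not_dvd_comb {G : ℤ[X][X]} {n : ℕ} (f : Fin n → ℤ[X][X])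
    (h : LinearIndependent ℂ fun c => qm G (toC (f c))) (k : Fin n → ℤ) (hk : k ≠ 0) :
    ¬ G ∣ ∑ c, C (C (k c)) * f c := by
  intro hdvd
  apply hk
  have h4 : toC G ∣ toC (∑ c, C (C (k c)) * f c) := by
    rw [toC_eq, toC_eq]
    exact map_dvd toCh hdvd
  rw [← qm_eq_zero] at h4
  have h5 : qm G (toC (∑ c, C (C (k c)) * f c)) =
      ∑ c, ((k c : ℤ) : ℂ) • qm G (toC (f c)) := by
    have h7 : toC (∑ c, C (C (k c)) * f c) = ∑ c, ((k c : ℤ) : ℂ) • toC (f c) := by
      rw [toC_eq, map_sum]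
      refine Finset.sum_congr rfl fun c _ => ?_
      rw [map_mul, toC_eq]
      ext i i'
      simp [toCh]
    rw [h7, map_sum]
    refine Finset.sum_congr rfl fun c _ => ?_
    rw [map_smul]
  rw [h5] at h4
  rw [Fintype.linearIndependent_iff] at h
  have h6 := h _ h4
  funext c
  exact_mod_cast h6 c

/-- the level of the column `c` -/
def olev (r s' c : ℕ) : ℕ := min ((r - 1) / 2) ((6 * s' + 2 * r - 1 - c) / 10)

/-- the columns of the one-curve determinant, with the level `olev r s' c` -/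
theorem ocols {g : ℤ[X]} {θ : Fin 4 → ℂ} (_hg : Roots4 g θ) {e1 e2 : Fin 4 → ℤ} {B E : ℝ}
    {b : Fin 4 → ℤ[X][X]} {ν : ℤ[X]} (hb : SlicePol g θ e1 e2 B E b ν) (_hs : SliceOK θ E e1 e2)
    (G : ℤ[X][X]) (hG : Irreducible G) (hR : RankOK θ (tt θ e1 e2) G) (r s' : ℕ)
    (hr : Odd r) (hrs : (r - 1) / 2 < s') :
    ∃ cols : Fin (6 * s' + 2 * r) → ℕ × (Fin 4 → ℕ),
      (∀ c : Fin (6 * s' + 2 * r), IsCol (r - 2 * olev r s' c) (s' - olev r s' c) (cols c)) ∧
      ∀ k : Fin (6 * s' + 2 * r) → ℤ, k ≠ 0 →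
        ¬ G ∣ ∑ c : Fin (6 * s' + 2 * r),
          C (C (k c)) * (C (ν ^ (2 * olev r s' c)) * fpol b (cols c)) := by
  obtain ⟨J, hJ⟩ := hr
  have hJ2 : (r - 1) / 2 = J := by omega
  rw [hJ2] at hrs
  obtain ⟨lev, cols, h1, h2, h3⟩ : ∃ (lev : Fin (6 * s' + 2 * r) → ℕ)
      (cols : Fin (6 * s' + 2 * r) → ℕ × (Fin 4 → ℕ)),
      (∀ c, 0 ≤ lev c ∧ lev c ≤ J ∧ IsCol (r - 2 * lev c) (s' - lev c) (cols c)) ∧
      (∀ c l, 0 ≤ l → l ≤ J → (l ≤ lev c ↔ (c : ℕ) < Rcurve r s' l)) ∧
      LinearIndependent ℂ (fun c => qm G (toC (colP b ν (lev c - 0) (cols c)))) :=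
    cols_aux hb r s' J (by omega) hrs hG hR J 0 (by omega)
  have hlev : ∀ c, lev c = olev r s' c := by
    intro c
    have hc : (c : ℕ) < 6 * s' + 2 * r := c.2
    have h4 : ∀ l, l ≤ J → Rcurve r s' l = 6 * s' + 2 * r - 10 * l := by
      intro l hl
      unfold Rcurve
      omega
    have h5 := (h1 c).2.1
    have h6 := (h2 c (lev c) (Nat.zero_le _) h5).1 le_rfl
    rw [h4 _ h5] at h6
    have h7 : olev r s' c ≤ lev c := by
      have h8 : olev r s' c ≤ J := by
        unfold olev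
        rw [hJ2]
        exact min_le_left _ _
      rw [h2 c (olev r s' c) (Nat.zero_le _) h8, h4 _ h8]
      have h9 : olev r s' c ≤ (6 * s' + 2 * r - 1 - c) / 10 := by
        unfold olev
        exact min_le_right _ _
      omega
    have h8 : lev c ≤ olev r s' c := by
      unfold olev
      rw [hJ2]
      refine le_min h5 ?_
      omega
    omega
  refine ⟨cols, fun c => ?_, fun k hk => ?_⟩
  · have h4 := (h1 c).2.2
    rwa [hlev c] at h4
  · refine not_dvd_comb (fun c : Fin (6 * s' + 2 * r) =>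
      C (ν ^ (2 * olev r s' c)) * fpol b (cols c)) ?_ k hk
    convert h3 using 3 with c
    rw [Nat.sub_zero, hlev c]
    rfl

/-- the columns of the one-curve determinant -/
theorem exists_lev_cols {g : ℤ[X]} {θ : Fin 4 → ℂ} {e1 e2 : Fin 4 → ℤ} {B E : ℝ}
    {b : Fin 4 → ℤ[X][X]} {ν : ℤ[X]} (hb : SlicePol g θ e1 e2 B E b ν) (r s' : ℕ)
    (hr : Odd r) (hrs : (r - 1) / 2 < s') {G : ℤ[X][X]} (hG : Irreducible G)
    (hrank : RankOK θ (tt θ e1 e2) G) :
    ∃ (lev : Fin (Rcurve r s' 0) → ℕ) (cols : Fin (Rcurve r s' 0) → ℕ × (Fin 4 → ℕ)),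
      (∀ c, lev c ≤ (r - 1) / 2 ∧ 2 * lev c ≤ r ∧ lev c ≤ s' ∧
        IsCol (r - 2 * lev c) (s' - lev c) (cols c)) ∧
      ∑ c, lev c = ∑ i ∈ Finset.range ((r - 1) / 2), Rcurve r s' (i + 1) ∧
      ∀ k : Fin (Rcurve r s' 0) → ℤ, k ≠ 0 → ∃ F : ℤ[X][X], ¬ G ∣ F ∧ F.natDegree ≤ s' ∧
        (∀ l, (F.coeff l).natDegree ≤ 6 * s' + r) ∧
        ∀ (K Y P : ℝ) (z : ZPt), AOK g K Y P e1 e2 z →
          (On F z ↔ ∑ c, k c * (z.m ^ (2 * lev c) * fv (r - 2 * lev c) (cols c) z) = 0) := by
  classical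
  obtain ⟨J, hJ⟩ := hr
  have hJ2 : (r - 1) / 2 = J := by omega
  rw [hJ2] at hrs ⊢
  obtain ⟨lev, cols, h1, h2, h3⟩ := cols_aux hb r s' J (by omega) hrs hG hrank J 0 (by omega)
  have h1' : ∀ c, lev c ≤ J ∧ 2 * lev c ≤ r ∧ lev c ≤ s' ∧
      IsCol (r - 2 * lev c) (s' - lev c) (cols c) := by
    intro c
    obtain ⟨-, h5, h6⟩ := h1 c
    exact ⟨h5, by omega, by omega, h6⟩
  refine ⟨lev, cols, h1', ?_, ?_⟩
  · have h4 : ∀ c, lev c = ∑ i ∈ Finset.range J, if (c : ℕ) < Rcurve r s' (i + 1) then 1 else 0 := by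
      intro c
      have h5 : ∀ i ∈ Finset.range J, (if (c : ℕ) < Rcurve r s' (i + 1) then 1 else 0) =
          if i < lev c then 1 else 0 := by
        intro i hi
        have h6 := h2 c (i + 1) (by omega) (by have := Finset.mem_range.1 hi; omega)
        by_cases h7 : i < lev c
        · rw [if_pos h7, if_pos (h6.1 (by omega))]
        · rw [if_neg h7, if_neg (fun h8 => h7 (by have := h6.2 h8; omega))]
      rw [Finset.sum_congr rfl h5, Finset.sum_boole]
      have h8 : (Finset.range J).filter (fun i => i < lev c) = Finset.range (lev c) := by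
        ext i
        rw [Finset.mem_filter, Finset.mem_range, Finset.mem_range]
        have := (h1' c).1
        omega
      rw [h8, Finset.card_range]
      rfl
    rw [Finset.sum_congr rfl (fun c _ => h4 c), Finset.sum_comm]
    refine Finset.sum_congr rfl fun i hi => ?_
    rw [Finset.sum_boole]
    have h5 : Rcurve r s' (i + 1) ≤ Rcurve r s' 0 := by
      unfold Rcurve
      omega
    have h6 : (Finset.univ.filter (fun c : Fin (Rcurve r s' 0) => (c : ℕ) < Rcurve r s' (i + 1))) =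
        Finset.univ.map (Fin.castLEEmb h5) := by
      ext c
      simp only [Finset.mem_filter, Finset.mem_univ, true_and, Finset.mem_map]
      constructor
      · intro h7
        exact ⟨⟨c, h7⟩, rfl⟩
      · rintro ⟨x, rfl⟩
        exact x.2
    rw [h6, Finset.card_map, Finset.card_univ, Fintype.card_fin]
    rfl
  · intro k hk
    have hdeg : ∀ c, (colP b ν (lev c) (cols c)).natDegree ≤ s' ∧
        ∀ i, ((colP b ν (lev c) (cols c)).coeff i).natDegree ≤ 6 * s' + r := fun c =>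
      degT_colP hb.ν_deg (fun j => ⟨(hb.bdd j).1, (hb.bdd j).2.1⟩) r s' (lev c) (h1' c).2.1
        (h1' c).2.2.1 (cols c) (h1' c).2.2.2
    have hFdeg : ∀ l, ((∑ c, C (C (k c)) * colP b ν (lev c) (cols c)).coeff l).natDegree ≤
        6 * s' + r := by
      intro i
      rw [finsetSum_coeff]
      refine natDegree_sum_le_of_forall_le _ _ fun c _ => ?_
      rw [coeff_C_mul]
      exact (natDegree_C_mul_le _ _).trans ((hdeg c).2 i)
    refine ⟨∑ c, C (C (k c)) * colP b ν (lev c) (cols c), ?_, ?_, hFdeg, ?_⟩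
    · refine not_dvd_comb _ ?_ k hk
      convert h3 using 3 with c
      rw [Nat.sub_zero]
    · refine natDegree_sum_le_of_forall_le _ _ fun c _ => ?_
      exact (natDegree_C_mul_le _ _).trans (hdeg c).1
    · intro K Y P z hz
      have hv : z.v ≠ 0 := hz.1
      have hvQ : (z.v : ℚ) ≠ 0 := by exact_mod_cast hv
      have h4 := hev_eq (6 * s' + r) _ hFdeg z.u z.v z.n hv
      have h5 := hev_sum (6 * s' + r) (fun c => colP b ν (lev c) (cols c)) k
        (fun c => (hdeg c).2) z.u z.v z.n hv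
      have h6 : On (∑ c, C (C (k c)) * colP b ν (lev c) (cols c)) z ↔
          ∑ c, k c * hev (6 * s' + r) (colP b ν (lev c) (cols c)) z.u z.v z.n = 0 := by
        rw [← h5]
        unfold On
        constructor
        · intro h7
          rw [h7, mul_zero] at h4
          exact_mod_cast h4
        · intro h7
          rw [h7, Int.cast_zero] at h4
          exact (mul_eq_zero.1 h4.symm).resolve_left (pow_ne_zero _ hvQ)
      rw [h6]
      have hm : z.m ≠ 0 := hz.2.m_ne
      have hp : (z.p : ℤ) ≠ 0 := by exact_mod_cast hz.2.prime.ne_zero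
      have h8 : (z.m ^ 2) ^ s' * ∑ c, k c * hev (6 * s' + r) (colP b ν (lev c) (cols c)) z.u z.v z.n =
          (((z.p : ℤ) * z.m) ^ 2) ^ s' *
            ∑ c, k c * (z.m ^ (2 * lev c) * fv (r - 2 * lev c) (cols c) z) := by
        rw [Finset.mul_sum, Finset.mul_sum]
        refine Finset.sum_congr rfl fun c _ => ?_
        have h9 := fv_eval hb (r - 2 * lev c) (s' - lev c) (lev c) (cols c) (h1' c).2.2.2 K Y P z hz
        have h10 : s' - lev c + lev c = s' := Nat.sub_add_cancel (h1' c).2.2.1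
        have h11 : r - 2 * lev c + 2 * lev c = r := Nat.sub_add_cancel (h1' c).2.1
        rw [h10, h11] at h9
        unfold colP
        linear_combination (-(k c : ℤ)) * h9
      constructor
      · intro h7
        rw [h7, mul_zero] at h8
        exact (mul_eq_zero.1 h8.symm).resolve_left (pow_ne_zero _ (pow_ne_zero _
          (mul_ne_zero hp hm)))
      · intro h7
        rw [h7, mul_zero] at h8
        exact (mul_eq_zero.1 h8).resolve_left (pow_ne_zero _ (pow_ne_zero _ hm))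

end Pool.Agent.Lib.SQF
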