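import Pool.Agent.Lib.SQF.AClus
import Pool.Agent.Lib.SQF.ANoForm
import Pool.Agent.Lib.SQF.NumA
import Pool.Agent.Lib.SQF.Cluster
import Pool.Agent.Lib.SQF.OCols
import Pool.Agent.Lib.SQF4.RDet

/-!
# SQF: solutions on one curve (S6, Proposition 9; owner helper39, statement helper82)

`N' = 6 s' + 2 r`, `J = (r - 1) / 2`, `R_j = N' - 10 j`. Columns (`ocols`, helper18): level
`olev r s' c`, monomial forms of bidegree `(r - 2 j, s' - j)`, polynomials `C (ν ^ (2 j)) * fpol b c`,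
independent modulo `G`. A cluster of more than Bezout many points gives a nonzero determinant,
divisible by `q^(N'(N'-1)/2)`.
-/

set_option autoImplicit false

open Polynomial

namespace Pool.Agent.Lib.SQF

private lemma min_eq_sum (J m : ℕ) : min J m = ∑ i ∈ Finset.range J, if i < m then 1 else 0 := by
  rw [Finset.sum_boole]
  have : (Finset.range J).filter (fun i => i < m) = Finset.range (min J m) := by
    ext i; simp
  rw [this, Finset.card_range]; rfl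

private lemma olev_le (r s' c : ℕ) : olev r s' c ≤ (r - 1) / 2 := min_le_left _ _

/-- total level -/
lemma sum_olev (r s' : ℕ) (hr : Odd r) (hrs : (r - 1) / 2 < s') :
    ∑ c : Fin (6 * s' + 2 * r), olev r s' c =
      ∑ i ∈ Finset.range ((r - 1) / 2), Rcurve r s' (i + 1) := by
  obtain ⟨J, rfl⟩ := hr
  have hJ : (2 * J + 1 - 1) / 2 = J := by omega
  rw [hJ] at hrs ⊢
  rw [Fin.sum_univ_eq_sum_range (fun c => olev (2 * J + 1) s' c)]
  simp only [olev, hJ, min_eq_sum]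
  rw [Finset.sum_comm]
  refine Finset.sum_congr rfl fun i hi => ?_
  rw [Finset.mem_range] at hi
  rw [Finset.sum_boole]
  have : (Finset.range (6 * s' + 2 * (2 * J + 1))).filter
      (fun x => i < (6 * s' + 2 * (2 * J + 1) - 1 - x) / 10) =
      Finset.range (6 * s' + 2 * (2 * J + 1) - 10 * (i + 1)) := by
    ext x
    simp only [Finset.mem_filter, Finset.mem_range]
    constructor
    · rintro ⟨h1, h2⟩
      have h3 : 10 * (i + 1) ≤ 6 * s' + 2 * (2 * J + 1) - 1 - x := by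
        have := (Nat.le_div_iff_mul_le (by norm_num : 0 < 10)).1 h2
        omega
      omega
    · intro h1
      refine ⟨by omega, ?_⟩
      apply (Nat.le_div_iff_mul_le (by norm_num : 0 < 10)).2
      omega
  rw [this, Finset.card_range, Rcurve]
  simp only [Nat.cast_id]
  omega

/-- the size of the product of all column bounds -/
lemma size_cols (r s' : ℕ) (hr : Odd r) (hrs : (r - 1) / 2 < s') (K Y P d0 x : ℝ) (hK : 1 ≤ K)
    (hY : 1 ≤ Y) (hP : Y ^ (1 + d0) ≤ P) :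
    ∏ c : Fin (6 * s' + 2 * r), (K ^ (2 * olev r s' c) *
        ((K * P ^ ((1 : ℝ) / 6) * Y ^ x) ^ (r - 2 * olev r s' c) *
          (K * (Y / P ^ ((1 : ℝ) / 2))) ^ (s' - olev r s' c))) ≤
      K ^ ((r + 2 * s') * (6 * s' + 2 * r)) * Y ^ (cost9 r s' ((1 + d0) / 6 + x) ((1 - d0) / 2)) := by
  set N := 6 * s' + 2 * r with hN
  have hY0 : 0 < Y := by linarith
  have hP0 : 0 < P := lt_of_lt_of_le (Real.rpow_pos_of_pos hY0 _) hP
  have hK0 : 0 < K := by linarith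
  have hlev : ∀ c, olev r s' c ≤ (r - 1) / 2 := fun c => olev_le r s' c
  set S : ℕ := ∑ c : Fin N, olev r s' c with hS
  set a1 : ℕ := ∑ c : Fin N, (r - 2 * olev r s' c) with ha1
  set a2 : ℕ := ∑ c : Fin N, (s' - olev r s' c) with ha2
  have e1 : a1 + 2 * S = r * N := by
    rw [ha1, hS, Finset.mul_sum, ← Finset.sum_add_distrib]
    have : ∀ c : Fin N, r - 2 * olev r s' c + 2 * olev r s' c = r := fun c => by
      have := hlev c
      omega
    rw [Finset.sum_congr rfl fun c _ => this c]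
    simp [mul_comm]
  have e2 : a2 + S = s' * N := by
    rw [ha2, hS, ← Finset.sum_add_distrib]
    have : ∀ c : Fin N, s' - olev r s' c + olev r s' c = s' := fun c => by
      have := hlev c
      omega
    rw [Finset.sum_congr rfl fun c _ => this c]
    simp [mul_comm]
  have e3 : S ≤ (r - 1) / 2 * N := by
    rw [hS]
    refine (Finset.sum_le_sum (fun (c : Fin N) _ => hlev c)).trans ?_
    simp [mul_comm]
  -- the product
  have h1 : ∏ c : Fin N, (K ^ (2 * olev r s' c) *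
        ((K * P ^ ((1 : ℝ) / 6) * Y ^ x) ^ (r - 2 * olev r s' c) *
          (K * (Y / P ^ ((1 : ℝ) / 2))) ^ (s' - olev r s' c))) =
      K ^ (2 * S + a1 + a2) * ((P ^ ((1 : ℝ) / 6) * Y ^ x) ^ a1 * (Y / P ^ ((1 : ℝ) / 2)) ^ a2) := by
    rw [Finset.prod_mul_distrib, Finset.prod_mul_distrib, Finset.prod_pow_eq_pow_sum,
      Finset.prod_pow_eq_pow_sum, Finset.prod_pow_eq_pow_sum, ← Finset.mul_sum, ← hS, ← ha1, ← ha2,
      mul_assoc K, mul_pow, mul_pow K, pow_add, pow_add]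
    ring
  rw [h1]
  have h2 : K ^ (2 * S + a1 + a2) ≤ K ^ ((r + 2 * s') * N) := by
    apply pow_le_pow_right₀ hK
    have : 2 * S + a1 + a2 ≤ r * N + s' * N := by omega
    nlinarith
  have hPp : (P ^ ((1 : ℝ) / 6) * Y ^ x) ^ a1 * (Y / P ^ ((1 : ℝ) / 2)) ^ a2 =
      P ^ ((a1 : ℝ) / 6 - a2 / 2) * Y ^ (x * a1 + a2) := by
    rw [mul_pow, div_pow, ← Real.rpow_natCast (P ^ ((1 : ℝ) / 6)),
      ← Real.rpow_natCast (Y ^ x), ← Real.rpow_natCast Y, ← Real.rpow_natCast (P ^ ((1 : ℝ) / 2)),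
      ← Real.rpow_mul hP0.le, ← Real.rpow_mul hY0.le, ← Real.rpow_mul hP0.le,
      Real.rpow_sub hP0, Real.rpow_add hY0]
    have t1 : (1 : ℝ) / 6 * a1 = a1 / 6 := by ring
    have t2 : (1 : ℝ) / 2 * a2 = a2 / 2 := by ring
    rw [t1, t2]
    ring
  have hneg : (a1 : ℝ) / 6 - a2 / 2 ≤ 0 := by
    have h3 : a1 ≤ 3 * a2 := by
      obtain ⟨J, rfl⟩ := hr
      have hJ : (2 * J + 1 - 1) / 2 = J := by omega
      rw [hJ] at e3 hrs
      have h4 : (2 * J + 1) * N + J * N ≤ 3 * (s' * N) := by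
        have : (2 * J + 1) + J ≤ 3 * s' := by omega
        nlinarith
      omega
    have h5 : (a1 : ℝ) ≤ 3 * a2 := by exact_mod_cast h3
    linarith
  have h3 : P ^ ((a1 : ℝ) / 6 - a2 / 2) ≤ (Y ^ (1 + d0)) ^ ((a1 : ℝ) / 6 - a2 / 2) :=
    Real.rpow_le_rpow_of_nonpos (Real.rpow_pos_of_pos hY0 _) hP hneg
  have h4 : (Y ^ (1 + d0)) ^ ((a1 : ℝ) / 6 - a2 / 2) * Y ^ (x * a1 + a2) =
      Y ^ (cost9 r s' ((1 + d0) / 6 + x) ((1 - d0) / 2)) := by
    rw [← Real.rpow_mul hY0.le, ← Real.rpow_add hY0]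
    congr 1
    have f1 : (a1 : ℝ) = r * N - 2 * S := by
      have : ((a1 + 2 * S : ℕ) : ℝ) = ((r * N : ℕ) : ℝ) := by rw [e1]
      push_cast at this
      linarith
    have f2 : (a2 : ℝ) = s' * N - S := by
      have : ((a2 + S : ℕ) : ℝ) = ((s' * N : ℕ) : ℝ) := by rw [e2]
      push_cast at this
      linarith
    have f3 : (S : ℝ) = ∑ i ∈ Finset.range ((r - 1) / 2), (Rcurve r s' (i + 1) : ℝ) := by
      rw [hS, hN, sum_olev r s' hr hrs]; push_cast; rfl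
    have f4 : (Rcurve r s' 0 : ℝ) = N := by
      rw [hN, Rcurve]; push_cast; simp
    rw [cost9, ← f3, f4, f1, f2]
    ring
  rw [hPp]
  have h5 : P ^ ((a1 : ℝ) / 6 - a2 / 2) * Y ^ (x * a1 + a2) ≤
      Y ^ (cost9 r s' ((1 + d0) / 6 + x) ((1 - d0) / 2)) := by
    rw [← h4]
    exact mul_le_mul_of_nonneg_right h3 (Real.rpow_nonneg hY0.le _)
  exact mul_le_mul h2 h5 (mul_nonneg (Real.rpow_nonneg hP0.le _) (Real.rpow_nonneg hY0.le _))
    (by positivity)

lemma fv_bound {i s : ℕ} {c : ℕ × (Fin 4 → ℕ)} (hc : IsCol i s c) (z : ZPt) {U W : ℝ}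
    (hu : |(z.u : ℝ)| ≤ U) (hv : |(z.v : ℝ)| ≤ U) (hb : ∀ j, |(z.b j : ℝ)| ≤ W) :
    |((fv i c z : ℤ) : ℝ)| ≤ U ^ i * W ^ s := by
  have hU : 0 ≤ U := (abs_nonneg _).trans hu
  have hW : 0 ≤ W := (abs_nonneg _).trans (hb 0)
  rw [fv]
  push_cast
  rw [abs_mul, abs_mul, abs_pow, abs_pow, Finset.abs_prod]
  have h1 : |(z.u : ℝ)| ^ c.1 * |(z.v : ℝ)| ^ (i - c.1) ≤ U ^ i := by
    calc |(z.u : ℝ)| ^ c.1 * |(z.v : ℝ)| ^ (i - c.1) ≤ U ^ c.1 * U ^ (i - c.1) := by gcongr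
      _ = U ^ i := by rw [← pow_add, Nat.add_sub_cancel' hc.1]
  have h2 : ∏ j, |(z.b j : ℝ) ^ c.2 j| ≤ W ^ s := by
    calc ∏ j, |(z.b j : ℝ) ^ c.2 j| ≤ ∏ j, W ^ c.2 j := by
          refine Finset.prod_le_prod (fun _ _ => abs_nonneg _) fun j _ => ?_
          rw [abs_pow]
          exact pow_le_pow_left₀ (abs_nonneg _) (hb j) _
      _ = W ^ s := by rw [Finset.prod_pow_eq_pow_sum, hc.2]
  exact mul_le_mul h1 h2 (Finset.prod_nonneg fun _ _ => abs_nonneg _) (pow_nonneg hU _)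

theorem one_curve {g : ℤ[X]} {θ : Fin 4 → ℂ} (hg : Roots4 g θ) (r s' a e : ℕ) (hr : Odd r)
    (hrs : (r - 1) / 2 < s') (K L A d0 x ρ η : ℝ) (hK : 1 ≤ K) (hL : 1 ≤ L) (hd0 : -(1 / 10) ≤ d0)
    (hx : 0 ≤ x) (hρ : 0 < ρ) (hρ1 : ρ ≤ 1 / 2) (hη : 0 < η)
    (hcert : cost9 r s' ((1 + d0) / 6 + x) ((1 - d0) / 2) + η ≤
      ρ * ((Rcurve r s' 0 : ℝ) * ((Rcurve r s' 0 : ℝ) - 1) / 2)) (ε : ℝ) (hε : 0 < ε) :
    ∃ Y0 : ℝ, 1 ≤ Y0 ∧ ∀ Y P : ℝ, Y0 ≤ Y → Y ≤ L * P → Y ^ (1 + d0) ≤ P → P ≤ Y ^ A →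
      ∀ e1 e2 : Fin 4 → ℤ, SliceOK θ (Y ^ A) e1 e2 →
      ∀ G : ℤ[X][X], Irreducible G → Bdd a e (Y ^ A) G → RankOK θ (tt θ e1 e2) G →
      ∀ S : Finset ZPt,
      (∀ z ∈ S, AOK g K Y P e1 e2 z ∧ On G z ∧ |(z.u : ℝ)| ≤ K * P ^ ((1 : ℝ) / 6) * Y ^ x ∧
        |(z.v : ℝ)| ≤ K * P ^ ((1 : ℝ) / 6) * Y ^ x) →
      TInj S → (S.card : ℝ) ≤ Y ^ (ρ + ε) := by
  classical
  -- parameters
  set A' : ℝ := |A| + x + 1 with hA'
  set N : ℕ := 6 * s' + 2 * r with hN
  set e' : ℕ := max e (6 * s' + r) with he'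
  have hR0 : Rcurve r s' 0 = N := by simp [Rcurve, hN]
  obtain ⟨Y1, hY1, hcl⟩ := acluster' hg r s' a e' 1 N K L A' ρ ε hρ hρ1 hε
  -- thresholds
  set Bz : ℝ := (((a + s') * e' : ℕ) : ℝ) with hBz
  set CC : ℝ := (N.factorial : ℝ) * K ^ ((r + 2 * s') * N) with hCC
  have hCC1 : 1 ≤ CC := by
    have h1 : (1 : ℝ) ≤ N.factorial := by exact_mod_cast N.factorial_pos
    have h2 : (1 : ℝ) ≤ K ^ ((r + 2 * s') * N) := one_le_pow₀ hK
    nlinarith
  refine ⟨max (max Y1 K) (max ((Bz + 1) ^ (2 / ε)) ((CC + 1) ^ (1 / η))), ?_, ?_⟩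
  · exact hY1.trans ((le_max_left _ _).trans (le_max_left _ _))
  intro Y P hY hYP hP1 hP2 e1 e2 hs G hG hGb hR S hS hinj
  have hYY1 : Y1 ≤ Y := ((le_max_left _ _).trans (le_max_left _ _)).trans hY
  have hYK : K ≤ Y := ((le_max_right _ _).trans (le_max_left _ _)).trans hY
  have hYB : (Bz + 1) ^ (2 / ε) ≤ Y := ((le_max_left _ _).trans (le_max_right _ _)).trans hY
  have hYC : (CC + 1) ^ (1 / η) ≤ Y := ((le_max_right _ _).trans (le_max_right _ _)).trans hY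
  have hYone : 1 ≤ Y := hY1.trans hYY1
  have hY0 : 0 < Y := by linarith
  have hBz0 : 0 ≤ Bz := by positivity
  by_contra hcard
  push Not at hcard
  -- the hypotheses of the cluster theorem
  have hAA : A ≤ A' := by
    have := le_abs_self A
    rw [hA']; linarith
  have hYA : Y ^ A ≤ Y ^ A' := Real.rpow_le_rpow_of_exponent_le hYone hAA
  have hPpos : 0 < P := lt_of_lt_of_le (Real.rpow_pos_of_pos hY0 _) hP1
  have hU : K * P ^ ((1 : ℝ) / 6) * Y ^ x ≤ Y ^ A' := by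
    have h1 : P ^ ((1 : ℝ) / 6) ≤ Y ^ |A| := by
      have h2 : P ≤ Y ^ |A| := hP2.trans (Real.rpow_le_rpow_of_exponent_le hYone (le_abs_self A))
      have h3 : P ^ ((1 : ℝ) / 6) ≤ (Y ^ |A|) ^ ((1 : ℝ) / 6) :=
        Real.rpow_le_rpow hPpos.le h2 (by norm_num)
      refine h3.trans ?_
      rw [← Real.rpow_mul hY0.le]
      apply Real.rpow_le_rpow_of_exponent_le hYone
      nlinarith [abs_nonneg A]
    have h4 : K * P ^ ((1 : ℝ) / 6) * Y ^ x ≤ Y ^ (1 : ℝ) * Y ^ |A| * Y ^ x := by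
      rw [Real.rpow_one]
      gcongr
    refine h4.trans (le_of_eq ?_)
    rw [← Real.rpow_add hY0, ← Real.rpow_add hY0, hA']
    congr 1; ring
  have hs' : SliceOK θ (Y ^ A') e1 e2 :=
    ⟨hs.ne1, hs.ne2, hs.dist, fun j => (hs.le1 j).trans hYA, fun j => (hs.le2 j).trans hYA⟩
  have hGb' : Bdd a e' (Y ^ A') G :=
    ⟨hGb.1, fun l => (hGb.2.1 l).trans (le_max_left _ _), fun l l' => (hGb.2.2 l l').trans hYA⟩
  have hG1 : 1 ≤ G.natDegree := le_trans (by norm_num) hR.1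
  obtain ⟨q, hq, -, hqY, C', hC', hcC, hdiv⟩ := hcl Y P hYY1 hYP (hP2.trans hYA) e1 e2 hs' G hG hG1
    hGb' S (fun z hz => ⟨(hS z hz).1, (hS z hz).2.1, (hS z hz).2.2.1.trans hU,
      (hS z hz).2.2.2.trans hU⟩) hinj hcard.le ∅ (by simp)
  -- the slice polynomials and the columns
  obtain ⟨B, hB, hBs⟩ := exists_b hg
  have hYA1 : 1 ≤ Y ^ A' := Real.one_le_rpow hYone (by
    rw [hA']; have := abs_nonneg A; linarith)
  obtain ⟨b, ν, hb⟩ := hBs (Y ^ A') hYA1 e1 e2 hs'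
  obtain ⟨cols, hcols, hind⟩ := ocols hg hb hs' G hG hR r s' hr hrs
  have hlev : ∀ c, 2 * olev r s' c ≤ r ∧ olev r s' c ≤ s' := by
    intro c
    have := olev_le r s' c
    obtain ⟨J, rfl⟩ := hr
    omega
  set v : ZPt → Fin N → ℤ := fun z c =>
    z.m ^ (2 * olev r s' c) * fv (r - 2 * olev r s' c) (cols c) z with hv
  -- more than Bezout many points
  have hcC2 : Bz < (C'.card : ℝ) := by
    have h1 : Bz + 1 ≤ Y ^ (ε / 2) := by
      have h2 : ((Bz + 1) ^ (2 / ε)) ^ (ε / 2) ≤ Y ^ (ε / 2) :=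
        Real.rpow_le_rpow (by positivity) hYB (by positivity)
      rw [← Real.rpow_mul (by positivity)] at h2
      have h3 : 2 / ε * (ε / 2) = 1 := by field_simp
      rwa [h3, Real.rpow_one] at h2
    linarith
  have hcC3 : (a + s') * e' < C'.card := by
    rw [hBz] at hcC2
    exact_mod_cast hcC2
  have hAOK : ∀ z ∈ C', AOK g K Y P e1 e2 z := fun z hz => (hS z (hC' hz)).1
  -- no relation
  have hspan : ∀ k : Fin N → ℤ, (∀ i < 1, ∀ z ∈ (fun _ : ℕ => C') i, ∑ j, k j * v z j = 0) →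
      k = 0 := by
    intro k hk
    by_contra hk0
    apply hind k hk0
    refine bez_dvd a s' e' G _ hG hG1 hGb.1 ?_ hGb'.2.1 ?_ C' ?_ ?_ hcC3
    · refine natDegree_sum_le_of_forall_le _ _ fun c _ => ?_
      refine natDegree_mul_le.trans ?_
      rw [natDegree_C, zero_add]
      exact (fpol_deg hb _ _ _ _ (hcols c)).1.trans (Nat.sub_le _ _)
    · intro l
      rw [finsetSum_coeff]
      refine natDegree_sum_le_of_forall_le _ _ fun c _ => ?_
      rw [coeff_C_mul]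
      refine (natDegree_C_mul_le _ _).trans (((fpol_deg hb _ _ _ _ (hcols c)).2 l).trans ?_)
      refine le_trans (le_of_eq ?_) (le_max_right e (6 * s' + r))
      have := hlev c
      omega
    · intro z hz
      refine ⟨(hAOK z hz).1, (hS z (hC' hz)).2.1, ?_⟩
      rw [on_iff_ev2, map_sum]
      have hz' := hAOK z hz
      have hv0 : (z.v : ℚ) ≠ 0 := by exact_mod_cast hz'.1
      have hm0 : (z.m : ℚ) ≠ 0 := by exact_mod_cast hz'.2.m_ne
      have h1 := hk 0 (by norm_num) z hz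
      have h2 : ∀ c, (((z.p : ℚ) * z.m) ^ 2) ^ s' * ((k c * v z c : ℤ) : ℚ) =
          ((z.m : ℚ) ^ 2) ^ s' * (z.v : ℚ) ^ (6 * s' + r) *
            AE.ev2 ((z.u : ℚ) / z.v) (z.n : ℚ)
              (C (C (k c)) * (C (ν ^ (2 * olev r s' c)) * fpol b (cols c))) := by
        intro c
        have h3 := fv_eval_rat hb (r - 2 * olev r s' c) (s' - olev r s' c) (olev r s' c) (cols c)
          (hcols c) K Y P z hz'
        have e1 : s' - olev r s' c + olev r s' c = s' := by have := hlev c; omega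
        have e2 : 6 * s' + (r - 2 * olev r s' c + 2 * olev r s' c) = 6 * s' + r := by
          have := hlev c; omega
        rw [e1, e2] at h3
        rw [map_mul, AE.ev2_C, AE.ev1_C]
        rw [Int.cast_mul]
        rw [hv]
        linear_combination (k c : ℚ) * h3
      have h4 : ((z.m : ℚ) ^ 2) ^ s' * (z.v : ℚ) ^ (6 * s' + r) *
          ∑ c, AE.ev2 ((z.u : ℚ) / z.v) (z.n : ℚ)
              (C (C (k c)) * (C (ν ^ (2 * olev r s' c)) * fpol b (cols c))) = 0 := by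
        rw [Finset.mul_sum, ← Finset.sum_congr rfl fun c _ => h2 c, ← Finset.mul_sum,
          ← Int.cast_sum, h1, Int.cast_zero, mul_zero]
      have h5 : ((z.m : ℚ) ^ 2) ^ s' * (z.v : ℚ) ^ (6 * s' + r) ≠ 0 := by positivity
      exact (mul_eq_zero.1 h4).resolve_left h5
    · intro z hz z' hz' h
      exact hinj z (hC' hz) z' (hC' hz') h
  obtain ⟨xx, lev, hxx, hdet, -⟩ := exists_rows v 1 (fun _ => C') hspan
  have hxC : ∀ i, xx i ∈ C' := fun i => (hxx i).2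
  -- divisibility
  have hdvd := hdiv (fun c => olev r s' c) cols (fun c => ⟨(hlev c).1, (hlev c).2, hcols c⟩) xx
    Finset.univ (fun i _ => hxC i)
  rw [Finset.card_univ, Fintype.card_fin] at hdvd
  have hdet' : Matrix.det (Matrix.of fun r' (c : Fin N) =>
      (xx r').m ^ (2 * olev r s' c) * fv (r - 2 * olev r s' c) (cols c) (xx r')) ≠ 0 := hdet
  have hlow := Int.le_of_dvd (abs_pos.2 hdet') ((dvd_abs _ _).2 hdvd)
  -- upper bound
  set D : ℤ := Matrix.det (Matrix.of fun r' (c : Fin N) =>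
      (xx r').m ^ (2 * olev r s' c) * fv (r - 2 * olev r s' c) (cols c) (xx r')) with hD
  have hup : |(D : ℝ)| ≤ (N.factorial : ℝ) * ∏ c : Fin N, (K ^ (2 * olev r s' c) *
        ((K * P ^ ((1 : ℝ) / 6) * Y ^ x) ^ (r - 2 * olev r s' c) *
          (K * (Y / P ^ ((1 : ℝ) / 2))) ^ (s' - olev r s' c))) := by
    have h1 : (D : ℝ) = Matrix.det ((Matrix.of fun r' (c : Fin N) =>
        (xx r').m ^ (2 * olev r s' c) * fv (r - 2 * olev r s' c) (cols c) (xx r')).map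
          (Int.castRingHom ℝ)) := by
      rw [hD, ← RingHom.mapMatrix_apply, ← RingHom.map_det]; rfl
    rw [h1]
    refine Pool.Agent.SQF4.det_abs_le_prod _ _ fun i c => ?_
    have hz := hS (xx i) (hC' (hxC i))
    have hbW : ∀ j, |((xx i).b j : ℝ)| ≤ K * (Y / P ^ ((1 : ℝ) / 2)) := by
      intro j
      have h2 := hz.1.2.coeffβ j
      have h3 : (P ^ ((1 : ℝ) / (4 : ℕ))) ^ 2 = P ^ ((1 : ℝ) / 2) := by
        rw [← Real.rpow_natCast, ← Real.rpow_mul hPpos.le]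
        norm_num
      rw [h3] at h2
      have h4 : 0 < P ^ ((1 : ℝ) / 2) := Real.rpow_pos_of_pos hPpos _
      rw [← mul_div_assoc, le_div_iff₀ h4]
      exact h2
    have h5 := fv_bound (hcols c) (xx i) hz.2.2.1 hz.2.2.2 hbW
    rw [Matrix.map_apply, Matrix.of_apply]
    have h6 : ((Int.castRingHom ℝ) ((xx i).m ^ (2 * olev r s' c) *
        fv (r - 2 * olev r s' c) (cols c) (xx i))) =
        ((xx i).m : ℝ) ^ (2 * olev r s' c) *
          ((fv (r - 2 * olev r s' c) (cols c) (xx i) : ℤ) : ℝ) := by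
      simp
    rw [h6, abs_mul, abs_pow]
    exact mul_le_mul (pow_le_pow_left₀ (abs_nonneg _) hz.1.2.m_le _) h5 (abs_nonneg _)
      (by positivity)
  have hup2 := hup.trans (mul_le_mul_of_nonneg_left
    (size_cols r s' hr hrs K Y P d0 x hK hYone hP1) (by positivity))
  have hlow2 : Y ^ (ρ * ((N : ℝ) * (N - 1) / 2)) ≤ |(D : ℝ)| := by
    have h1 : ((q : ℝ)) ^ (N * (N - 1) / 2) ≤ |(D : ℝ)| := by
      have h2 : (((q : ℤ) ^ (N * (N - 1) / 2) : ℤ) : ℝ) ≤ ((|D| : ℤ) : ℝ) := by exact_mod_cast hlow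
      push_cast at h2
      exact h2
    have h3 : (((N * (N - 1) / 2 : ℕ)) : ℝ) = (N : ℝ) * (N - 1) / 2 := by
      have h4 : 2 ∣ N * (N - 1) := (Nat.even_mul_pred_self N).two_dvd
      rw [Nat.cast_div h4 (by norm_num)]
      rcases Nat.eq_zero_or_pos N with h0 | h0
      · rw [h0]; simp
      · rw [Nat.cast_mul, Nat.cast_sub h0]; norm_num
    rw [← h3, Real.rpow_mul hY0.le, Real.rpow_natCast]
    exact (pow_le_pow_left₀ (Real.rpow_nonneg hY0.le _) hqY _).trans h1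
  rw [hR0] at hcert
  have hfin : Y ^ (ρ * ((N : ℝ) * (N - 1) / 2)) ≤
      CC * Y ^ (ρ * ((N : ℝ) * (N - 1) / 2) - η) := by
    refine hlow2.trans (hup2.trans ?_)
    rw [hCC, ← mul_assoc]
    refine mul_le_mul_of_nonneg_left ?_ (by positivity)
    apply Real.rpow_le_rpow_of_exponent_le hYone
    linarith
  generalize ρ * ((N : ℝ) * (N - 1) / 2) = Q at hfin
  rw [Real.rpow_sub hY0, ← mul_div_assoc, le_div_iff₀ (Real.rpow_pos_of_pos hY0 _)] at hfin
  have h7 : 0 < Y ^ Q := Real.rpow_pos_of_pos hY0 _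
  have h8 : Y ^ η ≤ CC := by
    by_contra hlt
    push Not at hlt
    nlinarith
  have h9 : CC + 1 ≤ Y ^ η := by
    have h2 : ((CC + 1) ^ (1 / η)) ^ η ≤ Y ^ η :=
      Real.rpow_le_rpow (by positivity) hYC hη.le
    rw [← Real.rpow_mul (by positivity)] at h2
    have h3 : 1 / η * η = 1 := by field_simp
    rwa [h3, Real.rpow_one] at h2
  linarith

end Pool.Agent.Lib.SQF
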