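import Pool.Agent.Lib.SQF.ACols
import Pool.Agent.Lib.SQF.AClus
import Pool.Agent.Lib.SQF.AFirst
import Pool.Agent.Lib.SQF.ANoForm
import Pool.Agent.Lib.SQF.OneCurve
import Pool.Agent.Lib.SQF.ADich
import Pool.Agent.Lib.SQF.AReal
import Pool.Agent.Lib.SQF.ACoreAux
import Pool.Agent.Lib.SQF.ACoreMain
import Pool.Agent.Lib.SQF.Cluster
import Pool.Agent.Lib.SQF.NumA

/-!
# SQF: the per-slice theorem A for points with distinct `t`, distinct `n`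
-/

set_option autoImplicit false

open Polynomial

namespace Pool.Agent.Lib.SQF

open Pool.Agent.SQF4 (sn RBasis)

theorem acore {g : ℤ[X]} {θ : Fin 4 → ℂ} (hg : Roots4 g θ) (d0 d1 x0 x1 : ℝ)
    (h0 : -(1 / 100) ≤ d0) (h01 : d0 < d1) (h1 : d1 ≤ 383 / 1000) (hx0 : 0 ≤ x0) (hx01 : x0 < x1)
    (hx1 : x1 ≤ 3 / 25) (hx : x0 ≤ 3 / 100) (hc : CertA d0 d1 x0 x1) (K L : ℝ) (hK : 1 ≤ K)
    (hL : 1 ≤ L) :
    ∃ c : ℝ, 0 < c ∧ ∃ C Y0 : ℝ, ∀ Y P : ℝ, 1 ≤ Y → Y0 ≤ Y → Y ≤ L * P → Y ^ (1 + d0) ≤ P →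
      P ≤ Y ^ (1 + d1) → ∀ a b e1 e2 : Fin 4 → ℤ, RBasis a b e1 e2 →
      (sn e1 : ℝ) * (sn e2 : ℝ) ≤ K * P ^ ((1 : ℝ) / 6) →
      (∀ j l, j ≠ l → ev e1 (θ j) * ev e2 (θ l) ≠ ev e1 (θ l) * ev e2 (θ j)) →
      P ^ ((1 : ℝ) / 12) ≤ K * Y ^ x1 * (sn e1 : ℝ) →
      ∀ S : Finset ZPt, (∀ z ∈ S, AOK g K Y P e1 e2 z) →
      (∀ z ∈ S, ∀ z' ∈ S, z.n = z'.n → z = z') → TInj S →
      (S.card : ℝ) ≤ C * Y ^ (1 - 2 / 3 * (1 + d1) + 2 * x0 - c) := by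
  classical
  obtain ⟨s, T, r, s', w, ρ, G, η, hη, hs, hr, hrs, hwT, hw, hρ0, hρ, hG, hlem, hal, h9, -⟩ := hc
  -- constants
  obtain ⟨s2, hs2⟩ := hs
  have hs1 : 1 ≤ s := by omega
  set N : ℕ := 2 * (s + 1) ^ 2 with hN
  set e : ℕ := (s + 1) ^ 2 * (4 * s + 3) with he
  set J : ℕ := s2 + 1 with hJ
  set ε : ℝ := η / 2 with hε
  have hε0 : 0 < ε := by rw [hε]; linarith
  set E0 : ℝ := 1 - 2 / 3 * (1 + d1) + 2 * x0 with hE0
  obtain ⟨hwanti, hwnn⟩ := acore_w T w hwT hw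
  have hρpos : ∀ l, 1 ≤ l → l ≤ T + 1 → 0 < ρ l := by
    intro l
    induction l with
    | zero => intro h; omega
    | succ l ih =>
      intro _ hl
      have h2 := hρ l (by omega)
      rcases Nat.eq_zero_or_pos l with h3 | h3
      · subst h3; rw [hρ0] at h2; exact h2
      · exact (ih h3 (by omega)).trans h2
  have hρhalf : ∀ l, l ≤ T + 1 → ρ l ≤ 1 / 2 := by
    intro l hl
    rcases Nat.eq_zero_or_pos l with h3 | h3
    · subst h3; rw [hρ0]; norm_num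
    · have h2 := hal (l - 1) (by omega)
      rw [Nat.sub_add_cancel h3] at h2
      have h4 := hwnn (l - 1) (by omega)
      linarith
  set K' : ℝ := 6 * K ^ 2 with hK'
  have hKK' : K ≤ K' := acore_KK hK
  have hK'1 : 1 ≤ K' := hK.trans hKK'
  -- the inputs
  obtain ⟨B, hB1, hcols⟩ := exists_cols hg 1 s N le_rfl (by rw [hN]; ring)
  set AA : ℝ := 12 * s + 2 with hAA
  have hAA2 : 2 ≤ AA := by rw [hAA]; have : (0 : ℝ) ≤ s := Nat.cast_nonneg _; linarith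
  obtain ⟨A', hA', Y1, hY1, hfirst⟩ := afirst (g := g) s N K' AA
  set A2 : ℝ := max AA A' with hA2
  have hAA' : AA ≤ A2 := le_max_left _ _
  have hA'2 : A' ≤ A2 := le_max_right _ _
  have hclus : ∀ l : ℕ, ∃ Y0 : ℝ, 1 ≤ Y0 ∧ (1 ≤ l → l ≤ T → ∀ Y P : ℝ, Y0 ≤ Y → Y ≤ L * P →
      P ≤ Y ^ A2 → ∀ e1 e2 : Fin 4 → ℤ,
      SliceOK θ (Y ^ A2) e1 e2 → ∀ G : ℤ[X][X], Irreducible G → 1 ≤ G.natDegree →
      Bdd s (6 * s + 1) (Y ^ A2) G → ∀ S : Finset ZPt,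
      (∀ z ∈ S, AOK g K' Y P e1 e2 z ∧ On G z ∧ |(z.u : ℝ)| ≤ Y ^ A2 ∧ |(z.v : ℝ)| ≤ Y ^ A2) →
      TInj S → Y ^ (ρ l + ε) ≤ S.card → ∀ F : Finset ℕ, F.card < J →
      ∃ q : ℕ, q.Prime ∧ q ∉ F ∧ Y ^ (ρ l) ≤ q ∧ ∃ C' ⊆ S, Y ^ (ε / 2) ≤ C'.card ∧
        ∀ cols : Fin N → ℕ × (Fin 4 → ℕ), (∀ c, IsCol 1 s (cols c)) →
        ∀ (x : Fin N → ZPt) (R : Finset (Fin N)), (∀ r ∈ R, x r ∈ C') →
          (q : ℤ) ^ (R.card * (R.card - 1) / 2) ∣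
            Matrix.det (Matrix.of fun r c => fv 1 (cols c) (x r))) := by
    intro l
    by_cases hl : 1 ≤ l ∧ l ≤ T
    · obtain ⟨Y0, h1, h2⟩ := acluster hg 1 s s (6 * s + 1) J N K' L A2 (ρ l) ε
        (hρpos l hl.1 (by omega)) (hρhalf l (by omega)) hε0
      exact ⟨Y0, h1, fun _ _ => h2⟩
    · exact ⟨1, le_rfl, fun h1 h2 => absurd ⟨h1, h2⟩ hl⟩
  choose Yc hYc1 hYc using hclus
  have hreal0 : ∀ l : ℕ, ∃ C : ℝ, 1 ≤ C ∧ (l ≤ T → ∀ Y P : ℝ, 1 ≤ Y → Y ^ (1 + d0) ≤ P →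
      ∀ a b e1 e2 : Fin 4 → ℤ, RBasis a b e1 e2 →
      (∀ j l, j ≠ l → ev e1 (θ j) * ev e2 (θ l) ≠ ev e1 (θ l) * ev e2 (θ j)) →
      P ^ ((1 : ℝ) / 12) ≤ K * Y ^ x1 * (sn e1 : ℝ) →
      ∀ cols : Fin (2 * (s + 1) ^ 2) → ℕ × (Fin 4 → ℕ), (∀ c, IsCol 1 s (cols c)) →
      ∀ z : Fin (2 * (s + 1) ^ 2) → ZPt, (∀ r, AOK g K Y P e1 e2 (z r)) →
      ∀ k : ℕ, Y ^ (w l) ≤ 2 ^ k →
      (∀ r r', arcA (sn e1) (sn e2) k (z r).u (z r).v = arcA (sn e1) (sn e2) k (z r').u (z r').v) →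
      |((Matrix.det (Matrix.of fun r c => fv 1 (cols c) (z r)) : ℤ) : ℝ)| ≤
        C * Y ^ (2 * ((s : ℝ) + 1) ^ 2 * (((1 + d0) / 6 + x1) + s * ((1 - d0) / 2)) - G l)) := by
    intro l
    by_cases hl : l ≤ T
    · obtain ⟨C, h1, h2⟩ := areal2 hg s hs1 K d0 x1 (w l) (G l) hK (hG l hl)
      exact ⟨C, h1, fun _ => h2⟩
    · exact ⟨1, le_rfl, fun h => absurd h hl⟩
  choose Cr hCr1 hCr using hreal0
  obtain ⟨Yo, hYo1, hYo⟩ := one_curve hg r s' s (6 * s + 1) hr hrs K' L A2 d0 x1 (ρ (T + 1)) η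
    hK'1 hL (by linarith) (by linarith) (hρpos (T + 1) (by omega) le_rfl)
    (hρhalf (T + 1) le_rfl) hη h9 ε hε0
  obtain ⟨Cs, hCs1, hCs⟩ := small_or_rank hg s (6 * s + 1) K' L A2 ε hε0
  -- the threshold
  set M : ℕ := 2 * s * (6 * s + 1) + 1 with hM
  have hYc0 : ∀ l, 0 ≤ Yc l := fun l => by linarith [hYc1 l]
  have hCr0 : ∀ l, 0 ≤ (Cr l + 1) ^ (1 / η) := fun l => Real.rpow_nonneg (by linarith [hCr1 l]) _
  set Y0 : ℝ := Y1 + Yo + K' ^ 2 + B + (∑ l ∈ Finset.range (T + 1), Yc l) +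
    (∑ l ∈ Finset.range (T + 1), (Cr l + 1) ^ (1 / η)) + (M : ℝ) ^ (1 / (ε / 2)) with hY0
  refine ⟨η - ε, by rw [hε]; linarith, 12 * s * (T + 1) + 12 * (s * Cs) + 12 * (6 * s + 1), Y0, ?_⟩
  intro Y P hY hYY0 hYP hYP0 hPY a b e1 e2 hrb hsn hns hlow S hS hninj htinj
  have hsumYc0 : 0 ≤ ∑ l ∈ Finset.range (T + 1), Yc l := Finset.sum_nonneg fun i _ => hYc0 i
  have hsumCr0 : 0 ≤ ∑ l ∈ Finset.range (T + 1), (Cr l + 1) ^ (1 / η) :=
    Finset.sum_nonneg fun i _ => hCr0 i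
  have hM0 : 0 ≤ (M : ℝ) ^ (1 / (ε / 2)) := Real.rpow_nonneg (Nat.cast_nonneg _) _
  have hK2 : 0 ≤ K' ^ 2 := sq_nonneg _
  have tY1 : Y1 ≤ Y := by linarith
  have tYo : Yo ≤ Y := by linarith
  have tK : K' ^ 2 ≤ Y := by linarith
  have tB : B ≤ Y := by linarith
  have tYc : ∀ l, l ≤ T → Yc l ≤ Y := by
    intro l hl
    have h2 : Yc l ≤ ∑ l ∈ Finset.range (T + 1), Yc l :=
      Finset.single_le_sum (f := Yc) (fun i _ => hYc0 i) (Finset.mem_range.2 (by omega))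
    linarith
  have tCr : ∀ l, l ≤ T → Cr l < Y ^ η := by
    intro l hl
    have h2 : (Cr l + 1) ^ (1 / η) ≤ ∑ l ∈ Finset.range (T + 1), (Cr l + 1) ^ (1 / η) :=
      Finset.single_le_sum (f := fun l => (Cr l + 1) ^ (1 / η)) (fun i _ => hCr0 i)
        (Finset.mem_range.2 (by omega))
    have h3 := acore_rpow (by linarith [hCr1 l] : (0 : ℝ) ≤ Cr l + 1) hη
      (by linarith : (Cr l + 1) ^ (1 / η) ≤ Y)
    linarith
  have tM : (M : ℝ) ≤ Y ^ (ε / 2) :=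
    acore_rpow (Nat.cast_nonneg _) (by linarith) (by linarith : (M : ℝ) ^ (1 / (ε / 2)) ≤ Y)
  have hYpos : 0 < Y := by linarith
  have hP1 : 1 ≤ P := le_trans (Real.one_le_rpow hY (by linarith)) hYP0
  have hP0 : 0 < P := by linarith
  have hPA : P ≤ Y ^ A2 := hPY.trans (Real.rpow_le_rpow_of_exponent_le hY (by linarith))
  have hYAA : Y ≤ Y ^ AA := by
    have h2 := Real.rpow_le_rpow_of_exponent_le hY (by linarith : (1 : ℝ) ≤ AA)
    rwa [Real.rpow_one] at h2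
  have hYA2 : Y ^ AA ≤ Y ^ A2 := Real.rpow_le_rpow_of_exponent_le hY hAA'
  have hYA' : Y ^ A' ≤ Y ^ A2 := Real.rpow_le_rpow_of_exponent_le hY hA'2
  have hbig : K' * P ^ ((1 : ℝ) / 6) * Y ^ x1 ≤ Y := acore_big hY hP0 (by linarith) tK
    (hPY.trans (Real.rpow_le_rpow_of_exponent_le hY (by linarith))) (by linarith)
  have hx1Y : 1 ≤ Y ^ x1 := Real.one_le_rpow hY (by linarith)
  have hsize : ∀ z ∈ S, |(z.u : ℝ)| ≤ K' * P ^ ((1 : ℝ) / 6) * Y ^ x1 ∧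
      |(z.v : ℝ)| ≤ K' * P ^ ((1 : ℝ) / 6) * Y ^ x1 := fun z hz =>
    acore_size hK hY hP1 hrb hlow (hS z hz)
  have hsn1 : 1 ≤ (sn e1 : ℝ) := by exact_mod_cast Pool.Agent.SQF4.sn_pos e1 hrb.ne1
  have hsn2 : 1 ≤ (sn e2 : ℝ) := by exact_mod_cast Pool.Agent.SQF4.sn_pos e2 hrb.ne2
  have hsnY : (sn e1 : ℝ) * sn e2 ≤ Y := by
    refine hsn.trans (le_trans ?_ hbig)
    have h2 : 0 ≤ P ^ ((1 : ℝ) / 6) := Real.rpow_nonneg hP0.le _
    calc K * P ^ ((1 : ℝ) / 6) ≤ K' * P ^ ((1 : ℝ) / 6) := mul_le_mul_of_nonneg_right hKK' h2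
      _ ≤ K' * P ^ ((1 : ℝ) / 6) * Y ^ x1 := le_mul_of_one_le_right (by positivity) hx1Y
  have hSok : SliceOK θ Y e1 e2 := by
    refine ⟨hrb.ne1, hrb.ne2, hns, fun j => ?_, fun j => ?_⟩
    · have h2 : |((e1 j : ℤ) : ℝ)| ≤ sn e1 := by
        have h3 := Pool.Agent.SQF4.le_sn e1 j
        have h4 : (((e1 j).natAbs : ℕ) : ℝ) ≤ sn e1 := by exact_mod_cast h3
        rwa [Nat.cast_natAbs, Int.cast_abs] at h4
      exact h2.trans ((le_mul_of_one_le_right (zero_le_one.trans hsn1) hsn2).trans hsnY)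
    · have h2 : |((e2 j : ℤ) : ℝ)| ≤ sn e2 := by
        have h3 := Pool.Agent.SQF4.le_sn e2 j
        have h4 : (((e2 j).natAbs : ℕ) : ℝ) ≤ sn e2 := by exact_mod_cast h3
        rwa [Nat.cast_natAbs, Int.cast_abs] at h4
      exact h2.trans ((le_mul_of_one_le_left (zero_le_one.trans hsn2) hsn1).trans hsnY)
  obtain ⟨cols, hgc⟩ := hcols Y hY e1 e2 hSok
  have hgcA : GoodCols g e1 e2 1 s N (Y ^ AA) cols := by
    refine hgc.mono ?_
    calc B * Y ^ (6 * s) ≤ Y * Y ^ (6 * s) := by gcongr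
      _ = Y ^ (((6 * s + 1 : ℕ)) : ℝ) := by rw [Real.rpow_natCast]; ring
      _ ≤ Y ^ AA := by
        refine Real.rpow_le_rpow_of_exponent_le hY ?_
        rw [hAA]
        push_cast
        have : (0 : ℝ) ≤ s := Nat.cast_nonneg _
        linarith
  set arc : ℕ → ZPt → Bool × ℤ := fun l z => arcA (sn e1) (sn e2) (kdy Y (w l)) z.u z.v with harc
  -- the real bound
  have hdet : ∀ l, l ≤ T → ∀ x : Fin N → ZPt, (∀ r, x r ∈ S) →
      (∀ r r', arc l (x r) = arc l (x r')) →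
      |((Matrix.det (Matrix.of fun r c => fv 1 (cols c) (x r)) : ℤ) : ℝ)| <
        Y ^ (ρ l * (e : ℝ)) := by
    intro l hl x hx hxa
    have h2 := hCr l hl Y P hY hYP0 a b e1 e2 hrb hns hlow cols hgc.1 x (fun r => hS _ (hx r))
      (kdy Y (w l)) (le_two_pow_kdy hY _) hxa
    set Ex : ℝ := 2 * ((s : ℝ) + 1) ^ 2 * (((1 + d0) / 6 + x1) + s * ((1 - d0) / 2)) - G l with hEx
    have h3 : 0 < Y ^ Ex := Real.rpow_pos_of_pos hYpos _
    refine lt_of_le_of_lt h2 ?_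
    calc Cr l * Y ^ Ex < Y ^ η * Y ^ Ex := mul_lt_mul_of_pos_right (tCr l hl) h3
      _ = Y ^ (η + Ex) := (Real.rpow_add hYpos _ _).symm
      _ ≤ Y ^ (ρ l * (e : ℝ)) := by
        refine Real.rpow_le_rpow_of_exponent_le hY ?_
        have h4 := hlem l hl
        rw [he]
        push_cast
        rw [hEx]
        linarith
  -- the first step
  have hΓ : ∀ a : Bool × ℤ, ∃ Γ : Finset ℤ[X][X], Γ.card ≤ s ∧
      (∀ G ∈ Γ, Irreducible G ∧ normalize G = G ∧ 1 ≤ G.natDegree ∧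
        Bdd s (6 * s + 1) (Y ^ A') G) ∧
      ((S.filter fun z => arc 0 z = a).filter fun z => ∀ G ∈ Γ, ¬ On G z).card ≤ 6 * s + 1 := by
    intro a
    have h2 := hfirst Y P tY1 hP1 e1 e2 cols hgcA (S.filter fun z => arc 0 z = a) ?_ ?_ ?_
    · obtain ⟨Γ, h3, h4, h5⟩ := h2
      refine ⟨Γ, h3, h4, ?_⟩
      convert h5 using 2
    · intro z hz
      have hz' := (Finset.mem_filter.1 hz).1
      refine ⟨(hS z hz').mono hKK' hYpos.le hP0.le, ?_, ?_⟩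
      · exact (hsize z hz').1.trans (hbig.trans hYAA)
      · exact (hsize z hz').2.trans (hbig.trans hYAA)
    · intro z hz z' hz' h
      exact htinj z (Finset.mem_filter.1 hz).1 z' (Finset.mem_filter.1 hz').1 h
    · intro x hx
      have h3 := hdet 0 (Nat.zero_le _) x (fun r => (Finset.mem_filter.1 (hx r)).1)
        (fun r r' => by
          rw [(Finset.mem_filter.1 (hx r)).2, (Finset.mem_filter.1 (hx r')).2])
      rw [hρ0, zero_mul, Real.rpow_zero] at h3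
      have h4 : |Matrix.det (Matrix.of fun r c => fv 1 (cols c) (x r))| < 1 := by exact_mod_cast h3
      exact Int.abs_lt_one_iff.1 h4
  choose Γ hΓ1 hΓ2 hΓ3 using hΓ
  set RK : ℤ[X][X] → Prop := fun γ => RankOK θ (tt θ e1 e2) γ with hRK
  set S1 : Finset ZPt := S.filter fun z => ∃ γ ∈ Γ (arc 0 z), RK γ ∧ On γ z with hS1
  set S2 : Finset ZPt := S.filter fun z => ∃ γ ∈ Γ (arc 0 z), ¬ RK γ ∧ On γ z with hS2
  set S3 : Finset ZPt := S.filter fun z => ∀ γ ∈ Γ (arc 0 z), ¬ On γ z with hS3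
  have hcover : S ⊆ S1 ∪ S2 ∪ S3 := by
    intro z hz
    by_cases h : ∃ γ ∈ Γ (arc 0 z), On γ z
    · obtain ⟨γ, hγ, hon⟩ := h
      by_cases hr' : RK γ
      · exact Finset.mem_union_left _ (Finset.mem_union_left _
          (Finset.mem_filter.2 ⟨hz, γ, hγ, hr', hon⟩))
      · exact Finset.mem_union_left _ (Finset.mem_union_right _
          (Finset.mem_filter.2 ⟨hz, γ, hγ, hr', hon⟩))
    · push Not at h
      exact Finset.mem_union_right _ (Finset.mem_filter.2 ⟨hz, h⟩)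
  have hAl : ∀ l, (S.image (arc l)).card ≤ 6 * 2 ^ (kdy Y (w l)) := fun l =>
    arcA_card (by linarith) (by linarith) _ _ _ _
  have hA12 : ∀ l, l ≤ T → ((6 * 2 ^ (kdy Y (w l)) : ℕ) : ℝ) ≤ 12 * Y ^ (w l) := by
    intro l hl
    have h2 := two_pow_kdy_le hY (hwnn l hl)
    push_cast
    linarith
  have hbdA2 : ∀ a, ∀ γ ∈ Γ a, Bdd s (6 * s + 1) (Y ^ A2) γ := fun a γ hγ =>
    (hΓ2 a γ hγ).2.2.2.monoT hYA'
  have hSokA : SliceOK θ (Y ^ A2) e1 e2 := hSok.mono (hYAA.trans hYA2)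
  have hszA : ∀ z ∈ S, |(z.u : ℝ)| ≤ Y ^ A2 ∧ |(z.v : ℝ)| ≤ Y ^ A2 := fun z hz =>
    ⟨(hsize z hz).1.trans (hbig.trans (hYAA.trans hYA2)),
      (hsize z hz).2.trans (hbig.trans (hYAA.trans hYA2))⟩
  have hS' : ∀ z ∈ S, AOK g K' Y P e1 e2 z := fun z hz => (hS z hz).mono hKK' hYpos.le hP0.le
  have hw0 : Y ^ (w 0) * Y ^ ε ≤ Y ^ (E0 - (η - ε)) := by
    rw [← Real.rpow_add hYpos]
    refine Real.rpow_le_rpow_of_exponent_le hY ?_
    have h2 := hal 0 (Nat.zero_le _)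
    have h3 := hρpos 1 le_rfl (by omega)
    rw [zero_add] at h2
    linarith
  have hYε : 1 ≤ Y ^ ε := Real.one_le_rpow hY hε0.le
  have hw00 : 0 < Y ^ (w 0) := Real.rpow_pos_of_pos hYpos _
  -- exceptional points
  have hb3 : (S3.card : ℝ) ≤ 12 * (6 * s + 1) * Y ^ (E0 - (η - ε)) := by
    have h2 := acore_exc S (arc 0) _ (6 * s + 1) (hAl 0) S3 (Finset.filter_subset _ _) (by
      intro a
      refine le_trans (Finset.card_le_card ?_) (hΓ3 a)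
      intro z hz
      rw [Finset.mem_filter, hS3, Finset.mem_filter] at hz
      rw [Finset.mem_filter, Finset.mem_filter]
      refine ⟨⟨hz.1.1, hz.2⟩, ?_⟩
      have h3 := hz.1.2
      rw [hz.2] at h3
      exact h3)
    have h3 : ((S3.card : ℕ) : ℝ) ≤ ((6 * 2 ^ (kdy Y (w 0)) * (6 * s + 1) : ℕ) : ℝ) := by
      exact_mod_cast h2
    rw [Nat.cast_mul] at h3
    have h4 := hA12 0 (Nat.zero_le _)
    have h5 : (0 : ℝ) ≤ ((6 * s + 1 : ℕ) : ℝ) := Nat.cast_nonneg _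
    have h6 : Y ^ (w 0) ≤ Y ^ (E0 - (η - ε)) := le_trans (le_mul_of_one_le_right hw00.le hYε) hw0
    calc ((S3.card : ℕ) : ℝ) ≤ (12 * Y ^ (w 0)) * ((6 * s + 1 : ℕ) : ℝ) :=
          h3.trans (mul_le_mul_of_nonneg_right h4 h5)
      _ ≤ (12 * Y ^ (E0 - (η - ε))) * ((6 * s + 1 : ℕ) : ℝ) := by gcongr
      _ = 12 * (6 * s + 1) * Y ^ (E0 - (η - ε)) := by push_cast; ring
  -- small curves
  have hb2 : (S2.card : ℝ) ≤ 12 * (s * Cs) * Y ^ (E0 - (η - ε)) := by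
    have h2 := acore_bad S (arc 0) Γ On (fun γ => ¬ RK γ) s _ (Cs * Y ^ ε) (by positivity)
      (hAl 0) hΓ1 S2 (Finset.filter_subset _ _) (fun z hz => (Finset.mem_filter.1 hz).2) (by
        intro a γ hγ hn U hU hUon
        have h3 := (hCs Y P hY hYP hPA e1 e2 hSokA γ (hΓ2 a γ hγ).1 (hΓ2 a γ hγ).2.2.1
          (hbdA2 a γ hγ)).resolve_left hn
        exact h3 U (fun z hz => ⟨hS' z (hU hz), hUon z hz, hszA z (hU hz)⟩)
          (fun z hz z' hz' h => htinj z (hU hz) z' (hU hz') h)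
          (fun z hz z' hz' h => hninj z (hU hz) z' (hU hz') h))
    have h4 := hA12 0 (Nat.zero_le _)
    have h5 : (0 : ℝ) ≤ s * (Cs * Y ^ ε) := by positivity
    calc ((S2.card : ℕ) : ℝ) ≤ (12 * Y ^ (w 0)) * (s * (Cs * Y ^ ε)) :=
          h2.trans (mul_le_mul_of_nonneg_right h4 h5)
      _ = 12 * (s * Cs) * (Y ^ (w 0) * Y ^ ε) := by ring
      _ ≤ 12 * (s * Cs) * Y ^ (E0 - (η - ε)) := by
        have : 0 ≤ 12 * (s * Cs) := by positivity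
        exact mul_le_mul_of_nonneg_left hw0 this
  -- the main part
  have hS1S : S1 ⊆ S := Finset.filter_subset _ _
  have hex : ∀ z ∈ S1, ∃ γ ∈ Γ (arc 0 z), RK γ ∧ On γ z := fun z hz => (Finset.mem_filter.1 hz).2
  have hb1 : (S1.card : ℝ) ≤ 12 * s * (T + 1) * Y ^ (E0 - (η - ε)) := by
    refine acore_main (g := g) hs2 hN hJ he w ρ ε (E0 - (η - ε)) hwanti hwnn
      (fun l hl => by have h2 := hal l hl; linarith) Y P K' (Y ^ AA) (Y ^ A') (sn e1) (sn e2) hY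
      (by linarith) (by linarith) e1 e2 cols hgcA S1
      (fun z hz z' hz' h => htinj z (hS1S hz) z' (hS1S hz') h) (fun z hz => hS' z (hS1S hz))
      (fun γ => (∃ a, γ ∈ Γ a) ∧ RK γ)
      (fun γ hγ => by
        obtain ⟨⟨a, ha⟩, h2⟩ := hγ
        exact ⟨(hΓ2 a γ ha).1, (hΓ2 a γ ha).2.1, h2.1, (hΓ2 a γ ha).2.2.2⟩)
      (fun z => if h : ∃ γ ∈ Γ (arc 0 z), RK γ ∧ On γ z then h.choose else 0)
      ?_ ?_ tM ?_ ?_ ?_
    · intro z hz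
      have h2 := hex z hz
      simp only [dif_pos h2]
      exact ⟨⟨⟨_, h2.choose_spec.1⟩, h2.choose_spec.2.1⟩, h2.choose_spec.2.2⟩
    · intro a U hU hUa
      refine ⟨Γ a, hΓ1 a, fun z hz => ?_⟩
      have h2 := hex z (hU hz)
      simp only [dif_pos h2]
      have h3 := h2.choose_spec.1
      have h4 : arc 0 z = a := hUa z hz
      have h5 : Γ a = Γ (arc 0 z) := by rw [h4]
      rw [h5]
      exact h3
    · intro l hl1 hl γ hγ S' hS'1 hon hcard F hF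
      obtain ⟨⟨a, ha⟩, h2⟩ := hγ
      obtain ⟨q, hq, hqF, hYq, C', hC', hcC, hdiv⟩ := hYc l hl1 hl Y P (tYc l hl) hYP hPA e1 e2
        hSokA γ (hΓ2 a γ ha).1 (hΓ2 a γ ha).2.2.1 (hbdA2 a γ ha) S'
        (fun z hz => ⟨hS' z (hS1S (hS'1 hz)), hon z hz, hszA z (hS1S (hS'1 hz))⟩)
        (fun z hz z' hz' h => htinj z (hS1S (hS'1 hz)) z' (hS1S (hS'1 hz')) h) hcard F hF
      exact ⟨q, hq, hqF, hYq, C', hC', hcC, fun x R hR => hdiv cols hgc.1 x R hR⟩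
    · intro l hl x hx hxa
      exact hdet l hl x (fun r => hS1S (hx r)) hxa
    · intro z hz U hU hon
      have h2 := hex z hz
      simp only [dif_pos h2] at hon
      exact hYo Y P tYo hYP hYP0 hPA e1 e2 hSokA _ (hΓ2 _ _ h2.choose_spec.1).1
        (hbdA2 _ _ h2.choose_spec.1) h2.choose_spec.2.1 U
        (fun y hy => ⟨hS' y (hS1S (hU hy)), hon y hy, hsize y (hS1S (hU hy))⟩)
        (fun y hy y' hy' h => htinj y (hS1S (hU hy)) y' (hS1S (hU hy')) h)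
  have h2 : (S.card : ℝ) ≤ S1.card + S2.card + S3.card := by
    have h3 := (Finset.card_le_card hcover).trans (Finset.card_union_le _ _)
    have h4 := Finset.card_union_le S1 S2
    exact_mod_cast (by omega : S.card ≤ S1.card + S2.card + S3.card)
  have h3 : 0 < Y ^ (E0 - (η - ε)) := Real.rpow_pos_of_pos hYpos _
  calc (S.card : ℝ) ≤ _ := h2
    _ ≤ 12 * s * (T + 1) * Y ^ (E0 - (η - ε)) + 12 * (s * Cs) * Y ^ (E0 - (η - ε)) +
        12 * (6 * s + 1) * Y ^ (E0 - (η - ε)) := add_le_add (add_le_add hb1 hb2) hb3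
    _ = _ := by ring

end Pool.Agent.Lib.SQF
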