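import Mathlib

/-!
# Bezout for plane curves given by polynomials in two variables

`g : R[X][Y]` is a polynomial in the outer variable `n` over the inner variable `t`.
-/

open Polynomial
open scoped Polynomial.Bivariate

namespace Pool.Agent.Lib.SQF.Bez

section degree

variable {R : Type*} [CommRing R]

/-- the degree in the inner variable -/
noncomputable def degT (g : R[X][Y]) : ℕ := (Bivariate.swap g).natDegree

lemma coeff_swap (g : R[X][Y]) (i j : ℕ) : ((Bivariate.swap g).coeff i).coeff j =
    (g.coeff j).coeff i := by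
  induction g using Polynomial.induction_on' with
  | add p q hp hq => simp only [map_add, coeff_add, hp, hq]
  | monomial n a =>
    induction a using Polynomial.induction_on' with
    | add p q hp hq =>
      simp only [map_add, coeff_add]
      rw [hp, hq]
    | monomial m r =>
      rw [Bivariate.swap_monomial_monomial]
      simp only [coeff_monomial]
      by_cases h1 : m = i <;> by_cases h2 : n = j <;> simp [h1, h2, coeff_monomial]

lemma degT_le_iff (g : R[X][Y]) (e : ℕ) : degT g ≤ e ↔ ∀ i, (g.coeff i).natDegree ≤ e := by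
  unfold degT
  constructor
  · intro h i
    rw [natDegree_le_iff_coeff_eq_zero]
    intro N hN
    rw [← coeff_swap, coeff_eq_zero_of_natDegree_lt (lt_of_le_of_lt h hN), coeff_zero]
  · intro h
    rw [natDegree_le_iff_coeff_eq_zero]
    intro N hN
    ext j
    rw [coeff_swap, coeff_eq_zero_of_natDegree_lt (lt_of_le_of_lt (h j) hN), coeff_zero]

lemma natDegree_coeff_le (g : R[X][Y]) (i : ℕ) : (g.coeff i).natDegree ≤ degT g :=
  (degT_le_iff g _).1 le_rfl i

@[simp] lemma degT_zero : degT (0 : R[X][Y]) = 0 := by simp [degT]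

lemma swap_ne_zero {g : R[X][Y]} (hg : g ≠ 0) : Bivariate.swap g ≠ 0 := by
  intro h
  exact hg ((map_eq_zero_iff (Bivariate.swap (R := R)) (AlgEquiv.injective _)).1 h)

lemma degT_mul [IsDomain R] {g h : R[X][Y]} (hg : g ≠ 0) (hh : h ≠ 0) :
    degT (g * h) = degT g + degT h := by
  unfold degT
  rw [map_mul, natDegree_mul (swap_ne_zero hg) (swap_ne_zero hh)]

lemma degT_mul_le (g h : R[X][Y]) : degT (g * h) ≤ degT g + degT h := by
  unfold degT
  rw [map_mul]; exact natDegree_mul_le

lemma degT_add_le (g h : R[X][Y]) : degT (g + h) ≤ max (degT g) (degT h) := by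
  unfold degT
  rw [map_add]; exact natDegree_add_le _ _

lemma degT_C (c : R[X]) : degT (C c : R[X][Y]) = c.natDegree := by
  apply le_antisymm
  · rw [degT_le_iff]
    intro i
    rw [coeff_C]
    split_ifs
    · exact le_rfl
    · simp
  · have := natDegree_coeff_le (C c : R[X][Y]) 0
    rwa [coeff_C_zero] at this

lemma degT_derivative_le (g : R[X][Y]) : degT (derivative g) ≤ degT g := by
  rw [degT_le_iff]
  intro i
  rw [coeff_derivative]
  have h1 : ((i : R[X]) + 1) = C ((i : R) + 1) := by simp
  rw [h1]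
  exact (natDegree_mul_C_le _ _).trans (natDegree_coeff_le g _)

lemma degT_le_of_dvd [IsDomain R] {g P : R[X][Y]} (h : g ∣ P) (hP : P ≠ 0) :
    degT g ≤ degT P := by
  obtain ⟨k, rfl⟩ := h
  rw [degT_mul (left_ne_zero_of_mul hP) (right_ne_zero_of_mul hP)]
  exact Nat.le_add_right _ _

lemma degT_prod [IsDomain R] {ι : Type*} (s : Finset ι) (g : ι → R[X][Y])
    (hg : ∀ i ∈ s, g i ≠ 0) : degT (∏ i ∈ s, g i) = ∑ i ∈ s, degT (g i) := by
  unfold degT
  rw [map_prod, natDegree_prod _ _ (fun i hi => swap_ne_zero (hg i hi))]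

lemma degT_map_le {S : Type*} [CommRing S] (φ : R →+* S) (g : R[X][Y]) :
    degT (g.map (mapRingHom φ)) ≤ degT g := by
  rw [degT_le_iff]
  intro i
  rw [coeff_map, coe_mapRingHom]
  exact natDegree_map_le.trans (natDegree_coeff_le g i)

end degree

section ev

variable {D F : Type*} [CommRing D] [CommRing F]

/-- evaluation of `g : D[X][Y]` at the point `(t, x)` of a `D`-algebra -/
noncomputable def ev (φ : D →+* F) (t x : F) : D[X][Y] →+* F :=
  eval₂RingHom (eval₂RingHom φ t) x

lemma ev_eq_evalEval_map (φ : D →+* F) (t x : F) (g : D[X][Y]) :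
    ev φ t x g = (g.map (mapRingHom φ)).evalEval t x := by
  rw [ev, eval₂RingHom_eval₂RingHom]; rfl

lemma ev_id (t x : D) (g : D[X][Y]) : ev (RingHom.id D) t x g = g.evalEval t x := by
  rw [ev_eq_evalEval_map]
  congr 1
  rw [mapRingHom_id, Polynomial.map_id]

lemma ev_C (φ : D →+* F) (t x : F) (c : D[X]) : ev φ t x (C c) = c.eval₂ φ t := by
  simp [ev]

end ev

section bezout

lemma natDegree_det_le {R n : Type*} [CommRing R] [Fintype n] [DecidableEq n]
    (M : Matrix n n R[X]) (e : ℕ) (h : ∀ i j, (M i j).natDegree ≤ e) :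
    M.det.natDegree ≤ Fintype.card n * e := by
  rw [Matrix.det_apply]
  apply natDegree_sum_le_of_forall_le
  intro σ _
  refine (natDegree_smul_le _ _).trans ?_
  refine (natDegree_prod_le _ _).trans ?_
  refine (Finset.sum_le_card_nsmul _ _ e (fun i _ => h _ _)).trans ?_
  simp

lemma natDegree_resultant_le {R : Type*} [CommRing R] (g P : R[X][Y]) (m n e : ℕ)
    (hg : degT g ≤ e) (hP : degT P ≤ e) : (resultant g P m n).natDegree ≤ (m + n) * e := by
  unfold resultant
  have := natDegree_det_le (sylvester g P m n) e (by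
    intro i j
    simp only [sylvester, Matrix.of_apply]
    refine Fin.addCases (fun j => ?_) (fun j => ?_) j
    · simp only [Fin.addCases_left]
      split_ifs
      · exact (natDegree_coeff_le _ _).trans hP
      · simp
    · simp only [Fin.addCases_right]
      split_ifs
      · exact (natDegree_coeff_le _ _).trans hg
      · simp)
  simpa using this

variable {D : Type*} [CommRing D] [IsDomain D] [UniqueFactorizationMonoid D]

/-- elimination of the outer variable -/
theorem exists_elim (g P : D[X][Y]) (hg : Irreducible g) (hn : g.natDegree ≠ 0) (hP : ¬ g ∣ P) :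
    ∃ r : D[X], r ≠ 0 ∧ r.natDegree ≤ (g.natDegree + P.natDegree) * max (degT g) (degT P) ∧
      ∃ p q : D[X][Y], g * p + P * q = C r := by
  have hprim : g.IsPrimitive := hg.isPrimitive hn
  refine ⟨resultant g P, ?_, natDegree_resultant_le g P _ _ _ (le_max_left _ _)
    (le_max_right _ _), ?_⟩
  · set K := FractionRing D[X]
    have hinj : Function.Injective (algebraMap D[X] K) := IsFractionRing.injective _ _
    have h1 : Irreducible (g.map (algebraMap D[X] K)) :=
      (hprim.irreducible_iff_irreducible_map_fraction_map (K := K)).1 hg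
    have h2 : ¬ g.map (algebraMap D[X] K) ∣ P.map (algebraMap D[X] K) := fun h =>
      hP (hprim.dvd_of_fraction_map_dvd_fraction_map h)
    have h3 : IsCoprime (g.map (algebraMap D[X] K)) (P.map (algebraMap D[X] K)) :=
      (Irreducible.coprime_iff_not_dvd h1).2 h2
    have h4 := resultant_ne_zero _ _ h3
    rw [natDegree_map_eq_of_injective hinj, natDegree_map_eq_of_injective hinj,
      resultant_map_map] at h4
    intro h5
    rw [h5, map_zero] at h4
    exact h4 rfl
  · obtain ⟨p, q, -, -, h⟩ := exists_mul_add_mul_eq_C_resultant g P le_rfl le_rfl (Or.inl hn)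
    exact ⟨p, q, h⟩

/-- **Bezout**: an irreducible curve which meets `P = 0` in points with many different
`t`-coordinates is contained in `P = 0`. -/
theorem dvd_of_many {F : Type*} [CommRing F] [IsDomain F] (φ : D →+* F)
    (hφ : Function.Injective φ) (g P : D[X][Y]) (hg : Irreducible g) (a e : ℕ)
    (hga : g.natDegree ≤ a) (hge : degT g ≤ e) (hPa : P.natDegree ≤ a) (hPe : degT P ≤ e)
    (T : Finset F) (hT : ∀ t ∈ T, ∃ x : F, ev φ t x g = 0 ∧ ev φ t x P = 0)
    (hcard : 2 * a * e + e < T.card) : g ∣ P := by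
  classical
  by_contra hP
  have key : ∃ r : D[X], r ≠ 0 ∧ r.natDegree ≤ 2 * a * e + e ∧
      ∀ t ∈ T, r.eval₂ φ t = 0 := by
    rcases eq_or_ne g.natDegree 0 with h0 | h0
    · rw [eq_C_of_natDegree_eq_zero h0] at hge hT hg
      refine ⟨g.coeff 0, ?_, ?_, ?_⟩
      · intro h
        rw [h, C_0] at hg
        exact not_irreducible_zero hg
      · rw [degT_C] at hge
        exact hge.trans (Nat.le_add_left _ _)
      · intro t ht
        obtain ⟨x, hx, -⟩ := hT t ht
        rwa [ev_C] at hx
    · obtain ⟨r, hr0, hr, p, q, hpq⟩ := exists_elim g P hg h0 hP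
      refine ⟨r, hr0, hr.trans ?_, ?_⟩
      · refine (Nat.mul_le_mul (Nat.add_le_add hga hPa) (max_le hge hPe)).trans ?_
        rw [← two_mul]
        exact Nat.le_add_right _ _
      · intro t ht
        obtain ⟨x, hx, hx'⟩ := hT t ht
        have := congrArg (ev φ t x) hpq
        rw [map_add, map_mul, map_mul, hx, hx', ev_C, zero_mul, zero_mul, add_zero] at this
        exact this.symm
  obtain ⟨r, hr0, hr, hT'⟩ := key
  have h1 : (r.map φ) ≠ 0 := (Polynomial.map_ne_zero_iff hφ).2 hr0
  have h2 : T ⊆ (r.map φ).roots.toFinset := by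
    intro t ht
    rw [Multiset.mem_toFinset, mem_roots h1, IsRoot, eval_map]
    exact hT' t ht
  have h3 := (Finset.card_le_card h2).trans ((Multiset.toFinset_card_le _).trans (card_roots' _))
  have h4 : (r.map φ).natDegree ≤ r.natDegree := natDegree_map_le
  omega

/-- the points of an irreducible curve where the derivative in the outer variable vanishes -/
theorem card_sing_le [CharZero D] {F : Type*} [CommRing F] [IsDomain F] (φ : D →+* F)
    (hφ : Function.Injective φ) (g : D[X][Y]) (hg : Irreducible g) (hn : g.natDegree ≠ 0)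
    (a e : ℕ) (hga : g.natDegree ≤ a) (hge : degT g ≤ e)
    (T : Finset F) (hT : ∀ t ∈ T, ∃ x : F, ev φ t x g = 0 ∧ ev φ t x (derivative g) = 0) :
    T.card ≤ 2 * a * e + e := by
  by_contra hcard
  push Not at hcard
  have h1 := dvd_of_many φ hφ g (derivative g) hg a e hga hge
    ((natDegree_derivative_le g).trans ((Nat.sub_le _ _).trans hga))
    ((degT_derivative_le g).trans hge) T hT hcard
  have h2 : derivative g ≠ 0 := by
    intro h
    exact hn (derivative_eq_zero.1 h)
  have h3 := natDegree_le_of_dvd h1 h2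
  have h4 := natDegree_derivative_lt hn
  omega

end bezout

section height

lemma coeff_le_of_dvd_uni (f g : ℤ[X]) (h : g ∣ f) (hf : f ≠ 0) (n : ℕ) (hn : f.natDegree < n)
    (B : ℝ) (hB : ∀ i, |(f.coeff i : ℝ)| ≤ B) (i : ℕ) :
    |(g.coeff i : ℝ)| ≤ 2 ^ n * (n * B) := by
  obtain ⟨k, rfl⟩ := h
  have hg0 : g ≠ 0 := left_ne_zero_of_mul hf
  have hk0 : k ≠ 0 := right_ne_zero_of_mul hf
  have hB0 : 0 ≤ B := (abs_nonneg _).trans (hB 0)
  have hinj : Function.Injective (Int.castRingHom ℂ) := Int.cast_injective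
  have hgn : g.natDegree < n := (natDegree_le_of_dvd (Dvd.intro k rfl) hf).trans_lt hn
  have h1 : 1 ≤ (k.map (Int.castRingHom ℂ)).mahlerMeasure := by
    apply one_le_mahlerMeasure_of_one_le_norm_leadingCoeff
    rw [leadingCoeff_map_of_injective hinj, eq_intCast, Complex.norm_intCast, ← Int.cast_abs]
    exact_mod_cast Int.one_le_abs (leadingCoeff_ne_zero.2 hk0)
  have h2 := norm_coeff_le_choose_mul_mahlerMeasure_of_one_le_mahlerMeasure i
    (g.map (Int.castRingHom ℂ)) (k.map (Int.castRingHom ℂ)) h1
  rw [coeff_map, eq_intCast, Complex.norm_intCast, ← Polynomial.map_mul] at h2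
  refine h2.trans ?_
  have h3 : (((g * k).map (Int.castRingHom ℂ)).mahlerMeasure) ≤ n * B := by
    refine (mahlerMeasure_le_sum_norm_coeff _).trans ?_
    rw [Polynomial.sum_over_range' _ (by simp) n (by
      rw [natDegree_map_eq_of_injective hinj]; exact hn)]
    refine (Finset.sum_le_card_nsmul _ _ B ?_).trans ?_
    · intro j _
      rw [coeff_map, eq_intCast, Complex.norm_intCast]
      exact hB j
    · simp
  have h4 : (((g.map (Int.castRingHom ℂ)).natDegree.choose i : ℕ) : ℝ) ≤ 2 ^ n := by
    rw [natDegree_map_eq_of_injective hinj]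
    have h5 : g.natDegree.choose i ≤ 2 ^ g.natDegree := Nat.choose_le_two_pow _ _
    have h6 : 2 ^ g.natDegree ≤ 2 ^ n := Nat.pow_le_pow_right (by norm_num) hgn.le
    exact_mod_cast h5.trans h6
  exact mul_le_mul h4 h3 (mahlerMeasure_nonneg _) (by positivity)

/-- coefficients of `P (X, X ^ d)` -/
lemma coeff_kron {R : Type*} [CommRing R] (d : ℕ) (P : R[X][Y]) (hd : degT P < d) (i j : ℕ)
    (hj : j < d) : (P.eval (X ^ d)).coeff (d * i + j) = (P.coeff i).coeff j := by
  rw [eval_eq_sum_range' (n := P.natDegree + i + 1) (by omega), finsetSum_coeff]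
  rw [Finset.sum_eq_single i]
  · rw [← pow_mul, coeff_mul_X_pow', if_pos (Nat.le_add_right _ _), Nat.add_sub_cancel_left]
  · intro k _ hk
    rw [← pow_mul, coeff_mul_X_pow']
    rcases lt_or_gt_of_ne hk with h | h
    · have h1 : d * (k + 1) ≤ d * i := Nat.mul_le_mul_left _ h
      rw [Nat.mul_add, Nat.mul_one] at h1
      rw [if_pos (by omega)]
      apply coeff_eq_zero_of_natDegree_lt
      have := natDegree_coeff_le P k
      omega
    · have h1 : d * (i + 1) ≤ d * k := Nat.mul_le_mul_left _ h
      rw [Nat.mul_add, Nat.mul_one] at h1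
      rw [if_neg (by omega)]
  · intro h
    exfalso
    apply h
    simp only [Finset.mem_range]
    omega

lemma natDegree_kron_lt {R : Type*} [CommRing R] (d : ℕ) (P : R[X][Y]) (hd : degT P < d) (a : ℕ)
    (ha : P.natDegree ≤ a) : (P.eval (X ^ d)).natDegree < d * (a + 1) := by
  have hd0 : 0 < d := by omega
  have : (P.eval (X ^ d)).natDegree ≤ d * (a + 1) - 1 := by
    rw [natDegree_le_iff_coeff_eq_zero]
    intro N hN
    have h1 : d * (a + 1) ≤ N := by omega
    have h2 := Nat.div_add_mod N d
    rw [← h2, coeff_kron d P hd _ _ (Nat.mod_lt _ hd0)]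
    have h3 : a < N / d := by
      rw [Nat.lt_iff_add_one_le, Nat.le_div_iff_mul_le hd0, mul_comm]
      exact h1
    rw [coeff_eq_zero_of_natDegree_lt (lt_of_le_of_lt ha h3), coeff_zero]
  have h4 : 0 < d * (a + 1) := by positivity
  omega

/-- the constant of `coeff_le_of_dvd` -/
def hc (a e : ℕ) : ℕ := 2 ^ ((e + 1) * (a + 1)) * ((e + 1) * (a + 1))

lemma one_le_hc (a e : ℕ) : 1 ≤ hc a e := by
  unfold hc
  exact Nat.mul_pos (by positivity) (by positivity)

/-- **Height of factors.** -/
theorem coeff_le_of_dvd (g P : ℤ[X][Y]) (h : g ∣ P) (hP : P ≠ 0) (a e : ℕ)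
    (ha : P.natDegree ≤ a) (he : degT P ≤ e) (B : ℝ) (hB : ∀ i j, |((P.coeff i).coeff j : ℝ)| ≤ B)
    (i j : ℕ) : |((g.coeff i).coeff j : ℝ)| ≤ hc a e * B := by
  have hB0 : 0 ≤ B := (abs_nonneg _).trans (hB 0 0)
  have hge : degT g ≤ e := (degT_le_of_dvd h hP).trans he
  rcases lt_or_ge j (e + 1) with hj | hj
  · have h1 : g.eval (X ^ (e + 1)) ∣ P.eval (X ^ (e + 1)) := eval_dvd h
    have hPk : P.eval (X ^ (e + 1)) ≠ 0 := by
      intro h0
      apply hP
      ext i j
      rcases lt_or_ge j (e + 1) with hj | hj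
      · rw [← coeff_kron (e + 1) P (by omega) i j hj, h0]; simp
      · rw [coeff_eq_zero_of_natDegree_lt]
        · simp
        · exact lt_of_le_of_lt ((natDegree_coeff_le P i).trans he) hj
    have h2 := coeff_le_of_dvd_uni _ _ h1 hPk ((e + 1) * (a + 1))
      (natDegree_kron_lt (e + 1) P (by omega) a ha) B (by
        intro k
        have h2 := Nat.div_add_mod k (e + 1)
        rw [← h2, coeff_kron (e + 1) P (by omega) _ _ (Nat.mod_lt _ (by omega))]
        exact hB _ _) ((e + 1) * i + j)
    rw [coeff_kron (e + 1) g (by omega) i j hj] at h2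
    refine h2.trans (le_of_eq ?_)
    unfold hc
    push_cast
    ring
  · rw [coeff_eq_zero_of_natDegree_lt (lt_of_le_of_lt ((natDegree_coeff_le g i).trans hge) hj)]
    simp only [Int.cast_zero, abs_zero]
    positivity

end height

end Pool.Agent.Lib.SQF.Bez
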