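import Pool.Agent.Lib.SQF.Defs
import Pool.Agent.Lib.SQF.Prm
import Pool.Agent.Lib.SQF.Bez
import Pool.Agent.Lib.SQF.RealRank
import Pool.Agent.Lib.SQF.S2
import Pool.Agent.Lib.SQF4.QMinor

/-!
# Values of forms on an alpha-slice (section S6), development for `AEval`

`alT e f = t e + f` over `ℤ[t]`, `rhoT g e f` its resultant with `g`, `bT g e f c` the integral
polynomials in `t` (inner) and `n` (outer) with `v² ρ(t)² β_c = m² b_c(t, n)` for every solution
`α² β = m² (n - ζ)`, `α = u e + v f`, `t = u / v` (`bT_spec`, in every commutative ring).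
-/

set_option autoImplicit false

open Polynomial

namespace Pool.Agent.Lib.SQF.AE

noncomputable section

/-- `t e + f` over `ℤ[t]` -/
def alT (e f : Fin 4 → ℤ) : ℤ[X][X] := ∑ i : Fin 4, C (C (e i) * X + C (f i)) * X ^ (i : ℕ)

/-- resultant of `g` and `t e + f` -/
def rhoT (g : ℤ[X]) (e f : Fin 4 → ℤ) : ℤ[X] := resultant (g.map C) (alT e f) 4 4

lemma natDegree_alT (e f : Fin 4 → ℤ) : (alT e f).natDegree ≤ 3 := by
  unfold alT
  refine natDegree_sum_le_of_forall_le _ _ fun i _ => ?_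
  refine (natDegree_C_mul_X_pow_le _ _).trans ?_
  have := i.2
  omega

lemma exists_adj (g : ℤ[X]) (hg : g.natDegree ≤ 4) (e f : Fin 4 → ℤ) :
    ∃ q : ℤ[X][X], ∃ p : ℤ[X][X], g.map C * p + alT e f * q = C (rhoT g e f) := by
  obtain ⟨p, q, -, -, h⟩ := exists_mul_add_mul_eq_C_resultant (g.map C) (alT e f)
    (m := 4) (n := 4) (natDegree_map_le.trans hg) ((natDegree_alT e f).trans (by norm_num))
    (Or.inl (by norm_num))
  exact ⟨q, p, h⟩

open Classical in
/-- the adjugate of `t e + f` -/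
def adjT (g : ℤ[X]) (e f : Fin 4 → ℤ) : ℤ[X][X] :=
  if hg : g.natDegree ≤ 4 then Classical.choose (exists_adj g hg e f) else 0

lemma adjT_spec (g : ℤ[X]) (hg : g.natDegree ≤ 4) (e f : Fin 4 → ℤ) :
    ∃ p : ℤ[X][X], g.map C * p + alT e f * adjT g e f = C (rhoT g e f) := by
  unfold adjT
  rw [dif_pos hg]
  exact Classical.choose_spec (exists_adj g hg e f)

/-- the coordinates of `(n - ζ) adj²` -/
def bT (g : ℤ[X]) (e f : Fin 4 → ℤ) (c : Fin 4) : ℤ[X][X] :=
  C (((adjT g e f ^ 2) %ₘ g.map C).coeff c) * X - C (((X * adjT g e f ^ 2) %ₘ g.map C).coeff c)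

/-- evaluation of a polynomial in `t` at `x` -/
def ev1 {R : Type*} [CommRing R] (x : R) : ℤ[X] →+* R := eval₂RingHom (Int.castRingHom R) x

/-- evaluation of a polynomial in `t`, `n` at `(x, y)` -/
def ev2 {R : Type*} [CommRing R] (x y : R) : ℤ[X][X] →+* R := eval₂RingHom (ev1 x) y

@[simp] lemma ev1_C {R : Type*} [CommRing R] (x : R) (a : ℤ) : ev1 x (C a) = (a : R) := by
  simp [ev1]

@[simp] lemma ev1_X {R : Type*} [CommRing R] (x : R) : ev1 x X = x := by simp [ev1]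

@[simp] lemma ev2_C {R : Type*} [CommRing R] (x y : R) (a : ℤ[X]) : ev2 x y (C a) = ev1 x a := by
  simp [ev2]

@[simp] lemma ev2_X {R : Type*} [CommRing R] (x y : R) : ev2 x y (X : ℤ[X][X]) = y := by
  simp [ev2]

lemma ev1_comp_C {R : Type*} [CommRing R] (x : R) :
    (ev1 x).comp (C : ℤ →+* ℤ[X]) = Int.castRingHom R := by
  ext1 a
  simp

lemma map_map_C {R : Type*} [CommRing R] (x : R) (g : ℤ[X]) :
    (g.map C).map (ev1 x) = g.map (Int.castRingHom R) := by
  rw [Polynomial.map_map, ev1_comp_C]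

lemma map_pol {R : Type*} [CommRing R] (a : Fin 4 → ℤ) :
    (pol a).map (Int.castRingHom R) = ∑ i : Fin 4, C (a i : R) * X ^ (i : ℕ) := by
  rw [pol, Polynomial.map_sum]
  refine Finset.sum_congr rfl fun i _ => ?_
  rw [Polynomial.map_mul, Polynomial.map_pow, Polynomial.map_X, Polynomial.map_C]
  rfl

lemma map_alT' {R : Type*} [CommRing R] (x : R) (e f : Fin 4 → ℤ) :
    (alT e f).map (ev1 x) = ∑ i : Fin 4, C ((e i : R) * x + f i) * X ^ (i : ℕ) := by
  rw [alT, Polynomial.map_sum]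
  refine Finset.sum_congr rfl fun i _ => ?_
  rw [Polynomial.map_mul, Polynomial.map_pow, Polynomial.map_X, Polynomial.map_C, map_add, map_mul,
    ev1_C, ev1_C, ev1_X]

lemma map_alT {R : Type*} [CommRing R] (x : R) (e f a : Fin 4 → ℤ) (u v : ℤ)
    (ha : OnSlice e f a u v) (hx : (v : R) * x = u) :
    C (v : R) * (alT e f).map (ev1 x) = (pol a).map (Int.castRingHom R) := by
  rw [map_alT', map_pol, Finset.mul_sum]
  refine Finset.sum_congr rfl fun i _ => ?_
  rw [← mul_assoc, ← C_mul, ha i]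
  congr 2
  push_cast
  rw [← hx]
  ring

/-- `v⁴ ρ(x)` is the resultant of `g` and `u e + v f` -/
lemma rhoT_spec {R : Type*} [CommRing R] (g : ℤ[X]) (x : R) (e f a : Fin 4 → ℤ) (u v : ℤ)
    (ha : OnSlice e f a u v) (hx : (v : R) * x = u) :
    (v : R) ^ 4 * ev1 x (rhoT g e f) = (resultant g (pol a) 4 4 : ℤ) := by
  have h1 : ((resultant g (pol a) 4 4 : ℤ) : R) =
      resultant (g.map (Int.castRingHom R)) ((pol a).map (Int.castRingHom R)) 4 4 := by
    rw [resultant_map_map]; rfl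
  rw [h1, ← map_alT x e f a u v ha hx, resultant_C_mul_right, ← map_map_C x g, resultant_map_map]
  rfl

lemma natDegree_pol_lt (a : Fin 4 → ℤ) : (pol a).natDegree ≤ 3 := by
  unfold pol
  refine natDegree_sum_le_of_forall_le _ _ fun i _ => ?_
  refine (natDegree_C_mul_X_pow_le _ _).trans ?_
  have := i.2
  omega

lemma coeff_pol (a : Fin 4 → ℤ) (c : Fin 4) : (pol a).coeff c = a c := by
  rw [pol, finsetSum_coeff, Finset.sum_eq_single c]
  · simp
  · intro b _ hb
    rw [coeff_C_mul_X_pow, if_neg]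
    exact fun h => hb (Fin.ext h.symm)
  · intro h; exact absurd (Finset.mem_univ _) h

/-- **Specification of `bT`** in every commutative ring. -/
theorem bT_spec {R : Type*} [CommRing R] (g : ℤ[X]) (hg : g.Monic) (hd : g.natDegree = 4)
    (e f a β : Fin 4 → ℤ) (u v n m : ℤ) (x : R) (ha : OnSlice e f a u v)
    (hx : (v : R) * x = u)
    (heq : g ∣ pol a ^ 2 * pol β - C (m ^ 2) * (C n - X)) (c : Fin 4) :
    (v : R) ^ 2 * ev1 x (rhoT g e f) ^ 2 * (β c : R) = (m : R) ^ 2 * ev2 x (n : R) (bT g e f c) := by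
  nontriviality R
  set φ := ev1 x with hφ
  set ι := Int.castRingHom R with hι
  set G := g.map ι with hG
  have hGm : G.Monic := hg.map _
  have hGd : G.natDegree = 4 := by rw [hG, hg.natDegree_map, hd]
  set A := (alT e f).map φ with hA
  set Q := (adjT g e f).map φ with hQ
  set B := (pol β).map ι with hB
  obtain ⟨p, hp⟩ := adjT_spec g (by omega) e f
  have h1 : G * p.map φ + A * Q = C (φ (rhoT g e f)) := by
    have := congrArg (Polynomial.map φ) hp
    rw [Polynomial.map_add, Polynomial.map_mul, Polynomial.map_mul, Polynomial.map_C,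
      map_map_C] at this
    exact this
  obtain ⟨w, hw⟩ := heq
  have h2 : (C (v : R) * A) ^ 2 * B - C ((m : R) ^ 2) * (C (n : R) - X) = G * w.map ι := by
    have := congrArg (Polynomial.map ι) hw
    rw [Polynomial.map_sub, Polynomial.map_mul, Polynomial.map_pow, Polynomial.map_mul,
      Polynomial.map_mul, Polynomial.map_sub, Polynomial.map_C, Polynomial.map_C,
      Polynomial.map_X] at this
    rw [map_alT x e f a u v ha hx]
    rw [← hG] at this
    have e1 : ι (m ^ 2) = (m : R) ^ 2 := by rw [hι]; simp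
    have e2 : ι n = (n : R) := rfl
    rw [e1, e2] at this
    exact this
  have h3 : G ∣ C ((v : R) ^ 2 * φ (rhoT g e f) ^ 2) * B -
      C ((m : R) ^ 2) * (C (n : R) * Q ^ 2 - X * Q ^ 2) := by
    have e1 : C ((v : R) ^ 2 * φ (rhoT g e f) ^ 2) = C (v : R) ^ 2 * (G * p.map φ + A * Q) ^ 2 := by
      rw [h1, C_mul, C_pow, C_pow]
    refine ⟨C (v : R) ^ 2 * (G * (p.map φ) ^ 2 + 2 * (p.map φ) * (A * Q)) * B +
      w.map ι * Q ^ 2, ?_⟩
    rw [e1]
    linear_combination Q ^ 2 * h2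
  have h4 := (modByMonic_eq_zero_iff_dvd hGm).2 h3
  rw [sub_modByMonic, ← smul_eq_C_mul, ← smul_eq_C_mul, smul_modByMonic, smul_modByMonic,
    sub_modByMonic, ← smul_eq_C_mul, smul_modByMonic] at h4
  have h5 : B %ₘ G = B := by
    rw [modByMonic_eq_self_iff hGm]
    refine (degree_le_natDegree).trans_lt ?_
    rw [degree_eq_natDegree hGm.ne_zero, hGd]
    have : B.natDegree ≤ 3 := natDegree_map_le.trans (natDegree_pol_lt β)
    exact_mod_cast (by omega : B.natDegree < 4)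
  rw [h5] at h4
  have h6 := congrArg (fun P => coeff P (c : ℕ)) h4
  simp only [coeff_sub, coeff_smul, coeff_zero, smul_eq_mul] at h6
  have h7 : B.coeff c = (β c : R) := by
    rw [hB, coeff_map, coeff_pol]; rfl
  have hGmap : (g.map C).Monic := hg.map _
  have h8 : (Q ^ 2 %ₘ G).coeff c = φ (((adjT g e f ^ 2) %ₘ g.map C).coeff c) := by
    rw [← coeff_map, map_modByMonic _ hGmap, map_map_C, Polynomial.map_pow]
  have h9 : (X * Q ^ 2 %ₘ G).coeff c = φ (((X * adjT g e f ^ 2) %ₘ g.map C).coeff c) := by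
    rw [← coeff_map, map_modByMonic _ hGmap, map_map_C, Polynomial.map_mul, Polynomial.map_pow,
      Polynomial.map_X]
  rw [h7, h8, h9] at h6
  rw [bT, map_sub, map_mul, ev2_C, ev2_C, ev2_X]
  linear_combination h6

/-- the polynomial of the monomial `u^a v^(i-a) β^J` -/
def monT (g : ℤ[X]) (e f : Fin 4 → ℤ) (j : ℕ × (Fin 4 → ℕ)) : ℤ[X][X] :=
  C (X ^ j.1) * ∏ c, bT g e f c ^ j.2 c

/-- the value of the monomial `u^a v^(i-a) β^J` -/
def mval (i : ℕ) (j : ℕ × (Fin 4 → ℕ)) (u v : ℤ) (β : Fin 4 → ℤ) : ℤ :=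
  u ^ j.1 * v ^ (i - j.1) * ∏ c, β c ^ j.2 c

/-- values of monomials and of their polynomials, in every commutative ring -/
theorem mval_spec {R : Type*} [CommRing R] (g : ℤ[X]) (hg : g.Monic) (hd : g.natDegree = 4)
    (e f a β : Fin 4 → ℤ) (u v n m : ℤ) (x : R) (ha : OnSlice e f a u v)
    (hx : (v : R) * x = u)
    (heq : g ∣ pol a ^ 2 * pol β - C (m ^ 2) * (C n - X)) (i s : ℕ) (j : ℕ × (Fin 4 → ℕ))
    (hi : j.1 ≤ i) (hs : ∑ c, j.2 c = s) :
    ((v : R) ^ 2 * ev1 x (rhoT g e f) ^ 2) ^ s * (mval i j u v β : ℤ) =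
      (v : R) ^ i * (m : R) ^ (2 * s) * ev2 x (n : R) (monT g e f j) := by
  have h1 : ∀ c, ((v : R) ^ 2 * ev1 x (rhoT g e f) ^ 2) ^ (j.2 c) * (β c : R) ^ (j.2 c) =
      ((m : R) ^ 2) ^ (j.2 c) * (ev2 x (n : R) (bT g e f c)) ^ (j.2 c) := by
    intro c
    calc ((v : R) ^ 2 * ev1 x (rhoT g e f) ^ 2) ^ (j.2 c) * (β c : R) ^ (j.2 c)
        = ((v : R) ^ 2 * ev1 x (rhoT g e f) ^ 2 * (β c : R)) ^ (j.2 c) := (mul_pow _ _ _).symm
      _ = ((m : R) ^ 2 * ev2 x (n : R) (bT g e f c)) ^ (j.2 c) := by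
          rw [bT_spec g hg hd e f a β u v n m x ha hx heq c]
      _ = _ := mul_pow _ _ _
  have h2 : ((v : R) ^ 2 * ev1 x (rhoT g e f) ^ 2) ^ s * ∏ c, (β c : R) ^ (j.2 c) =
      ((m : R) ^ 2) ^ s * ∏ c, (ev2 x (n : R) (bT g e f c)) ^ (j.2 c) := by
    rw [← hs, ← Finset.prod_pow_eq_pow_sum, ← Finset.prod_pow_eq_pow_sum,
      ← Finset.prod_mul_distrib, ← Finset.prod_mul_distrib]
    exact Finset.prod_congr rfl fun c _ => h1 c
  have h3 : (v : R) ^ i * x ^ j.1 = (u : R) ^ j.1 * (v : R) ^ (i - j.1) := by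
    rw [← hx]
    have : (v : R) ^ i = (v : R) ^ j.1 * (v : R) ^ (i - j.1) := by
      rw [← pow_add, Nat.add_sub_cancel' hi]
    rw [this]; ring
  rw [mval, monT, map_mul, ev2_C, map_pow, ev1_X, map_prod]
  simp only [map_pow]
  push_cast
  rw [pow_mul]
  calc ((v : R) ^ 2 * ev1 x (rhoT g e f) ^ 2) ^ s *
        ((u : R) ^ j.1 * (v : R) ^ (i - j.1) * ∏ c, (β c : R) ^ j.2 c)
      = ((u : R) ^ j.1 * (v : R) ^ (i - j.1)) *
        (((v : R) ^ 2 * ev1 x (rhoT g e f) ^ 2) ^ s * ∏ c, (β c : R) ^ (j.2 c)) := by ring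
    _ = _ := by rw [h2, ← h3]; ring

/-! ### over the complex numbers -/

/-- the embedding `ℤ[t][n] → ℂ[t][n]` -/
def toC : ℤ[X][X] →+* ℂ[X][X] := mapRingHom (mapRingHom (Int.castRingHom ℂ))

lemma toC_injective : Function.Injective toC :=
  Polynomial.map_injective _ (Polynomial.map_injective _ (RingHom.injective_int _))

/-- `g` and `θ` match -/
structure Roots (g : ℤ[X]) (θ : Fin 4 → ℂ) : Prop where
  monic : g.Monic
  deg : g.natDegree = 4
  irr : Irreducible g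
  root : ∀ j, aeval (θ j) g = 0
  inj : Function.Injective θ

lemma Roots.map_eq {g : ℤ[X]} {θ : Fin 4 → ℂ} (h : Roots g θ) :
    g.map (Int.castRingHom ℂ) = ∏ j, (X - C (θ j)) := by
  have h1 : ∏ j, (X - C (θ j)) ∣ g.map (Int.castRingHom ℂ) := by
    refine Finset.prod_dvd_of_coprime ?_ fun j _ => ?_
    · intro i _ j _ hij
      exact isCoprime_X_sub_C_of_isUnit_sub (sub_ne_zero.2 (h.inj.ne hij)).isUnit
    · rw [dvd_iff_isRoot, IsRoot, eval_map]
      exact h.root j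
  have h2 : (∏ j, (X - C (θ j))).Monic := monic_prod_of_monic _ _ fun j _ => monic_X_sub_C _
  refine eq_of_monic_of_dvd_of_natDegree_le h2 (h.monic.map _) h1 ?_
  rw [h.monic.natDegree_map, h.deg, natDegree_prod_of_monic _ _ fun j _ => monic_X_sub_C _]
  simp

/-- values of the slice at the roots -/
lemma Roots.ev_ne_zero {g : ℤ[X]} {θ : Fin 4 → ℂ} (h : Roots g θ) {e : Fin 4 → ℤ} (he : e ≠ 0)
    (j : Fin 4) : ev e (θ j) ≠ 0 := by
  rw [← aeval_pol]
  refine aeval_ne_zero_of_lt g h.monic h.irr (pol e) ?_ ?_ (θ j) (h.root j)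
  · intro h0
    apply he
    funext c
    have := coeff_pol e c
    rw [h0, coeff_zero] at this
    simpa using this.symm
  · have := natDegree_pol_lt e
    rw [h.deg]; omega

/-- the parameters `τ_j = -f(θ_j)/e(θ_j)` of the slice -/
def tauS (θ : Fin 4 → ℂ) (e f : Fin 4 → ℤ) (j : Fin 4) : ℂ := - ev f (θ j) / ev e (θ j)

/-- `t e(θ_j) + f(θ_j)` as a polynomial -/
def lin (θ : Fin 4 → ℂ) (e f : Fin 4 → ℤ) (j : Fin 4) : ℂ[X] := C (ev e (θ j)) * X + C (ev f (θ j))

lemma lin_eq {g : ℤ[X]} {θ : Fin 4 → ℂ} (h : Roots g θ) {e : Fin 4 → ℤ} (he : e ≠ 0)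
    (f : Fin 4 → ℤ) (j : Fin 4) :
    lin θ e f j = C (ev e (θ j)) * (X - C (tauS θ e f j)) := by
  have h1 := h.ev_ne_zero he j
  rw [lin, tauS, mul_sub, ← C_mul]
  have : ev e (θ j) * (-ev f (θ j) / ev e (θ j)) = - ev f (θ j) := by field_simp
  rw [this, C_neg, sub_neg_eq_add]

lemma ev1_CC (x : ℂ[X]) : (ev1 (R := ℂ[X]) x) = eval₂RingHom (Int.castRingHom ℂ[X]) x := rfl

lemma eval_map_alT (θ : Fin 4 → ℂ) (e f : Fin 4 → ℤ) (j : Fin 4) :
    ((alT e f).map (ev1 (X : ℂ[X]))).eval (C (θ j)) = lin θ e f j := by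
  rw [map_alT', eval_finsetSum]
  simp only [eval_mul, eval_C, eval_pow, eval_X]
  rw [lin, ev, ev, map_sum, map_sum, Finset.sum_mul, ← Finset.sum_add_distrib]
  refine Finset.sum_congr rfl fun i _ => ?_
  simp only [map_mul, map_pow]
  have h1 : ((e i : ℤ) : ℂ[X]) = C ((e i : ℤ) : ℂ) := by simp
  have h2 : ((f i : ℤ) : ℂ[X]) = C ((f i : ℤ) : ℂ) := by simp
  rw [h1, h2]
  ring

lemma rhoT_map {g : ℤ[X]} {θ : Fin 4 → ℂ} (h : Roots g θ) (e f : Fin 4 → ℤ) :
    ev1 (X : ℂ[X]) (rhoT g e f) = ∏ j, lin θ e f j := by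
  have h1 : ev1 (X : ℂ[X]) (rhoT g e f) =
      resultant ((g.map C).map (ev1 (X : ℂ[X]))) ((alT e f).map (ev1 (X : ℂ[X]))) 4 4 := by
    rw [resultant_map_map]; rfl
  have h2 : (g.map C).map (ev1 (X : ℂ[X])) = ∏ j, (X - C (C (θ j))) := by
    rw [map_map_C]
    have : (Int.castRingHom ℂ[X]) = (C : ℂ →+* ℂ[X]).comp (Int.castRingHom ℂ) :=
      RingHom.ext_int _ _
    rw [this, ← Polynomial.map_map, h.map_eq, Polynomial.map_prod]
    refine Finset.prod_congr rfl fun j _ => ?_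
    rw [Polynomial.map_sub, Polynomial.map_X, Polynomial.map_C]
  have h3 : (∏ j, (X - C (C (θ j))) : ℂ[X][X]).natDegree = 4 := by
    rw [natDegree_prod_of_monic _ _ fun j _ => monic_X_sub_C _]
    simp only [natDegree_X_sub_C]
    simp
  have hA : ((alT e f).map (ev1 (X : ℂ[X]))).natDegree ≤ 4 :=
    natDegree_map_le.trans ((natDegree_alT e f).trans (by norm_num))
  have h4 := resultant_prod_left Finset.univ (fun j => (X - C (C (θ j)) : ℂ[X][X]))
    ((alT e f).map (ev1 (X : ℂ[X]))) 4 (by simp [leadingCoeff_X_sub_C]) hA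
  rw [h3] at h4
  rw [h1, h2, h4]
  refine Finset.prod_congr rfl fun j _ => ?_
  rw [natDegree_X_sub_C, resultant_X_sub_C_left _ _ _ hA, eval_map_alT]

/-- the value of the adjugate at a root -/
lemma eval_adjT {g : ℤ[X]} {θ : Fin 4 → ℂ} (h : Roots g θ) {e : Fin 4 → ℤ} (he : e ≠ 0)
    (f : Fin 4 → ℤ) (j : Fin 4) :
    ((adjT g e f).map (ev1 (X : ℂ[X]))).eval (C (θ j)) =
      ∏ l ∈ Finset.univ.erase j, lin θ e f l := by
  obtain ⟨p, hp⟩ := adjT_spec g (by rw [h.deg]) e f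
  have h1 := congrArg (fun P => (P.map (ev1 (X : ℂ[X]))).eval (C (θ j))) hp
  simp only [Polynomial.map_add, Polynomial.map_mul, Polynomial.map_C, eval_add, eval_mul,
    eval_C] at h1
  have h2 : ((g.map C).map (ev1 (X : ℂ[X]))).eval (C (θ j)) = 0 := by
    rw [map_map_C]
    have : (Int.castRingHom ℂ[X]) = (C : ℂ →+* ℂ[X]).comp (Int.castRingHom ℂ) :=
      RingHom.ext_int _ _
    rw [this, ← Polynomial.map_map, eval_map, eval₂_hom, eval_map]
    have := h.root j
    rw [aeval_def] at this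
    have h3 : eval₂ (Int.castRingHom ℂ) (θ j) g = 0 := this
    rw [h3, map_zero]
  rw [h2, zero_mul, zero_add, eval_map_alT, rhoT_map h, ← Finset.mul_prod_erase _ _
    (Finset.mem_univ j)] at h1
  have h3 : lin θ e f j ≠ 0 := by
    rw [lin_eq h he]
    exact mul_ne_zero (C_ne_zero.2 (h.ev_ne_zero he j)) (X_sub_C_ne_zero _)
  exact mul_left_cancel₀ h3 h1

lemma eval_modByMonic_root {R : Type*} [CommRing R] (G P : R[X]) (z : R)
    (hz : G.eval z = 0) : (P %ₘ G).eval z = P.eval z := by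
  have := congrArg (eval z) (modByMonic_add_div P G)
  rw [eval_add, eval_mul, hz, zero_mul, add_zero] at this
  exact this

lemma Roots.eval_G {g : ℤ[X]} {θ : Fin 4 → ℂ} (h : Roots g θ) (j : Fin 4) :
    ((g.map C).map (ev1 (X : ℂ[X]))).eval (C (θ j)) = 0 := by
  rw [map_map_C]
  have : (Int.castRingHom ℂ[X]) = (C : ℂ →+* ℂ[X]).comp (Int.castRingHom ℂ) :=
    RingHom.ext_int _ _
  rw [this, ← Polynomial.map_map, eval_map, eval₂_hom, eval_map]
  have := h.root j
  rw [aeval_def] at this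
  have h3 : eval₂ (Int.castRingHom ℂ) (θ j) g = 0 := this
  rw [h3, map_zero]

lemma map_eq_ev1 (P : ℤ[X]) : mapRingHom (Int.castRingHom ℂ) P = ev1 (X : ℂ[X]) P := by
  have : mapRingHom (Int.castRingHom ℂ) = ev1 (X : ℂ[X]) := by
    apply Polynomial.ringHom_ext
    · intro a; simp
    · simp
  rw [this]

lemma sum_coeff_root {g : ℤ[X]} {θ : Fin 4 → ℂ} (h : Roots g θ) (P : ℤ[X][X]) (j : Fin 4) :
    ∑ c : Fin 4, C (θ j ^ (c : ℕ)) * mapRingHom (Int.castRingHom ℂ) ((P %ₘ g.map C).coeff c) =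
      (P.map (ev1 (X : ℂ[X]))).eval (C (θ j)) := by
  have hmon : (g.map C).Monic := h.monic.map _
  have h1 : ((P %ₘ g.map C).map (ev1 (X : ℂ[X]))).natDegree < 4 := by
    refine lt_of_le_of_lt natDegree_map_le ?_
    have h2 := natDegree_modByMonic_lt P hmon (by
      intro h0
      have := h.monic.natDegree_map (C : ℤ →+* ℤ[X])
      rw [h0, h.deg] at this
      simp at this)
    rw [h.monic.natDegree_map, h.deg] at h2
    exact h2
  have h3 := eval_eq_sum_range' h1 (C (θ j))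
  rw [map_modByMonic _ hmon, eval_modByMonic_root _ _ _ (h.eval_G j)] at h3
  rw [h3, Finset.sum_range]
  refine Finset.sum_congr rfl fun c _ => ?_
  rw [map_eq_ev1, ← map_modByMonic _ hmon, coeff_map, C_pow, mul_comm]

lemma smul_eq_CC (z : ℂ) (P : ℂ[X][X]) : z • P = C (C z) * P := by
  ext i : 1
  rw [coeff_smul, coeff_C_mul, Polynomial.smul_eq_C_mul]

/-- the coordinates of `(n - ζ) adj²` at a root -/
theorem sum_toC_bT {g : ℤ[X]} {θ : Fin 4 → ℂ} (h : Roots g θ) {e : Fin 4 → ℤ} (he : e ≠ 0)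
    (f : Fin 4 → ℤ) (j : Fin 4) :
    ∑ c : Fin 4, (θ j ^ (c : ℕ)) • toC (bT g e f c) =
      (∏ l ∈ Finset.univ.erase j, ev e (θ l)) ^ 2 • xA θ (tauS θ e f) j := by
  have h1 : ∀ c : Fin 4, (θ j ^ (c : ℕ)) • toC (bT g e f c) =
      C (C (θ j ^ (c : ℕ)) * mapRingHom (Int.castRingHom ℂ)
        (((adjT g e f ^ 2) %ₘ g.map C).coeff c)) * X -
      C (C (θ j ^ (c : ℕ)) * mapRingHom (Int.castRingHom ℂ)
        (((X * adjT g e f ^ 2) %ₘ g.map C).coeff c)) := by
    intro c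
    rw [smul_eq_CC, toC, bT, map_sub, map_mul]
    simp only [coe_mapRingHom, Polynomial.map_C, Polynomial.map_X, C_mul]
    ring
  rw [Finset.sum_congr rfl fun c _ => h1 c, Finset.sum_sub_distrib, ← Finset.sum_mul,
    ← map_sum, ← map_sum, sum_coeff_root h, sum_coeff_root h]
  simp only [Polynomial.map_mul, Polynomial.map_pow, Polynomial.map_X, eval_mul, eval_pow, eval_X]
  rw [eval_adjT h he]
  have h2 : ∏ l ∈ Finset.univ.erase j, lin θ e f l =
      C (∏ l ∈ Finset.univ.erase j, ev e (θ l)) *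
        ∏ l ∈ Finset.univ.erase j, (X - C (tauS θ e f l)) := by
    rw [map_prod, ← Finset.prod_mul_distrib]
    exact Finset.prod_congr rfl fun l _ => lin_eq h he f l
  rw [h2, smul_eq_CC, xA, Finset.prod_pow]
  simp only [C_mul, C_pow, mul_pow]
  ring

lemma kappa_ne_zero {g : ℤ[X]} {θ : Fin 4 → ℂ} (h : Roots g θ) {e : Fin 4 → ℤ} (he : e ≠ 0)
    (j : Fin 4) : (∏ l ∈ Finset.univ.erase j, ev e (θ l)) ^ 2 ≠ 0 :=
  pow_ne_zero _ (Finset.prod_ne_zero_iff.2 fun l _ => h.ev_ne_zero he l)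

/-- the `bT` span the same space as the `xA` -/
theorem span_bT {g : ℤ[X]} {θ : Fin 4 → ℂ} (h : Roots g θ) {e : Fin 4 → ℤ} (he : e ≠ 0)
    (f : Fin 4 → ℤ) :
    Submodule.span ℂ (Set.range fun c => toC (bT g e f c)) = vA θ (tauS θ e f) := by
  apply le_antisymm
  · rw [Submodule.span_le]
    rintro _ ⟨c, rfl⟩
    show toC (bT g e f c) ∈ vA θ (tauS θ e f)
    set V : Matrix (Fin 4) (Fin 4) ℂ := Matrix.vandermonde θ with hV
    have hdet : IsUnit V.det := by
      rw [isUnit_iff_ne_zero, hV]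
      exact Matrix.det_vandermonde_ne_zero_iff.2 h.inj
    have h1 : V⁻¹ * V = 1 := Matrix.nonsing_inv_mul V hdet
    have h2 : toC (bT g e f c) = ∑ j, (V⁻¹ c j) • ∑ c' : Fin 4, (θ j ^ (c' : ℕ)) •
        toC (bT g e f c') := by
      simp only [Finset.smul_sum, smul_smul]
      rw [Finset.sum_comm]
      have h3 : ∀ c' : Fin 4, ∑ j, (V⁻¹ c j * θ j ^ (c' : ℕ)) • toC (bT g e f c') =
          ((1 : Matrix (Fin 4) (Fin 4) ℂ) c c') • toC (bT g e f c') := by
        intro c'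
        rw [← Finset.sum_smul, ← h1, Matrix.mul_apply]
        rfl
      rw [Finset.sum_congr rfl fun c' _ => h3 c', Finset.sum_eq_single c]
      · rw [Matrix.one_apply_eq, one_smul]
      · intro b _ hb
        rw [Matrix.one_apply_ne hb.symm, zero_smul]
      · intro h'; exact absurd (Finset.mem_univ _) h'
    rw [h2]
    refine Submodule.sum_mem _ fun j _ => Submodule.smul_mem _ _ ?_
    rw [sum_toC_bT h he]
    exact Submodule.smul_mem _ _ (xA_mem _ _ _)
  · rw [vA, Submodule.span_le]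
    rintro _ ⟨j, rfl⟩
    show xA θ (tauS θ e f) j ∈ _
    have h1 := sum_toC_bT h he f j
    have h2 := kappa_ne_zero h he j
    have h3 : xA θ (tauS θ e f) j = ((∏ l ∈ Finset.univ.erase j, ev e (θ l)) ^ 2)⁻¹ •
        ∑ c : Fin 4, (θ j ^ (c : ℕ)) • toC (bT g e f c) := by
      rw [h1, smul_smul, inv_mul_cancel₀ h2, one_smul]
    rw [h3]
    refine Submodule.smul_mem _ _ (Submodule.sum_mem _ fun c _ => Submodule.smul_mem _ _ ?_)
    exact Submodule.subset_span ⟨c, rfl⟩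

/-- the slice is not special: the `τ_j` are distinct -/
lemma tauS_injective {g : ℤ[X]} {θ : Fin 4 → ℂ} (h : Roots g θ) {e : Fin 4 → ℤ} (he : e ≠ 0)
    {f : Fin 4 → ℤ}
    (hns : ∀ j l, j ≠ l → ev e (θ j) * ev f (θ l) ≠ ev e (θ l) * ev f (θ j)) :
    Function.Injective (tauS θ e f) := by
  intro j l hjl
  by_contra hne
  apply hns j l hne
  have h1 := h.ev_ne_zero he j
  have h2 := h.ev_ne_zero he l
  rw [tauS, tauS, div_eq_div_iff h1 h2] at hjl
  linear_combination hjl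

lemma toC_monT (g : ℤ[X]) (e f : Fin 4 → ℤ) (j : ℕ × (Fin 4 → ℕ)) :
    toC (monT g e f j) = C (X ^ j.1) * ∏ c, (toC (bT g e f c)) ^ j.2 c := by
  have h1 : toC (C (X ^ j.1)) = C (X ^ j.1) := by
    rw [toC, coe_mapRingHom, Polynomial.map_C, coe_mapRingHom, Polynomial.map_pow,
      Polynomial.map_X]
  have h2 : ∏ c, toC (bT g e f c ^ j.2 c) = ∏ c, (toC (bT g e f c)) ^ j.2 c :=
    Finset.prod_congr rfl fun c _ => map_pow _ _ _
  rw [monT, map_mul, map_prod, h1, h2]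

/-- **Independent monomials on a slice.** -/
theorem exists_mons {g : ℤ[X]} {θ : Fin 4 → ℂ} (h : Roots g θ) {e : Fin 4 → ℤ} (he : e ≠ 0)
    {f : Fin 4 → ℤ}
    (hns : ∀ j l, j ≠ l → ev e (θ j) * ev f (θ l) ≠ ev e (θ l) * ev f (θ j))
    (i s : ℕ) (hi : 1 ≤ i) :
    ∃ J : Fin ((s + 1) * (2 * s + 1 + i)) → ℕ × (Fin 4 → ℕ),
      (∀ j, (J j).1 ≤ i ∧ ∑ c, (J j).2 c = s) ∧ Function.Injective J ∧
      LinearIndependent ℂ (fun j => toC (monT g e f (J j))) := by
  obtain ⟨J, h1, h2, h3⟩ := exists_indep_monomials θ (tauS θ e f) h.inj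
    (tauS_injective h he hns) (fun c => toC (bT g e f c)) (span_bT h he f) i s hi
  refine ⟨J, h1, h2, ?_⟩
  have h4 : (fun j => toC (monT g e f (J j))) =
      fun j => (C (X ^ (J j).1) * ∏ c, (toC (bT g e f c)) ^ (J j).2 c : ℂ[X][X]) :=
    funext fun j => toC_monT g e f (J j)
  rw [h4]
  exact h3

/-- the polynomial of a monomial is a form on the slice -/
lemma toC_monT_mem {g : ℤ[X]} {θ : Fin 4 → ℂ} (h : Roots g θ) {e : Fin 4 → ℤ} (he : e ≠ 0)
    (f : Fin 4 → ℤ) (i s : ℕ) (j : ℕ × (Fin 4 → ℕ)) (hi : j.1 ≤ i) (hs : ∑ c, j.2 c = s) :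
    toC (monT g e f j) ∈ (tA ℂ i * vA θ (tauS θ e f) ^ s : Submodule ℂ ℂ[X][X]) := by
  rw [toC_monT]
  have hb : ∀ c, toC (bT g e f c) ∈ vA θ (tauS θ e f) := fun c => by
    rw [← span_bT h he f]
    exact Submodule.subset_span ⟨c, rfl⟩
  apply Submodule.mul_mem_mul
  · exact Submodule.subset_span ⟨j.1, hi, rfl⟩
  · rw [← hs, Fin.prod_univ_four, Fin.sum_univ_four, pow_add, pow_add, pow_add]
    exact Submodule.mul_mem_mul (Submodule.mul_mem_mul (Submodule.mul_mem_mul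
      (Submodule.pow_mem_pow _ (hb 0) _) (Submodule.pow_mem_pow _ (hb 1) _))
      (Submodule.pow_mem_pow _ (hb 2) _)) (Submodule.pow_mem_pow _ (hb 3) _)

lemma natDegree_toC (P : ℤ[X][X]) : (toC P).natDegree = P.natDegree :=
  natDegree_map_eq_of_injective (Polynomial.map_injective _ (RingHom.injective_int _)) P

lemma natDegree_coeff_toC (P : ℤ[X][X]) (y : ℕ) :
    ((toC P).coeff y).natDegree = (P.coeff y).natDegree := by
  rw [toC, coe_mapRingHom, coeff_map, coe_mapRingHom]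
  exact natDegree_map_eq_of_injective (RingHom.injective_int _) _

/-- degrees of integral polynomials which are forms over `ℂ` -/
lemma degrees_of_form {θ τ : Fin 4 → ℂ} (i s : ℕ) (P : ℤ[X][X])
    (hP : toC P ∈ (tA ℂ i * vA θ τ ^ s : Submodule ℂ ℂ[X][X])) :
    P.natDegree ≤ s ∧ ∀ y, (P.coeff y).natDegree ≤ 6 * s + i := by
  constructor
  · rw [← natDegree_toC, natDegree_le_iff_coeff_eq_zero]
    intro N hN
    exact (forms_le_Wn θ τ i s hP) N hN
  · intro y
    rw [← natDegree_coeff_toC]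
    exact natDegree_coeff_forms θ τ i s _ hP y

end

end Pool.Agent.Lib.SQF.AE
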