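import Pool.Agent.Lib.SQF.ADefs
import Pool.Agent.Lib.SQF.AEval0

/-!
# SQF: values of forms on an α-slice (owner helper39; statements helper82)

`exists_b`: polynomials `ν(t) = Res(g, t e1 + e2)`, `adj(t)` with `(t e1 + e2) adj = ν` modulo `g`,
`b_c(t,n)` = coordinate `c` of `(n - X) adj²` modulo `g`; so `N(α)² β_c = m² v⁶ b_c(u/v, n)`; over `ℂ` the
value at `θ_σ` is `(n - θ_σ) ∏_(l ≠ σ) (e1_l (t - t_l))²`, a multiple of `xA σ`, so the span of the `b_c` is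
`vA θ (tt θ e1 e2)` (inverse Vandermonde).
`fv_eval`: multiply the identities (`hev` is multiplicative at `v ≠ 0`, `hev_eq`).
-/

set_option autoImplicit false

open Polynomial

namespace Pool.Agent.Lib.SQF

/-- the polynomial of a monomial form -/
noncomputable def fpol (b : Fin 4 → ℤ[X][X]) (c : ℕ × (Fin 4 → ℕ)) : ℤ[X][X] :=
  C (X ^ c.1) * ∏ j, b j ^ c.2 j

/-- the polynomials attached to a slice -/
structure SlicePol (g : ℤ[X]) (θ : Fin 4 → ℂ) (e1 e2 : Fin 4 → ℤ) (B E : ℝ) (b : Fin 4 → ℤ[X][X])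
    (ν : ℤ[X]) : Prop where
  bdd : ∀ j, Bdd 1 6 (B * E ^ 6) (b j)
  ν_ne : ν ≠ 0
  ν_deg : ν.natDegree ≤ 4
  ν_bdd : ∀ l, |((ν.coeff l : ℤ) : ℝ)| ≤ B * E ^ 4
  span : Submodule.span ℂ (Set.range fun j => toC (b j)) = vA θ (tt θ e1 e2)
  eval_ν : ∀ (K Y P : ℝ) (z : ZPt), AOK g K Y P e1 e2 z → hev 4 (C ν) z.u z.v z.n = z.p * z.m
  eval_b : ∀ (K Y P : ℝ) (z : ZPt), AOK g K Y P e1 e2 z → ∀ j,
    ((z.p : ℤ) * z.m) ^ 2 * z.b j = z.m ^ 2 * hev 6 (b j) z.u z.v z.n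

lemma roots_of {g : ℤ[X]} {θ : Fin 4 → ℂ} (hg : Roots4 g θ) : AE.Roots g θ :=
  ⟨hg.monic, hg.deg, hg.irr, hg.root, hg.inj⟩

/-- all coefficients are bounded by `M` -/
private def CB (M : ℝ) (P : ℂ[X]) : Prop := ∀ l, ‖P.coeff l‖ ≤ M

private lemma cb_lin_mul {A M : ℝ} {a b : ℂ} {P : ℂ[X]} (hA : 0 ≤ A) (ha : ‖a‖ ≤ A)
    (hb : ‖b‖ ≤ A) (hM : 0 ≤ M) (hP : CB M P) : CB (2 * A * M) ((C a * X + C b) * P) := by
  intro l
  have h2 : ‖b * P.coeff l‖ ≤ A * M := by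
    rw [norm_mul]; exact mul_le_mul hb (hP l) (norm_nonneg _) hA
  rw [add_mul, coeff_add, coeff_C_mul, mul_assoc (C a) X P, coeff_C_mul]
  rcases l with _ | l
  · rw [coeff_X_mul_zero, mul_zero, zero_add]
    refine h2.trans ?_
    nlinarith [mul_nonneg hA hM]
  · rw [coeff_X_mul]
    have h1 : ‖a * P.coeff l‖ ≤ A * M := by
      rw [norm_mul]; exact mul_le_mul ha (hP l) (norm_nonneg _) hA
    refine (norm_add_le _ _).trans ?_
    linarith

private lemma cb_prod_mul {A M : ℝ} {θ : Fin 4 → ℂ} {e f : Fin 4 → ℤ} (hA : 0 ≤ A) (hM : 0 ≤ M)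
    (he : ∀ l, ‖ev e (θ l)‖ ≤ A) (hf : ∀ l, ‖ev f (θ l)‖ ≤ A) (s : Finset (Fin 4)) {P : ℂ[X]}
    (hP : CB M P) : CB ((2 * A) ^ s.card * M) ((∏ l ∈ s, AE.lin θ e f l) * P) := by
  classical
  induction s using Finset.induction_on with
  | empty => simpa using hP
  | insert j s hj ih =>
    rw [Finset.prod_insert hj, Finset.card_insert_of_notMem hj, mul_assoc, pow_succ']
    have := cb_lin_mul (a := ev e (θ j)) (b := ev f (θ j)) hA (he j) (hf j) (by positivity) ih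
    intro l
    refine (this l).trans (le_of_eq ?_)
    ring

private lemma norm_ev_le (θ : Fin 4 → ℂ) : ∃ C0 : ℝ, 1 ≤ C0 ∧ ∀ (E : ℝ) (e : Fin 4 → ℤ),
    0 ≤ E → (∀ j, |(e j : ℝ)| ≤ E) → ∀ l, ‖ev e (θ l)‖ ≤ C0 * E := by
  refine ⟨1 + ∑ l, ∑ i : Fin 4, ‖θ l‖ ^ (i : ℕ), ?_, ?_⟩
  · have : 0 ≤ ∑ l, ∑ i : Fin 4, ‖θ l‖ ^ (i : ℕ) :=
      Finset.sum_nonneg fun l _ => Finset.sum_nonneg fun i _ => by positivity
    linarith
  · intro E e hE he l
    have h1 : ‖ev e (θ l)‖ ≤ E * ∑ i : Fin 4, ‖θ l‖ ^ (i : ℕ) := by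
      rw [ev, Finset.mul_sum]
      refine (norm_sum_le _ _).trans (Finset.sum_le_sum fun i _ => ?_)
      rw [norm_mul, norm_pow]
      refine mul_le_mul_of_nonneg_right ?_ (by positivity)
      have : ‖((e i : ℤ) : ℂ)‖ = |(e i : ℝ)| := by simp
      rw [this]; exact he i
    have h2 : ∑ i : Fin 4, ‖θ l‖ ^ (i : ℕ) ≤ ∑ l, ∑ i : Fin 4, ‖θ l‖ ^ (i : ℕ) :=
      Finset.single_le_sum (f := fun l => ∑ i : Fin 4, ‖θ l‖ ^ (i : ℕ))
        (fun l _ => Finset.sum_nonneg fun i _ => by positivity) (Finset.mem_univ l)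
    nlinarith

private lemma kappa_xA {g : ℤ[X]} {θ : Fin 4 → ℂ} (h : AE.Roots g θ) {e : Fin 4 → ℤ} (he : e ≠ 0)
    (f : Fin 4 → ℤ) (j : Fin 4) :
    (∏ l ∈ Finset.univ.erase j, ev e (θ l)) ^ 2 • xA θ (AE.tauS θ e f) j =
      (X - C (C (θ j))) * C ((∏ l ∈ Finset.univ.erase j, AE.lin θ e f l) ^ 2) := by
  have h2 : ∏ l ∈ Finset.univ.erase j, AE.lin θ e f l =
      C (∏ l ∈ Finset.univ.erase j, ev e (θ l)) *
        ∏ l ∈ Finset.univ.erase j, (X - C (AE.tauS θ e f l)) := by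
    rw [map_prod, ← Finset.prod_mul_distrib]
    exact Finset.prod_congr rfl fun l _ => AE.lin_eq h he f l
  rw [h2, AE.smul_eq_CC, xA, Finset.prod_pow]
  simp only [C_mul, C_pow, mul_pow]
  ring

private lemma toC_bT_eq {g : ℤ[X]} {θ : Fin 4 → ℂ} (h : AE.Roots g θ) {e : Fin 4 → ℤ} (he : e ≠ 0)
    (f : Fin 4 → ℤ) (c : Fin 4) :
    AE.toC (AE.bT g e f c) = ∑ j, ((Matrix.vandermonde θ)⁻¹ c j) •
      ((X - C (C (θ j))) * C ((∏ l ∈ Finset.univ.erase j, AE.lin θ e f l) ^ 2)) := by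
  set V : Matrix (Fin 4) (Fin 4) ℂ := Matrix.vandermonde θ with hV
  have hdet : IsUnit V.det := by
    rw [isUnit_iff_ne_zero, hV]
    exact Matrix.det_vandermonde_ne_zero_iff.2 h.inj
  have h1 : V⁻¹ * V = 1 := Matrix.nonsing_inv_mul V hdet
  have h2 : AE.toC (AE.bT g e f c) = ∑ j, (V⁻¹ c j) • ∑ c' : Fin 4, (θ j ^ (c' : ℕ)) •
      AE.toC (AE.bT g e f c') := by
    simp only [Finset.smul_sum, smul_smul]
    rw [Finset.sum_comm]
    have h3 : ∀ c' : Fin 4, ∑ j, (V⁻¹ c j * θ j ^ (c' : ℕ)) • AE.toC (AE.bT g e f c') =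
        ((1 : Matrix (Fin 4) (Fin 4) ℂ) c c') • AE.toC (AE.bT g e f c') := by
      intro c'
      rw [← Finset.sum_smul, ← h1, Matrix.mul_apply]
      rfl
    rw [Finset.sum_congr rfl fun c' _ => h3 c', Finset.sum_eq_single c]
    · rw [Matrix.one_apply_eq, one_smul]
    · intro b _ hb
      rw [Matrix.one_apply_ne hb.symm, zero_smul]
    · intro h'; exact absurd (Finset.mem_univ _) h'
  rw [h2]
  refine Finset.sum_congr rfl fun j _ => ?_
  rw [AE.sum_toC_bT h he, kappa_xA h he]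

private lemma coeff_lin_C (z : ℂ) (P : ℂ[X]) (l l' : ℕ) :
    (((X - C (C z)) * C P : ℂ[X][X]).coeff l).coeff l' =
      if l = 0 then - z * P.coeff l' else if l = 1 then P.coeff l' else 0 := by
  rw [sub_mul, coeff_sub, mul_comm X (C P), coeff_C_mul, ← C_mul, coeff_C, coeff_X]
  rcases l with _ | _ | l
  · simp
  · simp
  · simp

private lemma ofSlice (e1 e2 : Fin 4 → ℤ) (z : ZPt) : OnSlice e1 e2 (z.a e1 e2) z.u z.v :=
  fun _ => rfl

private lemma ev1_eq (x : ℚ) (P : ℤ[X]) :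
    AE.ev1 x P = ((C P : ℤ[X][X]).map (mapRingHom (Int.castRingHom ℚ))).evalEval x 0 := by
  rw [Polynomial.map_C, evalEval_C, coe_mapRingHom, eval_map]
  rfl

private lemma ev2_eq (x y : ℚ) (P : ℤ[X][X]) :
    AE.ev2 x y P = (P.map (mapRingHom (Int.castRingHom ℚ))).evalEval x y := by
  have : (eval₂RingHom (eval₂RingHom (Int.castRingHom ℚ) x) y : ℤ[X][X] →+* ℚ) P =
      (P.map (mapRingHom (Int.castRingHom ℚ))).evalEval x y := by
    rw [eval₂RingHom_eval₂RingHom]; rfl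
  exact this

private lemma hev_ev2 (e : ℕ) (G : ℤ[X][X]) (hG : ∀ i, (G.coeff i).natDegree ≤ e) (u v n : ℤ)
    (hv : v ≠ 0) : ((hev e G u v n : ℤ) : ℚ) = (v : ℚ) ^ e * AE.ev2 ((u : ℚ) / v) (n : ℚ) G := by
  rw [hev_eq e G hG u v n hv, ev2_eq]

theorem exists_b {g : ℤ[X]} {θ : Fin 4 → ℂ} (hg : Roots4 g θ) :
    ∃ B : ℝ, 1 ≤ B ∧ ∀ E : ℝ, 1 ≤ E → ∀ e1 e2 : Fin 4 → ℤ, SliceOK θ E e1 e2 →
      ∃ (b : Fin 4 → ℤ[X][X]) (ν : ℤ[X]), SlicePol g θ e1 e2 B E b ν := by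
  obtain ⟨C0, hC0, hC0'⟩ := norm_ev_le θ
  set V : Matrix (Fin 4) (Fin 4) ℂ := Matrix.vandermonde θ with hV
  set S : ℝ := ∑ c, ∑ j, ‖V⁻¹ c j‖ * (1 + ‖θ j‖) with hS
  have hS0 : 0 ≤ S := Finset.sum_nonneg fun c _ => Finset.sum_nonneg fun j _ => by positivity
  set B : ℝ := (1 + S) * (2 * C0) ^ 6 with hB
  have h2C : (1 : ℝ) ≤ 2 * C0 := by linarith
  have hB1 : (2 * C0) ^ 6 ≤ B := by
    rw [hB]; nlinarith [pow_pos (by linarith : (0:ℝ) < 2 * C0) 6]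
  have hB4 : (2 * C0) ^ 4 ≤ B := (pow_le_pow_right₀ h2C (by norm_num)).trans hB1
  have hBone : 1 ≤ B := (one_le_pow₀ h2C).trans hB1
  refine ⟨B, hBone, fun E hE e1 e2 hs => ?_⟩
  have hr := roots_of hg
  have hE0 : (0 : ℝ) ≤ E := by linarith
  have hA : 0 ≤ C0 * E := by positivity
  have he := hC0' E e1 hE0 hs.le1
  have hf := hC0' E e2 hE0 hs.le2
  have hmem : ∀ j, AE.toC (AE.bT g e1 e2 j) ∈
      (tA ℂ 0 * vA θ (AE.tauS θ e1 e2) ^ 1 : Submodule ℂ ℂ[X][X]) := by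
    intro j
    have h1 := AE.toC_monT_mem hr hs.ne1 e2 0 1 (0, Pi.single j 1) le_rfl (by simp)
    have h2 : AE.monT g e1 e2 (0, Pi.single j 1) = AE.bT g e1 e2 j := by
      rw [AE.monT, Finset.prod_eq_single j]
      · simp
      · intro b _ hb
        simp [Pi.single_eq_of_ne hb]
      · intro h'; exact absurd (Finset.mem_univ _) h'
    rwa [h2] at h1
  have hdeg := fun j => AE.degrees_of_form 0 1 _ (hmem j)
  have hνC := AE.rhoT_map hr e1 e2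
  have hνeq : ∀ l, ((AE.rhoT g e1 e2).coeff l : ℂ) = (∏ j, AE.lin θ e1 e2 j).coeff l := by
    intro l
    rw [← hνC, ← AE.map_eq_ev1, coe_mapRingHom, coeff_map]
    rfl
  have hlin : ∀ j, (AE.lin θ e1 e2 j) ≠ 0 := by
    intro j
    rw [AE.lin_eq hr hs.ne1]
    exact mul_ne_zero (C_ne_zero.2 (hr.ev_ne_zero hs.ne1 j)) (X_sub_C_ne_zero _)
  have hνdeg : (AE.rhoT g e1 e2).natDegree ≤ 4 := by
    rw [natDegree_le_iff_coeff_eq_zero]
    intro N hN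
    have h1 := hνeq N
    have h2 : (∏ j, AE.lin θ e1 e2 j).natDegree ≤ 4 := by
      refine (natDegree_prod_le _ _).trans ?_
      refine (Finset.sum_le_sum (g := fun _ => 1) fun j _ => ?_).trans (by simp)
      rw [AE.lin]; exact natDegree_linear_le
    have h3 : (∏ j, AE.lin θ e1 e2 j).coeff N = 0 := coeff_eq_zero_of_natDegree_lt (by omega)
    rw [h3] at h1
    exact_mod_cast h1
  refine ⟨AE.bT g e1 e2, AE.rhoT g e1 e2, ?_, ?_, ?_, ?_, ?_, ?_, ?_⟩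
  · -- bounds for `b`
    intro c
    refine ⟨(hdeg c).1, fun l => ((hdeg c).2 l).trans (by norm_num), fun l l' => ?_⟩
    have h1 : |((((AE.bT g e1 e2 c).coeff l).coeff l' : ℤ) : ℝ)| =
        ‖((AE.toC (AE.bT g e1 e2 c)).coeff l).coeff l'‖ := by
      rw [AE.toC, coe_mapRingHom, coeff_map, coe_mapRingHom, coeff_map]
      simp
    rw [h1, toC_bT_eq hr hs.ne1, finsetSum_coeff, finsetSum_coeff]
    have hq : ∀ j, CB ((2 * (C0 * E)) ^ 6)
        ((∏ l ∈ Finset.univ.erase j, AE.lin θ e1 e2 l) ^ 2) := by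
      intro j
      have h1 : CB 1 (1 : ℂ[X]) := by
        intro l
        rw [coeff_one]
        split_ifs <;> simp
      have h2 := cb_prod_mul hA zero_le_one he hf (Finset.univ.erase j) h1
      have h3 := cb_prod_mul hA (by positivity) he hf (Finset.univ.erase j) h2
      have h4 : (Finset.univ.erase j).card = 3 := by
        rw [Finset.card_erase_of_mem (Finset.mem_univ _)]; simp
      rw [h4, mul_one, mul_one] at h3
      have h5 : (2 * (C0 * E)) ^ 3 * (2 * (C0 * E)) ^ 3 = (2 * (C0 * E)) ^ 6 := by ring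
      rw [h5, ← pow_two] at h3
      exact h3
    have hb : ∀ j, ‖(((V⁻¹ c j) • ((X - C (C (θ j))) *
        C ((∏ l ∈ Finset.univ.erase j, AE.lin θ e1 e2 l) ^ 2)) : ℂ[X][X]).coeff l).coeff l'‖ ≤
        ‖V⁻¹ c j‖ * (1 + ‖θ j‖) * (2 * (C0 * E)) ^ 6 := by
      intro j
      rw [coeff_smul, coeff_smul, smul_eq_mul, norm_mul, coeff_lin_C, mul_assoc]
      refine mul_le_mul_of_nonneg_left ?_ (norm_nonneg _)
      have h5 := hq j l'
      have h6 : 0 ≤ (2 * (C0 * E)) ^ 6 := by positivity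
      split_ifs
      · rw [norm_mul, norm_neg]
        exact mul_le_mul (by linarith) h5 (norm_nonneg _) (by positivity)
      · exact h5.trans (le_mul_of_one_le_left h6 (by linarith [norm_nonneg (θ j)]))
      · rw [norm_zero]; positivity
    refine (norm_sum_le _ _).trans ((Finset.sum_le_sum fun j _ => hb j).trans ?_)
    rw [← Finset.sum_mul]
    have h7 : ∑ j, ‖V⁻¹ c j‖ * (1 + ‖θ j‖) ≤ S :=
      Finset.single_le_sum (f := fun c => ∑ j, ‖V⁻¹ c j‖ * (1 + ‖θ j‖))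
        (fun c _ => Finset.sum_nonneg fun j _ => by positivity) (Finset.mem_univ c)
    have h8 : (2 * (C0 * E)) ^ 6 = (2 * C0) ^ 6 * E ^ 6 := by ring
    rw [h8, hB]
    have h9 : 0 ≤ (2 * C0) ^ 6 * E ^ 6 := by positivity
    refine (mul_le_mul_of_nonneg_right (by linarith : _ ≤ 1 + S) h9).trans (le_of_eq ?_)
    ring
  · intro h0
    have h1 : ∏ j, AE.lin θ e1 e2 j = 0 := by rw [← hνC, h0, map_zero]
    exact (Finset.prod_ne_zero_iff.2 fun j _ => hlin j) h1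
  · exact hνdeg
  · intro l
    have h1 : CB 1 (1 : ℂ[X]) := by
      intro l
      rw [coeff_one]
      split_ifs <;> simp
    have h2 := cb_prod_mul hA zero_le_one he hf Finset.univ h1 l
    rw [mul_one, mul_one, ← hνeq l, Finset.card_univ, Fintype.card_fin] at h2
    have h3 : ‖(((AE.rhoT g e1 e2).coeff l : ℤ) : ℂ)‖ = |(((AE.rhoT g e1 e2).coeff l : ℤ) : ℝ)| := by
      simp
    rw [h3] at h2
    refine h2.trans ?_
    have h4 : (2 * (C0 * E)) ^ 4 = (2 * C0) ^ 4 * E ^ 4 := by ring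
    rw [h4]
    exact mul_le_mul_of_nonneg_right hB4 (by positivity)
  · exact AE.span_bT hr hs.ne1 e2
  · intro K Y P z hz
    have hv := hz.1
    have hv' : (z.v : ℚ) ≠ 0 := by exact_mod_cast hv
    have hdν : ∀ i, ((C (AE.rhoT g e1 e2) : ℤ[X][X]).coeff i).natDegree ≤ 4 := by
      intro i
      rw [coeff_C]
      split_ifs
      · exact hνdeg
      · simp
    have h1 := hev_ev2 4 _ hdν z.u z.v z.n hv
    rw [AE.ev2_C, AE.rhoT_spec g ((z.u : ℚ) / z.v) e1 e2 (z.a e1 e2) z.u z.v (ofSlice e1 e2 z)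
      (by field_simp), hz.2.res] at h1
    exact_mod_cast h1
  · intro K Y P z hz j
    have hv := hz.1
    have hv' : (z.v : ℚ) ≠ 0 := by exact_mod_cast hv
    have hx : (z.v : ℚ) * ((z.u : ℚ) / z.v) = z.u := by field_simp
    have h1 := hev_ev2 6 (AE.bT g e1 e2 j) (fun l => ((hdeg j).2 l).trans (by norm_num))
      z.u z.v z.n hv
    have h2 := AE.bT_spec g hg.monic hg.deg e1 e2 (z.a e1 e2) z.b z.u z.v z.n z.m
      ((z.u : ℚ) / z.v) (ofSlice e1 e2 z) hx hz.2.eqn j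
    have h3 := AE.rhoT_spec g ((z.u : ℚ) / z.v) e1 e2 (z.a e1 e2) z.u z.v (ofSlice e1 e2 z) hx
    rw [hz.2.res] at h3
    have h4 : ((((z.p : ℤ) * z.m) ^ 2 * z.b j : ℤ) : ℚ) =
        ((z.m ^ 2 * hev 6 (AE.bT g e1 e2 j) z.u z.v z.n : ℤ) : ℚ) := by
      push_cast
      rw [h1]
      push_cast at h3
      rw [← h3]
      linear_combination (z.v : ℚ) ^ 6 * h2
    exact_mod_cast h4

/-- degrees of the polynomial of a monomial form -/
theorem fpol_deg {g : ℤ[X]} {θ : Fin 4 → ℂ} {e1 e2 : Fin 4 → ℤ} {B E : ℝ} {b : Fin 4 → ℤ[X][X]}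
    {ν : ℤ[X]} (hb : SlicePol g θ e1 e2 B E b ν) (i s j : ℕ) (c : ℕ × (Fin 4 → ℕ))
    (hc : IsCol i s c) :
    (C (ν ^ (2 * j)) * fpol b c).natDegree ≤ s ∧
      ∀ l, ((C (ν ^ (2 * j)) * fpol b c).coeff l).natDegree ≤ 6 * (s + j) + (i + 2 * j) := by
  constructor
  · have e1 : (∏ l, b l ^ c.2 l).natDegree ≤ s := by
      refine (natDegree_prod_le _ _).trans ?_
      rw [← hc.2]
      refine Finset.sum_le_sum fun l _ => natDegree_pow_le.trans ?_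
      have := (hb.bdd l).1
      nlinarith
    have e2 : (fpol b c).natDegree ≤ s := by
      rw [fpol]
      refine natDegree_mul_le.trans ?_
      rw [natDegree_C]; omega
    refine natDegree_mul_le.trans ?_
    rw [natDegree_C]; omega
  · have h1 : Bez.degT (C (ν ^ (2 * j)) * fpol b c) ≤ 6 * (s + j) + (i + 2 * j) := by
      have e1 : Bez.degT (C (ν ^ (2 * j)) : ℤ[X][X]) ≤ 8 * j := by
        rw [Bez.degT_C]
        refine natDegree_pow_le.trans ?_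
        have := Nat.mul_le_mul_left (2 * j) hb.ν_deg
        linarith
      have e2 : Bez.degT (C (X ^ c.1) : ℤ[X][X]) ≤ i := by
        rw [Bez.degT_C, natDegree_X_pow]; exact hc.1
      have e3 : ∀ (S : Finset (Fin 4)), Bez.degT (∏ l ∈ S, b l ^ c.2 l) ≤
          ∑ l ∈ S, 6 * c.2 l := by
        intro S
        classical
        induction S using Finset.induction_on with
        | empty => simp [Bez.degT]
        | insert a S ha ih =>
          rw [Finset.prod_insert ha, Finset.sum_insert ha]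
          refine (Bez.degT_mul_le _ _).trans (Nat.add_le_add ?_ ih)
          have e4 : ∀ k : ℕ, Bez.degT (b a ^ k) ≤ 6 * k := by
            intro k
            induction k with
            | zero => simp [Bez.degT]
            | succ k ihk =>
              rw [pow_succ]
              refine (Bez.degT_mul_le _ _).trans ?_
              have := (Bez.degT_le_iff (b a) 6).2 (hb.bdd a).2.1
              omega
          exact e4 _
      have e5 := e3 Finset.univ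
      rw [← Finset.mul_sum, hc.2] at e5
      refine (Bez.degT_mul_le _ _).trans ?_
      have e6 : Bez.degT (fpol b c) ≤ i + 6 * s := by
        rw [fpol]
        exact (Bez.degT_mul_le _ _).trans (Nat.add_le_add e2 e5)
      omega
    exact (Bez.degT_le_iff _ _).1 h1

/-- `On` as a value -/
theorem on_iff_ev2 (F : ℤ[X][X]) (z : ZPt) :
    On F z ↔ AE.ev2 ((z.u : ℚ) / z.v) (z.n : ℚ) F = 0 := by
  rw [ev2_eq]; rfl

/-- values of monomial forms; `j = 0` is the plain identity -/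
theorem fv_eval {g : ℤ[X]} {θ : Fin 4 → ℂ} {e1 e2 : Fin 4 → ℤ} {B E : ℝ} {b : Fin 4 → ℤ[X][X]}
    {ν : ℤ[X]} (hb : SlicePol g θ e1 e2 B E b ν) (i s j : ℕ) (c : ℕ × (Fin 4 → ℕ))
    (hc : IsCol i s c) (K Y P : ℝ) (z : ZPt) (hz : AOK g K Y P e1 e2 z) :
    (((z.p : ℤ) * z.m) ^ 2) ^ (s + j) * (z.m ^ (2 * j) * fv i c z) =
      (z.m ^ 2) ^ (s + j) * hev (6 * (s + j) + (i + 2 * j)) (C (ν ^ (2 * j)) * fpol b c)
        z.u z.v z.n := by
  have hv := hz.1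
  have hv' : (z.v : ℚ) ≠ 0 := by exact_mod_cast hv
  set t : ℚ := (z.u : ℚ) / z.v with ht
  set M : ℚ := ((z.p : ℚ) * z.m) with hM
  -- the values of `ν` and `b`
  have hν : M = (z.v : ℚ) ^ 4 * AE.ev1 t ν := by
    have h1 := hb.eval_ν K Y P z hz
    have h2 := hev_ev2 4 (C ν) (by
      intro i
      rw [coeff_C]
      split_ifs
      · exact hb.ν_deg
      · simp) z.u z.v z.n hv
    rw [h1, AE.ev2_C] at h2
    rw [← h2, hM]; push_cast; ring
  have hbj : ∀ l, M ^ 2 * (z.b l : ℚ) = (z.m : ℚ) ^ 2 * ((z.v : ℚ) ^ 6 * AE.ev2 t (z.n : ℚ) (b l)) := by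
    intro l
    have h1 := hb.eval_b K Y P z hz l
    have h2 := hev_ev2 6 (b l) (hb.bdd l).2.1 z.u z.v z.n hv
    rw [← ht] at h2
    rw [← h2, hM]
    exact_mod_cast h1
  -- degrees
  have hdeg : ∀ l, ((C (ν ^ (2 * j)) * fpol b c).coeff l).natDegree ≤
      6 * (s + j) + (i + 2 * j) := (fpol_deg hb i s j c hc).2
  have h3 := hev_ev2 _ _ hdeg z.u z.v z.n hv
  rw [← ht] at h3
  have h4 : AE.ev2 t (z.n : ℚ) (C (ν ^ (2 * j)) * fpol b c) =
      AE.ev1 t ν ^ (2 * j) * (t ^ c.1 * ∏ l, AE.ev2 t (z.n : ℚ) (b l) ^ c.2 l) := by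
    rw [fpol, map_mul, map_mul, AE.ev2_C, AE.ev2_C, map_pow, map_pow, AE.ev1_X, map_prod]
    simp only [map_pow]
  -- products
  have h5 : (M ^ 2) ^ s * ∏ l, (z.b l : ℚ) ^ c.2 l =
      ((z.m : ℚ) ^ 2) ^ s * (((z.v : ℚ) ^ 6) ^ s * ∏ l, AE.ev2 t (z.n : ℚ) (b l) ^ c.2 l) := by
    have e1 : ∀ l, (M ^ 2) ^ c.2 l * (z.b l : ℚ) ^ c.2 l =
        ((z.m : ℚ) ^ 2) ^ c.2 l * (((z.v : ℚ) ^ 6) ^ c.2 l * AE.ev2 t (z.n : ℚ) (b l) ^ c.2 l) := by
      intro l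
      calc (M ^ 2) ^ c.2 l * (z.b l : ℚ) ^ c.2 l = (M ^ 2 * (z.b l : ℚ)) ^ c.2 l :=
            (mul_pow _ _ _).symm
        _ = ((z.m : ℚ) ^ 2 * ((z.v : ℚ) ^ 6 * AE.ev2 t (z.n : ℚ) (b l))) ^ c.2 l := by rw [hbj l]
        _ = _ := by rw [mul_pow, mul_pow]
    rw [← hc.2, ← Finset.prod_pow_eq_pow_sum, ← Finset.prod_pow_eq_pow_sum,
      ← Finset.prod_pow_eq_pow_sum, ← Finset.prod_mul_distrib, ← Finset.prod_mul_distrib,
      ← Finset.prod_mul_distrib]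
    exact Finset.prod_congr rfl fun l _ => e1 l
  have h6 : (z.v : ℚ) ^ i * t ^ c.1 = (z.u : ℚ) ^ c.1 * (z.v : ℚ) ^ (i - c.1) := by
    have e1 : (z.v : ℚ) ^ i = (z.v : ℚ) ^ c.1 * (z.v : ℚ) ^ (i - c.1) := by
      rw [← pow_add, Nat.add_sub_cancel' hc.1]
    rw [e1, ht, div_pow]
    field_simp
  have h7 : (((((z.p : ℤ) * z.m) ^ 2) ^ (s + j) * (z.m ^ (2 * j) * fv i c z) : ℤ) : ℚ) =
      (((z.m ^ 2) ^ (s + j) * hev (6 * (s + j) + (i + 2 * j)) (C (ν ^ (2 * j)) * fpol b c)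
        z.u z.v z.n : ℤ) : ℚ) := by
    push_cast
    rw [h3, h4, ← hM, fv]
    push_cast
    have e1 : (M ^ 2) ^ (s + j) = (M ^ 2) ^ s * ((z.v : ℚ) ^ 4 * AE.ev1 t ν) ^ (2 * j) := by
      rw [pow_add, ← pow_mul M 2 j, hν]
    rw [e1]
    calc (M ^ 2) ^ s * ((z.v : ℚ) ^ 4 * AE.ev1 t ν) ^ (2 * j) * ((z.m : ℚ) ^ (2 * j) *
          ((z.u : ℚ) ^ c.1 * (z.v : ℚ) ^ (i - c.1) * ∏ l, (z.b l : ℚ) ^ c.2 l))
        = ((z.v : ℚ) ^ 4 * AE.ev1 t ν) ^ (2 * j) * (z.m : ℚ) ^ (2 * j) *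
          ((z.u : ℚ) ^ c.1 * (z.v : ℚ) ^ (i - c.1)) *
          ((M ^ 2) ^ s * ∏ l, (z.b l : ℚ) ^ c.2 l) := by ring
      _ = _ := by
          rw [h5, ← h6]
          ring
  exact_mod_cast h7

/-- rational form of `fv_eval` -/
theorem fv_eval_rat {g : ℤ[X]} {θ : Fin 4 → ℂ} {e1 e2 : Fin 4 → ℤ} {B E : ℝ} {b : Fin 4 → ℤ[X][X]}
    {ν : ℤ[X]} (hb : SlicePol g θ e1 e2 B E b ν) (i s j : ℕ) (c : ℕ × (Fin 4 → ℕ))
    (hc : IsCol i s c) (K Y P : ℝ) (z : ZPt) (hz : AOK g K Y P e1 e2 z) :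
    (((z.p : ℚ) * z.m) ^ 2) ^ (s + j) * ((z.m ^ (2 * j) * fv i c z : ℤ) : ℚ) =
      ((z.m : ℚ) ^ 2) ^ (s + j) * ((z.v : ℚ) ^ (6 * (s + j) + (i + 2 * j)) *
        AE.ev2 ((z.u : ℚ) / z.v) (z.n : ℚ) (C (ν ^ (2 * j)) * fpol b c)) := by
  have h1 := fv_eval hb i s j c hc K Y P z hz
  have h2 := hev_ev2 _ _ (fpol_deg hb i s j c hc).2 z.u z.v z.n hz.1
  rw [← h2]
  exact_mod_cast h1

end Pool.Agent.Lib.SQF
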