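import Mathlib
import Pool.Agent.Lib.SQF.ADefs
import Pool.Agent.Lib.SQF.S2

/-!
# SQF: a value of `t` carries `O(1)` values of `n`

Same `u : v` means proportional `α = u e1 + v e2`; `α = d α0`, `α0` primitive; `d^4` divides
`Res(g, α) = p m`, so `d^4 ∣ m` and `Res(g, α0) = p m0` with `|m0| ≤ K`: `p` is determined by `m0`;
`n` modulo `p` is determined by `α0` (a common root of `g` and `pol α0` modulo `p`;
two different ones would give `p² ∣ Res(g, α0)`, see `res_congr` of S2), and `|n| < 2 Y ≤ 2 L p`.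
-/

set_option autoImplicit false

open Polynomial

namespace Pool.Agent.Lib.SQF

/-- the common root modulo `p` is unique -/
theorem root_unique (g : ℤ[X]) (hg : g.Monic) (hd : 0 < g.natDegree) (p : ℕ) (hp : p.Prime)
    (A : ℤ[X]) (hA : A.natDegree < g.natDegree) (n n' m : ℤ) (hn : ((p : ℤ) ^ 2) ∣ g.eval n)
    (hAn : (p : ℤ) ∣ A.eval n) (hn' : (p : ℤ) ∣ g.eval n') (hAn' : (p : ℤ) ∣ A.eval n')
    (hm : resultant g A g.natDegree g.natDegree = p * m) (hpm : ¬ (p : ℤ) ∣ m) :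
    (p : ℤ) ∣ n' - n := by
  have hpp : Prime (p : ℤ) := Nat.prime_iff_prime_int.1 hp
  set h := g /ₘ (X - C n) with hh
  set ρ := resultant h A (g.natDegree - 1) g.natDegree with hρ
  have key := res_congr g hg hd p hp n hn A hA
  rw [hm, ← hh, ← hρ] at key
  have hpρ : ¬ (p : ℤ) ∣ ρ := by
    intro h1
    apply hpm
    have h2 : (p : ℤ) ^ 2 ∣ A.eval n * ρ := by
      rw [pow_two]
      exact mul_dvd_mul hAn h1
    have h3 : (p : ℤ) ^ 2 ∣ (p : ℤ) * m := by
      have h4 := dvd_add key h2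
      rwa [sub_add_cancel] at h4
    rw [pow_two] at h3
    exact (mul_dvd_mul_iff_left hpp.ne_zero).1 h3
  have hhd : h.natDegree = g.natDegree - 1 := by
    rw [hh, natDegree_divByMonic g (monic_X_sub_C n), natDegree_X_sub_C]
  obtain ⟨U, V, -, -, hUV⟩ := exists_mul_add_mul_eq_C_resultant (m := g.natDegree - 1)
    (n := g.natDegree) h A (by rw [hhd]) hA.le (Or.inr hd.ne')
  have h1 := congrArg (eval n') hUV
  rw [← hρ, eval_C, eval_add, eval_mul, eval_mul] at h1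
  have hgh : g.eval n' = (n' - n) * h.eval n' + g.eval n := by
    have h2 := modByMonic_add_div g (X - C n)
    rw [modByMonic_X_sub_C_eq_C_eval, ← hh] at h2
    have h3 := congrArg (eval n') h2
    rw [eval_add, eval_C, eval_mul, eval_sub, eval_X, eval_C] at h3
    rw [← h3]; ring
  have h4 : (p : ℤ) ∣ (n' - n) * h.eval n' := by
    have h5 : (p : ℤ) ∣ g.eval n' - g.eval n :=
      dvd_sub hn' ((dvd_pow_self _ (by norm_num)).trans hn)
    rw [hgh, add_sub_cancel_right] at h5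
    exact h5
  rcases hpp.dvd_or_dvd h4 with h5 | h5
  · exact h5
  · exfalso
    apply hpρ
    rw [← h1]
    exact dvd_add (Dvd.dvd.mul_right h5 _) (Dvd.dvd.mul_right hAn' _)

private lemma natDegree_pol_lt {d : ℕ} (hd : 0 < d) (a : Fin d → ℤ) : (pol a).natDegree < d := by
  unfold pol
  refine lt_of_le_of_lt (natDegree_sum_le _ _) ?_
  rw [Finset.fold_max_lt]
  refine ⟨hd, fun i _ => ?_⟩
  exact lt_of_le_of_lt (natDegree_C_mul_X_pow_le _ _) i.2

theorem per_t {g : ℤ[X]} {θ : Fin 4 → ℂ} (hg : Roots4 g θ) (K L : ℝ) : ∃ C : ℕ, ∀ Y P : ℝ, 1 ≤ Y →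
    Y ≤ L * P → ∀ e1 e2 : Fin 4 → ℤ, ∀ S : Finset ZPt, (∀ z ∈ S, AOK g K Y P e1 e2 z) →
      (∀ z ∈ S, ∀ z' ∈ S, z.n = z'.n → z = z') →
      (∀ z ∈ S, ∀ z' ∈ S, z.u * z'.v = z'.u * z.v) → S.card ≤ C := by
  classical
  refine ⟨(2 * ⌊4 * |L|⌋₊ + 1) * (2 * ⌊|K|⌋₊ + 1), ?_⟩
  intro Y P hY hYP e1 e2 S hS hinj hprop
  rcases S.eq_empty_or_nonempty with rfl | ⟨z0, hz0⟩
  · simp
  -- the primitive direction
  have hv0 : z0.v ≠ 0 := (hS z0 hz0).1
  set d0 : ℤ := (Int.gcd z0.u z0.v : ℤ) with hd0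
  have hd0ne : d0 ≠ 0 := by
    rw [hd0]
    have : Int.gcd z0.u z0.v ≠ 0 := by
      rw [Ne, Int.gcd_eq_zero_iff]
      exact fun h => hv0 h.2
    exact_mod_cast this
  obtain ⟨u0, hu0⟩ : d0 ∣ z0.u := Int.gcd_dvd_left ..
  obtain ⟨v0, hv0'⟩ : d0 ∣ z0.v := Int.gcd_dvd_right ..
  have hcop : IsCoprime u0 v0 := by
    obtain ⟨x, y, hxy⟩ : ∃ x y : ℤ, z0.u * x + z0.v * y = d0 :=
      ⟨_, _, (Int.gcd_eq_gcd_ab z0.u z0.v).symm⟩
    refine ⟨x, y, ?_⟩
    apply mul_left_cancel₀ hd0ne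
    rw [hu0, hv0'] at hxy
    linear_combination hxy
  have hv0ne : v0 ≠ 0 := by
    rintro rfl
    rw [mul_zero] at hv0'
    exact hv0 hv0'
  set α0 : Fin 4 → ℤ := fun i => u0 * e1 i + v0 * e2 i with hα0
  set R0 : ℤ := resultant g (pol α0) 4 4 with hR0
  have hgd : 0 < g.natDegree := by rw [hg.deg]; norm_num
  -- the data at every point
  have hdata : ∀ z ∈ S, ∃ d m0 : ℤ, z.a e1 e2 = (fun i => d * α0 i) ∧ R0 = z.p * m0 ∧
      ¬ (z.p : ℤ) ∣ m0 ∧ |(m0 : ℝ)| ≤ K ∧ ¬ (z.p : ℤ) ∣ d := by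
    intro z hz
    have hzz := (hS z hz).2
    have hpp : Prime (z.p : ℤ) := Nat.prime_iff_prime_int.1 hzz.prime
    have hpr : z.u * v0 = u0 * z.v := by
      apply mul_left_cancel₀ hd0ne
      have h1 := hprop z hz z0 hz0
      rw [hu0, hv0'] at h1
      linear_combination h1
    obtain ⟨d, hd⟩ : v0 ∣ z.v := by
      apply hcop.symm.dvd_of_dvd_mul_left
      rw [← hpr]
      exact Dvd.intro_left _ rfl
    have hdne : d ≠ 0 := by
      rintro rfl
      rw [mul_zero] at hd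
      exact (hS z hz).1 hd
    have hu : z.u = u0 * d := by
      apply mul_right_cancel₀ hv0ne
      rw [hpr, hd]; ring
    have ha : z.a e1 e2 = (fun i => d * α0 i) := by
      funext i
      simp only [ZPt.a, hα0, hu, hd]
      ring
    have hpol : pol (z.a e1 e2) = C d * pol α0 := by
      rw [ha]
      simp only [pol, Finset.mul_sum, C_mul]
      exact Finset.sum_congr rfl fun i _ => by ring
    have hres : d ^ 4 * R0 = z.p * z.m := by
      have h1 := hzz.res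
      rw [hpol, resultant_C_mul_right] at h1
      exact h1
    have hpd : ¬ (z.p : ℤ) ∣ d := by
      rintro ⟨t, ht⟩
      apply hzz.not_dvd
      rw [ht] at hres
      refine ⟨(z.p : ℤ) ^ 2 * t ^ 4 * R0, ?_⟩
      apply mul_left_cancel₀ hpp.ne_zero
      linear_combination -hres
    have hc4 : IsCoprime (d ^ 4) (z.p : ℤ) :=
      IsCoprime.pow_left ((hpp.coprime_iff_not_dvd.2 hpd).symm)
    obtain ⟨m0, hm0⟩ : d ^ 4 ∣ z.m :=
      hc4.dvd_of_dvd_mul_left ⟨R0, hres.symm⟩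
    have hd4 : d ^ 4 ≠ 0 := pow_ne_zero _ hdne
    have hR : R0 = z.p * m0 := by
      apply mul_left_cancel₀ hd4
      rw [hres, hm0]; ring
    refine ⟨d, m0, ha, hR, ?_, ?_, hpd⟩
    · intro h1
      apply hzz.not_dvd
      rw [hm0]
      exact Dvd.dvd.mul_left h1 _
    · refine le_trans ?_ hzz.m_le
      rw [hm0]
      push_cast
      rw [abs_mul]
      have h1 : (1 : ℝ) ≤ |(d : ℝ) ^ 4| := by
        have h2 : (1 : ℤ) ≤ |d ^ 4| := Int.one_le_abs hd4
        exact_mod_cast h2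
      nlinarith [abs_nonneg (m0 : ℝ)]
  set f : ZPt → ℤ := fun z => R0 / (z.p : ℤ) with hf
  have hfm : ∀ z ∈ S, ∀ m0 : ℤ, R0 = z.p * m0 → f z = m0 := by
    intro z hz m0 h
    have hp0 : (z.p : ℤ) ≠ 0 := by exact_mod_cast (hS z hz).2.prime.ne_zero
    simp only [hf]
    rw [h, Int.mul_ediv_cancel_left _ hp0]
  have himg : (S.image f).card ≤ 2 * ⌊|K|⌋₊ + 1 := by
    have h1 : S.image f ⊆ Finset.Icc (-(⌊|K|⌋₊ : ℤ)) (⌊|K|⌋₊ : ℤ) := by
      intro a ha
      obtain ⟨z, hz, rfl⟩ := Finset.mem_image.1 ha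
      obtain ⟨d, m0, -, h2, -, h3, -⟩ := hdata z hz
      rw [hfm z hz m0 h2, Finset.mem_Icc, ← abs_le]
      have h4 : |(m0 : ℝ)| ≤ |K| := h3.trans (le_abs_self K)
      have h5 : ((m0.natAbs : ℕ) : ℝ) ≤ |K| := by
        rw [Nat.cast_natAbs, Int.cast_abs]
        exact h4
      have h6 := Nat.le_floor h5
      rw [Int.abs_eq_natAbs]
      exact_mod_cast h6
    refine (Finset.card_le_card h1).trans ?_
    rw [Int.card_Icc]
    omega
  have hfib : ∀ a ∈ S.image f, (S.filter fun z => f z = a).card ≤ 2 * ⌊4 * |L|⌋₊ + 1 := by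
    intro a ha
    obtain ⟨z1, hz1, hz1a⟩ := Finset.mem_image.1 ha
    obtain ⟨d1, m1, ha1, hR1, hpm1, -, hpd1⟩ := hdata z1 hz1
    have hm1a : m1 = a := by rw [← hz1a, hfm z1 hz1 m1 hR1]
    have hp1 := (hS z1 hz1).2.prime
    have hpp1 : Prime (z1.p : ℤ) := Nat.prime_iff_prime_int.1 hp1
    have hm1ne : m1 ≠ 0 := by
      rintro rfl
      exact hpm1 (dvd_zero _)
    have hev : ∀ z ∈ S, ∀ d : ℤ, z.a e1 e2 = (fun i => d * α0 i) → ¬ (z.p : ℤ) ∣ d →
        (z.p : ℤ) ∣ (pol α0).eval z.n := by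
      intro z hz d had hpd
      have hzz := (hS z hz).2
      have hpp : Prime (z.p : ℤ) := Nat.prime_iff_prime_int.1 hzz.prime
      have h1 := hzz.dvd_eval
      have hpol : pol (z.a e1 e2) = C d * pol α0 := by
        rw [had]
        simp only [pol, Finset.mul_sum, C_mul]
        exact Finset.sum_congr rfl fun i _ => by ring
      rw [hpol, eval_mul, eval_C] at h1
      exact (hpp.dvd_or_dvd h1).resolve_left hpd
    have hpp0 : (0 : ℝ) < z1.p := by exact_mod_cast hp1.pos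
    have hsame : ∀ z ∈ S.filter fun z => f z = a, z.p = z1.p ∧ (z1.p : ℤ) ∣ z.n - z1.n := by
      intro z hz
      obtain ⟨hzS, hza⟩ := Finset.mem_filter.1 hz
      obtain ⟨d, m0, had, hR, hpm, -, hpd⟩ := hdata z hzS
      have hm0a : m0 = a := by rw [← hza, hfm z hzS m0 hR]
      have hpe : z.p = z1.p := by
        have h1 : (z.p : ℤ) * m1 = z1.p * m1 := by
          rw [← hR1, hm1a, ← hm0a, ← hR]
        exact_mod_cast mul_right_cancel₀ hm1ne h1
      refine ⟨hpe, ?_⟩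
      apply root_unique g hg.monic hgd z1.p hp1 (pol α0)
        (by rw [hg.deg]; exact natDegree_pol_lt (by norm_num) α0) z1.n z.n m1
        (hS z1 hz1).2.sq_dvd (hev z1 hz1 d1 ha1 hpd1) ?_ ?_ ?_ hpm1
      · rw [← hpe]
        exact (dvd_pow_self _ (by norm_num)).trans (hS z hzS).2.sq_dvd
      · have h2 := hev z hzS d had hpd
        rwa [hpe] at h2
      · rw [hg.deg, ← hR1]
    set φ : ZPt → ℤ := fun z => (z.n - z1.n) / (z1.p : ℤ) with hφ
    have hφi : Set.InjOn φ (S.filter fun z => f z = a) := by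
      intro z hz z' hz' h
      have hz2 := Finset.mem_coe.1 hz
      have hz2' := Finset.mem_coe.1 hz'
      apply hinj z (Finset.mem_filter.1 hz2).1 z' (Finset.mem_filter.1 hz2').1
      obtain ⟨x, hx⟩ := (hsame z hz2).2
      obtain ⟨x', hx'⟩ := (hsame z' hz2').2
      simp only [hφ] at h
      rw [hx, hx', Int.mul_ediv_cancel_left _ hpp1.ne_zero,
        Int.mul_ediv_cancel_left _ hpp1.ne_zero] at h
      rw [h, ← hx'] at hx
      linear_combination hx
    rw [← Finset.card_image_of_injOn hφi]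
    have hsub : ((S.filter fun z => f z = a).image φ) ⊆
        Finset.Icc (-(⌊4 * |L|⌋₊ : ℤ)) (⌊4 * |L|⌋₊ : ℤ) := by
      intro b hb
      obtain ⟨z, hz, rfl⟩ := Finset.mem_image.1 hb
      obtain ⟨hzS, -⟩ := Finset.mem_filter.1 hz
      obtain ⟨x, hx⟩ := (hsame z hz).2
      have hφz : φ z = x := by
        simp only [hφ]
        rw [hx, Int.mul_ediv_cancel_left _ hpp1.ne_zero]
      rw [hφz, Finset.mem_Icc, ← abs_le]
      have h1 := (hS z hzS).2.upper
      have h2 := (hS z1 hz1).2.upper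
      have h3 := (hS z1 hz1).2.ple
      have hP0 : 0 < P := by
        have h4 := (hS z1 hz1).2.plt
        linarith
      have hxR : (z.n : ℝ) - z1.n = z1.p * x := by exact_mod_cast hx
      have hL : Y ≤ |L| * z1.p := by
        calc Y ≤ L * P := hYP
          _ ≤ |L| * P := mul_le_mul_of_nonneg_right (le_abs_self L) hP0.le
          _ ≤ |L| * z1.p := mul_le_mul_of_nonneg_left h3 (abs_nonneg L)
      have h5 : |(x : ℝ)| ≤ 4 * |L| := by
        have h6 : (z1.p : ℝ) * |(x : ℝ)| ≤ z1.p * (4 * |L|) := by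
          calc (z1.p : ℝ) * |(x : ℝ)| = |(z.n : ℝ) - z1.n| := by
                rw [hxR, abs_mul, abs_of_pos hpp0]
            _ ≤ |(z.n : ℝ)| + |(z1.n : ℝ)| := abs_sub _ _
            _ ≤ z1.p * (4 * |L|) := by linarith
        exact le_of_mul_le_mul_left h6 hpp0
      have h7 : ((x.natAbs : ℕ) : ℝ) ≤ 4 * |L| := by
        rw [Nat.cast_natAbs, Int.cast_abs]
        exact h5
      have h8 := Nat.le_floor h7
      rw [Int.abs_eq_natAbs]
      exact_mod_cast h8
    refine (Finset.card_le_card hsub).trans ?_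
    rw [Int.card_Icc]
    omega
  calc S.card ≤ (2 * ⌊4 * |L|⌋₊ + 1) * (S.image f).card :=
        Finset.card_le_mul_card_image S _ hfib
    _ ≤ (2 * ⌊4 * |L|⌋₊ + 1) * (2 * ⌊|K|⌋₊ + 1) := Nat.mul_le_mul_left _ himg

end Pool.Agent.Lib.SQF
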