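import Mathlib

/-!
# Independence of the forms on a beta-slice (Lemma B)

`K` is a field, `τ θ : Fin 4 → K` are injective, `φ : K[t][n] → E` is an injective ring
homomorphism into a field `E` in which `2 ≠ 0`, and `y i ^ 2 * (t - τ i) = n - θ i`.
Then the functions `t ^ a * y ^ m` with `|m| = k`, not (`m 0 ≥ 2` and `m 1 ≥ 2`), and
(`a = 0` or (`m 0 ≤ 1` and `m 1 ≤ 1`)) are linearly independent over `K`.
-/

set_option autoImplicit false

open Polynomial Finset

namespace Pool.Agent.SQF.IndB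

/-- Peeling off the lowest power of an element killed by a ring homomorphism. -/
lemma peel {A B σ : Type*} [CommRing A] [IsDomain A] [CommRing B] (ev : A →+* B) (p : A)
    (hp : ev p = 0) (hp0 : p ≠ 0) (S : Finset σ) (e : σ → ℕ) (g : σ → A)
    (h : ∑ s ∈ S, p ^ e s * g s = 0) (e0 : ℕ) (hmin : ∀ s ∈ S, e0 ≤ e s) :
    ∑ s ∈ S with e s = e0, ev (g s) = 0 := by
  classical
  have h1 : p ^ e0 * ∑ s ∈ S, p ^ (e s - e0) * g s = 0 := by
    rw [Finset.mul_sum, ← h]
    refine Finset.sum_congr rfl fun s hs => ?_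
    rw [← mul_assoc, ← pow_add, Nat.add_sub_cancel' (hmin s hs)]
  have h2 : ∑ s ∈ S, p ^ (e s - e0) * g s = 0 := by
    rcases mul_eq_zero.1 h1 with h3 | h3
    · exact absurd h3 (pow_ne_zero _ hp0)
    · exact h3
  have h3 := congrArg ev h2
  rw [map_sum, map_zero] at h3
  rw [Finset.sum_filter]
  refine Eq.trans (Finset.sum_congr rfl fun s hs => ?_) h3
  by_cases h4 : e s = e0
  · simp [h4]
  · have h5 : e s - e0 ≠ 0 := by have := hmin s hs; omega
    simp [h4, hp, h5]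

/-- A quadratic extension inside a field. -/
lemma tower_step {E : Type*} [Field E] (L : Subfield E) (y : E) (hy2 : y ^ 2 ∈ L)
    (hy : y ∉ L) : ∃ L' : Subfield E, ∀ x, x ∈ L' ↔ ∃ a ∈ L, ∃ b ∈ L, x = a + b * y := by
  have hnorm : ∀ a ∈ L, ∀ b ∈ L, a + b * y ≠ 0 → a ^ 2 - b ^ 2 * y ^ 2 ≠ 0 := by
    intro a ha b hb hne h0
    have h1 : (a + b * y) * (a - b * y) = 0 := by linear_combination h0
    rcases mul_eq_zero.1 h1 with h2 | h2
    · exact hne h2
    · by_cases hb0 : b = 0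
      · subst hb0
        simp only [zero_mul, sub_zero, add_zero] at h2 hne
        exact hne h2
      · apply hy
        have h3 : y = a / b := by
          rw [eq_div_iff hb0]; linear_combination -h2
        rw [h3]
        exact L.div_mem ha hb
  refine ⟨{ carrier := {x | ∃ a ∈ L, ∃ b ∈ L, x = a + b * y}
            mul_mem' := ?_, one_mem' := ?_, add_mem' := ?_, zero_mem' := ?_
            neg_mem' := ?_, inv_mem' := ?_ }, fun x => Iff.rfl⟩
  · rintro _ _ ⟨a, ha, b, hb, rfl⟩ ⟨c, hc, d, hd, rfl⟩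
    refine ⟨a * c + b * d * y ^ 2, L.add_mem (L.mul_mem ha hc)
      (L.mul_mem (L.mul_mem hb hd) hy2), a * d + b * c,
      L.add_mem (L.mul_mem ha hd) (L.mul_mem hb hc), by ring⟩
  · exact ⟨1, L.one_mem, 0, L.zero_mem, by ring⟩
  · rintro _ _ ⟨a, ha, b, hb, rfl⟩ ⟨c, hc, d, hd, rfl⟩
    exact ⟨a + c, L.add_mem ha hc, b + d, L.add_mem hb hd, by ring⟩
  · exact ⟨0, L.zero_mem, 0, L.zero_mem, by ring⟩
  · rintro _ ⟨a, ha, b, hb, rfl⟩
    exact ⟨-a, L.neg_mem ha, -b, L.neg_mem hb, by ring⟩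
  · rintro _ ⟨a, ha, b, hb, rfl⟩
    by_cases h0 : a + b * y = 0
    · exact ⟨0, L.zero_mem, 0, L.zero_mem, by rw [h0]; simp⟩
    · have hN := hnorm a ha b hb h0
      have hNL : a ^ 2 - b ^ 2 * y ^ 2 ∈ L :=
        L.sub_mem (L.pow_mem ha 2) (L.mul_mem (L.pow_mem hb 2) hy2)
      refine ⟨a / (a ^ 2 - b ^ 2 * y ^ 2), L.div_mem ha hNL,
        -(b / (a ^ 2 - b ^ 2 * y ^ 2)), L.neg_mem (L.div_mem hb hNL), ?_⟩
      rw [inv_eq_iff_eq_inv, eq_comm, inv_eq_iff_eq_inv]
      apply eq_inv_of_mul_eq_one_left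
      field_simp
      ring

/-- Products of square roots with independent square classes are linearly independent. -/
lemma kummer {E ι : Type*} [Field E] [DecidableEq ι] (h2 : (2 : E) ≠ 0) (L0 : Subfield E)
    (y : ι → E) (hy : ∀ i, y i ^ 2 ∈ L0) (s : Finset ι)
    (hs : ∀ T ⊆ s, T.Nonempty → ∀ x ∈ L0, x ^ 2 ≠ ∏ i ∈ T, y i ^ 2) :
    ∃ L : Subfield E, L0 ≤ L ∧ (∀ i ∈ s, y i ∈ L) ∧
      (∀ b ∈ L0, ∀ x ∈ L, x ^ 2 = b → ∃ T ⊆ s, ∃ w ∈ L0, w ^ 2 = b * ∏ i ∈ T, y i ^ 2) ∧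
      (∀ c : Finset ι → E, (∀ T, c T ∈ L0) → ∑ T ∈ s.powerset, c T * ∏ i ∈ T, y i = 0 →
        ∀ T ⊆ s, c T = 0) := by
  induction s using Finset.induction_on with
  | empty =>
    refine ⟨L0, le_rfl, by simp, ?_, ?_⟩
    · intro b hb x hx hxb
      exact ⟨∅, by simp, x, hx, by simp [hxb]⟩
    · intro c hc h T hT
      have : T = ∅ := Finset.subset_empty.1 hT
      subst this
      simpa using h
  | insert j s hj ih =>
    obtain ⟨L, hL, hyL, hsq, hind⟩ := ih (fun T hT => hs T (hT.trans (Finset.subset_insert _ _)))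
    have hyj : y j ∉ L := by
      intro hmem
      obtain ⟨T, hT, w, hw, hwT⟩ := hsq (y j ^ 2) (hy j) (y j) hmem rfl
      have hjT : j ∉ T := fun h => hj (hT h)
      refine hs (insert j T) (Finset.insert_subset_insert _ hT) ⟨j, Finset.mem_insert_self _ _⟩
        w hw ?_
      rw [Finset.prod_insert hjT, hwT]
    have hyj0 : y j ≠ 0 := fun h => hyj (h ▸ L.zero_mem)
    obtain ⟨L', hL'⟩ := tower_step L (y j) (hL (hy j)) hyj
    have hLL' : L ≤ L' := fun x hx => (hL' x).2 ⟨x, hx, 0, L.zero_mem, by ring⟩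
    refine ⟨L', hL.trans hLL', ?_, ?_, ?_⟩
    · intro i hi
      rcases Finset.mem_insert.1 hi with rfl | hi
      · exact (hL' _).2 ⟨0, L.zero_mem, 1, L.one_mem, by ring⟩
      · exact hLL' (hyL i hi)
    · intro b hb x hx hxb
      obtain ⟨a, ha, a', ha', rfl⟩ := (hL' x).1 hx
      have hcase : a = 0 ∨ a' = 0 := by
        by_contra hne
        push Not at hne
        apply hyj
        have hne2 : 2 * a * a' ≠ 0 := mul_ne_zero (mul_ne_zero h2 hne.1) hne.2
        have h3 : y j = (b - a ^ 2 - a' ^ 2 * y j ^ 2) / (2 * a * a') := by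
          rw [eq_div_iff hne2]; linear_combination hxb
        rw [h3]
        refine L.div_mem (L.sub_mem (L.sub_mem (hL hb) (L.pow_mem ha 2))
          (L.mul_mem (L.pow_mem ha' 2) (hL (hy j)))) (L.mul_mem (L.mul_mem ?_ ha) ha')
        have h12 : (2 : E) = 1 + 1 := by norm_num
        rw [h12]
        exact L.add_mem L.one_mem L.one_mem
      rcases hcase with h0 | h0
      · subst h0
        have h3 : a' ^ 2 = b / y j ^ 2 := by
          rw [eq_div_iff (pow_ne_zero 2 hyj0)]; linear_combination hxb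
        obtain ⟨T, hT, w, hw, hwT⟩ := hsq (b / y j ^ 2) (L0.div_mem hb (hy j)) a' ha' h3
        have hjT : j ∉ T := fun h => hj (hT h)
        refine ⟨insert j T, Finset.insert_subset_insert _ hT, w * y j ^ 2,
          L0.mul_mem hw (hy j), ?_⟩
        rw [Finset.prod_insert hjT, mul_pow, hwT]
        field_simp
      · subst h0
        obtain ⟨T, hT, w, hw, hwT⟩ := hsq b hb a ha (by linear_combination hxb)
        exact ⟨T, hT.trans (Finset.subset_insert _ _), w, hw, hwT⟩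
    · intro c hc h
      have hmem : ∀ c : Finset ι → E, (∀ T, c T ∈ L0) →
          ∑ T ∈ s.powerset, c T * ∏ i ∈ T, y i ∈ L := by
        intro c hc
        refine L.sum_mem fun T hT => L.mul_mem (hL (hc T)) (L.prod_mem fun i hi => ?_)
        exact hyL i (Finset.mem_powerset.1 hT hi)
      rw [Finset.sum_powerset_insert hj] at h
      have h3 : ∑ T ∈ s.powerset, c (insert j T) * ∏ i ∈ insert j T, y i =
          y j * ∑ T ∈ s.powerset, c (insert j T) * ∏ i ∈ T, y i := by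
        rw [Finset.mul_sum]
        refine Finset.sum_congr rfl fun T hT => ?_
        have hjT : j ∉ T := fun h => hj (Finset.mem_powerset.1 hT h)
        rw [Finset.prod_insert hjT]; ring
      rw [h3] at h
      have hP := hmem c hc
      have hQ := hmem (fun T => c (insert j T)) (fun T => hc _)
      have hQ0 : ∑ T ∈ s.powerset, c (insert j T) * ∏ i ∈ T, y i = 0 := by
        by_contra hne
        apply hyj
        have h4 : y j = (-∑ T ∈ s.powerset, c T * ∏ i ∈ T, y i) /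
            (∑ T ∈ s.powerset, c (insert j T) * ∏ i ∈ T, y i) := by
          rw [eq_div_iff hne]; linear_combination h
        rw [h4]
        exact L.div_mem (L.neg_mem hP) hQ
      rw [hQ0, mul_zero, add_zero] at h
      intro T hT
      by_cases hjT : j ∈ T
      · have h5 := hind (fun T => c (insert j T)) (fun T => hc _) hQ0 (T.erase j)
          (by rw [← Finset.subset_insert_iff]; exact hT)
        simpa [Finset.insert_erase hjT] using h5
      · exact hind c hc h T ((Finset.subset_insert_iff_of_notMem hjT).1 hT)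

/-- The shape of the exponents: `m 0 ≥ 2` and `m 1 ≥ 2` not both, and `a = 0` unless both
are at most one. -/
def Adm (s : ℕ × (Fin 4 → ℕ)) : Prop :=
  ¬(2 ≤ s.2 0 ∧ 2 ≤ s.2 1) ∧ (s.1 = 0 ∨ (s.2 0 ≤ 1 ∧ s.2 1 ≤ 1))

section Two

variable {K : Type*} [Field K] (τ θ : Fin 4 → K)

/-- `t - τ i` in `K[t][n]`. -/
noncomputable def TT (i : Fin 4) : K[X][X] := C (X - C (τ i))

/-- `n - θ i` in `K[t][n]`. -/
noncomputable def NN (i : Fin 4) : K[X][X] := X - C (C (θ i))

lemma TT_ne (i : Fin 4) : TT τ i ≠ 0 := by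
  unfold TT; exact C_ne_zero.2 (X_sub_C_ne_zero _)

lemma NN_ne (i : Fin 4) : NN θ i ≠ 0 := by
  unfold NN; exact X_sub_C_ne_zero _

/-- the map `t ↦ τ j`. -/
noncomputable def evT (x : K) : K[X][X] →+* K[X] := mapRingHom (evalRingHom x)

lemma evT_TT (x : K) (i : Fin 4) : evT x (TT τ i) = C (x - τ i) := by
  simp [evT, TT]

lemma evT_NN (x : K) (i : Fin 4) : evT x (NN θ i) = X - C (θ i) := by
  simp [evT, NN]

lemma evT_t (x : K) : evT x (C X) = C x := by
  simp [evT]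

lemma evT_c (x c : K) : evT x (C (C c)) = C c := by
  simp [evT]

/-- the set of exponents used in one parity class. -/
private structure Good (R k : ℕ) (d : Fin 4 → ℕ) (s : ℕ × (Fin 4 → ℕ)) : Prop where
  par : ∀ j, s.2 j % 2 = d j
  sum : ∑ j, s.2 j / 2 = R
  tot : ∑ j, s.2 j = k
  adm : Adm s

private lemma Good.le {R k : ℕ} {d : Fin 4 → ℕ} {s : ℕ × (Fin 4 → ℕ)} (h : Good R k d s)
    (j : Fin 4) : s.2 j / 2 ≤ R := by
  rw [← h.sum]
  exact Finset.single_le_sum (f := fun j => s.2 j / 2) (fun _ _ => Nat.zero_le _)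
    (Finset.mem_univ j)

private lemma Good.ext {R k : ℕ} {d : Fin 4 → ℕ} {s s' : ℕ × (Fin 4 → ℕ)} (h : Good R k d s)
    (h' : Good R k d s') (h1 : s.1 = s'.1) (h2 : s.2 0 / 2 = s'.2 0 / 2)
    (h3 : s.2 1 / 2 = s'.2 1 / 2) (h4 : s.2 2 / 2 = s'.2 2 / 2) : s = s' := by
  have e1 := h.tot
  have e2 := h'.tot
  rw [Fin.sum_univ_four] at e1 e2
  have p0 := h.par 0
  have p1 := h.par 1
  have p2 := h.par 2
  have q0 := h'.par 0
  have q1 := h'.par 1
  have q2 := h'.par 2
  have a0 : s.2 0 = s'.2 0 := by omega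
  have a1 : s.2 1 = s'.2 1 := by omega
  have a2 : s.2 2 = s'.2 2 := by omega
  have a3 : s.2 3 = s'.2 3 := by omega
  refine Prod.ext h1 (funext fun j => ?_)
  fin_cases j
  · exact a0
  · exact a1
  · exact a2
  · exact a3

/-- one term of the cleared relation. -/
private noncomputable def term (R : ℕ) (c : ℕ × (Fin 4 → ℕ) → K) (s : ℕ × (Fin 4 → ℕ)) :
    K[X][X] :=
  C (C (c s)) * C X ^ s.1 * (∏ i, NN θ i ^ (s.2 i / 2)) * ∏ i, TT τ i ^ (R - s.2 i / 2)

private lemma caseA (hτ : Function.Injective τ) (hθ : Function.Injective θ) (R k : ℕ)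
    (d : Fin 4 → ℕ) (S : Finset (ℕ × (Fin 4 → ℕ))) (hS : ∀ s ∈ S, Good R k d s)
    (c : ℕ × (Fin 4 → ℕ) → K) (hc : ∀ s ∈ S, c s ≠ 0) (h : ∑ s ∈ S, term τ θ R c s = 0)
    (j0 j1 : Fin 4) (hj : (j0 = 0 ∧ j1 = 1) ∨ (j0 = 1 ∧ j1 = 0)) :
    ∀ s ∈ S, s.2 j0 / 2 = 0 := by
  classical
  by_contra hcon
  push Not at hcon
  obtain ⟨s', hs', hs'0⟩ := hcon
  obtain ⟨s0, hs0, hmax⟩ := Finset.exists_max_image S (fun s => s.2 j0 / 2) ⟨s', hs'⟩
  set M := s0.2 j0 / 2 with hM
  have hM1 : 1 ≤ M := by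
    have := hmax s' hs'
    omega
  -- first peel
  have h1 : ∑ s ∈ S, TT τ j0 ^ (R - s.2 j0 / 2) *
      (C (C (c s)) * C X ^ s.1 * (∏ i, NN θ i ^ (s.2 i / 2)) *
        ∏ i ∈ Finset.univ.erase j0, TT τ i ^ (R - s.2 i / 2)) = 0 := by
    rw [← h]
    refine Finset.sum_congr rfl fun s _ => ?_
    rw [term, ← Finset.mul_prod_erase Finset.univ (fun i => TT τ i ^ (R - s.2 i / 2))
      (Finset.mem_univ j0)]
    ring
  have h2 := peel (evT (τ j0)) (TT τ j0) (by rw [evT_TT]; simp) (TT_ne τ j0) S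
    (fun s => R - s.2 j0 / 2) _ h1 (R - M) (fun s hs => by have := hmax s hs; omega)
  set S1 := S.filter (fun s => R - s.2 j0 / 2 = R - M) with hS1
  have hS1M : ∀ s ∈ S1, s.2 j0 / 2 = M ∧ s.1 = 0 ∧ s.2 j1 / 2 = 0 := by
    intro s hs
    obtain ⟨hsS, hsM⟩ := Finset.mem_filter.1 hs
    have e1 := (hS s hsS).le j0
    have e2 := (hS s0 hs0).le j0
    have e3 : s.2 j0 / 2 = M := by omega
    obtain ⟨a1, a2⟩ := (hS s hsS).adm
    refine ⟨e3, ?_, ?_⟩
    · rcases a2 with a2 | a2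
      · exact a2
      · exfalso
        rcases hj with ⟨rfl, rfl⟩ | ⟨rfl, rfl⟩ <;> omega
    · rcases hj with ⟨rfl, rfl⟩ | ⟨rfl, rfl⟩
      · by_contra hne
        exact a1 ⟨by omega, by omega⟩
      · by_contra hne
        exact a1 ⟨by omega, by omega⟩
  have hs01 : s0 ∈ S1 := Finset.mem_filter.2 ⟨hs0, rfl⟩
  -- second peel
  obtain ⟨s1, hs1, hmin⟩ := Finset.exists_min_image S1 (fun s => s.2 2 / 2) ⟨s0, hs01⟩
  have h3 : ∑ s ∈ S1, (X - C (θ 2)) ^ (s.2 2 / 2) *
      (C (c s) * (∏ i ∈ Finset.univ.erase 2, (X - C (θ i)) ^ (s.2 i / 2)) *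
        ∏ i ∈ Finset.univ.erase j0, C (τ j0 - τ i) ^ (R - s.2 i / 2)) = 0 := by
    rw [← h2]
    refine Finset.sum_congr rfl fun s hs => ?_
    rw [map_mul, map_mul, map_mul, map_pow, map_prod, map_prod, evT_t, evT_c, (hS1M s hs).2.1,
      pow_zero, mul_one, ← Finset.mul_prod_erase Finset.univ _ (Finset.mem_univ (2 : Fin 4))]
    simp only [map_pow, evT_NN, evT_TT]
    ring
  have h4 := peel (evalRingHom (θ 2)) (X - C (θ 2)) (by simp) (X_sub_C_ne_zero _) S1
    (fun s => s.2 2 / 2) _ h3 (s1.2 2 / 2) hmin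
  have h5 : S1.filter (fun s => s.2 2 / 2 = s1.2 2 / 2) = {s1} := by
    ext s
    rw [Finset.mem_filter, Finset.mem_singleton]
    constructor
    · rintro ⟨hs, he⟩
      have g1 := hS1M s hs
      have g2 := hS1M s1 hs1
      have k1 := hS s (Finset.mem_filter.1 hs).1
      have k2 := hS s1 (Finset.mem_filter.1 hs1).1
      rcases hj with ⟨rfl, rfl⟩ | ⟨rfl, rfl⟩
      · exact k1.ext k2 (by omega) (by omega) (by omega) he
      · exact k1.ext k2 (by omega) (by omega) (by omega) he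
    · rintro rfl
      exact ⟨hs1, rfl⟩
  rw [h5, Finset.sum_singleton] at h4
  simp only [map_mul, map_prod, map_pow, coe_evalRingHom, eval_C, eval_sub, eval_X] at h4
  refine mul_ne_zero (mul_ne_zero (hc s1 (Finset.mem_filter.1 hs1).1) ?_) ?_ h4
  · refine Finset.prod_ne_zero_iff.2 fun i hi => pow_ne_zero _ (sub_ne_zero.2 fun he => ?_)
    exact (Finset.mem_erase.1 hi).1 (hθ he).symm
  · refine Finset.prod_ne_zero_iff.2 fun i hi => pow_ne_zero _ (sub_ne_zero.2 fun he => ?_)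
    exact (Finset.mem_erase.1 hi).1 (hτ he).symm

/-- Step 2: the cleared relation inside one parity class is trivial. -/
private lemma step2 (hτ : Function.Injective τ) (hθ : Function.Injective θ) (R k : ℕ)
    (d : Fin 4 → ℕ) (S : Finset (ℕ × (Fin 4 → ℕ))) (hS : ∀ s ∈ S, Good R k d s)
    (c : ℕ × (Fin 4 → ℕ) → K) (hc : ∀ s ∈ S, c s ≠ 0) (h : ∑ s ∈ S, term τ θ R c s = 0) :
    S = ∅ := by
  classical
  by_contra hne
  obtain ⟨s', hs'⟩ := Finset.nonempty_iff_ne_empty.2 hne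
  have hA0 := caseA τ θ hτ hθ R k d S hS c hc h 0 1 (Or.inl ⟨rfl, rfl⟩)
  have hA1 := caseA τ θ hτ hθ R k d S hS c hc h 1 0 (Or.inr ⟨rfl, rfl⟩)
  obtain ⟨s1, hs1, hmin⟩ := Finset.exists_min_image S (fun s => s.2 2 / 2) ⟨s', hs'⟩
  have h1 : ∑ s ∈ S, NN θ 2 ^ (s.2 2 / 2) *
      (C (C (c s)) * C X ^ s.1 * (∏ i ∈ Finset.univ.erase 2, NN θ i ^ (s.2 i / 2)) *
        ∏ i, TT τ i ^ (R - s.2 i / 2)) = 0 := by
    rw [← h]
    refine Finset.sum_congr rfl fun s _ => ?_
    rw [term, ← Finset.mul_prod_erase Finset.univ (fun i => NN θ i ^ (s.2 i / 2))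
      (Finset.mem_univ 2)]
    ring
  have h2 := peel (evalRingHom (C (θ 2))) (NN θ 2) (by simp [NN]) (NN_ne θ 2) S
    (fun s => s.2 2 / 2) _ h1 (s1.2 2 / 2) hmin
  set S1 := S.filter (fun s => s.2 2 / 2 = s1.2 2 / 2) with hS1
  have hr : ∀ s ∈ S1, ∀ i, s.2 i / 2 = s1.2 i / 2 := by
    intro s hs i
    obtain ⟨hsS, hse⟩ := Finset.mem_filter.1 hs
    have e0 := hA0 s hsS
    have e1 := hA1 s hsS
    have f0 := hA0 s1 hs1
    have f1 := hA1 s1 hs1
    have g1 := (hS s hsS).sum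
    have g2 := (hS s1 hs1).sum
    rw [Fin.sum_univ_four] at g1 g2
    fin_cases i
    · simpa using e0.trans f0.symm
    · simpa using e1.trans f1.symm
    · simpa using hse
    · show s.2 3 / 2 = s1.2 3 / 2
      omega
  set W : K[X] := (∏ i ∈ Finset.univ.erase 2, C (θ 2 - θ i) ^ (s1.2 i / 2)) *
    ∏ i, (X - C (τ i)) ^ (R - s1.2 i / 2) with hW
  have hW0 : W ≠ 0 := by
    refine mul_ne_zero ?_ ?_
    · refine Finset.prod_ne_zero_iff.2 fun i hi => pow_ne_zero _ (C_ne_zero.2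
        (sub_ne_zero.2 fun he => ?_))
      exact (Finset.mem_erase.1 hi).1 (hθ he).symm
    · exact Finset.prod_ne_zero_iff.2 fun i _ => pow_ne_zero _ (X_sub_C_ne_zero _)
  have h3 : (∑ s ∈ S1, C (c s) * X ^ s.1) * W = 0 := by
    rw [Finset.sum_mul, ← h2]
    refine Finset.sum_congr rfl fun s hs => ?_
    rw [map_mul, map_mul, map_mul, map_pow, map_prod, map_prod]
    have e1 : ∀ i, (evalRingHom (C (θ 2))) (NN θ i ^ (s.2 i / 2)) =
        C (θ 2 - θ i) ^ (s1.2 i / 2) := by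
      intro i; rw [hr s hs i]; simp [NN]
    have e2 : ∀ i, (evalRingHom (C (θ 2))) (TT τ i ^ (R - s.2 i / 2)) =
        (X - C (τ i)) ^ (R - s1.2 i / 2) := by
      intro i; rw [hr s hs i]; simp [TT]
    rw [Finset.prod_congr rfl (fun i _ => e1 i), Finset.prod_congr rfl (fun i _ => e2 i), hW]
    simp only [coe_evalRingHom, eval_C]
    ring
  rcases mul_eq_zero.1 h3 with h4 | h4
  · have h5 := congrArg (fun p => coeff p s1.1) h4
    simp only [finsetSum_coeff, coeff_C_mul, coeff_X_pow, coeff_zero] at h5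
    have hs11 : s1 ∈ S1 := Finset.mem_filter.2 ⟨hs1, rfl⟩
    rw [Finset.sum_eq_single s1] at h5
    · apply hc s1 hs1
      simpa using h5
    · intro s hs hne
      have : s1.1 ≠ s.1 := by
        intro he
        apply hne
        exact (hS s (Finset.mem_filter.1 hs).1).ext (hS s1 hs1) he.symm (hr s hs 0)
          (hr s hs 1) (hr s hs 2)
      simp [this]
    · intro hh
      exact absurd hs11 hh
  · exact hW0 h4

lemma pow_exp_eq {A : Type*} [CommRing A] [IsDomain A] {p U V : A} (hp : p ≠ 0)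
    (hU : ¬p ∣ U) (hV : ¬p ∣ V) {m n : ℕ} (h : p ^ m * U = p ^ n * V) : m = n := by
  rcases lt_trichotomy m n with h1 | h1 | h1
  · exfalso
    apply hU
    have h2 : p ^ m * U = p ^ m * (p ^ (n - m) * V) := by
      rw [h, ← mul_assoc, ← pow_add, Nat.add_sub_cancel' h1.le]
    rw [mul_left_cancel₀ (pow_ne_zero _ hp) h2]
    exact (dvd_pow_self p (by omega)).mul_right V
  · exact h1
  · exfalso
    apply hV
    have h2 : p ^ n * V = p ^ n * (p ^ (m - n) * U) := by
      rw [← h, ← mul_assoc, ← pow_add, Nat.add_sub_cancel' h1.le]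
    rw [mul_left_cancel₀ (pow_ne_zero _ hp) h2]
    exact (dvd_pow_self p (by omega)).mul_right U

lemma prime_TT (j : Fin 4) : Prime (TT τ j) := by
  unfold TT
  rw [Polynomial.prime_C_iff]
  exact prime_X_sub_C _

lemma not_sq (hτ : Function.Injective τ) (T : Finset (Fin 4)) (hT : T.Nonempty)
    (P Q : K[X][X]) (hQ : Q ≠ 0) :
    P ^ 2 * ∏ i ∈ T, TT τ i ≠ Q ^ 2 * ∏ i ∈ T, NN θ i := by
  classical
  intro h
  obtain ⟨j, hj⟩ := hT
  have hP : P ≠ 0 := by
    rintro rfl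
    have h1 : Q ^ 2 * ∏ i ∈ T, NN θ i ≠ 0 :=
      mul_ne_zero (pow_ne_zero _ hQ) (Finset.prod_ne_zero_iff.2 fun i _ => NN_ne θ i)
    apply h1
    rw [← h]; ring
  have hp := prime_TT τ j
  obtain ⟨P', hP', hPn⟩ := (FiniteMultiplicity.of_prime_left hp hP).exists_eq_pow_mul_and_not_dvd
  obtain ⟨Q', hQ', hQn⟩ := (FiniteMultiplicity.of_prime_left hp hQ).exists_eq_pow_mul_and_not_dvd
  set a := multiplicity (TT τ j) P
  set b := multiplicity (TT τ j) Q
  have hker : ∀ f : K[X][X], TT τ j ∣ f → evT (τ j) f = 0 := by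
    rintro f ⟨g, rfl⟩
    rw [map_mul, evT_TT]; simp
  have hTi : ∀ i ∈ T.erase j, ¬TT τ j ∣ TT τ i := by
    intro i hi hd
    have h1 := hker _ hd
    rw [evT_TT, C_eq_zero, sub_eq_zero] at h1
    exact (Finset.mem_erase.1 hi).1 (hτ h1).symm
  have hNi : ∀ i ∈ T, ¬TT τ j ∣ NN θ i := by
    intro i _ hd
    have h1 := hker _ hd
    rw [evT_NN] at h1
    exact X_sub_C_ne_zero _ h1
  have hU : ¬TT τ j ∣ P' ^ 2 * ∏ i ∈ T.erase j, TT τ i := by
    intro hd
    rcases hp.dvd_or_dvd hd with h1 | h1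
    · exact hPn (hp.dvd_of_dvd_pow h1)
    · obtain ⟨i, hi, h2⟩ := (Prime.dvd_finsetProd_iff hp _).1 h1
      exact hTi i hi h2
  have hV : ¬TT τ j ∣ Q' ^ 2 * ∏ i ∈ T, NN θ i := by
    intro hd
    rcases hp.dvd_or_dvd hd with h1 | h1
    · exact hQn (hp.dvd_of_dvd_pow h1)
    · obtain ⟨i, hi, h2⟩ := (Prime.dvd_finsetProd_iff hp _).1 h1
      exact hNi i hi h2
  have h1 : TT τ j ^ (2 * a + 1) * (P' ^ 2 * ∏ i ∈ T.erase j, TT τ i) =
      TT τ j ^ (2 * b) * (Q' ^ 2 * ∏ i ∈ T, NN θ i) := by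
    have h2 : TT τ j ^ (2 * a + 1) * (P' ^ 2 * ∏ i ∈ T.erase j, TT τ i) =
        (TT τ j ^ a * P') ^ 2 * (TT τ j * ∏ i ∈ T.erase j, TT τ i) := by ring
    have h3 : TT τ j ^ (2 * b) * (Q' ^ 2 * ∏ i ∈ T, NN θ i) =
        (TT τ j ^ b * Q') ^ 2 * ∏ i ∈ T, NN θ i := by ring
    rw [h2, h3, Finset.mul_prod_erase T _ hj, ← hP', ← hQ', h]
  have h4 := pow_exp_eq hp.ne_zero hU hV h1
  omega

/-- Kummer: the sixteen products of the `y i` are independent over the field generated by the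
range of `φ`. -/
theorem kummer_ind {E : Type*} [Field E] (h2 : (2 : E) ≠ 0) (hτ : Function.Injective τ)
    (φ : K[X][X] →+* E) (hφ : Function.Injective φ) (y : Fin 4 → E)
    (hy : ∀ i, y i ^ 2 * φ (TT τ i) = φ (NN θ i)) (c : Finset (Fin 4) → E)
    (hc : ∀ T, c T ∈ Subfield.closure (Set.range φ))
    (h : ∑ T ∈ (Finset.univ : Finset (Fin 4)).powerset, c T * ∏ i ∈ T, y i = 0) :
    ∀ T, c T = 0 := by
  classical
  have hφ0 : ∀ f : K[X][X], f ≠ 0 → φ f ≠ 0 := fun f hf h0 => hf (hφ (by rw [h0, map_zero]))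
  have hTT : ∀ i, φ (TT τ i) ≠ 0 := fun i => hφ0 _ (TT_ne τ i)
  have hNN : ∀ i, φ (NN θ i) ≠ 0 := fun i => hφ0 _ (NN_ne θ i)
  have hy2 : ∀ i, y i ^ 2 = φ (NN θ i) / φ (TT τ i) := fun i => by
    rw [eq_div_iff (hTT i)]; exact hy i
  set L0 : Subfield E := Subfield.closure (Set.range φ) with hL0
  have hmem : ∀ f, φ f ∈ L0 := fun f => Subfield.subset_closure ⟨f, rfl⟩
  have hyL : ∀ i, y i ^ 2 ∈ L0 := fun i => by
    rw [hy2]; exact L0.div_mem (hmem _) (hmem _)
  have hns : ∀ T ⊆ (Finset.univ : Finset (Fin 4)), T.Nonempty → ∀ x ∈ L0,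
      x ^ 2 ≠ ∏ i ∈ T, y i ^ 2 := by
    intro T _ hT x hx hxT
    obtain ⟨u, hu, v, hv, huv⟩ := Subfield.mem_closure_iff.1 hx
    have hcl : Subring.closure (Set.range φ) = φ.range := by
      rw [← RingHom.coe_range]; exact Subring.closure_eq _
    rw [hcl] at hu hv
    obtain ⟨P, rfl⟩ := hu
    obtain ⟨Q, rfl⟩ := hv
    have hprod : ∏ i ∈ T, y i ^ 2 = (∏ i ∈ T, φ (NN θ i)) / ∏ i ∈ T, φ (TT τ i) := by
      rw [← Finset.prod_div_distrib]
      exact Finset.prod_congr rfl fun i _ => hy2 i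
    have hN0 : ∏ i ∈ T, φ (NN θ i) ≠ 0 := Finset.prod_ne_zero_iff.2 fun i _ => hNN i
    have hT0 : ∏ i ∈ T, φ (TT τ i) ≠ 0 := Finset.prod_ne_zero_iff.2 fun i _ => hTT i
    have hQ0 : φ Q ≠ 0 := by
      intro h0
      rw [h0, div_zero] at huv
      rw [← huv, hprod] at hxT
      have := div_ne_zero hN0 hT0
      apply this
      rw [← hxT]; simp
    have hQ : Q ≠ 0 := by rintro rfl; exact hQ0 (map_zero _)
    apply not_sq τ θ hτ T hT P Q hQ
    apply hφ
    rw [map_mul, map_mul, map_pow, map_pow, map_prod, map_prod]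
    rw [← huv, hprod, div_pow, div_eq_div_iff (pow_ne_zero _ hQ0) hT0] at hxT
    rw [hxT]; ring
  obtain ⟨L, -, -, -, hind⟩ := kummer h2 L0 y hyL Finset.univ hns
  exact fun T => hind c hc h T (Finset.subset_univ _)

/-- **Lemma B** (independence of the forms on a beta-slice). -/
theorem indB {E : Type*} [Field E] (h2 : (2 : E) ≠ 0) (hτ : Function.Injective τ)
    (hθ : Function.Injective θ) (φ : K[X][X] →+* E) (hφ : Function.Injective φ) (y : Fin 4 → E)
    (hy : ∀ i, y i ^ 2 * φ (C (X - C (τ i))) = φ (X - C (C (θ i)))) (k : ℕ)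
    (S : Finset (ℕ × (Fin 4 → ℕ))) (hS : ∀ s ∈ S, ∑ j, s.2 j = k ∧ Adm s)
    (c : ℕ × (Fin 4 → ℕ) → K)
    (h : ∑ s ∈ S, φ (C (C (c s))) * φ (C X) ^ s.1 * ∏ i, y i ^ s.2 i = 0) :
    ∀ s ∈ S, c s = 0 := by
  classical
  have hφ0 : ∀ f : K[X][X], f ≠ 0 → φ f ≠ 0 := fun f hf h0 => hf (hφ (by rw [h0, map_zero]))
  have hTT : ∀ i, φ (TT τ i) ≠ 0 := fun i => hφ0 _ (TT_ne τ i)
  have hNN : ∀ i, φ (NN θ i) ≠ 0 := fun i => hφ0 _ (NN_ne θ i)
  have hy2 : ∀ i, y i ^ 2 = φ (NN θ i) / φ (TT τ i) := fun i => by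
    rw [eq_div_iff (hTT i)]; exact hy i
  set L0 : Subfield E := Subfield.closure (Set.range φ) with hL0
  have hmem : ∀ f, φ f ∈ L0 := fun f => Subfield.subset_closure ⟨f, rfl⟩
  have hyL : ∀ i, y i ^ 2 ∈ L0 := fun i => by
    rw [hy2]; exact L0.div_mem (hmem _) (hmem _)
  set S' := S.filter (fun s => c s ≠ 0) with hS'
  set par : ℕ × (Fin 4 → ℕ) → Finset (Fin 4) := fun s => Finset.univ.filter (fun i => s.2 i % 2 = 1)
    with hpar
  set cT : Finset (Fin 4) → E := fun T => ∑ s ∈ S' with par s = T,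
    φ (C (C (c s))) * φ (C X) ^ s.1 * ∏ i, (y i ^ 2) ^ (s.2 i / 2) with hcT
  have hcTmem : ∀ T, cT T ∈ L0 := fun T => L0.sum_mem fun s _ =>
    L0.mul_mem (L0.mul_mem (hmem _) (L0.pow_mem (hmem _) _))
      (L0.prod_mem fun i _ => L0.pow_mem (hyL i) _)
  have hmon : ∀ s : ℕ × (Fin 4 → ℕ), ∏ i, y i ^ s.2 i =
      (∏ i, (y i ^ 2) ^ (s.2 i / 2)) * ∏ i ∈ par s, y i := by
    intro s
    rw [hpar, Finset.prod_filter, ← Finset.prod_mul_distrib]
    refine Finset.prod_congr rfl fun i _ => ?_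
    rw [← pow_mul]
    split_ifs with h1
    · rw [← pow_succ]; congr 1; omega
    · rw [mul_one]; congr 1; omega
  have hrel : ∑ T ∈ (Finset.univ : Finset (Fin 4)).powerset, cT T * ∏ i ∈ T, y i = 0 := by
    have h3 : ∑ s ∈ S', φ (C (C (c s))) * φ (C X) ^ s.1 * ∏ i, y i ^ s.2 i = 0 := by
      rw [hS', Finset.sum_filter]
      refine Eq.trans (Finset.sum_congr rfl fun s _ => ?_) h
      split_ifs with h4
      · rfl
      · push Not at h4
        simp [h4]
    rw [← h3, ← Finset.sum_fiberwise_of_maps_to (s := S')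
      (t := (Finset.univ : Finset (Fin 4)).powerset) (g := par) (by simp)]
    refine Finset.sum_congr rfl fun T _ => ?_
    rw [hcT, Finset.sum_mul]
    refine Finset.sum_congr rfl fun s hs => ?_
    rw [hmon s, (Finset.mem_filter.1 hs).2]
    ring
  have hzero := kummer_ind τ θ h2 hτ φ hφ y hy cT hcTmem hrel
  have hempty : ∀ T : Finset (Fin 4), S'.filter (fun s => par s = T) = ∅ := by
    intro T
    set d : Fin 4 → ℕ := fun i => if i ∈ T then 1 else 0 with hd
    set R := (k - ∑ i, d i) / 2 with hR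
    have hgood : ∀ s ∈ S'.filter (fun s => par s = T), Good R k d s := by
      intro s hs
      obtain ⟨hs1, hs2⟩ := Finset.mem_filter.1 hs
      obtain ⟨hs3, -⟩ := Finset.mem_filter.1 hs1
      have hpd : ∀ j, s.2 j % 2 = d j := by
        intro j
        have h4 : j ∈ T ↔ s.2 j % 2 = 1 := by rw [← hs2, hpar]; simp
        rw [hd]
        by_cases h5 : j ∈ T
        · simp only [h5, if_true]; exact h4.1 h5
        · simp only [h5, if_false]
          have := mt h4.2 h5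
          omega
      refine ⟨hpd, ?_, (hS s hs3).1, (hS s hs3).2⟩
      have h4 := (hS s hs3).1
      have h5 : ∑ j, s.2 j = 2 * (∑ j, s.2 j / 2) + ∑ j, d j := by
        rw [Finset.mul_sum, ← Finset.sum_add_distrib]
        refine Finset.sum_congr rfl fun j _ => ?_
        rw [← hpd j]; omega
      omega
    refine step2 τ θ hτ hθ R k d _ hgood c
      (fun s hs => (Finset.mem_filter.1 (Finset.mem_filter.1 hs).1).2) ?_
    apply hφ
    rw [map_sum, map_zero]
    have h4 : (∑ s ∈ S' with par s = T,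
        φ (C (C (c s))) * φ (C X) ^ s.1 * ∏ i, (y i ^ 2) ^ (s.2 i / 2)) = 0 :=
      hzero T
    have h5 : (∏ i, φ (TT τ i) ^ R) * (∑ s ∈ S' with par s = T,
        φ (C (C (c s))) * φ (C X) ^ s.1 * ∏ i, (y i ^ 2) ^ (s.2 i / 2)) = 0 := by
      rw [h4, mul_zero]
    rw [Finset.mul_sum] at h5
    rw [← h5]
    refine Finset.sum_congr rfl fun s hs => ?_
    have hg := hgood s hs
    rw [term, map_mul, map_mul, map_mul, map_pow, map_prod, map_prod]
    have h6 : (∏ i, φ (TT τ i) ^ R) * ∏ i, (y i ^ 2) ^ (s.2 i / 2) =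
        (∏ i, φ (NN θ i ^ (s.2 i / 2))) * ∏ i, φ (TT τ i ^ (R - s.2 i / 2)) := by
      rw [← Finset.prod_mul_distrib, ← Finset.prod_mul_distrib]
      refine Finset.prod_congr rfl fun i _ => ?_
      have h7 : R = (R - s.2 i / 2) + s.2 i / 2 := (Nat.sub_add_cancel (hg.le i)).symm
      rw [hy2, div_pow, map_pow, map_pow]
      nth_rewrite 1 [h7]
      rw [pow_add]
      have := pow_ne_zero (s.2 i / 2) (hTT i)
      field_simp
    linear_combination -(φ (C (C (c s))) * φ (C X) ^ s.1) * h6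
  intro s hs
  by_contra hne
  have h3 : s ∈ S'.filter (fun s' => par s' = par s) :=
    Finset.mem_filter.2 ⟨Finset.mem_filter.2 ⟨hs, hne⟩, rfl⟩
  rw [hempty (par s)] at h3
  exact absurd h3 (Finset.notMem_empty s)

end Two

instance : DecidablePred Adm := fun s => by unfold Adm; infer_instance

/-- The index set of Lemma B: pairs `(a, m)` with `a ≤ i`, `|m| = k`, `Adm`. -/
def idxB (i k : ℕ) : Finset (ℕ × (Fin 4 → ℕ)) :=
  (Finset.range (i + 1) ×ˢ Finset.piAntidiag Finset.univ k).filter Adm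

lemma mem_idxB {i k : ℕ} {s : ℕ × (Fin 4 → ℕ)} :
    s ∈ idxB i k ↔ s.1 ≤ i ∧ ∑ j, s.2 j = k ∧ Adm s := by
  simp [idxB, Finset.mem_piAntidiag, and_assoc]

private lemma card_fix (x y k : ℕ) :
    ((Finset.piAntidiag Finset.univ k).filter (fun m : Fin 4 → ℕ => m 0 = x ∧ m 1 = y)).card =
      k + 1 - x - y := by
  classical
  rw [← Finset.card_range (k + 1 - x - y)]
  symm
  refine Finset.card_nbij (fun j => ![x, y, j, k - x - y - j]) ?_ ?_ ?_
  · intro j hj
    have hj' := Finset.mem_range.1 hj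
    refine Finset.mem_coe.2 (Finset.mem_filter.2 ⟨Finset.mem_piAntidiag.2 ⟨?_, by simp⟩,
      by simp, by simp⟩)
    rw [Fin.sum_univ_four]
    show x + y + j + (k - x - y - j) = k
    omega
  · intro j _ j' _ h
    have := congrFun h 2
    simpa using this
  · intro m hm
    obtain ⟨h1, h2, h3⟩ := Finset.mem_filter.1 (Finset.mem_coe.1 hm)
    have h4 := (Finset.mem_piAntidiag.1 h1).1
    rw [Fin.sum_univ_four] at h4
    refine ⟨m 2, by simp only [Finset.coe_range, Set.mem_Iio]; omega, ?_⟩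
    funext j
    fin_cases j
    · exact h2.symm
    · exact h3.symm
    · rfl
    · show k - x - y - m 2 = m 3
      omega

private lemma card_pred (k : ℕ) (P : ℕ → ℕ → Prop) [∀ x y, Decidable (P x y)] :
    ((Finset.piAntidiag Finset.univ k).filter (fun m : Fin 4 → ℕ => P (m 0) (m 1))).card =
      ∑ z ∈ (Finset.range (k + 1) ×ˢ Finset.range (k + 1)).filter (fun z => P z.1 z.2),
        (k + 1 - z.1 - z.2) := by
  classical
  rw [Finset.card_eq_sum_card_fiberwise (f := fun m : Fin 4 → ℕ => (m 0, m 1))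
    (t := (Finset.range (k + 1) ×ˢ Finset.range (k + 1)).filter (fun z => P z.1 z.2))]
  · refine Finset.sum_congr rfl fun z hz => ?_
    rw [← card_fix z.1 z.2 k, Finset.filter_filter]
    congr 1
    ext m
    simp only [Finset.mem_filter]
    constructor
    · rintro ⟨h1, -, h3⟩
      rw [Prod.ext_iff] at h3
      exact ⟨h1, h3⟩
    · rintro ⟨h1, h2, h3⟩
      refine ⟨h1, ?_, Prod.ext h2 h3⟩
      rw [h2, h3]
      exact (Finset.mem_filter.1 hz).2
  · intro m hm
    obtain ⟨h1, h2⟩ := Finset.mem_filter.1 (Finset.mem_coe.1 hm)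
    have h4 := (Finset.mem_piAntidiag.1 h1).1
    rw [Fin.sum_univ_four] at h4
    refine Finset.mem_coe.2 (Finset.mem_filter.2 ⟨Finset.mem_product.2 ⟨?_, ?_⟩, h2⟩)
    · rw [Finset.mem_range]; show m 0 < k + 1; omega
    · rw [Finset.mem_range]; show m 1 < k + 1; omega

private lemma sum_sub (n : ℕ) : 2 * ∑ x ∈ Finset.range n, (n - x) = n * (n + 1) := by
  induction n with
  | zero => simp
  | succ n ih =>
    rw [Finset.sum_range_succ]
    have h1 : ∑ x ∈ Finset.range n, (n + 1 - x) = (∑ x ∈ Finset.range n, (n - x)) + n := by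
      have h2 : ∀ x ∈ Finset.range n, n + 1 - x = (n - x) + 1 := by
        intro x hx; have := Finset.mem_range.1 hx; omega
      rw [Finset.sum_congr rfl h2, Finset.sum_add_distrib]; simp
    rw [h1]
    have h3 : n + 1 - n = 1 := by omega
    rw [h3]
    nlinarith [ih]

private lemma card_small (k : ℕ) (hk : 1 ≤ k) :
    ((Finset.piAntidiag Finset.univ k).filter
      (fun m : Fin 4 → ℕ => m 0 ≤ 1 ∧ m 1 ≤ 1)).card = 4 * k := by
  rw [card_pred k (fun x y => x ≤ 1 ∧ y ≤ 1)]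
  have h1 : (Finset.range (k + 1) ×ˢ Finset.range (k + 1)).filter
      (fun z : ℕ × ℕ => z.1 ≤ 1 ∧ z.2 ≤ 1) = Finset.range 2 ×ˢ Finset.range 2 := by
    ext z
    simp only [Finset.mem_filter, Finset.mem_product, Finset.mem_range]
    omega
  rw [h1, Finset.sum_product]
  simp only [Finset.sum_range_succ, Finset.sum_range_zero]
  omega

private lemma card_left (k : ℕ) (hk : 1 ≤ k) :
    ((Finset.piAntidiag Finset.univ k).filter (fun m : Fin 4 → ℕ => m 0 ≤ 1)).card =
      (k + 1) ^ 2 := by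
  rw [card_pred k (fun x _ => x ≤ 1)]
  have h1 : (Finset.range (k + 1) ×ˢ Finset.range (k + 1)).filter
      (fun z : ℕ × ℕ => z.1 ≤ 1) = Finset.range 2 ×ˢ Finset.range (k + 1) := by
    ext z
    simp only [Finset.mem_filter, Finset.mem_product, Finset.mem_range]
    omega
  rw [h1, Finset.sum_product, Finset.sum_range_succ, Finset.sum_range_one]
  have h2 := sum_sub (k + 1)
  have h3 := sum_sub k
  have h4 : ∑ x ∈ Finset.range (k + 1), (k + 1 - 0 - x) = ∑ x ∈ Finset.range (k + 1), (k + 1 - x) :=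
    rfl
  have h5 : ∑ x ∈ Finset.range (k + 1), (k + 1 - 1 - x) = ∑ x ∈ Finset.range k, (k - x) := by
    rw [Finset.sum_range_succ]
    have h6 : k + 1 - 1 - k = 0 := by omega
    rw [h6, add_zero]
    exact Finset.sum_congr rfl fun x _ => by congr 1
  rw [h4, h5]
  nlinarith [h2, h3]

private lemma card_right (k : ℕ) (hk : 1 ≤ k) :
    ((Finset.piAntidiag Finset.univ k).filter (fun m : Fin 4 → ℕ => m 1 ≤ 1)).card =
      (k + 1) ^ 2 := by
  rw [card_pred k (fun _ y => y ≤ 1), ← card_left k hk, card_pred k (fun x _ => x ≤ 1)]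
  refine Finset.sum_nbij' (fun z => (z.2, z.1)) (fun z => (z.2, z.1)) ?_ ?_ ?_ ?_ ?_
  · intro z hz
    simp only [Finset.mem_filter, Finset.mem_product, Finset.mem_range] at hz ⊢
    omega
  · intro z hz
    simp only [Finset.mem_filter, Finset.mem_product, Finset.mem_range] at hz ⊢
    omega
  · intro z _; rfl
  · intro z _; rfl
  · intro z _
    show k + 1 - z.1 - z.2 = k + 1 - z.2 - z.1
    omega

private lemma card_zero (k : ℕ) (hk : 1 ≤ k) :
    ((Finset.piAntidiag Finset.univ k).filter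
      (fun m : Fin 4 → ℕ => ¬(2 ≤ m 0 ∧ 2 ≤ m 1))).card = 2 * k ^ 2 + 2 := by
  classical
  have h1 : (Finset.piAntidiag Finset.univ k).filter
      (fun m : Fin 4 → ℕ => ¬(2 ≤ m 0 ∧ 2 ≤ m 1)) =
      (Finset.piAntidiag Finset.univ k).filter (fun m : Fin 4 → ℕ => m 0 ≤ 1) ∪
      (Finset.piAntidiag Finset.univ k).filter (fun m : Fin 4 → ℕ => m 1 ≤ 1) := by
    rw [← Finset.filter_or]
    refine Finset.filter_congr fun m _ => ?_
    omega
  have h2 : (Finset.piAntidiag Finset.univ k).filter (fun m : Fin 4 → ℕ => m 0 ≤ 1) ∩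
      (Finset.piAntidiag Finset.univ k).filter (fun m : Fin 4 → ℕ => m 1 ≤ 1) =
      (Finset.piAntidiag Finset.univ k).filter (fun m : Fin 4 → ℕ => m 0 ≤ 1 ∧ m 1 ≤ 1) := by
    rw [← Finset.filter_and]
  have h3 := Finset.card_union_add_card_inter
    ((Finset.piAntidiag Finset.univ k).filter (fun m : Fin 4 → ℕ => m 0 ≤ 1))
    ((Finset.piAntidiag Finset.univ k).filter (fun m : Fin 4 → ℕ => m 1 ≤ 1))
  rw [← h1, h2, card_small k hk, card_left k hk, card_right k hk] at h3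
  nlinarith [h3]

/-- The number of functions in Lemma B. -/
theorem card_idxB (i k : ℕ) (hk : 1 ≤ k) : (idxB i k).card = 2 + 4 * i * k + 2 * k ^ 2 := by
  classical
  have h1 : (idxB i k).card = ∑ a ∈ Finset.range (i + 1),
      ((Finset.piAntidiag Finset.univ k).filter (fun m : Fin 4 → ℕ => Adm (a, m))).card := by
    rw [idxB, Finset.card_eq_sum_card_fiberwise (f := fun s : ℕ × (Fin 4 → ℕ) => s.1)
      (t := Finset.range (i + 1))]
    · refine Finset.sum_congr rfl fun a ha => ?_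
      refine Finset.card_nbij' (fun s => s.2) (fun m => (a, m)) ?_ ?_ ?_ ?_
      · intro s hs
        simp only [Finset.coe_filter, Finset.mem_filter, Finset.mem_product, Set.mem_ofPred_eq]
          at hs ⊢
        obtain ⟨⟨⟨-, h2⟩, h3⟩, h4⟩ := hs
        refine ⟨h2, ?_⟩
        have h5 : (a, s.2) = s := Prod.ext h4.symm rfl
        rw [h5]; exact h3
      · intro m hm
        simp only [Finset.coe_filter, Finset.mem_filter, Finset.mem_product, Set.mem_ofPred_eq]
          at hm ⊢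
        exact ⟨⟨⟨ha, hm.1⟩, hm.2⟩, trivial⟩
      · intro s hs
        simp only [Finset.coe_filter, Finset.mem_filter, Set.mem_ofPred_eq] at hs
        exact Prod.ext hs.2.symm rfl
      · intro m _; rfl
    · intro s hs
      have h2 := (Finset.mem_filter.1 (Finset.mem_coe.1 hs)).1
      exact Finset.mem_coe.2 (Finset.mem_product.1 h2).1
  rw [h1, Finset.sum_range_succ']
  have h2 : ((Finset.piAntidiag Finset.univ k).filter
      (fun m : Fin 4 → ℕ => Adm (0, m))).card = 2 * k ^ 2 + 2 := by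
    rw [← card_zero k hk]
    congr 1
    refine Finset.filter_congr fun m _ => ?_
    simp [Adm]
  have h3 : ∀ a ∈ Finset.range i, ((Finset.piAntidiag Finset.univ k).filter
      (fun m : Fin 4 → ℕ => Adm (a + 1, m))).card = 4 * k := by
    intro a _
    rw [← card_small k hk]
    congr 1
    refine Finset.filter_congr fun m _ => ?_
    simp only [Adm]
    omega
  rw [h2, Finset.sum_congr rfl h3, Finset.sum_const, Finset.card_range, smul_eq_mul]
  ring

end Pool.Agent.SQF.IndB
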