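import Mathlib
import Pool.Agent.Lib.SQF.IndB

/-!
# Points of a beta-slice, specialisation of relations, dimensions (helper72)

A point of a slice with values in a commutative `K`-algebra `E` is `t, n` and `y : Fin 4 → E`
with `y i ^ 2 * (t - τ i) = n - θ i`, all `t - τ i` being units.  The point is generic if `t, n`
are algebraically independent over `K` and `E` is a field.

* `Pt.spec` : a relation between polynomials in `t, y` (coefficients in `K`) which holds at a
  generic point holds at every point; `Pt.spec2` the same with coefficients in `K[t][n]`.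
* `finrank_V` : the space of `(r, s)`-forms (degree `r` in `y`, degree at most `s` in `t`) at a
  generic point has dimension `2 + 4 s r + 2 r ^ 2`; `finrank_V_le` : at most this at every point.
* `exists_generic` : generic points exist, over an algebraically closed field.
-/

open Polynomial Finset

namespace Pool.Agent.SQF.LamA

open Pool.Agent.SQF.IndB

universe u v w

section Defs

variable {K : Type u} [Field K] (τ θ : Fin 4 → K)

/-- A point of the slice `(τ, θ)` with values in a commutative `K`-algebra. -/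
structure Pt (E : Type v) [CommRing E] [Algebra K E] where
  /-- the slice coordinate -/
  t : E
  /-- the integer `n` -/
  n : E
  /-- the four square roots -/
  y : Fin 4 → E
  hy : ∀ i, y i ^ 2 * (t - algebraMap K E (τ i)) = n - algebraMap K E (θ i)
  ht : ∀ i, IsUnit (t - algebraMap K E (τ i))

end Defs

section Basic

variable {K : Type u} [Field K] {τ θ : Fin 4 → K} {E : Type v} [CommRing E] [Algebra K E]

/-- evaluation of polynomials in `t, n`. -/
noncomputable def Pt.ev (P : Pt τ θ E) : K[X][X] →+* E :=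
  eval₂RingHom (eval₂RingHom (algebraMap K E) P.t) P.n

lemma Pt.ev_C_C (P : Pt τ θ E) (c : K) : P.ev (C (C c)) = algebraMap K E c := by
  simp [Pt.ev]

lemma Pt.ev_C_X (P : Pt τ θ E) : P.ev (C X) = P.t := by
  simp [Pt.ev]

lemma Pt.ev_X (P : Pt τ θ E) : P.ev X = P.n := by
  simp [Pt.ev]

lemma Pt.ev_C (P : Pt τ θ E) (f : K[X]) : P.ev (C f) = aeval P.t f := by
  simp [Pt.ev, aeval_def]

lemma Pt.ev_TT (P : Pt τ θ E) (i : Fin 4) : P.ev (TT τ i) = P.t - algebraMap K E (τ i) := by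
  simp [Pt.ev, TT]

lemma Pt.ev_NN (P : Pt τ θ E) (i : Fin 4) : P.ev (NN θ i) = P.n - algebraMap K E (θ i) := by
  simp [Pt.ev, NN]

lemma Pt.hy' (P : Pt τ θ E) (i : Fin 4) : P.y i ^ 2 * P.ev (TT τ i) = P.ev (NN θ i) := by
  rw [P.ev_TT, P.ev_NN]; exact P.hy i

/-- a generic point : `t, n` are algebraically independent over `K`. -/
def Pt.Generic (P : Pt τ θ E) : Prop := Function.Injective P.ev

/-- evaluation of polynomials in `y` with coefficients in `K[t][n]`. -/
noncomputable def Pt.ev2 (P : Pt τ θ E) : MvPolynomial (Fin 4) K[X][X] →+* E :=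
  MvPolynomial.eval₂Hom P.ev P.y

/-- polynomials in `t` (`none`) and `y` (`some i`). -/
abbrev Mp (K : Type u) [Field K] := MvPolynomial (Option (Fin 4)) K

/-- evaluation of polynomials in `t, y`. -/
noncomputable def Pt.av (P : Pt τ θ E) : Mp K →ₐ[K] E :=
  MvPolynomial.aeval (fun o : Option (Fin 4) => o.elim P.t P.y)

/-- the monomial `t ^ a * y ^ m`. -/
noncomputable def mono (x : ℕ × (Fin 4 → ℕ)) : Mp K :=
  MvPolynomial.X none ^ x.1 * ∏ i, MvPolynomial.X (some i) ^ x.2 i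

lemma Pt.av_mono (P : Pt τ θ E) (x : ℕ × (Fin 4 → ℕ)) :
    P.av (mono x) = P.t ^ x.1 * ∏ i, P.y i ^ x.2 i := by
  simp [Pt.av, mono]

/-- the inclusion of polynomials in `t, y` in polynomials in `y` over `K[t][n]`. -/
noncomputable def emb : Mp K →+* MvPolynomial (Fin 4) K[X][X] :=
  MvPolynomial.eval₂Hom ((MvPolynomial.C).comp ((C : K[X] →+* K[X][X]).comp C))
    (fun o : Option (Fin 4) => o.elim (MvPolynomial.C (C X)) MvPolynomial.X)

lemma Pt.ev2_emb (P : Pt τ θ E) (F : Mp K) : P.ev2 (emb F) = P.av F := by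
  have : (P.ev2.comp emb : Mp K →+* E) = (P.av : Mp K →+* E) := by
    apply MvPolynomial.ringHom_ext
    · intro c
      simp [Pt.ev2, emb, Pt.av, Pt.ev_C_C]
    · intro o
      cases o with
      | none => simp [Pt.ev2, emb, Pt.av, Pt.ev_C_X]
      | some i => simp [Pt.ev2, emb, Pt.av]
  exact congrArg (fun f : Mp K →+* E => f F) this

/-- parity of an exponent. -/
def par (m : Fin 4 →₀ ℕ) : Finset (Fin 4) := Finset.univ.filter (fun i => m i % 2 = 1)

/-- coefficient of a parity class after clearing denominators. -/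
noncomputable def cls (τ θ : Fin 4 → K) (F : MvPolynomial (Fin 4) K[X][X]) (T : Finset (Fin 4)) :
    K[X][X] :=
  ∑ m ∈ F.support with par m = T,
    MvPolynomial.coeff m F * ∏ i, (TT τ i ^ (F.totalDegree - m i / 2) * NN θ i ^ (m i / 2))

lemma Pt.clear (P : Pt τ θ E) (F : MvPolynomial (Fin 4) K[X][X]) :
    (∏ i, P.ev (TT τ i)) ^ F.totalDegree * P.ev2 F =
      ∑ T ∈ (Finset.univ : Finset (Fin 4)).powerset, P.ev (cls τ θ F T) * ∏ i ∈ T, P.y i := by
  classical
  have h1 : P.ev2 F = ∑ m ∈ F.support, P.ev (MvPolynomial.coeff m F) * ∏ i, P.y i ^ m i := by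
    unfold Pt.ev2
    rw [MvPolynomial.coe_eval₂Hom, MvPolynomial.eval₂_eq']
  have hmon : ∀ m ∈ F.support, (∏ i, P.ev (TT τ i)) ^ F.totalDegree *
      (P.ev (MvPolynomial.coeff m F) * ∏ i, P.y i ^ m i) =
      P.ev (MvPolynomial.coeff m F *
        ∏ i, (TT τ i ^ (F.totalDegree - m i / 2) * NN θ i ^ (m i / 2))) * ∏ i ∈ par m, P.y i := by
    intro m hm
    have hle : ∀ i, m i / 2 ≤ F.totalDegree := by
      intro i
      have h2 : (m.sum fun _ e => e) ≤ F.totalDegree := MvPolynomial.le_totalDegree hm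
      have h3 : m i ≤ m.sum fun _ e => e := by
        rw [Finsupp.sum_fintype _ _ (fun _ => rfl)]
        exact Finset.single_le_sum (f := fun i => m i) (fun _ _ => Nat.zero_le _)
          (Finset.mem_univ i)
      omega
    have hpar : ∏ i ∈ par m, P.y i = ∏ i, P.y i ^ (m i % 2) := by
      unfold par
      rw [Finset.prod_filter]
      refine Finset.prod_congr rfl fun i _ => ?_
      rcases Nat.mod_two_eq_zero_or_one (m i) with h | h <;> simp [h]
    rw [hpar, map_mul, map_prod, ← Finset.prod_pow, mul_left_comm, ← Finset.prod_mul_distrib,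
      mul_assoc, ← Finset.prod_mul_distrib]
    congr 1
    refine Finset.prod_congr rfl fun i _ => ?_
    rw [map_mul, map_pow, map_pow, ← P.hy' i]
    obtain ⟨j, hj⟩ := Nat.exists_eq_add_of_le (hle i)
    have h4 : m i = 2 * (m i / 2) + m i % 2 := by omega
    set q := m i / 2 with hq
    have h5 : F.totalDegree - q = j := by omega
    rw [h5, hj]
    conv_lhs => rw [h4]
    rw [pow_add, pow_add, pow_mul, mul_pow]
    ring
  rw [h1, Finset.mul_sum, Finset.sum_congr rfl hmon,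
    ← Finset.sum_fiberwise_of_maps_to (s := F.support)
      (t := (Finset.univ : Finset (Fin 4)).powerset) (g := par)
      (fun m _ => Finset.mem_powerset.2 (Finset.subset_univ _))]
  refine Finset.sum_congr rfl fun T _ => ?_
  unfold cls
  rw [map_sum, Finset.sum_mul]
  refine Finset.sum_congr rfl fun m hm => ?_
  rw [(Finset.mem_filter.1 hm).2]

end Basic

section Spec

variable {K : Type u} [Field K] {τ θ : Fin 4 → K} {Ω : Type v} [Field Ω] [Algebra K Ω]
  {E : Type w} [CommRing E] [Algebra K E]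

/-- at a generic point a relation holds in every parity class separately. -/
theorem Pt.cls_eq_zero (h2 : (2 : K) ≠ 0) (hτ : Function.Injective τ) (G : Pt τ θ Ω)
    (hG : G.Generic) (F : MvPolynomial (Fin 4) K[X][X]) (h : G.ev2 F = 0) (T : Finset (Fin 4)) :
    cls τ θ F T = 0 := by
  have h2' : (2 : Ω) ≠ 0 := by
    have h3 : (2 : Ω) = algebraMap K Ω 2 := (map_ofNat (algebraMap K Ω) 2).symm
    rw [h3]
    exact (_root_.map_ne_zero _).2 h2
  have h4 := G.clear F
  rw [h, mul_zero] at h4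
  have h5 := kummer_ind τ θ h2' hτ G.ev hG G.y G.hy' (fun T => G.ev (cls τ θ F T))
    (fun T => Subfield.subset_closure ⟨_, rfl⟩) h4.symm T
  exact hG (by rw [map_zero]; exact h5)

/-- **Specialisation** with coefficients in `K[t][n]`. -/
theorem Pt.spec2 (h2 : (2 : K) ≠ 0) (hτ : Function.Injective τ) (G : Pt τ θ Ω)
    (hG : G.Generic) (P : Pt τ θ E) (F : MvPolynomial (Fin 4) K[X][X]) (h : G.ev2 F = 0) :
    P.ev2 F = 0 := by
  have h4 := P.clear F
  rw [Finset.sum_eq_zero (fun T _ => by rw [G.cls_eq_zero h2 hτ hG F h, map_zero, zero_mul])]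
    at h4
  have h5 : IsUnit ((∏ i, P.ev (TT τ i)) ^ F.totalDegree) := by
    refine IsUnit.pow _ ?_
    rw [IsUnit.prod_univ_iff]
    intro i
    rw [P.ev_TT]
    exact P.ht i
  exact h5.mul_right_eq_zero.1 h4

/-- **Specialisation**: a relation between `t, y` at a generic point holds at every point. -/
theorem Pt.spec (h2 : (2 : K) ≠ 0) (hτ : Function.Injective τ) (G : Pt τ θ Ω)
    (hG : G.Generic) (P : Pt τ θ E) (F : Mp K) (h : G.av F = 0) : P.av F = 0 := by
  rw [← Pt.ev2_emb] at h ⊢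
  exact G.spec2 h2 hτ hG P _ h

end Spec

section Dim

variable {K : Type u} [Field K] {τ θ : Fin 4 → K} {E : Type v} [CommRing E] [Algebra K E]

/-- the exponents of the `(r, s)`-forms. -/
def idx (r s : ℕ) : Finset (ℕ × (Fin 4 → ℕ)) :=
  Finset.range (s + 1) ×ˢ Finset.piAntidiag Finset.univ r

lemma mem_idx {r s : ℕ} {x : ℕ × (Fin 4 → ℕ)} : x ∈ idx r s ↔ x.1 ≤ s ∧ ∑ j, x.2 j = r := by
  simp [idx, Finset.mem_piAntidiag]

/-- the space of `(r, s)`-forms, as polynomials. -/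
noncomputable def VV (K : Type u) [Field K] (r s : ℕ) : Submodule K (Mp K) :=
  Submodule.span K ((fun x => (mono x : Mp K)) '' (idx r s : Set (ℕ × (Fin 4 → ℕ))))

/-- the space of `(r, s)`-forms, as elements of `E`. -/
noncomputable def Pt.V (P : Pt τ θ E) (r s : ℕ) : Submodule K E :=
  (VV K r s).map P.av.toLinearMap

lemma mono_mem_VV {r s : ℕ} {x : ℕ × (Fin 4 → ℕ)} (h1 : x.1 ≤ s) (h2 : ∑ j, x.2 j = r) :
    (mono x : Mp K) ∈ VV K r s :=
  Submodule.subset_span ⟨x, mem_idx.2 ⟨h1, h2⟩, rfl⟩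

lemma Pt.V_eq_span (P : Pt τ θ E) (r s : ℕ) :
    P.V r s = Submodule.span K
      ((fun x => P.av (mono x)) '' (idx r s : Set (ℕ × (Fin 4 → ℕ)))) := by
  unfold Pt.V VV
  rw [Submodule.map_span, Set.image_image]
  rfl

lemma mono_mul (x x' : ℕ × (Fin 4 → ℕ)) :
    (mono x : Mp K) * mono x' = mono (x.1 + x'.1, x.2 + x'.2) := by
  unfold mono
  simp only [Pi.add_apply, pow_add, Finset.prod_mul_distrib]
  ring

lemma VV_mul (r s r' s' : ℕ) : VV K r s * VV K r' s' ≤ VV K (r + r') (s + s') := by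
  unfold VV
  rw [Submodule.span_mul_span, Submodule.span_le]
  rintro _ ⟨_, ⟨x, hx, rfl⟩, _, ⟨x', hx', rfl⟩, rfl⟩
  obtain ⟨h1, h2⟩ := mem_idx.1 hx
  obtain ⟨h3, h4⟩ := mem_idx.1 hx'
  refine Submodule.subset_span ⟨(x.1 + x'.1, x.2 + x'.2), mem_idx.2 ⟨?_, ?_⟩, ?_⟩
  · simp only; omega
  · simp only [Pi.add_apply, Finset.sum_add_distrib, h2, h4]
  · exact (mono_mul x x').symm

lemma VV_mono {r s s' : ℕ} (h : s ≤ s') : VV K r s ≤ VV K r s' := by
  unfold VV
  refine Submodule.span_mono (Set.image_mono ?_)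
  intro x hx
  obtain ⟨h1, h2⟩ := mem_idx.1 hx
  exact mem_idx.2 ⟨h1.trans h, h2⟩

lemma VV_mul_mem {r s r' s' : ℕ} {F H : Mp K} (hF : F ∈ VV K r s) (hH : H ∈ VV K r' s') :
    F * H ∈ VV K (r + r') (s + s') :=
  VV_mul r s r' s' (Submodule.mul_mem_mul hF hH)

lemma one_mem_VV (s : ℕ) : (1 : Mp K) ∈ VV K 0 s := by
  have h : (mono (0, fun _ => 0) : Mp K) = 1 := by simp [mono]
  rw [← h]
  exact mono_mem_VV (Nat.zero_le _) (by simp)

lemma VV_pow_mem {r s : ℕ} {F : Mp K} (hF : F ∈ VV K r s) (k : ℕ) :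
    F ^ k ∈ VV K (k * r) (k * s) := by
  induction k with
  | zero => simpa using one_mem_VV 0
  | succ k ih =>
    rw [pow_succ, Nat.succ_mul, Nat.succ_mul]
    exact VV_mul_mem ih hF

lemma t_mem_VV : (MvPolynomial.X none : Mp K) ∈ VV K 0 1 := by
  have h : (mono (1, fun _ => 0) : Mp K) = MvPolynomial.X none := by simp [mono]
  rw [← h]
  exact mono_mem_VV le_rfl (by simp)

lemma y_mem_VV (i : Fin 4) : (MvPolynomial.X (some i) : Mp K) ∈ VV K 1 0 := by
  have h : (mono (0, Pi.single i 1) : Mp K) = MvPolynomial.X (some i) := by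
    unfold mono
    rw [Finset.prod_eq_single i]
    · simp
    · intro j _ hj
      simp [Pi.single_eq_of_ne hj]
    · simp
  rw [← h]
  exact mono_mem_VV le_rfl (by simp)

lemma Pt.mem_V (P : Pt τ θ E) {r s : ℕ} {F : Mp K} (hF : F ∈ VV K r s) : P.av F ∈ P.V r s :=
  Submodule.mem_map_of_mem hF

lemma Pt.V_mul_mem (P : Pt τ θ E) {r s r' s' : ℕ} {x z : E} (hx : x ∈ P.V r s)
    (hz : z ∈ P.V r' s') : x * z ∈ P.V (r + r') (s + s') := by
  obtain ⟨F, hF, rfl⟩ := Submodule.mem_map.1 hx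
  obtain ⟨H, hH, rfl⟩ := Submodule.mem_map.1 hz
  refine Submodule.mem_map.2 ⟨F * H, VV_mul_mem hF hH, ?_⟩
  simp

lemma Pt.V_mono (P : Pt τ θ E) {r s s' : ℕ} (h : s ≤ s') : P.V r s ≤ P.V r s' :=
  Submodule.map_mono (VV_mono h)

instance (P : Pt τ θ E) (r s : ℕ) : Module.Finite K (P.V r s) := by
  rw [P.V_eq_span]
  exact Module.Finite.span_of_finite K ((Finset.finite_toSet _).image _)

/-- the value of a monomial, with separate exponents. -/
def Pt.M (P : Pt τ θ E) (a p q u v : ℕ) : E :=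
  P.t ^ a * (P.y 0 ^ p * P.y 1 ^ q * P.y 2 ^ u * P.y 3 ^ v)

lemma Pt.av_mono' (P : Pt τ θ E) (x : ℕ × (Fin 4 → ℕ)) :
    P.av (mono x) = P.M x.1 (x.2 0) (x.2 1) (x.2 2) (x.2 3) := by
  rw [P.av_mono, Fin.prod_univ_four]
  rfl

lemma Pt.M_eq (P : Pt τ θ E) (a p q u v : ℕ) :
    P.M a p q u v = P.av (mono (a, ![p, q, u, v])) := by
  rw [P.av_mono']
  simp

/-- the key reduction. -/
lemma Pt.M_mem (hτ : Function.Injective τ) (hθ : Function.Injective θ) (P : Pt τ θ E) (r s : ℕ) :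
    ∀ N a p q u v : ℕ, a ≤ s → p + q + u + v = r → a + p + q ≤ N →
      P.M a p q u v ∈ Submodule.span K
        ((fun x => P.av (mono x)) '' (idxB s r : Set (ℕ × (Fin 4 → ℕ)))) := by
  set W := Submodule.span K
        ((fun x => P.av (mono x)) '' (idxB s r : Set (ℕ × (Fin 4 → ℕ)))) with hW
  have hadm : ∀ a p q u v : ℕ, a ≤ s → p + q + u + v = r →
      ¬(2 ≤ p ∧ 2 ≤ q) → (a = 0 ∨ (p ≤ 1 ∧ q ≤ 1)) → P.M a p q u v ∈ W := by
    intro a p q u v h1 h2 h3 h4
    rw [P.M_eq]
    refine Submodule.subset_span ⟨(a, ![p, q, u, v]), ?_, rfl⟩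
    rw [Finset.mem_coe, mem_idxB]
    refine ⟨h1, ?_, ?_, ?_⟩
    · rw [Fin.sum_univ_four]; simpa using h2
    · simpa using h3
    · simpa using h4
  have hd : θ 2 - θ 3 ≠ 0 := sub_ne_zero.2 (hθ.ne (by decide))
  have hτ01 : τ 0 - τ 1 ≠ 0 := sub_ne_zero.2 (hτ.ne (by decide))
  -- the coefficients
  obtain ⟨l0, m0, hl0, hm0⟩ : ∃ l m : K, l + m = 1 ∧ l * θ 2 + m * θ 3 = θ 0 :=
    ⟨(θ 0 - θ 3) / (θ 2 - θ 3), (θ 2 - θ 0) / (θ 2 - θ 3), by field_simp; ring,
      by field_simp; ring⟩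
  obtain ⟨l1, m1, hl1, hm1⟩ : ∃ l m : K, l + m = 1 ∧ l * θ 2 + m * θ 3 = θ 1 :=
    ⟨(θ 1 - θ 3) / (θ 2 - θ 3), (θ 2 - θ 1) / (θ 2 - θ 3), by field_simp; ring,
      by field_simp; ring⟩
  have e0 := P.hy 0
  have e1 := P.hy 1
  have e2 := P.hy 2
  have e3 := P.hy 3
  set A := algebraMap K E with hA
  have hl0' : A l0 + A m0 = 1 := by rw [← map_add, hl0, map_one]
  have hm0' : A l0 * A (θ 2) + A m0 * A (θ 3) = A (θ 0) := by
    rw [← map_mul, ← map_mul, ← map_add, hm0]
  have hl1' : A l1 + A m1 = 1 := by rw [← map_add, hl1, map_one]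
  have hm1' : A l1 * A (θ 2) + A m1 * A (θ 3) = A (θ 1) := by
    rw [← map_mul, ← map_mul, ← map_add, hm1]
  have r0 : P.t * P.y 0 ^ 2 = A (τ 0) * P.y 0 ^ 2 +
      A l0 * (P.t * P.y 2 ^ 2 - A (τ 2) * P.y 2 ^ 2) +
      A m0 * (P.t * P.y 3 ^ 2 - A (τ 3) * P.y 3 ^ 2) := by
    linear_combination e0 - A l0 * e2 - A m0 * e3 - P.n * hl0' + hm0'
  have r1 : P.t * P.y 1 ^ 2 = A (τ 1) * P.y 1 ^ 2 +
      A l1 * (P.t * P.y 2 ^ 2 - A (τ 2) * P.y 2 ^ 2) +
      A m1 * (P.t * P.y 3 ^ 2 - A (τ 3) * P.y 3 ^ 2) := by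
    linear_combination e1 - A l1 * e2 - A m1 * e3 - P.n * hl1' + hm1'
  have r2 : A (τ 0 - τ 1) * (P.y 0 ^ 2 * P.y 1 ^ 2) =
      A (l1 * (τ 0 - τ 2)) * (P.y 0 ^ 2 * P.y 2 ^ 2) +
      A (m1 * (τ 0 - τ 3)) * (P.y 0 ^ 2 * P.y 3 ^ 2) -
      A (l0 * (τ 1 - τ 2)) * (P.y 1 ^ 2 * P.y 2 ^ 2) -
      A (m0 * (τ 1 - τ 3)) * (P.y 1 ^ 2 * P.y 3 ^ 2) +
      A ((l1 * m0 - l0 * m1) * (τ 2 - τ 3)) * (P.y 2 ^ 2 * P.y 3 ^ 2) := by
    simp only [map_sub, map_mul]
    linear_combination -(P.y 1 ^ 2 - (A l1 * P.y 2 ^ 2 + A m1 * P.y 3 ^ 2)) * r0 +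
      (P.y 0 ^ 2 - (A l0 * P.y 2 ^ 2 + A m0 * P.y 3 ^ 2)) * r1
  intro N
  induction N with
  | zero =>
    intro a p q u v h1 h2 h3
    exact hadm a p q u v h1 h2 (by omega) (by omega)
  | succ N ih =>
    intro a p q u v h1 h2 h3
    by_cases c1 : 2 ≤ p ∧ 2 ≤ q
    · obtain ⟨p, rfl⟩ := Nat.exists_eq_add_of_le' c1.1
      obtain ⟨q, rfl⟩ := Nat.exists_eq_add_of_le' c1.2
      have h4 : (τ 0 - τ 1) • P.M a (p + 2) (q + 2) u v =
          (l1 * (τ 0 - τ 2)) • P.M a (p + 2) q (u + 2) v +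
          (m1 * (τ 0 - τ 3)) • P.M a (p + 2) q u (v + 2) -
          (l0 * (τ 1 - τ 2)) • P.M a p (q + 2) (u + 2) v -
          (m0 * (τ 1 - τ 3)) • P.M a p (q + 2) u (v + 2) +
          ((l1 * m0 - l0 * m1) * (τ 2 - τ 3)) • P.M a p q (u + 2) (v + 2) := by
        simp only [Algebra.smul_def, Pt.M]
        linear_combination (P.t ^ a * (P.y 0 ^ p * P.y 1 ^ q * P.y 2 ^ u * P.y 3 ^ v)) * r2
      rw [← W.smul_mem_iff hτ01, h4]
      refine W.add_mem (W.sub_mem (W.sub_mem (W.add_mem ?_ ?_) ?_) ?_) ?_ <;>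
        exact W.smul_mem _ (ih _ _ _ _ _ h1 (by omega) (by omega))
    · by_cases c2 : a = 0 ∨ (p ≤ 1 ∧ q ≤ 1)
      · exact hadm a p q u v h1 h2 c1 c2
      · push Not at c2
        obtain ⟨a, rfl⟩ := Nat.exists_eq_add_of_le' (Nat.one_le_iff_ne_zero.2 c2.1)
        by_cases c3 : 2 ≤ p
        · obtain ⟨p, rfl⟩ := Nat.exists_eq_add_of_le' c3
          have h4 : P.M (a + 1) (p + 2) q u v = τ 0 • P.M a (p + 2) q u v +
              l0 • (P.M (a + 1) p q (u + 2) v - τ 2 • P.M a p q (u + 2) v) +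
              m0 • (P.M (a + 1) p q u (v + 2) - τ 3 • P.M a p q u (v + 2)) := by
            simp only [Algebra.smul_def, Pt.M]
            linear_combination (P.t ^ a * (P.y 0 ^ p * P.y 1 ^ q * P.y 2 ^ u * P.y 3 ^ v)) * r0
          rw [h4]
          refine W.add_mem (W.add_mem (W.smul_mem _ ?_) (W.smul_mem _ (W.sub_mem ?_
            (W.smul_mem _ ?_)))) (W.smul_mem _ (W.sub_mem ?_ (W.smul_mem _ ?_))) <;>
            exact ih _ _ _ _ _ (by omega) (by omega) (by omega)
        · have c4 : 2 ≤ q := by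
            by_contra hq
            exact absurd (c2.2 (by omega)) (by omega)
          obtain ⟨q, rfl⟩ := Nat.exists_eq_add_of_le' c4
          have h4 : P.M (a + 1) p (q + 2) u v = τ 1 • P.M a p (q + 2) u v +
              l1 • (P.M (a + 1) p q (u + 2) v - τ 2 • P.M a p q (u + 2) v) +
              m1 • (P.M (a + 1) p q u (v + 2) - τ 3 • P.M a p q u (v + 2)) := by
            simp only [Algebra.smul_def, Pt.M]
            linear_combination (P.t ^ a * (P.y 0 ^ p * P.y 1 ^ q * P.y 2 ^ u * P.y 3 ^ v)) * r1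
          rw [h4]
          refine W.add_mem (W.add_mem (W.smul_mem _ ?_) (W.smul_mem _ (W.sub_mem ?_
            (W.smul_mem _ ?_)))) (W.smul_mem _ (W.sub_mem ?_ (W.smul_mem _ ?_))) <;>
            exact ih _ _ _ _ _ (by omega) (by omega) (by omega)

/-- the `(r, s)`-forms are spanned by the reduced monomials. -/
theorem Pt.V_eq (hτ : Function.Injective τ) (hθ : Function.Injective θ) (P : Pt τ θ E)
    (r s : ℕ) : P.V r s = Submodule.span K
      ((fun x => P.av (mono x)) '' (idxB s r : Set (ℕ × (Fin 4 → ℕ)))) := by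
  apply le_antisymm
  · rw [P.V_eq_span, Submodule.span_le]
    rintro _ ⟨x, hx, rfl⟩
    obtain ⟨h1, h2⟩ := mem_idx.1 hx
    rw [Fin.sum_univ_four] at h2
    simp only
    rw [P.av_mono']
    exact P.M_mem hτ hθ r s _ _ _ _ _ _ h1 h2 le_rfl
  · rw [P.V_eq_span]
    refine Submodule.span_mono (Set.image_mono ?_)
    intro x hx
    obtain ⟨h1, h2, -⟩ := mem_idxB.1 hx
    exact mem_idx.2 ⟨h1, h2⟩

/-- upper bound for the dimension, at every point. -/
theorem Pt.finrank_V_le (hτ : Function.Injective τ) (hθ : Function.Injective θ) (P : Pt τ θ E)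
    (r s : ℕ) (hr : 1 ≤ r) : Module.finrank K (P.V r s) ≤ 2 + 4 * s * r + 2 * r ^ 2 := by
  classical
  rw [P.V_eq hτ hθ, ← card_idxB s r hr, ← Finset.coe_image]
  exact (finrank_span_finset_le_card _).trans Finset.card_image_le

end Dim

section Gen

variable {K : Type u} [Field K] {τ θ : Fin 4 → K} {Ω : Type v} [Field Ω] [Algebra K Ω]

/-- the reduced monomials are independent at a generic point. -/
theorem Pt.linInd (h2 : (2 : K) ≠ 0) (hτ : Function.Injective τ) (hθ : Function.Injective θ)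
    (G : Pt τ θ Ω) (hG : G.Generic) (r s : ℕ) :
    LinearIndependent K (fun x : (idxB s r : Finset (ℕ × (Fin 4 → ℕ))) => G.av (mono x.1)) := by
  classical
  have h2' : (2 : Ω) ≠ 0 := by
    have h3 : (2 : Ω) = algebraMap K Ω 2 := (map_ofNat (algebraMap K Ω) 2).symm
    rw [h3]
    exact (_root_.map_ne_zero _).2 h2
  rw [Fintype.linearIndependent_iff]
  intro g hg x
  set c : ℕ × (Fin 4 → ℕ) → K := fun x => if hx : x ∈ idxB s r then g ⟨x, hx⟩ else 0 with hc
  have h5 := indB τ θ h2' hτ hθ G.ev hG G.y G.hy' r (idxB s r)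
    (fun x hx => (mem_idxB.1 hx).2) c ?_ x.1 x.2
  · rw [hc] at h5
    simpa using h5
  · rw [← Finset.sum_coe_sort]
    rw [← hg]
    refine Finset.sum_congr rfl fun x _ => ?_
    rw [G.av_mono, Algebra.smul_def, G.ev_C_C, G.ev_C_X, hc]
    simp only [x.2, dif_pos, Subtype.coe_eta]
    ring

/-- **The dimension of the space of `(r, s)`-forms.** -/
theorem Pt.finrank_V (h2 : (2 : K) ≠ 0) (hτ : Function.Injective τ)
    (hθ : Function.Injective θ) (G : Pt τ θ Ω) (hG : G.Generic) (r s : ℕ) (hr : 1 ≤ r) :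
    Module.finrank K (G.V r s) = 2 + 4 * s * r + 2 * r ^ 2 := by
  classical
  have h := finrank_span_eq_card (G.linInd h2 hτ hθ hG r s)
  rw [Fintype.card_coe, card_idxB s r hr] at h
  rw [G.V_eq hτ hθ, ← h, Set.image_eq_range]
  rfl

/-- the powers of `t` are independent at a generic point. -/
theorem Pt.finrank_V_zero (G : Pt τ θ Ω) (hG : G.Generic) (s : ℕ) :
    Module.finrank K (G.V 0 s) = s + 1 := by
  classical
  have h1 : G.V 0 s = Submodule.span K (Set.range fun a : Fin (s + 1) => G.t ^ (a : ℕ)) := by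
    rw [G.V_eq_span]
    congr 1
    ext z
    constructor
    · rintro ⟨x, hx, rfl⟩
      obtain ⟨h1, h2⟩ := mem_idx.1 hx
      refine ⟨⟨x.1, by omega⟩, ?_⟩
      have h3 : ∀ i, x.2 i = 0 := fun i => by
        rw [Finset.sum_eq_zero_iff] at h2
        exact h2 i (Finset.mem_univ i)
      simp only
      rw [G.av_mono]
      simp [h3]
    · rintro ⟨a, rfl⟩
      refine ⟨(a, fun _ => 0), mem_idx.2 ⟨by simp only; omega, by simp⟩, ?_⟩
      simp only
      rw [G.av_mono]
      simp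
  have h2 : LinearIndependent K (fun a : Fin (s + 1) => G.t ^ (a : ℕ)) := by
    rw [Fintype.linearIndependent_iff]
    intro g hg a
    have h3 : G.ev (C (∑ a : Fin (s + 1), C (g a) * X ^ (a : ℕ))) = 0 := by
      rw [G.ev_C, map_sum, ← hg]
      refine Finset.sum_congr rfl fun b _ => ?_
      rw [map_mul, map_pow, aeval_X, aeval_C, Algebra.smul_def]
    have h4 : (∑ a : Fin (s + 1), C (g a) * X ^ (a : ℕ)) = 0 := by
      have h5 := hG (h3.trans (map_zero G.ev).symm)
      exact C_eq_zero.1 h5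
    have h6 := congrArg (fun p : K[X] => p.coeff a) h4
    simp only [finsetSum_coeff, coeff_C_mul, coeff_X_pow, coeff_zero, mul_ite, mul_one,
      mul_zero] at h6
    rw [Finset.sum_eq_single a] at h6
    · simpa using h6
    · intro b _ hb
      rw [if_neg]
      intro h
      exact hb (Fin.ext h.symm)
    · simp
  rw [h1, finrank_span_eq_card h2, Fintype.card_fin]

end Gen

section Exists

/-- **Generic points exist**, over an algebraically closed field. -/
theorem exists_generic {K : Type u} [Field K] (τ θ : Fin 4 → K) :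
    ∃ (Ω : Type u) (_ : Field Ω) (_ : Algebra K Ω) (_ : IsAlgClosed Ω) (G : Pt τ θ Ω),
      G.Generic := by
  classical
  let Ω := AlgebraicClosure (FractionRing K[X][X])
  let φ : K[X][X] →+* Ω :=
    (algebraMap (FractionRing K[X][X]) Ω).comp (algebraMap K[X][X] (FractionRing K[X][X]))
  have hφ : Function.Injective φ :=
    (algebraMap (FractionRing K[X][X]) Ω).injective.comp (IsFractionRing.injective _ _)
  let _ : Algebra K Ω := (φ.comp ((C : K[X] →+* K[X][X]).comp C)).toAlgebra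
  have hA : ∀ c : K, algebraMap K Ω c = φ (C (C c)) := fun _ => rfl
  have hφ0 : ∀ f : K[X][X], f ≠ 0 → φ f ≠ 0 := fun f hf h0 => hf (hφ (by rw [h0, map_zero]))
  have hT : ∀ i, φ (C X) - algebraMap K Ω (τ i) = φ (TT τ i) := by
    intro i
    rw [hA, ← map_sub]
    congr 1
    unfold TT
    rw [map_sub]
  have hN : ∀ i, φ X - algebraMap K Ω (θ i) = φ (NN θ i) := by
    intro i
    rw [hA, ← map_sub]
    rfl
  have hTne : ∀ i, φ (TT τ i) ≠ 0 := fun i => hφ0 _ (TT_ne τ i)
  choose y hy using fun i => IsAlgClosed.exists_pow_nat_eq (φ (NN θ i) / φ (TT τ i))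
    (n := 2) (by norm_num)
  let G : Pt τ θ Ω :=
    { t := φ (C X)
      n := φ X
      y := y
      hy := fun i => by rw [hT, hN, hy, div_mul_cancel₀ _ (hTne i)]
      ht := fun i => by rw [hT]; exact (hTne i).isUnit }
  have hev : G.ev = φ := by
    refine Polynomial.ringHom_ext' ?_ ?_
    · refine Polynomial.ringHom_ext' ?_ ?_
      · ext c
        simp only [RingHom.comp_apply, G.ev_C_C]
        rfl
      · simp only [RingHom.comp_apply, G.ev_C_X]
        rfl
    · rw [G.ev_X]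
  refine ⟨Ω, inferInstance, inferInstance, inferInstance, G, ?_⟩
  unfold Pt.Generic
  rw [hev]
  exact hφ

end Exists

end Pool.Agent.SQF.LamA
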