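import Mathlib
import Pool.Agent.Lib.SQF.LamA
import Pool.Agent.Lib.SQF.MinorSol

/-!
# Norms on a beta-slice (paper v0, 8.2)

Setting of LamA: `Mp K` = polynomials in `t, y_0, .., y_3`, `VV K r s` = forms of degree `r` in
`y` and degree at most `s` in `t`, `G` a generic point, `P` any point of the family
`y_i ^ 2 (t - τ_i) = n - θ_i`.  A form `F` with `G.av F ≠ 0` has, for any two forms `p0, p1` of the
same bidegree `(p, q)`, `1 ≤ p`, a norm `N ≠ 0` in `K[t][x]` of degree at most `4 r` in `x`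
(`x = p1 / p0`), which vanishes at all points at which `F` vanishes (`norm_exists`, `norm_eval`).
`norm_int`: integral coefficients, bounded in terms of the size of the solutions only.
`N1`: `x = n`.
-/

set_option autoImplicit false

open Polynomial Pool.Agent.SQF.LamA

namespace Pool.Agent.Lib.SQF.NormB

universe u v w

variable {K : Type u} [Field K]

/-- A polynomial in `t`, as a polynomial in `t, y`. -/
noncomputable def tp : K[X] →ₐ[K] Mp K := aeval (MvPolynomial.X none)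

lemma tp_mem {f : K[X]} {s : ℕ} (hf : f.natDegree ≤ s) : tp f ∈ VV K 0 s := by
  rw [tp, aeval_eq_sum_range' (Nat.lt_succ_of_le hf)]
  refine Submodule.sum_mem _ fun i hi => Submodule.smul_mem _ _ ?_
  have h1 := VV_pow_mem (K := K) t_mem_VV i
  rw [mul_zero, mul_one] at h1
  exact VV_mono (Nat.lt_succ_iff.1 (Finset.mem_range.1 hi)) h1

lemma av_tp {τ θ : Fin 4 → K} {E : Type v} [CommRing E] [Algebra K E] (P : Pt τ θ E) (f : K[X]) :
    P.av (tp f) = aeval P.t f := by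
  rw [tp, ← aeval_algHom_apply]
  simp [Pt.av]

/-- The numerical inequality behind the norms. -/
lemma numer {p q r s e : ℕ} (hp : 1 ≤ p) (hr : 1 ≤ r)
    (he : 16 * p * r * s + 16 * (p + q) * r ^ 2 ≤ e) :
    2 * (p * (4 * r)) ^ 2 + 4 * (p * (4 * r)) * (q * (4 * r) + e) + 2 <
      (4 * r + 1) * (e + 1) + (2 * (p * (4 * r) - r) ^ 2 +
        4 * (p * (4 * r) - r) * (q * (4 * r) + e - s) + 2) := by
  have h1 : r ≤ p * (4 * r) := by nlinarith
  have h2 : s ≤ q * (4 * r) + e := by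
    have : s ≤ 16 * p * r * s := by
      have : 1 ≤ 16 * p * r := by nlinarith
      nlinarith
    omega
  zify [h1, h2]
  have h3 : (16 * p * r * s + 16 * (p + q) * r ^ 2 : ℤ) ≤ e := by exact_mod_cast he
  have h4 : (1 : ℤ) ≤ p := by exact_mod_cast hp
  have h5 : (1 : ℤ) ≤ r := by exact_mod_cast hr
  have h6 : (0 : ℤ) ≤ s := Int.natCast_nonneg s
  have h7 : (0 : ℤ) ≤ q := Int.natCast_nonneg q
  have h8 : (0 : ℤ) ≤ r * s := by positivity
  nlinarith [mul_nonneg h6 (by linarith : (0 : ℤ) ≤ r)]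

lemma term_mem {p q e D i : ℕ} (hi : i ≤ D) {f : K[X]} (hf : f.natDegree ≤ e)
    {p0 p1 : Mp K} (hp0 : p0 ∈ VV K p q) (hp1 : p1 ∈ VV K p q) :
    tp f * p0 ^ (D - i) * p1 ^ i ∈ VV K (p * D) (q * D + e) := by
  have h1 := VV_mul_mem (VV_mul_mem (tp_mem hf) (VV_pow_mem hp0 (D - i))) (VV_pow_mem hp1 i)
  have h2 : 0 + (D - i) * p + i * p = p * D := by
    rw [zero_add, ← add_mul, Nat.sub_add_cancel hi, mul_comm]
  have h3 : e + (D - i) * q + i * q = q * D + e := by
    rw [add_assoc, ← add_mul, Nat.sub_add_cancel hi, add_comm, mul_comm]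
  rwa [h2, h3] at h1

/-- The linear combination `∑ N_i p0 ^ (D - i) p1 ^ i`. -/
noncomputable def comb (D : ℕ) (N : K[X][X]) (p0 p1 : Mp K) : Mp K :=
  ∑ i ∈ Finset.range (D + 1), tp (N.coeff i) * p0 ^ (D - i) * p1 ^ i

lemma comb_mem {p q e D : ℕ} {N : K[X][X]} (hN : ∀ i, (N.coeff i).natDegree ≤ e)
    {p0 p1 : Mp K} (hp0 : p0 ∈ VV K p q) (hp1 : p1 ∈ VV K p q) :
    comb D N p0 p1 ∈ VV K (p * D) (q * D + e) :=
  Submodule.sum_mem _ fun i hi =>
    term_mem (Nat.lt_succ_iff.1 (Finset.mem_range.1 hi)) (hN i) hp0 hp1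

variable {τ θ : Fin 4 → K} {Ω : Type v} [Field Ω] [Algebra K Ω]

/-- **Norms by a dimension count.** -/
theorem norm_exists (h2 : (2 : K) ≠ 0) (hτ : Function.Injective τ) (hθ : Function.Injective θ)
    (G : Pt τ θ Ω) (hG : G.Generic) {p q r s e : ℕ} (hp : 1 ≤ p) (hr : 1 ≤ r)
    (he : 16 * p * r * s + 16 * (p + q) * r ^ 2 ≤ e)
    {p0 p1 F : Mp K} (hp0 : p0 ∈ VV K p q) (hp1 : p1 ∈ VV K p q)
    (hF : F ∈ VV K r s) (hF0 : G.av F ≠ 0) :
    ∃ N : K[X][X], N ≠ 0 ∧ N.natDegree ≤ 4 * r ∧ (∀ i, (N.coeff i).natDegree ≤ e) ∧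
      ∃ H : Mp K, G.av (comb (4 * r) N p0 p1 - F * H) = 0 := by
  classical
  have hr1 : r + 1 ≤ p * (4 * r) := by nlinarith
  have hs1 : s ≤ q * (4 * r) + e := by
    have h1 : 1 ≤ 16 * p * r := by nlinarith
    have h2 : s ≤ 16 * p * r * s := by nlinarith
    omega
  have hnum := numer (q := q) (s := s) hp hr he
  have hd1 := G.finrank_V h2 hτ hθ hG (p * (4 * r)) (q * (4 * r) + e) (by omega)
  have hd2 := G.finrank_V h2 hτ hθ hG (p * (4 * r) - r) (q * (4 * r) + e - s) (by omega)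
  set D := 4 * r with hD
  set V := G.V (p * D) (q * D + e) with hV
  set V' := G.V (p * D - r) (q * D + e - s) with hV'
  have : FiniteDimensional K V := Module.finite_of_finrank_pos (by rw [hd1]; omega)
  have : FiniteDimensional K V' := Module.finite_of_finrank_pos (by rw [hd2]; omega)
  have : FiniteDimensional K (degreeLT K (e + 1)) :=
    Module.Finite.equiv (degreeLTEquiv K (e + 1)).symm
  have hdeg : ∀ f : degreeLT K (e + 1), (f : K[X]).natDegree ≤ e := fun f => by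
    by_cases hf : (f : K[X]) = 0
    · rw [hf]; simp
    · exact Nat.lt_succ_iff.1 ((natDegree_lt_iff_degree_lt hf).2 (mem_degreeLT.1 f.2))
  let Ψ0 : (Fin (D + 1) → degreeLT K (e + 1)) × V' →ₗ[K] Ω :=
    { toFun := fun x => ∑ i : Fin (D + 1),
        G.av (tp (x.1 i : K[X]) * p0 ^ (D - (i : ℕ)) * p1 ^ (i : ℕ)) - G.av F * x.2
      map_add' := by
        intro x y
        simp only [Prod.fst_add, Prod.snd_add, Pi.add_apply, Submodule.coe_add, map_add, map_mul,
          add_mul, mul_add, Finset.sum_add_distrib]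
        ring
      map_smul' := by
        intro c x
        simp only [Prod.smul_fst, Prod.smul_snd, Pi.smul_apply, Submodule.coe_smul, map_mul,
          map_smul, smul_mul_assoc, mul_smul_comm, Finset.smul_sum, smul_sub, RingHom.id_apply] }
  have hΨ : ∀ x, Ψ0 x ∈ V := by
    rintro ⟨c, ⟨v, hv⟩⟩
    obtain ⟨H, hH, rfl⟩ := hv
    refine V.sub_mem (V.sum_mem fun i _ => ?_) ?_
    · exact Pt.mem_V G (term_mem (Nat.lt_succ_iff.1 i.2) (hdeg (c i)) hp0 hp1)
    · have h1 := VV_mul_mem hF hH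
      have h2 : r + (p * D - r) = p * D := by omega
      have h3 : s + (q * D + e - s) = q * D + e := by omega
      rw [h2, h3] at h1
      have h4 := Pt.mem_V G h1
      rwa [map_mul] at h4
  have hker := LinearMap.ker_ne_bot_of_finrank_lt (f := Ψ0.codRestrict V hΨ) (by
    rw [Module.finrank_prod, hd1, hd2, Module.finrank_pi_fintype]
    simp only [(degreeLTEquiv K (e + 1)).finrank_eq, Module.finrank_fin_fun, Finset.sum_const,
      Finset.card_univ, Fintype.card_fin, smul_eq_mul]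
    convert hnum using 1 <;> ring)
  obtain ⟨x, hx, hx0⟩ := Submodule.exists_mem_ne_zero_of_ne_bot hker
  have hx1 : Ψ0 x = 0 := congrArg Subtype.val (LinearMap.mem_ker.1 hx)
  obtain ⟨c, ⟨v, hv⟩⟩ := x
  obtain ⟨H, hH, hHv⟩ := id hv
  have hc : c ≠ 0 := by
    rintro rfl
    apply hx0
    have h1 : G.av F * v = 0 := by
      have h2 : Ψ0 (0, ⟨v, hv⟩) = - (G.av F * v) := by
        change ∑ i : Fin (D + 1), G.av (tp (((0 : Fin (D + 1) → degreeLT K (e + 1)) i :
          K[X])) * p0 ^ (D - (i : ℕ)) * p1 ^ (i : ℕ)) - G.av F * v = _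
        simp
      rw [h2] at hx1
      exact neg_eq_zero.1 hx1
    rcases mul_eq_zero.1 h1 with h2 | h2
    · exact absurd h2 hF0
    · subst h2; rfl
  set N : K[X][X] := ∑ i : Fin (D + 1), monomial (i : ℕ) (c i : K[X]) with hN
  have hcoef : ∀ j, N.coeff j = if h : j < D + 1 then (c ⟨j, h⟩ : K[X]) else 0 := by
    intro j
    rw [hN, finsetSum_coeff]
    split_ifs with h
    · rw [Finset.sum_eq_single (⟨j, h⟩ : Fin (D + 1))]
      · rw [coeff_monomial, if_pos rfl]
      · intro i _ hi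
        rw [coeff_monomial, if_neg]
        intro h1
        exact hi (Fin.ext h1)
      · intro h1
        exact absurd (Finset.mem_univ _) h1
    · refine Finset.sum_eq_zero fun i _ => ?_
      rw [coeff_monomial, if_neg]
      intro h1
      exact h (h1 ▸ i.2)
  have hNdeg : ∀ i, (N.coeff i).natDegree ≤ e := by
    intro i
    rw [hcoef]
    split_ifs
    · exact hdeg _
    · simp
  have hcomb : comb D N p0 p1 = ∑ i : Fin (D + 1),
      tp (c i : K[X]) * p0 ^ (D - (i : ℕ)) * p1 ^ (i : ℕ) := by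
    rw [comb, Finset.sum_range]
    refine Finset.sum_congr rfl fun i _ => ?_
    rw [hcoef, dif_pos i.2]
  refine ⟨N, ?_, ?_, hNdeg, H, ?_⟩
  · intro h1
    apply hc
    funext i
    apply Subtype.ext
    have h2 := hcoef i
    rw [h1, dif_pos i.2, coeff_zero] at h2
    exact h2.symm
  · refine natDegree_le_iff_coeff_eq_zero.2 fun j hj => ?_
    rw [hcoef, dif_neg (by omega)]
  · rw [map_sub, map_mul, hcomb, map_sum]
    have h1 : G.av H = v := hHv
    rw [h1]
    exact hx1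


/-- **Integral norms with bounded coefficients, uniformly in the set of solutions.**
For every solution `z` the point is `P z`, with `t = u / v` and `p1 : p0 = b : a`. -/
theorem norm_int (h2 : (2 : K) ≠ 0) (hτ : Function.Injective τ) (hθ : Function.Injective θ)
    (G : Pt τ θ Ω) (hG : G.Generic) {L : Type w} [Field L] [CharZero L] [Algebra K L]
    {p q r s e : ℕ} (hp : 1 ≤ p) (hr : 1 ≤ r) (he : 16 * p * r * s + 16 * (p + q) * r ^ 2 ≤ e)
    {p0 p1 F : Mp K} (hp0 : p0 ∈ VV K p q) (hp1 : p1 ∈ VV K p q)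
    (hF : F ∈ VV K r s) (hF0 : G.av F ≠ 0)
    {ι : Type*} (u v a b : ι → ℤ) (c : ι → L) (P : ι → Pt τ θ L)
    {T : ℤ} (hT : 1 ≤ T) (hu : ∀ z, |u z| ≤ T) (hv : ∀ z, |v z| ≤ T) (ha : ∀ z, |a z| ≤ T)
    (hb : ∀ z, |b z| ≤ T) (hc : ∀ z, c z ≠ 0) (ht : ∀ z, (P z).t * v z = u z)
    (h0 : ∀ z, (P z).av p0 = c z * a z) (h1 : ∀ z, (P z).av p1 = c z * b z) :
    ∃ N : ℤ[X][X], N ≠ 0 ∧ N.natDegree ≤ 4 * r ∧ (∀ i, (N.coeff i).natDegree ≤ e) ∧
      (∀ i j, |(N.coeff i).coeff j| ≤ ((4 * r + 1) * (e + 1)).factorial *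
        (T ^ (e + 4 * r)) ^ ((4 * r + 1) * (e + 1))) ∧
      ∀ z, (P z).av F = 0 → ∑ i ∈ Finset.range (4 * r + 1), ∑ j ∈ Finset.range (e + 1),
        (N.coeff i).coeff j * (u z ^ j * v z ^ (e - j) * (a z ^ (4 * r - i) * b z ^ i)) = 0 := by
  classical
  obtain ⟨N, hN, hN1, hN2, H, hev⟩ := norm_exists h2 hτ hθ G hG hp hr he hp0 hp1 hF hF0
  set D := 4 * r with hD
  let κ := Fin (D + 1) × Fin (e + 1)
  let S := {z : ι // (P z).av F = 0}
  let M : S → κ → ℤ := fun z k =>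
    u z.1 ^ (k.2 : ℕ) * v z.1 ^ (e - k.2) * (a z.1 ^ (D - k.1) * b z.1 ^ (k.1 : ℕ))
  have hM : ∀ z k, |M z k| ≤ T ^ (e + D) := by
    intro z k
    have h2 : (k.2 : ℕ) + (e - k.2) + ((D - k.1) + k.1) = e + D := by
      have := k.2.2; have := k.1.2; omega
    rw [← h2, pow_add, pow_add, pow_add]
    simp only [M, abs_mul, abs_pow]
    gcongr
    · exact hu _
    · exact hv _
    · exact ha _
    · exact hb _
  obtain ⟨x, hx, hx1, hx2⟩ := MinorSol.exists_int_sol' (F := L) (T := T ^ (e + D))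
    (one_le_pow₀ hT) M hM (fun k => algebraMap K L ((N.coeff k.1).coeff k.2)) (by
      intro h2
      apply hN
      ext i j
      rw [coeff_zero, coeff_zero]
      rcases Nat.lt_or_ge i (D + 1) with h3 | h3
      · rcases Nat.lt_or_ge j (e + 1) with h4 | h4
        · exact (algebraMap K L).injective ((congrFun h2 (⟨i, h3⟩, ⟨j, h4⟩)).trans
            (map_zero _).symm)
        · exact coeff_eq_zero_of_natDegree_lt (lt_of_le_of_lt (hN2 i) h4)
      · rw [coeff_eq_zero_of_natDegree_lt (lt_of_le_of_lt hN1 h3), coeff_zero]) (by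
      rintro ⟨z, hz⟩
      have h2 := G.spec h2 hτ hG (P z) _ hev
      rw [map_sub, map_mul, hz, zero_mul, sub_zero, comb, map_sum] at h2
      have h3 : c z ^ D * ∑ k : κ, ((M ⟨z, hz⟩ k : ℤ) : L) *
          algebraMap K L ((N.coeff k.1).coeff k.2) = (v z : L) ^ e *
            ∑ i ∈ Finset.range (D + 1), (P z).av (tp (N.coeff i) * p0 ^ (D - i) * p1 ^ i) := by
        rw [Fintype.sum_prod_type, Finset.mul_sum, Finset.mul_sum, Finset.sum_range]
        refine Finset.sum_congr rfl fun i _ => ?_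
        rw [map_mul, map_mul, map_pow, map_pow, av_tp, h0, h1,
          aeval_eq_sum_range' (Nat.lt_succ_of_le (hN2 i)), Finset.sum_range, Finset.sum_mul,
          Finset.sum_mul, Finset.mul_sum, Finset.mul_sum]
        refine Finset.sum_congr rfl fun j _ => ?_
        have h4 : c z ^ D = c z ^ (D - (i : ℕ)) * c z ^ (i : ℕ) := by
          rw [← pow_add, Nat.sub_add_cancel (Nat.lt_succ_iff.1 i.2)]
        have h5 : (v z : L) ^ e = (v z : L) ^ (e - (j : ℕ)) * (v z : L) ^ (j : ℕ) := by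
          rw [← pow_add, Nat.sub_add_cancel (Nat.lt_succ_iff.1 j.2)]
        rw [h4, h5, mul_pow, mul_pow]
        simp only [M]
        push_cast
        rw [← ht z, mul_pow, Algebra.smul_def]
        ring
      rw [h2, mul_zero] at h3
      exact (mul_eq_zero.1 h3).resolve_left (pow_ne_zero _ (hc z)))
  have hN' : ∃ Q : ℤ[X][X], (∀ i j, (Q.coeff i).coeff j =
      if h : i < D + 1 ∧ j < e + 1 then x (⟨i, h.1⟩, ⟨j, h.2⟩) else 0) := by
    refine ⟨∑ k : κ, monomial (k.1 : ℕ) (monomial (k.2 : ℕ) (x k)), fun i j => ?_⟩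
    rw [finsetSum_coeff, finsetSum_coeff]
    split_ifs with h
    · rw [Finset.sum_eq_single (⟨i, h.1⟩, ⟨j, h.2⟩)]
      · simp
      · intro k _ hk
        rw [coeff_monomial]
        split_ifs with h2
        · rw [coeff_monomial, if_neg]
          intro h3
          exact hk (Prod.ext (Fin.ext h2) (Fin.ext h3))
        · rw [coeff_zero]
      · intro h2; exact absurd (Finset.mem_univ _) h2
    · refine Finset.sum_eq_zero fun k _ => ?_
      rw [coeff_monomial]
      split_ifs with h2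
      · rw [coeff_monomial, if_neg]
        intro h3
        exact h ⟨h2 ▸ k.1.2, h3 ▸ k.2.2⟩
      · rw [coeff_zero]
  obtain ⟨Q, hP⟩ := hN'
  refine ⟨Q, ?_, ?_, ?_, ?_, ?_⟩
  · intro h2
    apply hx
    funext k
    have h3 := hP k.1 k.2
    rw [h2, coeff_zero, coeff_zero, dif_pos ⟨k.1.2, k.2.2⟩] at h3
    exact h3.symm
  · refine natDegree_le_iff_coeff_eq_zero.2 fun i hi => ?_
    ext j
    rw [hP, dif_neg (by omega), coeff_zero]
  · intro i
    refine natDegree_le_iff_coeff_eq_zero.2 fun j hj => ?_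
    rw [hP, dif_neg (by omega)]
  · intro i j
    rw [hP]
    have hcard : Fintype.card κ = (D + 1) * (e + 1) := by simp [κ]
    split_ifs
    · have h3 := hx1 (⟨i, by omega⟩, ⟨j, by omega⟩)
      rwa [hcard] at h3
    · rw [abs_zero]
      positivity
  · intro z hz
    have h2 := hx2 ⟨z, hz⟩
    rw [← h2, Fintype.sum_prod_type, Finset.sum_range]
    refine Finset.sum_congr rfl fun i _ => ?_
    rw [Finset.sum_range]
    refine Finset.sum_congr rfl fun j _ => ?_
    rw [hP, dif_pos ⟨i.2, j.2⟩]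
    simp only [M]
    ring

/-- The homogenised value is the value. -/
lemma hom_eq_evalEval {L : Type w} [Field L] {N : ℤ[X][X]} {D e : ℕ} (hN : N.natDegree ≤ D)
    (hN' : ∀ i, (N.coeff i).natDegree ≤ e) {u v a b : L} (hv : v ≠ 0) (ha : a ≠ 0) :
    ∑ i ∈ Finset.range (D + 1), ∑ j ∈ Finset.range (e + 1),
      (((N.coeff i).coeff j : ℤ) : L) * (u ^ j * v ^ (e - j) * (a ^ (D - i) * b ^ i)) =
      v ^ e * a ^ D * (N.map (mapRingHom (Int.castRingHom L))).evalEval (u / v) (b / a) := by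
  have h1 : (N.map (mapRingHom (Int.castRingHom L))).natDegree < D + 1 :=
    Nat.lt_succ_of_le (natDegree_map_le.trans hN)
  rw [evalEval, eval_eq_sum_range' h1, eval_finsetSum, Finset.mul_sum]
  refine Finset.sum_congr rfl fun i hi => ?_
  have h2 : ((N.coeff i).map (Int.castRingHom L)).natDegree < e + 1 :=
    Nat.lt_succ_of_le (natDegree_map_le.trans (hN' i))
  rw [coeff_map, coe_mapRingHom, eval_mul, eval_pow, eval_C, eval_eq_sum_range' h2,
    Finset.sum_mul, Finset.mul_sum]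
  refine Finset.sum_congr rfl fun j hj => ?_
  have h3 : v ^ e = v ^ (e - j) * v ^ j := by
    rw [← pow_add, Nat.sub_add_cancel (Nat.lt_succ_iff.1 (Finset.mem_range.1 hj))]
  have h4 : a ^ D = a ^ (D - i) * a ^ i := by
    rw [← pow_add, Nat.sub_add_cancel (Nat.lt_succ_iff.1 (Finset.mem_range.1 hi))]
  have h5 : v ^ j ≠ 0 := pow_ne_zero _ hv
  have h6 : a ^ i ≠ 0 := pow_ne_zero _ ha
  rw [h3, h4, div_pow, div_pow, coeff_map, eq_intCast]
  field_simp

/-- Linear forms in `y`. -/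
noncomputable def lin (c : Fin 4 → K) : Mp K := ∑ i, c i • (MvPolynomial.X (some i) : Mp K)

lemma lin_mem (c : Fin 4 → K) : lin c ∈ VV K 1 0 :=
  Submodule.sum_mem _ fun i _ => Submodule.smul_mem _ _ (y_mem_VV i)

lemma av_lin {E : Type v} [CommRing E] [Algebra K E] (P : Pt τ θ E) (c : Fin 4 → K) :
    P.av (lin c) = ∑ i, algebraMap K E (c i) * P.y i := by
  rw [lin, map_sum]
  refine Finset.sum_congr rfl fun i _ => ?_
  rw [map_smul, Algebra.smul_def]
  simp [Pt.av]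

/-- The form `(t - τ i) y_i ^ 2`, equal to `n - θ i` at all points. -/
noncomputable def qd (τ : Fin 4 → K) (i : Fin 4) : Mp K :=
  (MvPolynomial.X none - MvPolynomial.C (τ i)) * MvPolynomial.X (some i) ^ 2

lemma qd_mem (τ : Fin 4 → K) (i : Fin 4) : qd τ i ∈ VV K 2 1 := by
  have h1 : (MvPolynomial.X none - MvPolynomial.C (τ i) : Mp K) ∈ VV K 0 1 := by
    refine Submodule.sub_mem _ t_mem_VV ?_
    have h2 := Submodule.smul_mem _ (τ i) (one_mem_VV (K := K) 1)
    rwa [MvPolynomial.smul_eq_C_mul, mul_one] at h2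
  have h3 := VV_mul_mem h1 (VV_pow_mem (y_mem_VV (K := K) i) 2)
  exact h3

lemma av_qd {E : Type v} [CommRing E] [Algebra K E] (P : Pt τ θ E) (i : Fin 4) :
    P.av (qd τ i) = P.n - algebraMap K E (θ i) := by
  rw [← P.hy i]
  simp [qd, Pt.av]
  ring

/-- The form which is equal to `θ 1 - θ 0` at all points. -/
noncomputable def g1 (τ : Fin 4 → K) : Mp K := qd τ 0 - qd τ 1

/-- The form which is equal to `(θ 1 - θ 0) n` at all points. -/
noncomputable def gn (τ θ : Fin 4 → K) : Mp K := θ 0 • g1 τ + (θ 1 - θ 0) • qd τ 0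

lemma g1_mem (τ : Fin 4 → K) : g1 τ ∈ VV K 2 1 := Submodule.sub_mem _ (qd_mem τ 0) (qd_mem τ 1)

lemma gn_mem (τ θ : Fin 4 → K) : gn τ θ ∈ VV K 2 1 :=
  Submodule.add_mem _ (Submodule.smul_mem _ _ (g1_mem τ)) (Submodule.smul_mem _ _ (qd_mem τ 0))

lemma av_g1 {E : Type v} [CommRing E] [Algebra K E] (P : Pt τ θ E) :
    P.av (g1 τ) = algebraMap K E (θ 1 - θ 0) := by
  rw [g1, map_sub, av_qd, av_qd, map_sub]
  ring

lemma av_gn {E : Type v} [CommRing E] [Algebra K E] (P : Pt τ θ E) :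
    P.av (gn τ θ) = algebraMap K E (θ 1 - θ 0) * P.n := by
  rw [gn, map_add, map_smul, map_smul, av_g1, av_qd, Algebra.smul_def, Algebra.smul_def, map_sub]
  ring

/-- **N1: the norm in `Z[t][n]`.** -/
theorem norm_n (h2 : (2 : K) ≠ 0) (hτ : Function.Injective τ) (hθ : Function.Injective θ)
    (G : Pt τ θ Ω) (hG : G.Generic) {L : Type w} [Field L] [CharZero L] [Algebra K L]
    {r s e : ℕ} (hr : 1 ≤ r) (he : 32 * r * s + 48 * r ^ 2 ≤ e)
    {F : Mp K} (hF : F ∈ VV K r s) (hF0 : G.av F ≠ 0)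
    {ι : Type*} (u v n : ι → ℤ) (P : ι → Pt τ θ L)
    {T : ℤ} (hT : 1 ≤ T) (hu : ∀ z, |u z| ≤ T) (hv : ∀ z, |v z| ≤ T) (hn : ∀ z, |n z| ≤ T)
    (ht : ∀ z, (P z).t * v z = u z) (hPn : ∀ z, (P z).n = n z) :
    ∃ N : ℤ[X][X], N ≠ 0 ∧ N.natDegree ≤ 4 * r ∧ (∀ i, (N.coeff i).natDegree ≤ e) ∧
      (∀ i j, |(N.coeff i).coeff j| ≤ ((4 * r + 1) * (e + 1)).factorial *
        (T ^ (e + 4 * r)) ^ ((4 * r + 1) * (e + 1))) ∧
      ∀ z, (P z).av F = 0 → ∑ i ∈ Finset.range (4 * r + 1), ∑ j ∈ Finset.range (e + 1),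
        (N.coeff i).coeff j * (u z ^ j * v z ^ (e - j) * n z ^ i) = 0 := by
  have h3 : θ 1 - θ 0 ≠ 0 := fun h => by
    have h4 := hθ (sub_eq_zero.1 h)
    exact absurd h4 (by decide)
  obtain ⟨N, hN, hN1, hN2, hN3, hN4⟩ := norm_int h2 hτ hθ G hG (p := 2) (q := 1) (by norm_num) hr
    (by linarith) (g1_mem τ) (gn_mem τ θ) hF hF0 u v (fun _ => 1) n
    (fun _ => algebraMap K L (θ 1 - θ 0)) P hT hu hv (fun _ => by simpa using hT) hn
    (fun _ h => h3 ((algebraMap K L).injective (h.trans (map_zero _).symm))) ht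
    (fun z => by rw [av_g1]; simp) (fun z => by rw [av_gn, hPn])
  refine ⟨N, hN, hN1, hN2, hN3, fun z hz => ?_⟩
  have h4 := hN4 z hz
  simpa using h4

/-- **N2: the norm in `Z[t][x]`**, `x` a quotient of two linear forms. -/
theorem norm_lin (h2 : (2 : K) ≠ 0) (hτ : Function.Injective τ) (hθ : Function.Injective θ)
    (G : Pt τ θ Ω) (hG : G.Generic) {L : Type w} [Field L] [CharZero L] [Algebra K L]
    {r s e : ℕ} (hr : 1 ≤ r) (he : 16 * r * s + 16 * r ^ 2 ≤ e)
    {F : Mp K} (hF : F ∈ VV K r s) (hF0 : G.av F ≠ 0) (l0 l1 : Fin 4 → K)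
    {ι : Type*} (u v a b : ι → ℤ) (c : ι → L) (P : ι → Pt τ θ L)
    {T : ℤ} (hT : 1 ≤ T) (hu : ∀ z, |u z| ≤ T) (hv : ∀ z, |v z| ≤ T) (ha : ∀ z, |a z| ≤ T)
    (hb : ∀ z, |b z| ≤ T) (hc : ∀ z, c z ≠ 0) (ht : ∀ z, (P z).t * v z = u z)
    (h0 : ∀ z, ∑ i, algebraMap K L (l0 i) * (P z).y i = c z * a z)
    (h1 : ∀ z, ∑ i, algebraMap K L (l1 i) * (P z).y i = c z * b z) :
    ∃ N : ℤ[X][X], N ≠ 0 ∧ N.natDegree ≤ 4 * r ∧ (∀ i, (N.coeff i).natDegree ≤ e) ∧
      (∀ i j, |(N.coeff i).coeff j| ≤ ((4 * r + 1) * (e + 1)).factorial *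
        (T ^ (e + 4 * r)) ^ ((4 * r + 1) * (e + 1))) ∧
      ∀ z, (P z).av F = 0 → ∑ i ∈ Finset.range (4 * r + 1), ∑ j ∈ Finset.range (e + 1),
        (N.coeff i).coeff j * (u z ^ j * v z ^ (e - j) * (a z ^ (4 * r - i) * b z ^ i)) = 0 :=
  norm_int h2 hτ hθ G hG (p := 1) (q := 0) le_rfl hr (by linarith) (lin_mem l0) (lin_mem l1)
    hF hF0 u v a b c P hT hu hv ha hb hc ht (fun z => by rw [av_lin, h0])
    (fun z => by rw [av_lin, h1])

end Pool.Agent.Lib.SQF.NormB
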