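import Mathlib
import Pool.Agent.Lib.SQF.NormB
import Pool.Agent.Lib.SQF.Defs

/-!
# Solutions on a beta-slice as points, norms of integer forms (helper72)

`SZ ζ f1 f2 u v n m α` : `α (ζ i) ^ 2 * (u f1 (ζ i) + v f2 (ζ i)) = m ^ 2 (n - ζ i)` for the four
roots.  `exists_idx` : there is a set `I` of `2 + 4 s r + 2 r ^ 2` exponents `(a, J)`, `a ≤ s`,
`|J| = r`, such that every nonzero combination of the `u ^ a v ^ (s - a) α ^ J`, `(a, J) ∈ I`,
has a norm `N` in `ℤ[t][n]` of degree at most `4 r` in `n`, with bounded coefficients, which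
vanishes at `(u / v, n)` for all solutions at which the combination vanishes.
-/

open Polynomial Finset

namespace Pool.Agent.SQF.LamZ

open Pool.Agent.SQF.IndB Pool.Agent.SQF.LamA
open Pool.Agent.Lib.SQF.NormB (norm_n)

universe u v w

section Conv

variable {K : Type u} [Field K]

/-- linear change of the variables `y`. -/
noncomputable def lin (c : Matrix (Fin 4) (Fin 4) K) : Mp K →ₐ[K] Mp K :=
  MvPolynomial.aeval (fun o : Option (Fin 4) => o.elim (MvPolynomial.X none)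
    (fun j => ∑ i, c j i • MvPolynomial.X (some i)))

lemma lin_none (c : Matrix (Fin 4) (Fin 4) K) :
    lin c (MvPolynomial.X none) = MvPolynomial.X none := by
  simp [lin]

lemma lin_some (c : Matrix (Fin 4) (Fin 4) K) (j : Fin 4) :
    lin c (MvPolynomial.X (some j)) = ∑ i, c j i • MvPolynomial.X (some i) := by
  simp [lin]

lemma lin_lin (c c' : Matrix (Fin 4) (Fin 4) K) (h : c' * c = 1) (F : Mp K) :
    lin c (lin c' F) = F := by
  have h1 : ((lin c).comp (lin c') : Mp K →ₐ[K] Mp K) = AlgHom.id K (Mp K) := by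
    apply MvPolynomial.algHom_ext
    intro o
    cases o with
    | none => simp [lin_none]
    | some j =>
      rw [AlgHom.comp_apply, lin_some, map_sum]
      simp only [map_smul, lin_some, Finset.smul_sum, smul_smul]
      rw [Finset.sum_comm]
      simp only [← Finset.sum_smul, ← Matrix.mul_apply, h, Matrix.one_apply, ite_smul, one_smul,
        zero_smul, Finset.sum_ite_eq, Finset.mem_univ, if_true, AlgHom.id_apply]
  exact congrArg (fun f : Mp K →ₐ[K] Mp K => f F) h1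

lemma lin_mem (c : Matrix (Fin 4) (Fin 4) K) {r s : ℕ} {F : Mp K} (hF : F ∈ VV K r s) :
    lin c F ∈ VV K r s := by
  have h : VV K r s ≤ (VV K r s).comap (lin c).toLinearMap := by
    conv_lhs => unfold VV
    rw [Submodule.span_le]
    rintro _ ⟨x, hx, rfl⟩
    obtain ⟨h1, h2⟩ := mem_idx.1 hx
    rw [SetLike.mem_coe, Submodule.mem_comap, AlgHom.toLinearMap_apply]
    simp only [mono]
    rw [map_mul, map_pow, map_prod, lin_none]
    simp only [map_pow, lin_some]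
    have h3 : ∀ j, (∑ i, c j i • MvPolynomial.X (some i) : Mp K) ∈ VV K 1 0 := fun j =>
      Submodule.sum_mem _ fun i _ => Submodule.smul_mem _ _ (y_mem_VV i)
    have h4 : ∀ j, (∑ i, c j i • MvPolynomial.X (some i) : Mp K) ^ x.2 j ∈ VV K (x.2 j) 0 := by
      intro j
      have := VV_pow_mem (h3 j) (x.2 j)
      rwa [mul_one, mul_zero] at this
    have h5 : (MvPolynomial.X none : Mp K) ^ x.1 ∈ VV K 0 x.1 := by
      have := VV_pow_mem (t_mem_VV (K := K)) x.1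
      rwa [mul_one, mul_zero] at this
    rw [Fin.prod_univ_four]
    rw [Fin.sum_univ_four] at h2
    have h6 := VV_mul_mem h5 (VV_mul_mem (VV_mul_mem (VV_mul_mem (h4 0) (h4 1)) (h4 2)) (h4 3))
    have h7 : 0 + (x.2 0 + x.2 1 + x.2 2 + x.2 3) = r := by omega
    rw [h7] at h6
    exact VV_mono (by omega) h6
  exact h hF

end Conv

section Choice

variable {K : Type u} [Field K] {τ θ : Fin 4 → K} {Ω : Type v} [Field Ω] [Algebra K Ω]

/-- the space of forms is spanned by the monomials in the new variables. -/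
lemma V_lin (G : Pt τ θ Ω) (c c' : Matrix (Fin 4) (Fin 4) K) (h : c' * c = 1) (r s : ℕ) :
    G.V r s = Submodule.span K
      (Set.range fun x : (idx r s : Finset (ℕ × (Fin 4 → ℕ))) => G.av (lin c (mono x.1))) := by
  apply le_antisymm
  · rw [G.V_eq_span, Submodule.span_le]
    rintro _ ⟨x, hx, rfl⟩
    obtain ⟨h1, h2⟩ := mem_idx.1 hx
    have h3 := lin_mem (K := K) c' (mono_mem_VV h1 h2)
    have h4 : (VV K r s) ≤ (Submodule.span K (Set.range
        fun x : (idx r s : Finset (ℕ × (Fin 4 → ℕ))) => G.av (lin c (mono x.1)))).comap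
          (G.av.comp (lin c)).toLinearMap := by
      unfold VV
      rw [Submodule.span_le]
      rintro _ ⟨z, hz, rfl⟩
      exact Submodule.subset_span ⟨⟨z, hz⟩, rfl⟩
    have h5 := h4 h3
    rw [Submodule.mem_comap, AlgHom.toLinearMap_apply, AlgHom.comp_apply, lin_lin c c' h] at h5
    exact h5
  · rw [Submodule.span_le]
    rintro _ ⟨x, rfl⟩
    obtain ⟨h1, h2⟩ := mem_idx.1 x.2
    exact G.mem_V (lin_mem c (mono_mem_VV h1 h2))

/-- a set of exponents giving a basis of the space of forms. -/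
lemma exists_basis_idx (h2 : (2 : K) ≠ 0) (hτ : Function.Injective τ)
    (hθ : Function.Injective θ) (G : Pt τ θ Ω) (hG : G.Generic)
    (c c' : Matrix (Fin 4) (Fin 4) K) (h : c' * c = 1) (r s : ℕ) (hr : 1 ≤ r) :
    ∃ I : Finset (ℕ × (Fin 4 → ℕ)), I ⊆ idx r s ∧ I.card = 2 + 4 * s * r + 2 * r ^ 2 ∧
      ∀ d : ℕ × (Fin 4 → ℕ) → K, ∑ x ∈ I, d x • G.av (lin c (mono x)) = 0 →
        ∀ x ∈ I, d x = 0 := by
  classical
  obtain ⟨κ, a, ha, hs, hl⟩ := exists_linearIndependent' K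
    (fun x : (idx r s : Finset (ℕ × (Fin 4 → ℕ))) => G.av (lin c (mono x.1)))
  have : Finite κ := Finite.of_injective a ha
  have := Fintype.ofFinite κ
  have hcard : Fintype.card κ = 2 + 4 * s * r + 2 * r ^ 2 := by
    have h3 := finrank_span_eq_card hl
    rw [hs, ← V_lin G c c' h, G.finrank_V h2 hτ hθ hG r s hr] at h3
    exact h3.symm
  have hinj : Function.Injective (fun k : κ => ((a k : ℕ × (Fin 4 → ℕ)))) :=
    Subtype.val_injective.comp ha
  refine ⟨Finset.univ.map ⟨_, hinj⟩, ?_, ?_, ?_⟩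
  · intro x hx
    obtain ⟨k, -, rfl⟩ := Finset.mem_map.1 hx
    exact (a k).2
  · rw [Finset.card_map, Finset.card_univ, hcard]
  · intro d hd x hx
    obtain ⟨k, -, rfl⟩ := Finset.mem_map.1 hx
    rw [Finset.sum_map] at hd
    rw [Fintype.linearIndependent_iff] at hl
    exact hl (fun k => d (a k)) hd k

end Choice

section Sol

open Pool.Agent.Lib.SQF

/-- slice parameters. -/
noncomputable def tau (ζ : Fin 4 → ℂ) (f1 f2 : Fin 4 → ℤ) (i : Fin 4) : ℂ :=
  - ev f2 (ζ i) / ev f1 (ζ i)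

/-- A solution on the slice. -/
structure SZ (ζ : Fin 4 → ℂ) (f1 f2 : Fin 4 → ℤ) (u v n m : ℤ) (α : Fin 4 → ℤ) : Prop where
  v_ne : v ≠ 0
  m_ne : m ≠ 0
  n_ne : ∀ i, (n : ℂ) ≠ ζ i
  eqn : ∀ i, ev α (ζ i) ^ 2 * (u * ev f1 (ζ i) + v * ev f2 (ζ i)) = (m : ℂ) ^ 2 * (n - ζ i)

/-- a square root. -/
noncomputable def rt (x : ℂ) : ℂ :=
  Classical.choose (IsAlgClosed.exists_pow_nat_eq x (n := 2) (by norm_num))

lemma rt_sq (x : ℂ) : rt x ^ 2 = x :=
  Classical.choose_spec (IsAlgClosed.exists_pow_nat_eq x (n := 2) (by norm_num))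

variable {ζ : Fin 4 → ℂ} {f1 f2 : Fin 4 → ℤ}

/-- the matrix from `α` to `y`. -/
noncomputable def mat (ζ : Fin 4 → ℂ) (f1 : Fin 4 → ℤ) : Matrix (Fin 4) (Fin 4) ℂ :=
  Matrix.diagonal (fun i => rt (ev f1 (ζ i))) * Matrix.vandermonde ζ

lemma mat_det_ne (hζ : Function.Injective ζ) (h1 : ∀ i, ev f1 (ζ i) ≠ 0) :
    (mat ζ f1).det ≠ 0 := by
  unfold mat
  rw [Matrix.det_mul, Matrix.det_diagonal]
  refine mul_ne_zero (Finset.prod_ne_zero_iff.2 fun i _ h => h1 i ?_)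
    (Matrix.det_vandermonde_ne_zero_iff.2 hζ)
  rw [← rt_sq (ev f1 (ζ i)), h]
  norm_num

/-- the point of a solution. -/
noncomputable def pt (h1 : ∀ i, ev f1 (ζ i) ≠ 0) {u v n m : ℤ} {α : Fin 4 → ℤ}
    (h : SZ ζ f1 f2 u v n m α) : Pt (tau ζ f1 f2) ζ ℂ where
  t := u / v
  n := n
  y := fun i => rt v / m * (rt (ev f1 (ζ i)) * ev α (ζ i))
  hy := by
    intro i
    have hv : (v : ℂ) ≠ 0 := Int.cast_ne_zero.2 h.v_ne
    have hm : (m : ℂ) ≠ 0 := Int.cast_ne_zero.2 h.m_ne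
    have e1 := rt_sq (v : ℂ)
    have e2 := rt_sq (ev f1 (ζ i))
    have e3 := h.eqn i
    have e4 := h1 i
    rw [Algebra.algebraMap_self, RingHom.id_apply, RingHom.id_apply, tau, mul_pow, div_pow,
      mul_pow, e1, e2]
    field_simp
    linear_combination e3
  ht := by
    intro i
    have hv : (v : ℂ) ≠ 0 := Int.cast_ne_zero.2 h.v_ne
    have hm : (m : ℂ) ≠ 0 := Int.cast_ne_zero.2 h.m_ne
    have e3 := h.eqn i
    have e4 := h1 i
    rw [isUnit_iff_ne_zero, Algebra.algebraMap_self, RingHom.id_apply, tau]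
    intro h0
    have h5 : (u : ℂ) * ev f1 (ζ i) + v * ev f2 (ζ i) = 0 := by
      field_simp at h0
      linear_combination h0
    rw [h5, mul_zero] at e3
    rcases mul_eq_zero.1 e3.symm with h6 | h6
    · exact hm (pow_eq_zero_iff (two_ne_zero) |>.1 h6)
    · exact h.n_ne i (sub_eq_zero.1 h6)

lemma pt_y (h1 : ∀ i, ev f1 (ζ i) ≠ 0) {u v n m : ℤ} {α : Fin 4 → ℤ}
    (h : SZ ζ f1 f2 u v n m α) (i : Fin 4) :
    (pt h1 h).y i = rt v / m * ∑ j, mat ζ f1 i j * α j := by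
  simp only [pt, mat, Matrix.diagonal_mul, Matrix.vandermonde_apply, ev]
  rw [Finset.mul_sum]
  congr 1
  refine Finset.sum_congr rfl fun j _ => ?_
  ring

lemma pt_av (h1 : ∀ i, ev f1 (ζ i) ≠ 0) {u v n m : ℤ} {α : Fin 4 → ℤ}
    (h : SZ ζ f1 f2 u v n m α) (c : Matrix (Fin 4) (Fin 4) ℂ) (hc : c * mat ζ f1 = 1)
    {r s : ℕ} {x : ℕ × (Fin 4 → ℕ)} (hx : x ∈ idx r s) :
    (pt h1 h).av (lin c (mono x)) =
      (rt v / m) ^ r / (v : ℂ) ^ s * ((u : ℂ) ^ x.1 * (v : ℂ) ^ (s - x.1) * ∏ j, (α j : ℂ) ^ x.2 j) := by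
  obtain ⟨hx1, hx2⟩ := mem_idx.1 hx
  have hv : (v : ℂ) ≠ 0 := Int.cast_ne_zero.2 h.v_ne
  have hlin : ∀ j, (pt h1 h).av (lin c (MvPolynomial.X (some j))) = rt v / m * α j := by
    intro j
    rw [lin_some, map_sum]
    have h3 : ∀ i, (pt h1 h).av (c j i • MvPolynomial.X (some i)) =
        rt v / m * ∑ k, c j i * mat ζ f1 i k * α k := by
      intro i
      rw [map_smul]
      have h4 : (pt h1 h).av (MvPolynomial.X (some i)) = (pt h1 h).y i := by simp [Pt.av]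
      rw [h4, pt_y, smul_eq_mul, mul_left_comm, Finset.mul_sum]
      congr 1
      refine Finset.sum_congr rfl fun k _ => ?_
      ring
    simp only [h3]
    rw [← Finset.mul_sum, Finset.sum_comm]
    simp only [← Finset.sum_mul, ← Matrix.mul_apply, hc, Matrix.one_apply]
    congr 1
    simp
  have ht : (pt h1 h).av (lin c (MvPolynomial.X none)) = u / v := by
    rw [lin_none]
    simp [Pt.av, pt]
  unfold mono
  rw [map_mul, map_mul, map_pow, map_pow, map_prod, map_prod, ht]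
  simp only [map_pow, hlin, mul_pow, Finset.prod_mul_distrib]
  rw [Finset.prod_pow_eq_pow_sum, hx2, div_pow]
  obtain ⟨k, rfl⟩ := Nat.exists_eq_add_of_le hx1
  rw [Nat.add_sub_cancel_left, pow_add]
  field_simp

/-- **Norms of nonzero combinations of monomials.** -/
theorem exists_idx (hζ : Function.Injective ζ) (h1 : ∀ i, ev f1 (ζ i) ≠ 0)
    (hτ : Function.Injective (tau ζ f1 f2)) (r s : ℕ) (hr : 1 ≤ r) :
    ∃ I : Finset (ℕ × (Fin 4 → ℕ)), I ⊆ idx r s ∧ I.card = 2 + 4 * s * r + 2 * r ^ 2 ∧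
      ∀ d : ℕ × (Fin 4 → ℕ) → ℂ, (∃ x ∈ I, d x ≠ 0) →
        ∀ (e : ℕ), 32 * r * s + 48 * r ^ 2 ≤ e →
        ∀ {ι : Type w} (u v n m : ι → ℤ) (α : ι → Fin 4 → ℤ)
          (_ : ∀ z, SZ ζ f1 f2 (u z) (v z) (n z) (m z) (α z)) {T : ℤ} (_ : 1 ≤ T)
          (_ : ∀ z, |u z| ≤ T) (_ : ∀ z, |v z| ≤ T) (_ : ∀ z, |n z| ≤ T),
        ∃ N : ℤ[X][X], N ≠ 0 ∧ N.natDegree ≤ 4 * r ∧ (∀ i, (N.coeff i).natDegree ≤ e) ∧
          (∀ i j, |(N.coeff i).coeff j| ≤ ((4 * r + 1) * (e + 1)).factorial *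
            (T ^ (e + 4 * r)) ^ ((4 * r + 1) * (e + 1))) ∧
          ∀ z, ∑ x ∈ I, d x * ((u z : ℂ) ^ x.1 * (v z : ℂ) ^ (s - x.1) *
              ∏ j, (α z j : ℂ) ^ x.2 j) = 0 →
            ∑ i ∈ Finset.range (4 * r + 1), ∑ j ∈ Finset.range (e + 1),
              (N.coeff i).coeff j * (u z ^ j * v z ^ (e - j) * n z ^ i) = 0 := by
  classical
  obtain ⟨Ω, _, _, _, G, hG⟩ := exists_generic (tau ζ f1 f2) ζ
  have h2 : (2 : ℂ) ≠ 0 := two_ne_zero
  set c : Matrix (Fin 4) (Fin 4) ℂ := (mat ζ f1)⁻¹ with hc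
  have hdet : IsUnit (mat ζ f1).det := isUnit_iff_ne_zero.2 (mat_det_ne hζ h1)
  have hcm : c * mat ζ f1 = 1 := Matrix.nonsing_inv_mul _ hdet
  have hmc : mat ζ f1 * c = 1 := Matrix.mul_nonsing_inv _ hdet
  obtain ⟨I, hI, hcard, hind⟩ := exists_basis_idx h2 hτ hζ G hG c (mat ζ f1) hmc r s hr
  refine ⟨I, hI, hcard, ?_⟩
  intro d hd e he ι u v n m α hz T hT hu hv hn
  set F : Mp ℂ := lin c (∑ x ∈ I, d x • mono x) with hF
  have hFm : F ∈ VV ℂ r s := by
    refine lin_mem c (Submodule.sum_mem _ fun x hx => Submodule.smul_mem _ _ ?_)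
    obtain ⟨h3, h4⟩ := mem_idx.1 (hI hx)
    exact mono_mem_VV h3 h4
  have hav : ∀ {E : Type} [CommRing E] [Algebra ℂ E] (P : Pt (tau ζ f1 f2) ζ E),
      P.av F = ∑ x ∈ I, d x • P.av (lin c (mono x)) := by
    intro E _ _ P
    rw [hF, map_sum, map_sum]
    refine Finset.sum_congr rfl fun x _ => ?_
    rw [map_smul, map_smul]
  have hF0 : G.av F ≠ 0 := by
    rw [hav]
    intro h0
    obtain ⟨x, hx, hx0⟩ := hd
    exact hx0 (hind d h0 x hx)
  obtain ⟨N, hN, hN1, hN2, hN3, hN4⟩ := norm_n h2 hτ hζ G hG (L := ℂ) hr he hFm hF0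
    u v n (fun z => pt h1 (hz z)) hT hu hv hn
    (fun z => by
      have hv : ((v z : ℤ) : ℂ) ≠ 0 := Int.cast_ne_zero.2 (hz z).v_ne
      simp only [pt]
      field_simp)
    (fun z => rfl)
  refine ⟨N, hN, hN1, hN2, hN3, fun z h0 => hN4 z ?_⟩
  rw [hav]
  have h6 : ∀ x ∈ I, d x • (pt h1 (hz z)).av (lin c (mono x)) =
      (rt (v z) / m z) ^ r / (v z : ℂ) ^ s *
        (d x * ((u z : ℂ) ^ x.1 * (v z : ℂ) ^ (s - x.1) * ∏ j, (α z j : ℂ) ^ x.2 j)) := by
    intro x hx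
    rw [pt_av h1 (hz z) c hcm (hI hx), smul_eq_mul]
    ring
  rw [Finset.sum_congr rfl h6, ← Finset.mul_sum, h0, mul_zero]

end Sol

end Pool.Agent.SQF.LamZ
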