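import Mathlib
import Pool.Agent.Lib.SQF.LamZ

/-!
# From `IsSol` and a slice to the hypotheses of `LamZ.exists_idx` (helper72)

* `exists_roots` : the four distinct complex roots of a monic irreducible quartic;
* `ev_ne_zero` : a nonzero integer vector has nonzero values at the roots;
* `f1_ne`, `tau_inj` : consequences of the non-special hypothesis;
* `sz_of_isSol` : `IsSol` and `OnSlice` give `SZ`.
* `lamS` : `LamZ.exists_idx` for solutions in the sense of `IsSol`.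
-/

open Polynomial Finset

namespace Pool.Agent.SQF.LamZ

open Pool.Agent.SQF.LamA Pool.Agent.Lib.SQF

lemma isInt_irr {g : ℤ[X]} (hg : g.Monic) (hi : Irreducible g) :
    Irreducible (g.map (Int.castRingHom ℚ)) :=
  (hg.irreducible_iff_irreducible_map_fraction_map (K := ℚ)).1 hi

/-- The distinct complex roots of a monic irreducible polynomial. -/
theorem exists_roots {g : ℤ[X]} (hg : g.Monic) (hi : Irreducible g) {d : ℕ}
    (hd : g.natDegree = d) :
    ∃ ζ : Fin d → ℂ, Function.Injective ζ ∧ (∀ i, aeval (ζ i) g = 0) ∧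
      ∀ z : ℂ, aeval z g = 0 → ∃ i, ζ i = z := by
  classical
  have hi' := isInt_irr hg hi
  have hsep : (g.map (Int.castRingHom ℚ)).Separable := hi'.separable
  set gc : ℂ[X] := g.map (Int.castRingHom ℂ) with hgc
  have hgc' : gc = (g.map (Int.castRingHom ℚ)).map (algebraMap ℚ ℂ) := by
    rw [Polynomial.map_map]
    congr 1
  have hsepc : gc.Separable := by rw [hgc']; exact hsep.map
  have hgc0 : gc ≠ 0 := (hg.map _).ne_zero
  have hcard : gc.roots.toFinset.card = d := by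
    rw [Multiset.toFinset_card_of_nodup (nodup_roots hsepc),
      ← (IsAlgClosed.splits gc).natDegree_eq_card_roots, hgc, hg.natDegree_map, hd]
  let e := (gc.roots.toFinset.equivFinOfCardEq hcard).symm
  have hroot : ∀ z : ℂ, aeval z g = 0 ↔ z ∈ gc.roots.toFinset := by
    intro z
    rw [Multiset.mem_toFinset, mem_roots hgc0, IsRoot.def, hgc, eval_map]
    rfl
  refine ⟨fun i => (e i : ℂ), Subtype.val_injective.comp e.injective, fun i =>
    (hroot _).2 (e i).2, fun z hz => ?_⟩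
  obtain ⟨i, hi⟩ := e.surjective ⟨z, (hroot z).1 hz⟩
  exact ⟨i, by simp [hi]⟩

/-- nonzero integer vectors have nonzero values at the roots. -/
theorem ev_ne_zero {g : ℤ[X]} (hg : g.Monic) (hi : Irreducible g) {d : ℕ}
    (hd : g.natDegree = d) {a : Fin d → ℤ} (ha : a ≠ 0) {z : ℂ} (hz : aeval z g = 0) :
    ev a z ≠ 0 := by
  classical
  intro h
  rw [← aeval_pol] at h
  have hi' := isInt_irr hg hi
  have hz' : aeval z (g.map (Int.castRingHom ℚ)) = 0 := by
    have : (g.map (Int.castRingHom ℚ)) = g.map (algebraMap ℤ ℚ) := rfl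
    rw [this, aeval_map_algebraMap]
    exact hz
  have h' : aeval z ((pol a).map (Int.castRingHom ℚ)) = 0 := by
    have : ((pol a).map (Int.castRingHom ℚ)) = (pol a).map (algebraMap ℤ ℚ) := rfl
    rw [this, aeval_map_algebraMap]
    exact h
  have hmin : minpoly ℚ z = g.map (Int.castRingHom ℚ) :=
    (minpoly.eq_of_irreducible_of_monic hi' hz' (hg.map _)).symm
  have hdvd : g.map (Int.castRingHom ℚ) ∣ (pol a).map (Int.castRingHom ℚ) := by
    rw [← hmin]
    exact minpoly.dvd ℚ z h'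
  have hcoef : ∀ i : Fin d, (pol a).coeff i = a i := by
    intro i
    unfold pol
    rw [finsetSum_coeff, Finset.sum_eq_single i]
    · simp
    · intro j _ hj
      rw [coeff_C_mul_X_pow, if_neg]
      intro h1
      exact hj (Fin.ext h1.symm)
    · simp
  have hne : (pol a).map (Int.castRingHom ℚ) ≠ 0 := by
    intro h0
    apply ha
    funext i
    have h1 := congrArg (fun p : ℚ[X] => p.coeff i) h0
    simp only [coeff_map, coeff_zero, hcoef, eq_intCast, Int.cast_eq_zero] at h1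
    exact h1
  have hdeg : (pol a).degree < d := by
    unfold pol
    refine (degree_sum_le _ _).trans_lt ?_
    refine (Finset.sup_lt_iff (WithBot.bot_lt_coe d)).2 fun i _ => ?_
    exact (degree_C_mul_X_pow_le _ _).trans_lt (WithBot.coe_lt_coe.2 i.2)
  have h2 := natDegree_le_of_dvd hdvd hne
  rw [hg.natDegree_map, hd] at h2
  have h3 : ((pol a).map (Int.castRingHom ℚ)).degree < d := (degree_map_le).trans_lt hdeg
  rw [degree_eq_natDegree hne] at h3
  have h4 : ((pol a).map (Int.castRingHom ℚ)).natDegree < d := by exact_mod_cast h3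
  omega

/-- an integer is not a root. -/
theorem int_ne_root {g : ℤ[X]} (hi : Irreducible g) (hd : 2 ≤ g.natDegree)
    (n : ℤ) {z : ℂ} (hz : aeval z g = 0) : (n : ℂ) ≠ z := by
  intro h
  have h1 : (aeval (n : ℂ) g) = ((g.eval n : ℤ) : ℂ) := by
    rw [aeval_def, ← eval_map]
    change eval (n : ℂ) (g.map (Int.castRingHom ℂ)) = _
    rw [eval_intCast_map]
    rfl
  rw [← h, h1] at hz
  have h2 : g.IsRoot n := by
    rw [IsRoot.def]
    exact_mod_cast hz
  have h3 : (X - C n) ∣ g := dvd_iff_isRoot.2 h2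
  have h4 := hi.dvd_iff.1 h3
  rcases h4 with h4 | h4
  · exact not_isUnit_X_sub_C n h4
  · have h5 := natDegree_eq_of_degree_eq (degree_eq_degree_of_associated h4)
    rw [natDegree_X_sub_C] at h5
    omega

/-- the slice is not special. -/
def NonSpecial {d : ℕ} (g : ℤ[X]) (f1 f2 : Fin d → ℤ) : Prop :=
  ∀ z z' : ℂ, aeval z g = 0 → aeval z' g = 0 → z ≠ z' → ev f1 z * ev f2 z' ≠ ev f1 z' * ev f2 z

theorem f1_ne {g : ℤ[X]} {d : ℕ} {f1 f2 : Fin d → ℤ} (h : NonSpecial g f1 f2)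
    {ζ : Fin d → ℂ} (hζ : Function.Injective ζ) (hr : ∀ i, aeval (ζ i) g = 0) (hd : 2 ≤ d) :
    f1 ≠ 0 := by
  rintro rfl
  refine h (ζ ⟨0, by omega⟩) (ζ ⟨1, by omega⟩) (hr _) (hr _) (hζ.ne ?_) ?_
  · intro h1
    have := congrArg Fin.val h1
    simp at this
  · simp [ev]

theorem tau_inj {g : ℤ[X]} {f1 f2 : Fin 4 → ℤ} (h : NonSpecial g f1 f2)
    {ζ : Fin 4 → ℂ} (hζ : Function.Injective ζ) (hr : ∀ i, aeval (ζ i) g = 0)
    (h1 : ∀ i, ev f1 (ζ i) ≠ 0) : Function.Injective (tau ζ f1 f2) := by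
  intro i j hij
  by_contra hne
  refine h _ _ (hr i) (hr j) (hζ.ne hne) ?_
  unfold tau at hij
  have hi := h1 i
  have hj := h1 j
  field_simp at hij
  linear_combination hij

theorem sz_of_isSol {g : ℤ[X]} (hi : Irreducible g) (hd : g.natDegree = 4)
    {ζ : Fin 4 → ℂ} (hr : ∀ i, aeval (ζ i) g = 0) {K Y P : ℝ} {n : ℤ} {p : ℕ}
    {α β f1 f2 : Fin 4 → ℤ} {m u v : ℤ} (h : IsSol 4 g K Y P n p α β m)
    (hs : OnSlice f1 f2 β u v) (hv : v ≠ 0) : SZ ζ f1 f2 u v n m α where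
  v_ne := hv
  m_ne := h.m_ne
  n_ne := fun i => int_ne_root hi (by omega) n (hr i)
  eqn := fun i => by rw [← h.eq_at (hr i), ev_slice hs]

/-- **`exists_idx` for a slice which is not special.** -/
theorem lamS {g : ℤ[X]} (hg : g.Monic) (hi : Irreducible g) (hd : g.natDegree = 4)
    {f1 f2 : Fin 4 → ℤ} (hs : NonSpecial g f1 f2) (r s : ℕ) (hr : 1 ≤ r) :
    ∃ I : Finset (ℕ × (Fin 4 → ℕ)), I ⊆ idx r s ∧ I.card = 2 + 4 * s * r + 2 * r ^ 2 ∧
      ∀ d : ℕ × (Fin 4 → ℕ) → ℤ, (∃ x ∈ I, d x ≠ 0) →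
        ∀ (e : ℕ), 32 * r * s + 48 * r ^ 2 ≤ e →
        ∀ (K Y P : ℝ) (m : ℤ) (S : Set ℤ) (p : ℤ → ℕ) (α β : ℤ → Fin 4 → ℤ) (u v : ℤ → ℤ)
          (_ : ∀ n ∈ S, IsSol 4 g K Y P n (p n) (α n) (β n) m)
          (_ : ∀ n ∈ S, OnSlice f1 f2 (β n) (u n) (v n))
          (_ : ∀ n ∈ S, v n ≠ 0) {T : ℤ} (_ : 1 ≤ T)
          (_ : ∀ n ∈ S, |u n| ≤ T) (_ : ∀ n ∈ S, |v n| ≤ T) (_ : ∀ n ∈ S, |n| ≤ T),
        ∃ N : ℤ[X][X], N ≠ 0 ∧ N.natDegree ≤ 4 * r ∧ (∀ i, (N.coeff i).natDegree ≤ e) ∧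
          (∀ i j, |(N.coeff i).coeff j| ≤ ((4 * r + 1) * (e + 1)).factorial *
            (T ^ (e + 4 * r)) ^ ((4 * r + 1) * (e + 1))) ∧
          ∀ n ∈ S, ∑ x ∈ I, d x * (u n ^ x.1 * v n ^ (s - x.1) * ∏ j, α n j ^ x.2 j) = 0 →
            ∑ i ∈ Finset.range (4 * r + 1), ∑ j ∈ Finset.range (e + 1),
              (N.coeff i).coeff j * (u n ^ j * v n ^ (e - j) * n ^ i) = 0 := by
  obtain ⟨ζ, hζ, hroot, -⟩ := exists_roots hg hi hd
  have hf1 := f1_ne hs hζ hroot (by norm_num)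
  have h1 : ∀ i, ev f1 (ζ i) ≠ 0 := fun i => ev_ne_zero hg hi hd hf1 (hroot i)
  obtain ⟨I, hI, hcard, hmain⟩ := exists_idx.{0} hζ h1 (tau_inj hs hζ hroot h1) r s hr
  refine ⟨I, hI, hcard, ?_⟩
  intro d hdne e he K Y P m S p α β u v hsol hon hv T hT hu hv' hn
  obtain ⟨x, hx, hx0⟩ := hdne
  obtain ⟨N, hN, hN1, hN2, hN3, hN4⟩ := hmain (fun x => (d x : ℂ))
    ⟨x, hx, by exact_mod_cast hx0⟩ e he (ι := S) (fun z => u z) (fun z => v z) (fun z => z)
    (fun _ => m) (fun z => α z)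
    (fun z => sz_of_isSol hi hd hroot (hsol z z.2) (hon z z.2) (hv z z.2)) hT
    (fun z => hu z z.2) (fun z => hv' z z.2) (fun z => hn z z.2)
  refine ⟨N, hN, hN1, hN2, hN3, fun n hn h0 => hN4 ⟨n, hn⟩ ?_⟩
  have h2 : ((∑ x ∈ I, d x * (u n ^ x.1 * v n ^ (s - x.1) * ∏ j, α n j ^ x.2 j) : ℤ) : ℂ) = 0 := by
    rw [h0, Int.cast_zero]
  push_cast at h2
  exact h2

end Pool.Agent.SQF.LamZ
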