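import Mathlib
import Pool.Agent.Lib.SQF4.TailMul

/-!
# SQF, module Final: from the window bounds to the density

`wset g Y P`: the `n` with `Y ≤ |n| < 2Y` and `p² ∣ g(n)` for some prime `p ∈ [P, 2P)`.
`RangeBound g d1 d2`: a power saving for all windows with `Y^(1+d1) ≤ P ≤ Y^(1+d2)`.
`tail_of_range`: the range `[-e, deg/2 - 1 + e]` gives the power saving for the tail.
`tailSmall_of_range`: the tail of every irreducible polynomial (not necessarily monic).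
-/

set_option autoImplicit false

open Polynomial Filter Topology

namespace Pool.Agent.Lib.SQF

/-- the set of `n` with `Y ≤ |n| < 2Y` and `p² ∣ g(n)` for some prime `p` in `[P, 2P)` -/
def wset (g : ℤ[X]) (Y P : ℝ) : Set ℤ :=
  {n : ℤ | Y ≤ |(n : ℝ)| ∧ |(n : ℝ)| < 2 * Y ∧
    ∃ p : ℕ, p.Prime ∧ P ≤ (p : ℝ) ∧ (p : ℝ) < 2 * P ∧ (p : ℤ) ^ 2 ∣ g.eval n}

/-- the number of `n` with `Y ≤ |n| < 2Y` and `p² ∣ g(n)` for some prime `p` in `[P, 2P)` -/
noncomputable def wcount (g : ℤ[X]) (Y P : ℝ) : ℕ := (wset g Y P).ncard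

/-- power saving for all windows with `Y ^ (1 + d1) ≤ P ≤ Y ^ (1 + d2)` -/
def RangeBound (g : ℤ[X]) (d1 d2 : ℝ) : Prop :=
  ∃ c : ℝ, 0 < c ∧ ∃ K : ℝ, ∀ Y P : ℝ, 1 ≤ Y → Y ^ (1 + d1) ≤ P → P ≤ Y ^ (1 + d2) →
    (wcount g Y P : ℝ) ≤ K * Y ^ (1 - c)

/-- power saving for all windows with `Y ≤ L P`, `P ≤ Y ^ (1 + s)`, for every constant `L` -/
def RangeBoundL (g : ℤ[X]) (s : ℝ) : Prop :=
  ∀ L : ℝ, 1 ≤ L → ∃ c : ℝ, 0 < c ∧ ∃ K : ℝ, ∀ Y P : ℝ, 1 ≤ Y → Y ≤ L * P → P ≤ Y ^ (1 + s) →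
    (wcount g Y P : ℝ) ≤ K * Y ^ (1 - c)

lemma ball_finite (T : ℝ) : {n : ℤ | |(n : ℝ)| ≤ T}.Finite := by
  refine (Set.finite_Icc (-⌊T⌋) ⌊T⌋).subset ?_
  intro n hn
  have h := abs_le.1 (show |(n : ℝ)| ≤ T from hn)
  constructor
  · have : -T ≤ n := h.1
    have h2 : -n ≤ ⌊T⌋ := Int.le_floor.2 (by push_cast; linarith)
    linarith
  · exact Int.le_floor.2 h.2

lemma ball_ncard (T : ℝ) (hT : 0 ≤ T) : ({n : ℤ | |(n : ℝ)| ≤ T}.ncard : ℝ) ≤ 2 * T + 1 := by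
  have h1 : {n : ℤ | |(n : ℝ)| ≤ T} ⊆ (Finset.Icc (-⌊T⌋) ⌊T⌋ : Finset ℤ) := by
    intro n hn
    have h := abs_le.1 (show |(n : ℝ)| ≤ T from hn)
    rw [Finset.coe_Icc]
    constructor
    · have : -T ≤ n := h.1
      have h2 : -n ≤ ⌊T⌋ := Int.le_floor.2 (by push_cast; linarith)
      linarith
    · exact Int.le_floor.2 h.2
  have h2 := Set.ncard_le_ncard h1 (Finset.finite_toSet _)
  rw [Set.ncard_coe_finset, Int.card_Icc] at h2
  have h3 : 0 ≤ ⌊T⌋ := Int.floor_nonneg.2 hT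
  have h4 : ((⌊T⌋ + 1 - -⌊T⌋).toNat : ℝ) = 2 * ⌊T⌋ + 1 := by
    have : ((⌊T⌋ + 1 - -⌊T⌋).toNat : ℤ) = 2 * ⌊T⌋ + 1 := by
      rw [Int.toNat_of_nonneg (by omega)]; ring
    exact_mod_cast this
  have h5 : ({n : ℤ | |(n : ℝ)| ≤ T}.ncard : ℝ) ≤ ((⌊T⌋ + 1 - -⌊T⌋).toNat : ℝ) := by
    exact_mod_cast h2
  have h6 := Int.floor_le T
  linarith

lemma wset_finite (g : ℤ[X]) (Y P : ℝ) : (wset g Y P).Finite :=
  (ball_finite (2 * Y)).subset (fun _ hn => hn.2.1.le)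

/-- the trivial bound -/
lemma wcount_le (g : ℤ[X]) (Y P : ℝ) (hY : 1 ≤ Y) : (wcount g Y P : ℝ) ≤ 5 * Y := by
  have h1 : (wset g Y P).ncard ≤ {n : ℤ | |(n : ℝ)| ≤ 2 * Y}.ncard :=
    Set.ncard_le_ncard (fun _ hn => hn.2.1.le) (ball_finite _)
  have h2 := ball_ncard (2 * Y) (by linarith)
  have h3 : (wcount g Y P : ℝ) ≤ ({n : ℤ | |(n : ℝ)| ≤ 2 * Y}.ncard : ℝ) := by
    exact_mod_cast h1
  linarith

lemma RangeBound.mono {g : ℤ[X]} {a b a' b' : ℝ} (h : RangeBound g a b) (ha : a ≤ a')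
    (hb : b' ≤ b) : RangeBound g a' b' := by
  obtain ⟨c, hc, K, hK⟩ := h
  refine ⟨c, hc, K, fun Y P hY h1 h2 => hK Y P hY ?_ ?_⟩
  · exact (Real.rpow_le_rpow_of_exponent_le hY (by linarith)).trans h1
  · exact h2.trans (Real.rpow_le_rpow_of_exponent_le hY (by linarith))

/-- a smaller saving, a larger constant -/
lemma rpow_weaken {Y c c' K K' : ℝ} (hY : 1 ≤ Y) (hc : c' ≤ c) (hK : |K| ≤ K') :
    K * Y ^ (1 - c) ≤ K' * Y ^ (1 - c') := by
  have h0 : 0 ≤ Y ^ (1 - c) := Real.rpow_nonneg (by linarith) _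
  have h1 : Y ^ (1 - c) ≤ Y ^ (1 - c') := Real.rpow_le_rpow_of_exponent_le hY (by linarith)
  calc K * Y ^ (1 - c) ≤ |K| * Y ^ (1 - c) := mul_le_mul_of_nonneg_right (le_abs_self K) h0
    _ ≤ |K| * Y ^ (1 - c') := mul_le_mul_of_nonneg_left h1 (abs_nonneg K)
    _ ≤ K' * Y ^ (1 - c') := mul_le_mul_of_nonneg_right hK (h0.trans h1)

/-- ranges are glued -/
lemma RangeBound.glue {g : ℤ[X]} {a b c : ℝ} (h1 : RangeBound g a b) (h2 : RangeBound g b c) :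
    RangeBound g a c := by
  obtain ⟨c1, hc1, K1, hK1⟩ := h1
  obtain ⟨c2, hc2, K2, hK2⟩ := h2
  refine ⟨min c1 c2, lt_min hc1 hc2, max |K1| |K2|, fun Y P hY hP1 hP2 => ?_⟩
  rcases le_total P (Y ^ (1 + b)) with h | h
  · exact (hK1 Y P hY hP1 h).trans (rpow_weaken hY (min_le_left _ _) (le_max_left _ _))
  · exact (hK2 Y P hY h hP2).trans (rpow_weaken hY (min_le_right _ _) (le_max_right _ _))

/-- gluing at the lower end -/
lemma RangeBoundL.glue {g : ℤ[X]} {a b : ℝ} (h1 : RangeBoundL g a) (h2 : RangeBound g a b) :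
    RangeBoundL g b := by
  intro L hL
  obtain ⟨c1, hc1, K1, hK1⟩ := h1 L hL
  obtain ⟨c2, hc2, K2, hK2⟩ := h2
  refine ⟨min c1 c2, lt_min hc1 hc2, max |K1| |K2|, fun Y P hY hP1 hP2 => ?_⟩
  rcases le_total P (Y ^ (1 + a)) with h | h
  · exact (hK1 Y P hY hP1 h).trans (rpow_weaken hY (min_le_left _ _) (le_max_left _ _))
  · exact (hK2 Y P hY h hP2).trans (rpow_weaken hY (min_le_right _ _) (le_max_right _ _))

lemma RangeBoundL.mono {g : ℤ[X]} {a b : ℝ} (h : RangeBoundL g a) (hb : b ≤ a) :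
    RangeBoundL g b := by
  intro L hL
  obtain ⟨c, hc, K, hK⟩ := h L hL
  exact ⟨c, hc, K, fun Y P hY h1 h2 => hK Y P hY h1
    (h2.trans (Real.rpow_le_rpow_of_exponent_le hY (by linarith)))⟩

/-- finitely many windows sizes do not matter: it is enough to treat `Y ≥ Y0` -/
lemma RangeBound.of_large {g : ℤ[X]} {a b : ℝ} (c Y0 K : ℝ) (hc : 0 < c)
    (h : ∀ Y P : ℝ, 1 ≤ Y → Y0 ≤ Y → Y ^ (1 + a) ≤ P → P ≤ Y ^ (1 + b) →
      (wcount g Y P : ℝ) ≤ K * Y ^ (1 - c)) : RangeBound g a b := by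
  refine ⟨min c 1, lt_min hc one_pos, max |K| (5 * |Y0|), fun Y P hY h1 h2 => ?_⟩
  by_cases hY0 : Y0 ≤ Y
  · exact (h Y P hY hY0 h1 h2).trans (rpow_weaken hY (min_le_left _ _) (le_max_left _ _))
  · push Not at hY0
    have h3 := wcount_le g Y P hY
    have h4 : 1 ≤ Y ^ (1 - min c 1) := Real.one_le_rpow hY (by linarith [min_le_right c 1])
    have h5 : 5 * Y ≤ max |K| (5 * |Y0|) := by
      refine le_trans ?_ (le_max_right _ _)
      have := le_abs_self Y0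
      linarith
    have h6 : 0 ≤ max |K| (5 * |Y0|) := le_trans (abs_nonneg K) (le_max_left _ _)
    nlinarith

/-- the same for `RangeBoundL` -/
lemma RangeBoundL.of_large {g : ℤ[X]} {b : ℝ}
    (h : ∀ L : ℝ, 1 ≤ L → ∃ c : ℝ, 0 < c ∧ ∃ Y0 K : ℝ, ∀ Y P : ℝ, 1 ≤ Y → Y0 ≤ Y → Y ≤ L * P →
      P ≤ Y ^ (1 + b) → (wcount g Y P : ℝ) ≤ K * Y ^ (1 - c)) : RangeBoundL g b := by
  intro L hL
  obtain ⟨c, hc, Y0, K, hK⟩ := h L hL
  refine ⟨min c 1, lt_min hc one_pos, max |K| (5 * |Y0|), fun Y P hY h1 h2 => ?_⟩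
  by_cases hY0 : Y0 ≤ Y
  · exact (hK Y P hY hY0 h1 h2).trans (rpow_weaken hY (min_le_left _ _) (le_max_left _ _))
  · push Not at hY0
    have h3 := wcount_le g Y P hY
    have h4 : 1 ≤ Y ^ (1 - min c 1) := Real.one_le_rpow hY (by linarith [min_le_right c 1])
    have h5 : 5 * Y ≤ max |K| (5 * |Y0|) := by
      refine le_trans ?_ (le_max_right _ _)
      have := le_abs_self Y0
      linarith
    have h6 : 0 ≤ max |K| (5 * |Y0|) := le_trans (abs_nonneg K) (le_max_left _ _)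
    nlinarith

/-- a negative lower end is stronger -/
lemma RangeBound.toL {g : ℤ[X]} {e b : ℝ} (he : 0 < e) (h : RangeBound g (-e) b) :
    RangeBoundL g b := by
  obtain ⟨c, hc, K, hK⟩ := h
  refine RangeBoundL.of_large (fun L hL => ⟨c, hc, L ^ (1 / e), K, fun Y P hY hY0 h1 h2 =>
    hK Y P hY ?_ h2⟩)
  have hL0 : 0 < L := by linarith
  have hY0' : 0 < Y := by linarith
  have h3 : L ≤ Y ^ e := by
    calc L = (L ^ (1 / e)) ^ e := by
          rw [← Real.rpow_mul hL0.le, one_div, inv_mul_cancel₀ he.ne', Real.rpow_one]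
      _ ≤ Y ^ e := Real.rpow_le_rpow (by positivity) hY0 he.le
  have h4 : Y ^ (1 + -e) * Y ^ e = Y := by
    rw [← Real.rpow_add hY0', show 1 + -e + e = 1 by ring, Real.rpow_one]
  have h5 : 0 < Y ^ (1 + -e) := by positivity
  by_contra hcon
  push Not at hcon
  have h6 : L * P < Y := by
    calc L * P < L * Y ^ (1 + -e) := mul_lt_mul_of_pos_left hcon hL0
      _ ≤ Y ^ e * Y ^ (1 + -e) := mul_le_mul_of_nonneg_right h3 h5.le
      _ = Y := by rw [mul_comm]; exact h4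
  linarith

/-- the values are bounded by `B |n| ^ deg` -/
lemma exists_val_bound (g : ℤ[X]) : ∃ B : ℝ, 1 ≤ B ∧ ∀ n : ℤ, 1 ≤ |(n : ℝ)| →
    |((g.eval n : ℤ) : ℝ)| ≤ B * |(n : ℝ)| ^ g.natDegree := by
  refine ⟨1 + ∑ i ∈ Finset.range (g.natDegree + 1), |((g.coeff i : ℤ) : ℝ)|, ?_, ?_⟩
  · have : 0 ≤ ∑ i ∈ Finset.range (g.natDegree + 1), |((g.coeff i : ℤ) : ℝ)| :=
      Finset.sum_nonneg (fun _ _ => abs_nonneg _)
    linarith
  · intro n hn
    have h1 : ((g.eval n : ℤ) : ℝ) =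
        ∑ i ∈ Finset.range (g.natDegree + 1), ((g.coeff i : ℤ) : ℝ) * (n : ℝ) ^ i := by
      rw [eval_eq_sum_range]; push_cast; rfl
    rw [h1]
    calc |∑ i ∈ Finset.range (g.natDegree + 1), ((g.coeff i : ℤ) : ℝ) * (n : ℝ) ^ i|
        ≤ ∑ i ∈ Finset.range (g.natDegree + 1), |((g.coeff i : ℤ) : ℝ) * (n : ℝ) ^ i| :=
          Finset.abs_sum_le_sum_abs _ _
      _ ≤ ∑ i ∈ Finset.range (g.natDegree + 1),
            |((g.coeff i : ℤ) : ℝ)| * |(n : ℝ)| ^ g.natDegree := by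
          refine Finset.sum_le_sum (fun i hi => ?_)
          rw [abs_mul, abs_pow]
          refine mul_le_mul_of_nonneg_left ?_ (abs_nonneg _)
          exact pow_le_pow_right₀ hn (by rw [Finset.mem_range] at hi; omega)
      _ = (∑ i ∈ Finset.range (g.natDegree + 1), |((g.coeff i : ℤ) : ℝ)|) *
            |(n : ℝ)| ^ g.natDegree := by rw [Finset.sum_mul]
      _ ≤ _ := by
          refine mul_le_mul_of_nonneg_right (by linarith) (pow_nonneg (abs_nonneg _) _)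

/-- the number of dyadic scales -/
lemma scales (ε : ℝ) (hε : 0 < ε) : ∃ K : ℝ, 0 < K ∧ ∀ (Z : ℝ) (i : ℕ), 1 ≤ Z → (2 : ℝ) ^ i ≤ Z →
    (i : ℝ) + 1 ≤ K * Z ^ ε := by
  refine ⟨1 / (Real.log 2 * ε) + 1, by positivity, fun Z i hZ hi => ?_⟩
  have hlog2 : 0 < Real.log 2 := Real.log_pos (by norm_num)
  have h1 : (i : ℝ) * Real.log 2 ≤ Real.log Z := by
    rw [← Real.log_pow]
    exact Real.log_le_log (by positivity) hi
  have h2 : Real.log Z ≤ Z ^ ε / ε := Real.log_le_rpow_div (by linarith) hε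
  have h3 : 1 ≤ Z ^ ε := Real.one_le_rpow hZ hε.le
  have h4 : (i : ℝ) ≤ Z ^ ε / ε / Real.log 2 := by
    rw [le_div_iff₀ hlog2]; linarith
  calc (i : ℝ) + 1 ≤ Z ^ ε / ε / Real.log 2 + Z ^ ε := by linarith
    _ = (1 / (Real.log 2 * ε) + 1) * Z ^ ε := by field_simp

/-- the tail set -/
def tset (g : ℤ[X]) (A X : ℝ) : Set ℤ :=
  {n : ℤ | |(n : ℝ)| ≤ A * X ∧ ∃ p : ℕ, p.Prime ∧ X < (p : ℝ) ∧ (p : ℤ) ^ 2 ∣ g.eval n}

lemma tset_finite (g : ℤ[X]) (A X : ℝ) : (tset g A X).Finite :=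
  (ball_finite (A * X)).subset (fun _ hn => hn.1)

/-- **Tail.** The windows with `Y ≤ L P`, `P ≤ Y ^ (deg/2 + e)` give a power saving for the
tail. -/
theorem tail_of_rangeL (g : ℤ[X]) (hroot : ∀ n : ℤ, g.eval n ≠ 0) (e : ℝ) (he : 0 < e)
    (h : RangeBoundL g ((g.natDegree : ℝ) / 2 - 1 + e)) (A : ℝ) (hA : 1 ≤ A) :
    ∃ c : ℝ, 0 < c ∧ ∃ K : ℝ, ∀ X : ℝ, 1 ≤ X → ((tset g A X).ncard : ℝ) ≤ K * X ^ (1 - c) := by
  classical
  obtain ⟨c0', hc0', K0', hK0'⟩ := h (2 * A) (by linarith)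
  -- and `c0 ≤ 1 / 2`, `K0 ≥ 1`
  set c0 : ℝ := min c0' (1 / 2) with hc0def
  have hc0 : 0 < c0 := lt_min hc0' (by norm_num)
  have hc0le : c0 ≤ 1 / 2 := min_le_right _ _
  set K0 : ℝ := |K0'| + 1 with hK0def
  have hK0pos : 1 ≤ K0 := by have := abs_nonneg K0'; linarith
  have hK0 : ∀ Y P : ℝ, 1 ≤ Y → Y ≤ 2 * A * P →
      P ≤ Y ^ (1 + ((g.natDegree : ℝ) / 2 - 1 + e)) → (wcount g Y P : ℝ) ≤ K0 * Y ^ (1 - c0) :=
    fun Y P hY h1 h2 => (hK0' Y P hY h1 h2).trans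
      (rpow_weaken hY (min_le_left _ _) (by rw [hK0def]; linarith))
  obtain ⟨B, hB1, hB⟩ := exists_val_bound g
  set d : ℝ := (g.natDegree : ℝ) with hd
  have hd0 : 0 ≤ d := Nat.cast_nonneg _
  obtain ⟨K1, hK1, hscale⟩ := scales (c0 / (4 * (d + 1))) (by positivity)
  -- the threshold
  have hev : ∀ᶠ X : ℝ in atTop, B * 2 ^ d ≤ (X ^ (1 / 2 : ℝ) / 2) ^ e ∧
      2 ≤ X ^ (1 / 2 : ℝ) ∧ 1 ≤ X := by
    have t1 : Tendsto (fun X : ℝ => X ^ e) atTop atTop := tendsto_rpow_atTop he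
    have t2 : Tendsto (fun X : ℝ => X ^ (1 / 2 : ℝ)) atTop atTop :=
      tendsto_rpow_atTop (by norm_num)
    have t3 : Tendsto (fun X : ℝ => X ^ (1 / 2 : ℝ) / 2) atTop atTop :=
      t2.atTop_div_const (by norm_num)
    have t4 : Tendsto (fun X : ℝ => (X ^ (1 / 2 : ℝ) / 2) ^ e) atTop atTop := t1.comp t3
    filter_upwards [t4.eventually_ge_atTop (B * 2 ^ d),
      t2.eventually_ge_atTop 2, eventually_ge_atTop 1] with X h2 h3 h4
    exact ⟨h2, h3, h4⟩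
  obtain ⟨X0, hX0⟩ := eventually_atTop.1 hev
  set c : ℝ := c0 / 2 with hc
  set M1 : ℝ := K1 * (K1 * B) * K0 * (A ^ (c0 / 4) * (A ^ (c0 / 4) * A)) with hM1
  refine ⟨c, by positivity, 3 * A * |X0| + 3 + M1, fun X hX => ?_⟩
  have hApos : 0 < A := by linarith
  have hXpos : 0 < X := by linarith
  have hM1pos : 0 ≤ M1 := by
    rw [hM1]; positivity
  have hXc1 : 1 ≤ X ^ (1 - c) := Real.one_le_rpow hX (by rw [hc]; linarith)
  by_cases hXX : X0 ≤ X
  swap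
  · -- small X
    push Not at hXX
    have h1 : ((tset g A X).ncard : ℝ) ≤ 2 * (A * X) + 1 := by
      refine le_trans ?_ (ball_ncard (A * X) (by positivity))
      have h0 : (tset g A X).ncard ≤ {n : ℤ | |(n : ℝ)| ≤ A * X}.ncard :=
        Set.ncard_le_ncard (fun n (hn : n ∈ tset g A X) => hn.1) (ball_finite _)
      exact_mod_cast h0
    have h2 : X ≤ |X0| := hXX.le.trans (le_abs_self _)
    have h3 : 2 * (A * X) + 1 ≤ 3 * A * |X0| + 3 + M1 := by nlinarith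
    calc ((tset g A X).ncard : ℝ) ≤ 3 * A * |X0| + 3 + M1 := h1.trans h3
      _ ≤ (3 * A * |X0| + 3 + M1) * X ^ (1 - c) := by
        refine le_mul_of_one_le_right ?_ hXc1
        positivity
  obtain ⟨hX2, hX3, -⟩ := hX0 X hXX
  set S : ℝ := X ^ (1 / 2 : ℝ) with hS
  -- the index sets
  set J1 : ℝ := K1 * (A * X) ^ (c0 / (4 * (d + 1))) with hJ1
  set Z2 : ℝ := B * (A * X) ^ (d / 2) with hZ2
  set J2 : ℝ := K1 * Z2 ^ (c0 / (4 * (d + 1))) with hJ2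
  set I : Finset (ℕ × ℕ) := (Finset.range ⌊J1⌋₊ ×ˢ Finset.range ⌊J2⌋₊).filter
    (fun q => (2 : ℝ) ^ q.1 ≤ A * X ∧ (2 : ℝ) ^ q.1 ≤ 2 * A * (2 : ℝ) ^ q.2 ∧
      (2 : ℝ) ^ q.2 ≤ ((2 : ℝ) ^ q.1) ^ (1 + (d / 2 - 1 + e))) with hI
  have hAX : 1 ≤ A * X := by nlinarith
  have hZ21 : 1 ≤ Z2 := by
    have : 1 ≤ (A * X) ^ (d / 2) := Real.one_le_rpow hAX (by positivity)
    nlinarith
  have hcover : tset g A X ⊆ {n : ℤ | |(n : ℝ)| ≤ S} ∪
      ⋃ q ∈ I, wset g ((2 : ℝ) ^ q.1) ((2 : ℝ) ^ q.2) := by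
    rintro n ⟨hn1, p, hp, hpX, hpn⟩
    by_cases hnS : |(n : ℝ)| ≤ S
    · exact Or.inl hnS
    · right
      push Not at hnS
      have hn0 : n ≠ 0 := by
        rintro rfl
        simp at hnS
        linarith
      have hnat : ((n.natAbs : ℕ) : ℝ) = |(n : ℝ)| := by
        rw [Nat.cast_natAbs]; push_cast; rfl
      have hn1' : 1 ≤ |(n : ℝ)| := by linarith
      set i := Nat.log 2 n.natAbs with hi
      set j := Nat.log 2 p with hj
      have hi1 : (2 : ℝ) ^ i ≤ |(n : ℝ)| := by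
        rw [← hnat]
        exact_mod_cast Nat.pow_log_le_self 2 (Int.natAbs_ne_zero.2 hn0)
      have hi2 : |(n : ℝ)| < 2 * (2 : ℝ) ^ i := by
        rw [← hnat]
        have := Nat.lt_pow_succ_log_self (b := 2) (by norm_num) n.natAbs
        rw [pow_succ] at this
        have h2 : ((n.natAbs : ℕ) : ℝ) < ((2 ^ Nat.log 2 n.natAbs * 2 : ℕ) : ℝ) := by
          exact_mod_cast this
        push_cast at h2 ⊢
        rw [hi]
        linarith
      have hj1 : (2 : ℝ) ^ j ≤ (p : ℝ) := by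
        exact_mod_cast Nat.pow_log_le_self 2 hp.ne_zero
      have hj2 : (p : ℝ) < 2 * (2 : ℝ) ^ j := by
        have := Nat.lt_pow_succ_log_self (b := 2) (by norm_num) p
        rw [pow_succ] at this
        have h2 : ((p : ℕ) : ℝ) < ((2 ^ Nat.log 2 p * 2 : ℕ) : ℝ) := by
          exact_mod_cast this
        push_cast at h2
        rw [hj]
        linarith
      -- the size of `p`
      have hpsq : (p : ℝ) ^ 2 ≤ B * |(n : ℝ)| ^ g.natDegree := by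
        refine le_trans ?_ (hB n hn1')
        have h1 : ((p : ℤ) ^ 2) ≤ |g.eval n| :=
          Int.le_of_dvd (abs_pos.2 (hroot n)) ((dvd_abs _ _).2 hpn)
        exact_mod_cast h1
      have hp0 : (0 : ℝ) < p := by exact_mod_cast hp.pos
      have hple : ∀ T : ℝ, |(n : ℝ)| ≤ T → (p : ℝ) ≤ B * T ^ (d / 2) := by
        intro T hT
        have hT0 : 0 ≤ T := (abs_nonneg _).trans hT
        have h1 : (p : ℝ) ^ 2 ≤ (B * T ^ (d / 2)) ^ 2 := by
          refine hpsq.trans ?_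
          have h2 : |(n : ℝ)| ^ g.natDegree ≤ (T ^ (d / 2)) ^ 2 := by
            rw [← Real.rpow_natCast (T ^ (d / 2)) 2, ← Real.rpow_mul hT0,
              ← Real.rpow_natCast |(n : ℝ)| g.natDegree]
            have : d / 2 * ((2 : ℕ) : ℝ) = d := by push_cast; ring
            rw [this]
            exact Real.rpow_le_rpow (abs_nonneg _) hT hd0
          rw [mul_pow]
          have h3 : B ≤ B ^ 2 := by nlinarith
          exact mul_le_mul h3 h2 (by positivity) (by positivity)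
        exact (pow_le_pow_iff_left₀ hp0.le (by positivity) (by norm_num)).1 h1
      have hiAX : (2 : ℝ) ^ i ≤ A * X := hi1.trans hn1
      have hjZ : (2 : ℝ) ^ j ≤ Z2 := hj1.trans (hple _ hn1)
      have hY1 : (1 : ℝ) ≤ 2 ^ i := one_le_pow₀ (by norm_num)
      have hYS : S / 2 ≤ (2 : ℝ) ^ i := by linarith
      simp only [Set.mem_iUnion]
      refine ⟨(i, j), ?_, hi1, hi2, p, hp, hj1, hj2, hpn⟩
      rw [hI, Finset.mem_filter, Finset.mem_product, Finset.mem_range, Finset.mem_range]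
      refine ⟨⟨?_, ?_⟩, hiAX, ?_, ?_⟩
      · have := hscale (A * X) i hAX hiAX
        rw [← hJ1] at this
        exact Nat.lt_of_succ_le (Nat.le_floor (by push_cast; exact this))
      · have := hscale Z2 j hZ21 hjZ
        rw [← hJ2] at this
        exact Nat.lt_of_succ_le (Nat.le_floor (by push_cast; exact this))
      · -- Y ≤ A X ≤ 2 A P
        simp only
        nlinarith
      · -- P ≤ Y ^ (d / 2 + e)
        have h1 : (2 : ℝ) ^ j ≤ B * (2 * (2 : ℝ) ^ i) ^ (d / 2) := hj1.trans (hple _ hi2.le)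
        have h2 : (2 * (2 : ℝ) ^ i) ^ (d / 2) ≤ 2 ^ d * ((2 : ℝ) ^ i) ^ (d / 2) := by
          rw [Real.mul_rpow (by norm_num) (by positivity)]
          refine mul_le_mul_of_nonneg_right ?_ (by positivity)
          exact Real.rpow_le_rpow_of_exponent_le (by norm_num) (by linarith)
        have h3 : B * 2 ^ d ≤ ((2 : ℝ) ^ i) ^ e :=
          hX2.trans (Real.rpow_le_rpow (by positivity) hYS he.le)
        simp only
        calc (2 : ℝ) ^ j ≤ B * (2 * (2 : ℝ) ^ i) ^ (d / 2) := h1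
          _ ≤ B * (2 ^ d * ((2 : ℝ) ^ i) ^ (d / 2)) := mul_le_mul_of_nonneg_left h2 (by linarith)
          _ = (B * 2 ^ d) * ((2 : ℝ) ^ i) ^ (d / 2) := by ring
          _ ≤ ((2 : ℝ) ^ i) ^ e * ((2 : ℝ) ^ i) ^ (d / 2) :=
            mul_le_mul_of_nonneg_right h3 (by positivity)
          _ = ((2 : ℝ) ^ i) ^ (1 + (d / 2 - 1 + e)) := by
            rw [← Real.rpow_add (by positivity)]
            congr 1; ring
  -- counting
  have hfin : ({n : ℤ | |(n : ℝ)| ≤ S} ∪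
      ⋃ q ∈ I, wset g ((2 : ℝ) ^ q.1) ((2 : ℝ) ^ q.2)).Finite :=
    (ball_finite S).union (Set.Finite.biUnion (Finset.finite_toSet I) (fun q _ => wset_finite g _ _))
  have hcount : ((tset g A X).ncard : ℝ) ≤ (2 * S + 1) +
      ∑ q ∈ I, (wcount g ((2 : ℝ) ^ q.1) ((2 : ℝ) ^ q.2) : ℝ) := by
    have h1 := Set.ncard_le_ncard hcover hfin
    have h2 := Set.ncard_union_le {n : ℤ | |(n : ℝ)| ≤ S}
      (⋃ q ∈ I, wset g ((2 : ℝ) ^ q.1) ((2 : ℝ) ^ q.2))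
    have h3 : (⋃ q ∈ I, wset g ((2 : ℝ) ^ q.1) ((2 : ℝ) ^ q.2)).ncard ≤
        ∑ q ∈ I, wcount g ((2 : ℝ) ^ q.1) ((2 : ℝ) ^ q.2) := by
      unfold wcount
      exact Finset.set_ncard_biUnion_le I _
    have h4 := ball_ncard S (by positivity)
    have h5 : ((tset g A X).ncard : ℝ) ≤ ({n : ℤ | |(n : ℝ)| ≤ S}.ncard : ℝ) +
        ∑ q ∈ I, (wcount g ((2 : ℝ) ^ q.1) ((2 : ℝ) ^ q.2) : ℝ) := by
      exact_mod_cast (h1.trans h2).trans (Nat.add_le_add_left h3 _)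
    linarith
  have hterm : ∀ q ∈ I, (wcount g ((2 : ℝ) ^ q.1) ((2 : ℝ) ^ q.2) : ℝ) ≤
      K0 * (A * X ^ (1 - c0)) := by
    intro q hq
    rw [hI, Finset.mem_filter] at hq
    obtain ⟨-, h1, h2, h3⟩ := hq
    have hY1 : (1 : ℝ) ≤ 2 ^ q.1 := one_le_pow₀ (by norm_num)
    refine (hK0 _ _ hY1 h2 h3).trans (mul_le_mul_of_nonneg_left ?_ (by linarith))
    calc ((2 : ℝ) ^ q.1) ^ (1 - c0) ≤ (A * X) ^ (1 - c0) :=
          Real.rpow_le_rpow (by positivity) h1 (by linarith)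
      _ = A ^ (1 - c0) * X ^ (1 - c0) := Real.mul_rpow hApos.le hXpos.le
      _ ≤ A * X ^ (1 - c0) := by
        refine mul_le_mul_of_nonneg_right ?_ (by positivity)
        calc A ^ (1 - c0) ≤ A ^ (1 : ℝ) := Real.rpow_le_rpow_of_exponent_le hA (by linarith)
          _ = A := Real.rpow_one A
  have hsum : ∑ q ∈ I, (wcount g ((2 : ℝ) ^ q.1) ((2 : ℝ) ^ q.2) : ℝ) ≤
      J1 * J2 * (K0 * (A * X ^ (1 - c0))) := by
    have hJ1pos : 0 ≤ J1 := by rw [hJ1]; positivity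
    have hJ2pos : 0 ≤ J2 := by rw [hJ2]; positivity
    have h1 := Finset.sum_le_card_nsmul I _ _ hterm
    rw [nsmul_eq_mul] at h1
    refine h1.trans (mul_le_mul_of_nonneg_right ?_ (by positivity))
    have h2 : I.card ≤ ⌊J1⌋₊ * ⌊J2⌋₊ := by
      rw [hI]
      refine (Finset.card_filter_le _ _).trans ?_
      rw [Finset.card_product, Finset.card_range, Finset.card_range]
    calc (I.card : ℝ) ≤ ((⌊J1⌋₊ * ⌊J2⌋₊ : ℕ) : ℝ) := by exact_mod_cast h2
      _ = (⌊J1⌋₊ : ℝ) * (⌊J2⌋₊ : ℝ) := by push_cast; ring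
      _ ≤ J1 * J2 := mul_le_mul (Nat.floor_le hJ1pos) (Nat.floor_le hJ2pos) (by positivity) hJ1pos
  -- the sizes of the index sets
  have hJ1le : J1 ≤ K1 * (A ^ (c0 / 4) * X ^ (c0 / 4)) := by
    rw [hJ1]
    refine mul_le_mul_of_nonneg_left ?_ hK1.le
    calc (A * X) ^ (c0 / (4 * (d + 1))) ≤ (A * X) ^ (c0 / 4) := by
          refine Real.rpow_le_rpow_of_exponent_le hAX ?_
          rw [div_le_div_iff₀ (by positivity) (by norm_num)]
          nlinarith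
      _ = _ := Real.mul_rpow hApos.le hXpos.le
  have hJ2le : J2 ≤ K1 * B * (A ^ (c0 / 4) * X ^ (c0 / 4)) := by
    rw [hJ2, hZ2]
    have hu : 0 < c0 / (4 * (d + 1)) := by positivity
    have hu1 : c0 / (4 * (d + 1)) ≤ 1 := by
      rw [div_le_one (by positivity)]
      nlinarith
    calc K1 * (B * (A * X) ^ (d / 2)) ^ (c0 / (4 * (d + 1)))
        = K1 * (B ^ (c0 / (4 * (d + 1))) * ((A * X) ^ (d / 2)) ^ (c0 / (4 * (d + 1)))) := by
          rw [Real.mul_rpow (by linarith) (by positivity)]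
      _ ≤ K1 * (B * (A * X) ^ (c0 / 4)) := by
          refine mul_le_mul_of_nonneg_left ?_ hK1.le
          refine mul_le_mul ?_ ?_ (by positivity) (by linarith)
          · calc B ^ (c0 / (4 * (d + 1))) ≤ B ^ (1 : ℝ) :=
                Real.rpow_le_rpow_of_exponent_le hB1 hu1
              _ = B := Real.rpow_one B
          · rw [← Real.rpow_mul (by linarith)]
            refine Real.rpow_le_rpow_of_exponent_le hAX ?_
            have : d / 2 * (c0 / (4 * (d + 1))) = c0 / 4 * (d / (2 * (d + 1))) := by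
              field_simp
            rw [this]
            refine mul_le_of_le_one_right (by positivity) ?_
            rw [div_le_one (by positivity)]
            linarith
      _ = K1 * B * (A ^ (c0 / 4) * X ^ (c0 / 4)) := by
          rw [Real.mul_rpow hApos.le hXpos.le]; ring
  have hJJ : J1 * J2 ≤ (K1 * (A ^ (c0 / 4) * X ^ (c0 / 4))) *
      (K1 * B * (A ^ (c0 / 4) * X ^ (c0 / 4))) :=
    mul_le_mul hJ1le hJ2le (by rw [hJ2]; positivity) (by positivity)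
  have hXX2 : X ^ (c0 / 4) * X ^ (c0 / 4) * X ^ (1 - c0) = X ^ (1 - c) := by
    rw [← Real.rpow_add hXpos, ← Real.rpow_add hXpos]
    congr 1
    rw [hc]; ring
  have hmain : J1 * J2 * (K0 * (A * X ^ (1 - c0))) ≤ M1 * X ^ (1 - c) := by
    calc J1 * J2 * (K0 * (A * X ^ (1 - c0)))
        ≤ ((K1 * (A ^ (c0 / 4) * X ^ (c0 / 4))) * (K1 * B * (A ^ (c0 / 4) * X ^ (c0 / 4)))) *
          (K0 * (A * X ^ (1 - c0))) := mul_le_mul_of_nonneg_right hJJ (by positivity)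
      _ = M1 * (X ^ (c0 / 4) * X ^ (c0 / 4) * X ^ (1 - c0)) := by rw [hM1]; ring
      _ = M1 * X ^ (1 - c) := by rw [hXX2]
  have hSle : 2 * S + 1 ≤ 3 * X ^ (1 - c) := by
    have h1 : S ≤ X ^ (1 - c) := by
      rw [hS]
      exact Real.rpow_le_rpow_of_exponent_le hX (by rw [hc]; linarith)
    linarith
  calc ((tset g A X).ncard : ℝ) ≤ 3 * X ^ (1 - c) + M1 * X ^ (1 - c) := by linarith
    _ ≤ (3 * A * |X0| + 3 + M1) * X ^ (1 - c) := by
      have : 0 ≤ 3 * A * |X0| := by positivity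
      nlinarith

/-- **Tail**, from the range `[-e, deg/2 - 1 + e]`. -/
theorem tail_of_range (g : ℤ[X]) (hroot : ∀ n : ℤ, g.eval n ≠ 0) (e : ℝ) (he : 0 < e)
    (h : RangeBound g (-e) ((g.natDegree : ℝ) / 2 - 1 + e)) (A : ℝ) (hA : 1 ≤ A) :
    ∃ c : ℝ, 0 < c ∧ ∃ K : ℝ, ∀ X : ℝ, 1 ≤ X → ((tset g A X).ncard : ℝ) ≤ K * X ^ (1 - c) :=
  tail_of_rangeL g hroot e he (h.toL he) A hA

end Pool.Agent.Lib.SQF
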