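import Pool.Agent.Lib.SQF.Defs
import Pool.Agent.Lib.SQF.S2
import Pool.Agent.Lib.SQF.Final

/-!
# SQF: existence of solutions and the reduction of a range to families of solutions

`exists_sol`: every `n` in a window has `(p, α, β, m)` with `IsSol`.
`RangeBoundSol`: what the owners of the ranges have to prove; `rangeBound_of_sols`.
-/

set_option autoImplicit false

open Polynomial

namespace Pool.Agent.Lib.SQF

lemma pol_coeff_eq {d : ℕ} (A : ℤ[X]) (h : A.natDegree < d) :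
    pol (fun i : Fin d => A.coeff i) = A := by
  unfold pol
  rw [Fin.sum_univ_eq_sum_range (fun i => C (A.coeff i) * X ^ i) d]
  exact (A.as_sum_range_C_mul_X_pow' h).symm

lemma ev_coeff_eq {d : ℕ} (A : ℤ[X]) (h : A.natDegree < d) (z : ℂ) :
    ev (fun i : Fin d => A.coeff i) z = aeval z A := by
  rw [← aeval_pol, pol_coeff_eq A h]

/-- every `n` in a window carries a solution -/
theorem exists_sol (g : ℤ[X]) (hg : g.Monic) (hirr : Irreducible g) :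
    ∃ K : ℝ, 1 ≤ K ∧ ∃ Y0 : ℝ, 1 ≤ Y0 ∧ ∀ Y P : ℝ, Y0 ≤ Y → Y0 ≤ P → ∀ n ∈ wset g Y P,
      ∃ (p : ℕ) (α β : Fin g.natDegree → ℤ) (m : ℤ), IsSol g.natDegree g K Y P n p α β m := by
  obtain ⟨K, hK1, p0, hbal⟩ := balanced g hg hirr
  obtain ⟨R, hR1, hR⟩ := root_bound g hg.ne_zero
  have hd : 0 < g.natDegree := by
    rcases Nat.eq_zero_or_pos g.natDegree with h | h
    · exfalso
      rw [hg.natDegree_eq_zero.mp h] at hirr
      exact hirr.not_isUnit isUnit_one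
    · exact h
  refine ⟨8 * K * (2 + R), by nlinarith, max (p0 : ℝ) (2 * R), ?_, ?_⟩
  · exact le_trans (by linarith) (le_max_right _ _)
  intro Y P hY hP n hn
  obtain ⟨hn1, hn2, p, hp, hPp, hp2, hdvd⟩ := hn
  have hYR : 2 * R ≤ Y := (le_max_right _ _).trans hY
  have hY1 : 1 ≤ Y := by linarith
  have hP1 : 1 ≤ P := le_trans (by linarith) ((le_max_right _ _).trans hP)
  have hp0 : p0 ≤ p := by
    have : (p0 : ℝ) ≤ p := ((le_max_left _ _).trans hP).trans hPp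
    exact_mod_cast this
  obtain ⟨A, B, m, hm, hmK, hA, hB, heq, hev, hres, hpm, hcA, hcB, hz⟩ := hbal p hp hp0 n hdvd
  set h : ℝ := (1 : ℝ) / g.natDegree with hh
  have hh0 : 0 < h := by rw [hh]; positivity
  have hh1 : h ≤ 1 := by
    rw [hh, div_le_one (by exact_mod_cast hd)]
    exact_mod_cast hd
  have hPpos : 0 < P := by linarith
  set H := P ^ h with hH
  have hHpos : 0 < H := Real.rpow_pos_of_pos hPpos _
  have e1 : H ≤ (p : ℝ) ^ h := Real.rpow_le_rpow hPpos.le hPp hh0.le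
  have e2 : (p : ℝ) ^ h ≤ 2 * H := by
    calc (p : ℝ) ^ h ≤ (2 * P) ^ h := Real.rpow_le_rpow (by positivity) hp2.le hh0.le
      _ = 2 ^ h * H := Real.mul_rpow (by norm_num) hPpos.le
      _ ≤ 2 ^ (1 : ℝ) * H := by
          gcongr
          norm_num
      _ = 2 * H := by simp
  have hp0' : 0 < (p : ℝ) ^ h := lt_of_lt_of_le hHpos e1
  have hK0 : 0 < K := by linarith
  have hsq : H ^ 2 ≤ ((p : ℝ) ^ h) ^ 2 := by gcongr
  have hsq2 : ((p : ℝ) ^ h) ^ 2 ≤ 4 * H ^ 2 := by nlinarith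
  have hKR : K ≤ 8 * K * (2 + R) := by nlinarith
  refine ⟨p, fun i => A.coeff i, fun i => B.coeff i, m, ?_⟩
  refine ⟨hn1, hn2, hp, hPp, hp2, hdvd, hm, hmK.trans hKR, ?_, ?_, ?_, hpm, ?_, ?_, ?_, ?_, ?_, ?_⟩
  · rw [pol_coeff_eq A hA, pol_coeff_eq B hB]; exact heq
  · rw [pol_coeff_eq A hA]; exact hev
  · rw [pol_coeff_eq A hA]; exact hres
  · intro i
    refine (hcA i).trans (e2.trans ?_)
    gcongr
    nlinarith
  · intro i
    have h1 : |((B.coeff i : ℤ) : ℝ)| * H ^ 2 ≤ K * (|(n : ℝ)| + 1) :=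
      le_trans (mul_le_mul_of_nonneg_left hsq (abs_nonneg _)) (hcB i)
    have h2 : K * (|(n : ℝ)| + 1) ≤ 8 * K * (2 + R) * Y := by
      have : |(n : ℝ)| + 1 ≤ 3 * Y := by linarith
      nlinarith [mul_pos hK0 (by linarith : (0 : ℝ) < Y), mul_nonneg hK0.le (by linarith : (0:ℝ) ≤ R)]
    exact h1.trans h2
  · intro z hzr
    rw [ev_coeff_eq A hA]
    refine e1.trans ((hz z hzr).1.trans ?_)
    gcongr
  · intro z hzr
    rw [ev_coeff_eq A hA]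
    refine (hz z hzr).2.1.trans ?_
    have : K * (p : ℝ) ^ h ≤ K * (2 * H) := by gcongr
    refine this.trans ?_
    nlinarith [mul_pos hK0 hHpos, mul_nonneg (mul_nonneg hK0.le hHpos.le) (by linarith : (0:ℝ) ≤ R)]
  · intro z hzr
    rw [ev_coeff_eq B hB]
    have h1 : ‖(n : ℂ) - z‖ ≤ K * (‖aeval z B‖ * ((p : ℝ) ^ h) ^ 2) := (hz z hzr).2.2.2
    have h2 : Y / 2 ≤ ‖(n : ℂ) - z‖ := by
      have h3 : ‖(n : ℂ)‖ - ‖z‖ ≤ ‖(n : ℂ) - z‖ := norm_sub_norm_le _ _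
      have h4 : ‖(n : ℂ)‖ = |(n : ℝ)| := by
        rw [show (n : ℂ) = ((n : ℝ) : ℂ) by push_cast; rfl, Complex.norm_real, Real.norm_eq_abs]
      have h5 := hR z hzr
      rw [h4] at h3
      linarith
    have h6 : K * (‖aeval z B‖ * ((p : ℝ) ^ h) ^ 2) ≤ K * (‖aeval z B‖ * (4 * H ^ 2)) := by gcongr
    have h7 : 0 ≤ K * (‖aeval z B‖ * H ^ 2) := by positivity
    nlinarith [mul_nonneg h7 (by linarith : (0:ℝ) ≤ R)]
  · intro z hzr
    rw [ev_coeff_eq B hB]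
    have h1 : ‖aeval z B‖ * ((p : ℝ) ^ h) ^ 2 ≤ K * ‖(n : ℂ) - z‖ := (hz z hzr).2.2.1
    have h2 : ‖(n : ℂ) - z‖ ≤ (2 + R) * Y := by
      have h3 : ‖(n : ℂ) - z‖ ≤ ‖(n : ℂ)‖ + ‖z‖ := norm_sub_le _ _
      have h4 : ‖(n : ℂ)‖ = |(n : ℝ)| := by
        rw [show (n : ℂ) = ((n : ℝ) : ℂ) by push_cast; rfl, Complex.norm_real, Real.norm_eq_abs]
      have h5 := hR z hzr
      rw [h4] at h3
      nlinarith
    have h3 : ‖aeval z B‖ * H ^ 2 ≤ ‖aeval z B‖ * ((p : ℝ) ^ h) ^ 2 := by gcongr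
    have h4 : K * ‖(n : ℂ) - z‖ ≤ K * ((2 + R) * Y) := by gcongr
    have h5 : 0 ≤ K * ((2 + R) * Y) := by positivity
    nlinarith

/-- a power saving for every family of solutions with `Rel Y P` -/
def SolBound (d : ℕ) (g : ℤ[X]) (Rel : ℝ → ℝ → Prop) : Prop :=
  ∀ K : ℝ, ∃ c : ℝ, 0 < c ∧ ∃ K' Y0 : ℝ, ∀ Y P : ℝ, 1 ≤ Y → Y0 ≤ Y → Rel Y P →
    ∀ (m : ℤ) (S : Finset ℤ) (p : ℤ → ℕ) (α β : ℤ → Fin d → ℤ),
      (∀ n ∈ S, IsSol d g K Y P n (p n) (α n) (β n) m) → (S.card : ℝ) ≤ K' * Y ^ (1 - c)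

/-- what has to be proved in a range: a power saving for every family of solutions -/
def RangeBoundSol (d : ℕ) (g : ℤ[X]) (d1 d2 : ℝ) : Prop :=
  ∀ K : ℝ, ∃ c : ℝ, 0 < c ∧ ∃ K' Y0 : ℝ, ∀ Y P : ℝ, 1 ≤ Y → Y0 ≤ Y → Y ^ (1 + d1) ≤ P →
    P ≤ Y ^ (1 + d2) → ∀ (m : ℤ) (S : Finset ℤ) (p : ℤ → ℕ) (α β : ℤ → Fin d → ℤ),
      (∀ n ∈ S, IsSol d g K Y P n (p n) (α n) (β n) m) → (S.card : ℝ) ≤ K' * Y ^ (1 - c)

/-- the same in the first range: all windows with `Y ≤ L P`, `P ≤ Y ^ (1 + s)`, for every `L` -/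
def RangeBoundSolL (d : ℕ) (g : ℤ[X]) (s : ℝ) : Prop :=
  ∀ K L : ℝ, 1 ≤ L → ∃ c : ℝ, 0 < c ∧ ∃ K' Y0 : ℝ, ∀ Y P : ℝ, 1 ≤ Y → Y0 ≤ Y → Y ≤ L * P →
    P ≤ Y ^ (1 + s) → ∀ (m : ℤ) (S : Finset ℤ) (p : ℤ → ℕ) (α β : ℤ → Fin d → ℤ),
      (∀ n ∈ S, IsSol d g K Y P n (p n) (α n) (β n) m) → (S.card : ℝ) ≤ K' * Y ^ (1 - c)

theorem wcount_of_sols (g : ℤ[X]) (hg : g.Monic) (hirr : Irreducible g) (Rel : ℝ → ℝ → Prop)
    (hRel : ∀ B : ℝ, ∃ Y1 : ℝ, ∀ Y P : ℝ, 1 ≤ Y → Y1 ≤ Y → Rel Y P → B ≤ P)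
    (h : SolBound g.natDegree g Rel) :
    ∃ c : ℝ, 0 < c ∧ ∃ K : ℝ, ∀ Y P : ℝ, 1 ≤ Y → Rel Y P →
      (wcount g Y P : ℝ) ≤ K * Y ^ (1 - c) := by
  classical
  obtain ⟨K, hK1, Y1, hY1, hsol⟩ := exists_sol g hg hirr
  obtain ⟨c, hc, K', Y0, hb⟩ := h K
  -- `P ≥ Y1` as soon as `Y` is large
  obtain ⟨Y2, hY2⟩ := hRel Y1
  -- it is enough to treat large `Y`
  suffices hmain : ∀ Y P : ℝ, 1 ≤ Y → max (max Y0 Y1) Y2 ≤ Y → Rel Y P →
      (wcount g Y P : ℝ) ≤ ((2 * K + 1) * |K'|) * Y ^ (1 - c) by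
    refine ⟨min c 1, lt_min hc one_pos,
      max (|((2 * K + 1) * |K'| : ℝ)|) (5 * |max (max Y0 Y1) Y2|), fun Y P hY hR => ?_⟩
    by_cases hY0 : max (max Y0 Y1) Y2 ≤ Y
    · exact (hmain Y P hY hY0 hR).trans (rpow_weaken hY (min_le_left _ _) (le_max_left _ _))
    · push Not at hY0
      have h3 := wcount_le g Y P hY
      have h4 : 1 ≤ Y ^ (1 - min c 1) := Real.one_le_rpow hY (by linarith [min_le_right c 1])
      have h5 : 5 * Y ≤ max (|((2 * K + 1) * |K'| : ℝ)|) (5 * |max (max Y0 Y1) Y2|) := by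
        refine le_trans ?_ (le_max_right _ _)
        have := le_abs_self (max (max Y0 Y1) Y2)
        linarith
      have h6 : 0 ≤ max (|((2 * K + 1) * |K'| : ℝ)|) (5 * |max (max Y0 Y1) Y2|) :=
        le_trans (abs_nonneg _) (le_max_left _ _)
      nlinarith
  intro Y P hY hYY hR
  have hYY0 : Y0 ≤ Y := ((le_max_left _ _).trans (le_max_left _ _)).trans hYY
  have hYY1 : Y1 ≤ Y := ((le_max_right _ _).trans (le_max_left _ _)).trans hYY
  have hYY2 : Y2 ≤ Y := (le_max_right _ _).trans hYY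
  have hP : Y1 ≤ P := hY2 Y P hY hYY2 hR
  have hdat := hsol Y P hYY1 hP
  -- choose the data
  have hdat' : ∀ n : ℤ, ∃ (p : ℕ) (α β : Fin g.natDegree → ℤ) (m : ℤ),
      n ∈ wset g Y P → IsSol g.natDegree g K Y P n p α β m := by
    intro n
    by_cases hn : n ∈ wset g Y P
    · obtain ⟨p, α, β, m, hs⟩ := hdat n hn
      exact ⟨p, α, β, m, fun _ => hs⟩
    · exact ⟨0, 0, 0, 0, fun h => absurd h hn⟩
  choose p α β m hS using hdat'
  set W : Finset ℤ := (wset_finite g Y P).toFinset with hW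
  have hWm : ∀ n ∈ W, n ∈ wset g Y P := fun n hn => (Set.Finite.mem_toFinset _).1 hn
  have hcard : (wcount g Y P : ℝ) = W.card := by
    rw [wcount, hW, Set.ncard_eq_toFinset_card _ (wset_finite g Y P)]
  set M : Finset ℤ := Finset.Icc (-⌊K⌋) ⌊K⌋ with hM
  have hmM : ∀ n ∈ W, m n ∈ M := by
    intro n hn
    have h3 := (hS n (hWm n hn)).m_le
    rw [hM, Finset.mem_Icc]
    have h4 := abs_le.1 h3
    constructor
    · have : -m n ≤ ⌊K⌋ := Int.le_floor.2 (by push_cast; linarith)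
      linarith
    · exact Int.le_floor.2 h4.2
  have hsum : W.card = ∑ k ∈ M, (W.filter fun n => m n = k).card :=
    Finset.card_eq_sum_card_fiberwise hmM
  have hcM : (M.card : ℝ) ≤ 2 * K + 1 := by
    have h0 : 0 ≤ ⌊K⌋ := Int.floor_nonneg.2 (by linarith)
    rw [hM, Int.card_Icc]
    have h4 : ((⌊K⌋ + 1 - -⌊K⌋).toNat : ℝ) = 2 * ⌊K⌋ + 1 := by
      have : ((⌊K⌋ + 1 - -⌊K⌋).toNat : ℤ) = 2 * ⌊K⌋ + 1 := by
        rw [Int.toNat_of_nonneg (by omega)]; ring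
      exact_mod_cast this
    rw [h4]
    linarith [Int.floor_le K]
  have hYpos : 0 < Y := by linarith
  have hYc : 0 ≤ Y ^ (1 - c) := (Real.rpow_pos_of_pos hYpos _).le
  rw [hcard, hsum]
  push_cast
  calc (∑ k ∈ M, ((W.filter fun n => m n = k).card : ℝ))
      ≤ ∑ _k ∈ M, |K'| * Y ^ (1 - c) := by
        refine Finset.sum_le_sum fun k _ => ?_
        have h5 := hb Y P hY hYY0 hR k (W.filter fun n => m n = k) p α β (by
          intro n hn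
          have h6 := Finset.mem_filter.1 hn
          have h7 := hS n (hWm n h6.1)
          rw [← h6.2]
          exact h7)
        refine h5.trans ?_
        gcongr
        exact le_abs_self K'
    _ = M.card * (|K'| * Y ^ (1 - c)) := by rw [Finset.sum_const, nsmul_eq_mul]
    _ ≤ (2 * K + 1) * (|K'| * Y ^ (1 - c)) := by gcongr
    _ = (2 * K + 1) * |K'| * Y ^ (1 - c) := by ring

theorem rangeBound_of_sols (g : ℤ[X]) (hg : g.Monic) (hirr : Irreducible g) {d1 d2 : ℝ}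
    (hd1 : -1 < d1) (h : RangeBoundSol g.natDegree g d1 d2) : RangeBound g d1 d2 := by
  have hd1' : 0 < 1 + d1 := by linarith
  obtain ⟨c, hc, K, hK⟩ := wcount_of_sols g hg hirr
    (fun Y P => Y ^ (1 + d1) ≤ P ∧ P ≤ Y ^ (1 + d2)) (by
      intro B
      refine ⟨|B| ^ ((1 : ℝ) / (1 + d1)), fun Y P hY hY1 hR => ?_⟩
      refine le_trans ?_ hR.1
      have h3 : (|B| ^ ((1 : ℝ) / (1 + d1))) ^ (1 + d1) ≤ Y ^ (1 + d1) :=
        Real.rpow_le_rpow (by positivity) hY1 hd1'.le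
      have h4 : (|B| ^ ((1 : ℝ) / (1 + d1))) ^ (1 + d1) = |B| := by
        rw [← Real.rpow_mul (abs_nonneg B), one_div, inv_mul_cancel₀ hd1'.ne', Real.rpow_one]
      linarith [le_abs_self B])
    (by
      intro K
      obtain ⟨c, hc, K', Y0, hb⟩ := h K
      exact ⟨c, hc, K', Y0, fun Y P hY hY0 hR => hb Y P hY hY0 hR.1 hR.2⟩)
  exact ⟨c, hc, K, fun Y P hY h1 h2 => hK Y P hY ⟨h1, h2⟩⟩

/-- the first range: all windows with `Y ≤ L P` and `P ≤ Y ^ (1 + s)` -/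
theorem rangeL_of_sols (g : ℤ[X]) (hg : g.Monic) (hirr : Irreducible g) {s : ℝ}
    (h : RangeBoundSolL g.natDegree g s) (L : ℝ) (hL : 1 ≤ L) :
    ∃ c : ℝ, 0 < c ∧ ∃ K : ℝ, ∀ Y P : ℝ, 1 ≤ Y → Y ≤ L * P → P ≤ Y ^ (1 + s) →
      (wcount g Y P : ℝ) ≤ K * Y ^ (1 - c) := by
  obtain ⟨c, hc, K, hK⟩ := wcount_of_sols g hg hirr
    (fun Y P => Y ≤ L * P ∧ P ≤ Y ^ (1 + s)) (by
      intro B
      refine ⟨L * |B|, fun Y P hY hY1 hR => ?_⟩
      have h1 : L * |B| ≤ L * P := hY1.trans hR.1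
      exact (le_abs_self B).trans (le_of_mul_le_mul_left h1 (by linarith)))
    (by
      intro K
      obtain ⟨c, hc, K', Y0, hb⟩ := h K L hL
      exact ⟨c, hc, K', Y0, fun Y P hY hY0 hR => hb Y P hY hY0 hR.1 hR.2⟩)
  exact ⟨c, hc, K, fun Y P hY h1 h2 => hK Y P hY ⟨h1, h2⟩⟩

end Pool.Agent.Lib.SQF
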