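import Mathlib
import Pool.Agent.Lib.SQF4.Slices

/-!
# Counting reduced pairs `(e₁, e₂)` in `ℤ⁴`

`redPairs R S`: pairs with `e₁ ≠ 0`, `|e₁| ≤ R`, `|e₂| ≤ S` (sup norms) and `2 |e₁·e₂| ≤ e₁·e₁`.

* `card_redPairs_le`: at most `10935 R⁵ S³` of them;
* `card_redPairs_zero_le`: at most `C R⁴ S³` of them lie on a hypersurface `J(e₁, e₂) = 0`;
* `card_class_le`, `card_class_zero_le`: in the class `R ≤ |e₁| ≤ 2R`, `|e₁||e₂| ≤ C₀ A^(2/3)` there
  are at most `C A² R²`, resp. `C A² R` on the hypersurface;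
* `card_bdd_le`: for `|e₁| ≤ B` at most `C A² B²`;
* `card_total_le`, `card_total_zero_le`: in all at most `C A^(8/3)`, resp. `C A^(7/3)`.
-/

set_option autoImplicit false

open Finset Matrix

namespace Pool.Agent.Lib.SQF

open Pool.Agent.SQF4 (sn le_sn sn_le_iff exists_eq_sn sn_pos mem_box card_box)

open Classical in
/-- pairs `(e₁, e₂)`, `e₁ ≠ 0`, size reduced, in a box -/
noncomputable def redPairs (R S : ℕ) : Finset ((Fin 4 → ℤ) × (Fin 4 → ℤ)) :=
  ((SQF4.box R) ×ˢ (SQF4.box S)).filter (fun p => p.1 ≠ 0 ∧ 2 * |p.1 ⬝ᵥ p.2| ≤ p.1 ⬝ᵥ p.1)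

lemma mem_redPairs (R S : ℕ) (p : (Fin 4 → ℤ) × (Fin 4 → ℤ)) :
    p ∈ redPairs R S ↔
      sn p.1 ≤ R ∧ sn p.2 ≤ S ∧ p.1 ≠ 0 ∧ 2 * |p.1 ⬝ᵥ p.2| ≤ p.1 ⬝ᵥ p.1 := by
  unfold redPairs
  rw [Finset.mem_filter, Finset.mem_product, mem_box, mem_box, and_assoc]

private lemma rd_dot_self (e : Fin 4 → ℤ) : e ⬝ᵥ e ≤ 4 * (sn e : ℤ) ^ 2 := by
  have h : ∀ i, e i * e i ≤ (sn e : ℤ) ^ 2 := by
    intro i
    have h1 : (((e i).natAbs : ℕ) : ℤ) ≤ (sn e : ℤ) := by exact_mod_cast le_sn e i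
    have h2 : |e i| ≤ (sn e : ℤ) := by rwa [Int.abs_eq_natAbs]
    have h3 : e i * e i = |e i| ^ 2 := by rw [sq_abs, sq]
    rw [h3]
    exact pow_le_pow_left₀ (abs_nonneg _) h2 2
  simp only [dotProduct, Fin.sum_univ_four]
  have := h 0
  have := h 1
  have := h 2
  have := h 3
  linarith

private lemma rd_card_diam (T : Finset ℤ) (m : ℕ) (h : ∀ x ∈ T, ∀ y ∈ T, x - y ≤ m) :
    T.card ≤ m + 1 := by
  rcases T.eq_empty_or_nonempty with rfl | hne
  · simp
  · have hsub : T ⊆ Finset.Icc (T.min' hne) (T.min' hne + m) := by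
      intro x hx
      rw [Finset.mem_Icc]
      have h1 := h x hx _ (T.min'_mem hne)
      exact ⟨T.min'_le x hx, by linarith⟩
    have h2 := Finset.card_le_card hsub
    rw [Int.card_Icc] at h2
    have h3 : (T.min' hne + (m : ℤ) + 1 - T.min' hne).toNat = m + 1 := by
      have : T.min' hne + (m : ℤ) + 1 - T.min' hne = ((m + 1 : ℕ) : ℤ) := by push_cast; ring
      rw [this, Int.toNat_natCast]
    rwa [h3] at h2

open Classical in
/-- the slab: for fixed `e₁ ≠ 0` -/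
lemma card_slab_le (S : ℕ) (e : Fin 4 → ℤ) (he : e ≠ 0) :
    ((SQF4.box S).filter (fun x => 2 * |e ⬝ᵥ x| ≤ e ⬝ᵥ e)).card ≤ (4 * sn e + 1) * (2 * S + 1) ^ 3 := by
  obtain ⟨j, hj⟩ := exists_eq_sn e
  have hpos := sn_pos e he
  set s := (SQF4.box S).filter (fun x => 2 * |e ⬝ᵥ x| ≤ e ⬝ᵥ e) with hs
  set t : Finset (Fin 3 → ℤ) := Fintype.piFinset (fun _ => Finset.Icc (-(S : ℤ)) S) with ht
  have htc : t.card = (2 * S + 1) ^ 3 := by
    rw [ht, Fintype.card_piFinset, Finset.prod_const, Finset.card_univ, Fintype.card_fin,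
      Int.card_Icc]
    congr 1
    omega
  rw [← htc]
  refine Finset.card_le_mul_card_image_of_maps_to (f := fun x => fun i : Fin 3 => x (j.succAbove i))
    ?_ _ ?_
  · intro x hx
    rw [hs, Finset.mem_filter, mem_box, sn_le_iff] at hx
    rw [ht, Fintype.mem_piFinset]
    intro i
    rw [Finset.mem_Icc]
    have := hx.1 (j.succAbove i)
    omega
  · intro b _
    have hinj : Set.InjOn (fun x : Fin 4 → ℤ => x j)
        ({a ∈ s | (fun i : Fin 3 => a (j.succAbove i)) = b} : Finset (Fin 4 → ℤ)) := by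
      intro x hx y hy hxy
      have hx' := (Finset.mem_filter.1 (Finset.mem_coe.1 hx)).2
      have hy' := (Finset.mem_filter.1 (Finset.mem_coe.1 hy)).2
      funext k
      rcases Fin.eq_self_or_eq_succAbove j k with hk | ⟨i, hk⟩
      · rw [hk]; exact hxy
      · rw [hk]
        have := congrFun (hx'.trans hy'.symm) i
        exact this
    rw [← Finset.card_image_of_injOn hinj]
    refine (rd_card_diam _ (4 * sn e) ?_)
    intro u hu v hv
    rw [Finset.mem_image] at hu hv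
    obtain ⟨x, hx, rfl⟩ := hu
    obtain ⟨y, hy, rfl⟩ := hv
    have hx1 := Finset.mem_filter.1 hx
    have hy1 := Finset.mem_filter.1 hy
    have hxs := (Finset.mem_filter.1 hx1.1).2
    have hys := (Finset.mem_filter.1 hy1.1).2
    have hdot : e ⬝ᵥ x - e ⬝ᵥ y = e j * (x j - y j) := by
      simp only [dotProduct]
      rw [← Finset.sum_sub_distrib, Fin.sum_univ_succAbove _ j]
      have h0 : ∑ i : Fin 3, (e (j.succAbove i) * x (j.succAbove i)
          - e (j.succAbove i) * y (j.succAbove i)) = 0 := by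
        refine Finset.sum_eq_zero ?_
        intro i _
        have h9 : x (j.succAbove i) = y (j.succAbove i) := congrFun (hx1.2.trans hy1.2.symm) i
        rw [h9, sub_self]
      rw [h0, add_zero]
      ring
    have hdd := rd_dot_self e
    have habs : |e j * (x j - y j)| ≤ 4 * (sn e : ℤ) ^ 2 := by
      rw [← hdot]
      have h1 := abs_sub (e ⬝ᵥ x) (e ⬝ᵥ y)
      have h2 : |e ⬝ᵥ x - e ⬝ᵥ y| ≤ |e ⬝ᵥ x| + |e ⬝ᵥ y| := abs_sub _ _
      linarith
    rw [abs_mul, Int.abs_eq_natAbs (e j), hj] at habs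
    have hp : (0 : ℤ) < (sn e : ℤ) := by exact_mod_cast hpos
    have h4 : |x j - y j| ≤ 4 * (sn e : ℤ) := by
      by_contra hcon
      push Not at hcon
      have := mul_lt_mul_of_pos_left hcon hp
      nlinarith
    have h5 := le_abs_self (x j - y j)
    push_cast
    linarith

theorem card_redPairs_le (R S : ℕ) (hR : 1 ≤ R) (hS : 1 ≤ S) :
    (redPairs R S).card ≤ 10935 * R ^ 5 * S ^ 3 := by
  classical
  have h1 : (redPairs R S).card ≤ (5 * R * (2 * S + 1) ^ 3) * (SQF4.box R).card := by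
    refine Finset.card_le_mul_card_image_of_maps_to (f := Prod.fst) ?_ _ ?_
    · intro p hp
      rw [mem_redPairs] at hp
      rw [mem_box]
      exact hp.1
    · intro e he
      by_cases he0 : e = 0
      · have : ({a ∈ redPairs R S | a.1 = e} : Finset _) = ∅ := by
          rw [Finset.filter_eq_empty_iff]
          intro p hp hpe
          rw [mem_redPairs] at hp
          exact hp.2.2.1 (hpe.trans he0)
        rw [this]
        simp
      · rw [mem_box] at he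
        have hle : ({a ∈ redPairs R S | a.1 = e} : Finset _).card ≤
            ((SQF4.box S).filter (fun x => 2 * |e ⬝ᵥ x| ≤ e ⬝ᵥ e)).card := by
          refine Finset.card_le_card_of_injOn Prod.snd ?_ ?_
          · intro p hp
            have hp' := Finset.mem_filter.1 (Finset.mem_coe.1 hp)
            have hp1 := (mem_redPairs R S p).1 hp'.1
            rw [Finset.mem_coe, Finset.mem_filter, mem_box]
            refine ⟨hp1.2.1, ?_⟩
            have := hp1.2.2.2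
            rwa [hp'.2] at this
          · intro p hp q hq hpq
            have hp' := Finset.mem_filter.1 (Finset.mem_coe.1 hp)
            have hq' := Finset.mem_filter.1 (Finset.mem_coe.1 hq)
            exact Prod.ext (hp'.2.trans hq'.2.symm) hpq
        refine hle.trans ((card_slab_le S e he0).trans ?_)
        refine Nat.mul_le_mul_right _ ?_
        omega
  rw [card_box] at h1
  have h2 : 2 * S + 1 ≤ 3 * S := by omega
  have h3 : 2 * R + 1 ≤ 3 * R := by omega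
  calc (redPairs R S).card ≤ (5 * R * (2 * S + 1) ^ 3) * (2 * R + 1) ^ 4 := h1
    _ ≤ (5 * R * (3 * S) ^ 3) * (3 * R) ^ 4 := by gcongr
    _ = 10935 * R ^ 5 * S ^ 3 := by ring

open Classical in
/-- Schwartz-Zippel on a box of integer points -/
lemma card_zero_box_le {K : Type*} [CommRing K] [IsDomain K] [CharZero K]
    (J : MvPolynomial (Fin 4) K) (hJ : J ≠ 0) (S : ℕ) :
    ((SQF4.box S).filter (fun x => MvPolynomial.eval (fun i => ((x i : ℤ) : K)) J = 0)).card ≤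
      J.totalDegree * (2 * S + 1) ^ 3 := by
  set T : Finset K := (Finset.Icc (-(S : ℤ)) S).image (fun z : ℤ => (z : K)) with hT
  have hTc : T.card = 2 * S + 1 := by
    rw [hT, Finset.card_image_of_injective _ Int.cast_injective, Int.card_Icc]
    omega
  have hsz := MvPolynomial.schwartz_zippel_totalDegree hJ T
  have hle : ((SQF4.box S).filter (fun x => MvPolynomial.eval (fun i => ((x i : ℤ) : K)) J = 0)).card ≤
      (#{f ∈ Fintype.piFinset (fun _ : Fin 4 => T) | MvPolynomial.eval f J = 0}) := by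
    refine Finset.card_le_card_of_injOn (fun x => fun i => ((x i : ℤ) : K)) ?_ ?_
    · intro x hx
      have hx' := Finset.mem_filter.1 (Finset.mem_coe.1 hx)
      rw [mem_box, sn_le_iff] at hx'
      rw [Finset.mem_coe, Finset.mem_filter]
      refine ⟨?_, hx'.2⟩
      rw [Fintype.mem_piFinset]
      intro i
      rw [hT, Finset.mem_image]
      refine ⟨x i, ?_, rfl⟩
      rw [Finset.mem_Icc]
      have := hx'.1 i
      omega
    · intro x _ y _ hxy
      funext i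
      have := congrFun hxy i
      exact Int.cast_injective this
  refine hle.trans ?_
  rw [hTc] at hsz
  have hpos : (0 : ℚ≥0) < ((2 * S + 1 : ℕ) : ℚ≥0) := by positivity
  rw [div_le_div_iff₀ (by positivity) hpos] at hsz
  have h2 : ((#{f ∈ Fintype.piFinset (fun _ : Fin 4 => T) | MvPolynomial.eval f J = 0} : ℕ) : ℚ≥0)
      * ((2 * S + 1 : ℕ) : ℚ≥0) ≤ (((J.totalDegree * (2 * S + 1) ^ 3 : ℕ) : ℚ≥0))
        * ((2 * S + 1 : ℕ) : ℚ≥0) := by
    refine hsz.trans (le_of_eq ?_)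
    push_cast
    ring
  have h3 := le_of_mul_le_mul_right h2 hpos
  exact_mod_cast h3

section hypersurface

variable {K : Type*} [CommRing K]

/-- evaluation of a polynomial in eight variables at a pair of integer vectors -/
noncomputable def evalPair (J : MvPolynomial (Fin 4 ⊕ Fin 4) K) (p : (Fin 4 → ℤ) × (Fin 4 → ℤ)) : K :=
  MvPolynomial.eval (Sum.elim (fun i => ((p.1 i : ℤ) : K)) (fun i => ((p.2 i : ℤ) : K))) J

/-- the polynomial `J(e, ·)` -/
private noncomputable def rd_sub (e : Fin 4 → ℤ) :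
    MvPolynomial (Fin 4 ⊕ Fin 4) K →ₐ[K] MvPolynomial (Fin 4) K :=
  MvPolynomial.aeval (Sum.elim (fun i => ((e i : ℤ) : MvPolynomial (Fin 4) K)) MvPolynomial.X)

private lemma rd_eval_sub (e x : Fin 4 → ℤ) (J : MvPolynomial (Fin 4 ⊕ Fin 4) K) :
    MvPolynomial.eval (fun i => ((x i : ℤ) : K)) (rd_sub e J) = evalPair J (e, x) := by
  unfold evalPair rd_sub
  induction J using MvPolynomial.induction_on with
  | C a => simp
  | add p q hp hq => rw [map_add, map_add, map_add, hp, hq]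
  | mul_X p i hp =>
    rw [map_mul, map_mul, map_mul, hp]
    congr 1
    rcases i with i | i
    · simp
    · simp

private lemma rd_sub_eq (e : Fin 4 → ℤ) (J : MvPolynomial (Fin 4 ⊕ Fin 4) K) :
    rd_sub e J = MvPolynomial.eval (fun i => ((e i : ℤ) : MvPolynomial (Fin 4) K))
      (MvPolynomial.sumAlgEquiv K (Fin 4) (Fin 4) J) := by
  unfold rd_sub
  induction J using MvPolynomial.induction_on with
  | C a => simp [MvPolynomial.algebraMap_eq]
  | add p q hp hq => rw [map_add, map_add, map_add, hp, hq]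
  | mul_X p i hp =>
    rw [map_mul, map_mul, map_mul, hp]
    congr 1
    rcases i with i | i
    · simp
    · simp

private lemma rd_sub_deg [Nontrivial K] (e : Fin 4 → ℤ) (J : MvPolynomial (Fin 4 ⊕ Fin 4) K) :
    (rd_sub e J).totalDegree ≤ J.totalDegree := by
  unfold rd_sub
  rw [MvPolynomial.aeval_def, MvPolynomial.eval₂_eq']
  refine MvPolynomial.totalDegree_finsetSum_le ?_
  intro d hd
  refine (MvPolynomial.totalDegree_mul _ _).trans ?_
  have h0 : ((algebraMap K (MvPolynomial (Fin 4) K)) (MvPolynomial.coeff d J)).totalDegree = 0 := by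
    rw [MvPolynomial.algebraMap_eq, MvPolynomial.totalDegree_C]
  rw [h0, zero_add]
  refine (MvPolynomial.totalDegree_finsetProd _ _).trans ?_
  refine le_trans ?_ (MvPolynomial.le_totalDegree hd)
  rw [Finsupp.sum_fintype _ _ (by simp)]
  refine Finset.sum_le_sum ?_
  intro i _
  refine (MvPolynomial.totalDegree_pow _ _).trans ?_
  rcases i with i | i
  · have : ((Sum.elim (fun i => ((e i : ℤ) : MvPolynomial (Fin 4) K)) MvPolynomial.X
        (Sum.inl i) : MvPolynomial (Fin 4) K)).totalDegree = 0 := by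
      simp only [Sum.elim_inl]
      have h1 : ((e i : ℤ) : MvPolynomial (Fin 4) K) = MvPolynomial.C ((e i : ℤ) : K) := by
        simp
      rw [h1, MvPolynomial.totalDegree_C]
    rw [this]
    omega
  · simp only [Sum.elim_inr, MvPolynomial.totalDegree_X]
    omega

open Classical in
/-- at most `C R⁴ S³` reduced pairs on a hypersurface -/
theorem card_redPairs_zero_le [IsDomain K] [CharZero K]
    (J : MvPolynomial (Fin 4 ⊕ Fin 4) K) (hJ : J ≠ 0) :
    ∃ C : ℕ, ∀ R S : ℕ, 1 ≤ R → 1 ≤ S →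
      ((redPairs R S).filter (fun p => evalPair J p = 0)).card ≤ C * R ^ 4 * S ^ 3 := by
  set P := MvPolynomial.sumAlgEquiv K (Fin 4) (Fin 4) J with hP
  have hP0 : P ≠ 0 := by
    intro h
    apply hJ
    apply (MvPolynomial.sumAlgEquiv K (Fin 4) (Fin 4)).injective
    rw [map_zero]
    exact h
  refine ⟨3645 * P.totalDegree + 2187 * J.totalDegree, ?_⟩
  intro R S hR hS
  set F := (redPairs R S).filter (fun p => evalPair J p = 0) with hF
  set F1 := F.filter (fun p => (rd_sub p.1 J : MvPolynomial (Fin 4) K) = 0) with hF1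
  set F2 := F.filter (fun p => ¬ (rd_sub p.1 J : MvPolynomial (Fin 4) K) = 0) with hF2
  have hsum : F.card = F1.card + F2.card := by
    rw [hF1, hF2, Finset.card_filter_add_card_filter_not]
  have h2S : 2 * S + 1 ≤ 3 * S := by omega
  have h2R : 2 * R + 1 ≤ 3 * R := by omega
  have h1 : F1.card ≤ (5 * R * (2 * S + 1) ^ 3) * (P.totalDegree * (2 * R + 1) ^ 3) := by
    refine (Finset.card_le_mul_card_image_of_maps_to (f := Prod.fst)
      (t := (SQF4.box R).filter (fun x => MvPolynomial.eval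
        (fun i => ((x i : ℤ) : MvPolynomial (Fin 4) K)) P = 0)) ?_ (5 * R * (2 * S + 1) ^ 3) ?_).trans ?_
    · intro p hp
      have hp1 := Finset.mem_filter.1 hp
      have hp2 := Finset.mem_filter.1 hp1.1
      have hp3 := (mem_redPairs R S p).1 hp2.1
      rw [Finset.mem_filter, mem_box]
      refine ⟨hp3.1, ?_⟩
      rw [hP, ← rd_sub_eq]
      exact hp1.2
    · intro e he
      rw [Finset.mem_filter, mem_box] at he
      by_cases he0 : e = 0
      · have : ({a ∈ F1 | a.1 = e} : Finset _) = ∅ := by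
          rw [Finset.filter_eq_empty_iff]
          intro p hp hpe
          have hp1 := Finset.mem_filter.1 hp
          have hp2 := Finset.mem_filter.1 hp1.1
          have hp3 := (mem_redPairs R S p).1 hp2.1
          exact hp3.2.2.1 (hpe.trans he0)
        rw [this]
        simp
      · have hle : ({a ∈ F1 | a.1 = e} : Finset _).card ≤
            ((SQF4.box S).filter (fun x => 2 * |e ⬝ᵥ x| ≤ e ⬝ᵥ e)).card := by
          refine Finset.card_le_card_of_injOn Prod.snd ?_ ?_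
          · intro p hp
            have hp' := Finset.mem_filter.1 (Finset.mem_coe.1 hp)
            have hp1 := Finset.mem_filter.1 hp'.1
            have hp2 := Finset.mem_filter.1 hp1.1
            have hp3 := (mem_redPairs R S p).1 hp2.1
            rw [Finset.mem_coe, Finset.mem_filter, mem_box]
            refine ⟨hp3.2.1, ?_⟩
            have := hp3.2.2.2
            rwa [hp'.2] at this
          · intro p hp q hq hpq
            have hp' := Finset.mem_filter.1 (Finset.mem_coe.1 hp)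
            have hq' := Finset.mem_filter.1 (Finset.mem_coe.1 hq)
            exact Prod.ext (hp'.2.trans hq'.2.symm) hpq
        refine hle.trans ((card_slab_le S e he0).trans ?_)
        refine Nat.mul_le_mul_right _ ?_
        have := he.1
        omega
    · refine Nat.mul_le_mul_left _ ?_
      convert card_zero_box_le P hP0 R
  have h2 : F2.card ≤ (J.totalDegree * (2 * S + 1) ^ 3) * (2 * R + 1) ^ 4 := by
    rw [← card_box R]
    refine Finset.card_le_mul_card_image_of_maps_to (f := Prod.fst) ?_ _ ?_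
    · intro p hp
      have hp1 := Finset.mem_filter.1 hp
      have hp2 := Finset.mem_filter.1 hp1.1
      have hp3 := (mem_redPairs R S p).1 hp2.1
      rw [mem_box]
      exact hp3.1
    · intro e _
      by_cases hz : (rd_sub e J : MvPolynomial (Fin 4) K) = 0
      · have : ({a ∈ F2 | a.1 = e} : Finset _) = ∅ := by
          rw [Finset.filter_eq_empty_iff]
          intro p hp hpe
          have hp1 := Finset.mem_filter.1 hp
          apply hp1.2
          rw [hpe]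
          exact hz
        rw [this]
        simp
      · have hle : ({a ∈ F2 | a.1 = e} : Finset _).card ≤
            ((SQF4.box S).filter (fun x => MvPolynomial.eval (fun i => ((x i : ℤ) : K))
              (rd_sub e J) = 0)).card := by
          refine Finset.card_le_card_of_injOn Prod.snd ?_ ?_
          · intro p hp
            have hp' := Finset.mem_filter.1 (Finset.mem_coe.1 hp)
            have hp1 := Finset.mem_filter.1 hp'.1
            have hp2 := Finset.mem_filter.1 hp1.1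
            have hp3 := (mem_redPairs R S p).1 hp2.1
            rw [Finset.mem_coe, Finset.mem_filter, mem_box]
            refine ⟨hp3.2.1, ?_⟩
            rw [rd_eval_sub, ← hp'.2]
            exact hp2.2
          · intro p hp q hq hpq
            have hp' := Finset.mem_filter.1 (Finset.mem_coe.1 hp)
            have hq' := Finset.mem_filter.1 (Finset.mem_coe.1 hq)
            exact Prod.ext (hp'.2.trans hq'.2.symm) hpq
        refine hle.trans ((card_zero_box_le _ hz S).trans ?_)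
        exact Nat.mul_le_mul_right _ (rd_sub_deg e J)
  rw [hsum]
  calc F1.card + F2.card
      ≤ (5 * R * (2 * S + 1) ^ 3) * (P.totalDegree * (2 * R + 1) ^ 3)
        + (J.totalDegree * (2 * S + 1) ^ 3) * (2 * R + 1) ^ 4 := add_le_add h1 h2
    _ ≤ (5 * R * (3 * S) ^ 3) * (P.totalDegree * (3 * R) ^ 3)
        + (J.totalDegree * (3 * S) ^ 3) * (3 * R) ^ 4 := by gcongr
    _ = (3645 * P.totalDegree + 2187 * J.totalDegree) * R ^ 4 * S ^ 3 := by ring

end hypersurface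

section classes

/-- the conditions on a pair: nonzero, size reduced, `|e₁||e₂| ≤ C₀ A^(2/3)` -/
def IsRed (C0 A : ℝ) (p : (Fin 4 → ℤ) × (Fin 4 → ℤ)) : Prop :=
  p.1 ≠ 0 ∧ p.2 ≠ 0 ∧ (sn p.1 : ℝ) * (sn p.2 : ℝ) ≤ C0 * A ^ (2 / 3 : ℝ) ∧
    2 * |p.1 ⬝ᵥ p.2| ≤ p.1 ⬝ᵥ p.1

private lemma rd_rpow_cube (A : ℝ) (hA : 0 ≤ A) : (A ^ (2 / 3 : ℝ)) ^ 3 = A ^ 2 := by
  rw [← Real.rpow_natCast, ← Real.rpow_mul hA, ← Real.rpow_natCast]
  norm_num

open Classical in
private lemma rd_class (b : ℕ) (Q : (Fin 4 → ℤ) × (Fin 4 → ℤ) → Prop) (C : ℕ)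
    (hQ : ∀ R S : ℕ, 1 ≤ R → 1 ≤ S → ((redPairs R S).filter Q).card ≤ C * R ^ (3 + b) * S ^ 3)
    (C0 A R : ℝ) (hC0 : 0 < C0) (hA : 1 ≤ A) (hR : 1 ≤ R)
    (T : Finset ((Fin 4 → ℤ) × (Fin 4 → ℤ)))
    (hT : ∀ p ∈ T, IsRed C0 A p ∧ Q p ∧ R ≤ (sn p.1 : ℝ) ∧ (sn p.1 : ℝ) ≤ 2 * R) :
    (T.card : ℝ) ≤ (C * 2 ^ (3 + b) * C0 ^ 3) * A ^ 2 * R ^ b := by
  rcases T.eq_empty_or_nonempty with rfl | hne
  · simp only [Finset.card_empty, Nat.cast_zero]
    positivity
  have hR0 : 0 < R := by linarith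
  set D : ℝ := A ^ (2 / 3 : ℝ) with hD
  have hD0 : 0 < D := Real.rpow_pos_of_pos (by linarith) _
  have key : ∀ p ∈ T, (sn p.2 : ℝ) ≤ C0 * D / R := by
    intro p hp
    obtain ⟨⟨_, _, h3, _⟩, _, h5, _⟩ := hT p hp
    rw [le_div_iff₀ hR0]
    have h6 : (0 : ℝ) ≤ (sn p.2 : ℝ) := by positivity
    nlinarith
  set R' := ⌊2 * R⌋₊ with hR'
  set S' := ⌊C0 * D / R⌋₊ with hS'
  have hR'1 : 1 ≤ R' := by
    rw [hR', Nat.le_floor_iff (by linarith)]
    push_cast
    linarith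
  have hS'1 : 1 ≤ S' := by
    obtain ⟨p, hp⟩ := hne
    obtain ⟨⟨_, h2, _, _⟩, _⟩ := hT p hp
    have := key p hp
    have h3 : 1 ≤ sn p.2 := sn_pos p.2 h2
    have h4 : (1 : ℝ) ≤ (sn p.2 : ℝ) := by exact_mod_cast h3
    rw [hS', Nat.le_floor_iff (by positivity)]
    push_cast
    linarith
  have hsub : T ⊆ (redPairs R' S').filter Q := by
    intro p hp
    obtain ⟨⟨h1, _, _, h4⟩, h5, _, h7⟩ := hT p hp
    rw [Finset.mem_filter, mem_redPairs]
    refine ⟨⟨?_, ?_, h1, h4⟩, h5⟩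
    · exact Nat.le_floor h7
    · exact Nat.le_floor (key p hp)
  have h1 := (Finset.card_le_card hsub).trans (hQ R' S' hR'1 hS'1)
  have h2 : (T.card : ℝ) ≤ C * (R' : ℝ) ^ (3 + b) * (S' : ℝ) ^ 3 := by exact_mod_cast h1
  have h3 : (R' : ℝ) ≤ 2 * R := Nat.floor_le (by linarith)
  have h4 : (S' : ℝ) ≤ C0 * D / R := Nat.floor_le (by positivity)
  refine h2.trans ?_
  calc (C : ℝ) * (R' : ℝ) ^ (3 + b) * (S' : ℝ) ^ 3
      ≤ C * (2 * R) ^ (3 + b) * (C0 * D / R) ^ 3 := by gcongr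
    _ = (C * 2 ^ (3 + b) * C0 ^ 3) * D ^ 3 * R ^ b := by
        rw [mul_pow, div_pow, mul_pow, pow_add R]
        field_simp
    _ = (C * 2 ^ (3 + b) * C0 ^ 3) * A ^ 2 * R ^ b := by
        rw [hD, rd_rpow_cube A (by linarith)]

private lemma rd_geom (b M : ℕ) (hb : 1 ≤ b) :
    ∑ k ∈ Finset.range (M + 1), (((2 : ℝ) ^ k) ^ b) ≤ 2 * ((2 : ℝ) ^ M) ^ b := by
  induction M with
  | zero => simp
  | succ M ih =>
    rw [Finset.sum_range_succ]
    have h1 : 2 * ((2 : ℝ) ^ M) ^ b ≤ ((2 : ℝ) ^ (M + 1)) ^ b := by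
      rw [pow_succ, mul_pow]
      have : (2 : ℝ) ≤ 2 ^ b := by
        calc (2 : ℝ) = 2 ^ 1 := by norm_num
          _ ≤ 2 ^ b := pow_le_pow_right₀ (by norm_num) hb
      have h0 : (0 : ℝ) ≤ ((2 : ℝ) ^ M) ^ b := by positivity
      nlinarith
    linarith

open Classical in
private lemma rd_total (b : ℕ) (hb : 1 ≤ b) (Q : (Fin 4 → ℤ) × (Fin 4 → ℤ) → Prop) (C : ℕ)
    (hQ : ∀ R S : ℕ, 1 ≤ R → 1 ≤ S → ((redPairs R S).filter Q).card ≤ C * R ^ (3 + b) * S ^ 3)
    (C0 A B : ℝ) (hC0 : 0 < C0) (hA : 1 ≤ A) (hB : 0 ≤ B)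
    (T : Finset ((Fin 4 → ℤ) × (Fin 4 → ℤ)))
    (hT : ∀ p ∈ T, IsRed C0 A p ∧ Q p ∧ (sn p.1 : ℝ) ≤ B) :
    (T.card : ℝ) ≤ (2 * (C * 2 ^ (3 + b) * C0 ^ 3)) * A ^ 2 * B ^ b := by
  rcases T.eq_empty_or_nonempty with rfl | hne
  · simp only [Finset.card_empty, Nat.cast_zero]
    positivity
  set n0 := ⌊B⌋₊ with hn0
  have hn1 : 1 ≤ n0 := by
    obtain ⟨p, hp⟩ := hne
    obtain ⟨⟨h1, _, _, _⟩, _, h3⟩ := hT p hp
    have h4 : 1 ≤ sn p.1 := sn_pos p.1 h1
    exact h4.trans (Nat.le_floor h3)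
  set M := Nat.log 2 n0 with hM
  have hmaps : ∀ p ∈ T, Nat.log 2 (sn p.1) ∈ Finset.range (M + 1) := by
    intro p hp
    obtain ⟨_, _, h3⟩ := hT p hp
    rw [Finset.mem_range, Nat.lt_succ_iff]
    exact Nat.log_mono_right (Nat.le_floor h3)
  rw [Finset.card_eq_sum_card_fiberwise (f := fun p => Nat.log 2 (sn p.1)) (t := Finset.range (M + 1))
    (fun p hp => hmaps p hp)]
  push_cast
  have hfib : ∀ k ∈ Finset.range (M + 1),
      (((T.filter (fun p => Nat.log 2 (sn p.1) = k)).card : ℕ) : ℝ) ≤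
        (C * 2 ^ (3 + b) * C0 ^ 3) * A ^ 2 * ((2 : ℝ) ^ k) ^ b := by
    intro k _
    refine rd_class b Q C hQ C0 A ((2 : ℝ) ^ k) hC0 hA (one_le_pow₀ (by norm_num)) _ ?_
    intro p hp
    rw [Finset.mem_filter] at hp
    obtain ⟨h1, h2, _⟩ := hT p hp.1
    have h4 : sn p.1 ≠ 0 := (sn_pos p.1 h1.1).ne'
    refine ⟨h1, h2, ?_, ?_⟩
    · have := Nat.pow_log_le_self 2 h4
      rw [hp.2] at this
      exact_mod_cast this
    · have := Nat.lt_pow_succ_log_self (b := 2) (by norm_num) (sn p.1)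
      rw [hp.2] at this
      have h5 : sn p.1 ≤ 2 * 2 ^ k := by
        rw [pow_succ] at this
        omega
      exact_mod_cast h5
  refine (Finset.sum_le_sum hfib).trans ?_
  rw [← Finset.mul_sum]
  have h1 := rd_geom b M hb
  have h2 : ((2 : ℝ) ^ M) ^ b ≤ B ^ b := by
    refine pow_le_pow_left₀ (by positivity) ?_ b
    have h3 := Nat.pow_log_le_self 2 (show n0 ≠ 0 by omega)
    have h4 : (n0 : ℝ) ≤ B := Nat.floor_le hB
    have h5 : ((2 ^ M : ℕ) : ℝ) ≤ (n0 : ℝ) := by exact_mod_cast h3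
    push_cast at h5
    linarith
  have h3 : 0 ≤ (C * 2 ^ (3 + b) * C0 ^ 3) * A ^ 2 := by positivity
  calc (C * 2 ^ (3 + b) * C0 ^ 3) * A ^ 2 * ∑ k ∈ Finset.range (M + 1), ((2 : ℝ) ^ k) ^ b
      ≤ (C * 2 ^ (3 + b) * C0 ^ 3) * A ^ 2 * (2 * B ^ b) := by
        refine mul_le_mul_of_nonneg_left ?_ h3
        linarith
    _ = _ := by ring

open Classical in
private lemma rd_all (R S : ℕ) (hR : 1 ≤ R) (hS : 1 ≤ S) :
    ((redPairs R S).filter (fun _ => True)).card ≤ 10935 * R ^ (3 + 2) * S ^ 3 := by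
  rw [Finset.filter_true]
  exact card_redPairs_le R S hR hS

/-- the class `R ≤ |e₁| ≤ 2R`: at most `C A² R²` pairs -/
theorem card_class_le (C0 : ℝ) (hC0 : 0 < C0) :
    ∃ C : ℝ, 0 < C ∧ ∀ A R : ℝ, 1 ≤ A → 1 ≤ R →
      ∀ T : Finset ((Fin 4 → ℤ) × (Fin 4 → ℤ)),
        (∀ p ∈ T, IsRed C0 A p ∧ R ≤ (sn p.1 : ℝ) ∧ (sn p.1 : ℝ) ≤ 2 * R) →
        (T.card : ℝ) ≤ C * A ^ 2 * R ^ 2 := by
  refine ⟨(10935 : ℕ) * 2 ^ (3 + 2) * C0 ^ 3, by positivity, ?_⟩
  intro A R hA hR T hT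
  exact rd_class 2 (fun _ => True) 10935 (by intro R S hR hS; convert rd_all R S hR hS) C0 A R hC0 hA hR T
    (fun p hp => ⟨(hT p hp).1, trivial, (hT p hp).2.1, (hT p hp).2.2⟩)

/-- the class `R ≤ |e₁| ≤ 2R` on a hypersurface: at most `C A² R` pairs -/
theorem card_class_zero_le {K : Type*} [CommRing K] [IsDomain K] [CharZero K]
    (J : MvPolynomial (Fin 4 ⊕ Fin 4) K) (hJ : J ≠ 0) (C0 : ℝ) (hC0 : 0 < C0) :
    ∃ C : ℝ, 0 < C ∧ ∀ A R : ℝ, 1 ≤ A → 1 ≤ R →
      ∀ T : Finset ((Fin 4 → ℤ) × (Fin 4 → ℤ)),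
        (∀ p ∈ T, IsRed C0 A p ∧ evalPair J p = 0 ∧ R ≤ (sn p.1 : ℝ) ∧ (sn p.1 : ℝ) ≤ 2 * R) →
        (T.card : ℝ) ≤ C * A ^ 2 * R := by
  classical
  obtain ⟨C1, hC1⟩ := card_redPairs_zero_le J hJ
  have hQ : ∀ R S : ℕ, 1 ≤ R → 1 ≤ S →
      ((redPairs R S).filter (fun p => evalPair J p = 0)).card ≤
        (C1 + 1) * R ^ (3 + 1) * S ^ 3 := by
    intro R S hR hS
    refine le_trans ?_ (Nat.mul_le_mul_right _ (Nat.mul_le_mul_right _ (Nat.le_succ C1)))
    convert hC1 R S hR hS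
  refine ⟨((C1 + 1 : ℕ) : ℝ) * 2 ^ (3 + 1) * C0 ^ 3, by positivity, ?_⟩
  intro A R hA hR T hT
  have := rd_class 1 (fun p => evalPair J p = 0) (C1 + 1) hQ C0 A R hC0 hA hR T hT
  rwa [pow_one] at this

/-- `|e₁| ≤ B`: at most `C A² B²` pairs -/
theorem card_bdd_le (C0 : ℝ) (hC0 : 0 < C0) :
    ∃ C : ℝ, 0 < C ∧ ∀ A B : ℝ, 1 ≤ A → 0 ≤ B →
      ∀ T : Finset ((Fin 4 → ℤ) × (Fin 4 → ℤ)),
        (∀ p ∈ T, IsRed C0 A p ∧ (sn p.1 : ℝ) ≤ B) →
        (T.card : ℝ) ≤ C * A ^ 2 * B ^ 2 := by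
  refine ⟨2 * ((10935 : ℕ) * 2 ^ (3 + 2) * C0 ^ 3), by positivity, ?_⟩
  intro A B hA hB T hT
  exact rd_total 2 (by norm_num) (fun _ => True) 10935
    (by intro R S hR hS; convert rd_all R S hR hS) C0 A B hC0 hA
    hB T (fun p hp => ⟨(hT p hp).1, trivial, (hT p hp).2⟩)

/-- all classes: at most `C A^(8/3)` pairs -/
theorem card_total_le (C0 : ℝ) (hC0 : 0 < C0) :
    ∃ C : ℝ, 0 < C ∧ ∀ A : ℝ, 1 ≤ A →
      ∀ T : Finset ((Fin 4 → ℤ) × (Fin 4 → ℤ)),
        (∀ p ∈ T, IsRed C0 A p ∧ (sn p.1 : ℝ) ≤ C0 * A ^ (1 / 3 : ℝ)) →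
        (T.card : ℝ) ≤ C * A ^ (8 / 3 : ℝ) := by
  refine ⟨2 * ((10935 : ℕ) * 2 ^ (3 + 2) * C0 ^ 3) * C0 ^ 2, by positivity, ?_⟩
  intro A hA T hT
  have hA0 : 0 < A := by linarith
  have h := rd_total 2 (by norm_num) (fun _ => True) 10935
    (by intro R S hR hS; convert rd_all R S hR hS) C0 A (C0 * A ^ (1 / 3 : ℝ)) hC0 hA
    (by positivity) T (fun p hp => ⟨(hT p hp).1, trivial, (hT p hp).2⟩)
  refine h.trans (le_of_eq ?_)
  have h2 : A ^ 2 * (A ^ (1 / 3 : ℝ)) ^ 2 = A ^ (8 / 3 : ℝ) := by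
    rw [← Real.rpow_natCast, ← Real.rpow_natCast, ← Real.rpow_mul hA0.le, ← Real.rpow_add hA0]
    norm_num
  rw [mul_pow, ← h2]
  ring

/-- all classes on a hypersurface: at most `C A^(7/3)` pairs -/
theorem card_total_zero_le {K : Type*} [CommRing K] [IsDomain K] [CharZero K]
    (J : MvPolynomial (Fin 4 ⊕ Fin 4) K) (hJ : J ≠ 0) (C0 : ℝ) (hC0 : 0 < C0) :
    ∃ C : ℝ, 0 < C ∧ ∀ A : ℝ, 1 ≤ A →
      ∀ T : Finset ((Fin 4 → ℤ) × (Fin 4 → ℤ)),
        (∀ p ∈ T, IsRed C0 A p ∧ evalPair J p = 0 ∧ (sn p.1 : ℝ) ≤ C0 * A ^ (1 / 3 : ℝ)) →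
        (T.card : ℝ) ≤ C * A ^ (7 / 3 : ℝ) := by
  classical
  obtain ⟨C1, hC1⟩ := card_redPairs_zero_le J hJ
  have hQ : ∀ R S : ℕ, 1 ≤ R → 1 ≤ S →
      ((redPairs R S).filter (fun p => evalPair J p = 0)).card ≤
        (C1 + 1) * R ^ (3 + 1) * S ^ 3 := by
    intro R S hR hS
    refine le_trans ?_ (Nat.mul_le_mul_right _ (Nat.mul_le_mul_right _ (Nat.le_succ C1)))
    convert hC1 R S hR hS
  refine ⟨2 * (((C1 + 1 : ℕ) : ℝ) * 2 ^ (3 + 1) * C0 ^ 3) * C0, by positivity, ?_⟩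
  intro A hA T hT
  have hA0 : 0 < A := by linarith
  have h := rd_total 1 le_rfl (fun p => evalPair J p = 0) (C1 + 1) hQ C0 A
    (C0 * A ^ (1 / 3 : ℝ)) hC0 hA (by positivity) T hT
  refine h.trans (le_of_eq ?_)
  have h2 : A ^ 2 * A ^ (1 / 3 : ℝ) = A ^ (7 / 3 : ℝ) := by
    rw [← Real.rpow_natCast, ← Real.rpow_add hA0]
    norm_num
  rw [pow_one, ← h2]
  ring

end classes

end Pool.Agent.Lib.SQF
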