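import Pool.Agent.Lib.SQF.S2
import Pool.Agent.Lib.SQF.Defs

/-!
# Special slices (MP_8842b2_nt, arch70 sections 1, 3)

Two vectors `e, x` (elements of `K = Q(θ)`) are *special* to each other if `x/e` has the same value
at two different roots of `g`, i.e. generates a proper subfield of `K`.

* `special_dvd`: if `A/E` is special and `p` divides the norm of `A` exactly once then `p` divides
  the norm of `E` (the norm of `A/E` is a proper power).
* `special_alpha`: so a special alpha-slice with a short vector `e` contains no solution: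
  `P ≤ C T^d` if `|e_i| ≤ T`.
* `special_count`: the number of `β ∈ ℤ⁴`, `|β_i| ≤ B`, which are special to some `e ≠ 0`,
  `|e_i| ≤ F ≤ B`, is `≤ C B² F²`.
-/

set_option autoImplicit false

open Polynomial Finset

namespace Pool.Agent.Lib.SQF

/-- The norm of `B(θ)` is the product of the values at the roots. -/
theorem norm_mk_prod {F E : Type*} [Field F] [CharZero F] [Field E] [Algebra F E] [IsAlgClosed E]
    (f : F[X]) (hf : Irreducible f) (B : F[X]) :
    algebraMap F E (Algebra.norm F (AdjoinRoot.mk f B)) =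
      ((f.aroots E).map (fun z => aeval z B)).prod := by
  classical
  have : Fact (Irreducible f) := ⟨hf⟩
  have hne : f ≠ 0 := hf.ne_zero
  have : Module.Finite F (AdjoinRoot f) := (AdjoinRoot.powerBasis hne).finite
  rw [Algebra.norm_eq_prod_embeddings F E]
  have hnd : (f.aroots E).Nodup := nodup_roots (hf.separable.map)
  have h1 : ∏ σ : AdjoinRoot f →ₐ[F] E, σ (AdjoinRoot.mk f B) =
      ∏ x : {x // x ∈ (f.aroots E).toFinset}, aeval (x : E) B := by
    refine Fintype.prod_equiv ((AdjoinRoot.equiv E F f hne).trans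
      (Equiv.subtypeEquivRight (fun x => by rw [Multiset.mem_toFinset]))) _ _ ?_
    intro σ
    change σ (AdjoinRoot.mk f B) = aeval (σ (AdjoinRoot.root f)) B
    rw [← AdjoinRoot.aeval_eq, aeval_algHom_apply]
  rw [h1, Finset.prod_coe_sort _ (fun x => aeval x B), Finset.prod_multiset_map_count]
  refine Finset.prod_congr rfl ?_
  intro x hx
  rw [Multiset.count_eq_one_of_mem hnd (Multiset.mem_toFinset.mp hx), pow_one]

/-- If two conjugates of an element agree then its norm is a proper power. -/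
theorem norm_eq_pow_of_eq {F E : Type*} [Field F] [CharZero F] [Field E] [Algebra F E]
    (f : F[X]) (hf : Irreducible f) (x : AdjoinRoot f) [Fact (Irreducible f)]
    (σ τ : AdjoinRoot f →ₐ[F] E) (hστ : σ (AdjoinRoot.root f) ≠ τ (AdjoinRoot.root f))
    (hx : σ x = τ x) :
    ∃ (e : ℕ) (c : F), 2 ≤ e ∧ Algebra.norm F x = c ^ e := by
  classical
  have hne : f ≠ 0 := hf.ne_zero
  have : Module.Finite F (AdjoinRoot f) := (AdjoinRoot.powerBasis hne).finite
  refine ⟨Module.finrank (IntermediateField.adjoin F {x}) (AdjoinRoot f), _, ?_,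
    Algebra.norm_eq_norm_adjoin F x⟩
  have h0 : 0 < Module.finrank (IntermediateField.adjoin F {x}) (AdjoinRoot f) :=
    Module.finrank_pos
  by_contra hlt
  have h1 : Module.finrank (IntermediateField.adjoin F {x}) (AdjoinRoot f) = 1 := by omega
  have h2 : IntermediateField.adjoin F {x} = ⊤ := IntermediateField.finrank_eq_one_iff_eq_top.mp h1
  have h3 : AdjoinRoot.root f ∈ IntermediateField.adjoin F {x} := by rw [h2]; trivial
  refine hστ (IntermediateField.adjoin_induction (F := F) (s := {x})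
    (p := fun y _ => σ y = τ y) ?_ ?_ ?_ ?_ ?_ h3)
  · intro y hy
    rw [Set.mem_singleton_iff.mp hy, hx]
  · intro y
    rw [AlgHom.commutes, AlgHom.commutes]
  · intro y z _ _ h1 h2
    rw [map_add, map_add, h1, h2]
  · intro y _ h1
    rw [map_inv₀, map_inv₀, h1]
  · intro y z _ _ h1 h2
    rw [map_mul, map_mul, h1, h2]

/-- If the ratio of `a` and `b` takes equal values at two different roots then the products over
all the roots differ by a proper power. -/
theorem prod_eq_pow_of_eq {F E : Type*} [Field F] [CharZero F] [Field E] [Algebra F E]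
    [IsAlgClosed E] (f : F[X]) (hf : Irreducible f) (a b : F[X]) (hb : ¬ f ∣ b) (z w : E)
    (hz : aeval z f = 0) (hw : aeval w f = 0) (hzw : z ≠ w)
    (h : aeval z a * aeval w b = aeval w a * aeval z b) :
    ∃ (e : ℕ) (c : F), 2 ≤ e ∧ ((f.aroots E).map (fun z => aeval z a)).prod =
      ((f.aroots E).map (fun z => aeval z b)).prod * algebraMap F E c ^ e := by
  have : Fact (Irreducible f) := ⟨hf⟩
  have hb0 : AdjoinRoot.mk f b ≠ 0 := by
    rwa [Ne, AdjoinRoot.mk_eq_zero]
  let σ : AdjoinRoot f →ₐ[F] E := AdjoinRoot.liftAlgHom f (Algebra.ofId F E) z hz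
  let τ : AdjoinRoot f →ₐ[F] E := AdjoinRoot.liftAlgHom f (Algebra.ofId F E) w hw
  have hσr : σ (AdjoinRoot.root f) = z := AdjoinRoot.liftAlgHom_root ..
  have hτr : τ (AdjoinRoot.root f) = w := AdjoinRoot.liftAlgHom_root ..
  have hσ : ∀ q : F[X], σ (AdjoinRoot.mk f q) = aeval z q := by
    intro q
    rw [← AdjoinRoot.aeval_eq, ← aeval_algHom_apply, hσr]
  have hτ : ∀ q : F[X], τ (AdjoinRoot.mk f q) = aeval w q := by
    intro q
    rw [← AdjoinRoot.aeval_eq, ← aeval_algHom_apply, hτr]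
  have hx : σ (AdjoinRoot.mk f a / AdjoinRoot.mk f b) = τ (AdjoinRoot.mk f a / AdjoinRoot.mk f b) := by
    rw [map_div₀, map_div₀, hσ, hσ, hτ, hτ]
    have h1 : aeval z b ≠ 0 := by rw [← hσ]; exact (map_ne_zero σ).mpr hb0
    have h2 : aeval w b ≠ 0 := by rw [← hτ]; exact (map_ne_zero τ).mpr hb0
    rw [div_eq_div_iff h1 h2, h]
  obtain ⟨e, c, he, hc⟩ := norm_eq_pow_of_eq f hf (AdjoinRoot.mk f a / AdjoinRoot.mk f b) σ τ
    (by rw [hσr, hτr]; exact hzw) hx
  refine ⟨e, c, he, ?_⟩
  rw [← norm_mk_prod f hf a, ← norm_mk_prod f hf b, ← map_pow, ← hc, ← map_mul, ← map_mul,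
    mul_div_cancel₀ _ hb0]

/-- **Special pairs.** If `A/E` has equal values at two different roots of `g` and the norm of `A`
is divisible exactly once by `p` then `p` divides the norm of `E`. -/
theorem special_dvd (g : ℤ[X]) (hg : g.Monic) (hirr : Irreducible g) (A E : ℤ[X])
    (hA : A.natDegree < g.natDegree) (hE : E.natDegree < g.natDegree) (hE0 : E ≠ 0)
    (z w : ℂ) (hz : aeval z g = 0) (hw : aeval w g = 0) (hzw : z ≠ w)
    (h : aeval z A * aeval w E = aeval w A * aeval z E) (p : ℕ) (hp : p.Prime) (m : ℤ)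
    (hm : ¬ (p : ℤ) ∣ m) (hres : resultant g A g.natDegree g.natDegree = p * m) :
    (p : ℤ) ∣ resultant g E g.natDegree g.natDegree := by
  have hgQ : Irreducible (g.map (algebraMap ℤ ℚ)) :=
    (hg.irreducible_iff_irreducible_map_fraction_map (K := ℚ)).mp hirr
  have har : (g.map (algebraMap ℤ ℚ)).aroots ℂ = g.aroots ℂ := by
    rw [aroots_def, aroots_def, Polynomial.map_map]
    congr 1
  have hEz := aeval_ne_zero_of_lt g hg hirr E hE0 hE z hz
  have hb : ¬ g.map (algebraMap ℤ ℚ) ∣ E.map (algebraMap ℤ ℚ) := by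
    rintro ⟨q, hq⟩
    apply hEz
    rw [← aeval_map_algebraMap ℚ z E, hq, map_mul, aeval_map_algebraMap, hz, zero_mul]
  obtain ⟨e, c, he, hc⟩ := prod_eq_pow_of_eq (E := ℂ) (g.map (algebraMap ℤ ℚ)) hgQ
    (A.map (algebraMap ℤ ℚ)) (E.map (algebraMap ℤ ℚ)) hb z w
    (by rw [aeval_map_algebraMap, hz]) (by rw [aeval_map_algebraMap, hw]) hzw
    (by simpa only [aeval_map_algebraMap] using h)
  simp only [aeval_map_algebraMap, har] at hc
  rw [← resultant_cast g hg A g.natDegree hA.le, ← resultant_cast g hg E g.natDegree hE.le] at hc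
  have hc2 : ((resultant g A g.natDegree g.natDegree : ℤ) : ℚ) =
      ((resultant g E g.natDegree g.natDegree : ℤ) : ℚ) * c ^ e := by
    have h1 : (algebraMap ℚ ℂ) ((resultant g A g.natDegree g.natDegree : ℤ) : ℚ) =
      (algebraMap ℚ ℂ) (((resultant g E g.natDegree g.natDegree : ℤ) : ℚ) * c ^ e) := by
      rw [map_mul, map_pow]
      simpa using hc
    exact (algebraMap ℚ ℂ).injective h1
  by_contra hcon
  have := Fact.mk hp
  have hm0 : m ≠ 0 := by rintro rfl; exact hm (dvd_zero _)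
  have hp0 : (p : ℤ) ≠ 0 := by exact_mod_cast hp.ne_zero
  have hA0 : ((resultant g A g.natDegree g.natDegree : ℤ) : ℚ) ≠ 0 := by
    rw [hres]
    exact_mod_cast mul_ne_zero hp0 hm0
  have hR0 : ((resultant g E g.natDegree g.natDegree : ℤ) : ℚ) ≠ 0 := by
    intro h0
    rw [h0, zero_mul] at hc2
    exact hA0 hc2
  have hc0 : c ^ e ≠ 0 := by
    intro h0
    rw [h0, mul_zero] at hc2
    exact hA0 hc2
  have hv := congrArg (padicValRat p) hc2
  rw [padicValRat.mul hR0 hc0, padicValRat.pow, padicValRat.of_int,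
    padicValRat.of_int, padicValInt.eq_zero_of_not_dvd hcon, hres] at hv
  rw [padicValInt.mul hp0 hm0, padicValInt.self (by exact_mod_cast hp.one_lt)] at hv
  rw [padicValInt.eq_zero_of_not_dvd hm] at hv
  have h5 : (e : ℤ) ∣ 1 := ⟨padicValRat p c, by simpa using hv⟩
  have h6 := Int.le_of_dvd one_pos h5
  omega

/-- Elements of `F[x]/(f)`, `deg f = 4`, on which two different embeddings agree form a space of
dimension at most `2`. -/
theorem dep3 {F E : Type*} [Field F] [Field E] [Algebra F E] (f : F[X]) (hf : Irreducible f)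
    (hd : f.natDegree = 4) (b : F[X]) (hb : ¬ f ∣ b) (z w : E) (hz : aeval z f = 0)
    (hw : aeval w f = 0) (hzw : z ≠ w) (a : Fin 3 → F[X]) (ha : ∀ i, (a i).natDegree < 4)
    (h : ∀ i, aeval z (a i) * aeval w b = aeval w (a i) * aeval z b) :
    ∃ c : Fin 3 → F, c ≠ 0 ∧ ∑ i, C (c i) * a i = 0 := by
  have : Fact (Irreducible f) := ⟨hf⟩
  have hne : f ≠ 0 := hf.ne_zero
  have hfin : Module.Finite F (AdjoinRoot f) := (AdjoinRoot.powerBasis hne).finite
  have hb0 : AdjoinRoot.mk f b ≠ 0 := by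
    rwa [Ne, AdjoinRoot.mk_eq_zero]
  let σ : AdjoinRoot f →ₐ[F] E := AdjoinRoot.liftAlgHom f (Algebra.ofId F E) z hz
  let τ : AdjoinRoot f →ₐ[F] E := AdjoinRoot.liftAlgHom f (Algebra.ofId F E) w hw
  have hσr : σ (AdjoinRoot.root f) = z := AdjoinRoot.liftAlgHom_root ..
  have hτr : τ (AdjoinRoot.root f) = w := AdjoinRoot.liftAlgHom_root ..
  have hσ : ∀ q : F[X], σ (AdjoinRoot.mk f q) = aeval z q := by
    intro q
    rw [← AdjoinRoot.aeval_eq, ← aeval_algHom_apply, hσr]
  have hτ : ∀ q : F[X], τ (AdjoinRoot.mk f q) = aeval w q := by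
    intro q
    rw [← AdjoinRoot.aeval_eq, ← aeval_algHom_apply, hτr]
  let k : IntermediateField F (AdjoinRoot f) :=
    { carrier := {x | σ x = τ x}
      mul_mem' := fun {x y} hx hy => by
        simp only [Set.mem_ofPred_eq] at *; rw [map_mul, map_mul, hx, hy]
      one_mem' := by simp
      add_mem' := fun {x y} hx hy => by
        simp only [Set.mem_ofPred_eq] at *; rw [map_add, map_add, hx, hy]
      zero_mem' := by simp
      algebraMap_mem' := fun r => by
        simp only [Set.mem_ofPred_eq]; rw [AlgHom.commutes, AlgHom.commutes]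
      inv_mem' := fun x hx => by
        simp only [Set.mem_ofPred_eq] at *
        rw [map_inv₀, map_inv₀]
        exact congrArg _ hx }
  have hk : ∀ x, x ∈ k ↔ σ x = τ x := fun x => Iff.rfl
  have hmul : Module.finrank F k * Module.finrank k (AdjoinRoot f) =
      Module.finrank F (AdjoinRoot f) := Module.finrank_mul_finrank F k (AdjoinRoot f)
  have h4 : Module.finrank F (AdjoinRoot f) = 4 := by
    rw [(AdjoinRoot.powerBasis hne).finrank, AdjoinRoot.powerBasis_dim, hd]
  have h1 : Module.finrank k (AdjoinRoot f) ≠ 1 := by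
    intro h1
    have h2 : k = ⊤ := IntermediateField.finrank_eq_one_iff_eq_top.mp h1
    have h3 : AdjoinRoot.root f ∈ k := by rw [h2]; trivial
    rw [hk, hσr, hτr] at h3
    exact hzw h3
  have h2 : Module.finrank F k ≤ 2 := by
    by_contra hcon
    have h5 : 0 < Module.finrank k (AdjoinRoot f) := Module.finrank_pos
    have h6 : 2 ≤ Module.finrank k (AdjoinRoot f) := by omega
    have h7 : 3 ≤ Module.finrank F k := by omega
    have := Nat.mul_le_mul h7 h6
    omega
  have hmem : ∀ i, AdjoinRoot.mk f (a i) / AdjoinRoot.mk f b ∈ k := by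
    intro i
    rw [hk, map_div₀, map_div₀, hσ, hσ, hτ, hτ]
    have h1 : aeval z b ≠ 0 := by rw [← hσ]; exact (map_ne_zero σ).mpr hb0
    have h2 : aeval w b ≠ 0 := by rw [← hτ]; exact (map_ne_zero τ).mpr hb0
    rw [div_eq_div_iff h1 h2, h i]
  let y : Fin 3 → k := fun i => ⟨AdjoinRoot.mk f (a i) / AdjoinRoot.mk f b, hmem i⟩
  have hdep : ¬ LinearIndependent F y := by
    intro hli
    have := hli.fintype_card_le_finrank
    rw [Fintype.card_fin] at this
    omega
  rw [Fintype.not_linearIndependent_iff] at hdep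
  obtain ⟨c, hc, i0, hi0⟩ := hdep
  refine ⟨c, fun h0 => hi0 (by rw [h0]; rfl), ?_⟩
  have hc2 : ∑ i, c i • (AdjoinRoot.mk f (a i) / AdjoinRoot.mk f b) = 0 := by
    have := congrArg (fun x : k => (x : AdjoinRoot f)) hc
    simpa [y] using this
  have hc3 : AdjoinRoot.mk f (∑ i, C (c i) * a i) = 0 := by
    have h8 : AdjoinRoot.mk f (∑ i, C (c i) * a i) =
        (∑ i, c i • (AdjoinRoot.mk f (a i) / AdjoinRoot.mk f b)) * AdjoinRoot.mk f b := by
      rw [map_sum, Finset.sum_mul]
      refine Finset.sum_congr rfl fun i _ => ?_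
      rw [smul_mul_assoc, div_mul_cancel₀ _ hb0, map_mul, AdjoinRoot.mk_C, Algebra.smul_def]
      rfl
    rw [h8, hc2, zero_mul]
  rw [AdjoinRoot.mk_eq_zero] at hc3
  by_contra hne0
  have h9 := natDegree_le_of_dvd hc3 hne0
  have h10 : (∑ i, C (c i) * a i).natDegree ≤ 3 := by
    refine natDegree_sum_le_of_forall_le _ _ fun i _ => ?_
    exact (natDegree_C_mul_le _ _).trans (by have := ha i; omega)
  omega

/-- counting the points of a parallelogram with given distances -/
theorem card_cells (S : Finset (Fin 4 → ℤ)) (B l : ℕ) (hl : 1 ≤ l) (hlB : l ≤ B)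
    (a b : Fin 4 → ℤ) (ha : ∀ k, |a k| ≤ B) (hb : ∀ k, |b k| ≤ B)
    (s t : (Fin 4 → ℤ) → ℚ) (hs : ∀ x ∈ S, |s x| ≤ 1) (ht : ∀ x ∈ S, |t x| ≤ 1)
    (hx : ∀ x ∈ S, ∀ k, ((x k : ℤ) : ℚ) = s x * a k + t x * b k)
    (hsep : ∀ x ∈ S, ∀ y ∈ S, x ≠ y → ∃ k, (l : ℤ) ≤ |x k - y k|) :
    S.card * l ^ 2 ≤ 49 * B ^ 2 := by
  classical
  obtain ⟨M, hM⟩ : ∃ M : ℕ, M = 2 * B / l + 1 := ⟨_, rfl⟩
  have hM1 : 2 * B ≤ M * l := by
    rw [hM]
    have := Nat.div_add_mod (2 * B) l
    have h2 := Nat.mod_lt (2 * B) hl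
    nlinarith
  have hM2 : M * l ≤ 2 * B + l := by
    rw [hM, add_mul, one_mul]
    have := Nat.div_mul_le_self (2 * B) l
    omega
  have hM0 : (0 : ℚ) < M := by
    have : 0 < M := by rw [hM]; exact Nat.succ_pos _
    exact_mod_cast this
  have hB0 : (0 : ℚ) < B := by exact_mod_cast (by omega : 0 < B)
  set φ : (Fin 4 → ℤ) → ℤ × ℤ := fun x => (⌊s x * M⌋, ⌊t x * M⌋) with hφ
  have hfl : ∀ r : ℚ, |r| ≤ 1 → -(M : ℤ) ≤ ⌊r * M⌋ ∧ ⌊r * M⌋ ≤ M := by
    intro r hr
    rw [abs_le] at hr
    constructor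
    · rw [Int.le_floor]; push_cast; nlinarith
    · have : (⌊r * M⌋ : ℚ) ≤ M := (Int.floor_le _).trans (by nlinarith)
      exact_mod_cast this
  have hmaps : ∀ x ∈ S, φ x ∈ Finset.Icc (-(M : ℤ)) M ×ˢ Finset.Icc (-(M : ℤ)) M := by
    intro x hxS
    rw [Finset.mem_product, Finset.mem_Icc, Finset.mem_Icc]
    exact ⟨hfl _ (hs x hxS), hfl _ (ht x hxS)⟩
  have hinj : Set.InjOn φ S := by
    intro x hxS y hyS hxy
    by_contra hne
    obtain ⟨k, hk⟩ := hsep x hxS y hyS hne
    simp only [hφ, Prod.mk.injEq] at hxy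
    have h1 := Int.abs_sub_lt_one_of_floor_eq_floor hxy.1
    have h2 := Int.abs_sub_lt_one_of_floor_eq_floor hxy.2
    have h3 : (((x k - y k : ℤ)) : ℚ) * M = (s x * M - s y * M) * a k + (t x * M - t y * M) * b k := by
      push_cast
      rw [hx x hxS k, hx y hyS k]; ring
    have h4 : |((x k - y k : ℤ) : ℚ) * M| < 2 * B := by
      rw [h3]
      have ha' : |(a k : ℚ)| ≤ B := by exact_mod_cast ha k
      have hb' : |(b k : ℚ)| ≤ B := by exact_mod_cast hb k
      calc _ ≤ |(s x * M - s y * M) * a k| + |(t x * M - t y * M) * b k| := abs_add_le _ _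
        _ = |s x * M - s y * M| * |(a k : ℚ)| + |t x * M - t y * M| * |(b k : ℚ)| := by
            rw [abs_mul, abs_mul]
        _ ≤ |s x * M - s y * M| * B + |t x * M - t y * M| * B :=
            add_le_add (mul_le_mul_of_nonneg_left ha' (abs_nonneg _))
              (mul_le_mul_of_nonneg_left hb' (abs_nonneg _))
        _ < 1 * B + 1 * B := add_lt_add (mul_lt_mul_of_pos_right h1 hB0)
            (mul_lt_mul_of_pos_right h2 hB0)
        _ = 2 * B := by ring
    have h6 : ((l : ℤ) : ℚ) ≤ |((x k - y k : ℤ) : ℚ)| := by exact_mod_cast hk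
    rw [abs_mul, abs_of_pos hM0] at h4
    have h7 : ((l : ℤ) : ℚ) * M ≤ |((x k - y k : ℤ) : ℚ)| * M :=
      mul_le_mul_of_nonneg_right h6 hM0.le
    have h8 : (2 * B : ℚ) ≤ M * l := by exact_mod_cast hM1
    push_cast at h7
    push_cast at h4
    linarith
  have hcard := Finset.card_le_card_of_injOn φ hmaps hinj
  rw [Finset.card_product, Int.card_Icc] at hcard
  have h5 : ((M : ℤ) + 1 - -(M : ℤ)).toNat = 2 * M + 1 := by omega
  rw [h5] at hcard
  calc S.card * l ^ 2 ≤ ((2 * M + 1) * (2 * M + 1)) * l ^ 2 := Nat.mul_le_mul_right _ hcard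
    _ = ((2 * M + 1) * l) ^ 2 := by ring
    _ ≤ (7 * B) ^ 2 := by
        apply Nat.pow_le_pow_left
        nlinarith
    _ = 49 * B ^ 2 := by ring

/-- the `2 × 2` minors -/
def mn (x y : Fin 4 → ℤ) (i j : Fin 4) : ℤ := x i * y j - x j * y i

/-- **Packing in a plane.** Integer points of size `B` in a plane with distances at least `l`. -/
theorem packing (S : Finset (Fin 4 → ℤ)) (B l : ℕ) (hl : 1 ≤ l) (hlB : l ≤ B)
    (hS : ∀ x ∈ S, ∀ k, |x k| ≤ B)
    (hdep : ∀ x ∈ S, ∀ y ∈ S, ∀ t ∈ S, ∀ i j k : Fin 4,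
      t k * mn x y i j = x k * mn t y i j + y k * mn x t i j)
    (hsep : ∀ x ∈ S, ∀ y ∈ S, x ≠ y → ∃ k, (l : ℤ) ≤ |x k - y k|) :
    S.card * l ^ 2 ≤ 49 * B ^ 2 := by
  classical
  rcases S.eq_empty_or_nonempty with h0 | hne
  · rw [h0]; simp
  by_cases hcase : ∃ x ∈ S, ∃ y ∈ S, ∃ i j, mn x y i j ≠ 0
  · -- a pair with the maximal minor
    obtain ⟨q, hq, hmax⟩ := Finset.exists_max_image
      ((S ×ˢ S) ×ˢ ((Finset.univ : Finset (Fin 4)) ×ˢ (Finset.univ : Finset (Fin 4))))
      (fun q => |mn q.1.1 q.1.2 q.2.1 q.2.2|) (by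
        obtain ⟨x, hx⟩ := hne
        exact ⟨((x, x), (0, 0)), by simp [hx]⟩)
    obtain ⟨⟨a, b⟩, ⟨i, j⟩⟩ := q
    simp only [Finset.mem_product, Finset.mem_univ, and_true] at hq hmax
    obtain ⟨ha, hb⟩ := hq
    have hmax' : ∀ x ∈ S, ∀ y ∈ S, |mn x y i j| ≤ |mn a b i j| := fun x hx y hy =>
      hmax ((x, y), (i, j)) ⟨hx, hy⟩
    have hD : mn a b i j ≠ 0 := by
      obtain ⟨x, hx, y, hy, i', j', hxy⟩ := hcase
      intro h0
      have := hmax ((x, y), (i', j')) ⟨hx, hy⟩
      simp only [h0, abs_zero] at this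
      exact hxy (abs_eq_zero.mp (le_antisymm this (abs_nonneg _)))
    have hDQ : ((mn a b i j : ℤ) : ℚ) ≠ 0 := by exact_mod_cast hD
    have hDpos : (0 : ℚ) < |((mn a b i j : ℤ) : ℚ)| := abs_pos.mpr hDQ
    refine card_cells S B l hl hlB a b (hS a ha) (hS b hb)
      (fun x => (mn x b i j : ℚ) / (mn a b i j : ℚ)) (fun x => (mn a x i j : ℚ) / (mn a b i j : ℚ))
      ?_ ?_ ?_ hsep
    · intro x hx
      rw [abs_div, div_le_one hDpos]
      exact_mod_cast hmax' x hx b hb
    · intro x hx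
      rw [abs_div, div_le_one hDpos]
      exact_mod_cast hmax' a ha x hx
    · intro x hx k
      have h1 := hdep a ha b hb x hx i j k
      have h2 : ((x k : ℤ) : ℚ) * (mn a b i j : ℚ) =
          (a k : ℚ) * (mn x b i j : ℚ) + (b k : ℚ) * (mn a x i j : ℚ) := by exact_mod_cast h1
      field_simp
      linarith
  · push Not at hcase
    obtain ⟨q, hq, hmax⟩ := Finset.exists_max_image (S ×ˢ (Finset.univ : Finset (Fin 4)))
      (fun q => |q.1 q.2|) (by
        obtain ⟨x, hx⟩ := hne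
        exact ⟨(x, 0), by simp [hx]⟩)
    obtain ⟨a, i⟩ := q
    simp only [Finset.mem_product, Finset.mem_univ, and_true] at hq hmax
    have hmax' : ∀ x ∈ S, ∀ k, |x k| ≤ |a i| := fun x hx k => hmax (x, k) hx
    by_cases ha0 : a i = 0
    · have hz : ∀ x ∈ S, ∀ k, x k = 0 := by
        intro x hx k
        have := hmax' x hx k
        rw [ha0, abs_zero] at this
        exact abs_eq_zero.mp (le_antisymm this (abs_nonneg _))
      refine card_cells S B l hl hlB 0 0 (fun k => by simp) (fun k => by simp) (fun _ => 0)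
        (fun _ => 0) (fun x _ => by simp) (fun x _ => by simp) ?_ hsep
      intro x hx k
      rw [hz x hx k]; simp
    · have hDQ : ((a i : ℤ) : ℚ) ≠ 0 := by exact_mod_cast ha0
      have hDpos : (0 : ℚ) < |((a i : ℤ) : ℚ)| := abs_pos.mpr hDQ
      refine card_cells S B l hl hlB a 0 (hS a hq) (fun k => by simp)
        (fun x => (x i : ℚ) / (a i : ℚ)) (fun _ => 0) ?_ (fun x _ => by simp) ?_ hsep
      · intro x hx
        rw [abs_div, div_le_one hDpos]
        exact_mod_cast hmax' x hx i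
      · intro x hx k
        have h1 := hcase x hx a hq k i
        rw [mn] at h1
        have h2 : ((x k : ℤ) : ℚ) * (a i : ℚ) = (x i : ℚ) * (a k : ℚ) := by
          exact_mod_cast (by linarith : x k * a i = x i * a k)
        field_simp
        simp only [Pi.zero_apply, Int.cast_zero, mul_zero, add_zero]
        linarith

/-- A norm bound. -/
theorem resultant_le (g : ℤ[X]) (hg : g.Monic) :
    ∃ C : ℝ, 1 ≤ C ∧ ∀ (A : ℤ[X]) (T : ℝ), A.natDegree < g.natDegree → 0 < T →
      (∀ i, |((A.coeff i : ℤ) : ℝ)| ≤ T) →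
      |((resultant g A g.natDegree g.natDegree : ℤ) : ℝ)| ≤ C * T ^ g.natDegree := by
  obtain ⟨R, hR1, hR⟩ := root_bound g hg.ne_zero
  refine ⟨(max 1 (g.natDegree * R ^ g.natDegree)) ^ g.natDegree,
    one_le_pow₀ (le_max_left _ _), ?_⟩
  intro A T hA hT hAT
  have h1 := resultant_cast g hg A g.natDegree hA.le
  have h2 : ‖((resultant g A g.natDegree g.natDegree : ℤ) : ℂ)‖ =
      |((resultant g A g.natDegree g.natDegree : ℤ) : ℝ)| := Complex.norm_intCast _
  rw [← h2, h1, ← mul_pow]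
  have hcard : Multiset.card (g.aroots ℂ) ≤ g.natDegree := by
    have := card_roots' (g.map (algebraMap ℤ ℂ))
    rw [hg.natDegree_map] at this
    exact this
  have hpos : 0 < max 1 ((g.natDegree : ℝ) * R ^ g.natDegree) * T := by positivity
  have h3 := norm_prod_le (max 1 ((g.natDegree : ℝ) * R ^ g.natDegree) * T) hpos
    (fun z => aeval z A) (g.aroots ℂ) (by
      intro z hz
      rw [mem_aroots] at hz
      exact (norm_aeval_le A g.natDegree hA T R hT.le hR1 hAT z (hR z hz.2)).trans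
        (mul_le_mul_of_nonneg_right (le_max_right _ _) hT.le))
  have hcard2 : Multiset.card (g.aroots ℂ) = g.natDegree := by
    have h4 := (IsAlgClosed.splits (g.map (algebraMap ℤ ℂ))).natDegree_eq_card_roots
    rw [hg.natDegree_map] at h4
    exact h4.symm
  rw [hcard2] at h3
  exact h3

lemma pol_coeff {d : ℕ} (a : Fin d → ℤ) (i : Fin d) : (pol a).coeff i = a i := by
  rw [pol, finsetSum_coeff, Finset.sum_eq_single i]
  · rw [coeff_C_mul, coeff_X_pow_self, mul_one]
  · intro j _ hj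
    rw [coeff_C_mul, coeff_X_pow, if_neg (by intro h; exact hj (Fin.ext h.symm)), mul_zero]
  · intro h; exact absurd (Finset.mem_univ i) h

lemma sp_natDegree_lt {d : ℕ} (hd : 0 < d) (a : Fin d → ℤ) : (pol a).natDegree < d := by
  have : (pol a).natDegree ≤ d - 1 := by
    refine natDegree_sum_le_of_forall_le _ _ fun i _ => ?_
    exact (natDegree_C_mul_X_pow_le _ _).trans (by omega)
  omega

lemma pol_coeff_le {d : ℕ} (hd : 0 < d) (a : Fin d → ℤ) (T : ℝ) (hT : 0 ≤ T)
    (ha : ∀ i, |((a i : ℤ) : ℝ)| ≤ T) (i : ℕ) : |(((pol a).coeff i : ℤ) : ℝ)| ≤ T := by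
  rcases lt_or_ge i d with h | h
  · have := pol_coeff a ⟨i, h⟩
    simp only at this
    rw [this]; exact ha _
  · rw [coeff_eq_zero_of_natDegree_lt (lt_of_lt_of_le (sp_natDegree_lt hd a) h)]
    simpa using hT

lemma sp_ne_zero {d : ℕ} (a : Fin d → ℤ) (ha : a ≠ 0) : pol a ≠ 0 := by
  intro h
  apply ha
  funext i
  rw [← pol_coeff a i, h]; simp

/-- **Special alpha-slices contain no solution.** -/
theorem special_alpha (g : ℤ[X]) (hg : g.Monic) (hirr : Irreducible g) (d : ℕ)
    (hd : g.natDegree = d) :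
    ∃ C : ℝ, 1 ≤ C ∧ ∀ (K Y P : ℝ) (n : ℤ) (p : ℕ) (α β : Fin d → ℤ) (m : ℤ) (e : Fin d → ℤ)
      (z w : ℂ) (T : ℝ), IsSol d g K Y P n p α β m → e ≠ 0 → aeval z g = 0 → aeval w g = 0 →
      z ≠ w → ev α z * ev e w = ev α w * ev e z → 0 < T → (∀ i, |((e i : ℤ) : ℝ)| ≤ T) →
      P ≤ C * T ^ d := by
  subst hd
  obtain ⟨C, hC, hCb⟩ := resultant_le g hg
  refine ⟨C, hC, ?_⟩
  intro K Y P n p α β m e z w T hsol he hz hw hzw hrel hT heT
  have hd0 : 0 < g.natDegree := by
    rcases Nat.eq_zero_or_pos g.natDegree with h | h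
    · exfalso
      rw [hg.natDegree_eq_zero.mp h] at hirr
      exact hirr.not_isUnit isUnit_one
    · exact h
  have hEdeg : (pol e).natDegree < g.natDegree := sp_natDegree_lt hd0 e
  have h1 := special_dvd g hg hirr (pol α) (pol e) (sp_natDegree_lt hd0 α)
    hEdeg (sp_ne_zero e he) z w hz hw hzw
    (by rw [aeval_pol, aeval_pol, aeval_pol, aeval_pol]; exact hrel) p hsol.prime m hsol.not_dvd
    hsol.res
  have h2 := hCb (pol e) T hEdeg hT (pol_coeff_le hd0 e T hT.le heT)
  have h3 : resultant g (pol e) g.natDegree g.natDegree ≠ 0 := by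
    intro h0
    have h4 := resultant_cast g hg (pol e) g.natDegree hEdeg.le
    rw [h0, Int.cast_zero] at h4
    have h5 := Multiset.prod_eq_zero_iff.mp h4.symm
    obtain ⟨y, hy, hy0⟩ := Multiset.mem_map.mp h5
    rw [mem_aroots] at hy
    exact aeval_ne_zero_of_lt g hg hirr (pol e) (sp_ne_zero e he) hEdeg y hy.2 hy0
  have h6 : (p : ℤ) ≤ |resultant g (pol e) g.natDegree g.natDegree| :=
    Int.le_of_dvd (abs_pos.mpr h3) ((dvd_abs _ _).mpr h1)
  have h7 : (p : ℝ) ≤ |((resultant g (pol e) g.natDegree g.natDegree : ℤ) : ℝ)| := by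
    exact_mod_cast h6
  exact hsol.ple.trans (h7.trans h2)

/-- Three vectors special to `e` are dependent. -/
theorem special_minor (g : ℤ[X]) (hg : g.Monic) (hirr : Irreducible g) (hd : g.natDegree = 4)
    (z w : ℂ) (hz : aeval z g = 0) (hw : aeval w g = 0) (hzw : z ≠ w) (e : Fin 4 → ℤ) (he : e ≠ 0)
    (v : Fin 3 → Fin 4 → ℤ) (hv : ∀ r, ev e z * ev (v r) w = ev e w * ev (v r) z)
    (idx : Fin 3 → Fin 4) : (Matrix.of fun r s => v r (idx s)).det = 0 := by
  have hgQ : Irreducible (g.map (algebraMap ℤ ℚ)) :=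
    (hg.irreducible_iff_irreducible_map_fraction_map (K := ℚ)).mp hirr
  have hEz := aeval_ne_zero_of_lt g hg hirr (pol e) (sp_ne_zero e he)
    (by rw [hd]; exact sp_natDegree_lt (by norm_num) e) z hz
  have hb : ¬ g.map (algebraMap ℤ ℚ) ∣ (pol e).map (algebraMap ℤ ℚ) := by
    rintro ⟨q, hq⟩
    apply hEz
    rw [← aeval_map_algebraMap ℚ z (pol e), hq, map_mul, aeval_map_algebraMap, hz, zero_mul]
  obtain ⟨c, hc0, hc⟩ := dep3 (E := ℂ) (g.map (algebraMap ℤ ℚ)) hgQ
    (by rw [hg.natDegree_map, hd]) ((pol e).map (algebraMap ℤ ℚ)) hb z w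
    (by rw [aeval_map_algebraMap, hz]) (by rw [aeval_map_algebraMap, hw]) hzw
    (fun r => (pol (v r)).map (algebraMap ℤ ℚ))
    (fun r => lt_of_le_of_lt natDegree_map_le (sp_natDegree_lt (by norm_num) (v r)))
    (by
      intro r
      simp only [aeval_map_algebraMap, aeval_pol]
      linear_combination -(hv r))
  have hcoef : ∀ k : Fin 4, ∑ r, c r * (v r k : ℚ) = 0 := by
    intro k
    have h1 := congrArg (fun q : ℚ[X] => q.coeff (k : ℕ)) hc
    simp only [finsetSum_coeff, coeff_C_mul, coeff_map, pol_coeff, coeff_zero] at h1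
    simpa using h1
  have hQ : (Matrix.of fun r s => (v r (idx s) : ℚ)).det = 0 := by
    rw [← Matrix.exists_vecMul_eq_zero_iff]
    refine ⟨c, hc0, ?_⟩
    funext s
    simp only [Matrix.vecMul, dotProduct, Matrix.of_apply, Pi.zero_apply]
    exact hcoef (idx s)
  have h2 : (Matrix.of fun r s => (v r (idx s) : ℚ)) =
      (Matrix.of fun r s => v r (idx s)).map (Int.castRingHom ℚ) := by
    ext r s; simp
  rw [h2, ← RingHom.mapMatrix_apply, ← RingHom.map_det] at hQ
  exact (RingHom.injective_int (Int.castRingHom ℚ)) (by rw [hQ, map_zero])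

theorem special_dep (g : ℤ[X]) (hg : g.Monic) (hirr : Irreducible g) (hd : g.natDegree = 4)
    (z w : ℂ) (hz : aeval z g = 0) (hw : aeval w g = 0) (hzw : z ≠ w) (e : Fin 4 → ℤ) (he : e ≠ 0)
    (x y t : Fin 4 → ℤ) (hx : ev e z * ev x w = ev e w * ev x z)
    (hy : ev e z * ev y w = ev e w * ev y z) (ht : ev e z * ev t w = ev e w * ev t z)
    (i j k : Fin 4) : t k * mn x y i j = x k * mn t y i j + y k * mn x t i j := by
  have h := special_minor g hg hirr hd z w hz hw hzw e he ![x, y, t]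
    (by intro r; fin_cases r <;> simpa) ![i, j, k]
  rw [Matrix.det_fin_three] at h
  simp only [Matrix.of_apply, Matrix.cons_val_zero, Matrix.cons_val_one, Matrix.cons_val] at h
  unfold mn
  linarith

/-- the sup norm -/
def sn4 (a : Fin 4 → ℤ) : ℕ := Finset.univ.sup fun i => (a i).natAbs

lemma sn4_le_iff (a : Fin 4 → ℤ) (m : ℕ) : sn4 a ≤ m ↔ ∀ i, |a i| ≤ m := by
  unfold sn4
  rw [Finset.sup_le_iff]
  constructor
  · intro h i
    have := h i (Finset.mem_univ i)
    rw [Int.abs_eq_natAbs]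
    exact_mod_cast this
  · intro h i _
    have := h i
    rw [Int.abs_eq_natAbs] at this
    exact_mod_cast this

lemma sn4_pos (a : Fin 4 → ℤ) (h : a ≠ 0) : 1 ≤ sn4 a := by
  by_contra h0
  apply h
  funext i
  have h1 := (sn4_le_iff a 0).mp (by omega) i
  simp only [Pi.zero_apply]
  push_cast at h1
  exact abs_eq_zero.mp (le_antisymm h1 (abs_nonneg _))

/-- the box -/
noncomputable def box4 (m : ℕ) : Finset (Fin 4 → ℤ) := Fintype.piFinset fun _ => Finset.Icc (-(m : ℤ)) m

lemma mem_box4 (a : Fin 4 → ℤ) (m : ℕ) : a ∈ box4 m ↔ sn4 a ≤ m := by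
  rw [sn4_le_iff, box4, Fintype.mem_piFinset]
  simp only [Finset.mem_Icc, abs_le]

lemma card_box4 (m : ℕ) : (box4 m).card = (2 * m + 1) ^ 4 := by
  rw [box4, Fintype.card_piFinset]
  simp only [Int.card_Icc, Finset.prod_const, Finset.card_univ, Fintype.card_fin]
  congr 1
  omega

lemma card_shell (F l : ℕ) (hl : 1 ≤ l) :
    ((box4 F).filter (fun e => sn4 e = l)).card ≤ 80 * l ^ 3 := by
  classical
  have h1 : (box4 F).filter (fun e => sn4 e = l) ⊆ box4 l \ box4 (l - 1) := by
    intro e he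
    rw [Finset.mem_filter] at he
    rw [Finset.mem_sdiff, mem_box4, mem_box4]
    omega
  have h2 : box4 (l - 1) ⊆ box4 l := by
    intro e he
    rw [mem_box4] at he ⊢
    omega
  refine (Finset.card_le_card h1).trans ?_
  rw [Finset.card_sdiff_of_subset h2, card_box4, card_box4]
  obtain ⟨k, rfl⟩ : ∃ k, l = k + 1 := ⟨l - 1, by omega⟩
  simp only [Nat.add_sub_cancel]
  have : (2 * (k + 1) + 1) ^ 4 ≤ 80 * (k + 1) ^ 3 + (2 * k + 1) ^ 4 := by nlinarith [sq_nonneg (k : ℤ)]
  omega

/-- The vectors special to a given one, counted by the shortest vector. -/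
theorem special_fibre (g : ℤ[X]) (hg : g.Monic) (hirr : Irreducible g) (hd : g.natDegree = 4)
    (z w : ℂ) (hz : aeval z g = 0) (hw : aeval w g = 0) (hzw : z ≠ w) (e : Fin 4 → ℤ) (he : e ≠ 0)
    (B : ℕ) (heB : sn4 e ≤ B) (S : Finset (Fin 4 → ℤ)) (hS : ∀ x ∈ S, sn4 x ≤ B)
    (hrel : ∀ x ∈ S, ev e z * ev x w = ev e w * ev x z)
    (hmin : ∀ x : Fin 4 → ℤ, x ≠ 0 → ev e z * ev x w = ev e w * ev x z → sn4 e ≤ sn4 x) :
    S.card * sn4 e ^ 2 ≤ 49 * B ^ 2 := by
  refine packing S B (sn4 e) (sn4_pos e he) heB (fun x hx => (sn4_le_iff x B).mp (hS x hx)) ?_ ?_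
  · intro x hx y hy t ht i j k
    exact special_dep g hg hirr hd z w hz hw hzw e he x y t (hrel x hx) (hrel y hy) (hrel t ht) i j k
  · intro x hx y hy hxy
    by_contra hcon
    push Not at hcon
    have h1 : ev (x - y) z = ev x z - ev y z := by
      simp only [ev, Pi.sub_apply, Int.cast_sub, sub_mul, Finset.sum_sub_distrib]
    have h2 : ev (x - y) w = ev x w - ev y w := by
      simp only [ev, Pi.sub_apply, Int.cast_sub, sub_mul, Finset.sum_sub_distrib]
    have h3 := hmin (x - y) (sub_ne_zero.mpr hxy) (by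
      rw [h1, h2]
      linear_combination (hrel x hx) - (hrel y hy))
    have h4 : sn4 (x - y) ≤ sn4 e - 1 := by
      rw [sn4_le_iff]
      intro i
      have := hcon i
      simp only [Pi.sub_apply]
      have := sn4_pos e he
      push_cast [this]
      omega
    have := sn4_pos e he
    omega

/-- **Special beta-slices.** -/
theorem special_count (g : ℤ[X]) (hg : g.Monic) (hirr : Irreducible g) (hd : g.natDegree = 4) :
    ∃ C : ℕ, ∀ (F B : ℕ), 1 ≤ F → F ≤ B → ∀ S : Finset (Fin 4 → ℤ),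
      (∀ β ∈ S, (∀ i, |β i| ≤ (B : ℤ)) ∧ ∃ e : Fin 4 → ℤ, e ≠ 0 ∧ (∀ i, |e i| ≤ (F : ℤ)) ∧
        ∃ z w : ℂ, aeval z g = 0 ∧ aeval w g = 0 ∧ z ≠ w ∧
          ev e z * ev β w = ev e w * ev β z) →
      S.card ≤ C * (B ^ 2 * F ^ 2) := by
  classical
  set R : Finset ℂ := (g.aroots ℂ).toFinset with hR
  have hRmem : ∀ z, z ∈ R ↔ aeval z g = 0 := by
    intro z
    rw [hR, Multiset.mem_toFinset, mem_aroots]
    exact ⟨fun h => h.2, fun h => ⟨hg.ne_zero, h⟩⟩
  refine ⟨(R ×ˢ R).card * (80 * 49), ?_⟩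
  intro F B hF hFB S hS
  -- one pair of roots
  have hone : ∀ q ∈ R ×ˢ R, (S.filter (fun β => q.1 ≠ q.2 ∧ ∃ e : Fin 4 → ℤ, e ≠ 0 ∧ sn4 e ≤ F ∧
      ev e q.1 * ev β q.2 = ev e q.2 * ev β q.1)).card ≤ 80 * 49 * (B ^ 2 * F ^ 2) := by
    intro q hq
    obtain ⟨z, w⟩ := q
    rw [Finset.mem_product, hRmem, hRmem] at hq
    obtain ⟨hz, hw⟩ := hq
    simp only at hz hw
    set S' := S.filter (fun β => z ≠ w ∧ ∃ e : Fin 4 → ℤ, e ≠ 0 ∧ sn4 e ≤ F ∧
      ev e z * ev β w = ev e w * ev β z) with hS'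
    have hex : ∀ β ∈ S', ∃ e : Fin 4 → ℤ, e ≠ 0 ∧ sn4 e ≤ F ∧ ev e z * ev β w = ev e w * ev β z ∧
        ∀ x : Fin 4 → ℤ, x ≠ 0 → ev e z * ev x w = ev e w * ev x z → sn4 e ≤ sn4 x := by
      intro β hβ
      rw [hS', Finset.mem_filter] at hβ
      obtain ⟨hβS, hzw, e0, he0, he0F, hrel0⟩ := hβ
      obtain ⟨e, heT, hemin⟩ := Finset.exists_min_image ((box4 F).filter (fun e => e ≠ 0 ∧
        ev e z * ev β w = ev e w * ev β z)) sn4 ⟨e0, by
          rw [Finset.mem_filter, mem_box4]; exact ⟨he0F, he0, hrel0⟩⟩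
      rw [Finset.mem_filter, mem_box4] at heT
      obtain ⟨heF, he, hrel⟩ := heT
      refine ⟨e, he, heF, hrel, ?_⟩
      intro x hx hxrel
      rcases le_or_gt (sn4 x) F with h | h
      · apply hemin
        rw [Finset.mem_filter, mem_box4]
        refine ⟨h, hx, ?_⟩
        have hez : ev e z ≠ 0 := by
          rw [← aeval_pol]
          exact aeval_ne_zero_of_lt g hg hirr (pol e) (sp_ne_zero e he)
            (by rw [hd]; exact sp_natDegree_lt (by norm_num) e) z hz
        apply mul_left_cancel₀ hez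
        linear_combination (ev x z) * hrel - (ev β z) * hxrel
      · omega
    choose! E hE0 hEF hErel hEmin using hex
    have hzw : S'.Nonempty → z ≠ w := by
      rintro ⟨β, hβ⟩
      rw [hS', Finset.mem_filter] at hβ
      exact hβ.2.1
    rcases S'.eq_empty_or_nonempty with h0 | hne
    · rw [h0]; simp
    have hzw' := hzw hne
    -- sort by the size of the shortest vector
    have hmaps : ∀ β ∈ S', sn4 (E β) ∈ Finset.Icc 1 F := fun β hβ => by
      rw [Finset.mem_Icc]; exact ⟨sn4_pos _ (hE0 β hβ), hEF β hβ⟩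
    rw [Finset.card_eq_sum_card_fiberwise hmaps]
    have hl : ∀ l ∈ Finset.Icc 1 F, (S'.filter (fun β => sn4 (E β) = l)).card ≤
        80 * 49 * B ^ 2 * l := by
      intro l hl
      rw [Finset.mem_Icc] at hl
      have hmaps2 : ∀ β ∈ S'.filter (fun β => sn4 (E β) = l), E β ∈
          (box4 F).filter (fun e => sn4 e = l) := by
        intro β hβ
        rw [Finset.mem_filter] at hβ
        rw [Finset.mem_filter, mem_box4]
        exact ⟨hEF β hβ.1, hβ.2⟩
      have h1 : (S'.filter (fun β => sn4 (E β) = l)).card * l ^ 2 ≤ (80 * l ^ 3) * (49 * B ^ 2) := by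
        rw [Finset.card_eq_sum_card_fiberwise hmaps2, Finset.sum_mul]
        calc _ ≤ ∑ _e ∈ (box4 F).filter (fun e => sn4 e = l), 49 * B ^ 2 := by
              refine Finset.sum_le_sum fun e he => ?_
              rw [Finset.mem_filter, mem_box4] at he
              rcases ((S'.filter (fun β => sn4 (E β) = l)).filter (fun β => E β = e)).eq_empty_or_nonempty with h0 | hne2
              · rw [h0]; simp
              · obtain ⟨β0, hβ0⟩ := hne2
                rw [Finset.mem_filter, Finset.mem_filter] at hβ0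
                have hEe : E β0 = e := hβ0.2
                have h2 := special_fibre g hg hirr hd z w hz hw hzw' e (hEe ▸ hE0 β0 hβ0.1.1) B
                  (he.1.trans hFB) ((S'.filter (fun β => sn4 (E β) = l)).filter (fun β => E β = e))
                  (by
                    intro x hx
                    rw [Finset.mem_filter, Finset.mem_filter, hS', Finset.mem_filter] at hx
                    exact (sn4_le_iff x B).mpr (hS x hx.1.1.1).1)
                  (by
                    intro x hx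
                    rw [Finset.mem_filter, Finset.mem_filter] at hx
                    have := hErel x hx.1.1
                    rw [hx.2] at this
                    exact this)
                  (by
                    intro x hx hxr
                    have := hEmin β0 hβ0.1.1 x hx
                    rw [hEe] at this
                    exact this hxr)
                rw [he.2] at h2
                exact h2
          _ = ((box4 F).filter (fun e => sn4 e = l)).card * (49 * B ^ 2) := by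
              rw [Finset.sum_const, smul_eq_mul]
          _ ≤ (80 * l ^ 3) * (49 * B ^ 2) := Nat.mul_le_mul_right _ (card_shell F l hl.1)
      have h3 : (S'.filter (fun β => sn4 (E β) = l)).card * l ^ 2 ≤ (80 * 49 * B ^ 2 * l) * l ^ 2 := by
        calc _ ≤ (80 * l ^ 3) * (49 * B ^ 2) := h1
          _ = _ := by ring
      exact Nat.le_of_mul_le_mul_right h3 (by have := hl.1; positivity)
    calc _ ≤ ∑ l ∈ Finset.Icc 1 F, 80 * 49 * B ^ 2 * l := Finset.sum_le_sum hl
      _ ≤ ∑ _l ∈ Finset.Icc 1 F, 80 * 49 * B ^ 2 * F := by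
          refine Finset.sum_le_sum fun l hl => ?_
          exact Nat.mul_le_mul_left _ (Finset.mem_Icc.mp hl).2
      _ = 80 * 49 * (B ^ 2 * F ^ 2) := by
          rw [Finset.sum_const, Nat.card_Icc, smul_eq_mul]
          simp only [Nat.add_sub_cancel]; ring
  have hcov : S ⊆ (R ×ˢ R).biUnion (fun q => S.filter (fun β => q.1 ≠ q.2 ∧
      ∃ e : Fin 4 → ℤ, e ≠ 0 ∧ sn4 e ≤ F ∧ ev e q.1 * ev β q.2 = ev e q.2 * ev β q.1)) := by
    intro β hβ
    obtain ⟨h1, e, he, heF, z, w, hz, hw, hzw, hrel⟩ := hS β hβ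
    rw [Finset.mem_biUnion]
    refine ⟨(z, w), ?_, ?_⟩
    · rw [Finset.mem_product, hRmem, hRmem]; exact ⟨hz, hw⟩
    · rw [Finset.mem_filter]
      exact ⟨hβ, hzw, e, he, (sn4_le_iff e F).mpr heF, hrel⟩
  calc S.card ≤ _ := Finset.card_le_card hcov
    _ ≤ ∑ q ∈ R ×ˢ R, _ := Finset.card_biUnion_le
    _ ≤ ∑ _q ∈ R ×ˢ R, 80 * 49 * (B ^ 2 * F ^ 2) := Finset.sum_le_sum hone
    _ = (R ×ˢ R).card * (80 * 49) * (B ^ 2 * F ^ 2) := by
        rw [Finset.sum_const, smul_eq_mul]; ring

end Pool.Agent.Lib.SQF
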