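import Pool.Agent.Lib.SQF4.Basis
import Pool.Agent.Lib.SQF.Reduced
import Pool.Agent.Lib.SQF.Defs
import Pool.Agent.Lib.SQF.NumA
import Pool.Agent.Lib.SQF.Special
import Pool.Agent.Lib.SQF.Exist

/-!
# SQF (MP_8842b2_nt), module RangeA: from the bound for one slice to all solutions

`SliceA g d0 d1 x0 x1`: the bound for one non-special slice with a reduced basis `(e1, e2)` and
coordinates at most `K P^(1/6) Y^x1`; it is `Y^(1 - 2/3 (1 + d1) + 2 x0 - c)`, which is `Y^(1-c)`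
divided by the number of the slices with `|e1| ≤ C P^(1/12) Y^(-x0)`.

`rangeA`: `SliceA` for all certified boxes gives `RangeBoundSolL 4 g (383/1000)`, the bound
`K' Y^(1-c)` for all solutions with `Y ≤ L P`, `P ≤ Y^(1 + 383/1000)`.
-/

set_option autoImplicit false

open Finset Matrix Polynomial

namespace Pool.Agent.Lib.SQF

open Pool.Agent.SQF4 (sn le_sn sn_le_iff exists_eq_sn sn_pos Indep2 RBasis exists_basis_slice)

/-- THE BOUND FOR ONE SLICE, range A: the slice has a reduced basis `(e1, e2)` with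
`|e1||e2| ≤ K P^(1/6)`, `|e1| ≥ P^(1/12) Y^(-x1) / K` and is not special, the coordinates are at
most `K P^(1/6) Y^x1` -/
def SliceA (g : ℤ[X]) (d0 d1 x0 x1 : ℝ) : Prop :=
  ∀ K L : ℝ, 1 ≤ K → 1 ≤ L → ∃ c : ℝ, 0 < c ∧ ∃ C Y0 : ℝ, ∀ Y P : ℝ, 1 ≤ Y → Y0 ≤ Y →
    Y ≤ L * P → Y ^ (1 + d0) ≤ P → P ≤ Y ^ (1 + d1) →
    ∀ (m : ℤ) (a b e1 e2 : Fin 4 → ℤ), Indep2 a b → RBasis a b e1 e2 →
    (sn e1 : ℝ) * (sn e2 : ℝ) ≤ K * P ^ ((1 : ℝ) / 6) →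
    P ^ ((1 : ℝ) / 12) ≤ K * Y ^ x1 * (sn e1 : ℝ) →
    (∀ z w : ℂ, aeval z g = 0 → aeval w g = 0 → z ≠ w →
      ev e1 z * ev e2 w ≠ ev e1 w * ev e2 z) →
    ∀ (S : Finset ℤ) (p : ℤ → ℕ) (α β : ℤ → Fin 4 → ℤ) (u v : ℤ → ℤ),
      (∀ n ∈ S, IsSol 4 g K Y P n (p n) (α n) (β n) m ∧ OnSlice e1 e2 (α n) (u n) (v n) ∧
        |((u n : ℤ) : ℝ)| ≤ K * P ^ ((1 : ℝ) / 6) * Y ^ x1 ∧
        |((v n : ℤ) : ℝ)| ≤ K * P ^ ((1 : ℝ) / 6) * Y ^ x1) →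
      (S.card : ℝ) ≤ C * Y ^ (1 - 2 / 3 * (1 + d1) + 2 * x0 - c)

/-- the bound for all solutions in a range of exponents (with `Y ≤ L P`) -/
def SolBoundA (g : ℤ[X]) (K L d0 d1 : ℝ) : Prop :=
  ∃ c : ℝ, 0 < c ∧ ∃ C Y0 : ℝ, ∀ Y P : ℝ, 1 ≤ Y → Y0 ≤ Y → Y ≤ L * P → Y ^ (1 + d0) ≤ P →
    P ≤ Y ^ (1 + d1) → ∀ (m : ℤ) (S : Finset ℤ) (p : ℤ → ℕ) (α β : ℤ → Fin 4 → ℤ),
      (∀ n ∈ S, IsSol 4 g K Y P n (p n) (α n) (β n) m) → (S.card : ℝ) ≤ C * Y ^ (1 - c)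

private lemma ra_mono {d : ℕ} {g : ℤ[X]} {K K' Y P : ℝ} {n : ℤ} {p : ℕ} {α β : Fin d → ℤ} {m : ℤ}
    (h : IsSol d g K Y P n p α β m) (hK : K ≤ K') (hY : 0 ≤ Y) (hP : 0 ≤ P) :
    IsSol d g K' Y P n p α β m where
  lower := h.lower
  upper := h.upper
  prime := h.prime
  ple := h.ple
  plt := h.plt
  sq_dvd := h.sq_dvd
  m_ne := h.m_ne
  m_le := h.m_le.trans hK
  eqn := h.eqn
  dvd_eval := h.dvd_eval
  res := h.res
  not_dvd := h.not_dvd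
  coeffα := fun i => (h.coeffα i).trans (by gcongr)
  coeffβ := fun i => (h.coeffβ i).trans (by gcongr)
  lowα := fun z hz => (h.lowα z hz).trans (by gcongr)
  uppα := fun z hz => (h.uppα z hz).trans (by gcongr)
  lowβ := fun z hz => (h.lowβ z hz).trans (by gcongr)
  uppβ := fun z hz => (h.uppβ z hz).trans (by gcongr)

/-- the data chosen for a solution -/
private structure RaData (g : ℤ[X]) (K Y P x0 x1 : ℝ) (m n : ℤ) (p : ℕ) (α β a b e1 e2 : Fin 4 → ℤ)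
    (u v : ℤ) : Prop where
  sol : IsSol 4 g K Y P n p α β m
  ind : Indep2 a b
  bas : RBasis a b e1 e2
  red : IsRed 13 (K * P ^ ((1 : ℝ) / 4)) (e1, e2)
  eq : α = u • e1 + v • e2
  hu : u.natAbs * sn e1 ≤ 3 * sn α
  hv : v.natAbs * sn e2 ≤ 3 * sn α
  low : P ^ ((1 : ℝ) / 12) * Y ^ (-x1) ≤ (sn e1 : ℝ)
  upp : (sn e1 : ℝ) ≤ 6 * K * P ^ ((1 : ℝ) / 12) * Y ^ (-x0)

private lemma ra_sn_le {g : ℤ[X]} {K Y P : ℝ} {n : ℤ} {p : ℕ} {α β : Fin 4 → ℤ} {m : ℤ}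
    (h : IsSol 4 g K Y P n p α β m) : (sn α : ℝ) ≤ K * P ^ ((1 : ℝ) / 4) := by
  obtain ⟨i, hi⟩ := exists_eq_sn α
  have h1 := h.coeffα i
  rw [← hi]
  have h2 : (((α i).natAbs : ℕ) : ℝ) = |((α i : ℤ) : ℝ)| := by
    rw [Nat.cast_natAbs, Int.cast_abs]
  rw [h2]
  exact_mod_cast h1

private lemma ra_one_lt {g : ℤ[X]} {K Y P : ℝ} {n : ℤ} {p : ℕ} {α β : Fin 4 → ℤ} {m : ℤ}
    (h : IsSol 4 g K Y P n p α β m) : 1 < P := by
  have h1 : (2 : ℝ) ≤ (p : ℝ) := by exact_mod_cast h.prime.two_le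
  have h2 := h.plt
  linarith

private lemma ra_size {K Y P x1 : ℝ} (hK : 1 ≤ K) (hY : 1 ≤ Y) (hP : 1 < P) {w : ℤ} {s t : ℕ}
    (hs : P ^ ((1 : ℝ) / 12) * Y ^ (-x1) ≤ 2 * (s : ℝ)) (hw : w.natAbs * s ≤ 3 * t)
    (ht : (t : ℝ) ≤ K * P ^ ((1 : ℝ) / 4)) :
    |(w : ℝ)| ≤ 6 * K * P ^ ((1 : ℝ) / 6) * Y ^ x1 := by
  have hP0 : 0 < P := by linarith
  have hY0 : 0 < Y := by linarith
  have h1 : (w.natAbs : ℝ) * s ≤ 3 * t := by exact_mod_cast hw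
  have h2 : ((w.natAbs : ℕ) : ℝ) = |(w : ℝ)| := by
    rw [Nat.cast_natAbs, Int.cast_abs]
  rw [h2] at h1
  have hB : 0 < P ^ ((1 : ℝ) / 12) * Y ^ (-x1) := by positivity
  have h3 : |(w : ℝ)| * (P ^ ((1 : ℝ) / 12) * Y ^ (-x1)) ≤ 6 * (K * P ^ ((1 : ℝ) / 4)) := by
    have h4 := mul_le_mul_of_nonneg_left hs (abs_nonneg (w : ℝ))
    nlinarith
  rw [← le_div_iff₀ hB] at h3
  refine h3.trans (le_of_eq ?_)
  rw [div_eq_iff hB.ne', Real.rpow_neg hY0.le]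
  have h5 : P ^ ((1 : ℝ) / 4) = P ^ ((1 : ℝ) / 6) * P ^ ((1 : ℝ) / 12) := by
    rw [← Real.rpow_add hP0]; norm_num
  rw [h5]
  have h6 : Y ^ x1 ≠ 0 := (Real.rpow_pos_of_pos hY0 _).ne'
  field_simp

/-- a special slice contains no solution, if `P` is large -/
private lemma ra_special {g : ℤ[X]} (hg : g.Monic) (hirr : Irreducible g) (hd : g.natDegree = 4)
    (K L : ℝ) (hK : 1 ≤ K) (hL : 1 ≤ L) :
    ∃ Y1 : ℝ, ∀ Y P : ℝ, 1 ≤ Y → Y1 ≤ Y → Y ≤ L * P → 1 < P → ∀ (m n : ℤ) (p : ℕ)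
      (α β e1 e2 : Fin 4 → ℤ) (u v : ℤ), IsSol 4 g K Y P n p α β m → e1 ≠ 0 →
      α = u • e1 + v • e2 → (sn e1 : ℝ) ≤ 6 * K * P ^ ((1 : ℝ) / 12) → ∀ z w : ℂ,
      aeval z g = 0 → aeval w g = 0 → z ≠ w → ev e1 z * ev e2 w ≠ ev e1 w * ev e2 z := by
  obtain ⟨C, hC, H⟩ := special_alpha g hg hirr 4 hd
  set M : ℝ := C * (6 * K) ^ 4 with hM
  have hM1 : 1 ≤ M := by
    have h1 : (1 : ℝ) ≤ (6 * K) ^ 4 := one_le_pow₀ (by linarith)
    nlinarith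
  refine ⟨L * (M ^ 2 + 1), ?_⟩
  intro Y P hY hY1 hYL hP1 m n p α β e1 e2 u v hsol he1 hα hs z w hz hw hzw hrel
  have hP0 : 0 < P := by linarith
  have hPM : M ^ 2 + 1 ≤ P := by
    have h1 : L * (M ^ 2 + 1) ≤ L * P := hY1.trans hYL
    exact le_of_mul_le_mul_left h1 (by linarith)
  have hsl : OnSlice e1 e2 α u v := by
    intro i
    have := congrFun hα i
    simpa using this
  have hrel' : ev α z * ev e1 w = ev α w * ev e1 z := by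
    rw [ev_slice hsl, ev_slice hsl]
    linear_combination (-(v : ℂ)) * hrel
  have h1 := H K Y P n p α β m e1 z w (6 * K * P ^ ((1 : ℝ) / 12)) hsol he1 hz hw hzw hrel'
    (by positivity) (fun i => by
      refine le_trans ?_ hs
      have h2 : |((e1 i : ℤ) : ℝ)| = (((e1 i).natAbs : ℕ) : ℝ) := by
        rw [Nat.cast_natAbs, Int.cast_abs]
      rw [h2]
      exact_mod_cast le_sn e1 i)
  have h3 : C * (6 * K * P ^ ((1 : ℝ) / 12)) ^ 4 = M * P ^ ((1 : ℝ) / 3) := by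
    rw [mul_pow, ← Real.rpow_natCast (P ^ ((1 : ℝ) / 12)), ← Real.rpow_mul hP0.le, hM]
    norm_num
    ring
  rw [h3] at h1
  have h4 : P = P ^ ((2 : ℝ) / 3) * P ^ ((1 : ℝ) / 3) := by
    rw [← Real.rpow_add hP0]; norm_num
  have h5 : P ^ ((2 : ℝ) / 3) ≤ M := by
    have h6 : P ^ ((2 : ℝ) / 3) * P ^ ((1 : ℝ) / 3) ≤ M * P ^ ((1 : ℝ) / 3) := by rwa [← h4]
    exact le_of_mul_le_mul_right h6 (by positivity)
  have h7 : P ^ 2 ≤ M ^ 3 := by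
    have h8 := pow_le_pow_left₀ (by positivity) h5 3
    rw [← Real.rpow_natCast (P ^ ((2 : ℝ) / 3)), ← Real.rpow_mul hP0.le] at h8
    norm_num at h8
    exact h8
  have h9 : M ^ 2 < P := by linarith
  have h10 : (M ^ 2) ^ 2 < P ^ 2 := by
    have : 0 ≤ M ^ 2 := by positivity
    exact pow_lt_pow_left₀ h9 this (by norm_num)
  have h11 : M ^ 3 ≤ (M ^ 2) ^ 2 := by
    rw [← pow_mul]
    exact pow_le_pow_right₀ hM1 (by norm_num)
  linarith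

private lemma ra_class {g : ℤ[X]} (hg : g.Monic) (hirr : Irreducible g) (hd : g.natDegree = 4)
    {d0 d1 x0 x1 : ℝ} (hx0 : 0 ≤ x0) (h : SliceA g d0 d1 x0 x1) (K L : ℝ)
    (hK : 1 ≤ K) (hL : 1 ≤ L) :
    ∃ c : ℝ, 0 < c ∧ ∃ C Y0 : ℝ, 0 ≤ C ∧ ∀ Y P : ℝ, 1 ≤ Y → Y0 ≤ Y → Y ≤ L * P →
      Y ^ (1 + d0) ≤ P → P ≤ Y ^ (1 + d1) → ∀ (m : ℤ) (S : Finset ℤ) (p : ℤ → ℕ)
        (α β a b e1 e2 : ℤ → Fin 4 → ℤ) (u v : ℤ → ℤ),
        (∀ n ∈ S, RaData g K Y P x0 x1 m n (p n) (α n) (β n) (a n) (b n) (e1 n) (e2 n)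
          (u n) (v n)) → (S.card : ℝ) ≤ C * Y ^ (1 - c) := by
  classical
  obtain ⟨C0, hC0, hcard⟩ := card_bdd_le 13 (by norm_num)
  obtain ⟨c, hc, C, Y0, hslice⟩ := h (13 * K) L (by linarith) hL
  obtain ⟨Y1, hspec⟩ := ra_special hg hirr hd K L hK hL
  refine ⟨c, hc, 36 * C0 * K ^ 4 * |C|, max Y0 Y1, by positivity, ?_⟩
  intro Y P hY hYY hYL hPl hPu m S p α β a b e1 e2 u v hS
  have hY0 : 0 < Y := by linarith
  rcases S.eq_empty_or_nonempty with rfl | ⟨n0, hn0⟩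
  · simp only [Finset.card_empty, Nat.cast_zero]
    positivity
  have hP1 : 1 < P := ra_one_lt (hS n0 hn0).sol
  have hP0 : 0 < P := by linarith
  set T := S.image (fun n => (e1 n, e2 n)) with hT
  -- the number of slices
  have hTc : (T.card : ℝ) ≤ C0 * (K * P ^ ((1 : ℝ) / 4)) ^ 2 *
      (6 * K * P ^ ((1 : ℝ) / 12) * Y ^ (-x0)) ^ 2 := by
    refine hcard _ _ ?_ (by positivity) T ?_
    · have : 1 ≤ P ^ ((1 : ℝ) / 4) := Real.one_le_rpow hP1.le (by norm_num)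
      nlinarith
    · intro q hq
      rw [hT, Finset.mem_image] at hq
      obtain ⟨n, hn, rfl⟩ := hq
      exact ⟨(hS n hn).red, (hS n hn).upp⟩
  -- the number of solutions on one slice
  have hfib : ∀ q ∈ T, (((S.filter (fun n => (e1 n, e2 n) = q)).card : ℕ) : ℝ) ≤
      |C| * Y ^ (1 - 2 / 3 * (1 + d1) + 2 * x0 - c) := by
    intro q hq
    rw [hT, Finset.mem_image] at hq
    obtain ⟨n1, hn1, rfl⟩ := hq
    have hle6 : ∀ x : ℝ, 6 * K * P ^ ((1 : ℝ) / 6) * Y ^ x ≤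
        (13 * K) * P ^ ((1 : ℝ) / 6) * Y ^ x := by
      intro x
      have h1 : 0 ≤ K * P ^ ((1 : ℝ) / 6) * Y ^ x := by positivity
      nlinarith
    have hup1 : (sn (e1 n1) : ℝ) ≤ 6 * K * P ^ ((1 : ℝ) / 12) := by
      refine (hS n1 hn1).upp.trans ?_
      have h1 : Y ^ (-x0) ≤ 1 := Real.rpow_le_one_of_one_le_of_nonpos hY (by linarith)
      have h2 : 0 ≤ 6 * K * P ^ ((1 : ℝ) / 12) := by positivity
      exact mul_le_of_le_one_right h2 h1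
    refine (hslice Y P hY ((le_max_left _ _).trans hYY) hYL hPl hPu m (a n1) (b n1) (e1 n1)
      (e2 n1) (hS n1 hn1).ind (hS n1 hn1).bas ?_ ?_ ?_ _ p α β u v ?_).trans ?_
    · refine (hS n1 hn1).red.2.2.1.trans ?_
      have h1 : (K * P ^ ((1 : ℝ) / 4)) ^ (2 / 3 : ℝ) = K ^ (2 / 3 : ℝ) * P ^ ((1 : ℝ) / 6) := by
        rw [Real.mul_rpow (by linarith) (by positivity), ← Real.rpow_mul hP0.le]
        norm_num
      have h2 : K ^ (2 / 3 : ℝ) ≤ K := by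
        have := Real.rpow_le_rpow_of_exponent_le hK (show (2 / 3 : ℝ) ≤ 1 by norm_num)
        rwa [Real.rpow_one] at this
      rw [h1]
      have h3 : 0 ≤ P ^ ((1 : ℝ) / 6) := by positivity
      nlinarith [mul_le_mul_of_nonneg_right h2 h3]
    · have h1 := (hS n1 hn1).low
      have h2 : 0 < Y ^ x1 := Real.rpow_pos_of_pos hY0 _
      rw [Real.rpow_neg hY0.le, ← div_eq_mul_inv, div_le_iff₀ h2] at h1
      refine h1.trans ?_
      have h3 : 0 ≤ (sn (e1 n1) : ℝ) * Y ^ x1 := by positivity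
      nlinarith
    · exact hspec Y P hY ((le_max_right _ _).trans hYY) hYL hP1 m n1 (p n1) (α n1) (β n1) (e1 n1)
        (e2 n1) (u n1) (v n1) (hS n1 hn1).sol (hS n1 hn1).bas.ne1 (hS n1 hn1).eq hup1
    · intro n hn
      rw [Finset.mem_filter, Prod.mk.injEq] at hn
      obtain ⟨hn, he1, he2⟩ := hn
      have hd := hS n hn
      refine ⟨ra_mono hd.sol (by linarith) hY0.le hP0.le, ?_, ?_, ?_⟩
      · intro i
        have := congrFun hd.eq i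
        rw [he1, he2] at this
        simpa using this
      · refine (ra_size hK hY hP1 ?_ hd.hu (ra_sn_le hd.sol)).trans (hle6 _)
        have h1 := hd.low
        have h2 : (0 : ℝ) ≤ (sn (e1 n) : ℝ) := Nat.cast_nonneg _
        linarith
      · refine (ra_size hK hY hP1 ?_ hd.hv (ra_sn_le hd.sol)).trans (hle6 _)
        have h1 := hd.low
        have h2 : (sn (e1 n) : ℝ) ≤ 2 * (sn (e2 n) : ℝ) := by exact_mod_cast hd.bas.sn_le
        linarith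
    · exact mul_le_mul_of_nonneg_right (le_abs_self C) (Real.rpow_pos_of_pos hY0 _).le
  have hsum : (S.card : ℝ) ≤ (T.card : ℝ) * (|C| * Y ^ (1 - 2 / 3 * (1 + d1) + 2 * x0 - c)) := by
    rw [Finset.card_eq_sum_card_image (fun n => (e1 n, e2 n)) S]
    push_cast
    refine (Finset.sum_le_sum hfib).trans (le_of_eq ?_)
    rw [Finset.sum_const, nsmul_eq_mul]
  refine hsum.trans ?_
  have h1 : P ^ ((2 : ℝ) / 3) ≤ Y ^ (2 / 3 * (1 + d1)) := by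
    have := Real.rpow_le_rpow hP0.le hPu (show (0 : ℝ) ≤ 2 / 3 by norm_num)
    rwa [← Real.rpow_mul hY0.le, mul_comm (1 + d1)] at this
  have h2 : (K * P ^ ((1 : ℝ) / 4)) ^ 2 * (6 * K * P ^ ((1 : ℝ) / 12) * Y ^ (-x0)) ^ 2 =
      36 * K ^ 4 * P ^ ((2 : ℝ) / 3) * Y ^ (-(2 * x0)) := by
    have h3 : (P ^ ((1 : ℝ) / 4)) ^ 2 * (P ^ ((1 : ℝ) / 12)) ^ 2 = P ^ ((2 : ℝ) / 3) := by
      rw [← Real.rpow_natCast, ← Real.rpow_natCast, ← Real.rpow_mul hP0.le,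
        ← Real.rpow_mul hP0.le, ← Real.rpow_add hP0]
      norm_num
    have h4 : (Y ^ (-x0)) ^ 2 = Y ^ (-(2 * x0)) := by
      rw [← Real.rpow_natCast, ← Real.rpow_mul hY0.le]
      congr 1
      push_cast
      ring
    rw [← h3, ← h4]
    ring
  have h5 : Y ^ (2 / 3 * (1 + d1)) * (Y ^ (-(2 * x0)) *
      Y ^ (1 - 2 / 3 * (1 + d1) + 2 * x0 - c)) = Y ^ (1 - c) := by
    rw [← Real.rpow_add hY0, ← Real.rpow_add hY0]
    congr 1
    ring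
  calc (T.card : ℝ) * (|C| * Y ^ (1 - 2 / 3 * (1 + d1) + 2 * x0 - c))
      ≤ (C0 * (K * P ^ ((1 : ℝ) / 4)) ^ 2 * (6 * K * P ^ ((1 : ℝ) / 12) * Y ^ (-x0)) ^ 2) *
        (|C| * Y ^ (1 - 2 / 3 * (1 + d1) + 2 * x0 - c)) := by
        refine mul_le_mul_of_nonneg_right hTc (by positivity)
    _ = (36 * C0 * K ^ 4 * |C|) * (P ^ ((2 : ℝ) / 3) * (Y ^ (-(2 * x0)) *
        Y ^ (1 - 2 / 3 * (1 + d1) + 2 * x0 - c))) := by
        rw [mul_assoc C0, h2]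
        ring
    _ ≤ (36 * C0 * K ^ 4 * |C|) * (Y ^ (2 / 3 * (1 + d1)) * (Y ^ (-(2 * x0)) *
        Y ^ (1 - 2 / 3 * (1 + d1) + 2 * x0 - c))) := by
        gcongr
    _ = _ := by rw [h5]

/-- every solution has data -/
private lemma ra_data {g : ℤ[X]} {K Y P : ℝ} (hK : 1 ≤ K) {n : ℤ} {p : ℕ}
    {α β : Fin 4 → ℤ} {m : ℤ} (h : IsSol 4 g K Y P n p α β m) :
    ∃ (a b e1 e2 : Fin 4 → ℤ) (u v : ℤ), Indep2 a b ∧ RBasis a b e1 e2 ∧
      IsRed 13 (K * P ^ ((1 : ℝ) / 4)) (e1, e2) ∧ α = u • e1 + v • e2 ∧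
      u.natAbs * sn e1 ≤ 3 * sn α ∧ v.natAbs * sn e2 ≤ 3 * sn α ∧
      (sn e1 : ℝ) ≤ 6 * K * P ^ ((1 : ℝ) / 12) := by
  have hP1 : 1 < P := ra_one_lt h
  have hP0 : 0 < P := by linarith
  set A : ℝ := K * P ^ ((1 : ℝ) / 4) with hA
  have hA1 : 1 ≤ A := by
    have : 1 ≤ P ^ ((1 : ℝ) / 4) := Real.one_le_rpow hP1.le (by norm_num)
    rw [hA]
    nlinarith
  have hA0 : 0 < A := by linarith
  have hAn : 1 ≤ ⌊A⌋₊ := Nat.one_le_floor_iff _ |>.2 hA1 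
  have hsn : sn α ≤ ⌊A⌋₊ := Nat.le_floor (ra_sn_le h)
  obtain ⟨a, b, e1, e2, hi, hb, -, -, -, -, h6, h7, u, v, h8, h9, h10⟩ :=
    exists_basis_slice _ hAn α hsn
  have hfl : ((⌊A⌋₊ : ℕ) : ℝ) ≤ A := Nat.floor_le hA0.le
  have h11 : ((sn e1 : ℝ) * (sn e2 : ℝ)) ^ 3 ≤ (13 * A ^ (2 / 3 : ℝ)) ^ 3 := by
    have h12 : ((sn e1 : ℝ) * (sn e2 : ℝ)) ^ 3 ≤ 2000 * ((⌊A⌋₊ : ℕ) : ℝ) ^ 2 := by
      exact_mod_cast h6
    have h13 : (A ^ (2 / 3 : ℝ)) ^ 3 = A ^ 2 := by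
      rw [← Real.rpow_natCast, ← Real.rpow_mul hA0.le, ← Real.rpow_natCast]
      norm_num
    rw [mul_pow, mul_pow, h13]
    rw [mul_pow] at h12
    have h14 : ((⌊A⌋₊ : ℕ) : ℝ) ^ 2 ≤ A ^ 2 := pow_le_pow_left₀ (Nat.cast_nonneg _) hfl 2
    nlinarith [sq_nonneg A]
  have h15 : (sn e1 : ℝ) * (sn e2 : ℝ) ≤ 13 * A ^ (2 / 3 : ℝ) :=
    le_of_pow_le_pow_left₀ (by norm_num) (by positivity) h11
  refine ⟨a, b, e1, e2, u, v, hi, hb, ⟨hb.ne1, hb.ne2, h15, hb.red⟩, h8, h9, h10, ?_⟩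
  have h16 : (sn e1 : ℝ) ≤ 2 * (sn e2 : ℝ) := by exact_mod_cast h7
  have h17 : A ^ (2 / 3 : ℝ) = (A ^ (1 / 3 : ℝ)) ^ 2 := by
    rw [← Real.rpow_natCast, ← Real.rpow_mul hA0.le]
    norm_num
  have h18 : (sn e1 : ℝ) ^ 2 ≤ (6 * A ^ (1 / 3 : ℝ)) ^ 2 := by
    have h19 : (0 : ℝ) ≤ (sn e1 : ℝ) := Nat.cast_nonneg _
    rw [h17] at h15
    nlinarith [sq_nonneg (A ^ (1 / 3 : ℝ))]
  have h20 : (sn e1 : ℝ) ≤ 6 * A ^ (1 / 3 : ℝ) :=
    le_of_sq_le_sq h18 (by positivity)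
  refine h20.trans ?_
  have h21 : A ^ (1 / 3 : ℝ) = K ^ (1 / 3 : ℝ) * P ^ ((1 : ℝ) / 12) := by
    rw [hA, Real.mul_rpow (by linarith) (by positivity), ← Real.rpow_mul hP0.le]
    norm_num
  have h22 : K ^ (1 / 3 : ℝ) ≤ K := by
    have := Real.rpow_le_rpow_of_exponent_le hK (show (1 / 3 : ℝ) ≤ 1 by norm_num)
    rwa [Real.rpow_one] at this
  rw [h21]
  have h23 : 0 ≤ P ^ ((1 : ℝ) / 12) := by positivity
  nlinarith [mul_le_mul_of_nonneg_right h22 h23]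

private lemma ra_box {g : ℤ[X]} (hg : g.Monic) (hirr : Irreducible g) (hd : g.natDegree = 4)
    {d0 d1 : ℝ} (hd1 : d1 ≤ 44 / 100)
    (h0 : SliceA g d0 d1 0 (3 / 1000)) (h1 : SliceA g d0 d1 (3 / 1000) (3 / 100))
    (h2 : SliceA g d0 d1 (3 / 100) (3 / 25)) (K L : ℝ) (hK : 1 ≤ K) (hL : 1 ≤ L) :
    SolBoundA g K L d0 d1 := by
  classical
  obtain ⟨c0, hc0, C0, Y0, hC0, H0⟩ := ra_class hg hirr hd le_rfl h0 K L hK hL
  obtain ⟨c1, hc1, C1, Y1, hC1, H1⟩ := ra_class hg hirr hd (by norm_num) h1 K L hK hL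
  obtain ⟨c2, hc2, C2, Y2, hC2, H2⟩ := ra_class hg hirr hd (by norm_num) h2 K L hK hL
  refine ⟨min c0 (min c1 c2), lt_min hc0 (lt_min hc1 hc2), C0 + C1 + C2,
    max Y0 (max Y1 Y2), ?_⟩
  intro Y P hY hYY hYL hPl hPu m S p α β hS
  have hYY0 : Y0 ≤ Y := (le_max_left _ _).trans hYY
  have hYY1 : Y1 ≤ Y := (le_max_left _ _).trans ((le_max_right _ _).trans hYY)
  have hYY2 : Y2 ≤ Y := (le_max_right _ _).trans ((le_max_right _ _).trans hYY)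
  have hY0 : 0 < Y := by linarith
  rcases S.eq_empty_or_nonempty with rfl | ⟨n0, hn0⟩
  · simp only [Finset.card_empty, Nat.cast_zero]
    positivity
  have hP1 : 1 < P := ra_one_lt (hS n0 hn0)
  have hP0 : 0 < P := by linarith
  have hex : ∀ n, n ∈ S → ∃ (a b e1 e2 : Fin 4 → ℤ) (u v : ℤ), Indep2 a b ∧ RBasis a b e1 e2 ∧
      IsRed 13 (K * P ^ ((1 : ℝ) / 4)) (e1, e2) ∧ α n = u • e1 + v • e2 ∧
      u.natAbs * sn e1 ≤ 3 * sn (α n) ∧ v.natAbs * sn e2 ≤ 3 * sn (α n) ∧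
      (sn e1 : ℝ) ≤ 6 * K * P ^ ((1 : ℝ) / 12) := fun n hn => ra_data hK (hS n hn)
  choose! a b e1 e2 u v hdat using hex
  set B0 : ℝ := P ^ ((1 : ℝ) / 12) * Y ^ (-(3 / 1000 : ℝ)) with hB0
  set B1 : ℝ := P ^ ((1 : ℝ) / 12) * Y ^ (-(3 / 100 : ℝ)) with hB1
  set S0 := S.filter (fun n => B0 ≤ (sn (e1 n) : ℝ)) with hS0
  set S1 := S.filter (fun n => (sn (e1 n) : ℝ) ≤ B0 ∧ B1 ≤ (sn (e1 n) : ℝ)) with hS1
  set S2 := S.filter (fun n => (sn (e1 n) : ℝ) ≤ B1) with hS2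
  have hcov : S ⊆ S0 ∪ S1 ∪ S2 := by
    intro n hn
    rw [Finset.mem_union, Finset.mem_union, hS0, hS1, hS2, Finset.mem_filter, Finset.mem_filter,
      Finset.mem_filter]
    rcases le_total B0 (sn (e1 n) : ℝ) with h | h
    · exact Or.inl (Or.inl ⟨hn, h⟩)
    · rcases le_total B1 (sn (e1 n) : ℝ) with h' | h'
      · exact Or.inl (Or.inr ⟨hn, h, h'⟩)
      · exact Or.inr ⟨hn, h'⟩
  have hbig : ∀ x : ℝ, P ^ ((1 : ℝ) / 12) * Y ^ x ≤ 6 * K * P ^ ((1 : ℝ) / 12) * Y ^ x := by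
    intro x
    have h3 : 0 ≤ P ^ ((1 : ℝ) / 12) * Y ^ x := by positivity
    nlinarith
  have hcard0 : (S0.card : ℝ) ≤ C0 * Y ^ (1 - c0) := by
    refine H0 Y P hY hYY0 hYL hPl hPu m S0 p α β a b e1 e2 u v ?_
    intro n hn
    rw [hS0, Finset.mem_filter] at hn
    obtain ⟨q1, q2, q3, q4, q5, q6, q7⟩ := hdat n hn.1
    refine ⟨hS n hn.1, q1, q2, q3, q4, q5, q6, hn.2, ?_⟩
    rw [neg_zero, Real.rpow_zero, mul_one]
    exact q7
  have hcard1 : (S1.card : ℝ) ≤ C1 * Y ^ (1 - c1) := by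
    refine H1 Y P hY hYY1 hYL hPl hPu m S1 p α β a b e1 e2 u v ?_
    intro n hn
    rw [hS1, Finset.mem_filter] at hn
    obtain ⟨q1, q2, q3, q4, q5, q6, q7⟩ := hdat n hn.1
    exact ⟨hS n hn.1, q1, q2, q3, q4, q5, q6, hn.2.2, hn.2.1.trans (hbig _)⟩
  have hcard2 : (S2.card : ℝ) ≤ C2 * Y ^ (1 - c2) := by
    refine H2 Y P hY hYY2 hYL hPl hPu m S2 p α β a b e1 e2 u v ?_
    intro n hn
    rw [hS2, Finset.mem_filter] at hn
    obtain ⟨q1, q2, q3, q4, q5, q6, q7⟩ := hdat n hn.1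
    refine ⟨hS n hn.1, q1, q2, q3, q4, q5, q6, ?_, hn.2.trans (hbig _)⟩
    have h3 : P ^ ((1 : ℝ) / 12) ≤ Y ^ (3 / 25 : ℝ) := by
      have h4 := Real.rpow_le_rpow hP0.le hPu (show (0 : ℝ) ≤ 1 / 12 by norm_num)
      rw [← Real.rpow_mul hY0.le] at h4
      exact h4.trans (Real.rpow_le_rpow_of_exponent_le hY (by linarith))
    have h5 : P ^ ((1 : ℝ) / 12) * Y ^ (-(3 / 25 : ℝ)) ≤ 1 := by
      rw [Real.rpow_neg hY0.le, ← div_eq_mul_inv]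
      exact div_le_one_of_le₀ h3 (by positivity)
    refine h5.trans ?_
    exact_mod_cast sn_pos _ q3.1
  have hpow : ∀ c : ℝ, min c0 (min c1 c2) ≤ c → Y ^ (1 - c) ≤ Y ^ (1 - min c0 (min c1 c2)) :=
    fun c hc => Real.rpow_le_rpow_of_exponent_le hY (by linarith)
  have e0 := mul_le_mul_of_nonneg_left (hpow c0 (min_le_left _ _)) hC0
  have e1' := mul_le_mul_of_nonneg_left
    (hpow c1 ((min_le_right _ _).trans (min_le_left _ _))) hC1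
  have e2' := mul_le_mul_of_nonneg_left
    (hpow c2 ((min_le_right _ _).trans (min_le_right _ _))) hC2
  have hle : (S.card : ℝ) ≤ (S0.card : ℝ) + (S1.card : ℝ) + (S2.card : ℝ) := by
    have h3 := (Finset.card_le_card hcov).trans ((Finset.card_union_le _ _).trans
      (Nat.add_le_add_right (Finset.card_union_le _ _) _))
    exact_mod_cast h3
  linarith

private lemma ra_glue {g : ℤ[X]} {K L a b c : ℝ} (h1 : SolBoundA g K L a b)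
    (h2 : SolBoundA g K L b c) : SolBoundA g K L a c := by
  obtain ⟨c1, hc1, C1, Y1, H1⟩ := h1
  obtain ⟨c2, hc2, C2, Y2, H2⟩ := h2
  refine ⟨min c1 c2, lt_min hc1 hc2, |C1| + |C2|, max Y1 Y2, ?_⟩
  intro Y P hY hYY hYL hPl hPu m S p α β hS
  have hY0 : 0 < Y := by linarith
  have e1 : Y ^ (1 - c1) ≤ Y ^ (1 - min c1 c2) :=
    Real.rpow_le_rpow_of_exponent_le hY (by linarith [min_le_left c1 c2])
  have e2 : Y ^ (1 - c2) ≤ Y ^ (1 - min c1 c2) :=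
    Real.rpow_le_rpow_of_exponent_le hY (by linarith [min_le_right c1 c2])
  have p1 := Real.rpow_pos_of_pos hY0 (1 - c1)
  have p2 := Real.rpow_pos_of_pos hY0 (1 - c2)
  have p3 := Real.rpow_pos_of_pos hY0 (1 - min c1 c2)
  rcases le_total P (Y ^ (1 + b)) with hb | hb
  · refine (H1 Y P hY ((le_max_left _ _).trans hYY) hYL hPl hb m S p α β hS).trans ?_
    calc C1 * Y ^ (1 - c1) ≤ |C1| * Y ^ (1 - c1) :=
          mul_le_mul_of_nonneg_right (le_abs_self _) p1.le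
      _ ≤ |C1| * Y ^ (1 - min c1 c2) := mul_le_mul_of_nonneg_left e1 (abs_nonneg _)
      _ ≤ _ := mul_le_mul_of_nonneg_right (by linarith [abs_nonneg C2]) p3.le
  · refine (H2 Y P hY ((le_max_right _ _).trans hYY) hYL hb hPu m S p α β hS).trans ?_
    calc C2 * Y ^ (1 - c2) ≤ |C2| * Y ^ (1 - c2) :=
          mul_le_mul_of_nonneg_right (le_abs_self _) p2.le
      _ ≤ |C2| * Y ^ (1 - min c1 c2) := mul_le_mul_of_nonneg_left e2 (abs_nonneg _)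
      _ ≤ _ := mul_le_mul_of_nonneg_right (by linarith [abs_nonneg C1]) p3.le

/-- THE CERTIFIED BOXES COVER RANGE A. -/
theorem solBoundA_of_slices {g : ℤ[X]} (hg : g.Monic) (hirr : Irreducible g)
    (hd : g.natDegree = 4)
    (hA : ∀ d0 d1 x0 x1 : ℝ, -(1 / 100) ≤ d0 → d0 < d1 → d1 ≤ 383 / 1000 → 0 ≤ x0 → x0 < x1 →
      x0 ≤ 3 / 100 → x1 ≤ 3 / 25 → CertA d0 d1 x0 x1 → SliceA g d0 d1 x0 x1) (K L : ℝ) (hK : 1 ≤ K)
    (hL : 1 ≤ L) : SolBoundA g K L (-(1 / 100)) (383 / 1000) := by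
  refine numA_glue (fun a b => SolBoundA g K L a b) ?_ ?_
  · intro d0 d1 hd0 hd01 hd1 hbox
    obtain ⟨b0, b1, b2⟩ := hbox
    exact ra_box hg hirr hd (by linarith)
      (hA _ _ _ _ (by linarith) hd01 hd1 (by norm_num) (by norm_num) (by norm_num) (by norm_num)
        b0)
      (hA _ _ _ _ (by linarith) hd01 hd1 (by norm_num) (by norm_num) (by norm_num) (by norm_num)
        b1)
      (hA _ _ _ _ (by linarith) hd01 hd1 (by norm_num) (by norm_num) (by norm_num) (by norm_num)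
        b2) K L hK hL
  · intro a b c _ _ h1 h2
    exact ra_glue h1 h2

/-- RANGE A: the bounds for the slices give the bound for all solutions with `Y ≤ L P`,
`P ≤ Y^(1 + 383/1000)`. -/
theorem rangeA {g : ℤ[X]} (hg : g.Monic) (hirr : Irreducible g) (hd : g.natDegree = 4)
    (hA : ∀ d0 d1 x0 x1 : ℝ, -(1 / 100) ≤ d0 → d0 < d1 → d1 ≤ 383 / 1000 → 0 ≤ x0 → x0 < x1 →
      x0 ≤ 3 / 100 → x1 ≤ 3 / 25 → CertA d0 d1 x0 x1 → SliceA g d0 d1 x0 x1) :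
    RangeBoundSolL 4 g (383 / 1000) := by
  intro K L hL1
  set K' := max K 1 with hK'
  obtain ⟨c, hc, C, Y0, H⟩ := solBoundA_of_slices hg hirr hd hA K' L (le_max_right _ _) hL1
  refine ⟨c, hc, |C|, max Y0 (L ^ 100), ?_⟩
  intro Y P hY hYY hYL hPu m S p α β hS
  have hY0 : 0 < Y := by linarith
  rcases S.eq_empty_or_nonempty with rfl | ⟨n0, hn0⟩
  · simp only [Finset.card_empty, Nat.cast_zero]
    positivity
  have hP1 : 1 < P := ra_one_lt (hS n0 hn0)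
  have hP0 : 0 < P := by linarith
  have hbY : L ^ 100 ≤ Y := (le_max_right _ _).trans hYY
  have h1 : L ≤ Y ^ ((1 : ℝ) / 100) := by
    have h2 := Real.rpow_le_rpow (by positivity) hbY (show (0 : ℝ) ≤ 1 / 100 by norm_num)
    rw [← Real.rpow_natCast, ← Real.rpow_mul (by linarith)] at h2
    norm_num at h2
    norm_num
    exact h2
  have h3 : Y ^ (1 + -(1 / 100 : ℝ)) ≤ P := by
    have h4 : Y = Y ^ (1 + -(1 / 100 : ℝ)) * Y ^ ((1 : ℝ) / 100) := by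
      rw [← Real.rpow_add hY0]
      norm_num
    have h5 : Y ^ (1 + -(1 / 100 : ℝ)) * Y ^ ((1 : ℝ) / 100) ≤ Y ^ ((1 : ℝ) / 100) * P := by
      rw [← h4]
      exact hYL.trans (mul_le_mul_of_nonneg_right h1 hP0.le)
    rw [mul_comm] at h5
    exact le_of_mul_le_mul_left h5 (by positivity)
  refine (H Y P hY ((le_max_left _ _).trans hYY) hYL h3 hPu m S p α β (fun n hn =>
    ra_mono (hS n hn) (le_max_left _ _) hY0.le hP0.le)).trans ?_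
  exact mul_le_mul_of_nonneg_right (le_abs_self _) (by positivity)

end Pool.Agent.Lib.SQF
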