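import Pool.Agent.Lib.SQF.ACore
import Pool.Agent.Lib.SQF.AMult
import Pool.Agent.Lib.SQF.LamS
import Pool.Agent.Lib.SQF.RangeA

/-!
# SQF: the per-slice theorem A (last step)

`aslice`: from `acore` (points with distinct `t = u / v` and distinct `n`) to `SliceA`. The points
with `v = 0` are `O(1)` (`per_t` for the basis `(e2, e1)`); every value of `t` carries `O(1)`
points (`per_t`), so one point for each `t` is enough.
-/

set_option autoImplicit false

open Polynomial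

namespace Pool.Agent.Lib.SQF

open Pool.Agent.SQF4 (sn RBasis Indep2)

/-- the enumeration of the four roots -/
theorem exists_roots4 {g : ℤ[X]} (hg : g.Monic) (hirr : Irreducible g) (hd : g.natDegree = 4) :
    ∃ θ : Fin 4 → ℂ, Roots4 g θ := by
  obtain ⟨θ, h1, h2, h3⟩ := Pool.Agent.SQF.LamZ.exists_roots hg hirr hd
  exact ⟨θ, hg, hirr, hd, h1, h2, fun z hz => (h3 z hz).imp fun i hi => hi.symm⟩

/-- one point for each `t` -/
theorem exists_tInj (S : Finset ZPt) (hv : ∀ z ∈ S, z.v ≠ 0) (C : ℕ)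
    (hC : ∀ T ⊆ S, (∀ z ∈ T, ∀ z' ∈ T, z.u * z'.v = z'.u * z.v) → T.card ≤ C) :
    ∃ T ⊆ S, TInj T ∧ S.card ≤ C * T.card := by
  classical
  set f : ZPt → ℚ := fun z => (z.u : ℚ) / z.v with hf
  have hfe : ∀ z ∈ S, ∀ z' ∈ S, f z = f z' ↔ z.u * z'.v = z'.u * z.v := by
    intro z hz z' hz'
    have h1 : (z.v : ℚ) ≠ 0 := by exact_mod_cast hv z hz
    have h2 : (z'.v : ℚ) ≠ 0 := by exact_mod_cast hv z' hz'
    simp only [hf]
    rw [div_eq_div_iff h1 h2]
    exact_mod_cast Iff.rfl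
  obtain ⟨T, hTS, hTi, hTf⟩ : ∃ T ⊆ S, Set.InjOn f T ∧ T.image f = S.image f := by
    have h1 : Set.SurjOn f (S : Set ZPt) (S.image f : Finset ℚ) := by
      rw [Finset.coe_image]
      exact Set.surjOn_image f _
    obtain ⟨T, h2, h3, h4⟩ := Finset.exists_subset_injOn_image_eq_of_surjOn (S : Set ZPt)
      (S.image f) h1
    exact ⟨T, by exact_mod_cast h2, h3, h4⟩
  refine ⟨T, hTS, ?_, ?_⟩
  · intro z hz z' hz' h
    exact hTi hz hz' ((hfe z (hTS hz) z' (hTS hz')).2 h)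
  · have h1 : S.card ≤ C * (S.image f).card := by
      apply Finset.card_le_mul_card_image
      intro t ht
      apply hC _ (Finset.filter_subset _ _)
      intro z hz z' hz'
      obtain ⟨a1, a2⟩ := Finset.mem_filter.1 hz
      obtain ⟨b1, b2⟩ := Finset.mem_filter.1 hz'
      exact (hfe z a1 z' b1).1 (a2.trans b2.symm)
    rwa [← hTf, Finset.card_image_of_injOn hTi] at h1

theorem aslice {g : ℤ[X]} (hgm : g.Monic) (hirr : Irreducible g) (hdeg : g.natDegree = 4)
    (d0 d1 x0 x1 : ℝ) (h0 : -(1 / 100) ≤ d0) (h01 : d0 < d1) (h1 : d1 ≤ 383 / 1000) (hx0 : 0 ≤ x0)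
    (hx01 : x0 < x1) (hx1 : x1 ≤ 3 / 25) (hx : x0 ≤ 3 / 100) (hc : CertA d0 d1 x0 x1) :
    SliceA g d0 d1 x0 x1 := by
  classical
  obtain ⟨θ, hθ⟩ := exists_roots4 hgm hirr hdeg
  intro K L hK hL
  obtain ⟨c, hc0, C, Y0, hcore⟩ := acore hθ d0 d1 x0 x1 h0 h01 h1 hx0 hx01 hx1 hx hc K L hK hL
  obtain ⟨M, hM⟩ := per_t hθ K L
  refine ⟨min c (7 / 100), lt_min hc0 (by norm_num), M * |C| + M, Y0, ?_⟩
  intro Y P hY hY0 hYP hlo hup m a b e1 e2 _hind hR hprod hx1b hns S p α β u v hS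
  have hYpos : 0 < Y := lt_of_lt_of_le one_pos hY
  -- the points
  set S0 : Finset ℤ := S.filter fun n => v n = 0 with hS0
  set S1 : Finset ℤ := S.filter fun n => v n ≠ 0 with hS1
  set F : ℤ → ZPt := fun n => ⟨u n, v n, n, p n, m, β n⟩ with hF
  set G : ℤ → ZPt := fun n => ⟨v n, u n, n, p n, m, β n⟩ with hG
  have hFi : Function.Injective F := fun n n' h => congrArg ZPt.n h
  have hGi : Function.Injective G := fun n n' h => congrArg ZPt.n h
  have hFa : ∀ n ∈ S, (F n).a e1 e2 = α n := by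
    intro n hn
    funext i
    exact ((hS n hn).2.1 i).symm
  have hGa : ∀ n ∈ S, (G n).a e2 e1 = α n := by
    intro n hn
    funext i
    have h2 := (hS n hn).2.1 i
    simp only [ZPt.a, hG]
    rw [h2]; ring
  have hα : ∀ n ∈ S, α n ≠ 0 := by
    intro n hn h2
    have h3 := (hS n hn).1
    have h4 := h3.lowα (θ 0) (hθ.root 0)
    have h5 : (0 : ℝ) < P := by
      have h6 := h3.plt
      have h7 : (0 : ℝ) < p n := by exact_mod_cast h3.prime.pos
      linarith
    have h6 : (0 : ℝ) < P ^ ((1 : ℝ) / (4 : ℕ)) := Real.rpow_pos_of_pos h5 _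
    rw [h2] at h4
    simp only [ev, Pi.zero_apply, Int.cast_zero, zero_mul, Finset.sum_const_zero, norm_zero,
      mul_zero] at h4
    linarith
  have hcard : S.card = S0.card + S1.card := by
    rw [hS0, hS1]
    exact (Finset.card_filter_add_card_filter_not _).symm
  -- the points with `v = 0`
  have hcard0 : S0.card ≤ M := by
    rw [← Finset.card_image_of_injective S0 hGi]
    refine hM Y P hY hYP e2 e1 _ ?_ ?_ ?_
    · intro z hz
      obtain ⟨n, hn, rfl⟩ := Finset.mem_image.1 hz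
      obtain ⟨hnS, hvn⟩ := Finset.mem_filter.1 hn
      refine ⟨?_, ?_⟩
      · intro h2
        apply hα n hnS
        funext i
        have h3 := (hS n hnS).2.1 i
        have h4 : u n = 0 := h2
        rw [h3, h4, hvn]
        simp
      · rw [hGa n hnS]
        exact (hS n hnS).1
    · intro z hz z' hz' h2
      obtain ⟨n, hn, rfl⟩ := Finset.mem_image.1 hz
      obtain ⟨n', hn', rfl⟩ := Finset.mem_image.1 hz'
      have h3 : n = n' := h2
      rw [h3]
    · intro z hz z' hz'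
      obtain ⟨n, hn, rfl⟩ := Finset.mem_image.1 hz
      obtain ⟨n', hn', rfl⟩ := Finset.mem_image.1 hz'
      simp only [hG]
      rw [(Finset.mem_filter.1 hn).2, (Finset.mem_filter.1 hn').2, zero_mul, zero_mul]
  -- the points with `v ≠ 0`
  have hA : ∀ z ∈ S1.image F, AOK g K Y P e1 e2 z := by
    intro z hz
    obtain ⟨n, hn, rfl⟩ := Finset.mem_image.1 hz
    obtain ⟨hnS, hvn⟩ := Finset.mem_filter.1 hn
    refine ⟨hvn, ?_⟩
    rw [hFa n hnS]
    exact (hS n hnS).1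
  have hN : ∀ z ∈ S1.image F, ∀ z' ∈ S1.image F, z.n = z'.n → z = z' := by
    intro z hz z' hz' h2
    obtain ⟨n, hn, rfl⟩ := Finset.mem_image.1 hz
    obtain ⟨n', hn', rfl⟩ := Finset.mem_image.1 hz'
    have h3 : n = n' := h2
    rw [h3]
  obtain ⟨T, hTS, hTi, hTc⟩ := exists_tInj (S1.image F) (fun z hz => (hA z hz).1) M
    (fun T hT h2 => hM Y P hY hYP e1 e2 T (fun z hz => hA z (hT hz))
      (fun z hz z' hz' => hN z (hT hz) z' (hT hz')) h2)
  have hT := hcore Y P hY hY0 hYP hlo hup a b e1 e2 hR hprod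
    (fun j l hjl => hns (θ j) (θ l) (hθ.root j) (hθ.root l) (fun h2 => hjl (hθ.inj h2))) hx1b T
    (fun z hz => hA z (hTS hz)) (fun z hz z' hz' => hN z (hTS hz) z' (hTS hz')) hTi
  rw [Finset.card_image_of_injective S1 hFi] at hTc
  -- the count
  set E : ℝ := 1 - 2 / 3 * (1 + d1) + 2 * x0 - min c (7 / 100) with hE
  have hE0 : 0 ≤ E := by
    have h2 : min c (7 / 100) ≤ 7 / 100 := min_le_right _ _
    rw [hE]; linarith
  have hY1 : 1 ≤ Y ^ E := Real.one_le_rpow hY hE0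
  have hle : Y ^ (1 - 2 / 3 * (1 + d1) + 2 * x0 - c) ≤ Y ^ E := by
    apply Real.rpow_le_rpow_of_exponent_le hY
    have h2 : min c (7 / 100) ≤ c := min_le_left _ _
    rw [hE]; linarith
  have hTb : (T.card : ℝ) ≤ |C| * Y ^ E := by
    refine hT.trans ?_
    calc C * Y ^ (1 - 2 / 3 * (1 + d1) + 2 * x0 - c)
        ≤ |C| * Y ^ (1 - 2 / 3 * (1 + d1) + 2 * x0 - c) :=
          mul_le_mul_of_nonneg_right (le_abs_self C) (Real.rpow_nonneg hYpos.le _)
      _ ≤ |C| * Y ^ E := mul_le_mul_of_nonneg_left hle (abs_nonneg C)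
  have h2 : (S1.card : ℝ) ≤ M * (T.card : ℝ) := by exact_mod_cast hTc
  have h3 : (S0.card : ℝ) ≤ M := by exact_mod_cast hcard0
  have hM0 : (0 : ℝ) ≤ M := Nat.cast_nonneg M
  calc (S.card : ℝ) = S0.card + S1.card := by rw [hcard]; push_cast; rfl
    _ ≤ M * Y ^ E + M * (|C| * Y ^ E) := by
        refine add_le_add (h3.trans ?_) (h2.trans ?_)
        · nlinarith
        · exact mul_le_mul_of_nonneg_left hTb hM0
    _ = (M * |C| + M) * Y ^ E := by ring

/-- RANGE A -/
theorem rangeA_final {g : ℤ[X]} (hg : g.Monic) (hirr : Irreducible g) (hd : g.natDegree = 4) :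
    RangeBoundSolL 4 g (383 / 1000) :=
  rangeA hg hirr hd fun d0 d1 x0 x1 h0 h01 h1 hx0 hx01 hx hx1 hc =>
    aslice hg hirr hd d0 d1 x0 x1 h0 h01 h1 hx0 hx01 hx1 hx hc

end Pool.Agent.Lib.SQF
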