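import Pool.Agent.Lib.SQF.Trivial
import Pool.Agent.Lib.SQF.Defs

/-!
# SQF: one class of solutions on a beta-slice

From a family of solutions on a slice one passes to a subfamily of positive proportion on which
`u, v ≠ 0`, a given finite class function is constant and `u / v` is injective.
-/

set_option autoImplicit false

open Polynomial

namespace Pool.Agent.Lib.SQF

private theorem bcls_pol_natDegree {d : ℕ} (hd : 0 < d) (a : Fin d → ℤ) :
    (pol a).natDegree < d := by
  unfold pol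
  refine lt_of_le_of_lt (natDegree_sum_le_of_forall_le (n := d - 1) _ _ fun i _ => ?_) (by omega)
  refine (natDegree_C_mul_X_pow_le _ _).trans ?_
  have := i.2
  omega

/-- the common divisor of `u` and `v` divides `m ^ 2` -/
theorem gcd_dvd_sq {g : ℤ[X]} (hg : g.Monic) (hd : 2 ≤ g.natDegree) {d : ℕ} {f1 f2 α β : Fin d → ℤ}
    {n m u v : ℤ} (heq : g ∣ pol α ^ 2 * pol β - C (m ^ 2) * (C n - X))
    (hs : OnSlice f1 f2 β u v) : ((Int.gcd u v : ℕ) : ℤ) ∣ m ^ 2 := by
  set δ := Int.gcd u v with hδ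
  rcases eq_or_ne δ 1 with h1 | h1
  · rw [h1]; simp
  have hnt : Nontrivial (ZMod δ) := by
    rcases Nat.eq_zero_or_pos δ with h0 | h0
    · rw [h0]; exact inferInstanceAs (Nontrivial ℤ)
    · have : Fact (1 < δ) := ⟨by omega⟩
      infer_instance
  have hu : ((u : ℤ) : ZMod δ) = 0 :=
    (ZMod.intCast_zmod_eq_zero_iff_dvd u δ).2 (Int.gcd_dvd_left u v)
  have hv : ((v : ℤ) : ZMod δ) = 0 :=
    (ZMod.intCast_zmod_eq_zero_iff_dvd v δ).2 (Int.gcd_dvd_right u v)
  have hβ : ∀ i, ((β i : ℤ) : ZMod δ) = 0 := fun i => by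
    rw [hs i]; push_cast; rw [hu, hv]; ring
  let φ := Polynomial.mapRingHom (Int.castRingHom (ZMod δ))
  have hC : ∀ x : ℤ, φ (C x) = C ((x : ℤ) : ZMod δ) := fun x => by
    change Polynomial.map (Int.castRingHom (ZMod δ)) (C x) = _
    rw [Polynomial.map_C]
    rfl
  have hβ0 : φ (pol β) = 0 := by
    unfold pol
    rw [map_sum]
    refine Finset.sum_eq_zero fun i _ => ?_
    rw [map_mul]
    have : φ (C (β i)) = 0 := by
      rw [hC, hβ i, map_zero]
    rw [this, zero_mul]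
  obtain ⟨w, hw⟩ := heq
  have h2 := congrArg φ hw
  rw [map_sub, map_mul, map_mul, map_mul, hβ0, mul_zero, zero_sub] at h2
  have hgm : (φ g).Monic := hg.map _
  have hgd : (φ g).natDegree = g.natDegree := hg.natDegree_map _
  have hm2 : φ (C (m ^ 2)) = C (((m ^ 2 : ℤ) : ZMod δ)) := hC _
  have hnX : φ (C n - X) = C ((n : ℤ) : ZMod δ) - X := by
    rw [map_sub, hC]
    congr 1
    exact Polynomial.map_X _
  rw [hm2, hnX] at h2
  have hw0 : φ w = 0 := by
    by_contra hne
    have h3 : (φ g * φ w).natDegree = (φ g).natDegree + (φ w).natDegree :=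
      hgm.natDegree_mul' hne
    have h4 : (φ g * φ w).natDegree ≤ 1 := by
      rw [← h2, natDegree_neg]
      refine (natDegree_C_mul_le _ _).trans ?_
      refine (natDegree_sub_le _ _).trans ?_
      rw [natDegree_C]
      exact max_le (by omega) natDegree_X_le
    omega
  rw [hw0, mul_zero, neg_eq_zero] at h2
  have h5 := congrArg (fun q => q.coeff 1) h2
  simp only [coeff_C_mul, coeff_sub, coeff_X_one, coeff_zero] at h5
  rw [coeff_C_of_ne_zero (by norm_num), zero_sub, mul_neg, mul_one, neg_eq_zero] at h5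
  exact (ZMod.intCast_zmod_eq_zero_iff_dvd _ δ).1 h5

/-- proportional pairs with the same greatest common divisor and sign are equal -/
theorem eq_of_prop {u v u' v' : ℤ} (h : u * v' = u' * v) (hg : Int.gcd u v = Int.gcd u' v')
    (hs : 0 < v * v') : u = u' ∧ v = v' := by
  have hv : v ≠ 0 := by rintro rfl; simp at hs
  have hv' : v' ≠ 0 := by rintro rfl; simp at hs
  have hδ : 0 < Int.gcd u v := Int.gcd_pos_of_ne_zero_right _ hv
  obtain ⟨a, ha⟩ : ((Int.gcd u v : ℕ) : ℤ) ∣ u := Int.gcd_dvd_left u v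
  obtain ⟨b, hb⟩ : ((Int.gcd u v : ℕ) : ℤ) ∣ v := Int.gcd_dvd_right u v
  obtain ⟨a', ha'⟩ : ((Int.gcd u' v' : ℕ) : ℤ) ∣ u' := Int.gcd_dvd_left u' v'
  obtain ⟨b', hb'⟩ : ((Int.gcd u' v' : ℕ) : ℤ) ∣ v' := Int.gcd_dvd_right u' v'
  rw [← hg] at ha' hb'
  set δ : ℤ := ((Int.gcd u v : ℕ) : ℤ) with hδd
  have hδ0 : 0 < δ := by rw [hδd]; exact_mod_cast hδ
  have hco : ∀ x y a b : ℤ, x = δ * a → y = δ * b → ((Int.gcd x y : ℕ) : ℤ) = δ →
      Int.gcd a b = 1 := by
    intro x y a b hx hy hxy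
    have h1 : Int.gcd x y = Int.natAbs δ * Int.gcd a b := by
      rw [hx, hy, Int.gcd_mul_left]
    have h2 : (Int.natAbs δ : ℤ) = δ := Int.natAbs_of_nonneg hδ0.le
    have h3 : δ * ((Int.gcd a b : ℕ) : ℤ) = δ * 1 := by
      rw [h1] at hxy
      push_cast at hxy
      rw [abs_of_pos hδ0] at hxy
      linarith
    have h4 := mul_left_cancel₀ hδ0.ne' h3
    exact_mod_cast h4
  have hab : Int.gcd a b = 1 := hco u v a b ha hb rfl
  have hab' : Int.gcd a' b' = 1 := hco u' v' a' b' ha' hb' (by rw [hδd, hg])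
  have h1 : a * b' = a' * b := by
    have h2 : δ * δ * (a * b') = δ * δ * (a' * b) := by
      have : u * v' = u' * v := h
      rw [ha, hb', ha', hb] at this
      linear_combination this
    exact mul_left_cancel₀ (mul_pos hδ0 hδ0).ne' h2
  have hbb' : b ∣ b' := by
    have h2 : b ∣ a * b' := ⟨a', by rw [h1]; ring⟩
    exact Int.dvd_of_dvd_mul_right_of_gcd_one h2 (by rw [Int.gcd_comm]; exact hab)
  have hb'b : b' ∣ b := by
    have h2 : b' ∣ a' * b := ⟨a, by rw [← h1]; ring⟩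
    exact Int.dvd_of_dvd_mul_right_of_gcd_one h2 (by rw [Int.gcd_comm]; exact hab')
  have hbs : 0 < b * b' := by
    rw [hb, hb'] at hs
    have : δ * b * (δ * b') = δ * δ * (b * b') := by ring
    rw [this] at hs
    exact (mul_pos_iff_of_pos_left (mul_pos hδ0 hδ0)).1 hs
  have hbeq : b = b' := by
    rcases Int.natAbs_eq_natAbs_iff.1 (Nat.dvd_antisymm (Int.natAbs_dvd_natAbs.2 hbb')
      (Int.natAbs_dvd_natAbs.2 hb'b)) with h2 | h2
    · exact h2
    · exfalso
      rw [h2] at hbs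
      have : b' * b' ≥ 0 := mul_self_nonneg b'
      have h3 : -b' * b' = -(b' * b') := by ring
      rw [h3] at hbs
      omega
  have hb0 : b ≠ 0 := by
    rintro rfl
    rw [mul_zero] at hb
    exact hv hb
  have haeq : a = a' := by
    rw [← hbeq] at h1
    exact mul_right_cancel₀ hb0 h1
  exact ⟨by rw [ha, ha', haeq], by rw [hb, hb', hbeq]⟩

/-- a set is not much larger than a subset on which `f` is injective, if the fibres are small -/
theorem exists_inj_subset {ι τ : Type*} [DecidableEq τ] [DecidableEq ι] (S : Finset ι) (f : ι → τ)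
    (M : ℕ) (hM : ∀ n ∈ S, (S.filter fun n' => f n' = f n).card ≤ M) :
    ∃ S' ⊆ S, (∀ n ∈ S', ∀ n' ∈ S', f n = f n' → n = n') ∧ S.card ≤ M * S'.card := by
  obtain ⟨S', hS', hinj, himg⟩ := Finset.exists_subset_injOn_image_eq_of_surjOn (f := f)
    (S : Set ι) (S.image f) (fun y hy => by
      simp only [Finset.coe_image] at hy
      exact hy)
  refine ⟨S', by exact_mod_cast hS', fun n hn n' hn' h => hinj hn hn' h, ?_⟩
  have h1 : S'.card = (S.image f).card := by
    rw [← himg, Finset.card_image_of_injOn hinj]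
  rw [h1]
  refine Finset.card_le_mul_card_image S M fun y hy => ?_
  obtain ⟨n, hn, rfl⟩ := Finset.mem_image.1 hy
  exact hM n hn

/-- **One class of solutions.** -/
theorem bclass (g : ℤ[X]) (hg : g.Monic) (hirr : Irreducible g) (hd : g.natDegree = 4) (K : ℝ) :
    ∃ (C2 : ℕ) (Y0 : ℝ), 1 ≤ Y0 ∧ ∀ Y P : ℝ, Y0 ≤ Y → 0 < P → P ≤ Y ^ ((8 : ℝ) / 5) →
      ∀ (m : ℤ) (f1 f2 : Fin 4 → ℤ) (S : Finset ℤ) (p : ℤ → ℕ) (α β : ℤ → Fin 4 → ℤ)
        (u v : ℤ → ℤ),
        (∀ n ∈ S, IsSol 4 g K Y P n (p n) (α n) (β n) m ∧ OnSlice f1 f2 (β n) (u n) (v n)) →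
        ∀ (κ : Type) [Fintype κ] [DecidableEq κ] [Nonempty κ] (cls : ℤ → κ),
        ∃ S' ⊆ S, (∀ n ∈ S', u n ≠ 0 ∧ v n ≠ 0) ∧ (∀ n ∈ S', ∀ n' ∈ S', cls n = cls n') ∧
          (∀ n ∈ S', ∀ n' ∈ S', u n * v n' = u n' * v n → n = n') ∧
          S.card ≤ C2 * Fintype.card κ * (S'.card + 1) := by
  classical
  obtain ⟨K2, hK2, hfb⟩ := fixed_beta g hg hirr (by omega)
  set K1 : ℝ := max K 1 with hK1
  have hK11 : 1 ≤ K1 := le_max_right _ _
  have hKK1 : K ≤ K1 := le_max_left _ _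
  set M : ℕ := ⌊K1 ^ 2⌋₊ with hM
  refine ⟨32 * (4 * (M + 1)), max K2 ((K2 * K1 ^ 2) ^ 5), le_max_of_le_left hK2, ?_⟩
  intro Y P hY hP hPY m f1 f2 S p α β u v hS κ _ _ _ cls
  have hYK : K2 ≤ Y := (le_max_left _ _).trans hY
  have hYK5 : (K2 * K1 ^ 2) ^ 5 ≤ Y := (le_max_right _ _).trans hY
  have hY1 : 1 ≤ Y := hK2.trans hYK
  have hY0 : 0 < Y := by linarith
  rcases S.eq_empty_or_nonempty with rfl | ⟨n00, hn00⟩
  · exact ⟨∅, by simp, by simp, by simp, by simp, by simp⟩
  have hm0 : m ≠ 0 := (hS n00 hn00).1.m_ne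
  have hmK : |(m : ℝ)| ≤ K := (hS n00 hn00).1.m_le
  have hm1 : (1 : ℝ) ≤ |(m : ℝ)| := by
    rw [← Int.cast_abs]
    exact_mod_cast Int.one_le_abs hm0
  have hK0 : 1 ≤ K := hm1.trans hmK
  -- the common divisors are at most `M`
  have hgcd : ∀ n ∈ S, Int.gcd (u n) (v n) ≤ M := by
    intro n hn
    have h1 := gcd_dvd_sq hg (by omega) (hS n hn).1.eqn (hS n hn).2
    have h2 : ((Int.gcd (u n) (v n) : ℕ) : ℤ) ≤ m ^ 2 := Int.le_of_dvd (by positivity) h1
    have h3 : ((Int.gcd (u n) (v n) : ℕ) : ℝ) ≤ (m : ℝ) ^ 2 := by exact_mod_cast h2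
    rw [hM]
    apply Nat.le_floor
    refine h3.trans ?_
    rw [← sq_abs]
    exact pow_le_pow_left₀ (abs_nonneg _) (hmK.trans hKK1) 2
  -- fixed values of `u` and `v`
  have hT : K2 * (K1 * P ^ ((1 : ℝ) / (4 : ℕ))) ^ 2 ≤ Y := by
    have h1 : (P ^ ((1 : ℝ) / (4 : ℕ))) ^ 2 ≤ Y ^ ((4 : ℝ) / 5) := by
      rw [← Real.rpow_natCast, ← Real.rpow_mul hP.le]
      have h2 : P ^ ((1 : ℝ) / (4 : ℕ) * (2 : ℕ)) ≤
          (Y ^ ((8 : ℝ) / 5)) ^ ((1 : ℝ) / (4 : ℕ) * (2 : ℕ)) :=
        Real.rpow_le_rpow hP.le hPY (by positivity)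
      refine h2.trans (le_of_eq ?_)
      rw [← Real.rpow_mul hY0.le]
      norm_num
    have h3 : K2 * K1 ^ 2 ≤ Y ^ ((1 : ℝ) / 5) := by
      have h4 : K2 * K1 ^ 2 = ((K2 * K1 ^ 2) ^ 5) ^ ((1 : ℝ) / 5) := by
        have h40 : (0 : ℝ) ≤ K2 * K1 ^ 2 := by positivity
        rw [← Real.rpow_natCast (K2 * K1 ^ 2) 5, ← Real.rpow_mul h40]
        norm_num
      rw [h4]
      exact Real.rpow_le_rpow (by positivity) hYK5 (by norm_num)
    calc K2 * (K1 * P ^ ((1 : ℝ) / (4 : ℕ))) ^ 2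
        = (K2 * K1 ^ 2) * (P ^ ((1 : ℝ) / (4 : ℕ))) ^ 2 := by ring
      _ ≤ Y ^ ((1 : ℝ) / 5) * Y ^ ((4 : ℝ) / 5) := by gcongr
      _ = Y := by rw [← Real.rpow_add hY0]; norm_num
  have hfix : ∀ S1 ⊆ S, (∀ n ∈ S1, ∀ n' ∈ S1, u n = u n' ∧ v n = v n') → S1.card ≤ 32 := by
    intro S1 hS1 h
    rcases S1.eq_empty_or_nonempty with rfl | ⟨n0, hn0⟩
    · simp
    have hβ : ∀ n ∈ S1, β n = β n0 := by
      intro n hn
      funext i
      rw [(hS n (hS1 hn)).2 i, (hS n0 (hS1 hn0)).2 i, (h n hn n0 hn0).1, (h n hn n0 hn0).2]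
    have h1 := hfb Y (K1 * P ^ ((1 : ℝ) / (4 : ℕ))) hYK (by positivity) hT (pol (β n0)) m hm0 S1
      (fun n hn => by
        have hs := (hS n (hS1 hn)).1
        refine ⟨pol (α n), hs.lower, hs.upper, ?_, ?_, ?_⟩
        · rw [hd]; exact bcls_pol_natDegree (by norm_num) _
        · rw [← hβ n hn]; exact hs.eqn
        · intro z hz
          rw [aeval_pol]
          refine (hs.uppα z hz).trans ?_
          gcongr)
    rw [hd] at h1
    exact h1
  -- the exceptional solutions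
  set S0 := S.filter (fun n => ¬ (u n ≠ 0 ∧ v n ≠ 0)) with hS0
  set S1 := S.filter (fun n => u n ≠ 0 ∧ v n ≠ 0) with hS1
  have hsplit : S.card = S1.card + S0.card := by
    rw [hS0, hS1]
    exact (Finset.card_filter_add_card_filter_not (s := S) (fun n => u n ≠ 0 ∧ v n ≠ 0)).symm
  have hM' : ∀ n : ℤ, n.natAbs ≤ M → n ∈ Finset.Icc (-(M : ℤ)) M := by
    intro n hn
    rw [Finset.mem_Icc]
    omega
  have hS0c : S0.card ≤ 32 * (2 * (2 * M + 1)) := by
    have h1 : ∀ y ∈ S0.image (fun n => (u n, v n)),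
        (S0.filter fun n => (u n, v n) = y).card ≤ 32 := by
      intro y _
      apply hfix
      · exact (Finset.filter_subset _ _).trans (Finset.filter_subset _ _)
      · intro n hn n' hn'
        have h2 := (Finset.mem_filter.1 hn).2
        have h3 := (Finset.mem_filter.1 hn').2
        rw [← h3] at h2
        exact Prod.mk.inj h2
    have h2 := Finset.card_le_mul_card_image S0 32 h1
    have h3 : S0.image (fun n => (u n, v n)) ⊆
        (Finset.Icc (-(M : ℤ)) M).image (fun x => ((0 : ℤ), x)) ∪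
          (Finset.Icc (-(M : ℤ)) M).image (fun x => (x, (0 : ℤ))) := by
      intro y hy
      obtain ⟨n, hn, rfl⟩ := Finset.mem_image.1 hy
      obtain ⟨hn1, hn2⟩ := Finset.mem_filter.1 hn
      have hg1 := hgcd n hn1
      rw [Finset.mem_union, Finset.mem_image, Finset.mem_image]
      by_cases hu : u n = 0
      · left
        rw [hu] at hg1 ⊢
        rw [Int.gcd_zero_left] at hg1
        exact ⟨v n, hM' _ hg1, rfl⟩
      · right
        have hv : v n = 0 := by
          by_contra hv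
          exact hn2 ⟨hu, hv⟩
        rw [hv] at hg1 ⊢
        rw [Int.gcd_zero_right] at hg1
        exact ⟨u n, hM' _ hg1, rfl⟩
    have h4 : (S0.image (fun n => (u n, v n))).card ≤ 2 * (2 * M + 1) := by
      refine (Finset.card_le_card h3).trans ((Finset.card_union_le _ _).trans ?_)
      have h5 : (Finset.Icc (-(M : ℤ)) M).card = 2 * M + 1 := by
        rw [Int.card_Icc]; omega
      have h6 := Finset.card_image_le (s := Finset.Icc (-(M : ℤ)) M) (f := fun x => ((0 : ℤ), x))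
      have h7 := Finset.card_image_le (s := Finset.Icc (-(M : ℤ)) M) (f := fun x => (x, (0 : ℤ)))
      omega
    calc S0.card ≤ 32 * (S0.image (fun n => (u n, v n))).card := h2
      _ ≤ 32 * (2 * (2 * M + 1)) := Nat.mul_le_mul_left _ h4
  -- the largest class
  let key : ℤ → κ × (Fin (M + 1) × Bool) := fun n =>
    (cls n, (Fin.ofNat (M + 1) (Int.gcd (u n) (v n)), decide (0 < v n)))
  have hkc : Fintype.card (κ × (Fin (M + 1) × Bool)) = Fintype.card κ * ((M + 1) * 2) := by
    rw [Fintype.card_prod, Fintype.card_prod, Fintype.card_fin, Fintype.card_bool]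
  obtain ⟨b, hb⟩ : ∃ b : κ × (Fin (M + 1) × Bool), S1.card ≤
      (Fintype.card κ * ((M + 1) * 2)) * (S1.filter fun n => key n = b).card := by
    by_contra hcon
    push Not at hcon
    have h1 : S1.card = ∑ b : κ × (Fin (M + 1) × Bool), (S1.filter fun n => key n = b).card :=
      Finset.card_eq_sum_card_fiberwise (fun n _ => Finset.mem_coe.2 (Finset.mem_univ _))
    have h2 : (Fintype.card κ * ((M + 1) * 2)) * S1.card < Fintype.card (κ × (Fin (M + 1) × Bool)) *
        S1.card := by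
      conv_lhs => rw [h1, Finset.mul_sum]
      refine lt_of_lt_of_le (Finset.sum_lt_sum_of_nonempty Finset.univ_nonempty
        fun b _ => hcon b) ?_
      rw [Finset.sum_const, Finset.card_univ, smul_eq_mul]
    rw [hkc] at h2
    exact lt_irrefl _ h2
  set S2 := S1.filter fun n => key n = b with hS2
  have hS2S : S2 ⊆ S := (Finset.filter_subset _ _).trans (Finset.filter_subset _ _)
  have hS2uv : ∀ n ∈ S2, u n ≠ 0 ∧ v n ≠ 0 := fun n hn =>
    (Finset.mem_filter.1 (Finset.mem_filter.1 hn).1).2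
  have hprop : ∀ n ∈ S2, ∀ n' ∈ S2, u n * v n' = u n' * v n → u n = u n' ∧ v n = v n' := by
    intro n hn n' hn' h
    have h1 : key n = key n' := by
      rw [(Finset.mem_filter.1 hn).2, (Finset.mem_filter.1 hn').2]
    simp only [key, Prod.mk.injEq] at h1
    obtain ⟨_, h2, h3⟩ := h1
    have h4 : Int.gcd (u n) (v n) = Int.gcd (u n') (v n') := by
      have h5 := congrArg Fin.val h2
      simp only [Fin.ofNat] at h5
      rwa [Nat.mod_eq_of_lt (Nat.lt_succ_of_le (hgcd n (hS2S hn))),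
        Nat.mod_eq_of_lt (Nat.lt_succ_of_le (hgcd n' (hS2S hn')))] at h5
    have h5 : 0 < v n * v n' := by
      have h6 : (0 < v n) ↔ (0 < v n') := by simpa using h3
      rcases lt_or_gt_of_ne (hS2uv n hn).2 with h7 | h7
      · have h8 : v n' < 0 := by
          rcases lt_or_gt_of_ne (hS2uv n' hn').2 with h9 | h9
          · exact h9
          · exact absurd (h6.2 h9) (by omega)
        exact mul_pos_of_neg_of_neg h7 h8
      · exact mul_pos h7 (h6.1 h7)
    exact eq_of_prop h h4 h5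
  obtain ⟨S', hS', hinj, hcard⟩ := exists_inj_subset S2 (fun n => (u n, v n)) 32 (fun n hn => by
    apply hfix
    · exact (Finset.filter_subset _ _).trans hS2S
    · intro a ha b hb'
      have h2 := (Finset.mem_filter.1 ha).2
      have h3 := (Finset.mem_filter.1 hb').2
      rw [← h3] at h2
      exact Prod.mk.inj h2)
  refine ⟨S', hS'.trans hS2S, fun n hn => hS2uv n (hS' hn), ?_, ?_, ?_⟩
  · intro n hn n' hn'
    have h1 : key n = key n' := by
      rw [(Finset.mem_filter.1 (hS' hn)).2, (Finset.mem_filter.1 (hS' hn')).2]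
    exact (Prod.mk.inj h1).1
  · intro n hn n' hn' h
    have h1 := hprop n (hS' hn) n' (hS' hn') h
    exact hinj n hn n' hn' (Prod.ext h1.1 h1.2)
  · have hκ : 1 ≤ Fintype.card κ := Fintype.card_pos
    have h1 : S1.card ≤ (Fintype.card κ * ((M + 1) * 2)) * (32 * S'.card) :=
      hb.trans (Nat.mul_le_mul_left _ hcard)
    have h2 : 32 * (2 * (2 * M + 1)) ≤ 32 * (4 * (M + 1)) * Fintype.card κ := by
      calc 32 * (2 * (2 * M + 1)) ≤ 32 * (4 * (M + 1)) * 1 := by omega
        _ ≤ _ := Nat.mul_le_mul_left _ hκ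
    calc S.card = S1.card + S0.card := hsplit
      _ ≤ (Fintype.card κ * ((M + 1) * 2)) * (32 * S'.card) +
          32 * (4 * (M + 1)) * Fintype.card κ := add_le_add h1 (hS0c.trans h2)
      _ ≤ 32 * (4 * (M + 1)) * Fintype.card κ * (S'.card + 1) := by
          have : (Fintype.card κ * ((M + 1) * 2)) * (32 * S'.card) ≤
              32 * (4 * (M + 1)) * Fintype.card κ * S'.card := by
            have h5 : (Fintype.card κ * ((M + 1) * 2)) * (32 * S'.card) =
              32 * (2 * (M + 1)) * Fintype.card κ * S'.card := by ring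
            rw [h5]
            gcongr
            norm_num
          rw [mul_add, mul_one]
          exact add_le_add_left this _

end Pool.Agent.Lib.SQF
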