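import Mathlib

/-!
# SQF, q-adic divisibility of determinants (cluster lemma, arithmetic part)

`dvd_det_of_rows` : if the rows in `S` of an integer matrix are, modulo `q ^ M0`, of the form
`c i * ∑ k, (q * t i) ^ k • w k` then `q ^ (|S| choose 2)` divides the determinant
(`|S| choose 2 ≤ M0`).
`hensel_poly` : integer points of a plane curve which are congruent modulo `q` to a point which is
smooth modulo `q` lie, modulo `q ^ M`, on the graph of a polynomial with integer coefficients.
`dvd_det_curve` : the two together, for one cluster of points inside a bigger determinant.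
-/

open Finset

namespace Pool.Agent.Lib.SQF

/-- the sum of an injective family of natural numbers indexed by `S` is at least `|S| choose 2` -/
theorem choose_two_le_sum {ι : Type*} [DecidableEq ι] (S : Finset ι) (r : ι → ℕ)
    (hr : Set.InjOn r S) : S.card.choose 2 ≤ ∑ i ∈ S, r i := by
  induction' hn : S.card with n ih generalizing S
  · simp
  · have hne : S.Nonempty := by
      rw [← Finset.card_pos]; omega
    obtain ⟨m, hmS, hm⟩ := S.exists_max_image r hne
    have hcard : (S.erase m).card = n := by
      rw [Finset.card_erase_of_mem hmS, hn]; rfl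
    have h1 := ih (S.erase m) (hr.mono (Finset.coe_subset.2 (Finset.erase_subset m S))) hcard
    have h2 : n ≤ r m := by
      -- the values r i for i in S are n+1 distinct numbers in [0, r m]
      have h3 : (S.image r).card = n + 1 := by
        rw [Finset.card_image_of_injOn hr, hn]
      have h4 : S.image r ⊆ Finset.range (r m + 1) := by
        intro x hx
        obtain ⟨i, hi, rfl⟩ := Finset.mem_image.1 hx
        exact Finset.mem_range.2 (Nat.lt_succ_of_le (hm i hi))
      have h5 := Finset.card_le_card h4
      rw [h3, Finset.card_range] at h5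
      omega
    rw [← Finset.add_sum_erase S r hmS, Nat.choose_succ_left n 2 (by norm_num)]
    simp only [Nat.add_one_sub_one, Nat.choose_one_right] at *
    omega

/-- row expansion -/
theorem dvd_det_of_rows' {ι : Type*} [Fintype ι] [DecidableEq ι] (q : ℤ) (S : Finset ι)
    (A : Matrix ι ι ℤ) (K : ℕ) (w : ℕ → ι → ℤ) (c t : ι → ℤ)
    (h : ∀ i ∈ S, A i = fun j => c i * ∑ k ∈ range K, (q * t i) ^ k * w k j) :
    q ^ (S.card.choose 2) ∣ A.det := by
  classical
  -- write the determinant as a multilinear map of the rows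
  set B : ι → ℕ → ι → ℤ := fun i k =>
    if i ∈ S then (c i * (q * t i) ^ k) • w k else A i with hB
  set R : ι → Finset ℕ := fun i => if i ∈ S then range K else {0} with hR
  have hA : A = fun i => ∑ k ∈ R i, B i k := by
    funext i
    by_cases hi : i ∈ S
    · simp only [hR, hB, hi, if_true]
      rw [h i hi]
      funext j
      rw [Finset.sum_apply, Finset.mul_sum]
      refine Finset.sum_congr rfl fun k _ => ?_
      simp only [Pi.smul_apply, smul_eq_mul]
      ring
    · simp [hR, hB, hi]
  have hdet : A.det = ∑ r ∈ Fintype.piFinset R, Matrix.det (fun i => B i (r i)) := by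
    have h1 := (Matrix.detRowAlternating (n := ι) (R := ℤ)).toMultilinearMap.map_sum_finset
      (fun i k => B i k) R
    simp only [AlternatingMap.coe_multilinearMap] at h1
    rw [hA]
    exact h1
  rw [hdet]
  refine Finset.dvd_sum fun r _ => ?_
  by_cases hinj : Set.InjOn r S
  · -- factor out the scalars
    have h2 : (fun i => B i (r i)) = fun i =>
        (if i ∈ S then c i * (q * t i) ^ (r i) else 1) • (if i ∈ S then w (r i) else A i) := by
      funext i
      by_cases hi : i ∈ S
      · simp [hB, hi]
      · simp [hB, hi]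
    have h3 := (Matrix.detRowAlternating (n := ι) (R := ℤ)).toMultilinearMap.map_smul_univ
      (fun i => if i ∈ S then c i * (q * t i) ^ (r i) else 1)
      (fun i => (if i ∈ S then w (r i) else A i))
    have h4 : Matrix.det (fun i => B i (r i)) =
        (∏ i, (if i ∈ S then c i * (q * t i) ^ (r i) else 1)) *
          Matrix.det (fun i => (if i ∈ S then w (r i) else A i)) := by
      rw [h2]
      exact h3
    rw [h4]
    refine Dvd.dvd.mul_right ?_ _
    rw [Finset.prod_ite_mem, Finset.univ_inter]
    have h5 : ∏ i ∈ S, c i * (q * t i) ^ (r i) =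
        q ^ (∑ i ∈ S, r i) * ∏ i ∈ S, (c i * (t i) ^ (r i)) := by
      rw [← Finset.prod_pow_eq_pow_sum, ← Finset.prod_mul_distrib]
      refine Finset.prod_congr rfl fun i _ => ?_
      rw [mul_pow]; ring
    rw [h5]
    exact Dvd.dvd.mul_right (pow_dvd_pow _ (choose_two_le_sum S r hinj)) _
  · -- two proportional rows
    have : ∃ i ∈ S, ∃ j ∈ S, i ≠ j ∧ r i = r j := by
      by_contra hcon
      push Not at hcon
      exact hinj fun i hi j hj hij => by
        by_contra hne
        exact hcon i hi j hj hne hij
    obtain ⟨i, hi, j, hj, hij, hrij⟩ := this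
    have h6 : Matrix.det (fun i => B i (r i)) = 0 := by
      have h2 : (fun i => B i (r i)) = fun i =>
          (if i ∈ S then c i * (q * t i) ^ (r i) else 1) • (if i ∈ S then w (r i) else A i) := by
        funext i
        by_cases hi : i ∈ S
        · simp [hB, hi]
        · simp [hB, hi]
      have h3 := (Matrix.detRowAlternating (n := ι) (R := ℤ)).toMultilinearMap.map_smul_univ
        (fun i => if i ∈ S then c i * (q * t i) ^ (r i) else 1)
        (fun i => (if i ∈ S then w (r i) else A i))
      have h4 : Matrix.det (fun i => B i (r i)) =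
          (∏ i, (if i ∈ S then c i * (q * t i) ^ (r i) else 1)) *
            Matrix.det (fun i => (if i ∈ S then w (r i) else A i)) := by
        rw [h2]
        exact h3
      rw [h4]
      have h7 : Matrix.det (fun i => (if i ∈ S then w (r i) else A i)) = 0 := by
        refine Matrix.det_zero_of_row_eq hij ?_
        simp [hi, hj, hrij]
      rw [h7, mul_zero]
    rw [h6]
    exact dvd_zero _

/-- the same, rows known modulo `q ^ M0` only -/
theorem dvd_det_of_rows {ι : Type*} [Fintype ι] [DecidableEq ι] (q : ℤ) (S : Finset ι)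
    (A : Matrix ι ι ℤ) (K M0 : ℕ) (w : ℕ → ι → ℤ) (c t : ι → ℤ)
    (hM : S.card.choose 2 ≤ M0)
    (h : ∀ i ∈ S, ∀ j, q ^ M0 ∣ A i j - c i * ∑ k ∈ range K, (q * t i) ^ k * w k j) :
    q ^ (S.card.choose 2) ∣ A.det := by
  classical
  set B : Matrix ι ι ℤ := fun i j =>
    if i ∈ S then c i * ∑ k ∈ range K, (q * t i) ^ k * w k j else A i j with hB
  have h1 : q ^ (S.card.choose 2) ∣ B.det :=
    dvd_det_of_rows' q S B K w c t fun i hi => by
      funext j
      simp [hB, hi]
  have h2 : q ^ M0 ∣ A.det - B.det := by
    have h3 : ∀ i j, q ^ M0 ∣ A i j - B i j := by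
      intro i j
      by_cases hi : i ∈ S
      · simpa [hB, hi] using h i hi j
      · simp [hB, hi]
    rw [← Int.modEq_iff_dvd, Matrix.det_apply, Matrix.det_apply]
    refine Int.ModEq.sum fun σ _ => ?_
    rw [Units.smul_def, Units.smul_def, smul_eq_mul, smul_eq_mul]
    refine Int.ModEq.mul_left _ (Int.ModEq.prod fun i _ => ?_)
    exact Int.modEq_iff_dvd.2 (h3 _ _)
  have h4 : q ^ (S.card.choose 2) ∣ A.det - B.det := (pow_dvd_pow q hM).trans h2
  have := dvd_add h4 h1
  simpa using this

open Polynomial

theorem evalEval_sub_dvd_right (f : ℤ[X][X]) (x y y' : ℤ) :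
    y - y' ∣ f.evalEval x y - f.evalEval x y' := by
  have h1 : (C y - C y' : ℤ[X]) ∣ f.eval (C y) - f.eval (C y') := Polynomial.sub_dvd_eval_sub _ _ f
  have h2 := Polynomial.eval_dvd (x := x) h1
  simpa [Polynomial.evalEval, Polynomial.eval_sub] using h2

theorem evalEval_sub_dvd_left (f : ℤ[X][X]) (x x' y : ℤ) :
    x - x' ∣ f.evalEval x y - f.evalEval x' y := by
  simpa [Polynomial.evalEval] using Polynomial.sub_dvd_eval_sub x x' (f.eval (C y))

theorem dvd_evalEval_sub (f : ℤ[X][X]) {q x x' y y' : ℤ} (hx : q ∣ x - x') (hy : q ∣ y - y') :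
    q ∣ f.evalEval x y - f.evalEval x' y' := by
  have h1 := hx.trans (evalEval_sub_dvd_left f x x' y)
  have h2 := hy.trans (evalEval_sub_dvd_right f x' y y')
  have := dvd_add h1 h2
  simpa using this

/-- Hensel's lemma for integer points of a plane curve near a point which is smooth modulo `q` -/
theorem hensel_poly (q : ℤ) (f : ℤ[X][X]) (x0 y0 : ℤ)
    (hu : IsCoprime ((derivative f).evalEval x0 y0) q) (M : ℕ) :
    ∃ A : ℤ[X], ∀ x y : ℤ, q ∣ x - x0 → q ∣ y - y0 → q ^ M ∣ f.evalEval x y →
      q ^ M ∣ y - A.eval (x - x0) := by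
  obtain ⟨u', b, hub⟩ := hu
  induction' M with M ih
  · exact ⟨0, fun x y _ _ _ => by simp⟩
  · rcases Nat.eq_zero_or_pos M with h0 | hM
    · subst h0
      exact ⟨C y0, fun x y _ hy _ => by simpa using hy⟩
    · obtain ⟨A, hA⟩ := ih
      refine ⟨A - C u' * (f.map (compRingHom (X + C x0))).eval A, fun x y hx hy hf => ?_⟩
      have hz := hA x y hx hy ((pow_dvd_pow q (Nat.le_succ M)).trans hf)
      obtain ⟨z, hz⟩ := hz
      set s := x - x0 with hs
      set a := A.eval s with ha
      have hcomp : ((f.map (compRingHom (X + C x0))).eval A).eval s = f.evalEval x a := by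
        have h1 : ((f.map (compRingHom (X + C x0))).eval A).eval s =
            f.evalEval (s + x0) a := by
          rw [Polynomial.eval_map, ← Polynomial.coe_evalRingHom, Polynomial.hom_eval₂]
          have h2 : (evalRingHom s).comp (compRingHom (X + C x0)) = evalRingHom (s + x0) := by
            ext <;> simp
          rw [h2, ← Polynomial.eval₂_evalRingHom, Polynomial.coe_evalRingHom]
        rw [h1, hs]
        simp
      rw [Polynomial.eval_sub, Polynomial.eval_mul, Polynomial.eval_C, hcomp]
      -- Taylor
      have hT := (Polynomial.binomExpansion (f.map (evalRingHom x)) a (q ^ M * z))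
      obtain ⟨k, hk⟩ := hT
      have hev : ∀ (g : ℤ[X][X]) (b : ℤ), (g.map (evalRingHom x)).eval b = g.evalEval x b := by
        intro g b
        exact Polynomial.map_evalRingHom_eval x b g
      rw [Polynomial.derivative_map, hev, hev, hev] at hk
      have hy' : a + q ^ M * z = y := by rw [← hz]; ring
      rw [hy'] at hk
      have hqM : q ∣ q ^ M := dvd_pow_self q (by omega)
      have hqa : q ∣ a - y0 := by
        have h1 : q ∣ y - a := hqM.trans ⟨z, hz⟩
        have := dvd_sub hy h1
        simpa using this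
      have hder : q ∣ (derivative f).evalEval x a - (derivative f).evalEval x0 y0 :=
        dvd_evalEval_sub _ hx hqa
      obtain ⟨d, hd⟩ := hder
      obtain ⟨e, he⟩ := hf
      have hM2 : ∃ l, q ^ (2 * M) = q ^ (M + 1) * l := by
        obtain ⟨l, hl⟩ := pow_dvd_pow q (show M + 1 ≤ 2 * M by omega)
        exact ⟨l, hl⟩
      obtain ⟨l, hl⟩ := hM2
      -- f(x,a) = q^(M+1) e - f_y(x,a) q^M z - k q^(2M) z^2
      have h3 : f.evalEval x a =
          q ^ (M + 1) * e - (derivative f).evalEval x a * (q ^ M * z) - k * (q ^ M * z) ^ 2 := by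
        rw [← he, hk]; ring
      have h4 : (derivative f).evalEval x a = (derivative f).evalEval x0 y0 + q * d := by
        rw [← hd]; ring
      refine ⟨u' * e - u' * d * z - u' * k * z ^ 2 * l + b * z, ?_⟩
      have h5 : y - (a - u' * f.evalEval x a) = q ^ M * z + u' * f.evalEval x a := by
        rw [← hy']; ring
      rw [h5, h3, h4]
      have h6 : (q ^ M * z) ^ 2 = q ^ (M + 1) * l * z ^ 2 := by
        rw [← hl]; ring
      rw [h6]
      have h7 : q ^ M * z = (u' * (derivative f).evalEval x0 y0 + b * q) * (q ^ M * z) := by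
        rw [hub, one_mul]
      linear_combination h7

/-- cluster lemma, affine form: the rows `i ∈ S` of `A` are, up to factors `c i` and modulo
`q ^ M0`, the values of the polynomials `g j` at integer points `(x i, y i)` of the plane curve
`f = 0` (modulo `q ^ M0`), all congruent modulo `q` to one point at which `∂f/∂y` is a unit
modulo `q` -/
theorem dvd_det_curve {ι : Type*} [Fintype ι] [DecidableEq ι] (q : ℤ) (S : Finset ι)
    (A : Matrix ι ι ℤ) (M0 : ℕ) (hM : S.card.choose 2 ≤ M0)
    (f : ℤ[X][X]) (x0 y0 : ℤ) (hu : IsCoprime ((derivative f).evalEval x0 y0) q)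
    (g : ι → ℤ[X][X]) (c x y : ι → ℤ)
    (hx : ∀ i ∈ S, q ∣ x i - x0) (hy : ∀ i ∈ S, q ∣ y i - y0)
    (hf : ∀ i ∈ S, q ^ M0 ∣ f.evalEval (x i) (y i))
    (hA : ∀ i ∈ S, ∀ j, q ^ M0 ∣ A i j - c i * (g j).evalEval (x i) (y i)) :
    q ^ (S.card.choose 2) ∣ A.det := by
  classical
  obtain ⟨B, hB⟩ := hensel_poly q f x0 y0 hu M0
  -- one variable polynomials
  set G : ι → ℤ[X] := fun j => ((g j).map (compRingHom (X + C x0))).eval B with hG
  have hGe : ∀ j s, (G j).eval s = (g j).evalEval (s + x0) (B.eval s) := by
    intro j s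
    simp only [hG]
    rw [Polynomial.eval_map, ← Polynomial.coe_evalRingHom, Polynomial.hom_eval₂]
    have h2 : (evalRingHom s).comp (compRingHom (X + C x0)) = evalRingHom (s + x0) := by
      ext <;> simp
    rw [h2, ← Polynomial.eval₂_evalRingHom, Polynomial.coe_evalRingHom]
  set K : ℕ := (Finset.univ.sup fun j => (G j).natDegree) + 1 with hK
  choose! t ht using fun i (hi : i ∈ S) => hx i hi
  refine dvd_det_of_rows q S A K M0 (fun k j => (G j).coeff k) c t hM fun i hi j => ?_
  have h1 : ∑ k ∈ range K, (q * t i) ^ k * (G j).coeff k = (G j).eval (x i - x0) := by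
    rw [← ht i hi, Polynomial.eval_eq_sum_range' (n := K)]
    · exact Finset.sum_congr rfl fun k _ => mul_comm _ _
    · rw [hK]
      exact Nat.lt_succ_of_le (Finset.le_sup (f := fun j => (G j).natDegree) (Finset.mem_univ j))
  rw [h1, hGe, sub_add_cancel]
  have h2 : q ^ M0 ∣ y i - B.eval (x i - x0) := hB _ _ (hx i hi) (hy i hi) (hf i hi)
  have h3 : q ^ M0 ∣ (g j).evalEval (x i) (y i) - (g j).evalEval (x i) (B.eval (x i - x0)) :=
    h2.trans (evalEval_sub_dvd_right _ _ _ _)
  have h4 := dvd_add (hA i hi j) (Dvd.dvd.mul_left h3 (c i))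
  have h5 : A i j - c i * (g j).evalEval (x i) (y i) + c i *
      ((g j).evalEval (x i) (y i) - (g j).evalEval (x i) (B.eval (x i - x0))) =
      A i j - c i * (g j).evalEval (x i) (B.eval (x i - x0)) := by ring
  rwa [h5] at h4

/-- several clusters with pairwise coprime moduli -/
theorem prod_dvd_of_clusters {κ : Type*} (T : Finset κ) (q : κ → ℤ) (e : κ → ℕ) (d : ℤ)
    (hc : (T : Set κ).Pairwise fun k l => IsCoprime (q k) (q l))
    (h : ∀ k ∈ T, q k ^ e k ∣ d) : ∏ k ∈ T, q k ^ e k ∣ d :=
  Finset.prod_dvd_of_coprime (fun _ hk _ hl hkl => (hc hk hl hkl).pow) h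

end Pool.Agent.Lib.SQF
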