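import Mathlib
import Pool.Agent.Lib.SQF.QAdic
import Pool.Agent.Lib.SQF.Prm

/-!
# SQF: the q-adic lemma on beta-slices (v0, 8.5)

Helper file for MP_8842b2_nt (helper80).  Solutions `α_i² (u_i f₁ + v_i f₂) = c₀ (n_i - z)` in a ring
`A` with a `ℤ`-basis, congruent modulo `q` to each other (up to scaling), on a curve `G(u/v, n) = 0`
which is smooth in the `n`-direction modulo `q`: the rows with bihomogeneous entries in
`(u,v ; α)` are, up to units, values of polynomials at `T_i = u_i / v_i` modulo every power of `q`.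
-/

namespace Pool.Agent.Lib.SQF

open Polynomial Finset

/-- rows which are values of integer polynomials in one variable at points divisible by `q` -/
theorem dvd_det_of_poly {ι : Type*} [Fintype ι] [DecidableEq ι] (q : ℤ) (S : Finset ι)
    (A : Matrix ι ι ℤ) (M0 : ℕ) (hM : S.card.choose 2 ≤ M0) (G : ι → ℤ[X]) (c t : ι → ℤ)
    (h : ∀ i ∈ S, ∀ j, q ^ M0 ∣ A i j - c i * (G j).eval (q * t i)) :
    q ^ (S.card.choose 2) ∣ A.det := by
  classical
  obtain ⟨K, hK⟩ : ∃ K, ∀ j, (G j).natDegree < K :=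
    ⟨(Finset.univ.sup fun j => (G j).natDegree) + 1, fun j =>
      Nat.lt_succ_of_le (Finset.le_sup (f := fun j => (G j).natDegree) (Finset.mem_univ j))⟩
  refine dvd_det_of_rows q S A K M0 (fun k j => (G j).coeff k) c t hM ?_
  intro i hi j
  have h1 := h i hi j
  rw [Polynomial.eval_eq_sum_range' (hK j)] at h1
  have h2 : ∑ k ∈ range K, (q * t i) ^ k * (G j).coeff k =
      ∑ k ∈ range K, (G j).coeff k * (q * t i) ^ k :=
    Finset.sum_congr rfl fun k _ => mul_comm _ _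
  rw [h2]
  exact h1

section

variable {A : Type*} [CommRing A]

theorem comp_poly {d : ℕ} (b : Module.Basis (Fin d) ℤ A) (Ψ : A[X]) (k : Fin d) :
    ∃ P : ℤ[X], ∀ x : ℤ, b.repr (Ψ.eval (x : A)) k = P.eval x := by
  refine ⟨∑ e ∈ range (Ψ.natDegree + 1), C (b.repr (Ψ.coeff e) k) * X ^ e, fun x => ?_⟩
  rw [Polynomial.eval_eq_sum_range, map_sum, Finsupp.finsetSum_apply, Polynomial.eval_finsetSum]
  refine Finset.sum_congr rfl ?_
  intro e _
  have h1 : Ψ.coeff e * (x : A) ^ e = (x ^ e : ℤ) • Ψ.coeff e := by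
    rw [zsmul_eq_mul]
    push_cast
    ring
  rw [h1, map_zsmul]
  simp
  ring

theorem dvd_repr {d : ℕ} (b : Module.Basis (Fin d) ℤ A) {m : ℤ} {x y : A} (h : (m : A) ∣ x - y)
    (k : Fin d) : m ∣ b.repr x k - b.repr y k := by
  obtain ⟨w, hw⟩ := h
  refine ⟨b.repr w k, ?_⟩
  have h1 : x = y + (m : ℤ) • w := by
    rw [zsmul_eq_mul]
    linear_combination hw
  rw [h1, map_add, map_zsmul]
  simp

/-- Newton iteration for `a² B(x) = D(x)` around a root which is simple modulo `q`. -/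
theorem hensel_sqrt (q : ℤ) (B D : A[X]) (a₀ U : A)
    (hU : (q : A) ∣ U * (2 * a₀ * B.eval 0) - 1) (M : ℕ) :
    ∃ Ψ : A[X], ∀ (x : ℤ) (a : A), q ∣ x → (q : A) ∣ a - a₀ →
      (q : A) ^ M ∣ a ^ 2 * B.eval (x : A) - D.eval (x : A) → (q : A) ^ M ∣ a - Ψ.eval (x : A) := by
  induction' M with M ih
  · exact ⟨0, fun x a _ _ _ => by simp⟩
  · rcases Nat.eq_zero_or_pos M with h0 | hM
    · subst h0
      exact ⟨C a₀, fun x a _ ha _ => by simpa using ha⟩
    · obtain ⟨Ψ, hΨ⟩ := ih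
      refine ⟨Ψ + C U * (D - Ψ ^ 2 * B), fun x a hx ha hrel => ?_⟩
      have hs := hΨ x a hx ha ((pow_dvd_pow _ (Nat.le_succ M)).trans hrel)
      have hxA : (q : A) ∣ (x : A) := by
        obtain ⟨y, rfl⟩ := hx
        exact ⟨(y : A), by push_cast; ring⟩
      have hq1 : (q : A) ∣ (q : A) ^ M := dvd_pow_self _ (by omega)
      have hΨ0 : (q : A) ∣ Ψ.eval (x : A) - a₀ := by
        have := dvd_sub ha (hq1.trans hs)
        have e : a - a₀ - (a - Ψ.eval (x : A)) = Ψ.eval (x : A) - a₀ := by ring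
        rwa [e] at this
      have hB0 : (q : A) ∣ B.eval (x : A) - B.eval 0 := by
        have := Polynomial.sub_dvd_eval_sub (x : A) 0 B
        rw [sub_zero] at this
        exact hxA.trans this
      obtain ⟨z, hz⟩ := hs
      obtain ⟨w, hw⟩ := hrel
      obtain ⟨p, hp⟩ := hΨ0
      obtain ⟨r, hr⟩ := hB0
      obtain ⟨y, hy⟩ := hU
      rw [eval_add, eval_mul, eval_C, eval_sub, eval_mul, eval_pow]
      set P := Ψ.eval (x : A) with hP
      set b := B.eval (x : A) with hb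
      set b0 := B.eval 0 with hb0
      set Dx := D.eval (x : A) with hDx
      have ea : a = P + (q : A) ^ M * z := by linear_combination hz
      have eP : P = a₀ + q * p := by linear_combination hp
      have eb : b = b0 + q * r := by linear_combination hr
      obtain ⟨M', rfl⟩ : ∃ M', M = M' + 1 := ⟨M - 1, by omega⟩
      -- a - P - U (D - P² b) = q^M z - U (D - P² b)
      refine ⟨-(z * y) + U * (w - z ^ 2 * b * (q : A) ^ M' - z * (2 * p * b + 2 * a₀ * r)), ?_⟩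
      have e1 : a ^ 2 * b - Dx = (q : A) ^ (M' + 1 + 1) * w := hw
      have e2 : Dx - P ^ 2 * b = 2 * P * b * ((q : A) ^ (M' + 1) * z) +
          ((q : A) ^ (M' + 1) * z) ^ 2 * b - (q : A) ^ (M' + 1 + 1) * w := by
        rw [← e1, ea]
        ring
      rw [e2]
      have e3 : a - (P + U * (2 * P * b * ((q : A) ^ (M' + 1) * z) +
          ((q : A) ^ (M' + 1) * z) ^ 2 * b - (q : A) ^ (M' + 1 + 1) * w)) =
          (q : A) ^ (M' + 1) * (z - U * (2 * P * b * z) - U * (q : A) ^ (M' + 1) * z ^ 2 * b +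
            U * q * w) := by
        rw [ea]
        ring
      rw [e3]
      have e4 : 2 * P * b = 2 * a₀ * b0 + q * (2 * p * b + 2 * a₀ * r) := by
        rw [eP, eb]
        ring
      rw [e4]
      have e5 : U * (2 * a₀ * b0) = 1 + q * y := by linear_combination hy
      linear_combination (-(q : A) ^ (M' + 1) * z) * e5

end

/-- Newton iteration for `v₀ w² = v` in the integers. -/
theorem hensel_w (q v₀ w₀ U : ℤ) (hU : q ∣ U * (2 * v₀ * w₀) - 1) (v : ℤ)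
    (h0 : q ∣ v₀ * w₀ ^ 2 - v) (M : ℕ) : ∃ w : ℤ, q ∣ w - w₀ ∧ q ^ M ∣ v₀ * w ^ 2 - v := by
  induction' M with M ih
  · exact ⟨w₀, by simp, by simp⟩
  · rcases Nat.eq_zero_or_pos M with h | hM
    · subst h
      exact ⟨w₀, by simp, by simpa using h0⟩
    · obtain ⟨w, hw, hwM⟩ := ih
      obtain ⟨M', rfl⟩ : ∃ M', M = M' + 1 := ⟨M - 1, by omega⟩
      obtain ⟨y, hy⟩ := hU
      obtain ⟨r, hr⟩ := hw
      obtain ⟨z, hz⟩ := hwM
      refine ⟨w - U * (v₀ * w ^ 2 - v), ⟨r - U * (q ^ M' * z), ?_⟩,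
        ⟨z * (-(y + 2 * v₀ * U * r)) + v₀ * U ^ 2 * q ^ M' * z ^ 2, ?_⟩⟩
      · rw [hz]
        linear_combination hr
      · have ew : w = w₀ + q * r := by linear_combination hr
        have e5 : U * (2 * v₀ * w₀) = 1 + q * y := by linear_combination hy
        have e6 : v₀ * (w - U * (v₀ * w ^ 2 - v)) ^ 2 - v =
            (v₀ * w ^ 2 - v) * (1 - 2 * v₀ * w * U) + v₀ * U ^ 2 * (v₀ * w ^ 2 - v) ^ 2 := by
          ring
        rw [e6, hz]
        have e7 : 2 * v₀ * w * U = 1 + q * (y + 2 * v₀ * U * r) := by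
          rw [ew]
          linear_combination e5
        rw [e7]
        ring

section

variable {A : Type*} [CommRing A]

/-- **The q-adic lemma on beta-slices, abstract form.** -/
theorem qet_abstract {d : ℕ} (b : Module.Basis (Fin d) ℤ A) {ι : Type*} [Fintype ι]
    [DecidableEq ι] (q : ℤ) (hq : Prime q) (h2 : ¬ q ∣ 2)
    (hprim : ∀ m : ℤ, (q : A) ∣ (m : A) → q ∣ m) (S : Finset ι) (Mx : Matrix ι ι ℤ)
    (f₁ f₂ z : A) (c₀ : ℤ) (G : ℤ[X][X]) (u v n : ι → ℤ) (al : ι → A)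
    (hrel : ∀ i ∈ S, al i ^ 2 * (u i * f₁ + v i * f₂) = c₀ * (n i - z))
    (hv : ∀ i ∈ S, ¬ q ∣ v i)
    (hG : ∀ i ∈ S, ∀ (M : ℕ) (T : ℤ), q ^ M ∣ v i * T - u i → q ^ M ∣ G.evalEval T (n i))
    (hGn : ∀ i ∈ S, ∀ T : ℤ, q ∣ v i * T - u i → ¬ q ∣ (derivative G).evalEval T (n i))
    (hu : ∀ i ∈ S, ∀ j ∈ S, q ∣ u i * v j - u j * v i)
    (hn : ∀ i ∈ S, ∀ j ∈ S, q ∣ n i - n j)
    (ha : ∀ i ∈ S, ∀ j ∈ S, ∃ k : ℤ, (q : A) ∣ al i - k * al j)
    (hunit : ∀ i ∈ S, ∃ (y : A) (N : ℤ), ¬ q ∣ N ∧ al i * y = N)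
    (hunit' : ∀ i ∈ S, ∃ (y : A) (N : ℤ), ¬ q ∣ N ∧ (u i * f₁ + v i * f₂) * y = N)
    (s r : ℕ) (P : ι → Finset (ℕ × (Fin d → ℕ))) (κ : ι → ℕ × (Fin d → ℕ) → ℤ)
    (hP : ∀ j, ∀ p ∈ P j, p.1 ≤ s ∧ ∑ k, p.2 k = r)
    (hM : ∀ i ∈ S, ∀ j, Mx i j = ∑ p ∈ P j, κ j p *
      (u i ^ (s - p.1) * v i ^ p.1 * ∏ k, (b.repr (al i) k) ^ (p.2 k))) :
    q ^ (S.card.choose 2) ∣ Mx.det := by
  classical
  rcases S.eq_empty_or_nonempty with rfl | ⟨i0, hi0⟩
  · simp
  have hcop : ∀ (m : ℤ), ¬ q ∣ m → ∀ M : ℕ, ∃ m' : ℤ, q ^ M ∣ m * m' - 1 := by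
    intro m hm M
    have h1 : IsCoprime m (q ^ M) := ((hq.coprime_iff_not_dvd.2 hm).symm).pow_right
    obtain ⟨x, y, hxy⟩ := h1
    exact ⟨x, ⟨-y, by linear_combination hxy⟩⟩
  set F : ℕ := S.card.choose 2 + 1 with hF
  have hqF : q ∣ q ^ F := dvd_pow_self _ (by omega)
  -- inverses of the `v i`
  have hv' : ∀ i ∈ S, ∃ m' : ℤ, q ^ F ∣ v i * m' - 1 := fun i hi => hcop _ (hv i hi) F
  choose! v' hv' using hv'
  set T : ι → ℤ := fun i => u i * v' i with hT
  have hvT : ∀ i ∈ S, q ^ F ∣ v i * T i - u i := by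
    intro i hi
    have e : v i * T i - u i = (v i * v' i - 1) * u i := by simp only [hT]; ring
    rw [e]
    exact (hv' i hi).mul_right _
  have hTq : ∀ i ∈ S, q ∣ T i - T i0 := by
    intro i hi
    have h3 : q ∣ (v i * v i0) * (T i - T i0) := by
      have e : (v i * v i0) * (T i - T i0) = (v i * T i - u i) * v i0 -
          (v i0 * T i0 - u i0) * v i + (u i * v i0 - u i0 * v i) := by ring
      rw [e]
      exact dvd_add (dvd_sub ((hqF.trans (hvT i hi)).mul_right _)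
        ((hqF.trans (hvT i0 hi0)).mul_right _)) (hu i hi i0 hi0)
    rcases hq.dvd_or_dvd h3 with h4 | h4
    · rcases hq.dvd_or_dvd h4 with h5 | h5
      · exact absurd h5 (hv i hi)
      · exact absurd h5 (hv i0 hi0)
    · exact h4
  -- the coordinate `n`
  have hGn0 : IsCoprime ((derivative G).evalEval (T i0) (n i0)) q :=
    (hq.coprime_iff_not_dvd.2 (hGn i0 hi0 (T i0) (hqF.trans (hvT i0 hi0)))).symm
  obtain ⟨φ, hφ⟩ := hensel_poly q G (T i0) (n i0) hGn0 F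
  have hnφ : ∀ i ∈ S, q ^ F ∣ n i - φ.eval (T i - T i0) := fun i hi =>
    hφ (T i) (n i) (hTq i hi) (hn i hi i0 hi0) (hG i hi F (T i) (hvT i hi))
  -- units
  obtain ⟨yα, Nα, hNα, hyα⟩ := hunit i0 hi0
  obtain ⟨yβ, Nβ, hNβ, hyβ⟩ := hunit' i0 hi0
  have cz : ∀ {m y : ℤ}, m ∣ y → (m : A) ∣ (y : A) := by
    intro m y h
    obtain ⟨w, rfl⟩ := h
    exact ⟨(w : A), by push_cast; ring⟩
  -- the scaling factors
  have hw : ∀ i ∈ S, ∃ w : ℤ, ¬ q ∣ w ∧ (q : A) ∣ w * al i - al i0 ∧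
      q ^ F ∣ v i0 * w ^ 2 - v i := by
    intro i hi
    obtain ⟨k, hk⟩ := ha i hi i0 hi0
    have hkq : ¬ q ∣ k := by
      intro h
      obtain ⟨y, N, hN, hy⟩ := hunit i hi
      apply hN
      apply hprim
      rw [← hy]
      have h3 : (q : A) ∣ al i := by
        have h4 : (q : A) ∣ (k : A) * al i0 := (cz h).mul_right _
        have := dvd_add hk h4
        rwa [sub_add_cancel] at this
      exact h3.mul_right _
    obtain ⟨w₀, hw₀⟩ := hcop k hkq 1
    rw [pow_one] at hw₀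
    have hw₀q : ¬ q ∣ w₀ := by
      intro h
      have h3 : q ∣ 1 := by
        have h4 : q ∣ k * w₀ := h.mul_left _
        have := dvd_sub h4 hw₀
        simpa using this
      exact hq.not_isUnit (isUnit_of_dvd_one h3)
    have hα : (q : A) ∣ w₀ * al i - al i0 := by
      have e : (w₀ : A) * al i - al i0 = w₀ * (al i - k * al i0) + ((k * w₀ - 1 : ℤ) : A) * al i0 := by
        push_cast
        ring
      rw [e]
      exact dvd_add (hk.mul_left _) ((cz hw₀).mul_right _)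
    have h0 : q ∣ v i0 * w₀ ^ 2 - v i := by
      have h3 : (q : A) ∣ (((v i0 * w₀ ^ 2 - v i) * (Nα ^ 2 * Nβ) : ℤ) : A) := by
        obtain ⟨e1, he1⟩ := hα
        obtain ⟨e2, he2⟩ := hn i hi i0 hi0
        obtain ⟨e3, he3⟩ := hu i hi i0 hi0
        have r1 := hrel i hi
        have r0 := hrel i0 hi0
        have he2' : (n i : A) - n i0 = q * e2 := by exact_mod_cast congrArg (Int.cast : ℤ → A) he2
        have he3' : (u i : A) * v i0 - u i0 * v i = q * e3 := by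
          exact_mod_cast congrArg (Int.cast : ℤ → A) he3
        refine ⟨(-(v i0 * w₀ ^ 2 * c₀ * e2) + w₀ ^ 2 * al i ^ 2 * e3 * f₁ +
          v i * (u i0 * f₁ + v i0 * f₂) * e1 * (al i0 + w₀ * al i)) * (yα ^ 2 * yβ), ?_⟩
        have e4 : (((v i0 * w₀ ^ 2 - v i) * (Nα ^ 2 * Nβ) : ℤ) : A) =
            ((v i0 * w₀ ^ 2 - v i) * al i0 ^ 2 * (u i0 * f₁ + v i0 * f₂)) * (yα ^ 2 * yβ) := by
          push_cast
          rw [← hyα, ← hyβ]
          ring
        have e5 : ((v i0 : A) * w₀ ^ 2 - v i) * al i0 ^ 2 * (u i0 * f₁ + v i0 * f₂) =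
            q * (-(v i0 * w₀ ^ 2 * c₀ * e2) + w₀ ^ 2 * al i ^ 2 * e3 * f₁ +
              v i * (u i0 * f₁ + v i0 * f₂) * e1 * (al i0 + w₀ * al i)) := by
          linear_combination (v i0 * w₀ ^ 2 : A) * r0 - (v i0 * w₀ ^ 2 : A) * r1 +
            (v i * (u i0 * f₁ + v i0 * f₂) * (al i0 + w₀ * al i) : A) * he1 -
            (v i0 * w₀ ^ 2 * c₀ : A) * he2' + (w₀ ^ 2 * al i ^ 2 * f₁ : A) * he3'
        rw [e4, e5]
        ring
      have h4 := hprim _ h3
      rcases hq.dvd_or_dvd h4 with h5 | h5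
      · exact h5
      · rcases hq.dvd_or_dvd h5 with h6 | h6
        · exact absurd (hq.dvd_of_dvd_pow h6) hNα
        · exact absurd h6 hNβ
    have hU : ∃ U : ℤ, q ∣ U * (2 * v i0 * w₀) - 1 := by
      have h3 : ¬ q ∣ 2 * v i0 * w₀ := by
        intro h
        rcases hq.dvd_or_dvd h with h4 | h4
        · rcases hq.dvd_or_dvd h4 with h5 | h5
          · exact h2 h5
          · exact hv i0 hi0 h5
        · exact hw₀q h4
      obtain ⟨U, hU⟩ := hcop _ h3 1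
      exact ⟨U, by rw [mul_comm U]; simpa using hU⟩
    obtain ⟨U, hU⟩ := hU
    obtain ⟨w, hw1, hw2⟩ := hensel_w q (v i0) w₀ U hU (v i) h0 F
    refine ⟨w, ?_, ?_, hw2⟩
    · intro h
      exact hw₀q (by simpa using dvd_sub h hw1)
    · have e : (w : A) * al i - al i0 = ((w - w₀ : ℤ) : A) * al i + (w₀ * al i - al i0) := by
        push_cast
        ring
      rw [e]
      exact dvd_add ((cz hw1).mul_right _) hα
  choose! w hwq hwα hwv using hw
  -- Newton polynomial for `w i * al i`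
  set B : A[X] := C ((v i0 : A) * (T i0 * f₁ + f₂)) + C ((v i0 : A) * f₁) * X with hB
  set D : A[X] := C (c₀ : A) * (φ.map (Int.castRingHom A) - C z) with hD
  have hBe : ∀ x : A, B.eval x = v i0 * ((T i0 + x) * f₁ + f₂) := by
    intro x
    rw [hB]
    simp
    ring
  have hDe : ∀ x : ℤ, D.eval (x : A) = c₀ * ((φ.eval x : ℤ) - z) := by
    intro x
    rw [hD, eval_mul, eval_C, eval_sub, eval_C, Polynomial.eval_intCast_map]
    simp
  have hUA : ∃ U : A, (q : A) ∣ U * (2 * al i0 * B.eval 0) - 1 := by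
    have h3 : ¬ q ∣ 2 * Nα * Nβ := by
      intro h
      rcases hq.dvd_or_dvd h with h4 | h4
      · rcases hq.dvd_or_dvd h4 with h5 | h5
        · exact h2 h5
        · exact hNα h5
      · exact hNβ h4
    obtain ⟨m', hm'⟩ := hcop _ h3 1
    rw [pow_one] at hm'
    obtain ⟨e1, he1⟩ := hqF.trans (hvT i0 hi0)
    have he1' : (v i0 : A) * T i0 - u i0 = q * e1 := by
      exact_mod_cast congrArg (Int.cast : ℤ → A) he1
    obtain ⟨e2, he2⟩ := hm'
    have he2' : (2 * Nα * Nβ : A) * m' - 1 = q * e2 := by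
      exact_mod_cast congrArg (Int.cast : ℤ → A) he2
    refine ⟨m' * yα * yβ, ⟨e2 + 2 * m' * yβ * Nα * e1 * f₁, ?_⟩⟩
    rw [hBe 0]
    have e3 : (m' * yα * yβ) * (2 * al i0 * (v i0 * ((T i0 + 0) * f₁ + f₂))) - 1 =
        2 * m' * (al i0 * yα) * yβ * ((u i0 * f₁ + v i0 * f₂) + q * e1 * f₁) - 1 := by
      linear_combination (2 * m' * (al i0 * yα) * yβ * f₁) * he1'
    rw [e3, hyα]
    linear_combination (2 * m' * Nα : A) * hyβ + he2'
  obtain ⟨UA, hUA⟩ := hUA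
  obtain ⟨Ψ, hΨ⟩ := hensel_sqrt q B D (al i0) UA hUA F
  have hat : ∀ i ∈ S, (q : A) ^ F ∣ w i * al i - Ψ.eval ((T i - T i0 : ℤ) : A) := by
    intro i hi
    refine hΨ (T i - T i0) (w i * al i) (hTq i hi) (hwα i hi) ?_
    rw [hBe, hDe]
    obtain ⟨g1, hg1⟩ := hwv i hi
    obtain ⟨g2, hg2⟩ := hvT i hi
    obtain ⟨g3, hg3⟩ := hnφ i hi
    have hg1' : (v i0 : A) * w i ^ 2 - v i = q ^ F * g1 := by
      exact_mod_cast congrArg (Int.cast : ℤ → A) hg1
    have hg2' : (v i : A) * T i - u i = q ^ F * g2 := by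
      exact_mod_cast congrArg (Int.cast : ℤ → A) hg2
    have hg3' : (n i : A) - (φ.eval (T i - T i0) : ℤ) = q ^ F * g3 := by
      exact_mod_cast congrArg (Int.cast : ℤ → A) hg3
    refine ⟨g1 * al i ^ 2 * (T i * f₁ + f₂) + g2 * al i ^ 2 * f₁ + c₀ * g3, ?_⟩
    push_cast
    linear_combination (al i ^ 2 * (T i * f₁ + f₂)) * hg1' + (al i ^ 2 * f₁) * hg2' +
      (c₀ : A) * hg3' + hrel i hi
  -- components
  choose Ψk hΨk using comp_poly b Ψ
  have hw' : ∀ i ∈ S, ∃ m' : ℤ, q ^ F ∣ w i * m' - 1 := fun i hi => hcop _ (hwq i hi) F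
  choose! w' hw' using hw'
  have hcomp : ∀ i ∈ S, ∀ k, b.repr (al i) k ≡ w' i * (Ψk k).eval (T i - T i0) [ZMOD q ^ F] := by
    intro i hi k
    have h3 : ((q ^ F : ℤ) : A) ∣ w i * al i - Ψ.eval ((T i - T i0 : ℤ) : A) := by
      rw [Int.cast_pow]
      exact hat i hi
    have h4 := dvd_repr b h3 k
    rw [hΨk] at h4
    have h5 : b.repr ((w i : A) * al i) k = w i * b.repr (al i) k := by
      rw [← zsmul_eq_mul, map_zsmul]
      simp
    rw [h5] at h4
    refine (Int.modEq_iff_dvd.2 ?_).symm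
    have e : b.repr (al i) k - w' i * (Ψk k).eval (T i - T i0) =
        w' i * (w i * b.repr (al i) k - (Ψk k).eval (T i - T i0)) -
          (w i * w' i - 1) * b.repr (al i) k := by ring
    rw [e]
    exact dvd_sub (h4.mul_left _) ((hw' i hi).mul_right _)
  have hucong : ∀ i ∈ S, u i ≡ v i * T i [ZMOD q ^ F] := fun i hi =>
    Int.modEq_iff_dvd.2 (hvT i hi)
  choose! t ht using fun i (hi : i ∈ S) => hTq i hi
  refine dvd_det_of_poly q S Mx F (by omega)
    (fun j => ∑ p ∈ P j, C (κ j p) * ((C (T i0) + X) ^ (s - p.1) * ∏ k, Ψk k ^ (p.2 k)))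
    (fun i => v i ^ s * w' i ^ r) t ?_
  intro i hi j
  refine (Int.modEq_iff_dvd.1 ?_)
  rw [← ht i hi, hM i hi j]
  refine Int.ModEq.symm ?_
  rw [Polynomial.eval_finsetSum, Finset.mul_sum]
  refine Int.ModEq.sum ?_
  intro p hp
  have hp1 := (hP j p hp).1
  have hp2 := (hP j p hp).2
  rw [eval_mul, eval_C, eval_mul, eval_pow, eval_add, eval_C, eval_X, eval_prod]
  simp only [eval_pow]
  have e1 : T i0 + (T i - T i0) = T i := by ring
  rw [e1]
  have e2 : v i ^ s * w' i ^ r * (κ j p * (T i ^ (s - p.1) *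
      ∏ k, (Ψk k).eval (T i - T i0) ^ (p.2 k))) =
      κ j p * ((v i * T i) ^ (s - p.1) * v i ^ p.1 *
        ∏ k, (w' i * (Ψk k).eval (T i - T i0)) ^ (p.2 k)) := by
    have e3 : ∏ k, (w' i * (Ψk k).eval (T i - T i0)) ^ (p.2 k) =
        w' i ^ r * ∏ k, (Ψk k).eval (T i - T i0) ^ (p.2 k) := by
      simp only [mul_pow]
      rw [Finset.prod_mul_distrib, Finset.prod_pow_eq_pow_sum, hp2]
    have e4 : v i ^ s = v i ^ (s - p.1) * v i ^ p.1 := by
      rw [← pow_add, Nat.sub_add_cancel hp1]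
    rw [e3, mul_pow, e4]
    ring
  rw [e2]
  refine Int.ModEq.mul_left _ (Int.ModEq.mul (Int.ModEq.mul_right _ ((hucong i hi).pow _)) ?_)
  exact Int.ModEq.prod fun k _ => (hcomp i hi k).pow _

end

/-- the element `∑ a_j root^j` of `ℤ[X]/(g)` -/
noncomputable def elA (g : ℤ[X]) {d : ℕ} (a : Fin d → ℤ) : AdjoinRoot g :=
  ∑ j, (a j : AdjoinRoot g) * AdjoinRoot.root g ^ (j : ℕ)

/-- the basis `1, root, ...` of `ℤ[X]/(g)` -/
noncomputable def basisA (g : ℤ[X]) (hg : g.Monic) {d : ℕ} (hd : g.natDegree = d) :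
    Module.Basis (Fin d) ℤ (AdjoinRoot g) :=
  (AdjoinRoot.powerBasis' hg).basis.reindex
    (finCongr ((AdjoinRoot.powerBasis'_dim hg).trans hd))

theorem basisA_apply (g : ℤ[X]) (hg : g.Monic) {d : ℕ} (hd : g.natDegree = d) (j : Fin d) :
    basisA g hg hd j = AdjoinRoot.root g ^ (j : ℕ) := by
  rw [basisA, Module.Basis.reindex_apply, PowerBasis.basis_eq_pow]
  rfl

theorem elA_eq (g : ℤ[X]) (hg : g.Monic) {d : ℕ} (hd : g.natDegree = d) (a : Fin d → ℤ) :
    elA g a = ∑ j, a j • basisA g hg hd j := by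
  rw [elA]
  refine Finset.sum_congr rfl fun j _ => ?_
  rw [basisA_apply, zsmul_eq_mul]

theorem repr_elA (g : ℤ[X]) (hg : g.Monic) {d : ℕ} (hd : g.natDegree = d) (a : Fin d → ℤ)
    (j : Fin d) : (basisA g hg hd).repr (elA g a) j = a j := by
  rw [elA_eq g hg hd, Module.Basis.repr_sum_self]

theorem elA_surj (g : ℤ[X]) (hg : g.Monic) {d : ℕ} (hd : g.natDegree = d) (x : AdjoinRoot g) :
    elA g (fun j => (basisA g hg hd).repr x j) = x := by
  rw [elA_eq g hg hd, Module.Basis.sum_repr]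

/-- evaluation at a complex root -/
noncomputable def evA (g : ℤ[X]) (z : ℂ) (hz : aeval z g = 0) : AdjoinRoot g →+* ℂ :=
  AdjoinRoot.lift (Int.castRingHom ℂ) z (by rwa [aeval_def, algebraMap_int_eq] at hz)

theorem evA_elA (g : ℤ[X]) (z : ℂ) (hz : aeval z g = 0) {d : ℕ} (a : Fin d → ℤ) :
    evA g z hz (elA g a) = ∑ j, (a j : ℂ) * z ^ (j : ℕ) := by
  rw [elA, map_sum]
  refine Finset.sum_congr rfl fun j _ => ?_
  rw [map_mul, map_intCast, map_pow, evA, AdjoinRoot.lift_root]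

theorem evA_root (g : ℤ[X]) (z : ℂ) (hz : aeval z g = 0) :
    evA g z hz (AdjoinRoot.root g) = z := by
  rw [evA, AdjoinRoot.lift_root]

theorem eq_zero_of_evA (g : ℤ[X]) (hg : g.Monic) {d : ℕ} (hd : g.natDegree = d) (ζ : Fin d → ℂ)
    (hζ : Function.Injective ζ) (hroot : ∀ σ, aeval (ζ σ) g = 0) (x : AdjoinRoot g)
    (hx : ∀ σ, evA g (ζ σ) (hroot σ) x = 0) : x = 0 := by
  set a : Fin d → ℤ := fun j => (basisA g hg hd).repr x j with ha
  have hxa : elA g a = x := elA_surj g hg hd x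
  have h1 : ∀ σ, ∑ j, (a j : ℂ) * ζ σ ^ (j : ℕ) = 0 := by
    intro σ
    rw [← evA_elA g (ζ σ) (hroot σ), hxa, hx σ]
  have h2 : (fun j => (a j : ℂ)) = 0 :=
    Matrix.eq_zero_of_forall_index_sum_mul_pow_eq_zero hζ h1
  have h3 : a = 0 := by
    funext j
    have := congrFun h2 j
    simpa using this
  rw [← hxa, h3]
  simp [elA]

/-- the norm: `x * y = N` with `N` the product of the conjugates -/
theorem exists_norm_mul (g : ℤ[X]) (hg : g.Monic) {d : ℕ} (hd : g.natDegree = d) (hd0 : 0 < d)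
    (ζ : Fin d → ℂ) (hζ : Function.Injective ζ) (hroot : ∀ σ, aeval (ζ σ) g = 0)
    (x : AdjoinRoot g) : ∃ (y : AdjoinRoot g) (N : ℤ), x * y = N ∧
      (N : ℂ) = ∏ σ, evA g (ζ σ) (hroot σ) x := by
  classical
  set b := basisA g hg hd with hb
  set M := Algebra.leftMulMatrix b x with hM
  have hcol : ∀ j, x * b j = ∑ k, M k j • b k := by
    intro j
    rw [← b.sum_repr (x * b j)]
    refine Finset.sum_congr rfl fun k _ => ?_
    rw [hM, Algebra.leftMulMatrix_eq_repr_mul]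
  refine ⟨∑ k, M.adjugate k ⟨0, hd0⟩ • b k, M.det, ?_, ?_⟩
  · have h1 : b.repr (x * ∑ k, M.adjugate k ⟨0, hd0⟩ • b k) =
        b.repr ((M.det : ℤ) • b ⟨0, hd0⟩) := by
      ext i
      have h2 := congrFun (Algebra.leftMulMatrix_mulVec_repr b x
        (∑ k, M.adjugate k ⟨0, hd0⟩ • b k)) i
      rw [← h2]
      have h3 : (⇑(b.repr (∑ k, M.adjugate k ⟨0, hd0⟩ • b k))) =
          fun k => M.adjugate k ⟨0, hd0⟩ := by
        funext k
        rw [Module.Basis.repr_sum_self]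
      rw [h3]
      have h4 : (Algebra.leftMulMatrix b x).mulVec (fun k => M.adjugate k ⟨0, hd0⟩) i =
          (M * M.adjugate) i ⟨0, hd0⟩ := by
        rw [Matrix.mul_apply]
        rfl
      rw [h4, Matrix.mul_adjugate, Matrix.smul_apply, map_zsmul, Finsupp.smul_apply,
        Module.Basis.repr_self, Matrix.one_apply, Finsupp.single_apply]
      simp only [eq_comm]
    have h5 := b.repr.injective h1
    rw [h5, hb, basisA_apply, pow_zero, zsmul_eq_mul, mul_one]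
  · set W : Matrix (Fin d) (Fin d) ℂ := Matrix.vandermonde ζ with hW
    have hWdet : W.det ≠ 0 := Matrix.det_vandermonde_ne_zero_iff.2 hζ
    have hWM : W * M.map (Int.castRingHom ℂ) =
        Matrix.diagonal (fun σ => evA g (ζ σ) (hroot σ) x) * W := by
      ext σ j
      rw [Matrix.mul_apply, Matrix.diagonal_mul]
      have h1 := congrArg (evA g (ζ σ) (hroot σ)) (hcol j)
      rw [map_mul, map_sum, hb, basisA_apply, map_pow, evA_root] at h1
      rw [hW, Matrix.vandermonde_apply, h1]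
      refine Finset.sum_congr rfl fun k _ => ?_
      rw [Matrix.vandermonde_apply, Matrix.map_apply, basisA_apply, zsmul_eq_mul, map_mul,
        map_intCast, map_pow, evA_root, eq_intCast, mul_comm]
    have h2 := congrArg Matrix.det hWM
    rw [Matrix.det_mul, Matrix.det_mul, Matrix.det_diagonal, mul_comm] at h2
    have h3 := mul_right_cancel₀ hWdet h2
    rw [← h3, ← RingHom.mapMatrix_apply, ← RingHom.map_det]
    simp

theorem prim_A (g : ℤ[X]) (hg : g.Monic) {d : ℕ} (hd : g.natDegree = d) (hd0 : 0 < d) (q m : ℤ)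
    (h : (q : AdjoinRoot g) ∣ (m : AdjoinRoot g)) : q ∣ m := by
  obtain ⟨w, hw⟩ := h
  have h1 := congrArg (fun x => (basisA g hg hd).repr x ⟨0, hd0⟩) hw
  have h2 : ∀ m : ℤ, (m : AdjoinRoot g) = m • basisA g hg hd ⟨0, hd0⟩ := by
    intro m
    rw [basisA_apply, pow_zero, zsmul_eq_mul, mul_one]
  have h3 : (q : AdjoinRoot g) * w = q • w := by rw [zsmul_eq_mul]
  simp only [h3, h2 m, map_zsmul, Finsupp.smul_apply, Module.Basis.repr_self,
    Finsupp.single_eq_same, smul_eq_mul, mul_one] at h1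
  exact ⟨_, h1⟩

/-- **The q-adic lemma on beta-slices** (v0 8.5), for the conjugates at the complex roots of `g`. -/
theorem qet_roots (g : ℤ[X]) (hg : g.Monic) {d : ℕ} (hd : g.natDegree = d) (hd0 : 0 < d)
    (ζ : Fin d → ℂ) (hζ : Function.Injective ζ) (hroot : ∀ σ, aeval (ζ σ) g = 0)
    (q : ℕ) (hq : q.Prime) (hq2 : q ≠ 2) (e : ℕ) (G : ℤ[X][X])
    (hGe : ∀ i, (G.coeff i).natDegree ≤ e) {ι : Type*} [Fintype ι] [DecidableEq ι]
    (S : Finset ι) (Mx : Matrix ι ι ℤ) (f₁ f₂ : Fin d → ℤ) (c₀ : ℤ) (u v n : ι → ℤ)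
    (al : ι → Fin d → ℤ)
    (hrel : ∀ i ∈ S, ∀ σ, (∑ j, (al i j : ℂ) * ζ σ ^ (j : ℕ)) ^ 2 *
      ((u i : ℂ) * (∑ j, (f₁ j : ℂ) * ζ σ ^ (j : ℕ)) +
        (v i : ℂ) * (∑ j, (f₂ j : ℂ) * ζ σ ^ (j : ℕ))) = c₀ * ((n i : ℂ) - ζ σ))
    (hG : ∀ i ∈ S, hev e G (u i) (v i) (n i) = 0) (x0 y0 : ℤ)
    (hx0 : ∀ i ∈ S, ¬ (q : ℤ) ∣ v i ∧ (q : ℤ) ∣ v i * x0 - u i ∧ (q : ℤ) ∣ n i - y0)
    (hGn : ¬ (q : ℤ) ∣ (derivative G).evalEval x0 y0)
    (hprop : ∀ i ∈ S, ∀ j ∈ S, ∀ k l, (q : ℤ) ∣ al i k * al j l - al i l * al j k)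
    (Nα Nβ : ι → ℤ)
    (hNα : ∀ i ∈ S, (Nα i : ℂ) = ∏ σ, ∑ j, (al i j : ℂ) * ζ σ ^ (j : ℕ))
    (hNβ : ∀ i ∈ S, (Nβ i : ℂ) = ∏ σ, ((u i : ℂ) * (∑ j, (f₁ j : ℂ) * ζ σ ^ (j : ℕ)) +
        (v i : ℂ) * (∑ j, (f₂ j : ℂ) * ζ σ ^ (j : ℕ))))
    (hqα : ∀ i ∈ S, ¬ (q : ℤ) ∣ Nα i) (hqβ : ∀ i ∈ S, ¬ (q : ℤ) ∣ Nβ i)
    (s r : ℕ) (P : ι → Finset (ℕ × (Fin d → ℕ))) (κ : ι → ℕ × (Fin d → ℕ) → ℤ)
    (hP : ∀ j, ∀ p ∈ P j, p.1 ≤ s ∧ ∑ k, p.2 k = r)
    (hM : ∀ i ∈ S, ∀ j, Mx i j = ∑ p ∈ P j, κ j p *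
      (u i ^ (s - p.1) * v i ^ p.1 * ∏ k, al i k ^ (p.2 k))) :
    (q : ℤ) ^ (S.card.choose 2) ∣ Mx.det := by
  classical
  have hqp : Prime (q : ℤ) := Nat.prime_iff_prime_int.1 hq
  have h2 : ¬ (q : ℤ) ∣ 2 := by
    intro h
    have h1 : q ∣ 2 := by exact_mod_cast h
    exact hq2 ((Nat.prime_dvd_prime_iff_eq hq Nat.prime_two).1 h1)
  have hcopv : ∀ i ∈ S, IsCoprime (q : ℤ) (v i) := fun i hi =>
    (hqp.coprime_iff_not_dvd).2 (hx0 i hi).1
  have hNel : ∀ (a : Fin d → ℤ) (N : ℤ), (N : ℂ) = ∏ σ, ∑ j, (a j : ℂ) * ζ σ ^ (j : ℕ) →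
      ∃ y : AdjoinRoot g, elA g a * y = N := by
    intro a N hN
    obtain ⟨y, N', hy, hN'⟩ := exists_norm_mul g hg hd hd0 ζ hζ hroot (elA g a)
    have h1 : (N' : ℂ) = N := by
      rw [hN', hN]
      exact Finset.prod_congr rfl fun σ _ => evA_elA g (ζ σ) (hroot σ) a
    have h3 : N' = N := by exact_mod_cast h1
    exact ⟨y, by rw [hy, h3]⟩
  refine qet_abstract (basisA g hg hd) (q : ℤ) hqp h2
    (fun m h => prim_A g hg hd hd0 q m h) S Mx (elA g f₁) (elA g f₂) (AdjoinRoot.root g) c₀ G u v n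
    (fun i => elA g (al i)) ?_ (fun i hi => (hx0 i hi).1) ?_ ?_ ?_ ?_ ?_ ?_ ?_ s r P κ hP ?_
  · intro i hi
    refine sub_eq_zero.1 (eq_zero_of_evA g hg hd ζ hζ hroot _ fun σ => ?_)
    rw [map_sub, map_mul, map_pow, map_add, map_mul, map_mul, map_mul, map_sub, evA_elA, evA_elA,
      evA_elA, evA_root, map_intCast, map_intCast, map_intCast, map_intCast, hrel i hi σ, sub_self]
  · intro i hi M T hT
    have h1 := hev_congr e G hGe (u i) (v i) (n i) T _ hT
    rw [hG i hi, sub_zero] at h1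
    exact (((hcopv i hi).pow_right (n := e)).pow_left (m := M)).dvd_of_dvd_mul_left h1
  · intro i hi T hT h
    have h1 : (q : ℤ) ∣ v i * (T - x0) := by
      have := dvd_sub hT (hx0 i hi).2.1
      have e1 : v i * T - u i - (v i * x0 - u i) = v i * (T - x0) := by ring
      rwa [e1] at this
    have h3 : (q : ℤ) ∣ T - x0 := (hqp.dvd_or_dvd h1).resolve_left (hx0 i hi).1
    have h4 := dvd_evalEval_sub (derivative G) h3 (hx0 i hi).2.2
    have h5 := dvd_sub h h4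
    rw [sub_sub_cancel] at h5
    exact hGn h5
  · intro i hi j hj
    have e1 : u i * v j - u j * v i = (v j * x0 - u j) * v i - (v i * x0 - u i) * v j := by ring
    rw [e1]
    exact dvd_sub ((hx0 j hj).2.1.mul_right _) ((hx0 i hi).2.1.mul_right _)
  · intro i hi j hj
    have e1 : n i - n j = (n i - y0) - (n j - y0) := by ring
    rw [e1]
    exact dvd_sub (hx0 i hi).2.2 (hx0 j hj).2.2
  · intro i hi j hj
    -- a coordinate of `al j` which is a unit
    have h1 : ∃ l, ¬ (q : ℤ) ∣ al j l := by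
      by_contra hcon
      push Not at hcon
      obtain ⟨y, hy⟩ := hNel (al j) (Nα j) (hNα j hj)
      apply hqα j hj
      apply prim_A g hg hd hd0
      rw [← hy, elA]
      refine Dvd.dvd.mul_right ?_ y
      refine Finset.dvd_sum fun l _ => Dvd.dvd.mul_right ?_ _
      obtain ⟨w, hw⟩ := hcon l
      exact ⟨(w : AdjoinRoot g), by rw [hw]; push_cast; ring⟩
    obtain ⟨l, hl⟩ := h1
    obtain ⟨x, y, hxy⟩ := ((hqp.coprime_iff_not_dvd).2 hl).symm
    refine ⟨al i l * x, ?_⟩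
    rw [elA, elA, Finset.mul_sum, ← Finset.sum_sub_distrib]
    refine Finset.dvd_sum fun k _ => ?_
    obtain ⟨w, hw⟩ := hprop i hi j hj k l
    have e1 : al i k - al i l * x * al j k = q * (w * x + y * al i k) := by
      linear_combination x * hw - al i k * hxy
    refine ⟨((w * x + y * al i k : ℤ) : AdjoinRoot g) * AdjoinRoot.root g ^ (k : ℕ), ?_⟩
    have e2 : ((al i k - al i l * x * al j k : ℤ) : AdjoinRoot g) =
        ((q * (w * x + y * al i k) : ℤ) : AdjoinRoot g) := by rw [e1]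
    push_cast at e2 ⊢
    linear_combination (AdjoinRoot.root g ^ (k : ℕ)) * e2
  · intro i hi
    obtain ⟨y, hy⟩ := hNel (al i) (Nα i) (hNα i hi)
    exact ⟨y, Nα i, hqα i hi, hy⟩
  · intro i hi
    have e1 : (u i : AdjoinRoot g) * elA g f₁ + (v i : AdjoinRoot g) * elA g f₂ =
        elA g (fun j => u i * f₁ j + v i * f₂ j) := by
      rw [elA, elA, elA, Finset.mul_sum, Finset.mul_sum, ← Finset.sum_add_distrib]
      refine Finset.sum_congr rfl fun j _ => ?_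
      push_cast
      ring
    obtain ⟨y, hy⟩ := hNel (fun j => u i * f₁ j + v i * f₂ j) (Nβ i) (by
      rw [hNβ i hi]
      refine Finset.prod_congr rfl fun σ _ => ?_
      rw [Finset.mul_sum, Finset.mul_sum, ← Finset.sum_add_distrib]
      refine Finset.sum_congr rfl fun j _ => ?_
      push_cast
      ring)
    exact ⟨y, Nβ i, hqβ i hi, by rw [e1]; exact hy⟩
  · intro i hi j
    rw [hM i hi j]
    refine Finset.sum_congr rfl fun p _ => ?_
    congr 2
    refine Finset.prod_congr rfl fun k _ => ?_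
    rw [repr_elA]

end Pool.Agent.Lib.SQF
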