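import Mathlib
import Pool.Agent.Lib.SQF.QEt

/-!
# SQF: classes of directions of `α` modulo `q` on a beta-slice

Helper file for MP_8842b2_nt (helper80).  `exists_prop_subset`: among solutions with the same
`(u : v)` and `n` modulo `q`, a proportion `2^(-d)` has `α` pairwise proportional modulo `q`.
-/

namespace Pool.Agent.Lib.SQF

open Polynomial Finset

/-- `a g + b g' = D ≠ 0` for irreducible monic `g`. -/
theorem exists_disc (g : ℤ[X]) (hg : g.Monic) (hirr : Irreducible g) :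
    ∃ (D : ℤ) (a b : ℤ[X]), D ≠ 0 ∧ a * g + b * derivative g = C D := by
  have hirrQ : Irreducible (g.map (Int.castRingHom ℚ)) :=
    (hg.irreducible_iff_irreducible_map_fraction_map (K := ℚ)).1 hirr
  obtain ⟨u, v, huv⟩ := hirrQ.separable
  obtain ⟨du, hdu0, hdu⟩ := IsLocalization.integerNormalization_spec (nonZeroDivisors ℤ) u
  obtain ⟨dv, hdv0, hdv⟩ := IsLocalization.integerNormalization_spec (nonZeroDivisors ℤ) v
  set u' := IsLocalization.integerNormalization (nonZeroDivisors ℤ) u with hu'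
  set v' := IsLocalization.integerNormalization (nonZeroDivisors ℤ) v with hv'
  have hinj : Function.Injective (Int.castRingHom ℚ) := RingHom.injective_int _
  refine ⟨du * dv, C dv * u', C du * v',
    mul_ne_zero (nonZeroDivisors.ne_zero hdu0) (nonZeroDivisors.ne_zero hdv0), ?_⟩
  apply Polynomial.map_injective _ hinj
  have e1 : u'.map (Int.castRingHom ℚ) = C (du : ℚ) * u := by
    have h := hdu
    rw [algebraMap_int_eq] at h
    rw [h]
    ext n
    simp
  have e2 : v'.map (Int.castRingHom ℚ) = C (dv : ℚ) * v := by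
    have h := hdv
    rw [algebraMap_int_eq] at h
    rw [h]
    ext n
    simp
  rw [Polynomial.map_add, Polynomial.map_mul, Polynomial.map_mul, Polynomial.map_mul,
    Polynomial.map_mul, Polynomial.map_C, Polynomial.map_C, Polynomial.map_C, e1, e2]
  rw [derivative_map] at huv
  simp only [eq_intCast]
  push_cast
  rw [C_mul]
  linear_combination (C (du : ℚ) * C (dv : ℚ)) * huv

/-- Distinct roots of `g` in the algebraic closure of `ℤ/q`. -/
theorem exists_roots_mod (g : ℤ[X]) (hg : g.Monic) {d : ℕ} (hd : g.natDegree = d)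
    (D : ℤ) (a b : ℤ[X]) (hab : a * g + b * derivative g = C D) (q : ℕ) [Fact q.Prime]
    (hqD : ¬ (q : ℤ) ∣ D) : ∃ z : Fin d → AlgebraicClosure (ZMod q), Function.Injective z ∧
      ∀ σ, (g.map (Int.castRingHom (AlgebraicClosure (ZMod q)))).eval (z σ) = 0 := by
  classical
  set L := AlgebraicClosure (ZMod q) with hL
  have hchar : CharP L q := charP_of_injective_algebraMap (algebraMap (ZMod q) L).injective q
  set G := g.map (Int.castRingHom L) with hG
  have hGm : G.Monic := hg.map _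
  have hDL : ((D : ℤ) : L) ≠ 0 := by
    intro h
    exact hqD ((CharP.intCast_eq_zero_iff L q D).1 h)
  have hsep : G.Separable := by
    have h1 := congrArg (Polynomial.map (Int.castRingHom L)) hab
    rw [Polynomial.map_add, Polynomial.map_mul, Polynomial.map_mul, Polynomial.map_C,
      ← derivative_map] at h1
    refine ⟨C ((D : L)⁻¹) * a.map (Int.castRingHom L), C ((D : L)⁻¹) * b.map (Int.castRingHom L), ?_⟩
    have h2 : C ((D : L)⁻¹) * C ((Int.castRingHom L) D) = 1 := by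
      rw [← C_mul, eq_intCast, inv_mul_cancel₀ hDL, C_1]
    rw [← h2, ← h1]
    ring
  have hnodup : G.roots.Nodup := nodup_roots hsep
  have hcard : G.roots.toFinset.card = d := by
    rw [Multiset.toFinset_card_of_nodup hnodup, ← (IsAlgClosed.splits G).natDegree_eq_card_roots,
      hG, hg.natDegree_map, hd]
  set e := G.roots.toFinset.equivFinOfCardEq hcard with he
  refine ⟨fun σ => ((e.symm σ : G.roots.toFinset) : L), ?_, ?_⟩
  · intro x y hxy
    exact e.symm.injective (Subtype.ext hxy)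
  · intro σ
    have h1 := (e.symm σ).2
    rw [Multiset.mem_toFinset, mem_roots hGm.ne_zero] at h1
    exact h1

theorem exists_prop_subset_aux (g : ℤ[X]) (hg : g.Monic) {d : ℕ} (hd : g.natDegree = d) (hd0 : 0 < d)
    (ζ : Fin d → ℂ) (hζ : Function.Injective ζ) (hroot : ∀ σ, aeval (ζ σ) g = 0)
    (q : ℕ) {L : Type*} [Field L] [IsAlgClosed L] [hchar : CharP L q] (z : Fin d → L)
    (hz : Function.Injective z)
    (hzr : ∀ σ, (g.map (Int.castRingHom L)).eval (z σ) = 0) {ι : Type*}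
    (S : Finset ι) (f₁ f₂ : Fin d → ℤ) (c₀ : ℤ) (u v n : ι → ℤ)
    (al : ι → Fin d → ℤ)
    (hrel : ∀ i ∈ S, ∀ σ, (∑ j, (al i j : ℂ) * ζ σ ^ (j : ℕ)) ^ 2 *
      ((u i : ℂ) * (∑ j, (f₁ j : ℂ) * ζ σ ^ (j : ℕ)) +
        (v i : ℂ) * (∑ j, (f₂ j : ℂ) * ζ σ ^ (j : ℕ))) = c₀ * ((n i : ℂ) - ζ σ))
    (x0 y0 : ℤ)
    (hx0 : ∀ i ∈ S, ¬ (q : ℤ) ∣ v i ∧ (q : ℤ) ∣ v i * x0 - u i ∧ (q : ℤ) ∣ n i - y0)
    (Nβ : ι → ℤ)
    (hNβ : ∀ i ∈ S, (Nβ i : ℂ) = ∏ σ, ((u i : ℂ) * (∑ j, (f₁ j : ℂ) * ζ σ ^ (j : ℕ)) +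
        (v i : ℂ) * (∑ j, (f₂ j : ℂ) * ζ σ ^ (j : ℕ))))
    (hqβ : ∀ i ∈ S, ¬ (q : ℤ) ∣ Nβ i) :
    ∃ S' ⊆ S, S.card ≤ 2 ^ d * S'.card ∧ ∀ i ∈ S', ∀ j ∈ S', ∀ k l,
      (q : ℤ) ∣ al i k * al j l - al i l * al j k := by
  classical
  rcases S.eq_empty_or_nonempty with rfl | ⟨i0, hi0⟩
  · exact ⟨∅, by simp, by simp, by simp⟩
  have hcast : ∀ m : ℤ, (m : L) = 0 ↔ (q : ℤ) ∣ m := fun m => CharP.intCast_eq_zero_iff L q m
  -- evaluations
  have hlift : ∀ σ, g.eval₂ (Int.castRingHom L) (z σ) = 0 := fun σ => by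
    rw [← eval_map]
    exact hzr σ
  set χ : Fin d → (AdjoinRoot g →+* L) := fun σ =>
    AdjoinRoot.lift (Int.castRingHom L) (z σ) (hlift σ) with hχ
  have hχroot : ∀ σ, χ σ (AdjoinRoot.root g) = z σ := fun σ => by
    rw [hχ]
    exact AdjoinRoot.lift_root (hlift σ)
  have hχel : ∀ σ (c : Fin d → ℤ), χ σ (elA g c) = ∑ j, (c j : L) * z σ ^ (j : ℕ) := by
    intro σ c
    rw [elA, map_sum]
    refine Finset.sum_congr rfl fun j _ => ?_
    rw [map_mul, map_intCast, map_pow, hχroot]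
  -- the relation in the ring
  have hrelA : ∀ i ∈ S, elA g (al i) ^ 2 * ((u i : AdjoinRoot g) * elA g f₁ +
      (v i : AdjoinRoot g) * elA g f₂) = (c₀ : AdjoinRoot g) * ((n i : AdjoinRoot g) -
        AdjoinRoot.root g) := by
    intro i hi
    refine sub_eq_zero.1 (eq_zero_of_evA g hg hd ζ hζ hroot _ fun σ => ?_)
    rw [map_sub, map_mul, map_pow, map_add, map_mul, map_mul, map_mul, map_sub, evA_elA, evA_elA,
      evA_elA, evA_root, map_intCast, map_intCast, map_intCast, map_intCast, hrel i hi σ, sub_self]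
  set A : ι → Fin d → L := fun i σ => χ σ (elA g (al i)) with hA
  set B : Fin d → L := fun σ => (x0 : L) * χ σ (elA g f₁) + χ σ (elA g f₂) with hB
  have hu : ∀ i ∈ S, (u i : L) = (v i : L) * x0 := by
    intro i hi
    have h := (hcast _).2 (hx0 i hi).2.1
    rw [Int.cast_sub, Int.cast_mul] at h
    linear_combination -h
  have hn : ∀ i ∈ S, (n i : L) = y0 := by
    intro i hi
    have h := (hcast _).2 (hx0 i hi).2.2
    push_cast at h
    linear_combination h
  have hv : ∀ i ∈ S, (v i : L) ≠ 0 := fun i hi h => (hx0 i hi).1 ((hcast _).1 h)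
  have hrelL : ∀ i ∈ S, ∀ σ, A i σ ^ 2 * ((v i : L) * B σ) = c₀ * ((y0 : L) - z σ) := by
    intro i hi σ
    have h := congrArg (χ σ) (hrelA i hi)
    rw [map_mul, map_pow, map_add, map_mul, map_mul, map_mul, map_sub, hχroot, map_intCast,
      map_intCast, map_intCast, map_intCast, hu i hi, hn i hi] at h
    rw [← h]
    simp only [hA, hB]
    ring
  have hBne : ∀ σ, B σ ≠ 0 := by
    intro σ h0
    have e1 : (u i0 : AdjoinRoot g) * elA g f₁ + (v i0 : AdjoinRoot g) * elA g f₂ =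
        elA g (fun j => u i0 * f₁ j + v i0 * f₂ j) := by
      rw [elA, elA, elA, Finset.mul_sum, Finset.mul_sum, ← Finset.sum_add_distrib]
      refine Finset.sum_congr rfl fun j _ => ?_
      push_cast
      ring
    obtain ⟨y, N', hy, hN'⟩ := exists_norm_mul g hg hd hd0 ζ hζ hroot
      ((u i0 : AdjoinRoot g) * elA g f₁ + (v i0 : AdjoinRoot g) * elA g f₂)
    have h1 : (N' : ℂ) = Nβ i0 := by
      rw [hN', hNβ i0 hi0]
      refine Finset.prod_congr rfl fun σ _ => ?_
      rw [map_add, map_mul, map_mul, evA_elA, evA_elA, map_intCast, map_intCast]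
    have h3 : N' = Nβ i0 := by exact_mod_cast h1
    have h4 := congrArg (χ σ) hy
    rw [map_mul, map_add, map_mul, map_mul, map_intCast, map_intCast, map_intCast, hu i0 hi0,
      h3] at h4
    have h5 : (v i0 : L) * x0 * χ σ (elA g f₁) + (v i0 : L) * χ σ (elA g f₂) = 0 := by
      have : (v i0 : L) * x0 * χ σ (elA g f₁) + (v i0 : L) * χ σ (elA g f₂) =
          (v i0 : L) * B σ := by simp only [hB]; ring
      rw [this, h0, mul_zero]
    rw [h5, zero_mul] at h4
    exact hqβ i0 hi0 ((hcast _).1 h4.symm)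
  -- square roots of `v i0 / v i`
  have hκ : ∀ i ∈ S, ∃ κ : L, κ ≠ 0 ∧ κ ^ 2 * (v i : L) = v i0 := by
    intro i hi
    obtain ⟨κ, hκ⟩ := IsAlgClosed.exists_pow_nat_eq ((v i0 : L) / v i) (n := 2) (by norm_num)
    refine ⟨κ, ?_, ?_⟩
    · rintro rfl
      have : (v i0 : L) / v i = 0 := by rw [← hκ]; simp
      rcases div_eq_zero_iff.1 this with h | h
      · exact hv i0 hi0 h
      · exact hv i hi h
    · rw [hκ, div_mul_cancel₀ _ (hv i hi)]
  choose! κ hκ0 hκ using hκ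
  have hsign : ∀ i ∈ S, ∀ σ, A i σ = κ i * A i0 σ ∨ A i σ = -(κ i * A i0 σ) := by
    intro i hi σ
    rw [← sq_eq_sq_iff_eq_or_eq_neg]
    have h1 := hrelL i hi σ
    have h2 := hrelL i0 hi0 σ
    have h3 : (v i : L) * B σ * (A i σ ^ 2 - (κ i * A i0 σ) ^ 2) = 0 := by
      linear_combination h1 - h2 - (B σ * A i0 σ ^ 2) * hκ i hi
    have h4 : (v i : L) * B σ ≠ 0 := mul_ne_zero (hv i hi) (hBne σ)
    exact sub_eq_zero.1 ((mul_eq_zero.1 h3).resolve_left h4)
  -- the colouring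
  set col : ι → (Fin d → Bool) := fun i σ => decide (A i σ = κ i * A i0 σ) with hcol
  obtain ⟨y, _, hy⟩ := Finset.exists_max_image (Finset.univ : Finset (Fin d → Bool))
    (fun y => (S.filter (fun i => col i = y)).card) ⟨fun _ => true, Finset.mem_univ _⟩
  refine ⟨S.filter (fun i => col i = y), Finset.filter_subset _ _, ?_, ?_⟩
  · have h1 : S.card = ∑ y' : Fin d → Bool, (S.filter (fun i => col i = y')).card :=
      Finset.card_eq_sum_card_fiberwise (fun i _ => Finset.mem_univ _)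
    rw [h1]
    refine (Finset.sum_le_card_nsmul _ _ _ hy).trans ?_
    rw [smul_eq_mul, Finset.card_univ, Fintype.card_fun, Fintype.card_bool, Fintype.card_fin]
  · intro i hi j hj k l
    rw [Finset.mem_filter] at hi hj
    have hij : col i = col j := hi.2.trans hj.2.symm
    have hprop : ∀ σ, κ j * A i σ = κ i * A j σ := by
      intro σ
      have hc : (A i σ = κ i * A i0 σ) ↔ (A j σ = κ j * A i0 σ) := by
        have := congrFun hij σ
        simpa only [hcol, decide_eq_decide] using this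
      by_cases h : A i σ = κ i * A i0 σ
      · rw [h, hc.1 h]
        ring
      · have h1 := (hsign i hi.1 σ).resolve_left h
        have h2 := (hsign j hj.1 σ).resolve_left (fun h' => h (hc.2 h'))
        rw [h1, h2]
        ring
    have hvec : (fun k => κ j * (al i k : L) - κ i * (al j k : L)) = 0 := by
      refine Matrix.eq_zero_of_forall_index_sum_mul_pow_eq_zero hz fun σ => ?_
      have h1 := hprop σ
      simp only [hA] at h1
      rw [hχel, hχel, Finset.mul_sum, Finset.mul_sum, ← sub_eq_zero, ← Finset.sum_sub_distrib] at h1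
      rw [← h1]
      refine Finset.sum_congr rfl fun m _ => ?_
      ring
    have hk := congrFun hvec k
    have hl := congrFun hvec l
    simp only [Pi.zero_apply] at hk hl
    rw [← hcast]
    push_cast
    have h5 : κ i * κ j * ((al i k : L) * al j l - al i l * al j k) = 0 := by
      linear_combination (κ i * al j l) * hk - (κ i * al j k) * hl
    exact (mul_eq_zero.1 h5).resolve_left (mul_ne_zero (hκ0 i hi.1) (hκ0 j hj.1))

/-- Among the solutions with the same `(u : v)` and `n` modulo `q` there is a subset of proportion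
at least `2^(-d)` whose `α` are pairwise proportional modulo `q`. -/
theorem exists_prop_subset (g : ℤ[X]) (hg : g.Monic) {d : ℕ} (hd : g.natDegree = d) (hd0 : 0 < d)
    (ζ : Fin d → ℂ) (hζ : Function.Injective ζ) (hroot : ∀ σ, aeval (ζ σ) g = 0)
    (D : ℤ) (a b : ℤ[X]) (hab : a * g + b * derivative g = C D)
    (q : ℕ) (hq : q.Prime) (hqD : ¬ (q : ℤ) ∣ D) {ι : Type*}
    (S : Finset ι) (f₁ f₂ : Fin d → ℤ) (c₀ : ℤ) (u v n : ι → ℤ)
    (al : ι → Fin d → ℤ)
    (hrel : ∀ i ∈ S, ∀ σ, (∑ j, (al i j : ℂ) * ζ σ ^ (j : ℕ)) ^ 2 *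
      ((u i : ℂ) * (∑ j, (f₁ j : ℂ) * ζ σ ^ (j : ℕ)) +
        (v i : ℂ) * (∑ j, (f₂ j : ℂ) * ζ σ ^ (j : ℕ))) = c₀ * ((n i : ℂ) - ζ σ))
    (x0 y0 : ℤ)
    (hx0 : ∀ i ∈ S, ¬ (q : ℤ) ∣ v i ∧ (q : ℤ) ∣ v i * x0 - u i ∧ (q : ℤ) ∣ n i - y0)
    (Nβ : ι → ℤ)
    (hNβ : ∀ i ∈ S, (Nβ i : ℂ) = ∏ σ, ((u i : ℂ) * (∑ j, (f₁ j : ℂ) * ζ σ ^ (j : ℕ)) +
        (v i : ℂ) * (∑ j, (f₂ j : ℂ) * ζ σ ^ (j : ℕ))))
    (hqβ : ∀ i ∈ S, ¬ (q : ℤ) ∣ Nβ i) :
    ∃ S' ⊆ S, S.card ≤ 2 ^ d * S'.card ∧ ∀ i ∈ S', ∀ j ∈ S', ∀ k l,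
      (q : ℤ) ∣ al i k * al j l - al i l * al j k := by
  have : Fact q.Prime := ⟨hq⟩
  obtain ⟨z, hz, hzr⟩ := exists_roots_mod g hg hd D a b hab q hqD
  have hchar : CharP (AlgebraicClosure (ZMod q)) q := charP_of_injective_algebraMap
    (algebraMap (ZMod q) (AlgebraicClosure (ZMod q))).injective q
  exact exists_prop_subset_aux g hg hd hd0 ζ hζ hroot q z hz hzr S f₁ f₂ c₀ u v n al hrel x0 y0
    hx0 Nβ hNβ hqβ

end Pool.Agent.Lib.SQF
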