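import Mathlib
import Pool.Agent.Lib.SQF.Defs
import Pool.Agent.Lib.SQF.QEtClass

/-!
# SQF: clusters on curves of beta-slices (arch70 3.1)

Helper file for MP_8842b2_nt (helper80).  `exists_clusterB`: on an irreducible curve `G(t,n) = 0`
the solutions of a beta-slice contain a cluster modulo a prime `q` of prescribed size, such that
determinants with `k` rows in the cluster are divisible by `q ^ (k (k-1) / 2)`.
-/

set_option autoImplicit false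

namespace Pool.Agent.Lib.SQF

open Polynomial Finset

private theorem clB_roots (g : ℤ[X]) (hg : g.Monic) (hirr : Irreducible g) {d : ℕ}
    (hd : g.natDegree = d) : ∃ z : Fin d → ℂ, Function.Injective z ∧ ∀ σ, aeval (z σ) g = 0 := by
  classical
  obtain ⟨D, a, b, hD, hab⟩ := exists_disc g hg hirr
  set G := g.map (Int.castRingHom ℂ) with hG
  have hGm : G.Monic := hg.map _
  have hDL : ((D : ℤ) : ℂ) ≠ 0 := by exact_mod_cast hD
  have hsep : G.Separable := by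
    have h1 := congrArg (Polynomial.map (Int.castRingHom ℂ)) hab
    rw [Polynomial.map_add, Polynomial.map_mul, Polynomial.map_mul, Polynomial.map_C,
      ← derivative_map] at h1
    refine ⟨C ((D : ℂ)⁻¹) * a.map (Int.castRingHom ℂ), C ((D : ℂ)⁻¹) * b.map (Int.castRingHom ℂ), ?_⟩
    have h2 : C ((D : ℂ)⁻¹) * C ((Int.castRingHom ℂ) D) = 1 := by
      rw [← C_mul, eq_intCast, inv_mul_cancel₀ hDL, C_1]
    rw [← h2, ← h1]
    ring
  have hnodup : G.roots.Nodup := nodup_roots hsep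
  have hcard : G.roots.toFinset.card = d := by
    rw [Multiset.toFinset_card_of_nodup hnodup, ← (IsAlgClosed.splits G).natDegree_eq_card_roots,
      hG, hg.natDegree_map, hd]
  set e := G.roots.toFinset.equivFinOfCardEq hcard with he
  refine ⟨fun σ => ((e.symm σ : G.roots.toFinset) : ℂ), ?_, ?_⟩
  · intro x y hxy
    exact e.symm.injective (Subtype.ext hxy)
  · intro σ
    have h1 := (e.symm σ).2
    rw [Multiset.mem_toFinset, mem_roots hGm.ne_zero, IsRoot.def] at h1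
    rw [aeval_def, algebraMap_int_eq, ← eval_map]
    exact h1

/-- fewer than `k` primes `≥ Z` divide a nonzero integer of absolute value `< Z ^ k` -/
private theorem clB_card_primes (Q : Finset ℕ) (Z k : ℕ) (D : ℤ) (hQ : ∀ q ∈ Q, q.Prime ∧ Z ≤ q)
    (hD : D ≠ 0) (hb : |D| < (Z : ℤ) ^ k) :
    (Q.filter (fun q : ℕ => (q : ℤ) ∣ D)).card < k := by
  classical
  set B := Q.filter (fun q : ℕ => (q : ℤ) ∣ D) with hB
  by_contra hcon
  push Not at hcon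
  have h1 : (∏ q ∈ B, q) ∣ D.natAbs := by
    refine Finset.prod_primes_dvd _ (fun q hq => ?_) (fun q hq => ?_)
    · exact (hQ q (Finset.mem_filter.1 hq).1).1.prime
    · exact Int.natCast_dvd.1 (Finset.mem_filter.1 hq).2
  have h2 : Z ^ B.card ≤ ∏ q ∈ B, q := by
    rw [← Finset.prod_const]
    exact Finset.prod_le_prod' fun q hq => (hQ q (Finset.mem_filter.1 hq).1).2
  have h3 : ∏ q ∈ B, q ≤ D.natAbs := Nat.le_of_dvd (Int.natAbs_pos.2 hD) h1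
  have h4 : D.natAbs < Z ^ k := by
    have : (D.natAbs : ℤ) < (Z : ℤ) ^ k := by rwa [Int.natCast_natAbs]
    exact_mod_cast this
  rcases Nat.eq_zero_or_pos Z with h0 | h0
  · rw [h0] at h4
    rcases Nat.eq_zero_or_pos k with hk | hk
    · rw [hk, pow_zero] at h4
      have := Int.natAbs_pos.2 hD
      omega
    · rw [zero_pow hk.ne'] at h4
      omega
  · have h5 : Z ^ k ≤ Z ^ B.card := Nat.pow_le_pow_right h0 hcon
    omega

/-- the norms of `α` and `β` of a solution -/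
private theorem clB_norms (g : ℤ[X]) (hg : g.Monic) (hd : g.natDegree = 4)
    (ζ : Fin 4 → ℂ) (hζ : Function.Injective ζ) (hroot : ∀ σ, aeval (ζ σ) g = 0)
    {K Y P : ℝ} (hY : 1 ≤ Y) (hP : 1 ≤ P) {n : ℤ} {p : ℕ} {α β : Fin 4 → ℤ} {m : ℤ}
    (h : IsSol 4 g K Y P n p α β m) :
    ∃ Nα Nβ : ℤ, (Nα : ℂ) = ∏ σ, ev α (ζ σ) ∧ (Nβ : ℂ) = ∏ σ, ev β (ζ σ) ∧ Nα ≠ 0 ∧ Nβ ≠ 0 ∧
      |((Nα * Nβ : ℤ) : ℝ)| ≤ K ^ 8 * Y ^ 4 := by
  classical
  obtain ⟨y, Nα, -, hNα⟩ := exists_norm_mul g hg hd (by norm_num) ζ hζ hroot (elA g α)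
  obtain ⟨y', Nβ, -, hNβ⟩ := exists_norm_mul g hg hd (by norm_num) ζ hζ hroot (elA g β)
  have e1 : (Nα : ℂ) = ∏ σ, ev α (ζ σ) := by
    rw [hNα]
    exact Finset.prod_congr rfl fun σ _ => evA_elA g (ζ σ) (hroot σ) α
  have e2 : (Nβ : ℂ) = ∏ σ, ev β (ζ σ) := by
    rw [hNβ]
    exact Finset.prod_congr rfl fun σ _ => evA_elA g (ζ σ) (hroot σ) β
  set H : ℝ := P ^ ((1 : ℝ) / (4 : ℕ)) with hH
  have hP0 : 0 < P := by linarith
  have hH0 : 0 < H := Real.rpow_pos_of_pos hP0 _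
  have hH1 : 1 ≤ H := Real.one_le_rpow hP (by positivity)
  have hH4 : H ^ 4 = P := by
    rw [hH, ← Real.rpow_natCast, ← Real.rpow_mul hP0.le]
    norm_num
  have hY0 : 0 < Y := by linarith
  have hαne : ∀ σ, ev α (ζ σ) ≠ 0 := by
    intro σ h0
    have := h.lowα (ζ σ) (hroot σ)
    rw [h0, norm_zero, mul_zero] at this
    linarith
  have hβne : ∀ σ, ev β (ζ σ) ≠ 0 := by
    intro σ h0
    have := h.lowβ (ζ σ) (hroot σ)
    rw [h0, norm_zero, zero_mul, mul_zero] at this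
    linarith
  have hα0 : Nα ≠ 0 := by
    intro h0
    rw [h0, Int.cast_zero] at e1
    exact (Finset.prod_ne_zero_iff.2 fun σ _ => hαne σ) e1.symm
  have hβ0 : Nβ ≠ 0 := by
    intro h0
    rw [h0, Int.cast_zero] at e2
    exact (Finset.prod_ne_zero_iff.2 fun σ _ => hβne σ) e2.symm
  refine ⟨Nα, Nβ, e1, e2, hα0, hβ0, ?_⟩
  have h1 : |(Nα : ℝ)| ≤ (K * H) ^ 4 := by
    have h2 : |(Nα : ℝ)| = ∏ σ, ‖ev α (ζ σ)‖ := by
      rw [← norm_prod, ← e1]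
      simp
    rw [h2]
    calc ∏ σ, ‖ev α (ζ σ)‖ ≤ ∏ _σ : Fin 4, (K * H) :=
          Finset.prod_le_prod (fun _ _ => norm_nonneg _) (fun σ _ => h.uppα (ζ σ) (hroot σ))
      _ = (K * H) ^ 4 := by rw [Finset.prod_const, Finset.card_univ, Fintype.card_fin]
  have h3 : |(Nβ : ℝ)| * H ^ 8 ≤ (K * Y) ^ 4 := by
    have h2 : |(Nβ : ℝ)| = ∏ σ, ‖ev β (ζ σ)‖ := by
      rw [← norm_prod, ← e2]
      simp
    have h4 : |(Nβ : ℝ)| * H ^ 8 = ∏ σ : Fin 4, (‖ev β (ζ σ)‖ * H ^ 2) := by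
      rw [Finset.prod_mul_distrib, Finset.prod_const, Finset.card_univ, Fintype.card_fin, h2]
      ring
    rw [h4]
    calc ∏ σ, (‖ev β (ζ σ)‖ * H ^ 2) ≤ ∏ _σ : Fin 4, (K * Y) :=
          Finset.prod_le_prod (fun _ _ => by positivity) (fun σ _ => h.uppβ (ζ σ) (hroot σ))
      _ = (K * Y) ^ 4 := by rw [Finset.prod_const, Finset.card_univ, Fintype.card_fin]
  push_cast
  rw [abs_mul]
  have h5 : |(Nα : ℝ)| * |(Nβ : ℝ)| * H ^ 8 ≤ (K * H) ^ 4 * (K * Y) ^ 4 := by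
    calc |(Nα : ℝ)| * |(Nβ : ℝ)| * H ^ 8 = |(Nα : ℝ)| * (|(Nβ : ℝ)| * H ^ 8) := by ring
      _ ≤ (K * H) ^ 4 * (K * Y) ^ 4 :=
          mul_le_mul h1 h3 (by positivity) ((abs_nonneg _).trans h1)
  have h6 : (K * H) ^ 4 * (K * Y) ^ 4 ≤ K ^ 8 * Y ^ 4 * H ^ 8 := by
    have e3 : (K * H) ^ 4 * (K * Y) ^ 4 = K ^ 8 * Y ^ 4 * H ^ 4 := by ring
    rw [e3]
    have h7 : H ^ 4 ≤ H ^ 8 := pow_le_pow_right₀ hH1 (by norm_num)
    exact mul_le_mul_of_nonneg_left h7 (by positivity)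
  have h8 : |(Nα : ℝ)| * |(Nβ : ℝ)| * H ^ 8 ≤ K ^ 8 * Y ^ 4 * H ^ 8 := h5.trans h6
  exact le_of_mul_le_mul_right h8 (by positivity)

/-- the divisibility property of a cluster `C'` for the prime `q`: all matrices whose rows indexed
by `R` are values of integer forms of bidegree (`s` in `u, v`; `r` in `α`) at elements of `C'` -/
def ClusDvd (α : ℤ → Fin 4 → ℤ) (u v : ℤ → ℤ) (q : ℕ) (C' : Finset ℤ) : Prop :=
  ∀ (N s r : ℕ) (Pc : Fin N → Finset (ℕ × (Fin 4 → ℕ))) (κ : Fin N → ℕ × (Fin 4 → ℕ) → ℤ),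
    (∀ c, ∀ p ∈ Pc c, p.1 ≤ s ∧ ∑ j, p.2 j = r) → ∀ (x : Fin N → ℤ) (R : Finset (Fin N)),
    (∀ i ∈ R, x i ∈ C') → ∀ M : Matrix (Fin N) (Fin N) ℤ,
    (∀ i ∈ R, ∀ c, M i c = ∑ p ∈ Pc c, κ c p *
      (u (x i) ^ p.1 * v (x i) ^ (s - p.1) * ∏ j, α (x i) j ^ p.2 j)) →
    (q : ℤ) ^ (R.card * (R.card - 1) / 2) ∣ M.det

/-- Existence of clusters, with explicit natural number parameters. -/
theorem clusterB_core (g : ℤ[X]) (hg : g.Monic) (hd : g.natDegree = 4)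
    (ζ : Fin 4 → ℂ) (hζ : Function.Injective ζ) (hroot : ∀ σ, aeval (ζ σ) g = 0)
    (D₀ : ℤ) (a₀ b₀ : ℤ[X]) (hab : a₀ * g + b₀ * derivative g = C D₀)
    (a e k k' J Z : ℕ) (hZ1 : 1 ≤ Z) (T : ℤ) (hT : 1 ≤ T)
    (hZT : (((a + 1) * (e + 1) * a : ℕ) : ℤ) * T ^ (a + e + 2) < (Z : ℤ) ^ k)
    (G : ℤ[X][X]) (hG : Irreducible G) (hG0 : 0 < G.natDegree) (hGa : G.natDegree ≤ a)
    (hGe : ∀ i, (G.coeff i).natDegree ≤ e) (hGT : ∀ i j, |(G.coeff i).coeff j| ≤ T)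
    (m : ℤ) (f1 f2 : Fin 4 → ℤ) (S : Finset ℤ) (α : ℤ → Fin 4 → ℤ) (u v : ℤ → ℤ)
    (hrel : ∀ n ∈ S, ∀ σ, ev (α n) (ζ σ) ^ 2 * ((u n : ℂ) * ev f1 (ζ σ) +
      (v n : ℂ) * ev f2 (ζ σ)) = (m : ℂ) ^ 2 * ((n : ℂ) - ζ σ))
    (hv : ∀ n ∈ S, v n ≠ 0) (hST : ∀ n ∈ S, |u n| ≤ T ∧ |v n| ≤ T ∧ |n| ≤ T)
    (hinj : ∀ n ∈ S, ∀ n' ∈ S, u n * v n' = u n' * v n → n = n')
    (hz : ∀ n ∈ S, hev e G (u n) (v n) n = 0)
    (Nα Nβ : ℤ → ℤ) (hNα : ∀ n ∈ S, (Nα n : ℂ) = ∏ σ, ev (α n) (ζ σ))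
    (hNβ : ∀ n ∈ S, (Nβ n : ℂ) = ∏ σ, ((u n : ℂ) * ev f1 (ζ σ) + (v n : ℂ) * ev f2 (ζ σ)))
    (hbad : ∀ n ∈ S, 2 * D₀ * (Nα n * Nβ n) ≠ 0 ∧ |2 * D₀ * (Nα n * Nβ n)| < (Z : ℤ) ^ k')
    (F : Finset ℕ) (hF : F.card < J) :
    ∃ q : ℕ, q.Prime ∧ q ∉ F ∧ Z ≤ q ∧ ∃ C' ⊆ S,
      S.card ≤ 2 ^ (2 * k + k' + J) * (2 * a * e + 2 * a * (2 ^ (2 * k + k' + J) * 16)) *
        (Z * C'.card + 1) ∧ ClusDvd α u v q C' := by
  classical
  set K₀ : ℕ := 2 * k + k' + J with hK₀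
  obtain ⟨Q, hQc, hQ⟩ := exists_primes K₀ Z hZ1
  have hQ' : ∀ q ∈ Q, q.Prime ∧ Z ≤ q := fun q hq => ⟨(hQ q hq).1, (hQ q hq).2.1⟩
  -- the bad primes of a solution
  set bad : ℤ → Finset ℕ := fun n => Q.filter (fun q : ℕ => (q : ℤ) ∣ 2 * D₀ * (Nα n * Nβ n))
    with hbaddef
  have hbadc : ∀ n ∈ S, (bad n).card < k' := fun n hn =>
    clB_card_primes Q Z k' _ hQ' (hbad n hn).1 (hbad n hn).2
  -- the empty cluster
  have hempty : ∀ q : ℕ, ClusDvd α u v q ∅ := by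
    intro q N s r Pc κ _ x R hR M _
    have : R = ∅ := by
      rw [Finset.eq_empty_iff_forall_notMem]
      intro i hi
      exact absurd (hR i hi) (Finset.notMem_empty _)
    rw [this]
    simp
  -- the most popular set of bad primes
  obtain ⟨B, hBQ, hB⟩ := Finset.exists_max_image Q.powerset
    (fun B => (S.filter (fun n => bad n = B)).card) ⟨∅, Finset.empty_mem_powerset Q⟩
  set S' := S.filter (fun n => bad n = B) with hS'
  have hSS' : S.card ≤ 2 ^ K₀ * S'.card := by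
    have h1 : S.card = ∑ B' ∈ Q.powerset, (S.filter (fun n => bad n = B')).card :=
      Finset.card_eq_sum_card_fiberwise
        (fun n _ => Finset.mem_powerset.2 (Finset.filter_subset _ _))
    rw [h1]
    refine (Finset.sum_le_card_nsmul _ _ _ hB).trans ?_
    rw [smul_eq_mul, Finset.card_powerset, hQc]
  by_cases hsmall : S'.card ≤ 2 * a * e
  · -- few solutions: the empty cluster will do
    have hne : (Q \ F).Nonempty := by
      rw [← Finset.card_pos]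
      have := Finset.le_card_sdiff F Q
      omega
    obtain ⟨q, hq⟩ := hne
    rw [Finset.mem_sdiff] at hq
    refine ⟨q, (hQ' q hq.1).1, hq.2, (hQ' q hq.1).2, ∅, Finset.empty_subset _, ?_, hempty q⟩
    rw [Finset.card_empty, mul_zero, zero_add, mul_one]
    calc S.card ≤ 2 ^ K₀ * S'.card := hSS'
      _ ≤ 2 ^ K₀ * (2 * a * e + 2 * a * (2 ^ K₀ * 16)) :=
        Nat.mul_le_mul_left _ (hsmall.trans (Nat.le_add_right _ _))
  · push Not at hsmall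
    have hS'ne : S'.Nonempty := Finset.card_pos.1 (by omega)
    obtain ⟨n0, hn0⟩ := hS'ne
    have hn0' := Finset.mem_filter.1 hn0
    have hBc : B.card < k' := by rw [← hn0'.2]; exact hbadc n0 hn0'.1
    set Q2 : Finset ℕ := (Q \ B) \ F with hQ2
    have hQ2c : 2 * k ≤ Q2.card := by
      have h1 := Finset.le_card_sdiff B Q
      have h2 : ((Q \ B).card - F.card) ≤ Q2.card := Finset.le_card_sdiff F (Q \ B)
      have h3 : Q.card = 2 * k + k' + J := hQc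
      omega
    have hQ2m : ∀ q ∈ Q2, q ∈ Q ∧ q ∉ B ∧ q ∉ F := by
      intro q hq
      rw [hQ2, Finset.mem_sdiff, Finset.mem_sdiff] at hq
      exact ⟨hq.1.1, hq.1.2, hq.2⟩
    set pt : ℤ → ℤ × ℤ × ℤ := fun n => (u n, v n, n) with hpt
    have hptinj : Set.InjOn pt (S' : Set ℤ) := fun x _ y _ h => congrArg (fun P => P.2.2) h
    have hcardpt : (S'.image pt).card = S'.card := Finset.card_image_of_injOn hptinj
    have hS'S : ∀ n ∈ S', n ∈ S := fun n hn => (Finset.mem_filter.1 hn).1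
    obtain ⟨q, hqQ2, C1, hC1, hC1c, x0, y0, hxy, hC1p⟩ := exists_cluster a e k Z T hT G hG hG0 hGa hGe
      hGT (S'.image pt)
      (by intro P hP; obtain ⟨n, hn, rfl⟩ := Finset.mem_image.1 hP; exact hv n (hS'S n hn))
      (by intro P hP; obtain ⟨n, hn, rfl⟩ := Finset.mem_image.1 hP; exact hST n (hS'S n hn))
      (by
        intro P hP P' hP' h
        obtain ⟨n, hn, rfl⟩ := Finset.mem_image.1 hP
        obtain ⟨n', hn', rfl⟩ := Finset.mem_image.1 hP'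
        have := hinj n (hS'S n hn) n' (hS'S n' hn') h
        rw [this])
      (by intro P hP; obtain ⟨n, hn, rfl⟩ := Finset.mem_image.1 hP; exact hz n (hS'S n hn))
      Q2 (fun q hq => hQ' q (hQ2m q hq).1) hQ2c hZT (by rw [hcardpt]; exact hsmall)
    obtain ⟨hqQ, hqB, hqF⟩ := hQ2m q hqQ2
    obtain ⟨hqp, hqZ, hqZ'⟩ := hQ q hqQ
    have hqpz : Prime (q : ℤ) := Nat.prime_iff_prime_int.1 hqp
    set C2 : Finset ℤ := S'.filter (fun n => pt n ∈ C1) with hC2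
    have hC2c : C1.card ≤ C2.card := by
      have h1 : C1 ⊆ C2.image pt := by
        intro P hP
        obtain ⟨n, hn, hnP⟩ := Finset.mem_image.1 (hC1 hP)
        exact Finset.mem_image.2 ⟨n, Finset.mem_filter.2 ⟨hn, by rw [hnP]; exact hP⟩, hnP⟩
      exact (Finset.card_le_card h1).trans Finset.card_image_le
    have hC2S : ∀ n ∈ C2, n ∈ S := fun n hn => hS'S n (Finset.mem_filter.1 hn).1
    have hC2p : ∀ n ∈ C2, ¬ (q : ℤ) ∣ v n ∧ (q : ℤ) ∣ v n * x0 - u n ∧ (q : ℤ) ∣ n - y0 :=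
      fun n hn => hC1p (pt n) (Finset.mem_filter.1 hn).2
    have hgood : ∀ n ∈ C2, ¬ (q : ℤ) ∣ 2 * D₀ * (Nα n * Nβ n) := by
      intro n hn h
      have h1 := (Finset.mem_filter.1 (Finset.mem_filter.1 hn).1).2
      apply hqB
      rw [← h1]
      exact Finset.mem_filter.2 ⟨hqQ, h⟩
    -- is `C2` empty?
    rcases C2.eq_empty_or_nonempty with hC2e | ⟨n1, hn1⟩
    · refine ⟨q, hqp, hqF, hqZ, ∅, Finset.empty_subset _, ?_, hempty q⟩
      rw [hC2e, Finset.card_empty] at hC2c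
      have h3 : C1.card = 0 := by omega
      rw [h3, mul_zero, hcardpt] at hC1c
      omega
    have hqD : ¬ (q : ℤ) ∣ D₀ := fun h =>
      hgood n1 hn1 ((h.mul_left 2).mul_right _)
    have hq2 : q ≠ 2 := by
      intro h
      apply hgood n1 hn1
      rw [h]
      exact ((dvd_refl (2 : ℤ)).mul_right _).mul_right _
    have hqα : ∀ n ∈ C2, ¬ (q : ℤ) ∣ Nα n := fun n hn h =>
      hgood n hn ((h.mul_right _).mul_left _)
    have hqβ : ∀ n ∈ C2, ¬ (q : ℤ) ∣ Nβ n := fun n hn h =>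
      hgood n hn ((h.mul_left _).mul_left _)
    have hrel' : ∀ n ∈ C2, ∀ σ, (∑ j, (α n j : ℂ) * ζ σ ^ (j : ℕ)) ^ 2 *
        ((u n : ℂ) * (∑ j, (f1 j : ℂ) * ζ σ ^ (j : ℕ)) +
          (v n : ℂ) * (∑ j, (f2 j : ℂ) * ζ σ ^ (j : ℕ))) =
          ((m ^ 2 : ℤ) : ℂ) * ((n : ℂ) - ζ σ) := by
      intro n hn σ
      rw [Int.cast_pow]
      exact hrel n (hC2S n hn) σ
    obtain ⟨C', hC'C2, hC'c, hC'p⟩ := exists_prop_subset g hg hd (by norm_num) ζ hζ hroot D₀ a₀ b₀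
      hab q hqp hqD C2 f1 f2 (m ^ 2) u v (fun n => n) α hrel' x0 y0 hC2p Nβ
      (fun n hn => hNβ n (hC2S n hn)) hqβ
    refine ⟨q, hqp, hqF, hqZ, C', fun n hn => hC2S n (hC'C2 hn), ?_, ?_⟩
    · -- the count
      rw [hcardpt] at hC1c
      have h1 : S'.card ≤ 2 * a * e + 2 * a * q * (2 ^ 4 * C'.card) :=
        hC1c.trans (Nat.add_le_add_left (Nat.mul_le_mul_left _ (hC2c.trans hC'c)) _)
      have h2 : 2 * a * q * (2 ^ 4 * C'.card) ≤ 2 * a * (2 ^ K₀ * 16) * (Z * C'.card) := by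
        calc 2 * a * q * (2 ^ 4 * C'.card) ≤ 2 * a * (2 ^ K₀ * Z) * (2 ^ 4 * C'.card) :=
              Nat.mul_le_mul_right _ (Nat.mul_le_mul_left _ hqZ')
          _ = 2 * a * (2 ^ K₀ * 16) * (Z * C'.card) := by ring
      calc S.card ≤ 2 ^ K₀ * S'.card := hSS'
        _ ≤ 2 ^ K₀ * (2 * a * e + 2 * a * (2 ^ K₀ * 16) * (Z * C'.card)) :=
          Nat.mul_le_mul_left _ (h1.trans (Nat.add_le_add_left h2 _))
        _ ≤ 2 ^ K₀ * (2 * a * e + 2 * a * (2 ^ K₀ * 16)) * (Z * C'.card + 1) := by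
          rw [mul_assoc (2 ^ K₀)]
          refine Nat.mul_le_mul_left _ ?_
          have h3 : (2 * a * e + 2 * a * (2 ^ K₀ * 16)) * (Z * C'.card + 1) =
              (2 * a * e + 2 * a * (2 ^ K₀ * 16) * (Z * C'.card)) +
                (2 * a * e * (Z * C'.card) + 2 * a * (2 ^ K₀ * 16)) := by ring
          rw [h3]
          exact Nat.le_add_right _ _
    · -- the divisibility
      intro N s r Pc κ hPc x R hR M hM
      have hmem : ∀ i ∈ R, x i ∈ C2 := fun i hi => hC'C2 (hR i hi)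
      have := qet_roots g hg hd (by norm_num) ζ hζ hroot q hqp hq2 e G hGe R M f1 f2 (m ^ 2)
        (fun i => u (x i)) (fun i => v (x i)) x (fun i => α (x i))
        (fun i hi => hrel' (x i) (hmem i hi)) (fun i hi => hz (x i) (hC2S _ (hmem i hi))) x0 y0
        (fun i hi => hC2p (x i) (hmem i hi)) hxy
        (fun i hi j hj => hC'p (x i) (hR i hi) (x j) (hR j hj))
        (fun i => Nα (x i)) (fun i => Nβ (x i)) (fun i hi => hNα (x i) (hC2S _ (hmem i hi)))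
        (fun i hi => hNβ (x i) (hC2S _ (hmem i hi))) (fun i hi => hqα (x i) (hmem i hi))
        (fun i hi => hqβ (x i) (hmem i hi)) s r
        (fun c => (Pc c).image (fun p => (s - p.1, p.2)))
        (fun c p => κ c (s - p.1, p.2)) ?_ ?_
      · rwa [Nat.choose_two_right] at this
      · intro c p hp
        obtain ⟨p', hp', rfl⟩ := Finset.mem_image.1 hp
        exact ⟨Nat.sub_le _ _, (hPc c p' hp').2⟩
      · intro i hi c
        rw [hM i hi c, Finset.sum_image]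
        · refine Finset.sum_congr rfl fun p hp => ?_
          have h1 := (hPc c p hp).1
          have h2 : s - (s - p.1) = p.1 := by omega
          simp only [h2]
        · intro p hp p' hp' h
          have h1 := (hPc c p hp).1
          have h1' := (hPc c p' hp').1
          have h2 := congrArg Prod.fst h
          have h3 := congrArg Prod.snd h
          simp only at h2 h3
          exact Prod.ext (by omega) h3

/-- **Clusters on curves of beta-slices.** -/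
theorem exists_clusterB (g : ℤ[X]) (hg : g.Monic) (hirr : Irreducible g) (hd : g.natDegree = 4)
    (a e J : ℕ) (K A ρ : ℝ) (hρ : 0 < ρ) : ∃ C1 Y0 : ℝ, 1 ≤ C1 ∧ ∀ Y P : ℝ, Y0 ≤ Y → 1 ≤ P →
    P ≤ Y ^ A → ∀ Z : ℕ, Y ^ ρ ≤ (Z : ℝ) → ∀ (m : ℤ) (f1 f2 : Fin 4 → ℤ), ∀ G : ℤ[X][X],
    Irreducible G → 0 < G.natDegree → G.natDegree ≤ a → (∀ j, (G.coeff j).natDegree ≤ e) →
    (∀ j k, |(((G.coeff j).coeff k : ℤ) : ℝ)| ≤ Y ^ A) →
    ∀ (S : Finset ℤ) (p : ℤ → ℕ) (α β : ℤ → Fin 4 → ℤ) (u v : ℤ → ℤ),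
    (∀ n ∈ S, IsSol 4 g K Y P n (p n) (α n) (β n) m ∧ OnSlice f1 f2 (β n) (u n) (v n) ∧
      |(u n : ℝ)| ≤ Y ^ A ∧ |(v n : ℝ)| ≤ Y ^ A ∧ v n ≠ 0 ∧ hev e G (u n) (v n) n = 0) →
    (∀ n ∈ S, ∀ n' ∈ S, u n * v n' = u n' * v n → n = n') →
    ∀ F : Finset ℕ, F.card < J → ∃ q : ℕ, q.Prime ∧ q ∉ F ∧ Z ≤ q ∧ ∃ C' ⊆ S,
      (S.card : ℝ) ≤ C1 * (Z * C'.card + 1) ∧ ClusDvd α u v q C' := by
  classical
  obtain ⟨ζ, hζ, hroot⟩ := clB_roots g hg hirr hd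
  obtain ⟨D₀, a₀, b₀, hD₀, hab⟩ := exists_disc g hg hirr
  set A1 : ℝ := max A 2 with hA1
  have hA12 : 2 ≤ A1 := le_max_right _ _
  have hAA1 : A ≤ A1 := le_max_left _ _
  set w : ℕ := a + e + 2 with hw
  set k : ℕ := ⌈(A1 * w + 1) / ρ⌉₊ with hk
  set k' : ℕ := ⌈5 / ρ⌉₊ with hk'
  have hkρ : A1 * w + 1 ≤ ρ * k := by
    have h1 : (A1 * w + 1) / ρ ≤ k := Nat.le_ceil _
    rw [div_le_iff₀ hρ] at h1
    linarith
  have hk'ρ : 5 ≤ ρ * k' := by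
    have h1 : 5 / ρ ≤ k' := Nat.le_ceil _
    rw [div_le_iff₀ hρ] at h1
    linarith
  set c₁ : ℝ := ((a + 1) * (e + 1) * a : ℕ) * 2 ^ w with hc₁
  set c₂ : ℝ := 2 * |(D₀ : ℝ)| * K ^ 8 with hc₂
  have hc₁0 : 0 ≤ c₁ := by positivity
  have hc₂0 : 0 ≤ c₂ := by positivity
  refine ⟨((2 ^ (2 * k + k' + J) * (2 * a * e + 2 * a * (2 ^ (2 * k + k' + J) * 16)) : ℕ) : ℝ) + 1,
    c₁ + c₂ + 2, by
      have : (0 : ℝ) ≤ ((2 ^ (2 * k + k' + J) *
        (2 * a * e + 2 * a * (2 ^ (2 * k + k' + J) * 16)) : ℕ) : ℝ) := Nat.cast_nonneg _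
      linarith, ?_⟩
  intro Y P hY0 hP1 hPA Z hZ m f1 f2 G hG hG0 hGa hGe hGT S p α β u v hsol hinj F hF
  have hY2 : 2 ≤ Y := by linarith
  have hY1 : 1 ≤ Y := by linarith
  have hYpos : 0 < Y := by linarith
  have hYc₁ : c₁ < Y := by linarith
  have hYc₂ : c₂ < Y := by linarith
  have hYρ : 1 ≤ Y ^ ρ := Real.one_le_rpow hY1 hρ.le
  have hZ1 : 1 ≤ Z := by
    have : (1 : ℝ) ≤ Z := hYρ.trans hZ
    exact_mod_cast this
  set T : ℤ := ⌈Y ^ A1⌉ with hT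
  have hYA1 : 1 ≤ Y ^ A1 := Real.one_le_rpow hY1 (by linarith)
  have hTge : Y ^ A1 ≤ (T : ℝ) := Int.le_ceil _
  have hTle : (T : ℝ) ≤ 2 * Y ^ A1 := by
    have := (Int.ceil_lt_add_one (Y ^ A1)).le
    linarith
  have hT1 : 1 ≤ T := by
    have : (1 : ℝ) ≤ T := hYA1.trans hTge
    exact_mod_cast this
  have hYAA1 : Y ^ A ≤ Y ^ A1 := Real.rpow_le_rpow_of_exponent_le hY1 hAA1
  have habs : ∀ z : ℤ, |(z : ℝ)| ≤ Y ^ A1 → |z| ≤ T := by
    intro z hz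
    have : ((|z| : ℤ) : ℝ) ≤ T := by
      rw [Int.cast_abs]
      exact hz.trans hTge
    exact_mod_cast this
  have hZk : ∀ (x : ℝ) (j : ℕ), x ≤ ρ * j → Y ^ x ≤ (Z : ℝ) ^ j := by
    intro x j hx
    calc Y ^ x ≤ Y ^ (ρ * j) := Real.rpow_le_rpow_of_exponent_le hY1 hx
      _ = (Y ^ ρ) ^ j := by rw [Real.rpow_mul hYpos.le, Real.rpow_natCast]
      _ ≤ (Z : ℝ) ^ j := pow_le_pow_left₀ (by positivity) hZ j
  have hZT : (((a + 1) * (e + 1) * a : ℕ) : ℤ) * T ^ (a + e + 2) < (Z : ℤ) ^ k := by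
    have h1 : ((((a + 1) * (e + 1) * a : ℕ) : ℝ)) * (T : ℝ) ^ w < (Z : ℝ) ^ k := by
      have hT0 : (0 : ℝ) ≤ T := by linarith
      calc ((((a + 1) * (e + 1) * a : ℕ) : ℝ)) * (T : ℝ) ^ w
          ≤ (((a + 1) * (e + 1) * a : ℕ) : ℝ) * (2 * Y ^ A1) ^ w := by
            refine mul_le_mul_of_nonneg_left (pow_le_pow_left₀ hT0 hTle w) (Nat.cast_nonneg _)
        _ = c₁ * Y ^ (A1 * w) := by
            rw [hc₁, mul_pow, Real.rpow_mul hYpos.le, Real.rpow_natCast]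
            ring
        _ < Y * Y ^ (A1 * w) := by
            exact mul_lt_mul_of_pos_right hYc₁ (Real.rpow_pos_of_pos hYpos _)
        _ = Y ^ (A1 * w + 1) := by
            rw [Real.rpow_add hYpos, Real.rpow_one, mul_comm]
        _ ≤ (Z : ℝ) ^ k := hZk _ _ hkρ
    exact_mod_cast h1
  -- norms
  have hnorm : ∀ n ∈ S, ∃ Nα Nβ : ℤ, (Nα : ℂ) = ∏ σ, ev (α n) (ζ σ) ∧
      (Nβ : ℂ) = ∏ σ, ev (β n) (ζ σ) ∧ Nα ≠ 0 ∧ Nβ ≠ 0 ∧
      |((Nα * Nβ : ℤ) : ℝ)| ≤ K ^ 8 * Y ^ 4 := fun n hn =>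
    clB_norms g hg hd ζ hζ hroot hY1 hP1 (hsol n hn).1
  choose! Nα Nβ hNα hNβ hNα0 hNβ0 hNb using hnorm
  have hslice : ∀ n ∈ S, ∀ σ, ev (β n) (ζ σ) = (u n : ℂ) * ev f1 (ζ σ) + (v n : ℂ) * ev f2 (ζ σ) :=
    fun n hn σ => ev_slice (hsol n hn).2.1 (ζ σ)
  obtain ⟨q, hq, hqF, hqZ, C', hC'S, hcard, hdvd⟩ := clusterB_core g hg hd ζ hζ hroot D₀ a₀ b₀ hab
    a e k k' J Z hZ1 T hT1 hZT G hG hG0 hGa hGe
    (fun i j => habs _ ((hGT i j).trans hYAA1)) m f1 f2 S α u v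
    (fun n hn σ => by
      rw [← hslice n hn σ]
      exact (hsol n hn).1.eq_at (hroot σ))
    (fun n hn => (hsol n hn).2.2.2.2.1)
    (fun n hn => ⟨habs _ ((hsol n hn).2.2.1.trans hYAA1), habs _ ((hsol n hn).2.2.2.1.trans hYAA1),
      habs _ (by
        have h1 := (hsol n hn).1.upper.le
        have h2 : 2 * Y ≤ Y ^ (2 : ℝ) := by
          have h3 : Y ^ (2 : ℝ) = Y * Y := by
            rw [show (2 : ℝ) = ((2 : ℕ) : ℝ) by norm_num, Real.rpow_natCast, pow_two]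
          rw [h3]
          exact mul_le_mul_of_nonneg_right hY2 hYpos.le
        exact h1.trans (h2.trans (Real.rpow_le_rpow_of_exponent_le hY1 hA12)))⟩)
    hinj (fun n hn => (hsol n hn).2.2.2.2.2) Nα Nβ hNα
    (fun n hn => by
      rw [hNβ n hn]
      exact Finset.prod_congr rfl fun σ _ => hslice n hn σ)
    (fun n hn => ⟨mul_ne_zero (mul_ne_zero two_ne_zero hD₀) (mul_ne_zero (hNα0 n hn) (hNβ0 n hn)), by
      have h1 : |((2 * D₀ * (Nα n * Nβ n) : ℤ) : ℝ)| < (Z : ℝ) ^ k' := by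
        calc |((2 * D₀ * (Nα n * Nβ n) : ℤ) : ℝ)| = 2 * |(D₀ : ℝ)| * |((Nα n * Nβ n : ℤ) : ℝ)| := by
              push_cast
              rw [abs_mul, abs_mul, abs_of_pos (by norm_num : (0 : ℝ) < 2)]
          _ ≤ 2 * |(D₀ : ℝ)| * (K ^ 8 * Y ^ 4) :=
              mul_le_mul_of_nonneg_left (hNb n hn) (by positivity)
          _ = c₂ * Y ^ 4 := by rw [hc₂]; ring
          _ < Y * Y ^ 4 := mul_lt_mul_of_pos_right hYc₂ (by positivity)
          _ = Y ^ (5 : ℝ) := by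
              rw [show (5 : ℝ) = ((5 : ℕ) : ℝ) by norm_num, Real.rpow_natCast]
              ring
          _ ≤ (Z : ℝ) ^ k' := hZk _ _ hk'ρ
      have h2 : ((|2 * D₀ * (Nα n * Nβ n)| : ℤ) : ℝ) < (((Z : ℤ) ^ k' : ℤ) : ℝ) := by
        rw [Int.cast_abs]
        push_cast at h1 ⊢
        exact h1
      exact_mod_cast h2⟩) F hF
  refine ⟨q, hq, hqF, hqZ, C', hC'S, ?_, hdvd⟩
  have h1 := (Nat.cast_le (α := ℝ)).2 hcard
  rw [Nat.cast_mul] at h1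
  refine h1.trans ?_
  have h2 : (((Z * C'.card + 1 : ℕ)) : ℝ) = (Z : ℝ) * C'.card + 1 := by push_cast; ring
  rw [h2]
  have h3 : (0 : ℝ) ≤ (Z : ℝ) * C'.card + 1 := by positivity
  exact mul_le_mul_of_nonneg_right (le_add_of_nonneg_right zero_le_one) h3

/-- `exists_clusterB` for monomial columns, in the form used by `Cluster.HasCluster`. -/
theorem hasClusterB (g : ℤ[X]) (hg : g.Monic) (hirr : Irreducible g) (hd : g.natDegree = 4)
    (a e J : ℕ) (K A ρ : ℝ) (hρ : 0 < ρ) : ∃ C1 Y0 : ℝ, 1 ≤ C1 ∧ ∀ Y P : ℝ, Y0 ≤ Y → 1 ≤ P →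
    P ≤ Y ^ A → ∀ Z : ℕ, Y ^ ρ ≤ (Z : ℝ) → ∀ (m : ℤ) (f1 f2 : Fin 4 → ℤ),
    (∀ j, |(f1 j : ℝ)| ≤ Y ^ A) → (∀ j, |(f2 j : ℝ)| ≤ Y ^ A) → ∀ G : ℤ[X][X],
    Irreducible G → 0 < G.natDegree → G.natDegree ≤ a → (∀ j, (G.coeff j).natDegree ≤ e) →
    (∀ j k, |(((G.coeff j).coeff k : ℤ) : ℝ)| ≤ Y ^ A) →
    ∀ (S : Finset ℤ) (p : ℤ → ℕ) (α β : ℤ → Fin 4 → ℤ) (u v : ℤ → ℤ),
    (∀ n ∈ S, IsSol 4 g K Y P n (p n) (α n) (β n) m ∧ OnSlice f1 f2 (β n) (u n) (v n) ∧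
      |(u n : ℝ)| ≤ Y ^ A ∧ |(v n : ℝ)| ≤ Y ^ A ∧ v n ≠ 0 ∧ hev e G (u n) (v n) n = 0) →
    (∀ n ∈ S, ∀ n' ∈ S, u n * v n' = u n' * v n → n = n') →
    ∀ F : Finset ℕ, F.card < J → ∃ q : ℕ, q.Prime ∧ q ∉ F ∧ Z ≤ q ∧ ∃ C' ⊆ S,
      (S.card : ℝ) ≤ C1 * (Z * C'.card + 1) ∧
      ∀ (N s r : ℕ) (cols : Fin N → ℕ × (Fin 4 → ℕ)),
        (∀ c, (cols c).1 ≤ s ∧ ∑ j, (cols c).2 j = r) → ∀ (x : Fin N → ℤ) (R : Finset (Fin N)),
        (∀ i ∈ R, x i ∈ C') → (q : ℤ) ^ (R.card * (R.card - 1) / 2) ∣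
          Matrix.det (Matrix.of fun i c => u (x i) ^ (cols c).1 * v (x i) ^ (s - (cols c).1) *
            ∏ j, α (x i) j ^ (cols c).2 j) := by
  obtain ⟨C1, Y0, hC1, h⟩ := exists_clusterB g hg hirr hd a e J K A ρ hρ
  refine ⟨C1, Y0, hC1, ?_⟩
  intro Y P hY0 hP1 hPA Z hZ m f1 f2 _ _ G hG hG0 hGa hGe hGT S p α β u v hsol hinj F hF
  obtain ⟨q, hq, hqF, hqZ, C', hC'S, hcard, hdvd⟩ := h Y P hY0 hP1 hPA Z hZ m f1 f2 G hG hG0 hGa
    hGe hGT S p α β u v hsol hinj F hF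
  refine ⟨q, hq, hqF, hqZ, C', hC'S, hcard, ?_⟩
  intro N s r cols hcols x R hR
  refine hdvd N s r (fun c => {cols c}) (fun _ _ => 1) ?_ x R hR _ ?_
  · intro c p hp
    rw [Finset.mem_singleton] at hp
    rw [hp]
    exact hcols c
  · intro i _ c
    rw [Finset.sum_singleton, one_mul]
    rfl

end Pool.Agent.Lib.SQF
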