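import Mathlib

/-!
# SQF, numerics for the beta-slices (v0 S9): the free gain

`GainF N w G`: every set of `N` pairs `(i, l)` has weight `∑ (w * i + l) ≥ G`.
-/

set_option autoImplicit false

open Finset

namespace Pool.Agent.Lib.SQF

/-- the sum of `N` distinct weights `w * i + l` is at least `G` -/
def GainF (N : ℕ) (w G : ℝ) : Prop :=
  ∀ E : Finset (ℕ × ℕ), E.card = N → G ≤ ∑ x ∈ E, (w * x.1 + x.2)

theorem GainF.mono {N : ℕ} {w w' G G' : ℝ} (h : GainF N w G) (hw : w ≤ w') (hG : G' ≤ G) :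
    GainF N w' G' := by
  intro E hE
  refine le_trans hG (le_trans (h E hE) (Finset.sum_le_sum ?_))
  intro x _
  have : (0 : ℝ) ≤ (x.1 : ℝ) := Nat.cast_nonneg _
  nlinarith

/-- certificate for the free gain: threshold `Θ`, rows `n l` -/
theorem gainF_of (N : ℕ) (w Θ : ℝ) (L : ℕ) (n : ℕ → ℕ) (hw : 0 ≤ w)
    (h1 : ∀ l < L, Θ - l ≤ w * n l) (h2 : ∀ l < L, w * ((n l : ℝ) - 1) ≤ Θ - l) (h3 : Θ ≤ L) :
    GainF N w (N * Θ - ∑ l ∈ range L, (n l * (Θ - l) - w * (n l * ((n l : ℝ) - 1) / 2))) := by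
  classical
  intro E hE
  set B : Finset (ℕ × ℕ) := ((range L).sigma (fun l => range (n l))).image
    (fun x => (x.2, x.1)) with hB
  have hmem : ∀ x : ℕ × ℕ, x ∈ B ↔ x.2 < L ∧ x.1 < n x.2 := by
    intro x
    rcases x with ⟨i, l⟩
    simp only [hB, Finset.mem_image, Finset.mem_sigma, Finset.mem_range]
    constructor
    · rintro ⟨⟨a, b⟩, ⟨h1, h2⟩, h3⟩
      cases h3
      exact ⟨h1, h2⟩
    · rintro ⟨h1, h2⟩
      exact ⟨⟨l, i⟩, ⟨h1, h2⟩, rfl⟩
  have hsumB : ∑ x ∈ B, (Θ - (w * x.1 + x.2)) =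
      ∑ l ∈ range L, (n l * (Θ - l) - w * (n l * ((n l : ℝ) - 1) / 2)) := by
    rw [hB, Finset.sum_image, Finset.sum_sigma]
    · refine Finset.sum_congr rfl ?_
      intro l _
      have hs : ∀ m : ℕ, ∑ i ∈ range m, (i : ℝ) = m * ((m : ℝ) - 1) / 2 := by
        intro m
        induction m with
        | zero => simp
        | succ m ih => rw [Finset.sum_range_succ, ih]; push_cast; ring
      have : ∀ i ∈ range (n l), (Θ - (w * (i : ℝ) + (l : ℝ))) = (Θ - l) - w * i := by
        intro i _; ring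
      show ∑ i ∈ range (n l), (Θ - (w * (i : ℝ) + (l : ℝ))) = _
      rw [Finset.sum_congr rfl this, Finset.sum_sub_distrib, Finset.sum_const, Finset.card_range,
        ← Finset.mul_sum, hs, nsmul_eq_mul]
    · rintro ⟨a, b⟩ _ ⟨c, d⟩ _ h
      simp only [Prod.mk.injEq] at h
      obtain ⟨h1, h2⟩ := h
      subst h1; subst h2; rfl
  have h4 : ∑ x ∈ E, (Θ - (w * (x.1 : ℝ) + x.2)) ≤ ∑ x ∈ B, (Θ - (w * (x.1 : ℝ) + x.2)) := by
    have e1 : ∑ x ∈ E, (Θ - (w * (x.1 : ℝ) + x.2)) ≤
        ∑ x ∈ E.filter (fun x => x ∈ B), (Θ - (w * (x.1 : ℝ) + x.2)) := by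
      rw [← Finset.sum_filter_add_sum_filter_not E (fun x => x ∈ B)]
      have : ∑ x ∈ E.filter (fun x => ¬ x ∈ B), (Θ - (w * (x.1 : ℝ) + x.2)) ≤ 0 := by
        refine Finset.sum_nonpos ?_
        intro x hx
        rw [Finset.mem_filter, hmem] at hx
        have hx2 := hx.2
        have hi0 : (0 : ℝ) ≤ w * (x.1 : ℝ) := mul_nonneg hw (Nat.cast_nonneg _)
        by_cases hl : x.2 < L
        · have hi : n x.2 ≤ x.1 := by
            by_contra hcon
            exact hx2 ⟨hl, by omega⟩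
          have h5 := h1 x.2 hl
          have h6 : w * (n x.2 : ℝ) ≤ w * (x.1 : ℝ) :=
            mul_le_mul_of_nonneg_left (by exact_mod_cast hi) hw
          linarith
        · have : (L : ℝ) ≤ (x.2 : ℝ) := by exact_mod_cast (not_lt.mp hl)
          linarith
      linarith
    refine le_trans e1 (Finset.sum_le_sum_of_subset_of_nonneg ?_ ?_)
    · intro x hx
      exact (Finset.mem_filter.mp hx).2
    · intro x hx _
      rw [hmem] at hx
      have h7 := h2 x.2 hx.1
      have h8 : (x.1 : ℝ) ≤ (n x.2 : ℝ) - 1 := by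
        have : (x.1 : ℝ) + 1 ≤ (n x.2 : ℝ) := by exact_mod_cast hx.2
        linarith
      have h9 : w * (x.1 : ℝ) ≤ w * ((n x.2 : ℝ) - 1) := mul_le_mul_of_nonneg_left h8 hw
      linarith
  rw [hsumB, Finset.sum_sub_distrib, Finset.sum_const, hE, nsmul_eq_mul] at h4
  linarith

/-- number of forms `t^a * α^J`, `a ≤ i`, `|J| = s`, on a beta-slice (`card_idxB`) -/
def NB (i s : ℕ) : ℕ := 2 + 4 * i * s + 2 * s ^ 2

/-- Certificate for the beta-slices with `|u|, |v| ≤ C Y^v`, `v = (2/3) k + x`, `x0 ≤ x ≤ x1`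
(at most `Y^((8/3) k - 2 x + ε)` slices), valid for all `d ∈ [383/1000, 51/100]`,
`h = (1 + d)/4`, `k = (1 - d)/2`. Forms of bidegree `(i, s)` (degree `i` in `(u, v)`, `s` in `α`),
sign norm of `n`-degree `≤ 4 s`; scales `w 0 > w 1 > .. > w T > 0`, richnesses
`0 = ρ 0 < ρ 1 < .. < ρ (T+1)`; single curve bound with the ranks `R_m = R_0 - 8 m`,
`R_0 = 2 i1 + 3 b1 - 2`. -/
def CertB (x0 x1 : ℝ) : Prop :=
  ∃ (i s T i1 b1 I e : ℕ) (w ρ G : ℕ → ℝ) (η : ℝ),
    0 < η ∧ 1 ≤ i ∧ 1 ≤ s ∧ (∀ l ≤ T, 0 < w l) ∧ (∀ l < T, w (l + 1) < w l) ∧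
    ρ 0 = 0 ∧ (∀ l ≤ T, ρ l < ρ (l + 1)) ∧
    1 ≤ i1 ∧ 1 ≤ b1 ∧ I ≤ i1 ∧ 2 * I < b1 ∧ 8 * I + 2 < 2 * i1 + 3 * b1 ∧
    (4 * s + 1) * (2 * e + NB i s) ≤ NB i s ^ 2 ∧
    (∀ l ≤ T, GainF (NB i s) (w l) (G l)) ∧
    ∀ d : ℝ, 383 / 1000 ≤ d → d ≤ 51 / 100 →
      (∀ l ≤ T, (NB i s : ℝ) * (i * (2 / 3 * ((1 - d) / 2) + x1) + s * ((1 + d) / 4)) - G l + η ≤
        ρ l * e) ∧
      (∀ l ≤ T, w l + ρ (l + 1) + η ≤ 1 - 8 / 3 * ((1 - d) / 2) + 2 * x0) ∧
      (2 * i1 + 3 * b1 - 2 : ℝ) * (i1 * (2 / 3 * ((1 - d) / 2) + x1) + b1 * ((1 + d) / 4)) -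
          ((2 / 3 * ((1 - d) / 2) + x1) + 2 * ((1 + d) / 4)) *
            ∑ m ∈ Finset.Icc 1 I, ((2 * i1 + 3 * b1 - 2 : ℝ) - 8 * m) + η ≤
        ρ (T + 1) * ((2 * i1 + 3 * b1 - 2 : ℝ) * ((2 * i1 + 3 * b1 - 2 : ℝ) - 1) / 2)

/-- closed form of the rank sum -/
theorem sum_sub_eight (R : ℝ) (I : ℕ) :
    ∑ m ∈ Finset.Icc 1 I, (R - 8 * (m : ℝ)) = I * R - 4 * I * (I + 1) := by
  induction I with
  | zero => simp
  | succ n ih =>
    rw [Finset.sum_Icc_succ_top (by omega), ih]
    push_cast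
    ring

private lemma gB0 : GainF (NB 11 10) (709 / 10000) (1872793 / 500) := by
  have h := gainF_of (NB 11 10) (709 / 10000) (90117 / 10000) 10 (fun l => ([128, 114, 99, 85, 71, 57, 43, 29, 15, 1] : List ℕ).getD l 0)
    (by norm_num) (by intro l hl; interval_cases l <;> norm_num)
    (by intro l hl; interval_cases l <;> norm_num) (by norm_num)
  refine h.mono le_rfl ?_
  simp only [Finset.sum_range_succ, Finset.sum_range_zero, NB]
  norm_num

private lemma gB1 : GainF (NB 11 10) (34 / 625) (3244883 / 1000) := by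
  have h := gainF_of (NB 11 10) (34 / 625) (4896 / 625) 8 (fun l => ([145, 126, 108, 89, 71, 53, 34, 16] : List ℕ).getD l 0)
    (by norm_num) (by intro l hl; interval_cases l <;> norm_num)
    (by intro l hl; interval_cases l <;> norm_num) (by norm_num)
  refine h.mono le_rfl ?_
  simp only [Finset.sum_range_succ, Finset.sum_range_zero, NB]
  norm_num

theorem certB1 : CertB (0) (1 / 100) := by
  refine ⟨11, 10, 1, 24, 35, 17, 4705, fun l => if l = 0 then 709 / 10000 else 34 / 625, fun l => if l = 0 then 0 else if l = 1 then 319 / 3000 else 737 / 6000, fun l => if l = 0 then 1872793 / 500 else 3244883 / 1000, 1 / 10000, by norm_num, by norm_num, by norm_num,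
    ?_, ?_, by norm_num, ?_, by norm_num, by norm_num, by norm_num, by norm_num, by norm_num,
    by norm_num [NB], ?_, ?_⟩
  · intro l hl
    interval_cases l <;> norm_num
  · intro l hl
    interval_cases l <;> norm_num
  · intro l hl
    interval_cases l <;> norm_num
  · intro l hl
    interval_cases l
    · simpa using gB0
    · simpa using gB1
  · intro d hd1 hd2
    refine ⟨?_, ?_, ?_⟩
    · intro l hl
      interval_cases l <;> simp only [NB] <;> norm_num <;> linarith
    · intro l hl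
      interval_cases l <;> norm_num <;> linarith
    · rw [sum_sub_eight]
      norm_num
      linarith

private lemma gB2 : GainF (NB 11 10) (811 / 10000) (4025691 / 1000) := by
  have h := gainF_of (NB 11 10) (811 / 10000) (96509 / 10000) 10 (fun l => ([120, 107, 95, 83, 70, 58, 46, 33, 21, 9] : List ℕ).getD l 0)
    (by norm_num) (by intro l hl; interval_cases l <;> norm_num)
    (by intro l hl; interval_cases l <;> norm_num) (by norm_num)
  refine h.mono le_rfl ?_
  simp only [Finset.sum_range_succ, Finset.sum_range_zero, NB]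
  norm_num

private lemma gB3 : GainF (NB 11 10) (619 / 10000) (3480883 / 1000) := by
  have h := gainF_of (NB 11 10) (619 / 10000) (83757 / 10000) 9 (fun l => ([136, 120, 104, 87, 71, 55, 39, 23, 7] : List ℕ).getD l 0)
    (by norm_num) (by intro l hl; interval_cases l <;> norm_num)
    (by intro l hl; interval_cases l <;> norm_num) (by norm_num)
  refine h.mono le_rfl ?_
  simp only [Finset.sum_range_succ, Finset.sum_range_zero, NB]
  norm_num

theorem certB2 : CertB (1 / 100) (1 / 20) := by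
  refine ⟨11, 10, 1, 24, 35, 17, 4705, fun l => if l = 0 then 811 / 10000 else 619 / 10000, fun l => if l = 0 then 0 else if l = 1 then 871 / 7500 else 203 / 1500, fun l => if l = 0 then 4025691 / 1000 else 3480883 / 1000, 1 / 10000, by norm_num, by norm_num, by norm_num,
    ?_, ?_, by norm_num, ?_, by norm_num, by norm_num, by norm_num, by norm_num, by norm_num,
    by norm_num [NB], ?_, ?_⟩
  · intro l hl
    interval_cases l <;> norm_num
  · intro l hl
    interval_cases l <;> norm_num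
  · intro l hl
    interval_cases l <;> norm_num
  · intro l hl
    interval_cases l
    · simpa using gB2
    · simpa using gB3
  · intro d hd1 hd2
    refine ⟨?_, ?_, ?_⟩
    · intro l hl
      interval_cases l <;> simp only [NB] <;> norm_num <;> linarith
    · intro l hl
      interval_cases l <;> norm_num <;> linarith
    · rw [sum_sub_eight]
      norm_num
      linarith

private lemma gB4 : GainF (NB 11 10) (961 / 10000) (1101821 / 250) := by
  have h := gainF_of (NB 11 10) (961 / 10000) (105557 / 10000) 11 (fun l => ([110, 100, 90, 79, 69, 58, 48, 38, 27, 17, 6] : List ℕ).getD l 0)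
    (by norm_num) (by intro l hl; interval_cases l <;> norm_num)
    (by intro l hl; interval_cases l <;> norm_num) (by norm_num)
  refine h.mono le_rfl ?_
  simp only [Finset.sum_range_succ, Finset.sum_range_zero, NB]
  norm_num

theorem certB3 : CertB (1 / 20) (13 / 125) := by
  refine ⟨11, 10, 0, 24, 35, 17, 4705, fun _ => 961 / 10000, fun l => if l = 0 then 0 else 2717 / 15000, fun _ => 1101821 / 250, 1 / 10000, by norm_num, by norm_num, by norm_num,
    ?_, ?_, by norm_num, ?_, by norm_num, by norm_num, by norm_num, by norm_num, by norm_num,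
    by norm_num [NB], ?_, ?_⟩
  · intro l hl
    interval_cases l <;> norm_num
  · intro l hl
    interval_cases l <;> norm_num
  · intro l hl
    interval_cases l <;> norm_num
  · intro l hl
    interval_cases l
    · simpa using gB4
  · intro d hd1 hd2
    refine ⟨?_, ?_, ?_⟩
    · intro l hl
      interval_cases l <;> simp only [NB] <;> norm_num <;> linarith
    · intro l hl
      interval_cases l <;> norm_num <;> linarith
    · rw [sum_sub_eight]
      norm_num
      linarith

/-- the three classes of unbalanced slices cover `0 ≤ x ≤ k/3 ≤ 617/6000` -/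
theorem numB : CertB 0 (1 / 100) ∧ CertB (1 / 100) (1 / 20) ∧ CertB (1 / 20) (13 / 125) :=
  ⟨certB1, certB2, certB3⟩

end Pool.Agent.Lib.SQF
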