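import Pool.Agent.Lib.SQF.RealA

/-!
# SQF, section S5: the real determinant bound on beta-slices

`real_det_beta`: the determinant of the integral monomial forms `u^(i-a) v^a ∏ a_k^(J_k)`
(`a_k` = coordinates of `alpha`) at `N` solutions of one chart and one sign class whose `beta`
lies on one rank-2 slice, free weights `w p + q`.
-/

set_option autoImplicit false

open Polynomial Pointwise Finset

namespace Pool.Agent.Lib.SQF

/-! ## square roots near 1 -/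

lemma cpow_approx (c : ℂ) (K : ℕ) : ∃ (p : ℂ[X]) (C r : ℝ), 0 < C ∧ 0 < r ∧ r ≤ 1 / 2 ∧
    ∀ x : ℂ, ‖x‖ ≤ r → ‖(1 + x) ^ c - p.eval x‖ ≤ C * ‖x‖ ^ K := by
  have h1 : AnalyticAt ℂ (fun x : ℂ => (1 + x) ^ c) 0 := by
    apply AnalyticAt.cpow
    · fun_prop
    · fun_prop
    · simp
  obtain ⟨q, hq⟩ := h1
  have h2 := hq.isBigO_sub_partialSum_pow K
  rw [Asymptotics.isBigO_iff] at h2
  obtain ⟨C, hC⟩ := h2
  rw [Metric.eventually_nhds_iff] at hC
  obtain ⟨ε, hε, hC⟩ := hC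
  refine ⟨∑ k ∈ Finset.range K, Polynomial.C (q.coeff k) * X ^ k, |C| + 1, min (ε / 2) (1 / 2),
    by positivity, by positivity, min_le_right _ _, ?_⟩
  intro x hx
  have hx' : dist x 0 < ε := by
    rw [dist_zero_right]
    have := hx.trans (min_le_left _ _)
    linarith
  have h3 := hC hx'
  rw [zero_add] at h3
  have h4 : q.partialSum K x = (∑ k ∈ Finset.range K, Polynomial.C (q.coeff k) * X ^ k).eval x := by
    rw [FormalMultilinearSeries.partialSum, eval_finsetSum]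
    refine Finset.sum_congr rfl (fun k _ => ?_)
    rw [FormalMultilinearSeries.apply_eq_pow_smul_coeff, eval_mul, eval_C, eval_pow, eval_X,
      smul_eq_mul, mul_comm]
  rw [h4] at h3
  refine h3.trans ?_
  rw [norm_pow, norm_norm]
  refine mul_le_mul_of_nonneg_right ?_ (by positivity)
  linarith [le_abs_self C]

lemma half_sq (x : ℂ) : ((1 + x) ^ (1 / 2 : ℂ)) ^ 2 = 1 + x := by
  rw [← Complex.cpow_nat_mul]
  simp

lemma one_add_ne {x : ℂ} (hx : ‖x‖ < 1) : 1 + x ≠ 0 := by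
  intro h
  have h1 : x = -1 := by linear_combination h
  rw [h1] at hx
  simp at hx

lemma nhalf_eq (x : ℂ) : (1 + x) ^ (-(1 / 2) : ℂ) = ((1 + x) ^ (1 / 2 : ℂ))⁻¹ :=
  Complex.cpow_neg _ _

lemma near_one (c : ℂ) : ∃ r : ℝ, 0 < r ∧ r ≤ 1 / 2 ∧ ∀ x : ℂ, ‖x‖ ≤ r →
    ‖(1 + x) ^ c - 1‖ ≤ 1 / 10 := by
  have h1 : ContinuousAt (fun x : ℂ => (1 + x) ^ c) 0 := by
    apply ContinuousAt.cpow
    · fun_prop
    · fun_prop
    · simp
  have h2 := Metric.continuousAt_iff.1 h1 (1 / 10) (by norm_num)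
  obtain ⟨δ, hδ, h⟩ := h2
  refine ⟨min (δ / 2) (1 / 2), by positivity, min_le_right _ _, ?_⟩
  intro x hx
  have := h (x := x) (by
    rw [dist_zero_right]
    have := hx.trans (min_le_left _ _)
    linarith)
  rw [dist_eq_norm] at this
  simpa using this.le

lemma re_mul_pos {a b c : ℂ} (ha : ‖a - 1‖ ≤ 1 / 10) (hb : ‖b - 1‖ ≤ 1 / 10)
    (hc : ‖c - 1‖ ≤ 1 / 10) : 0 < (a * b * c).re := by
  have h1 : a * b * c - 1 = (a - 1) * (b * c) + (b - 1) * c + (c - 1) := by ring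
  have hbn : ‖b‖ ≤ 11 / 10 := by
    have : b = (b - 1) + 1 := by ring
    rw [this]
    refine (norm_add_le _ _).trans ?_
    rw [norm_one]
    linarith
  have hcn : ‖c‖ ≤ 11 / 10 := by
    have : c = (c - 1) + 1 := by ring
    rw [this]
    refine (norm_add_le _ _).trans ?_
    rw [norm_one]
    linarith
  have h2 : ‖a * b * c - 1‖ ≤ 1 / 2 := by
    rw [h1]
    refine (norm_add_le _ _).trans ?_
    have h3 : ‖(a - 1) * (b * c)‖ ≤ (1 / 10) * ((11 / 10) * (11 / 10)) := by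
      rw [norm_mul, norm_mul]
      exact mul_le_mul ha (mul_le_mul hbn hcn (norm_nonneg _) (by norm_num)) (by positivity)
        (by norm_num)
    have h4 : ‖(b - 1) * c‖ ≤ (1 / 10) * (11 / 10) := by
      rw [norm_mul]
      exact mul_le_mul hb hcn (norm_nonneg _) (by norm_num)
    have h5 := norm_add_le ((a - 1) * (b * c)) ((b - 1) * c)
    linarith
  have h6 := (Complex.abs_re_le_norm (a * b * c - 1)).trans h2
  rw [Complex.sub_re, Complex.one_re] at h6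
  have := (abs_le.1 h6).1
  linarith

/-! ## approximate equality of products, sums and determinants -/

/-- `x` and `y` are bounded by `M` and `ε`-close (relative to `M`). -/
def Nr (ε M : ℝ) (x y : ℂ) : Prop := ‖x‖ ≤ M ∧ ‖y‖ ≤ M ∧ ‖x - y‖ ≤ M * ε

lemma Nr.M_nonneg {ε M : ℝ} {x y : ℂ} (h : Nr ε M x y) : 0 ≤ M := (norm_nonneg _).trans h.1

lemma Nr.refl {ε M : ℝ} (hε : 0 ≤ ε) {x : ℂ} (h : ‖x‖ ≤ M) : Nr ε M x x :=
  ⟨h, h, by rw [sub_self, norm_zero]; exact mul_nonneg ((norm_nonneg _).trans h) hε⟩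

lemma Nr.mono {ε M M' : ℝ} (hε : 0 ≤ ε) {x y : ℂ} (h : Nr ε M x y) (hM : M ≤ M') : Nr ε M' x y :=
  ⟨h.1.trans hM, h.2.1.trans hM, h.2.2.trans (mul_le_mul_of_nonneg_right hM hε)⟩

lemma Nr.add {ε M M' : ℝ} {x y x' y' : ℂ} (h : Nr ε M x y) (h' : Nr ε M' x' y') :
    Nr ε (M + M') (x + x') (y + y') := by
  refine ⟨(norm_add_le _ _).trans (add_le_add h.1 h'.1),
    (norm_add_le _ _).trans (add_le_add h.2.1 h'.2.1), ?_⟩
  have h1 : x + x' - (y + y') = (x - y) + (x' - y') := by ring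
  rw [h1, add_mul]
  exact (norm_add_le _ _).trans (add_le_add h.2.2 h'.2.2)

lemma Nr.mul {ε M M' : ℝ} {x y x' y' : ℂ} (h : Nr ε M x y) (h' : Nr ε M' x' y') :
    Nr ε (2 * M * M') (x * x') (y * y') := by
  have hM := h.M_nonneg
  have hM' := h'.M_nonneg
  have hMM : 0 ≤ M * M' := mul_nonneg hM hM'
  refine ⟨?_, ?_, ?_⟩
  · rw [norm_mul]
    exact (mul_le_mul h.1 h'.1 (norm_nonneg _) hM).trans (by linarith)
  · rw [norm_mul]
    exact (mul_le_mul h.2.1 h'.2.1 (norm_nonneg _) hM).trans (by linarith)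
  · have h1 : x * x' - y * y' = x * (x' - y') + (x - y) * y' := by ring
    rw [h1]
    refine (norm_add_le _ _).trans ?_
    rw [norm_mul, norm_mul]
    have h2 : ‖x‖ * ‖x' - y'‖ ≤ M * (M' * ε) := mul_le_mul h.1 h'.2.2 (norm_nonneg _) hM
    have h3 : ‖x - y‖ * ‖y'‖ ≤ (M * ε) * M' :=
      mul_le_mul h.2.2 h'.2.1 (norm_nonneg _) ((norm_nonneg _).trans h.2.2)
    calc _ ≤ M * (M' * ε) + (M * ε) * M' := add_le_add h2 h3
      _ = _ := by ring

lemma Nr.pow {ε M : ℝ} (hε : 0 ≤ ε) {x y : ℂ} (h : Nr ε M x y) (n : ℕ) :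
    Nr ε ((2 * M) ^ n) (x ^ n) (y ^ n) := by
  induction n with
  | zero => simpa using Nr.refl (x := (1 : ℂ)) (M := 1) hε (by simp)
  | succ n ih =>
    have h1 := ih.mul h
    have h2 : 2 * (2 * M) ^ n * M = (2 * M) ^ (n + 1) := by ring
    rw [h2] at h1
    simpa [pow_succ] using h1

lemma Nr.prod {ε : ℝ} (hε : 0 ≤ ε) {ι : Type*} (S : Finset ι) (x y : ι → ℂ) (M : ι → ℝ)
    (h : ∀ j ∈ S, Nr ε (M j) (x j) (y j)) :
    Nr ε (∏ j ∈ S, (2 * M j)) (∏ j ∈ S, x j) (∏ j ∈ S, y j) := by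
  classical
  induction S using Finset.induction_on with
  | empty => simpa using Nr.refl (x := (1 : ℂ)) (M := 1) hε (by simp)
  | insert a S ha ih =>
    rw [Finset.prod_insert ha, Finset.prod_insert ha, Finset.prod_insert ha]
    have h1 := (h a (Finset.mem_insert_self _ _)).mul
      (ih (fun j hj => h j (Finset.mem_insert_of_mem hj)))
    exact h1

lemma Nr.sum {ε : ℝ} {ι : Type*} (S : Finset ι) (x y : ι → ℂ) (M : ι → ℝ)
    (h : ∀ j ∈ S, Nr ε (M j) (x j) (y j)) :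
    Nr ε (∑ j ∈ S, M j) (∑ j ∈ S, x j) (∑ j ∈ S, y j) := by
  classical
  induction S using Finset.induction_on with
  | empty => exact ⟨by simp, by simp, by simp⟩
  | insert a S ha ih =>
    rw [Finset.sum_insert ha, Finset.sum_insert ha, Finset.sum_insert ha]
    exact (h a (Finset.mem_insert_self _ _)).add
      (ih (fun j hj => h j (Finset.mem_insert_of_mem hj)))

lemma Nr.det {ε M : ℝ} (hε : 0 ≤ ε) {N : ℕ} (A B : Matrix (Fin N) (Fin N) ℂ)
    (h : ∀ i j, Nr ε M (A i j) (B i j)) :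
    Nr ε ((N.factorial : ℝ) * (2 * M) ^ N) A.det B.det := by
  rw [Matrix.det_apply', Matrix.det_apply']
  have h1 : ∀ σ : Equiv.Perm (Fin N), Nr ε ((2 * M) ^ N)
      ((((Equiv.Perm.sign σ : ℤˣ) : ℤ) : ℂ) * ∏ i, A (σ i) i)
      ((((Equiv.Perm.sign σ : ℤˣ) : ℤ) : ℂ) * ∏ i, B (σ i) i) := by
    intro σ
    have h2 := Nr.prod hε Finset.univ (fun i => A (σ i) i) (fun i => B (σ i) i) (fun _ => M)
      (fun i _ => h (σ i) i)
    have h3 : ∏ _i : Fin N, (2 * M) = (2 * M) ^ N := by simp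
    rw [h3] at h2
    rcases Int.units_eq_one_or (Equiv.Perm.sign σ) with h4 | h4
    · rw [h4]
      simpa using h2
    · rw [h4]
      refine ⟨by simpa using h2.1, by simpa using h2.2.1, ?_⟩
      have h5 : ((((-1 : ℤˣ) : ℤ) : ℂ) * ∏ i, A (σ i) i) - ((((-1 : ℤˣ) : ℤ) : ℂ) * ∏ i, B (σ i) i) =
          -(∏ i, A (σ i) i - ∏ i, B (σ i) i) := by
        push_cast
        ring
      rw [h5, norm_neg]
      exact h2.2.2
  have h6 := Nr.sum (ε := ε) Finset.univ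
    (fun σ : Equiv.Perm (Fin N) => (((Equiv.Perm.sign σ : ℤˣ) : ℤ) : ℂ) * ∏ i, A (σ i) i)
    (fun σ : Equiv.Perm (Fin N) => (((Equiv.Perm.sign σ : ℤˣ) : ℤ) : ℂ) * ∏ i, B (σ i) i)
    (fun _ => (2 * M) ^ N) (fun σ _ => h1 σ)
  have h7 : ∑ _σ : Equiv.Perm (Fin N), (2 * M) ^ N = (N.factorial : ℝ) * (2 * M) ^ N := by
    rw [Finset.sum_const, Finset.card_univ, Fintype.card_perm, Fintype.card_fin, nsmul_eq_mul]
  rw [h7] at h6
  exact h6

/-! ## the polynomial forms -/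

/-- coefficientwise absolute values -/
noncomputable def absP (P : ℂ[X]) : ℝ[X] :=
  ∑ n ∈ Finset.range (P.natDegree + 1), C ‖P.coeff n‖ * X ^ n

lemma absP_coeff (P : ℂ[X]) (n : ℕ) : (absP P).coeff n = ‖P.coeff n‖ := by
  rw [absP, finsetSum_coeff]
  simp only [coeff_C_mul, coeff_X_pow]
  by_cases hn : n < P.natDegree + 1
  · rw [Finset.sum_eq_single n]
    · simp
    · intro b _ hb
      rw [if_neg (fun h => hb h.symm), mul_zero]
    · intro h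
      exact absurd (Finset.mem_range.2 hn) h
  · rw [Finset.sum_eq_zero]
    · rw [coeff_eq_zero_of_natDegree_lt (by omega), norm_zero]
    · intro b hb
      rw [Finset.mem_range] at hb
      rw [if_neg (by omega), mul_zero]

lemma comp_coeff_le (P : ℂ[X]) (a : ℂ) (M : ℝ) (h : ‖a‖ ≤ M) (n : ℕ) :
    ‖(P.comp (C a * X)).coeff n‖ ≤ ((absP P).comp (C M * X)).coeff n := by
  rw [comp_C_mul_X_coeff, comp_C_mul_X_coeff, absP_coeff, norm_mul, norm_pow]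
  exact mul_le_mul_of_nonneg_left (pow_le_pow_left₀ (norm_nonneg _) h _) (norm_nonneg _)

lemma Maj.ofC {f : ℂ[X]} {g : ℝ[X]} (h : ∀ n, ‖f.coeff n‖ ≤ g.coeff n) : Maj (C f) (C g) := by
  intro n m
  rw [coeff_C, coeff_C]
  split_ifs
  · exact h m
  · simp

lemma Maj.ofMap {f : ℂ[X]} {g : ℝ[X]} (h : ∀ n, ‖f.coeff n‖ ≤ g.coeff n) :
    Maj (f.map C) (g.map C) := by
  intro n m
  rw [coeff_map, coeff_map, coeff_C, coeff_C]
  split_ifs
  · exact h n
  · simp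

/-- `∑_j W_kj A_j P(-θ_j ν) R(k_j δ)` (outer variable `ν`, inner variable `δ`) -/
noncomputable def gB (P R : ℂ[X]) (θ : Fin 4 → ℂ) (W : Fin 4 → Fin 4 → ℂ) (A k : Fin 4 → ℂ)
    (κ : Fin 4) : ℂ[X][X] :=
  ∑ j, C (C (W κ j * A j)) * ((P.comp (C (-θ j) * X)).map C * C (R.comp (C (k j) * X)))

/-- the majorant of `gB` -/
noncomputable def gM (P R : ℂ[X]) (C₀ A₀ k₀ : ℝ) : ℝ[X][X] :=
  ∑ _j : Fin 4, C (C (C₀ * A₀)) *
    (((absP P).comp (C C₀ * X)).map C * C ((absP R).comp (C k₀ * X)))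

/-- the form `(t0 + δ)^a ∏_k g_k^(J_k)` -/
noncomputable def fB (P R : ℂ[X]) (θ : Fin 4 → ℂ) (W : Fin 4 → Fin 4 → ℂ) (A k : Fin 4 → ℂ)
    (t0 : ℂ) (m : ℕ × (Fin 4 → ℕ)) : ℂ[X][X] :=
  C ((C t0 + X) ^ m.1) * ∏ κ, gB P R θ W A k κ ^ m.2 κ

/-- the common majorant of the forms with `a ≤ i`, `|J| = s` -/
noncomputable def fM (P R : ℂ[X]) (C₀ A₀ k₀ : ℝ) (i s : ℕ) : ℝ[X][X] :=
  (C (C 1 + X)) ^ i * gM P R C₀ A₀ k₀ ^ s

lemma gB_maj (P R : ℂ[X]) (θ : Fin 4 → ℂ) (W : Fin 4 → Fin 4 → ℂ) (A k : Fin 4 → ℂ)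
    (κ : Fin 4) {C₀ A₀ k₀ : ℝ} (hθ : ∀ j, ‖θ j‖ ≤ C₀) (hW : ∀ a j, ‖W a j‖ ≤ C₀)
    (hA : ∀ j, ‖A j‖ ≤ A₀) (hk : ∀ j, ‖k j‖ ≤ k₀) :
    Maj (gB P R θ W A k κ) (gM P R C₀ A₀ k₀) := by
  have hC : 0 ≤ C₀ := (norm_nonneg _).trans (hθ 0)
  rw [gB, gM]
  apply Maj.sum
  intro j _
  refine (Maj.CC ?_).mul (Maj.mul (Maj.ofMap (fun n => ?_)) (Maj.ofC (fun n => ?_)))
  · rw [norm_mul]
    exact mul_le_mul (hW κ j) (hA j) (norm_nonneg _) hC
  · exact comp_coeff_le P _ _ (by rw [norm_neg]; exact hθ j) n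
  · exact comp_coeff_le R _ _ (hk j) n

lemma fB_maj (P R : ℂ[X]) (θ : Fin 4 → ℂ) (W : Fin 4 → Fin 4 → ℂ) (A k : Fin 4 → ℂ)
    (t0 : ℂ) (m : ℕ × (Fin 4 → ℕ)) {C₀ A₀ k₀ : ℝ} {i s : ℕ} (hθ : ∀ j, ‖θ j‖ ≤ C₀)
    (hW : ∀ a j, ‖W a j‖ ≤ C₀) (hA : ∀ j, ‖A j‖ ≤ A₀) (hk : ∀ j, ‖k j‖ ≤ k₀) (ht0 : ‖t0‖ ≤ 1)
    (h1 : m.1 ≤ i) (h2 : ∑ κ, m.2 κ = s) :
    Maj (fB P R θ W A k t0 m) (fM P R C₀ A₀ k₀ i s) := by
  rw [fB, fM]
  refine Maj.mul ?_ ?_
  · have h3 : (C ((C t0 + X) ^ m.1) : ℂ[X][X]) = (C (C t0 + X)) ^ m.1 * 1 ^ (i - m.1) := by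
      rw [one_pow, mul_one, map_pow]
    have h4 : (C (C 1 + X) : ℝ[X][X]) ^ i = C (C 1 + X) ^ m.1 * C (C 1 + X) ^ (i - m.1) := by
      rw [← pow_add]
      congr 1
      omega
    rw [h3, h4]
    refine Maj.mul (Maj.pow ?_ _) (Maj.pow ?_ _)
    · rw [map_add, map_add]
      exact (Maj.CC ht0).add Maj.CX
    · intro n q
      rw [coeff_one, coeff_C]
      split_ifs
      · rw [coeff_one, coeff_add, coeff_C, coeff_X]
        split_ifs <;> simp_all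
      · simp
  · rw [← h2, ← Finset.prod_pow_eq_pow_sum]
    apply Maj.prod
    intro κ _
    exact (gB_maj P R θ W A k κ hθ hW hA hk).pow _

/-- the index set of the monomials `δ^p ν^q` of a majorant -/
noncomputable def IB (G : ℝ[X][X]) : Finset (ℕ × ℕ) :=
  Finset.range ((Finset.range (G.natDegree + 1)).sup (fun n => (G.coeff n).natDegree) + 1) ×ˢ
    Finset.range (G.natDegree + 1)

lemma evalEval_maj {F : ℂ[X][X]} {G : ℝ[X][X]} (h : Maj F G) (δ ν : ℂ) :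
    F.evalEval δ ν = ∑ m ∈ IB G, (F.coeff m.2).coeff m.1 * (δ ^ m.1 * ν ^ m.2) := by
  have h1 : ∀ n m, (G.coeff n).coeff m = 0 → (F.coeff n).coeff m = 0 := by
    intro n m h0
    have := h n m
    rw [h0] at this
    exact norm_le_zero_iff.1 this
  have hd : F.natDegree < G.natDegree + 1 := by
    rw [Nat.lt_succ_iff, natDegree_le_iff_coeff_eq_zero]
    intro n hn
    ext m
    rw [coeff_zero]
    apply h1
    rw [coeff_eq_zero_of_natDegree_lt hn, coeff_zero]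
  rw [evalEval, eval_eq_sum_range' hd, eval_finsetSum, IB, Finset.sum_product_right]
  refine Finset.sum_congr rfl (fun q hq => ?_)
  have hd2 : (F.coeff q).natDegree <
      (Finset.range (G.natDegree + 1)).sup (fun n => (G.coeff n).natDegree) + 1 := by
    rw [Nat.lt_succ_iff, natDegree_le_iff_coeff_eq_zero]
    intro m hm
    apply h1
    apply coeff_eq_zero_of_natDegree_lt
    exact lt_of_le_of_lt (Finset.le_sup (f := fun n => (G.coeff n).natDegree) hq) hm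
  rw [eval_mul, eval_pow, eval_C, eval_eq_sum_range' hd2, Finset.sum_mul]
  refine Finset.sum_congr rfl (fun p _ => ?_)
  ring

lemma evalEval_gB (P R : ℂ[X]) (θ : Fin 4 → ℂ) (W : Fin 4 → Fin 4 → ℂ) (A k : Fin 4 → ℂ)
    (κ : Fin 4) (δ ν : ℂ) : (gB P R θ W A k κ).evalEval δ ν =
      ∑ j, (W κ j * A j) * (P.eval (-θ j * ν) * R.eval (k j * δ)) := by
  rw [evalEval, gB, eval_finsetSum, eval_finsetSum]
  refine Finset.sum_congr rfl (fun j _ => ?_)
  rw [eval_mul, eval_mul, eval_C, eval_C, eval_mul, eval_mul, eval_C, eval_comp, eval_mul, eval_C,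
    eval_X, eval_map, eval₂_hom, eval_C, eval_comp, eval_mul, eval_C, eval_X]

lemma evalEval_fB (P R : ℂ[X]) (θ : Fin 4 → ℂ) (W : Fin 4 → Fin 4 → ℂ) (A k : Fin 4 → ℂ)
    (t0 : ℂ) (m : ℕ × (Fin 4 → ℕ)) (δ ν : ℂ) : (fB P R θ W A k t0 m).evalEval δ ν =
      (t0 + δ) ^ m.1 * ∏ κ, ((gB P R θ W A k κ).evalEval δ ν) ^ m.2 κ := by
  simp only [evalEval, fB, eval_mul, eval_C, eval_pow, eval_add, eval_X, eval_prod]

/-- **determinants of polynomials with a common majorant**, free weights -/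
lemma maj_det_le {N : ℕ} (F : Fin N → ℂ[X][X]) (G : ℝ[X][X]) (h : ∀ c, Maj (F c) G)
    (δ ν : Fin N → ℂ) (τ η Wt : ℝ) (hδ : ∀ r, ‖δ r‖ ≤ τ) (hη : ∀ r, ‖ν r‖ ≤ η) (hWt0 : 0 ≤ Wt)
    (hWt : ∀ T ⊆ IB G, T.card = N → ∏ m ∈ T, τ ^ m.1 * η ^ m.2 ≤ Wt) :
    ‖Matrix.det (Matrix.of fun r c => (F c).evalEval (δ r) (ν r))‖ ≤
      (N.factorial : ℝ) * ((IB G).card : ℝ) ^ N * (|(G.eval 1).eval 1|) ^ N * Wt := by
  classical
  have hexp : (Matrix.of fun r c => (F c).evalEval (δ r) (ν r)) =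
      Matrix.of fun r c => ∑ m ∈ IB G, ((F c).coeff m.2).coeff m.1 *
        (δ r ^ m.1 * ν r ^ m.2) := by
    ext r c
    simp only [Matrix.of_apply]
    exact evalEval_maj (h c) _ _
  rw [hexp]
  refine det_norm_le_adm (IB G)
    (fun c m => ((F c).coeff m.2).coeff m.1)
    (fun m r => δ r ^ m.1 * ν r ^ m.2) _ (fun m => τ ^ m.1 * η ^ m.2) Wt (fun _ => True)
    (abs_nonneg _) (fun c m _ => ((h c).coeff_le _ _).trans (le_abs_self _)) ?_ ?_
    (fun T hT hc _ => hWt T hT hc) hWt0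
  · intro m _ r
    rw [norm_mul, norm_pow, norm_pow]
    exact mul_le_mul (pow_le_pow_left₀ (norm_nonneg _) (hδ r) _)
      (pow_le_pow_left₀ (norm_nonneg _) (hη r) _) (by positivity)
      (pow_nonneg ((norm_nonneg _).trans (hδ r)) _)
  · intro σ _ _ h
    exact absurd trivial h

lemma exists_trunc (w G : ℝ) (hw : 0 ≤ w) (N : ℕ)
    (hG : ∀ E : Finset (ℕ × ℕ), E.card = N → G ≤ ∑ x ∈ E, (w * x.1 + x.2)) :
    ∃ K' : ℕ, G ≤ min w 1 * K' := by
  rcases hw.eq_or_lt with h0 | h0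
  · refine ⟨0, ?_⟩
    have h1 := hG ((Finset.range N) ×ˢ {0}) (by simp)
    rw [← h0] at h1
    have h2 : ∑ x ∈ (Finset.range N) ×ˢ ({0} : Finset ℕ), ((0 : ℝ) * (x.1 : ℝ) + (x.2 : ℝ)) = 0 := by
      apply Finset.sum_eq_zero
      intro x hx
      rw [Finset.mem_product, Finset.mem_singleton] at hx
      rw [hx.2]
      simp
    rw [h2] at h1
    simpa using h1
  · have h1 : 0 < min w 1 := lt_min h0 one_pos
    obtain ⟨K', hK'⟩ := exists_nat_ge (G / min w 1)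
    refine ⟨K', ?_⟩
    rw [div_le_iff₀ h1] at hK'
    linarith

lemma eval_absP_le (P : ℂ[X]) {x : ℂ} (hx : ‖x‖ ≤ 1) : ‖P.eval x‖ ≤ (absP P).eval 1 := by
  rw [eval_eq_sum_range, absP, eval_finsetSum]
  refine (norm_sum_le _ _).trans (Finset.sum_le_sum (fun n _ => ?_))
  rw [norm_mul, norm_pow]
  simp only [eval_mul, eval_C, eval_pow, eval_X, one_pow, mul_one]
  exact mul_le_of_le_one_right (norm_nonneg _) (pow_le_one₀ (norm_nonneg _) hx)

/-- the entries of the determinant on an arc of a beta-slice -/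
noncomputable def entB (θ : Fin 4 → ℂ) (W : Fin 4 → Fin 4 → ℂ) (A k : Fin 4 → ℂ) (t0 : ℂ)
    (m : ℕ × (Fin 4 → ℕ)) (δ ν : ℂ) : ℂ :=
  (t0 + δ) ^ m.1 * ∏ κ, (∑ j, (W κ j * A j) *
    ((1 + (-θ j * ν)) ^ (1 / 2 : ℂ) * (1 + k j * δ) ^ (-(1 / 2) : ℂ))) ^ m.2 κ

theorem series_det_le (N i s : ℕ) (C₀ A₀ k₀ : ℝ) (hC₀ : 0 ≤ C₀) (hk₀ : 0 ≤ k₀)
    (w G : ℝ) (hw : 0 ≤ w)
    (hG : ∀ E : Finset (ℕ × ℕ), E.card = N → G ≤ ∑ x ∈ E, (w * x.1 + x.2)) :
    ∃ K r : ℝ, 0 < K ∧ 0 < r ∧ ∀ (θ : Fin 4 → ℂ) (W : Fin 4 → Fin 4 → ℂ) (A k : Fin 4 → ℂ)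
      (t0 : ℂ), (∀ j, ‖θ j‖ ≤ C₀) → (∀ a j, ‖W a j‖ ≤ C₀) → (∀ j, ‖A j‖ ≤ A₀) →
      (∀ j, ‖k j‖ ≤ k₀) → ‖t0‖ ≤ 1 → ∀ (cols : Fin N → ℕ × (Fin 4 → ℕ)), (∀ c, (cols c).1 ≤ i) →
      (∀ c, ∑ κ, (cols c).2 κ = s) → ∀ (Y : ℝ), 1 ≤ Y → ∀ (δ ν : Fin N → ℂ),
      (∀ r, ‖δ r‖ ≤ 2 * Y ^ (-w)) → (∀ r, ‖ν r‖ ≤ Y ^ (-1 : ℝ)) →
      C₀ * Y ^ (-1 : ℝ) ≤ r → k₀ * (2 * Y ^ (-w)) ≤ r →
      ‖Matrix.det (Matrix.of fun r c => entB θ W A k t0 (cols c) (δ r) (ν r))‖ ≤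
        K * Y ^ (-G) := by
  classical
  obtain ⟨K', hK'⟩ := exists_trunc w G hw N hG
  obtain ⟨P, CP, rP, hCP, hrP, hrP2, hP⟩ := cpow_approx (1 / 2) K'
  obtain ⟨R, CR, rR, hCR, hrR, hrR2, hR⟩ := cpow_approx (-(1 / 2)) K'
  set MP : ℝ := (absP P).eval 1 + CP * (1 + C₀ ^ K') with hMP
  set MR : ℝ := (absP R).eval 1 + CR * (1 + (k₀ * 2) ^ K') with hMR
  set Mg : ℝ := ∑ _j : Fin 4, (2 * (C₀ * A₀) * (2 * MP * MR)) with hMg
  set Me : ℝ := 2 * (2 * 3) ^ i * ((2 : ℝ) ^ 4 * (2 * Mg) ^ s) with hMe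
  set GM : ℝ[X][X] := fM P R C₀ A₀ k₀ i s with hGM
  set D : ℕ := (IB GM).sup Prod.fst with hD
  have hMe0 : 0 ≤ (N.factorial : ℝ) * |2 * Me| ^ N := by positivity
  refine ⟨(N.factorial : ℝ) * ((IB GM).card : ℝ) ^ N * (|(GM.eval 1).eval 1|) ^ N * 2 ^ (N * D) +
    (N.factorial : ℝ) * |2 * Me| ^ N + 1, min rP rR, by positivity, lt_min hrP hrR, ?_⟩
  intro θ W A k t0 hθ hW hA hk ht0 cols hc1 hc2 Y hY δ ν hδ hν hr1 hr2
  have hY0 : 0 < Y := by linarith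
  have hw' : 0 ≤ min w 1 := le_min hw zero_le_one
  set ε : ℝ := (Y ^ (-(min w 1))) ^ K' with hε
  have hε0 : 0 ≤ ε := by positivity
  have hεG : ε ≤ Y ^ (-G) := by
    rw [hε, ← Real.rpow_natCast, ← Real.rpow_mul hY0.le]
    exact Real.rpow_le_rpow_of_exponent_le hY (by linarith)
  have hYw1 : Y ^ (-1 : ℝ) ≤ Y ^ (-(min w 1)) :=
    Real.rpow_le_rpow_of_exponent_le hY (by linarith [min_le_right w 1])
  have hYw2 : Y ^ (-w) ≤ Y ^ (-(min w 1)) :=
    Real.rpow_le_rpow_of_exponent_le hY (by linarith [min_le_left w 1])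
  -- the two roots
  have hx : ∀ r j, Nr ε MP ((1 + (-θ j * ν r)) ^ (1 / 2 : ℂ)) (P.eval (-θ j * ν r)) := by
    intro r j
    have hn : ‖-θ j * ν r‖ ≤ C₀ * Y ^ (-1 : ℝ) := by
      rw [norm_mul, norm_neg]
      exact mul_le_mul (hθ j) (hν r) (norm_nonneg _) hC₀
    have hn2 : ‖-θ j * ν r‖ ≤ rP := hn.trans (hr1.trans (min_le_left _ _))
    have hn3 : ‖-θ j * ν r‖ ≤ 1 := by linarith
    have h1 := hP _ hn2
    have h2 : ‖-θ j * ν r‖ ^ K' ≤ C₀ ^ K' * ε := by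
      rw [hε, ← mul_pow]
      exact pow_le_pow_left₀ (norm_nonneg _)
        (hn.trans (mul_le_mul_of_nonneg_left hYw1 hC₀)) _
    have h3 : ‖-θ j * ν r‖ ^ K' ≤ 1 := pow_le_one₀ (norm_nonneg _) hn3
    have h4 := eval_absP_le P hn3
    have h5 : 0 ≤ (absP P).eval 1 := (norm_nonneg _).trans h4
    have h6 : 0 ≤ CP * C₀ ^ K' := by positivity
    refine ⟨?_, ?_, ?_⟩
    · have h7 : ‖(1 + (-θ j * ν r)) ^ (1 / 2 : ℂ)‖ ≤
          ‖(1 + (-θ j * ν r)) ^ (1 / 2 : ℂ) - P.eval (-θ j * ν r)‖ + ‖P.eval (-θ j * ν r)‖ := by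
        have := norm_add_le ((1 + (-θ j * ν r)) ^ (1 / 2 : ℂ) - P.eval (-θ j * ν r))
          (P.eval (-θ j * ν r))
        simpa using this
      have h8 : CP * ‖-θ j * ν r‖ ^ K' ≤ CP * 1 := mul_le_mul_of_nonneg_left h3 hCP.le
      rw [hMP]
      linarith
    · rw [hMP]
      linarith
    · refine h1.trans ?_
      calc CP * ‖-θ j * ν r‖ ^ K' ≤ CP * (C₀ ^ K' * ε) := mul_le_mul_of_nonneg_left h2 hCP.le
        _ = (CP * C₀ ^ K') * ε := by ring
        _ ≤ MP * ε := by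
          refine mul_le_mul_of_nonneg_right ?_ hε0
          rw [hMP]
          linarith
  have hy : ∀ r j, Nr ε MR ((1 + k j * δ r) ^ (-(1 / 2) : ℂ)) (R.eval (k j * δ r)) := by
    intro r j
    have hn : ‖k j * δ r‖ ≤ k₀ * (2 * Y ^ (-w)) := by
      rw [norm_mul]
      exact mul_le_mul (hk j) (hδ r) (norm_nonneg _) hk₀
    have hn2 : ‖k j * δ r‖ ≤ rR := hn.trans (hr2.trans (min_le_right _ _))
    have hn3 : ‖k j * δ r‖ ≤ 1 := by linarith
    have h1 := hR _ hn2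
    have h2 : ‖k j * δ r‖ ^ K' ≤ (k₀ * 2) ^ K' * ε := by
      rw [hε, ← mul_pow]
      refine pow_le_pow_left₀ (norm_nonneg _) (hn.trans ?_) _
      rw [mul_assoc]
      exact mul_le_mul_of_nonneg_left (mul_le_mul_of_nonneg_left hYw2 (by norm_num)) hk₀
    have h3 : ‖k j * δ r‖ ^ K' ≤ 1 := pow_le_one₀ (norm_nonneg _) hn3
    have h4 := eval_absP_le R hn3
    have h5 : 0 ≤ (absP R).eval 1 := (norm_nonneg _).trans h4
    have h6 : 0 ≤ CR * (k₀ * 2) ^ K' := by positivity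
    refine ⟨?_, ?_, ?_⟩
    · have h7 : ‖(1 + k j * δ r) ^ (-(1 / 2) : ℂ)‖ ≤
          ‖(1 + k j * δ r) ^ (-(1 / 2) : ℂ) - R.eval (k j * δ r)‖ + ‖R.eval (k j * δ r)‖ := by
        have := norm_add_le ((1 + k j * δ r) ^ (-(1 / 2) : ℂ) - R.eval (k j * δ r))
          (R.eval (k j * δ r))
        simpa using this
      have h8 : CR * ‖k j * δ r‖ ^ K' ≤ CR * 1 := mul_le_mul_of_nonneg_left h3 hCR.le
      rw [hMR]
      linarith
    · rw [hMR]
      linarith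
    · refine h1.trans ?_
      calc CR * ‖k j * δ r‖ ^ K' ≤ CR * ((k₀ * 2) ^ K' * ε) :=
            mul_le_mul_of_nonneg_left h2 hCR.le
        _ = (CR * (k₀ * 2) ^ K') * ε := by ring
        _ ≤ MR * ε := by
          refine mul_le_mul_of_nonneg_right ?_ hε0
          rw [hMR]
          linarith
  -- the entries
  have hg : ∀ r κ, Nr ε Mg (∑ j, (W κ j * A j) *
      ((1 + (-θ j * ν r)) ^ (1 / 2 : ℂ) * (1 + k j * δ r) ^ (-(1 / 2) : ℂ)))
      ((gB P R θ W A k κ).evalEval (δ r) (ν r)) := by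
    intro r κ
    rw [evalEval_gB, hMg]
    refine Nr.sum _ _ _ _ (fun j _ => ?_)
    refine Nr.mul (Nr.refl hε0 ?_) ((hx r j).mul (hy r j))
    rw [norm_mul]
    exact mul_le_mul (hW κ j) (hA j) (norm_nonneg _) hC₀
  have hent : ∀ r c, Nr ε Me (entB θ W A k t0 (cols c) (δ r) (ν r))
      ((fB P R θ W A k t0 (cols c)).evalEval (δ r) (ν r)) := by
    intro r c
    rw [entB, evalEval_fB, hMe]
    refine Nr.mul ?_ ?_
    · refine (Nr.pow hε0 (Nr.refl (M := 3) hε0 ?_) _).mono hε0 ?_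
      · refine (norm_add_le _ _).trans ?_
        have h1 : Y ^ (-w) ≤ 1 := Real.rpow_le_one_of_one_le_of_nonpos hY (by linarith)
        have h2 := hδ r
        linarith
      · exact pow_le_pow_right₀ (by norm_num) (hc1 c)
    · have h1 := Nr.prod hε0 Finset.univ
        (fun κ => (∑ j, (W κ j * A j) *
          ((1 + (-θ j * ν r)) ^ (1 / 2 : ℂ) * (1 + k j * δ r) ^ (-(1 / 2) : ℂ))) ^ (cols c).2 κ)
        (fun κ => ((gB P R θ W A k κ).evalEval (δ r) (ν r)) ^ (cols c).2 κ)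
        (fun κ => (2 * Mg) ^ (cols c).2 κ) (fun κ _ => (hg r κ).pow hε0 _)
      have h2 : ∏ κ : Fin 4, (2 * (2 * Mg) ^ (cols c).2 κ) = (2 : ℝ) ^ 4 * (2 * Mg) ^ s := by
        rw [Finset.prod_mul_distrib, Finset.prod_pow_eq_pow_sum, hc2 c]
        simp
      rw [h2] at h1
      exact h1
  have hdet := Nr.det hε0 (Matrix.of fun r c => entB θ W A k t0 (cols c) (δ r) (ν r))
    (Matrix.of fun r c => (fB P R θ W A k t0 (cols c)).evalEval (δ r) (ν r)) hent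
  have hWt : ∀ T ⊆ IB GM, T.card = N →
      ∏ m ∈ T, (2 * Y ^ (-w)) ^ m.1 * (Y ^ (-1 : ℝ)) ^ m.2 ≤ 2 ^ (N * D) * Y ^ (-G) := by
    intro T hT hTc
    have h1 := hG T hTc
    have h2 : ∏ m ∈ T, (2 * Y ^ (-w)) ^ m.1 * (Y ^ (-1 : ℝ)) ^ m.2 =
        (∏ m ∈ T, (2 : ℝ) ^ m.1) * Y ^ (-(∑ x ∈ T, (w * x.1 + x.2))) := by
      have h3 : ∀ m ∈ T, (2 * Y ^ (-w)) ^ m.1 * (Y ^ (-1 : ℝ)) ^ m.2 =
          (2 : ℝ) ^ m.1 * Y ^ (-(w * m.1 + m.2)) := by
        intro m _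
        rw [mul_pow, mul_assoc, ← Real.rpow_natCast (Y ^ (-w)), ← Real.rpow_natCast (Y ^ (-1 : ℝ)),
          ← Real.rpow_mul hY0.le, ← Real.rpow_mul hY0.le, ← Real.rpow_add hY0]
        congr 2
        ring
      rw [Finset.prod_congr rfl h3, Finset.prod_mul_distrib, ← Real.rpow_sum_of_pos hY0,
        Finset.sum_neg_distrib]
    rw [h2]
    have h4 : ∏ m ∈ T, (2 : ℝ) ^ m.1 ≤ 2 ^ (N * D) := by
      have h5 : ∏ m ∈ T, (2 : ℝ) ^ m.1 ≤ ∏ _m ∈ T, (2 : ℝ) ^ D := by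
        refine Finset.prod_le_prod (fun _ _ => by positivity) (fun m hm => ?_)
        exact pow_le_pow_right₀ (by norm_num) (Finset.le_sup (f := Prod.fst) (hT hm))
      refine h5.trans (le_of_eq ?_)
      rw [Finset.prod_const, hTc, ← pow_mul, mul_comm]
    exact mul_le_mul h4 (Real.rpow_le_rpow_of_exponent_le hY (by linarith)) (by positivity)
      (by positivity)
  have hpoly := maj_det_le (fun c => fB P R θ W A k t0 (cols c)) GM
    (fun c => fB_maj P R θ W A k t0 (cols c) hθ hW hA hk ht0 (hc1 c) (hc2 c)) δ ν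
    (2 * Y ^ (-w)) (Y ^ (-1 : ℝ)) (2 ^ (N * D) * Y ^ (-G)) hδ hν (by positivity) hWt
  have hYG : 0 ≤ Y ^ (-G) := by positivity
  have h1 : ‖Matrix.det (Matrix.of fun r c => entB θ W A k t0 (cols c) (δ r) (ν r))‖ ≤
      ‖Matrix.det (Matrix.of fun r c => (fB P R θ W A k t0 (cols c)).evalEval (δ r) (ν r))‖ +
      (N.factorial : ℝ) * (2 * Me) ^ N * ε := by
    have h2 := norm_add_le
      (Matrix.det (Matrix.of fun r c => (fB P R θ W A k t0 (cols c)).evalEval (δ r) (ν r)))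
      (Matrix.det (Matrix.of fun r c => entB θ W A k t0 (cols c) (δ r) (ν r)) -
        Matrix.det (Matrix.of fun r c => (fB P R θ W A k t0 (cols c)).evalEval (δ r) (ν r)))
    rw [add_sub_cancel] at h2
    exact h2.trans (add_le_add le_rfl hdet.2.2)
  have h3 : (N.factorial : ℝ) * (2 * Me) ^ N * ε ≤
      (N.factorial : ℝ) * |2 * Me| ^ N * Y ^ (-G) := by
    have h4 : (2 * Me) ^ N ≤ |2 * Me| ^ N := by
      rw [← abs_pow]
      exact le_abs_self _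
    exact mul_le_mul (mul_le_mul_of_nonneg_left h4 (by positivity)) hεG hε0 (by positivity)
  calc _ ≤ _ := h1
    _ ≤ (N.factorial : ℝ) * ((IB GM).card : ℝ) ^ N * (|(GM.eval 1).eval 1|) ^ N *
        (2 ^ (N * D) * Y ^ (-G)) + (N.factorial : ℝ) * |2 * Me| ^ N * Y ^ (-G) :=
        add_le_add hpoly h3
    _ = ((N.factorial : ℝ) * ((IB GM).card : ℝ) ^ N * (|(GM.eval 1).eval 1|) ^ N * 2 ^ (N * D) +
        (N.factorial : ℝ) * |2 * Me| ^ N) * Y ^ (-G) := by ring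
    _ ≤ _ := by
      refine mul_le_mul_of_nonneg_right ?_ hYG
      linarith

lemma abs_mul_eq_of_pos {x y : ℝ} (h : 0 < x * y) : |x| * y = x * |y| := by
  rcases lt_trichotomy x 0 with hx | hx | hx
  · have hy : y < 0 := by
      by_contra hy
      push Not at hy
      have := mul_nonpos_of_nonpos_of_nonneg hx.le hy
      linarith
    rw [abs_of_neg hx, abs_of_neg hy]
    ring
  · rw [hx] at h
    simp at h
  · have hy : 0 < y := by
      by_contra hy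
      push Not at hy
      have := mul_nonpos_of_nonneg_of_nonpos hx.le hy
      linarith
    rw [abs_of_pos hx, abs_of_pos hy]

lemma nhalf_sq (x : ℂ) : ((1 + x) ^ (-(1 / 2) : ℂ)) ^ 2 = (1 + x)⁻¹ := by
  rw [nhalf_eq, inv_pow, half_sq]

/-- the choice of the sign of the square root -/
lemma root_eq {α α0 A ν1 ν2 ν3 : ℂ} {l l0 : ℝ} (hl : 0 < l) (hl0 : 0 < l0)
    (hsq : α ^ 2 = ((l : ℂ) * (A * (ν2 * ν3))) ^ 2) (hA : A = α0 * ν1 / l0)
    (h1 : ‖ν1 - 1‖ ≤ 1 / 10) (h2 : ‖ν2 - 1‖ ≤ 1 / 10) (h3 : ‖ν3 - 1‖ ≤ 1 / 10) (h0 : α0 ≠ 0)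
    (hre : 0 ≤ (α * (starRingEnd ℂ) α0).re) : α = (l : ℂ) * (A * (ν2 * ν3)) := by
  rcases sq_eq_sq_iff_eq_or_eq_neg.1 hsq with h | h
  · exact h
  · exfalso
    have h4 : α * (starRingEnd ℂ) α0 = -(((l / l0 * Complex.normSq α0 : ℝ) : ℂ) *
        (ν1 * ν2 * ν3)) := by
      have h5 : α0 * (starRingEnd ℂ) α0 = (Complex.normSq α0 : ℂ) := Complex.mul_conj α0
      rw [h, hA]
      push_cast
      rw [← h5]
      ring
    rw [h4, Complex.neg_re, Complex.re_ofReal_mul] at hre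
    have h6 := re_mul_pos h1 h2 h3
    have h7 : 0 < l / l0 * Complex.normSq α0 :=
      mul_pos (div_pos hl hl0) (Complex.normSq_pos.2 h0)
    have := mul_pos h7 h6
    linarith

/-- **The real determinant bound on beta-slices** (S5, Theorem 5.3, free weights).
Here `α r j` are the conjugates of `alpha`, `a r k` its coordinates, `u f1 + v f2` is `beta`. All
rows lie in one chart (`|v| F2 ≤ |u| F1`) and in one sign class (the last two hypotheses). -/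
theorem real_det_beta (N i s : ℕ) (θ : Fin 4 → ℂ) (W : Fin 4 → Fin 4 → ℂ) (C₀ c₀ : ℝ)
    (hc₀ : 0 < c₀) (hC₀ : 1 ≤ C₀) (hθ : ∀ j, ‖θ j‖ ≤ C₀) (hW : ∀ a j, ‖W a j‖ ≤ C₀)
    (w G : ℝ) (hw : 0 ≤ w)
    (hG : ∀ E : Finset (ℕ × ℕ), E.card = N → G ≤ ∑ x ∈ E, (w * x.1 + x.2)) :
    ∃ K : ℝ, 0 < K ∧ ∀ (Y H B : ℝ), 1 ≤ Y → 0 < H → 0 < B → Y ≤ C₀ * (B * H ^ 2) →
      ∀ (f1 f2 : Fin 4 → ℂ) (F1 F2 : ℝ), 0 < F1 → 0 < F2 → (∀ j, ‖f1 j‖ ≤ C₀ * F1) →
      (∀ j, ‖f2 j‖ ≤ C₀ * F2) → ∀ (t0 : ℝ) (cols : Fin N → ℕ × (Fin 4 → ℕ)),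
      (∀ c, (cols c).1 ≤ i) → (∀ c, ∑ κ, (cols c).2 κ = s) →
      ∀ (u v n κ : Fin N → ℝ) (a α : Fin N → Fin 4 → ℂ),
      (∀ r k, a r k = ∑ j, W k j * α r j) →
      (∀ r j, α r j ^ 2 * (u r * f1 j + v r * f2 j) = κ r * (n r - θ j)) →
      (∀ r j, c₀ * B ≤ ‖(u r * f1 j + v r * f2 j : ℂ)‖) →
      (∀ r, |v r| * F2 ≤ |u r| * F1) → (∀ r, |u r| * F1 ≤ C₀ * B) →
      (∀ r, |v r * F2 / (u r * F1) - t0| ≤ Y ^ (-w)) →
      (∀ r, Y ≤ |n r|) → (∀ r, |n r| ≤ C₀ * Y) → (∀ r, |κ r| ≤ C₀) →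
      (∀ r r', 0 < (κ r * n r * u r) * (κ r' * n r' * u r')) →
      (∀ r r' j, 0 ≤ (α r j * (starRingEnd ℂ) (α r' j)).re) →
      ‖Matrix.det (Matrix.of fun r c : Fin N =>
        ((u r : ℂ) ^ (i - (cols c).1) * (v r : ℂ) ^ (cols c).1 * ∏ k, a r k ^ (cols c).2 k))‖ *
        ∏ c, (F1 ^ (i - (cols c).1) * F2 ^ (cols c).1) ≤
      K * (B ^ i * H ^ s) ^ N * Y ^ (-G) := by
  classical
  have hC0 : 0 < C₀ := by linarith
  obtain ⟨K', hK'⟩ := exists_trunc w G hw N hG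
  set k₀ : ℝ := C₀ * C₀ / c₀ with hk₀
  have hk₀0 : 0 < k₀ := by positivity
  set A₀ : ℝ := Real.sqrt (C₀ / c₀) with hA₀
  obtain ⟨K₁, r₁, hK₁, hr₁, hser⟩ := series_det_le N i s C₀ A₀ k₀ hC0.le hk₀0.le w G hw hG
  obtain ⟨r₂, hr₂, _, hn2'⟩ := near_one (1 / 2)
  obtain ⟨r₃, hr₃, _, hn3'⟩ := near_one (-(1 / 2))
  set ρ : ℝ := min r₁ (min r₂ r₃) with hρ
  have hρ0 : 0 < ρ := lt_min hr₁ (lt_min hr₂ hr₃)
  set C₃ : ℝ := C₀ + 2 * k₀ with hC₃
  have hC₃0 : 0 < C₃ := by positivity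
  set Λ : ℝ := Real.sqrt (2 * C₀ ^ 4 / c₀) with hΛ
  have hΛ0 : 0 < Λ := Real.sqrt_pos.2 (by positivity)
  have hΛ2 : Λ ^ 2 = 2 * C₀ ^ 4 / c₀ := Real.sq_sqrt (by positivity)
  refine ⟨(N.factorial : ℝ) * (C₀ ^ i * (4 * C₀ * Λ) ^ s) ^ N * (C₃ / ρ) ^ K' +
    (C₀ ^ i * Λ ^ s) ^ N * K₁ + 1, by positivity, ?_⟩
  intro Y H B hY hH hB hYB f1 f2 F1 F2 hF1 hF2 hf1 hf2 t0 cols hc1 hc2 u v n κ a α ha hα hβ
    hchart hu ht hnl hnu hκ hsgn hre
  have hY0 : 0 < Y := by linarith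
  have hYG : 0 ≤ Y ^ (-G) := by positivity
  have hF1c : (F1 : ℂ) ≠ 0 := by exact_mod_cast hF1.ne'
  have hF2c : (F2 : ℂ) ≠ 0 := by exact_mod_cast hF2.ne'
  have hun : ∀ r, u r ≠ 0 := by
    intro r h0
    have := hsgn r r
    rw [h0] at this
    simp at this
  have hUpos : ∀ r, 0 < |u r| * F1 := fun r => mul_pos (abs_pos.2 (hun r)) hF1
  have hUne : ∀ r, u r * F1 ≠ 0 := fun r => mul_ne_zero (hun r) hF1.ne'
  have hnorm_prod : ‖∏ c : Fin N, ((F1 : ℂ) ^ (i - (cols c).1) * (F2 : ℂ) ^ (cols c).1)‖ =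
      ∏ c : Fin N, (F1 ^ (i - (cols c).1) * F2 ^ (cols c).1) := by
    rw [norm_prod]
    refine Finset.prod_congr rfl (fun c _ => ?_)
    rw [norm_mul, norm_pow, norm_pow, Complex.norm_real, Complex.norm_real, Real.norm_eq_abs,
      Real.norm_eq_abs, abs_of_pos hF1, abs_of_pos hF2]
  -- size of the conjugates of alpha
  have hαn : ∀ r j, ‖α r j‖ ≤ Λ * H := by
    intro r j
    have h1 : ‖α r j‖ ^ 2 * ‖(u r * f1 j + v r * f2 j : ℂ)‖ = |κ r| * ‖(n r - θ j : ℂ)‖ := by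
      rw [← norm_pow, ← norm_mul, hα r j, norm_mul, Complex.norm_real, Real.norm_eq_abs]
    have h2 : ‖(n r - θ j : ℂ)‖ ≤ 2 * C₀ * Y := by
      refine (norm_sub_le _ _).trans ?_
      rw [Complex.norm_real, Real.norm_eq_abs]
      have := hnu r
      have := hθ j
      nlinarith
    have h3 : |κ r| * ‖(n r - θ j : ℂ)‖ ≤ C₀ * (2 * C₀ * Y) :=
      mul_le_mul (hκ r) h2 (norm_nonneg _) hC0.le
    have h4 : ‖α r j‖ ^ 2 * (c₀ * B) ≤ C₀ * (2 * C₀ * Y) := by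
      refine le_trans (mul_le_mul_of_nonneg_left (hβ r j) (by positivity)) ?_
      rw [h1]
      exact h3
    have h5 : ‖α r j‖ ^ 2 * (c₀ * B) ≤ (Λ * H) ^ 2 * (c₀ * B) := by
      refine h4.trans ?_
      rw [mul_pow, hΛ2]
      have h6 : 2 * C₀ ^ 4 / c₀ * H ^ 2 * (c₀ * B) = 2 * C₀ ^ 3 * (C₀ * (B * H ^ 2)) := by
        field_simp
      rw [h6]
      have h7 : 2 * C₀ ^ 3 * Y ≤ 2 * C₀ ^ 3 * (C₀ * (B * H ^ 2)) :=
        mul_le_mul_of_nonneg_left hYB (by positivity)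
      have h8 : C₀ * (2 * C₀ * Y) ≤ 2 * C₀ ^ 3 * Y := by
        have : 0 ≤ 2 * C₀ ^ 2 * Y * (C₀ - 1) := by
          have : 0 ≤ C₀ - 1 := by linarith
          positivity
        nlinarith
      linarith
    have h6 : ‖α r j‖ ^ 2 ≤ (Λ * H) ^ 2 := le_of_mul_le_mul_right h5 (by positivity)
    exact le_of_sq_le_sq h6 (by positivity)
  rcases Nat.eq_zero_or_pos N with hN | hN
  · subst hN
    have h1 : (0 : ℝ) ≤ -G := by
      have := hG ∅ rfl
      simp at this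
      linarith
    have h2 : 1 ≤ Y ^ (-G) := Real.one_le_rpow hY h1
    simp only [Matrix.det_fin_zero, norm_one, Finset.univ_eq_empty, Finset.prod_empty, mul_one,
      pow_zero]
    have h3 : (1 : ℝ) ≤ (Nat.factorial 0 : ℝ) * (C₃ / ρ) ^ K' + 1 * K₁ + 1 := by
      have : 0 ≤ (Nat.factorial 0 : ℝ) * (C₃ / ρ) ^ K' := by positivity
      linarith
    calc (1 : ℝ) = 1 * 1 := by ring
      _ ≤ _ := mul_le_mul h3 h2 (by norm_num) (by linarith)
  by_cases hsmall : C₃ * Y ^ (-(min w 1)) ≤ ρ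
  swap
  · -- trivial bound
    push Not at hsmall
    have h1 : 1 ≤ (C₃ / ρ) ^ K' * Y ^ (-G) := by
      have h2 : 1 ≤ (C₃ / ρ) * Y ^ (-(min w 1)) := by
        rw [div_mul_eq_mul_div, le_div_iff₀ hρ0]
        linarith
      have h3 : 1 ≤ ((C₃ / ρ) * Y ^ (-(min w 1))) ^ K' := one_le_pow₀ h2
      rw [mul_pow] at h3
      refine h3.trans (mul_le_mul_of_nonneg_left ?_ (by positivity))
      rw [← Real.rpow_natCast, ← Real.rpow_mul hY0.le]
      exact Real.rpow_le_rpow_of_exponent_le hY (by linarith)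
    have h2 : ‖Matrix.det (Matrix.of fun r c : Fin N =>
        ((u r : ℂ) ^ (i - (cols c).1) * (v r : ℂ) ^ (cols c).1 * ∏ k, a r k ^ (cols c).2 k) *
        ((F1 : ℂ) ^ (i - (cols c).1) * (F2 : ℂ) ^ (cols c).1))‖ ≤
        (N.factorial : ℝ) * ((C₀ * B) ^ i * (4 * C₀ * (Λ * H)) ^ s) ^ N := by
      have h3 := det_norm_le_prod (Matrix.of fun r c : Fin N =>
        ((u r : ℂ) ^ (i - (cols c).1) * (v r : ℂ) ^ (cols c).1 * ∏ k, a r k ^ (cols c).2 k) *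
        ((F1 : ℂ) ^ (i - (cols c).1) * (F2 : ℂ) ^ (cols c).1))
        (fun _ => (C₀ * B) ^ i * (4 * C₀ * (Λ * H)) ^ s) (by
          intro r c
          simp only [Matrix.of_apply]
          have h4 : ((u r : ℂ) ^ (i - (cols c).1) * (v r : ℂ) ^ (cols c).1 *
              ∏ k, a r k ^ (cols c).2 k) * ((F1 : ℂ) ^ (i - (cols c).1) * (F2 : ℂ) ^ (cols c).1) =
              ((u r * F1 : ℂ) ^ (i - (cols c).1) * (v r * F2 : ℂ) ^ (cols c).1) *
              ∏ k, a r k ^ (cols c).2 k := by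
            rw [mul_pow, mul_pow]
            ring
          rw [h4, norm_mul, norm_mul, norm_pow, norm_pow, norm_mul, norm_mul, norm_prod]
          simp only [Complex.norm_real, Real.norm_eq_abs, abs_of_pos hF1, abs_of_pos hF2,
            norm_pow]
          refine mul_le_mul ?_ ?_ (Finset.prod_nonneg (fun _ _ => by positivity)) (by positivity)
          · calc (|u r| * F1) ^ (i - (cols c).1) * (|v r| * F2) ^ (cols c).1 ≤
                (C₀ * B) ^ (i - (cols c).1) * (C₀ * B) ^ (cols c).1 :=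
                  mul_le_mul (pow_le_pow_left₀ (hUpos r).le (hu r) _)
                    (pow_le_pow_left₀ (by positivity) ((hchart r).trans (hu r)) _)
                    (by positivity) (by positivity)
              _ = (C₀ * B) ^ i := by
                rw [← pow_add]
                congr 1
                have := hc1 c
                omega
          · rw [← hc2 c, ← Finset.prod_pow_eq_pow_sum]
            refine Finset.prod_le_prod (fun _ _ => by positivity) (fun k _ => ?_)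
            refine pow_le_pow_left₀ (norm_nonneg _) ?_ _
            rw [ha r k]
            refine (norm_sum_le _ _).trans ?_
            have h5 : ∑ j : Fin 4, ‖W k j * α r j‖ ≤ ∑ _j : Fin 4, C₀ * (Λ * H) := by
              refine Finset.sum_le_sum (fun j _ => ?_)
              rw [norm_mul]
              exact mul_le_mul (hW k j) (hαn r j) (norm_nonneg _) hC0.le
            refine h5.trans (le_of_eq ?_)
            simp only [Finset.sum_const, Finset.card_univ, Fintype.card_fin, nsmul_eq_mul]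
            push_cast
            ring)
      simpa using h3
    have h3 : Matrix.det (Matrix.of fun r c : Fin N =>
        ((u r : ℂ) ^ (i - (cols c).1) * (v r : ℂ) ^ (cols c).1 * ∏ k, a r k ^ (cols c).2 k) *
        ((F1 : ℂ) ^ (i - (cols c).1) * (F2 : ℂ) ^ (cols c).1)) =
        (∏ c : Fin N, ((F1 : ℂ) ^ (i - (cols c).1) * (F2 : ℂ) ^ (cols c).1)) *
        Matrix.det (Matrix.of fun r c : Fin N =>
          ((u r : ℂ) ^ (i - (cols c).1) * (v r : ℂ) ^ (cols c).1 *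
            ∏ k, a r k ^ (cols c).2 k)) := by
      rw [← Matrix.det_mul_row]
      congr 1
      ext r c
      simp only [Matrix.of_apply]
      ring
    rw [h3, norm_mul, hnorm_prod] at h2
    calc _ = (∏ c : Fin N, (F1 ^ (i - (cols c).1) * F2 ^ (cols c).1)) *
        ‖Matrix.det (Matrix.of fun r c : Fin N =>
          ((u r : ℂ) ^ (i - (cols c).1) * (v r : ℂ) ^ (cols c).1 *
            ∏ k, a r k ^ (cols c).2 k))‖ := mul_comm _ _
      _ ≤ (N.factorial : ℝ) * ((C₀ * B) ^ i * (4 * C₀ * (Λ * H)) ^ s) ^ N := h2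
      _ = ((N.factorial : ℝ) * (C₀ ^ i * (4 * C₀ * Λ) ^ s) ^ N) * (B ^ i * H ^ s) ^ N * 1 := by
        rw [show (C₀ * B) ^ i * (4 * C₀ * (Λ * H)) ^ s =
          (C₀ ^ i * (4 * C₀ * Λ) ^ s) * (B ^ i * H ^ s) by
            rw [show 4 * C₀ * (Λ * H) = (4 * C₀ * Λ) * H by ring, mul_pow, mul_pow (4 * C₀ * Λ)]
            ring, mul_pow (C₀ ^ i * (4 * C₀ * Λ) ^ s)]
        ring
      _ ≤ ((N.factorial : ℝ) * (C₀ ^ i * (4 * C₀ * Λ) ^ s) ^ N) * (B ^ i * H ^ s) ^ N *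
          ((C₃ / ρ) ^ K' * Y ^ (-G)) := mul_le_mul_of_nonneg_left h1 (by positivity)
      _ = ((N.factorial : ℝ) * (C₀ ^ i * (4 * C₀ * Λ) ^ s) ^ N * (C₃ / ρ) ^ K') *
          (B ^ i * H ^ s) ^ N * Y ^ (-G) := by ring
      _ ≤ _ := by
        refine mul_le_mul_of_nonneg_right (mul_le_mul_of_nonneg_right ?_ (by positivity)) hYG
        have : 0 ≤ (C₀ ^ i * Λ ^ s) ^ N * K₁ := by positivity
        linarith
  -- the main case
  set b : Fin N := ⟨0, hN⟩ with hb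
  have hYw1 : Y ^ (-1 : ℝ) ≤ Y ^ (-(min w 1)) :=
    Real.rpow_le_rpow_of_exponent_le hY (by linarith [min_le_right w 1])
  have hYw2 : Y ^ (-w) ≤ Y ^ (-(min w 1)) :=
    Real.rpow_le_rpow_of_exponent_le hY (by linarith [min_le_left w 1])
  have hs1 : C₀ * Y ^ (-1 : ℝ) ≤ ρ := by
    refine le_trans ?_ hsmall
    exact mul_le_mul (by rw [hC₃]; linarith) hYw1 (by positivity) hC₃0.le
  have hs2 : k₀ * (2 * Y ^ (-w)) ≤ ρ := by
    refine le_trans ?_ hsmall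
    have h1 : k₀ * (2 * Y ^ (-w)) = (2 * k₀) * Y ^ (-w) := by ring
    rw [h1]
    exact mul_le_mul (by rw [hC₃]; linarith) hYw2 (by positivity) hC₃0.le
  set t : Fin N → ℝ := fun r => v r * F2 / (u r * F1) with htdef
  set m : Fin N → Fin 4 → ℂ := fun r j => f1 j / F1 + t r * (f2 j / F2) with hmdef
  have hum : ∀ r j, (u r * f1 j + v r * f2 j : ℂ) = (u r * F1 : ℝ) * m r j := by
    intro r j
    have huc : (u r : ℂ) ≠ 0 := by exact_mod_cast hun r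
    rw [hmdef, htdef]
    push_cast
    field_simp
  have hUn : ∀ r, ‖((u r * F1 : ℝ) : ℂ)‖ = |u r| * F1 := by
    intro r
    rw [Complex.norm_real, Real.norm_eq_abs, abs_mul, abs_of_pos hF1]
  have hmlow : ∀ r j, c₀ / C₀ ≤ ‖m r j‖ := by
    intro r j
    have h3 := hβ r j
    rw [hum r j, norm_mul, hUn] at h3
    rw [div_le_iff₀ hC0]
    have h4 : c₀ * B ≤ (C₀ * B) * ‖m r j‖ :=
      h3.trans (mul_le_mul_of_nonneg_right (hu r) (norm_nonneg _))
    have h5 : c₀ * B ≤ (‖m r j‖ * C₀) * B := by linarith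
    exact le_of_mul_le_mul_right h5 hB
  have hmne : ∀ r j, m r j ≠ 0 := by
    intro r j h0
    have := hmlow r j
    rw [h0, norm_zero] at this
    have h2 : 0 < c₀ / C₀ := by positivity
    linarith
  have hy : ∀ j, ‖f2 j / F2‖ ≤ C₀ := by
    intro j
    rw [norm_div, Complex.norm_real, Real.norm_eq_abs, abs_of_pos hF2, div_le_iff₀ hF2]
    exact hf2 j
  have hx1 : ∀ j, ‖f1 j / F1‖ ≤ C₀ := by
    intro j
    rw [norm_div, Complex.norm_real, Real.norm_eq_abs, abs_of_pos hF1, div_le_iff₀ hF1]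
    exact hf1 j
  have htb : ∀ r, |t r| ≤ 1 := by
    intro r
    rw [htdef]
    simp only
    rw [abs_div, abs_mul, abs_mul, abs_of_pos hF1, abs_of_pos hF2, div_le_one (hUpos r)]
    exact hchart r
  have hmup : ∀ r j, ‖m r j‖ ≤ 2 * C₀ := by
    intro r j
    rw [hmdef]
    refine (norm_add_le _ _).trans ?_
    have h2 : ‖(t r : ℂ) * (f2 j / F2)‖ ≤ C₀ := by
      rw [norm_mul, Complex.norm_real, Real.norm_eq_abs]
      calc |t r| * ‖f2 j / F2‖ ≤ 1 * C₀ :=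
            mul_le_mul (htb r) (hy j) (norm_nonneg _) (by norm_num)
        _ = C₀ := one_mul _
    have := hx1 j
    linarith
  have hUlow : ∀ r, c₀ / (2 * C₀) * B ≤ |u r| * F1 := by
    intro r
    have h3 := hβ r 0
    rw [hum r 0, norm_mul, hUn] at h3
    have h4 : c₀ * B ≤ (|u r| * F1) * (2 * C₀) :=
      h3.trans (mul_le_mul_of_nonneg_left (hmup r 0) (hUpos r).le)
    rw [div_mul_eq_mul_div, div_le_iff₀ (by positivity)]
    exact h4
  -- the row quantity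
  set Q : Fin N → ℝ := fun r => κ r * n r / (u r * F1) with hQdef
  have hQQ : ∀ r r', 0 < Q r * Q r' := by
    intro r r'
    have h1 : Q r * Q r' = ((κ r * n r * u r) * (κ r' * n r' * u r')) /
        ((u r * u r' * F1) ^ 2) := by
      rw [hQdef]
      have := hun r
      have := hun r'
      field_simp
    rw [h1]
    have h2 : u r * u r' * F1 ≠ 0 := mul_ne_zero (mul_ne_zero (hun r) (hun r')) hF1.ne'
    exact div_pos (hsgn r r') (by positivity)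
  have hQne : ∀ r, Q r ≠ 0 := by
    intro r h0
    have := hQQ r r
    rw [h0] at this
    simp at this
  set l : Fin N → ℝ := fun r => Real.sqrt |Q r| with hldef
  have hl0 : ∀ r, 0 < l r := fun r => Real.sqrt_pos.2 (abs_pos.2 (hQne r))
  have hl2 : ∀ r, l r ^ 2 = |Q r| := fun r => Real.sq_sqrt (abs_nonneg _)
  have hlH : ∀ r, l r ≤ Λ * H := by
    intro r
    have h1 : |Q r| * (c₀ / (2 * C₀) * B) ≤ C₀ * (C₀ * Y) := by
      have h2 : |Q r| * (|u r| * F1) = |κ r| * |n r| := by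
        rw [hQdef]
        simp only
        rw [abs_div, abs_mul, abs_mul (u r), abs_of_pos hF1, div_mul_cancel₀]
        exact (hUpos r).ne'
      refine (mul_le_mul_of_nonneg_left (hUlow r) (abs_nonneg _)).trans ?_
      rw [h2]
      exact mul_le_mul (hκ r) (hnu r) (abs_nonneg _) hC0.le
    have h3 : l r ^ 2 * (c₀ / (2 * C₀) * B) ≤ (Λ * H) ^ 2 * (c₀ / (2 * C₀) * B) := by
      rw [hl2]
      refine h1.trans ?_
      rw [mul_pow, hΛ2]
      have h6 : 2 * C₀ ^ 4 / c₀ * H ^ 2 * (c₀ / (2 * C₀) * B) = C₀ ^ 2 * (C₀ * (B * H ^ 2)) := by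
        field_simp
      rw [h6]
      have h7 : C₀ ^ 2 * Y ≤ C₀ ^ 2 * (C₀ * (B * H ^ 2)) :=
        mul_le_mul_of_nonneg_left hYB (by positivity)
      calc C₀ * (C₀ * Y) = C₀ ^ 2 * Y := by ring
        _ ≤ _ := h7
    have h6 : l r ^ 2 ≤ (Λ * H) ^ 2 := le_of_mul_le_mul_right h3 (by positivity)
    exact le_of_sq_le_sq h6 (by positivity)
  have hnne : ∀ r, n r ≠ 0 := by
    intro r h0
    have h1 := hnl r
    rw [h0, abs_zero] at h1
    linarith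
  have hα2 : ∀ r j, α r j ^ 2 = Q r * (1 + (-θ j * (n r : ℂ)⁻¹)) / m r j := by
    intro r j
    have h1 := hα r j
    rw [hum r j] at h1
    have h2 : ((u r * F1 : ℝ) : ℂ) ≠ 0 := by exact_mod_cast hUne r
    have h3 : (n r : ℂ) ≠ 0 := by exact_mod_cast hnne r
    have h4 := hmne r j
    have hQc : (Q r : ℂ) = κ r * n r / (u r * F1) := by
      rw [hQdef]
      push_cast
      rfl
    have h5 : (1 + (-θ j * (n r : ℂ)⁻¹)) = (n r - θ j) / n r := by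
      field_simp
      ring
    push_cast at h1 h2
    rw [eq_div_iff h4, hQc, h5, div_mul_div_comm, eq_div_iff (mul_ne_zero h2 h3)]
    linear_combination (n r : ℂ) * h1
  -- the constants of the arc
  set A : Fin 4 → ℂ := fun j => α b j * (1 + (-θ j * (n b : ℂ)⁻¹)) ^ (-(1 / 2) : ℂ) / (l b : ℂ)
    with hAdef
  set k : Fin 4 → ℂ := fun j => (f2 j / F2) / m b j with hkdef
  set δ : Fin N → ℂ := fun r => ((t r - t b : ℝ) : ℂ) with hδdef
  set ν : Fin N → ℂ := fun r => (n r : ℂ)⁻¹ with hνdef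
  have hν : ∀ r, ‖ν r‖ ≤ Y ^ (-1 : ℝ) := by
    intro r
    rw [hνdef]
    simp only
    rw [norm_inv, Complex.norm_real, Real.norm_eq_abs, Real.rpow_neg_one]
    exact inv_anti₀ hY0 (hnl r)
  have hδ : ∀ r, ‖δ r‖ ≤ 2 * Y ^ (-w) := by
    intro r
    rw [hδdef]
    simp only
    rw [Complex.norm_real, Real.norm_eq_abs]
    have h1 := ht r
    have h2 := ht b
    have h3 : t r - t b = (t r - t0) - (t b - t0) := by ring
    rw [h3]
    have h4 := abs_sub (t r - t0) (t b - t0)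
    refine h4.trans ?_
    have h5 : |t r - t0| ≤ Y ^ (-w) := h1
    have h6 : |t b - t0| ≤ Y ^ (-w) := h2
    linarith
  have hkn : ∀ j, ‖k j‖ ≤ k₀ := by
    intro j
    rw [hkdef]
    simp only
    rw [norm_div, hk₀]
    have h1 : ‖f2 j / F2‖ / ‖m b j‖ ≤ C₀ / (c₀ / C₀) :=
      div_le_div₀ hC0.le (hy j) (by positivity) (hmlow b j)
    refine h1.trans (le_of_eq ?_)
    field_simp
  have hθν : ∀ r j, ‖-θ j * ν r‖ ≤ ρ := by
    intro r j
    rw [norm_mul, norm_neg]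
    exact (mul_le_mul (hθ j) (hν r) (norm_nonneg _) hC0.le).trans hs1
  have hkδ : ∀ r j, ‖k j * δ r‖ ≤ ρ := by
    intro r j
    rw [norm_mul]
    exact (mul_le_mul (hkn j) (hδ r) (norm_nonneg _) hk₀0.le).trans hs2
  have hρ2 : ρ ≤ r₂ := (min_le_right _ _).trans (min_le_left _ _)
  have hρ3 : ρ ≤ r₃ := (min_le_right _ _).trans (min_le_right _ _)
  have hρ1 : ρ ≤ r₁ := min_le_left _ _
  have hA2 : ∀ j, A j ^ 2 = (Q b : ℂ) / ((|Q b| : ℝ) : ℂ) / m b j := by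
    intro j
    have h1 : (1 + (-θ j * (n b : ℂ)⁻¹)) ≠ 0 := by
      apply one_add_ne
      exact lt_of_le_of_lt (hθν b j) (by linarith)
    have h2 : ((l b : ℂ)) ^ 2 = ((|Q b| : ℝ) : ℂ) := by
      rw [← hl2 b]
      push_cast
      rfl
    rw [hAdef]
    simp only
    rw [div_pow, mul_pow, nhalf_sq, hα2 b j, h2]
    have h3 := hmne b j
    have h4 : ((|Q b| : ℝ) : ℂ) ≠ 0 := by
      exact_mod_cast (abs_pos.2 (hQne b)).ne'
    generalize (1 + (-θ j * (n b : ℂ)⁻¹)) = Z at h1 ⊢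
    field_simp
  have hAn : ∀ j, ‖A j‖ ≤ A₀ := by
    intro j
    have h1 : ‖A j‖ ^ 2 ≤ C₀ / c₀ := by
      rw [← norm_pow, hA2 j, norm_div, norm_div, Complex.norm_real, Complex.norm_real,
        Real.norm_eq_abs, Real.norm_eq_abs, abs_abs, div_self (abs_pos.2 (hQne b)).ne']
      have h2 : 1 / ‖m b j‖ ≤ 1 / (c₀ / C₀) := one_div_le_one_div_of_le (by positivity) (hmlow b j)
      refine h2.trans (le_of_eq ?_)
      field_simp
    rw [hA₀]
    exact Real.le_sqrt_of_sq_le h1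
  have h1kδ : ∀ r j, 1 + k j * δ r = m r j / m b j := by
    intro r j
    have h1 := hmne b j
    have h2 : m r j = m b j + δ r * (f2 j / F2) := by
      rw [hmdef, hδdef]
      push_cast
      ring
    rw [h2, hkdef]
    simp only
    rw [add_div, div_self h1]
    ring
  have hαeq : ∀ r j, α r j = (l r : ℂ) * (A j * ((1 + (-θ j * ν r)) ^ (1 / 2 : ℂ) *
      (1 + k j * δ r) ^ (-(1 / 2) : ℂ))) := by
    intro r j
    have hb0 : α b j ≠ 0 := by
      intro h0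
      have h1 := hα2 b j
      have h2 : (1 + (-θ j * (n b : ℂ)⁻¹)) ≠ 0 := by
        apply one_add_ne
        exact lt_of_le_of_lt (hθν b j) (by linarith)
      have h3 : (Q b : ℂ) ≠ 0 := by exact_mod_cast hQne b
      rw [h0, eq_div_iff (hmne b j)] at h1
      simp only [ne_eq, OfNat.ofNat_ne_zero, not_false_eq_true, zero_pow, zero_mul] at h1
      exact (mul_ne_zero h3 h2) h1.symm
    refine root_eq (hl0 r) (hl0 b) ?_ (by rw [hAdef]) (hn3' _ ((hθν b j).trans hρ3))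
      (hn2' _ ((hθν r j).trans hρ2)) (hn3' _ ((hkδ r j).trans hρ3)) hb0 (hre r b j)
    rw [mul_pow, mul_pow, mul_pow, hA2 j, half_sq, nhalf_sq, h1kδ r j, hα2 r j]
    have h2 : ((l r : ℂ)) ^ 2 = ((|Q r| : ℝ) : ℂ) := by
      rw [← hl2 r]
      push_cast
      rfl
    have h3 : ((|Q r| : ℝ) : ℂ) * (Q b : ℂ) = (Q r : ℂ) * ((|Q b| : ℝ) : ℂ) := by
      exact_mod_cast abs_mul_eq_of_pos (hQQ r b)
    have h4 : ((|Q b| : ℝ) : ℂ) ≠ 0 := by
      exact_mod_cast (abs_pos.2 (hQne b)).ne'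
    have h5 := hmne b j
    have h6 := hmne r j
    rw [h2]
    rw [hνdef]
    simp only
    rw [div_eq_iff h6]
    generalize (1 + (-θ j * (n r : ℂ)⁻¹)) = Z
    field_simp
    linear_combination (-Z) * h3
  -- factorisation of the matrix
  set R : Fin N → ℂ := fun r => ((u r * F1 : ℝ) : ℂ) ^ i * (l r : ℂ) ^ s with hR
  have hentry : ∀ r c, ((u r : ℂ) ^ (i - (cols c).1) * (v r : ℂ) ^ (cols c).1 *
      ∏ k, a r k ^ (cols c).2 k) * ((F1 : ℂ) ^ (i - (cols c).1) * (F2 : ℂ) ^ (cols c).1) =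
      R r * entB θ W A k (t b) (cols c) (δ r) (ν r) := by
    intro r c
    have huc : (u r : ℂ) ≠ 0 := by exact_mod_cast hun r
    have h1 : ∏ κ', a r κ' ^ (cols c).2 κ' = (l r : ℂ) ^ s *
        ∏ κ', (∑ j, (W κ' j * A j) * ((1 + (-θ j * ν r)) ^ (1 / 2 : ℂ) *
          (1 + k j * δ r) ^ (-(1 / 2) : ℂ))) ^ (cols c).2 κ' := by
      rw [← hc2 c, ← Finset.prod_pow_eq_pow_sum, ← Finset.prod_mul_distrib]
      refine Finset.prod_congr rfl (fun κ' _ => ?_)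
      rw [← mul_pow, ha r κ', Finset.mul_sum]
      congr 1
      refine Finset.sum_congr rfl (fun j _ => ?_)
      rw [hαeq r j]
      ring
    have h2 : (u r : ℂ) ^ (i - (cols c).1) * (v r : ℂ) ^ (cols c).1 *
        ((F1 : ℂ) ^ (i - (cols c).1) * (F2 : ℂ) ^ (cols c).1) =
        (u r * F1 : ℂ) ^ i * ((t b : ℂ) + δ r) ^ (cols c).1 := by
      have h3 : (t b : ℂ) + δ r = v r * F2 / (u r * F1) := by
        rw [hδdef, htdef]
        push_cast
        ring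
      have h4 : (u r * F1 : ℂ) ^ i = (u r * F1 : ℂ) ^ (i - (cols c).1) *
          (u r * F1 : ℂ) ^ (cols c).1 := by
        rw [← pow_add]
        congr 1
        have := hc1 c
        omega
      rw [h3, h4, mul_assoc ((u r * F1 : ℂ) ^ (i - (cols c).1)), ← mul_pow (u r * F1 : ℂ) _ (cols c).1,
        mul_div_cancel₀ _ (mul_ne_zero huc hF1c), mul_pow, mul_pow]
      ring
    rw [entB, h1, hR]
    calc _ = ((u r : ℂ) ^ (i - (cols c).1) * (v r : ℂ) ^ (cols c).1 *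
        ((F1 : ℂ) ^ (i - (cols c).1) * (F2 : ℂ) ^ (cols c).1)) *
        ((l r : ℂ) ^ s * ∏ κ', (∑ j, (W κ' j * A j) * ((1 + (-θ j * ν r)) ^ (1 / 2 : ℂ) *
          (1 + k j * δ r) ^ (-(1 / 2) : ℂ))) ^ (cols c).2 κ') := by ring
      _ = _ := by
        rw [h2]
        push_cast
        ring
  have hdet : Matrix.det (Matrix.of fun r c : Fin N =>
        ((u r : ℂ) ^ (i - (cols c).1) * (v r : ℂ) ^ (cols c).1 * ∏ k, a r k ^ (cols c).2 k)) *
        ∏ c, ((F1 : ℂ) ^ (i - (cols c).1) * (F2 : ℂ) ^ (cols c).1) =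
      (∏ r, R r) * Matrix.det (Matrix.of fun r c : Fin N =>
        entB θ W A k (t b) (cols c) (δ r) (ν r)) := by
    rw [mul_comm, ← Matrix.det_mul_row, ← Matrix.det_mul_column]
    congr 1
    ext r c
    simp only [Matrix.of_apply]
    rw [mul_comm]
    exact hentry r c
  have hRb : ∀ r, ‖R r‖ ≤ (C₀ ^ i * Λ ^ s) * (B ^ i * H ^ s) := by
    intro r
    rw [hR]
    simp only
    rw [norm_mul, norm_pow, hUn, norm_pow, Complex.norm_real, Real.norm_eq_abs, abs_of_pos (hl0 r)]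
    calc (|u r| * F1) ^ i * l r ^ s ≤ (C₀ * B) ^ i * (Λ * H) ^ s :=
          mul_le_mul (pow_le_pow_left₀ (hUpos r).le (hu r) _)
            (pow_le_pow_left₀ (hl0 r).le (hlH r) _) (pow_nonneg (hl0 r).le _) (by positivity)
      _ = _ := by
        rw [mul_pow, mul_pow]
        ring
  have hRprod : ∏ r : Fin N, ‖R r‖ ≤ ((C₀ ^ i * Λ ^ s) * (B ^ i * H ^ s)) ^ N := by
    have : ∏ r : Fin N, ‖R r‖ ≤ ∏ _r : Fin N, ((C₀ ^ i * Λ ^ s) * (B ^ i * H ^ s)) :=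
      Finset.prod_le_prod (fun _ _ => norm_nonneg _) (fun r _ => hRb r)
    simpa using this
  have hfin := hser θ W A k (t b) hθ hW hAn hkn
    (by rw [Complex.norm_real, Real.norm_eq_abs]; exact htb b) cols hc1 hc2 Y hY δ ν hδ hν
    (hs1.trans hρ1) (hs2.trans hρ1)
  rw [← hnorm_prod, ← norm_mul, hdet, norm_mul, norm_prod]
  calc (∏ r, ‖R r‖) * ‖Matrix.det (Matrix.of fun r c : Fin N =>
        entB θ W A k (t b) (cols c) (δ r) (ν r))‖ ≤
      ((C₀ ^ i * Λ ^ s) * (B ^ i * H ^ s)) ^ N * (K₁ * Y ^ (-G)) :=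
        mul_le_mul hRprod hfin (norm_nonneg _) (by positivity)
    _ = ((C₀ ^ i * Λ ^ s) ^ N * K₁) * (B ^ i * H ^ s) ^ N * Y ^ (-G) := by
        rw [mul_pow]
        ring
    _ ≤ _ := by
        refine mul_le_mul_of_nonneg_right (mul_le_mul_of_nonneg_right ?_ (by positivity)) hYG
        have : 0 ≤ (N.factorial : ℝ) * (C₀ ^ i * (4 * C₀ * Λ) ^ s) ^ N * (C₃ / ρ) ^ K' := by
          positivity
        linarith

end Pool.Agent.Lib.SQF
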