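import Pool.Agent.Lib.SQF.Defs
import Pool.Agent.Lib.SQF.NumB
import Pool.Agent.Lib.SQF.RealB

/-!
# SQF, beta-slices: from solutions to the real determinant bound

Charts, arcs, classes (quadrants of the conjugates of `α`, signs of `n`, `u`, `v`), and the real
bound for determinants of forms at solutions of one class in one arc.
-/

set_option autoImplicit false

open Polynomial Finset

namespace Pool.Agent.Lib.SQF

noncomputable section

/-- chart A of the slice parameter -/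
def chB (E1 E2 : ℝ) (u v : ℤ) : Prop := |(v : ℝ)| * E2 ≤ |(u : ℝ)| * E1

open Classical in
/-- the normalised parameter in its chart, at most `1` in absolute value -/
def tB (E1 E2 : ℝ) (u v : ℤ) : ℝ :=
  if chB E1 E2 u v then (v : ℝ) * E2 / (u * E1) else (u : ℝ) * E1 / (v * E2)

/-- the dyadic level of the exponent `w` -/
def kB (Y w : ℝ) : ℕ := ⌈w * Real.logb 2 Y⌉₊

/-- the dyadic arc of exponent `w` -/
def arcB (Y w E1 E2 : ℝ) (u v : ℤ) : ℤ := ⌊tB E1 E2 u v * 2 ^ kB Y w⌋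

open Classical in
/-- the class of a solution: quadrants of the conjugates of `α`, signs of `n`, `u`, `v`, chart -/
def clsB (ζ : Fin 4 → ℂ) (E1 E2 : ℝ) (n : ℤ) (α : Fin 4 → ℤ) (u v : ℤ) :
    (Fin 4 → Bool × Bool) × (Bool × Bool × Bool × Bool) :=
  (fun j => (decide (0 ≤ (ev α (ζ j)).re), decide (0 ≤ (ev α (ζ j)).im)),
    (decide (0 < n), decide (0 < u), decide (0 < v), decide (chB E1 E2 u v)))

lemma abs_tB_le {E1 E2 : ℝ} (h1 : 0 < E1) (h2 : 0 < E2) (u v : ℤ) : |tB E1 E2 u v| ≤ 1 := by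
  unfold tB
  split_ifs with h
  · unfold chB at h
    rw [abs_div, abs_mul, abs_mul, abs_of_pos h1, abs_of_pos h2]
    exact div_le_one_of_le₀ h (by positivity)
  · unfold chB at h
    rw [abs_div, abs_mul, abs_mul, abs_of_pos h1, abs_of_pos h2]
    exact div_le_one_of_le₀ (le_of_lt (not_le.1 h)) (by positivity)

lemma le_two_pow_kB {Y : ℝ} (hY : 1 ≤ Y) (w : ℝ) : Y ^ w ≤ 2 ^ kB Y w := by
  have hY0 : 0 < Y := by linarith
  have h1 : w * Real.logb 2 Y ≤ (kB Y w : ℝ) := Nat.le_ceil _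
  have h2 : Y ^ w = (2 : ℝ) ^ (w * Real.logb 2 Y) := by
    rw [mul_comm, Real.rpow_mul (by norm_num), Real.rpow_logb (by norm_num) (by norm_num) hY0]
  rw [h2, ← Real.rpow_natCast]
  exact Real.rpow_le_rpow_of_exponent_le (by norm_num) h1

lemma two_pow_kB_le {Y w : ℝ} (hY : 1 ≤ Y) (hw : 0 ≤ w) : (2 : ℝ) ^ kB Y w ≤ 2 * Y ^ w := by
  have hY0 : 0 < Y := by linarith
  have h0 : 0 ≤ w * Real.logb 2 Y := mul_nonneg hw (Real.logb_nonneg (by norm_num) hY)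
  have h1 : (kB Y w : ℝ) < w * Real.logb 2 Y + 1 := Nat.ceil_lt_add_one h0
  have h2 : Y ^ w = (2 : ℝ) ^ (w * Real.logb 2 Y) := by
    rw [mul_comm, Real.rpow_mul (by norm_num), Real.rpow_logb (by norm_num) (by norm_num) hY0]
  have h3 : 2 * Y ^ w = (2 : ℝ) ^ (w * Real.logb 2 Y + 1) := by
    rw [h2, Real.rpow_add (by norm_num), Real.rpow_one, mul_comm]
  rw [h3, ← Real.rpow_natCast]
  exact Real.rpow_le_rpow_of_exponent_le (by norm_num) h1.le

lemma kB_mono {Y w w' : ℝ} (hY : 1 ≤ Y) (hw : w' ≤ w) : kB Y w' ≤ kB Y w := by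
  apply Nat.ceil_mono
  exact mul_le_mul_of_nonneg_right hw (Real.logb_nonneg (by norm_num) hY)

/-- arcs are nested -/
theorem arcB_mono {Y w w' E1 E2 : ℝ} (hY : 1 ≤ Y) (hw : w' ≤ w) {u v u' v' : ℤ}
    (h : arcB Y w E1 E2 u v = arcB Y w E1 E2 u' v') :
    arcB Y w' E1 E2 u v = arcB Y w' E1 E2 u' v' := by
  obtain ⟨d, hd⟩ := Nat.exists_eq_add_of_le (kB_mono hY hw)
  have key : ∀ t : ℝ, ⌊t * 2 ^ kB Y w'⌋ = ⌊t * 2 ^ kB Y w⌋ / ((2 ^ d : ℕ) : ℤ) := by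
    intro t
    rw [← Int.floor_div_natCast]
    congr 1
    rw [hd, pow_add]
    have : ((2 : ℝ) ^ d) ≠ 0 := by positivity
    push_cast
    field_simp
  unfold arcB at h ⊢
  rw [key, key, h]

/-- two points of one arc are close -/
theorem arcB_close {Y w E1 E2 : ℝ} (hY : 1 ≤ Y) {u v u' v' : ℤ}
    (h : arcB Y w E1 E2 u v = arcB Y w E1 E2 u' v') :
    |tB E1 E2 u v - tB E1 E2 u' v'| ≤ Y ^ (-w) := by
  have hY0 : 0 < Y := by linarith
  unfold arcB at h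
  have h1 := Int.abs_sub_lt_one_of_floor_eq_floor h
  rw [← sub_mul, abs_mul, abs_of_pos (show (0 : ℝ) < 2 ^ kB Y w by positivity)] at h1
  have h2 := le_two_pow_kB hY w
  have h3 : 0 < Y ^ w := Real.rpow_pos_of_pos hY0 w
  rw [Real.rpow_neg hY0.le, ← one_div, le_div_iff₀ h3]
  refine le_trans (mul_le_mul_of_nonneg_left h2 (abs_nonneg _)) h1.le

/-- the number of arcs of exponent `w` is at most `5 Y ^ w` -/
theorem arcB_card {ι : Type*} {Y w E1 E2 : ℝ} (hY : 1 ≤ Y) (hw : 0 ≤ w) (h1 : 0 < E1)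
    (h2 : 0 < E2) (S : Finset ι) (u v : ι → ℤ) :
    ((S.image fun x => arcB Y w E1 E2 (u x) (v x)).card : ℝ) ≤ 5 * Y ^ w := by
  have hsub : (S.image fun x => arcB Y w E1 E2 (u x) (v x)) ⊆
      Finset.Icc (-((2 : ℤ) ^ kB Y w)) ((2 : ℤ) ^ kB Y w) := by
    intro a ha
    obtain ⟨x, _, rfl⟩ := Finset.mem_image.1 ha
    have h3 := abs_le.1 (abs_tB_le h1 h2 (u x) (v x))
    have hp : (0 : ℝ) < 2 ^ kB Y w := by positivity
    rw [Finset.mem_Icc]
    constructor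
    · rw [arcB, Int.le_floor]
      push_cast
      nlinarith [h3.1]
    · rw [arcB]
      have h5 : tB E1 E2 (u x) (v x) * 2 ^ kB Y w ≤ (((2 : ℤ) ^ kB Y w : ℤ) : ℝ) := by
        push_cast
        nlinarith [h3.2]
      have h6 := Int.floor_le_floor h5
      rwa [Int.floor_intCast] at h6
  have h3 := Finset.card_le_card hsub
  rw [Int.card_Icc] at h3
  have h4 : ((2 : ℤ) ^ kB Y w + 1 - -((2 : ℤ) ^ kB Y w)).toNat = 2 * 2 ^ kB Y w + 1 := by
    have : ((2 : ℤ) ^ kB Y w + 1 - -((2 : ℤ) ^ kB Y w)) = ((2 * 2 ^ kB Y w + 1 : ℕ) : ℤ) := by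
      push_cast; ring
    rw [this, Int.toNat_natCast]
  rw [h4] at h3
  have h5 : ((S.image fun x => arcB Y w E1 E2 (u x) (v x)).card : ℝ) ≤ 2 * 2 ^ kB Y w + 1 := by
    exact_mod_cast h3
  have h6 := two_pow_kB_le hY hw
  have h7 : 1 ≤ Y ^ w := Real.one_le_rpow hY hw
  linarith

/-! ### Classes -/

private lemma quadrant_re {z z' : ℂ} (h1 : decide (0 ≤ z.re) = decide (0 ≤ z'.re))
    (h2 : decide (0 ≤ z.im) = decide (0 ≤ z'.im)) : 0 ≤ (z * (starRingEnd ℂ) z').re := by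
  have h3 : (z * (starRingEnd ℂ) z').re = z.re * z'.re + z.im * z'.im := by
    simp [Complex.mul_re]
  rw [h3]
  have key : ∀ x y : ℝ, decide (0 ≤ x) = decide (0 ≤ y) → 0 ≤ x * y := by
    intro x y h
    by_cases hx : 0 ≤ x
    · have hy : 0 ≤ y := by
        by_contra hy
        simp [hx, hy] at h
      positivity
    · have hy : ¬ 0 ≤ y := by
        intro hy
        simp [hx, hy] at h
      exact mul_nonneg_of_nonpos_of_nonpos (not_le.1 hx).le (not_le.1 hy).le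
  exact add_nonneg (key _ _ h1) (key _ _ h2)

private lemma sign_mul {a b : ℤ} (h : decide (0 < a) = decide (0 < b)) (ha : a ≠ 0) (hb : b ≠ 0) :
    (0 : ℝ) < (a : ℝ) * b := by
  have h0 : 0 < a * b := by
    by_cases h1 : 0 < a
    · have h2 : 0 < b := by
        by_contra h2
        simp [h1, h2] at h
      positivity
    · have h2 : ¬ 0 < b := by
        intro h2
        simp [h1, h2] at h
      have h3 : a < 0 := by omega
      have h4 : b < 0 := by omega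
      exact mul_pos_of_neg_of_neg h3 h4
  exact_mod_cast h0

/-- the coordinates of `α` in terms of its conjugates -/
private lemma exists_inv (ζ : Fin 4 → ℂ) (hζ : Function.Injective ζ) :
    ∃ W : Fin 4 → Fin 4 → ℂ, ∀ α : Fin 4 → ℤ, ∀ k, (α k : ℂ) = ∑ j, W k j * ev α (ζ j) := by
  set V := Matrix.vandermonde ζ with hV
  have hdet : V.det ≠ 0 := Matrix.det_vandermonde_ne_zero_iff.2 hζ
  refine ⟨fun k j => V⁻¹ k j, fun α k => ?_⟩
  have h1 : V.mulVec (fun k => (α k : ℂ)) = fun j => ev α (ζ j) := by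
    funext j
    simp only [Matrix.mulVec, dotProduct, hV, Matrix.vandermonde_apply, ev]
    exact Finset.sum_congr rfl fun _ _ => mul_comm _ _
  have h2 : V⁻¹.mulVec (fun j => ev α (ζ j)) = fun k => (α k : ℂ) := by
    rw [← h1, Matrix.mulVec_mulVec, Matrix.nonsing_inv_mul _ (isUnit_iff_ne_zero.2 hdet),
      Matrix.one_mulVec]
  have h3 := congrFun h2 k
  simp only [Matrix.mulVec, dotProduct] at h3
  exact h3.symm

private lemma norm_ev_le (ζ : Fin 4 → ℂ) : ∃ M : ℝ, 1 ≤ M ∧ ∀ (f : Fin 4 → ℤ) (E : ℝ),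
    (∀ j, |(f j : ℝ)| ≤ E) → ∀ j, ‖ev f (ζ j)‖ ≤ M * E := by
  refine ⟨1 + ∑ j, ∑ k : Fin 4, ‖ζ j‖ ^ (k : ℕ), by
    have : 0 ≤ ∑ j, ∑ k : Fin 4, ‖ζ j‖ ^ (k : ℕ) := by positivity
    linarith, ?_⟩
  intro f E hf j
  have hE : 0 ≤ E := (abs_nonneg _).trans (hf 0)
  have h1 : ‖ev f (ζ j)‖ ≤ ∑ k : Fin 4, E * ‖ζ j‖ ^ (k : ℕ) := by
    unfold ev
    refine (norm_sum_le _ _).trans (Finset.sum_le_sum fun k _ => ?_)
    rw [norm_mul, norm_pow]
    refine mul_le_mul_of_nonneg_right ?_ (by positivity)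
    rw [Complex.norm_intCast]
    exact hf k
  have h2 : ∑ k : Fin 4, ‖ζ j‖ ^ (k : ℕ) ≤ ∑ j, ∑ k : Fin 4, ‖ζ j‖ ^ (k : ℕ) :=
    Finset.single_le_sum (f := fun j => ∑ k : Fin 4, ‖ζ j‖ ^ (k : ℕ))
      (fun i _ => by positivity) (Finset.mem_univ j)
  rw [← Finset.mul_sum] at h1
  nlinarith

/-- the data of one chart, `E1, f1, u` dominating -/
private lemma glue_core {N : ℕ} {g : ℤ[X]} {K Y P : ℝ} (hY : 1 ≤ Y) (hP : 0 < P) {m : ℤ}
    {f1 f2 : Fin 4 → ℤ} {ζ : Fin 4 → ℂ} (hroot : ∀ j, aeval (ζ j) g = 0)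
    {n : Fin N → ℤ} {p : Fin N → ℕ} {α β : Fin N → Fin 4 → ℤ} {u v : Fin N → ℤ}
    (hsol : ∀ r, IsSol 4 g K Y P (n r) (p r) (α r) (β r) m)
    (hsl : ∀ r, OnSlice f1 f2 (β r) (u r) (v r)) :
    (∀ r j, ev (α r) (ζ j) ^ 2 * (((u r : ℝ) : ℂ) * ev f1 (ζ j) + ((v r : ℝ) : ℂ) * ev f2 (ζ j)) =
      (((m : ℝ) ^ 2 : ℝ) : ℂ) * (((n r : ℝ) : ℂ) - ζ j)) ∧
    (∀ r j, 1 / (1 + |K|) * (Y / (P ^ ((1 : ℝ) / 4)) ^ 2) ≤
      ‖((u r : ℝ) : ℂ) * ev f1 (ζ j) + ((v r : ℝ) : ℂ) * ev f2 (ζ j)‖) ∧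
    (∀ r, ¬ (u r = 0 ∧ v r = 0)) ∧ (∀ r, n r ≠ 0) ∧
    (∀ _ : Fin N, (0 : ℝ) < (m : ℝ) ^ 2) ∧ (∀ _ : Fin N, (m : ℝ) ^ 2 ≤ K ^ 2) := by
  have hY0 : 0 < Y := by linarith
  have hH : 0 < P ^ ((1 : ℝ) / 4) := Real.rpow_pos_of_pos hP _
  have hev : ∀ r j, ev (β r) (ζ j) =
      ((u r : ℝ) : ℂ) * ev f1 (ζ j) + ((v r : ℝ) : ℂ) * ev f2 (ζ j) := by
    intro r j
    rw [ev_slice (hsl r) (ζ j)]
    simp
  have hlow : ∀ r j, 1 / (1 + |K|) * (Y / (P ^ ((1 : ℝ) / 4)) ^ 2) ≤ ‖ev (β r) (ζ j)‖ := by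
    intro r j
    have h1 := (hsol r).lowβ (ζ j) (hroot j)
    simp only [Nat.cast_ofNat] at h1
    have h2 : K ≤ 1 + |K| := by linarith [le_abs_self K]
    have hK : 0 < 1 + |K| := by positivity
    rw [div_mul_eq_mul_div, one_mul, div_le_iff₀ hK, div_le_iff₀ (by positivity)]
    have h3 : 0 ≤ ‖ev (β r) (ζ j)‖ * (P ^ ((1 : ℝ) / 4)) ^ 2 := by positivity
    nlinarith
  refine ⟨?_, ?_, ?_, ?_, ?_, ?_⟩
  · intro r j
    rw [← hev, (hsol r).eq_at (hroot j)]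
    push_cast
    rfl
  · intro r j
    rw [← hev]
    exact hlow r j
  · rintro r ⟨h1, h2⟩
    have h3 := hlow r 0
    rw [hev, h1, h2] at h3
    simp only [Int.cast_zero, Complex.ofReal_zero, zero_mul, add_zero, norm_zero] at h3
    have : 0 < 1 / (1 + |K|) * (Y / (P ^ ((1 : ℝ) / 4)) ^ 2) := by positivity
    linarith
  · intro r h
    have h1 := (hsol r).lower
    rw [h] at h1
    simp only [Int.cast_zero, abs_zero] at h1
    linarith
  · intro r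
    have h1 := (hsol r).m_ne
    have : (m : ℝ) ≠ 0 := by exact_mod_cast h1
    positivity
  · intro r
    have h1 := (hsol r).m_le
    have h2 : 0 ≤ |(m : ℝ)| := abs_nonneg _
    rw [← sq_abs (m : ℝ)]
    exact pow_le_pow_left₀ h2 h1 2

/-- **The real determinant bound at solutions of one class in one arc.** -/
theorem glueB (g : ℤ[X]) (_hg : g.Monic) (_hirr : Irreducible g) (_hd : g.natDegree = 4)
    (ζ : Fin 4 → ℂ) (hζ : Function.Injective ζ) (hroot : ∀ j, aeval (ζ j) g = 0)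
    (K : ℝ) (N i s : ℕ) (w G : ℝ) (hw : 0 < w) (hG : GainF N w G) :
    ∃ Kc : ℝ, 0 < Kc ∧ ∀ Y P : ℝ, 1 ≤ Y → 0 < P → ∀ (m : ℤ) (f1 f2 : Fin 4 → ℤ) (E1 E2 : ℝ),
      (∀ j l, j ≠ l → ev f1 (ζ j) * ev f2 (ζ l) ≠ ev f1 (ζ l) * ev f2 (ζ j)) →
      (∀ j, |(f1 j : ℝ)| ≤ E1) → (∀ j, |(f2 j : ℝ)| ≤ E2) →
      ∀ (cols : Fin N → ℕ × (Fin 4 → ℕ)), (∀ c, (cols c).1 ≤ i) → (∀ c, ∑ k, (cols c).2 k = s) →
      ∀ (n : Fin N → ℤ) (p : Fin N → ℕ) (α β : Fin N → Fin 4 → ℤ) (u v : Fin N → ℤ),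
      (∀ r, IsSol 4 g K Y P (n r) (p r) (α r) (β r) m) →
      (∀ r, OnSlice f1 f2 (β r) (u r) (v r)) →
      (∀ r, |(u r : ℝ)| * E1 * (P ^ ((1 : ℝ) / 4)) ^ 2 ≤ K * Y) →
      (∀ r, |(v r : ℝ)| * E2 * (P ^ ((1 : ℝ) / 4)) ^ 2 ≤ K * Y) →
      (∀ r r', clsB ζ E1 E2 (n r) (α r) (u r) (v r) = clsB ζ E1 E2 (n r') (α r') (u r') (v r')) →
      (∀ r r', arcB Y w E1 E2 (u r) (v r) = arcB Y w E1 E2 (u r') (v r')) →
      |((Matrix.det (Matrix.of fun r c : Fin N => u r ^ (cols c).1 * v r ^ (i - (cols c).1) *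
          ∏ k, α r k ^ (cols c).2 k) : ℤ) : ℝ)| *
        ∏ c, (E1 ^ (cols c).1 * E2 ^ (i - (cols c).1)) ≤
      Kc * ((Y / (P ^ ((1 : ℝ) / 4)) ^ 2) ^ i * (P ^ ((1 : ℝ) / 4)) ^ s) ^ N * Y ^ (-G) := by
  classical
  obtain ⟨W, hW⟩ := exists_inv ζ hζ
  obtain ⟨M, hM1, hM⟩ := norm_ev_le ζ
  set SW : ℝ := ∑ a, ∑ j, ‖W a j‖ with hSW
  set Sζ : ℝ := ∑ j, ‖ζ j‖ with hSζ
  have hSW0 : 0 ≤ SW := by positivity
  have hSζ0 : 0 ≤ Sζ := by positivity
  set C₀ : ℝ := 2 + |K| + K ^ 2 + M + SW + Sζ with hC₀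
  have hK0 : 0 ≤ |K| := abs_nonneg K
  have hK2 : 0 ≤ K ^ 2 := sq_nonneg K
  have hC1 : 1 ≤ C₀ := by linarith
  obtain ⟨K1, hK1, hdet⟩ := real_det_beta N i s ζ W C₀ (1 / (1 + |K|)) (by positivity) hC1
    (fun j => by
      have : ‖ζ j‖ ≤ Sζ := Finset.single_le_sum (f := fun j => ‖ζ j‖)
        (fun _ _ => norm_nonneg _) (Finset.mem_univ j)
      linarith)
    (fun a j => by
      have h1 : ‖W a j‖ ≤ ∑ j, ‖W a j‖ := Finset.single_le_sum (f := fun j => ‖W a j‖)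
        (fun _ _ => norm_nonneg _) (Finset.mem_univ j)
      have h2 : ∑ j, ‖W a j‖ ≤ SW := Finset.single_le_sum (f := fun a => ∑ j, ‖W a j‖)
        (fun _ _ => by positivity) (Finset.mem_univ a)
      linarith) w G hw.le hG
  refine ⟨K1, hK1, ?_⟩
  intro Y P hY hP m f1 f2 E1 E2 hns hf1 hf2 cols hc1 hc2 n p α β u v hsol hsl hu hv hcls harc
  have hY0 : 0 < Y := by linarith
  set H : ℝ := P ^ ((1 : ℝ) / 4) with hHdef
  have hH : 0 < H := Real.rpow_pos_of_pos hP _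
  have hB : 0 < Y / H ^ 2 := by positivity
  obtain ⟨ha, hb, hc, hd', he, hf⟩ := glue_core (N := N) hY hP hroot hsol hsl
  -- the heights are positive
  have hpos : ∀ (f : Fin 4 → ℤ) (E : ℝ), (∀ j, |(f j : ℝ)| ≤ E) → f ≠ 0 → 0 < E := by
    intro f E h h0
    obtain ⟨k, hk⟩ := Function.ne_iff.1 h0
    refine lt_of_lt_of_le ?_ (h k)
    have : (f k : ℝ) ≠ 0 := by exact_mod_cast hk
    positivity
  have hev0 : ∀ z : ℂ, ev (0 : Fin 4 → ℤ) z = 0 := by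
    intro z; simp [ev]
  have hE1 : 0 < E1 := hpos f1 E1 hf1 (by
    rintro rfl
    exact hns 0 1 (by decide) (by rw [hev0, hev0, zero_mul, zero_mul]))
  have hE2 : 0 < E2 := hpos f2 E2 hf2 (by
    rintro rfl
    exact hns 0 1 (by decide) (by rw [hev0, hev0, mul_zero, mul_zero]))
  have hYC : Y ≤ C₀ * (Y / H ^ 2 * H ^ 2) := by
    rw [div_mul_cancel₀ _ (by positivity)]
    nlinarith
  have hnC : ∀ r, |(n r : ℝ)| ≤ C₀ * Y := by
    intro r
    have := (hsol r).upper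
    nlinarith
  have hκC : ∀ r : Fin N, |(m : ℝ) ^ 2| ≤ C₀ := by
    intro r
    rw [abs_of_nonneg (sq_nonneg _)]
    have := hf r
    linarith
  have hfe : ∀ (f : Fin 4 → ℤ) (E : ℝ), (∀ j, |(f j : ℝ)| ≤ E) → 0 < E →
      ∀ j, ‖ev f (ζ j)‖ ≤ C₀ * E := by
    intro f E h h0 j
    refine (hM f E h j).trans ?_
    have : M ≤ C₀ := by linarith
    exact mul_le_mul_of_nonneg_right this h0.le
  have hUC : ∀ (x : ℤ) (E : ℝ), |(x : ℝ)| * E * H ^ 2 ≤ K * Y → |(x : ℝ)| * E ≤ C₀ * (Y / H ^ 2) := by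
    intro x E h
    have h1 : K ≤ C₀ := by linarith [le_abs_self K]
    rw [← mul_div_assoc, le_div_iff₀ (by positivity)]
    exact h.trans (mul_le_mul_of_nonneg_right h1 hY0.le)
  have hre : ∀ r r' j, 0 ≤ (ev (α r) (ζ j) * (starRingEnd ℂ) (ev (α r') (ζ j))).re := by
    intro r r' j
    have h1 := congrArg Prod.fst (hcls r r')
    have h2 := congrFun h1 j
    simp only [clsB, Prod.mk.injEq] at h2
    exact quadrant_re h2.1 h2.2
  have hcl2 : ∀ r r', (decide (0 < n r) = decide (0 < n r')) ∧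
      (decide (0 < u r) = decide (0 < u r')) ∧ (decide (0 < v r) = decide (0 < v r')) ∧
      (chB E1 E2 (u r) (v r) ↔ chB E1 E2 (u r') (v r')) := by
    intro r r'
    have h1 := congrArg Prod.snd (hcls r r')
    simp only [clsB, Prod.mk.injEq, decide_eq_decide] at h1
    obtain ⟨h2, h3, h4, h5⟩ := h1
    exact ⟨decide_eq_decide.2 h2, decide_eq_decide.2 h3, decide_eq_decide.2 h4, h5⟩
  -- a common centre
  obtain ⟨t0, ht0⟩ : ∃ t0 : ℝ, ∀ r, |tB E1 E2 (u r) (v r) - t0| ≤ Y ^ (-w) := by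
    rcases isEmpty_or_nonempty (Fin N) with h | ⟨⟨r0⟩⟩
    · exact ⟨0, fun r => isEmptyElim r⟩
    · exact ⟨tB E1 E2 (u r0) (v r0), fun r => arcB_close hY (harc r r0)⟩
  -- the determinant over `ℂ`
  have hcast : ∀ (M : Matrix (Fin N) (Fin N) ℤ),
      |((M.det : ℤ) : ℝ)| = ‖(M.map (fun x : ℤ => (x : ℂ))).det‖ := by
    intro M
    have h1 : (M.map (fun x : ℤ => (x : ℂ))).det = ((M.det : ℤ) : ℂ) := by
      have := (Int.castRingHom ℂ).map_det M
      simpa [RingHom.mapMatrix_apply] using this.symm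
    rw [h1, Complex.norm_intCast]
  rw [hcast]
  by_cases hch : ∀ r, chB E1 E2 (u r) (v r)
  · -- chart A
    have hu0 : ∀ r, u r ≠ 0 := by
      intro r h0
      apply hc r
      refine ⟨h0, ?_⟩
      have h1 := hch r
      unfold chB at h1
      rw [h0] at h1
      simp only [Int.cast_zero, abs_zero, zero_mul] at h1
      have h2 : |(v r : ℝ)| ≤ 0 := by
        by_contra h3
        push Not at h3
        have := mul_pos h3 hE2
        linarith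
      have h3 := abs_nonpos_iff.1 h2
      exact_mod_cast h3
    have key := hdet Y H (Y / H ^ 2) hY hH hB hYC (fun j => ev f1 (ζ j)) (fun j => ev f2 (ζ j))
      E1 E2 hE1 hE2 (hfe f1 E1 hf1 hE1) (hfe f2 E2 hf2 hE2) t0
      (fun c => (i - (cols c).1, (cols c).2)) (fun c => Nat.sub_le _ _) hc2
      (fun r => (u r : ℝ)) (fun r => (v r : ℝ)) (fun r => (n r : ℝ)) (fun _ => (m : ℝ) ^ 2)
      (fun r k => (α r k : ℂ)) (fun r j => ev (α r) (ζ j)) (fun r k => hW (α r) k)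
      ha hb hch (fun r => hUC _ _ (hu r))
      (fun r => by
        have h1 := ht0 r
        unfold tB at h1
        rwa [if_pos (hch r)] at h1)
      (fun r => (hsol r).lower) hnC hκC
      (fun r r' => by
        have h1 := sign_mul (hcl2 r r').1 (hd' r) (hd' r')
        have h2 := sign_mul (hcl2 r r').2.1 (hu0 r) (hu0 r')
        have h3 := he r
        have h4 := mul_pos (mul_pos h3 h3) (mul_pos h1 h2)
        calc (0 : ℝ) < _ := h4
          _ = _ := by ring)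
      hre
    have h2 : ∀ c, i - (i - (cols c).1) = (cols c).1 := fun c => Nat.sub_sub_self (hc1 c)
    simp only [h2] at key
    refine le_trans (le_of_eq ?_) key
    congr 3
    ext r c
    simp only [Matrix.map_apply, Matrix.of_apply]
    push_cast
    rfl
  · -- chart B
    have hch' : ∀ r, ¬ chB E1 E2 (u r) (v r) := by
      push Not at hch
      obtain ⟨r0, hr0⟩ := hch
      intro r h
      exact hr0 ((hcl2 r r0).2.2.2.1 h)
    have hchB : ∀ r, |(u r : ℝ)| * E1 < |(v r : ℝ)| * E2 := fun r => not_le.1 (hch' r)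
    have hv0 : ∀ r, v r ≠ 0 := by
      intro r h0
      have h1 := hchB r
      rw [h0] at h1
      simp only [Int.cast_zero, abs_zero, zero_mul] at h1
      have : 0 ≤ |(u r : ℝ)| * E1 := by positivity
      linarith
    have key := hdet Y H (Y / H ^ 2) hY hH hB hYC (fun j => ev f2 (ζ j)) (fun j => ev f1 (ζ j))
      E2 E1 hE2 hE1 (hfe f2 E2 hf2 hE2) (hfe f1 E1 hf1 hE1) t0
      cols hc1 hc2
      (fun r => (v r : ℝ)) (fun r => (u r : ℝ)) (fun r => (n r : ℝ)) (fun _ => (m : ℝ) ^ 2)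
      (fun r k => (α r k : ℂ)) (fun r j => ev (α r) (ζ j)) (fun r k => hW (α r) k)
      (fun r j => by rw [add_comm]; exact ha r j)
      (fun r j => (hb r j).trans_eq (by rw [add_comm]))
      (fun r => (hchB r).le) (fun r => hUC _ _ (hv r))
      (fun r => by
        have h1 := ht0 r
        unfold tB at h1
        rwa [if_neg (hch' r)] at h1)
      (fun r => (hsol r).lower) hnC hκC
      (fun r r' => by
        have h1 := sign_mul (hcl2 r r').1 (hd' r) (hd' r')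
        have h2 := sign_mul (hcl2 r r').2.2.1 (hv0 r) (hv0 r')
        have h3 := he r
        have h4 := mul_pos (mul_pos h3 h3) (mul_pos h1 h2)
        calc (0 : ℝ) < _ := h4
          _ = _ := by ring)
      hre
    refine le_trans (le_of_eq ?_) key
    congr 1
    · congr 2
      ext r c
      simp only [Matrix.map_apply, Matrix.of_apply]
      push_cast
      ring
    · exact Finset.prod_congr rfl fun c _ => mul_comm _ _

/-- the same bound in terms of the exponent `vv` of the sizes of `u`, `v` -/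
theorem glueB' (g : ℤ[X]) (hg : g.Monic) (hirr : Irreducible g) (hd : g.natDegree = 4)
    (ζ : Fin 4 → ℂ) (hζ : Function.Injective ζ) (hroot : ∀ j, aeval (ζ j) g = 0)
    (K : ℝ) (N i s : ℕ) (w G : ℝ) (hw : 0 < w) (hG : GainF N w G) :
    ∃ Kc : ℝ, 0 < Kc ∧ ∀ Y P : ℝ, 1 ≤ Y → 0 < P → ∀ (m : ℤ) (f1 f2 : Fin 4 → ℤ)
      (E1 E2 vv : ℝ),
      (∀ j l, j ≠ l → ev f1 (ζ j) * ev f2 (ζ l) ≠ ev f1 (ζ l) * ev f2 (ζ j)) →
      (∀ j, |(f1 j : ℝ)| ≤ E1) → (∀ j, |(f2 j : ℝ)| ≤ E2) →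
      Y / (P ^ ((1 : ℝ) / 4)) ^ 2 ≤ K * E1 * Y ^ vv →
      Y / (P ^ ((1 : ℝ) / 4)) ^ 2 ≤ K * E2 * Y ^ vv →
      ∀ (cols : Fin N → ℕ × (Fin 4 → ℕ)), (∀ c, (cols c).1 ≤ i) → (∀ c, ∑ k, (cols c).2 k = s) →
      ∀ (n : Fin N → ℤ) (p : Fin N → ℕ) (α β : Fin N → Fin 4 → ℤ) (u v : Fin N → ℤ),
      (∀ r, IsSol 4 g K Y P (n r) (p r) (α r) (β r) m) →
      (∀ r, OnSlice f1 f2 (β r) (u r) (v r)) →
      (∀ r, |(u r : ℝ)| * E1 * (P ^ ((1 : ℝ) / 4)) ^ 2 ≤ K * Y) →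
      (∀ r, |(v r : ℝ)| * E2 * (P ^ ((1 : ℝ) / 4)) ^ 2 ≤ K * Y) →
      (∀ r r', clsB ζ E1 E2 (n r) (α r) (u r) (v r) = clsB ζ E1 E2 (n r') (α r') (u r') (v r')) →
      (∀ r r', arcB Y w E1 E2 (u r) (v r) = arcB Y w E1 E2 (u r') (v r')) →
      |((Matrix.det (Matrix.of fun r c : Fin N => u r ^ (cols c).1 * v r ^ (i - (cols c).1) *
          ∏ k, α r k ^ (cols c).2 k) : ℤ) : ℝ)| ≤
      Kc * (Y ^ ((i : ℝ) * vv) * (P ^ ((1 : ℝ) / 4)) ^ s) ^ N * Y ^ (-G) := by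
  obtain ⟨Kc, hKc, h⟩ := glueB g hg hirr hd ζ hζ hroot K N i s w G hw hG
  refine ⟨Kc * ((1 + |K|) ^ i) ^ N, by positivity, ?_⟩
  intro Y P hY hP m f1 f2 E1 E2 vv hns hf1 hf2 hE1 hE2 cols hc1 hc2 n p α β u v hsol hsl hu hv
    hcls harc
  have h0 := h Y P hY hP m f1 f2 E1 E2 hns hf1 hf2 cols hc1 hc2 n p α β u v hsol hsl hu hv
    hcls harc
  have hY0 : 0 < Y := by linarith
  set H : ℝ := P ^ ((1 : ℝ) / 4) with hHdef
  have hH : 0 < H := Real.rpow_pos_of_pos hP _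
  have hB : 0 < Y / H ^ 2 := by positivity
  have hYv : 0 < Y ^ vv := Real.rpow_pos_of_pos hY0 _
  have hK1 : 0 < 1 + |K| := by positivity
  have hE1n : 0 ≤ E1 := (abs_nonneg _).trans (hf1 0)
  have hE2n : 0 ≤ E2 := (abs_nonneg _).trans (hf2 0)
  have hKE : ∀ E : ℝ, 0 ≤ E → Y / H ^ 2 ≤ K * E * Y ^ vv → Y / H ^ 2 ≤ (1 + |K|) * Y ^ vv * E := by
    intro E hE hle
    refine hle.trans ?_
    have h1 : K ≤ 1 + |K| := by linarith [le_abs_self K]
    have h2 : 0 ≤ E * Y ^ vv := by positivity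
    nlinarith
  have hE1' := hKE E1 hE1n hE1
  have hE2' := hKE E2 hE2n hE2
  have hpos : ∀ E : ℝ, 0 ≤ E → Y / H ^ 2 ≤ (1 + |K|) * Y ^ vv * E → 0 < E := by
    intro E hE hle
    rcases hE.lt_or_eq with h1 | h1
    · exact h1
    · rw [← h1, mul_zero] at hle
      linarith
  have hE1p := hpos E1 hE1n hE1'
  have hE2p := hpos E2 hE2n hE2'
  set R : ℝ := (1 + |K|) * Y ^ vv with hR
  have hR0 : 0 < R := by positivity
  -- one column
  have hcol : ∀ c : Fin N, (Y / H ^ 2) ^ i ≤ R ^ i * (E1 ^ (cols c).1 * E2 ^ (i - (cols c).1)) := by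
    intro c
    have h1 : (Y / H ^ 2) ^ i = (Y / H ^ 2) ^ (cols c).1 * (Y / H ^ 2) ^ (i - (cols c).1) := by
      rw [← pow_add]; congr 1; have := hc1 c; omega
    have h2 : R ^ i = R ^ (cols c).1 * R ^ (i - (cols c).1) := by
      rw [← pow_add]; congr 1; have := hc1 c; omega
    have h3 : R ^ i * (E1 ^ (cols c).1 * E2 ^ (i - (cols c).1)) =
        (R * E1) ^ (cols c).1 * (R * E2) ^ (i - (cols c).1) := by
      rw [h2, mul_pow R E1, mul_pow R E2]; ring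
    rw [h1, h3]
    exact mul_le_mul (pow_le_pow_left₀ hB.le hE1' _) (pow_le_pow_left₀ hB.le hE2' _)
      (by positivity) (by positivity)
  have hprod : ((Y / H ^ 2) ^ i) ^ N ≤
      (R ^ i) ^ N * ∏ c, (E1 ^ (cols c).1 * E2 ^ (i - (cols c).1)) := by
    have h1 : ∏ _c : Fin N, (Y / H ^ 2) ^ i ≤
        ∏ c : Fin N, (R ^ i * (E1 ^ (cols c).1 * E2 ^ (i - (cols c).1))) :=
      Finset.prod_le_prod (fun _ _ => by positivity) (fun c _ => hcol c)
    rw [Finset.prod_mul_distrib] at h1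
    simpa using h1
  have hD : 0 < ∏ c, (E1 ^ (cols c).1 * E2 ^ (i - (cols c).1)) :=
    Finset.prod_pos fun c _ => by positivity
  have hRN : (R ^ i) ^ N = ((1 + |K|) ^ i) ^ N * (Y ^ ((i : ℝ) * vv)) ^ N := by
    rw [hR, mul_pow, mul_pow, mul_comm (i : ℝ) vv, Real.rpow_mul hY0.le, Real.rpow_natCast]
  have hG0 : 0 < Y ^ (-G) := Real.rpow_pos_of_pos hY0 _
  have h1 : |((Matrix.det (Matrix.of fun r c : Fin N => u r ^ (cols c).1 * v r ^ (i - (cols c).1) *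
          ∏ k, α r k ^ (cols c).2 k) : ℤ) : ℝ)| *
        ∏ c, (E1 ^ (cols c).1 * E2 ^ (i - (cols c).1)) ≤
      (Kc * ((1 + |K|) ^ i) ^ N * (Y ^ ((i : ℝ) * vv) * H ^ s) ^ N * Y ^ (-G)) *
        ∏ c, (E1 ^ (cols c).1 * E2 ^ (i - (cols c).1)) := by
    refine h0.trans ?_
    rw [mul_pow, mul_pow]
    calc Kc * (((Y / H ^ 2) ^ i) ^ N * (H ^ s) ^ N) * Y ^ (-G)
        ≤ Kc * (((R ^ i) ^ N * ∏ c, (E1 ^ (cols c).1 * E2 ^ (i - (cols c).1))) * (H ^ s) ^ N) *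
          Y ^ (-G) := by gcongr
      _ = _ := by rw [hRN]; ring
  exact le_of_mul_le_mul_right h1 hD

end

end Pool.Agent.Lib.SQF
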