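import Pool.Agent.Lib.SQF.Prm
import Pool.Agent.Lib.SQF.Bez2

/-!
# SQF, module KapClu: clusters on one curve, avoiding the primes which divide `g n`
-/

set_option autoImplicit false

open Polynomial

namespace Pool.Agent.Lib.SQF

/-- a finite set is not much larger than its largest fibre -/
theorem exists_fiber_finset {ι κ : Type*} [DecidableEq κ] (C : Finset ι) (K : Finset κ)
    (hK : K.Nonempty) (s : ι → κ) (hs : ∀ i ∈ C, s i ∈ K) :
    ∃ b ∈ K, C.card ≤ K.card * (C.filter (fun i => s i = b)).card := by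
  by_contra hcon
  push Not at hcon
  have h1 : C.card = ∑ b ∈ K, (C.filter (fun i => s i = b)).card :=
    Finset.card_eq_sum_card_fiberwise hs
  have h2 : ∑ b ∈ K, K.card * (C.filter (fun i => s i = b)).card < ∑ _b ∈ K, C.card :=
    Finset.sum_lt_sum_of_nonempty hK fun b hb => hcon b hb
  rw [← Finset.mul_sum, ← h1, Finset.sum_const, smul_eq_mul] at h2
  exact lt_irrefl _ h2

/-- at most `J` primes `≥ Z` divide a nonzero integer smaller than `Z ^ (J + 1)` -/
theorem card_bad_primes (Q : Finset ℕ) (Z J : ℕ) (D : ℤ) (hQ : ∀ q ∈ Q, q.Prime ∧ Z ≤ q)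
    (hZ : 1 ≤ Z) (hD : D ≠ 0) (hDJ : |D| < (Z : ℤ) ^ (J + 1)) :
    (Q.filter (fun q : ℕ => (q : ℤ) ∣ D)).card ≤ J := by
  classical
  set B := Q.filter (fun q : ℕ => (q : ℤ) ∣ D) with hB
  have h1 : ∏ q ∈ B, q ∣ D.natAbs := by
    refine Finset.prod_primes_dvd _ ?_ ?_
    · intro q hq
      exact ((hQ q (Finset.mem_filter.1 hq).1).1).prime
    · intro q hq
      exact Int.natCast_dvd.1 (Finset.mem_filter.1 hq).2
  have h2 : Z ^ B.card ≤ ∏ q ∈ B, q := by
    rw [← Finset.prod_const]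
    exact Finset.prod_le_prod' fun q hq => (hQ q (Finset.mem_filter.1 hq).1).2
  have h3 : ∏ q ∈ B, q ≤ D.natAbs := Nat.le_of_dvd (Int.natAbs_pos.2 hD) h1
  have h4 : D.natAbs < Z ^ (J + 1) := by
    have : ((D.natAbs : ℕ) : ℤ) < ((Z ^ (J + 1) : ℕ) : ℤ) := by
      rw [Int.natCast_natAbs]
      push_cast
      exact hDJ
    exact_mod_cast this
  have h5 : Z ^ B.card < Z ^ (J + 1) := by omega
  by_contra hcon
  push Not at hcon
  have h6 : Z ^ (J + 1) ≤ Z ^ B.card := Nat.pow_le_pow_right hZ hcon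
  omega

/-- for every `t` at most `a` values `n` on the curve -/
theorem exists_section (a e : ℕ) (G : ℤ[X][X]) (hG : Irreducible G) (hG0 : 0 < G.natDegree)
    (hGa : G.natDegree ≤ a) (hGe : ∀ i, (G.coeff i).natDegree ≤ e) (S : Finset ℤ) (u v : ℤ → ℤ)
    (hv : ∀ n ∈ S, v n ≠ 0) (hz : ∀ n ∈ S, hev e G (u n) (v n) n = 0) :
    ∃ S' ⊆ S, S.card ≤ a * S'.card ∧ ∀ n ∈ S', ∀ n' ∈ S', u n * v n' = u n' * v n → n = n' := by
  classical
  set t : ℤ → ℚ := fun n => (u n : ℚ) / v n with ht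
  set Gq := G.map (mapRingHom (Int.castRingHom ℚ)) with hGq
  have hGqirr : Irreducible Gq := Bez.irreducible_map_rat hG (by omega)
  have hGqd : Gq.natDegree = G.natDegree := Bez.natDegree_map_rat G
  -- the specialised polynomial
  have hne : ∀ t0 : ℚ, Gq.map (evalRingHom t0) ≠ 0 := by
    intro t0 h0
    have h1 : C (X - C t0) ∣ Gq := by
      rw [C_dvd_iff_dvd_coeff]
      intro i
      rw [dvd_iff_isRoot, IsRoot.def]
      have h2 := congrArg (fun p => p.coeff i) h0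
      simpa [coeff_map] using h2
    obtain ⟨k, hk⟩ := h1
    rcases hGqirr.isUnit_or_isUnit hk with h2 | h2
    · have h3 : IsUnit (X - C t0 : ℚ[X]) := isUnit_C.1 h2
      exact (irreducible_X_sub_C t0).not_isUnit h3
    · have h4 : Gq.natDegree = 0 := by
        rw [hk]
        have h5 : k.natDegree = 0 := natDegree_eq_zero_of_isUnit h2
        have h6 := natDegree_C_mul_le (X - C t0) k
        omega
      omega
  have hfib : ∀ t0 ∈ S.image t, (S.filter (fun n => t n = t0)).card ≤ a := by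
    intro t0 _
    set g0 := Gq.map (evalRingHom t0) with hg0
    have h1 : (S.filter (fun n => t n = t0)).card ≤ g0.roots.toFinset.card := by
      refine Finset.card_le_card_of_injOn (fun n : ℤ => (n : ℚ)) ?_ ?_
      · intro n hn
        rw [Finset.mem_coe, Finset.mem_filter] at hn
        rw [Finset.mem_coe, Multiset.mem_toFinset, mem_roots (hne t0), IsRoot.def]
        have h2 := hev_eq e G hGe (u n) (v n) n (hv n hn.1)
        rw [hz n hn.1, Int.cast_zero] at h2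
        have hv' : (v n : ℚ) ≠ 0 := by exact_mod_cast hv n hn.1
        have h3 := (mul_eq_zero.1 h2.symm).resolve_left (pow_ne_zero _ hv')
        have h4 : (u n : ℚ) / v n = t0 := hn.2
        rw [h4] at h3
        rw [Polynomial.map_evalRingHom_eval]
        exact h3
      · intro x _ y _ hxy
        have hxy' : (x : ℚ) = y := hxy
        exact_mod_cast hxy'
    refine h1.trans ((Multiset.toFinset_card_le _).trans ((card_roots' _).trans ?_))
    exact natDegree_map_le.trans (by omega)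
  have hcard : S.card ≤ a * (S.image t).card := by
    rw [Finset.card_eq_sum_card_image t S]
    refine (Finset.sum_le_card_nsmul _ _ a hfib).trans ?_
    rw [smul_eq_mul, mul_comm]
  -- a section
  have hsec : ∀ t0 : ℚ, ∃ n : ℤ, t0 ∈ S.image t → n ∈ S ∧ t n = t0 := by
    intro t0
    by_cases h : t0 ∈ S.image t
    · obtain ⟨n, hn, hnt⟩ := Finset.mem_image.1 h
      exact ⟨n, fun _ => ⟨hn, hnt⟩⟩
    · exact ⟨0, fun h' => absurd h' h⟩
  choose σ hσ using hsec
  refine ⟨(S.image t).image σ, ?_, ?_, ?_⟩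
  · intro n hn
    obtain ⟨t0, ht0, rfl⟩ := Finset.mem_image.1 hn
    exact (hσ t0 ht0).1
  · rw [Finset.card_image_of_injOn]
    · exact hcard
    · intro x hx y hy hxy
      have h1 := (hσ x hx).2
      have h2 := (hσ y hy).2
      rw [← h1, ← h2]
      exact congrArg t hxy
  · intro n hn n' hn' h
    obtain ⟨t0, ht0, rfl⟩ := Finset.mem_image.1 hn
    obtain ⟨t1, ht1, rfl⟩ := Finset.mem_image.1 hn'
    have h1 := hσ t0 ht0
    have h2 := hσ t1 ht1
    have hv1 : (v (σ t0) : ℚ) ≠ 0 := by exact_mod_cast hv _ h1.1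
    have hv2 : (v (σ t1) : ℚ) ≠ 0 := by exact_mod_cast hv _ h2.1
    have h3 : t0 = t1 := by
      rw [← h1.2, ← h2.2]
      simp only [ht]
      rw [div_eq_div_iff hv1 hv2]
      exact_mod_cast h
    rw [h3]

/-- **Clusters on one curve**, avoiding the primes which divide `g n`. -/
theorem exists_cluster_avoid (g : ℤ[X]) (a e k J Z : ℕ) (hZ1 : 1 ≤ Z) (T : ℤ) (hT : 1 ≤ T)
    (G : ℤ[X][X]) (hG : Irreducible G) (hG0 : 0 < G.natDegree) (hGa : G.natDegree ≤ a)
    (hGe : ∀ i, (G.coeff i).natDegree ≤ e) (hGT : ∀ i j, |(G.coeff i).coeff j| ≤ T)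
    (S : Finset ℤ) (u v : ℤ → ℤ) (hv : ∀ n ∈ S, v n ≠ 0)
    (hST : ∀ n ∈ S, |u n| ≤ T ∧ |v n| ≤ T ∧ |n| ≤ T)
    (hz : ∀ n ∈ S, hev e G (u n) (v n) n = 0)
    (hZ : (((a + 1) * (e + 1) * a : ℕ) : ℤ) * T ^ (a + e + 2) < (Z : ℤ) ^ k)
    (hg : ∀ n ∈ S, g.eval n ≠ 0 ∧ |g.eval n| < (Z : ℤ) ^ (J + 1)) :
    S.card ≤ 2 ^ (2 * k + J) * (a * (2 * a * e)) ∨
    ∃ q : ℕ, q.Prime ∧ Z ≤ q ∧ q ≤ 2 ^ (2 * k + J) * Z ∧ ∃ C ⊆ S,
      S.card ≤ 2 ^ (2 * k + J) * (a * (2 * a * e + 2 * a * q * C.card)) ∧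
      (∀ n ∈ C, ∀ n' ∈ C, u n * v n' = u n' * v n → n = n') ∧
      (∀ n ∈ C, ¬ (q : ℤ) ∣ g.eval n) ∧
      ∃ x0 y0 : ℤ, ¬ (q : ℤ) ∣ (derivative G).evalEval x0 y0 ∧
        ∀ n ∈ C, ¬ (q : ℤ) ∣ v n ∧ (q : ℤ) ∣ v n * x0 - u n ∧ (q : ℤ) ∣ n - y0 := by
  classical
  obtain ⟨Q, hQc, hQ⟩ := exists_primes (2 * k + J) Z hZ1
  set bad : ℤ → Finset ℕ := fun n => Q.filter (fun q : ℕ => (q : ℤ) ∣ g.eval n) with hbad
  obtain ⟨B, hB, hSB⟩ := exists_fiber_finset S Q.powerset ⟨∅, Finset.empty_mem_powerset _⟩ bad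
    (fun n _ => Finset.mem_powerset.2 (Finset.filter_subset _ _))
  rw [Finset.card_powerset, hQc] at hSB
  set S1 := S.filter (fun n => bad n = B) with hS1
  have hS1S : S1 ⊆ S := Finset.filter_subset _ _
  obtain ⟨S2, hS2, hS12, hinj⟩ := exists_section a e G hG hG0 hGa hGe S1 u v
    (fun n hn => hv n (hS1S hn)) (fun n hn => hz n (hS1S hn))
  have hS2S : S2 ⊆ S := hS2.trans hS1S
  by_cases hsmall : S2.card ≤ 2 * a * e
  · left
    refine hSB.trans (Nat.mul_le_mul_left _ ?_)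
    exact hS12.trans (Nat.mul_le_mul_left _ hsmall)
  right
  push Not at hsmall
  have hne : S2.Nonempty := by
    rw [← Finset.card_pos]; omega
  have hBJ : B.card ≤ J := by
    obtain ⟨n, hn⟩ := hne
    have h1 : bad n = B := (Finset.mem_filter.1 (hS2 hn)).2
    rw [← h1]
    exact card_bad_primes Q Z J _ (fun q hq => ⟨(hQ q hq).1, (hQ q hq).2.1⟩) hZ1
      (hg n (hS2S hn)).1 (hg n (hS2S hn)).2
  -- the points
  set pt : ℤ → ℤ × ℤ × ℤ := fun n => (u n, v n, n) with hpt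
  have hptinj : Function.Injective pt := by
    intro x y hxy
    simp only [hpt, Prod.mk.injEq] at hxy
    exact hxy.2.2
  have hcardQ : 2 * k ≤ (Q \ B).card := by
    have h1 := Finset.le_card_sdiff B Q
    omega
  have hT2 : ∀ P ∈ S2.image pt, ∃ n ∈ S2, pt n = P := fun P hP => Finset.mem_image.1 hP
  obtain ⟨q, hqQ, C', hC', hcard, x0, y0, hder, hx0⟩ := exists_cluster a e k Z T hT G hG hG0 hGa hGe
    hGT (S2.image pt)
    (by rintro P hP; obtain ⟨n, hn, rfl⟩ := hT2 P hP; exact hv n (hS2S hn))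
    (by rintro P hP; obtain ⟨n, hn, rfl⟩ := hT2 P hP; exact hST n (hS2S hn))
    (by
      rintro P hP P' hP' h
      obtain ⟨n, hn, rfl⟩ := hT2 P hP
      obtain ⟨n', hn', rfl⟩ := hT2 P' hP'
      have : n = n' := hinj n hn n' hn' h
      rw [this])
    (by rintro P hP; obtain ⟨n, hn, rfl⟩ := hT2 P hP; exact hz n (hS2S hn))
    (Q \ B) (fun q hq => ⟨(hQ q (Finset.mem_sdiff.1 hq).1).1, (hQ q (Finset.mem_sdiff.1 hq).1).2.1⟩)
    hcardQ hZ (by rw [Finset.card_image_of_injective _ hptinj]; exact hsmall)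
  rw [Finset.mem_sdiff] at hqQ
  set C := S2.filter (fun n => pt n ∈ C') with hC
  have hCC' : C'.card = C.card := by
    have h1 : C' = C.image pt := by
      ext P
      rw [Finset.mem_image]
      constructor
      · intro hP
        obtain ⟨n, hn, rfl⟩ := hT2 P (hC' hP)
        exact ⟨n, Finset.mem_filter.2 ⟨hn, hP⟩, rfl⟩
      · rintro ⟨n, hn, rfl⟩
        exact (Finset.mem_filter.1 hn).2
    rw [h1, Finset.card_image_of_injective _ hptinj]
  refine ⟨q, (hQ q hqQ.1).1, (hQ q hqQ.1).2.1, (hQ q hqQ.1).2.2, C,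
    (Finset.filter_subset _ _).trans hS2S, ?_, ?_, ?_, x0, y0, hder, ?_⟩
  · refine hSB.trans (Nat.mul_le_mul_left _ (hS12.trans (Nat.mul_le_mul_left _ ?_)))
    rw [Finset.card_image_of_injective _ hptinj, hCC'] at hcard
    exact hcard
  · intro n hn n' hn' h
    exact hinj n (Finset.mem_filter.1 hn).1 n' (Finset.mem_filter.1 hn').1 h
  · intro n hn hdiv
    apply hqQ.2
    have h1 : bad n = B := (Finset.mem_filter.1 (hS2 (Finset.mem_filter.1 hn).1)).2
    rw [← h1]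
    exact Finset.mem_filter.2 ⟨hqQ.1, hdiv⟩
  · intro n hn
    exact hx0 (pt n) (Finset.mem_filter.1 hn).2

end Pool.Agent.Lib.SQF
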