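import Pool.Agent.Lib.SQF.KapCore
import Pool.Agent.Lib.SQF.KapClu
import Pool.Agent.Lib.SQF.ClusB

/-!
# SQF, module KapB: the one-curve theorem on beta-slices (arch70 section 3)

`kapB_of` : on a curve `G (u / v, n) = 0` (irreducible, positive degree in `n`, bounded degrees and
heights) a beta-slice has at most `K' Y ^ (κ + ε)` solutions, provided the numerical certificate for
`κ` holds.  The input `KapRCStmt g` is the alternative of the module KapRC: a stable cluster either has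
the large ranks or at most `K' Y ^ ε` elements.
-/

set_option autoImplicit false

open Polynomial

namespace Pool.Agent.Lib.SQF

/-- the statement of the module KapRC -/
def KapRCStmt (g : ℤ[X]) : Prop :=
  ∀ (I B : ℕ) (K C ε : ℝ), 0 < ε → ∃ K' : ℝ, ∀ Y P : ℝ, 1 ≤ Y → Y ≤ P → P ≤ Y ^ C →
    ∀ (m : ℤ) (f1 f2 : Fin 4 → ℤ), (∀ j, |(f1 j : ℝ)| ≤ Y ^ C ∧ |(f2 j : ℝ)| ≤ Y ^ C) →
    (∃ j k, f1 j * f2 k ≠ f1 k * f2 j) →
    ∀ (T : Finset ℤ) (p : ℤ → ℕ) (α β : ℤ → Fin 4 → ℤ) (u v : ℤ → ℤ),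
    (∀ n ∈ T, IsSol 4 g K Y P n (p n) (α n) (β n) m ∧ OnSlice f1 f2 (β n) (u n) (v n) ∧
      |(u n : ℝ)| ≤ Y ^ C ∧ |(v n : ℝ)| ≤ Y ^ C) →
    (∃ P ∈ T, ∃ Q ∈ T, u P * v Q ≠ u Q * v P) →
    Stab (JS I (B ^ 2 + 2 * B)) (FS (fun n => (u n : ℚ)) (fun n => (v n : ℚ))
      (fun j n => (α n j : ℚ))) T →
    (∀ i ≤ I, ∀ b, 1 ≤ b → b ≤ B → 2 * i + 3 * b ≤
      rk (FS (fun n => (u n : ℚ)) (fun n => (v n : ℚ)) (fun j n => (α n j : ℚ)) (i, b)) T + 2) ∨
    (T.card : ℝ) ≤ K' * Y ^ ε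

/-- the divisibility for forms of bidegree `(s, r)` in the convention of `mon` -/
theorem ClusDvd.mon {α : ℤ → Fin 4 → ℤ} {u v : ℤ → ℤ} {q : ℕ} {C : Finset ℤ}
    (h : ClusDvd α u v q C) (N s r : ℕ) (κ : Fin N → ℕ × (Fin 4 → ℕ) → ℤ) (x : Fin N → ℤ)
    (hx : ∀ j, x j ∈ C) : (q : ℤ) ^ (N * (N - 1) / 2) ∣ (Matrix.of fun i c =>
      ∑ p ∈ midx s r, κ c p * mon u v (fun k n => α n k) s p (x i)).det := by
  have h1 := h N s r (fun _ => midx s r) (fun c p => κ c (s - p.1, p.2))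
    (fun _ z hz => (mem_midx s r z).1 hz) x Finset.univ (fun i _ => hx i)
    (Matrix.of fun i c => ∑ p ∈ midx s r, κ c p * Pool.Agent.Lib.SQF.mon u v (fun k n => α n k) s p (x i))
    (fun i _ c => by
      simp only [Matrix.of_apply]
      refine Finset.sum_nbij' (fun p => (s - p.1, p.2)) (fun p => (s - p.1, p.2)) ?_ ?_ ?_ ?_ ?_
      · intro p hp
        rw [mem_midx] at hp ⊢
        exact ⟨Nat.sub_le _ _, hp.2⟩
      · intro p hp
        rw [mem_midx] at hp ⊢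
        exact ⟨Nat.sub_le _ _, hp.2⟩
      · intro p hp
        rw [mem_midx] at hp
        ext1
        · simp only; omega
        · rfl
      · intro p hp
        rw [mem_midx] at hp
        ext1
        · simp only; omega
        · rfl
      · intro p hp
        rw [mem_midx] at hp
        have e1 : s - (s - p.1) = p.1 := by omega
        simp only [Pool.Agent.Lib.SQF.mon, e1])
  rwa [Finset.card_univ, Fintype.card_fin] at h1

/-- few integers in a window -/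
theorem kap_window (S : Finset ℤ) (Y : ℝ) (hY : 0 ≤ Y) (hS : ∀ n ∈ S, |(n : ℝ)| < 2 * Y) :
    (S.card : ℝ) ≤ 4 * Y + 3 := by
  set M : ℤ := ⌈2 * Y⌉ with hM
  have hM0 : 0 ≤ M := Int.ceil_nonneg (by linarith)
  have h1 : S ⊆ Finset.Icc (-M) M := by
    intro n hn
    rw [Finset.mem_Icc, ← abs_le]
    have h2 := hS n hn
    have h3 : |(n : ℝ)| ≤ (M : ℝ) := h2.le.trans (Int.le_ceil _)
    exact_mod_cast h3
  have h2 := Finset.card_le_card h1
  rw [Int.card_Icc] at h2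
  have h3 : (S.card : ℝ) ≤ 2 * (M : ℝ) + 1 := by
    have h4 : (S.card : ℤ) ≤ 2 * M + 1 := by
      have : ((M + 1 - -M).toNat : ℤ) = 2 * M + 1 := by
        rw [Int.toNat_of_nonneg (by omega)]; ring
      rw [← this]
      exact_mod_cast h2
    exact_mod_cast h4
  have h4 : (M : ℝ) < 2 * Y + 1 := Int.ceil_lt_add_one _
  linarith

/-- **One curve on a beta-slice.** -/
theorem kapB_of (g : ℤ[X]) (hRC : KapRCStmt g) (hg : g.Monic) (hirr : Irreducible g)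
    (hd : g.natDegree = 4) (a e i b I : ℕ) (hI : I ≤ i) (hIb : 2 * I < b) (hR : 8 * I + 2 < 2 * i + 3 * b)
    (K A κ η ε : ℝ) (hκ : 0 < κ) (hη : 0 < η) (hε : 0 < ε) : ∃ K' : ℝ, ∀ Y d x : ℝ, 1 ≤ Y →
    0 ≤ d → d ≤ 1 → 0 ≤ x → x ≤ 2 →
    (2 * i + 3 * b - 2 : ℝ) * (i * x + b * ((1 + d) / 4)) -
        (x + 2 * ((1 + d) / 4)) * ∑ m ∈ Finset.Icc 1 I, ((2 * i + 3 * b - 2 : ℝ) - 8 * m) + η ≤
      κ * ((2 * i + 3 * b - 2 : ℝ) * ((2 * i + 3 * b - 2 : ℝ) - 1) / 2) →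
    ∀ (m : ℤ) (f1 f2 : Fin 4 → ℤ), (∀ j, |(f1 j : ℝ)| ≤ Y ^ A ∧ |(f2 j : ℝ)| ≤ Y ^ A) →
    (∃ j k, f1 j * f2 k ≠ f1 k * f2 j) →
    ∀ G : ℤ[X][X], Irreducible G → 0 < G.natDegree → G.natDegree ≤ a →
    (∀ j, (G.coeff j).natDegree ≤ e) → (∀ j k, |(((G.coeff j).coeff k : ℤ) : ℝ)| ≤ Y ^ A) →
    ∀ (S : Finset ℤ) (p : ℤ → ℕ) (α β : ℤ → Fin 4 → ℤ) (u v : ℤ → ℤ),
    (∀ n ∈ S, IsSol 4 g K Y (Y ^ (1 + d)) n (p n) (α n) (β n) m ∧
      OnSlice f1 f2 (β n) (u n) (v n) ∧ |(u n : ℝ)| ≤ K * Y ^ x ∧ |(v n : ℝ)| ≤ K * Y ^ x ∧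
      v n ≠ 0 ∧ hev e G (u n) (v n) n = 0) →
    (S.card : ℝ) ≤ K' * Y ^ (κ + ε) := by
  classical
  obtain ⟨N, hNdef⟩ : ∃ N : ℕ, N = 2 * i + 3 * b - 2 := ⟨_, rfl⟩
  have hN2 : N + 2 = 2 * i + 3 * b := by omega
  have hNR : (N : ℝ) = 2 * i + 3 * b - 2 := by
    have : ((N + 2 : ℕ) : ℝ) = ((2 * i + 3 * b : ℕ) : ℝ) := by rw [hN2]
    push_cast at this
    linarith
  set K1 : ℝ := max K 1 with hK1
  have hK1' : K ≤ K1 := le_max_left _ _
  have hK11 : 1 ≤ K1 := le_max_right _ _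
  set A' : ℝ := max A 3 with hA'
  obtain ⟨C1, Y0, hC1, hclu⟩ := exists_clusterB g hg hirr hd a e 1 K A' κ hκ
  obtain ⟨K2, hrc⟩ := hRC i b K A' ε hε
  -- constants
  set R0 : ℕ := ∑ j ∈ JS i (b ^ 2 + 2 * b), (midx j.1 j.2).card with hR0
  set D : ℝ := N.factorial * K1 ^ ((i + b) * N) with hD
  have hD0 : 0 < D := by positivity
  set Y1 : ℝ := max (max Y0 1) (max K1 (max (K1 ^ (1 / κ) + 1) (D ^ (1 / η) + 1))) with hY1
  have hY10 : 1 ≤ Y1 := (le_max_right _ _).trans (le_max_left _ _)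
  refine ⟨max (4 * Y1 + 3) (a * (C1 * (2 * (10 ^ R0 * (1 + |K2|)) + 1))), ?_⟩
  intro Y d x hY hd0 hd1 hx0 hx1 hcert m f1 f2 hf hmin G hG hG0 hGa hGe hGA S p α β u v hS
  have hY0' : 0 < Y := by linarith
  have hYp : 1 ≤ Y ^ (κ + ε) := Real.one_le_rpow hY (by positivity)
  by_cases hsmall : Y < Y1
  · -- small `Y`
    have h1 := kap_window S Y hY0'.le (fun n hn => (hS n hn).1.upper)
    calc (S.card : ℝ) ≤ 4 * Y + 3 := h1
      _ ≤ 4 * Y1 + 3 := by linarith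
      _ ≤ max (4 * Y1 + 3) (a * (C1 * (2 * (10 ^ R0 * (1 + |K2|)) + 1))) := le_max_left _ _
      _ ≤ _ := by
        refine le_mul_of_one_le_right ?_ hYp
        exact le_trans (by linarith) (le_max_left _ _)
  push Not at hsmall
  have hYY0 : Y0 ≤ Y := ((le_max_left _ _).trans (le_max_left _ _)).trans hsmall
  have hYK : K1 ≤ Y := ((le_max_left _ _).trans (le_max_right _ _)).trans hsmall
  have hYK2 : K1 ^ (1 / κ) + 1 ≤ Y :=
    (((le_max_left _ _).trans (le_max_right _ _)).trans (le_max_right _ _)).trans hsmall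
  have hYD : D ^ (1 / η) + 1 ≤ Y :=
    (((le_max_right _ _).trans (le_max_right _ _)).trans (le_max_right _ _)).trans hsmall
  have hKκ : K1 < Y ^ κ := by
    have h1 : K1 ^ (1 / κ) < Y := by linarith
    have h2 := Real.rpow_lt_rpow (by positivity) h1 hκ
    rwa [← Real.rpow_mul (by linarith), one_div, inv_mul_cancel₀ hκ.ne', Real.rpow_one] at h2
  have hDη : D < Y ^ η := by
    have h1 : D ^ (1 / η) < Y := by linarith
    have h2 := Real.rpow_lt_rpow (by positivity) h1 hη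
    rwa [← Real.rpow_mul hD0.le, one_div, inv_mul_cancel₀ hη.ne', Real.rpow_one] at h2
  -- sizes
  have hAA : Y ^ A ≤ Y ^ A' := Real.rpow_le_rpow_of_exponent_le hY (le_max_left _ _)
  have h2A : Y ^ (3 : ℝ) ≤ Y ^ A' := Real.rpow_le_rpow_of_exponent_le hY (le_max_right _ _)
  set P : ℝ := Y ^ (1 + d) with hP
  have hYP : Y ≤ P := by
    calc Y = Y ^ (1 : ℝ) := (Real.rpow_one Y).symm
      _ ≤ Y ^ (1 + d) := Real.rpow_le_rpow_of_exponent_le hY (by linarith)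
  have hPA : P ≤ Y ^ A' :=
    (Real.rpow_le_rpow_of_exponent_le hY (by linarith)).trans h2A
  have hKx : K * Y ^ x ≤ Y ^ A' := by
    refine le_trans ?_ h2A
    have h1 : Y ^ x ≤ Y ^ (2 : ℝ) := Real.rpow_le_rpow_of_exponent_le hY hx1
    have h2 : K * Y ^ x ≤ K1 * Y ^ x := mul_le_mul_of_nonneg_right hK1' (by positivity)
    have h3 : K1 * Y ^ x ≤ Y * Y ^ (2 : ℝ) := mul_le_mul hYK h1 (by positivity) hY0'.le
    have h4 : Y ^ (3 : ℝ) = Y * Y ^ (2 : ℝ) := by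
      rw [show (3 : ℝ) = 1 + 2 by norm_num, Real.rpow_add hY0', Real.rpow_one]
    rw [h4]
    exact h2.trans h3
  -- distinct `t`
  obtain ⟨S1, hS1S, hS1c, hinj⟩ := exists_section a e G hG hG0 hGa hGe S u v
    (fun n hn => (hS n hn).2.2.2.2.1) (fun n hn => (hS n hn).2.2.2.2.2)
  set Z : ℕ := ⌈Y ^ κ⌉₊ with hZ
  have hZ1 : Y ^ κ ≤ (Z : ℝ) := Nat.le_ceil _
  have hYκ1 : 1 ≤ Y ^ κ := Real.one_le_rpow hY hκ.le
  have hZ2 : (Z : ℝ) ≤ 2 * Y ^ κ := by
    have h1 : (Z : ℝ) < Y ^ κ + 1 := Nat.ceil_lt_add_one (by positivity)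
    linarith
  obtain ⟨q, hq, -, hZq, C, hCS, hcard, hdiv⟩ := hclu Y P hYY0 (hY.trans hYP) hPA Z hZ1 m f1 f2
    G hG hG0 hGa hGe
    (fun j k => (hGA j k).trans hAA) S1 p α β u v
    (fun n hn => by
      obtain ⟨h1, h2, h3, h4, h5, h6⟩ := hS n (hS1S hn)
      exact ⟨h1, h2, h3.trans hKx, h4.trans hKx, h5, h6⟩)
    hinj ∅ (by simp)
  -- a stable subset
  set uQ : ℤ → ℚ := fun n => (u n : ℚ) with huQ
  set vQ : ℤ → ℚ := fun n => (v n : ℚ) with hvQ
  set xQ : Fin 4 → ℤ → ℚ := fun j n => (α n j : ℚ) with hxQ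
  obtain ⟨T, hTC, hTcard, hTst⟩ := exists_stab (JS i (b ^ 2 + 2 * b)) (FS uQ vQ xQ) C
  have hTcard' : (C.card : ℝ) ≤ 10 ^ R0 * T.card := by
    have h1 : C.card ≤ 10 ^ R0 * T.card := by
      refine hTcard.trans (Nat.mul_le_mul_right _ (Nat.pow_le_pow_right (by norm_num) ?_))
      exact Finset.sum_le_sum fun j _ => rk_FS_le_card uQ vQ xQ j C
    exact_mod_cast h1
  have hTS : T ⊆ S := (hTC.trans hCS).trans hS1S
  -- the bound for `T`
  have hTb : (T.card : ℝ) ≤ (1 + |K2|) * Y ^ ε := by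
    have hYε : 1 ≤ Y ^ ε := Real.one_le_rpow hY hε.le
    by_cases hT1 : T.card ≤ 1
    · have h1 : (T.card : ℝ) ≤ 1 := by exact_mod_cast hT1
      have h2 : 0 ≤ |K2| := abs_nonneg _
      have h3 : (1 : ℝ) * 1 ≤ (1 + |K2|) * Y ^ ε :=
        mul_le_mul (by linarith) hYε (by norm_num) (by linarith)
      linarith
    push Not at hT1
    obtain ⟨n1, hn1, n2, hn2, hne⟩ := Finset.one_lt_card.1 hT1
    have hne' : ∃ P ∈ T, ∃ Q ∈ T, u P * v Q ≠ u Q * v P := by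
      refine ⟨n1, hn1, n2, hn2, fun h => hne ?_⟩
      exact hinj n1 (hCS (hTC hn1)) n2 (hCS (hTC hn2)) h
    rcases hrc Y P hY hYP hPA m f1 f2 (fun j => ⟨(hf j).1.trans hAA, (hf j).2.trans hAA⟩) hmin T p
      α β u v (fun n hn => by
        obtain ⟨h1, h2, h3, h4, h5, h6⟩ := hS n (hTS hn)
        exact ⟨h1, h2, h3.trans hKx, h4.trans hKx⟩) hne' hTst with hrk | hbd
    · -- the ranks are large: contradiction
      exfalso
      set E : ℕ := N * (N - 1) / 2 with hE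
      have hqm : ¬ (q : ℤ) ∣ m := by
        intro hdvd
        have h1 := (hS n1 (hTS hn1)).1
        have h2 : (q : ℤ) ≤ |m| := Int.le_of_dvd (abs_pos.2 h1.m_ne) ((dvd_abs _ _).2 hdvd)
        have h3 : (q : ℝ) ≤ |(m : ℝ)| := by exact_mod_cast h2
        have h4 : (Z : ℝ) ≤ q := by exact_mod_cast hZq
        linarith [h1.m_le]
      have hcore := kap_core g hg hd i b I N hN2 hI hIb (by omega) f1 f2 T p α β u v K Y P m
        (fun n hn => ⟨(hS n (hTS hn)).1, (hS n (hTS hn)).2.1⟩) (K1 * Y ^ x)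
        (K1 * Y ^ ((1 + d) / 4))
        (fun n hn => (hS n (hTS hn)).2.2.1.trans (mul_le_mul_of_nonneg_right hK1' (by positivity)))
        (fun n hn => (hS n (hTS hn)).2.2.2.1.trans
          (mul_le_mul_of_nonneg_right hK1' (by positivity)))
        (fun n hn k => by
          have h1 := (hS n (hTS hn)).1.coeffα k
          have h2 : (Y ^ (1 + d)) ^ ((1 : ℝ) / ((4 : ℕ) : ℝ)) = Y ^ ((1 + d) / 4) := by
            rw [← Real.rpow_mul hY0'.le]
            congr 1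
            push_cast
            ring
          rw [hP, h2] at h1
          exact h1.trans (mul_le_mul_of_nonneg_right hK1' (by positivity)))
        (fun i' hi' b' hb1 hb2 => hrk i' hi' b' hb1 hb2) q hq hqm E
        (fun κ' y hy => hdiv.mon N i b κ' y (fun j => hTC (hy j)))
      have hprod := prod_levels_le i b I N hI hIb (by omega) K1 Y x ((1 + d) / 4) hK11 hY
      set cost : ℝ := (N : ℝ) * (i * x + b * ((1 + d) / 4)) -
        (x + 2 * ((1 + d) / 4)) * ∑ l ∈ Finset.Icc 1 I, ((N : ℝ) - 8 * l) with hcost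
      have h1 : (q : ℝ) ^ E ≤ D * Y ^ cost := by
        calc (q : ℝ) ^ E ≤ _ := hcore
          _ ≤ N.factorial * (K1 ^ ((i + b) * N) * Y ^ cost) :=
            mul_le_mul_of_nonneg_left hprod (by positivity)
          _ = D * Y ^ cost := by rw [hD]; ring
      have h2 : Y ^ (κ * E) ≤ (q : ℝ) ^ E := by
        rw [Real.rpow_mul hY0'.le, Real.rpow_natCast]
        refine pow_le_pow_left₀ (by positivity) (hZ1.trans ?_) E
        exact_mod_cast hZq
      have hER : ((E : ℕ) : ℝ) = (N : ℝ) * ((N : ℝ) - 1) / 2 := by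
        have h3 : 2 ∣ N * (N - 1) := by
          have := Nat.even_mul_pred_self N
          exact this.two_dvd
        rw [hE, Nat.cast_div h3 (by norm_num), Nat.cast_mul, Nat.cast_sub (by omega : 1 ≤ N)]
        norm_num
      have h3 : cost + η ≤ κ * E := by
        rw [hER, hcost, hNR]
        exact hcert
      have h4 : Y ^ (cost + η) ≤ Y ^ (κ * E) := Real.rpow_le_rpow_of_exponent_le hY h3
      rw [Real.rpow_add hY0'] at h4
      have h5 : 0 < Y ^ cost := by positivity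
      have h6 : Y ^ cost * Y ^ η ≤ D * Y ^ cost := h4.trans (h2.trans h1)
      have h7 : Y ^ cost * D < Y ^ cost * Y ^ η := mul_lt_mul_of_pos_left hDη h5
      linarith
    · refine hbd.trans (mul_le_mul_of_nonneg_right ?_ (by positivity))
      linarith [le_abs_self K2]
  -- conclusion
  have hYκ0 : 0 < Y ^ κ := by positivity
  have h1 : (S.card : ℝ) ≤ a * S1.card := by exact_mod_cast hS1c
  have hb1 : (Z : ℝ) * C.card ≤ (2 * Y ^ κ) * (10 ^ R0 * ((1 + |K2|) * Y ^ ε)) := by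
    refine mul_le_mul hZ2 (hTcard'.trans ?_) (by positivity) (by positivity)
    exact mul_le_mul_of_nonneg_left hTb (by positivity)
  have hb2 : (2 * Y ^ κ) * (10 ^ R0 * ((1 + |K2|) * Y ^ ε)) =
      (2 * (10 ^ R0 * (1 + |K2|))) * Y ^ (κ + ε) := by
    rw [Real.rpow_add hY0']; ring
  have hb3 : (S1.card : ℝ) ≤ C1 * ((2 * (10 ^ R0 * (1 + |K2|)) + 1) * Y ^ (κ + ε)) := by
    refine hcard.trans (mul_le_mul_of_nonneg_left ?_ (by linarith))
    rw [hb2] at hb1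
    linarith
  calc (S.card : ℝ) ≤ a * S1.card := h1
    _ ≤ a * (C1 * ((2 * (10 ^ R0 * (1 + |K2|)) + 1) * Y ^ (κ + ε))) :=
      mul_le_mul_of_nonneg_left hb3 (by positivity)
    _ = (a * (C1 * (2 * (10 ^ R0 * (1 + |K2|)) + 1))) * Y ^ (κ + ε) := by ring
    _ ≤ _ := mul_le_mul_of_nonneg_right (le_max_right _ _) (by positivity)

end Pool.Agent.Lib.SQF
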