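import Pool.Agent.Lib.SQF.Stable

/-!
# Stable clusters: the spaces `T^i X^b` (MP_8842b2_nt, arch70 3.4)

`TS u v = span {u, v}`, `AS x = span (range x)`, `FS u v x (i, b) = (TS u v)^i * (AS x)^b`
(forms of bidegree `(i, b)` in `(u, v ; x)` as functions of the point), `hb c u v` the binary form
of degree `i` with coefficient vector `c : Fin (i+1) → K`.
-/

set_option autoImplicit false

namespace Pool.Agent.Lib.SQF

open Module

variable {K : Type*} [Field K] {α : Type*}

/-- the space of linear forms in `u, v` -/
def TS (u v : α → K) : Submodule K (α → K) := Submodule.span K {u, v}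

/-- the space of linear forms in the coordinates `x` -/
def AS {m : ℕ} (x : Fin m → α → K) : Submodule K (α → K) := Submodule.span K (Set.range x)

/-- the space of forms of bidegree `(i, b)` -/
def FS (u v : α → K) {m : ℕ} (x : Fin m → α → K) (p : ℕ × ℕ) : Submodule K (α → K) :=
  TS u v ^ p.1 * AS x ^ p.2

/-- the index set of the stability hypothesis -/
def JS (I B : ℕ) : Finset (ℕ × ℕ) := Finset.range (I + 1) ×ˢ Finset.range (B + 1)

/-- binary form of degree `i` with coefficients `c` -/
def hb {R : Type*} [CommSemiring R] {i : ℕ} (c : Fin (i + 1) → R) (u v : R) : R :=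
  ∑ a : Fin (i + 1), c a * u ^ (a : ℕ) * v ^ (i - a)

end Pool.Agent.Lib.SQF
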