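import Pool.Agent.Lib.SQF.RCB3
import Pool.Agent.Lib.SQF.StabDefs

/-!
# SQF: RC1, RC2 line, RC2 conic on the beta slices
(helper31)

The three exceptional alternatives of `stab_rank` carry `≤ K Y^ε` solutions.
-/

set_option autoImplicit false

namespace Pool.Agent.Lib.SQF.RCB

open Polynomial Pool.Agent.SQF4

/-- a family of solutions of height `≤ T` on a beta slice -/
structure Fam (g : ℤ[X]) (K Y P T0 : ℝ) (m : ℤ) (f1 f2 : Fin 4 → ℤ) {ι : Type} (T : Finset ι)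
    (n : ι → ℤ) (p : ι → ℕ) (α β : ι → Fin 4 → ℤ) (u v : ι → ℤ) : Prop where
  oneY : 1 ≤ Y
  YP : Y ≤ P
  f1le : ∀ i, |((f1 i : ℤ) : ℝ)| ≤ T0
  f2le : ∀ i, |((f2 i : ℤ) : ℝ)| ≤ T0
  ind : ∃ i j, f1 i * f2 j ≠ f1 j * f2 i
  inj : Set.InjOn n T
  sol : ∀ z ∈ T, IsSol 4 g K Y P (n z) (p z) (α z) (β z) m
  slice : ∀ z ∈ T, OnSlice f1 f2 (β z) (u z) (v z)
  ule : ∀ z ∈ T, |((u z : ℤ) : ℝ)| ≤ T0
  vle : ∀ z ∈ T, |((v z : ℤ) : ℝ)| ≤ T0
  αle : ∀ z ∈ T, ∀ i, |((α z i : ℤ) : ℝ)| ≤ T0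

lemma Fam.mono {g : ℤ[X]} {K Y P T0 : ℝ} {m : ℤ} {f1 f2 : Fin 4 → ℤ} {ι : Type} {T S : Finset ι}
    {n : ι → ℤ} {p : ι → ℕ} {α β : ι → Fin 4 → ℤ} {u v : ι → ℤ}
    (h : Fam g K Y P T0 m f1 f2 T n p α β u v) (hS : S ⊆ T) :
    Fam g K Y P T0 m f1 f2 S n p α β u v where
  oneY := h.oneY
  YP := h.YP
  f1le := h.f1le
  f2le := h.f2le
  ind := h.ind
  inj := h.inj.mono hS
  sol := fun z hz => h.sol z (hS hz)
  slice := fun z hz => h.slice z (hS hz)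
  ule := fun z hz => h.ule z (hS hz)
  vle := fun z hz => h.vle z (hS hz)
  αle := fun z hz => h.αle z (hS hz)

lemma Fam.weaken {g : ℤ[X]} {K Y P T0 T1 : ℝ} {m : ℤ} {f1 f2 : Fin 4 → ℤ} {ι : Type} {T : Finset ι}
    {n : ι → ℤ} {p : ι → ℕ} {α β : ι → Fin 4 → ℤ} {u v : ι → ℤ}
    (h : Fam g K Y P T0 m f1 f2 T n p α β u v) (hT : T0 ≤ T1) :
    Fam g K Y P T1 m f1 f2 T n p α β u v where
  oneY := h.oneY
  YP := h.YP
  f1le := fun i => (h.f1le i).trans hT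
  f2le := fun i => (h.f2le i).trans hT
  ind := h.ind
  inj := h.inj
  sol := h.sol
  slice := h.slice
  ule := fun z hz => (h.ule z hz).trans hT
  vle := fun z hz => (h.vle z hz).trans hT
  αle := fun z hz i => (h.αle z hz i).trans hT

lemma small_card {g : ℤ[X]} {K Y P T0 : ℝ} {m : ℤ} {f1 f2 : Fin 4 → ℤ} {ι : Type} {T : Finset ι}
    {n : ι → ℤ} {p : ι → ℕ} {α β : ι → Fin 4 → ℤ} {u v : ι → ℤ}
    (h : Fam g K Y P T0 m f1 f2 T n p α β u v) (hY4 : Y < 4) : (T.card : ℝ) ≤ 17 := by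
  classical
  have h1 : T.card ≤ 17 := by
    rw [← Finset.card_image_of_injOn h.inj]
    have h2 : T.image n ⊆ Finset.Icc (-8) 8 := by
      intro x hx
      obtain ⟨z, hz, rfl⟩ := Finset.mem_image.1 hx
      have h3 := (h.sol z hz).upper
      have h4 : |((n z : ℤ) : ℝ)| < 8 := by linarith
      rw [abs_lt] at h4
      rw [Finset.mem_Icc]
      constructor
      · have : (-8 : ℝ) < n z := h4.1
        have : (-8 : ℤ) < n z := by exact_mod_cast this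
        exact this.le
      · have : (n z : ℝ) < 8 := h4.2
        have : n z < (8 : ℤ) := by exact_mod_cast this
        exact this.le
    exact (Finset.card_le_card h2).trans (by simp)
  exact_mod_cast h1

/-- general exponents: constants are absorbed for `Y ≥ 4` -/
lemma absorb (M C1 : ℝ) (k : ℕ) : ∃ C2 : ℝ, ∀ Y : ℝ, 4 ≤ Y →
    M * (Y ^ C1) ^ k ≤ Y ^ C2 := by
  obtain ⟨B, hB⟩ := pow_unbounded_of_one_lt M (one_lt_two : (1 : ℝ) < 2)
  refine ⟨k * C1 + B, ?_⟩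
  intro Y hY
  have hY0 : 0 < Y := by linarith
  have h1 : Y ^ ((k : ℝ) * C1 + B) = (Y ^ C1) ^ k * Y ^ (B : ℝ) := by
    rw [Real.rpow_add hY0, ← Real.rpow_natCast (Y ^ C1) k, ← Real.rpow_mul hY0.le]
    congr 2; ring
  rw [h1, Real.rpow_natCast]
  have h2 : (2 : ℝ) ^ B ≤ Y ^ B := pow_le_pow_left₀ (by norm_num) (by linarith) B
  have h3 : 0 < (Y ^ C1) ^ k := by positivity
  nlinarith

/-- the core in terms of `Fam` -/
theorem fam_core (g : ℤ[X]) (hg : g.Monic) (hirr : Irreducible g) (hd : g.natDegree = 4)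
    (hrc : RatStmt g) (a : ℕ) (C0 C1 ε : ℝ) (hε : 0 < ε) :
    ∃ K' : ℝ, 0 < K' ∧ ∀ (K Y P : ℝ) (m : ℤ) (f1 f2 : Fin 4 → ℤ) {ι : Type} (T : Finset ι)
      (n : ι → ℤ) (p : ι → ℕ) (α β : ι → Fin 4 → ℤ) (u v : ι → ℤ),
      Fam g K Y P (Y ^ C0) m f1 f2 T n p α β u v → 4 ≤ Y →
      ∀ A : Fin 4 → ℤ[X], (∀ i, (A i).natDegree ≤ a) →
      (∀ i j, |(((A i).coeff j : ℤ) : ℝ)| ≤ Y ^ C1) →
      (∀ z ∈ T, ∃ s r : ℤ, (s ≠ 0 ∨ r ≠ 0) ∧ |(s : ℝ)| ≤ Y ^ C1 ∧ |(r : ℝ)| ≤ Y ^ C1 ∧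
        (∃ i, hf (A i) a s r ≠ 0) ∧ ∀ i j, α z i * hf (A j) a s r = α z j * hf (A i) a s r) →
      (T.card : ℝ) ≤ K' * Y ^ ε := by
  set C2 : ℝ := max (max C0 C1) 0 with hC2
  obtain ⟨K', hK', h⟩ := rcb_core g hg hirr hd hrc a C2 ε (le_max_right _ _) hε
  refine ⟨K', hK', ?_⟩
  intro K Y P m f1 f2 ι T n p α β u v hF hY A hA hAc hz
  have h0 : Y ^ C0 ≤ Y ^ C2 := Real.rpow_le_rpow_of_exponent_le hF.oneY
    ((le_max_left _ _).trans (le_max_left _ _))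
  have h1 : Y ^ C1 ≤ Y ^ C2 := Real.rpow_le_rpow_of_exponent_le hF.oneY
    ((le_max_right _ _).trans (le_max_left _ _))
  refine h Y P hF.oneY hF.YP f1 f2 (fun i => (hF.f1le i).trans h0) (fun i => (hF.f2le i).trans h0)
    hF.ind A hA (fun i j => (hAc i j).trans h1) K m T n p α β u v hF.inj hF.sol hF.slice ?_
  intro z hzT
  obtain ⟨s, r, e1, e2, e3, e4, e5⟩ := hz z hzT
  exact ⟨s, r, e1, e2.trans h1, e3.trans h1, e4, e5⟩

lemma uv_ne {g : ℤ[X]} (hg : g.Monic) (hd : g.natDegree = 4) {K Y P : ℝ} {n : ℤ} {p : ℕ}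
    {α β : Fin 4 → ℤ} {m : ℤ} (h : IsSol 4 g K Y P n p α β m) {f1 f2 : Fin 4 → ℤ} {u v : ℤ}
    (hs : OnSlice f1 f2 β u v) : u ≠ 0 ∨ v ≠ 0 := by
  by_contra hc
  push Not at hc
  have hβ : β = fun i => (0 : ℤ) * β i := by
    funext i; rw [hs i, hc.1, hc.2]; ring
  have h1 := sol_vec hg hd h
  rw [hβ, mv_smul_right] at h1
  have h2 := congrFun h1 1
  simp at h2
  exact h.m_ne h2

/-- the polynomial with coefficients `c` -/
noncomputable def hp {i : ℕ} (c : Fin (i + 1) → ℤ) : ℤ[X] := ∑ a : Fin (i + 1), C (c a) * X ^ (a : ℕ)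

lemma hp_natDegree {i : ℕ} (c : Fin (i + 1) → ℤ) : (hp c).natDegree ≤ i := by
  unfold hp
  refine natDegree_sum_le_of_forall_le _ _ fun a _ => ?_
  exact (natDegree_C_mul_X_pow_le _ _).trans (by have := a.2; omega)

lemma hp_coeff {i : ℕ} (c : Fin (i + 1) → ℤ) (T : ℝ) (hT : 0 ≤ T)
    (hc : ∀ a, |((c a : ℤ) : ℝ)| ≤ T) (j : ℕ) : |(((hp c).coeff j : ℤ) : ℝ)| ≤ T := by
  unfold hp
  rw [finsetSum_coeff]
  rcases lt_or_ge j (i + 1) with h | h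
  · rw [Finset.sum_eq_single (⟨j, h⟩ : Fin (i + 1))]
    · rw [coeff_C_mul_X_pow, if_pos rfl]; exact hc _
    · intro b _ hb
      rw [coeff_C_mul_X_pow, if_neg]
      intro h0; exact hb (Fin.ext h0.symm)
    · intro h0; exact absurd (Finset.mem_univ _) h0
  · rw [Finset.sum_eq_zero]
    · simpa using hT
    · intro b _
      rw [coeff_C_mul_X_pow, if_neg]
      have := b.2; omega

lemma hf_hp {i : ℕ} (c : Fin (i + 1) → ℤ) (u v : ℤ) : hf (hp c) i u v = hb c u v := by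
  unfold hp hb
  rw [hf_sum]
  refine Finset.sum_congr rfl fun a _ => ?_
  unfold hf
  rw [Finset.sum_eq_single (a : ℕ)]
  · rw [coeff_C_mul_X_pow, if_pos rfl]
  · intro b _ hb
    rw [coeff_C_mul_X_pow, if_neg hb]; ring
  · intro h0
    exact absurd (Finset.mem_range.2 a.2) h0

/-- **RC1**: all ratios of the coordinates of `α` are rational functions of `u/v`. -/
theorem rcb_ratio (g : ℤ[X]) (hg : g.Monic) (hirr : Irreducible g) (hd : g.natDegree = 4)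
    (hrc : RatStmt g) (I : ℕ) (C0 C1 ε : ℝ) (hε : 0 < ε) :
    ∃ K' : ℝ, 0 < K' ∧ ∀ (K Y P : ℝ) (m : ℤ) (f1 f2 : Fin 4 → ℤ) {ι : Type} (T : Finset ι)
      (n : ι → ℤ) (p : ι → ℕ) (α β : ι → Fin 4 → ℤ) (u v : ι → ℤ),
      Fam g K Y P (Y ^ C0) m f1 f2 T n p α β u v →
      ∀ (j0 : Fin 4) (a b : Fin 4 → Fin (I + 1) → ℤ),
      (∀ j l, |((a j l : ℤ) : ℝ)| ≤ Y ^ C1) → (∀ j l, |((b j l : ℤ) : ℝ)| ≤ Y ^ C1) →
      (∀ z ∈ T, α z j0 ≠ 0 ∧ ∀ j, hb (b j) (u z) (v z) ≠ 0 ∧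
        hb (a j) (u z) (v z) * α z j0 + hb (b j) (u z) (v z) * α z j = 0) →
      (T.card : ℝ) ≤ K' * Y ^ ε := by
  classical
  obtain ⟨C2, hC2⟩ := absorb ((I + 1) * ((I + 1) * (I + 1))) C1 4
  set C3 : ℝ := max C0 C2 with hC3
  obtain ⟨K1, hK1, hcore⟩ := fam_core g hg hirr hd hrc (I + (I + (I + I))) C0 C3 ε hε
  refine ⟨K1 + 17, by linarith, ?_⟩
  intro K Y P m f1 f2 ι T n p α β u v hF j0 a b ha hb' hrel
  have hYε : 1 ≤ Y ^ ε := Real.one_le_rpow hF.oneY hε.le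
  rcases lt_or_ge Y 4 with hY4 | hY4
  · have := small_card hF hY4
    nlinarith
  have hT0 : 0 ≤ Y ^ C1 := by have := hF.oneY; positivity
  set A : Fin 4 → ℤ[X] := fun i => (-hp (a i)) *
    (hp (b (i.succAbove 0)) * (hp (b (i.succAbove 1)) * hp (b (i.succAbove 2)))) with hA
  have hd1 : ∀ i, (-hp (a i)).natDegree ≤ I := fun i => by
    rw [natDegree_neg]; exact hp_natDegree _
  have hdb : ∀ i, (hp (b i)).natDegree ≤ I := fun i => hp_natDegree _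
  have hdeg2 : ∀ i j, (hp (b i) * hp (b j)).natDegree ≤ I + I := fun i j =>
    natDegree_mul_le.trans (Nat.add_le_add (hdb i) (hdb j))
  have hdeg3 : ∀ i j k, (hp (b i) * (hp (b j) * hp (b k))).natDegree ≤ I + (I + I) := fun i j k =>
    natDegree_mul_le.trans (Nat.add_le_add (hdb i) (hdeg2 j k))
  have hca : ∀ i j, |(((-hp (a i)).coeff j : ℤ) : ℝ)| ≤ Y ^ C1 := fun i j => by
    rw [coeff_neg]; push_cast; rw [abs_neg]; exact hp_coeff (a i) _ hT0 (ha i) j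
  have hcb : ∀ i j, |(((hp (b i)).coeff j : ℤ) : ℝ)| ≤ Y ^ C1 := fun i j =>
    hp_coeff (b i) _ hT0 (hb' i) j
  have hval : ∀ i (s r : ℤ), hf (A i) (I + (I + (I + I))) s r = -(hb (a i) s r) *
      (hb (b (i.succAbove 0)) s r * (hb (b (i.succAbove 1)) s r * hb (b (i.succAbove 2)) s r)) := by
    intro i s r
    rw [hA]
    simp only
    rw [hf_mul _ _ _ _ (hd1 i) (hdeg3 _ _ _), hf_mul _ _ _ _ (hdb _) (hdeg2 _ _),
      hf_mul _ _ _ _ (hdb _) (hdb _), hf_neg, hf_hp, hf_hp, hf_hp, hf_hp]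
  have h1 := hcore K Y P m f1 f2 T n p α β u v hF hY4 A ?_ ?_ ?_
  · nlinarith
  · intro i
    exact natDegree_mul_le.trans (Nat.add_le_add (hd1 i) (hdeg3 _ _ _))
  · intro i j
    have e1 := fun k => cb_mul _ _ I (hdb (i.succAbove 1)) _ _ hT0 hT0 (hcb (i.succAbove 1))
      (hcb (i.succAbove 2)) k
    have e2 := fun k => cb_mul _ _ I (hdb (i.succAbove 0)) _ _ hT0 (by positivity)
      (hcb (i.succAbove 0)) e1 k
    have e3 := cb_mul _ _ I (hd1 i) _ _ hT0 (by positivity) (hca i) e2 j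
    refine e3.trans ?_
    refine le_trans (le_of_eq ?_) ((hC2 Y hY4).trans
      (Real.rpow_le_rpow_of_exponent_le hF.oneY (le_max_right _ _)))
    ring
  · intro z hz
    obtain ⟨hj0, hj⟩ := hrel z hz
    have hYC : Y ^ C0 ≤ Y ^ C3 := Real.rpow_le_rpow_of_exponent_le hF.oneY (le_max_left _ _)
    have key : ∀ i, α z j0 * hf (A i) (I + (I + (I + I))) (u z) (v z) =
        α z i * ∏ l : Fin 4, hb (b l) (u z) (v z) := by
      intro i
      rw [hval, Fin.prod_univ_succAbove _ i, Fin.prod_univ_three]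
      linear_combination (-(hb (b (i.succAbove 0)) (u z) (v z) * (hb (b (i.succAbove 1)) (u z) (v z) *
        hb (b (i.succAbove 2)) (u z) (v z)))) * (hj i).2
    refine ⟨u z, v z, uv_ne hg hd (hF.sol z hz) (hF.slice z hz), (hF.ule z hz).trans hYC,
      (hF.vle z hz).trans hYC, ⟨j0, ?_⟩, ?_⟩
    · intro h0
      have := key j0
      rw [h0, mul_zero] at this
      rcases mul_eq_zero.1 this.symm with h | h
      · exact hj0 h
      · rw [Finset.prod_eq_zero_iff] at h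
        obtain ⟨l, _, hl⟩ := h
        exact (hj l).1 hl
    · intro i j
      apply mul_left_cancel₀ hj0
      linear_combination (α z i) * key j - (α z j) * key i

/-- **RC2, line**: all `α` lie in a rational plane. -/
theorem rcb_line (g : ℤ[X]) (hg : g.Monic) (hirr : Irreducible g) (hd : g.natDegree = 4)
    (hrc : RatStmt g) (C0 C1 ε : ℝ) (hε : 0 < ε) :
    ∃ K' : ℝ, 0 < K' ∧ ∀ (K Y P : ℝ) (m : ℤ) (f1 f2 : Fin 4 → ℤ) {ι : Type} (T : Finset ι)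
      (n : ι → ℤ) (p : ι → ℕ) (α β : ι → Fin 4 → ℤ) (u v : ι → ℤ),
      Fam g K Y P (Y ^ C0) m f1 f2 T n p α β u v →
      ∀ (j1 j2 : Fin 4) (D : ℤ) (a b : Fin 4 → ℤ), D ≠ 0 →
      (∀ j, |((a j : ℤ) : ℝ)| ≤ Y ^ C1) → (∀ j, |((b j : ℤ) : ℝ)| ≤ Y ^ C1) →
      (∀ z ∈ T, ∀ j, D * α z j = a j * α z j1 + b j * α z j2) →
      (T.card : ℝ) ≤ K' * Y ^ ε := by
  classical
  set C3 : ℝ := max C0 C1 with hC3
  obtain ⟨K1, hK1, hcore⟩ := fam_core g hg hirr hd hrc 1 C0 C3 ε hε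
  refine ⟨K1 + 17, by linarith, ?_⟩
  intro K Y P m f1 f2 ι T n p α β u v hF j1 j2 D a b hD ha hb' hrel
  have hYε : 1 ≤ Y ^ ε := Real.one_le_rpow hF.oneY hε.le
  rcases lt_or_ge Y 4 with hY4 | hY4
  · have := small_card hF hY4
    nlinarith
  have hYC0 : Y ^ C0 ≤ Y ^ C3 := Real.rpow_le_rpow_of_exponent_le hF.oneY (le_max_left _ _)
  have hYC1 : Y ^ C1 ≤ Y ^ C3 := Real.rpow_le_rpow_of_exponent_le hF.oneY (le_max_right _ _)
  have hval : ∀ i (s r : ℤ), hf (hp (![b i, a i] : Fin (1 + 1) → ℤ)) 1 s r = a i * s + b i * r := by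
    intro i s r
    rw [hf_hp]
    simp [hb, Fin.sum_univ_two]
    ring
  have hT1 : 0 ≤ Y ^ C1 := by have := hF.oneY; positivity
  have h1 := hcore K Y P m f1 f2 T n p α β u v hF hY4
    (fun i => hp (![b i, a i] : Fin (1 + 1) → ℤ)) ?_ ?_ ?_
  · nlinarith
  · intro i
    exact hp_natDegree _
  · intro i j
    refine (hp_coeff _ _ hT1 ?_ j).trans hYC1
    intro l
    fin_cases l
    · exact hb' i
    · exact ha i
  · intro z hz
    have hα := sol_alpha_ne hg hd (hF.sol z hz)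
    have hne : ∃ i, α z i ≠ 0 := by
      by_contra hc; push Not at hc; exact hα (funext hc)
    obtain ⟨i, hi⟩ := hne
    refine ⟨α z j1, α z j2, ?_, (hF.αle z hz _).trans hYC0, (hF.αle z hz _).trans hYC0, ⟨i, ?_⟩, ?_⟩
    · by_contra hc
      push Not at hc
      have := hrel z hz i
      rw [hc.1, hc.2] at this
      simp at this
      rcases this with h | h
      · exact hD h
      · exact hi h
    · rw [hval, ← hrel z hz i]
      exact mul_ne_zero hD hi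
    · intro i j
      rw [hval, hval, ← hrel z hz i, ← hrel z hz j]; ring

/-- the identity behind the parametrisation of a conic by the lines through one point -/
lemma conic_id (x0 x1 x2 y0 y1 y2 q00 q01 q02 q11 q12 q22 w0 w1 w2 : ℤ)
    (h0 : q00 * x0 ^ 2 + 2 * q01 * x0 * x1 + 2 * q02 * x0 * x2 + q11 * x1 ^ 2 +
      2 * q12 * x1 * x2 + q22 * x2 ^ 2 = 0)
    (h : q00 * y0 ^ 2 + 2 * q01 * y0 * y1 + 2 * q02 * y0 * y2 + q11 * y1 ^ 2 +
      2 * q12 * y1 * y2 + q22 * y2 ^ 2 = 0) :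
    (q11 * (w0 * x0 + w1 * x1 + w2 * x2) - 2 * w1 * (x0 * q01 + x1 * q11 + x2 * q12)) *
        (x0 * y1 - y0 * x1) ^ 2 +
      (2 * q12 * (w0 * x0 + w1 * x1 + w2 * x2) - 2 * w1 * (x0 * q02 + x1 * q12 + x2 * q22) -
        2 * w2 * (x0 * q01 + x1 * q11 + x2 * q12)) *
        ((x0 * y1 - y0 * x1) * (x0 * y2 - y0 * x2)) +
      (q22 * (w0 * x0 + w1 * x1 + w2 * x2) - 2 * w2 * (x0 * q02 + x1 * q12 + x2 * q22)) *
        (x0 * y2 - y0 * x2) ^ 2 =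
    -2 * x0 ^ 2 * (q00 * x0 * y0 + q01 * (x0 * y1 + x1 * y0) + q02 * (x0 * y2 + x2 * y0) +
      q11 * x1 * y1 + q12 * (x1 * y2 + x2 * y1) + q22 * x2 * y2) *
      (w0 * y0 + w1 * y1 + w2 * y2) := by
  linear_combination (x0 ^ 2 * (w0 * x0 + w1 * x1 + w2 * x2)) * h +
    (y0 ^ 2 * (w0 * x0 + w1 * x1 + w2 * x2) + 2 * y0 * (x0 * (w0 * y0 + w1 * y1 + w2 * y2) -
      y0 * (w0 * x0 + w1 * x1 + w2 * x2))) * h0

/-- points of a conic which are not on the tangent at `P0`, `P0 0 ≠ 0` -/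
theorem rcb_conic0 (g : ℤ[X]) (hg : g.Monic) (hirr : Irreducible g) (hd : g.natDegree = 4)
    (hrc : RatStmt g) (C0 C1 ε : ℝ) (hε : 0 < ε) :
    ∃ K' : ℝ, 0 < K' ∧ ∀ (K Y P : ℝ) (m : ℤ) (f1 f2 : Fin 4 → ℤ) {ι : Type} (T : Finset ι)
      (n : ι → ℤ) (p : ι → ℕ) (α β : ι → Fin 4 → ℤ) (u v : ι → ℤ),
      Fam g K Y P (Y ^ C0) m f1 f2 T n p α β u v →
      ∀ (σ : Fin 3 → Fin 4) (D : ℤ) (a : Fin 4 → Fin 3 → ℤ) (q : Fin 3 → Fin 3 → ℤ)
        (P0 : Fin 3 → ℤ), D ≠ 0 →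
      (∀ j l, |((a j l : ℤ) : ℝ)| ≤ Y ^ C1) → (∀ l l', |((q l l' : ℤ) : ℝ)| ≤ Y ^ C1) →
      (∀ l, |((P0 l : ℤ) : ℝ)| ≤ Y ^ C0) → (∀ l l', q l l' = q l' l) → P0 0 ≠ 0 →
      (∑ l, ∑ l', q l l' * P0 l * P0 l' = 0) →
      (∀ z ∈ T, ∀ j, D * α z j = ∑ l, a j l * α z (σ l)) →
      (∀ z ∈ T, ∑ l, ∑ l', q l l' * α z (σ l) * α z (σ l') = 0) →
      (∀ z ∈ T, ∑ l, ∑ l', q l l' * P0 l * α z (σ l') ≠ 0) →
      (T.card : ℝ) ≤ K' * Y ^ ε := by
  classical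
  set C4 : ℝ := max C0 C1 with hC4
  obtain ⟨C2, hC2⟩ := absorb 18 C4 3
  set C3 : ℝ := max C2 (max C4 0) with hC3
  obtain ⟨C5, hC5⟩ := absorb 2 C4 2
  set C6 : ℝ := max C3 C5 with hC6
  obtain ⟨K1, hK1, hcore⟩ := fam_core g hg hirr hd hrc 2 C0 C6 ε hε
  refine ⟨K1 + 17, by linarith, ?_⟩
  intro K Y P m f1 f2 ι T n p α β u v hF σ D a q P0 hD ha hq hP0 hsym hP00 hq0 hrel hqz hbz
  have hYε : 1 ≤ Y ^ ε := Real.one_le_rpow hF.oneY hε.le
  rcases lt_or_ge Y 4 with hY4 | hY4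
  · have := small_card hF hY4
    nlinarith
  have hYC0 : Y ^ C0 ≤ Y ^ C4 := Real.rpow_le_rpow_of_exponent_le hF.oneY (le_max_left _ _)
  have hYC1 : Y ^ C1 ≤ Y ^ C4 := Real.rpow_le_rpow_of_exponent_le hF.oneY (le_max_right _ _)
  have hYC2 : Y ^ C2 ≤ Y ^ C6 := Real.rpow_le_rpow_of_exponent_le hF.oneY
    ((le_max_left _ _).trans (le_max_left _ _))
  have hYC5 : Y ^ C5 ≤ Y ^ C6 := Real.rpow_le_rpow_of_exponent_le hF.oneY (le_max_right _ _)
  set W : ℝ := Y ^ C4 with hW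
  have hW0 : 0 ≤ W := by have := hF.oneY; positivity
  have ha' : ∀ j l, |((a j l : ℤ) : ℝ)| ≤ W := fun j l => (ha j l).trans hYC1
  have hq' : ∀ j l, |((q j l : ℤ) : ℝ)| ≤ W := fun j l => (hq j l).trans hYC1
  have hP' : ∀ l, |((P0 l : ℤ) : ℝ)| ≤ W := fun l => (hP0 l).trans hYC0
  have h2 : ∀ x y : ℤ, |(x : ℝ)| ≤ W → |(y : ℝ)| ≤ W → |((x * y : ℤ) : ℝ)| ≤ W ^ 2 := by
    intro x y hx hy
    push_cast
    rw [abs_mul, pow_two]
    exact mul_le_mul hx hy (abs_nonneg _) hW0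
  -- W_j and the two betas
  have hw : ∀ j, |((a j 0 * P0 0 + a j 1 * P0 1 + a j 2 * P0 2 : ℤ) : ℝ)| ≤ 3 * W ^ 2 := by
    intro j
    have e0 := h2 _ _ (ha' j 0) (hP' 0)
    have e1 := h2 _ _ (ha' j 1) (hP' 1)
    have e2 := h2 _ _ (ha' j 2) (hP' 2)
    push_cast at e0 e1 e2 ⊢
    have e3 := abs_add_three ((a j 0 : ℝ) * P0 0) ((a j 1 : ℝ) * P0 1) ((a j 2 : ℝ) * P0 2)
    linarith
  have hβ : ∀ l, |((P0 0 * q 0 l + P0 1 * q 1 l + P0 2 * q 2 l : ℤ) : ℝ)| ≤ 3 * W ^ 2 := by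
    intro l
    have e0 := h2 _ _ (hP' 0) (hq' 0 l)
    have e1 := h2 _ _ (hP' 1) (hq' 1 l)
    have e2 := h2 _ _ (hP' 2) (hq' 2 l)
    push_cast at e0 e1 e2 ⊢
    have e3 := abs_add_three ((P0 0 : ℝ) * q 0 l) ((P0 1 : ℝ) * q 1 l) ((P0 2 : ℝ) * q 2 l)
    linarith
  have h3 : ∀ x y : ℤ, |(x : ℝ)| ≤ W → |(y : ℝ)| ≤ 3 * W ^ 2 → |((x * y : ℤ) : ℝ)| ≤ 3 * W ^ 3 := by
    intro x y hx hy
    push_cast
    rw [abs_mul]
    have := mul_le_mul hx hy (abs_nonneg _) hW0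
    refine this.trans (le_of_eq ?_)
    ring
  set wv : Fin 4 → ℤ := fun j => a j 0 * P0 0 + a j 1 * P0 1 + a j 2 * P0 2 with hwv
  set bv : Fin 3 → ℤ := fun l => P0 0 * q 0 l + P0 1 * q 1 l + P0 2 * q 2 l with hbv
  set c2 : Fin 4 → ℤ := fun j => q 1 1 * wv j - 2 * (a j 1 * bv 1) with hc2
  set c1 : Fin 4 → ℤ := fun j => 2 * (q 1 2 * wv j) - 2 * (a j 1 * bv 2) - 2 * (a j 2 * bv 1) with hc1
  set c0 : Fin 4 → ℤ := fun j => q 2 2 * wv j - 2 * (a j 2 * bv 2) with hc0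
  have hw' : ∀ j, |((wv j : ℤ) : ℝ)| ≤ 3 * W ^ 2 := hw
  have hβ' : ∀ l, |((bv l : ℤ) : ℝ)| ≤ 3 * W ^ 2 := hβ
  have b2 : ∀ j, |((c2 j : ℤ) : ℝ)| ≤ 18 * W ^ 3 := by
    intro j
    have e1 := h3 _ _ (hq' 1 1) (hw' j)
    have e2 := h3 _ _ (ha' j 1) (hβ' 1)
    rw [hc2]
    simp only
    push_cast at e1 e2 ⊢
    rw [abs_le] at e1 e2 ⊢
    have hW3 : 0 ≤ W ^ 3 := by positivity
    constructor <;> linarith [e1.1, e1.2, e2.1, e2.2]
  have b1 : ∀ j, |((c1 j : ℤ) : ℝ)| ≤ 18 * W ^ 3 := by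
    intro j
    have e1 := h3 _ _ (hq' 1 2) (hw' j)
    have e2 := h3 _ _ (ha' j 1) (hβ' 2)
    have e3 := h3 _ _ (ha' j 2) (hβ' 1)
    rw [hc1]
    simp only
    push_cast at e1 e2 e3 ⊢
    rw [abs_le] at e1 e2 e3 ⊢
    have hW3 : 0 ≤ W ^ 3 := by positivity
    constructor <;> linarith [e1.1, e1.2, e2.1, e2.2, e3.1, e3.2]
  have b0 : ∀ j, |((c0 j : ℤ) : ℝ)| ≤ 18 * W ^ 3 := by
    intro j
    have e1 := h3 _ _ (hq' 2 2) (hw' j)
    have e2 := h3 _ _ (ha' j 2) (hβ' 2)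
    rw [hc0]
    simp only
    push_cast at e1 e2 ⊢
    rw [abs_le] at e1 e2 ⊢
    have hW3 : 0 ≤ W ^ 3 := by positivity
    constructor <;> linarith [e1.1, e1.2, e2.1, e2.2]
  have h18 : 18 * W ^ 3 ≤ Y ^ C6 := (hC2 Y hY4).trans hYC2
  have hval : ∀ i (s r : ℤ), hf (hp (![c0 i, c1 i, c2 i] : Fin (2 + 1) → ℤ)) 2 s r =
      c2 i * s ^ 2 + c1 i * (s * r) + c0 i * r ^ 2 := by
    intro i s r
    rw [hf_hp]
    simp [hb, Fin.sum_univ_three]
    ring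
  have h1 := hcore K Y P m f1 f2 T n p α β u v hF hY4
    (fun i => hp (![c0 i, c1 i, c2 i] : Fin (2 + 1) → ℤ)) ?_ ?_ ?_
  · nlinarith
  · intro i
    exact hp_natDegree _
  · intro i j
    refine (hp_coeff _ (18 * W ^ 3) (by positivity) ?_ j).trans h18
    intro l
    fin_cases l
    · exact b0 i
    · exact b1 i
    · exact b2 i
  · intro z hz
    have hα := sol_alpha_ne hg hd (hF.sol z hz)
    have hne : ∃ i, α z i ≠ 0 := by
      by_contra hc; push Not at hc; exact hα (funext hc)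
    obtain ⟨i, hi⟩ := hne
    have hq0' := hq0
    have hqz' := hqz z hz
    have hbz' := hbz z hz
    rw [Fin.sum_univ_three, Fin.sum_univ_three, Fin.sum_univ_three, Fin.sum_univ_three] at hq0' hqz' hbz'
    rw [hsym 1 0, hsym 2 0, hsym 2 1] at hq0' hqz' hbz'
    set y0 := α z (σ 0) with hy0
    set y1 := α z (σ 1) with hy1
    set y2 := α z (σ 2) with hy2
    set bb : ℤ := q 0 0 * P0 0 * y0 + q 0 1 * (P0 0 * y1 + P0 1 * y0) +
      q 0 2 * (P0 0 * y2 + P0 2 * y0) + q 1 1 * P0 1 * y1 + q 1 2 * (P0 1 * y2 + P0 2 * y1) +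
      q 2 2 * P0 2 * y2 with hbb
    have hbb0 : bb ≠ 0 := by
      intro h0
      apply hbz'
      rw [← h0, hbb]; ring
    have key : ∀ j, c2 j * (P0 0 * y1 - y0 * P0 1) ^ 2 +
        c1 j * ((P0 0 * y1 - y0 * P0 1) * (P0 0 * y2 - y0 * P0 2)) +
        c0 j * (P0 0 * y2 - y0 * P0 2) ^ 2 = -2 * (P0 0) ^ 2 * bb * (D * α z j) := by
      intro j
      have e := conic_id (P0 0) (P0 1) (P0 2) y0 y1 y2 (q 0 0) (q 0 1) (q 0 2) (q 1 1) (q 1 2)
        (q 2 2) (a j 0) (a j 1) (a j 2) (by linear_combination hq0') (by linear_combination hqz')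
      have e2 := hrel z hz j
      rw [Fin.sum_univ_three] at e2
      rw [e2, ← hy0, ← hy1, ← hy2]
      rw [hc2, hc1, hc0, hwv, hbv, hbb]
      simp only
      rw [hsym 2 1]
      linear_combination e
    have hnz : ∀ j, α z j ≠ 0 → -2 * (P0 0) ^ 2 * bb * (D * α z j) ≠ 0 := by
      intro j hj
      exact mul_ne_zero (mul_ne_zero (mul_ne_zero (by norm_num) (pow_ne_zero _ hP00)) hbb0)
        (mul_ne_zero hD hj)
    have hsr : ∀ x y x' y' : ℤ, |(x : ℝ)| ≤ W → |(y : ℝ)| ≤ W → |(x' : ℝ)| ≤ W → |(y' : ℝ)| ≤ W →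
        |((x * y - x' * y' : ℤ) : ℝ)| ≤ Y ^ C6 := by
      intro x y x' y' k1 k2 k3 k4
      have e1 := h2 _ _ k1 k2
      have e2 := h2 _ _ k3 k4
      have e3 := (hC5 Y hY4).trans hYC5
      push_cast at e1 e2 ⊢
      refine (abs_sub _ _).trans ?_
      linarith
    have hαW : ∀ l, |((α z l : ℤ) : ℝ)| ≤ W := fun l => (hF.αle z hz l).trans hYC0
    refine ⟨P0 0 * y1 - y0 * P0 1, P0 0 * y2 - y0 * P0 2, ?_, hsr _ _ _ _ (hP' 0) (hαW _) (hαW _) (hP' 1),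
      hsr _ _ _ _ (hP' 0) (hαW _) (hαW _) (hP' 2), ⟨i, ?_⟩, ?_⟩
    · by_contra hc
      push Not at hc
      have e := key i
      rw [hc.1, hc.2] at e
      apply hnz i hi
      rw [← e]; ring
    · rw [hval, key]
      exact hnz i hi
    · intro i j
      rw [hval, hval, key, key]; ring

/-- **RC2, conic**. -/
theorem rcb_conic (g : ℤ[X]) (hg : g.Monic) (hirr : Irreducible g) (hd : g.natDegree = 4)
    (hrc : RatStmt g) (C0 C1 ε : ℝ) (hε : 0 < ε) :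
    ∃ K' : ℝ, 0 < K' ∧ ∀ (K Y P : ℝ) (m : ℤ) (f1 f2 : Fin 4 → ℤ) {ι : Type} (T : Finset ι)
      (n : ι → ℤ) (p : ι → ℕ) (α β : ι → Fin 4 → ℤ) (u v : ι → ℤ),
      Fam g K Y P (Y ^ C0) m f1 f2 T n p α β u v →
      ∀ (σ : Fin 3 → Fin 4) (D : ℤ) (a : Fin 4 → Fin 3 → ℤ) (q : Fin 3 → Fin 3 → ℤ), D ≠ 0 →
      (∀ j l, |((a j l : ℤ) : ℝ)| ≤ Y ^ C1) → (∀ l l', |((q l l' : ℤ) : ℝ)| ≤ Y ^ C1) →
      (∀ l l', q l l' = q l' l) → Matrix.det (Matrix.of q) ≠ 0 →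
      (∀ z ∈ T, ∀ j, D * α z j = ∑ l, a j l * α z (σ l)) →
      (∀ z ∈ T, ∑ l, ∑ l', q l l' * α z (σ l) * α z (σ l') = 0) →
      (T.card : ℝ) ≤ K' * Y ^ ε := by
  classical
  obtain ⟨K1, hK1, hconic⟩ := rcb_conic0 g hg hirr hd hrc C0 C1 ε hε
  set C4 : ℝ := max C0 C1 with hC4
  obtain ⟨C2, hC2⟩ := absorb 6 C4 3
  obtain ⟨K2, hK2, hline⟩ := rcb_line g hg hirr hd hrc C0 C2 ε hε
  refine ⟨K1 + K2 + 17, by linarith, ?_⟩
  intro K Y P m f1 f2 ι T n p α β u v hF σ D a q hD ha hq hsym hdet hrel hqz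
  have hYε : 1 ≤ Y ^ ε := Real.one_le_rpow hF.oneY hε.le
  rcases lt_or_ge Y 4 with hY4 | hY4
  · have := small_card hF hY4
    nlinarith
  rcases T.eq_empty_or_nonempty with h0 | ⟨z0, hz0⟩
  · rw [h0]; simp; positivity
  have hYC0 : Y ^ C0 ≤ Y ^ C4 := Real.rpow_le_rpow_of_exponent_le hF.oneY (le_max_left _ _)
  have hYC1 : Y ^ C1 ≤ Y ^ C4 := Real.rpow_le_rpow_of_exponent_le hF.oneY (le_max_right _ _)
  set W : ℝ := Y ^ C4 with hW
  have hW0 : 0 ≤ W := by have := hF.oneY; positivity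
  set P0 : Fin 3 → ℤ := fun l => α z0 (σ l) with hP0
  have hP0ne : ∃ l, P0 l ≠ 0 := by
    by_contra hc
    push Not at hc
    apply sol_alpha_ne hg hd (hF.sol z0 hz0)
    funext j
    have h1 := hrel z0 hz0 j
    have h2 : ∑ l, a j l * α z0 (σ l) = 0 := Finset.sum_eq_zero fun l _ => by
      have := hc l
      rw [hP0] at this
      simp only at this
      rw [this, mul_zero]
    rw [h2] at h1
    exact (mul_eq_zero.1 h1).resolve_left hD
  -- the tangent form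
  set w : Fin 3 → ℤ := fun l' => ∑ l, P0 l * q l l' with hw
  have hwne : ∃ l, w l ≠ 0 := by
    by_contra hc
    push Not at hc
    apply hdet
    apply Matrix.exists_vecMul_eq_zero_iff.1
    refine ⟨P0, ?_, ?_⟩
    · intro h1
      obtain ⟨l, hl⟩ := hP0ne
      exact hl (congrFun h1 l)
    · funext l'
      have := hc l'
      rw [hw] at this
      simpa [Matrix.vecMul, dotProduct] using this
  have hbw : ∀ z, ∑ l, ∑ l', q l l' * P0 l * α z (σ l') = ∑ l', w l' * α z (σ l') := by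
    intro z
    rw [Finset.sum_comm]
    refine Finset.sum_congr rfl fun l' _ => ?_
    rw [hw]
    simp only
    rw [Finset.sum_mul]
    refine Finset.sum_congr rfl fun l _ => ?_
    ring
  have hα0 : ∀ l, |((P0 l : ℤ) : ℝ)| ≤ Y ^ C0 := fun l => hF.αle z0 hz0 _
  set T1 := T.filter (fun z => ∑ l', w l' * α z (σ l') = 0) with hT1
  set T2 := T.filter (fun z => ¬ ∑ l', w l' * α z (σ l') = 0) with hT2
  have hcard : (T.card : ℝ) = T1.card + T2.card := by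
    have := Finset.card_filter_add_card_filter_not (s := T) (fun z => ∑ l', w l' * α z (σ l') = 0)
    rw [← hT1, ← hT2] at this
    exact_mod_cast this.symm
  -- T2: parametrised conic, after a permutation of the coordinates
  have k2 : (T2.card : ℝ) ≤ K1 * Y ^ ε := by
    obtain ⟨l0, hl0⟩ := hP0ne
    set e : Fin 3 ≃ Fin 3 := Equiv.swap 0 l0 with he
    have he0 : e 0 = l0 := Equiv.swap_apply_left 0 l0
    refine hconic K Y P m f1 f2 T2 n p α β u v (hF.mono (Finset.filter_subset _ _)) (fun l => σ (e l)) D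
      (fun j l => a j (e l)) (fun l l' => q (e l) (e l')) (fun l => P0 (e l)) hD (fun j l => ha j _)
      (fun l l' => hq _ _) (fun l => hα0 _) (fun l l' => hsym _ _) ?_ ?_ ?_ ?_ ?_
    · show P0 (e 0) ≠ 0
      rw [he0]; exact hl0
    · have h1 := hqz z0 hz0
      rw [← h1]
      rw [← Equiv.sum_comp e (fun l => ∑ l', q l l' * α z0 (σ l) * α z0 (σ l'))]
      refine Finset.sum_congr rfl fun l _ => ?_
      rw [← Equiv.sum_comp e (fun l' => q (e l) l' * α z0 (σ (e l)) * α z0 (σ l'))]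
    · intro z hz j
      rw [hrel z (Finset.filter_subset _ _ hz) j]
      rw [← Equiv.sum_comp e (fun l => a j l * α z (σ l))]
    · intro z hz
      have h1 := hqz z (Finset.filter_subset _ _ hz)
      rw [← h1]
      rw [← Equiv.sum_comp e (fun l => ∑ l', q l l' * α z (σ l) * α z (σ l'))]
      refine Finset.sum_congr rfl fun l _ => ?_
      rw [← Equiv.sum_comp e (fun l' => q (e l) l' * α z (σ (e l)) * α z (σ l'))]
    · intro z hz
      have h1 := (Finset.mem_filter.1 hz).2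
      rw [← hbw] at h1
      intro h2
      apply h1
      rw [← h2]
      rw [← Equiv.sum_comp e (fun l => ∑ l', q l l' * P0 l * α z (σ l'))]
      refine Finset.sum_congr rfl fun l _ => ?_
      rw [← Equiv.sum_comp e (fun l' => q (e l) l' * P0 (e l) * α z (σ l'))]
  -- T1: on a line
  have hwle : ∀ l, |((w l : ℤ) : ℝ)| ≤ 3 * W ^ 2 := by
    intro l
    rw [hw]
    simp only
    push_cast
    refine (Finset.abs_sum_le_sum_abs _ _).trans ?_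
    have : ∀ i ∈ (Finset.univ : Finset (Fin 3)), |(P0 i : ℝ) * (q i l : ℝ)| ≤ W ^ 2 := by
      intro i _
      rw [abs_mul, pow_two]
      exact mul_le_mul ((hα0 i).trans hYC0) ((hq i l).trans hYC1) (abs_nonneg _) hW0
    refine (Finset.sum_le_sum this).trans ?_
    simp
  have hb6 : ∀ x y x' y' : ℤ, |(x : ℝ)| ≤ 3 * W ^ 2 → |(y : ℝ)| ≤ W → |(x' : ℝ)| ≤ W →
      |(y' : ℝ)| ≤ 3 * W ^ 2 → |((x * y - x' * y' : ℤ) : ℝ)| ≤ 6 * W ^ 3 := by
    intro x y x' y' k1 k2 k3 k4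
    push_cast
    refine (abs_sub _ _).trans ?_
    rw [abs_mul, abs_mul]
    have e1 := mul_le_mul k1 k2 (abs_nonneg _) (by positivity)
    have e2 := mul_le_mul k3 k4 (abs_nonneg _) hW0
    nlinarith
  have k1 : (T1.card : ℝ) ≤ K2 * Y ^ ε := by
    obtain ⟨l0, hl0⟩ := hwne
    refine hline K Y P m f1 f2 T1 n p α β u v (hF.mono (Finset.filter_subset _ _))
      (σ (l0.succAbove 0)) (σ (l0.succAbove 1)) (w l0 * D)
      (fun j => w l0 * a j (l0.succAbove 0) - a j l0 * w (l0.succAbove 0))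
      (fun j => w l0 * a j (l0.succAbove 1) - a j l0 * w (l0.succAbove 1))
      (mul_ne_zero hl0 hD) ?_ ?_ ?_
    · intro j
      exact (hb6 _ _ _ _ (hwle _) ((ha j _).trans hYC1) ((ha j _).trans hYC1) (hwle _)).trans
        (hC2 Y hY4)
    · intro j
      exact (hb6 _ _ _ _ (hwle _) ((ha j _).trans hYC1) ((ha j _).trans hYC1) (hwle _)).trans
        (hC2 Y hY4)
    · intro z hz j
      have e1 := hrel z (Finset.filter_subset _ _ hz) j
      have e2 := (Finset.mem_filter.1 hz).2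
      rw [Fin.sum_univ_succAbove _ l0, Fin.sum_univ_two] at e1 e2
      linear_combination (w l0) * e1 + (a j l0) * e2
  rw [hcard]
  nlinarith

end Pool.Agent.Lib.SQF.RCB
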