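import Pool.Agent.Lib.SQF.RC
import Pool.Agent.Lib.SQF.RCG0
import Pool.Agent.Lib.SQF.RCB

/-!
# SQF: the counting statement `RatStmt` used by the module RCB holds

`rat_count_of` (RCG0, helper42) and `rc_count` (RC, helper20).
-/

set_option autoImplicit false

open Polynomial

namespace Pool.Agent.Lib.SQF.RCB

/-- `RatStmt g` holds for every monic irreducible quartic `g` -/
theorem ratStmt (g : ℤ[X]) (hg : g.Monic) (hirr : Irreducible g) (hd : g.natDegree = 4) :
    RatStmt g := fun a k C L ε hε =>
  rat_count_of g a k C L ε hε fun a0 k0 C1 L1 hk => rc_count g hg hirr hd a0 k0 hk C1 L1 ε hε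

end Pool.Agent.Lib.SQF.RCB
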