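import Pool.Agent.Lib.SQF.StabMain
import Pool.Agent.Lib.SQF.RCBfin

/-!
# One curve on a β-slice: the alternative for stable clusters (MP_8842b2_nt, arch70 3.4, 3.6)

Glue between `stab_rank` (rank bound or one of three rational parametrisations) and the counts
of solutions on a rational curve (a rational parametrisation carries `≤ K' Y^ε` solutions).
-/

set_option autoImplicit false

namespace Pool.Agent.Lib.SQF

open Polynomial Pool.Agent.SQF4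

private lemma quad_expand (q : Fin 4 → Fin 4 → ℤ) (E0 E1 : Fin 4 → ℤ) (s r : ℤ) :
    ∑ i, ∑ j, q i j * (s * E0 i + r * E1 i) * (s * E0 j + r * E1 j) =
      s ^ 2 * (∑ i, ∑ j, q i j * E0 i * E0 j) +
      s * r * (∑ i, ∑ j, (q i j + q j i) * E0 i * E1 j) +
      r ^ 2 * (∑ i, ∑ j, q i j * E1 i * E1 j) := by
  have h1 : ∑ i, ∑ j, (q i j + q j i) * E0 i * E1 j =
      ∑ i, ∑ j, (q i j * E0 i * E1 j + q i j * E1 i * E0 j) := by
    have h2 : ∑ i, ∑ j, q j i * E0 i * E1 j = ∑ i, ∑ j, q i j * E1 i * E0 j := by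
      rw [Finset.sum_comm]
      refine Finset.sum_congr rfl fun i _ => Finset.sum_congr rfl fun j _ => ?_
      ring
    simp only [add_mul, Finset.sum_add_distrib]
    rw [h2]
  rw [h1]
  simp only [Finset.mul_sum, ← Finset.sum_add_distrib]
  refine Finset.sum_congr rfl fun i _ => Finset.sum_congr rfl fun j _ => ?_
  ring

private lemma bil_bound (q : Fin 4 → Fin 4 → ℤ) (x y : Fin 4 → ℤ) (W : ℝ) (hW : 0 ≤ W) (c : ℝ)
    (hq : ∀ i j, |(q i j : ℝ)| ≤ c * W) (hc : 0 ≤ c)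
    (hx : ∀ j, |(x j : ℝ)| ≤ W) (hy : ∀ j, |(y j : ℝ)| ≤ W) :
    |((∑ i, ∑ j, q i j * x i * y j : ℤ) : ℝ)| ≤ 16 * c * W ^ 3 := by
  push_cast
  refine (Finset.abs_sum_le_sum_abs _ _).trans ?_
  have h1 : ∀ i ∈ (Finset.univ : Finset (Fin 4)),
      |∑ j, (q i j : ℝ) * x i * y j| ≤ 4 * (c * W ^ 3) := by
    intro i _
    refine (Finset.abs_sum_le_sum_abs _ _).trans ?_
    have h2 : ∀ j ∈ (Finset.univ : Finset (Fin 4)), |(q i j : ℝ) * x i * y j| ≤ c * W ^ 3 := by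
      intro j _
      rw [abs_mul, abs_mul]
      have h3 : |(q i j : ℝ)| * |(x i : ℝ)| ≤ c * W * W :=
        mul_le_mul (hq i j) (hx i) (abs_nonneg _) (by positivity)
      have h4 : |(q i j : ℝ)| * |(x i : ℝ)| * |(y j : ℝ)| ≤ c * W * W * W :=
        mul_le_mul h3 (hy j) (abs_nonneg _) (by positivity)
      calc _ ≤ c * W * W * W := h4
        _ = _ := by ring
    refine (Finset.sum_le_card_nsmul _ _ _ h2).trans ?_
    simp
  refine (Finset.sum_le_card_nsmul _ _ _ h1).trans ?_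
  simp
  linarith

/-- points of a conic, parametrised from a point of the conic -/
private theorem rc_conic (g : ℤ[X]) (hg : g.Monic) (hirr : Irreducible g) (hd : g.natDegree = 4)
    (hrc : RCB.RatStmt g) (C0 C1 ε : ℝ) (hε : 0 < ε) :
    ∃ K' : ℝ, 0 < K' ∧ ∀ (K Y P : ℝ) (m : ℤ) (f1 f2 : Fin 4 → ℤ) {ι : Type} (T : Finset ι)
      (n : ι → ℤ) (p : ι → ℕ) (α β : ι → Fin 4 → ℤ) (u v : ι → ℤ),
      RCB.Fam g K Y P (Y ^ C0) m f1 f2 T n p α β u v →
      ∀ (P0 E0 E1 : Fin 4 → ℤ) (q : Fin 4 → Fin 4 → ℤ), (∀ j, |(P0 j : ℝ)| ≤ Y ^ C1) →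
      (∀ j, |(E0 j : ℝ)| ≤ Y ^ C1) → (∀ j, |(E1 j : ℝ)| ≤ Y ^ C1) →
      (∀ i j, |(q i j : ℝ)| ≤ Y ^ C1) → ∑ i, ∑ j, q i j * P0 i * P0 j = 0 →
      (∀ z ∈ T, (∑ i, ∑ j, q i j * α z i * α z j = 0) ∧
        (∑ i, ∑ j, (q i j + q j i) * P0 i * α z j ≠ 0) ∧
        ∃ w y s r : ℤ, w ≠ 0 ∧ |(s : ℝ)| ≤ Y ^ C1 ∧ |(r : ℝ)| ≤ Y ^ C1 ∧
        ∀ j, w * α z j = y * P0 j + s * E0 j + r * E1 j) →
      (T.card : ℝ) ≤ K' * Y ^ ε := by
  classical
  obtain ⟨C2, hC2⟩ := RCB.absorb 200 C1 4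
  set C3 : ℝ := max C1 C2 with hC3
  obtain ⟨K1, hK1, hcore⟩ := RCB.fam_core g hg hirr hd hrc 2 C0 C3 ε hε
  refine ⟨K1 + 17, by linarith, ?_⟩
  intro K Y P m f1 f2 ι T n p α β u v hF P0 E0 E1 q hP0 hE0 hE1 hq hq0 hz
  have hYε : 1 ≤ Y ^ ε := Real.one_le_rpow hF.oneY hε.le
  rcases lt_or_ge Y 4 with hY4 | hY4
  · have := RCB.small_card hF hY4
    nlinarith
  have hYC1 : Y ^ C1 ≤ Y ^ C3 := Real.rpow_le_rpow_of_exponent_le hF.oneY (le_max_left _ _)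
  have hYC2 : Y ^ C2 ≤ Y ^ C3 := Real.rpow_le_rpow_of_exponent_le hF.oneY (le_max_right _ _)
  have hbig := hC2 Y hY4
  set W : ℝ := Y ^ C1 with hW
  have hW0 : 0 ≤ W := by have := hF.oneY; positivity
  set q00 : ℤ := ∑ i, ∑ j, q i j * E0 i * E0 j with hq00
  set q01 : ℤ := ∑ i, ∑ j, (q i j + q j i) * E0 i * E1 j with hq01
  set q11 : ℤ := ∑ i, ∑ j, q i j * E1 i * E1 j with hq11
  set b0 : ℤ := ∑ i, ∑ j, (q i j + q j i) * P0 i * E0 j with hb0
  set b1 : ℤ := ∑ i, ∑ j, (q i j + q j i) * P0 i * E1 j with hb1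
  have hq' : ∀ i j, |(q i j : ℝ)| ≤ 1 * W := by simpa using hq
  have hqs : ∀ i j, |((q i j + q j i : ℤ) : ℝ)| ≤ 2 * W := by
    intro i j
    push_cast
    refine (abs_add_le _ _).trans ?_
    linarith [hq i j, hq j i]
  have e00 := bil_bound q E0 E0 W hW0 1 hq' zero_le_one hE0 hE0
  have e11 := bil_bound q E1 E1 W hW0 1 hq' zero_le_one hE1 hE1
  have e01 := bil_bound (fun i j => q i j + q j i) E0 E1 W hW0 2 hqs (by norm_num) hE0 hE1
  have f0 := bil_bound (fun i j => q i j + q j i) P0 E0 W hW0 2 hqs (by norm_num) hP0 hE0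
  have f1' := bil_bound (fun i j => q i j + q j i) P0 E1 W hW0 2 hqs (by norm_num) hP0 hE1
  rw [← hq00] at e00
  rw [← hq11] at e11
  have e01 : |(q01 : ℝ)| ≤ 16 * 2 * W ^ 3 := e01
  have f0 : |(b0 : ℝ)| ≤ 16 * 2 * W ^ 3 := f0
  have f1' : |(b1 : ℝ)| ≤ 16 * 2 * W ^ 3 := f1'
  have hprod : ∀ x y : ℤ, |(x : ℝ)| ≤ 16 * 2 * W ^ 3 → |(y : ℝ)| ≤ W →
      |((x * y : ℤ) : ℝ)| ≤ 32 * W ^ 4 := by
    intro x y hx hy
    push_cast
    rw [abs_mul]
    calc |(x : ℝ)| * |(y : ℝ)| ≤ 16 * 2 * W ^ 3 * W := mul_le_mul hx hy (abs_nonneg _) (by positivity)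
      _ = 32 * W ^ 4 := by ring
  have hW3 : 0 ≤ W ^ 3 := by positivity
  have e00' : |(q00 : ℝ)| ≤ 16 * 2 * W ^ 3 := by linarith
  have e11' : |(q11 : ℝ)| ≤ 16 * 2 * W ^ 3 := by linarith
  set cf : Fin 4 → Fin (2 + 1) → ℤ := fun i => ![-(q11 * P0 i) + b1 * E1 i,
    -(q01 * P0 i) + (b0 * E1 i + b1 * E0 i), -(q00 * P0 i) + b0 * E0 i] with hcf
  have hcfb : ∀ i a, |((cf i a : ℤ) : ℝ)| ≤ Y ^ C3 := by
    intro i a
    refine le_trans ?_ (hbig.trans hYC2)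
    have t1 := hprod q11 (P0 i) e11' (hP0 i)
    have t2 := hprod b1 (E1 i) f1' (hE1 i)
    have t3 := hprod q01 (P0 i) e01 (hP0 i)
    have t4 := hprod b0 (E1 i) f0 (hE1 i)
    have t5 := hprod b1 (E0 i) f1' (hE0 i)
    have t6 := hprod q00 (P0 i) e00' (hP0 i)
    have t7 := hprod b0 (E0 i) f0 (hE0 i)
    have hW4 : 0 ≤ W ^ 4 := by positivity
    rw [abs_le] at t1 t2 t3 t4 t5 t6 t7
    fin_cases a
    · simp only [hcf, Fin.zero_eta, Matrix.cons_val_zero]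
      push_cast at t1 t2 ⊢
      rw [abs_le]
      constructor <;> linarith [t1.1, t1.2, t2.1, t2.2]
    · simp only [hcf, Fin.mk_one, Matrix.cons_val_one, Matrix.cons_val_zero]
      push_cast at t3 t4 t5 ⊢
      rw [abs_le]
      constructor <;> linarith [t3.1, t3.2, t4.1, t4.2, t5.1, t5.2]
    · simp only [hcf, Fin.reduceFinMk, Matrix.cons_val]
      push_cast at t6 t7 ⊢
      rw [abs_le]
      constructor <;> linarith [t6.1, t6.2, t7.1, t7.2]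
  have hval : ∀ i (s r : ℤ), hf (RCB.hp (cf i)) 2 s r =
      -((s ^ 2 * q00 + s * r * q01 + r ^ 2 * q11) * P0 i) + (s * b0 + r * b1) * (s * E0 i + r * E1 i) := by
    intro i s r
    rw [RCB.hf_hp]
    simp [hcf, hb, Fin.sum_univ_succ]
    ring
  have hfin := hcore K Y P m f1 f2 T n p α β u v hF hY4 (fun i => RCB.hp (cf i))
    (fun i => RCB.hp_natDegree _)
    (fun i j => RCB.hp_coeff _ _ (by have := hF.oneY; positivity) (hcfb i) j) ?_
  · nlinarith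
  intro z hzT
  obtain ⟨g1, g2, w, y, s, r, hw, hs, hr, hrel⟩ := hz z hzT
  -- the polar form of `P0` at `α`
  set bp : ℤ := s * b0 + r * b1 with hbp
  have hbpE : ∑ i, ∑ j, (q i j + q j i) * P0 i * (s * E0 j + r * E1 j) = bp := by
    rw [hbp, hb0, hb1]
    simp only [Finset.mul_sum, ← Finset.sum_add_distrib]
    refine Finset.sum_congr rfl fun i _ => Finset.sum_congr rfl fun j _ => ?_
    ring
  have hP00 : ∑ i, ∑ j, (q i j + q j i) * P0 i * P0 j = 0 := by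
    have h2 : ∑ i, ∑ j, q j i * P0 i * P0 j = ∑ i, ∑ j, q i j * P0 i * P0 j := by
      rw [Finset.sum_comm]
      refine Finset.sum_congr rfl fun i _ => Finset.sum_congr rfl fun j _ => ?_
      ring
    simp only [add_mul, Finset.sum_add_distrib]
    rw [h2, hq0]
    ring
  have hbw : w * (∑ i, ∑ j, (q i j + q j i) * P0 i * α z j) = bp := by
    have h3 : w * (∑ i, ∑ j, (q i j + q j i) * P0 i * α z j) =
        ∑ i, ∑ j, (q i j + q j i) * P0 i * (w * α z j) := by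
      simp only [Finset.mul_sum]
      refine Finset.sum_congr rfl fun i _ => Finset.sum_congr rfl fun j _ => ?_
      ring
    have h4 : ∑ i, ∑ j, (q i j + q j i) * P0 i * (w * α z j) =
        y * (∑ i, ∑ j, (q i j + q j i) * P0 i * P0 j) +
          ∑ i, ∑ j, (q i j + q j i) * P0 i * (s * E0 j + r * E1 j) := by
      simp only [Finset.mul_sum, ← Finset.sum_add_distrib]
      refine Finset.sum_congr rfl fun i _ => Finset.sum_congr rfl fun j _ => ?_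
      rw [hrel j]
      ring
    rw [h3, h4, hP00, hbpE]
    ring
  have hbp0 : bp ≠ 0 := by
    rw [← hbw]
    exact mul_ne_zero hw g2
  -- the conic
  have hqE : (s ^ 2 * q00 + s * r * q01 + r ^ 2 * q11) = -(y * bp) := by
    have h5 : ∑ i, ∑ j, q i j * (y * P0 i + 1 * (s * E0 i + r * E1 i)) *
        (y * P0 j + 1 * (s * E0 j + r * E1 j)) = 0 := by
      have h6 : ∑ i, ∑ j, q i j * (y * P0 i + 1 * (s * E0 i + r * E1 i)) *
          (y * P0 j + 1 * (s * E0 j + r * E1 j)) =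
          w ^ 2 * ∑ i, ∑ j, q i j * α z i * α z j := by
        simp only [Finset.mul_sum]
        refine Finset.sum_congr rfl fun i _ => Finset.sum_congr rfl fun j _ => ?_
        have e1 : y * P0 i + 1 * (s * E0 i + r * E1 i) = w * α z i := by rw [hrel i]; ring
        have e2 : y * P0 j + 1 * (s * E0 j + r * E1 j) = w * α z j := by rw [hrel j]; ring
        rw [e1, e2]
        ring
      rw [h6, g1, mul_zero]
    rw [quad_expand q P0 (fun i => s * E0 i + r * E1 i) y 1, hq0, hbpE,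
      quad_expand q E0 E1 s r] at h5
    linarith
  have hAval : ∀ i, hf (RCB.hp (cf i)) 2 s r = bp * w * α z i := by
    intro i
    rw [hval, hqE]
    have h7 := hrel i
    linear_combination (-bp) * h7
  have hα : ∃ i, α z i ≠ 0 := by
    by_contra hcon
    push Not at hcon
    apply g2
    refine Finset.sum_eq_zero fun i _ => Finset.sum_eq_zero fun j _ => ?_
    rw [hcon j, mul_zero]
  refine ⟨s, r, ?_, hs.trans hYC1, hr.trans hYC1, ?_, ?_⟩
  · by_contra hcon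
    push Not at hcon
    apply hbp0
    rw [hbp, hcon.1, hcon.2]
    ring
  · obtain ⟨i, hi⟩ := hα
    refine ⟨i, ?_⟩
    rw [hAval]
    exact mul_ne_zero (mul_ne_zero hbp0 hw) hi
  · intro i j
    rw [hAval, hAval]
    ring

/-- `bd K T` is at most a fixed power of `Y` if `T` is and `Y ≥ 2` -/
private lemma bd_le_rpow {Y A : ℝ} (hY : 2 ≤ Y) (Kst : ℕ) {T : ℤ} (hT0 : 0 ≤ T)
    (hT : (T : ℝ) ≤ Y ^ A) : ((bd Kst T : ℤ) : ℝ) ≤ Y ^ ((Kst : ℝ) + A * Kst) := by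
  have hY0 : (0 : ℝ) < Y := by linarith
  have h1 : (Kst : ℝ) ≤ Y ^ (Kst : ℝ) := by
    rw [Real.rpow_natCast]
    have h2 : (Kst : ℝ) ≤ (2 : ℝ) ^ Kst := by exact_mod_cast (Nat.lt_two_pow_self (n := Kst)).le
    exact h2.trans (pow_le_pow_left₀ (by norm_num) hY _)
  have h2 : (T : ℝ) ^ Kst ≤ Y ^ (A * Kst) := by
    rw [Real.rpow_mul hY0.le, Real.rpow_natCast]
    exact pow_le_pow_left₀ (by exact_mod_cast hT0) hT _
  unfold bd
  push_cast
  rw [Real.rpow_add hY0]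
  exact mul_le_mul h1 h2 (by positivity) (by positivity)

private lemma hf_hb (P : ℤ[X]) (I : ℕ) (u v : ℤ) :
    hf P I u v = hb (fun a : Fin (I + 1) => P.coeff a) u v := by
  unfold hf hb
  exact Finset.sum_range (fun i => P.coeff i * u ^ i * v ^ (I - i))

/-- **KapRC**, granted the count of solutions on rational curves. -/
theorem kap_rc_of (g : ℤ[X]) (hg : g.Monic) (hirr : Irreducible g) (hd : g.natDegree = 4)
    (hrc : RCB.RatStmt g) (I B : ℕ) (K C ε : ℝ) (hε : 0 < ε) :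
    ∃ K' : ℝ, ∀ Y P : ℝ, 1 ≤ Y → Y ≤ P → P ≤ Y ^ C → ∀ (m : ℤ) (f1 f2 : Fin 4 → ℤ),
      (∀ j, |(f1 j : ℝ)| ≤ Y ^ C ∧ |(f2 j : ℝ)| ≤ Y ^ C) →
      (∃ j k, f1 j * f2 k ≠ f1 k * f2 j) →
      ∀ (T : Finset ℤ) (p : ℤ → ℕ) (α β : ℤ → Fin 4 → ℤ) (u v : ℤ → ℤ),
      (∀ n ∈ T, IsSol 4 g K Y P n (p n) (α n) (β n) m ∧ OnSlice f1 f2 (β n) (u n) (v n) ∧
        |(u n : ℝ)| ≤ Y ^ C ∧ |(v n : ℝ)| ≤ Y ^ C) →
      (∃ P ∈ T, ∃ Q ∈ T, u P * v Q ≠ u Q * v P) →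
      Stab (JS I (B ^ 2 + 2 * B)) (FS (fun n => (u n : ℚ)) (fun n => (v n : ℚ))
        (fun j n => (α n j : ℚ))) T →
      (∀ i ≤ I, ∀ b, 1 ≤ b → b ≤ B → 2 * i + 3 * b ≤ rk (FS (fun n => (u n : ℚ))
        (fun n => (v n : ℚ)) (fun j n => (α n j : ℚ)) (i, b)) T + 2) ∨
      (T.card : ℝ) ≤ K' * Y ^ ε := by
  classical
  -- a root of `g`
  obtain ⟨z0, hz0⟩ : ∃ z : ℂ, aeval z g = 0 := by
    refine IsAlgClosed.exists_aeval_eq_zero ℂ g ?_
    rw [Polynomial.degree_eq_natDegree hg.ne_zero, hd]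
    norm_num
  obtain ⟨Kst, hKst⟩ := stab_rank I B
  -- exponents
  obtain ⟨a, ha⟩ : ∃ a : ℕ, |K| + 2 ≤ (2 : ℝ) ^ a := by
    obtain ⟨a, ha⟩ := pow_unbounded_of_one_lt (|K| + 2) (by norm_num : (1 : ℝ) < 2)
    exact ⟨a, ha.le⟩
  set A : ℝ := a + |C| with hA
  have hA0 : 0 ≤ A := by positivity
  set C' : ℝ := (Kst : ℝ) + A * Kst + A with hC'
  obtain ⟨K1, hK1p, hK1⟩ := RCB.rcb_ratio g hg hirr hd hrc I C' C' ε hε
  obtain ⟨K2, hK2p, hK2⟩ := RCB.rcb_line g hg hirr hd hrc C' C' ε hε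
  obtain ⟨K3, hK3p, hK3⟩ := rc_conic g hg hirr hd hrc C' C' ε hε
  refine ⟨2 * |K1| + |K2| + 2 * |K3| + 9, ?_⟩
  intro Y P hY hYP hPC m f1 f2 hf hmin T p α β u v hsol huv hst
  rcases Nat.eq_zero_or_pos B with hB | hB
  · left
    intro i _ b hb1 hb
    omega
  have hY0 : (0 : ℝ) < Y := by linarith
  have hYε : (1 : ℝ) ≤ Y ^ ε := Real.one_le_rpow hY hε.le
  -- small `Y`
  rcases lt_or_ge Y 2 with hY2 | hY2
  · right
    have h1 : T ⊆ Finset.Icc (-4 : ℤ) 4 := by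
      intro n hn
      have h2 := (hsol n hn).1.upper
      have h3 : |(n : ℝ)| < 4 := by linarith
      have h4 := abs_lt.1 h3
      rw [Finset.mem_Icc]
      constructor
      · have h5 : ((-4 : ℤ) : ℝ) < n := by push_cast; exact h4.1
        exact_mod_cast h5.le
      · have h5 : (n : ℝ) < ((4 : ℤ) : ℝ) := by push_cast; exact h4.2
        exact_mod_cast h5.le
    have h2 : T.card ≤ 9 := (Finset.card_le_card h1).trans (by simp)
    have h3 : (T.card : ℝ) ≤ 9 := by exact_mod_cast h2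
    have h4 : (0 : ℝ) ≤ 2 * |K1| + |K2| + 2 * |K3| := by positivity
    nlinarith
  -- the common bound
  set M : ℤ := ⌈(|K| + 1) * Y ^ |C|⌉ with hM
  have hYC1 : (1 : ℝ) ≤ Y ^ |C| := Real.one_le_rpow hY (abs_nonneg _)
  have hM1 : (|K| + 1) * Y ^ |C| ≤ (M : ℝ) := Int.le_ceil _
  have hM2 : (M : ℝ) ≤ Y ^ A := by
    have h1 : (M : ℝ) < (|K| + 1) * Y ^ |C| + 1 := Int.ceil_lt_add_one _
    have h2 : (|K| + 1) * Y ^ |C| + 1 ≤ (|K| + 2) * Y ^ |C| := by nlinarith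
    have h3 : (|K| + 2) ≤ Y ^ (a : ℝ) := by
      rw [Real.rpow_natCast]
      exact ha.trans (pow_le_pow_left₀ (by norm_num) hY2 _)
    have h4 : (|K| + 2) * Y ^ |C| ≤ Y ^ (a : ℝ) * Y ^ |C| :=
      mul_le_mul_of_nonneg_right h3 (by positivity)
    rw [hA, Real.rpow_add hY0]
    linarith
  have hM3 : 1 ≤ M := by
    have h1 : (1 : ℝ) ≤ (M : ℝ) := by
      have h2 : (1 : ℝ) ≤ (|K| + 1) * Y ^ |C| := by
        have := abs_nonneg K
        nlinarith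
      linarith
    exact_mod_cast h1
  have hYCabs : Y ^ C ≤ Y ^ |C| := Real.rpow_le_rpow_of_exponent_le hY (le_abs_self C)
  have hYCM : Y ^ C ≤ (M : ℝ) := by
    have := abs_nonneg K
    nlinarith
  have hu : ∀ n ∈ T, |u n| ≤ M := by
    intro n hn
    have h1 := (hsol n hn).2.2.1
    have h2 : ((|u n| : ℤ) : ℝ) ≤ (M : ℝ) := by push_cast; linarith
    exact_mod_cast h2
  have hv : ∀ n ∈ T, |v n| ≤ M := by
    intro n hn
    have h1 := (hsol n hn).2.2.2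
    have h2 : ((|v n| : ℤ) : ℝ) ≤ (M : ℝ) := by push_cast; linarith
    exact_mod_cast h2
  have hP1 : (1 : ℝ) ≤ P := hY.trans hYP
  have hx : ∀ n ∈ T, ∀ j, |α n j| ≤ M := by
    intro n hn j
    have h1 := (hsol n hn).1.coeffα j
    have h2 : P ^ ((1 : ℝ) / (4 : ℕ)) ≤ Y ^ |C| := by
      have h3 : P ^ ((1 : ℝ) / (4 : ℕ)) ≤ P ^ (1 : ℝ) :=
        Real.rpow_le_rpow_of_exponent_le hP1 (by norm_num)
      rw [Real.rpow_one] at h3
      linarith
    have h3 : (0 : ℝ) ≤ P ^ ((1 : ℝ) / (4 : ℕ)) := by positivity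
    have h4 : K * P ^ ((1 : ℝ) / (4 : ℕ)) ≤ |K| * Y ^ |C| :=
      mul_le_mul (le_abs_self K) h2 h3 (abs_nonneg K)
    have h5 : ((|α n j| : ℤ) : ℝ) ≤ (M : ℝ) := by
      push_cast
      nlinarith
    exact_mod_cast h5
  have hCC : Y ^ A ≤ Y ^ C' := by
    refine Real.rpow_le_rpow_of_exponent_le hY ?_
    rw [hC']
    have : (0 : ℝ) ≤ (Kst : ℝ) + A * Kst := by positivity
    linarith
  have hCC0 : Y ^ C ≤ Y ^ C' := hYCM.trans (hM2.trans hCC)
  have hbd : ((bd Kst M : ℤ) : ℝ) ≤ Y ^ C' := by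
    refine (bd_le_rpow hY2 Kst (by omega) hM2).trans ?_
    refine Real.rpow_le_rpow_of_exponent_le hY ?_
    rw [hC']
    linarith
  have hbdle : ∀ t : ℤ, |t| ≤ bd Kst M → |(t : ℝ)| ≤ Y ^ C' := by
    intro t ht
    have h1 : ((|t| : ℤ) : ℝ) ≤ ((bd Kst M : ℤ) : ℝ) := by exact_mod_cast ht
    push_cast at h1
    exact h1.trans hbd
  have hMle : ∀ t : ℤ, |t| ≤ M → |(t : ℝ)| ≤ Y ^ C' := by
    intro t ht
    have h1 : ((|t| : ℤ) : ℝ) ≤ (M : ℝ) := by exact_mod_cast ht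
    push_cast at h1
    exact h1.trans (hM2.trans hCC)
  -- `α` is not identically zero
  have hne : ∀ n ∈ T, ∃ j, α n j ≠ 0 := by
    intro n hn
    by_contra hcon
    push Not at hcon
    have h1 := (hsol n hn).1.lowα z0 hz0
    have h2 : ev (α n) z0 = 0 := by
      unfold ev
      refine Finset.sum_eq_zero fun i _ => ?_
      rw [hcon i]
      simp
    rw [h2, norm_zero, mul_zero] at h1
    have h3 : (0 : ℝ) < P ^ ((1 : ℝ) / (4 : ℕ)) := Real.rpow_pos_of_pos (by linarith) _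
    linarith
  have hfam : RCB.Fam g K Y P (Y ^ C') m f1 f2 T (fun n => n) p α β u v :=
    { oneY := hY
      YP := hYP
      f1le := fun i => (hf i).1.trans hCC0
      f2le := fun i => (hf i).2.trans hCC0
      ind := hmin
      inj := fun x _ y _ h => h
      sol := fun n hn => (hsol n hn).1
      slice := fun n hn => (hsol n hn).2.1
      ule := fun n hn => (hsol n hn).2.2.1.trans hCC0
      vle := fun n hn => (hsol n hn).2.2.2.trans hCC0
      αle := fun n hn j => hMle _ (hx n hn j) }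
  have hne' : ∃ n ∈ T, ∃ j, α n j ≠ 0 := by
    obtain ⟨n, hn, _⟩ := huv
    exact ⟨n, hn, hne n hn⟩
  have k1 : (0 : ℝ) ≤ |K1| := abs_nonneg _
  have k2 : (0 : ℝ) ≤ |K2| := abs_nonneg _
  have k3 : (0 : ℝ) ≤ |K3| := abs_nonneg _
  have e1 := le_abs_self K1
  have e2 := le_abs_self K2
  have e3 := le_abs_self K3
  have hYε0 : (0 : ℝ) < Y ^ ε := by linarith
  rcases hKst u v (fun j n => α n j) M T hM3 hu hv hx hB hst huv hne' with h | h | h | h
  · left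
    exact h
  · -- RC1
    right
    obtain ⟨j0, aa, bb, S, hS, hcard, d1, d2, c1, c2, hr⟩ := h
    have h1 := hK1 K Y P m f1 f2 S (fun n => n) p α β u v (hfam.mono hS) j0
      (fun j a => (aa j).coeff a) (fun j a => (bb j).coeff a)
      (fun l k => hbdle _ (c1 l k)) (fun l k => hbdle _ (c2 l k)) (fun n hn => by
        refine ⟨(hr n hn).1, fun j => ?_⟩
        rw [← hf_hb, ← hf_hb]
        exact (hr n hn).2 j)
    have h2 : (T.card : ℝ) ≤ 2 * (S.card : ℝ) := by exact_mod_cast hcard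
    nlinarith
  · -- line
    right
    obtain ⟨j1, j2, D, E0, E1, hD, _, b0, b1, hr⟩ := h
    have h1 := hK2 K Y P m f1 f2 T (fun n => n) p α β u v hfam j1 j2 D E0 E1 hD
      (fun j => hbdle _ (b0 j)) (fun j => hbdle _ (b1 j)) (fun n hn j => by
        rw [hr n hn j]
        ring)
    nlinarith
  · -- conic
    right
    obtain ⟨P0, E0, E1, Q, S, hS, hcard, b0, b1, b2, b3, hq0, hr⟩ := h
    have h1 := hK3 K Y P m f1 f2 S (fun n => n) p α β u v (hfam.mono hS) P0 E0 E1 Q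
      (fun j => hbdle _ (b0 j)) (fun j => hbdle _ (b1 j)) (fun j => hbdle _ (b2 j))
      (fun i j => hbdle _ (b3 i j)) hq0 (fun n hn => by
        obtain ⟨g1, g2, w, y, s, r, g3, _, _, g4, g5, g6⟩ := hr n hn
        exact ⟨g1, g2, w, y, s, r, g3, hbdle _ g4, hbdle _ g5, g6⟩)
    have h2 : (T.card : ℝ) ≤ 2 * (S.card : ℝ) := by exact_mod_cast hcard
    nlinarith

/-- **KapRC.** A stable cluster on a β-slice has all its rank bounds, or few elements. -/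
theorem kap_rc (g : ℤ[X]) (hg : g.Monic) (hirr : Irreducible g) (hd : g.natDegree = 4)
    (I B : ℕ) (K C ε : ℝ) (hε : 0 < ε) :
    ∃ K' : ℝ, ∀ Y P : ℝ, 1 ≤ Y → Y ≤ P → P ≤ Y ^ C → ∀ (m : ℤ) (f1 f2 : Fin 4 → ℤ),
      (∀ j, |(f1 j : ℝ)| ≤ Y ^ C ∧ |(f2 j : ℝ)| ≤ Y ^ C) →
      (∃ j k, f1 j * f2 k ≠ f1 k * f2 j) →
      ∀ (T : Finset ℤ) (p : ℤ → ℕ) (α β : ℤ → Fin 4 → ℤ) (u v : ℤ → ℤ),
      (∀ n ∈ T, IsSol 4 g K Y P n (p n) (α n) (β n) m ∧ OnSlice f1 f2 (β n) (u n) (v n) ∧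
        |(u n : ℝ)| ≤ Y ^ C ∧ |(v n : ℝ)| ≤ Y ^ C) →
      (∃ P ∈ T, ∃ Q ∈ T, u P * v Q ≠ u Q * v P) →
      Stab (JS I (B ^ 2 + 2 * B)) (FS (fun n => (u n : ℚ)) (fun n => (v n : ℚ))
        (fun j n => (α n j : ℚ))) T →
      (∀ i ≤ I, ∀ b, 1 ≤ b → b ≤ B → 2 * i + 3 * b ≤ rk (FS (fun n => (u n : ℚ))
        (fun n => (v n : ℚ)) (fun j n => (α n j : ℚ)) (i, b)) T + 2) ∨
      (T.card : ℝ) ≤ K' * Y ^ ε :=
  kap_rc_of g hg hirr hd (RCB.ratStmt g hg hirr hd) I B K C ε hε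

end Pool.Agent.Lib.SQF
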