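import Pool.Agent.Lib.SQF.Defs
import Pool.Agent.Lib.SQF.Reduced
import Pool.Agent.Lib.SQF4.Basis

/-!
# SQF (MP_8842b2_nt), module ClsB: reduced classes of slices

`clsB_count`: finitely many vectors `β n` of size at most `K A` are put on slices with a reduced basis
`(f₁, f₂)`, `|f₁| ≤ C A^(1/3)`, `|f₂| ≤ C A^(2/3)`, `|u||f₁|, |v||f₂| ≤ C A`, and if all slices
of a family `T` have `|f₁| ≤ R` and carry at most `M` elements each, then `|T| ≤ C A² R² M`.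
-/

set_option autoImplicit false

open Finset Matrix

namespace Pool.Agent.Lib.SQF

open Pool.Agent.SQF4 (sn le_sn sn_le_iff exists_eq_sn sn_pos mem_box card_box RBasis Indep2
  exists_rbasis slicePairs mem_slicePairs)

open Classical in
/-- reduced pairs with `|e₁| ≤ R`: at most `C A² R²` -/
theorem card_le_of_sn_le (C0 : ℝ) (hC0 : 0 < C0) :
    ∃ C : ℝ, 0 < C ∧ ∀ A R : ℝ, 1 ≤ A → 0 ≤ R →
      ∀ T : Finset ((Fin 4 → ℤ) × (Fin 4 → ℤ)),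
        (∀ p ∈ T, IsRed C0 A p ∧ (sn p.1 : ℝ) ≤ R) → (T.card : ℝ) ≤ C * A ^ 2 * R ^ 2 := by
  obtain ⟨C1, hC1, hcl⟩ := card_class_le C0 hC0
  refine ⟨2 * C1, by positivity, ?_⟩
  intro A R hA hR T hT
  rcases T.eq_empty_or_nonempty with rfl | hne
  · simp only [Finset.card_empty, Nat.cast_zero]
    positivity
  set n0 := ⌊R⌋₊ with hn0
  have hn1 : 1 ≤ n0 := by
    obtain ⟨p, hp⟩ := hne
    obtain ⟨⟨h1, _⟩, h3⟩ := hT p hp
    have h2 := sn_pos p.1 h1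
    have h4 : sn p.1 ≤ n0 := Nat.le_floor h3
    omega
  set M := Nat.log 2 n0 with hM
  have hmaps : ∀ p ∈ T, Nat.log 2 (sn p.1) ∈ Finset.range (M + 1) := by
    intro p hp
    obtain ⟨_, h3⟩ := hT p hp
    rw [Finset.mem_range, Nat.lt_succ_iff]
    exact Nat.log_mono_right (Nat.le_floor h3)
  rw [Finset.card_eq_sum_card_fiberwise (f := fun p => Nat.log 2 (sn p.1)) (t := Finset.range (M + 1))
    (fun p hp => hmaps p hp)]
  push_cast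
  have hfib : ∀ k ∈ Finset.range (M + 1),
      (((T.filter (fun p => Nat.log 2 (sn p.1) = k)).card : ℕ) : ℝ) ≤
        C1 * A ^ 2 * ((2 : ℝ) ^ k) ^ 2 := by
    intro k _
    refine hcl A ((2 : ℝ) ^ k) hA (one_le_pow₀ (by norm_num)) _ ?_
    intro p hp
    rw [Finset.mem_filter] at hp
    obtain ⟨h1, h3⟩ := hT p hp.1
    have hpos : sn p.1 ≠ 0 := by
      have := sn_pos p.1 h1.1
      omega
    refine ⟨h1, ?_, ?_⟩
    · have := Nat.pow_log_le_self 2 hpos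
      rw [hp.2] at this
      exact_mod_cast this
    · have := Nat.lt_pow_succ_log_self (b := 2) (by norm_num) (sn p.1)
      rw [hp.2] at this
      have h4 : ((sn p.1 : ℕ) : ℝ) ≤ ((2 ^ (k + 1) : ℕ) : ℝ) := by exact_mod_cast this.le
      rw [pow_succ] at h4
      push_cast at h4
      linarith
  refine (Finset.sum_le_sum hfib).trans ?_
  have hsum : ∀ m : ℕ, ∑ k ∈ Finset.range (m + 1), C1 * A ^ 2 * ((2 : ℝ) ^ k) ^ 2 ≤
      2 * C1 * A ^ 2 * ((2 : ℝ) ^ m) ^ 2 := by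
    intro m
    induction m with
    | zero =>
      simp only [zero_add, Finset.range_one, Finset.sum_singleton, pow_zero, one_pow, mul_one]
      have : 0 ≤ C1 * A ^ 2 := by positivity
      linarith
    | succ m ih =>
      rw [Finset.sum_range_succ]
      have h2 : (0 : ℝ) ≤ C1 * A ^ 2 * ((2 : ℝ) ^ m) ^ 2 := by positivity
      have h3 : ((2 : ℝ) ^ (m + 1)) ^ 2 = 4 * ((2 : ℝ) ^ m) ^ 2 := by rw [pow_succ]; ring
      rw [h3]
      nlinarith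
  refine (hsum M).trans ?_
  have h4 : ((2 : ℝ) ^ M) ≤ R := by
    have h5 : 2 ^ M ≤ n0 := Nat.pow_log_le_self 2 (by omega)
    have h6 : ((2 ^ M : ℕ) : ℝ) ≤ (n0 : ℝ) := by exact_mod_cast h5
    have h7 : (n0 : ℝ) ≤ R := Nat.floor_le hR
    push_cast at h6
    linarith
  have h5 : 0 ≤ 2 * C1 * A ^ 2 := by positivity
  exact mul_le_mul_of_nonneg_left (pow_le_pow_left₀ (by positivity) h4 2) h5

/-- the same with `1 ≤ B` -/
theorem card_upto_le (C0 : ℝ) (hC0 : 0 < C0) :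
    ∃ C : ℝ, 0 < C ∧ ∀ A B : ℝ, 1 ≤ A → 1 ≤ B →
      ∀ T : Finset ((Fin 4 → ℤ) × (Fin 4 → ℤ)),
        (∀ p ∈ T, IsRed C0 A p ∧ (sn p.1 : ℝ) ≤ B) → (T.card : ℝ) ≤ C * A ^ 2 * B ^ 2 := by
  obtain ⟨C, h1, h2⟩ := card_le_of_sn_le C0 hC0
  exact ⟨C, h1, fun A B hA hB T hT => h2 A B hA (by linarith) T hT⟩

private lemma ClsB_ab (s t N : ℕ) (h1 : s ^ 3 ≤ 4 * N) (h2 : s * t ^ 2 ≤ 4 * N) :
    ((s * t : ℕ) : ℝ) ≤ (4 * (N : ℝ)) ^ (2 / 3 : ℝ) := by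
  have h3 : (s * t) ^ 6 ≤ (4 * N) ^ 4 := by
    calc (s * t) ^ 6 = s ^ 3 * (s * t ^ 2) ^ 3 := by ring
      _ ≤ (4 * N) * (4 * N) ^ 3 := Nat.mul_le_mul h1 (Nat.pow_le_pow_left h2 3)
      _ = (4 * N) ^ 4 := by ring
  have hN : (0 : ℝ) ≤ 4 * (N : ℝ) := by positivity
  have h4 : (((s * t : ℕ) : ℝ)) ^ 6 ≤ ((4 * (N : ℝ)) ^ (2 / 3 : ℝ)) ^ 6 := by
    have h5 : ((4 * (N : ℝ)) ^ (2 / 3 : ℝ)) ^ 6 = (4 * (N : ℝ)) ^ 4 := by
      rw [← Real.rpow_natCast, ← Real.rpow_mul hN, ← Real.rpow_natCast]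
      norm_num
    rw [h5]
    exact_mod_cast h3
  exact le_of_pow_le_pow_left₀ (by norm_num) (by positivity) h4

/-- one vector -/
private lemma ClsB_one (K A : ℝ) (hK : 1 ≤ K) (hA : 1 ≤ A) (x : Fin 4 → ℤ)
    (hx : ∀ i, |((x i : ℤ) : ℝ)| ≤ K * A) :
    ∃ (f1 f2 : Fin 4 → ℤ) (u v : ℤ), OnSlice f1 f2 x u v ∧ (∃ a b, Indep2 a b ∧ RBasis a b f1 f2) ∧
      1 ≤ sn f1 ∧ sn f1 ≤ 2 * sn f2 ∧ IsRed (40 * K) A (f1, f2) ∧
      (sn f1 : ℝ) ≤ 80 * K * A ^ (1 / 3 : ℝ) ∧ (sn f2 : ℝ) ≤ 40 * K * A ^ (2 / 3 : ℝ) ∧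
      |(u : ℝ)| * sn f1 ≤ 6 * K * A ∧ |(v : ℝ)| * sn f2 ≤ 6 * K * A := by
  classical
  have hA0 : 0 < A := by linarith
  have hKA : 1 ≤ K * A := by nlinarith
  set N : ℕ := ⌈K * A⌉₊ with hN
  have hN1 : 1 ≤ N := Nat.one_le_iff_ne_zero.2 (by
    have := Nat.ceil_pos.2 (by linarith : 0 < K * A)
    omega)
  have hN2 : (N : ℝ) ≤ 2 * (K * A) := by
    have := Nat.ceil_lt_add_one (by linarith : 0 ≤ K * A)
    linarith
  have hxN : ∀ i, (x i).natAbs ≤ N := by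
    intro i
    have h1 : (((x i).natAbs : ℕ) : ℝ) ≤ (N : ℝ) := by
      have h2 : (((x i).natAbs : ℕ) : ℝ) = |((x i : ℤ) : ℝ)| := by
        rw [← Int.cast_abs, Int.abs_eq_natAbs]; simp
      rw [h2]
      exact (hx i).trans (Nat.le_ceil _)
    exact_mod_cast h1
  obtain ⟨⟨a, b⟩, hp, hax, hbx⟩ := mem_slicePairs N hN1 x hxN
  unfold slicePairs at hp
  obtain ⟨_, ha0, hb0, hind, h3, h4⟩ := Finset.mem_filter.1 hp
  simp only at ha0 hb0 hind h3 h4 hax hbx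
  obtain ⟨f1, f2, hB⟩ := exists_rbasis a b hind
  obtain ⟨u, v, huv⟩ := hB.span x hax hbx
  have hf1 : 1 ≤ sn f1 := sn_pos f1 hB.ne1
  have hf2 : 1 ≤ sn f2 := sn_pos f2 hB.ne2
  have hsx : (sn x : ℝ) ≤ N := by
    have : sn x ≤ N := (sn_le_iff x N).2 hxN
    exact_mod_cast this
  have hab := ClsB_ab (sn a) (sn b) N h3 h4
  have hprod : (sn f1 : ℝ) * (sn f2 : ℝ) ≤ 40 * K * A ^ (2 / 3 : ℝ) := by
    have h5 := hB.sn_mul_le hind
    have h6 : (sn f1 : ℝ) * (sn f2 : ℝ) ≤ 5 * ((sn a * sn b : ℕ) : ℝ) := by exact_mod_cast h5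
    have h7 : (4 * (N : ℝ)) ^ (2 / 3 : ℝ) ≤ (8 * K * A) ^ (2 / 3 : ℝ) :=
      Real.rpow_le_rpow (by positivity) (by linarith) (by norm_num)
    have h8 : (8 * K * A) ^ (2 / 3 : ℝ) ≤ 8 * K * A ^ (2 / 3 : ℝ) := by
      rw [Real.mul_rpow (by positivity) hA0.le]
      refine mul_le_mul_of_nonneg_right ?_ (by positivity)
      calc (8 * K) ^ (2 / 3 : ℝ) ≤ (8 * K) ^ (1 : ℝ) :=
            Real.rpow_le_rpow_of_exponent_le (by linarith) (by norm_num)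
        _ = 8 * K := Real.rpow_one _
    linarith
  have hf1R : (1 : ℝ) ≤ sn f1 := by exact_mod_cast hf1
  have hf2R : (1 : ℝ) ≤ sn f2 := by exact_mod_cast hf2
  have h12 : (sn f1 : ℝ) ≤ 2 * sn f2 := by exact_mod_cast hB.sn_le
  refine ⟨f1, f2, u, v, ?_, ⟨a, b, hind, hB⟩, hf1, hB.sn_le, ⟨hB.ne1, hB.ne2, hprod, hB.red⟩,
    ?_, ?_, ?_, ?_⟩
  · intro i
    rw [huv]
    simp
  · have h9 : (sn f1 : ℝ) ^ 2 ≤ (80 * K * A ^ (1 / 3 : ℝ)) ^ 2 := by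
      have h10 : (A ^ (1 / 3 : ℝ)) ^ 2 = A ^ (2 / 3 : ℝ) := by
        rw [← Real.rpow_natCast, ← Real.rpow_mul hA0.le]
        norm_num
      rw [mul_pow, h10]
      have h11 : 0 ≤ A ^ (2 / 3 : ℝ) := by positivity
      have h12' : (sn f1 : ℝ) ^ 2 ≤ 2 * (sn f1 * sn f2) := by nlinarith
      have h13 : 80 * K * A ^ (2 / 3 : ℝ) ≤ (80 * K) ^ 2 * A ^ (2 / 3 : ℝ) := by
        refine mul_le_mul_of_nonneg_right ?_ h11
        nlinarith
      linarith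
    exact le_of_sq_le_sq h9 (by positivity)
  · have : (sn f2 : ℝ) ≤ sn f1 * sn f2 := by nlinarith
    linarith
  · have h9 := hB.size1 u v
    rw [← huv] at h9
    have h10 : |(u : ℝ)| * sn f1 ≤ 3 * sn x := by
      have h11 : ((u.natAbs : ℕ) : ℝ) = |(u : ℝ)| := by
        rw [← Int.cast_abs, Int.abs_eq_natAbs]; simp
      rw [← h11]
      exact_mod_cast h9
    linarith
  · have h9 := hB.size2 u v
    rw [← huv] at h9
    have h10 : |(v : ℝ)| * sn f2 ≤ 3 * sn x := by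
      have h11 : ((v.natAbs : ℕ) : ℝ) = |(v : ℝ)| := by
        rw [← Int.cast_abs, Int.abs_eq_natAbs]; simp
      rw [← h11]
      exact_mod_cast h9
    linarith

open Classical in
/-- **Slices with reduced bases, and their number in a class.** -/
theorem clsB_count (K : ℝ) (hK : 1 ≤ K) : ∃ C : ℝ, 1 ≤ C ∧ ∀ A : ℝ, 1 ≤ A →
    ∀ (S : Finset ℤ) (β : ℤ → Fin 4 → ℤ), (∀ n ∈ S, ∀ i, |((β n i : ℤ) : ℝ)| ≤ K * A) →
    ∃ (f1 f2 : ℤ → Fin 4 → ℤ) (u v : ℤ → ℤ),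
      (∀ n ∈ S, OnSlice (f1 n) (f2 n) (β n) (u n) (v n) ∧
        (∃ a b, Indep2 a b ∧ RBasis a b (f1 n) (f2 n)) ∧
        1 ≤ sn (f1 n) ∧ sn (f1 n) ≤ 2 * sn (f2 n) ∧
        (sn (f1 n) : ℝ) ≤ C * A ^ (1 / 3 : ℝ) ∧ (sn (f2 n) : ℝ) ≤ C * A ^ (2 / 3 : ℝ) ∧
        |(u n : ℝ)| * sn (f1 n) ≤ C * A ∧ |(v n : ℝ)| * sn (f2 n) ≤ C * A) ∧
      ∀ T ⊆ S, ∀ R M : ℝ, 0 ≤ R → 0 ≤ M → (∀ n ∈ T, (sn (f1 n) : ℝ) ≤ R) →
        (∀ n0 ∈ T, ((T.filter (fun n => f1 n = f1 n0 ∧ f2 n = f2 n0)).card : ℝ) ≤ M) →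
        (T.card : ℝ) ≤ C * A ^ 2 * R ^ 2 * M := by
  obtain ⟨C1, hC1, hcl⟩ := card_le_of_sn_le (40 * K) (by linarith)
  refine ⟨max (80 * K) C1, le_max_of_le_left (by linarith), ?_⟩
  intro A hA S β hβ
  have hA0 : 0 < A := by linarith
  choose! f1 f2 u v h1 h2 h3 h4 h5 h6 h7 h8 h9 using
    fun n (hn : n ∈ S) => ClsB_one K A hK hA (β n) (hβ n hn)
  have hC : 80 * K ≤ max (80 * K) C1 := le_max_left _ _
  have hmul : ∀ c B : ℝ, c ≤ 80 * K → 0 ≤ B → c * B ≤ max (80 * K) C1 * B := by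
    intro c B hc hB
    exact mul_le_mul_of_nonneg_right (hc.trans hC) hB
  refine ⟨f1, f2, u, v, ?_, ?_⟩
  · intro n hn
    refine ⟨h1 n hn, h2 n hn, h3 n hn, h4 n hn, ?_, ?_, ?_, ?_⟩
    · exact (h6 n hn).trans (hmul _ _ le_rfl (by positivity))
    · exact (h7 n hn).trans (hmul _ _ (by linarith) (by positivity))
    · exact (h8 n hn).trans (hmul _ _ (by linarith) hA0.le)
    · exact (h9 n hn).trans (hmul _ _ (by linarith) hA0.le)
  · intro T hTS R M hR hM0 hTR hM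
    have h10 : (((T.image (fun n => (f1 n, f2 n))).card : ℕ) : ℝ) ≤ C1 * A ^ 2 * R ^ 2 := by
      refine hcl A R hA hR _ ?_
      intro p hp
      obtain ⟨n, hn, rfl⟩ := Finset.mem_image.1 hp
      exact ⟨h5 n (hTS hn), hTR n hn⟩
    have h11 : (T.card : ℝ) ≤ (((T.image (fun n => (f1 n, f2 n))).card : ℕ) : ℝ) * M := by
      rw [Finset.card_eq_sum_card_image (fun n => (f1 n, f2 n)) T, ← nsmul_eq_mul]
      push_cast
      refine Finset.sum_le_card_nsmul _ _ _ ?_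
      intro p hp
      obtain ⟨n0, hn0, rfl⟩ := Finset.mem_image.1 hp
      refine le_trans (le_of_eq ?_) (hM n0 hn0)
      norm_cast
      refine congrArg Finset.card (Finset.filter_congr ?_)
      intro n _
      exact Prod.mk.injEq _ _ _ _ ▸ Iff.rfl
    refine h11.trans (mul_le_mul_of_nonneg_right (h10.trans ?_) hM0)
    have := mul_le_mul_of_nonneg_right (le_max_right (80 * K) C1)
      (by positivity : 0 ≤ A ^ 2 * R ^ 2)
    linarith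

end Pool.Agent.Lib.SQF
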