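import Pool.Agent.Lib.SQF.S2

/-!
# Range C: the trivial count over `β`
-/

set_option autoImplicit false

open Polynomial

namespace Pool.Agent.Lib.SQF

/-- Lagrange interpolation at the roots of `g`. -/
lemma lagr (g : ℤ[X]) (hg : g.Monic) (hirr : Irreducible g) :
    ∃ L : ℕ → ℂ → ℂ, ∀ A : ℤ[X], A.natDegree < g.natDegree → ∀ i, i < g.natDegree →
      ((A.coeff i : ℤ) : ℂ) = ∑ z ∈ (g.aroots ℂ).toFinset, L i z * aeval z A := by
  classical
  have hirrQ : Irreducible (g.map (Int.castRingHom ℚ)) :=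
    (IsPrimitive.Int.irreducible_iff_irreducible_map_cast hg.isPrimitive).mp hirr
  set s : Finset ℂ := (g.aroots ℂ).toFinset with hs
  have hmap : (g.map (Int.castRingHom ℚ)).map (algebraMap ℚ ℂ) = g.map (algebraMap ℤ ℂ) := by
    rw [Polynomial.map_map]
    congr 1
  have hnd : (g.aroots ℂ).Nodup := by
    have h1 := nodup_roots (hirrQ.separable.map (f := algebraMap ℚ ℂ))
    rw [hmap] at h1
    exact h1
  have hcard : s.card = g.natDegree := by
    rw [hs, Multiset.toFinset_card_of_nodup hnd]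
    have := (IsAlgClosed.splits (g.map (algebraMap ℤ ℂ))).natDegree_eq_card_roots
    rw [hg.natDegree_map] at this
    exact this.symm
  refine ⟨fun i z => (Lagrange.basis s id z).coeff i, ?_⟩
  intro A hA i _
  have hdeg : (A.map (algebraMap ℤ ℂ)).degree < s.card := by
    rw [hcard]
    refine lt_of_le_of_lt degree_map_le ?_
    rcases eq_or_ne A 0 with rfl | h0
    · rw [degree_zero]; exact WithBot.bot_lt_coe _
    · rw [degree_eq_natDegree h0]; exact_mod_cast hA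
  have h1 := Lagrange.eq_interpolate (s := s) (v := id) (Set.injOn_id _) hdeg
  have h2 : ((A.coeff i : ℤ) : ℂ) = (A.map (algebraMap ℤ ℂ)).coeff i := by
    rw [coeff_map]; rfl
  rw [h2, h1, Lagrange.interpolate_apply, finsetSum_coeff]
  refine Finset.sum_congr rfl ?_
  intro z _
  rw [coeff_C_mul, mul_comm]
  congr 1
  rw [id]
  exact eval_map_algebraMap _ _

/-- evaluation of the relation at a root -/
lemma rel_at_root (g A B : ℤ[X]) (m n : ℤ) (h : g ∣ A ^ 2 * B - C (m ^ 2) * (C n - X)) (z : ℂ)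
    (hz : aeval z g = 0) : (aeval z A) ^ 2 * aeval z B = (m : ℂ) ^ 2 * ((n : ℂ) - z) := by
  obtain ⟨Q, hQ⟩ := h
  have := congrArg (aeval z) hQ
  rw [map_mul, hz, zero_mul] at this
  simp only [map_sub, map_mul, map_pow, aeval_X, eq_intCast, map_intCast] at this
  linear_combination this

/-- the sign is determined by the closer one -/
lemma sign_close (w : ℂ) (t δ : ℝ) (ht : 1 / 2 ≤ t ^ 2) (ht0 : 0 < t)
    (h : ‖w ^ 2 - (t : ℂ) ^ 2‖ ≤ δ) :
    (‖w - t‖ ≤ ‖w + t‖ → ‖w - t‖ ≤ 2 * δ) ∧ (¬ ‖w - t‖ ≤ ‖w + t‖ → ‖w + t‖ ≤ 2 * δ) := by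
  have h1 : ‖w - t‖ * ‖w + t‖ ≤ δ := by
    rw [← norm_mul]
    have : (w - t) * (w + t) = w ^ 2 - (t : ℂ) ^ 2 := by ring
    rw [this]; exact h
  have h2 : 2 * t ≤ ‖w - t‖ + ‖w + t‖ := by
    have h3 : ‖(w + t) - (w - t)‖ ≤ ‖w + t‖ + ‖w - t‖ := norm_sub_le _ _
    have h4 : (w + t) - (w - t) = ((2 * t : ℝ) : ℂ) := by push_cast; ring
    rw [h4, Complex.norm_real, Real.norm_of_nonneg (by linarith)] at h3
    linarith
  have ht2 : 1 / 2 ≤ t := by nlinarith
  have a1 := norm_nonneg (w - t)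
  have a2 := norm_nonneg (w + t)
  constructor
  · intro h3
    have : 1 / 2 ≤ ‖w + t‖ := by linarith
    nlinarith
  · intro h3
    push Not at h3
    have : 1 / 2 ≤ ‖w - t‖ := by linarith
    nlinarith

/-- solutions with the same `β` and the same signs are nearly proportional -/
lemma pattern (g : ℤ[X]) (R : ℝ) (hR : 1 ≤ R)
    (hroot : ∀ z : ℂ, aeval z g = 0 → ‖z‖ ≤ R) (Y Hm : ℝ) (hY : 2 * R ≤ Y)
    (B : ℤ[X]) (m : ℤ) (hm : m ≠ 0) (n0 n n' : ℤ) (A0 A A' : ℤ[X])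
    (h0 : Y ≤ |(n0 : ℝ)| ∧ |(n0 : ℝ)| < 2 * Y) (h1 : Y ≤ |(n : ℝ)| ∧ |(n : ℝ)| < 2 * Y)
    (h1' : Y ≤ |(n' : ℝ)| ∧ |(n' : ℝ)| < 2 * Y)
    (hs : 0 < (n : ℝ) / n0) (hs' : 0 < (n' : ℝ) / n0)
    (g0 : g ∣ A0 ^ 2 * B - C (m ^ 2) * (C n0 - X)) (g1 : g ∣ A ^ 2 * B - C (m ^ 2) * (C n - X))
    (g1' : g ∣ A' ^ 2 * B - C (m ^ 2) * (C n' - X))
    (z : ℂ) (hz : aeval z g = 0) (hH : ‖aeval z A0‖ ≤ Hm)
    (hpat : (‖aeval z A / aeval z A0 - (Real.sqrt ((n : ℝ) / n0) : ℝ)‖ ≤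
        ‖aeval z A / aeval z A0 + (Real.sqrt ((n : ℝ) / n0) : ℝ)‖) ↔
      (‖aeval z A' / aeval z A0 - (Real.sqrt ((n' : ℝ) / n0) : ℝ)‖ ≤
        ‖aeval z A' / aeval z A0 + (Real.sqrt ((n' : ℝ) / n0) : ℝ)‖)) :
    ‖((Real.sqrt ((n' : ℝ) / n0) : ℝ) : ℂ) * aeval z A - ((Real.sqrt ((n : ℝ) / n0) : ℝ) : ℂ) * aeval z A'‖ ≤
      16 * R * Hm / Y := by
  have hY0 : 0 < Y := by linarith
  have hRz := hroot z hz
  have e0 := rel_at_root g A0 B m n0 g0 z hz
  -- nonvanishing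
  have hn0z : ‖(n0 : ℂ) - z‖ ≥ Y / 2 := by
    have h3 : ‖(n0 : ℂ)‖ ≤ ‖(n0 : ℂ) - z‖ + ‖z‖ := by
      have := norm_add_le ((n0 : ℂ) - z) z
      rwa [sub_add_cancel] at this
    rw [Complex.norm_intCast] at h3
    linarith [h0.1]
  have hn0z' : (n0 : ℂ) - z ≠ 0 := by
    intro h; rw [h, norm_zero] at hn0z; linarith
  have hmC : (m : ℂ) ≠ 0 := by exact_mod_cast hm
  have hA0 : aeval z A0 ≠ 0 := by
    intro h
    rw [h] at e0
    have : (m : ℂ) ^ 2 * ((n0 : ℂ) - z) = 0 := by rw [← e0]; ring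
    rcases mul_eq_zero.1 this with h' | h'
    · exact pow_ne_zero 2 hmC h'
    · exact hn0z' h'
  have hB : aeval z B ≠ 0 := by
    intro h
    rw [h] at e0
    have : (m : ℂ) ^ 2 * ((n0 : ℂ) - z) = 0 := by rw [← e0]; ring
    rcases mul_eq_zero.1 this with h' | h'
    · exact pow_ne_zero 2 hmC h'
    · exact hn0z' h'
  -- general estimate
  have key : ∀ (k : ℤ) (D : ℤ[X]), g ∣ D ^ 2 * B - C (m ^ 2) * (C k - X) →
      Y ≤ |(k : ℝ)| → |(k : ℝ)| < 2 * Y → 0 < (k : ℝ) / n0 →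
      1 / 2 ≤ (Real.sqrt ((k : ℝ) / n0)) ^ 2 ∧ (Real.sqrt ((k : ℝ) / n0)) ≤ 2 ∧
      ‖(aeval z D / aeval z A0) ^ 2 - ((Real.sqrt ((k : ℝ) / n0) : ℝ) : ℂ) ^ 2‖ ≤ 2 * R / Y := by
    intro k D hD hk1 hk2 hk3
    have hn0pos : 0 < |(n0 : ℝ)| := by linarith [h0.1]
    have hratio : (k : ℝ) / n0 = |(k : ℝ)| / |(n0 : ℝ)| := by
      rw [← abs_div, abs_of_pos hk3]
    have hsq : (Real.sqrt ((k : ℝ) / n0)) ^ 2 = (k : ℝ) / n0 := Real.sq_sqrt hk3.le
    refine ⟨?_, ?_, ?_⟩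
    · rw [hsq, hratio, div_le_div_iff₀ (by norm_num) hn0pos]
      linarith [h0.2]
    · have h5 : (k : ℝ) / n0 ≤ 2 := by
        rw [hratio, div_le_iff₀ hn0pos]
        linarith [h0.1]
      have := Real.sqrt_nonneg ((k : ℝ) / n0)
      nlinarith
    · have e1 := rel_at_root g D B m k hD z hz
      have hn0C : (n0 : ℂ) ≠ 0 := by
        intro h
        have : (n0 : ℝ) = 0 := by exact_mod_cast h
        rw [this, abs_zero] at hn0pos
        exact lt_irrefl _ hn0pos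
      have e2 : (aeval z D / aeval z A0) ^ 2 = ((k : ℂ) - z) / ((n0 : ℂ) - z) := by
        rw [div_pow, div_eq_div_iff (pow_ne_zero 2 hA0) hn0z']
        have : (aeval z D) ^ 2 * ((n0 : ℂ) - z) * (aeval z B * (m : ℂ) ^ 2) =
            ((k : ℂ) - z) * (aeval z A0) ^ 2 * (aeval z B * (m : ℂ) ^ 2) := by
          linear_combination ((n0 : ℂ) - z) * (m : ℂ) ^ 2 * e1 - ((k : ℂ) - z) * (m : ℂ) ^ 2 * e0
        exact mul_right_cancel₀ (mul_ne_zero hB (pow_ne_zero 2 hmC)) this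
      have e3 : ((Real.sqrt ((k : ℝ) / n0) : ℝ) : ℂ) ^ 2 = (k : ℂ) / n0 := by
        rw [← Complex.ofReal_pow, hsq]; push_cast; rfl
      have e4 : (aeval z D / aeval z A0) ^ 2 - ((Real.sqrt ((k : ℝ) / n0) : ℝ) : ℂ) ^ 2 =
          z * ((k : ℂ) - n0) / ((n0 : ℂ) * ((n0 : ℂ) - z)) := by
        rw [e2, e3, div_sub_div _ _ hn0z' hn0C]
        rw [div_eq_div_iff (mul_ne_zero hn0z' hn0C) (mul_ne_zero hn0C hn0z')]
        ring
      rw [e4, norm_div, norm_mul, norm_mul]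
      have h6 : ‖(k : ℂ) - n0‖ ≤ |(n0 : ℝ)| := by
        have : ((k : ℂ) - n0) = (((k : ℝ) - n0 : ℝ) : ℂ) := by push_cast; rfl
        rw [this, Complex.norm_real, Real.norm_eq_abs]
        have hsame : (k : ℝ) - n0 = ((k : ℝ) / n0 - 1) * n0 := by
          have : (n0 : ℝ) ≠ 0 := by
            intro h; rw [h, abs_zero] at hn0pos; exact lt_irrefl _ hn0pos
          field_simp
        rw [hsame, abs_mul]
        have : |(k : ℝ) / n0 - 1| ≤ 1 := by
          rw [abs_le]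
          have h7 : (k : ℝ) / n0 ≤ 2 := by
            rw [hratio, div_le_iff₀ hn0pos]
            linarith [h0.1]
          constructor <;> linarith
        calc |(k : ℝ) / n0 - 1| * |(n0 : ℝ)| ≤ 1 * |(n0 : ℝ)| :=
              mul_le_mul_of_nonneg_right this (abs_nonneg _)
          _ = _ := one_mul _
      rw [Complex.norm_intCast]
      rw [div_le_div_iff₀ (mul_pos hn0pos (by linarith)) hY0]
      have h8 : ‖z‖ * ‖(k : ℂ) - n0‖ ≤ R * |(n0 : ℝ)| :=
        mul_le_mul hRz h6 (norm_nonneg _) (by linarith)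
      calc ‖z‖ * ‖(k : ℂ) - n0‖ * Y ≤ R * |(n0 : ℝ)| * Y := mul_le_mul_of_nonneg_right h8 hY0.le
        _ = 2 * R * (|(n0 : ℝ)| * (Y / 2)) := by ring
        _ ≤ 2 * R * (|(n0 : ℝ)| * ‖(n0 : ℂ) - z‖) := by
            refine mul_le_mul_of_nonneg_left ?_ (by linarith)
            exact mul_le_mul_of_nonneg_left hn0z hn0pos.le
  obtain ⟨k1, k2, k3⟩ := key n A g1 h1.1 h1.2 hs
  obtain ⟨k1', k2', k3'⟩ := key n' A' g1' h1'.1 h1'.2 hs'
  set t : ℝ := Real.sqrt ((n : ℝ) / n0) with ht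
  set t' : ℝ := Real.sqrt ((n' : ℝ) / n0) with ht'
  have htp : 0 < t := Real.sqrt_pos.2 hs
  have htp' : 0 < t' := Real.sqrt_pos.2 hs'
  obtain ⟨c1, c2⟩ := sign_close (aeval z A / aeval z A0) t _ k1 htp k3
  obtain ⟨c1', c2'⟩ := sign_close (aeval z A' / aeval z A0) t' _ k1' htp' k3'
  set w := aeval z A / aeval z A0 with hw
  set w' := aeval z A' / aeval z A0 with hw'
  have hA : aeval z A = w * aeval z A0 := by rw [hw, div_mul_cancel₀ _ hA0]
  have hA' : aeval z A' = w' * aeval z A0 := by rw [hw', div_mul_cancel₀ _ hA0]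
  have hdiff : ‖(t' : ℂ) * w - (t : ℂ) * w'‖ ≤ 16 * R / Y := by
    by_cases hp : ‖w - t‖ ≤ ‖w + t‖
    · have b1 := c1 hp
      have b2 := c1' (hpat.1 hp)
      have : (t' : ℂ) * w - (t : ℂ) * w' = t' * (w - t) - t * (w' - t') := by ring
      rw [this]
      refine (norm_sub_le _ _).trans ?_
      rw [norm_mul, norm_mul, Complex.norm_real, Complex.norm_real, Real.norm_of_nonneg htp'.le,
        Real.norm_of_nonneg htp.le]
      have e1 : t' * ‖w - t‖ ≤ 2 * (2 * (2 * R / Y)) := mul_le_mul k2' b1 (norm_nonneg _) (by norm_num)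
      have e2 : t * ‖w' - t'‖ ≤ 2 * (2 * (2 * R / Y)) := mul_le_mul k2 b2 (norm_nonneg _) (by norm_num)
      calc t' * ‖w - t‖ + t * ‖w' - t'‖ ≤ 2 * (2 * (2 * R / Y)) + 2 * (2 * (2 * R / Y)) := add_le_add e1 e2
        _ = 16 * R / Y := by ring
    · have b1 := c2 hp
      have b2 := c2' (fun h => hp (hpat.2 h))
      have : (t' : ℂ) * w - (t : ℂ) * w' = t' * (w + t) - t * (w' + t') := by ring
      rw [this]
      refine (norm_sub_le _ _).trans ?_
      rw [norm_mul, norm_mul, Complex.norm_real, Complex.norm_real, Real.norm_of_nonneg htp'.le,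
        Real.norm_of_nonneg htp.le]
      have e1 : t' * ‖w + t‖ ≤ 2 * (2 * (2 * R / Y)) := mul_le_mul k2' b1 (norm_nonneg _) (by norm_num)
      have e2 : t * ‖w' + t'‖ ≤ 2 * (2 * (2 * R / Y)) := mul_le_mul k2 b2 (norm_nonneg _) (by norm_num)
      calc t' * ‖w + t‖ + t * ‖w' + t'‖ ≤ 2 * (2 * (2 * R / Y)) + 2 * (2 * (2 * R / Y)) := add_le_add e1 e2
        _ = 16 * R / Y := by ring
  rw [hA, hA']
  have : (t' : ℂ) * (w * aeval z A0) - (t : ℂ) * (w' * aeval z A0) =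
      ((t' : ℂ) * w - (t : ℂ) * w') * aeval z A0 := by ring
  rw [this, norm_mul]
  calc ‖(t' : ℂ) * w - (t : ℂ) * w'‖ * ‖aeval z A0‖ ≤ (16 * R / Y) * Hm :=
        mul_le_mul hdiff hH (norm_nonneg _) (by positivity)
    _ = 16 * R * Hm / Y := by ring

/-- a two by two minor of the coefficient vectors in terms of the values -/
lemma minor_bound (g : ℤ[X]) (L : ℕ → ℂ → ℂ)
    (hL : ∀ A : ℤ[X], A.natDegree < g.natDegree → ∀ i, i < g.natDegree →
      ((A.coeff i : ℤ) : ℂ) = ∑ z ∈ (g.aroots ℂ).toFinset, L i z * aeval z A)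
    (Λ : ℝ) (hΛ : ∀ i, i < g.natDegree → ∑ z ∈ (g.aroots ℂ).toFinset, ‖L i z‖ ≤ Λ)
    (A A' : ℤ[X]) (hA : A.natDegree < g.natDegree) (hA' : A'.natDegree < g.natDegree)
    (t t' Hm δ : ℝ) (ht' : 1 / 2 ≤ t') (hδ : 0 ≤ δ) (hHm : 0 ≤ Hm)
    (hb : ∀ z : ℂ, aeval z g = 0 → ‖aeval z A'‖ ≤ Hm)
    (hd : ∀ z : ℂ, aeval z g = 0 → ‖(t' : ℂ) * aeval z A - (t : ℂ) * aeval z A'‖ ≤ δ)
    (i j : ℕ) (hi : i < g.natDegree) (hj : j < g.natDegree) :
    |((A.coeff i * A'.coeff j - A.coeff j * A'.coeff i : ℤ) : ℝ)| ≤ Λ * Λ * (4 * Hm * δ) := by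
  classical
  set s := (g.aroots ℂ).toFinset with hs
  have hmem : ∀ z ∈ s, aeval z g = 0 := by
    intro z hz
    rw [hs, Multiset.mem_toFinset, mem_aroots] at hz
    exact hz.2
  have hΛ0 : 0 ≤ Λ := (Finset.sum_nonneg (fun _ _ => norm_nonneg _)).trans (hΛ i hi)
  have hX : ∀ z1 ∈ s, ∀ z2 ∈ s, ‖aeval z1 A * aeval z2 A' - aeval z2 A * aeval z1 A'‖ ≤ 4 * Hm * δ := by
    intro z1 h1 z2 h2
    have e : (t' : ℂ) * (aeval z1 A * aeval z2 A' - aeval z2 A * aeval z1 A') =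
        ((t' : ℂ) * aeval z1 A - (t : ℂ) * aeval z1 A') * aeval z2 A' -
        ((t' : ℂ) * aeval z2 A - (t : ℂ) * aeval z2 A') * aeval z1 A' := by ring
    have h3 : t' * ‖aeval z1 A * aeval z2 A' - aeval z2 A * aeval z1 A'‖ ≤ 2 * (δ * Hm) := by
      have h4 : t' * ‖aeval z1 A * aeval z2 A' - aeval z2 A * aeval z1 A'‖ =
          ‖(t' : ℂ) * (aeval z1 A * aeval z2 A' - aeval z2 A * aeval z1 A')‖ := by
        rw [norm_mul, Complex.norm_real, Real.norm_of_nonneg (by linarith)]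
      rw [h4, e]
      refine (norm_sub_le _ _).trans ?_
      rw [norm_mul, norm_mul]
      have a1 := mul_le_mul (hd z1 (hmem z1 h1)) (hb z2 (hmem z2 h2)) (norm_nonneg _) hδ
      have a2 := mul_le_mul (hd z2 (hmem z2 h2)) (hb z1 (hmem z1 h1)) (norm_nonneg _) hδ
      linarith
    have h5 := norm_nonneg (aeval z1 A * aeval z2 A' - aeval z2 A * aeval z1 A')
    nlinarith
  have hM : (((A.coeff i * A'.coeff j - A.coeff j * A'.coeff i : ℤ) : ℂ)) =
      ∑ z1 ∈ s, ∑ z2 ∈ s, L i z1 * L j z2 * (aeval z1 A * aeval z2 A' - aeval z2 A * aeval z1 A') := by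
    push_cast
    rw [hL A hA i hi, hL A' hA' j hj, hL A hA j hj, hL A' hA' i hi, Finset.sum_mul_sum,
      Finset.sum_mul_sum]
    rw [Finset.sum_comm (s := s) (t := s) (f := fun x y => L j x * aeval x A * (L i y * aeval y A'))]
    rw [← Finset.sum_sub_distrib]
    refine Finset.sum_congr rfl ?_
    intro z1 _
    rw [← Finset.sum_sub_distrib]
    refine Finset.sum_congr rfl ?_
    intro z2 _
    ring
  have hn : |((A.coeff i * A'.coeff j - A.coeff j * A'.coeff i : ℤ) : ℝ)| =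
      ‖(((A.coeff i * A'.coeff j - A.coeff j * A'.coeff i : ℤ) : ℂ))‖ := by
    rw [Complex.norm_intCast]
  rw [hn, hM]
  calc ‖∑ z1 ∈ s, ∑ z2 ∈ s, L i z1 * L j z2 * (aeval z1 A * aeval z2 A' - aeval z2 A * aeval z1 A')‖
      ≤ ∑ z1 ∈ s, ∑ z2 ∈ s, ‖L i z1‖ * ‖L j z2‖ * (4 * Hm * δ) := by
        refine (norm_sum_le _ _).trans (Finset.sum_le_sum ?_)
        intro z1 h1
        refine (norm_sum_le _ _).trans (Finset.sum_le_sum ?_)
        intro z2 h2
        rw [norm_mul, norm_mul]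
        exact mul_le_mul_of_nonneg_left (hX z1 h1 z2 h2) (by positivity)
    _ = (∑ z1 ∈ s, ‖L i z1‖) * (∑ z2 ∈ s, ‖L j z2‖) * (4 * Hm * δ) := by
        rw [Finset.sum_mul_sum, Finset.sum_mul]
        refine Finset.sum_congr rfl ?_
        intro z1 _
        rw [Finset.sum_mul]
    _ ≤ Λ * Λ * (4 * Hm * δ) := by
        refine mul_le_mul_of_nonneg_right ?_ (by positivity)
        exact mul_le_mul (hΛ i hi) (hΛ j hj) (Finset.sum_nonneg (fun _ _ => norm_nonneg _)) hΛ0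

/-- proportional coefficient vectors give the same `n` -/
lemma eq_of_minors (g : ℤ[X]) (hd : 2 ≤ g.natDegree) (B : ℤ[X]) (m : ℤ) (hm : m ≠ 0)
    (n n' : ℤ) (A A' : ℤ[X]) (hA : A.natDegree < g.natDegree) (hA' : A'.natDegree < g.natDegree)
    (g1 : g ∣ A ^ 2 * B - C (m ^ 2) * (C n - X)) (g1' : g ∣ A' ^ 2 * B - C (m ^ 2) * (C n' - X))
    (hminor : ∀ i j, i < g.natDegree → j < g.natDegree →
      A.coeff i * A'.coeff j - A.coeff j * A'.coeff i = 0) : n = n' := by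
  -- a nonzero linear polynomial is not divisible by `g`
  have hlin : ∀ a b : ℤ, g ∣ C a * X + C b → a = 0 ∧ b = 0 := by
    intro a b h
    by_contra hcon
    have hne : (C a * X + C b : ℤ[X]) ≠ 0 := by
      intro h0
      apply hcon
      have e1 := congrArg (fun q : ℤ[X] => q.coeff 1) h0
      have e2 := congrArg (fun q : ℤ[X] => q.coeff 0) h0
      simp only [coeff_add, coeff_C_mul, coeff_X_one, coeff_X_zero, mul_one, mul_zero, coeff_zero,
        coeff_C_zero, zero_add, coeff_C_succ (n := 0), add_zero] at e1 e2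
      exact ⟨e1, e2⟩
    have h1 := natDegree_le_of_dvd h hne
    have h2 : (C a * X + C b : ℤ[X]).natDegree ≤ 1 := natDegree_linear_le
    omega
  have hA0 : A ≠ 0 := by
    rintro rfl
    have h1 : g ∣ C (m ^ 2) * X + C (-(m ^ 2 * n)) := by
      have : C (m ^ 2) * X + C (-(m ^ 2 * n)) = (0 : ℤ[X]) ^ 2 * B - C (m ^ 2) * (C n - X) := by
        rw [C_neg, C_mul]; ring
      rw [this]; exact g1
    exact pow_ne_zero 2 hm (hlin _ _ h1).1
  obtain ⟨i, hi⟩ : ∃ i, A.coeff i ≠ 0 := by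
    by_contra hcon
    push Not at hcon
    exact hA0 (Polynomial.ext (by intro k; rw [hcon k, coeff_zero]))
  have hid : i < g.natDegree := by
    by_contra hcon
    exact hi (coeff_eq_zero_of_natDegree_lt (by omega))
  have hprop : C (A'.coeff i) * A = C (A.coeff i) * A' := by
    ext j
    rw [coeff_C_mul, coeff_C_mul]
    by_cases hj : j < g.natDegree
    · have := hminor i j hid hj
      linear_combination -this
    · rw [coeff_eq_zero_of_natDegree_lt (by omega : A.natDegree < j),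
        coeff_eq_zero_of_natDegree_lt (by omega : A'.natDegree < j), mul_zero, mul_zero]
  set a := A.coeff i with ha
  set a' := A'.coeff i with ha'
  have h2 : g ∣ C (m ^ 2 * (a ^ 2 - a' ^ 2)) * X + C (m ^ 2 * (a' ^ 2 * n - a ^ 2 * n')) := by
    have e : C (m ^ 2 * (a ^ 2 - a' ^ 2)) * X + C (m ^ 2 * (a' ^ 2 * n - a ^ 2 * n')) =
        C a ^ 2 * (A' ^ 2 * B - C (m ^ 2) * (C n' - X)) - C a' ^ 2 * (A ^ 2 * B - C (m ^ 2) * (C n - X)) := by
      have e1 : C a ^ 2 * (A' ^ 2 * B) = C a' ^ 2 * (A ^ 2 * B) := by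
        calc C a ^ 2 * (A' ^ 2 * B) = (C a * A') ^ 2 * B := by ring
          _ = (C a' * A) ^ 2 * B := by rw [hprop]
          _ = C a' ^ 2 * (A ^ 2 * B) := by ring
      simp only [C_mul, C_sub, C_pow]
      linear_combination -e1
    rw [e]
    exact dvd_sub (Dvd.dvd.mul_left g1' _) (Dvd.dvd.mul_left g1 _)
  obtain ⟨h3, h4⟩ := hlin _ _ h2
  have hm2 : m ^ 2 ≠ 0 := pow_ne_zero 2 hm
  have h5 : a ^ 2 = a' ^ 2 := by
    have := (mul_eq_zero.1 h3).resolve_left hm2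
    linarith
  have h6 : a' ^ 2 * n - a ^ 2 * n' = 0 := (mul_eq_zero.1 h4).resolve_left hm2
  rw [← h5] at h6
  have h7 : a ^ 2 * (n - n') = 0 := by linear_combination h6
  have h8 := (mul_eq_zero.1 h7).resolve_left (pow_ne_zero 2 hi)
  linarith

/-- the relation for a solution `n` with multiplier `A`, for given `β = B / m ^ 2` -/
def TRel (g B : ℤ[X]) (m : ℤ) (Y T : ℝ) (n : ℤ) (A : ℤ[X]) : Prop :=
  Y ≤ |(n : ℝ)| ∧ |(n : ℝ)| < 2 * Y ∧ A.natDegree < g.natDegree ∧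
    g ∣ A ^ 2 * B - C (m ^ 2) * (C n - X) ∧ ∀ z : ℂ, aeval z g = 0 → ‖aeval z A‖ ≤ T

/-- the sign pattern of a solution relative to a reference solution -/
noncomputable def pat (s : Finset ℂ) (fA : ℤ → ℤ[X]) (n0 n : ℤ) : Finset ℂ := by
  classical
  exact s.filter (fun z => ‖aeval z (fA n) / aeval z (fA n0) - (Real.sqrt ((n : ℝ) / n0) : ℝ)‖ ≤
        ‖aeval z (fA n) / aeval z (fA n0) + (Real.sqrt ((n : ℝ) / n0) : ℝ)‖)

lemma pat_subset (s : Finset ℂ) (fA : ℤ → ℤ[X]) (n0 n : ℤ) : pat s fA n0 n ⊆ s := by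
  classical
  unfold pat
  exact Finset.filter_subset _ _

/-- same sign and same pattern: nearly proportional -/
lemma pat_eq (g : ℤ[X]) (hg0 : g ≠ 0) (R : ℝ) (hR : 1 ≤ R)
    (hroot : ∀ z : ℂ, aeval z g = 0 → ‖z‖ ≤ R) (Y T : ℝ) (hY : 2 * R ≤ Y)
    (B : ℤ[X]) (m : ℤ) (hm : m ≠ 0) (fA : ℤ → ℤ[X]) (n0 n n' : ℤ)
    (h0 : TRel g B m Y T n0 (fA n0)) (h : TRel g B m Y T n (fA n)) (h' : TRel g B m Y T n' (fA n'))
    (hs : 0 < (n : ℝ) / n0) (hs' : 0 < (n' : ℝ) / n0)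
    (hp : pat (g.aroots ℂ).toFinset fA n0 n = pat (g.aroots ℂ).toFinset fA n0 n') :
    ∀ z : ℂ, aeval z g = 0 →
    ‖((Real.sqrt ((n' : ℝ) / n0) : ℝ) : ℂ) * aeval z (fA n) -
      ((Real.sqrt ((n : ℝ) / n0) : ℝ) : ℂ) * aeval z (fA n')‖ ≤ 16 * R * T / Y := by
  classical
  intro z hz
  have hzs : z ∈ (g.aroots ℂ).toFinset := by
    rw [Multiset.mem_toFinset, mem_aroots]; exact ⟨hg0, hz⟩
  refine pattern g R hR hroot Y T hY B m hm n0 n n' (fA n0) (fA n) (fA n') ⟨h0.1, h0.2.1⟩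
    ⟨h.1, h.2.1⟩ ⟨h'.1, h'.2.1⟩ hs hs' h0.2.2.2.1 h.2.2.2.1 h'.2.2.2.1 z hz (h0.2.2.2.2 z hz) ?_
  have h1 : (z ∈ pat (g.aroots ℂ).toFinset fA n0 n) ↔ (z ∈ pat (g.aroots ℂ).toFinset fA n0 n') := by
    rw [hp]
  unfold pat at h1
  rw [Finset.mem_filter, Finset.mem_filter] at h1
  constructor
  · intro h2
    exact (h1.1 ⟨hzs, h2⟩).2
  · intro h2
    exact (h1.2 ⟨hzs, h2⟩).2

/-- splitting by sign -/
lemma sign_split (S : Finset ℤ) (N : ℕ) (Y : ℝ) (hY : 0 < Y) (hS : ∀ n ∈ S, Y ≤ |(n : ℝ)|)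
    (h : ∀ S' ⊆ S, (∀ n ∈ S', ∀ n' ∈ S', 0 < (n : ℝ) / n') → S'.card ≤ N) : S.card ≤ 2 * N := by
  classical
  have h1 := h (S.filter (fun n => 0 < n)) (Finset.filter_subset _ _) (by
    intro n hn n' hn'
    rw [Finset.mem_filter] at hn hn'
    have a : (0 : ℝ) < n := by exact_mod_cast hn.2
    have b : (0 : ℝ) < n' := by exact_mod_cast hn'.2
    positivity)
  have h2 := h (S.filter (fun n => ¬ 0 < n)) (Finset.filter_subset _ _) (by
    intro n hn n' hn'
    rw [Finset.mem_filter] at hn hn'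
    have key : ∀ k ∈ S, ¬ 0 < k → (k : ℝ) < 0 := by
      intro k hk hk2
      have h3 : (k : ℝ) ≤ 0 := by exact_mod_cast (not_lt.1 hk2)
      rcases lt_or_eq_of_le h3 with h4 | h4
      · exact h4
      · have := hS k hk
        rw [h4, abs_zero] at this
        linarith
    exact div_pos_of_neg_of_neg (key n hn.1 hn.2) (key n' hn'.1 hn'.2))
  have h3 := Finset.card_filter_add_card_filter_not (s := S) (fun n => 0 < n)
  omega

/-- constants attached to `g` -/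
lemma consts (g : ℤ[X]) (hg : g.Monic) (hirr : Irreducible g) :
    ∃ (R Λ : ℝ) (L : ℕ → ℂ → ℂ), 1 ≤ R ∧ 0 ≤ Λ ∧ (∀ z : ℂ, aeval z g = 0 → ‖z‖ ≤ R) ∧
      (∀ A : ℤ[X], A.natDegree < g.natDegree → ∀ i, i < g.natDegree →
      ((A.coeff i : ℤ) : ℂ) = ∑ z ∈ (g.aroots ℂ).toFinset, L i z * aeval z A) ∧
      (∀ i, i < g.natDegree → ∑ z ∈ (g.aroots ℂ).toFinset, ‖L i z‖ ≤ Λ) ∧
      (g.aroots ℂ).toFinset.card ≤ g.natDegree := by
  classical
  obtain ⟨R, hR, hroot⟩ := root_bound g hg.ne_zero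
  obtain ⟨L, hL⟩ := lagr g hg hirr
  refine ⟨R, ∑ i ∈ Finset.range g.natDegree, ∑ z ∈ (g.aroots ℂ).toFinset, ‖L i z‖, L, hR, ?_, hroot,
    hL, ?_, ?_⟩
  · exact Finset.sum_nonneg (fun _ _ => Finset.sum_nonneg (fun _ _ => norm_nonneg _))
  · intro i hi
    exact Finset.single_le_sum (f := fun i => ∑ z ∈ (g.aroots ℂ).toFinset, ‖L i z‖)
      (fun _ _ => Finset.sum_nonneg (fun _ _ => norm_nonneg _)) (Finset.mem_range.2 hi)
  · refine (Multiset.toFinset_card_le _).trans ?_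
    have := (IsAlgClosed.splits (g.map (algebraMap ℤ ℂ))).natDegree_eq_card_roots
    rw [hg.natDegree_map] at this
    exact this.symm.le

/-- few solutions for a fixed `β`, when `T ^ 2` is small against `Y` -/
lemma fixed_beta (g : ℤ[X]) (hg : g.Monic) (hirr : Irreducible g) (hd : 2 ≤ g.natDegree) :
    ∃ K2 : ℝ, 1 ≤ K2 ∧ ∀ Y T : ℝ, K2 ≤ Y → 0 ≤ T → K2 * T ^ 2 ≤ Y → ∀ (B : ℤ[X]) (m : ℤ), m ≠ 0 →
      ∀ S : Finset ℤ, (∀ n ∈ S, ∃ A : ℤ[X], TRel g B m Y T n A) → S.card ≤ 2 * 2 ^ g.natDegree := by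
  classical
  obtain ⟨R, Λ, L, hR, hΛ0, hroot, hL, hΛ, hcard⟩ := consts g hg hirr
  refine ⟨2 * R + 64 * R * Λ ^ 2 + 1, by nlinarith [mul_nonneg (by linarith : (0:ℝ) ≤ R) (sq_nonneg Λ)],
    ?_⟩
  intro Y T hY hT hTY B m hm S hS
  have hRΛ : 0 ≤ R * Λ ^ 2 := mul_nonneg (by linarith) (sq_nonneg Λ)
  have hYR : 2 * R ≤ Y := by nlinarith
  have hY0 : 0 < Y := by linarith
  have hex : ∀ n, ∃ A : ℤ[X], n ∈ S → TRel g B m Y T n A := by
    intro n
    by_cases hn : n ∈ S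
    · obtain ⟨A, hA⟩ := hS n hn
      exact ⟨A, fun _ => hA⟩
    · exact ⟨0, fun h => absurd h hn⟩
  choose fA hfA using hex
  refine sign_split S (2 ^ g.natDegree) Y hY0 (fun n hn => (hfA n hn).1) ?_
  intro S' hS' hsign
  rcases S'.eq_empty_or_nonempty with rfl | ⟨n0, hn0⟩
  · simp
  have h0 := hfA n0 (hS' hn0)
  have h1 : S'.card ≤ ((g.aroots ℂ).toFinset.powerset).card := by
    refine Finset.card_le_card_of_injOn (pat (g.aroots ℂ).toFinset fA n0) ?_ ?_
    · intro n _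
      rw [Finset.mem_coe, Finset.mem_powerset]
      exact pat_subset _ _ _ _
    · intro n hn n' hn' hp
      rw [Finset.mem_coe] at hn hn'
      have r1 := hfA n (hS' hn)
      have r2 := hfA n' (hS' hn')
      have hs := hsign n hn n0 hn0
      have hs' := hsign n' hn' n0 hn0
      have hclose := pat_eq g hg.ne_zero R hR hroot Y T hYR B m hm fA n0 n n' h0 r1 r2 hs hs' hp
      refine eq_of_minors g hd B m hm n n' (fA n) (fA n') r1.2.2.1 r2.2.2.1 r1.2.2.2.1 r2.2.2.2.1 ?_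
      intro i j hi hj
      have ht' : 1 / 2 ≤ Real.sqrt ((n' : ℝ) / n0) := by
        have hn0pos : 0 < |(n0 : ℝ)| := by linarith [h0.1]
        have hratio : (n' : ℝ) / n0 = |(n' : ℝ)| / |(n0 : ℝ)| := by
          rw [← abs_div, abs_of_pos hs']
        have h5 : 1 / 2 ≤ (n' : ℝ) / n0 := by
          rw [hratio, div_le_div_iff₀ (by norm_num) hn0pos]
          linarith [h0.2.1, r2.1]
        apply Real.le_sqrt_of_sq_le
        linarith
      have hb := minor_bound g L hL Λ hΛ (fA n) (fA n') r1.2.2.1 r2.2.2.1 (Real.sqrt ((n : ℝ) / n0))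
        (Real.sqrt ((n' : ℝ) / n0)) T (16 * R * T / Y) ht' (by positivity) hT r2.2.2.2.2 hclose i j hi hj
      have h6 : Λ * Λ * (4 * T * (16 * R * T / Y)) < 1 := by
        have e : Λ * Λ * (4 * T * (16 * R * T / Y)) = 64 * (R * Λ ^ 2) * T ^ 2 / Y := by
          field_simp; ring
        rw [e, div_lt_one hY0]
        rcases eq_or_lt_of_le hT with h | h
        · rw [← h]; simpa using hY0
        · have : 0 < T ^ 2 := by positivity
          nlinarith
      have h7 : |((fA n).coeff i * (fA n').coeff j - (fA n).coeff j * (fA n').coeff i : ℤ)| < 1 := by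
        have h8 := lt_of_le_of_lt hb h6
        have : ((|((fA n).coeff i * (fA n').coeff j - (fA n).coeff j * (fA n').coeff i : ℤ)| : ℤ) : ℝ) < 1 := by
          rw [Int.cast_abs]; exact h8
        exact_mod_cast this
      exact Int.abs_lt_one_iff.1 h7
  rw [Finset.card_powerset] at h1
  exact h1.trans (Nat.pow_le_pow_right (by norm_num) hcard)

/-- `≪ T` solutions for a fixed `β`, always -/
lemma fixed_beta_H (g : ℤ[X]) (hg : g.Monic) (hirr : Irreducible g) :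
    ∃ K2 : ℝ, 1 ≤ K2 ∧ ∀ Y T U : ℝ, K2 ≤ Y → 0 < U → 0 ≤ T → ∀ (B : ℤ[X]) (m : ℤ), m ≠ 0 →
      ∀ S : Finset ℤ, (∀ n ∈ S, ∃ A : ℤ[X], TRel g B m Y T n A ∧
        ∃ i, i < g.natDegree ∧ U ≤ |((A.coeff i : ℤ) : ℝ)|) →
      (S.card : ℝ) ≤ K2 * (T + 1) * (T / U + 1) := by
  classical
  obtain ⟨R, Λ, L, hR, hΛ0, hroot, hL, hΛ, hcard⟩ := consts g hg hirr
  set d := g.natDegree with hdd
  refine ⟨2 * R + 2 * 2 ^ d * (d * (2 * Λ + 1)) * (256 * R * Λ + 1), by
    have : 0 ≤ 2 * 2 ^ d * (d * (2 * Λ + 1)) * (256 * R * Λ + 1) := by positivity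
    linarith, ?_⟩
  intro Y T U hY hU hT B m hm S hS
  have hYR : 2 * R ≤ Y := by
    have : 0 ≤ 2 * 2 ^ d * (d * (2 * Λ + 1)) * (256 * R * Λ + 1) := by positivity
    linarith
  have hY0 : 0 < Y := by linarith
  have hex : ∀ n, ∃ A : ℤ[X], n ∈ S → (TRel g B m Y T n A ∧
      ∃ i, i < d ∧ U ≤ |((A.coeff i : ℤ) : ℝ)|) := by
    intro n
    by_cases hn : n ∈ S
    · obtain ⟨A, hA⟩ := hS n hn
      exact ⟨A, fun _ => hA⟩
    · exact ⟨0, fun h => absurd h hn⟩
  choose fA hfA using hex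
  have hexi : ∀ n, ∃ i, n ∈ S → (i < d ∧ U ≤ |(((fA n).coeff i : ℤ) : ℝ)|) := by
    intro n
    by_cases hn : n ∈ S
    · obtain ⟨i, hi⟩ := (hfA n hn).2
      exact ⟨i, fun _ => hi⟩
    · exact ⟨0, fun h => absurd h hn⟩
  choose fi hfi using hexi
  have hcoef : ∀ n ∈ S, |(((fA n).coeff (fi n) : ℤ) : ℝ)| ≤ Λ * T := by
    intro n hn
    have r := (hfA n hn).1
    have hi := (hfi n hn).1
    have e1 : |(((fA n).coeff (fi n) : ℤ) : ℝ)| = ‖((((fA n).coeff (fi n) : ℤ)) : ℂ)‖ := by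
      rw [Complex.norm_intCast]
    rw [e1, hL (fA n) r.2.2.1 (fi n) hi]
    calc ‖∑ z ∈ (g.aroots ℂ).toFinset, L (fi n) z * aeval z (fA n)‖
        ≤ ∑ z ∈ (g.aroots ℂ).toFinset, ‖L (fi n) z‖ * T := by
          refine (norm_sum_le _ _).trans (Finset.sum_le_sum ?_)
          intro z hz
          rw [norm_mul]
          rw [Multiset.mem_toFinset, mem_aroots] at hz
          exact mul_le_mul_of_nonneg_left (r.2.2.2.2 z hz.2) (norm_nonneg _)
      _ = (∑ z ∈ (g.aroots ℂ).toFinset, ‖L (fi n) z‖) * T := by rw [Finset.sum_mul]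
      _ ≤ Λ * T := mul_le_mul_of_nonneg_right (hΛ _ hi) hT
  set Cst : ℝ := 128 * R * Λ * T / U with hCst
  have hCst0 : 0 ≤ Cst := by positivity
  set F : ℤ := ⌊Λ * T⌋ with hF
  have hF0 : 0 ≤ F := Int.floor_nonneg.2 (by positivity)
  set G : ℤ := ⌊Cst⌋ with hG
  have hG0 : 0 ≤ G := Int.floor_nonneg.2 hCst0
  -- one sign class
  have hclass : ∀ S' ⊆ S, (∀ n ∈ S', ∀ n' ∈ S', 0 < (n : ℝ) / n') →
      S'.card ≤ (2 * G.toNat + 1) * (2 ^ d * (d * (2 * F.toNat + 1))) := by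
    intro S' hS' hsign
    rcases S'.eq_empty_or_nonempty with rfl | ⟨n0, hn0⟩
    · simp
    have h0 := (hfA n0 (hS' hn0)).1
    have hn0pos : 0 < |(n0 : ℝ)| := by linarith [h0.1]
    set tgt : Finset (Finset ℂ × ℕ × ℤ) := ((g.aroots ℂ).toFinset.powerset) ×ˢ
      ((Finset.range d) ×ˢ (Finset.Icc (-F) F)) with htgt
    have hmaps : ∀ n ∈ S', (pat (g.aroots ℂ).toFinset fA n0 n, fi n, (fA n).coeff (fi n)) ∈ tgt := by
      intro n hn
      rw [htgt, Finset.mem_product, Finset.mem_product, Finset.mem_powerset, Finset.mem_range,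
        Finset.mem_Icc]
      refine ⟨pat_subset _ _ _ _, (hfi n (hS' hn)).1, ?_⟩
      have h3 := hcoef n (hS' hn)
      have h4 : |(fA n).coeff (fi n)| ≤ F := by
        rw [hF]
        apply Int.le_floor.2
        rw [Int.cast_abs]; exact h3
      exact abs_le.1 h4
    have hfib : ∀ b ∈ tgt, (S'.filter (fun n =>
        (pat (g.aroots ℂ).toFinset fA n0 n, fi n, (fA n).coeff (fi n)) = b)).card ≤ 2 * G.toNat + 1 := by
      intro b _
      set S'' := S'.filter (fun n =>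
        (pat (g.aroots ℂ).toFinset fA n0 n, fi n, (fA n).coeff (fi n)) = b) with hS''
      rcases S''.eq_empty_or_nonempty with h | ⟨n1, hn1⟩
      · rw [h]; simp
      have hsub : S'' ⊆ Finset.Icc (n1 - G) (n1 + G) := by
        intro n hn
        rw [hS'', Finset.mem_filter] at hn hn1
        have e := hn.2.trans hn1.2.symm
        have ep : pat (g.aroots ℂ).toFinset fA n0 n = pat (g.aroots ℂ).toFinset fA n0 n1 :=
          congrArg Prod.fst e
        have ei : fi n = fi n1 := congrArg (fun q => q.2.1) e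
        have ea : (fA n).coeff (fi n) = (fA n1).coeff (fi n1) := congrArg (fun q => q.2.2) e
        have r1 := (hfA n (hS' hn.1)).1
        have r2 := (hfA n1 (hS' hn1.1)).1
        have hs := hsign n hn.1 n0 hn0
        have hs' := hsign n1 hn1.1 n0 hn0
        have hclose := pat_eq g hg.ne_zero R hR hroot Y T hYR B m hm fA n0 n n1 h0 r1 r2 hs hs' ep
        set t := Real.sqrt ((n : ℝ) / n0) with ht
        set t' := Real.sqrt ((n1 : ℝ) / n0) with ht'
        have hi := (hfi n1 (hS' hn1.1)).1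
        -- the coefficient
        have h5 : ‖((t' : ℂ) - t) * ((fA n1).coeff (fi n1) : ℤ)‖ ≤ Λ * (16 * R * T / Y) := by
          have e2 : ((t' : ℂ) - t) * ((fA n1).coeff (fi n1) : ℤ) =
              ∑ z ∈ (g.aroots ℂ).toFinset, L (fi n1) z *
                ((t' : ℂ) * aeval z (fA n) - (t : ℂ) * aeval z (fA n1)) := by
            have q1 := hL (fA n) r1.2.2.1 (fi n1) hi
            have q2 := hL (fA n1) r2.2.2.1 (fi n1) hi
            have q3 : ((fA n).coeff (fi n1) : ℤ) = (fA n1).coeff (fi n1) := by rw [← ea, ei]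
            have : ∑ z ∈ (g.aroots ℂ).toFinset, L (fi n1) z *
                ((t' : ℂ) * aeval z (fA n) - (t : ℂ) * aeval z (fA n1)) =
                (t' : ℂ) * (∑ z ∈ (g.aroots ℂ).toFinset, L (fi n1) z * aeval z (fA n)) -
                (t : ℂ) * (∑ z ∈ (g.aroots ℂ).toFinset, L (fi n1) z * aeval z (fA n1)) := by
              rw [Finset.mul_sum, Finset.mul_sum, ← Finset.sum_sub_distrib]
              refine Finset.sum_congr rfl ?_
              intro z _; ring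
            rw [this, ← q1, ← q2, q3]
            ring
          rw [e2]
          calc ‖∑ z ∈ (g.aroots ℂ).toFinset, L (fi n1) z *
                ((t' : ℂ) * aeval z (fA n) - (t : ℂ) * aeval z (fA n1))‖
              ≤ ∑ z ∈ (g.aroots ℂ).toFinset, ‖L (fi n1) z‖ * (16 * R * T / Y) := by
                refine (norm_sum_le _ _).trans (Finset.sum_le_sum ?_)
                intro z hz
                rw [norm_mul]
                rw [Multiset.mem_toFinset, mem_aroots] at hz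
                exact mul_le_mul_of_nonneg_left (hclose z hz.2) (norm_nonneg _)
            _ = (∑ z ∈ (g.aroots ℂ).toFinset, ‖L (fi n1) z‖) * (16 * R * T / Y) := by rw [Finset.sum_mul]
            _ ≤ Λ * (16 * R * T / Y) := mul_le_mul_of_nonneg_right (hΛ _ hi) (by positivity)
        have h6 : |t' - t| * U ≤ Λ * (16 * R * T / Y) := by
          rw [norm_mul, Complex.norm_intCast] at h5
          have e3 : ‖(t' : ℂ) - t‖ = |t' - t| := by
            rw [← Complex.ofReal_sub, Complex.norm_real, Real.norm_eq_abs]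
          rw [e3] at h5
          refine le_trans ?_ h5
          exact mul_le_mul_of_nonneg_left (hfi n1 (hS' hn1.1)).2 (abs_nonneg _)
        have hsq : t ^ 2 = (n : ℝ) / n0 := Real.sq_sqrt hs.le
        have hsq' : t' ^ 2 = (n1 : ℝ) / n0 := Real.sq_sqrt hs'.le
        have hbd : ∀ k : ℤ, |(k : ℝ)| < 2 * Y → 0 < (k : ℝ) / n0 → Real.sqrt ((k : ℝ) / n0) ≤ 2 := by
          intro k hk hk0
          have h5 : (k : ℝ) / n0 ≤ 2 := by
            have hratio : (k : ℝ) / n0 = |(k : ℝ)| / |(n0 : ℝ)| := by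
              rw [← abs_div, abs_of_pos hk0]
            rw [hratio, div_le_iff₀ hn0pos]
            linarith [h0.1]
          have h6 := Real.sqrt_nonneg ((k : ℝ) / n0)
          have h7 : (Real.sqrt ((k : ℝ) / n0)) ^ 2 = (k : ℝ) / n0 := Real.sq_sqrt hk0.le
          nlinarith
        have ht2 : t ≤ 2 := hbd n r1.2.1 hs
        have ht2' : t' ≤ 2 := hbd n1 r2.2.1 hs'
        have htn : 0 ≤ t := Real.sqrt_nonneg _
        have htn' : 0 ≤ t' := Real.sqrt_nonneg _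
        have h8 : |(n : ℝ) - n1| ≤ Cst := by
          have hn0ne : (n0 : ℝ) ≠ 0 := by
            intro h; rw [h, abs_zero] at hn0pos; exact lt_irrefl _ hn0pos
          have e4 : (n : ℝ) - n1 = -((t' - t) * (t + t') * n0) := by
            have a1 : (n : ℝ) = t ^ 2 * n0 := by rw [hsq]; field_simp
            have a2 : (n1 : ℝ) = t' ^ 2 * n0 := by rw [hsq']; field_simp
            rw [a1, a2]; ring
          rw [e4, abs_neg, abs_mul, abs_mul, abs_of_nonneg (by linarith : 0 ≤ t + t')]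
          have a3 : |t' - t| ≤ Λ * (16 * R * T / Y) / U := by
            rw [le_div_iff₀ hU]; exact h6
          calc |t' - t| * (t + t') * |(n0 : ℝ)| ≤ (Λ * (16 * R * T / Y) / U) * 4 * (2 * Y) := by
                apply mul_le_mul _ h0.2.1.le (abs_nonneg _) (by positivity)
                apply mul_le_mul a3 (by linarith) (by linarith) (by positivity)
            _ = Cst := by rw [hCst]; field_simp; ring
        have h9 : |n - n1| ≤ G := by
          rw [hG]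
          apply Int.le_floor.2
          push_cast
          exact h8
        rw [Finset.mem_Icc]
        have := abs_le.1 h9
        constructor <;> linarith [this.1, this.2]
      have := Finset.card_le_card hsub
      rw [Int.card_Icc] at this
      omega
    have h10 := Finset.card_le_mul_card_image_of_maps_to hmaps (2 * G.toNat + 1) hfib
    refine h10.trans (Nat.mul_le_mul_left _ ?_)
    rw [htgt, Finset.card_product, Finset.card_product, Finset.card_powerset, Finset.card_range,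
      Int.card_Icc]
    refine Nat.mul_le_mul (Nat.pow_le_pow_right (by norm_num) hcard) (Nat.mul_le_mul_left _ ?_)
    omega
  have hfin := sign_split S _ Y hY0 (fun n hn => (hfA n hn).1.1) hclass
  have h11 : (S.card : ℝ) ≤ 2 * ((2 * (G.toNat : ℝ) + 1) * (2 ^ d * (d * (2 * (F.toNat : ℝ) + 1)))) := by
    exact_mod_cast hfin
  have hGr : ((G.toNat : ℕ) : ℝ) ≤ Cst := by
    have : ((G.toNat : ℤ) : ℝ) = (G : ℝ) := by rw [Int.toNat_of_nonneg hG0]
    have h12 : ((G.toNat : ℕ) : ℝ) = (G : ℝ) := by rw [← this]; norm_cast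
    rw [h12, hG]; exact Int.floor_le _
  have hFr : ((F.toNat : ℕ) : ℝ) ≤ Λ * T := by
    have : ((F.toNat : ℤ) : ℝ) = (F : ℝ) := by rw [Int.toNat_of_nonneg hF0]
    have h12 : ((F.toNat : ℕ) : ℝ) = (F : ℝ) := by rw [← this]; norm_cast
    rw [h12, hF]; exact Int.floor_le _
  have hTU : 0 ≤ T / U := by positivity
  have b1 : 2 * (G.toNat : ℝ) + 1 ≤ (256 * R * Λ + 1) * (T / U + 1) := by
    have e5 : Cst = 128 * R * Λ * (T / U) := by rw [hCst]; ring
    have : 0 ≤ R * Λ := mul_nonneg (by linarith) hΛ0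
    nlinarith
  have b2 : 2 * (F.toNat : ℝ) + 1 ≤ (2 * Λ + 1) * (T + 1) := by nlinarith
  calc (S.card : ℝ) ≤ 2 * ((2 * (G.toNat : ℝ) + 1) * (2 ^ d * (d * (2 * (F.toNat : ℝ) + 1)))) := h11
    _ ≤ 2 * (((256 * R * Λ + 1) * (T / U + 1)) * (2 ^ d * (d * ((2 * Λ + 1) * (T + 1))))) := by
        gcongr
    _ = (2 * 2 ^ d * (d * (2 * Λ + 1)) * (256 * R * Λ + 1)) * (T + 1) * (T / U + 1) := by ring
    _ ≤ _ := by
        have : 0 ≤ (T + 1) * (T / U + 1) := by positivity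
        nlinarith

/-- counting over the pairs `(B, m)` -/
lemma beta_count (S : Finset ℤ) (d : ℕ) (fB : ℤ → ℤ[X]) (fm : ℤ → ℤ) (b K : ℤ) (hb : 0 ≤ b)
    (hK : 0 ≤ K) (N1 : ℕ)
    (h : ∀ n ∈ S, (fB n).natDegree < d ∧ (∀ i, |(fB n).coeff i| ≤ b) ∧ |fm n| ≤ K)
    (hN : ∀ n0 ∈ S, (S.filter (fun n => fB n = fB n0 ∧ fm n = fm n0)).card ≤ N1) :
    S.card ≤ N1 * ((2 * b.toNat + 1) ^ d * (2 * K.toNat + 1)) := by
  classical
  set f : ℤ → (Fin d → ℤ) × ℤ := fun n => (fun i => (fB n).coeff i, fm n) with hf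
  set tgt : Finset ((Fin d → ℤ) × ℤ) :=
    (Fintype.piFinset (fun _ : Fin d => Finset.Icc (-b) b)) ×ˢ (Finset.Icc (-K) K) with htgt
  have hmaps : ∀ n ∈ S, f n ∈ tgt := by
    intro n hn
    obtain ⟨_, h2, h3⟩ := h n hn
    rw [htgt, Finset.mem_product, Fintype.mem_piFinset]
    refine ⟨fun i => ?_, ?_⟩
    · rw [Finset.mem_Icc]; exact abs_le.1 (h2 i)
    · rw [Finset.mem_Icc]; exact abs_le.1 h3
  have hfib : ∀ c ∈ tgt, (S.filter (fun n => f n = c)).card ≤ N1 := by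
    intro c _
    rcases (S.filter (fun n => f n = c)).eq_empty_or_nonempty with h0 | ⟨n0, hn0⟩
    · rw [h0]; simp
    refine le_trans (Finset.card_le_card ?_) (hN n0 (Finset.mem_filter.1 hn0).1)
    intro n hn
    rw [Finset.mem_filter] at hn hn0 ⊢
    have e := hn.2.trans hn0.2.symm
    refine ⟨hn.1, ?_, congrArg Prod.snd e⟩
    have e1 := congrArg Prod.fst e
    ext i
    by_cases hi : i < d
    · exact congrFun e1 ⟨i, hi⟩
    · rw [coeff_eq_zero_of_natDegree_lt (by have := (h n hn.1).1; omega),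
        coeff_eq_zero_of_natDegree_lt (by have := (h n0 hn0.1).1; omega)]
  have h1 := Finset.card_le_mul_card_image_of_maps_to hmaps N1 hfib
  refine h1.trans (Nat.mul_le_mul_left _ ?_)
  rw [htgt, Finset.card_product, Fintype.card_piFinset]
  simp only [Int.card_Icc, Finset.prod_const, Finset.card_univ, Fintype.card_fin]
  refine Nat.mul_le_mul (Nat.pow_le_pow_left (by omega) _) (by omega)

/-- the trivial count -/
theorem trivial_count (g : ℤ[X]) (hg : g.Monic) (hirr : Irreducible g) (hd : 2 ≤ g.natDegree) :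
    ∃ K0 : ℝ, 1 ≤ K0 ∧ ∀ Y P : ℝ, K0 ≤ Y → K0 ≤ P → ∀ S : Finset ℤ,
      (∀ n ∈ S, Y ≤ |(n : ℝ)| ∧ |(n : ℝ)| < 2 * Y ∧
        ∃ p : ℕ, p.Prime ∧ P ≤ (p : ℝ) ∧ (p : ℝ) < 2 * P ∧ (p : ℤ) ^ 2 ∣ g.eval n) →
      (S.card : ℝ) ≤ K0 * (P ^ ((1 : ℝ) / g.natDegree) + 1) *
        (Y / (P ^ ((1 : ℝ) / g.natDegree)) ^ 2 + 1) ^ g.natDegree ∧
      (K0 * (P ^ ((1 : ℝ) / g.natDegree)) ^ 2 ≤ Y →
        (S.card : ℝ) ≤ K0 * (Y / (P ^ ((1 : ℝ) / g.natDegree)) ^ 2 + 1) ^ g.natDegree) := by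
  classical
  obtain ⟨K, hK, p0, hbal⟩ := balanced g hg hirr
  obtain ⟨R, hR, hroot⟩ := root_bound g hg.ne_zero
  obtain ⟨K2, hK2, hfix⟩ := fixed_beta g hg hirr hd
  obtain ⟨K3, hK3, hfixH⟩ := fixed_beta_H g hg hirr
  set d := g.natDegree with hdd
  have hd0 : (0 : ℝ) < d := by
    have : 0 < d := by omega
    exact_mod_cast this
  obtain ⟨z0, hz0⟩ : ∃ z0 : ℂ, aeval z0 g = 0 := by
    apply IsAlgClosed.exists_aeval_eq_zero
    rw [degree_eq_natDegree hg.ne_zero]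
    have : g.natDegree ≠ 0 := by omega
    exact_mod_cast this
  set M : ℝ := 2 * K * d * R ^ d with hM
  have hRd : 1 ≤ R ^ d := one_le_pow₀ hR
  have hd1 : (1 : ℝ) ≤ d := by
    have : 1 ≤ d := by omega
    exact_mod_cast this
  have hM1 : 1 ≤ M := by
    have h1 : 1 ≤ 2 * K := by linarith
    have h2 : 1 ≤ 2 * K * d := one_le_mul_of_one_le_of_one_le h1 hd1
    exact one_le_mul_of_one_le_of_one_le h2 hRd
  -- the number of pairs
  set NB : ℝ := (6 * K + 1) ^ d * (2 * K + 1) with hNB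
  have hNB1 : 1 ≤ NB := by
    have h1 : (1 : ℝ) ≤ (6 * K + 1) ^ d := one_le_pow₀ (by linarith)
    exact one_le_mul_of_one_le_of_one_le h1 (by linarith)
  set W : ℝ := 2 * K * M with hW
  set K0 : ℝ := p0 + 1 + K2 + K3 + K2 * (2 * K) ^ 2 + (2 * 2 ^ d) * NB +
    (K3 * (2 * K + 1) * (W + 1)) * NB with hK0
  have hMp : 0 < M := by linarith
  have hKp : 0 < K := by linarith
  have hWp : 0 < W := by rw [hW]; positivity
  have t1 : 0 ≤ (p0 : ℝ) := Nat.cast_nonneg _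
  have t2 : 0 ≤ K2 * (2 * K) ^ 2 := by positivity
  have t3 : 0 ≤ (2 * 2 ^ d) * NB := by positivity
  have t4 : 0 ≤ (K3 * (2 * K + 1) * (W + 1)) * NB := by positivity
  refine ⟨K0, by linarith, ?_⟩
  intro Y P hY hP S hS
  have hY1 : 1 ≤ Y := by linarith
  have hY0 : 0 < Y := by linarith
  have hP0 : 0 < P := by linarith
  set H : ℝ := P ^ ((1 : ℝ) / d) with hH
  have hH0 : 0 < H := Real.rpow_pos_of_pos hP0 _
  -- data for each `n`
  have hex : ∀ n, ∃ (A B : ℤ[X]) (m : ℤ), n ∈ S → (m ≠ 0 ∧ |(m : ℝ)| ≤ K ∧ B.natDegree < d ∧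
      (∀ i, |((B.coeff i : ℤ) : ℝ)| ≤ 3 * K * Y / H ^ 2) ∧ TRel g B m Y (2 * K * H) n A ∧
      ∃ i, i < d ∧ H / M ≤ |((A.coeff i : ℤ) : ℝ)|) := by
    intro n
    by_cases hn : n ∈ S
    swap
    · exact ⟨0, 0, 0, fun h => absurd h hn⟩
    obtain ⟨hn1, hn2, p, hp, hp1, hp2, hdvd⟩ := hS n hn
    have hpp0 : p0 ≤ p := by
      have : (p0 : ℝ) ≤ p := by linarith
      exact_mod_cast this
    obtain ⟨A, B, m, hm0, hmK, hAd, hBd, hrel, _, _, _, hAc, hBc, hz⟩ := hbal p hp hpp0 n hdvd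
    have hHp : H ≤ (p : ℝ) ^ ((1 : ℝ) / d) := Real.rpow_le_rpow hP0.le hp1 (by positivity)
    have hpH : (p : ℝ) ^ ((1 : ℝ) / d) ≤ 2 * H := by
      calc (p : ℝ) ^ ((1 : ℝ) / d) ≤ (2 * P) ^ ((1 : ℝ) / d) :=
            Real.rpow_le_rpow (Nat.cast_nonneg _) hp2.le (by positivity)
        _ = (2 : ℝ) ^ ((1 : ℝ) / d) * H := by rw [Real.mul_rpow (by norm_num) hP0.le]
        _ ≤ 2 * H := by
            refine mul_le_mul_of_nonneg_right ?_ hH0.le
            calc (2 : ℝ) ^ ((1 : ℝ) / d) ≤ (2 : ℝ) ^ (1 : ℝ) := by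
                  apply Real.rpow_le_rpow_of_exponent_le (by norm_num)
                  rw [div_le_one hd0]; exact hd1
              _ = 2 := Real.rpow_one 2
    refine ⟨A, B, m, fun _ => ⟨hm0, hmK, hBd, ?_, ⟨hn1, hn2, hAd, hrel, ?_⟩, ?_⟩⟩
    · intro i
      rw [le_div_iff₀ (by positivity)]
      have h1 := hBc i
      have h2 : |((B.coeff i : ℤ) : ℝ)| * H ^ 2 ≤ |((B.coeff i : ℤ) : ℝ)| * ((p : ℝ) ^ ((1 : ℝ) / d)) ^ 2 :=
        mul_le_mul_of_nonneg_left (pow_le_pow_left₀ hH0.le hHp 2) (abs_nonneg _)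
      have h3 : K * (|(n : ℝ)| + 1) ≤ 3 * K * Y := by nlinarith
      linarith
    · intro z hzr
      have := (hz z hzr).2.1
      nlinarith
    · by_contra hcon
      push Not at hcon
      have hall : ∀ i, |((A.coeff i : ℤ) : ℝ)| ≤ H / M := by
        intro i
        by_cases hi : i < d
        · exact (hcon i hi).le
        · rw [coeff_eq_zero_of_natDegree_lt (by omega)]
          simp only [Int.cast_zero, abs_zero]
          positivity
      have h1 := norm_aeval_le A d hAd (H / M) R (by positivity) hR hall z0 (hroot z0 hz0)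
      have h2 := (hz z0 hz0).1
      have h3 : K * ‖aeval z0 A‖ ≤ K * (d * R ^ d * (H / M)) := mul_le_mul_of_nonneg_left h1 hKp.le
      have h4 : K * (d * R ^ d * (H / M)) = H / 2 := by
        rw [hM]; field_simp
      linarith
  choose fA fB fm hf using hex
  -- bounds for the number of pairs
  set b : ℝ := 3 * K * Y / H ^ 2 with hb
  have hb0 : 0 ≤ b := by positivity
  have hbF : 0 ≤ ⌊b⌋ := Int.floor_nonneg.2 hb0
  have hKF : 0 ≤ ⌊K⌋ := Int.floor_nonneg.2 hKp.le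
  have hpairs : ∀ N1 : ℕ, (∀ n0 ∈ S, (S.filter (fun n => fB n = fB n0 ∧ fm n = fm n0)).card ≤ N1) →
      (S.card : ℝ) ≤ N1 * (NB * (Y / H ^ 2 + 1) ^ d) := by
    intro N1 hN1
    have h1 := beta_count S d fB fm ⌊b⌋ ⌊K⌋ hbF hKF N1 (by
      intro n hn
      obtain ⟨_, h2, h3, h4, _⟩ := hf n hn
      refine ⟨h3, fun i => ?_, ?_⟩
      · apply Int.le_floor.2
        rw [Int.cast_abs]; exact h4 i
      · apply Int.le_floor.2
        rw [Int.cast_abs]; exact h2) hN1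
    have h2 : (S.card : ℝ) ≤ N1 * ((2 * (⌊b⌋.toNat : ℝ) + 1) ^ d * (2 * (⌊K⌋.toNat : ℝ) + 1)) := by
      exact_mod_cast h1
    have hbr : ((⌊b⌋.toNat : ℕ) : ℝ) ≤ b := by
      have h12 : ((⌊b⌋.toNat : ℕ) : ℝ) = ((⌊b⌋ : ℤ) : ℝ) := by
        have : ((⌊b⌋.toNat : ℤ) : ℝ) = ((⌊b⌋ : ℤ) : ℝ) := by rw [Int.toNat_of_nonneg hbF]
        rw [← this]; norm_cast
      rw [h12]; exact Int.floor_le _
    have hKr : ((⌊K⌋.toNat : ℕ) : ℝ) ≤ K := by
      have h12 : ((⌊K⌋.toNat : ℕ) : ℝ) = ((⌊K⌋ : ℤ) : ℝ) := by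
        have : ((⌊K⌋.toNat : ℤ) : ℝ) = ((⌊K⌋ : ℤ) : ℝ) := by rw [Int.toNat_of_nonneg hKF]
        rw [← this]; norm_cast
      rw [h12]; exact Int.floor_le _
    have h3 : 2 * (⌊b⌋.toNat : ℝ) + 1 ≤ (6 * K + 1) * (Y / H ^ 2 + 1) := by
      have e : b = 3 * K * (Y / H ^ 2) := by rw [hb]; ring
      have : 0 ≤ Y / H ^ 2 := by positivity
      nlinarith
    calc (S.card : ℝ) ≤ N1 * ((2 * (⌊b⌋.toNat : ℝ) + 1) ^ d * (2 * (⌊K⌋.toNat : ℝ) + 1)) := h2
      _ ≤ N1 * (((6 * K + 1) * (Y / H ^ 2 + 1)) ^ d * (2 * K + 1)) := by gcongr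
      _ = N1 * (NB * (Y / H ^ 2 + 1) ^ d) := by rw [hNB, mul_pow]; ring
  have hYH : 0 ≤ (Y / H ^ 2 + 1) ^ d := by positivity
  constructor
  · have hN1 : ∀ n0 ∈ S, (S.filter (fun n => fB n = fB n0 ∧ fm n = fm n0)).card ≤
        ⌊K3 * (2 * K * H + 1) * (W + 1)⌋₊ := by
      intro n0 hn0
      apply Nat.le_floor
      have h1 := hfixH Y (2 * K * H) (H / M) (by linarith) (by positivity) (by positivity) (fB n0) (fm n0)
        (hf n0 hn0).1 (S.filter (fun n => fB n = fB n0 ∧ fm n = fm n0)) (by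
          intro n hn
          rw [Finset.mem_filter] at hn
          obtain ⟨_, _, _, _, h5, h6⟩ := hf n hn.1
          rw [hn.2.1, hn.2.2] at h5
          exact ⟨fA n, h5, h6⟩)
      have h2 : 2 * K * H / (H / M) = W := by rw [hW]; field_simp
      rw [h2] at h1
      exact h1
    have h3 := hpairs _ hN1
    have h4 : ((⌊K3 * (2 * K * H + 1) * (W + 1)⌋₊ : ℕ) : ℝ) ≤ K3 * (2 * K * H + 1) * (W + 1) :=
      Nat.floor_le (by positivity)
    calc (S.card : ℝ) ≤ _ := h3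
      _ ≤ (K3 * (2 * K * H + 1) * (W + 1)) * (NB * (Y / H ^ 2 + 1) ^ d) :=
          mul_le_mul_of_nonneg_right h4 (by positivity)
      _ ≤ (K3 * ((2 * K + 1) * (H + 1)) * (W + 1)) * (NB * (Y / H ^ 2 + 1) ^ d) := by
          have : 2 * K * H + 1 ≤ (2 * K + 1) * (H + 1) := by nlinarith
          gcongr
      _ = ((K3 * (2 * K + 1) * (W + 1)) * NB) * ((H + 1) * (Y / H ^ 2 + 1) ^ d) := by ring
      _ ≤ K0 * ((H + 1) * (Y / H ^ 2 + 1) ^ d) := by
          refine mul_le_mul_of_nonneg_right ?_ (by positivity)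
          linarith
      _ = _ := by ring
  · intro hHY
    have hN1 : ∀ n0 ∈ S, (S.filter (fun n => fB n = fB n0 ∧ fm n = fm n0)).card ≤ 2 * 2 ^ d := by
      intro n0 hn0
      refine hfix Y (2 * K * H) (by linarith) (by positivity) ?_ (fB n0) (fm n0)
        (hf n0 hn0).1 (S.filter (fun n => fB n = fB n0 ∧ fm n = fm n0)) ?_
      · have : K2 * (2 * K * H) ^ 2 = (K2 * (2 * K) ^ 2) * H ^ 2 := by ring
        rw [this]
        refine le_trans (mul_le_mul_of_nonneg_right ?_ (sq_nonneg H)) hHY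
        linarith
      · intro n hn
        rw [Finset.mem_filter] at hn
        obtain ⟨_, _, _, _, h5, _⟩ := hf n hn.1
        rw [hn.2.1, hn.2.2] at h5
        exact ⟨fA n, h5⟩
    have h3 := hpairs _ hN1
    push_cast at h3
    calc (S.card : ℝ) ≤ _ := h3
      _ = ((2 * 2 ^ d) * NB) * (Y / H ^ 2 + 1) ^ d := by ring
      _ ≤ K0 * (Y / H ^ 2 + 1) ^ d := by
          refine mul_le_mul_of_nonneg_right ?_ hYH
          linarith

end Pool.Agent.Lib.SQF
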