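import Pool.Agent.Lib.SQF.Exist
import Pool.Agent.Lib.SQF.ClsB
import Pool.Agent.Lib.SQF.Special
import Pool.Agent.Lib.SQF.Trivial
import Pool.Agent.Lib.SQF.NumB

/-!
# SQF (MP_8842b2_nt), module RangeB: from the bound for one beta-slice to all solutions

`SliceB g x0 x1`: the bound for the solutions on one non-special slice with a reduced basis
`(f1, f2)`, `|f1| ≥ Y^(k/3 - x1)` (where `P = Y^(1+d)`, `k = (1-d)/2`); it is
`Y^(1 - 8/3 k + 2 x0 - c)`, which is `Y^(1-c)` divided by the number of the slices with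
`|f1| ≤ C Y^(k/3 - x0)`.

`rangeB`: `SliceB` for all certified boxes gives `RangeBoundSol 4 g (383/1000) (51/100)`. The special
slices are counted by `special_count` and `fixed_beta`.
-/

set_option autoImplicit false

open Polynomial

namespace Pool.Agent.Lib.SQF

open Pool.Agent.SQF4 (sn le_sn sn_le_iff exists_eq_sn sn_pos RBasis Indep2)

/-- THE BOUND FOR ONE SLICE, range B: the slice has a reduced basis `(f1, f2)` and is not special -/
def SliceB (g : ℤ[X]) (x0 x1 : ℝ) : Prop :=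
  ∀ K : ℝ, 1 ≤ K → ∃ c : ℝ, 0 < c ∧ ∃ C Y0 : ℝ, ∀ Y d : ℝ, 1 ≤ Y → Y0 ≤ Y → 383 / 1000 ≤ d →
    d ≤ 51 / 100 → ∀ (m : ℤ) (f1 f2 : Fin 4 → ℤ),
      (∃ a b, Indep2 a b ∧ RBasis a b f1 f2) → 1 ≤ sn f1 → sn f1 ≤ 2 * sn f2 →
      (sn f1 : ℝ) ≤ K * Y ^ (1 / 3 * ((1 - d) / 2)) →
      (sn f2 : ℝ) ≤ K * Y ^ (2 / 3 * ((1 - d) / 2)) →
      (∀ z w : ℂ, aeval z g = 0 → aeval w g = 0 → z ≠ w → ev f1 z * ev f2 w ≠ ev f1 w * ev f2 z) →
      Y ^ ((1 - d) / 2) ≤ K * sn f1 * Y ^ (2 / 3 * ((1 - d) / 2) + x1) →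
      Y ^ ((1 - d) / 2) ≤ K * sn f2 * Y ^ (2 / 3 * ((1 - d) / 2) + x1) →
      ∀ (S : Finset ℤ) (p : ℤ → ℕ) (α β : ℤ → Fin 4 → ℤ) (u v : ℤ → ℤ),
        (∀ n ∈ S, IsSol 4 g K Y (Y ^ (1 + d)) n (p n) (α n) (β n) m ∧
          OnSlice f1 f2 (β n) (u n) (v n) ∧ |((u n : ℤ) : ℝ)| * sn f1 ≤ K * Y ^ ((1 - d) / 2) ∧
          |((v n : ℤ) : ℝ)| * sn f2 ≤ K * Y ^ ((1 - d) / 2)) →
        (S.card : ℝ) ≤ C * Y ^ (1 - 8 / 3 * ((1 - d) / 2) + 2 * x0 - c)

/-- the constant may be enlarged -/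
private lemma rb_mono {d : ℕ} {g : ℤ[X]} {K K1 Y P : ℝ} {n : ℤ} {p : ℕ} {α β : Fin d → ℤ} {m : ℤ}
    (h : IsSol d g K Y P n p α β m) (hK : K ≤ K1) (hY : 0 ≤ Y) (hP : 0 ≤ P) :
    IsSol d g K1 Y P n p α β m where
  lower := h.lower
  upper := h.upper
  prime := h.prime
  ple := h.ple
  plt := h.plt
  sq_dvd := h.sq_dvd
  m_ne := h.m_ne
  m_le := h.m_le.trans hK
  eqn := h.eqn
  dvd_eval := h.dvd_eval
  res := h.res
  not_dvd := h.not_dvd
  coeffα i := (h.coeffα i).trans (by gcongr)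
  coeffβ i := (h.coeffβ i).trans (by gcongr)
  lowα z hz := (h.lowα z hz).trans (by gcongr)
  uppα z hz := (h.uppα z hz).trans (by gcongr)
  lowβ z hz := (h.lowβ z hz).trans (by gcongr)
  uppβ z hz := (h.uppβ z hz).trans (by gcongr)

/-- one solution with the data of its slice -/
private structure RbData (g : ℤ[X]) (K C Y d : ℝ) (m n : ℤ) (p : ℕ) (α β f1 f2 : Fin 4 → ℤ)
    (u v : ℤ) : Prop where
  sol : IsSol 4 g K Y (Y ^ (1 + d)) n p α β m
  sl : OnSlice f1 f2 β u v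
  bas : ∃ a b, Indep2 a b ∧ RBasis a b f1 f2
  one : 1 ≤ sn f1
  le2 : sn f1 ≤ 2 * sn f2
  b1 : (sn f1 : ℝ) ≤ C * Y ^ (1 / 3 * ((1 - d) / 2))
  b2 : (sn f2 : ℝ) ≤ C * Y ^ (2 / 3 * ((1 - d) / 2))
  su : |((u : ℤ) : ℝ)| * sn f1 ≤ C * Y ^ ((1 - d) / 2)
  sv : |((v : ℤ) : ℝ)| * sn f2 ≤ C * Y ^ ((1 - d) / 2)

open Classical in
/-- the count from `clsB_count` -/
private def RbCount (C Y d : ℝ) (S : Finset ℤ) (f1 f2 : ℤ → Fin 4 → ℤ) : Prop :=
  ∀ T ⊆ S, ∀ R M : ℝ, 0 ≤ R → 0 ≤ M → (∀ n ∈ T, (sn (f1 n) : ℝ) ≤ R) →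
    (∀ n0 ∈ T, ((T.filter (fun n => f1 n = f1 n0 ∧ f2 n = f2 n0)).card : ℝ) ≤ M) →
    (T.card : ℝ) ≤ C * (Y ^ ((1 - d) / 2)) ^ 2 * R ^ 2 * M

/-- one class of slices -/
private lemma rb_class {g : ℤ[X]} {x0 x1 : ℝ} (hSl : SliceB g x0 x1) (K C : ℝ) (hK : 1 ≤ K)
    (hC : 1 ≤ C) :
    ∃ c : ℝ, 0 < c ∧ ∃ C' Y0 : ℝ, 0 ≤ C' ∧ ∀ Y d : ℝ, 1 ≤ Y → Y0 ≤ Y → 383 / 1000 ≤ d →
      d ≤ 51 / 100 → ∀ (m : ℤ) (S T : Finset ℤ) (p : ℤ → ℕ) (α β f1 f2 : ℤ → Fin 4 → ℤ)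
        (u v : ℤ → ℤ),
        (∀ n ∈ S, RbData g K C Y d m n (p n) (α n) (β n) (f1 n) (f2 n) (u n) (v n)) →
        RbCount C Y d S f1 f2 → T ⊆ S →
        (∀ n ∈ T, ∀ z w : ℂ, aeval z g = 0 → aeval w g = 0 → z ≠ w →
          ev (f1 n) z * ev (f2 n) w ≠ ev (f1 n) w * ev (f2 n) z) →
        (∀ n ∈ T, (sn (f1 n) : ℝ) ≤ C * Y ^ (1 / 3 * ((1 - d) / 2) - x0)) →
        (∀ n ∈ T, Y ^ (1 / 3 * ((1 - d) / 2) - x1) ≤ sn (f1 n)) →
        (T.card : ℝ) ≤ C' * Y ^ (1 - c) := by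
  classical
  set K2 : ℝ := 2 * K * C with hK2
  have hKC : 1 ≤ K * C := one_le_mul_of_one_le_of_one_le hK hC
  have hK2' : 1 ≤ K2 := by rw [hK2]; nlinarith
  have hKK : K ≤ K2 := by rw [hK2]; nlinarith
  have hCK : C ≤ K2 := by rw [hK2]; nlinarith
  have h2K : 2 ≤ K2 := by rw [hK2]; nlinarith
  obtain ⟨c, hc, K1, Y0, hK1⟩ := hSl K2 hK2'
  refine ⟨c, hc, C ^ 3 * |K1|, Y0, by positivity, ?_⟩
  intro Y d hY hYY hd1 hd2 m S T p α β f1 f2 u v hdat hcnt hTS hns hup hlow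
  have hY0 : 0 < Y := by linarith
  set k : ℝ := (1 - d) / 2 with hk
  have hfib : ∀ n0 ∈ T, ((T.filter (fun n => f1 n = f1 n0 ∧ f2 n = f2 n0)).card : ℝ) ≤
      |K1| * Y ^ (1 - 8 / 3 * k + 2 * x0 - c) := by
    intro n0 hn0
    have hD := hdat n0 (hTS hn0)
    have hpow : Y ^ k = Y ^ (1 / 3 * k - x1) * Y ^ (2 / 3 * k + x1) := by
      rw [← Real.rpow_add hY0]; congr 1; ring
    have hp2 : 0 ≤ Y ^ (2 / 3 * k + x1) := by positivity
    have hs1 : (0 : ℝ) ≤ sn (f1 n0) := Nat.cast_nonneg _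
    have hs2 : (0 : ℝ) ≤ sn (f2 n0) := Nat.cast_nonneg _
    have hle2 : (sn (f1 n0) : ℝ) ≤ 2 * sn (f2 n0) := by exact_mod_cast hD.le2
    have hE1 : Y ^ k ≤ K2 * (sn (f1 n0) : ℝ) * Y ^ (2 / 3 * k + x1) := by
      rw [hpow]
      refine mul_le_mul_of_nonneg_right ((hlow n0 hn0).trans ?_) hp2
      nlinarith
    have hE2 : Y ^ k ≤ K2 * (sn (f2 n0) : ℝ) * Y ^ (2 / 3 * k + x1) := by
      rw [hpow]
      refine mul_le_mul_of_nonneg_right ((hlow n0 hn0).trans (hle2.trans ?_)) hp2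
      nlinarith
    have hq1 : 0 ≤ Y ^ (1 / 3 * k) := by positivity
    have hq2 : 0 ≤ Y ^ (2 / 3 * k) := by positivity
    have hq3 : 0 ≤ Y ^ k := by positivity
    refine (hK1 Y d hY hYY hd1 hd2 m (f1 n0) (f2 n0) hD.bas hD.one hD.le2
      (hD.b1.trans (mul_le_mul_of_nonneg_right hCK hq1))
      (hD.b2.trans (mul_le_mul_of_nonneg_right hCK hq2)) (hns n0 hn0) hE1 hE2 _ p α β u v ?_).trans
      (mul_le_mul_of_nonneg_right (le_abs_self K1) (by positivity))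
    intro n hn
    rw [Finset.mem_filter] at hn
    obtain ⟨hn, h4, h5⟩ := hn
    have hD' := hdat n (hTS hn)
    refine ⟨rb_mono hD'.sol hKK hY0.le (by positivity), ?_, ?_, ?_⟩
    · rw [← h4, ← h5]; exact hD'.sl
    · rw [← h4]; exact hD'.su.trans (mul_le_mul_of_nonneg_right hCK hq3)
    · rw [← h5]; exact hD'.sv.trans (mul_le_mul_of_nonneg_right hCK hq3)
  refine (hcnt T hTS (C * Y ^ (1 / 3 * k - x0)) (|K1| * Y ^ (1 - 8 / 3 * k + 2 * x0 - c))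
    (by positivity) (by positivity) hup ?_).trans (le_of_eq ?_)
  · intro n0 hn0
    convert hfib n0 hn0
  · have h3 : (Y ^ k) ^ 2 * (Y ^ (1 / 3 * k - x0)) ^ 2 * Y ^ (1 - 8 / 3 * k + 2 * x0 - c) =
        Y ^ (1 - c) := by
      rw [← Real.rpow_natCast, ← Real.rpow_natCast, ← Real.rpow_mul hY0.le,
        ← Real.rpow_mul hY0.le, ← Real.rpow_add hY0, ← Real.rpow_add hY0]
      congr 1
      push_cast
      ring
    rw [← h3]
    ring

/-- the special slices -/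
private lemma rb_special {g : ℤ[X]} (hg : g.Monic) (hirr : Irreducible g) (hd : g.natDegree = 4)
    (K C : ℝ) (hK : 1 ≤ K) (hC : 1 ≤ C) :
    ∃ C' Y0 : ℝ, 0 ≤ C' ∧ ∀ Y d : ℝ, 1 ≤ Y → Y0 ≤ Y → 383 / 1000 ≤ d →
      d ≤ 51 / 100 → ∀ (m : ℤ) (S : Finset ℤ) (p : ℤ → ℕ) (α β f1 f2 : ℤ → Fin 4 → ℤ)
        (u v : ℤ → ℤ),
        (∀ n ∈ S, RbData g K C Y d m n (p n) (α n) (β n) (f1 n) (f2 n) (u n) (v n)) →
        (∀ n ∈ S, ∃ z w : ℂ, aeval z g = 0 ∧ aeval w g = 0 ∧ z ≠ w ∧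
          ev (f1 n) z * ev (f2 n) w = ev (f1 n) w * ev (f2 n) z) →
        (S.card : ℝ) ≤ C' * Y ^ (1 - (1 / 10 : ℝ)) := by
  classical
  obtain ⟨C2, hC2⟩ := special_count g hg hirr hd
  obtain ⟨K2, hK2, hfix⟩ := fixed_beta g hg hirr (by omega)
  set M : ℝ := K * C with hM
  have hM1 : 1 ≤ M := one_le_mul_of_one_le_of_one_le hK hC
  have hKM : K ≤ M := by rw [hM]; nlinarith
  have hCM : C ≤ M := by rw [hM]; nlinarith
  refine ⟨32 * (C2 * (M ^ 2 * C ^ 2)), (K2 * K ^ 2) ^ 5, by positivity, ?_⟩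
  intro Y d hY hYY hd1 hd2 m S p α β f1 f2 u v hdat hsp
  have hY0 : 0 < Y := by linarith
  set k : ℝ := (1 - d) / 2 with hk
  have hk0 : 0 ≤ k := by rw [hk]; linarith
  have hKK : 1 ≤ K2 * K ^ 2 := one_le_mul_of_one_le_of_one_le hK2 (one_le_pow₀ hK)
  -- the number of solutions with a given `β`
  have hroot : K2 * K ^ 2 ≤ Y ^ ((1 : ℝ) / 5) := by
    have h1 := Real.rpow_le_rpow (by positivity) hYY (show (0 : ℝ) ≤ 1 / 5 by norm_num)
    rw [← Real.rpow_natCast, ← Real.rpow_mul (by positivity)] at h1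
    norm_num at h1
    norm_num
    exact h1
  have hbfib : ∀ n0 ∈ S, (S.filter (fun n => β n = β n0)).card ≤ 32 := by
    intro n0 hn0
    have hm0 := (hdat n0 hn0).sol.m_ne
    have h1 := hfix Y (K * (Y ^ (1 + d)) ^ ((1 : ℝ) / (4 : ℕ))) ?_ (by positivity) ?_
      (pol (β n0)) m hm0 (S.filter (fun n => β n = β n0)) ?_
    · rw [hd] at h1
      norm_num at h1
      exact h1
    · have h2 : Y ^ ((1 : ℝ) / 5) ≤ Y ^ (1 : ℝ) :=
        Real.rpow_le_rpow_of_exponent_le hY (by norm_num)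
      rw [Real.rpow_one] at h2
      have h3 : K2 ≤ K2 * K ^ 2 := by
        have : 1 ≤ K ^ 2 := one_le_pow₀ hK
        nlinarith
      linarith
    · rw [mul_pow, ← Real.rpow_natCast ((Y ^ (1 + d)) ^ ((1 : ℝ) / (4 : ℕ))), ← Real.rpow_mul hY0.le,
        ← Real.rpow_mul hY0.le, ← mul_assoc]
      have h2 : Y ^ ((1 + d) * ((1 : ℝ) / (4 : ℕ)) * ((2 : ℕ) : ℝ)) ≤ Y ^ ((4 : ℝ) / 5) := by
        refine Real.rpow_le_rpow_of_exponent_le hY ?_
        push_cast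
        linarith
      calc K2 * K ^ 2 * Y ^ ((1 + d) * ((1 : ℝ) / (4 : ℕ)) * ((2 : ℕ) : ℝ))
          ≤ Y ^ ((1 : ℝ) / 5) * Y ^ ((4 : ℝ) / 5) := by gcongr
        _ = Y := by
          rw [← Real.rpow_add hY0]
          norm_num
    · intro n hn
      rw [Finset.mem_filter] at hn
      obtain ⟨hn, hb⟩ := hn
      have hs := (hdat n hn).sol
      refine ⟨pol (α n), hs.lower, hs.upper, ?_, ?_, ?_⟩
      · rw [hd]
        exact sp_natDegree_lt (by norm_num) _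
      · rw [← hb]; exact hs.eqn
      · intro z hz
        rw [aeval_pol]
        exact hs.uppα z hz
  -- the number of the `β`
  have hA1 : 1 ≤ Y ^ k := Real.one_le_rpow hY hk0
  have hA3 : 1 ≤ Y ^ (1 / 3 * k) := Real.one_le_rpow hY (by linarith)
  have hA31 : Y ^ (1 / 3 * k) ≤ Y ^ k := Real.rpow_le_rpow_of_exponent_le hY (by linarith)
  have hCA : 1 ≤ C * Y ^ (1 / 3 * k) := one_le_mul_of_one_le_of_one_le hC hA3
  have hMA : 1 ≤ M * Y ^ k := one_le_mul_of_one_le_of_one_le hM1 hA1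
  have hbeta : ((S.image β).card : ℝ) ≤ C2 * (M ^ 2 * C ^ 2) * Y ^ (8 / 3 * k) := by
    have h1 := hC2 ⌊C * Y ^ (1 / 3 * k)⌋₊ ⌊M * Y ^ k⌋₊ ((Nat.one_le_floor_iff _).2 hCA)
      (Nat.floor_le_floor (by
        calc C * Y ^ (1 / 3 * k) ≤ M * Y ^ (1 / 3 * k) := by gcongr
          _ ≤ M * Y ^ k := by gcongr)) (S.image β) ?_
    · have h2 : ((S.image β).card : ℝ) ≤
          C2 * (((⌊M * Y ^ k⌋₊ : ℕ) : ℝ) ^ 2 * ((⌊C * Y ^ (1 / 3 * k)⌋₊ : ℕ) : ℝ) ^ 2) := by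
        exact_mod_cast h1
      have h3 : ((⌊M * Y ^ k⌋₊ : ℕ) : ℝ) ≤ M * Y ^ k := Nat.floor_le (by linarith)
      have h4 : ((⌊C * Y ^ (1 / 3 * k)⌋₊ : ℕ) : ℝ) ≤ C * Y ^ (1 / 3 * k) :=
        Nat.floor_le (by linarith)
      have h5 : (Y ^ k) ^ 2 * (Y ^ (1 / 3 * k)) ^ 2 = Y ^ (8 / 3 * k) := by
        rw [← Real.rpow_natCast, ← Real.rpow_natCast, ← Real.rpow_mul hY0.le,
          ← Real.rpow_mul hY0.le, ← Real.rpow_add hY0]
        congr 1
        push_cast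
        ring
      calc ((S.image β).card : ℝ) ≤ _ := h2
        _ ≤ C2 * ((M * Y ^ k) ^ 2 * (C * Y ^ (1 / 3 * k)) ^ 2) := by gcongr
        _ = C2 * (M ^ 2 * C ^ 2) * Y ^ (8 / 3 * k) := by rw [← h5]; ring
    · intro b hb
      rw [Finset.mem_image] at hb
      obtain ⟨n, hn, rfl⟩ := hb
      have hD := hdat n hn
      refine ⟨?_, f1 n, ?_, ?_, ?_⟩
      · -- `|β_i| ≤ K Y^k`
        intro i
        have h1 := hD.sol.coeffβ i
        have hP : ((Y ^ (1 + d)) ^ ((1 : ℝ) / (4 : ℕ))) ^ 2 = Y ^ ((1 + d) / 2) := by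
          rw [← Real.rpow_natCast ((Y ^ (1 + d)) ^ ((1 : ℝ) / (4 : ℕ))), ← Real.rpow_mul hY0.le,
            ← Real.rpow_mul hY0.le]
          congr 1
          push_cast
          ring
        rw [hP] at h1
        have h2 : |((β n i : ℤ) : ℝ)| ≤ M * Y ^ k := by
          have h3 : 0 < Y ^ ((1 + d) / 2) := by positivity
          have h4 : Y = Y ^ k * Y ^ ((1 + d) / 2) := by
            rw [← Real.rpow_add hY0, hk]
            have : (1 - d) / 2 + (1 + d) / 2 = 1 := by ring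
            rw [this, Real.rpow_one]
          have h5 : |((β n i : ℤ) : ℝ)| * Y ^ ((1 + d) / 2) ≤ (M * Y ^ k) * Y ^ ((1 + d) / 2) := by
            rw [mul_assoc M, ← h4]
            exact h1.trans (mul_le_mul_of_nonneg_right hKM hY0.le)
          exact le_of_mul_le_mul_right h5 h3
        have h3 : (((β n i).natAbs : ℕ) : ℝ) ≤ M * Y ^ k := by
          rw [Nat.cast_natAbs, Int.cast_abs]
          exact h2
        have h4 : (β n i).natAbs ≤ ⌊M * Y ^ k⌋₊ := Nat.le_floor h3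
        rw [Int.abs_eq_natAbs]
        exact_mod_cast h4
      · intro h0
        have h1 := hD.one
        have h2 : sn (f1 n) = 0 := by
          obtain ⟨i, hi⟩ := exists_eq_sn (f1 n)
          rw [← hi, h0]
          simp
        omega
      · intro i
        have h1 : ((sn (f1 n) : ℕ) : ℝ) ≤ C * Y ^ (1 / 3 * k) := hD.b1
        have h2 : sn (f1 n) ≤ ⌊C * Y ^ (1 / 3 * k)⌋₊ := Nat.le_floor h1
        have h3 := (le_sn (f1 n) i).trans h2
        rw [Int.abs_eq_natAbs]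
        exact_mod_cast h3
      · obtain ⟨z, w, hz, hw, hzw, hrel⟩ := hsp n hn
        refine ⟨z, w, hz, hw, hzw, ?_⟩
        rw [ev_slice hD.sl, ev_slice hD.sl]
        linear_combination ((v n : ℂ)) * hrel
  have hcard : S.card ≤ 32 * (S.image β).card := by
    refine Finset.card_le_mul_card_image S 32 ?_
    intro b hb
    rw [Finset.mem_image] at hb
    obtain ⟨n, hn, rfl⟩ := hb
    exact hbfib n hn
  have hpow : Y ^ (8 / 3 * k) ≤ Y ^ (1 - (1 / 10 : ℝ)) :=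
    Real.rpow_le_rpow_of_exponent_le hY (by rw [hk]; linarith)
  calc (S.card : ℝ) ≤ 32 * ((S.image β).card : ℝ) := by exact_mod_cast hcard
    _ ≤ 32 * (C2 * (M ^ 2 * C ^ 2) * Y ^ (8 / 3 * k)) := by gcongr
    _ ≤ 32 * (C2 * (M ^ 2 * C ^ 2) * Y ^ (1 - (1 / 10 : ℝ))) := by gcongr
    _ = _ := by ring

/-- RANGE B from three classes of slices -/
theorem rangeB_of_slices {g : ℤ[X]} (hg : g.Monic) (hirr : Irreducible g) (hd : g.natDegree = 4)
    (h0 : SliceB g 0 (1 / 100)) (h1 : SliceB g (1 / 100) (1 / 20))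
    (h2 : SliceB g (1 / 20) (13 / 125)) : RangeBoundSol 4 g (383 / 1000) (51 / 100) := by
  classical
  intro K'
  set K : ℝ := max K' 1 with hKdef
  have hK : 1 ≤ K := le_max_right _ _
  obtain ⟨C, hC, hcls⟩ := clsB_count K hK
  obtain ⟨c0, hc0, C0, Y0, hC0, H0⟩ := rb_class h0 K C hK hC
  obtain ⟨c1, hc1, C1, Y1, hC1, H1⟩ := rb_class h1 K C hK hC
  obtain ⟨c2, hc2, C2, Y2, hC2, H2⟩ := rb_class h2 K C hK hC
  obtain ⟨C3, Y3, hC3, H3⟩ := rb_special hg hirr hd K C hK hC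
  set c : ℝ := min (1 / 10) (min c0 (min c1 c2)) with hcdef
  have hcc3 : c ≤ 1 / 10 := min_le_left _ _
  have hcc0 : c ≤ c0 := (min_le_right _ _).trans (min_le_left _ _)
  have hcc1 : c ≤ c1 := (min_le_right _ _).trans ((min_le_right _ _).trans (min_le_left _ _))
  have hcc2 : c ≤ c2 := (min_le_right _ _).trans ((min_le_right _ _).trans (min_le_right _ _))
  refine ⟨c, lt_min (by norm_num) (lt_min hc0 (lt_min hc1 hc2)), C0 + C1 + C2 + C3,
    max 2 (max (max Y0 Y1) (max Y2 Y3)), ?_⟩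
  intro Y P hY hYY hPl hPu m S p α β hS
  have hY2' : 2 ≤ Y := (le_max_left _ _).trans hYY
  have hYY0 : Y0 ≤ Y := (((le_max_left _ _).trans (le_max_left _ _)).trans (le_max_right _ _)).trans hYY
  have hYY1 : Y1 ≤ Y := (((le_max_right _ _).trans (le_max_left _ _)).trans (le_max_right _ _)).trans hYY
  have hYY2 : Y2 ≤ Y := (((le_max_left _ _).trans (le_max_right _ _)).trans (le_max_right _ _)).trans hYY
  have hYY3 : Y3 ≤ Y := (((le_max_right _ _).trans (le_max_right _ _)).trans (le_max_right _ _)).trans hYY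
  have hY0 : 0 < Y := by linarith
  have hY1' : 1 < Y := by linarith
  -- the exponent
  have hP0 : 0 < P := lt_of_lt_of_le (Real.rpow_pos_of_pos hY0 _) hPl
  obtain ⟨d, hPd⟩ : ∃ d : ℝ, P = Y ^ (1 + d) := by
    refine ⟨Real.log P / Real.log Y - 1, ?_⟩
    have hl : Real.log Y ≠ 0 := (Real.log_pos hY1').ne'
    rw [add_sub_cancel, Real.rpow_def_of_pos hY0, mul_div_cancel₀ _ hl, Real.exp_log hP0]
  have hd1 : 383 / 1000 ≤ d := by
    rw [hPd] at hPl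
    have := (Real.rpow_le_rpow_left_iff hY1').1 hPl
    linarith
  have hd2 : d ≤ 51 / 100 := by
    rw [hPd] at hPu
    have := (Real.rpow_le_rpow_left_iff hY1').1 hPu
    linarith
  subst hPd
  have hS' : ∀ n ∈ S, IsSol 4 g K Y (Y ^ (1 + d)) n (p n) (α n) (β n) m := fun n hn =>
    rb_mono (hS n hn) (le_max_left _ _) hY0.le (by positivity)
  set k : ℝ := (1 - d) / 2 with hk
  have hk0 : 0 ≤ k := by rw [hk]; linarith
  have hA1 : 1 ≤ Y ^ k := Real.one_le_rpow hY hk0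
  -- the slices
  obtain ⟨f1, f2, u, v, hdat0, hcnt⟩ := hcls (Y ^ k) hA1 S β (by
    intro n hn i
    have h1 := (hS' n hn).coeffβ i
    have hP : ((Y ^ (1 + d)) ^ ((1 : ℝ) / (4 : ℕ))) ^ 2 = Y ^ ((1 + d) / 2) := by
      rw [← Real.rpow_natCast ((Y ^ (1 + d)) ^ ((1 : ℝ) / (4 : ℕ))), ← Real.rpow_mul hY0.le,
        ← Real.rpow_mul hY0.le]
      congr 1
      push_cast
      ring
    rw [hP] at h1
    have h3 : 0 < Y ^ ((1 + d) / 2) := by positivity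
    have h4 : Y = Y ^ k * Y ^ ((1 + d) / 2) := by
      rw [← Real.rpow_add hY0, hk]
      have : (1 - d) / 2 + (1 + d) / 2 = 1 := by ring
      rw [this, Real.rpow_one]
    have h5 : |((β n i : ℤ) : ℝ)| * Y ^ ((1 + d) / 2) ≤ (K * Y ^ k) * Y ^ ((1 + d) / 2) := by
      rw [mul_assoc K, ← h4]
      exact h1
    exact le_of_mul_le_mul_right h5 h3)
  have hdat : ∀ n ∈ S, RbData g K C Y d m n (p n) (α n) (β n) (f1 n) (f2 n) (u n) (v n) := by
    intro n hn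
    obtain ⟨q1, q2, q3, q4, q5, q6, q7, q8⟩ := hdat0 n hn
    rw [← Real.rpow_mul hY0.le, mul_comm k] at q5 q6
    exact ⟨hS' n hn, q1, q2, q3, q4, q5, q6, q7, q8⟩
  have hcnt' : RbCount C Y d S f1 f2 := by
    intro T hT R M hR hM hTR hTM
    exact hcnt T hT R M hR hM hTR hTM
  -- the classes
  set Ssp := S.filter (fun n => ∃ z w : ℂ, aeval z g = 0 ∧ aeval w g = 0 ∧ z ≠ w ∧
    ev (f1 n) z * ev (f2 n) w = ev (f1 n) w * ev (f2 n) z) with hSsp
  set Sns := S.filter (fun n => ¬ ∃ z w : ℂ, aeval z g = 0 ∧ aeval w g = 0 ∧ z ≠ w ∧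
    ev (f1 n) z * ev (f2 n) w = ev (f1 n) w * ev (f2 n) z) with hSns
  set B0 : ℝ := Y ^ (1 / 3 * k - 1 / 100) with hB0
  set B1 : ℝ := Y ^ (1 / 3 * k - 1 / 20) with hB1
  set T0 := Sns.filter (fun n => B0 ≤ (sn (f1 n) : ℝ)) with hT0
  set T1 := Sns.filter (fun n => (sn (f1 n) : ℝ) ≤ B0 ∧ B1 ≤ (sn (f1 n) : ℝ)) with hT1
  set T2 := Sns.filter (fun n => (sn (f1 n) : ℝ) ≤ B1) with hT2
  have hSnsS : Sns ⊆ S := Finset.filter_subset _ _
  have hns : ∀ n ∈ Sns, ∀ z w : ℂ, aeval z g = 0 → aeval w g = 0 → z ≠ w →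
      ev (f1 n) z * ev (f2 n) w ≠ ev (f1 n) w * ev (f2 n) z := by
    intro n hn z w hz hw hzw hrel
    rw [hSns, Finset.mem_filter] at hn
    exact hn.2 ⟨z, w, hz, hw, hzw, hrel⟩
  have hcov : S ⊆ Ssp ∪ (T0 ∪ T1 ∪ T2) := by
    intro n hn
    by_cases hsp : ∃ z w : ℂ, aeval z g = 0 ∧ aeval w g = 0 ∧ z ≠ w ∧
      ev (f1 n) z * ev (f2 n) w = ev (f1 n) w * ev (f2 n) z
    · exact Finset.mem_union_left _ (Finset.mem_filter.2 ⟨hn, hsp⟩)
    · refine Finset.mem_union_right _ ?_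
      have hn' : n ∈ Sns := Finset.mem_filter.2 ⟨hn, hsp⟩
      rw [Finset.mem_union, Finset.mem_union]
      rcases le_total B0 (sn (f1 n) : ℝ) with h | h
      · exact Or.inl (Or.inl (Finset.mem_filter.2 ⟨hn', h⟩))
      · rcases le_total B1 (sn (f1 n) : ℝ) with h' | h'
        · exact Or.inl (Or.inr (Finset.mem_filter.2 ⟨hn', h, h'⟩))
        · exact Or.inr (Finset.mem_filter.2 ⟨hn', h'⟩)
  have hle : (S.card : ℝ) ≤ (Ssp.card : ℝ) + ((T0.card : ℝ) + (T1.card : ℝ) + (T2.card : ℝ)) := by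
    have h3 := (Finset.card_le_card hcov).trans ((Finset.card_union_le _ _).trans
      (Nat.add_le_add_left ((Finset.card_union_le _ _).trans
        (Nat.add_le_add_right (Finset.card_union_le _ _) _)) _))
    exact_mod_cast h3
  have e3 : (Ssp.card : ℝ) ≤ C3 * Y ^ (1 - (1 / 10 : ℝ)) := by
    refine H3 Y d hY hYY3 hd1 hd2 m Ssp p α β f1 f2 u v ?_ ?_
    · intro n hn
      exact hdat n (Finset.mem_filter.1 hn).1
    · intro n hn
      exact (Finset.mem_filter.1 hn).2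
  have hbC : ∀ x : ℝ, Y ^ (1 / 3 * k - x) ≤ C * Y ^ (1 / 3 * k - x) := by
    intro x
    have : 0 ≤ Y ^ (1 / 3 * k - x) := by positivity
    nlinarith
  have e0 : (T0.card : ℝ) ≤ C0 * Y ^ (1 - c0) := by
    refine H0 Y d hY hYY0 hd1 hd2 m S T0 p α β f1 f2 u v hdat hcnt'
      ((Finset.filter_subset _ _).trans hSnsS) ?_ ?_ ?_
    · intro n hn
      exact hns n (Finset.mem_filter.1 hn).1
    · intro n hn
      rw [← hk, sub_zero]
      exact (hdat n (hSnsS (Finset.mem_filter.1 hn).1)).b1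
    · intro n hn
      exact (Finset.mem_filter.1 hn).2
  have e1 : (T1.card : ℝ) ≤ C1 * Y ^ (1 - c1) := by
    refine H1 Y d hY hYY1 hd1 hd2 m S T1 p α β f1 f2 u v hdat hcnt'
      ((Finset.filter_subset _ _).trans hSnsS) ?_ ?_ ?_
    · intro n hn
      exact hns n (Finset.mem_filter.1 hn).1
    · intro n hn
      exact ((Finset.mem_filter.1 hn).2.1).trans (hbC _)
    · intro n hn
      exact (Finset.mem_filter.1 hn).2.2
  have e2 : (T2.card : ℝ) ≤ C2 * Y ^ (1 - c2) := by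
    refine H2 Y d hY hYY2 hd1 hd2 m S T2 p α β f1 f2 u v hdat hcnt'
      ((Finset.filter_subset _ _).trans hSnsS) ?_ ?_ ?_
    · intro n hn
      exact hns n (Finset.mem_filter.1 hn).1
    · intro n hn
      exact ((Finset.mem_filter.1 hn).2).trans (hbC _)
    · intro n hn
      have h3 : (1 : ℝ) ≤ sn (f1 n) := by
        exact_mod_cast (hdat n (hSnsS (Finset.mem_filter.1 hn).1)).one
      refine le_trans ?_ h3
      exact Real.rpow_le_one_of_one_le_of_nonpos hY (by linarith)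
  have hpow : ∀ c' : ℝ, c ≤ c' → Y ^ (1 - c') ≤ Y ^ (1 - c) :=
    fun c' hc' => Real.rpow_le_rpow_of_exponent_le hY (by linarith)
  have g0 := mul_le_mul_of_nonneg_left (hpow c0 hcc0) hC0
  have g1 := mul_le_mul_of_nonneg_left (hpow c1 hcc1) hC1
  have g2 := mul_le_mul_of_nonneg_left (hpow c2 hcc2) hC2
  have g3 := mul_le_mul_of_nonneg_left (hpow (1 / 10) hcc3) hC3
  linarith

/-- RANGE B: the bounds for the certified slices give the bound for all solutions with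
`Y^(1 + 383/1000) ≤ P ≤ Y^(1 + 51/100)`. -/
theorem rangeB {g : ℤ[X]} (hg : g.Monic) (hirr : Irreducible g) (hd : g.natDegree = 4)
    (hB : ∀ x0 x1 : ℝ, 0 ≤ x0 → x0 < x1 → x1 ≤ 13 / 125 → CertB x0 x1 → SliceB g x0 x1) :
    RangeBoundSol 4 g (383 / 1000) (51 / 100) :=
  rangeB_of_slices hg hirr hd
    (hB _ _ (by norm_num) (by norm_num) (by norm_num) numB.1)
    (hB _ _ (by norm_num) (by norm_num) (by norm_num) numB.2.1)
    (hB _ _ (by norm_num) (by norm_num) (by norm_num) numB.2.2)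

end Pool.Agent.Lib.SQF
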