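import Pool.Agent.Lib.SQF.Defs

/-!
# SQF: `IsSol` is monotone in the constant `K`
-/

set_option autoImplicit false

open Polynomial

namespace Pool.Agent.Lib.SQF

/-- a larger constant -/
theorem IsSol.mono {d : ℕ} {g : ℤ[X]} {K K' Y P : ℝ} {n : ℤ} {p : ℕ} {α β : Fin d → ℤ} {m : ℤ}
    (h : IsSol d g K Y P n p α β m) (hK : K ≤ K') (hY : 0 ≤ Y) (hP : 0 ≤ P) :
    IsSol d g K' Y P n p α β m := by
  have hH : 0 ≤ P ^ ((1 : ℝ) / d) := Real.rpow_nonneg hP _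
  refine ⟨h.lower, h.upper, h.prime, h.ple, h.plt, h.sq_dvd, h.m_ne, h.m_le.trans hK, h.eqn,
    h.dvd_eval, h.res, h.not_dvd, fun i => ?_, fun i => ?_, fun z hz => ?_, fun z hz => ?_,
    fun z hz => ?_, fun z hz => ?_⟩
  · exact (h.coeffα i).trans (mul_le_mul_of_nonneg_right hK hH)
  · exact (h.coeffβ i).trans (mul_le_mul_of_nonneg_right hK hY)
  · exact (h.lowα z hz).trans (mul_le_mul_of_nonneg_right hK (norm_nonneg _))
  · exact (h.uppα z hz).trans (mul_le_mul_of_nonneg_right hK hH)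
  · exact (h.lowβ z hz).trans (mul_le_mul_of_nonneg_right hK (by positivity))
  · exact (h.uppβ z hz).trans (mul_le_mul_of_nonneg_right hK hY)

/-- the norms of `n`: at most `5 Y` values `n` in a window -/
theorem card_window_le (Y : ℝ) (hY : 1 ≤ Y) (S : Finset ℤ)
    (hS : ∀ n ∈ S, |(n : ℝ)| < 2 * Y) : (S.card : ℝ) ≤ 5 * Y := by
  have h1 : S ⊆ Finset.Icc (-⌊2 * Y⌋) ⌊2 * Y⌋ := by
    intro n hn
    have h2 := abs_lt.1 (hS n hn)
    rw [Finset.mem_Icc]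
    constructor
    · have h3 : -n ≤ ⌊2 * Y⌋ := by
        rw [Int.le_floor]
        push_cast
        linarith
      omega
    · rw [Int.le_floor]
      linarith
  have h2 := Finset.card_le_card h1
  rw [Int.card_Icc] at h2
  have h3 : (⌊2 * Y⌋ : ℝ) ≤ 2 * Y := Int.floor_le _
  have h4 : 0 ≤ ⌊2 * Y⌋ := Int.floor_nonneg.2 (by linarith)
  have h5 : ((⌊2 * Y⌋ + 1 - -⌊2 * Y⌋).toNat : ℝ) = 2 * (⌊2 * Y⌋ : ℝ) + 1 := by
    have h6 : ((⌊2 * Y⌋ + 1 - -⌊2 * Y⌋).toNat : ℤ) = 2 * ⌊2 * Y⌋ + 1 := by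
      rw [Int.toNat_of_nonneg (by omega)]
      ring
    have h7 : (((⌊2 * Y⌋ + 1 - -⌊2 * Y⌋).toNat : ℤ) : ℝ) = ((2 * ⌊2 * Y⌋ + 1 : ℤ) : ℝ) := by
      rw [h6]
    rw [Int.cast_natCast] at h7
    rw [h7]
    push_cast
    ring
  have h6 : (S.card : ℝ) ≤ ((⌊2 * Y⌋ + 1 - -⌊2 * Y⌋).toNat : ℝ) := by exact_mod_cast h2
  rw [h5] at h6
  linarith

end Pool.Agent.Lib.SQF
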