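import Pool.Agent.Lib.SQF.FirstB
import Pool.Agent.Lib.SQF.BCls
import Pool.Agent.Lib.SQF.Cluster
import Pool.Agent.Lib.SQF.NumB
import Pool.Agent.Lib.SQF.GlueB
import Pool.Agent.Lib.SQF.ClusB
import Pool.Agent.Lib.SQF.KapB0
import Pool.Agent.Lib.SQF.KapRC
import Pool.Agent.Lib.SQF.RangeB
import Pool.Agent.Lib.SQF.SolMono

/-!
# SQF: the per-slice theorem on beta-slices
-/

set_option autoImplicit false

open Polynomial

namespace Pool.Agent.Lib.SQF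

open Pool.Agent.SQF.LamZ (NonSpecial)
open Pool.Agent.SQF4 (sn le_sn)

/-- a non-special slice has rank two -/
private theorem bslice_rank {g : ℤ[X]} {ζ : Fin 4 → ℂ} (hζ : Function.Injective ζ)
    (hroot : ∀ j, aeval (ζ j) g = 0) {f1 f2 : Fin 4 → ℤ} (h : NonSpecial g f1 f2) :
    ∃ j k, f1 j * f2 k ≠ f1 k * f2 j := by
  by_contra hcon
  push Not at hcon
  have h01 : ζ 0 ≠ ζ 1 := fun hh => by
    have := hζ hh
    exact absurd this (by decide)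
  refine h (ζ 0) (ζ 1) (hroot 0) (hroot 1) h01 ?_
  simp only [ev, Finset.sum_mul_sum]
  rw [Finset.sum_comm]
  refine Finset.sum_congr rfl fun j _ => Finset.sum_congr rfl fun k _ => ?_
  have h1 : ((f1 k : ℤ) : ℂ) * ((f2 j : ℤ) : ℂ) = ((f1 j : ℤ) : ℂ) * ((f2 k : ℤ) : ℂ) := by
    exact_mod_cast hcon k j
  linear_combination (ζ 0 ^ (k : ℕ) * ζ 1 ^ (j : ℕ)) * h1

/-- `K < Y ^ η` for large `Y` -/
private theorem bslice_large (K η : ℝ) (hη : 0 < η) :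
    ∃ Y0 : ℝ, 1 ≤ Y0 ∧ ∀ Y : ℝ, Y0 ≤ Y → K < Y ^ η := by
  refine ⟨(max K 1 + 1) ^ (1 / η), Real.one_le_rpow (by
    have := le_max_right K 1; linarith) (by positivity), fun Y hY => ?_⟩
  have h1 : (1 : ℝ) ≤ max K 1 := le_max_right _ _
  have h2 : ((max K 1 + 1) ^ (1 / η)) ^ η ≤ Y ^ η :=
    Real.rpow_le_rpow (by positivity) hY hη.le
  rw [← Real.rpow_mul (by positivity), one_div_mul_cancel hη.ne', Real.rpow_one] at h2
  have := le_max_left K 1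
  linarith

/-- the numbers at the end of the multi-scale count -/
private theorem bslice_num {Y η x0 k C1 K3 : ℝ} {s T Cmin eb : ℕ} {w ρ : ℕ → ℝ} (hY : 1 ≤ Y)
    (hη : 0 < η) (hρpos : ∀ l, 1 ≤ l → l ≤ T + 1 → 0 < ρ l) (hC1 : 1 ≤ C1)
    (hnA : ∀ l ≤ T, w l + ρ (l + 1) + η ≤ 1 - 8 / 3 * k + 2 * x0) {AA BB Z : ℕ → ℕ}
    (hAr : ∀ l, (AA l : ℝ) ≤ 5 * Y ^ (w l)) (hZ : ∀ l, (Z l : ℝ) ≤ Y ^ (ρ l) + 1)
    (hB1 : ∀ l ≤ T, (BB l : ℝ) ≤ C1 * (Z l * Cmin + 1) + 1)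
    (hB2 : (BB (T + 1) : ℝ) ≤ |K3| * Y ^ (ρ (T + 1) + η / 2) + 1) {c2 exc : ℕ}
    (hmain : c2 ≤ 4 * s * AA 0 * BB 1 +
      ∑ l ∈ Finset.Icc 1 T, (4 * s + 1) * AA l * BB (l + 1)) (hexc : exc ≤ eb * AA 0) :
    (c2 : ℝ) + exc ≤ (4 * s + T * (4 * s + 1) + eb) *
      (5 * (C1 * (2 * Cmin + 1) + 1 + (|K3| + 1)) + 5) * Y ^ (1 - 8 / 3 * k + 2 * x0 - η / 2) := by
  have hY0 : 0 < Y := by linarith
  set C3 : ℝ := C1 * (2 * Cmin + 1) + 1 + (|K3| + 1) with hC3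
  have hC30 : 0 ≤ C3 := by positivity
  have hC3a : C1 * (2 * Cmin + 1) + 1 ≤ C3 := by rw [hC3]; linarith [abs_nonneg K3]
  have hC3b : |K3| + 1 ≤ C3 := by
    rw [hC3]
    have : 0 ≤ C1 * (2 * (Cmin : ℝ) + 1) := by positivity
    linarith
  set θ : ℝ := 1 - 8 / 3 * k + 2 * x0 - η / 2 with hθ
  have hYθ : 0 < Y ^ θ := Real.rpow_pos_of_pos hY0 _
  have hYρ : ∀ l, 1 ≤ l → l ≤ T + 1 → 1 ≤ Y ^ (ρ l) := fun l h1 h2 =>
    Real.one_le_rpow hY (hρpos l h1 h2).le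
  have hBr : ∀ l ≤ T, (BB (l + 1) : ℝ) ≤ C3 * Y ^ (ρ (l + 1) + η / 2) := by
    intro l hl
    have hpw : Y ^ (ρ (l + 1)) ≤ Y ^ (ρ (l + 1) + η / 2) :=
      Real.rpow_le_rpow_of_exponent_le hY (by linarith)
    have h1 := hYρ (l + 1) (by omega) (by omega)
    rcases Nat.lt_or_ge l T with h2 | h2
    · have h3 := hB1 (l + 1) (by omega)
      have h4 : (Z (l + 1) : ℝ) ≤ 2 * Y ^ (ρ (l + 1)) := by
        have h5 := hZ (l + 1)
        linarith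
      have hCm : (0 : ℝ) ≤ Cmin := Nat.cast_nonneg _
      calc (BB (l + 1) : ℝ) ≤ C1 * (Z (l + 1) * Cmin + 1) + 1 := h3
        _ ≤ C1 * (2 * Y ^ (ρ (l + 1)) * Cmin + Y ^ (ρ (l + 1))) + Y ^ (ρ (l + 1)) := by gcongr
        _ = (C1 * (2 * Cmin + 1) + 1) * Y ^ (ρ (l + 1)) := by ring
        _ ≤ C3 * Y ^ (ρ (l + 1) + η / 2) := mul_le_mul hC3a hpw (by positivity) hC30
    · have h2' : l = T := le_antisymm hl h2
      rw [h2'] at h1 hpw ⊢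
      calc (BB (T + 1) : ℝ) ≤ |K3| * Y ^ (ρ (T + 1) + η / 2) + 1 := hB2
        _ ≤ |K3| * Y ^ (ρ (T + 1) + η / 2) + Y ^ (ρ (T + 1) + η / 2) := by linarith
        _ = (|K3| + 1) * Y ^ (ρ (T + 1) + η / 2) := by ring
        _ ≤ C3 * Y ^ (ρ (T + 1) + η / 2) := by gcongr
  have hprod : ∀ l ≤ T, (AA l : ℝ) * BB (l + 1) ≤ 5 * C3 * Y ^ θ := by
    intro l hl
    have h1 := hnA l hl
    calc (AA l : ℝ) * BB (l + 1) ≤ (5 * Y ^ (w l)) * (C3 * Y ^ (ρ (l + 1) + η / 2)) :=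
          mul_le_mul (hAr l) (hBr l hl) (Nat.cast_nonneg _) (by positivity)
      _ = 5 * C3 * Y ^ (w l + (ρ (l + 1) + η / 2)) := by rw [Real.rpow_add hY0 (w l)]; ring
      _ ≤ 5 * C3 * Y ^ θ := by
          gcongr
          rw [hθ]; linarith
  have hA0 := hnA 0 (Nat.zero_le _)
  have hρ1 := hρpos (0 + 1) (by omega) (by omega)
  have hAA0 : (AA 0 : ℝ) ≤ 5 * Y ^ θ := by
    refine (hAr 0).trans ?_
    gcongr
    rw [hθ]; linarith
  have hmain' : (c2 : ℝ) ≤ (4 * s + T * (4 * s + 1)) * (5 * C3 * Y ^ θ) := by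
    have h1 : (c2 : ℝ) ≤ 4 * s * ((AA 0 : ℝ) * BB 1) +
        ∑ l ∈ Finset.Icc 1 T, (4 * s + 1) * ((AA l : ℝ) * BB (l + 1)) := by
      have h2 : (c2 : ℝ) ≤ ((4 * s * AA 0 * BB 1 +
        ∑ l ∈ Finset.Icc 1 T, (4 * s + 1) * AA l * BB (l + 1) : ℕ) : ℝ) := by exact_mod_cast hmain
      refine h2.trans (le_of_eq ?_)
      push_cast
      congr 1
      · ring
      · refine Finset.sum_congr rfl fun l _ => ?_
        ring
    have h3 : ∑ l ∈ Finset.Icc 1 T, (4 * (s : ℝ) + 1) * ((AA l : ℝ) * BB (l + 1)) ≤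
        ∑ _l ∈ Finset.Icc 1 T, (4 * (s : ℝ) + 1) * (5 * C3 * Y ^ θ) := by
      refine Finset.sum_le_sum fun l hl => ?_
      exact mul_le_mul_of_nonneg_left (hprod l (Finset.mem_Icc.1 hl).2) (by positivity)
    rw [Finset.sum_const, Nat.card_Icc, nsmul_eq_mul, Nat.add_sub_cancel] at h3
    have h4 := mul_le_mul_of_nonneg_left (hprod 0 (Nat.zero_le _))
      (show (0 : ℝ) ≤ 4 * s by positivity)
    rw [zero_add] at h4
    calc (c2 : ℝ) ≤ _ := h1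
      _ ≤ 4 * s * (5 * C3 * Y ^ θ) + T * ((4 * (s : ℝ) + 1) * (5 * C3 * Y ^ θ)) := add_le_add h4 h3
      _ = _ := by ring
  have hExc' : (exc : ℝ) ≤ eb * (5 * Y ^ θ) := by
    have h1 : (exc : ℝ) ≤ (eb : ℝ) * AA 0 := by exact_mod_cast hexc
    exact h1.trans (mul_le_mul_of_nonneg_left hAA0 (Nat.cast_nonneg _))
  have hs0 : (0 : ℝ) ≤ 4 * s + T * (4 * s + 1) := by positivity
  have he0 : (0 : ℝ) ≤ eb := Nat.cast_nonneg _
  calc (c2 : ℝ) + exc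
      ≤ (4 * s + T * (4 * s + 1)) * (5 * C3 * Y ^ θ) + eb * (5 * Y ^ θ) :=
        add_le_add hmain' hExc'
    _ ≤ (4 * s + T * (4 * s + 1)) * ((5 * C3 + 5) * Y ^ θ) + eb * ((5 * C3 + 5) * Y ^ θ) := by
        gcongr
        · linarith
        · linarith
    _ = (4 * s + T * (4 * s + 1) + eb) * (5 * C3 + 5) * Y ^ θ := by ring

/-- the real bound in terms of the certificate -/
private theorem bslice_det {Y vv h G η ρ KG KG0 D : ℝ} {i s N e : ℕ} (hY : 1 ≤ Y)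
    (h1 : D ≤ KG * (Y ^ ((i : ℝ) * vv) * (Y ^ h) ^ s) ^ N * Y ^ (-G)) (hKG : KG ≤ KG0)
    (hKG0 : 0 ≤ KG0) (hlarge : KG0 < Y ^ η)
    (hC : (N : ℝ) * (i * vv + s * h) - G + η ≤ ρ * e) : D < Y ^ (ρ * e) := by
  have hY0 : 0 < Y := by linarith
  refine lt_of_le_of_lt h1 ?_
  have h2 : (Y ^ (i * vv) * (Y ^ h) ^ s) ^ N = Y ^ ((N : ℝ) * (i * vv + s * h)) := by
    rw [← Real.rpow_natCast (Y ^ h) s, ← Real.rpow_mul hY0.le, ← Real.rpow_add hY0,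
      ← Real.rpow_natCast _ N, ← Real.rpow_mul hY0.le]
    congr 1
    ring
  rw [h2, mul_assoc, ← Real.rpow_add hY0]
  have h4 : (N : ℝ) * (i * vv + s * h) + -G ≤ ρ * e - η := by linarith
  calc KG * Y ^ ((N : ℝ) * (i * vv + s * h) + -G) ≤ KG0 * Y ^ (ρ * e - η) :=
        mul_le_mul hKG (Real.rpow_le_rpow_of_exponent_le hY h4)
          (Real.rpow_pos_of_pos hY0 _).le hKG0
    _ < Y ^ η * Y ^ (ρ * e - η) :=
        mul_lt_mul_of_pos_right hlarge (Real.rpow_pos_of_pos hY0 _)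
    _ = Y ^ (ρ * e) := by
        rw [← Real.rpow_add hY0]
        congr 1
        ring

/-- **The count for one class on a beta-slice.** -/
theorem bslice_class (g : ℤ[X]) (hg : g.Monic) (hirr : Irreducible g) (hd : g.natDegree = 4)
    {ζ : Fin 4 → ℂ} (hζ : Function.Injective ζ) (hroot : ∀ j, aeval (ζ j) g = 0) {x0 x1 : ℝ}
    (hx0 : 0 ≤ x0) (hx01 : x0 ≤ x1) (hx1 : x1 ≤ 1 / 2) (hcert : CertB x0 x1) (K : ℝ)
    (hK : 1 ≤ K) :
    ∃ c : ℝ, 0 < c ∧ ∃ K' Y0 : ℝ, 0 ≤ K' ∧ ∀ Y d : ℝ, 1 ≤ Y → Y0 ≤ Y → 383 / 1000 ≤ d →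
      d ≤ 51 / 100 → 0 ≤ 1 - 8 / 3 * ((1 - d) / 2) + 2 * x0 - c ∧
      ∀ (m : ℤ) (f1 f2 : Fin 4 → ℤ) (E1 E2 : ℝ), NonSpecial g f1 f2 →
      (∀ i, |(f1 i : ℝ)| ≤ E1) → (∀ i, |(f2 i : ℝ)| ≤ E2) →
      Y ^ ((1 - d) / 2) ≤ K * E1 * Y ^ (2 / 3 * ((1 - d) / 2) + x1) →
      Y ^ ((1 - d) / 2) ≤ K * E2 * Y ^ (2 / 3 * ((1 - d) / 2) + x1) →
      ∀ (S : Finset ℤ) (p : ℤ → ℕ) (α β : ℤ → Fin 4 → ℤ) (u v : ℤ → ℤ),
      (∀ n ∈ S, IsSol 4 g K Y (Y ^ (1 + d)) n (p n) (α n) (β n) m ∧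
        OnSlice f1 f2 (β n) (u n) (v n) ∧ |(u n : ℝ)| * E1 ≤ K * Y ^ ((1 - d) / 2) ∧
        |(v n : ℝ)| * E2 ≤ K * Y ^ ((1 - d) / 2)) →
      (∀ n ∈ S, u n ≠ 0 ∧ v n ≠ 0) →
      (∀ n ∈ S, ∀ n' ∈ S, clsB ζ E1 E2 n (α n) (u n) (v n) = clsB ζ E1 E2 n' (α n') (u n') (v n')) →
      (∀ n ∈ S, ∀ n' ∈ S, u n * v n' = u n' * v n → n = n') →
      (S.card : ℝ) ≤ K' * Y ^ (1 - 8 / 3 * ((1 - d) / 2) + 2 * x0 - c) := by
  classical
  obtain ⟨i, s, T, i1, b1, I, e, w, ρ, G, η, hη, hi, hs, hw, hwd, hρ0, hρ, hi1, hb1, hI, hIb, hR,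
    hJe, hgain, hnum⟩ := hcert
  set N := NB i s with hN
  have hρpos : ∀ l, 1 ≤ l → l ≤ T + 1 → 0 < ρ l := by
    intro l
    induction l with
    | zero => intro h; omega
    | succ l ih =>
      intro _ hl
      rcases Nat.eq_zero_or_pos l with h0 | h0
      · have := hρ l (by omega)
        rw [h0] at this ⊢
        rwa [hρ0] at this
      · exact (ih h0 (by omega)).trans (hρ l (by omega))
  have hρ1 : 0 < ρ 1 := hρpos 1 le_rfl (by omega)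
  have hρmono : ∀ l, 1 ≤ l → l ≤ T + 1 → ρ 1 ≤ ρ l := by
    intro l
    induction l with
    | zero => intro h; omega
    | succ l ih =>
      intro _ hl
      rcases Nat.eq_zero_or_pos l with h0 | h0
      · rw [h0]
      · exact (ih h0 (by omega)).trans (hρ l (by omega)).le
  -- constants
  obtain ⟨A', hfirst⟩ := first_b hg hirr hd s i hs 2
  set A2 : ℝ := max 2 A' with hA2
  set K2 : ℝ := K ^ 2 with hK2
  have hK2K : K ≤ K2 := by rw [hK2]; nlinarith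
  have hglue : ∀ l, ∃ Kc : ℝ, 0 < Kc ∧ (l ≤ T → ∀ Y P : ℝ, 1 ≤ Y → 0 < P →
      ∀ (m : ℤ) (f1 f2 : Fin 4 → ℤ) (E1 E2 vv : ℝ),
      (∀ j l, j ≠ l → ev f1 (ζ j) * ev f2 (ζ l) ≠ ev f1 (ζ l) * ev f2 (ζ j)) →
      (∀ j, |(f1 j : ℝ)| ≤ E1) → (∀ j, |(f2 j : ℝ)| ≤ E2) →
      Y / (P ^ ((1 : ℝ) / 4)) ^ 2 ≤ K * E1 * Y ^ vv →
      Y / (P ^ ((1 : ℝ) / 4)) ^ 2 ≤ K * E2 * Y ^ vv →
      ∀ (cols : Fin N → ℕ × (Fin 4 → ℕ)), (∀ c, (cols c).1 ≤ i) → (∀ c, ∑ k, (cols c).2 k = s) →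
      ∀ (n : Fin N → ℤ) (p : Fin N → ℕ) (α β : Fin N → Fin 4 → ℤ) (u v : Fin N → ℤ),
      (∀ r, IsSol 4 g K Y P (n r) (p r) (α r) (β r) m) →
      (∀ r, OnSlice f1 f2 (β r) (u r) (v r)) →
      (∀ r, |(u r : ℝ)| * E1 * (P ^ ((1 : ℝ) / 4)) ^ 2 ≤ K * Y) →
      (∀ r, |(v r : ℝ)| * E2 * (P ^ ((1 : ℝ) / 4)) ^ 2 ≤ K * Y) →
      (∀ r r', clsB ζ E1 E2 (n r) (α r) (u r) (v r) = clsB ζ E1 E2 (n r') (α r') (u r') (v r')) →
      (∀ r r', arcB Y (w l) E1 E2 (u r) (v r) = arcB Y (w l) E1 E2 (u r') (v r')) →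
      |((Matrix.det (Matrix.of fun r c : Fin N => u r ^ (cols c).1 * v r ^ (i - (cols c).1) *
          ∏ k, α r k ^ (cols c).2 k) : ℤ) : ℝ)| ≤
      Kc * (Y ^ ((i : ℝ) * vv) * (P ^ ((1 : ℝ) / 4)) ^ s) ^ N * Y ^ (-(G l))) := by
    intro l
    by_cases hl : l ≤ T
    · obtain ⟨Kc, hKc, h⟩ := glueB' g hg hirr hd ζ hζ hroot K N i s (w l) (G l) (hw l hl)
        (hgain l hl)
      exact ⟨Kc, hKc, fun _ => h⟩
    · exact ⟨1, one_pos, fun h => absurd h hl⟩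
  choose KG hKG hglue' using hglue
  set KG0 : ℝ := ∑ l ∈ Finset.range (T + 1), KG l with hKG0
  have hKGle : ∀ l ≤ T, KG l ≤ KG0 := fun l hl =>
    Finset.single_le_sum (f := KG) (fun l _ => (hKG l).le) (Finset.mem_range.2 (by omega))
  have hKG00 : 0 ≤ KG0 := Finset.sum_nonneg fun l _ => (hKG l).le
  obtain ⟨C1, Y1, hC1, hclus⟩ := hasClusterB g hg hirr hd (4 * s) (eB s i) (4 * s + 1) K A2 (ρ 1)
    hρ1
  obtain ⟨K3, hkap⟩ := kapB_of g (fun I B K C ε hε => kap_rc g hg hirr hd I B K C ε hε) hg hirr hd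
    (4 * s) (eB s i) i1 b1 I hI hIb hR K2 A2 (ρ (T + 1)) η
    (η / 2) (hρpos _ (by omega) le_rfl) hη (by linarith)
  obtain ⟨Y2, hY2, hlarge⟩ := bslice_large KG0 η hη
  set Cmin : ℕ := 2 * (4 * s) * eB s i + eB s i + 1 with hCmin
  refine ⟨η / 2, by linarith, (4 * s + T * (4 * s + 1) + eB s i) *
    (5 * (C1 * (2 * Cmin + 1) + 1 + (|K3| + 1)) + 5), max (max Y1 Y2) (max 2 K2), by positivity, ?_⟩
  intro Y d hY hYY hd1 hd2
  obtain ⟨hnC, hnA, hnP⟩ := hnum d hd1 hd2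
  have hw0 := hw 0 (Nat.zero_le _)
  have hA0 := hnA 0 (Nat.zero_le _)
  rw [zero_add] at hA0
  refine ⟨by linarith, ?_⟩
  intro m f1 f2 E1 E2 hns hf1 hf2 hE1 hE2 S p α β u v hS hne hcls hinj
  have hYY1 : Y1 ≤ Y := (le_max_left _ _).trans ((le_max_left _ _).trans hYY)
  have hYY2 : Y2 ≤ Y := (le_max_right _ _).trans ((le_max_left _ _).trans hYY)
  have hY2' : 2 ≤ Y := (le_max_left _ _).trans ((le_max_right _ _).trans hYY)
  have hYK2 : K2 ≤ Y := (le_max_right _ _).trans ((le_max_right _ _).trans hYY)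
  have hY0 : 0 < Y := by linarith
  rcases S.eq_empty_or_nonempty with rfl | ⟨n0, hn0⟩
  · simp only [Finset.card_empty, Nat.cast_zero]; positivity
  set k : ℝ := (1 - d) / 2 with hk
  set h : ℝ := (1 + d) / 4 with hh
  set vv : ℝ := 2 / 3 * k + x1 with hvv
  set P : ℝ := Y ^ (1 + d) with hPdef
  have hP0 : 0 < P := Real.rpow_pos_of_pos hY0 _
  have hP1 : 1 ≤ P := Real.one_le_rpow hY (by linarith)
  have hvv0 : 0 ≤ vv := by rw [hvv, hk]; linarith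
  have hvv1 : vv ≤ 1 := by rw [hvv, hk]; linarith
  have hk1 : k ≤ 1 := by rw [hk]; linarith
  have hk0 : 0 ≤ k := by rw [hk]; linarith
  have hH : P ^ ((1 : ℝ) / 4) = Y ^ h := by
    rw [hPdef, ← Real.rpow_mul hY0.le, hh]
    congr 1
    ring
  have hBH : Y ^ k * (P ^ ((1 : ℝ) / 4)) ^ 2 = Y := by
    rw [hH, ← Real.rpow_natCast, ← Real.rpow_mul hY0.le, ← Real.rpow_add hY0, hk, hh]
    have : (1 - d) / 2 + (1 + d) / 4 * ((2 : ℕ) : ℝ) = 1 := by push_cast; ring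
    rw [this, Real.rpow_one]
  have hBH' : Y / (P ^ ((1 : ℝ) / 4)) ^ 2 = Y ^ k := by
    rw [div_eq_iff (by positivity), hBH]
  have hYk : 0 < Y ^ k := Real.rpow_pos_of_pos hY0 _
  have hYv : 0 < Y ^ vv := Real.rpow_pos_of_pos hY0 _
  have hE1p : 0 < E1 := by
    by_contra hcon
    have : K * E1 * Y ^ vv ≤ 0 := by
      have h1 : K * E1 ≤ 0 := mul_nonpos_of_nonneg_of_nonpos (by linarith) (not_lt.1 hcon)
      exact mul_nonpos_of_nonpos_of_nonneg h1 hYv.le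
    linarith
  have hE2p : 0 < E2 := by
    by_contra hcon
    have : K * E2 * Y ^ vv ≤ 0 := by
      have h1 : K * E2 ≤ 0 := mul_nonpos_of_nonneg_of_nonpos (by linarith) (not_lt.1 hcon)
      exact mul_nonpos_of_nonpos_of_nonneg h1 hYv.le
    linarith
  -- sizes
  have hsz : ∀ (x : ℤ) (E : ℝ), 0 < E → Y ^ k ≤ K * E * Y ^ vv → |(x : ℝ)| * E ≤ K * Y ^ k →
      |(x : ℝ)| ≤ K2 * Y ^ vv := by
    intro x E hE h1 h2
    have h3 : |(x : ℝ)| * E ≤ (K2 * Y ^ vv) * E := by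
      refine h2.trans ?_
      calc K * Y ^ k ≤ K * (K * E * Y ^ vv) := by gcongr
        _ = (K2 * Y ^ vv) * E := by rw [hK2]; ring
    exact le_of_mul_le_mul_right h3 hE
  have hu2 : ∀ n ∈ S, |(u n : ℝ)| ≤ K2 * Y ^ vv := fun n hn =>
    hsz _ _ hE1p hE1 (hS n hn).2.2.1
  have hv2 : ∀ n ∈ S, |(v n : ℝ)| ≤ K2 * Y ^ vv := fun n hn =>
    hsz _ _ hE2p hE2 (hS n hn).2.2.2
  have hYvv : K2 * Y ^ vv ≤ Y ^ (2 : ℝ) := by
    have h1 : Y ^ vv ≤ Y ^ (1 : ℝ) := Real.rpow_le_rpow_of_exponent_le hY hvv1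
    calc K2 * Y ^ vv ≤ Y * Y ^ (1 : ℝ) := by gcongr
      _ = Y ^ (2 : ℝ) := by rw [Real.rpow_one, Real.rpow_two]; ring
  have hYkk : K * Y ^ k ≤ Y ^ (2 : ℝ) := by
    have h1 : Y ^ k ≤ Y ^ (1 : ℝ) := Real.rpow_le_rpow_of_exponent_le hY hk1
    calc K * Y ^ k ≤ Y * Y ^ (1 : ℝ) := by
          gcongr
          exact hK2K.trans hYK2
      _ = Y ^ (2 : ℝ) := by rw [Real.rpow_one, Real.rpow_two]; ring
  have hYA2 : Y ^ (2 : ℝ) ≤ Y ^ A2 := Real.rpow_le_rpow_of_exponent_le hY (le_max_left _ _)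
  have hYA' : Y ^ A' ≤ Y ^ A2 := Real.rpow_le_rpow_of_exponent_le hY (le_max_right _ _)
  have hone : ∀ x : ℤ, x ≠ 0 → (1 : ℝ) ≤ |(x : ℝ)| := by
    intro x hx
    rw [← Int.cast_abs]
    exact_mod_cast Int.one_le_abs hx
  have hE1le : E1 ≤ Y ^ (2 : ℝ) :=
    ((le_mul_of_one_le_left hE1p.le (hone _ (hne n0 hn0).1)).trans (hS n0 hn0).2.2.1).trans hYkk
  have hE2le : E2 ≤ Y ^ (2 : ℝ) :=
    ((le_mul_of_one_le_left hE2p.le (hone _ (hne n0 hn0).2)).trans (hS n0 hn0).2.2.2).trans hYkk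
  have hf1A : ∀ j, |(f1 j : ℝ)| ≤ Y ^ A2 := fun j => (hf1 j).trans (hE1le.trans hYA2)
  have hf2A : ∀ j, |(f2 j : ℝ)| ≤ Y ^ A2 := fun j => (hf2 j).trans (hE2le.trans hYA2)
  have hPA : P ≤ Y ^ A2 :=
    Real.rpow_le_rpow_of_exponent_le hY (le_trans (by linarith) (le_max_left (2 : ℝ) A'))
  -- the first step
  obtain ⟨cols, hcinj, hcb, hfb⟩ := hfirst Y hY2' f1 f2 hns
  obtain ⟨hstep, hspan⟩ := hfb K P m S p α β u v (fun n hn => ⟨(hS n hn).1, (hS n hn).2.1,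
    (hne n hn).2, (hu2 n hn).trans hYvv, (hv2 n hn).trans hYvv⟩) hinj
  set V : ℤ → Fin N → ℤ := fun n c => fb i (cols c) (u n) (v n) (α n) with hV
  -- the real bound
  have hdet : ∀ l ≤ T, ∀ x : Fin N → ℤ, (∀ r, x r ∈ S) →
      (∀ r r', arcB Y (w l) E1 E2 (u (x r)) (v (x r)) = arcB Y (w l) E1 E2 (u (x r')) (v (x r'))) →
      |((Matrix.det (Matrix.of fun r => V (x r)) : ℤ) : ℝ)| <
        Y ^ (ρ l * e) := by
    intro l hl x hx harc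
    have h1 := hglue' l hl Y P hY hP0 m f1 f2 E1 E2 vv
      (fun j l hjl => hns (ζ j) (ζ l) (hroot j) (hroot l) (fun hh => hjl (hζ hh))) hf1 hf2
      (by rw [hBH']; exact hE1) (by rw [hBH']; exact hE2)
      cols (fun c => (hcb c).1) (fun c => (hcb c).2) x (fun r => p (x r)) (fun r => α (x r))
      (fun r => β (x r)) (fun r => u (x r))
      (fun r => v (x r)) (fun r => (hS _ (hx r)).1) (fun r => (hS _ (hx r)).2.1)
      (fun r => by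
        calc |(u (x r) : ℝ)| * E1 * (P ^ ((1 : ℝ) / 4)) ^ 2
            ≤ (K * Y ^ k) * (P ^ ((1 : ℝ) / 4)) ^ 2 :=
              mul_le_mul_of_nonneg_right (hS _ (hx r)).2.2.1 (by positivity)
          _ = K * (Y ^ k * (P ^ ((1 : ℝ) / 4)) ^ 2) := by ring
          _ = K * Y := by rw [hBH])
      (fun r => by
        calc |(v (x r) : ℝ)| * E2 * (P ^ ((1 : ℝ) / 4)) ^ 2
            ≤ (K * Y ^ k) * (P ^ ((1 : ℝ) / 4)) ^ 2 :=
              mul_le_mul_of_nonneg_right (hS _ (hx r)).2.2.2 (by positivity)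
          _ = K * (Y ^ k * (P ^ ((1 : ℝ) / 4)) ^ 2) := by ring
          _ = K * Y := by rw [hBH])
      (fun r r' => hcls _ (hx r) _ (hx r')) harc
    rw [hH] at h1
    exact bslice_det hY h1 (hKGle l hl) hKG00 (hlarge Y hYY2) (hnC l hl)
  -- curves of the arcs of level 0
  set arc : ℕ → ℤ → ℤ := fun l n => arcB Y (w l) E1 E2 (u n) (v n) with harc
  have hΓ : ∀ a : ℤ, ∃ Γ : Finset ℤ[X][X], Γ.card ≤ 4 * s ∧
      (∀ G ∈ Γ, CurveB s i (Y ^ A') G) ∧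
      ((S.filter fun n => arc 0 n = a).filter fun n =>
        ∀ G ∈ Γ, hev (eB s i) G (u n) (v n) n ≠ 0).card ≤ eB s i := by
    intro a
    refine hstep (S.filter fun n => arc 0 n = a) (Finset.filter_subset _ _) ?_
    intro x hx
    have h1 := hdet 0 (Nat.zero_le _) x (fun r => (Finset.mem_filter.1 (hx r)).1) (fun r r' => by
      have h2 := (Finset.mem_filter.1 (hx r)).2
      have h3 := (Finset.mem_filter.1 (hx r')).2
      simp only [harc] at h2 h3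
      rw [h2, h3])
    rw [hρ0, zero_mul, Real.rpow_zero] at h1
    have h2 : |Matrix.det (Matrix.of fun r => V (x r))| < 1 := by exact_mod_cast h1
    exact Int.abs_lt_one_iff.1 h2
  choose Γ hΓ1 hΓ2 hΓ3 using hΓ
  set good : ℤ → Prop := fun n => ∃ G ∈ Γ (arc 0 n), hev (eB s i) G (u n) (v n) n = 0 with hgood
  set S2 := S.filter good with hS2
  have hS2S : S2 ⊆ S := Finset.filter_subset _ _
  set Exc := S.filter (fun n => ¬ good n) with hExc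
  have hsplit : S.card = S2.card + Exc.card :=
    (Finset.card_filter_add_card_filter_not (s := S) good).symm
  have hA : ∀ l, 0 ≤ w l → (((S.image (arc l)).card : ℕ) : ℝ) ≤ 5 * Y ^ (w l) := fun l hl =>
    arcB_card hY hl hE1p hE2p S u v
  set AA : ℕ → ℕ := fun l => ⌊5 * Y ^ (w l)⌋₊ with hAA
  have hAl : ∀ l, 0 ≤ w l → (S.image (arc l)).card ≤ AA l := fun l hl => Nat.le_floor (hA l hl)
  have hExcc : Exc.card ≤ eB s i * AA 0 := by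
    have h1 : Exc.card ≤ eB s i * (Exc.image (arc 0)).card := by
      refine Finset.card_le_mul_card_image Exc _ fun a _ => ?_
      refine le_trans (Finset.card_le_card ?_) (hΓ3 a)
      intro n hn
      obtain ⟨hn1, hn2⟩ := Finset.mem_filter.1 hn
      obtain ⟨hn3, hn4⟩ := Finset.mem_filter.1 hn1
      rw [Finset.mem_filter, Finset.mem_filter]
      refine ⟨⟨hn3, hn2⟩, fun G hG h0 => hn4 ⟨G, ?_, h0⟩⟩
      rw [hn2]
      exact hG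
    refine h1.trans (Nat.mul_le_mul_left _ ?_)
    exact (Finset.card_le_card (Finset.image_subset_image (Finset.filter_subset _ _))).trans
      (hAl 0 hw0.le)
  set c : ℤ → ℤ[X][X] := fun n => if hn : good n then hn.choose else 0 with hc
  have hcs : ∀ n ∈ S2, c n ∈ Γ (arc 0 n) ∧ hev (eB s i) (c n) (u n) (v n) n = 0 := by
    intro n hn
    have hg' : good n := (Finset.mem_filter.1 hn).2
    simp only [hc, dif_pos hg']
    exact hg'.choose_spec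
  set Z : ℕ → ℕ := fun l => ⌈Y ^ (ρ l)⌉₊ with hZ
  have hZ1 : ∀ l, Y ^ (ρ l) ≤ (Z l : ℝ) := fun l => Nat.le_ceil _
  set BB : ℕ → ℕ := fun l => if l ≤ T then ⌈C1 * (Z l * Cmin + 1)⌉₊
    else ⌈|K3| * Y ^ (ρ (T + 1) + η / 2)⌉₊ with hBB
  have hnest : ∀ l < T, ∀ x ∈ S2, ∀ y ∈ S2, arc l x = arc l y → arc (l + 1) x = arc (l + 1) y :=
    fun l hl x _ y _ hxy => arcB_mono hY (hwd l hl).le hxy
  have hA' : ∀ l ≤ T, (S2.image (arc l)).card ≤ AA l := fun l hl =>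
    (Finset.card_le_card (Finset.image_subset_image hS2S)).trans (hAl l (hw l hl).le)
  have hc' : ∀ x ∈ S2, CurveB s i (Y ^ A') (c x) ∧ hev (eB s i) (c x) (u x) (v x) x = 0 :=
    fun x hx => ⟨hΓ2 _ _ (hcs x hx).1, (hcs x hx).2⟩
  have hJ0 : ∀ a, ((S2.filter fun x => arc 0 x = a).image c).card ≤ 4 * s := by
    intro a
    refine (Finset.card_le_card ?_).trans (hΓ1 a)
    intro G hG
    obtain ⟨n, hn, rfl⟩ := Finset.mem_image.1 hG
    obtain ⟨hn1, hn2⟩ := Finset.mem_filter.1 hn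
    rw [← hn2]
    exact (hcs n hn1).1
  have hBBl : ∀ l ≤ T, C1 * (Z l * Cmin + 1) ≤ (BB l : ℝ) := by
    intro l hl
    simp only [hBB, if_pos hl]
    exact Nat.le_ceil _
  have hBBT : |K3| * Y ^ (ρ (T + 1) + η / 2) ≤ (BB (T + 1) : ℝ) := by
    simp only [hBB, if_neg (show ¬ (T + 1 ≤ T) by omega)]
    exact Nat.le_ceil _
  have hcl : ∀ l, 1 ≤ l → l ≤ T → ∀ γ, CurveB s i (Y ^ A') γ → ∀ S' ⊆ S2,
      (∀ x ∈ S', hev (eB s i) γ (u x) (v x) x = 0) → BB l < S'.card →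
      HasCluster V S2 S' (4 * s + 1) (Z l) Cmin := by
    intro l hl1 hl γ hγ S' hS' hon hB F hF
    obtain ⟨q, hq, hqF, hZq, C', hC', hcard, hdiv⟩ := hclus Y P hYY1 hP1 hPA (Z l)
      ((Real.rpow_le_rpow_of_exponent_le hY (hρmono l hl1 (by omega))).trans (hZ1 l)) m f1 f2
      hf1A hf2A γ hγ.curve.1 hγ.pos hγ.deg hγ.degt (fun j k => (hγ.bdd j k).trans hYA') S' p α β u v
      (fun n hn => by
        have hnS := hS2S (hS' hn)
        exact ⟨(hS n hnS).1, (hS n hnS).2.1, ((hu2 n hnS).trans hYvv).trans hYA2,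
          ((hv2 n hnS).trans hYvv).trans hYA2, (hne n hnS).2, hon n hn⟩)
      (fun n hn n' hn' => hinj n (hS2S (hS' hn)) n' (hS2S (hS' hn'))) F hF
    refine ⟨q, hq, hqF, hZq, C', hC', ?_, fun x _ R hR => hdiv N i s cols hcb x R hR⟩
    by_contra hcon
    have h1 : (C'.card : ℝ) ≤ Cmin := by exact_mod_cast (not_le.1 hcon).le
    have h2 : (S'.card : ℝ) ≤ BB l := by
      refine hcard.trans (le_trans ?_ (hBBl l hl))
      have h3 : (Z l : ℝ) * C'.card ≤ Z l * Cmin := mul_le_mul_of_nonneg_left h1 (Nat.cast_nonneg _)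
      exact mul_le_mul_of_nonneg_left (by linarith) (by linarith)
    have h4 : S'.card ≤ BB l := by exact_mod_cast h2
    omega
  have hspan' : ∀ γ : ℕ → ℤ[X][X], (∀ j < 4 * s + 1, CurveB s i (Y ^ A') (γ j)) →
      (∀ j < 4 * s + 1, ∀ j' < 4 * s + 1, j ≠ j' → γ j ≠ γ j') → ∀ D : ℕ → Finset ℤ,
      (∀ j < 4 * s + 1, D j ⊆ S2 ∧ (∀ x ∈ D j, hev (eB s i) (γ j) (u x) (v x) x = 0) ∧
        Cmin ≤ (D j).card) →
      ∀ k : Fin N → ℤ, (∀ j < 4 * s + 1, ∀ x ∈ D j, ∑ c, k c * V x c = 0) → k = 0 :=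
    fun γ h1 h2 D h3 k h4 => hspan γ h1 h2 D (fun j hj => ⟨(h3 j hj).1.trans hS2S,
      (h3 j hj).2.1, (h3 j hj).2.2⟩) k h4
  have hreal : ∀ l, 1 ≤ l → l ≤ T → ∀ x : Fin N → ℤ, (∀ r, x r ∈ S2) →
      (∀ r r', arc l (x r) = arc l (x r')) →
      |Matrix.det (Matrix.of fun r => V (x r))| < (Z l : ℤ) ^ e := by
    intro l hl1 hl x hx hxx
    have h1 := hdet l hl x (fun r => hS2S (hx r)) hxx
    have h2 : Y ^ (ρ l * e) ≤ (Z l : ℝ) ^ e := by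
      calc Y ^ (ρ l * e) = (Y ^ (ρ l)) ^ e := by rw [Real.rpow_mul hY0.le, Real.rpow_natCast]
        _ ≤ (Z l : ℝ) ^ e :=
            pow_le_pow_left₀ (Real.rpow_pos_of_pos hY0 _).le (hZ1 l) e
    have h5 := lt_of_lt_of_le h1 h2
    exact_mod_cast h5
  have hlast : ∀ x ∈ S2, (S2.filter fun y => hev (eB s i) (c x) (u y) (v y) y = 0).card ≤
      BB (T + 1) := by
    intro x hx
    have hγ := (hc' x hx).1
    have h1 := hkap Y d vv hY (by linarith) (by linarith) hvv0 (by linarith) hnP m f1 f2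
      (fun j => ⟨hf1A j, hf2A j⟩) (bslice_rank hζ hroot hns) (c x) hγ.curve.1 hγ.pos hγ.deg
      hγ.degt (fun j k => (hγ.bdd j k).trans hYA')
      (S2.filter fun y => hev (eB s i) (c x) (u y) (v y) y = 0) p α β u v (fun n hn => by
        obtain ⟨hn1, hn2⟩ := Finset.mem_filter.1 hn
        have hnS := hS2S hn1
        exact ⟨IsSol.mono (hS n hnS).1 hK2K hY0.le hP0.le, (hS n hnS).2.1, hu2 n hnS,
          hv2 n hnS, (hne n hnS).2, hn2⟩)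
    have h2 : ((S2.filter fun y => hev (eB s i) (c x) (u y) (v y) y = 0).card : ℝ) ≤
        BB (T + 1) := by
      refine h1.trans (le_trans ?_ hBBT)
      exact mul_le_mul_of_nonneg_right (le_abs_self _) (Real.rpow_pos_of_pos hY0 _).le
    exact_mod_cast h2
  have hmain := cluster_count (N := N) V S2 T arc hnest AA hA' (fun G n =>
      hev (eB s i) G (u n) (v n) n = 0) c (CurveB s i (Y ^ A')) hc' (4 * s)
      (4 * s + 1) (by omega) hJ0 BB Z Cmin 0 e hcl hspan' (fun _ _ _ _ _ _ => Nat.zero_le _)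
      (fun n hn _ => he_cauchy (4 * s + 1) N e hJe (by omega) n hn)
      (fun l _ _ => Nat.ceil_pos.2 (Real.rpow_pos_of_pos hY0 _)) hreal hlast
  have hfin : (S.card : ℝ) = S2.card + Exc.card := by rw [hsplit]; push_cast; ring
  rw [hfin]
  exact bslice_num hY hη hρpos hC1 hnA (fun l => Nat.floor_le (by positivity))
    (fun l => (Nat.ceil_lt_add_one (Real.rpow_pos_of_pos hY0 (ρ l)).le).le)
    (fun l hl => by
      simp only [hBB, if_pos hl]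
      exact (Nat.ceil_lt_add_one (by positivity)).le)
    (by
      simp only [hBB, if_neg (show ¬ (T + 1 ≤ T) by omega)]
      exact (Nat.ceil_lt_add_one (by positivity)).le) hmain hExcc

/-- **The per-slice theorem on beta-slices.** -/
theorem bslice (g : ℤ[X]) (hg : g.Monic) (hirr : Irreducible g) (hd : g.natDegree = 4)
    {x0 x1 : ℝ} (hx0 : 0 ≤ x0) (hx01 : x0 ≤ x1) (hx1 : x1 ≤ 1 / 2) (hcert : CertB x0 x1) (K : ℝ)
    (hK : 1 ≤ K) :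
    ∃ c : ℝ, 0 < c ∧ ∃ K' Y0 : ℝ, ∀ Y d : ℝ, 1 ≤ Y → Y0 ≤ Y → 383 / 1000 ≤ d →
      d ≤ 51 / 100 → ∀ (m : ℤ) (f1 f2 : Fin 4 → ℤ) (E1 E2 : ℝ), NonSpecial g f1 f2 →
      (∀ i, |(f1 i : ℝ)| ≤ E1) → (∀ i, |(f2 i : ℝ)| ≤ E2) →
      Y ^ ((1 - d) / 2) ≤ K * E1 * Y ^ (2 / 3 * ((1 - d) / 2) + x1) →
      Y ^ ((1 - d) / 2) ≤ K * E2 * Y ^ (2 / 3 * ((1 - d) / 2) + x1) →
      ∀ (S : Finset ℤ) (p : ℤ → ℕ) (α β : ℤ → Fin 4 → ℤ) (u v : ℤ → ℤ),
      (∀ n ∈ S, IsSol 4 g K Y (Y ^ (1 + d)) n (p n) (α n) (β n) m ∧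
        OnSlice f1 f2 (β n) (u n) (v n) ∧ |(u n : ℝ)| * E1 ≤ K * Y ^ ((1 - d) / 2) ∧
        |(v n : ℝ)| * E2 ≤ K * Y ^ ((1 - d) / 2)) →
      (S.card : ℝ) ≤ K' * Y ^ (1 - 8 / 3 * ((1 - d) / 2) + 2 * x0 - c) := by
  classical
  obtain ⟨ζ, hζ, hroot, -⟩ := Pool.Agent.SQF.LamZ.exists_roots hg hirr hd
  obtain ⟨c, hc, K1, Y1, hK1, hclass⟩ := bslice_class g hg hirr hd hζ hroot hx0 hx01 hx1 hcert K hK
  obtain ⟨C2, Y2, hY2, hbc⟩ := bclass g hg hirr hd K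
  set κ := (Fin 4 → Bool × Bool) × (Bool × Bool × Bool × Bool) with hκ
  refine ⟨c, hc, C2 * Fintype.card κ * (K1 + 1), max Y1 Y2, ?_⟩
  intro Y d hY hYY hd1 hd2 m f1 f2 E1 E2 hns hf1 hf2 hE1 hE2 S p α β u v hS
  obtain ⟨hexp, hcl⟩ := hclass Y d hY ((le_max_left _ _).trans hYY) hd1 hd2
  have hY0 : 0 < Y := by linarith
  obtain ⟨S', hS', hne, hcls, hinj, hcard⟩ := hbc Y (Y ^ (1 + d)) ((le_max_right _ _).trans hYY)
    (Real.rpow_pos_of_pos hY0 _) (Real.rpow_le_rpow_of_exponent_le hY (by linarith)) m f1 f2 S p α β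
    u v (fun n hn => ⟨(hS n hn).1, (hS n hn).2.1⟩) κ
    (fun n => clsB ζ E1 E2 n (α n) (u n) (v n))
  have h1 := hcl m f1 f2 E1 E2 hns hf1 hf2 hE1 hE2 S' p α β u v (fun n hn => hS n (hS' hn)) hne
    hcls hinj
  have h2 : (1 : ℝ) ≤ Y ^ (1 - 8 / 3 * ((1 - d) / 2) + 2 * x0 - c) := Real.one_le_rpow hY hexp
  have h3 : (S.card : ℝ) ≤ C2 * Fintype.card κ * (S'.card + 1) := by exact_mod_cast hcard
  refine h3.trans ?_
  calc (C2 : ℝ) * Fintype.card κ * (S'.card + 1)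
      ≤ C2 * Fintype.card κ * ((K1 + 1) * Y ^ (1 - 8 / 3 * ((1 - d) / 2) + 2 * x0 - c)) := by
        have h4 : (S'.card : ℝ) + 1 ≤
            (K1 + 1) * Y ^ (1 - 8 / 3 * ((1 - d) / 2) + 2 * x0 - c) := by
          rw [add_mul, one_mul]
          exact add_le_add h1 h2
        exact mul_le_mul_of_nonneg_left h4 (mul_nonneg (Nat.cast_nonneg _) (Nat.cast_nonneg _))
    _ = _ := by ring

/-- the statement used for the whole range -/
theorem sliceB (g : ℤ[X]) (hg : g.Monic) (hirr : Irreducible g) (hd : g.natDegree = 4)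
    (x0 x1 : ℝ) (hx0 : 0 ≤ x0) (hx01 : x0 < x1) (hx1 : x1 ≤ 13 / 125) (hcert : CertB x0 x1) :
    SliceB g x0 x1 := by
  intro K hK
  obtain ⟨c, hc, C, Y0, h⟩ := bslice g hg hirr hd hx0 hx01.le (by linarith) hcert K hK
  refine ⟨c, hc, C, Y0, ?_⟩
  intro Y d hY hYY hd1 hd2 m f1 f2 _ _ _ _ _ hns hE1 hE2 S p α β u v hS
  have hsn : ∀ (f : Fin 4 → ℤ) (i : Fin 4), |(f i : ℝ)| ≤ (sn f : ℝ) := by
    intro f i
    have h1 := le_sn f i
    have h2 : |(f i : ℝ)| = ((f i).natAbs : ℝ) := by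
      rw [Nat.cast_natAbs, Int.cast_abs]
    rw [h2]
    exact_mod_cast h1
  exact h Y d hY hYY hd1 hd2 m f1 f2 (sn f1) (sn f2) hns (hsn f1) (hsn f2) hE1 hE2 S p α β u v hS

/-- **The range of beta-slices.** -/
theorem rangeBSol (g : ℤ[X]) (hg : g.Monic) (hirr : Irreducible g) (hd : g.natDegree = 4) :
    RangeBoundSol 4 g (383 / 1000) (51 / 100) :=
  rangeB hg hirr hd (fun x0 x1 h0 h1 h2 h3 => sliceB g hg hirr hd x0 x1 h0 h1 h2 h3)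

end Pool.Agent.Lib.SQF
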