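import Mathlib

/-!
Balls lemma (helper16, SQF).  For `M` an integer polynomial of degree at most `D`, `D ≥ 1`, and
`c ≥ 1` the set of the integers `x` with `c ∣ M x` is a union of at most `D ^ ω(c)` residue
classes to moduli dividing `c`.
-/

set_option autoImplicit false

open Polynomial

namespace Pool.Agent.Lib.SQF

/-- evaluation by Lagrange interpolation, in the p-adic numbers -/
theorem lagrange_eval {K : Type*} [Field K] [CharZero K] (M : ℤ[X]) (T : Finset ℤ)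
    (hT : M.natDegree < T.card) (x : ℤ) :
    ((M.eval x : ℤ) : K) =
      ∑ k ∈ T, ((M.eval k : ℤ) : K) * ∏ i ∈ T.erase k, (((x : K) - i) / ((k : K) - i)) := by
  have hinj : Set.InjOn (fun k : ℤ => (k : K)) (T : Set ℤ) := fun a _ b _ h => by
    simp at h; exact h
  set f : K[X] := M.map (Int.castRingHom K) with hf
  have hdeg : f.degree < T.card := by
    refine lt_of_le_of_lt degree_le_natDegree ?_
    have : f.natDegree ≤ M.natDegree := natDegree_map_le
    exact_mod_cast lt_of_le_of_lt this hT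
  have h := Lagrange.eq_interpolate (s := T) (v := fun k : ℤ => (k : K)) hinj hdeg
  have hev : ∀ k : ℤ, f.eval (k : K) = ((M.eval k : ℤ) : K) := by
    intro k
    rw [hf, eval_map]
    have := eval₂_at_intCast (p := M) (Int.castRingHom K) k
    simpa using this
  have h2 := congrArg (fun g => g.eval (x : K)) h
  simp only [hev] at h2
  rw [h2, Lagrange.interpolate_apply, eval_finsetSum]
  refine Finset.sum_congr rfl fun k hk => ?_
  rw [eval_mul, eval_C, Lagrange.basis, eval_prod]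
  congr 1
  refine Finset.prod_congr rfl fun i hi => ?_
  rw [Lagrange.basisDivisor, eval_mul, eval_C, eval_sub, eval_X, eval_C]
  rw [div_eq_mul_inv, mul_comm]

theorem sep_card_le (D : ℕ) (hD : 1 ≤ D) (M : ℤ[X]) (hM : M.natDegree ≤ D) (l : ℕ)
    [Fact l.Prime] (a : ℕ) (j : ℤ → ℕ) (T : Finset ℤ)
    (hTS : ∀ x ∈ T, (l : ℤ) ^ a ∣ M.eval x)
    (hj : ∀ x ∈ T, ∀ i < j x, ∃ y : ℤ, ¬ (l : ℤ) ^ a ∣ M.eval (x + (l : ℤ) ^ i * y))
    (hsep : ∀ x ∈ T, ∀ y ∈ T, x ≠ y → ¬ (l : ℤ) ^ (j x) ∣ y - x) : T.card ≤ D := by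
  by_contra hcon
  push Not at hcon
  have hcard : M.natDegree < T.card := lt_of_le_of_lt hM hcon
  have hlp : (l : ℕ).Prime := Fact.out
  have hl0 : (0 : ℝ) < (l : ℝ) := by exact_mod_cast hlp.pos
  let N : ℤ → ℝ := fun z => ‖(z : ℚ_[l])‖
  have hN0 : ∀ z, 0 ≤ N z := fun z => norm_nonneg _
  have hTne : T.Nonempty := Finset.card_pos.1 (by omega)
  obtain ⟨x0, hx0, hmin⟩ := Finset.exists_min_image T
    (fun k => ∏ i ∈ T.erase k, N (k - i)) hTne
  -- a second point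
  obtain ⟨x1, hx1, hx10⟩ := Finset.exists_mem_ne (s := T) (by omega) x0
  have hj0 : 0 < j x0 := by
    rcases Nat.eq_zero_or_pos (j x0) with h | h
    · exfalso
      have := hsep x0 hx0 x1 hx1 (Ne.symm hx10)
      rw [h] at this
      simp at this
    · exact h
  obtain ⟨y, hy⟩ := hj x0 hx0 (j x0 - 1) (by omega)
  apply hy
  set x : ℤ := x0 + (l : ℤ) ^ (j x0 - 1) * y with hx
  -- norms
  have hxx0 : N (x - x0) ≤ (l : ℝ) ^ (-((j x0 - 1 : ℕ) : ℤ)) := by
    have : ((l ^ (j x0 - 1) : ℕ) : ℤ) ∣ (x - x0) := ⟨y, by rw [hx]; push_cast; ring⟩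
    exact (Padic.norm_int_le_pow_iff_dvd _ _).2 this
  have hsepN : ∀ i ∈ T, i ≠ x0 → (l : ℝ) ^ (-((j x0 - 1 : ℕ) : ℤ)) ≤ N (x0 - i) := by
    intro i hi hne
    have h1 := hsep x0 hx0 i hi (Ne.symm hne)
    have h2 : ¬ N (x0 - i) ≤ (l : ℝ) ^ (-((j x0 : ℕ) : ℤ)) := by
      intro h3
      apply h1
      have h4 := (Padic.norm_int_le_pow_iff_dvd (x0 - i) (j x0)).1 h3
      have h5 : (l : ℤ) ^ (j x0) ∣ x0 - i := by exact_mod_cast h4
      have : i - x0 = -(x0 - i) := by ring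
      rw [this]
      exact (dvd_neg).2 h5
    have h3 := (Padic.norm_le_pow_iff_norm_lt_pow_add_one ((x0 - i : ℤ) : ℚ_[l])
      (-((j x0 : ℕ) : ℤ))).not.1 h2
    push Not at h3
    have h6 : (-((j x0 : ℕ) : ℤ)) + 1 = -((j x0 - 1 : ℕ) : ℤ) := by omega
    rw [h6] at h3
    exact h3
  have hxi : ∀ i ∈ T, i ≠ x0 → N (x - i) ≤ N (x0 - i) := by
    intro i hi hne
    have h1 : N (x - i) ≤ max (N (x - x0)) (N (x0 - i)) := by
      have h0 : ((x - i : ℤ) : ℚ_[l]) = ((x - x0 : ℤ) : ℚ_[l]) + ((x0 - i : ℤ) : ℚ_[l]) := by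
        push_cast; ring
      change ‖((x - i : ℤ) : ℚ_[l])‖ ≤ _
      rw [h0]
      exact Padic.nonarchimedean _ _
    exact h1.trans (max_le (hxx0.trans (hsepN i hi hne)) le_rfl)
  have hprod : ∀ k ∈ T, ∏ i ∈ T.erase k, N (x - i) ≤ ∏ i ∈ T.erase k, N (k - i) := by
    intro k hk
    by_cases hk0 : k = x0
    · subst hk0
      refine Finset.prod_le_prod (fun i _ => hN0 _) fun i hi => ?_
      rw [Finset.mem_erase] at hi
      exact hxi i hi.2 hi.1
    · refine le_trans ?_ (hmin k hk)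
      have hm1 : x0 ∈ T.erase k := Finset.mem_erase.2 ⟨Ne.symm hk0, hx0⟩
      have hm2 : k ∈ T.erase x0 := Finset.mem_erase.2 ⟨hk0, hk⟩
      rw [← Finset.mul_prod_erase _ _ hm1]
      change _ ≤ ∏ i ∈ T.erase x0, N (x0 - i)
      rw [← Finset.mul_prod_erase _ _ hm2, Finset.erase_right_comm]
      refine mul_le_mul ?_ ?_ (Finset.prod_nonneg fun i _ => hN0 _) (hN0 _)
      · exact hxx0.trans (hsepN k hk hk0)
      · refine Finset.prod_le_prod (fun i _ => hN0 _) fun i hi => ?_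
        simp only [Finset.mem_erase] at hi
        exact hxi i hi.2.2 hi.2.1
  have hfin : N (M.eval x) ≤ (l : ℝ) ^ (-(a : ℤ)) := by
    change ‖((M.eval x : ℤ) : ℚ_[l])‖ ≤ _
    rw [lagrange_eval (K := ℚ_[l]) M T hcard x]
    refine IsUltrametricDist.norm_sum_le_of_forall_le_of_nonneg (by positivity) fun k hk => ?_
    rw [norm_mul, norm_prod]
    have h1 : ‖((M.eval k : ℤ) : ℚ_[l])‖ ≤ (l : ℝ) ^ (-(a : ℤ)) := by
      refine (Padic.norm_int_le_pow_iff_dvd _ _).2 ?_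
      exact_mod_cast hTS k hk
    have h2 : ∏ i ∈ T.erase k, ‖((x : ℚ_[l]) - i) / ((k : ℚ_[l]) - i)‖ ≤ 1 := by
      have h3 : ∀ i ∈ T.erase k, ‖((x : ℚ_[l]) - i) / ((k : ℚ_[l]) - i)‖
          = N (x - i) / N (k - i) := by
        intro i _
        rw [norm_div]
        simp only [N]
        push_cast
        rfl
      rw [Finset.prod_congr rfl h3, Finset.prod_div_distrib]
      exact div_le_one_of_le₀ (hprod k hk) (Finset.prod_nonneg fun i _ => hN0 _)
    calc _ ≤ (l : ℝ) ^ (-(a : ℤ)) * 1 :=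
          mul_le_mul h1 h2 (Finset.prod_nonneg fun i _ => norm_nonneg _) (by positivity)
      _ = _ := mul_one _
  have := (Padic.norm_int_le_pow_iff_dvd (p := l) (M.eval x) a).1 hfin
  exact_mod_cast this

/-- prime powers -/
theorem primePow_cover (D : ℕ) (hD : 1 ≤ D) (M : ℤ[X]) (hM : M.natDegree ≤ D) (l : ℕ)
    (hl : l.Prime) (a : ℕ) :
    ∃ R : Finset (ℤ × ℕ), R.card ≤ D ∧ (∀ p ∈ R, p.2 ∣ l ^ a) ∧
      (∀ x : ℤ, ((l ^ a : ℕ) : ℤ) ∣ M.eval x → ∃ p ∈ R, (p.2 : ℤ) ∣ x - p.1) ∧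
      (∀ p ∈ R, ∀ y : ℤ, ((l ^ a : ℕ) : ℤ) ∣ M.eval (p.1 + p.2 * y)) := by
  classical
  haveI : Fact l.Prime := ⟨hl⟩
  have hex : ∀ x : ℤ, (l : ℤ) ^ a ∣ M.eval x →
      ∃ i : ℕ, ∀ y : ℤ, (l : ℤ) ^ a ∣ M.eval (x + (l : ℤ) ^ i * y) := by
    intro x hx
    refine ⟨a, fun y => ?_⟩
    have h1 : (x + (l : ℤ) ^ a * y) - x ∣ M.eval (x + (l : ℤ) ^ a * y) - M.eval x :=
      sub_dvd_eval_sub _ _ _
    have h2 : (l : ℤ) ^ a ∣ M.eval (x + (l : ℤ) ^ a * y) - M.eval x :=
      dvd_trans ⟨y, by ring⟩ h1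
    have := dvd_add h2 hx
    simpa using this
  let j : ℤ → ℕ := fun x => if h : (l : ℤ) ^ a ∣ M.eval x then Nat.find (hex x h) else 0
  have hjs : ∀ x, (l : ℤ) ^ a ∣ M.eval x →
      ∀ y : ℤ, (l : ℤ) ^ a ∣ M.eval (x + (l : ℤ) ^ (j x) * y) := by
    intro x h
    simp only [j, h, dif_pos]
    exact Nat.find_spec (hex x h)
  have hjmin : ∀ x, (l : ℤ) ^ a ∣ M.eval x → ∀ i < j x,
      ∃ y : ℤ, ¬ (l : ℤ) ^ a ∣ M.eval (x + (l : ℤ) ^ i * y) := by
    intro x h i hi
    simp only [j, h, dif_pos] at hi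
    have := Nat.find_min (hex x h) hi
    push Not at this
    exact this
  have hjle : ∀ x, (l : ℤ) ^ a ∣ M.eval x → ∀ i : ℕ,
      (∀ y : ℤ, (l : ℤ) ^ a ∣ M.eval (x + (l : ℤ) ^ i * y)) → j x ≤ i := by
    intro x h i hi
    simp only [j, h, dif_pos]
    exact Nat.find_min' (hex x h) hi
  -- a separated set of maximal cardinality
  let P : Finset ℤ → Prop := fun T => (∀ x ∈ T, (l : ℤ) ^ a ∣ M.eval x) ∧
    (∀ x ∈ T, ∀ y ∈ T, x ≠ y → ¬ (l : ℤ) ^ (j x) ∣ y - x)
  have hbound : ∀ T, P T → T.card ≤ D := fun T hT =>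
    sep_card_le D hD M hM l a j T hT.1 (fun x hx => hjmin x (hT.1 x hx)) hT.2
  let Q : ℕ → Prop := fun n => ∃ T, P T ∧ T.card = n
  have hQ0 : Q 0 := ⟨∅, ⟨by simp, by simp⟩, rfl⟩
  have hQb : ∀ n, Q n → n ≤ D := fun n ⟨T, hT, hc⟩ => hc ▸ hbound T hT
  obtain ⟨T, hT, hTc⟩ : Q (Nat.findGreatest Q D) := Nat.findGreatest_spec (Nat.zero_le D) hQ0
  refine ⟨T.image (fun x => (x, l ^ (j x))), Finset.card_image_le.trans (hbound T hT),
    ?_, ?_, ?_⟩
  · intro p hp
    obtain ⟨x, hx, rfl⟩ := Finset.mem_image.1 hp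
    refine pow_dvd_pow _ (hjle x (hT.1 x hx) a ?_)
    intro y
    have h1 : (x + (l : ℤ) ^ a * y) - x ∣ M.eval (x + (l : ℤ) ^ a * y) - M.eval x :=
      sub_dvd_eval_sub _ _ _
    have h2 : (l : ℤ) ^ a ∣ M.eval (x + (l : ℤ) ^ a * y) - M.eval x :=
      dvd_trans ⟨y, by ring⟩ h1
    have := dvd_add h2 (hT.1 x hx)
    simpa using this
  · intro x hx
    have hx' : (l : ℤ) ^ a ∣ M.eval x := by exact_mod_cast hx
    by_contra hno
    push Not at hno
    have hno' : ∀ t ∈ T, ¬ (l : ℤ) ^ (j t) ∣ x - t := by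
      intro t ht
      have := hno (t, l ^ (j t)) (Finset.mem_image_of_mem _ ht)
      push_cast at this
      exact this
    have hxT : x ∉ T := fun h => hno' x h (by simp)
    have hP : P (insert x T) := by
      refine ⟨?_, ?_⟩
      · intro y hy
        rcases Finset.mem_insert.1 hy with rfl | hy
        · exact hx'
        · exact hT.1 y hy
      · intro y hy z hz hyz
        rcases Finset.mem_insert.1 hy with rfl | hy'
        · rcases Finset.mem_insert.1 hz with rfl | hz'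
          · exact absurd rfl hyz
          · -- x has z in its ball
            intro hd
            apply hno' z hz'
            have hle : j z ≤ j y := by
              refine hjle z (hT.1 z hz') (j y) fun w => ?_
              obtain ⟨u, hu⟩ := hd
              have : z + (l : ℤ) ^ (j y) * w = y + (l : ℤ) ^ (j y) * (u + w) := by
                have : z = y + (l : ℤ) ^ (j y) * u := by linarith
                rw [this]; ring
              rw [this]
              exact hjs y hx' _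
            have h1 : (l : ℤ) ^ (j z) ∣ (l : ℤ) ^ (j y) := pow_dvd_pow _ hle
            have h2 := h1.trans hd
            have h3 : y - z = -(z - y) := by ring
            rw [h3]
            exact (dvd_neg).2 h2
        · rcases Finset.mem_insert.1 hz with rfl | hz'
          · exact hno' y hy'
          · exact hT.2 y hy' z hz' hyz
    have hQ1 : Q (T.card + 1) := ⟨insert x T, hP, Finset.card_insert_of_notMem hxT⟩
    have h2 := Nat.le_findGreatest (hQb _ hQ1) hQ1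
    omega
  · intro p hp y
    obtain ⟨x, hx, rfl⟩ := Finset.mem_image.1 hp
    have := hjs x (hT.1 x hx) y
    push_cast
    exact this

/-- BALLS LEMMA: `{x : c ∣ M x}` is a union of at most `D ^ ω(c)` residue classes to moduli
dividing `c`. -/
theorem balls_cover (D : ℕ) (hD : 1 ≤ D) (M : ℤ[X]) (hM : M.natDegree ≤ D) (c : ℕ)
    (hc : c ≠ 0) :
    ∃ R : Finset (ℤ × ℕ), R.card ≤ D ^ c.primeFactors.card ∧ (∀ p ∈ R, p.2 ∣ c) ∧
      (∀ x : ℤ, (c : ℤ) ∣ M.eval x → ∃ p ∈ R, (p.2 : ℤ) ∣ x - p.1) ∧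
      (∀ p ∈ R, ∀ y : ℤ, (c : ℤ) ∣ M.eval (p.1 + p.2 * y)) := by
  classical
  induction c using Nat.recOnPosPrimePosCoprime with
  | zero => exact absurd rfl hc
  | one =>
    refine ⟨{(0, 1)}, by simp, by simp, ?_, ?_⟩
    · intro x _
      exact ⟨(0, 1), by simp, by simp⟩
    · intro p _ y
      simp
  | prime_pow l n hl hn =>
    obtain ⟨R, h1, h2, h3, h4⟩ := primePow_cover D hD M hM l hl n
    refine ⟨R, ?_, h2, h3, h4⟩
    rw [Nat.primeFactors_prime_pow (by omega) hl]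
    simpa using h1
  | coprime m n hm hn hmn ihm ihn =>
    obtain ⟨R1, a1, b1, c1, d1⟩ := ihm (by omega)
    obtain ⟨R2, a2, b2, c2, d2⟩ := ihn (by omega)
    have hcop : ∀ p ∈ R1, ∀ q ∈ R2, Nat.Coprime p.2 q.2 := fun p hp q hq =>
      Nat.Coprime.coprime_dvd_left (b1 p hp) (Nat.Coprime.coprime_dvd_right (b2 q hq) hmn)
    have hcrt : ∀ pq : (ℤ × ℕ) × (ℤ × ℕ), ∃ r : ℤ, pq.1 ∈ R1 → pq.2 ∈ R2 →
        (pq.1.2 : ℤ) ∣ r - pq.1.1 ∧ (pq.2.2 : ℤ) ∣ r - pq.2.1 := by
      rintro ⟨p, q⟩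
      by_cases h : p ∈ R1 ∧ q ∈ R2
      · have hco : IsCoprime (p.2 : ℤ) (q.2 : ℤ) := by
          exact_mod_cast Nat.isCoprime_iff_coprime.2 (hcop p h.1 q h.2)
        obtain ⟨u, v, huv⟩ := hco
        refine ⟨p.1 + u * p.2 * (q.1 - p.1), fun _ _ => ⟨?_, ?_⟩⟩
        · exact ⟨u * (q.1 - p.1), by ring⟩
        · refine ⟨- v * (q.1 - p.1), ?_⟩
          have : u * (p.2 : ℤ) = 1 - v * q.2 := by linarith
          simp only
          rw [this]; ring
      · refine ⟨0, fun h1 h2 => absurd ⟨h1, h2⟩ h⟩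
    choose r hr using hcrt
    refine ⟨(R1 ×ˢ R2).image (fun pq => (r pq, pq.1.2 * pq.2.2)), ?_, ?_, ?_, ?_⟩
    · refine Finset.card_image_le.trans ?_
      rw [Finset.card_product, Nat.Coprime.primeFactors_mul hmn,
        Finset.card_union_of_disjoint (Nat.Coprime.disjoint_primeFactors hmn), pow_add]
      exact Nat.mul_le_mul a1 a2
    · intro p hp
      obtain ⟨pq, hpq, rfl⟩ := Finset.mem_image.1 hp
      rw [Finset.mem_product] at hpq
      exact Nat.mul_dvd_mul (b1 _ hpq.1) (b2 _ hpq.2)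
    · intro x hx
      have hx1 : (m : ℤ) ∣ M.eval x := dvd_trans ⟨(n : ℤ), by push_cast; ring⟩ hx
      have hx2 : (n : ℤ) ∣ M.eval x := dvd_trans ⟨(m : ℤ), by push_cast; ring⟩ hx
      obtain ⟨p, hp, hpx⟩ := c1 x hx1
      obtain ⟨q, hq, hqx⟩ := c2 x hx2
      refine ⟨(r (p, q), p.2 * q.2), Finset.mem_image.2
        ⟨(p, q), Finset.mem_product.2 ⟨hp, hq⟩, rfl⟩, ?_⟩
      obtain ⟨h1, h2⟩ := hr (p, q) hp hq
      have hco : IsCoprime (p.2 : ℤ) (q.2 : ℤ) := by
        exact_mod_cast Nat.isCoprime_iff_coprime.2 (hcop p hp q hq)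
      push_cast
      refine hco.mul_dvd ?_ ?_
      · have : x - r (p, q) = (x - p.1) - (r (p, q) - p.1) := by ring
        rw [this]; exact dvd_sub hpx h1
      · have : x - r (p, q) = (x - q.1) - (r (p, q) - q.1) := by ring
        rw [this]; exact dvd_sub hqx h2
    · intro p hp y
      obtain ⟨⟨p1, q1⟩, hpq, rfl⟩ := Finset.mem_image.1 hp
      rw [Finset.mem_product] at hpq
      obtain ⟨h1, h2⟩ := hr (p1, q1) hpq.1 hpq.2
      have hco : IsCoprime (m : ℤ) (n : ℤ) := by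
        exact_mod_cast Nat.isCoprime_iff_coprime.2 hmn
      push_cast
      refine hco.mul_dvd ?_ ?_
      · obtain ⟨u, hu⟩ := h1
        have : r (p1, q1) + (p1.2 : ℤ) * q1.2 * y = p1.1 + p1.2 * (u + q1.2 * y) := by
          simp only at hu
          have : r (p1, q1) = p1.1 + p1.2 * u := by linarith
          rw [this]; ring
        rw [this]
        exact d1 _ hpq.1 _
      · obtain ⟨u, hu⟩ := h2
        have : r (p1, q1) + (p1.2 : ℤ) * q1.2 * y = q1.1 + q1.2 * (u + p1.2 * y) := by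
          simp only at hu
          have : r (p1, q1) = q1.1 + q1.2 * u := by linarith
          rw [this]; ring
        rw [this]
        exact d2 _ hpq.2 _

end Pool.Agent.Lib.SQF
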