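import Mathlib
import Pool.Agent.Lib.SQF.Final

/-!
# SQF, module Final, second part: reflection, non-monic polynomials, the density theorem
-/

set_option autoImplicit false

open Polynomial Filter Topology

namespace Pool.Agent.Lib.SQF

/-- the reflected polynomial `± g(-x)` -/
lemma exists_reflect (g : ℤ[X]) (hg : g.Monic) (hirr : Irreducible g) :
    ∃ g' : ℤ[X], g'.Monic ∧ Irreducible g' ∧ g'.natDegree = g.natDegree ∧
      ∀ n m : ℤ, m ∣ g'.eval n ↔ m ∣ g.eval (-n) := by
  have hu : IsUnit (C ((-1 : ℤ) ^ g.natDegree) : ℤ[X]) := by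
    rw [Polynomial.isUnit_C]
    exact (isUnit_one.neg).pow _
  refine ⟨C ((-1 : ℤ) ^ g.natDegree) * g.comp (-X), ?_, ?_, ?_, ?_⟩
  · unfold Polynomial.Monic
    rw [leadingCoeff_mul, leadingCoeff_C, comp_neg_X_leadingCoeff_eq, hg.leadingCoeff, mul_one,
      ← mul_pow]
    norm_num
  · have h1 : Irreducible (g.comp (-X)) := by
      have := (MulEquiv.irreducible_iff (algEquivAevalNegX (R := ℤ)) (x := g)).2 hirr
      have e : (algEquivAevalNegX (R := ℤ)) g = g.comp (-X) := by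
        rw [algEquivAevalNegX_apply, ← comp_eq_aeval]
      rwa [e] at this
    obtain ⟨u, hu⟩ := hu
    rw [← hu]
    exact (irreducible_units_mul u).2 h1
  · rw [natDegree_C_mul (pow_ne_zero _ (by norm_num)), natDegree_comp]
    simp
  · intro n m
    rw [eval_mul, eval_C, eval_comp]
    simp only [eval_neg, eval_X]
    have h2 : IsUnit ((-1 : ℤ) ^ g.natDegree) := (isUnit_one.neg).pow _
    exact h2.dvd_mul_left

/-- positive `n` only -/
def pset (g : ℤ[X]) (Y P : ℝ) : Set ℤ :=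
  {n : ℤ | Y ≤ (n : ℝ) ∧ (n : ℝ) < 2 * Y ∧
    ∃ p : ℕ, p.Prime ∧ P ≤ (p : ℝ) ∧ (p : ℝ) < 2 * P ∧ (p : ℤ) ^ 2 ∣ g.eval n}

/-- number of positive `n` -/
noncomputable def pcount (g : ℤ[X]) (Y P : ℝ) : ℕ := (pset g Y P).ncard

/-- power saving in a range, positive `n` only -/
def PosRangeBound (g : ℤ[X]) (d1 d2 : ℝ) : Prop :=
  ∃ c : ℝ, 0 < c ∧ ∃ K : ℝ, ∀ Y P : ℝ, 1 ≤ Y → Y ^ (1 + d1) ≤ P → P ≤ Y ^ (1 + d2) →
    (pcount g Y P : ℝ) ≤ K * Y ^ (1 - c)

lemma pset_finite (g : ℤ[X]) (Y P : ℝ) : (pset g Y P).Finite := by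
  refine (ball_finite (2 * |Y|)).subset (fun n hn => ?_)
  have h1 : Y ≤ (n : ℝ) := hn.1
  have h2 : (n : ℝ) < 2 * Y := hn.2.1
  have h3 : 0 < Y := by linarith
  show |(n : ℝ)| ≤ 2 * |Y|
  rw [abs_of_pos h3, abs_of_pos (h3.trans_le h1)]
  exact h2.le

/-- both signs: `g` and the reflected polynomial -/
lemma exists_wcount_le (g : ℤ[X]) (hg : g.Monic) (hirr : Irreducible g) :
    ∃ g' : ℤ[X], g'.Monic ∧ Irreducible g' ∧ g'.natDegree = g.natDegree ∧
      ∀ Y P : ℝ, wcount g Y P ≤ pcount g Y P + pcount g' Y P := by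
  obtain ⟨g', hg', hirr', hd', hev⟩ := exists_reflect g hg hirr
  refine ⟨g', hg', hirr', hd', fun Y P => ?_⟩
  have hsub : wset g Y P ⊆ pset g Y P ∪ (fun n : ℤ => -n) '' (pset g' Y P) := by
    rintro n ⟨hn1, hn2, p, hp, hp1, hp2, hpn⟩
    rcases le_total 0 n with hn | hn
    · left
      have hn' : (0 : ℝ) ≤ n := by exact_mod_cast hn
      rw [abs_of_nonneg hn'] at hn1 hn2
      exact ⟨hn1, hn2, p, hp, hp1, hp2, hpn⟩
    · right
      have hn' : (n : ℝ) ≤ 0 := by exact_mod_cast hn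
      rw [abs_of_nonpos hn'] at hn1 hn2
      refine ⟨-n, ⟨by push_cast; exact hn1, by push_cast; exact hn2, p, hp, hp1, hp2, ?_⟩,
        by simp⟩
      rw [hev]
      simpa using hpn
  unfold wcount pcount
  refine (Set.ncard_le_ncard hsub ((pset_finite g Y P).union ((pset_finite g' Y P).image _))).trans
    ?_
  refine (Set.ncard_union_le _ _).trans (Nat.add_le_add_left ?_ _)
  exact Set.ncard_image_le (pset_finite g' Y P)

/-- it is enough to count positive `n`, for all polynomials -/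
theorem rangeBound_of_pos (d : ℕ) (a b : ℝ)
    (h : ∀ g : ℤ[X], g.Monic → Irreducible g → g.natDegree = d → PosRangeBound g a b)
    (g : ℤ[X]) (hg : g.Monic) (hirr : Irreducible g) (hd : g.natDegree = d) :
    RangeBound g a b := by
  obtain ⟨g', hg', hirr', hd', hw⟩ := exists_wcount_le g hg hirr
  obtain ⟨c1, hc1, K1, hK1⟩ := h g hg hirr hd
  obtain ⟨c2, hc2, K2, hK2⟩ := h g' hg' hirr' (hd'.trans hd)
  refine ⟨min c1 c2, lt_min hc1 hc2, |K1| + |K2|, fun Y P hY h1 h2 => ?_⟩
  have h3 := (hK1 Y P hY h1 h2).trans (rpow_weaken hY (min_le_left c1 c2) (le_refl |K1|))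
  have h4 := (hK2 Y P hY h1 h2).trans (rpow_weaken hY (min_le_right c1 c2) (le_refl |K2|))
  have h5 : (wcount g Y P : ℝ) ≤ (pcount g Y P : ℝ) + (pcount g' Y P : ℝ) := by
    exact_mod_cast hw Y P
  calc (wcount g Y P : ℝ) ≤ _ := h5
    _ ≤ _ := add_le_add h3 h4
    _ = _ := by ring

/-- power saving, positive `n` only, lower end `Y ≤ L P` -/
def PosRangeBoundL (g : ℤ[X]) (s : ℝ) : Prop :=
  ∀ L : ℝ, 1 ≤ L → ∃ c : ℝ, 0 < c ∧ ∃ K : ℝ, ∀ Y P : ℝ, 1 ≤ Y → Y ≤ L * P → P ≤ Y ^ (1 + s) →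
    (pcount g Y P : ℝ) ≤ K * Y ^ (1 - c)

/-- it is enough to count positive `n`, for all polynomials -/
theorem rangeBoundL_of_pos (d : ℕ) (s : ℝ)
    (h : ∀ g : ℤ[X], g.Monic → Irreducible g → g.natDegree = d → PosRangeBoundL g s)
    (g : ℤ[X]) (hg : g.Monic) (hirr : Irreducible g) (hd : g.natDegree = d) :
    RangeBoundL g s := by
  intro L hL
  obtain ⟨g', hg', hirr', hd', hw⟩ := exists_wcount_le g hg hirr
  obtain ⟨c1, hc1, K1, hK1⟩ := h g hg hirr hd L hL
  obtain ⟨c2, hc2, K2, hK2⟩ := h g' hg' hirr' (hd'.trans hd) L hL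
  refine ⟨min c1 c2, lt_min hc1 hc2, |K1| + |K2|, fun Y P hY h1 h2 => ?_⟩
  have h3 := (hK1 Y P hY h1 h2).trans (rpow_weaken hY (min_le_left c1 c2) (le_refl |K1|))
  have h4 := (hK2 Y P hY h1 h2).trans (rpow_weaken hY (min_le_right c1 c2) (le_refl |K2|))
  have h5 : (wcount g Y P : ℝ) ≤ (pcount g Y P : ℝ) + (pcount g' Y P : ℝ) := by
    exact_mod_cast hw Y P
  calc (wcount g Y P : ℝ) ≤ _ := h5
    _ ≤ _ := add_le_add h3 h4
    _ = _ := by ring

/-- irreducible polynomials of degree at least two have no integer zero -/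
lemma eval_ne_zero_of_irreducible (g : ℤ[X]) (hirr : Irreducible g) (hd : 2 ≤ g.natDegree) (n : ℤ) :
    g.eval n ≠ 0 := by
  intro h0
  have h1 : (X - C n) ∣ g := dvd_iff_isRoot.2 h0
  obtain ⟨q, hq⟩ := h1
  rcases hirr.isUnit_or_isUnit hq with h | h
  · have := natDegree_eq_zero_of_isUnit h
    rw [natDegree_X_sub_C] at this
    omega
  · have h2 := natDegree_eq_zero_of_isUnit h
    have h3 : q ≠ 0 := h.ne_zero
    rw [hq, natDegree_mul (X_sub_C_ne_zero n) h3, natDegree_X_sub_C, h2] at hd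
    omega

/-- `integralNormalization` of an irreducible polynomial is irreducible -/
lemma irreducible_integralNormalization (f : ℤ[X]) (hf : Irreducible f) (hd : 1 ≤ f.natDegree) :
    Irreducible f.integralNormalization := by
  have hf0 : f ≠ 0 := hf.ne_zero
  have hprim : f.IsPrimitive := hf.isPrimitive (by omega)
  have hlc : f.leadingCoeff ≠ 0 := leadingCoeff_ne_zero.2 hf0
  have hmonic : f.integralNormalization.Monic := monic_integralNormalization hf0
  have h1 : Irreducible (f.map (Int.castRingHom ℚ)) :=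
    (hprim.irreducible_iff_irreducible_map_fraction_map (K := ℚ)).1 hf
  set F : ℚ[X] := f.map (Int.castRingHom ℚ) with hF
  have ha : ((f.leadingCoeff : ℤ) : ℚ) ≠ 0 := by exact_mod_cast hlc
  set a : ℚ := ((f.leadingCoeff : ℤ) : ℚ) with hadef
  let _ : Invertible a := invertibleOfNonzero ha
  -- over `ℚ`
  have h2 : (f.integralNormalization.map (Int.castRingHom ℚ)).comp (C a * X) =
      C (a ^ (f.natDegree - 1)) * F := by
    apply Polynomial.funext
    intro x
    rw [eval_comp, eval_mul, eval_mul, eval_C, eval_C, eval_X, eval_map, hF, eval_map]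
    have := integralNormalization_eval₂_leadingCoeff_mul (p := f) hd (Int.castRingHom ℚ) x
    simpa using this
  have h3 : Irreducible (C (a ^ (f.natDegree - 1)) * F) := by
    have hu : IsUnit (C (a ^ (f.natDegree - 1)) : ℚ[X]) :=
      Polynomial.isUnit_C.2 (IsUnit.mk0 _ (pow_ne_zero _ ha))
    obtain ⟨u, hu⟩ := hu
    rw [← hu]
    exact (irreducible_units_mul u).2 h1
  have h4 : Irreducible (f.integralNormalization.map (Int.castRingHom ℚ)) := by
    rw [← MulEquiv.irreducible_iff (algEquivCMulXAddC a 0)]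
    have e : (algEquivCMulXAddC a 0) (f.integralNormalization.map (Int.castRingHom ℚ)) =
        (f.integralNormalization.map (Int.castRingHom ℚ)).comp (C a * X) := by
      rw [algEquivCMulXAddC_apply, C_0, add_zero, comp_eq_aeval]
    rw [e, h2]
    exact h3
  exact (hmonic.isPrimitive.irreducible_iff_irreducible_map_fraction_map (K := ℚ)).2 h4

/-- **Tail of an irreducible polynomial.** -/
theorem tailSmall_of_rangeL (f : ℤ[X]) (hf : Irreducible f) (hd : 2 ≤ f.natDegree) (e : ℝ)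
    (he : 0 < e)
    (h : RangeBoundL f.integralNormalization ((f.natDegree : ℝ) / 2 - 1 + e)) :
    Pool.Agent.SQF4.TailSmall f := by
  classical
  have hirr := irreducible_integralNormalization f hf (by omega)
  have hdeg : f.integralNormalization.natDegree = f.natDegree := natDegree_integralNormalization
  have hroot : ∀ n : ℤ, f.integralNormalization.eval n ≠ 0 :=
    eval_ne_zero_of_irreducible _ hirr (by omega)
  have hlc : f.leadingCoeff ≠ 0 := leadingCoeff_ne_zero.2 hf.ne_zero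
  set a : ℤ := f.leadingCoeff with ha
  have ha1 : (1 : ℝ) ≤ |(a : ℝ)| := by
    have : 1 ≤ |a| := Int.one_le_abs hlc
    exact_mod_cast this
  obtain ⟨c, hc, K, hK⟩ := tail_of_rangeL f.integralNormalization hroot e he
    (by rw [hdeg]; exact h) |(a : ℝ)| ha1
  have hle : ∀ N : ℕ, 1 ≤ N → (Pool.Agent.SQF4.tailCount f N : ℝ) ≤ K * (N : ℝ) ^ (1 - c) := by
    intro N hN
    refine le_trans ?_ (hK N (by exact_mod_cast hN))
    have h1 : Pool.Agent.SQF4.tailCount f N =
        {n : ℕ | 1 ≤ n ∧ n ≤ N ∧ ∃ p : ℕ, p.Prime ∧ N < p ∧ (p : ℤ) ^ 2 ∣ f.eval (n : ℤ)}.ncard :=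
      rfl
    rw [h1]
    have h2 : ((fun n : ℕ => a * (n : ℤ)) ''
        {n : ℕ | 1 ≤ n ∧ n ≤ N ∧ ∃ p : ℕ, p.Prime ∧ N < p ∧ (p : ℤ) ^ 2 ∣ f.eval (n : ℤ)}) ⊆
        tset f.integralNormalization |(a : ℝ)| N := by
      rintro _ ⟨n, ⟨hn1, hn2, p, hp, hpN, hpn⟩, rfl⟩
      refine ⟨?_, p, hp, by exact_mod_cast hpN, ?_⟩
      · show |((a * (n : ℤ) : ℤ) : ℝ)| ≤ |(a : ℝ)| * N
        push_cast
        rw [abs_mul]
        refine mul_le_mul_of_nonneg_left ?_ (abs_nonneg _)
        rw [abs_of_nonneg (Nat.cast_nonneg _)]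
        exact_mod_cast hn2
      · have h3 := integralNormalization_eval₂_leadingCoeff_mul (p := f) (by omega)
          (RingHom.id ℤ) (n : ℤ)
        have h4 : f.integralNormalization.eval (a * (n : ℤ)) =
            a ^ (f.natDegree - 1) * f.eval (n : ℤ) := h3
        show (p : ℤ) ^ 2 ∣ f.integralNormalization.eval (a * (n : ℤ))
        rw [h4]
        exact hpn.mul_left _
    have h5 := Set.ncard_le_ncard h2 (tset_finite _ _ _)
    rw [Set.ncard_image_of_injective] at h5
    · exact_mod_cast h5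
    · intro x y hxy
      have : a * (x : ℤ) = a * (y : ℤ) := hxy
      exact_mod_cast mul_left_cancel₀ hlc this
  -- the limit
  unfold Pool.Agent.SQF4.TailSmall
  have hlim : Tendsto (fun N : ℕ => |K| * (N : ℝ) ^ (-c)) atTop (𝓝 0) := by
    have h1 : Tendsto (fun x : ℝ => x ^ (-c)) atTop (𝓝 0) := tendsto_rpow_neg_atTop hc
    have h2 := (h1.comp tendsto_natCast_atTop_atTop).const_mul |K|
    simpa using h2
  refine squeeze_zero' (Eventually.of_forall (fun N => by positivity)) ?_ hlim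
  filter_upwards [eventually_ge_atTop 1] with N hN
  have hN0 : (0 : ℝ) < N := by exact_mod_cast hN
  rw [div_le_iff₀ hN0]
  refine (hle N hN).trans ?_
  have h1 : (N : ℝ) ^ (1 - c) = (N : ℝ) ^ (-c) * N := by
    rw [show (1 - c) = -c + 1 by ring, Real.rpow_add_one hN0.ne']
  rw [h1, ← mul_assoc]
  refine mul_le_mul_of_nonneg_right ?_ hN0.le
  exact mul_le_mul_of_nonneg_right (le_abs_self K) (by positivity)

lemma eval_uniqueAlgEquiv (f : MvPolynomial (Fin 1) ℤ) (v : Fin 1 → ℤ) :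
    MvPolynomial.eval v f = (MvPolynomial.uniqueAlgEquiv ℤ (Fin 1) f).eval (v 0) := by
  induction f using MvPolynomial.induction_on with
  | C a => simp
  | add p q hp hq => rw [map_add, map_add, hp, hq, eval_add]
  | mul_X p i hp =>
    rw [map_mul, map_mul, hp, eval_mul, MvPolynomial.eval_X]
    congr 1
    fin_cases i
    simp

lemma natDegree_le_totalDegree (q : ℤ[X]) :
    q.natDegree ≤ ((MvPolynomial.uniqueAlgEquiv ℤ (Fin 1)).symm q).totalDegree := by
  by_cases h0 : q = 0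
  · simp [h0]
  · have h1 : (Finsupp.single (default : Fin 1) q.natDegree) ∈
        ((MvPolynomial.uniqueAlgEquiv ℤ (Fin 1)).symm q).support := by
      rw [MvPolynomial.mem_support_iff, MvPolynomial.coeff_uniqueAlgEquiv_symm,
        Finsupp.single_eq_same]
      exact leadingCoeff_ne_zero.2 h0
    have h2 := MvPolynomial.le_totalDegree h1
    rwa [Finsupp.sum_single_index rfl] at h2

/-- **The tails of cubics and quartics** from the windows of the monic ones. -/
theorem tailSmall_quartic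
    (H4 : ∀ g : ℤ[X], g.Monic → Irreducible g → g.natDegree = 4 → RangeBoundL g (101 / 100))
    (f : ℤ[X]) (hf : Irreducible f) (hd : f.natDegree = 4) : Pool.Agent.SQF4.TailSmall f := by
  refine tailSmall_of_rangeL f hf (by omega) (1 / 100) (by norm_num) ?_
  have h := H4 f.integralNormalization (monic_integralNormalization hf.ne_zero)
    (irreducible_integralNormalization f hf (by omega))
    (natDegree_integralNormalization.trans hd)
  rw [hd]
  norm_num at h ⊢
  exact h

theorem tailSmall_cubic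
    (H3 : ∀ g : ℤ[X], g.Monic → Irreducible g → g.natDegree = 3 → RangeBoundL g (51 / 100))
    (f : ℤ[X]) (hf : Irreducible f) (hd : f.natDegree = 3) : Pool.Agent.SQF4.TailSmall f := by
  refine tailSmall_of_rangeL f hf (by omega) (1 / 100) (by norm_num) ?_
  have h := H3 f.integralNormalization (monic_integralNormalization hf.ne_zero)
    (irreducible_integralNormalization f hf (by omega))
    (natDegree_integralNormalization.trans hd)
  rw [hd]
  norm_num at h ⊢
  exact h

/-- **The density theorem in one variable**, all irreducible factors of degree at most four, from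
the tails of irreducible cubics and quartics. -/
theorem density_fin_one
    (T3 : ∀ f : ℤ[X], Irreducible f → f.natDegree = 3 → Pool.Agent.SQF4.TailSmall f)
    (T4 : ∀ f : ℤ[X], Irreducible f → f.natDegree = 4 → Pool.Agent.SQF4.TailSmall f)
    (f : MvPolynomial (Fin 1) ℤ) (hprim : ∀ r : ℤ, (∀ m, r ∣ f.coeff m) → IsUnit r)
    (hsq : Squarefree f)
    (hdeg : ∀ q : MvPolynomial (Fin 1) ℤ, Irreducible q → q ∣ f → q.totalDegree ≤ 4)
    (δ : ℕ) (hδ : ∀ n : ℤ, (∀ v : Fin 1 → ℤ, n ∣ MvPolynomial.eval v f) ↔ n ∣ (δ : ℤ)) :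
    Filter.Tendsto
      (fun N : ℕ => (Nat.card {v : Fin 1 → ℕ // (∀ i, 1 ≤ v i ∧ v i ≤ N) ∧
          Squarefree (MvPolynomial.eval (fun i => (v i : ℤ)) f /
            ((∏ p ∈ δ.primeFactors, p ^ (δ.factorization p - 1) : ℕ) : ℤ))} : ℝ) / (N : ℝ) ^ 1)
      Filter.atTop
      (nhds (∏' p : Nat.Primes,
        (1 - (Nat.card {v : Fin 1 → Fin ((p : ℕ) ^ (2 + (δ.factorization (p : ℕ) - 1))) //
              (((p : ℕ) ^ (2 + (δ.factorization (p : ℕ) - 1)) : ℕ) : ℤ) ∣
                MvPolynomial.eval (fun i => ((v i : ℕ) : ℤ)) f} : ℝ) /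
          (((p : ℕ) : ℝ) ^ (1 * (2 + (δ.factorization (p : ℕ) - 1))))))) := by
  set g : ℤ[X] := MvPolynomial.uniqueAlgEquiv ℤ (Fin 1) f with hg
  have hgprim : g.IsPrimitive := by
    intro r hr
    refine hprim r (fun m => ?_)
    rw [C_dvd_iff_dvd_coeff] at hr
    have h1 := hr (m default)
    rw [hg, MvPolynomial.coeff_uniqueAlgEquiv, ← Finsupp.unique_single m] at h1
    exact h1
  have hgsq : Squarefree g := by
    intro x hx
    have h1 : (MvPolynomial.uniqueAlgEquiv ℤ (Fin 1)).symm x *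
        (MvPolynomial.uniqueAlgEquiv ℤ (Fin 1)).symm x ∣ f := by
      rw [← map_mul]
      obtain ⟨y, hy⟩ := hx
      refine ⟨(MvPolynomial.uniqueAlgEquiv ℤ (Fin 1)).symm y, ?_⟩
      rw [← map_mul, ← hy, hg, AlgEquiv.symm_apply_apply]
    have h2 := hsq _ h1
    have h3 := h2.map (MvPolynomial.uniqueAlgEquiv ℤ (Fin 1))
    rwa [AlgEquiv.apply_symm_apply] at h3
  have hfac : ∀ q : ℤ[X], Irreducible q → q ∣ g → q.natDegree ≤ 4 := by
    intro q hq hqg
    refine (natDegree_le_totalDegree q).trans (hdeg _ ?_ ?_)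
    · exact (MulEquiv.irreducible_iff (MvPolynomial.uniqueAlgEquiv ℤ (Fin 1)).symm).2 hq
    · obtain ⟨y, hy⟩ := hqg
      refine ⟨(MvPolynomial.uniqueAlgEquiv ℤ (Fin 1)).symm y, ?_⟩
      rw [← map_mul, ← hy, hg, AlgEquiv.symm_apply_apply]
  obtain ⟨t1, t2⟩ := Pool.Agent.SQF4.tailSmall_of_factors g hgprim hgsq (by
    intro q hq hd
    by_cases h : 3 ≤ q.natDegree
    · have h4 := hfac q hq hd
      rcases (by omega : q.natDegree = 3 ∨ q.natDegree = 4) with h5 | h5
      · exact T3 q hq h5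
      · exact T4 q hq h5
    · have hqprim : q.IsPrimitive := isPrimitive_of_dvd hgprim hd
      have hqd : q.natDegree ≠ 0 := by
        intro h0
        exact hq.not_isUnit (Pool.Agent.SQF4.isUnit_of_prim q hqprim h0)
      exact Pool.Agent.SQF4.tailSmall_of_natDegree_le_two q
        (Pool.Agent.SQF4.separable_of_irreducible q hq hqd) (by omega))
  exact Pool.Agent.SQF4.density_mv f g (eval_uniqueAlgEquiv f) t2 δ hδ t1

/-- **Assembly**: the three ranges of `P = Y ^ (1 + d)` for monic irreducible quartics (split points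
`s1`, `s2` are parameters) and the cubic range give the density theorem. -/
theorem density_of_ranges (s1 s2 : ℝ)
    (H3 : ∀ g : ℤ[X], g.Monic → Irreducible g → g.natDegree = 3 → RangeBoundL g (51 / 100))
    (HA : ∀ g : ℤ[X], g.Monic → Irreducible g → g.natDegree = 4 → RangeBoundL g s1)
    (HB : ∀ g : ℤ[X], g.Monic → Irreducible g → g.natDegree = 4 → RangeBound g s1 s2)
    (HC : ∀ g : ℤ[X], g.Monic → Irreducible g → g.natDegree = 4 → RangeBound g s2 (101 / 100))
    (f : MvPolynomial (Fin 1) ℤ) (hprim : ∀ r : ℤ, (∀ m, r ∣ f.coeff m) → IsUnit r)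
    (hsq : Squarefree f)
    (hdeg : ∀ q : MvPolynomial (Fin 1) ℤ, Irreducible q → q ∣ f → q.totalDegree ≤ 4)
    (δ : ℕ) (hδ : ∀ n : ℤ, (∀ v : Fin 1 → ℤ, n ∣ MvPolynomial.eval v f) ↔ n ∣ (δ : ℤ)) :
    Filter.Tendsto
      (fun N : ℕ => (Nat.card {v : Fin 1 → ℕ // (∀ i, 1 ≤ v i ∧ v i ≤ N) ∧
          Squarefree (MvPolynomial.eval (fun i => (v i : ℤ)) f /
            ((∏ p ∈ δ.primeFactors, p ^ (δ.factorization p - 1) : ℕ) : ℤ))} : ℝ) / (N : ℝ) ^ 1)
      Filter.atTop
      (nhds (∏' p : Nat.Primes,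
        (1 - (Nat.card {v : Fin 1 → Fin ((p : ℕ) ^ (2 + (δ.factorization (p : ℕ) - 1))) //
              (((p : ℕ) ^ (2 + (δ.factorization (p : ℕ) - 1)) : ℕ) : ℤ) ∣
                MvPolynomial.eval (fun i => ((v i : ℕ) : ℤ)) f} : ℝ) /
          (((p : ℕ) : ℝ) ^ (1 * (2 + (δ.factorization (p : ℕ) - 1))))))) :=
  density_fin_one (tailSmall_cubic H3)
    (tailSmall_quartic (fun g h1 h2 h3 => ((HA g h1 h2 h3).glue (HB g h1 h2 h3)).glue
      (HC g h1 h2 h3)))
    f hprim hsq hdeg δ hδ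

/-- a monic irreducible quartic: power saving for the whole tail, the target of the paper -/
theorem tail_power_saving (s1 s2 : ℝ) (g : ℤ[X]) (hirr : Irreducible g) (hd : g.natDegree = 4)
    (HA : RangeBoundL g s1) (HB : RangeBound g s1 s2) (HC : RangeBound g s2 (101 / 100))
    (A : ℝ) (hA : 1 ≤ A) :
    ∃ c : ℝ, 0 < c ∧ ∃ K : ℝ, ∀ X : ℝ, 1 ≤ X → ((tset g A X).ncard : ℝ) ≤ K * X ^ (1 - c) := by
  refine tail_of_rangeL g (eval_ne_zero_of_irreducible g hirr (by omega)) (1 / 100) (by norm_num)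
    ?_ A hA
  have h := (HA.glue HB).glue HC
  rw [hd]
  norm_num at h ⊢
  exact h

end Pool.Agent.Lib.SQF
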