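import Pool.Agent.Lib.SQF.Trivial
import Pool.Agent.Lib.SQF.Final

/-!
# Range C: the trivial count gives a power saving for large `P`

`range_triv1`, `range_triv2`: for any monic irreducible polynomial; `rangeC` for quartics and
`rangeC3` for cubics.
-/

set_option autoImplicit false

open Polynomial Filter Topology

namespace Pool.Agent.Lib.SQF

lemma count_le (g : ℤ[X]) (Y P : ℝ) (M : ℝ)
    (h : ∀ S : Finset ℤ, (∀ n ∈ S, Y ≤ |(n : ℝ)| ∧ |(n : ℝ)| < 2 * Y ∧
        ∃ p : ℕ, p.Prime ∧ P ≤ (p : ℝ) ∧ (p : ℝ) < 2 * P ∧ (p : ℤ) ^ 2 ∣ g.eval n) →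
      (S.card : ℝ) ≤ M) : (wcount g Y P : ℝ) ≤ M := by
  have h1 := h (wset_finite g Y P).toFinset (by
    intro n hn
    rw [Set.Finite.mem_toFinset] at hn
    exact hn)
  unfold wcount
  rw [Set.ncard_eq_toFinset_card _ (wset_finite g Y P)]
  exact h1

/-- a fixed `β` costs `O(1)` -/
theorem range_triv1 (g : ℤ[X]) (hg : g.Monic) (hirr : Irreducible g) (hd : 2 ≤ g.natDegree)
    (a b : ℝ) (ha : 0 ≤ a) (hb : 2 * (1 + b) < g.natDegree)
    (hcount : (g.natDegree : ℝ) - 2 * (1 + a) < 1) : RangeBound g a b := by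
  obtain ⟨K0, hK0, hmain⟩ := trivial_count g hg hirr hd
  have hd0 : (0 : ℝ) < (g.natDegree : ℝ) := by
    have : 0 < g.natDegree := by omega
    exact_mod_cast this
  by_cases hab : a ≤ b
  swap
  · refine RangeBound.of_large 1 2 0 one_pos ?_
    intro Y P hY1 hY2 h1 h2
    exfalso
    have h3 : Y ^ (1 + a) ≤ Y ^ (1 + b) := h1.trans h2
    have h4 : Y ^ (1 + b) < Y ^ (1 + a) :=
      Real.rpow_lt_rpow_of_exponent_lt (by linarith) (by push Not at hab; linarith)
    linarith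
  set η : ℝ := 1 - 2 * (1 + b) / g.natDegree with hη
  have hη0 : 0 < η := by
    rw [hη, sub_pos, div_lt_one hd0]; exact hb
  obtain ⟨Y0, hY0⟩ := eventually_atTop.1 ((tendsto_rpow_atTop hη0).eventually_ge_atTop K0)
  refine RangeBound.of_large (1 - ((g.natDegree : ℝ) - 2 * (1 + a))) (max Y0 K0)
    (K0 * 2 ^ g.natDegree) (by linarith) ?_
  intro Y P hY1 hYY h1 h2
  have hYK : K0 ≤ Y := (le_max_right _ _).trans hYY
  have hYY0 : Y0 ≤ Y := (le_max_left _ _).trans hYY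
  have hYpos : 0 < Y := by linarith
  have hYP : Y ≤ P := by
    calc Y = Y ^ (1 : ℝ) := (Real.rpow_one Y).symm
      _ ≤ Y ^ (1 + a) := Real.rpow_le_rpow_of_exponent_le hY1 (by linarith)
      _ ≤ P := h1
  have hP0 : 0 < P := by linarith
  refine count_le g Y P _ ?_
  intro S hS
  obtain ⟨_, hfin⟩ := hmain Y P hYK (by linarith) S hS
  set H : ℝ := P ^ ((1 : ℝ) / g.natDegree) with hH
  have hH0 : 0 < H := Real.rpow_pos_of_pos hP0 _
  have hHsq : H ^ 2 = P ^ ((2 : ℝ) / g.natDegree) := by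
    rw [hH, ← Real.rpow_natCast, ← Real.rpow_mul hP0.le]
    congr 1
    push_cast; ring
  have hHup : H ^ 2 ≤ Y ^ (2 * (1 + b) / g.natDegree) := by
    rw [hHsq]
    calc P ^ ((2 : ℝ) / g.natDegree) ≤ (Y ^ (1 + b)) ^ ((2 : ℝ) / g.natDegree) :=
          Real.rpow_le_rpow hP0.le h2 (by positivity)
      _ = Y ^ (2 * (1 + b) / g.natDegree) := by
          rw [← Real.rpow_mul hYpos.le]; congr 1; ring
  have hHlow : Y ^ (2 * (1 + a) / g.natDegree) ≤ H ^ 2 := by
    rw [hHsq]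
    calc Y ^ (2 * (1 + a) / g.natDegree) = (Y ^ (1 + a)) ^ ((2 : ℝ) / g.natDegree) := by
          rw [← Real.rpow_mul hYpos.le]; congr 1; ring
      _ ≤ P ^ ((2 : ℝ) / g.natDegree) :=
          Real.rpow_le_rpow (Real.rpow_nonneg hYpos.le _) h1 (by positivity)
  have hcond : K0 * H ^ 2 ≤ Y := by
    calc K0 * H ^ 2 ≤ Y ^ η * Y ^ (2 * (1 + b) / g.natDegree) :=
          mul_le_mul (hY0 Y hYY0) hHup (sq_nonneg _) (Real.rpow_nonneg hYpos.le _)
      _ = Y ^ (1 : ℝ) := by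
          rw [← Real.rpow_add hYpos]; congr 1; rw [hη]; ring
      _ = Y := Real.rpow_one Y
  have h3 := hfin hcond
  have hH2 : 0 < H ^ 2 := by positivity
  have h4 : 1 ≤ Y / H ^ 2 := by
    rw [le_div_iff₀ hH2]
    nlinarith
  have h5 : Y / H ^ 2 ≤ Y ^ (1 - 2 * (1 + a) / g.natDegree) := by
    rw [div_le_iff₀ hH2]
    calc Y = Y ^ (1 : ℝ) := (Real.rpow_one Y).symm
      _ = Y ^ (1 - 2 * (1 + a) / g.natDegree) * Y ^ (2 * (1 + a) / g.natDegree) := by
          rw [← Real.rpow_add hYpos]; congr 1; ring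
      _ ≤ _ := mul_le_mul_of_nonneg_left hHlow (Real.rpow_nonneg hYpos.le _)
  have h6 : Y / H ^ 2 + 1 ≤ 2 * Y ^ (1 - 2 * (1 + a) / g.natDegree) := by linarith
  calc (S.card : ℝ) ≤ K0 * (Y / H ^ 2 + 1) ^ g.natDegree := h3
    _ ≤ K0 * (2 * Y ^ (1 - 2 * (1 + a) / g.natDegree)) ^ g.natDegree := by gcongr
    _ = K0 * 2 ^ g.natDegree * Y ^ (1 - (1 - ((g.natDegree : ℝ) - 2 * (1 + a)))) := by
        rw [mul_pow, ← Real.rpow_natCast (Y ^ _), ← Real.rpow_mul hYpos.le]
        have e : (1 - 2 * (1 + a) / (g.natDegree : ℝ)) * ((g.natDegree : ℕ) : ℝ) =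
            1 - (1 - ((g.natDegree : ℝ) - 2 * (1 + a))) := by field_simp; ring
        rw [e]; ring

/-- a fixed `β` costs `≪ H` -/
theorem range_triv2 (g : ℤ[X]) (hg : g.Monic) (hirr : Irreducible g) (hd : 2 ≤ g.natDegree)
    (a b : ℝ) (ha : 0 ≤ a) (hb : 0 ≤ b) (hda : 2 * (1 + a) ≤ g.natDegree)
    (hcount : (g.natDegree : ℝ) - 2 * (1 + a) + (1 + b) / g.natDegree < 1) : RangeBound g a b := by
  obtain ⟨K0, hK0, hmain⟩ := trivial_count g hg hirr hd
  have hd0 : (0 : ℝ) < (g.natDegree : ℝ) := by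
    have : 0 < g.natDegree := by omega
    exact_mod_cast this
  refine RangeBound.of_large (1 - ((g.natDegree : ℝ) - 2 * (1 + a) + (1 + b) / g.natDegree)) K0
    (2 * K0 * 2 ^ g.natDegree) (by linarith) ?_
  intro Y P hY1 hYK h1 h2
  have hYpos : 0 < Y := by linarith
  have hYP : Y ≤ P := by
    calc Y = Y ^ (1 : ℝ) := (Real.rpow_one Y).symm
      _ ≤ Y ^ (1 + a) := Real.rpow_le_rpow_of_exponent_le hY1 (by linarith)
      _ ≤ P := h1
  have hP0 : 0 < P := by linarith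
  refine count_le g Y P _ ?_
  intro S hS
  obtain ⟨hfin, _⟩ := hmain Y P hYK (by linarith) S hS
  set H : ℝ := P ^ ((1 : ℝ) / g.natDegree) with hH
  have hH0 : 0 < H := Real.rpow_pos_of_pos hP0 _
  have hHsq : H ^ 2 = P ^ ((2 : ℝ) / g.natDegree) := by
    rw [hH, ← Real.rpow_natCast, ← Real.rpow_mul hP0.le]
    congr 1
    push_cast; ring
  have hHup : H ≤ Y ^ ((1 + b) / g.natDegree) := by
    calc H ≤ (Y ^ (1 + b)) ^ ((1 : ℝ) / g.natDegree) :=
          Real.rpow_le_rpow hP0.le h2 (by positivity)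
      _ = Y ^ ((1 + b) / g.natDegree) := by
          rw [← Real.rpow_mul hYpos.le]; congr 1; ring
  have hHlow : Y ^ (2 * (1 + a) / g.natDegree) ≤ H ^ 2 := by
    rw [hHsq]
    calc Y ^ (2 * (1 + a) / g.natDegree) = (Y ^ (1 + a)) ^ ((2 : ℝ) / g.natDegree) := by
          rw [← Real.rpow_mul hYpos.le]; congr 1; ring
      _ ≤ P ^ ((2 : ℝ) / g.natDegree) :=
          Real.rpow_le_rpow (Real.rpow_nonneg hYpos.le _) h1 (by positivity)
  have hH2 : 0 < H ^ 2 := by positivity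
  have h5 : Y / H ^ 2 ≤ Y ^ (1 - 2 * (1 + a) / g.natDegree) := by
    rw [div_le_iff₀ hH2]
    calc Y = Y ^ (1 : ℝ) := (Real.rpow_one Y).symm
      _ = Y ^ (1 - 2 * (1 + a) / g.natDegree) * Y ^ (2 * (1 + a) / g.natDegree) := by
          rw [← Real.rpow_add hYpos]; congr 1; ring
      _ ≤ _ := mul_le_mul_of_nonneg_left hHlow (Real.rpow_nonneg hYpos.le _)
  have h7 : 1 ≤ Y ^ (1 - 2 * (1 + a) / g.natDegree) := by
    apply Real.one_le_rpow hY1
    rw [sub_nonneg, div_le_one hd0]; exact hda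
  have h6 : Y / H ^ 2 + 1 ≤ 2 * Y ^ (1 - 2 * (1 + a) / g.natDegree) := by linarith
  have h8 : 1 ≤ Y ^ ((1 + b) / g.natDegree) := Real.one_le_rpow hY1 (by positivity)
  calc (S.card : ℝ) ≤ K0 * (H + 1) * (Y / H ^ 2 + 1) ^ g.natDegree := hfin
    _ ≤ K0 * (2 * Y ^ ((1 + b) / g.natDegree)) *
          (2 * Y ^ (1 - 2 * (1 + a) / g.natDegree)) ^ g.natDegree := by
        have : H + 1 ≤ 2 * Y ^ ((1 + b) / g.natDegree) := by linarith
        gcongr
    _ = 2 * K0 * 2 ^ g.natDegree *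
          Y ^ (1 - (1 - ((g.natDegree : ℝ) - 2 * (1 + a) + (1 + b) / g.natDegree))) := by
        rw [mul_pow, ← Real.rpow_natCast (Y ^ _), ← Real.rpow_mul hYpos.le]
        have e : Y ^ (1 - (1 - ((g.natDegree : ℝ) - 2 * (1 + a) + (1 + b) / g.natDegree))) =
            Y ^ ((1 + b) / g.natDegree) * Y ^ ((1 - 2 * (1 + a) / (g.natDegree : ℝ)) *
              ((g.natDegree : ℕ) : ℝ)) := by
          rw [← Real.rpow_add hYpos]; congr 1; field_simp; ring
        rw [e]; ring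

/-- **Range C** for quartics -/
theorem rangeC (g : ℤ[X]) (hg : g.Monic) (hirr : Irreducible g) (h4 : g.natDegree = 4) :
    RangeBound g (51 / 100) (101 / 100) := by
  have h1 : RangeBound g (51 / 100) (4 / 5) := by
    apply range_triv1 g hg hirr (by omega) _ _ (by norm_num)
    · rw [h4]; norm_num
    · rw [h4]; norm_num
  have h2 : RangeBound g (4 / 5) (101 / 100) := by
    apply range_triv2 g hg hirr (by omega) _ _ (by norm_num) (by norm_num)
    · rw [h4]; norm_num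
    · rw [h4]; norm_num
  exact h1.glue h2

/-- the trivial range for cubics: everything above `Y ^ (1 + a)`, `a > 0` -/
theorem rangeC3 (g : ℤ[X]) (hg : g.Monic) (hirr : Irreducible g) (h3 : g.natDegree = 3) (a : ℝ)
    (ha : 0 < a) : RangeBound g a (3 / 5) := by
  have h1 : RangeBound g a (2 / 5) := by
    apply range_triv1 g hg hirr (by omega) _ _ ha.le
    · rw [h3]; norm_num
    · rw [h3]; push_cast; linarith
  have h2 : RangeBound g (2 / 5) (3 / 5) := by
    apply range_triv2 g hg hirr (by omega) _ _ (by norm_num) (by norm_num)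
    · rw [h3]; norm_num
    · rw [h3]; norm_num
  exact h1.glue h2

end Pool.Agent.Lib.SQF
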