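import Mathlib
import Pool.Agent.Lib.SQF.FinalB
import Pool.Agent.Lib.SQF.RangeC
import Pool.Agent.Lib.Sqf4.Asm1
import Pool.Agent.Lib.Sqf4.Pig

/-!
# SQF: the tail of irreducible cubics

First range `Y / L ≤ P ≤ Y ^ (11/10)` from `Sqf4.dyadic`, then `rangeC3`.
-/

set_option autoImplicit false

open Polynomial Filter Topology

namespace Pool.Agent.Lib.SQF

open Pool.Agent.Lib.Sqf4 in
/-- the first range for one cubic, `n ≤ X`, `n ≥ X / 2` -/
theorem cubic_first (g : ℤ[X]) (hg : g.Monic) (hirr : Irreducible g) (hd : g.natDegree = 3)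
    (L : ℕ) (hL : 1 ≤ L) : ∃ X0 : ℝ, 1 ≤ X0 ∧ ∃ K : ℝ, 0 ≤ K ∧ ∀ X P : ℝ, X0 ≤ X → X ≤ L * P →
      P ≤ X ^ (11 / 10 : ℝ) → ∀ N : Finset ℤ, (∀ n ∈ N, X / 2 ≤ (n : ℝ) ∧ (n : ℝ) ≤ X ∧
        ∃ p : ℕ, p.Prime ∧ P < p ∧ (p : ℝ) ≤ 2 * P ∧ ((p : ℤ) ^ 2 ∣ g.eval n)) →
      (N.card : ℝ) ≤ K * X ^ (99 / 100 : ℝ) := by
  obtain ⟨θ, hθ⟩ : ∃ θ : Fin 3 → ℂ, Rts g 3 θ := by
    have h := exists_rts g hg hirr
    rw [hd] at h
    exact h
  obtain ⟨C, hC, hmain⟩ := dyadic (d := 3) (by norm_num) hθ L (1 / 100) (by norm_num)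
  have hL1 : (1 : ℝ) ≤ L := by exact_mod_cast hL
  have hev : ∀ᶠ X : ℝ in atTop, C * (L : ℝ) ^ 3 ≤ X ^ (1 / 10 : ℝ) ∧ 2 * C < X ^ (1 / 5 : ℝ) ∧
      (L : ℝ) ≤ X ^ (1 / 5 : ℝ) ∧ C * L ≤ X ∧ 1 ≤ X := by
    have t1 : Tendsto (fun X : ℝ => X ^ (1 / 10 : ℝ)) atTop atTop :=
      tendsto_rpow_atTop (by norm_num)
    have t2 : Tendsto (fun X : ℝ => X ^ (1 / 5 : ℝ)) atTop atTop :=
      tendsto_rpow_atTop (by norm_num)
    filter_upwards [t1.eventually_ge_atTop (C * (L : ℝ) ^ 3), t2.eventually_gt_atTop (2 * C),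
      t2.eventually_ge_atTop (L : ℝ), eventually_ge_atTop (C * L), eventually_ge_atTop 1]
      with X h1 h2 h3 h4 h5
    exact ⟨h1, h2, h3, h4, h5⟩
  obtain ⟨X0, hX0⟩ := eventually_atTop.1 hev
  refine ⟨max X0 1, le_max_right _ _, 3 * C, by linarith, fun X P hX hXP hP N hN => ?_⟩
  obtain ⟨hX1, hX2, hX3, hX4, hX5⟩ := hX0 X ((le_max_left _ _).trans hX)
  have hXpos : 0 < X := by linarith
  have hLpos : (0 : ℝ) < L := by linarith
  have hCX : C ≤ X := by nlinarith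
  have hPpos : 0 < P := by
    by_contra hcon
    push Not at hcon
    nlinarith
  have hCP : C ≤ P := by
    have h1 : C * L ≤ L * P := hX4.trans hXP
    by_contra hcon
    push Not at hcon
    nlinarith
  have hP1 : 1 ≤ P := hC.trans hCP
  have hPX : P ≤ X ^ 2 := by
    refine hP.trans ?_
    rw [← Real.rpow_natCast]
    exact Real.rpow_le_rpow_of_exponent_le hX5 (by norm_num)
  set R : ℝ := P ^ (1 / 3 : ℝ) with hR
  have hR1 : 1 ≤ R := Real.one_le_rpow hP1 (by norm_num)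
  have hR3 : R ^ 3 = P := by
    rw [hR, ← Real.rpow_natCast, ← Real.rpow_mul hPpos.le]
    norm_num
  set τ : ℝ := X ^ (-(21 / 100) : ℝ) with hτ
  have hτ0 : 0 < τ := by positivity
  have hτ1 : τ ≤ 1 := Real.rpow_le_one_of_one_le_of_nonpos hX5 (by norm_num)
  set D : ℝ := X ^ (6 / 25 : ℝ) with hD
  have hD0 : 0 < D := by positivity
  have hD1 : 1 ≤ D := Real.one_le_rpow hX5 (by norm_num)
  -- `X ^ (4/5) ≤ P`
  have hPlow : X ^ (4 / 5 : ℝ) ≤ P := by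
    have h1 : X ^ (4 / 5 : ℝ) * X ^ (1 / 5 : ℝ) = X := by
      rw [← Real.rpow_add hXpos]; norm_num
    have h2 : X ^ (4 / 5 : ℝ) * L ≤ L * P := by
      calc X ^ (4 / 5 : ℝ) * L ≤ X ^ (4 / 5 : ℝ) * X ^ (1 / 5 : ℝ) :=
            mul_le_mul_of_nonneg_left hX3 (by positivity)
        _ = X := h1
        _ ≤ L * P := hXP
    by_contra hcon
    push Not at hcon
    nlinarith
  have hDR : D ≤ R := by
    calc D = X ^ (6 / 25 : ℝ) := rfl
      _ ≤ X ^ (4 / 5 * (1 / 3) : ℝ) := Real.rpow_le_rpow_of_exponent_le hX5 (by norm_num)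
      _ = (X ^ (4 / 5 : ℝ)) ^ (1 / 3 : ℝ) := Real.rpow_mul hXpos.le _ _
      _ ≤ R := Real.rpow_le_rpow (by positivity) hPlow (by norm_num)
  -- the numerical conditions
  have hcond : ∀ k ∈ Finset.range (2 * 3 + 1),
      C * (X ^ (2 * 3 - k) * τ ^ ek 3 k) ≤ P ^ 3 := by
    intro k hk
    have h1 : X ^ 3 ≤ (L : ℝ) ^ 3 * P ^ 3 := by
      rw [← mul_pow]
      exact pow_le_pow_left₀ hXpos.le hXP 3
    have h2 : ∀ x : ℝ, x ≤ X ^ (29 / 10 : ℝ) → C * x ≤ P ^ 3 := by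
      intro x hx
      have h3 : X ^ (29 / 10 : ℝ) * X ^ (1 / 10 : ℝ) = X ^ 3 := by
        rw [← Real.rpow_add hXpos, ← Real.rpow_natCast]; norm_num
      have h4 : (C * (L : ℝ) ^ 3) * X ^ (29 / 10 : ℝ) ≤ (L : ℝ) ^ 3 * P ^ 3 := by
        calc (C * (L : ℝ) ^ 3) * X ^ (29 / 10 : ℝ) ≤ X ^ (1 / 10 : ℝ) * X ^ (29 / 10 : ℝ) :=
              mul_le_mul_of_nonneg_right hX1 (by positivity)
          _ = X ^ 3 := by rw [mul_comm]; exact h3
          _ ≤ _ := h1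
      have h5 : (0 : ℝ) < (L : ℝ) ^ 3 := by positivity
      have h6 : C * X ^ (29 / 10 : ℝ) ≤ P ^ 3 := by
        by_contra hcon
        push Not at hcon
        nlinarith
      exact (mul_le_mul_of_nonneg_left hx (by linarith)).trans h6
    apply h2
    have hτe : ∀ e : ℕ, τ ^ e = X ^ (-(21 / 100) * (e : ℝ)) := by
      intro e
      rw [hτ, ← Real.rpow_natCast, ← Real.rpow_mul hXpos.le]
    rw [hτe, ← Real.rpow_natCast X (2 * 3 - k), ← Real.rpow_add hXpos]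
    refine Real.rpow_le_rpow_of_exponent_le hX5 ?_
    rw [Finset.mem_range] at hk
    interval_cases k <;> norm_num [ek]
  -- the lower bound for `n`
  have hlow : C * (R / D) ^ (2 * 3) < X / 2 := by
    have h1 : (R / D) ^ (2 * 3) ≤ X ^ (4 / 5 : ℝ) := by
      have h2 : R ≤ X ^ (11 / 30 : ℝ) := by
        calc R ≤ (X ^ (11 / 10 : ℝ)) ^ (1 / 3 : ℝ) := Real.rpow_le_rpow hPpos.le hP (by norm_num)
          _ = X ^ (11 / 30 : ℝ) := by
            rw [← Real.rpow_mul hXpos.le]; norm_num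
      have h3 : R / D ≤ X ^ (19 / 150 : ℝ) := by
        rw [div_le_iff₀ hD0, hD, ← Real.rpow_add hXpos]
        norm_num
        exact h2
      calc (R / D) ^ (2 * 3) ≤ (X ^ (19 / 150 : ℝ)) ^ (2 * 3) :=
            pow_le_pow_left₀ (by positivity) h3 _
        _ = X ^ (19 / 25 : ℝ) := by
            rw [← Real.rpow_natCast, ← Real.rpow_mul hXpos.le]; norm_num
        _ ≤ X ^ (4 / 5 : ℝ) := Real.rpow_le_rpow_of_exponent_le hX5 (by norm_num)
    have h4 : X ^ (4 / 5 : ℝ) * X ^ (1 / 5 : ℝ) = X := by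
      rw [← Real.rpow_add hXpos]; norm_num
    have h5 : 0 < X ^ (4 / 5 : ℝ) := by positivity
    calc C * (R / D) ^ (2 * 3) ≤ C * X ^ (4 / 5 : ℝ) := mul_le_mul_of_nonneg_left h1 (by linarith)
      _ < X / 2 := by nlinarith
  have hcard := hmain X P R D τ hCX hXP hCP hPX hR1 hR3 hτ0 hτ1 hD0 hDR hcond N (by
    intro n hn
    obtain ⟨h1, h2, h3⟩ := hN n hn
    refine ⟨?_, h2, hlow.trans_le h1, h3⟩
    have h4 : (0 : ℝ) < n := by
      refine lt_of_lt_of_le ?_ h1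
      linarith
    have h5 : (0 : ℤ) < n := by exact_mod_cast h4
    omega)
  -- the result
  have hR2 : R ^ (3 - 1) ≤ X ^ (11 / 15 : ℝ) := by
    have h2 : R ≤ X ^ (11 / 30 : ℝ) := by
      calc R ≤ (X ^ (11 / 10 : ℝ)) ^ (1 / 3 : ℝ) := Real.rpow_le_rpow hPpos.le hP (by norm_num)
        _ = X ^ (11 / 30 : ℝ) := by
          rw [← Real.rpow_mul hXpos.le]; norm_num
    calc R ^ (3 - 1) ≤ (X ^ (11 / 30 : ℝ)) ^ (3 - 1) := pow_le_pow_left₀ (by positivity) h2 _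
      _ = X ^ (11 / 15 : ℝ) := by
        rw [← Real.rpow_natCast, ← Real.rpow_mul hXpos.le]; norm_num
  have hfirst : X ^ (1 / 100 : ℝ) * R ^ (3 - 1) / τ ≤ X ^ (99 / 100 : ℝ) := by
    rw [div_le_iff₀ hτ0, hτ, ← Real.rpow_add hXpos]
    calc X ^ (1 / 100 : ℝ) * R ^ (3 - 1) ≤ X ^ (1 / 100 : ℝ) * X ^ (11 / 15 : ℝ) :=
          mul_le_mul_of_nonneg_left hR2 (by positivity)
      _ = X ^ (1 / 100 + 11 / 15 : ℝ) := by rw [← Real.rpow_add hXpos]
      _ ≤ _ := Real.rpow_le_rpow_of_exponent_le hX5 (by norm_num)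
  have hsecond : R ^ (3 - 1) * (D + 1) ≤ 2 * X ^ (99 / 100 : ℝ) := by
    calc R ^ (3 - 1) * (D + 1) ≤ X ^ (11 / 15 : ℝ) * (2 * D) :=
          mul_le_mul hR2 (by linarith) (by positivity) (by positivity)
      _ = 2 * X ^ (11 / 15 + 6 / 25 : ℝ) := by
          rw [hD, Real.rpow_add hXpos]; ring
      _ ≤ 2 * X ^ (99 / 100 : ℝ) := by
          refine mul_le_mul_of_nonneg_left ?_ (by norm_num)
          exact Real.rpow_le_rpow_of_exponent_le hX5 (by norm_num)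
  calc (N.card : ℝ) ≤ C * (X ^ (1 / 100 : ℝ) * R ^ (3 - 1) / τ + R ^ (3 - 1) * (D + 1)) := hcard
    _ ≤ C * (X ^ (99 / 100 : ℝ) + 2 * X ^ (99 / 100 : ℝ)) :=
      mul_le_mul_of_nonneg_left (add_le_add hfirst hsecond) (by linarith)
    _ = 3 * C * X ^ (99 / 100 : ℝ) := by ring

/-- positive `n`, windows with `P ≤ Y ^ (11/10)` -/
theorem cubic_pos (g : ℤ[X]) (hg : g.Monic) (hirr : Irreducible g) (hd : g.natDegree = 3) :
    PosRangeBoundL g (1 / 10) := by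
  classical
  intro L hL
  obtain ⟨X0, hX01, K, hK0, hmain⟩ := cubic_first g hg hirr hd (4 * ⌈L⌉₊)
    (by have := Nat.ceil_pos.2 (by linarith : 0 < L); omega)
  have hceil : L ≤ (⌈L⌉₊ : ℝ) := Nat.le_ceil L
  refine ⟨1 / 100, by norm_num, 4 * K + 5 * X0, fun Y P hY hYP hPY => ?_⟩
  have hYpos : 0 < Y := by linarith
  have hY99 : 1 ≤ Y ^ (1 - 1 / 100 : ℝ) := Real.one_le_rpow hY (by norm_num)
  by_cases hYX : X0 ≤ 2 * Y
  swap
  · push Not at hYX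
    have h1 : pcount g Y P ≤ wcount g Y P := by
      unfold pcount wcount
      refine Set.ncard_le_ncard ?_ (wset_finite g Y P)
      rintro n ⟨hn1, hn2, hn3⟩
      have h0 : (0 : ℝ) ≤ n := by linarith
      exact ⟨by rwa [abs_of_nonneg h0], by rwa [abs_of_nonneg h0], hn3⟩
    have h2 := wcount_le g Y P hY
    have h3 : (pcount g Y P : ℝ) ≤ 5 * Y := le_trans (by exact_mod_cast h1) h2
    nlinarith
  have hLpos : 0 < L := by linarith
  have hPpos : 0 < P := by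
    by_contra hcon
    push Not at hcon
    nlinarith
  have hpow : (2 * Y) ^ (99 / 100 : ℝ) ≤ 2 * Y ^ (1 - 1 / 100 : ℝ) := by
    rw [Real.mul_rpow (by norm_num) hYpos.le]
    have h1 : (2 : ℝ) ^ (99 / 100 : ℝ) ≤ 2 := by
      calc (2 : ℝ) ^ (99 / 100 : ℝ) ≤ 2 ^ (1 : ℝ) :=
            Real.rpow_le_rpow_of_exponent_le (by norm_num) (by norm_num)
        _ = 2 := Real.rpow_one 2
    have h2 : (99 / 100 : ℝ) = 1 - 1 / 100 := by norm_num
    rw [h2] at h1 ⊢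
    exact mul_le_mul_of_nonneg_right h1 (by positivity)
  have hYX11 : Y ^ (1 + 1 / 10 : ℝ) ≤ (2 * Y) ^ (11 / 10 : ℝ) := by
    have h2 : (1 + 1 / 10 : ℝ) = 11 / 10 := by norm_num
    rw [h2]
    exact Real.rpow_le_rpow hYpos.le (by linarith) (by norm_num)
  -- one half
  have hhalf : ∀ Q : ℝ, P / 2 ≤ Q → Q ≤ P → ∀ N : Finset ℤ, (∀ n ∈ N, Y ≤ (n : ℝ) ∧
      (n : ℝ) < 2 * Y ∧ ∃ p : ℕ, p.Prime ∧ Q < p ∧ (p : ℝ) ≤ 2 * Q ∧ ((p : ℤ) ^ 2 ∣ g.eval n)) →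
      (N.card : ℝ) ≤ K * (2 * Y) ^ (99 / 100 : ℝ) := by
    intro Q hQ1 hQ2 N hN
    refine hmain (2 * Y) Q hYX ?_ ?_ N ?_
    · push_cast
      have h1 : L * P ≤ (⌈L⌉₊ : ℝ) * P := mul_le_mul_of_nonneg_right hceil hPpos.le
      have h2 : (⌈L⌉₊ : ℝ) * P ≤ (⌈L⌉₊ : ℝ) * (2 * Q) :=
        mul_le_mul_of_nonneg_left (by linarith) (by linarith)
      linarith
    · exact hQ2.trans (hPY.trans hYX11)
    · intro n hn
      obtain ⟨h1, h2, h3⟩ := hN n hn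
      exact ⟨by linarith, h2.le, h3⟩
  set F : Finset ℤ := (pset_finite g Y P).toFinset with hF
  have hFcard : pcount g Y P = F.card := by
    unfold pcount
    rw [Set.ncard_eq_toFinset_card _ (pset_finite g Y P)]
  set N1 : Finset ℤ := F.filter (fun n => ∃ p : ℕ, p.Prime ∧ P / 2 < p ∧ (p : ℝ) ≤ 2 * (P / 2) ∧
    ((p : ℤ) ^ 2 ∣ g.eval n)) with hN1
  set N2 : Finset ℤ := F.filter (fun n => ∃ p : ℕ, p.Prime ∧ P < p ∧ (p : ℝ) ≤ 2 * P ∧
    ((p : ℤ) ^ 2 ∣ g.eval n)) with hN2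
  have hcov : F ⊆ N1 ∪ N2 := by
    intro n hn
    have hn' : n ∈ pset g Y P := by rwa [hF, Set.Finite.mem_toFinset] at hn
    obtain ⟨-, -, p, hp, hp1, hp2, hp3⟩ := hn'
    rw [Finset.mem_union, hN1, hN2, Finset.mem_filter, Finset.mem_filter]
    rcases lt_or_ge P (p : ℝ) with h | h
    · exact Or.inr ⟨hn, p, hp, h, hp2.le, hp3⟩
    · exact Or.inl ⟨hn, p, hp, by linarith, by linarith, hp3⟩
  have hcard : F.card ≤ N1.card + N2.card :=
    (Finset.card_le_card hcov).trans (Finset.card_union_le _ _)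
  have h1 := hhalf (P / 2) le_rfl (by linarith) N1 (by
    intro n hn
    rw [hN1, Finset.mem_filter, hF, Set.Finite.mem_toFinset] at hn
    exact ⟨hn.1.1, hn.1.2.1, hn.2⟩)
  have h2 := hhalf P (by linarith) le_rfl N2 (by
    intro n hn
    rw [hN2, Finset.mem_filter, hF, Set.Finite.mem_toFinset] at hn
    exact ⟨hn.1.1, hn.1.2.1, hn.2⟩)
  have h3 : (pcount g Y P : ℝ) ≤ (N1.card : ℝ) + (N2.card : ℝ) := by
    rw [hFcard]
    exact_mod_cast hcard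
  have h4 : K * (2 * Y) ^ (99 / 100 : ℝ) ≤ K * (2 * Y ^ (1 - 1 / 100 : ℝ)) :=
    mul_le_mul_of_nonneg_left hpow hK0
  have h5 : 0 ≤ 5 * X0 * Y ^ (1 - 1 / 100 : ℝ) := by positivity
  calc (pcount g Y P : ℝ) ≤ 4 * K * Y ^ (1 - 1 / 100 : ℝ) := by linarith
    _ ≤ (4 * K + 5 * X0) * Y ^ (1 - 1 / 100 : ℝ) := by linarith

/-- **The windows of a monic irreducible cubic.** -/
theorem cubic_range (g : ℤ[X]) (hg : g.Monic) (hirr : Irreducible g) (hd : g.natDegree = 3) :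
    RangeBoundL g (51 / 100) :=
  ((rangeBoundL_of_pos 3 (1 / 10) cubic_pos g hg hirr hd).glue
    (rangeC3 g hg hirr hd (1 / 10) (by norm_num))).mono (by norm_num)

/-- **The tail of an irreducible cubic is small.** -/
theorem tailSmall_of_cubic (f : ℤ[X]) (hf : Irreducible f) (hd : f.natDegree = 3) :
    Pool.Agent.SQF4.TailSmall f :=
  tailSmall_cubic cubic_range f hf hd

end Pool.Agent.Lib.SQF
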