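import Pool.Agent.Lib.SQF.FinalB
import Pool.Agent.Lib.SQF.Cubic
import Pool.Agent.Lib.SQF.RangeA
import Pool.Agent.Lib.SQF.RangeB
import Pool.Agent.Lib.SQF.RangeC

/-!
# SQF: the density theorem from the two slice bounds
-/

set_option autoImplicit false

open Polynomial

namespace Pool.Agent.Lib.SQF

/-- the first range of a quartic from the slice bounds -/
theorem rangeA_quartic {g : ℤ[X]} (hg : g.Monic) (hirr : Irreducible g) (hd : g.natDegree = 4)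
    (hA : ∀ d0 d1 x0 x1 : ℝ, -(1 / 100) ≤ d0 → d0 < d1 → d1 ≤ 383 / 1000 → 0 ≤ x0 → x0 < x1 →
      x0 ≤ 3 / 100 → x1 ≤ 3 / 25 → CertA d0 d1 x0 x1 → SliceA g d0 d1 x0 x1) :
    RangeBoundL g (383 / 1000) := by
  have h := rangeA hg hirr hd hA
  rw [← hd] at h
  exact fun L hL => rangeL_of_sols g hg hirr h L hL

/-- the second range of a quartic from the slice bounds -/
theorem rangeB_quartic {g : ℤ[X]} (hg : g.Monic) (hirr : Irreducible g) (hd : g.natDegree = 4)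
    (hB : ∀ x0 x1 : ℝ, 0 ≤ x0 → x0 < x1 → x1 ≤ 13 / 125 → CertB x0 x1 → SliceB g x0 x1) :
    RangeBound g (383 / 1000) (51 / 100) := by
  have h := rangeB hg hirr hd hB
  rw [← hd] at h
  exact rangeBound_of_sols g hg hirr (by norm_num) h

/-- **The density theorem from the two slice bounds.** -/
theorem density_of_slices
    (HA : ∀ g : ℤ[X], g.Monic → Irreducible g → g.natDegree = 4 → ∀ d0 d1 x0 x1 : ℝ,
      -(1 / 100) ≤ d0 → d0 < d1 → d1 ≤ 383 / 1000 → 0 ≤ x0 → x0 < x1 →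
      x0 ≤ 3 / 100 → x1 ≤ 3 / 25 → CertA d0 d1 x0 x1 → SliceA g d0 d1 x0 x1)
    (HB : ∀ g : ℤ[X], g.Monic → Irreducible g → g.natDegree = 4 → ∀ x0 x1 : ℝ,
      0 ≤ x0 → x0 < x1 → x1 ≤ 13 / 125 → CertB x0 x1 → SliceB g x0 x1)
    (f : MvPolynomial (Fin 1) ℤ) (hprim : ∀ r : ℤ, (∀ m, r ∣ f.coeff m) → IsUnit r)
    (hsq : Squarefree f)
    (hdeg : ∀ q : MvPolynomial (Fin 1) ℤ, Irreducible q → q ∣ f → q.totalDegree ≤ 4)
    (δ : ℕ) (hδ : ∀ n : ℤ, (∀ v : Fin 1 → ℤ, n ∣ MvPolynomial.eval v f) ↔ n ∣ (δ : ℤ)) :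
    Filter.Tendsto
      (fun N : ℕ => (Nat.card {v : Fin 1 → ℕ // (∀ i, 1 ≤ v i ∧ v i ≤ N) ∧
          Squarefree (MvPolynomial.eval (fun i => (v i : ℤ)) f /
            ((∏ p ∈ δ.primeFactors, p ^ (δ.factorization p - 1) : ℕ) : ℤ))} : ℝ) / (N : ℝ) ^ 1)
      Filter.atTop
      (nhds (∏' p : Nat.Primes,
        (1 - (Nat.card {v : Fin 1 → Fin ((p : ℕ) ^ (2 + (δ.factorization (p : ℕ) - 1))) //
              (((p : ℕ) ^ (2 + (δ.factorization (p : ℕ) - 1)) : ℕ) : ℤ) ∣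
                MvPolynomial.eval (fun i => ((v i : ℕ) : ℤ)) f} : ℝ) /
          (((p : ℕ) : ℝ) ^ (1 * (2 + (δ.factorization (p : ℕ) - 1))))))) :=
  density_of_ranges (383 / 1000) (51 / 100) cubic_range
    (fun g hg hirr hd => rangeA_quartic hg hirr hd (HA g hg hirr hd))
    (fun g hg hirr hd => rangeB_quartic hg hirr hd (HB g hg hirr hd))
    rangeC f hprim hsq hdeg δ hδ

end Pool.Agent.Lib.SQF
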