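import Mathlib
import Pool.Agent.Lib.SQF.LamS
import Pool.Agent.Lib.SQF.Bez2
import Pool.Agent.Lib.SQF.Prm
import Pool.Agent.Lib.SQF.Cluster

/-!
# SQF: the first step on beta-slices (helper38)

`first_b`: there are `N = 2 + 4 s r + 2 r ^ 2` monomial forms (degree `s` in `(u, v)`, degree `r` in
`α`) such that (1) if all determinants of points of a set vanish then up to `eB r s` points lie on at
most `4 r` curves, irreducible of positive degree in `n`; (2) a form which vanishes at many points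
of each of `4 r + 1` different curves is zero.
-/

set_option autoImplicit false

open Polynomial

namespace Pool.Agent.Lib.SQF

open Pool.Agent.SQF.LamA (idx mem_idx)
open Pool.Agent.SQF.LamZ (NonSpecial lamS)

/-- value of the monomial form `u ^ a v ^ (s - a) α ^ J`, `c = (a, J)` -/
def fb (s : ℕ) (c : ℕ × (Fin 4 → ℕ)) (u v : ℤ) (α : Fin 4 → ℤ) : ℤ :=
  u ^ c.1 * v ^ (s - c.1) * ∏ j, α j ^ c.2 j

/-- bound for the degree in `t` of the norms -/
def eB (r s : ℕ) : ℕ := 32 * r * s + 48 * r ^ 2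

/-- curves which occur on beta-slices -/
structure CurveB (r s : ℕ) (T : ℝ) (G : ℤ[X][X]) : Prop where
  curve : Bez.IsCurve G
  pos : 1 ≤ G.natDegree
  deg : G.natDegree ≤ 4 * r
  degt : ∀ i, (G.coeff i).natDegree ≤ eB r s
  bdd : ∀ i j, |(((G.coeff i).coeff j : ℤ) : ℝ)| ≤ T

/-- a solution on the beta-slice `(f1, f2)` -/
structure SolB (g : ℤ[X]) (K Y P A : ℝ) (f1 f2 : Fin 4 → ℤ) (m n : ℤ) (p : ℕ)
    (α β : Fin 4 → ℤ) (u v : ℤ) : Prop where
  sol : IsSol 4 g K Y P n p α β m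
  on : OnSlice f1 f2 β u v
  v_ne : v ≠ 0
  u_le : |(u : ℝ)| ≤ Y ^ A
  v_le : |(v : ℝ)| ≤ Y ^ A

/-- if all determinants vanish there is an integral relation -/
lemma exists_rel_of_dets {N : ℕ} (w : ℤ → Fin N → ℤ) (S : Finset ℤ)
    (h : ∀ x : Fin N → ℤ, (∀ i, x i ∈ S) → Matrix.det (Matrix.of fun i c => w (x i) c) = 0) :
    ∃ k : Fin N → ℤ, k ≠ 0 ∧ ∀ n ∈ S, ∑ c, k c * w n c = 0 := by
  by_contra hcon
  push Not at hcon
  have h1 : ∀ c : Fin N → ℚ, (∀ n ∈ (S : Set ℤ), ∑ j, c j * (w n j : ℚ) = 0) → c = 0 := by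
    intro c hc
    by_contra hc0
    obtain ⟨m, k, hm, hk0, hk⟩ := exists_int_rel c hc0
    obtain ⟨n, hn, hne⟩ := hcon k hk0
    apply hne
    have h2 := hc n (Finset.mem_coe.2 hn)
    have h3 : ((∑ j, k j * w n j : ℤ) : ℚ) = m * ∑ j, c j * (w n j : ℚ) := by
      push_cast
      rw [Finset.mul_sum]
      refine Finset.sum_congr rfl fun j _ => ?_
      rw [hk]; ring
    rw [h2, mul_zero] at h3
    exact_mod_cast h3
  obtain ⟨x, hx, hdet⟩ := Bez.exists_rows (K := ℚ) (S : Set ℤ) (fun n j => (w n j : ℚ)) h1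
  apply hdet
  have h4 := h x (fun i => Finset.mem_coe.1 (hx i))
  have h5 : (Matrix.of fun i c => ((w (x i) c : ℤ) : ℚ)) =
      (Int.castRingHom ℚ).mapMatrix (Matrix.of fun i c => w (x i) c) := by
    ext i c; simp
  rw [h5, ← RingHom.map_det, h4, map_zero]

/-- columns with the norm polynomial of a combination -/
theorem exists_norm_poly {g : ℤ[X]} (hg : g.Monic) (hi : Irreducible g) (hd : g.natDegree = 4)
    {f1 f2 : Fin 4 → ℤ} (hs : NonSpecial g f1 f2) (r s : ℕ) (hr : 1 ≤ r) :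
    ∃ cols : Fin (2 + 4 * s * r + 2 * r ^ 2) → ℕ × (Fin 4 → ℕ), Function.Injective cols ∧
      (∀ c, (cols c).1 ≤ s ∧ ∑ j, (cols c).2 j = r) ∧
      ∀ k : Fin (2 + 4 * s * r + 2 * r ^ 2) → ℤ, k ≠ 0 →
        ∀ (K Y P : ℝ) (m : ℤ) (S : Set ℤ) (p : ℤ → ℕ) (α β : ℤ → Fin 4 → ℤ) (u v : ℤ → ℤ)
          (_ : ∀ n ∈ S, IsSol 4 g K Y P n (p n) (α n) (β n) m)
          (_ : ∀ n ∈ S, OnSlice f1 f2 (β n) (u n) (v n))
          (_ : ∀ n ∈ S, v n ≠ 0) {T : ℤ} (_ : 1 ≤ T)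
          (_ : ∀ n ∈ S, |u n| ≤ T) (_ : ∀ n ∈ S, |v n| ≤ T) (_ : ∀ n ∈ S, |n| ≤ T),
        ∃ F : ℤ[X][X], F ≠ 0 ∧ F.natDegree ≤ 4 * r ∧ (∀ i, (F.coeff i).natDegree ≤ eB r s) ∧
          (∀ i j, |(F.coeff i).coeff j| ≤ ((4 * r + 1) * (eB r s + 1)).factorial *
            (T ^ (eB r s + 4 * r)) ^ ((4 * r + 1) * (eB r s + 1))) ∧
          ∀ n ∈ S, ∑ c, k c * fb s (cols c) (u n) (v n) (α n) = 0 →
            Bez.ev (Int.castRingHom ℚ) ((u n : ℚ) / (v n : ℚ)) (n : ℚ) F = 0 := by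
  classical
  obtain ⟨I, hI, hcard, hmain⟩ := lamS hg hi hd hs r s hr
  set e := I.equivFinOfCardEq hcard with he
  refine ⟨fun c => (e.symm c : ℕ × (Fin 4 → ℕ)), Subtype.val_injective.comp e.symm.injective,
    fun c => mem_idx.1 (hI (e.symm c).2), ?_⟩
  intro k hk K Y P m S p α β u v hsol hon hv T hT hu hv' hn
  set d : ℕ × (Fin 4 → ℕ) → ℤ := fun x => if h : x ∈ I then k (e ⟨x, h⟩) else 0 with hd'
  have hdk : ∀ c, d (e.symm c : ℕ × (Fin 4 → ℕ)) = k c := by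
    intro c
    simp only [hd', (e.symm c).2, dif_pos, Subtype.coe_eta, Equiv.apply_symm_apply]
  have hne : ∃ x ∈ I, d x ≠ 0 := by
    obtain ⟨c, hc⟩ := Function.ne_iff.1 hk
    exact ⟨e.symm c, (e.symm c).2, by rw [hdk]; exact hc⟩
  obtain ⟨F, hF, hF1, hF2, hF3, hF4⟩ := hmain d hne (eB r s) le_rfl K Y P m S p α β u v hsol hon
    hv hT hu hv' hn
  refine ⟨F, hF, hF1, hF2, hF3, fun n hnS h0 => ?_⟩
  have h1 : ∑ x ∈ I, d x * (u n ^ x.1 * v n ^ (s - x.1) * ∏ j, α n j ^ x.2 j) = 0 := by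
    rw [← Finset.sum_coe_sort I, ← Equiv.sum_comp e.symm, ← h0]
    refine Finset.sum_congr rfl fun c _ => ?_
    rw [hdk]; rfl
  have h2 := hF4 n hnS h1
  have h3 := NormB.hom_eq_evalEval (L := ℚ) (D := 4 * r) (e := eB r s) hF1 hF2
    (u := (u n : ℚ)) (v := (v n : ℚ)) (a := 1) (b := (n : ℚ))
    (by exact_mod_cast hv n hnS) one_ne_zero
  have h4 : ∑ i ∈ Finset.range (4 * r + 1), ∑ j ∈ Finset.range (eB r s + 1),
      (((F.coeff i).coeff j : ℤ) : ℚ) * ((u n : ℚ) ^ j * (v n : ℚ) ^ (eB r s - j) *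
        ((1 : ℚ) ^ (4 * r - i) * (n : ℚ) ^ i)) = 0 := by
    have h5 := congrArg (Int.cast : ℤ → ℚ) h2
    push_cast at h5
    rw [← h5]
    refine Finset.sum_congr rfl fun i _ => Finset.sum_congr rfl fun j _ => ?_
    rw [one_pow, one_mul]
  rw [h4, one_pow, mul_one, div_one] at h3
  rw [Bez.ev_eq_evalEval_map]
  rcases mul_eq_zero.1 h3.symm with h6 | h6
  · exfalso
    exact hv n hnS (by exact_mod_cast eq_zero_of_pow_eq_zero h6)
  · exact h6

/-- `ev` and `hev` -/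
lemma hev_ne_of_ev {e : ℕ} {G : ℤ[X][X]} (hG : ∀ i, (G.coeff i).natDegree ≤ e) {u v n : ℤ}
    (hv : v ≠ 0) : hev e G u v n = 0 ↔
      Bez.ev (Int.castRingHom ℚ) ((u : ℚ) / (v : ℚ)) (n : ℚ) G = 0 := by
  have h := hev_eq e G hG u v n hv
  rw [Bez.ev_eq_evalEval_map]
  constructor
  · intro h0
    rw [h0, Int.cast_zero] at h
    rcases mul_eq_zero.1 h.symm with h1 | h1
    · exact absurd (eq_zero_of_pow_eq_zero h1) (by exact_mod_cast hv)
    · exact h1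
  · intro h0
    rw [h0, mul_zero] at h
    exact_mod_cast h

/-- the curves of positive degree in `n`, and the exceptional points -/
theorem curves_b {r e : ℕ} {F : ℤ[X][X]} (hF : F ≠ 0) (hF1 : F.natDegree ≤ 4 * r)
    (hF2 : ∀ i, (F.coeff i).natDegree ≤ e) (S : Finset ℤ) (u v : ℤ → ℤ)
    (hv : ∀ n ∈ S, v n ≠ 0)
    (hinj : ∀ n ∈ S, ∀ n' ∈ S, u n * v n' = u n' * v n → n = n')
    (h0 : ∀ n ∈ S, Bez.ev (Int.castRingHom ℚ) ((u n : ℚ) / (v n : ℚ)) (n : ℚ) F = 0) :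
    ∃ Γ : Finset ℤ[X][X], Γ.card ≤ 4 * r ∧
      (∀ G ∈ Γ, Bez.IsCurve G ∧ G ∣ F ∧ 1 ≤ G.natDegree) ∧
      (S.filter fun n => ∀ G ∈ Γ, hev e G (u n) (v n) n ≠ 0).card ≤ e := by
  classical
  have hdegF : Bez.degT F ≤ e := (Bez.degT_le_iff _ _).2 hF2
  set Γ := (Bez.curves F).filter fun G => 1 ≤ G.natDegree with hΓ
  set V := (Bez.curves F).filter fun G => G.natDegree = 0 with hV
  have hΓm : ∀ G ∈ Γ, G ∈ Bez.curves F ∧ 1 ≤ G.natDegree := fun G hG => Finset.mem_filter.1 hG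
  have hVm : ∀ G ∈ V, G ∈ Bez.curves F ∧ G.natDegree = 0 := fun G hG => Finset.mem_filter.1 hG
  have hassΓ : ∀ G ∈ Γ, ∀ G' ∈ Γ, G ≠ G' → ¬ Associated (id G) (id G') := fun G hG G' hG' =>
    Bez.curves_not_associated hF G (hΓm G hG).1 G' (hΓm G' hG').1
  have hassV : ∀ G ∈ V, ∀ G' ∈ V, G ≠ G' → ¬ Associated (id G) (id G') := fun G hG G' hG' =>
    Bez.curves_not_associated hF G (hVm G hG).1 G' (hVm G' hG').1
  refine ⟨Γ, ?_, ?_, ?_⟩
  · have h1 := Bez.sum_natDegree_le Γ id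
      (fun G hG => ((Bez.mem_curves hF).1 (hΓm G hG).1).1.1) hassΓ F hF
      (fun G hG => ((Bez.mem_curves hF).1 (hΓm G hG).1).2.1)
    refine le_trans ?_ (h1.trans hF1)
    rw [Finset.card_eq_sum_ones]
    exact Finset.sum_le_sum fun G hG => (hΓm G hG).2
  · intro G hG
    have h1 := (Bez.mem_curves hF).1 (hΓm G hG).1
    exact ⟨h1.1, h1.2.1, (hΓm G hG).2⟩
  · have hsumV := Bez.sum_degT_le V id
      (fun G hG => ((Bez.mem_curves hF).1 (hVm G hG).1).1.1) hassV F hF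
      (fun G hG => ((Bez.mem_curves hF).1 (hVm G hG).1).2.1)
    set h : ℤ[X] := ∏ G ∈ V, G.coeff 0 with hh
    have hGC : ∀ G ∈ V, G = C (G.coeff 0) := fun G hG =>
      eq_C_of_natDegree_eq_zero (hVm G hG).2
    have hG0 : ∀ G ∈ V, G.coeff 0 ≠ 0 := by
      intro G hG h1
      have h2 := hGC G hG
      rw [h1, C_0] at h2
      exact ((Bez.mem_curves hF).1 (hVm G hG).1).1.1.ne_zero h2
    have hh0 : h ≠ 0 := Finset.prod_ne_zero_iff.2 hG0
    have hdeg : h.natDegree ≤ e := by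
      rw [hh, natDegree_prod _ _ hG0]
      refine le_trans (Finset.sum_le_sum fun G hG => ?_) (hsumV.trans hdegF)
      exact Bez.natDegree_coeff_le G 0
    set hq := h.map (Int.castRingHom ℚ) with hhq
    have hhq0 : hq ≠ 0 := (Polynomial.map_ne_zero_iff Int.cast_injective).2 hh0
    set E := S.filter fun n => ∀ G ∈ Γ, hev e G (u n) (v n) n ≠ 0 with hE
    have hsub : (E.image fun n => (u n : ℚ) / (v n : ℚ)) ⊆ hq.roots.toFinset := by
      intro t ht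
      obtain ⟨n, hn, rfl⟩ := Finset.mem_image.1 ht
      obtain ⟨hnS, hnG⟩ := Finset.mem_filter.1 hn
      obtain ⟨G, hG, hG0'⟩ := Bez.exists_mem_curves hF (Int.castRingHom ℚ) Int.cast_injective _ _
        (h0 n hnS)
      have hGV : G ∈ V := by
        refine Finset.mem_filter.2 ⟨hG, ?_⟩
        by_contra hne
        have hGΓ : G ∈ Γ := Finset.mem_filter.2 ⟨hG, by omega⟩
        apply hnG G hGΓ
        refine (hev_ne_of_ev (fun i => ?_) (hv n hnS)).2 hG0'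
        exact (Bez.natDegree_coeff_le G i).trans
          ((Bez.degT_le_of_dvd ((Bez.mem_curves hF).1 hG).2.1 hF).trans hdegF)
      rw [Multiset.mem_toFinset, mem_roots hhq0, IsRoot.def, hhq, hh, Polynomial.map_prod,
        eval_prod]
      refine Finset.prod_eq_zero hGV ?_
      rw [hGC G hGV, Bez.ev_C] at hG0'
      rw [eval_map]
      simpa using hG0'
    have hcard : (E.image fun n => (u n : ℚ) / (v n : ℚ)).card = E.card := by
      refine Finset.card_image_of_injOn ?_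
      intro n hn n' hn' hnn
      have hn1 := (Finset.mem_filter.1 hn).1
      have hn2 := (Finset.mem_filter.1 hn').1
      refine hinj n hn1 n' hn2 ?_
      have hv1 : ((v n : ℤ) : ℚ) ≠ 0 := by exact_mod_cast hv n hn1
      have hv2 : ((v n' : ℤ) : ℚ) ≠ 0 := by exact_mod_cast hv n' hn2
      have h3 : (u n : ℚ) / (v n : ℚ) = (u n' : ℚ) / (v n' : ℚ) := hnn
      rw [div_eq_div_iff hv1 hv2] at h3
      exact_mod_cast h3
    calc E.card = (E.image fun n => (u n : ℚ) / (v n : ℚ)).card := hcard.symm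
      _ ≤ hq.roots.toFinset.card := Finset.card_le_card hsub
      _ ≤ Multiset.card hq.roots := Multiset.toFinset_card_le _
      _ ≤ hq.natDegree := card_roots' _
      _ ≤ h.natDegree := natDegree_map_le
      _ ≤ e := hdeg

/-- the coefficient bound as a power of `Y` -/
lemma coeff_power (r e : ℕ) (A : ℝ) : ∃ A' : ℝ, ∀ (Y : ℝ), 2 ≤ Y →
    ∃ T : ℤ, 1 ≤ T ∧ (∀ u : ℤ, |(u : ℝ)| ≤ Y ^ A → |u| ≤ T) ∧
      (∀ u : ℤ, |(u : ℝ)| ≤ 2 * Y → |u| ≤ T) ∧
      (Bez.hc (4 * r) e : ℝ) * ((((4 * r + 1) * (e + 1)).factorial *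
        (T ^ (e + 4 * r)) ^ ((4 * r + 1) * (e + 1)) : ℤ) : ℝ) ≤ Y ^ A' := by
  set B : ℝ := max A 2 with hB
  set M : ℕ := (4 * r + 1) * (e + 1) with hM
  set c : ℕ := Bez.hc (4 * r) e * M.factorial with hc
  refine ⟨c + B * ((e + 4 * r) * M : ℕ), fun Y hY => ?_⟩
  have hY1 : (1 : ℝ) ≤ Y := by linarith
  have hY0 : (0 : ℝ) < Y := by linarith
  have hB2 : (2 : ℝ) ≤ B := le_max_right _ _
  have hYB : (1 : ℝ) ≤ Y ^ B := Real.one_le_rpow hY1 (by linarith)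
  have hT : ((⌊Y ^ B⌋ : ℤ) : ℝ) ≤ Y ^ B := Int.floor_le _
  have hT1 : 1 ≤ ⌊Y ^ B⌋ := Int.le_floor.2 (by exact_mod_cast hYB)
  have hfl : ∀ u : ℤ, |(u : ℝ)| ≤ Y ^ B → |u| ≤ ⌊Y ^ B⌋ := by
    intro u hu
    refine Int.le_floor.2 ?_
    push_cast
    exact hu
  refine ⟨⌊Y ^ B⌋, hT1, fun u hu => hfl u (hu.trans ?_), fun u hu => hfl u (hu.trans ?_), ?_⟩
  · exact Real.rpow_le_rpow_of_exponent_le hY1 (le_max_left _ _)
  · calc 2 * Y ≤ Y * Y := by nlinarith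
      _ = Y ^ (2 : ℝ) := by rw [Real.rpow_two]; ring
      _ ≤ Y ^ B := Real.rpow_le_rpow_of_exponent_le hY1 hB2
  · push_cast
    have h1 : (((⌊Y ^ B⌋ : ℤ) : ℝ) ^ (e + 4 * r)) ^ M ≤ Y ^ (B * ((e + 4 * r) * M : ℕ)) := by
      rw [← pow_mul, Real.rpow_mul hY0.le, Real.rpow_natCast]
      exact pow_le_pow_left₀ (by exact_mod_cast (by omega : (0 : ℤ) ≤ ⌊Y ^ B⌋)) hT _
    have h2 : ((Bez.hc (4 * r) e : ℝ) * (M.factorial : ℝ)) ≤ Y ^ (c : ℝ) := by
      rw [Real.rpow_natCast]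
      calc ((Bez.hc (4 * r) e : ℝ) * (M.factorial : ℝ)) = (c : ℝ) := by rw [hc]; push_cast; ring
        _ ≤ (2 : ℝ) ^ c := by exact_mod_cast (Nat.lt_two_pow_self (n := c)).le
        _ ≤ Y ^ c := pow_le_pow_left₀ (by norm_num) hY _
    rw [Real.rpow_add hY0, ← mul_assoc]
    refine mul_le_mul h2 ?_ (by positivity) (by positivity)
    push_cast at h1
    exact h1

/-- **The first step on beta-slices.** -/
theorem first_b {g : ℤ[X]} (hg : g.Monic) (hi : Irreducible g) (hd : g.natDegree = 4)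
    (r s : ℕ) (hr : 1 ≤ r) (A : ℝ) :
    ∃ A' : ℝ, ∀ (Y : ℝ), 2 ≤ Y → ∀ (f1 f2 : Fin 4 → ℤ), NonSpecial g f1 f2 →
      ∃ cols : Fin (2 + 4 * s * r + 2 * r ^ 2) → ℕ × (Fin 4 → ℕ), Function.Injective cols ∧
        (∀ c, (cols c).1 ≤ s ∧ ∑ j, (cols c).2 j = r) ∧
        ∀ (K P : ℝ) (m : ℤ) (S : Finset ℤ) (p : ℤ → ℕ) (α β : ℤ → Fin 4 → ℤ) (u v : ℤ → ℤ),
          (∀ n ∈ S, SolB g K Y P A f1 f2 m n (p n) (α n) (β n) (u n) (v n)) →
          (∀ n ∈ S, ∀ n' ∈ S, u n * v n' = u n' * v n → n = n') →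
          (∀ S' ⊆ S,
            (∀ x : Fin (2 + 4 * s * r + 2 * r ^ 2) → ℤ, (∀ i, x i ∈ S') →
              Matrix.det (Matrix.of fun i c => fb s (cols c) (u (x i)) (v (x i)) (α (x i))) = 0) →
            ∃ Γ : Finset ℤ[X][X], Γ.card ≤ 4 * r ∧ (∀ G ∈ Γ, CurveB r s (Y ^ A') G) ∧
              (S'.filter fun n => ∀ G ∈ Γ, hev (eB r s) G (u n) (v n) n ≠ 0).card ≤ eB r s) ∧
          (∀ γ : ℕ → ℤ[X][X], (∀ i < 4 * r + 1, CurveB r s (Y ^ A') (γ i)) →
            (∀ i < 4 * r + 1, ∀ j < 4 * r + 1, i ≠ j → γ i ≠ γ j) →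
            ∀ D : ℕ → Finset ℤ, (∀ i < 4 * r + 1, D i ⊆ S ∧
              (∀ x ∈ D i, hev (eB r s) (γ i) (u x) (v x) x = 0) ∧
              2 * (4 * r) * eB r s + eB r s + 1 ≤ (D i).card) →
            ∀ k : Fin (2 + 4 * s * r + 2 * r ^ 2) → ℤ,
              (∀ i < 4 * r + 1, ∀ x ∈ D i, ∑ c, k c * fb s (cols c) (u x) (v x) (α x) = 0) →
              k = 0) := by
  classical
  obtain ⟨A', hA'⟩ := coeff_power r (eB r s) A
  refine ⟨A', fun Y hY f1 f2 hs => ?_⟩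
  obtain ⟨T, hT1, hTA, hTY, hTle⟩ := hA' Y hY
  obtain ⟨cols, hinj, hcols, hmain⟩ := exists_norm_poly hg hi hd hs r s hr
  refine ⟨cols, hinj, hcols, ?_⟩
  intro K P m S p α β u v hS hinjt
  have hbound : ∀ F : ℤ[X][X], F ≠ 0 → F.natDegree ≤ 4 * r →
      (∀ i, (F.coeff i).natDegree ≤ eB r s) →
      (∀ i j, |(F.coeff i).coeff j| ≤ ((4 * r + 1) * (eB r s + 1)).factorial *
            (T ^ (eB r s + 4 * r)) ^ ((4 * r + 1) * (eB r s + 1))) →
      ∀ G : ℤ[X][X], G ∣ F → Bez.IsCurve G → 1 ≤ G.natDegree → CurveB r s (Y ^ A') G := by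
    intro F hF hF1 hF2 hF3 G hG hGc hGd
    have hdegF : Bez.degT F ≤ eB r s := (Bez.degT_le_iff _ _).2 hF2
    refine ⟨hGc, hGd, (natDegree_le_of_dvd hG hF).trans hF1, fun i =>
      (Bez.natDegree_coeff_le G i).trans ((Bez.degT_le_of_dvd hG hF).trans hdegF), fun i j => ?_⟩
    refine (Bez.coeff_le_of_dvd G F hG hF (4 * r) (eB r s) hF1 hdegF _ (fun i j => ?_) i j).trans
      hTle
    exact_mod_cast hF3 i j
  have hnY : ∀ n ∈ S, |n| ≤ T := fun n hn => hTY n (hS n hn).sol.upper.le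
  constructor
  · intro S' hS' hdet
    obtain ⟨k, hk0, hk⟩ := exists_rel_of_dets
      (fun n c => fb s (cols c) (u n) (v n) (α n)) S' hdet
    obtain ⟨F, hF, hF1, hF2, hF3, hF4⟩ := hmain k hk0 K Y P m (S' : Set ℤ) p α β u v
      (fun n hn => (hS n (hS' hn)).sol) (fun n hn => (hS n (hS' hn)).on)
      (fun n hn => (hS n (hS' hn)).v_ne) hT1 (fun n hn => hTA _ (hS n (hS' hn)).u_le)
      (fun n hn => hTA _ (hS n (hS' hn)).v_le) (fun n hn => hnY n (hS' hn))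
    obtain ⟨Γ, hΓ1, hΓ2, hΓ3⟩ := curves_b hF hF1 hF2 S' u v
      (fun n hn => (hS n (hS' hn)).v_ne)
      (fun n hn n' hn' => hinjt n (hS' hn) n' (hS' hn'))
      (fun n hn => hF4 n (Finset.mem_coe.2 hn) (hk n hn))
    exact ⟨Γ, hΓ1, fun G hG => hbound F hF hF1 hF2 hF3 G (hΓ2 G hG).2.1 (hΓ2 G hG).1
      (hΓ2 G hG).2.2, hΓ3⟩
  · intro γ hγ hγne D hD k hk
    by_contra hk0
    obtain ⟨F, hF, hF1, hF2, hF3, hF4⟩ := hmain k hk0 K Y P m (S : Set ℤ) p α β u v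
      (fun n hn => (hS n hn).sol) (fun n hn => (hS n hn).on)
      (fun n hn => (hS n hn).v_ne) hT1 (fun n hn => hTA _ (hS n hn).u_le)
      (fun n hn => hTA _ (hS n hn).v_le) (fun n hn => hnY n hn)
    have hdegF : Bez.degT F ≤ eB r s := (Bez.degT_le_iff _ _).2 hF2
    have hdvd : ∀ i ∈ Finset.range (4 * r + 1), γ i ∣ F := by
      intro i hi'
      have hi'' := Finset.mem_range.1 hi'
      obtain ⟨hD1, hD2, hD3⟩ := hD i hi''
      have hγi := hγ i hi''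
      refine Bez.dvd_of_many (Int.castRingHom ℚ) Int.cast_injective (γ i) F hγi.curve.1
        (4 * r) (eB r s) hγi.deg ((Bez.degT_le_iff _ _).2 hγi.degt) hF1 hdegF
        ((D i).image fun n => (u n : ℚ) / (v n : ℚ)) ?_ ?_
      · intro t ht
        obtain ⟨n, hn, rfl⟩ := Finset.mem_image.1 ht
        exact ⟨(n : ℚ), (hev_ne_of_ev hγi.degt (hS n (hD1 hn)).v_ne).1 (hD2 n hn),
          hF4 n (Finset.mem_coe.2 (hD1 hn)) (hk i hi'' n hn)⟩
      · rw [Finset.card_image_of_injOn]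
        · omega
        · intro n hn n' hn' hnn
          have hn1 := hD1 hn
          have hn2 := hD1 hn'
          refine hinjt n hn1 n' hn2 ?_
          have hv1 : ((v n : ℤ) : ℚ) ≠ 0 := by exact_mod_cast (hS n hn1).v_ne
          have hv2 : ((v n' : ℤ) : ℚ) ≠ 0 := by exact_mod_cast (hS n' hn2).v_ne
          have h3 : (u n : ℚ) / (v n : ℚ) = (u n' : ℚ) / (v n' : ℚ) := hnn
          rw [div_eq_div_iff hv1 hv2] at h3
          exact_mod_cast h3
    have h1 := Bez.sum_natDegree_le (Finset.range (4 * r + 1)) γ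
      (fun i hi' => (hγ i (Finset.mem_range.1 hi')).curve.1)
      (fun i hi' j hj hij hass => hγne i (Finset.mem_range.1 hi') j (Finset.mem_range.1 hj) hij
        ((hγ i (Finset.mem_range.1 hi')).curve.eq_of_associated
          (hγ j (Finset.mem_range.1 hj)).curve hass)) F hF hdvd
    have h2 : (Finset.range (4 * r + 1)).card ≤ ∑ i ∈ Finset.range (4 * r + 1), (γ i).natDegree := by
      rw [Finset.card_eq_sum_ones]
      exact Finset.sum_le_sum fun i hi' => (hγ i (Finset.mem_range.1 hi')).pos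
    rw [Finset.card_range] at h2
    omega

end Pool.Agent.Lib.SQF
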