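import Pool.Agent.Lib.SQF.Cluster

set_option autoImplicit false

open Finset

namespace Pool.Agent.Lib.SQF

/-- the real form of `he_cauchy`: no rounding -/
theorem he_real (J N : ℕ) (hJ : 0 < J) (n : ℕ → ℕ) (hn : ∑ i ∈ Finset.range J, n i = N) :
    ((N : ℝ) ^ 2 / J - N) / 2 ≤ ((∑ i ∈ Finset.range J, n i * (n i - 1) / 2 : ℕ) : ℝ) := by
  have h1 : ∀ i, 2 * (n i * (n i - 1) / 2) + n i = n i ^ 2 := by
    intro i
    have h2 := Nat.even_mul_pred_self (n i)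
    rw [Nat.mul_div_cancel' h2.two_dvd]
    rcases Nat.eq_zero_or_pos (n i) with h3 | h3
    · rw [h3]; rfl
    · obtain ⟨k, hk⟩ := Nat.exists_eq_succ_of_ne_zero h3.ne'
      rw [hk]; simp; ring
  have h3 : 2 * (∑ i ∈ Finset.range J, n i * (n i - 1) / 2) + N
      = ∑ i ∈ Finset.range J, n i ^ 2 := by
    rw [← hn, Finset.mul_sum, ← Finset.sum_add_distrib]
    exact Finset.sum_congr rfl fun i _ => h1 i
  have h4 : N ^ 2 ≤ J * ∑ i ∈ Finset.range J, n i ^ 2 := by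
    have := sq_sum_le_card_mul_sum_sq (s := Finset.range J) (f := n)
    rwa [hn, Finset.card_range] at this
  rw [← h3] at h4
  have h5 : (N : ℝ) ^ 2 ≤ J * (2 * ((∑ i ∈ Finset.range J, n i * (n i - 1) / 2 : ℕ) : ℝ) + N) := by
    exact_mod_cast h4
  have hJ' : (0 : ℝ) < J := by exact_mod_cast hJ
  have h6 : (N : ℝ) ^ 2 / J ≤ 2 * ((∑ i ∈ Finset.range J, n i * (n i - 1) / 2 : ℕ) : ℝ) + N := by
    rw [div_le_iff₀ hJ']
    linarith
  linarith

/-- `he_cauchy` with the ceiling: the form in which the certificates are stated -/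
theorem he_ceil (J N : ℕ) (hJ : 0 < J) (n : ℕ → ℕ) (hn : ∑ i ∈ Finset.range J, n i = N) :
    ⌈((N : ℝ) ^ 2 / J - N) / 2⌉₊ ≤ ∑ i ∈ Finset.range J, n i * (n i - 1) / 2 :=
  Nat.ceil_le.2 (he_real J N hJ n hn)

end Pool.Agent.Lib.SQF
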