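import Mathlib

/-!
# SQF: the number of ideals dividing a rational integer

Helper file for MP_8842b2_nt (helper80).  `card_ideals_dvd_le`: in the ring of integers of a number
field of degree `m`, at most `τ(N)^m` ideals divide the principal ideal of a natural number `N ≠ 0`.
-/

namespace Pool.Agent.Lib.SQF

open NumberField UniqueFactorizationMonoid

section DCard

variable {α : Type*} [CommMonoidWithZero α] [UniqueFactorizationMonoid α] [Unique αˣ]

/-- The number of divisors of `J`. -/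
noncomputable def dcard (J : α) : ℕ := Set.ncard {I : α | I ∣ J}

theorem dvd_finite {J : α} (hJ : J ≠ 0) : {I : α | I ∣ J}.Finite := by
  have hfin : Finite {x // x ∣ J} := Fintype.finite (UniqueFactorizationMonoid.fintypeSubtypeDvd J hJ)
  exact Set.finite_coe_iff.1 hfin

theorem dcard_mul_le {J₁ J₂ : α} (h₁ : J₁ ≠ 0) (h₂ : J₂ ≠ 0) :
    dcard (J₁ * J₂) ≤ dcard J₁ * dcard J₂ := by
  classical
  unfold dcard
  have hsub : {I : α | I ∣ J₁ * J₂} ⊆
      (fun q : α × α => q.1 * q.2) '' ({I : α | I ∣ J₁} ×ˢ {I : α | I ∣ J₂}) := by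
    intro I hI
    obtain ⟨a, b, ha, hb, hab⟩ := exists_dvd_and_dvd_of_dvd_mul (show I ∣ J₁ * J₂ from hI)
    exact ⟨(a, b), ⟨ha, hb⟩, hab.symm⟩
  have hfin : ({I : α | I ∣ J₁} ×ˢ {I : α | I ∣ J₂}).Finite :=
    (dvd_finite h₁).prod (dvd_finite h₂)
  calc Set.ncard {I : α | I ∣ J₁ * J₂}
      ≤ Set.ncard ((fun q : α × α => q.1 * q.2) '' ({I : α | I ∣ J₁} ×ˢ {I : α | I ∣ J₂})) :=
        Set.ncard_le_ncard hsub (hfin.image _)
    _ ≤ Set.ncard ({I : α | I ∣ J₁} ×ˢ {I : α | I ∣ J₂}) := Set.ncard_image_le hfin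
    _ = _ := Set.ncard_prod

theorem dcard_prime_pow {Q : α} (hQ : Prime Q) (a : ℕ) : dcard (Q ^ a) ≤ a + 1 := by
  classical
  unfold dcard
  have hsub : {I : α | I ∣ Q ^ a} ⊆ ((Finset.range (a + 1)).image (fun i => Q ^ i) : Finset α) := by
    intro I hI
    obtain ⟨i, hi, h⟩ := (dvd_prime_pow hQ a).1 hI
    have : I = Q ^ i := associated_iff_eq.1 h
    simp only [Finset.coe_image, Finset.coe_range, Set.mem_image, Set.mem_Iio]
    exact ⟨i, by omega, this.symm⟩
  calc Set.ncard {I : α | I ∣ Q ^ a}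
      ≤ Set.ncard (((Finset.range (a + 1)).image (fun i => Q ^ i) : Finset α) : Set α) :=
        Set.ncard_le_ncard hsub (Finset.finite_toSet _)
    _ = ((Finset.range (a + 1)).image (fun i => Q ^ i)).card := Set.ncard_coe_finset _
    _ ≤ (Finset.range (a + 1)).card := Finset.card_image_le
    _ = a + 1 := Finset.card_range _

omit [UniqueFactorizationMonoid α] in
theorem dcard_one : dcard (1 : α) ≤ 1 := by
  unfold dcard
  have hsub : {I : α | I ∣ 1} ⊆ {1} := by
    intro I hI
    have : Associated I 1 := associated_one_iff_isUnit.2 (isUnit_of_dvd_one hI)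
    exact associated_iff_eq.1 this
  calc Set.ncard {I : α | I ∣ 1} ≤ Set.ncard ({1} : Set α) :=
        Set.ncard_le_ncard hsub (Set.finite_singleton _)
    _ = 1 := Set.ncard_singleton _

theorem dcard_multiset_pow (s : Multiset α) (hs : ∀ q ∈ s, Prime q) (a : ℕ) :
    dcard (s.prod ^ a) ≤ (a + 1) ^ (Multiset.card s) := by
  induction s using Multiset.induction_on with
  | empty => simpa using dcard_one
  | cons q s ih =>
    have hq : Prime q := hs q (Multiset.mem_cons_self q s)
    have hs' : ∀ x ∈ s, Prime x := fun x hx => hs x (Multiset.mem_cons_of_mem hx)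
    have hne : s.prod ≠ 0 := by
      intro h0
      have : Nontrivial α := ⟨⟨q, 0, hq.ne_zero⟩⟩
      rw [Multiset.prod_eq_zero_iff] at h0
      exact (hs' 0 h0).ne_zero rfl
    rw [Multiset.prod_cons, mul_pow, Multiset.card_cons, pow_succ']
    exact (dcard_mul_le (pow_ne_zero a hq.ne_zero) (pow_ne_zero a hne)).trans
      (Nat.mul_le_mul (dcard_prime_pow hq a) (ih hs'))

theorem dcard_prod_le {ι : Type*} (s : Finset ι) (J : ι → α) (hJ : ∀ i ∈ s, J i ≠ 0) :
    dcard (∏ i ∈ s, J i) ≤ ∏ i ∈ s, dcard (J i) := by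
  classical
  induction s using Finset.induction_on with
  | empty => simpa using dcard_one
  | insert i s his ih =>
    rw [Finset.prod_insert his, Finset.prod_insert his]
    have h1 : J i ≠ 0 := hJ i (Finset.mem_insert_self i s)
    have h2 : ∀ j ∈ s, J j ≠ 0 := fun j hj => hJ j (Finset.mem_insert_of_mem hj)
    have h3 : ∏ j ∈ s, J j ≠ 0 := by
      have : Nontrivial α := ⟨⟨J i, 0, h1⟩⟩
      exact Finset.prod_ne_zero_iff.2 h2
    exact (dcard_mul_le h1 h3).trans (Nat.mul_le_mul le_rfl (ih h2))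

end DCard

variable (K : Type*) [Field K] [NumberField K]

/-- A prime number has at most `[K : ℚ]` prime ideal factors, with multiplicity. -/
theorem card_factors_natPrime_le {p : ℕ} (hp : p.Prime) :
    Multiset.card (factors (Ideal.span {((p : ℕ) : 𝓞 K)})) ≤ Module.finrank ℚ K := by
  classical
  set m := Module.finrank ℚ K with hm
  set P : Ideal (𝓞 K) := Ideal.span {((p : ℕ) : 𝓞 K)} with hP
  have hP0 : P ≠ 0 := by
    rw [hP, Ne, Ideal.zero_eq_bot, Ideal.span_singleton_eq_bot]
    exact_mod_cast hp.ne_zero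
  have hprod : (factors P).prod = P := associated_iff_eq.1 (factors_prod hP0)
  have hnorm : Ideal.absNorm P = p ^ m := by
    rw [hP, Ideal.absNorm_span_natCast, RingOfIntegers.rank]
  have hge : ∀ Q ∈ factors P, p ≤ Ideal.absNorm Q := by
    intro Q hQ
    have hQp : Prime Q := prime_of_factor Q hQ
    have hdvd : Q ∣ P := dvd_of_mem_factors hQ
    have h1 : Ideal.absNorm Q ∣ p ^ m := hnorm ▸ map_dvd Ideal.absNorm hdvd
    have h2 : Ideal.absNorm Q ≠ 1 := by
      rw [Ne, Ideal.absNorm_eq_one_iff]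
      intro h
      exact hQp.not_isUnit (Ideal.isUnit_iff.2 h)
    obtain ⟨i, hi, hpi⟩ := (Nat.dvd_prime_pow hp).1 h1
    have hi0 : i ≠ 0 := by
      rintro rfl
      exact h2 (by simpa using hpi)
    rw [hpi]
    exact Nat.le_self_pow hi0 p
  have hcard : p ^ (Multiset.card (factors P)) ≤ p ^ m := by
    rw [← hnorm, ← hprod]
    rw [map_multiset_prod]
    have := Multiset.pow_card_le_prod (s := (factors P).map Ideal.absNorm) (a := p) (by
      intro x hx
      obtain ⟨Q, hQ, rfl⟩ := Multiset.mem_map.1 hx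
      exact hge Q hQ)
    rw [hprod]
    simpa using this
  exact (Nat.pow_le_pow_iff_right hp.one_lt).1 hcard

/-- At most `τ(N)^[K:ℚ]` ideals divide `N ≠ 0`. -/
theorem dcard_span_natCast_le {N : ℕ} (hN : N ≠ 0) :
    dcard (Ideal.span {((N : ℕ) : 𝓞 K)}) ≤ N.divisors.card ^ (Module.finrank ℚ K) := by
  classical
  have hfac : Ideal.span {((N : ℕ) : 𝓞 K)} =
      ∏ p ∈ N.primeFactors, (Ideal.span {((p : ℕ) : 𝓞 K)}) ^ (N.factorization p) := by
    conv_lhs => rw [← Nat.prod_factorization_pow_eq_self hN]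
    rw [Finsupp.prod, Nat.support_factorization, Nat.cast_prod]
    rw [← Ideal.prod_span_singleton]
    refine Finset.prod_congr rfl ?_
    intro p _
    rw [Nat.cast_pow, Ideal.span_singleton_pow]
  have hne : ∀ p ∈ N.primeFactors, (Ideal.span {((p : ℕ) : 𝓞 K)}) ≠ 0 := by
    intro p hp
    rw [Ne, Ideal.zero_eq_bot, Ideal.span_singleton_eq_bot]
    exact_mod_cast (Nat.prime_of_mem_primeFactors hp).ne_zero
  rw [hfac, Nat.card_divisors hN, ← Finset.prod_pow]
  refine (dcard_prod_le _ _ (fun p hp => pow_ne_zero _ (hne p hp))).trans ?_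
  refine Finset.prod_le_prod' ?_
  intro p hp
  have hpp : p.Prime := Nat.prime_of_mem_primeFactors hp
  have hprod : (factors (Ideal.span {((p : ℕ) : 𝓞 K)})).prod = Ideal.span {((p : ℕ) : 𝓞 K)} :=
    associated_iff_eq.1 (factors_prod (hne p hp))
  calc dcard (Ideal.span {((p : ℕ) : 𝓞 K)} ^ (N.factorization p))
      = dcard ((factors (Ideal.span {((p : ℕ) : 𝓞 K)})).prod ^ (N.factorization p)) := by rw [hprod]
    _ ≤ (N.factorization p + 1) ^ (Multiset.card (factors (Ideal.span {((p : ℕ) : 𝓞 K)}))) :=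
        dcard_multiset_pow _ (fun q hq => prime_of_factor q hq) _
    _ ≤ (N.factorization p + 1) ^ (Module.finrank ℚ K) :=
        Nat.pow_le_pow_right (Nat.succ_pos _) (card_factors_natPrime_le K hpp)

end Pool.Agent.Lib.SQF
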