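import Pool.Agent.Lib.SQF.KapB0
import Pool.Agent.Lib.SQF.KapRC

/-!
# SQF, module KapB: the one-curve theorem on beta-slices, final form
-/

set_option autoImplicit false

open Polynomial

namespace Pool.Agent.Lib.SQF

/-- the input of `kapB_of` -/
theorem kapRCStmt (g : ℤ[X]) (hg : g.Monic) (hirr : Irreducible g) (hd : g.natDegree = 4) :
    KapRCStmt g := fun I B K C ε hε => kap_rc g hg hirr hd I B K C ε hε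

/-- **One curve on a beta-slice.** -/
theorem kapB (g : ℤ[X]) (hg : g.Monic) (hirr : Irreducible g) (hd : g.natDegree = 4)
    (a e i b I : ℕ) (hI : I ≤ i) (hIb : 2 * I < b) (hR : 8 * I + 2 < 2 * i + 3 * b)
    (K A κ η ε : ℝ) (hκ : 0 < κ) (hη : 0 < η) (hε : 0 < ε) : ∃ K' : ℝ, ∀ Y d x : ℝ, 1 ≤ Y →
    0 ≤ d → d ≤ 1 → 0 ≤ x → x ≤ 2 →
    (2 * i + 3 * b - 2 : ℝ) * (i * x + b * ((1 + d) / 4)) -
        (x + 2 * ((1 + d) / 4)) * ∑ m ∈ Finset.Icc 1 I, ((2 * i + 3 * b - 2 : ℝ) - 8 * m) + η ≤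
      κ * ((2 * i + 3 * b - 2 : ℝ) * ((2 * i + 3 * b - 2 : ℝ) - 1) / 2) →
    ∀ (m : ℤ) (f1 f2 : Fin 4 → ℤ), (∀ j, |(f1 j : ℝ)| ≤ Y ^ A ∧ |(f2 j : ℝ)| ≤ Y ^ A) →
    (∃ j k, f1 j * f2 k ≠ f1 k * f2 j) →
    ∀ G : ℤ[X][X], Irreducible G → 0 < G.natDegree → G.natDegree ≤ a →
    (∀ j, (G.coeff j).natDegree ≤ e) → (∀ j k, |(((G.coeff j).coeff k : ℤ) : ℝ)| ≤ Y ^ A) →
    ∀ (S : Finset ℤ) (p : ℤ → ℕ) (α β : ℤ → Fin 4 → ℤ) (u v : ℤ → ℤ),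
    (∀ n ∈ S, IsSol 4 g K Y (Y ^ (1 + d)) n (p n) (α n) (β n) m ∧
      OnSlice f1 f2 (β n) (u n) (v n) ∧ |(u n : ℝ)| ≤ K * Y ^ x ∧ |(v n : ℝ)| ≤ K * Y ^ x ∧
      v n ≠ 0 ∧ hev e G (u n) (v n) n = 0) →
    (S.card : ℝ) ≤ K' * Y ^ (κ + ε) :=
  kapB_of g (kapRCStmt g hg hirr hd) hg hirr hd a e i b I hI hIb hR K A κ η ε hκ hη hε

end Pool.Agent.Lib.SQF
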