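import Pool.Agent.Lib.SQF.KapGam

/-!
# SQF, module KapCore: the determinant inequality on one curve of a beta-slice, with exponents
-/

set_option autoImplicit false

open Polynomial

namespace Pool.Agent.Lib.SQF

/-- the ranks used at the levels -/
def Rlev (N I l : ℕ) : ℕ := if l ≤ I then N - 8 * l else 0

theorem kap_det' {ι : Type*} (C : Finset ι) (M : ℕ) (W : ℕ → Set (ι → ℤ)) (B : ℕ → ℝ)
    (hWB : ∀ m ≤ M, ∀ f ∈ W m, ∀ z ∈ C, |((f z : ℤ) : ℝ)| ≤ B m)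
    (R : ℕ → ℕ) (hR : ∀ m ≤ M, R m ≤ Module.finrank ℚ (Submodule.span ℚ (resQ C '' W m)))
    (hRanti : ∀ m ≤ M, R (m + 1) ≤ R m) (hRM : R (M + 1) = 0)
    (c0 q : ℤ) (hc : IsCoprime c0 q) (E N : ℕ) (hN : R 0 = N)
    (hq : ∀ (F : Fin N → ι → ℤ) (lev : Fin N → ℕ) (P : Fin N → ι),
      (∀ j, lev j ≤ M ∧ F j ∈ W (lev j)) → (∀ i, P i ∈ C) →
      q ^ E ∣ (Matrix.of fun i j => c0 ^ (lev j) * F j (P i)).det) :
    (q : ℝ) ^ E ≤ N.factorial * ∏ m ∈ Finset.range (M + 1), B m ^ (R m - R (m + 1)) := by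
  subst hN
  exact kap_det C M W B hWB R hR hRanti hRM c0 q hc E hq

/-- **The determinant inequality on one curve.** -/
theorem kap_core (g : ℤ[X]) (hg : g.Monic) (hd : g.natDegree = 4) (i b I N : ℕ)
    (hN : N + 2 = 2 * i + 3 * b) (hI : I ≤ i) (hIb : 2 * I < b) (hR : 8 * I < N)
    (f1 f2 : Fin 4 → ℤ) (C : Finset ℤ) (p : ℤ → ℕ) (α β : ℤ → Fin 4 → ℤ) (u v : ℤ → ℤ)
    (K Y P : ℝ) (m : ℤ)
    (hsol : ∀ n ∈ C, IsSol 4 g K Y P n (p n) (α n) (β n) m ∧ OnSlice f1 f2 (β n) (u n) (v n))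
    (U H : ℝ) (hu : ∀ n ∈ C, |(u n : ℝ)| ≤ U) (hv : ∀ n ∈ C, |(v n : ℝ)| ≤ U)
    (hα : ∀ n ∈ C, ∀ k, |(α n k : ℝ)| ≤ H)
    (hrk : ∀ i' ≤ i, ∀ b', 1 ≤ b' → b' ≤ b → 2 * i' + 3 * b' ≤
      rk (FS (fun n => (u n : ℚ)) (fun n => (v n : ℚ)) (fun k n => (α n k : ℚ)) (i', b')) C + 2)
    (q : ℕ) (hq : q.Prime) (hqm : ¬ (q : ℤ) ∣ m) (E : ℕ)
    (hdiv : ∀ (κ : Fin N → ℕ × (Fin 4 → ℕ) → ℤ) (x : Fin N → ℤ), (∀ j, x j ∈ C) →
      (q : ℤ) ^ E ∣ (Matrix.of fun r c =>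
        ∑ p ∈ midx i b, κ c p * mon u v (fun k n => α n k) i p (x r)).det) :
    (q : ℝ) ^ E ≤ N.factorial * ∏ l ∈ Finset.range (I + 1),
      (U ^ (i - l) * H ^ (b - 2 * l)) ^ (Rlev N I l - Rlev N I (l + 1)) := by
  classical
  have hqp : Prime (q : ℤ) := Nat.prime_iff_prime_int.1 hq
  have hcop : IsCoprime (- m ^ 2) (q : ℤ) := by
    rw [IsCoprime.neg_left_iff]
    exact ((hqp.coprime_iff_not_dvd.2 hqm).symm).pow_left
  have h := kap_det' C I
    (fun l => mon u v (fun k n => α n k) (i - l) '' (midx (i - l) (b - 2 * l) : Set _))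
    (fun l => U ^ (i - l) * H ^ (b - 2 * l)) ?_ (Rlev N I) ?_ ?_ ?_ (- m ^ 2) (q : ℤ) hcop E N ?_ ?_
  · simpa using h
  · rintro l hl f ⟨x, hx, rfl⟩ n hn
    exact abs_mon_le u v (fun k n => α n k) (i - l) (b - 2 * l) x hx n U H (hu n hn) (hv n hn)
      (fun k => hα n hn k)
  · intro l hl
    refine le_trans ?_ (rk_FS_le u v (fun k n => α n k) (i - l) (b - 2 * l) C)
    have h1 := hrk (i - l) (by omega) (b - 2 * l) (by omega) (by omega)
    unfold Rlev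
    rw [if_pos hl]
    omega
  · intro l hl
    unfold Rlev
    split_ifs <;> omega
  · unfold Rlev
    rw [if_neg (by omega)]
  · unfold Rlev
    rw [if_pos (Nat.zero_le _)]
    omega
  · intro F lev x hF hx
    have h1 : ∀ c, ∃ κ : ℕ × (Fin 4 → ℕ) → ℤ, ∀ n ∈ C, (- m ^ 2) ^ (lev c) * F c n =
        ∑ p ∈ midx i b, κ p * mon u v (fun k n => α n k) i p n := by
      intro c
      obtain ⟨hlev, y, hy, hyF⟩ := hF c
      obtain ⟨κ, hκ⟩ := levels_mem g hg hd f1 f2 u v α i b (lev c) (by omega) (by omega) y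
        (by simpa using hy)
      refine ⟨κ, fun n hn => ?_⟩
      rw [← hκ n K Y P n (p n) (β n) m (hsol n hn).1 (hsol n hn).2, ← hyF]
    choose κ hκ using h1
    have h2 := hdiv κ x hx
    convert h2 using 3
    funext r c
    exact hκ c (x r) (hx r)

/-- Abel summation for the exponents -/
theorem abel_levels (r : ℕ → ℝ) (A0 B0 : ℝ) (I : ℕ) :
    ∑ l ∈ Finset.range (I + 1), (r l - r (l + 1)) * (A0 - l * B0) =
      r 0 * A0 - B0 * ∑ l ∈ Finset.Icc 1 I, r l - r (I + 1) * (A0 - I * B0) := by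
  induction I with
  | zero => simp; ring
  | succ I ih =>
    rw [Finset.sum_range_succ, ih, Finset.sum_Icc_succ_top (by omega : 1 ≤ I + 1)]
    push_cast
    ring

/-- the exponents of the determinant inequality -/
theorem prod_levels_le (i b I N : ℕ) (hI : I ≤ i) (hIb : 2 * I < b) (hR : 8 * I < N)
    (K1 Y x h : ℝ) (hK : 1 ≤ K1) (hY : 1 ≤ Y) :
    ∏ l ∈ Finset.range (I + 1),
      ((K1 * Y ^ x) ^ (i - l) * (K1 * Y ^ h) ^ (b - 2 * l)) ^ (Rlev N I l - Rlev N I (l + 1)) ≤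
      K1 ^ ((i + b) * N) * Y ^ ((N : ℝ) * (i * x + b * h) -
        (x + 2 * h) * ∑ l ∈ Finset.Icc 1 I, ((N : ℝ) - 8 * l)) := by
  have hY0 : 0 < Y := by linarith
  have hK0 : 0 < K1 := by linarith
  set A0 : ℝ := i * x + b * h with hA0
  set B0 : ℝ := x + 2 * h with hB0
  have hterm : ∀ l ∈ Finset.range (I + 1),
      ((K1 * Y ^ x) ^ (i - l) * (K1 * Y ^ h) ^ (b - 2 * l)) ^ (Rlev N I l - Rlev N I (l + 1)) ≤
      K1 ^ ((i + b) * (Rlev N I l - Rlev N I (l + 1))) *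
        Y ^ ((((Rlev N I l : ℕ) : ℝ) - ((Rlev N I (l + 1) : ℕ) : ℝ)) * (A0 - l * B0)) := by
    intro l hl
    rw [Finset.mem_range] at hl
    have hant : Rlev N I (l + 1) ≤ Rlev N I l := by
      unfold Rlev
      split_ifs <;> omega
    have e1 : (K1 * Y ^ x) ^ (i - l) * (K1 * Y ^ h) ^ (b - 2 * l) =
        K1 ^ ((i - l) + (b - 2 * l)) * Y ^ (A0 - l * B0) := by
      rw [mul_pow, mul_pow, pow_add, ← Real.rpow_natCast (Y ^ x), ← Real.rpow_natCast (Y ^ h),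
        ← Real.rpow_mul hY0.le, ← Real.rpow_mul hY0.le]
      have e2 : A0 - l * B0 = x * ((i - l : ℕ) : ℝ) + h * ((b - 2 * l : ℕ) : ℝ) := by
        rw [Nat.cast_sub (by omega), Nat.cast_sub (by omega), hA0, hB0]
        push_cast
        ring
      rw [e2, Real.rpow_add hY0]
      ring
    rw [e1, mul_pow, ← Real.rpow_natCast (Y ^ _), ← Real.rpow_mul hY0.le, ← pow_mul,
      Nat.cast_sub hant]
    refine mul_le_mul ?_ (le_of_eq ?_) (by positivity) (by positivity)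
    · refine pow_le_pow_right₀ hK (Nat.mul_le_mul_right _ (by omega))
    · rw [mul_comm (A0 - l * B0)]
  refine (Finset.prod_le_prod (fun l _ => by positivity) hterm).trans (le_of_eq ?_)
  rw [Finset.prod_mul_distrib, Finset.prod_pow_eq_pow_sum, ← Finset.mul_sum,
    ← Real.rpow_sum_of_pos hY0]
  have h1 : ∑ l ∈ Finset.range (I + 1), (Rlev N I l - Rlev N I (l + 1)) = N := by
    have h2 : ∀ k ≤ I + 1, ∑ l ∈ Finset.range k, (Rlev N I l - Rlev N I (l + 1)) =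
        Rlev N I 0 - Rlev N I k := by
      intro k
      induction k with
      | zero => intro _; simp
      | succ k ih =>
        intro hk
        rw [Finset.sum_range_succ, ih (by omega)]
        unfold Rlev
        split_ifs <;> omega
    rw [h2 _ le_rfl]
    unfold Rlev
    rw [if_pos (Nat.zero_le _), if_neg (by omega)]
    omega
  have h3 := abel_levels (fun l => ((Rlev N I l : ℕ) : ℝ)) A0 B0 I
  have h4 : ((Rlev N I (I + 1) : ℕ) : ℝ) = 0 := by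
    unfold Rlev
    rw [if_neg (by omega)]
    simp
  have h5 : ((Rlev N I 0 : ℕ) : ℝ) = N := by
    unfold Rlev
    rw [if_pos (Nat.zero_le _)]
    simp
  have h6 : ∑ l ∈ Finset.Icc 1 I, ((Rlev N I l : ℕ) : ℝ) =
      ∑ l ∈ Finset.Icc 1 I, ((N : ℝ) - 8 * l) := by
    refine Finset.sum_congr rfl fun l hl => ?_
    rw [Finset.mem_Icc] at hl
    unfold Rlev
    rw [if_pos hl.2, Nat.cast_sub (by omega)]
    push_cast
    ring
  simp only [h4, h5, h6, zero_mul, sub_zero] at h3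
  rw [h1, h3]

end Pool.Agent.Lib.SQF
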