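import Mathlib

/-!
# SQF, module KapDet: nested columns and the determinant inequality for one curve

`C` is a finite set of points (a cluster), `fam m` (`m ≤ M`) finite families of integral functions
(level `m`), `c0 • fam (m + 1) ⊆ span ℤ (fam m)`, the rank of level `m` on `C` is at least `R m`,
and every determinant of `R 0` functions from `span ℤ (fam 0)` at points of `C` is divisible by
`q ^ E`.  Then `q ^ E ≤ (R 0)! * ∏ B m ^ (R m - R (m + 1))`.
-/

set_option autoImplicit false

open Module

namespace Pool.Agent.Lib.SQF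

/-- the restriction of a function to `C`, with rational values -/
def resQ {ι : Type*} (C : Finset ι) (f : ι → ℤ) : C → ℚ := fun z => (f z : ℚ)

/-- extension of an independent family by elements of a set of large rank -/
theorem ext_indep {V : Type*} [AddCommGroup V] [Module ℚ V] [FiniteDimensional ℚ V]
    {J : Type} [Fintype J] (F : J → V) (hF : LinearIndependent ℚ F) (G : Set V) (d : ℕ)
    (hr : Fintype.card J + d ≤ finrank ℚ (Submodule.span ℚ G)) :
    ∃ H : Fin d → V, (∀ i, H i ∈ G) ∧ LinearIndependent ℚ (Sum.elim F H) := by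
  induction d with
  | zero =>
    refine ⟨fun i => i.elim0, fun i => i.elim0, ?_⟩
    refine (linearIndependent_sum).2 ⟨by simpa using hF, ?_, ?_⟩
    · exact linearIndependent_empty_type
    · rw [show (Set.range (Sum.elim F (fun i : Fin 0 => (i.elim0 : V)) ∘ Sum.inr)) = ∅ from ?_]
      · simp
      · exact Set.range_eq_empty _
  | succ d ih =>
    obtain ⟨H, hHG, hH⟩ := ih (by omega)
    -- a new element
    have hex : ∃ g ∈ G, g ∉ Submodule.span ℚ (Set.range (Sum.elim F H)) := by
      by_contra hcon
      push Not at hcon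
      have h1 : Submodule.span ℚ G ≤ Submodule.span ℚ (Set.range (Sum.elim F H)) :=
        Submodule.span_le.2 hcon
      have h2 := Submodule.finrank_mono h1
      have h3 : finrank ℚ (Submodule.span ℚ (Set.range (Sum.elim F H))) =
          Fintype.card (J ⊕ Fin d) := finrank_span_eq_card hH
      rw [h3, Fintype.card_sum, Fintype.card_fin] at h2
      omega
    obtain ⟨g, hgG, hg⟩ := hex
    refine ⟨Fin.snoc H g, ?_, ?_⟩
    · intro i
      refine Fin.lastCases ?_ (fun j => ?_) i
      · simpa using hgG
      · simpa using hHG j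
    · -- compare with `Option (J ⊕ Fin d)`
      have h1 : LinearIndependent ℚ (fun o : Option (J ⊕ Fin d) => o.elim g (Sum.elim F H)) := by
        rw [linearIndependent_option]
        exact ⟨hH, by simpa [Function.comp_def] using hg⟩
      let e : J ⊕ Fin (d + 1) → Option (J ⊕ Fin d) :=
        Sum.elim (fun j => some (Sum.inl j))
          (Fin.lastCases (motive := fun _ => Option (J ⊕ Fin d)) none (fun j => some (Sum.inr j)))
      have he : Function.Injective e := by
        rintro (a | a) (b | b) hab
        · simpa [e] using hab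
        · exfalso
          revert hab
          refine Fin.lastCases ?_ (fun j => ?_) b <;> simp [e]
        · exfalso
          revert hab
          refine Fin.lastCases ?_ (fun j => ?_) a <;> simp [e]
        · revert hab
          refine Fin.lastCases ?_ (fun j => ?_) a
          · refine Fin.lastCases ?_ (fun j' => ?_) b
            · simp
            · simp [e]
          · refine Fin.lastCases ?_ (fun j' => ?_) b
            · simp [e]
            · intro hab
              simp only [e, Sum.elim_inr, Fin.lastCases_castSucc, Option.some.injEq,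
                Sum.inr.injEq] at hab
              rw [hab]
      have h2 := h1.comp e he
      convert h2 using 1
      funext x
      rcases x with a | a
      · simp [e]
      · refine Fin.lastCases ?_ (fun j => ?_) a
        · simp [e]
        · simp [e]

/-- independent functions on a finite set have a nonvanishing determinant -/
theorem exists_pts {ι : Type*} (C : Finset ι) {J : Type} [Fintype J] [DecidableEq J]
    (F : J → ι → ℤ) (hF : LinearIndependent ℚ (fun j => resQ C (F j))) :
    ∃ P : J → ι, (∀ j, P j ∈ C) ∧ (Matrix.of fun i j => F j (P i)).det ≠ 0 := by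
  classical
  -- the evaluation vectors span
  let ev : C → (J → ℚ) := fun z j => (F j z : ℚ)
  have hspan : Submodule.span ℚ (Set.range ev) = ⊤ := by
    by_contra hne
    have hlt : Submodule.span ℚ (Set.range ev) < ⊤ := lt_top_iff_ne_top.2 hne
    obtain ⟨φ, hφ0, hφ⟩ := Submodule.exists_le_ker_of_lt_top _ hlt
    -- φ is a linear combination of coordinates
    have h1 : ∀ z : C, ∑ j, φ (Pi.single j 1) * (F j z : ℚ) = 0 := by
      intro z
      have h2 : φ (ev z) = 0 := by
        have : ev z ∈ LinearMap.ker φ := hφ (Submodule.subset_span ⟨z, rfl⟩)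
        simpa using this
      have h3 : ev z = ∑ j, (F j z : ℚ) • (Pi.single j (1 : ℚ) : J → ℚ) := by
        funext k
        simp [ev, Finset.sum_apply, Pi.single_apply]
      rw [h3, map_sum] at h2
      simp only [map_smul, smul_eq_mul] at h2
      rw [← h2]
      exact Finset.sum_congr rfl fun j _ => mul_comm _ _
    have h4 := Fintype.linearIndependent_iff.1 hF (fun j => φ (Pi.single j 1)) (by
      funext z
      simpa [resQ, Finset.sum_apply] using h1 z)
    apply hφ0
    refine LinearMap.pi_ext' fun j => ?_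
    ext
    simpa using h4 j
  obtain ⟨H, hHG, hH⟩ := ext_indep (J := Empty) (V := J → ℚ) (fun e => e.elim)
    linearIndependent_empty_type (Set.range ev) (Fintype.card J) (by
      rw [hspan, finrank_top, Module.finrank_fintype_fun_eq_card]; simp)
  have hH' : LinearIndependent ℚ H := by
    have := hH.comp Sum.inr Sum.inr_injective
    simpa [Function.comp_def] using this
  choose z hz using hHG
  let e : J ≃ Fin (Fintype.card J) := Fintype.equivFin J
  refine ⟨fun j => (z (e j) : ι), fun j => (z (e j)).2, ?_⟩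
  have h5 : LinearIndependent ℚ (fun j => H (e j)) := hH'.comp e e.injective
  have h6 : LinearIndependent ℚ (fun i => (Matrix.of fun i j => ((F j (z (e i)) : ℤ) : ℚ)) i) := by
    convert h5 using 1
    funext i j
    simp only [Matrix.of_apply]
    exact congrFun (hz (e i)) j
  have h7 : IsUnit (Matrix.of fun i j => ((F j (z (e i)) : ℤ) : ℚ)) :=
    Matrix.linearIndependent_rows_iff_isUnit.1 h6
  have h8 := (Matrix.isUnit_iff_isUnit_det _).1 h7
  intro h9
  apply h8.ne_zero
  have h10 : (Matrix.of fun i j => ((F j (z (e i)) : ℤ) : ℚ)) =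
      (Int.castRingHom ℚ).mapMatrix (Matrix.of fun i j => F j (z (e i))) := by
    ext i j; simp
  rw [h10, ← RingHom.map_det, h9, map_zero]

/-- trivial bound for a determinant -/
theorem abs_det_le_cols {J : Type} [Fintype J] [DecidableEq J] (A : Matrix J J ℤ) (b : J → ℝ)
    (hA : ∀ i j, |((A i j : ℤ) : ℝ)| ≤ b j) :
    |((A.det : ℤ) : ℝ)| ≤ (Fintype.card J).factorial * ∏ j, b j := by
  rw [Matrix.det_apply]
  push_cast
  refine (Finset.abs_sum_le_sum_abs _ _).trans ?_
  have h1 : ∀ σ ∈ (Finset.univ : Finset (Equiv.Perm J)),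
      |(((Equiv.Perm.sign σ • ∏ i, A (σ i) i : ℤ)) : ℝ)| ≤ ∏ j, b j := by
    intro σ _
    have h2 : |(((Equiv.Perm.sign σ • ∏ i, A (σ i) i : ℤ)) : ℝ)| =
        ∏ i, |((A (σ i) i : ℤ) : ℝ)| := by
      rw [Units.smul_def, smul_eq_mul]
      push_cast
      rw [abs_mul, Finset.abs_prod]
      have h3 : |(((Equiv.Perm.sign σ : ℤˣ) : ℤ) : ℝ)| = 1 := by
        rcases Int.units_eq_one_or (Equiv.Perm.sign σ) with h | h <;> rw [h] <;> simp
      rw [h3, one_mul]
    rw [h2]
    exact Finset.prod_le_prod (fun _ _ => abs_nonneg _) fun i _ => hA _ _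
  refine (Finset.sum_le_sum (f := fun σ => |(((Equiv.Perm.sign σ • ∏ i, A (σ i) i : ℤ)) : ℝ)|)
    (g := fun _ => ∏ j, b j) h1 |> le_trans (le_of_eq ?_)).trans ?_
  · exact Finset.sum_congr rfl fun σ _ => rfl
  · rw [Finset.sum_const, Finset.card_univ, Fintype.card_perm, nsmul_eq_mul]

/-- nested choice of the columns: `R M` functions of level `M`, then `R (M - 1) - R M` functions
of level `M - 1`, and so on -/
theorem kap_exists_cols {ι : Type*} (C : Finset ι) (M : ℕ) (W : ℕ → Set (ι → ℤ)) (B : ℕ → ℝ)
    (R : ℕ → ℕ) (hR : ∀ m ≤ M, R m ≤ finrank ℚ (Submodule.span ℚ (resQ C '' W m)))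
    (hRanti : ∀ m ≤ M, R (m + 1) ≤ R m) (hRM : R (M + 1) = 0) (k : ℕ) (hk : k ≤ M + 1) :
    ∃ (J : Type) (_ : Fintype J) (F : J → ι → ℤ) (lev : J → ℕ),
      (∀ j, lev j ≤ M ∧ F j ∈ W (lev j)) ∧ LinearIndependent ℚ (fun j => resQ C (F j)) ∧
      Fintype.card J = R (M + 1 - k) ∧
      ∏ j, B (lev j) = ∏ m ∈ Finset.Ico (M + 1 - k) (M + 1), B m ^ (R m - R (m + 1)) := by
  induction k with
  | zero =>
    refine ⟨Empty, inferInstance, fun e => e.elim, fun e => e.elim, fun e => e.elim,
      linearIndependent_empty_type, ?_, ?_⟩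
    · simp [hRM]
    · simp
  | succ k ih =>
    obtain ⟨J, iJ, F, lev, h1, h2, h3, h4⟩ := ih (by omega)
    have hm : M + 1 - k = (M + 1 - (k + 1)) + 1 := by omega
    set m := M + 1 - (k + 1) with hmdef
    have hmM : m ≤ M := by omega
    have hRm := hRanti m hmM
    rw [hm] at h3 h4
    obtain ⟨H, hH1, hH2⟩ := ext_indep (fun j => resQ C (F j)) h2 (resQ C '' W m) (R m - R (m + 1))
      (by rw [h3]; have := hR m hmM; omega)
    choose f hfW hfH using hH1
    refine ⟨J ⊕ Fin (R m - R (m + 1)), inferInstance, Sum.elim F f,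
      Sum.elim lev (fun _ => m), ?_, ?_, ?_, ?_⟩
    · rintro (j | j)
      · exact h1 j
      · exact ⟨hmM, hfW j⟩
    · have h5 : (fun j => resQ C (Sum.elim F f j)) = Sum.elim (fun j => resQ C (F j)) H := by
        funext j
        rcases j with j | j
        · rfl
        · exact hfH j
      rw [h5]
      exact hH2
    · rw [Fintype.card_sum, Fintype.card_fin, h3]
      omega
    · rw [Fintype.prod_sum_type]
      simp only [Sum.elim_inl, Sum.elim_inr, Finset.prod_const, Finset.card_univ,
        Fintype.card_fin]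
      rw [h4, Finset.prod_eq_prod_Ico_succ_bot (by omega : m < M + 1), mul_comm]

/-- **The determinant inequality.**  `W m` are the functions of level `m`, `B m` bounds them on `C`,
`R m` is a lower bound for their rank on `C`; `c0 ^ m` times a function of level `m` is a function
of level `0`, for which the divisibility is known. -/
theorem kap_det {ι : Type*} (C : Finset ι) (M : ℕ) (W : ℕ → Set (ι → ℤ)) (B : ℕ → ℝ)
    (hWB : ∀ m ≤ M, ∀ f ∈ W m, ∀ z ∈ C, |((f z : ℤ) : ℝ)| ≤ B m)
    (R : ℕ → ℕ) (hR : ∀ m ≤ M, R m ≤ finrank ℚ (Submodule.span ℚ (resQ C '' W m)))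
    (hRanti : ∀ m ≤ M, R (m + 1) ≤ R m) (hRM : R (M + 1) = 0)
    (c0 q : ℤ) (hc : IsCoprime c0 q) (E : ℕ)
    (hq : ∀ (F : Fin (R 0) → ι → ℤ) (lev : Fin (R 0) → ℕ) (P : Fin (R 0) → ι),
      (∀ j, lev j ≤ M ∧ F j ∈ W (lev j)) → (∀ i, P i ∈ C) →
      q ^ E ∣ (Matrix.of fun i j => c0 ^ (lev j) * F j (P i)).det) :
    (q : ℝ) ^ E ≤ (R 0).factorial * ∏ m ∈ Finset.range (M + 1), B m ^ (R m - R (m + 1)) := by
  classical
  obtain ⟨J, iJ, F, lev, h1, h2, h3, h4⟩ := kap_exists_cols C M W B R hR hRanti hRM (M + 1) le_rfl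
  rw [Nat.sub_self] at h3 h4
  obtain ⟨P, hP, hdet⟩ := exists_pts C F h2
  let e : Fin (R 0) ≃ J := (Fintype.equivFinOfCardEq h3).symm
  have hdiv := hq (fun j => F (e j)) (fun j => lev (e j)) (fun j => P (e j))
    (fun j => h1 (e j)) (fun j => hP (e j))
  have hdet2 : (Matrix.of fun i j => c0 ^ (lev (e j)) * F (e j) (P (e i))).det =
      (∏ j, c0 ^ (lev (e j))) * (Matrix.of fun i j => F j (P i)).det := by
    have h5 := Matrix.det_mul_row (fun j => c0 ^ (lev (e j)))
      ((Matrix.of fun i j => F j (P i)).submatrix e e)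
    rw [Matrix.det_submatrix_equiv_self] at h5
    rw [← h5]
    rfl
  rw [hdet2] at hdiv
  have hcop : IsCoprime (q ^ E) (∏ j, c0 ^ (lev (e j))) := by
    refine IsCoprime.prod_right fun j _ => ?_
    exact (hc.symm.pow_left).pow_right
  have hdiv2 := hcop.dvd_of_dvd_mul_left hdiv
  have h6 : q ^ E ≤ |(Matrix.of fun i j => F j (P i)).det| := by
    refine Int.le_of_dvd (abs_pos.2 hdet) ?_
    rwa [dvd_abs]
  have h7 : (q : ℝ) ^ E ≤ |(((Matrix.of fun i j => F j (P i)).det : ℤ) : ℝ)| := by
    have := (Int.cast_le (R := ℝ)).2 h6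
    simpa using this
  refine h7.trans ?_
  refine (abs_det_le_cols _ (fun j => B (lev j)) ?_).trans ?_
  · intro i j
    simpa using hWB (lev j) (h1 j).1 (F j) (h1 j).2 (P i) (hP i)
  · rw [h4, h3, Nat.Ico_zero_eq_range]

end Pool.Agent.Lib.SQF
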