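import Pool.Agent.Lib.SQF.KapMon
import Pool.Agent.Lib.SQF.QEt
import Pool.Agent.Lib.SQF.Defs

/-!
# SQF, module KapGam: the form `γ` of bidegree `(1, 2)` which is constant on the solutions

`γ` is the coefficient of the root in `α ^ 2 β`; on solutions `α ^ 2 β = m ^ 2 (n - root)` it is
`- m ^ 2`.
-/

set_option autoImplicit false

open Polynomial

namespace Pool.Agent.Lib.SQF

theorem mk_pol (g : ℤ[X]) {d : ℕ} (a : Fin d → ℤ) : AdjoinRoot.mk g (pol a) = elA g a := by
  rw [pol, elA, map_sum]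
  refine Finset.sum_congr rfl fun j _ => ?_
  rw [map_mul, map_pow, AdjoinRoot.mk_X, eq_intCast C, map_intCast]

/-- the relation in `ℤ[X]/(g)` -/
theorem IsSol.rel {d : ℕ} {g : ℤ[X]} {K Y P : ℝ} {n : ℤ} {p : ℕ} {α β : Fin d → ℤ} {m : ℤ}
    (h : IsSol d g K Y P n p α β m) :
    elA g α ^ 2 * elA g β = ((m ^ 2 : ℤ) : AdjoinRoot g) * ((n : AdjoinRoot g) - AdjoinRoot.root g)
    := by
  have h1 := (AdjoinRoot.mk_eq_zero (f := g)).2 h.eqn
  rw [map_sub, map_mul, map_mul, map_pow, mk_pol, mk_pol, map_sub, AdjoinRoot.mk_X,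
    eq_intCast C, map_intCast, eq_intCast C, map_intCast] at h1
  exact sub_eq_zero.1 h1

theorem elA_slice (g : ℤ[X]) {d : ℕ} {e f a : Fin d → ℤ} {u v : ℤ} (h : OnSlice e f a u v) :
    elA g a = (u : AdjoinRoot g) * elA g e + (v : AdjoinRoot g) * elA g f := by
  simp only [elA, h _, Finset.mul_sum, ← Finset.sum_add_distrib]
  refine Finset.sum_congr rfl fun i _ => ?_
  push_cast
  ring

/-- **The form which is constant on the solutions.** -/
theorem exists_gamma (g : ℤ[X]) (hg : g.Monic) (hd : g.natDegree = 4) (f1 f2 : Fin 4 → ℤ)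
    {ι : Type*} (u v : ι → ℤ) (al : ι → Fin 4 → ℤ) :
    ∃ γ ∈ FM u v (fun k i => al i k) 1 2, ∀ (i : ι) (K Y P : ℝ) (n : ℤ) (p : ℕ) (β : Fin 4 → ℤ)
      (m : ℤ), IsSol 4 g K Y P n p (al i) β m → OnSlice f1 f2 β (u i) (v i) → γ i = - m ^ 2 := by
  classical
  set b := basisA g hg hd with hb
  set F1 := elA g f1 with hF1
  set F2 := elA g f2 with hF2
  set θ := AdjoinRoot.root g with hθ
  set c1 : Fin 4 → Fin 4 → ℤ := fun k l => b.repr (θ ^ (k : ℕ) * θ ^ (l : ℕ) * F1) 1 with hc1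
  set c2 : Fin 4 → Fin 4 → ℤ := fun k l => b.repr (θ ^ (k : ℕ) * θ ^ (l : ℕ) * F2) 1 with hc2
  refine ⟨∑ k, ∑ l, (c1 k l • (u * ((fun i => al i k) * (fun i => al i l))) +
    c2 k l • (v * ((fun i => al i k) * (fun i => al i l)))), ?_, ?_⟩
  · refine Submodule.sum_mem _ fun k _ => Submodule.sum_mem _ fun l _ => ?_
    have h1 : ∀ w ∈ FM u v (fun k i => al i k) 1 0,
        w * ((fun i => al i k) * (fun i => al i l)) ∈ FM u v (fun k i => al i k) 1 2 := by
      intro w hw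
      have h2 := mul_mem_FM hw (mul_mem_FM (x_mem_FM u v (fun k i => al i k) k)
        (x_mem_FM u v (fun k i => al i k) l))
      simpa using h2
    exact Submodule.add_mem _ (Submodule.smul_mem _ _ (h1 u (u_mem_FM _ _ _)))
      (Submodule.smul_mem _ _ (h1 v (v_mem_FM _ _ _)))
  · intro i K Y P n p β m hsol hsl
    have hrel := hsol.rel
    rw [elA_slice g hsl] at hrel
    have hsq : elA g (al i) ^ 2 * ((u i : AdjoinRoot g) * F1 + (v i : AdjoinRoot g) * F2) =
        ∑ k : Fin 4, ∑ l : Fin 4, ((al i k * al i l * u i) • (θ ^ (k : ℕ) * θ ^ (l : ℕ) * F1) +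
          (al i k * al i l * v i) • (θ ^ (k : ℕ) * θ ^ (l : ℕ) * F2)) := by
      rw [pow_two, elA, Finset.sum_mul_sum, Finset.sum_mul]
      refine Finset.sum_congr rfl fun k _ => ?_
      rw [Finset.sum_mul]
      refine Finset.sum_congr rfl fun l _ => ?_
      rw [zsmul_eq_mul, zsmul_eq_mul]
      push_cast
      ring
    have h1 : b.repr (((m ^ 2 : ℤ) : AdjoinRoot g) * ((n : AdjoinRoot g) - θ)) 1 = - m ^ 2 := by
      have h2 : ((m ^ 2 : ℤ) : AdjoinRoot g) * ((n : AdjoinRoot g) - θ) =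
          (m ^ 2 * n) • b 0 + (- m ^ 2) • b 1 := by
        rw [hb, basisA_apply, basisA_apply, zsmul_eq_mul, zsmul_eq_mul]
        simp only [Fin.val_zero, Fin.val_one, pow_zero, pow_one]
        push_cast
        ring
      rw [h2, map_add, map_zsmul, map_zsmul, Module.Basis.repr_self, Module.Basis.repr_self]
      simp
    rw [← h1, ← hrel, hsq, map_sum, Finsupp.finsetSum_apply, Finset.sum_apply]
    refine Finset.sum_congr rfl fun k _ => ?_
    rw [map_sum, Finsupp.finsetSum_apply, Finset.sum_apply]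
    refine Finset.sum_congr rfl fun l _ => ?_
    rw [map_add, map_zsmul, map_zsmul]
    simp only [Pi.add_apply, Pi.smul_apply, Pi.mul_apply, Finsupp.add_apply, Finsupp.smul_apply,
      smul_eq_mul, hc1, hc2]
    ring

/-- **The divisibility at all levels.**  If all determinants of forms of bidegree `(s, r)` at the
points of `C` are divisible by `q ^ E`, then so are the determinants with columns
`(- m ^ 2) ^ l * F`, `F` a monomial of bidegree `(s - l, r - 2 l)`. -/
theorem levels_mem (g : ℤ[X]) (hg : g.Monic) (hd : g.natDegree = 4) (f1 f2 : Fin 4 → ℤ)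
    {ι : Type*} (u v : ι → ℤ) (al : ι → Fin 4 → ℤ) (s r l : ℕ) (hl : l ≤ s) (hl2 : 2 * l ≤ r)
    (p : ℕ × (Fin 4 → ℕ)) (hp : p ∈ midx (s - l) (r - 2 * l)) :
    ∃ κ : ℕ × (Fin 4 → ℕ) → ℤ, ∀ (i : ι) (K Y P : ℝ) (n : ℤ) (p' : ℕ) (β : Fin 4 → ℤ)
      (m : ℤ), IsSol 4 g K Y P n p' (al i) β m → OnSlice f1 f2 β (u i) (v i) →
      (- m ^ 2) ^ l * mon u v (fun k i => al i k) (s - l) p i =
        ∑ p ∈ midx s r, κ p * mon u v (fun k i => al i k) s p i := by
  obtain ⟨γ, hγ, hγ2⟩ := exists_gamma g hg hd f1 f2 u v al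
  have h1 : γ ^ l * mon u v (fun k i => al i k) (s - l) p ∈ FM u v (fun k i => al i k) s r := by
    have h2 := mul_mem_FM (pow_mem_FM hγ l)
      (Submodule.subset_span (Set.mem_image_of_mem (mon u v (fun k i => al i k) (s - l))
        (Finset.mem_coe.2 hp)))
    have e1 : l * 1 + (s - l) = s := by omega
    have e2 : l * 2 + (r - 2 * l) = r := by omega
    rw [e1, e2] at h2
    exact h2
  obtain ⟨κ, hκ⟩ := exists_coeffs h1
  refine ⟨κ, fun i K Y P n p' β m h h' => ?_⟩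
  rw [← hκ i, ← hγ2 i K Y P n p' β m h h']
  rfl

end Pool.Agent.Lib.SQF
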