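import Pool.Agent.Lib.SQF.StabDefs
import Pool.Agent.Lib.SQF.KapDet

/-!
# SQF, module KapMon: monomials of bidegree `(s, r)`

`mon u v x s p = u ^ (s - a) v ^ a ∏ x_k ^ (J k)` for `p = (a, J)`, `midx s r` the set of indices
with `a ≤ s`, `∑ J = r`, `FM u v x s r` the span of these monomials (functions of the point).
-/

set_option autoImplicit false

open Module

namespace Pool.Agent.Lib.SQF

/-- the indices of the monomials of bidegree `(s, r)` -/
def midx (s r : ℕ) : Finset (ℕ × (Fin 4 → ℕ)) :=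
  Finset.range (s + 1) ×ˢ
    (Fintype.piFinset fun _ : Fin 4 => Finset.range (r + 1)).filter (fun J => ∑ k, J k = r)

theorem mem_midx (s r : ℕ) (p : ℕ × (Fin 4 → ℕ)) :
    p ∈ midx s r ↔ p.1 ≤ s ∧ ∑ k, p.2 k = r := by
  unfold midx
  rw [Finset.mem_product, Finset.mem_range, Finset.mem_filter, Fintype.mem_piFinset]
  constructor
  · rintro ⟨h1, -, h2⟩
    exact ⟨by omega, h2⟩
  · rintro ⟨h1, h2⟩
    refine ⟨by omega, fun k => ?_, h2⟩
    rw [Finset.mem_range]
    have h3 : p.2 k ≤ ∑ k, p.2 k := Finset.single_le_sum (fun _ _ => Nat.zero_le _)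
      (Finset.mem_univ k)
    omega

section

variable {R : Type*} [CommRing R] {ι : Type*}

/-- the monomial with index `p = (a, J)` of degree `s` in `(u, v)` -/
def mon (u v : ι → R) (x : Fin 4 → ι → R) (s : ℕ) (p : ℕ × (Fin 4 → ℕ)) : ι → R := fun n =>
  u n ^ (s - p.1) * v n ^ p.1 * ∏ k, x k n ^ p.2 k

/-- the forms of bidegree `(s, r)` -/
def FM (u v : ι → R) (x : Fin 4 → ι → R) (s r : ℕ) : Submodule R (ι → R) :=
  Submodule.span R (mon u v x s '' (midx s r : Set (ℕ × (Fin 4 → ℕ))))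

theorem mon_mul (u v : ι → R) (x : Fin 4 → ι → R) {s s' : ℕ} {p p' : ℕ × (Fin 4 → ℕ)}
    (h : p.1 ≤ s) (h' : p'.1 ≤ s') :
    mon u v x s p * mon u v x s' p' = mon u v x (s + s') (p + p') := by
  funext n
  simp only [mon, Pi.mul_apply, Prod.fst_add, Prod.snd_add, Pi.add_apply, pow_add,
    Finset.prod_mul_distrib]
  have h1 : s + s' - (p.1 + p'.1) = (s - p.1) + (s' - p'.1) := by omega
  rw [h1, pow_add]
  ring

theorem FM_mul_le (u v : ι → R) (x : Fin 4 → ι → R) (s r s' r' : ℕ) :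
    FM u v x s r * FM u v x s' r' ≤ FM u v x (s + s') (r + r') := by
  unfold FM
  rw [Submodule.span_mul_span, Submodule.span_le]
  rintro f ⟨f1, ⟨p, hp, rfl⟩, f2, ⟨p', hp', rfl⟩, rfl⟩
  rw [Finset.mem_coe, mem_midx] at hp hp'
  refine Submodule.subset_span ⟨p + p', ?_, (mon_mul u v x hp.1 hp'.1).symm⟩
  rw [Finset.mem_coe, mem_midx]
  refine ⟨Nat.add_le_add hp.1 hp'.1, ?_⟩
  simp only [Prod.snd_add, Pi.add_apply, Finset.sum_add_distrib]
  omega

theorem mul_mem_FM {u v : ι → R} {x : Fin 4 → ι → R} {s r s' r' : ℕ} {f g : ι → R}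
    (hf : f ∈ FM u v x s r) (hg : g ∈ FM u v x s' r') : f * g ∈ FM u v x (s + s') (r + r') :=
  FM_mul_le u v x s r s' r' (Submodule.mul_mem_mul hf hg)

theorem one_mem_FM (u v : ι → R) (x : Fin 4 → ι → R) : (1 : ι → R) ∈ FM u v x 0 0 := by
  refine Submodule.subset_span ⟨(0, 0), ?_, ?_⟩
  · rw [Finset.mem_coe, mem_midx]
    simp
  · funext n
    simp [mon]

theorem pow_mem_FM {u v : ι → R} {x : Fin 4 → ι → R} {s r : ℕ} {f : ι → R}
    (hf : f ∈ FM u v x s r) (k : ℕ) : f ^ k ∈ FM u v x (k * s) (k * r) := by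
  induction k with
  | zero => simpa using one_mem_FM u v x
  | succ k ih =>
    rw [pow_succ, Nat.succ_mul, Nat.succ_mul]
    exact mul_mem_FM ih hf

theorem u_mem_FM (u v : ι → R) (x : Fin 4 → ι → R) : u ∈ FM u v x 1 0 := by
  refine Submodule.subset_span ⟨(0, 0), ?_, ?_⟩
  · rw [Finset.mem_coe, mem_midx]
    simp
  · funext n
    simp [mon]

theorem v_mem_FM (u v : ι → R) (x : Fin 4 → ι → R) : v ∈ FM u v x 1 0 := by
  refine Submodule.subset_span ⟨(1, 0), ?_, ?_⟩
  · rw [Finset.mem_coe, mem_midx]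
    simp
  · funext n
    simp [mon]

theorem x_mem_FM (u v : ι → R) (x : Fin 4 → ι → R) (k : Fin 4) : x k ∈ FM u v x 0 1 := by
  classical
  refine Submodule.subset_span ⟨(0, Pi.single k 1), ?_, ?_⟩
  · rw [Finset.mem_coe, mem_midx]
    refine ⟨le_rfl, ?_⟩
    simp
  · funext n
    simp only [mon]
    rw [Finset.prod_eq_single k]
    · simp
    · intro b _ hb
      simp [Pi.single_eq_of_ne hb]
    · simp

/-- a form evaluated at points: an integer combination of monomials -/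
theorem exists_coeffs {u v : ι → R} {x : Fin 4 → ι → R} {s r : ℕ} {f : ι → R}
    (hf : f ∈ FM u v x s r) : ∃ κ : ℕ × (Fin 4 → ℕ) → R,
      ∀ n, f n = ∑ p ∈ midx s r, κ p * mon u v x s p n := by
  unfold FM at hf
  rw [Submodule.mem_span_image_finset_iff_exists_fun] at hf
  obtain ⟨κ, hκ⟩ := hf
  classical
  refine ⟨fun p => if h : p ∈ midx s r then κ ⟨p, h⟩ else 0, fun n => ?_⟩
  rw [← hκ, ← Finset.sum_attach (midx s r)]
  simp [Finset.sum_apply]

end

section field

variable {K : Type*} [Field K] {ι : Type*}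

theorem TS_pow_le (u v : ι → K) (x : Fin 4 → ι → K) (s : ℕ) :
    TS u v ^ s ≤ FM u v x s 0 := by
  have h1 : TS u v ≤ FM u v x 1 0 := by
    unfold TS
    rw [Submodule.span_le]
    rintro f hf
    rcases hf with rfl | hf
    · exact u_mem_FM _ v x
    · rw [Set.mem_singleton_iff] at hf
      subst hf
      exact v_mem_FM u _ x
  induction s with
  | zero =>
    rw [pow_zero, Submodule.one_le]
    exact one_mem_FM u v x
  | succ s ih =>
    rw [pow_succ]
    exact (mul_le_mul' ih h1).trans (FM_mul_le u v x s 0 1 0)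

theorem AS_pow_le (u v : ι → K) (x : Fin 4 → ι → K) (r : ℕ) :
    AS x ^ r ≤ FM u v x 0 r := by
  have h1 : AS x ≤ FM u v x 0 1 := by
    unfold AS
    rw [Submodule.span_le]
    rintro f ⟨k, rfl⟩
    exact x_mem_FM u v x k
  induction r with
  | zero =>
    rw [pow_zero, Submodule.one_le]
    exact one_mem_FM u v x
  | succ r ih =>
    rw [pow_succ]
    exact (mul_le_mul' ih h1).trans (FM_mul_le u v x 0 r 0 1)

theorem FS_le_FM (u v : ι → K) (x : Fin 4 → ι → K) (s r : ℕ) :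
    FS u v x (s, r) ≤ FM u v x s r := by
  have h1 := (mul_le_mul' (TS_pow_le u v x s) (AS_pow_le u v x r)).trans
    (FM_mul_le u v x s 0 0 r)
  simpa [FS] using h1

end field

/-- the rank of the forms of bidegree `(s, r)` is at most the rank of the integral monomials -/
theorem rk_FS_le {ι : Type*} (u v : ι → ℤ) (x : Fin 4 → ι → ℤ) (s r : ℕ) (C : Finset ι) :
    rk (FS (fun n => (u n : ℚ)) (fun n => (v n : ℚ)) (fun k n => (x k n : ℚ)) (s, r)) C ≤
      finrank ℚ (Submodule.span ℚ (resQ C '' (mon u v x s '' (midx s r : Set _)))) := by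
  unfold rk
  refine (Submodule.finrank_mono (Submodule.map_mono (FS_le_FM _ _ _ s r))).trans (le_of_eq ?_)
  unfold FM
  rw [Submodule.map_span, Set.image_image, Set.image_image]
  have h1 : (fun p => rs C (mon (fun n => (u n : ℚ)) (fun n => (v n : ℚ))
      (fun k n => (x k n : ℚ)) s p)) = fun p => resQ C (mon u v x s p) := by
    funext p
    funext z
    rw [rs_apply]
    simp only [mon, resQ]
    push_cast
    rfl
  rw [h1]

/-- an absolute bound for the rank -/
theorem rk_FS_le_card {ι : Type*} (u v : ι → ℚ) (x : Fin 4 → ι → ℚ) (p : ℕ × ℕ) (C : Finset ι) :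
    rk (FS u v x p) C ≤ (midx p.1 p.2).card := by
  classical
  unfold rk
  refine (Submodule.finrank_mono (Submodule.map_mono (FS_le_FM u v x p.1 p.2))).trans ?_
  unfold FM
  rw [Submodule.map_span, Set.image_image, ← Finset.coe_image]
  exact (finrank_span_finset_le_card _).trans Finset.card_image_le

/-- size of a monomial -/
theorem abs_mon_le {ι : Type*} (u v : ι → ℤ) (x : Fin 4 → ι → ℤ) (s r : ℕ) (p : ℕ × (Fin 4 → ℕ))
    (hp : p ∈ midx s r) (n : ι) (U H : ℝ) (hU : |(u n : ℝ)| ≤ U) (hV : |(v n : ℝ)| ≤ U)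
    (hH : ∀ k, |(x k n : ℝ)| ≤ H) : |((mon u v x s p n : ℤ) : ℝ)| ≤ U ^ s * H ^ r := by
  rw [mem_midx] at hp
  have hU0 : 0 ≤ U := (abs_nonneg _).trans hU
  have hH0 : 0 ≤ H := (abs_nonneg _).trans (hH 0)
  simp only [mon]
  push_cast
  rw [abs_mul, abs_mul, abs_pow, abs_pow, Finset.abs_prod]
  have h1 : |(u n : ℝ)| ^ (s - p.1) * |(v n : ℝ)| ^ p.1 ≤ U ^ s := by
    calc |(u n : ℝ)| ^ (s - p.1) * |(v n : ℝ)| ^ p.1 ≤ U ^ (s - p.1) * U ^ p.1 :=
          mul_le_mul (pow_le_pow_left₀ (abs_nonneg _) hU _) (pow_le_pow_left₀ (abs_nonneg _) hV _)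
            (by positivity) (by positivity)
      _ = U ^ s := by rw [← pow_add, Nat.sub_add_cancel hp.1]
  have h2 : ∏ k, |((x k n : ℝ)) ^ p.2 k| ≤ H ^ r := by
    calc ∏ k, |((x k n : ℝ)) ^ p.2 k| ≤ ∏ k, H ^ p.2 k := by
          refine Finset.prod_le_prod (fun _ _ => abs_nonneg _) fun k _ => ?_
          rw [abs_pow]
          exact pow_le_pow_left₀ (abs_nonneg _) (hH k) _
      _ = H ^ r := by rw [Finset.prod_pow_eq_pow_sum, hp.2]
  exact mul_le_mul h1 h2 (Finset.prod_nonneg fun _ _ => abs_nonneg _) (by positivity)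

end Pool.Agent.Lib.SQF
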