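import Pool.Agent.Lib.SQF.IndA

/-!
# The laminar rank bound on slices (section S5 of the squarefree quartics paper)

In `k[X][X]` (outer variable `n`, inner variable `t`) let `V` be the space of forms of bidegree `(i,s)` spanned by
`t^a * prod_i X_i^(m_i)`, `a ≤ i`, `|m| = s`, where `X_i = (n - θ_i) * prod_{l <> i} (t - t_l)^e` (`e = 2` on the
alpha-slices, `e = 1` inside one parity class on the beta-slices). The powers of `ν = 1/n` are read from the top:
the coefficient of `n^(s-q)` is the coefficient of `ν^q`.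
* `dvd_of_natDegree_add_le`: if `F ∈ V` has degree at most `s - j` in `n` then `prod_l (t - t_l)^(e j)` divides `F`;
* `finrank_le_lam`: `dim V ≤ dim {F ∈ V : ν^(J+1) | F} + sum_{j ≤ J} (3 e s + i + 1 - 4 e j)`;
* `det_eq_zero_of_annihilator`, `det_eq_zero_lam`: a coefficient minor with too many rows of small `ν`-degree vanishes;
* `laminar_weight`: the weight of a set of exponents satisfying the laminar constraints.
-/

set_option autoImplicit false

open Polynomial Pointwise

namespace Pool.Agent.Lib.SQF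

section ideal

/-- powers of an ideal with two generators -/
lemma span_pair_pow_le {R : Type*} [CommRing R] (a b : R) (s j : ℕ) (hj : 1 ≤ j) :
    Ideal.span {a, b} ^ s ≤ Ideal.span {a ^ j} ⊔ Ideal.span {b ^ (s + 1 - j)} := by
  induction s generalizing j with
  | zero =>
    have h : 0 + 1 - j = 0 := by omega
    rw [h, pow_zero b, Ideal.span_singleton_one, sup_top_eq]
    exact le_top
  | succ s ih =>
    rw [pow_succ, Ideal.mul_le]
    intro x hx y hy
    obtain ⟨c, d, rfl⟩ := Ideal.mem_span_pair.1 hy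
    have ha : x * a ∈ Ideal.span {a ^ j} ⊔ Ideal.span {b ^ (s + 1 + 1 - j)} := by
      rcases Nat.lt_or_ge 1 j with h1 | h1
      · obtain ⟨j', rfl⟩ : ∃ j', j = j' + 1 := ⟨j - 1, by omega⟩
        have h2 := ih j' (by omega) hx
        obtain ⟨u, hu, v, hv, huv⟩ := Submodule.mem_sup.1 h2
        obtain ⟨u', rfl⟩ := Ideal.mem_span_singleton'.1 hu
        obtain ⟨v', rfl⟩ := Ideal.mem_span_singleton'.1 hv
        refine Submodule.mem_sup.2 ⟨u' * a ^ (j' + 1), Ideal.mul_mem_left _ _
          (Ideal.mem_span_singleton_self _), (v' * a) * b ^ (s + 1 + 1 - (j' + 1)),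
          Ideal.mul_mem_left _ _ (Ideal.mem_span_singleton_self _), ?_⟩
        have h3 : s + 1 + 1 - (j' + 1) = s + 1 - j' := by omega
        rw [h3, ← huv]
        ring
      · obtain rfl : j = 1 := by omega
        refine Ideal.mem_sup_left ?_
        rw [pow_one]
        exact Ideal.mul_mem_left _ _ (Ideal.mem_span_singleton_self _)
    have hb : x * b ∈ Ideal.span {a ^ j} ⊔ Ideal.span {b ^ (s + 1 + 1 - j)} := by
      rcases Nat.lt_or_ge (s + 1) j with h1 | h1
      · have h : s + 1 + 1 - j = 0 := by omega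
        rw [h, pow_zero b, Ideal.span_singleton_one, sup_top_eq]
        trivial
      · have h2 := ih j hj hx
        obtain ⟨u, hu, v, hv, huv⟩ := Submodule.mem_sup.1 h2
        obtain ⟨u', rfl⟩ := Ideal.mem_span_singleton'.1 hu
        obtain ⟨v', rfl⟩ := Ideal.mem_span_singleton'.1 hv
        refine Submodule.mem_sup.2 ⟨(u' * b) * a ^ j, Ideal.mul_mem_left _ _
          (Ideal.mem_span_singleton_self _), v' * b ^ (s + 1 + 1 - j),
          Ideal.mul_mem_left _ _ (Ideal.mem_span_singleton_self _), ?_⟩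
        have h3 : s + 1 + 1 - j = (s + 1 - j) + 1 := by omega
        rw [h3, ← huv]
        ring
    have h : x * (c * a + d * b) = c * (x * a) + d * (x * b) := by ring
    rw [h]
    exact add_mem (Ideal.mul_mem_left _ _ ha) (Ideal.mul_mem_left _ _ hb)

end ideal

variable {k : Type*} [Field k]

/-- The polynomial `(n - θ_i) * prod_{l <> i} (t - t_l)^e`. -/
noncomputable def xG (θ t : Fin 4 → k) (e : ℕ) (i : Fin 4) : k[X][X] :=
  (X - C (C (θ i))) * C (∏ l ∈ Finset.univ.erase i, (X - C (t l)) ^ e)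

/-- The span of the four polynomials `xG`. -/
noncomputable def vG (θ t : Fin 4 → k) (e : ℕ) : Submodule k k[X][X] :=
  Submodule.span k (Set.range (xG θ t e))

lemma xG_two (θ t : Fin 4 → k) : xG θ t 2 = xA θ t := rfl

lemma vG_two (θ t : Fin 4 → k) : vG θ t 2 = vA θ t := rfl

lemma xG_mem_ideal (θ t : Fin 4 → k) (e : ℕ) (l i : Fin 4) :
    xG θ t e i ∈ Ideal.span {(C ((X - C (t l)) ^ e) : k[X][X]), X - C (C (θ l))} := by
  by_cases h : i = l
  · subst h
    exact Ideal.mul_mem_right _ _ (Ideal.subset_span (by simp))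
  · have h1 : (X - C (t l)) ^ e ∣ ∏ l ∈ Finset.univ.erase i, (X - C (t l)) ^ e :=
      Finset.dvd_prod_of_mem (fun l => (X - C (t l)) ^ e)
        (Finset.mem_erase.2 ⟨fun h' => h h'.symm, Finset.mem_univ _⟩)
    obtain ⟨g, hg⟩ := h1
    unfold xG
    rw [hg, C_mul, ← mul_assoc, mul_right_comm]
    refine Ideal.mul_mem_left _ _ (Ideal.subset_span (by simp))

lemma vG_le_ideal (θ t : Fin 4 → k) (e : ℕ) (l : Fin 4) {F : k[X][X]} (hF : F ∈ vG θ t e) :
    F ∈ Ideal.span {(C ((X - C (t l)) ^ e) : k[X][X]), X - C (C (θ l))} := by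
  have h : vG θ t e ≤ (Ideal.span {(C ((X - C (t l)) ^ e) : k[X][X]),
      X - C (C (θ l))}).restrictScalars k := by
    unfold vG
    rw [Submodule.span_le]
    rintro _ ⟨i, rfl⟩
    exact xG_mem_ideal θ t e l i
  exact h hF

/-- powers of a subspace contained in an ideal -/
lemma pow_mem_of_le {R : Type*} [CommRing R] [Algebra k R] (V : Submodule k R) (J : Ideal R)
    (h : ∀ x ∈ V, x ∈ J) (s : ℕ) {x : R} (hx : x ∈ V ^ s) : x ∈ J ^ s := by
  induction s generalizing x with
  | zero =>
    rw [pow_zero, Ideal.one_eq_top]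
    trivial
  | succ s ih =>
    rw [pow_succ] at hx ⊢
    refine Submodule.mul_induction_on hx (fun m hm n hn => ?_) fun x y hx hy => add_mem hx hy
    exact Ideal.mul_mem_mul (ih hm) (h n hn)

lemma vG_pow_le_ideal (θ t : Fin 4 → k) (e s : ℕ) (l : Fin 4) {F : k[X][X]}
    (hF : F ∈ vG θ t e ^ s) :
    F ∈ (Ideal.span {(C ((X - C (t l)) ^ e) : k[X][X]), X - C (C (θ l))}) ^ s :=
  pow_mem_of_le _ _ (fun _ hx => vG_le_ideal θ t e l hx) s hF

lemma form_mem_ideal (θ t : Fin 4 → k) (e i s : ℕ) (l : Fin 4) {F : k[X][X]}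
    (hF : F ∈ tA k i * vG θ t e ^ s) :
    F ∈ (Ideal.span {(C ((X - C (t l)) ^ e) : k[X][X]), X - C (C (θ l))}) ^ s := by
  refine Submodule.mul_induction_on hF (fun m _ n hn => ?_) fun x y hx hy => add_mem hx hy
  exact Ideal.mul_mem_left _ _ (vG_pow_le_ideal θ t e s l hn)

/-- a polynomial which is congruent to a multiple of a monic polynomial of larger degree is zero -/
lemma map_eq_zero_of {A S : Type*} [CommRing A] [CommRing S] (φ : A →+* S) (F u v : A[X])
    (T a : A) (hT : φ T = 0) (r : ℕ) (h : F = u * C T + v * (X - C a) ^ r)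
    (hd : F.natDegree < r) : F.map φ = 0 := by
  by_contra hne
  have hnt : Nontrivial S := by
    by_contra hn
    rw [not_nontrivial_iff_subsingleton] at hn
    exact hne (Subsingleton.elim _ _)
  have hmap : F.map φ = (X - C (φ a)) ^ r * v.map φ := by
    rw [h, Polynomial.map_add, Polynomial.map_mul, Polynomial.map_mul, Polynomial.map_C, hT,
      C_0, mul_zero, zero_add, Polynomial.map_pow, Polynomial.map_sub, Polynomial.map_X,
      Polynomial.map_C, mul_comm]
  have hmon : ((X - C (φ a)) ^ r : S[X]).Monic := (monic_X_sub_C _).pow _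
  refine hmon.not_dvd_of_natDegree_lt hne ?_ ⟨v.map φ, hmap⟩
  rw [(monic_X_sub_C (φ a)).natDegree_pow, natDegree_X_sub_C, mul_one]
  exact (Polynomial.natDegree_map_le (f := φ) (p := F)).trans_lt hd

/-- **divisibility**, one root -/
theorem dvd_coeff_of_natDegree (θ t : Fin 4 → k) (e i s j : ℕ) (l : Fin 4) {F : k[X][X]}
    (hF : F ∈ tA k i * vG θ t e ^ s) (hd : F.natDegree + j ≤ s) (m : ℕ) :
    (X - C (t l)) ^ (e * j) ∣ F.coeff m := by
  rcases Nat.eq_zero_or_pos j with rfl | hj
  · simp
  set T : k[X] := (X - C (t l)) ^ (e * j) with hT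
  have h1 := span_pair_pow_le (C ((X - C (t l)) ^ e) : k[X][X]) (X - C (C (θ l))) s j hj
    (form_mem_ideal θ t e i s l hF)
  obtain ⟨u, hu, v, hv, huv⟩ := Submodule.mem_sup.1 h1
  obtain ⟨u', rfl⟩ := Ideal.mem_span_singleton'.1 hu
  obtain ⟨v', rfl⟩ := Ideal.mem_span_singleton'.1 hv
  let φ : k[X] →+* k[X] ⧸ Ideal.span {T} := Ideal.Quotient.mk (Ideal.span {T})
  have hφT : φ T = 0 := by
    change Ideal.Quotient.mk _ T = 0
    rw [Ideal.Quotient.eq_zero_iff_mem]
    exact Ideal.mem_span_singleton_self T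
  have h0 : F.map φ = 0 := by
    refine map_eq_zero_of φ F u' v' T (C (θ l)) hφT (s + 1 - j) ?_ (by omega)
    rw [← huv, ← C_pow, ← pow_mul, hT]
  have h2 : φ (F.coeff m) = 0 := by
    rw [← Polynomial.coeff_map, h0, coeff_zero]
  exact Ideal.mem_span_singleton.1 (Ideal.Quotient.eq_zero_iff_mem.1 h2)

/-- **divisibility** -/
theorem prod_dvd_coeff_of_natDegree (θ t : Fin 4 → k) (ht : Function.Injective t) (e i s j : ℕ)
    {F : k[X][X]} (hF : F ∈ tA k i * vG θ t e ^ s) (hd : F.natDegree + j ≤ s) (m : ℕ) :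
    ∏ l, (X - C (t l)) ^ (e * j) ∣ F.coeff m := by
  refine Finset.prod_dvd_of_coprime (fun a _ b _ hab => ?_) fun l _ =>
    dvd_coeff_of_natDegree θ t e i s j l hF hd m
  refine IsCoprime.pow (Polynomial.isCoprime_X_sub_C_of_isUnit_sub ?_)
  exact IsUnit.mk0 _ (sub_ne_zero.2 fun h => hab (ht h))

/-- the same with the product taken inside `k[X][X]` -/
theorem prod_dvd_of_natDegree (θ t : Fin 4 → k) (ht : Function.Injective t) (e i s j : ℕ)
    {F : k[X][X]} (hF : F ∈ tA k i * vG θ t e ^ s) (hd : F.natDegree + j ≤ s) :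
    C (∏ l, (X - C (t l)) ^ (e * j)) ∣ F :=
  (Polynomial.C_dvd_iff_dvd_coeff _ _).2 (prod_dvd_coeff_of_natDegree θ t ht e i s j hF hd)

/-! ### degrees -/

/-- bounds of the degrees in `n` and `t` -/
def DegLe (s D : ℕ) (F : k[X][X]) : Prop := F.natDegree ≤ s ∧ ∀ m, (F.coeff m).natDegree ≤ D

lemma DegLe.add {s D : ℕ} {F G : k[X][X]} (hF : DegLe s D F) (hG : DegLe s D G) :
    DegLe s D (F + G) :=
  ⟨(natDegree_add_le _ _).trans (max_le hF.1 hG.1), fun m => by
    rw [coeff_add]
    exact (natDegree_add_le _ _).trans (max_le (hF.2 m) (hG.2 m))⟩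

lemma DegLe.zero (s D : ℕ) : DegLe s D (0 : k[X][X]) := by
  refine ⟨by simp, fun m => by simp⟩

lemma DegLe.smul {s D : ℕ} (c : k) {F : k[X][X]} (hF : DegLe s D F) : DegLe s D (c • F) :=
  ⟨(natDegree_smul_le _ _).trans hF.1, fun m => by
    rw [coeff_smul]
    exact (natDegree_smul_le _ _).trans (hF.2 m)⟩

lemma DegLe.mul {s D s' D' : ℕ} {F G : k[X][X]} (hF : DegLe s D F) (hG : DegLe s' D' G) :
    DegLe (s + s') (D + D') (F * G) :=
  ⟨natDegree_mul_le.trans (Nat.add_le_add hF.1 hG.1), fun m => by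
    rw [coeff_mul]
    refine natDegree_sum_le_of_forall_le _ _ fun x _ => ?_
    exact natDegree_mul_le.trans (Nat.add_le_add (hF.2 _) (hG.2 _))⟩

lemma natDegree_prod_erase_le (t : Fin 4 → k) (e : ℕ) (i : Fin 4) :
    (∏ l ∈ Finset.univ.erase i, (X - C (t l)) ^ e).natDegree ≤ 3 * e := by
  refine (natDegree_prod_le _ _).trans ?_
  refine (Finset.sum_le_card_nsmul _ _ e fun l _ => ?_).trans ?_
  · refine natDegree_pow_le.trans ?_
    rw [natDegree_X_sub_C, mul_one]
  · rw [Finset.card_erase_of_mem (Finset.mem_univ _), Finset.card_univ, Fintype.card_fin,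
      smul_eq_mul]

lemma degLe_xG (θ t : Fin 4 → k) (e : ℕ) (i : Fin 4) : DegLe 1 (3 * e) (xG θ t e i) := by
  have h1 : DegLe 1 0 (X - C (C (θ i)) : k[X][X]) := by
    refine ⟨by rw [natDegree_X_sub_C], fun m => ?_⟩
    rw [coeff_sub, coeff_X, coeff_C]
    split_ifs <;> simp
  have h2 : DegLe 0 (3 * e) (C (∏ l ∈ Finset.univ.erase i, (X - C (t l)) ^ e) : k[X][X]) := by
    refine ⟨by rw [natDegree_C], fun m => ?_⟩
    rw [coeff_C]
    split_ifs
    · exact natDegree_prod_erase_le t e i
    · simp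
  have h3 := h1.mul h2
  rw [Nat.zero_add] at h3
  exact h3

lemma degLe_vG (θ t : Fin 4 → k) (e : ℕ) {F : k[X][X]} (hF : F ∈ vG θ t e) :
    DegLe 1 (3 * e) F := by
  unfold vG at hF
  refine Submodule.span_induction ?_ (DegLe.zero _ _) (fun x y _ _ hx hy => hx.add hy)
    (fun a x _ hx => hx.smul a) hF
  rintro _ ⟨i, rfl⟩
  exact degLe_xG θ t e i

lemma degLe_vG_pow (θ t : Fin 4 → k) (e s : ℕ) {F : k[X][X]} (hF : F ∈ vG θ t e ^ s) :
    DegLe s (3 * e * s) F := by
  induction s generalizing F with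
  | zero =>
    rw [pow_zero, Submodule.mem_one] at hF
    obtain ⟨y, rfl⟩ := hF
    refine ⟨?_, fun m => ?_⟩
    · have : (algebraMap k k[X][X]) y = C (C y) := rfl
      rw [this, natDegree_C]
    · have : (algebraMap k k[X][X]) y = C (C y) := rfl
      rw [this, coeff_C]
      split_ifs <;> simp
  | succ s ih =>
    rw [pow_succ] at hF
    refine Submodule.mul_induction_on hF (fun m hm n hn => ?_) fun x y hx hy => hx.add hy
    have := (ih hm).mul (degLe_vG θ t e hn)
    rw [mul_add, mul_one]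
    exact this

lemma degLe_tA (i : ℕ) {F : k[X][X]} (hF : F ∈ tA k i) : DegLe 0 i F := by
  unfold tA at hF
  refine Submodule.span_induction ?_ (DegLe.zero _ _) (fun x y _ _ hx hy => hx.add hy)
    (fun a x _ hx => hx.smul a) hF
  rintro _ ⟨a, ha, rfl⟩
  refine ⟨by rw [natDegree_C], fun m => ?_⟩
  rw [coeff_C]
  split_ifs
  · rw [natDegree_X_pow]
    exact ha
  · simp

/-- degrees of the forms of bidegree `(i,s)` -/
lemma degLe_form (θ t : Fin 4 → k) (e i s : ℕ) {F : k[X][X]} (hF : F ∈ tA k i * vG θ t e ^ s) :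
    DegLe s (3 * e * s + i) F := by
  refine Submodule.mul_induction_on hF (fun m hm n hn => ?_) fun x y hx hy => hx.add hy
  have := (degLe_tA i hm).mul (degLe_vG_pow θ t e s hn)
  rw [Nat.zero_add, Nat.add_comm i] at this
  exact this

/-! ### ranks -/

/-- the polynomials which are divisible by `ν^j`: the coefficients of `n^s, n^(s-1), .., n^(s-j+1)` vanish -/
def nuDiv (k : Type*) [Field k] (s j : ℕ) : Submodule k k[X][X] where
  carrier := {F | ∀ q < j, F.coeff (s - q) = 0}
  add_mem' {F G} hF hG q hq := by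
    rw [coeff_add, hF q hq, hG q hq, add_zero]
  zero_mem' q _ := coeff_zero _
  smul_mem' c F hF q hq := by
    rw [coeff_smul, hF q hq, smul_zero]

lemma mem_nuDiv {s j : ℕ} {F : k[X][X]} : F ∈ nuDiv k s j ↔ ∀ q < j, F.coeff (s - q) = 0 :=
  Iff.rfl

lemma nuDiv_zero (s : ℕ) : nuDiv k s 0 = ⊤ := by
  rw [eq_top_iff]
  intro F _ q hq
  omega

lemma fg_vG (θ t : Fin 4 → k) (e : ℕ) : (vG θ t e).FG :=
  Submodule.fg_span (Set.finite_range _)

lemma fg_form (θ t : Fin 4 → k) (e i s : ℕ) : (tA k i * vG θ t e ^ s).FG :=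
  (fg_tA i).mul ((fg_vG θ t e).pow s)

lemma finrank_le_ker_add {E G : Type*} [AddCommGroup E] [Module k E] [AddCommGroup G] [Module k G]
    (U : Submodule k E) (hU : U.FG) (f : E →ₗ[k] G) (B : Submodule k G) (hB : B.FG)
    (hf : ∀ x ∈ U, f x ∈ B) :
    Module.finrank k U ≤ Module.finrank k (U ⊓ LinearMap.ker f : Submodule k E) +
      Module.finrank k B := by
  have hUf : Module.Finite k U := Module.Finite.iff_fg.2 hU
  have hBf : Module.Finite k B := Module.Finite.iff_fg.2 hB
  let g : U →ₗ[k] G := f.comp U.subtype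
  have h1 := LinearMap.finrank_range_add_finrank_ker g
  have h2 : Module.finrank k (LinearMap.range g) ≤ Module.finrank k B := by
    refine Submodule.finrank_mono ?_
    rintro _ ⟨x, rfl⟩
    exact hf x.1 x.2
  have h3 : Module.finrank k (LinearMap.ker g) ≤
      Module.finrank k (U ⊓ LinearMap.ker f : Submodule k E) := by
    have hfin : Module.Finite k (U ⊓ LinearMap.ker f : Submodule k E) :=
      Submodule.finiteDimensional_inf_left _ _
    let i : LinearMap.ker g →ₗ[k] (U ⊓ LinearMap.ker f : Submodule k E) :=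
      LinearMap.codRestrict _ (U.subtype.comp (LinearMap.ker g).subtype) fun x => ⟨x.1.2, x.2⟩
    refine LinearMap.finrank_le_finrank_of_injective (f := i) ?_
    intro x y hxy
    have := congrArg Subtype.val hxy
    exact Subtype.ext (Subtype.ext this)
  omega

lemma finrank_degreeLT (n : ℕ) : Module.finrank k (degreeLT k n) = n := by
  rw [(degreeLTEquiv k n).finrank_eq, Module.finrank_fin_fun]

lemma fg_degreeLT (n : ℕ) : (degreeLT k n).FG := by
  have : Module.Finite k (degreeLT k n) := Module.Finite.equiv (degreeLTEquiv k n).symm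
  exact Module.Finite.iff_fg.1 this

/-- multiplication by a fixed polynomial -/
noncomputable def mulP (D : k[X]) : k[X] →ₗ[k] k[X] := LinearMap.mulLeft k D

lemma lam_step (θ t : Fin 4 → k) (ht : Function.Injective t) (e i s j : ℕ) (hj : j ≤ s) :
    Module.finrank k ((tA k i * vG θ t e ^ s) ⊓ nuDiv k s j : Submodule k k[X][X]) ≤
      Module.finrank k ((tA k i * vG θ t e ^ s) ⊓ nuDiv k s (j + 1) : Submodule k k[X][X]) +
        (3 * e * s + i + 1 - 4 * e * j) := by
  set V := tA k i * vG θ t e ^ s with hV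
  have hVf : Module.Finite k V := Module.Finite.iff_fg.2 (fg_form θ t e i s)
  set D : k[X] := ∏ l, (X - C (t l)) ^ (e * j) with hD
  have hDmon : D.Monic := monic_prod_of_monic _ _ fun l _ => (monic_X_sub_C _).pow _
  have hDdeg : D.natDegree = 4 * e * j := by
    rw [hD, natDegree_prod_of_monic _ _ fun l _ => (monic_X_sub_C _).pow _]
    have : ∀ l : Fin 4, ((X - C (t l)) ^ (e * j)).natDegree = e * j := fun l => by
      rw [(monic_X_sub_C _).natDegree_pow, natDegree_X_sub_C, mul_one]
    rw [Finset.sum_congr rfl fun l _ => this l, Finset.sum_const, Finset.card_univ,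
      Fintype.card_fin, smul_eq_mul, mul_assoc]
  let f : k[X][X] →ₗ[k] k[X] := (Polynomial.lcoeff k[X] (s - j)).restrictScalars k
  let B : Submodule k k[X] := (degreeLT k (3 * e * s + i + 1 - 4 * e * j)).map (mulP D)
  have hfin : Module.Finite k (V ⊓ nuDiv k s j : Submodule k k[X][X]) :=
    Submodule.finiteDimensional_inf_left _ _
  have h1 := finrank_le_ker_add (V ⊓ nuDiv k s j) (Module.Finite.iff_fg.1 hfin) f B
    ((fg_degreeLT _).map _) (by
      rintro F ⟨hF, hFn⟩
      have hdeg := degLe_form θ t e i s hF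
      have hd : F.natDegree + j ≤ s := by
        by_contra hcon
        have h2 : F.coeff F.natDegree = 0 := by
          have h3 := hFn (s - F.natDegree) (by have := hdeg.1; omega)
          have h4 : s - (s - F.natDegree) = F.natDegree := by have := hdeg.1; omega
          rwa [h4] at h3
        have h3 : F = 0 := by
          rwa [coeff_natDegree, leadingCoeff_eq_zero] at h2
        rw [h3, natDegree_zero] at hcon
        omega
      obtain ⟨g, hg⟩ := prod_dvd_coeff_of_natDegree θ t ht e i s j hF hd (s - j)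
      refine Submodule.mem_map.2 ⟨g, ?_, hg.symm⟩
      rw [mem_degreeLT]
      by_cases hg0 : g = 0
      · rw [hg0, degree_zero]
        exact WithBot.bot_lt_coe _
      · have h2 : (F.coeff (s - j)).natDegree = D.natDegree + g.natDegree := by
          rw [hg, hDmon.natDegree_mul' hg0]
        have h3 := hdeg.2 (s - j)
        rw [h2, hDdeg] at h3
        rw [degree_eq_natDegree hg0]
        exact_mod_cast (by omega : g.natDegree < 3 * e * s + i + 1 - 4 * e * j))
  have h2 : Module.finrank k B ≤ 3 * e * s + i + 1 - 4 * e * j := by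
    have hfin2 : Module.Finite k (degreeLT k (3 * e * s + i + 1 - 4 * e * j)) :=
      Module.Finite.iff_fg.2 (fg_degreeLT _)
    exact (Submodule.finrank_map_le _ _).trans (finrank_degreeLT _).le
  have h3 : (V ⊓ nuDiv k s j ⊓ LinearMap.ker f : Submodule k k[X][X]) = V ⊓ nuDiv k s (j + 1) := by
    ext F
    constructor
    · rintro ⟨⟨h3, h4⟩, h5⟩
      refine ⟨h3, fun q hq => ?_⟩
      rcases Nat.lt_succ_iff_lt_or_eq.1 hq with h | rfl
      · exact h4 q h
      · exact h5
    · rintro ⟨h3, h4⟩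
      exact ⟨⟨h3, fun q hq => h4 q (by omega)⟩, h4 j (by omega)⟩
  rw [h3] at h1
  omega

/-- **the laminar rank bound**: the space of forms modulo `ν^j` has dimension at most
`sum_{q < j} (3 e s + i + 1 - 4 e q)`. -/
theorem finrank_le_lam (θ t : Fin 4 → k) (ht : Function.Injective t) (e i s j : ℕ)
    (hj : j ≤ s + 1) :
    Module.finrank k (tA k i * vG θ t e ^ s : Submodule k k[X][X]) ≤
      Module.finrank k ((tA k i * vG θ t e ^ s) ⊓ nuDiv k s j : Submodule k k[X][X]) +
        ∑ q ∈ Finset.range j, (3 * e * s + i + 1 - 4 * e * q) := by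
  induction j with
  | zero => rw [nuDiv_zero, inf_top_eq, Finset.sum_range_zero, add_zero]
  | succ j ih =>
    rw [Finset.sum_range_succ]
    have h1 := ih (by omega)
    have h2 := lam_step θ t ht e i s j (by omega)
    omega

/-- the alpha-slices -/
theorem finrank_le_lamA (θ t : Fin 4 → k) (ht : Function.Injective t) (i s j : ℕ)
    (hj : j ≤ s + 1) :
    Module.finrank k (tA k i * vA θ t ^ s : Submodule k k[X][X]) ≤
      Module.finrank k ((tA k i * vA θ t ^ s) ⊓ nuDiv k s j : Submodule k k[X][X]) +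
        ∑ q ∈ Finset.range j, (6 * s + i + 1 - 8 * q) := by
  have h := finrank_le_lam θ t ht 2 i s j hj
  have e1 : ∀ q, 3 * 2 * s + i + 1 - 4 * 2 * q = 6 * s + i + 1 - 8 * q := fun q => by omega
  rw [Finset.sum_congr rfl fun q _ => e1 q] at h
  exact h

/-! ### vanishing minors -/

/-- Linear functionals which vanish on a subspace of small codimension: a square matrix with too many such
rows is singular. -/
theorem det_eq_zero_of_annihilator {K E ι : Type*} [Field K] [AddCommGroup E] [Module K E]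
    [Fintype ι] [DecidableEq ι] (U U' : Submodule K E) (hU : U.FG) (hUU : U' ≤ U) (R : ℕ)
    (hR : Module.finrank K U ≤ Module.finrank K U' + R) (f : ι → E) (hf : ∀ c, f c ∈ U)
    (S : Finset ι) (hS : R < S.card) (lam : ι → E →ₗ[K] K)
    (h : ∀ e ∈ S, ∀ x ∈ U', lam e x = 0) :
    (Matrix.of fun e c => lam e (f c)).det = 0 := by
  have hUf : Module.Finite K U := Module.Finite.iff_fg.2 hU
  let U'' : Submodule K U := U'.comap U.subtype
  have hU'' : Module.finrank K U'' = Module.finrank K U' :=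
    (Submodule.comapSubtypeEquivOfLe hUU).finrank_eq
  have h1 : Module.finrank K U''.dualAnnihilator ≤ R := by
    have := Subspace.finrank_add_finrank_dualAnnihilator_eq U''
    omega
  let v : S → Module.Dual K U := fun e => (lam e.1).comp U.subtype
  have h2 : ¬ LinearIndependent K v := by
    intro hli
    have h3 := finrank_span_eq_card hli
    have h4 : Submodule.span K (Set.range v) ≤ U''.dualAnnihilator := by
      rw [Submodule.span_le]
      rintro _ ⟨e, rfl⟩
      rw [SetLike.mem_coe, Submodule.mem_dualAnnihilator]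
      intro x hx
      exact h e.1 e.2 x.1 hx
    have h5 := Submodule.finrank_mono h4
    rw [h3, Fintype.card_coe] at h5
    omega
  obtain ⟨g, hg, e0, he0⟩ := Fintype.not_linearIndependent_iff.1 h2
  rw [← Matrix.exists_vecMul_eq_zero_iff]
  refine ⟨fun e => if he : e ∈ S then g ⟨e, he⟩ else 0, ?_, ?_⟩
  · intro h0
    have h3 := congrFun h0 e0.1
    simp only [Pi.zero_apply, dif_pos e0.2] at h3
    exact he0 h3
  · funext c
    have h3 : (∑ e : S, g e • v e) ⟨f c, hf c⟩ = 0 := by
      rw [hg]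
      rfl
    rw [LinearMap.sum_apply] at h3
    change ∑ e, (if he : e ∈ S then g ⟨e, he⟩ else 0) * lam e (f c) = 0
    refine Eq.trans ?_ h3
    rw [← Finset.sum_subset (Finset.subset_univ S) (fun e _ he => by rw [dif_neg he, zero_mul]),
      ← Finset.sum_coe_sort S]
    refine Finset.sum_congr rfl fun e _ => ?_
    rw [dif_pos e.2]
    rfl

/-- **vanishing coefficient minors** on a slice: functionals which only depend on the coefficients of
`ν^0, .., ν^(j-1)`. -/
theorem det_eq_zero_lam (θ t : Fin 4 → k) (ht : Function.Injective t) (e i s j : ℕ)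
    (hj : j ≤ s + 1) {ι : Type*} [Fintype ι] [DecidableEq ι] (f : ι → k[X][X])
    (hf : ∀ c, f c ∈ tA k i * vG θ t e ^ s) (S : Finset ι)
    (hS : ∑ q ∈ Finset.range j, (3 * e * s + i + 1 - 4 * e * q) < S.card)
    (lam : ι → k[X][X] →ₗ[k] k)
    (h : ∀ e ∈ S, ∀ F : k[X][X], (∀ q < j, F.coeff (s - q) = 0) → lam e F = 0) :
    (Matrix.of fun e c => lam e (f c)).det = 0 :=
  det_eq_zero_of_annihilator (tA k i * vG θ t e ^ s) ((tA k i * vG θ t e ^ s) ⊓ nuDiv k s j)
    (fg_form θ t e i s) inf_le_left _ (finrank_le_lam θ t ht e i s j hj) f hf S hS lam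
    fun e he x hx => h e he x hx.2

/-- the alpha-slices -/
theorem det_eq_zero_lamA (θ t : Fin 4 → k) (ht : Function.Injective t) (i s j : ℕ)
    (hj : j ≤ s + 1) {ι : Type*} [Fintype ι] [DecidableEq ι] (f : ι → k[X][X])
    (hf : ∀ c, f c ∈ tA k i * vA θ t ^ s) (S : Finset ι)
    (hS : ∑ q ∈ Finset.range j, (6 * s + i + 1 - 8 * q) < S.card)
    (lam : ι → k[X][X] →ₗ[k] k)
    (h : ∀ e ∈ S, ∀ F : k[X][X], (∀ q < j, F.coeff (s - q) = 0) → lam e F = 0) :
    (Matrix.of fun e c => lam e (f c)).det = 0 :=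
  det_eq_zero_of_annihilator (tA k i * vA θ t ^ s) ((tA k i * vA θ t ^ s) ⊓ nuDiv k s j)
    (fg_forms θ t i s) inf_le_left _ (finrank_le_lamA θ t ht i s j hj) f hf S hS lam
    fun e he x hx => h e he x hx.2

/-! ### weights -/

/-- sum of `wp + q - c` over a finite set of `p`: the minimum is attained on an initial segment -/
lemma sum_ge_initial (w c : ℝ) (hw : 0 ≤ w) (P : ℕ) (hP : ∀ p < P, w * p ≤ c)
    (hP' : c ≤ w * P) (A : Finset ℕ) :
    ∑ p ∈ Finset.range P, (w * p - c) ≤ ∑ p ∈ A, (w * p - c) := by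
  have h1 : ∑ p ∈ Finset.range P, (w * p - c) ≤ ∑ p ∈ Finset.range P ∩ A, (w * p - c) := by
    rw [← Finset.sum_inter_add_sum_sdiff (Finset.range P) A]
    have : ∑ p ∈ Finset.range P \ A, (w * p - c) ≤ 0 :=
      Finset.sum_nonpos fun p hp => by
        have := hP p (Finset.mem_range.1 (Finset.mem_sdiff.1 hp).1)
        linarith
    linarith
  refine h1.trans ?_
  refine Finset.sum_le_sum_of_subset_of_nonneg Finset.inter_subset_right fun p hp hp' => ?_
  have h2 : P ≤ p := by
    by_contra hcon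
    exact hp' (Finset.mem_inter.2 ⟨Finset.mem_range.2 (by omega), hp⟩)
  have h3 : w * P ≤ w * p := mul_le_mul_of_nonneg_left (by exact_mod_cast h2) hw
  linarith

/-- **the weight of a laminar set of exponents**. `E` is a set of exponents `(p, q)` (meaning `δ^p ν^q`) with at most
`R J` elements with `q ≤ J`; `P q` is the number of elements of the optimal set in the row `q` and `c q` the critical
weight of the row `q`. Then the weight `sum (w p + q)` over `E` is at least the weight of the optimal set. -/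
theorem laminar_weight (s N : ℕ) (w : ℝ) (hw : 0 ≤ w) (R P : ℕ → ℕ) (c : ℕ → ℝ)
    (hc : ∀ q < s, c q ≤ c (q + 1))
    (hP : ∀ q ≤ s, ∀ p < P q, w * p + q ≤ c q) (hP' : ∀ q ≤ s, c q ≤ w * P q + q)
    (hN : ∑ q ∈ Finset.range (s + 1), P q = N)
    (hR : ∀ J < s, c J = c (J + 1) ∨ R J ≤ ∑ q ∈ Finset.range (J + 1), P q)
    (E : Finset (ℕ × ℕ)) (hE : E.card = N) (hEs : ∀ e ∈ E, e.2 ≤ s)
    (hER : ∀ J < s, (E.filter fun e => e.2 ≤ J).card ≤ R J) :
    ∑ q ∈ Finset.range (s + 1), ∑ p ∈ Finset.range (P q), (w * p + q) ≤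
      ∑ e ∈ E, (w * e.1 + e.2) := by
  classical
  -- the rows of `E`
  let A : ℕ → Finset ℕ := fun q => (E.filter fun e => e.2 = q).image Prod.fst
  have hAinj : ∀ q, Set.InjOn Prod.fst ((E.filter fun e => e.2 = q : Finset (ℕ × ℕ)) : Set (ℕ × ℕ)) := by
    rintro q ⟨a, b⟩ hab ⟨a', b'⟩ hab' h
    have h1 := (Finset.mem_filter.1 (Finset.mem_coe.1 hab)).2
    have h2 := (Finset.mem_filter.1 (Finset.mem_coe.1 hab')).2
    simp only at h h1 h2
    rw [h, h1, h2]
  have hAcard : ∀ q, (A q).card = (E.filter fun e => e.2 = q).card := fun q =>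
    Finset.card_image_of_injOn (hAinj q)
  have hsum : ∀ g : ℕ → ℕ → ℝ, ∑ e ∈ E, g e.1 e.2 = ∑ q ∈ Finset.range (s + 1), ∑ p ∈ A q, g p q := by
    intro g
    rw [← Finset.sum_fiberwise_of_maps_to (t := Finset.range (s + 1)) (g := Prod.snd)
      (fun e he => Finset.mem_range.2 (Nat.lt_succ_of_le (hEs e he)))]
    refine Finset.sum_congr rfl fun q _ => ?_
    rw [Finset.sum_image (hAinj q)]
    refine Finset.sum_congr rfl fun e he => ?_
    rw [(Finset.mem_filter.1 he).2]
  have hcardlt : ∀ J ≤ s, ∑ q ∈ Finset.range (J + 1), (A q).card =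
      (E.filter fun e => e.2 ≤ J).card := by
    intro J _
    rw [Finset.card_eq_sum_card_fiberwise (t := Finset.range (J + 1)) (f := Prod.snd)
      (fun e he => Finset.mem_coe.2 (Finset.mem_range.2 (Nat.lt_succ_of_le
        (Finset.mem_filter.1 (Finset.mem_coe.1 he)).2)))]
    refine Finset.sum_congr rfl fun q hq => ?_
    rw [hAcard, Finset.filter_filter]
    congr 1
    ext e
    rw [Finset.mem_filter, Finset.mem_filter]
    have := Finset.mem_range.1 hq
    constructor
    · rintro ⟨h1, h2⟩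
      exact ⟨h1, by omega, h2⟩
    · rintro ⟨h1, _, h2⟩
      exact ⟨h1, h2⟩
  have hcard : ∑ q ∈ Finset.range (s + 1), (A q).card = N := by
    rw [hcardlt s le_rfl, Finset.filter_true_of_mem hEs, hE]
  -- Abel summation of the critical weights
  have habel : ∀ J ≤ s, ∑ q ∈ Finset.range (J + 1), c q * (((A q).card : ℝ) - P q) ≥
      c J * ∑ q ∈ Finset.range (J + 1), (((A q).card : ℝ) - P q) := by
    intro J
    induction J with
    | zero =>
      intro _
      rw [Finset.sum_range_one, Finset.sum_range_one]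
    | succ J ih =>
      intro hJ
      rw [Finset.sum_range_succ _ (J + 1), Finset.sum_range_succ _ (J + 1), mul_add]
      have h1 := ih (by omega)
      have h2 : c J * ∑ q ∈ Finset.range (J + 1), (((A q).card : ℝ) - P q) ≥
          c (J + 1) * ∑ q ∈ Finset.range (J + 1), (((A q).card : ℝ) - P q) := by
        rcases hR J (by omega) with h3 | h3
        · rw [h3]
        · have h4 : ∑ q ∈ Finset.range (J + 1), (((A q).card : ℝ) - P q) ≤ 0 := by
            rw [Finset.sum_sub_distrib, ← Nat.cast_sum, ← Nat.cast_sum, hcardlt J (by omega),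
              sub_nonpos]
            exact_mod_cast (hER J (by omega)).trans h3
          exact mul_le_mul_of_nonpos_right (hc J (by omega)) h4
      linarith
  have hlast : ∑ q ∈ Finset.range (s + 1), c q * (((A q).card : ℝ) - P q) ≥ 0 := by
    have h1 := habel s le_rfl
    have h2 : ∑ q ∈ Finset.range (s + 1), (((A q).card : ℝ) - P q) = 0 := by
      rw [Finset.sum_sub_distrib, ← Nat.cast_sum, ← Nat.cast_sum, hcard, hN, sub_self]
    rw [h2, mul_zero] at h1
    exact h1
  rw [hsum fun p q => w * p + q]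
  have hrow : ∀ q ∈ Finset.range (s + 1),
      ∑ p ∈ Finset.range (P q), (w * p + q) + c q * (((A q).card : ℝ) - P q) ≤
        ∑ p ∈ A q, (w * p + q) := by
    intro q hq
    have hq' : q ≤ s := Nat.lt_succ_iff.1 (Finset.mem_range.1 hq)
    have h1 := sum_ge_initial w (c q - q) hw (P q) (fun p hp => by
      have := hP q hq' p hp
      linarith) (by have := hP' q hq'; linarith) (A q)
    have h2 : ∀ B : Finset ℕ, ∑ p ∈ B, (w * p - (c q - q)) =
        ∑ p ∈ B, (w * p + q) - c q * B.card := by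
      intro B
      rw [mul_comm, ← nsmul_eq_mul, ← Finset.sum_const, ← Finset.sum_sub_distrib]
      exact Finset.sum_congr rfl fun p _ => by ring
    rw [h2, h2, Finset.card_range] at h1
    linarith
  have := Finset.sum_le_sum hrow
  rw [Finset.sum_add_distrib] at this
  linarith

end Pool.Agent.Lib.SQF
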