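import Pool.Agent.Lib.SQF.PlaneB
import Pool.Agent.Lib.Sqf4.Sieg

/-!
# SQF, module Plane (MP_8842b2_nt, arch70 3.4 (b))

A stable finite set `C` of integral points in the plane, which contains many different rays,
lies on a line, on a nondegenerate conic (both with bounded integral coefficients), or the forms
of degree `b` have rank at least `3 b` on it (`plane_cases`).
-/

set_option autoImplicit false

namespace Pool.Agent.Lib.SQF.Plane

open Polynomial Module
open scoped Polynomial.Bivariate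

variable {α : Type*}

/-- no linear form vanishes on `C` -/
def NoLine (x : Fin 3 → α → ℚ) (C : Finset α) : Prop :=
  ∀ c : Fin 3 → ℚ, (∀ p ∈ C, ∑ i, c i * x i p = 0) → c = 0

/-- no quadratic form vanishes on `C` -/
def NoConic (x : Fin 3 → α → ℚ) (C : Finset α) : Prop :=
  ∀ q : Fin 3 → Fin 3 → ℚ, (∀ p ∈ C, ∑ i, ∑ j, q i j * x i p * x j p = 0) →
    ∀ i j, q i j + q j i = 0

lemma Phi_succ (x : Fin 3 → α → ℚ) {b : ℕ} {g : ℚ[X][Y]} (hg : g ∈ Pb b) (p : α) :
    Phi x (b + 1) g p = x 0 p * Phi x b g p := by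
  rw [Phi_apply, Phi_apply, Finset.mul_sum]
  have hsub : Eb b ⊆ Eb (b + 1) := by
    intro e he
    rw [mem_Eb] at he ⊢
    omega
  rw [← Finset.sum_subset hsub]
  · refine Finset.sum_congr rfl fun e he => ?_
    rw [mem_Eb] at he
    have h1 : b + 1 - e.1 - e.2 = (b - e.1 - e.2) + 1 := by omega
    rw [h1, pow_succ]
    ring
  · intro e _ he
    rw [mem_Eb] at he
    rw [hg e.1 e.2 (by omega), zero_mul]

lemma Eb_two : Eb 2 = {(0, 0), (1, 0), (0, 1), (2, 0), (1, 1), (0, 2)} := by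
  decide

lemma Kb_two {x : Fin 3 → α → ℚ} {C : Finset α} (hq : NoConic x C) : Kb x C 2 = ⊥ := by
  rw [Submodule.eq_bot_iff]
  intro g hg
  rw [mem_Kb] at hg
  obtain ⟨hg1, hg2⟩ := hg
  have h1 := hq ![![(g.coeff 0).coeff 0, 0, 0], ![(g.coeff 0).coeff 1, (g.coeff 0).coeff 2,
    (g.coeff 1).coeff 1], ![(g.coeff 1).coeff 0, 0, (g.coeff 2).coeff 0]] (by
    intro p hp
    have h2 := hg2 p hp
    rw [Phi_apply, Eb_two] at h2
    simp [Finset.sum_insert, Prod.ext_iff] at h2
    simp [Fin.sum_univ_three]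
    linarith)
  have h00 := h1 0 0
  have h10 := h1 1 0
  have h20 := h1 2 0
  have h11 := h1 1 1
  have h12 := h1 1 2
  have h22 := h1 2 2
  simp at h00 h10 h20 h11 h12 h22
  rw [eq_polyE hg1]
  unfold polyE
  rw [Eb_two]
  simp [h00, h10, h20, h11, h12, h22]

lemma Kb_le_two {x : Fin 3 → α → ℚ} {C : Finset α} (hq : NoConic x C) :
    ∀ b ≤ 2, Kb x C b = ⊥ := by
  have h2 := Kb_two hq
  have h1 : Kb x C 1 = ⊥ := by
    rw [Submodule.eq_bot_iff] at h2 ⊢
    intro g hg
    rw [mem_Kb] at hg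
    refine h2 g (mem_Kb.2 ⟨Pb_mono (by norm_num) hg.1, fun p hp => ?_⟩)
    rw [Phi_succ x hg.1, hg.2 p hp, mul_zero]
  have h0 : Kb x C 0 = ⊥ := by
    rw [Submodule.eq_bot_iff] at h1 ⊢
    intro g hg
    rw [mem_Kb] at hg
    refine h1 g (mem_Kb.2 ⟨Pb_mono (by norm_num) hg.1, fun p hp => ?_⟩)
    rw [Phi_succ x hg.1, hg.2 p hp, mul_zero]
  intro b hb
  interval_cases b
  · exact h0
  · exact h1
  · exact h2

lemma NoConic.perm {x : Fin 3 → α → ℚ} {C : Finset α} (hq : NoConic x C)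
    (σ : Equiv.Perm (Fin 3)) : NoConic (fun i => x (σ i)) C := by
  intro q h i j
  have h1 := hq (fun i j => q (σ.symm i) (σ.symm j)) (by
    intro p hp
    have h2 : ∑ i, ∑ j, q (σ.symm i) (σ.symm j) * x i p * x j p =
        ∑ i, ∑ j, q i j * x (σ i) p * x (σ j) p := by
      rw [← Equiv.sum_comp σ]
      refine Finset.sum_congr rfl fun i _ => ?_
      rw [← Equiv.sum_comp σ]
      refine Finset.sum_congr rfl fun j _ => ?_
      rw [Equiv.symm_apply_apply, Equiv.symm_apply_apply]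
    rw [h2]
    exact h p hp) (σ i) (σ j)
  simpa using h1

lemma VV_perm (x : Fin 3 → α → ℚ) (σ : Equiv.Perm (Fin 3)) :
    VV (fun i => x (σ i)) = VV x := by
  unfold VV
  congr 1
  exact σ.surjective.range_comp x

/-- stability used for one linear form -/
lemma lin_zero {x : Fin 3 → α → ℚ} {C : Finset α} {b₀ : ℕ} (hb : 1 ≤ b₀)
    (hst : Stab (Finset.range (b₀ + 1)) (fun b => VV x ^ b) C) (c : Fin 3 → ℚ)
    (h : C.card ≤ 10 * (C.filter (fun p => ∑ i, c i * x i p = 0)).card) :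
    ∀ p ∈ C, ∑ i, c i * x i p = 0 := by
  have h1 : (fun p => ∑ i, c i * x i p) ∈ VV x ^ 1 := by
    rw [pow_one]
    have h2 : (fun p => ∑ i, c i * x i p) = ∑ i, c i • x i := by
      funext p
      simp [Finset.sum_apply]
    rw [h2]
    exact Submodule.sum_mem _ fun i _ => Submodule.smul_mem _ _ (Submodule.subset_span ⟨i, rfl⟩)
  refine hst 1 (Finset.mem_range.2 (by omega)) _ h1 ?_
  refine h.trans (le_of_eq ?_)
  congr!

theorem rank_of_no (x : Fin 3 → α → ℚ) (C T : Finset α) (b₀ : ℕ)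
    (hst : Stab (Finset.range (b₀ + 1)) (fun b => VV x ^ b) C) (hTC : T ⊆ C)
    (hpt : ∀ p ∈ T, ∃ i, x i p ≠ 0)
    (hinj : ∀ p ∈ T, ∀ q ∈ T, (∀ i j, x i p * x j q = x j p * x i q) → p = q)
    (hcard : 3 * (b₀ * (2 * b₀ ^ 2 + b₀)) < T.card) (hq : NoConic x C) :
    ∀ b ≤ b₀, 3 * b ≤ rk (VV x ^ b) C := by
  classical
  rcases Nat.eq_zero_or_pos b₀ with hb0 | hb0
  · intro b hb
    have : b = 0 := by omega
    rw [this]
    simp
  obtain ⟨i, hi⟩ : ∃ i, T.card ≤ 3 * (T.filter (fun p => x i p ≠ 0)).card := by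
    by_contra hcon
    push Not at hcon
    have h1 : T ⊆ (T.filter (fun p => x 0 p ≠ 0) ∪ T.filter (fun p => x 1 p ≠ 0)) ∪
        T.filter (fun p => x 2 p ≠ 0) := by
      intro p hp
      obtain ⟨i, hi⟩ := hpt p hp
      simp only [Finset.mem_union, Finset.mem_filter]
      fin_cases i
      · exact Or.inl (Or.inl ⟨hp, hi⟩)
      · exact Or.inl (Or.inr ⟨hp, hi⟩)
      · exact Or.inr ⟨hp, hi⟩
    have h2 := Finset.card_le_card h1
    have h3 := Finset.card_union_le (T.filter (fun p => x 0 p ≠ 0) ∪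
      T.filter (fun p => x 1 p ≠ 0)) (T.filter (fun p => x 2 p ≠ 0))
    have h4 := Finset.card_union_le (T.filter (fun p => x 0 p ≠ 0))
      (T.filter (fun p => x 1 p ≠ 0))
    have h5 := hcon 0
    have h6 := hcon 1
    have h7 := hcon 2
    omega
  set σ : Equiv.Perm (Fin 3) := Equiv.swap 0 i with hσ
  have hσ0 : σ 0 = i := by rw [hσ, Equiv.swap_apply_left]
  have hV := VV_perm x σ
  have hmain := rank_main (fun i => x (σ i)) C (T.filter (fun p => x i p ≠ 0)) b₀
    (by rw [hV]; exact hst) ?_ ((Finset.filter_subset _ _).trans hTC) ?_ ?_ (by omega)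
    (Kb_le_two (hq.perm σ))
  · rwa [hV] at hmain
  · -- few points with `x i = 0`
    by_contra hcon
    push Not at hcon
    simp only [hσ0] at hcon
    have h1 := lin_zero hb0 hst (Pi.single i 1) (by
      simpa [Pi.single_apply] using hcon)
    obtain ⟨p, hp⟩ : (T.filter (fun p => x i p ≠ 0)).Nonempty := by
      rw [← Finset.card_pos]
      omega
    rw [Finset.mem_filter] at hp
    have h2 := h1 p (hTC hp.1)
    simp [Pi.single_apply] at h2
    exact hp.2 h2
  · intro p hp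
    simp only [hσ0]
    exact (Finset.mem_filter.1 hp).2
  · intro p hp q hq' h1 h2
    have hp' := Finset.mem_filter.1 hp
    have hq'' := Finset.mem_filter.1 hq'
    have hall : ∀ k, x (σ k) p / x i p = x (σ k) q / x i q := by
      intro k
      simp only [hσ0] at h1 h2
      fin_cases k
      · simp only [Fin.zero_eta, hσ0]
        rw [div_self hp'.2, div_self hq''.2]
      · exact h1
      · exact h2
    refine hinj p hp'.1 q hq''.1 fun k l => ?_
    have hk := hall (σ.symm k)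
    have hl := hall (σ.symm l)
    rw [Equiv.apply_symm_apply] at hk hl
    rw [div_eq_div_iff hp'.2 hq''.2] at hk hl
    have h3 : (x i p * x i q) * (x k p * x l q) = (x i p * x i q) * (x l p * x k q) := by
      linear_combination (x i p * x l q) * hk - (x i p * x k q) * hl
    exact mul_left_cancel₀ (mul_ne_zero hp'.2 hq''.2) h3

/-- a binary quadratic form which vanishes on `C` splits on `C` -/
lemma bin_split (C : Finset α) (Y1 Y2 : α → ℚ) (A B D : ℚ) (hne : A ≠ 0 ∨ B ≠ 0 ∨ D ≠ 0)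
    (h : ∀ p ∈ C, A * Y1 p ^ 2 + 2 * B * Y1 p * Y2 p + D * Y2 p ^ 2 = 0) :
    ∃ a1 a2 b1 b2 : ℚ, (a1 ≠ 0 ∨ a2 ≠ 0) ∧ (b1 ≠ 0 ∨ b2 ≠ 0) ∧
      ∀ p ∈ C, (a1 * Y1 p + a2 * Y2 p) * (b1 * Y1 p + b2 * Y2 p) = 0 := by
  by_cases hA : A = 0
  · refine ⟨2 * B, D, 0, 1, ?_, Or.inr one_ne_zero, fun p hp => ?_⟩
    · rcases hne with h1 | h1 | h1
      · exact absurd hA h1
      · exact Or.inl (mul_ne_zero two_ne_zero h1)
      · exact Or.inr h1
    · have := h p hp
      rw [hA] at this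
      linear_combination this
  · by_cases hs : IsSquare (B ^ 2 - A * D)
    · obtain ⟨s, hs⟩ := hs
      refine ⟨A, B - s, A, B + s, Or.inl hA, Or.inl hA, fun p hp => ?_⟩
      linear_combination A * h p hp + Y2 p ^ 2 * hs
    · refine ⟨0, 1, 0, 1, Or.inr one_ne_zero, Or.inr one_ne_zero, fun p hp => ?_⟩
      have h2 : Y2 p = 0 := by
        by_contra h3
        apply hs
        refine ⟨(A * Y1 p + B * Y2 p) / Y2 p, ?_⟩
        rw [div_mul_div_comm, eq_div_iff (mul_ne_zero h3 h3)]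
        linear_combination -A * h p hp
      rw [h2]
      ring

/-- a degenerate quadratic form which vanishes on `C` splits on `C` -/
lemma deg_split (C : Finset α) (X0 X1 X2 : α → ℚ) (m00 m01 m02 m11 m12 m22 v0 v1 v2 : ℚ)
    (hv : v0 ≠ 0) (e0 : m00 * v0 + m01 * v1 + m02 * v2 = 0)
    (e1 : m01 * v0 + m11 * v1 + m12 * v2 = 0) (e2 : m02 * v0 + m12 * v1 + m22 * v2 = 0)
    (hne : ¬ (m00 = 0 ∧ m01 = 0 ∧ m02 = 0 ∧ m11 = 0 ∧ m12 = 0 ∧ m22 = 0))
    (h : ∀ p ∈ C, m00 * X0 p ^ 2 + 2 * m01 * X0 p * X1 p + 2 * m02 * X0 p * X2 p +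
      m11 * X1 p ^ 2 + 2 * m12 * X1 p * X2 p + m22 * X2 p ^ 2 = 0) :
    ∃ c0 c1 c2 d0 d1 d2 : ℚ, (c1 ≠ 0 ∨ c2 ≠ 0) ∧ (d1 ≠ 0 ∨ d2 ≠ 0) ∧ ∀ p ∈ C,
      (c0 * X0 p + c1 * X1 p + c2 * X2 p) * (d0 * X0 p + d1 * X1 p + d2 * X2 p) = 0 := by
  have hne' : m11 ≠ 0 ∨ m12 ≠ 0 ∨ m22 ≠ 0 := by
    by_contra hcon
    push Not at hcon
    obtain ⟨h11, h12, h22⟩ := hcon
    rw [h11, h12] at e1
    rw [h12, h22] at e2
    have h01 : m01 = 0 := by
      have : m01 * v0 = 0 := by linarith
      exact (mul_eq_zero.1 this).resolve_right hv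
    have h02 : m02 = 0 := by
      have : m02 * v0 = 0 := by linarith
      exact (mul_eq_zero.1 this).resolve_right hv
    rw [h01, h02] at e0
    have h00 : m00 = 0 := by
      have : m00 * v0 = 0 := by linarith
      exact (mul_eq_zero.1 this).resolve_right hv
    exact hne ⟨h00, h01, h02, h11, h12, h22⟩
  obtain ⟨a1, a2, b1, b2, ha, hb, hab⟩ := bin_split C (fun p => v0 * X1 p - v1 * X0 p)
    (fun p => v0 * X2 p - v2 * X0 p) m11 m12 m22 hne' (by
      intro p hp
      linear_combination v0 ^ 2 * h p hp - (2 * v0 * X0 p * X0 p - X0 p ^ 2 * v0) * e0 -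
        (2 * v0 * X0 p * X1 p - X0 p ^ 2 * v1) * e1 - (2 * v0 * X0 p * X2 p - X0 p ^ 2 * v2) * e2)
  refine ⟨-(a1 * v1) - a2 * v2, a1 * v0, a2 * v0, -(b1 * v1) - b2 * v2, b1 * v0, b2 * v0, ?_, ?_,
    fun p hp => ?_⟩
  · rcases ha with h1 | h1
    · exact Or.inl (mul_ne_zero h1 hv)
    · exact Or.inr (mul_ne_zero h1 hv)
  · rcases hb with h1 | h1
    · exact Or.inl (mul_ne_zero h1 hv)
    · exact Or.inr (mul_ne_zero h1 hv)
  · linear_combination hab p hp

/-- on a stable set without a line a product of two linear forms does not vanish -/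
lemma no_prod {x : Fin 3 → α → ℚ} {C : Finset α} {b₀ : ℕ} (hb : 1 ≤ b₀)
    (hst : Stab (Finset.range (b₀ + 1)) (fun b => VV x ^ b) C) (hl : NoLine x C)
    (c d : Fin 3 → ℚ) (hc : c ≠ 0) (hd : d ≠ 0)
    (h : ∀ p ∈ C, (∑ i, c i * x i p) * (∑ i, d i * x i p) = 0) : False := by
  classical
  have h1 : C ⊆ C.filter (fun p => ∑ i, c i * x i p = 0) ∪
      C.filter (fun p => ∑ i, d i * x i p = 0) := by
    intro p hp
    rw [Finset.mem_union, Finset.mem_filter, Finset.mem_filter]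
    rcases mul_eq_zero.1 (h p hp) with h2 | h2
    · exact Or.inl ⟨hp, h2⟩
    · exact Or.inr ⟨hp, h2⟩
  have h2 := (Finset.card_le_card h1).trans (Finset.card_union_le _ _)
  rcases le_total (C.filter (fun p => ∑ i, c i * x i p = 0)).card
    (C.filter (fun p => ∑ i, d i * x i p = 0)).card with h3 | h3
  · exact hd (hl d (lin_zero hb hst d (by omega)))
  · exact hc (hl c (lin_zero hb hst c (by omega)))

/-- a common integral relation from a rational one -/
lemma int_rel {ι : Type} [Fintype ι] [DecidableEq ι] [Nonempty ι] (K : ℕ) (hK : 1 ≤ K)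
    (S : Set (ι → ℤ)) (hS : ∀ v ∈ S, ∀ j, |v j| ≤ K) (r : ι → ℚ) (hr : r ≠ 0)
    (h : ∀ v ∈ S, ∑ j, r j * (v j : ℚ) = 0) :
    ∃ g : ι → ℤ, g ≠ 0 ∧ (∀ j, |g j| ≤ ((Fintype.card ι * K : ℕ) : ℤ) ^ Fintype.card ι) ∧
      ∀ v ∈ S, ∑ j, g j * v j = 0 := by
  refine Sqf4.exists_rel K hK S hS fun v hv => ?_
  have h1 : ((Matrix.of v).map (Int.castRingHom ℚ)).det = 0 := by
    rw [← Matrix.exists_mulVec_eq_zero_iff]
    refine ⟨r, hr, ?_⟩
    funext i
    have h2 := h (v i) (hv i)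
    simp only [Matrix.mulVec, dotProduct, Matrix.map_apply, Matrix.of_apply, eq_intCast,
      Pi.zero_apply]
    rw [← h2]
    exact Finset.sum_congr rfl fun j _ => mul_comm _ _
  rw [← RingHom.mapMatrix_apply, ← RingHom.map_det] at h1
  exact (map_eq_zero_iff (Int.castRingHom ℚ) Int.cast_injective).1 h1

/-- the six monomials of degree two -/
def six (x : Fin 3 → α → ℤ) (p : α) : Fin 6 → ℤ :=
  ![x 0 p * x 0 p, x 0 p * x 1 p, x 0 p * x 2 p, x 1 p * x 1 p, x 1 p * x 2 p, x 2 p * x 2 p]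

/-- the conic case -/
theorem conic_core (x : Fin 3 → α → ℤ) (C : Finset α) (b₀ H : ℕ) (hb : 1 ≤ b₀)
    (hH1 : 1 ≤ H) (hH : ∀ i, ∀ p ∈ C, |x i p| ≤ H)
    (hst : Stab (Finset.range (b₀ + 1)) (fun b => VV (fun i p => (x i p : ℚ)) ^ b) C)
    (hl : NoLine (fun i p => (x i p : ℚ)) C) (hq : ¬ NoConic (fun i p => (x i p : ℚ)) C) :
    ∃ M : Matrix (Fin 3) (Fin 3) ℤ, M.IsSymm ∧ M.det ≠ 0 ∧
      (∀ i j, |M i j| ≤ 2 * (6 * H ^ 2 : ℕ) ^ 6) ∧
      ∀ p ∈ C, ∑ i, ∑ j, M i j * x i p * x j p = 0 := by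
  classical
  set y : Fin 3 → α → ℚ := fun i p => (x i p : ℚ) with hy
  unfold NoConic at hq
  push Not at hq
  obtain ⟨q, hq1, i₀, j₀, hq0⟩ := hq
  -- the rational relation between the six monomials
  set r : Fin 6 → ℚ := ![q 0 0, q 0 1 + q 1 0, q 0 2 + q 2 0, q 1 1, q 1 2 + q 2 1, q 2 2] with hr
  have hr0 : r ≠ 0 := by
    intro h
    have e0 := congrFun h 0
    have e1 := congrFun h 1
    have e2 := congrFun h 2
    have e3 := congrFun h 3
    have e4 := congrFun h 4
    have e5 := congrFun h 5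
    simp [hr] at e0 e1 e2 e3 e4 e5
    apply hq0
    fin_cases i₀ <;> fin_cases j₀ <;> simp <;> linarith
  obtain ⟨g, hg0, hgb, hg⟩ := int_rel (H ^ 2) (Nat.one_le_pow _ _ hH1)
    {v : Fin 6 → ℤ | ∃ p ∈ C, v = six x p} (by
      rintro v ⟨p, hp, rfl⟩ j
      have h1 : ∀ i k, |x i p * x k p| ≤ ((H ^ 2 : ℕ) : ℤ) := by
        intro i k
        rw [abs_mul]
        push_cast
        rw [sq]
        exact mul_le_mul (hH i p hp) (hH k p hp) (abs_nonneg _) (by positivity)
      fin_cases j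
      · exact h1 0 0
      · exact h1 0 1
      · exact h1 0 2
      · exact h1 1 1
      · exact h1 1 2
      · exact h1 2 2) r hr0 (by
      rintro v ⟨p, hp, rfl⟩
      have h1 := hq1 p hp
      simp only [hy, Fin.sum_univ_three] at h1
      rw [Fin.sum_univ_six]
      simp [hr, six]
      linear_combination h1)
  have hgb' : ∀ j, |g j| ≤ ((6 * H ^ 2 : ℕ) : ℤ) ^ 6 := fun j => by simpa using hgb j
  have hgC : ∀ p ∈ C, g 0 * (x 0 p * x 0 p) + g 1 * (x 0 p * x 1 p) + g 2 * (x 0 p * x 2 p) +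
      g 3 * (x 1 p * x 1 p) + g 4 * (x 1 p * x 2 p) + g 5 * (x 2 p * x 2 p) = 0 := by
    intro p hp
    have h1 := hg (six x p) ⟨p, hp, rfl⟩
    rw [Fin.sum_univ_six] at h1
    simpa [six] using h1
  refine ⟨!![2 * g 0, g 1, g 2; g 1, 2 * g 3, g 4; g 2, g 4, 2 * g 5], ?_, ?_, ?_, ?_⟩
  · ext i j
    fin_cases i <;> fin_cases j <;> rfl
  · -- nondegenerate
    intro hdet
    have hdet' : ((!![2 * g 0, g 1, g 2; g 1, 2 * g 3, g 4; g 2, g 4, 2 * g 5] :
        Matrix (Fin 3) (Fin 3) ℤ).map (Int.castRingHom ℚ)).det = 0 := by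
      rw [← RingHom.mapMatrix_apply, ← RingHom.map_det, hdet, map_zero]
    rw [← Matrix.exists_mulVec_eq_zero_iff] at hdet'
    obtain ⟨v, hv0, hv⟩ := hdet'
    have e0 := congrFun hv 0
    have e1 := congrFun hv 1
    have e2 := congrFun hv 2
    simp [Matrix.mulVec, dotProduct, Fin.sum_univ_three] at e0 e1 e2
    have hg0' : ¬ ((2 * (g 0 : ℚ) = 0) ∧ (g 1 : ℚ) = 0 ∧ (g 2 : ℚ) = 0 ∧ 2 * (g 3 : ℚ) = 0 ∧
        (g 4 : ℚ) = 0 ∧ 2 * (g 5 : ℚ) = 0) := by
      rintro ⟨a0, a1, a2, a3, a4, a5⟩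
      apply hg0
      have b0 : (g 0 : ℚ) = 0 := by linarith
      have b3 : (g 3 : ℚ) = 0 := by linarith
      have b5 : (g 5 : ℚ) = 0 := by linarith
      funext j
      fin_cases j
      · exact_mod_cast b0
      · exact_mod_cast a1
      · exact_mod_cast a2
      · exact_mod_cast b3
      · exact_mod_cast a4
      · exact_mod_cast b5
    have hgQ : ∀ p ∈ C, 2 * (g 0 : ℚ) * y 0 p ^ 2 + 2 * (g 1 : ℚ) * y 0 p * y 1 p +
        2 * (g 2 : ℚ) * y 0 p * y 2 p + 2 * (g 3 : ℚ) * y 1 p ^ 2 +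
        2 * (g 4 : ℚ) * y 1 p * y 2 p + 2 * (g 5 : ℚ) * y 2 p ^ 2 = 0 := by
      intro p hp
      have h1 : (g 0 * (x 0 p * x 0 p) + g 1 * (x 0 p * x 1 p) + g 2 * (x 0 p * x 2 p) +
        g 3 * (x 1 p * x 1 p) + g 4 * (x 1 p * x 2 p) + g 5 * (x 2 p * x 2 p) : ℚ) = 0 := by
        exact_mod_cast hgC p hp
      simp only [hy]
      linear_combination 2 * h1
    obtain ⟨k, hk⟩ : ∃ k, v k ≠ 0 := by
      by_contra hcon
      push Not at hcon
      exact hv0 (funext hcon)
    have hfin : ∃ c d : Fin 3 → ℚ, c ≠ 0 ∧ d ≠ 0 ∧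
        ∀ p ∈ C, (∑ i, c i * y i p) * (∑ i, d i * y i p) = 0 := by
      fin_cases k
      · obtain ⟨c0, c1, c2, d0, d1, d2, hc, hd, hcd⟩ := deg_split C (y 0) (y 1) (y 2)
          (2 * g 0) (g 1) (g 2) (2 * g 3) (g 4) (2 * g 5) (v 0) (v 1) (v 2) hk
          (by linear_combination e0) (by linear_combination e1) (by linear_combination e2)
          hg0' (fun p hp => by linear_combination hgQ p hp)
        refine ⟨![c0, c1, c2], ![d0, d1, d2], ?_, ?_, fun p hp => ?_⟩
        · intro h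
          have a1 := congrFun h 1
          have a2 := congrFun h 2
          simp at a1 a2
          rcases hc with hc | hc
          · exact hc a1
          · exact hc a2
        · intro h
          have a1 := congrFun h 1
          have a2 := congrFun h 2
          simp at a1 a2
          rcases hd with hd | hd
          · exact hd a1
          · exact hd a2
        · rw [Fin.sum_univ_three, Fin.sum_univ_three]
          simpa using hcd p hp
      · obtain ⟨c0, c1, c2, d0, d1, d2, hc, hd, hcd⟩ := deg_split C (y 1) (y 0) (y 2)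
          (2 * g 3) (g 1) (g 4) (2 * g 0) (g 2) (2 * g 5) (v 1) (v 0) (v 2) hk
          (by linear_combination e1) (by linear_combination e0) (by linear_combination e2)
          (by tauto) (fun p hp => by linear_combination hgQ p hp)
        refine ⟨![c1, c0, c2], ![d1, d0, d2], ?_, ?_, fun p hp => ?_⟩
        · intro h
          have a1 := congrFun h 0
          have a2 := congrFun h 2
          simp at a1 a2
          rcases hc with hc | hc
          · exact hc a1
          · exact hc a2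
        · intro h
          have a1 := congrFun h 0
          have a2 := congrFun h 2
          simp at a1 a2
          rcases hd with hd | hd
          · exact hd a1
          · exact hd a2
        · rw [Fin.sum_univ_three, Fin.sum_univ_three]
          have := hcd p hp
          simp
          rcases mul_eq_zero.1 this with h1 | h1
          · left; linarith
          · right; linarith
      · obtain ⟨c0, c1, c2, d0, d1, d2, hc, hd, hcd⟩ := deg_split C (y 2) (y 0) (y 1)
          (2 * g 5) (g 2) (g 4) (2 * g 0) (g 1) (2 * g 3) (v 2) (v 0) (v 1) hk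
          (by linear_combination e2) (by linear_combination e0) (by linear_combination e1)
          (by tauto) (fun p hp => by linear_combination hgQ p hp)
        refine ⟨![c1, c2, c0], ![d1, d2, d0], ?_, ?_, fun p hp => ?_⟩
        · intro h
          have a1 := congrFun h 0
          have a2 := congrFun h 1
          simp at a1 a2
          rcases hc with hc | hc
          · exact hc a1
          · exact hc a2
        · intro h
          have a1 := congrFun h 0
          have a2 := congrFun h 1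
          simp at a1 a2
          rcases hd with hd | hd
          · exact hd a1
          · exact hd a2
        · rw [Fin.sum_univ_three, Fin.sum_univ_three]
          have := hcd p hp
          simp
          rcases mul_eq_zero.1 this with h1 | h1
          · left; linarith
          · right; linarith
    obtain ⟨c, d, hc, hd, hcd⟩ := hfin
    exact no_prod (by omega) hst hl c d hc hd hcd
  · intro i j
    have h1 : ∀ j, |g j| ≤ 2 * ((6 * H ^ 2 : ℕ) : ℤ) ^ 6 := fun j => by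
      have := hgb' j
      have h2 : (0 : ℤ) ≤ ((6 * H ^ 2 : ℕ) : ℤ) ^ 6 := by positivity
      linarith
    have h2 : ∀ j, |2 * g j| ≤ 2 * ((6 * H ^ 2 : ℕ) : ℤ) ^ 6 := fun j => by
      rw [abs_mul]
      have := hgb' j
      simp only [abs_two]
      linarith
    fin_cases i <;> fin_cases j
    · exact h2 0
    · exact h1 1
    · exact h1 2
    · exact h1 1
    · exact h2 3
    · exact h1 4
    · exact h1 2
    · exact h1 4
    · exact h2 5
  · intro p hp
    have h1 := hgC p hp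
    simp only [Fin.sum_univ_three]
    simp
    linear_combination 2 * h1


/-- **the three cases of a stable set in the plane** -/
theorem plane_cases (x : Fin 3 → α → ℤ) (C T : Finset α) (b₀ H : ℕ) (hb : 2 ≤ b₀)
    (hH1 : 1 ≤ H) (hH : ∀ i, ∀ p ∈ C, |x i p| ≤ H)
    (hst : Stab (Finset.range (b₀ + 1)) (fun b => VV (fun i p => (x i p : ℚ)) ^ b) C)
    (hTC : T ⊆ C) (hpt : ∀ p ∈ T, ∃ i, x i p ≠ 0)
    (hinj : ∀ p ∈ T, ∀ q ∈ T, (∀ i j, x i p * x j q = x j p * x i q) → p = q)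
    (hcard : 3 * (b₀ * (2 * b₀ ^ 2 + b₀)) < T.card) :
    (∃ c : Fin 3 → ℤ, c ≠ 0 ∧ (∀ i, |c i| ≤ (3 * H : ℕ) ^ 3) ∧
      ∀ p ∈ C, ∑ i, c i * x i p = 0) ∨
    (∃ M : Matrix (Fin 3) (Fin 3) ℤ, M.IsSymm ∧ M.det ≠ 0 ∧
      (∀ i j, |M i j| ≤ 2 * (6 * H ^ 2 : ℕ) ^ 6) ∧
      ∀ p ∈ C, ∑ i, ∑ j, M i j * x i p * x j p = 0) ∨
    ∀ b ≤ b₀, 3 * b ≤ rk (VV (fun i p => (x i p : ℚ)) ^ b) C := by
  classical
  set y : Fin 3 → α → ℚ := fun i p => (x i p : ℚ) with hy
  by_cases hl : NoLine y C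
  swap
  · -- a line
    left
    unfold NoLine at hl
    push Not at hl
    obtain ⟨r, hr, hr0⟩ := hl
    obtain ⟨g, hg0, hgb, hg⟩ := int_rel H hH1 {v : Fin 3 → ℤ | ∃ p ∈ C, v = fun i => x i p}
      (by
        rintro v ⟨p, hp, rfl⟩ j
        exact hH j p hp) r hr0 (by
        rintro v ⟨p, hp, rfl⟩
        exact hr p hp)
    refine ⟨g, hg0, fun i => ?_, fun p hp => hg _ ⟨p, hp, rfl⟩⟩
    simpa using hgb i
  right
  by_cases hq : NoConic y C
  · right
    refine rank_of_no y C T b₀ hst hTC (fun p hp => ?_) (fun p hp q hq' h => ?_) hcard hq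
    · obtain ⟨i, hi⟩ := hpt p hp
      exact ⟨i, by simpa [hy] using hi⟩
    · refine hinj p hp q hq' fun i j => ?_
      have := h i j
      simp only [hy] at this
      exact_mod_cast this
  exact Or.inl (conic_core x C b₀ H (by omega) hH1 hH hst hl hq)

end Pool.Agent.Lib.SQF.Plane
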