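import Pool.Agent.Lib.SQF.Bez

/-!
# SQF, module Plane, part A: polynomials in two variables of bounded total degree

`Pb b` is the space of the polynomials `g : ℚ[X][Y]` of total degree at most `b`; `td g` is the
total degree (the degree in `Z` of `g (X Z, Y Z)`), `td_mul`; `two_finrank_Pb`: the dimension.
-/

set_option autoImplicit false

namespace Pool.Agent.Lib.SQF.Plane

open Polynomial Module
open scoped Polynomial.Bivariate

/-- the polynomials of total degree at most `b` -/
def Pb (b : ℕ) : Submodule ℚ ℚ[X][Y] where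
  carrier := {g | ∀ i j, b < i + j → (g.coeff j).coeff i = 0}
  add_mem' := by
    intro g h hg hh i j hij
    rw [coeff_add, coeff_add, hg i j hij, hh i j hij, add_zero]
  zero_mem' := by
    intro i j _
    simp
  smul_mem' := by
    intro c g hg i j hij
    rw [coeff_smul, coeff_smul, hg i j hij, smul_zero]

lemma mem_Pb {b : ℕ} {g : ℚ[X][Y]} : g ∈ Pb b ↔ ∀ i j, b < i + j → (g.coeff j).coeff i = 0 :=
  Iff.rfl

lemma Pb_mono {a b : ℕ} (h : a ≤ b) : Pb a ≤ Pb b := fun _ hg i j hij =>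
  hg i j (lt_of_le_of_lt h hij)

/-- the exponents of total degree at most `b` -/
def Eb (b : ℕ) : Finset (ℕ × ℕ) :=
  (Finset.range (b + 1) ×ˢ Finset.range (b + 1)).filter (fun e => e.1 + e.2 ≤ b)

lemma mem_Eb {b : ℕ} {e : ℕ × ℕ} : e ∈ Eb b ↔ e.1 + e.2 ≤ b := by
  unfold Eb
  rw [Finset.mem_filter, Finset.mem_product, Finset.mem_range, Finset.mem_range]
  omega

lemma two_card_Eb (b : ℕ) : 2 * (Eb b).card = (b + 1) * (b + 2) := by
  induction b with
  | zero => rfl
  | succ b ih =>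
    have h1 : Eb (b + 1) = Eb b ∪ Finset.HasAntidiagonal.antidiagonal (b + 1) := by
      ext e
      rw [Finset.mem_union, mem_Eb, mem_Eb, Finset.HasAntidiagonal.mem_antidiagonal]
      omega
    have h2 : Disjoint (Eb b) (Finset.HasAntidiagonal.antidiagonal (b + 1)) := by
      rw [Finset.disjoint_left]
      intro e he he'
      rw [mem_Eb] at he
      rw [Finset.HasAntidiagonal.mem_antidiagonal] at he'
      omega
    rw [h1, Finset.card_union_of_disjoint h2, Finset.Nat.card_antidiagonal, mul_add, ih]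
    ring

/-- a polynomial with given coefficients -/
noncomputable def polyE (b : ℕ) (c : ℕ × ℕ → ℚ) : ℚ[X][Y] :=
  ∑ e ∈ Eb b, monomial e.2 (monomial e.1 (c e))

lemma coeff_polyE (b : ℕ) (c : ℕ × ℕ → ℚ) (i j : ℕ) :
    ((polyE b c).coeff j).coeff i = if (i, j) ∈ Eb b then c (i, j) else 0 := by
  unfold polyE
  rw [finsetSum_coeff, finsetSum_coeff]
  have h1 : ∀ e ∈ Eb b, ((monomial e.2 (monomial e.1 (c e)) : ℚ[X][Y]).coeff j).coeff i =
      if e = (i, j) then c e else 0 := by
    intro e _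
    rw [coeff_monomial]
    by_cases h2 : e.2 = j
    · rw [if_pos h2, coeff_monomial]
      by_cases h3 : e.1 = i
      · rw [if_pos h3, if_pos (Prod.ext h3 h2)]
      · rw [if_neg h3, if_neg]
        intro h
        exact h3 (congrArg Prod.fst h)
    · rw [if_neg h2, coeff_zero, if_neg]
      intro h
      exact h2 (congrArg Prod.snd h)
  rw [Finset.sum_congr rfl h1, Finset.sum_ite_eq']

lemma polyE_mem (b : ℕ) (c : ℕ × ℕ → ℚ) : polyE b c ∈ Pb b := by
  intro i j hij
  rw [coeff_polyE, if_neg]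
  rw [mem_Eb]
  simp only
  omega

lemma eq_polyE {b : ℕ} {g : ℚ[X][Y]} (hg : g ∈ Pb b) :
    g = polyE b (fun e => (g.coeff e.2).coeff e.1) := by
  ext j i
  rw [coeff_polyE]
  by_cases h : (i, j) ∈ Eb b
  · rw [if_pos h]
  · rw [if_neg h]
    apply hg
    rw [mem_Eb] at h
    simp only at h
    omega

/-- the coefficients -/
noncomputable def coefE (b : ℕ) : Pb b →ₗ[ℚ] (Eb b → ℚ) where
  toFun g e := (g.1.coeff e.1.2).coeff e.1.1
  map_add' := by
    intro g h
    funext e
    simp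
  map_smul' := by
    intro c g
    funext e
    simp

lemma coefE_bij (b : ℕ) : Function.Bijective (coefE b) := by
  classical
  constructor
  · rw [injective_iff_map_eq_zero]
    intro g hg
    apply Subtype.ext
    ext j i
    by_cases h : (i, j) ∈ Eb b
    · exact congrFun hg ⟨(i, j), h⟩
    · rw [mem_Eb] at h
      simp only at h
      have := g.2 i j (by omega)
      rw [this]
      simp
  · intro c
    refine ⟨⟨polyE b (fun e => if h : e ∈ Eb b then c ⟨e, h⟩ else 0), polyE_mem _ _⟩, ?_⟩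
    funext e
    have h1 : (coefE b ⟨polyE b (fun e => if h : e ∈ Eb b then c ⟨e, h⟩ else 0),
        polyE_mem _ _⟩) e = ((polyE b (fun e => if h : e ∈ Eb b then c ⟨e, h⟩ else 0)).coeff
          e.1.2).coeff e.1.1 := rfl
    rw [h1, coeff_polyE, if_pos e.2, dif_pos e.2]

lemma finite_Pb (b : ℕ) : Module.Finite ℚ (Pb b) :=
  Module.Finite.equiv (LinearEquiv.ofBijective (coefE b) (coefE_bij b)).symm

lemma fg_Pb (b : ℕ) : (Pb b).FG := Module.Finite.iff_fg.1 (finite_Pb b)

lemma two_finrank_Pb (b : ℕ) : 2 * finrank ℚ (Pb b) = (b + 1) * (b + 2) := by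
  rw [(LinearEquiv.ofBijective (coefE b) (coefE_bij b)).finrank_eq, finrank_fintype_fun_eq_card,
    Fintype.card_coe, two_card_Eb]

/-- `g (X Z, Y Z)` as a polynomial in `Z` -/
noncomputable def thZ : ℚ[X][Y] →+* ℚ[X][Y][X] :=
  eval₂RingHom (S := ℚ[X][Y][X]) (eval₂RingHom (S := ℚ[X][Y][X])
    ((C : ℚ[X][Y] →+* ℚ[X][Y][X]).comp ((C : ℚ[X] →+* ℚ[X][Y]).comp (C : ℚ →+* ℚ[X])))
    (C (C (X : ℚ[X]) : ℚ[X][Y]) * (X : ℚ[X][Y][X]))) (C (X : ℚ[X][Y]) * (X : ℚ[X][Y][X]))

lemma thZ_monomial (i j : ℕ) (a : ℚ) :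
    thZ (monomial j (monomial i a)) = monomial (i + j) (monomial j (monomial i a)) := by
  have h1 : thZ (monomial j (monomial i a)) =
      C (C (C a) : ℚ[X][Y]) * (C (C (X : ℚ[X]) : ℚ[X][Y]) * (X : ℚ[X][Y][X])) ^ i *
        (C (X : ℚ[X][Y]) * (X : ℚ[X][Y][X])) ^ j := by
    unfold thZ
    simp [eval₂_monomial]
  have h2 : (monomial (i + j) (monomial j (monomial i a)) : ℚ[X][Y][X]) =
      C (C (C a * X ^ i) * X ^ j : ℚ[X][Y]) * X ^ (i + j) := by
    rw [C_mul_X_pow_eq_monomial, C_mul_X_pow_eq_monomial, C_mul_X_pow_eq_monomial]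
  rw [h1, h2]
  simp only [map_mul, map_pow]
  ring

lemma coeff_thZ (g : ℚ[X][Y]) (m i j : ℕ) :
    (((thZ g).coeff m).coeff j).coeff i = if i + j = m then (g.coeff j).coeff i else 0 := by
  induction g using Polynomial.induction_on' with
  | add p q hp hq =>
    rw [map_add, coeff_add, coeff_add, coeff_add, hp, hq, coeff_add, coeff_add]
    split_ifs <;> simp
  | monomial n a =>
    induction a using Polynomial.induction_on' with
    | add p q hp hq =>
      rw [map_add, map_add, coeff_add, coeff_add, coeff_add, hp, hq, coeff_add, coeff_add]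
      split_ifs <;> simp
    | monomial k r =>
      rw [thZ_monomial]
      simp only [coeff_monomial]
      by_cases h1 : k = i <;> by_cases h2 : n = j <;> by_cases h3 : k + n = m <;>
        by_cases h4 : i + j = m <;> simp_all [coeff_monomial]

/-- the total degree -/
noncomputable def td (g : ℚ[X][Y]) : ℕ := (thZ g).natDegree

lemma td_le_iff {g : ℚ[X][Y]} {b : ℕ} : td g ≤ b ↔ g ∈ Pb b := by
  unfold td
  rw [natDegree_le_iff_coeff_eq_zero]
  constructor
  · intro h i j hij
    have h1 := congrArg (fun z : ℚ[X][Y] => (z.coeff j).coeff i) (h (i + j) hij)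
    simp only [coeff_thZ, if_true, coeff_zero] at h1
    exact h1
  · intro h m hm
    ext j i
    rw [coeff_thZ]
    split_ifs with h1
    · rw [h i j (by omega)]
      simp
    · simp

lemma thZ_injective : Function.Injective thZ := by
  rw [injective_iff_map_eq_zero]
  intro g hg
  ext j i
  have h1 := congrArg (fun z : ℚ[X][Y][X] => ((z.coeff (i + j)).coeff j).coeff i) hg
  simp only [coeff_thZ, if_true, coeff_zero] at h1
  rw [h1]
  simp

lemma td_mul {g h : ℚ[X][Y]} (hg : g ≠ 0) (hh : h ≠ 0) : td (g * h) = td g + td h := by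
  unfold td
  rw [map_mul, natDegree_mul]
  · exact (map_ne_zero_iff thZ thZ_injective).2 hg
  · exact (map_ne_zero_iff thZ thZ_injective).2 hh

lemma eq_C_of_td_eq_zero {g : ℚ[X][Y]} (h : td g = 0) : g = C (C ((g.coeff 0).coeff 0)) := by
  have h1 : g ∈ Pb 0 := td_le_iff.1 h.le
  ext j i
  rw [coeff_C]
  split_ifs with h2
  · rw [coeff_C]
    split_ifs with h3
    · rw [h2, h3]
    · exact h1 i j (by omega)
  · rw [coeff_zero]
    exact h1 i j (by omega)

lemma isUnit_of_td_eq_zero {g : ℚ[X][Y]} (h : td g = 0) (h0 : g ≠ 0) : IsUnit g := by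
  rw [eq_C_of_td_eq_zero h]
  have h1 : (g.coeff 0).coeff 0 ≠ 0 := by
    intro h2
    apply h0
    rw [eq_C_of_td_eq_zero h, h2]
    simp
  exact ((isUnit_iff_ne_zero.2 h1).map C).map C

lemma td_eq_zero_of_isUnit {g : ℚ[X][Y]} (h : IsUnit g) : td g = 0 := by
  unfold td
  exact natDegree_eq_zero_of_isUnit (h.map thZ)

lemma natDegree_le_of_mem {b : ℕ} {g : ℚ[X][Y]} (h : g ∈ Pb b) : g.natDegree ≤ b := by
  rw [natDegree_le_iff_coeff_eq_zero]
  intro j hj
  ext i
  rw [h i j (by omega)]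
  simp

lemma degT_le_of_mem {b : ℕ} {g : ℚ[X][Y]} (h : g ∈ Pb b) : Bez.degT g ≤ b := by
  rw [Bez.degT_le_iff]
  intro j
  rw [natDegree_le_iff_coeff_eq_zero]
  intro i hi
  exact h i j (by omega)

/-- the value at a point -/
lemma evalEval_of_mem {b : ℕ} {g : ℚ[X][Y]} (h : g ∈ Pb b) (t n : ℚ) :
    g.evalEval t n = ∑ e ∈ Eb b, (g.coeff e.2).coeff e.1 * (t ^ e.1 * n ^ e.2) := by
  conv_lhs => rw [eq_polyE h]
  unfold polyE
  rw [← coe_evalEvalRingHom, map_sum]
  refine Finset.sum_congr rfl fun e _ => ?_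
  rw [coe_evalEvalRingHom, evalEval, eval_monomial, eval_mul, eval_monomial]
  simp
  ring

end Pool.Agent.Lib.SQF.Plane
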