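import Mathlib

set_option autoImplicit false

/-!
# Stable clusters (MP_8842b2_nt, arch70 3.2, 3.3)

Linear algebra of spaces of functions on a finite set of points.

* `rs C` : restriction of functions to the finite set `C`; `rk F C` : the rank of `F` on `C`.
* `Stab J F C` : every `f ∈ F j`, `j ∈ J`, which vanishes on at least a tenth of `C` vanishes on `C`.
* `exists_stab` : every finite set `C` has a stable subset `C'` with
  `|C| ≤ 10 ^ (sum of the ranks) * |C'|`.
* `rk_mul` : on a stable set `rk U + rk V ≤ rk (U * V) + 1`.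
-/

namespace Pool.Agent.Lib.SQF

open Module

variable {K : Type*} [Field K]

/-- restriction of functions to the finite set `C` -/
def rs {α : Type*} (C : Finset α) : (α → K) →ₗ[K] (C → K) :=
  LinearMap.funLeft K K (fun x : C => (x : α))

theorem rs_apply {α : Type*} (C : Finset α) (f : α → K) (x : C) : rs C f x = f x := rfl

theorem rs_eq_zero {α : Type*} (C : Finset α) (f : α → K) :
    rs C f = 0 ↔ ∀ x ∈ C, f x = 0 := by
  constructor
  · intro h x hx
    exact congrFun h ⟨x, hx⟩
  · intro h
    funext x
    exact h x x.2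

/-- the rank of the space of functions `F` on `C` -/
noncomputable def rk {α : Type*} (F : Submodule K (α → K)) (C : Finset α) : ℕ :=
  finrank K (F.map (rs C))

/-- stability: a function of one of the spaces that vanishes on a tenth of `C` vanishes on `C` -/
def Stab {α ι : Type*} (J : Finset ι) (F : ι → Submodule K (α → K)) (C : Finset α) : Prop :=
  open Classical in
  ∀ j ∈ J, ∀ f ∈ F j, C.card ≤ 10 * (C.filter (fun x => f x = 0)).card → ∀ x ∈ C, f x = 0

/-- restriction from `C` to a subset -/
private def rsub {α : Type*} {C D : Finset α} (h : D ⊆ C) : (C → K) →ₗ[K] (D → K) :=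
  LinearMap.funLeft K K (fun x : D => (⟨x, h x.2⟩ : C))

private theorem map_rsub {α : Type*} {C D : Finset α} (h : D ⊆ C) (F : Submodule K (α → K)) :
    F.map (rs D) = (F.map (rs C)).map (rsub h) := by
  rw [← Submodule.map_comp]
  rfl

theorem rk_mono {α : Type*} {C D : Finset α} (h : D ⊆ C) (F : Submodule K (α → K)) :
    rk F D ≤ rk F C := by
  unfold rk
  rw [map_rsub h]
  exact Submodule.finrank_map_le _ _

private theorem rk_lt {α : Type*} {C D : Finset α} (h : D ⊆ C) (F : Submodule K (α → K))
    (f : α → K) (hf : f ∈ F) (h0 : ∀ x ∈ D, f x = 0) (x : α) (hx : x ∈ C) (h1 : f x ≠ 0) :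
    rk F D < rk F C := by
  unfold rk
  rw [map_rsub h]
  have h2 := LinearMap.finrank_range_add_finrank_ker ((rsub h).domRestrict (F.map (rs C)))
  rw [LinearMap.range_domRestrict] at h2
  have h3 : 0 < finrank K (LinearMap.ker ((rsub h).domRestrict (F.map (rs C)))) := by
    have h5 : (⟨rs C f, Submodule.mem_map_of_mem hf⟩ : F.map (rs C)) ∈
        LinearMap.ker ((rsub h).domRestrict (F.map (rs C))) := by
      rw [LinearMap.mem_ker]
      funext y
      exact h0 y y.2
    have h6 : Nontrivial (LinearMap.ker ((rsub h).domRestrict (F.map (rs C)))) := by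
      refine ⟨⟨⟨rs C f, Submodule.mem_map_of_mem hf⟩, h5⟩, 0, ?_⟩
      intro hh
      apply h1
      have h4 : rs C f = 0 := congrArg
        (fun z : LinearMap.ker ((rsub h).domRestrict (F.map (rs C))) =>
          ((z : F.map (rs C)) : C → K)) hh
      exact (rs_eq_zero C f).mp h4 x hx
    exact Module.finrank_pos (R := K)
      (M := LinearMap.ker ((rsub h).domRestrict (F.map (rs C))))
  omega

/-- every finite set of points has a large stable subset -/
theorem exists_stab {α ι : Type*} (J : Finset ι) (F : ι → Submodule K (α → K)) (C : Finset α) :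
    ∃ C' : Finset α, C' ⊆ C ∧ C.card ≤ 10 ^ (∑ j ∈ J, rk (F j) C) * C'.card ∧ Stab J F C' := by
  classical
  suffices H : ∀ m : ℕ, ∀ C : Finset α, ∑ j ∈ J, rk (F j) C = m →
      ∃ C' : Finset α, C' ⊆ C ∧ C.card ≤ 10 ^ (∑ j ∈ J, rk (F j) C) * C'.card ∧ Stab J F C' from
    H _ C rfl
  intro m
  induction m using Nat.strong_induction_on with
  | _ m ih =>
    intro C hC
    by_cases hst : Stab J F C
    · exact ⟨C, subset_rfl, Nat.le_mul_of_pos_left _ (by positivity), hst⟩
    · unfold Stab at hst
      push Not at hst
      obtain ⟨j, hj, f, hf, hcard, x, hx, hfx⟩ := hst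
      set D := C.filter (fun x => f x = 0) with hD
      have hDC : D ⊆ C := Finset.filter_subset _ _
      have hlt : ∑ i ∈ J, rk (F i) D < ∑ i ∈ J, rk (F i) C := by
        refine Finset.sum_lt_sum (fun i _ => rk_mono hDC (F i)) ⟨j, hj, ?_⟩
        exact rk_lt hDC (F j) f hf (fun y hy => (Finset.mem_filter.mp hy).2) x hx hfx
      obtain ⟨C', h1, h2, h3⟩ := ih _ (by omega) D rfl
      refine ⟨C', h1.trans hDC, ?_, h3⟩
      calc C.card ≤ 10 * D.card := by convert hcard
        _ ≤ 10 * (10 ^ (∑ i ∈ J, rk (F i) D) * C'.card) := Nat.mul_le_mul_left _ h2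
        _ = 10 ^ (∑ i ∈ J, rk (F i) D + 1) * C'.card := by ring
        _ ≤ 10 ^ (∑ i ∈ J, rk (F i) C) * C'.card := by
          refine Nat.mul_le_mul_right _ (Nat.pow_le_pow_right (by norm_num) ?_)
          omega

/-- the finite form of superadditivity -/
private theorem sa_fin {X : Type*} [Fintype X] (U V : Submodule K (X → K))
    (hU : ∀ f ∈ U, (open Classical in Fintype.card X ≤
      10 * (Finset.univ.filter (fun x => f x = 0)).card) → f = 0)
    (hV : ∀ f ∈ V, (open Classical in Fintype.card X ≤
      10 * (Finset.univ.filter (fun x => f x = 0)).card) → f = 0)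
    (hU0 : U ≠ ⊥) (hV0 : V ≠ ⊥) :
    finrank K U + finrank K V ≤ finrank K (U * V : Submodule K (X → K)) + 1 := by
  classical
  -- a nonzero function of a good space is nonzero at more than nine tenths of the points
  have hbig : ∀ W : Submodule K (X → K), (∀ f ∈ W, (Fintype.card X ≤
      10 * (Finset.univ.filter (fun x => f x = 0)).card) → f = 0) → ∀ f ∈ W, f ≠ 0 →
      ∀ W' : Submodule K (X → K), (∀ f ∈ W', (Fintype.card X ≤
      10 * (Finset.univ.filter (fun x => f x = 0)).card) → f = 0) → ∀ g ∈ W',
      (∀ x, f x ≠ 0 → g x = 0) → g = 0 := by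
    intro W hW f hf hf0 W' hW' g hg hfg
    apply hW' g hg
    have h1 : ¬ (Fintype.card X ≤ 10 * (Finset.univ.filter (fun x => f x = 0)).card) :=
      fun hh => hf0 (hW f hf hh)
    have h2 : (Finset.univ.filter (fun x => f x ≠ 0)).card
        ≤ (Finset.univ.filter (fun x => g x = 0)).card := by
      refine Finset.card_le_card fun x hx => ?_
      rw [Finset.mem_filter] at hx ⊢
      exact ⟨hx.1, hfg x hx.2⟩
    have h3 := Finset.card_filter_add_card_filter_not (s := (Finset.univ : Finset X))
      (p := fun x => f x = 0)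
    rw [Finset.card_univ] at h3
    have h4 : (Finset.univ.filter (fun x => f x ≠ 0)).card
        = (Finset.univ.filter (fun x => ¬ f x = 0)).card := rfl
    omega
  obtain ⟨v, hv, hv0⟩ := Submodule.exists_mem_ne_zero_of_ne_bot hV0
  obtain ⟨u1, hu1, hu10⟩ := Submodule.exists_mem_ne_zero_of_ne_bot hU0
  let D : Finset X := Finset.univ.filter (fun x => v x ≠ 0)
  have hDU : ∀ u ∈ U, (∀ x ∈ D, u x = 0) → u = 0 := by
    intro u hu h
    refine hbig V (fun f hf h => hV f hf (by convert h)) v hv hv0 U
      (fun f hf h => hU f hf (by convert h)) u hu ?_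
    intro x hx
    exact h x (Finset.mem_filter.mpr ⟨Finset.mem_univ _, hx⟩)
  -- a maximal set of zeros
  let P : Finset X → Prop := fun Z => ∃ u ∈ U, u ≠ 0 ∧ ∀ x ∈ Z, u x = 0
  have hne : (D.powerset.filter P).Nonempty := by
    refine ⟨∅, ?_⟩
    rw [Finset.mem_filter]
    exact ⟨Finset.empty_mem_powerset _, u1, hu1, hu10, fun x hx => absurd hx (Finset.notMem_empty _)⟩
  obtain ⟨Z, hZ, hmax⟩ := Finset.exists_max_image _ Finset.card hne
  rw [Finset.mem_filter, Finset.mem_powerset] at hZ
  obtain ⟨hZD, u0, hu0, hu00, hu0Z⟩ := hZ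
  have hex : ∃ x ∈ D, x ∉ Z := by
    by_contra hcon
    push Not at hcon
    exact hu00 (hDU u0 hu0 fun x hx => hu0Z x (hcon x hx))
  obtain ⟨x0, hx0D, hx0Z⟩ := hex
  have hx0 : ∀ u ∈ U, (∀ x ∈ Z, u x = 0) → u x0 = 0 → u = 0 := by
    intro u hu h1 h2
    by_contra hu'
    have h3 : insert x0 Z ∈ D.powerset.filter P := by
      rw [Finset.mem_filter, Finset.mem_powerset]
      refine ⟨Finset.insert_subset hx0D hZD, u, hu, hu', ?_⟩
      intro x hx
      rcases Finset.mem_insert.mp hx with h | h
      · rw [h]; exact h2
      · exact h1 x h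
    have h4 := hmax _ h3
    rw [Finset.card_insert_of_notMem hx0Z] at h4
    omega
  -- ranks
  have hkerU : finrank K (LinearMap.ker ((rs Z).domRestrict U)) ≤ 1 := by
    let ev : LinearMap.ker ((rs (K := K) Z).domRestrict U) →ₗ[K] K :=
      (LinearMap.proj x0).comp (U.subtype.comp (LinearMap.ker ((rs Z).domRestrict U)).subtype)
    have hinj : Function.Injective ev := by
      rw [injective_iff_map_eq_zero]
      intro w hw
      apply Subtype.ext
      apply Subtype.ext
      refine hx0 _ (w : U).2 ?_ hw
      have h1 : rs Z ((w : U) : X → K) = 0 := w.2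
      exact (rs_eq_zero Z _).mp h1
    have h2 := LinearMap.finrank_le_finrank_of_injective hinj
    rwa [Module.finrank_self] at h2
  have hrnU := LinearMap.finrank_range_add_finrank_ker ((rs (K := K) Z).domRestrict U)
  rw [LinearMap.range_domRestrict] at hrnU
  have hrnUV := LinearMap.finrank_range_add_finrank_ker ((rs (K := K) Z).domRestrict (U * V))
  rw [LinearMap.range_domRestrict] at hrnUV
  have hA : finrank K (U.map (rs Z)) ≤ finrank K ((U * V).map (rs (K := K) Z)) := by
    -- multiplication by the restriction of `v`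
    let μ : (Z → K) →ₗ[K] (Z → K) := LinearMap.mulLeft K (rs Z v)
    have hμ : Function.Injective μ := by
      rw [injective_iff_map_eq_zero]
      intro w hw
      funext z
      have h1 : rs Z v z * w z = 0 := congrFun hw z
      have h2 : rs Z v z ≠ 0 := (Finset.mem_filter.mp (hZD z.2)).2
      exact (mul_eq_zero.mp h1).resolve_left h2
    have h1 : (U.map (rs Z)).map μ ≤ (U * V).map (rs Z) := by
      rintro w ⟨w1, ⟨u, hu, rfl⟩, rfl⟩
      refine ⟨u * v, Submodule.mul_mem_mul hu hv, ?_⟩
      funext z
      change u z * v z = v z * u z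
      rw [mul_comm]
    calc finrank K (U.map (rs Z)) = finrank K ((U.map (rs Z)).map μ) :=
          (Submodule.equivMapOfInjective μ hμ _).finrank_eq
      _ ≤ _ := Submodule.finrank_mono h1
  have hB : finrank K V ≤ finrank K (LinearMap.ker ((rs (K := K) Z).domRestrict (U * V))) := by
    let ν : V →ₗ[K] LinearMap.ker ((rs (K := K) Z).domRestrict (U * V)) :=
      { toFun := fun w => ⟨⟨u0 * (w : X → K), Submodule.mul_mem_mul hu0 w.2⟩, by
          rw [LinearMap.mem_ker]
          funext z
          change u0 z * (w : X → K) z = 0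
          rw [hu0Z z z.2, zero_mul]⟩
        map_add' := fun a b => by
          apply Subtype.ext
          apply Subtype.ext
          change u0 * ((a : X → K) + (b : X → K)) = _
          rw [mul_add]
          rfl
        map_smul' := fun c a => by
          apply Subtype.ext
          apply Subtype.ext
          change u0 * (c • (a : X → K)) = _
          rw [mul_smul_comm]
          rfl }
    have hinj : Function.Injective ν := by
      rw [injective_iff_map_eq_zero]
      intro w hw
      apply Subtype.ext
      have h1 : u0 * (w : X → K) = 0 :=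
        congrArg (fun z => (((z : LinearMap.ker ((rs (K := K) Z).domRestrict (U * V))) :
          (U * V : Submodule K (X → K))) : X → K)) hw
      refine hbig U (fun f hf h => hU f hf (by convert h)) u0 hu0 hu00 V
        (fun f hf h => hV f hf (by convert h)) w w.2 ?_
      intro x hx
      have h2 : u0 x * (w : X → K) x = 0 := congrFun h1 x
      exact (mul_eq_zero.mp h2).resolve_left hx
    exact LinearMap.finrank_le_finrank_of_injective hinj
  omega

private def rsA {α : Type*} (C : Finset α) : (α → K) →ₐ[K] (C → K) :=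
  AlgHom.pi (fun x : C => Pi.evalAlgHom K (fun _ : α => K) (x : α))

private theorem rsA_eq {α : Type*} (C : Finset α) :
    (rsA (K := K) C).toLinearMap = rs C := rfl

theorem map_rs_mul {α : Type*} (C : Finset α) (U V : Submodule K (α → K)) :
    (U * V).map (rs C) = U.map (rs C) * V.map (rs C) := by
  rw [← rsA_eq, Submodule.map_mul]

private theorem card_filter_val {α : Type*} (C : Finset α) (p : α → Prop) :
    open Classical in
    ((Finset.univ : Finset C).filter (fun x : C => p x)).card = (C.filter p).card := by
  classical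
  rw [← Finset.card_map (Function.Embedding.subtype (fun x => x ∈ C))]
  congr 1
  ext x
  simp only [Finset.mem_map, Finset.mem_filter, Finset.mem_univ, true_and,
    Function.Embedding.subtype_apply, Subtype.exists, exists_and_left, exists_prop,
    exists_eq_right_right]
  tauto

/-- superadditivity of the rank on a set which is stable for `U` and `V` -/
theorem rk_mul {α ι : Type*} (J : Finset ι) (F : ι → Submodule K (α → K)) (C : Finset α)
    (hC : Stab J F C) (i j : ι) (hi : i ∈ J) (hj : j ∈ J) (hi0 : rk (F i) C ≠ 0)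
    (hj0 : rk (F j) C ≠ 0) : rk (F i) C + rk (F j) C ≤ rk (F i * F j) C + 1 := by
  classical
  have key : ∀ i ∈ J, ∀ f ∈ (F i).map (rs C), (Fintype.card C ≤
      10 * (Finset.univ.filter (fun x => f x = 0)).card) → f = 0 := by
    rintro i hi f ⟨u, hu, rfl⟩ hcard
    rw [rs_eq_zero]
    apply hC i hi u hu
    have h1 : (Finset.univ.filter (fun x : C => rs C u x = 0)).card
        = (C.filter (fun x => u x = 0)).card := by
      have h2 := card_filter_val C (fun x => u x = 0)
      convert h2; exact rs_apply C u _
    rw [h1, Fintype.card_coe] at hcard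
    convert hcard
  have hne : ∀ i, rk (F i) C ≠ 0 → (F i).map (rs C) ≠ ⊥ := by
    intro i h hh
    apply h
    unfold rk
    rw [hh]
    exact finrank_bot K _
  unfold rk
  rw [map_rs_mul]
  refine sa_fin _ _ (fun f hf h => key i hi f hf (by convert h))
    (fun f hf h => key j hj f hf (by convert h)) (hne i hi0) (hne j hj0)

/-- the rank of the powers of a space on a set which is stable for them -/
theorem rk_pow {α : Type*} (U : Submodule K (α → K)) (B : ℕ) (C : Finset α)
    (hC : Stab (Finset.range (B + 1)) (fun b => U ^ b) C) (h0 : rk U C ≠ 0) (b : ℕ)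
    (hb1 : 1 ≤ b) (hb : b ≤ B) : b * rk U C + 1 ≤ rk (U ^ b) C + b := by
  induction b, hb1 using Nat.le_induction with
  | base => simp
  | succ b hb1 ih =>
    have ih' := ih (by omega)
    have h1 : rk (U ^ b) C ≠ 0 := by
      intro hh
      rw [hh] at ih'
      have h2 : b * 1 ≤ b * rk U C := Nat.mul_le_mul_left _ (Nat.one_le_iff_ne_zero.mpr h0)
      omega
    have h3 := rk_mul (Finset.range (B + 1)) (fun b => U ^ b) C hC b 1
      (Finset.mem_range.mpr (by omega)) (Finset.mem_range.mpr (by omega)) h1
      (by simpa using h0)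
    simp only [pow_one] at h3
    rw [pow_succ]
    have h4 : (b + 1) * rk U C = b * rk U C + rk U C := by ring
    omega

end Pool.Agent.Lib.SQF
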