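import Pool.Agent.Lib.SQF.PlaneA
import Pool.Agent.Lib.SQF.Stable

/-!
# SQF, module Plane, part B: the rank of the ternary forms of degree `b` on a stable set

`Phi x b g`: the form of degree `b` with dehomogenisation `g`, at the points
`(x 0 p : x 1 p : x 2 p)`. `Kb x C b`: the `g` of total degree `≤ b` whose form vanishes on `C`.
`rank_main`: if no form of degree `≤ 2` vanishes on `C`, the rank is at least `3 b`.
-/

set_option autoImplicit false

namespace Pool.Agent.Lib.SQF.Plane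

open Polynomial Module
open scoped Polynomial.Bivariate

variable {α : Type*}

/-- the space of the linear forms -/
def VV (x : Fin 3 → α → ℚ) : Submodule ℚ (α → ℚ) := Submodule.span ℚ (Set.range x)

/-- the monomials of degree `b` -/
def mon (x : Fin 3 → α → ℚ) (b : ℕ) (e : ℕ × ℕ) : α → ℚ :=
  x 1 ^ e.1 * x 2 ^ e.2 * x 0 ^ (b - e.1 - e.2)

/-- the form of degree `b` with dehomogenisation `g` -/
noncomputable def Phi (x : Fin 3 → α → ℚ) (b : ℕ) : ℚ[X][Y] →ₗ[ℚ] (α → ℚ) where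
  toFun g := ∑ e ∈ Eb b, (g.coeff e.2).coeff e.1 • mon x b e
  map_add' := by
    intro g h
    rw [← Finset.sum_add_distrib]
    refine Finset.sum_congr rfl fun e _ => ?_
    rw [coeff_add, coeff_add, add_smul]
  map_smul' := by
    intro c g
    rw [RingHom.id_apply, Finset.smul_sum]
    refine Finset.sum_congr rfl fun e _ => ?_
    rw [coeff_smul, coeff_smul, smul_assoc]

lemma Phi_apply (x : Fin 3 → α → ℚ) (b : ℕ) (g : ℚ[X][Y]) (p : α) :
    Phi x b g p = ∑ e ∈ Eb b, (g.coeff e.2).coeff e.1 *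
      (x 1 p ^ e.1 * x 2 p ^ e.2 * x 0 p ^ (b - e.1 - e.2)) := by
  simp [Phi, mon, Finset.sum_apply]

lemma Phi_mem (x : Fin 3 → α → ℚ) (b : ℕ) (g : ℚ[X][Y]) : Phi x b g ∈ VV x ^ b := by
  have hx : ∀ i, x i ∈ VV x := fun i => Submodule.subset_span ⟨i, rfl⟩
  have h : Phi x b g = ∑ e ∈ Eb b, (g.coeff e.2).coeff e.1 • mon x b e := rfl
  rw [h]
  refine Submodule.sum_mem _ fun e he => Submodule.smul_mem _ _ ?_
  rw [mem_Eb] at he
  have h1 : e.1 + e.2 + (b - e.1 - e.2) = b := by omega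
  have h2 : VV x ^ b = VV x ^ (e.1 + e.2 + (b - e.1 - e.2)) := by rw [h1]
  rw [h2, pow_add, pow_add]
  exact Submodule.mul_mem_mul (Submodule.mul_mem_mul (Submodule.pow_mem_pow _ (hx 1) _)
    (Submodule.pow_mem_pow _ (hx 2) _)) (Submodule.pow_mem_pow _ (hx 0) _)

lemma Phi_eq (x : Fin 3 → α → ℚ) {b : ℕ} {g : ℚ[X][Y]} (hg : g ∈ Pb b) {p : α}
    (hp : x 0 p ≠ 0) :
    Phi x b g p = x 0 p ^ b * g.evalEval (x 1 p / x 0 p) (x 2 p / x 0 p) := by
  rw [Phi_apply, evalEval_of_mem hg, Finset.mul_sum]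
  refine Finset.sum_congr rfl fun e he => ?_
  rw [mem_Eb] at he
  have h1 : x 0 p ^ b = x 0 p ^ e.1 * x 0 p ^ e.2 * x 0 p ^ (b - e.1 - e.2) := by
    rw [← pow_add, ← pow_add]
    congr 1
    omega
  rw [h1, div_pow, div_pow]
  field_simp

/-- the polynomials of total degree `≤ b` whose form vanishes on `C` -/
noncomputable def Kb (x : Fin 3 → α → ℚ) (C : Finset α) (b : ℕ) : Submodule ℚ ℚ[X][Y] :=
  Pb b ⊓ LinearMap.ker ((rs (K := ℚ) C).comp (Phi x b))

lemma mem_Kb {x : Fin 3 → α → ℚ} {C : Finset α} {b : ℕ} {g : ℚ[X][Y]} :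
    g ∈ Kb x C b ↔ g ∈ Pb b ∧ ∀ p ∈ C, Phi x b g p = 0 := by
  unfold Kb
  rw [Submodule.mem_inf, LinearMap.mem_ker, LinearMap.comp_apply, rs_eq_zero]

private lemma finrank_le_ker_add {E G : Type*} [AddCommGroup E] [Module ℚ E] [AddCommGroup G]
    [Module ℚ G] (U : Submodule ℚ E) (hU : U.FG) (f : E →ₗ[ℚ] G) (B : Submodule ℚ G)
    (hBf : Module.Finite ℚ B) (hf : ∀ x ∈ U, f x ∈ B) :
    finrank ℚ U ≤ finrank ℚ (U ⊓ LinearMap.ker f : Submodule ℚ E) + finrank ℚ B := by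
  have hUf : Module.Finite ℚ U := Module.Finite.iff_fg.2 hU
  let g : U →ₗ[ℚ] G := f.comp U.subtype
  have h1 := LinearMap.finrank_range_add_finrank_ker g
  have h2 : finrank ℚ (LinearMap.range g) ≤ finrank ℚ B := by
    refine Submodule.finrank_mono ?_
    rintro _ ⟨x, rfl⟩
    exact hf x.1 x.2
  have h3 : finrank ℚ (LinearMap.ker g) ≤
      finrank ℚ (U ⊓ LinearMap.ker f : Submodule ℚ E) := by
    have hfin : Module.Finite ℚ (U ⊓ LinearMap.ker f : Submodule ℚ E) :=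
      Submodule.finiteDimensional_inf_left _ _
    let i : LinearMap.ker g →ₗ[ℚ] (U ⊓ LinearMap.ker f : Submodule ℚ E) :=
      LinearMap.codRestrict _ (U.subtype.comp (LinearMap.ker g).subtype) fun x => ⟨x.1.2, x.2⟩
    refine LinearMap.finrank_le_finrank_of_injective (f := i) ?_
    intro x y hxy
    have := congrArg Subtype.val hxy
    exact Subtype.ext (Subtype.ext this)
  omega

lemma finrank_Pb_le (x : Fin 3 → α → ℚ) (C : Finset α) (b : ℕ) :
    finrank ℚ (Pb b) ≤ finrank ℚ (Kb x C b) + rk (VV x ^ b) C := by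
  unfold Kb rk
  exact finrank_le_ker_add (Pb b) (fg_Pb b) ((rs (K := ℚ) C).comp (Phi x b))
    ((VV x ^ b).map (rs C)) inferInstance fun g _ => ⟨_, Phi_mem x b g, rfl⟩

/-- the use of stability -/
lemma mem_Kb_of_many {x : Fin 3 → α → ℚ} {C : Finset α} {b₀ : ℕ}
    (hst : Stab (Finset.range (b₀ + 1)) (fun b => VV x ^ b) C) {a : ℕ} (ha : a ≤ b₀)
    {A : ℚ[X][Y]} (hA : A ∈ Pb a) (Z : Finset α) (hZC : Z ⊆ C)
    (hZ : ∀ p ∈ Z, x 0 p ≠ 0 ∧ A.evalEval (x 1 p / x 0 p) (x 2 p / x 0 p) = 0)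
    (hcard : C.card ≤ 10 * Z.card) : A ∈ Kb x C a := by
  classical
  rw [mem_Kb]
  refine ⟨hA, ?_⟩
  refine hst a (Finset.mem_range.2 (by omega)) (Phi x a A) (Phi_mem x a A) ?_
  have hsub : Z ⊆ C.filter (fun p => Phi x a A p = 0) := by
    intro p hp
    rw [Finset.mem_filter]
    refine ⟨hZC hp, ?_⟩
    rw [Phi_eq x hA (hZ p hp).1, (hZ p hp).2, mul_zero]
  have h1 := hcard.trans (Nat.mul_le_mul_left 10 (Finset.card_le_card hsub))
  refine h1.trans (le_of_eq ?_)
  congr!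

/-- a nonzero `C` has few points with `x 0 = 0` -/
lemma evalEval_eq_zero {x : Fin 3 → α → ℚ} {C : Finset α} {b : ℕ} {g : ℚ[X][Y]}
    (hg : g ∈ Kb x C b) {p : α} (hp : p ∈ C) (h0 : x 0 p ≠ 0) :
    g.evalEval (x 1 p / x 0 p) (x 2 p / x 0 p) = 0 := by
  rw [mem_Kb] at hg
  have h1 := hg.2 p hp
  rw [Phi_eq x hg.1 h0] at h1
  exact (mul_eq_zero.1 h1).resolve_left (pow_ne_zero _ h0)

/-- a minimal polynomial is irreducible -/
lemma irreducible_of_min {x : Fin 3 → α → ℚ} {C : Finset α} {b₀ : ℕ}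
    (hst : Stab (Finset.range (b₀ + 1)) (fun b => VV x ^ b) C)
    (h0 : 10 * (C.filter (fun p => x 0 p = 0)).card < C.card) {D : ℕ} (hD : D ≤ b₀)
    (hD1 : 1 ≤ D) (hmin : ∀ a < D, Kb x C a = ⊥) {ψ : ℚ[X][Y]} (hψ : ψ ∈ Kb x C D)
    (hψ0 : ψ ≠ 0) : td ψ = D ∧ Irreducible ψ := by
  classical
  have hsplit : (C.filter (fun p => x 0 p = 0)).card + (C.filter (fun p => x 0 p ≠ 0)).card =
      C.card := Finset.card_filter_add_card_filter_not _
  have htd : td ψ = D := by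
    have h1 : td ψ ≤ D := td_le_iff.2 (mem_Kb.1 hψ).1
    by_contra hne
    have h2 : ψ ∈ Pb (D - 1) := td_le_iff.1 (by omega)
    have h3 := mem_Kb_of_many hst (by omega) h2 (C.filter (fun p => x 0 p ≠ 0))
      (Finset.filter_subset _ _) (fun p hp => ?_) (by omega)
    · rw [hmin (D - 1) (by omega)] at h3
      exact hψ0 ((Submodule.mem_bot ℚ).1 h3)
    · rw [Finset.mem_filter] at hp
      exact ⟨hp.2, evalEval_eq_zero hψ hp.1 hp.2⟩
  refine ⟨htd, ?_, ?_⟩
  · intro hu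
    have := td_eq_zero_of_isUnit hu
    omega
  · intro A B hAB
    have hA0 : A ≠ 0 := by
      rintro rfl
      rw [zero_mul] at hAB
      exact hψ0 hAB
    have hB0 : B ≠ 0 := by
      rintro rfl
      rw [mul_zero] at hAB
      exact hψ0 hAB
    have hsum : td A + td B = D := by
      rw [← td_mul hA0 hB0, ← hAB, htd]
    set ZA := C.filter (fun p => x 0 p ≠ 0 ∧ A.evalEval (x 1 p / x 0 p) (x 2 p / x 0 p) = 0)
      with hZA
    set ZB := C.filter (fun p => x 0 p ≠ 0 ∧ B.evalEval (x 1 p / x 0 p) (x 2 p / x 0 p) = 0)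
      with hZB
    have hcov : C.filter (fun p => x 0 p ≠ 0) ⊆ ZA ∪ ZB := by
      intro p hp
      rw [Finset.mem_filter] at hp
      have h1 := evalEval_eq_zero hψ hp.1 hp.2
      rw [hAB, evalEval_mul, mul_eq_zero] at h1
      rw [Finset.mem_union, hZA, hZB, Finset.mem_filter, Finset.mem_filter]
      rcases h1 with h1 | h1
      · exact Or.inl ⟨hp.1, hp.2, h1⟩
      · exact Or.inr ⟨hp.1, hp.2, h1⟩
    have hc1 := (Finset.card_le_card hcov).trans (Finset.card_union_le _ _)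
    rcases le_total ZA.card ZB.card with hle | hle
    · -- `B` vanishes on `C`
      have h1 : B ∈ Kb x C (td B) := mem_Kb_of_many hst (by omega) (td_le_iff.1 le_rfl) ZB
        (Finset.filter_subset _ _) (fun p hp => (Finset.mem_filter.1 hp).2) (by omega)
      have h2 : ¬ td B < D := by
        intro h
        rw [hmin _ h] at h1
        exact hB0 ((Submodule.mem_bot ℚ).1 h1)
      exact Or.inl (isUnit_of_td_eq_zero (by omega) hA0)
    · have h1 : A ∈ Kb x C (td A) := mem_Kb_of_many hst (by omega) (td_le_iff.1 le_rfl) ZA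
        (Finset.filter_subset _ _) (fun p hp => (Finset.mem_filter.1 hp).2) (by omega)
      have h2 : ¬ td A < D := by
        intro h
        rw [hmin _ h] at h1
        exact hA0 ((Submodule.mem_bot ℚ).1 h1)
      exact Or.inr (isUnit_of_td_eq_zero (by omega) hB0)

/-- on a line `X = t` an irreducible curve of degree at least two has few points -/
lemma map_ne_zero_of_td {ψ : ℚ[X][Y]} (hψ : Irreducible ψ) (htd : 2 ≤ td ψ) (t : ℚ) :
    ψ.map (evalRingHom t) ≠ 0 := by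
  intro h
  have h1 : (C (X - C t) : ℚ[X][Y]) ∣ ψ := by
    rw [C_dvd_iff_dvd_coeff]
    intro j
    rw [dvd_iff_isRoot, IsRoot]
    have := congrArg (fun z => z.coeff j) h
    simpa [coeff_map] using this
  obtain ⟨B, hB⟩ := h1
  have hψ0 := hψ.ne_zero
  have hB0 : B ≠ 0 := by
    rintro rfl
    rw [mul_zero] at hB
    exact hψ0 hB
  have hA0 : (C (X - C t) : ℚ[X][Y]) ≠ 0 := by
    rw [Ne, C_eq_zero]
    exact X_sub_C_ne_zero t
  have hA1 : td (C (X - C t) : ℚ[X][Y]) ≤ 1 := by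
    rw [td_le_iff]
    intro i j hij
    rw [coeff_C]
    split_ifs with hj
    · apply coeff_eq_zero_of_natDegree_lt
      rw [natDegree_X_sub_C]
      omega
    · simp
  have hA2 : td (C (X - C t) : ℚ[X][Y]) ≠ 0 := by
    intro h2
    have h3 := td_le_iff.1 h2.le 1 0 (by omega)
    rw [coeff_C_zero, coeff_sub, coeff_X_one, coeff_C] at h3
    norm_num at h3
  have hnu : ¬ IsUnit (C (X - C t) : ℚ[X][Y]) := fun hu => hA2 (td_eq_zero_of_isUnit hu)
  rcases hψ.isUnit_or_isUnit hB with h2 | h2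
  · exact hnu h2
  · have h3 := td_eq_zero_of_isUnit h2
    have h4 := td_mul hA0 hB0
    rw [← hB, h3] at h4
    omega

/-- the main step: the kernel is generated by `ψ` -/
lemma dvd_of_mem {x : Fin 3 → α → ℚ} {C T : Finset α} {b₀ : ℕ} {D : ℕ} (hD : D ≤ b₀)
    (hD2 : 2 ≤ D) {ψ : ℚ[X][Y]} (hψ : ψ ∈ Kb x C D) (htd : td ψ = D) (hirr : Irreducible ψ)
    (hTC : T ⊆ C) (hT0 : ∀ p ∈ T, x 0 p ≠ 0)
    (hinj : ∀ p ∈ T, ∀ q ∈ T, x 1 p / x 0 p = x 1 q / x 0 q → x 2 p / x 0 p = x 2 q / x 0 q →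
      p = q) (hcard : b₀ * (2 * b₀ ^ 2 + b₀) < T.card) {b : ℕ} (hDb : D ≤ b) (hb : b ≤ b₀)
    {g : ℚ[X][Y]} (hg : g ∈ Kb x C b) : ψ ∣ g := by
  classical
  set T' : Finset ℚ := T.image (fun p => x 1 p / x 0 p) with hT'
  have hfib : ∀ t ∈ T', (T.filter (fun p => x 1 p / x 0 p = t)).card ≤ D := by
    intro t _
    have hne := map_ne_zero_of_td hirr (by omega) t
    have h1 : ((T.filter (fun p => x 1 p / x 0 p = t)).image (fun p => x 2 p / x 0 p)) ⊆
        (ψ.map (evalRingHom t)).roots.toFinset := by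
      intro n hn
      rw [Finset.mem_image] at hn
      obtain ⟨p, hp, rfl⟩ := hn
      rw [Finset.mem_filter] at hp
      rw [Multiset.mem_toFinset, mem_roots hne, IsRoot]
      have h2 := evalEval_eq_zero hψ (hTC hp.1) (hT0 p hp.1)
      rw [hp.2] at h2
      rw [map_evalRingHom_eval]
      exact h2
    have h2 := (Finset.card_le_card h1).trans
      ((Multiset.toFinset_card_le _).trans (card_roots' _))
    rw [Finset.card_image_of_injOn] at h2
    · refine h2.trans (natDegree_map_le.trans ?_)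
      exact natDegree_le_of_mem (mem_Kb.1 hψ).1
    · intro p hp q hq hpq
      have hp' := Finset.mem_filter.1 (Finset.mem_coe.1 hp)
      have hq' := Finset.mem_filter.1 (Finset.mem_coe.1 hq)
      exact hinj p hp'.1 q hq'.1 (hp'.2.trans hq'.2.symm) hpq
  have h1 : T.card ≤ D * T'.card := Finset.card_le_mul_card_image _ _ hfib
  have h2 : 2 * b * b + b < T'.card := by
    by_contra hcon
    push Not at hcon
    have h3 : 2 * b * b + b ≤ 2 * b₀ ^ 2 + b₀ := by nlinarith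
    have h4 : D * T'.card ≤ b₀ * (2 * b₀ ^ 2 + b₀) := Nat.mul_le_mul hD (hcon.trans h3)
    omega
  refine Bez.dvd_of_many (RingHom.id ℚ) Function.injective_id ψ g hirr b b
    ((natDegree_le_of_mem (mem_Kb.1 hψ).1).trans hDb)
    ((degT_le_of_mem (mem_Kb.1 hψ).1).trans hDb) (natDegree_le_of_mem (mem_Kb.1 hg).1)
    (degT_le_of_mem (mem_Kb.1 hg).1) T' (fun t ht => ?_) h2
  rw [hT', Finset.mem_image] at ht
  obtain ⟨p, hp, rfl⟩ := ht
  refine ⟨x 2 p / x 0 p, ?_, ?_⟩
  · rw [Bez.ev_id]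
    exact evalEval_eq_zero hψ (hTC hp) (hT0 p hp)
  · rw [Bez.ev_id]
    exact evalEval_eq_zero hg (hTC hp) (hT0 p hp)

theorem rank_main (x : Fin 3 → α → ℚ) (C T : Finset α) (b₀ : ℕ)
    (hst : Stab (Finset.range (b₀ + 1)) (fun b => VV x ^ b) C)
    (h0 : 10 * (C.filter (fun p => x 0 p = 0)).card < C.card)
    (hTC : T ⊆ C) (hT0 : ∀ p ∈ T, x 0 p ≠ 0)
    (hinj : ∀ p ∈ T, ∀ q ∈ T, x 1 p / x 0 p = x 1 q / x 0 q → x 2 p / x 0 p = x 2 q / x 0 q →
      p = q) (hcard : b₀ * (2 * b₀ ^ 2 + b₀) < T.card) (hK : ∀ b ≤ 2, Kb x C b = ⊥) :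
    ∀ b ≤ b₀, 3 * b ≤ rk (VV x ^ b) C := by
  classical
  intro b hb
  have hdim := two_finrank_Pb b
  have hle := finrank_Pb_le x C b
  by_cases hbot : Kb x C b = ⊥
  · rw [hbot, finrank_bot, zero_add] at hle
    have : (b + 1) * (b + 2) = b * b + 3 * b + 2 := by ring
    have h1 : 3 * b ≤ b * b + 2 := by
      rcases Nat.lt_or_ge b 3 with h | h
      · interval_cases b <;> omega
      · nlinarith
    omega
  · have hex : ∃ D, Kb x C D ≠ ⊥ := ⟨b, hbot⟩
    set D := Nat.find hex with hDdef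
    have hDne : Kb x C D ≠ ⊥ := Nat.find_spec hex
    have hDb : D ≤ b := Nat.find_min' hex hbot
    have hmin : ∀ a < D, Kb x C a = ⊥ := fun a ha => by
      by_contra hcon
      exact Nat.find_min hex ha hcon
    have hD3 : 3 ≤ D := by
      by_contra hcon
      exact hDne (hK D (by omega))
    obtain ⟨ψ, hψ, hψ0⟩ := Submodule.exists_mem_ne_zero_of_ne_bot hDne
    obtain ⟨htd, hirr⟩ := irreducible_of_min hst h0 (hDb.trans hb) (by omega) hmin hψ hψ0
    have hsub : Kb x C b ≤ (Pb (b - D)).map (LinearMap.mulLeft ℚ ψ) := by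
      intro g hg
      obtain ⟨G, hG⟩ := dvd_of_mem (hDb.trans hb) (by omega) hψ htd hirr hTC hT0 hinj hcard hDb hb hg
      refine ⟨G, ?_, by rw [LinearMap.mulLeft_apply, hG]⟩
      by_cases hG0 : G = 0
      · rw [hG0]
        exact Submodule.zero_mem _
      · apply td_le_iff.1
        have h1 := td_mul hψ0 hG0
        rw [← hG, htd] at h1
        have h2 : td g ≤ b := td_le_iff.2 (mem_Kb.1 hg).1
        omega
    have hfin : Module.Finite ℚ (Pb (b - D)) := finite_Pb _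
    have h3 : finrank ℚ (Kb x C b) ≤ finrank ℚ (Pb (b - D)) := by
      have h4 : Module.Finite ℚ ((Pb (b - D)).map (LinearMap.mulLeft ℚ ψ)) := inferInstance
      exact (Submodule.finrank_mono hsub).trans (Submodule.finrank_map_le _ _)
    have h5 := two_finrank_Pb (b - D)
    obtain ⟨c, hc⟩ : ∃ c, b = c + 3 := ⟨b - 3, by omega⟩
    have h6 : (b - D + 1) * (b - D + 2) ≤ (c + 1) * (c + 2) :=
      Nat.mul_le_mul (by omega) (by omega)
    have h7 : (b + 1) * (b + 2) = (c + 1) * (c + 2) + 6 * b := by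
      rw [hc]
      ring
    omega

end Pool.Agent.Lib.SQF.Plane
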