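import Pool.Agent.Lib.SQF.FinalC
import Pool.Agent.Lib.SQF.ASlice
import Pool.Agent.Lib.SQF.BSlice

/-!
# SQF: the range bound for irreducible quartics
-/

set_option autoImplicit false

open Polynomial

namespace Pool.Agent.Lib.SQF

/-- **All windows of a monic irreducible quartic**: a power saving for `Y ≤ L P`, `P ≤ Y ^ (201 / 100)`. -/
theorem quartic_range (g : ℤ[X]) (hg : g.Monic) (hirr : Irreducible g) (hd : g.natDegree = 4) :
    RangeBoundL g (101 / 100) := by
  have hA : RangeBoundL g (383 / 1000) := by
    have h := rangeA_final hg hirr hd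
    rw [← hd] at h
    exact fun L hL => rangeL_of_sols g hg hirr h L hL
  have hB : RangeBound g (383 / 1000) (51 / 100) := by
    have h := rangeBSol g hg hirr hd
    rw [← hd] at h
    exact rangeBound_of_sols g hg hirr (by norm_num) h
  exact (hA.glue hB).glue (rangeC g hg hirr hd)

end Pool.Agent.Lib.SQF
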