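import Pool.Agent.Lib.SQF.Defs
import Pool.Agent.Lib.SQF.Bez
import Pool.Agent.Lib.SQF4.Sec

/-!
# SQF: multiplication of coefficient vectors modulo `g`, homogeneous evaluation of vector forms,
and reduction of a family of binary forms to one without a common zero
(helper31, glue between the beta slices and the RC lemma)
-/

set_option autoImplicit false

namespace Pool.Agent.Lib.SQF.RCB

open Polynomial Pool.Agent.SQF4

/-- multiplication of coefficient vectors modulo `g` (degree 4) over any commutative ring -/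
noncomputable def mv (g : ℤ[X]) {R : Type*} [CommRing R] (x y : Fin 4 → R) : Fin 4 → R :=
  fun k => ∑ i : Fin 4, ∑ j : Fin 4,
    (((((X : ℤ[X]) ^ (i : ℕ) * X ^ (j : ℕ)) %ₘ g).coeff k : ℤ) : R) * x i * y j

lemma sum_coeff_eq (r : ℤ[X]) (h : r.natDegree < 4) :
    ∑ k : Fin 4, C (r.coeff k) * X ^ (k : ℕ) = r := by
  rw [Fin.sum_univ_eq_sum_range (fun k => C (r.coeff k) * X ^ k) 4]
  conv_rhs => rw [r.as_sum_range' 4 h]
  refine Finset.sum_congr rfl fun i _ => ?_
  rw [C_mul_X_pow_eq_monomial]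

lemma pol_mv (g : ℤ[X]) (hg : g.Monic) (hd : g.natDegree = 4) (x y : Fin 4 → ℤ) :
    g ∣ pol x * pol y - pol (mv g x y) := by
  classical
  have h1 : pol x * pol y = ∑ i : Fin 4, ∑ j : Fin 4,
      C (x i * y j) * (X ^ (i : ℕ) * X ^ (j : ℕ)) := by
    unfold pol
    rw [Finset.sum_mul_sum]
    refine Finset.sum_congr rfl fun i _ => Finset.sum_congr rfl fun j _ => ?_
    rw [C_mul]; ring
  have h2 : pol (mv g x y) = ∑ i : Fin 4, ∑ j : Fin 4,
      C (x i * y j) * (((X : ℤ[X]) ^ (i : ℕ) * X ^ (j : ℕ)) %ₘ g) := by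
    unfold pol mv
    have h3 : ∀ i j : Fin 4, C (x i * y j) * (((X : ℤ[X]) ^ (i : ℕ) * X ^ (j : ℕ)) %ₘ g) =
        ∑ k : Fin 4, C ((((X : ℤ[X]) ^ (i : ℕ) * X ^ (j : ℕ)) %ₘ g).coeff k * x i * y j) *
          X ^ (k : ℕ) := by
      intro i j
      have hlt : (((X : ℤ[X]) ^ (i : ℕ) * X ^ (j : ℕ)) %ₘ g).natDegree < 4 := by
        have := natDegree_modByMonic_lt ((X : ℤ[X]) ^ (i : ℕ) * X ^ (j : ℕ)) hg (by
          intro h; rw [h, natDegree_one] at hd; omega)
        omega
      conv_lhs => rw [← sum_coeff_eq _ hlt]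
      rw [Finset.mul_sum]
      refine Finset.sum_congr rfl fun k _ => ?_
      simp only [map_mul]; ring
    simp only [h3]
    simp only [Int.cast_id]
    have h4 : ∀ k : Fin 4, C (∑ i : Fin 4, ∑ j : Fin 4,
        (((X : ℤ[X]) ^ (i : ℕ) * X ^ (j : ℕ)) %ₘ g).coeff k * x i * y j) * (X : ℤ[X]) ^ (k : ℕ) =
        ∑ i : Fin 4, ∑ j : Fin 4,
          C ((((X : ℤ[X]) ^ (i : ℕ) * X ^ (j : ℕ)) %ₘ g).coeff k * x i * y j) * X ^ (k : ℕ) := by
      intro k
      rw [map_sum, Finset.sum_mul]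
      refine Finset.sum_congr rfl fun i _ => ?_
      rw [map_sum, Finset.sum_mul]
    simp only [h4]
    rw [Finset.sum_comm]
    refine Finset.sum_congr rfl fun i _ => ?_
    rw [Finset.sum_comm]
  rw [h1, h2, ← Finset.sum_sub_distrib]
  refine Finset.dvd_sum fun i _ => ?_
  rw [← Finset.sum_sub_distrib]
  refine Finset.dvd_sum fun j _ => ?_
  rw [← mul_sub]
  refine Dvd.dvd.mul_left ?_ _
  have h5 := modByMonic_add_div ((X : ℤ[X]) ^ (i : ℕ) * X ^ (j : ℕ)) g
  exact ⟨(X ^ (i : ℕ) * X ^ (j : ℕ)) /ₘ g, by linear_combination -h5⟩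

lemma pol_natDegree_lt (x : Fin 4 → ℤ) : (pol x).natDegree < 4 := by
  unfold pol
  refine lt_of_le_of_lt (natDegree_sum_le_of_forall_le (n := 3) _ _ ?_) (by norm_num)
  intro i _
  exact (natDegree_C_mul_X_pow_le _ _).trans (by omega)

lemma pol_coeff (x : Fin 4 → ℤ) (k : Fin 4) : (pol x).coeff k = x k := by
  unfold pol
  rw [finsetSum_coeff, Finset.sum_eq_single k]
  · rw [coeff_C_mul_X_pow, if_pos rfl]
  · intro i _ hi
    rw [coeff_C_mul_X_pow, if_neg]
    intro h; exact hi (Fin.ext h.symm)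
  · intro h; exact absurd (Finset.mem_univ _) h

/-- congruent vectors are equal -/
lemma pol_inj (g : ℤ[X]) (hd : g.natDegree = 4) (x y : Fin 4 → ℤ)
    (h : g ∣ pol x - pol y) : x = y := by
  have h1 : pol x - pol y = 0 := by
    by_contra hne
    have h2 := natDegree_le_of_dvd h hne
    have h3 := natDegree_sub_le (pol x) (pol y)
    have h4 := pol_natDegree_lt x
    have h5 := pol_natDegree_lt y
    omega
  funext k
  rw [← pol_coeff x k, ← pol_coeff y k, sub_eq_zero.1 h1]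

lemma mv_smul_left (g : ℤ[X]) {R : Type*} [CommRing R] (c : R) (x y : Fin 4 → R) :
    mv g (fun i => c * x i) y = fun k => c * mv g x y k := by
  funext k
  unfold mv
  simp only [Finset.mul_sum]
  refine Finset.sum_congr rfl fun i _ => Finset.sum_congr rfl fun j _ => ?_
  ring

lemma mv_smul_right (g : ℤ[X]) {R : Type*} [CommRing R] (c : R) (x y : Fin 4 → R) :
    mv g x (fun i => c * y i) = fun k => c * mv g x y k := by
  funext k
  unfold mv
  simp only [Finset.mul_sum]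
  refine Finset.sum_congr rfl fun i _ => Finset.sum_congr rfl fun j _ => ?_
  ring

lemma mv_add_right (g : ℤ[X]) {R : Type*} [CommRing R] (x y z : Fin 4 → R) :
    mv g x (fun i => y i + z i) = fun k => mv g x y k + mv g x z k := by
  funext k
  unfold mv
  rw [← Finset.sum_add_distrib]
  refine Finset.sum_congr rfl fun i _ => ?_
  rw [← Finset.sum_add_distrib]
  refine Finset.sum_congr rfl fun j _ => ?_
  ring

lemma hf_sum {ι : Type*} (s : Finset ι) (P : ι → ℤ[X]) (k : ℕ) (u v : ℤ) :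
    hf (∑ i ∈ s, P i) k u v = ∑ i ∈ s, hf (P i) k u v := by
  classical
  induction s using Finset.induction_on with
  | empty => simp [hf]
  | insert a s ha ih => rw [Finset.sum_insert ha, Finset.sum_insert ha, hf_add, ih]

lemma hf_C_mul (c : ℤ) (P : ℤ[X]) (k : ℕ) (u v : ℤ) : hf (C c * P) k u v = c * hf P k u v := by
  unfold hf
  rw [Finset.mul_sum]
  refine Finset.sum_congr rfl fun i _ => ?_
  rw [coeff_C_mul]; ring

lemma hf_neg (P : ℤ[X]) (k : ℕ) (u v : ℤ) : hf (-P) k u v = -hf P k u v := by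
  have := hf_C_mul (-1) P k u v
  simpa using this

lemma hf_sub (P Q : ℤ[X]) (k : ℕ) (u v : ℤ) : hf (P - Q) k u v = hf P k u v - hf Q k u v := by
  rw [sub_eq_add_neg, hf_add, hf_neg, sub_eq_add_neg]

/-- homogeneous evaluation commutes with `mv` -/
lemma hf_mv (g : ℤ[X]) (x y : Fin 4 → ℤ[X]) (d e : ℕ) (hx : ∀ i, (x i).natDegree ≤ d)
    (hy : ∀ i, (y i).natDegree ≤ e) (u v : ℤ) (k : Fin 4) :
    hf (mv g x y k) (d + e) u v = mv g (fun i => hf (x i) d u v) (fun i => hf (y i) e u v) k := by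
  unfold mv
  rw [hf_sum]
  refine Finset.sum_congr rfl fun i _ => ?_
  rw [hf_sum]
  refine Finset.sum_congr rfl fun j _ => ?_
  rw [← C_eq_intCast, mul_assoc, hf_C_mul, hf_mul _ _ _ _ (hx i) (hy j)]
  push_cast
  ring

lemma natDegree_mv (g : ℤ[X]) (x y : Fin 4 → ℤ[X]) (d e : ℕ) (hx : ∀ i, (x i).natDegree ≤ d)
    (hy : ∀ i, (y i).natDegree ≤ e) (k : Fin 4) : (mv g x y k).natDegree ≤ d + e := by
  unfold mv
  refine natDegree_sum_le_of_forall_le _ _ fun i _ => ?_
  refine natDegree_sum_le_of_forall_le _ _ fun j _ => ?_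
  rw [← C_eq_intCast, mul_assoc]
  refine (natDegree_C_mul_le _ _).trans ?_
  exact natDegree_mul_le.trans (Nat.add_le_add (hx i) (hy j))

end Pool.Agent.Lib.SQF.RCB
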