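import Pool.Agent.Lib.SQF.RCB1
import Pool.Agent.Lib.SQF.S2

/-!
# SQF: vector form of the solution identity, and the degenerate case
(helper31, glue between the beta slices and the RC lemma)
-/

set_option autoImplicit false

namespace Pool.Agent.Lib.SQF.RCB

open Polynomial

lemma dvd_pol_eq_zero (g : ℤ[X]) (hd : g.natDegree = 4) (x : Fin 4 → ℤ) (h : g ∣ pol x) : x = 0 := by
  apply pol_inj g hd
  have : pol (0 : Fin 4 → ℤ) = 0 := by simp [pol]
  rw [this, sub_zero]; exact h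

lemma sol_vec {g : ℤ[X]} (hg : g.Monic) (hd : g.natDegree = 4) {K Y P : ℝ} {n : ℤ} {p : ℕ}
    {α β : Fin 4 → ℤ} {m : ℤ} (h : IsSol 4 g K Y P n p α β m) :
    mv g (mv g α α) β = ![m ^ 2 * n, -m ^ 2, 0, 0] := by
  apply pol_inj g hd
  obtain ⟨q1, h1⟩ := pol_mv g hg hd α α
  obtain ⟨q2, h2⟩ := pol_mv g hg hd (mv g α α) β
  obtain ⟨q3, h3⟩ := h.eqn
  have h4 : pol ![m ^ 2 * n, -m ^ 2, 0, 0] = C (m ^ 2) * (C n - X) := by
    unfold pol
    rw [Fin.sum_univ_four]
    simp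
    ring
  rw [h4]
  exact ⟨q3 - q1 * pol β - q2, by linear_combination h3 - pol β * h1 - h2⟩

lemma sol_not_sq {g : ℤ[X]} (hg : g.Monic) (hd : g.natDegree = 4) {K Y P : ℝ} {n : ℤ} {p : ℕ}
    {α β : Fin 4 → ℤ} {m : ℤ} (h : IsSol 4 g K Y P n p α β m) :
    ¬ (p : ℤ) ^ 2 ∣ (pol α).eval n := by
  intro hc
  have h1 := res_congr g hg (by omega) p h.prime n h.sq_dvd (pol α)
    (by rw [hd]; exact pol_natDegree_lt α)
  have h2 := h.res
  rw [hd] at h1
  rw [h2] at h1
  have h3 : (p : ℤ) ^ 2 ∣ p * m := by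
    have := dvd_add h1 (Dvd.dvd.mul_right hc (resultant (g /ₘ (X - C n)) (pol α) (4 - 1) 4))
    simpa using this
  apply h.not_dvd
  have hp0 : (p : ℤ) ≠ 0 := by exact_mod_cast h.prime.ne_zero
  rw [pow_two] at h3
  exact (mul_dvd_mul_iff_left hp0).1 h3

lemma sol_exists_coeff {g : ℤ[X]} (hg : g.Monic) (hd : g.natDegree = 4) {K Y P : ℝ} {n : ℤ}
    {p : ℕ} {α β : Fin 4 → ℤ} {m : ℤ} (h : IsSol 4 g K Y P n p α β m) :
    ∃ i, ¬ (p : ℤ) ∣ α i := by
  by_contra hc
  push Not at hc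
  choose γ hγ using hc
  have h1 := sol_vec hg hd h
  have h2 : α = fun i => (p : ℤ) * γ i := by funext i; exact hγ i
  rw [h2, mv_smul_left, mv_smul_right] at h1
  have h3 : mv g (fun k => (p : ℤ) * ((p : ℤ) * mv g γ γ k)) β =
      fun k => (p : ℤ) * ((p : ℤ) * mv g (mv g γ γ) β k) := by
    rw [mv_smul_left, mv_smul_left]
  rw [h3] at h1
  have h4 := congrFun h1 1
  simp only [Matrix.cons_val_one, Matrix.cons_val_zero] at h4
  have h5 : (p : ℤ) ∣ m ^ 2 := by
    rw [← dvd_neg, ← h4]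
    exact Dvd.intro _ rfl
  exact h.not_dvd ((Nat.prime_iff_prime_int.1 h.prime).dvd_of_dvd_pow h5)

lemma sol_alpha_ne {g : ℤ[X]} (hg : g.Monic) (hd : g.natDegree = 4) {K Y P : ℝ} {n : ℤ}
    {p : ℕ} {α β : Fin 4 → ℤ} {m : ℤ} (h : IsSol 4 g K Y P n p α β m) : α ≠ 0 := by
  obtain ⟨i, hi⟩ := sol_exists_coeff hg hd h
  intro h0
  apply hi
  rw [h0]; simp

section degenerate

variable {g : ℤ[X]}

/-- if `α² f₁`, `α² f₂` both lie in `⟨1, θ⟩` then their coefficient matrix is invertible -/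
private lemma det_ne (hg : g.Monic) (hirr : Irreducible g) (hd : g.natDegree = 4)
    (α f1 f2 : Fin 4 → ℤ) (hα : α ≠ 0) (hf : ∃ i j, f1 i * f2 j ≠ f1 j * f2 i)
    (h12 : mv g (mv g α α) f1 2 = 0) (h13 : mv g (mv g α α) f1 3 = 0)
    (h22 : mv g (mv g α α) f2 2 = 0) (h23 : mv g (mv g α α) f2 3 = 0) :
    mv g (mv g α α) f1 0 * mv g (mv g α α) f2 1 - mv g (mv g α α) f1 1 * mv g (mv g α α) f2 0 ≠ 0 := by
  set a := mv g (mv g α α) f1 0 with ha
  set b := mv g (mv g α α) f1 1 with hb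
  set c := mv g (mv g α α) f2 0 with hc
  set d := mv g (mv g α α) f2 1 with hdd
  intro h0
  -- a nontrivial relation
  have key : ∀ x y : ℤ, x * a + y * c = 0 → x * b + y * d = 0 → (x, y) = (0, 0) := by
    intro x y hx hy
    by_contra hne
    have h1 : mv g (mv g α α) (fun i => x * f1 i + y * f2 i) = 0 := by
      rw [mv_add_right, mv_smul_right, mv_smul_right]
      funext k
      fin_cases k
      · exact hx
      · exact hy
      · show x * mv g (mv g α α) f1 2 + y * mv g (mv g α α) f2 2 = 0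
        rw [h12, h22]; ring
      · show x * mv g (mv g α α) f1 3 + y * mv g (mv g α α) f2 3 = 0
        rw [h13, h23]; ring
    set w : Fin 4 → ℤ := fun i => x * f1 i + y * f2 i with hw
    obtain ⟨q1, e1⟩ := pol_mv g hg hd α α
    obtain ⟨q2, e2⟩ := pol_mv g hg hd (mv g α α) w
    rw [h1] at e2
    have h2 : pol (0 : Fin 4 → ℤ) = 0 := by simp [pol]
    rw [h2, sub_zero] at e2
    have h3 : g ∣ pol α * pol α * pol w := by
      exact ⟨q1 * pol w + q2, by linear_combination pol w * e1 + e2⟩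
    have hp : Prime g := hirr.prime
    rcases hp.dvd_or_dvd h3 with h4 | h4
    · rcases hp.dvd_or_dvd h4 with h5 | h5 <;> exact hα (dvd_pol_eq_zero g hd α h5)
    · have h5 := dvd_pol_eq_zero g hd w h4
      obtain ⟨i, j, hij⟩ := hf
      have h6 := congrFun h5 i
      have h7 := congrFun h5 j
      simp only [hw, Pi.zero_apply] at h6 h7
      apply hne
      have h8 : x * (f1 i * f2 j - f1 j * f2 i) = 0 := by linear_combination f2 j * h6 - f2 i * h7
      have h9 : y * (f1 i * f2 j - f1 j * f2 i) = 0 := by linear_combination f1 i * h7 - f1 j * h6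
      have h10 : f1 i * f2 j - f1 j * f2 i ≠ 0 := sub_ne_zero.2 hij
      rw [Prod.mk.injEq]
      exact ⟨(mul_eq_zero.1 h8).resolve_right h10, (mul_eq_zero.1 h9).resolve_right h10⟩
  have k1 := key d (-b) (by linear_combination h0) (by ring)
  rw [Prod.mk.injEq] at k1
  have k2 := key c (-a) (by ring) (by linear_combination -h0)
  rw [Prod.mk.injEq] at k2
  have hb0 : b = 0 := by linarith [k1.2]
  have ha0 : a = 0 := by linarith [k2.2]
  have k3 := key 1 0 (by rw [ha0]; ring) (by rw [hb0]; ring)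
  simp at k3

/-- two degenerate points have proportional squares -/
private lemma sq_prop (hg : g.Monic) (hirr : Irreducible g) (hd : g.natDegree = 4)
    (α α' f1 f2 : Fin 4 → ℤ) (hα : α ≠ 0) (hα' : α' ≠ 0) (hf : ∃ i j, f1 i * f2 j ≠ f1 j * f2 i)
    (h12 : mv g (mv g α α) f1 2 = 0) (h13 : mv g (mv g α α) f1 3 = 0)
    (h22 : mv g (mv g α α) f2 2 = 0) (h23 : mv g (mv g α α) f2 3 = 0)
    (h12' : mv g (mv g α' α') f1 2 = 0) (h13' : mv g (mv g α' α') f1 3 = 0)
    (h22' : mv g (mv g α' α') f2 2 = 0) (h23' : mv g (mv g α' α') f2 3 = 0) :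
    ∃ s t : ℤ, s ≠ 0 ∧ t ≠ 0 ∧ g ∣ C t * pol α' ^ 2 - C s * pol α ^ 2 := by
  have hdet := det_ne hg hirr hd α f1 f2 hα hf h12 h13 h22 h23
  have hdet' := det_ne hg hirr hd α' f1 f2 hα' hf h12' h13' h22' h23'
  have hpolf : ∀ (x : Fin 4 → ℤ), x 2 = 0 → x 3 = 0 → pol x = C (x 0) + C (x 1) * X := by
    intro x h2 h3
    unfold pol
    rw [Fin.sum_univ_four]
    simp [h2, h3]
  set a := mv g (mv g α α) f1 0 with ha
  set b := mv g (mv g α α) f1 1 with hb
  set c := mv g (mv g α α) f2 0 with hc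
  set d := mv g (mv g α α) f2 1 with hdd
  set a' := mv g (mv g α' α') f1 0 with ha'
  set b' := mv g (mv g α' α') f1 1 with hb'
  set c' := mv g (mv g α' α') f2 0 with hc'
  set d' := mv g (mv g α' α') f2 1 with hdd'
  obtain ⟨q, e⟩ := pol_mv g hg hd α α
  obtain ⟨q', e'⟩ := pol_mv g hg hd α' α'
  obtain ⟨r1, e1⟩ := pol_mv g hg hd (mv g α α) f1
  obtain ⟨r2, e2⟩ := pol_mv g hg hd (mv g α α) f2
  obtain ⟨r1', e1'⟩ := pol_mv g hg hd (mv g α' α') f1
  obtain ⟨r2', e2'⟩ := pol_mv g hg hd (mv g α' α') f2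
  rw [hpolf _ h12 h13, ← ha, ← hb] at e1
  rw [hpolf _ h22 h23, ← hc, ← hdd] at e2
  rw [hpolf _ h12' h13', ← ha', ← hb'] at e1'
  rw [hpolf _ h22' h23', ← hc', ← hdd'] at e2'
  -- α² f1 = a + b θ etc.
  have s1 : g ∣ pol α ^ 2 * pol f1 - (C a + C b * X) :=
    ⟨q * pol f1 + r1, by linear_combination pol f1 * e + e1⟩
  have s2 : g ∣ pol α ^ 2 * pol f2 - (C c + C d * X) :=
    ⟨q * pol f2 + r2, by linear_combination pol f2 * e + e2⟩
  have s1' : g ∣ pol α' ^ 2 * pol f1 - (C a' + C b' * X) :=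
    ⟨q' * pol f1 + r1', by linear_combination pol f1 * e' + e1'⟩
  have s2' : g ∣ pol α' ^ 2 * pol f2 - (C c' + C d' * X) :=
    ⟨q' * pol f2 + r2', by linear_combination pol f2 * e' + e2'⟩
  obtain ⟨t1, u1⟩ := s1
  obtain ⟨t2, u2⟩ := s2
  obtain ⟨t1', u1'⟩ := s1'
  obtain ⟨t2', u2'⟩ := s2'
  have hcross : g ∣ (C a + C b * X) * (C c' + C d' * X) - (C a' + C b' * X) * (C c + C d * X) := by
    refine ⟨-t1 * (pol α' ^ 2 * pol f2) - (C a + C b * X) * t2' +
      t1' * (pol α ^ 2 * pol f2) + (C a' + C b' * X) * t2, ?_⟩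
    linear_combination (-(pol α' ^ 2 * pol f2)) * u1 - (C a + C b * X) * u2' +
      (pol α ^ 2 * pol f2) * u1' + (C a' + C b' * X) * u2
  have hzero : pol ![a * c' - a' * c, a * d' + b * c' - a' * d - b' * c, b * d' - b' * d, 0] =
      (C a + C b * X) * (C c' + C d' * X) - (C a' + C b' * X) * (C c + C d * X) := by
    unfold pol
    rw [Fin.sum_univ_four]
    simp
    ring
  have hv := dvd_pol_eq_zero g hd _ (hzero ▸ hcross)
  have v0 := congrFun hv 0
  have v1 := congrFun hv 1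
  have v2 := congrFun hv 2
  simp at v0 v1 v2
  -- E = a'b - ab', F = a'd - ad'
  have hF : (a * d - b * c) * (a' * d - a * d') = 0 := by
    linear_combination (b * d) * v0 - (a * d) * v1 + (a * c) * v2
  have hF0 : a' * d - a * d' = 0 := (mul_eq_zero.1 hF).resolve_left hdet
  have hcE : c * (a' * b - a * b') = 0 := by
    linear_combination a * hF0 - b * v0 + a * v1
  have hdE : d * (a' * b - a * b') = 0 := by
    linear_combination b * hF0 + a * v2
  have hE0 : a' * b - a * b' = 0 := by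
    rcases mul_eq_zero.1 hcE with h | h
    · rcases mul_eq_zero.1 hdE with h' | h'
      · exfalso; apply hdet; rw [h, h']; ring
      · exact h'
    · exact h
  have hF1 : ¬ g ∣ pol f1 := by
    intro h
    have h0 := dvd_pol_eq_zero g hd f1 h
    obtain ⟨i, j, hij⟩ := hf
    apply hij
    rw [h0]; simp
  have hprime : Prime g := hirr.prime
  have hαg : ¬ g ∣ pol α := fun h => hα (dvd_pol_eq_zero g hd α h)
  have hαg' : ¬ g ∣ pol α' := fun h => hα' (dvd_pol_eq_zero g hd α' h)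
  have hC : ∀ x : ℤ, x ≠ 0 → ¬ g ∣ C x := by
    intro x hx h
    have h1 := natDegree_le_of_dvd h (by simpa using hx)
    rw [natDegree_C] at h1; omega
  have main : ∀ s t : ℤ, t ≠ 0 → t * a' = s * a → t * b' = s * b →
      ∃ s t : ℤ, s ≠ 0 ∧ t ≠ 0 ∧ g ∣ C t * pol α' ^ 2 - C s * pol α ^ 2 := by
    intro s t ht hA hB
    have h1 : g ∣ (C t * pol α' ^ 2 - C s * pol α ^ 2) * pol f1 := by
      have hA' : (C t * C a' : ℤ[X]) = C s * C a := by rw [← C_mul, ← C_mul, hA]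
      have hB' : (C t * C b' : ℤ[X]) = C s * C b := by rw [← C_mul, ← C_mul, hB]
      exact ⟨C t * t1' - C s * t1, by
        linear_combination C t * u1' - C s * u1 + hA' + X * hB'⟩
    have h2 := (hprime.dvd_or_dvd h1).resolve_right hF1
    refine ⟨s, t, ?_, ht, h2⟩
    rintro rfl
    rw [C_0, zero_mul, sub_zero] at h2
    rcases hprime.dvd_or_dvd h2 with h3 | h3
    · exact hC t ht h3
    · exact hαg' (hprime.dvd_of_dvd_pow h3)
  by_cases hb0 : b = 0
  · have ha0 : a ≠ 0 := by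
      intro h; apply hdet; rw [h, hb0]; ring
    refine main a' a ha0 (by ring) ?_
    linear_combination -hE0
  · refine main b' b hb0 ?_ (by ring)
    linear_combination hE0

/-- the norm argument: the primes agree and the squares agree up to sign -/
private lemma same_prime (hg : g.Monic) (hd : g.natDegree = 4) {K Y P : ℝ} {n n' : ℤ}
    {p p' : ℕ} {α α' β β' : Fin 4 → ℤ} {m : ℤ} (h : IsSol 4 g K Y P n p α β m)
    (h' : IsSol 4 g K Y P n' p' α' β' m) (s t : ℤ) (hs : s ≠ 0) (ht : t ≠ 0)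
    (hst : g ∣ C t * pol α' ^ 2 - C s * pol α ^ 2) : p = p' ∧ (s = t ∨ s = -t) := by
  have hz : ∀ z ∈ g.aroots ℂ, (t : ℂ) * (aeval z (pol α')) ^ 2 = s * (aeval z (pol α)) ^ 2 := by
    intro z hz
    have hz' : aeval z g = 0 := (mem_aroots.1 hz).2
    obtain ⟨q, hq⟩ := hst
    have := congrArg (aeval z) hq
    rw [map_mul, hz', zero_mul] at this
    simp only [map_sub, map_mul, map_pow, aeval_C] at this
    have h2 := sub_eq_zero.1 this
    simpa using h2
  have hr := resultant_cast g hg (pol α) 4 (pol_natDegree_lt α).le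
  have hr' := resultant_cast g hg (pol α') 4 (pol_natDegree_lt α').le
  rw [hd] at hr hr'
  rw [h.res] at hr
  rw [h'.res] at hr'
  have hcard : (g.aroots ℂ).card = 4 := by
    have h1 : Splits (g.map (algebraMap ℤ ℂ)) := IsAlgClosed.splits _
    have h2 := h1.natDegree_eq_card_roots
    rw [hg.natDegree_map, hd] at h2
    exact h2.symm
  have hprod : (t : ℂ) ^ 4 * (((p' : ℤ) * m : ℤ) : ℂ) ^ 2 = (s : ℂ) ^ 4 * (((p : ℤ) * m : ℤ) : ℂ) ^ 2 := by
    rw [hr, hr']
    have e1 : ∀ (c : ℂ) (w : Fin 4 → ℤ), c ^ 4 * ((g.aroots ℂ).map (fun z => aeval z (pol w))).prod ^ 2 =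
        ((g.aroots ℂ).map (fun z => c * (aeval z (pol w)) ^ 2)).prod := by
      intro c w
      rw [Multiset.prod_map_mul, Multiset.prod_map_pow, Multiset.map_const', Multiset.prod_replicate,
        hcard]
    rw [e1, e1]
    congr 1
    exact Multiset.map_congr rfl hz
  have hint : t ^ 4 * ((p' : ℤ) * m) ^ 2 = s ^ 4 * ((p : ℤ) * m) ^ 2 := by exact_mod_cast hprod
  have hm : m ^ 2 ≠ 0 := pow_ne_zero _ h.m_ne
  have h1 : (t ^ 2 * (p' : ℤ)) ^ 2 = (s ^ 2 * (p : ℤ)) ^ 2 := by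
    apply mul_right_cancel₀ hm
    linear_combination hint
  have h2 : t ^ 2 * (p' : ℤ) = s ^ 2 * (p : ℤ) := by
    have h3 : (0 : ℤ) ≤ t ^ 2 * (p' : ℤ) := by positivity
    have h4 : (0 : ℤ) ≤ s ^ 2 * (p : ℤ) := by positivity
    exact (pow_left_inj₀ h3 h4 (by norm_num)).1 h1
  have hpp : p = p' := by
    by_contra hne
    have hf : Fact p.Prime := ⟨h.prime⟩
    have h5 := congrArg (padicValInt p) h2
    have hp0 : (p : ℤ) ≠ 0 := by exact_mod_cast h.prime.ne_zero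
    have hp0' : (p' : ℤ) ≠ 0 := by exact_mod_cast h'.prime.ne_zero
    rw [padicValInt.mul (pow_ne_zero _ ht) hp0', padicValInt.mul (pow_ne_zero _ hs) hp0] at h5
    have h6 : padicValInt p (t ^ 2) = 2 * padicValInt p t := by
      rw [pow_two, padicValInt.mul ht ht]; ring
    have h7 : padicValInt p (s ^ 2) = 2 * padicValInt p s := by
      rw [pow_two, padicValInt.mul hs hs]; ring
    have h8 : padicValInt p (p : ℤ) = 1 := by
      rw [padicValInt.of_nat]; exact padicValNat_self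
    have h9 : padicValInt p (p' : ℤ) = 0 := by
      rw [padicValInt.of_nat]
      exact padicValNat.eq_zero_of_not_dvd (fun hdv =>
        hne ((Nat.prime_dvd_prime_iff_eq h.prime h'.prime).1 hdv))
    omega
  refine ⟨hpp, ?_⟩
  rw [← hpp] at h2
  have hp0 : (p : ℤ) ≠ 0 := by exact_mod_cast h.prime.ne_zero
  have h10 : t ^ 2 = s ^ 2 := mul_right_cancel₀ hp0 h2
  rcases sq_eq_sq_iff_eq_or_eq_neg.1 h10.symm with h | h
  · exact Or.inl h
  · exact Or.inr h

/-- equal squares give equal `n` -/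
private lemma same_n {K Y P : ℝ} (hY : 4 ≤ Y) (hP : Y ≤ P)
    {n n' : ℤ} {p : ℕ} {α α' β β' : Fin 4 → ℤ} {m : ℤ} (h : IsSol 4 g K Y P n p α β m)
    (h' : IsSol 4 g K Y P n' p α' β' m) (he : g ∣ pol α' ^ 2 - pol α ^ 2) : n = n' := by
  have h1 : (p : ℤ) ^ 2 ∣ (pol α).eval n' ^ 2 := by
    obtain ⟨q, hq⟩ := he
    have h2 := congrArg (eval n') hq
    rw [eval_mul] at h2
    simp only [eval_sub, eval_pow] at h2
    have h3 : (p : ℤ) ^ 2 ∣ (pol α').eval n' ^ 2 := pow_dvd_pow_of_dvd h'.dvd_eval 2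
    have h4 : (p : ℤ) ^ 2 ∣ g.eval n' * q.eval n' := Dvd.dvd.mul_right h'.sq_dvd _
    have h5 : (pol α).eval n' ^ 2 = (pol α').eval n' ^ 2 - g.eval n' * q.eval n' := by
      linear_combination -h2
    rw [h5]; exact dvd_sub h3 h4
  have h2 : (p : ℤ) ^ 2 ∣ m ^ 2 * (n - n') := by
    obtain ⟨q, hq⟩ := h.eqn
    have h3 := congrArg (eval n') hq
    rw [eval_mul] at h3
    simp only [eval_sub, eval_mul, eval_pow, eval_C, eval_X] at h3
    have h5 : m ^ 2 * (n - n') = (pol α).eval n' ^ 2 * (pol β).eval n' - g.eval n' * q.eval n' := by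
      linear_combination -h3
    rw [h5]
    exact dvd_sub (Dvd.dvd.mul_right h1 _) (Dvd.dvd.mul_right h'.sq_dvd _)
  have hcop : IsCoprime ((p : ℤ) ^ 2) (m ^ 2) := by
    apply IsCoprime.pow
    exact (Nat.prime_iff_prime_int.1 h.prime).coprime_iff_not_dvd.2 h.not_dvd
  have h3 : (p : ℤ) ^ 2 ∣ n - n' := hcop.dvd_of_dvd_mul_left h2
  by_contra hne
  have h4 : ((p : ℤ) ^ 2) ≤ |n - n'| := by
    have := Int.le_of_dvd (abs_pos.2 (sub_ne_zero.2 hne)) ((dvd_abs _ _).2 h3)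
    exact this
  have h5 : ((p : ℝ)) ^ 2 ≤ |((n - n' : ℤ) : ℝ)| := by exact_mod_cast h4
  have h6 : |((n - n' : ℤ) : ℝ)| ≤ |(n : ℝ)| + |(n' : ℝ)| := by
    push_cast; exact abs_sub _ _
  have h7 := h.upper
  have h8 := h'.upper
  have h9 : Y ≤ p := hP.trans h.ple
  nlinarith

/-- the degenerate points: at most two values of `n` -/
theorem degenerate_card (hg : g.Monic) (hirr : Irreducible g) (hd : g.natDegree = 4) {K Y P : ℝ}
    (hY : 4 ≤ Y) (hP : Y ≤ P) (f1 f2 : Fin 4 → ℤ) (hf : ∃ i j, f1 i * f2 j ≠ f1 j * f2 i) (m : ℤ)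
    {ι : Type*} (T : Finset ι) (n : ι → ℤ) (hn : Set.InjOn n T) (p : ι → ℕ)
    (α β : ι → Fin 4 → ℤ) (hsol : ∀ z ∈ T, IsSol 4 g K Y P (n z) (p z) (α z) (β z) m)
    (h1 : ∀ z ∈ T, mv g (mv g (α z) (α z)) f1 2 = 0 ∧ mv g (mv g (α z) (α z)) f1 3 = 0 ∧
      mv g (mv g (α z) (α z)) f2 2 = 0 ∧ mv g (mv g (α z) (α z)) f2 3 = 0) : T.card ≤ 2 := by
  classical
  by_contra hc
  push Not at hc
  obtain ⟨x, hx, y, hy, z, hz, hxy, hxz, hyz⟩ := Finset.two_lt_card.1 hc
  have hne : ∀ w ∈ T, α w ≠ 0 := fun w hw => sol_alpha_ne hg hd (hsol w hw)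
  have key : ∀ w ∈ T, p x = p w ∧ (g ∣ pol (α w) ^ 2 - pol (α x) ^ 2 ∨
      g ∣ pol (α w) ^ 2 + pol (α x) ^ 2) := by
    intro w hw
    obtain ⟨a1, a2, a3, a4⟩ := h1 x hx
    obtain ⟨b1, b2, b3, b4⟩ := h1 w hw
    obtain ⟨s, t, hs, ht, hst⟩ := sq_prop hg hirr hd (α x) (α w) f1 f2 (hne x hx) (hne w hw) hf
      a1 a2 a3 a4 b1 b2 b3 b4
    obtain ⟨hp, hst'⟩ := same_prime hg hd (hsol x hx) (hsol w hw) s t hs ht hst
    refine ⟨hp, ?_⟩
    have hC : ¬ g ∣ C t := by
      intro h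
      have h1 := natDegree_le_of_dvd h (by simpa using ht)
      rw [natDegree_C] at h1; omega
    rcases hst' with rfl | rfl
    · left
      have : g ∣ C s * (pol (α w) ^ 2 - pol (α x) ^ 2) := by
        have e : C s * (pol (α w) ^ 2 - pol (α x) ^ 2) =
          C s * pol (α w) ^ 2 - C s * pol (α x) ^ 2 := by ring
        rw [e]; exact hst
      exact (hirr.prime.dvd_or_dvd this).resolve_left hC
    · right
      have : g ∣ C t * (pol (α w) ^ 2 + pol (α x) ^ 2) := by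
        have e : C t * (pol (α w) ^ 2 + pol (α x) ^ 2) =
          C t * pol (α w) ^ 2 - C (-t) * pol (α x) ^ 2 := by rw [C_neg]; ring
        rw [e]; exact hst
      exact (hirr.prime.dvd_or_dvd this).resolve_left hC
  have fin : ∀ w ∈ T, ∀ w' ∈ T, p w = p w' → g ∣ pol (α w') ^ 2 - pol (α w) ^ 2 → w = w' := by
    intro w hw w' hw' hpw hdv
    apply hn hw hw'
    have h2 := hsol w hw
    have h3 := hsol w' hw'
    rw [← hpw] at h3
    exact same_n hY hP h2 h3 hdv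
  obtain ⟨hpy, hy'⟩ := key y hy
  obtain ⟨hpz, hz'⟩ := key z hz
  rcases hy' with h | h
  · exact hxy (fin x hx y hy hpy h)
  · rcases hz' with h' | h'
    · exact hxz (fin x hx z hz hpz h')
    · refine hyz (fin y hy z hz (hpy.symm.trans hpz) ?_)
      have : pol (α z) ^ 2 - pol (α y) ^ 2 =
        (pol (α z) ^ 2 + pol (α x) ^ 2) - (pol (α y) ^ 2 + pol (α x) ^ 2) := by ring
      rw [this]; exact dvd_sub h' h

end degenerate

end Pool.Agent.Lib.SQF.RCB
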