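import Pool.Agent.Lib.SQF.RCB2

/-!
# SQF: the core of the beta-side callers of the RC lemma
(helper31)

If the `α` of the solutions on a beta slice are proportional to the values of a vector of binary
forms of bounded degree and height then the number of solutions is `≤ K Y^ε`, granted the
counting lemma for parametrised curves.
-/

set_option autoImplicit false

namespace Pool.Agent.Lib.SQF.RCB

open Polynomial Pool.Agent.SQF4

/-- the statement of the counting lemma for parametrised curves (`rat_count`) -/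
def RatStmt (g : ℤ[X]) : Prop :=
  ∀ (a k : ℕ) (C L ε : ℝ), 0 < ε → ∃ K : ℝ, 0 < K ∧ ∀ Y : ℝ, 1 ≤ Y →
    ∀ (A : Fin 4 → ℤ[X]) (Xi Psi : ℤ[X]), (∀ i, (A i).natDegree ≤ a) → Xi.natDegree ≤ k →
      Psi.natDegree ≤ k → (∀ i j, |(((A i).coeff j : ℤ) : ℝ)| ≤ Y ^ C) →
      (∀ j, |((Xi.coeff j : ℤ) : ℝ)| ≤ Y ^ C) → (∀ j, |((Psi.coeff j : ℤ) : ℝ)| ≤ Y ^ C) →
      ∀ {ι : Type} (T : Finset ι) (n : ι → ℤ), Set.InjOn n T →
      (∀ z ∈ T, ∃ (s r : ℤ) (p : ℕ) (alpha : Fin 4 → ℤ), IsCoprime s r ∧ |(s : ℝ)| ≤ Y ^ C ∧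
        |(r : ℝ)| ≤ Y ^ C ∧ (∃ i, hf (A i) a s r ≠ 0) ∧
        (∀ i j, alpha i * hf (A j) a s r = alpha j * hf (A i) a s r) ∧
        hf Psi k s r ≠ 0 ∧ n z * hf Psi k s r = hf Xi k s r ∧ |((n z : ℤ) : ℝ)| ≤ L * Y ∧
        p.Prime ∧ Y ≤ L * p ∧ (p : ℤ) ^ 2 ∣ g.eval (n z) ∧
        (p : ℤ) ∣ ∑ i : Fin 4, alpha i * (n z) ^ (i : ℕ) ∧
        ¬ (p : ℤ) ^ 2 ∣ ∑ i : Fin 4, alpha i * (n z) ^ (i : ℕ) ∧
        (∃ i, ¬ (p : ℤ) ∣ alpha i)) →
      (T.card : ℝ) ≤ K * Y ^ ε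

section coefs

lemma cb_mul (P Q : ℤ[X]) (d : ℕ) (hP : P.natDegree ≤ d) (T1 T2 : ℝ) (h1 : 0 ≤ T1) (h2 : 0 ≤ T2)
    (hp : ∀ j, |((P.coeff j : ℤ) : ℝ)| ≤ T1) (hq : ∀ j, |((Q.coeff j : ℤ) : ℝ)| ≤ T2) (k : ℕ) :
    |(((P * Q).coeff k : ℤ) : ℝ)| ≤ (d + 1) * T1 * T2 := by
  classical
  rw [coeff_mul]
  push_cast
  refine (Finset.abs_sum_le_sum_abs _ _).trans ?_
  have h3 : ∀ x ∈ Finset.HasAntidiagonal.antidiagonal k, |((P.coeff x.1 : ℤ) : ℝ) * ((Q.coeff x.2 : ℤ) : ℝ)| ≤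
      if x.1 ≤ d then T1 * T2 else 0 := by
    intro x _
    split_ifs with h
    · rw [abs_mul]; exact mul_le_mul (hp _) (hq _) (abs_nonneg _) h1
    · rw [coeff_eq_zero_of_natDegree_lt (by omega)]; simp
  refine (Finset.sum_le_sum h3).trans ?_
  rw [← Finset.sum_filter, Finset.sum_const, nsmul_eq_mul]
  have h4 : ((Finset.HasAntidiagonal.antidiagonal k).filter (fun x => x.1 ≤ d)).card ≤ d + 1 := by
    rw [← Finset.card_range (d + 1)]
    refine Finset.card_le_card_of_injOn (fun x => x.1) ?_ ?_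
    · intro x hx
      have h6 : x.1 ≤ d := (Finset.mem_filter.1 hx).2
      show x.1 ∈ ((Finset.range (d + 1) : Finset ℕ) : Set ℕ)
      exact Finset.mem_coe.2 (Finset.mem_range.2 (by omega))
    · intro x hx y hy hxy
      have h5 := Finset.HasAntidiagonal.mem_antidiagonal.1 (Finset.mem_filter.1 hx).1
      have h6 := Finset.HasAntidiagonal.mem_antidiagonal.1 (Finset.mem_filter.1 hy).1
      simp only at hxy
      ext
      · exact hxy
      · omega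
  have h5 : (((Finset.HasAntidiagonal.antidiagonal k).filter (fun x => x.1 ≤ d)).card : ℝ) ≤ d + 1 := by
    exact_mod_cast h4
  nlinarith [mul_nonneg h1 h2]

lemma exists_mcoef (g : ℤ[X]) : ∃ c : ℝ, 1 ≤ c ∧ ∀ i j k : Fin 4,
    |(((((X : ℤ[X]) ^ (i : ℕ) * X ^ (j : ℕ)) %ₘ g).coeff k : ℤ) : ℝ)| ≤ c := by
  classical
  refine ⟨1 + ∑ i : Fin 4, ∑ j : Fin 4, ∑ k : Fin 4,
    |(((((X : ℤ[X]) ^ (i : ℕ) * X ^ (j : ℕ)) %ₘ g).coeff k : ℤ) : ℝ)|, ?_, ?_⟩
  · have : (0 : ℝ) ≤ ∑ i : Fin 4, ∑ j : Fin 4, ∑ k : Fin 4,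
        |(((((X : ℤ[X]) ^ (i : ℕ) * X ^ (j : ℕ)) %ₘ g).coeff k : ℤ) : ℝ)| :=
      Finset.sum_nonneg fun _ _ => Finset.sum_nonneg fun _ _ => Finset.sum_nonneg fun _ _ =>
        abs_nonneg _
    linarith
  · intro i j k
    have h1 := Finset.single_le_sum (f := fun k : Fin 4 =>
      |(((((X : ℤ[X]) ^ (i : ℕ) * X ^ (j : ℕ)) %ₘ g).coeff k : ℤ) : ℝ)|)
      (fun _ _ => abs_nonneg _) (Finset.mem_univ k)
    have h2 := Finset.single_le_sum (f := fun j : Fin 4 => ∑ k : Fin 4,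
      |(((((X : ℤ[X]) ^ (i : ℕ) * X ^ (j : ℕ)) %ₘ g).coeff k : ℤ) : ℝ)|)
      (fun _ _ => Finset.sum_nonneg fun _ _ => abs_nonneg _) (Finset.mem_univ j)
    have h3 := Finset.single_le_sum (f := fun i : Fin 4 => ∑ j : Fin 4, ∑ k : Fin 4,
      |(((((X : ℤ[X]) ^ (i : ℕ) * X ^ (j : ℕ)) %ₘ g).coeff k : ℤ) : ℝ)|)
      (fun _ _ => Finset.sum_nonneg fun _ _ => Finset.sum_nonneg fun _ _ => abs_nonneg _)
      (Finset.mem_univ i)
    linarith

lemma cb_mv (g : ℤ[X]) (c : ℝ) (hc1 : 1 ≤ c) (hc : ∀ i j k : Fin 4,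
    |(((((X : ℤ[X]) ^ (i : ℕ) * X ^ (j : ℕ)) %ₘ g).coeff k : ℤ) : ℝ)| ≤ c)
    (x y : Fin 4 → ℤ[X]) (d : ℕ) (hx : ∀ i, (x i).natDegree ≤ d) (T1 T2 : ℝ) (h1 : 0 ≤ T1)
    (h2 : 0 ≤ T2) (hp : ∀ i j, |(((x i).coeff j : ℤ) : ℝ)| ≤ T1)
    (hq : ∀ i j, |(((y i).coeff j : ℤ) : ℝ)| ≤ T2) (k : Fin 4) (l : ℕ) :
    |(((mv g x y k).coeff l : ℤ) : ℝ)| ≤ 16 * c * ((d + 1) * T1 * T2) := by
  unfold mv
  rw [finsetSum_coeff]
  push_cast
  refine (Finset.abs_sum_le_sum_abs _ _).trans ?_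
  have h3 : ∀ i ∈ (Finset.univ : Finset (Fin 4)), |(((∑ j : Fin 4,
      (((((X : ℤ[X]) ^ (i : ℕ) * X ^ (j : ℕ)) %ₘ g).coeff k : ℤ) : ℤ[X]) * x i * y j).coeff l : ℤ) : ℝ)| ≤
      4 * (c * ((d + 1) * T1 * T2)) := by
    intro i _
    rw [finsetSum_coeff]
    push_cast
    refine (Finset.abs_sum_le_sum_abs _ _).trans ?_
    have h4 : ∀ j ∈ (Finset.univ : Finset (Fin 4)),
        |((((((((X : ℤ[X]) ^ (i : ℕ) * X ^ (j : ℕ)) %ₘ g).coeff k : ℤ) : ℤ[X]) * x i * y j).coeff l : ℤ) : ℝ)| ≤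
        c * ((d + 1) * T1 * T2) := by
      intro j _
      rw [← C_eq_intCast, mul_assoc, coeff_C_mul]
      push_cast
      rw [abs_mul]
      exact mul_le_mul (hc i j k) (cb_mul _ _ d (hx i) T1 T2 h1 h2 (hp i) (hq j) l)
        (abs_nonneg _) (by linarith)
    refine (Finset.sum_le_sum h4).trans ?_
    simp
  refine (Finset.sum_le_sum h3).trans ?_
  simp
  linarith

end coefs

/-- the vector `α² f` at coefficient `k` -/
noncomputable def qv (g : ℤ[X]) {R : Type*} [CommRing R] (x f : Fin 4 → R) (k : Fin 4) : R :=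
  mv g (mv g x x) f k

lemma qv_smul (g : ℤ[X]) {R : Type*} [CommRing R] (c : R) (x f : Fin 4 → R) (k : Fin 4) :
    qv g (fun i => c * x i) f k = c ^ 2 * qv g x f k := by
  unfold qv
  rw [mv_smul_left, mv_smul_right]
  have h : mv g (fun k => c * (c * mv g x x k)) f = fun k => c * (c * mv g (mv g x x) f k) := by
    rw [mv_smul_left, mv_smul_left]
  rw [h]; ring

/-- the point computation: at a solution `n Psi = Xi`, `Psi ≠ 0` -/
lemma point_identity {g : ℤ[X]} (hg : g.Monic) (hd : g.natDegree = 4) {K Y P : ℝ} {n : ℤ} {p : ℕ}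
    {α β : Fin 4 → ℤ} {m : ℤ} (h : IsSol 4 g K Y P n p α β m) (f1 f2 : Fin 4 → ℤ) (u v : ℤ)
    (hs : OnSlice f1 f2 β u v) (k : Fin 4) (hk : k = 2 ∨ k = 3) (a : Fin 4 → ℤ)
    (ha : ∃ i, a i ≠ 0) (hprop : ∀ i j, α i * a j = α j * a i)
    (hnd : qv g α f1 k ≠ 0 ∨ qv g α f2 k ≠ 0) :
    qv g a f1 k * qv g a f2 1 - qv g a f2 k * qv g a f1 1 ≠ 0 ∧
    n * (qv g a f1 k * qv g a f2 1 - qv g a f2 k * qv g a f1 1) =
      qv g a f2 k * qv g a f1 0 - qv g a f1 k * qv g a f2 0 := by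
  obtain ⟨i0, hi0⟩ := ha
  have hα := sol_alpha_ne hg hd h
  have hα0 : α i0 ≠ 0 := by
    intro h0
    apply hα
    funext j
    have h1 := hprop i0 j
    rw [h0, zero_mul] at h1
    exact (mul_eq_zero.1 h1.symm).resolve_right hi0
  set x := α i0 with hx
  set y := a i0 with hy
  have hxy : (fun j => x * a j) = fun j => y * α j := by
    funext j
    have := hprop i0 j
    rw [this]; ring
  have hq : ∀ f : Fin 4 → ℤ, ∀ j, x ^ 2 * qv g a f j = y ^ 2 * qv g α f j := by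
    intro f j
    rw [← qv_smul, ← qv_smul, hxy]
  have hvec := sol_vec hg hd h
  have hβ : β = fun i => u * f1 i + v * f2 i := by funext i; exact hs i
  rw [hβ, mv_add_right, mv_smul_right, mv_smul_right] at hvec
  have e : ∀ j, u * qv g α f1 j + v * qv g α f2 j = (![m ^ 2 * n, -m ^ 2, 0, 0] : Fin 4 → ℤ) j := by
    intro j; exact congrFun hvec j
  have e0 : u * qv g α f1 0 + v * qv g α f2 0 = m ^ 2 * n := by have := e 0; simpa using this
  have e1 : u * qv g α f1 1 + v * qv g α f2 1 = -m ^ 2 := by have := e 1; simpa using this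
  have ek : u * qv g α f1 k + v * qv g α f2 k = 0 := by
    rcases hk with rfl | rfl
    · have := e 2; simpa using this
    · have := e 3; simpa using this
  have hx2 : x ^ 2 ≠ 0 := pow_ne_zero _ hα0
  have hy2 : y ^ 2 ≠ 0 := pow_ne_zero _ hi0
  have hm2 : m ^ 2 ≠ 0 := pow_ne_zero _ h.m_ne
  -- at `a`
  have E0 : x ^ 2 * (u * qv g a f1 0 + v * qv g a f2 0) = y ^ 2 * (m ^ 2 * n) := by
    linear_combination u * hq f1 0 + v * hq f2 0 + y ^ 2 * e0
  have E1 : x ^ 2 * (u * qv g a f1 1 + v * qv g a f2 1) = y ^ 2 * (-m ^ 2) := by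
    linear_combination u * hq f1 1 + v * hq f2 1 + y ^ 2 * e1
  have Ek : u * qv g a f1 k + v * qv g a f2 k = 0 := by
    have : x ^ 2 * (u * qv g a f1 k + v * qv g a f2 k) = 0 := by
      linear_combination u * hq f1 k + v * hq f2 k + y ^ 2 * ek
    exact (mul_eq_zero.1 this).resolve_left hx2
  have hnd' : qv g a f1 k ≠ 0 ∨ qv g a f2 k ≠ 0 := by
    rcases hnd with h1 | h1
    · left; intro h2
      have := hq f1 k
      rw [h2, mul_zero] at this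
      exact h1 ((mul_eq_zero.1 this.symm).resolve_left hy2)
    · right; intro h2
      have := hq f2 k
      rw [h2, mul_zero] at this
      exact h1 ((mul_eq_zero.1 this.symm).resolve_left hy2)
  generalize qv g a f1 0 = P0 at *
  generalize qv g a f1 1 = P1 at *
  generalize qv g a f1 k = Pk at *
  generalize qv g a f2 0 = Q0 at *
  generalize qv g a f2 1 = Q1 at *
  generalize qv g a f2 k = Qk at *
  have hV : x ^ 2 * (v * (Pk * Q1 - Qk * P1)) = -(y ^ 2 * m ^ 2 * Pk) := by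
    linear_combination Pk * E1 - x ^ 2 * P1 * Ek
  have hU : x ^ 2 * (u * (Pk * Q1 - Qk * P1)) = y ^ 2 * m ^ 2 * Qk := by
    linear_combination (-Qk) * E1 + x ^ 2 * Q1 * Ek
  have hne : Pk * Q1 - Qk * P1 ≠ 0 := by
    intro h0
    rw [h0] at hV hU
    rcases hnd' with h1 | h1
    · apply h1
      have : y ^ 2 * m ^ 2 * Pk = 0 := by linear_combination hV
      exact (mul_eq_zero.1 this).resolve_left (mul_ne_zero hy2 hm2)
    · apply h1
      have : y ^ 2 * m ^ 2 * Qk = 0 := by linear_combination -hU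
      exact (mul_eq_zero.1 this).resolve_left (mul_ne_zero hy2 hm2)
  refine ⟨hne, ?_⟩
  have hV' : x ^ 2 * (v * (Qk * P0 - Pk * Q0)) = n * (x ^ 2 * (v * (Pk * Q1 - Qk * P1))) := by
    rw [hV]; linear_combination (-Pk) * E0 + x ^ 2 * P0 * Ek
  have hU' : x ^ 2 * (u * (Qk * P0 - Pk * Q0)) = n * (x ^ 2 * (u * (Pk * Q1 - Qk * P1))) := by
    rw [hU]; linear_combination Qk * E0 - x ^ 2 * Q0 * Ek
  have huv : u ≠ 0 ∨ v ≠ 0 := by
    by_contra hc
    push Not at hc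
    rw [hc.1, hc.2] at E1
    simp at E1
    rcases E1 with h1 | h1
    · exact hi0 h1
    · exact h.m_ne h1
  rcases huv with h1 | h1
  · have h2 : (x ^ 2 * u) * (n * (Pk * Q1 - Qk * P1) - (Qk * P0 - Pk * Q0)) = 0 := by
      linear_combination -hU'
    have h3 := (mul_eq_zero.1 h2).resolve_left (mul_ne_zero hx2 h1)
    linear_combination h3
  · have h2 : (x ^ 2 * v) * (n * (Pk * Q1 - Qk * P1) - (Qk * P0 - Pk * Q0)) = 0 := by
      linear_combination -hV'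
    have h3 := (mul_eq_zero.1 h2).resolve_left (mul_ne_zero hx2 h1)
    linear_combination h3

lemma hf_scale (P : ℤ[X]) (k : ℕ) (d u v : ℤ) : hf P k (d * u) (d * v) = d ^ k * hf P k u v := by
  unfold hf
  rw [Finset.mul_sum]
  refine Finset.sum_congr rfl fun i hi => ?_
  have hi' := Finset.mem_range.1 hi
  have h1 : d ^ k = d ^ i * d ^ (k - i) := by rw [← pow_add]; congr 1; omega
  rw [h1, mul_pow, mul_pow]; ring

/-- homogeneous evaluation of `α² f` -/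
lemma hf_qv (g : ℤ[X]) (A : Fin 4 → ℤ[X]) (a : ℕ) (hA : ∀ i, (A i).natDegree ≤ a) (f : Fin 4 → ℤ)
    (s r : ℤ) (j : Fin 4) :
    hf (qv g A (fun i => C (f i)) j) (a + a + 0) s r = qv g (fun i => hf (A i) a s r) f j := by
  unfold qv
  rw [hf_mv g (mv g A A) (fun i => C (f i)) (a + a) 0 (natDegree_mv g A A a a hA hA)
    (fun _ => (natDegree_C _).le)]
  have h1 : (fun i => hf (mv g A A i) (a + a) s r) =
      mv g (fun i => hf (A i) a s r) (fun i => hf (A i) a s r) := by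
    funext i; exact hf_mv g A A a a hA hA s r i
  have h2 : (fun i => hf (C (f i)) 0 s r) = f := by
    funext i; rw [hf_C, pow_zero, mul_one]
  rw [h1, h2]

lemma natDegree_qv (g : ℤ[X]) (A : Fin 4 → ℤ[X]) (a : ℕ) (hA : ∀ i, (A i).natDegree ≤ a)
    (f : Fin 4 → ℤ) (j : Fin 4) : (qv g A (fun i => C (f i)) j).natDegree ≤ a + a + 0 :=
  natDegree_mv g (mv g A A) (fun i => C (f i)) (a + a) 0 (natDegree_mv g A A a a hA hA)
    (fun i => (natDegree_C _).le) j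

lemma cb_qv (g : ℤ[X]) (c : ℝ) (hc1 : 1 ≤ c) (hc : ∀ i j k : Fin 4,
    |(((((X : ℤ[X]) ^ (i : ℕ) * X ^ (j : ℕ)) %ₘ g).coeff k : ℤ) : ℝ)| ≤ c)
    (A : Fin 4 → ℤ[X]) (a : ℕ) (hA : ∀ i, (A i).natDegree ≤ a) (f : Fin 4 → ℤ) (T : ℝ) (hT : 0 ≤ T)
    (hp : ∀ i j, |(((A i).coeff j : ℤ) : ℝ)| ≤ T) (hq : ∀ i, |((f i : ℤ) : ℝ)| ≤ T)
    (k : Fin 4) (l : ℕ) :
    |(((qv g A (fun i => C (f i)) k).coeff l : ℤ) : ℝ)| ≤
      (16 * c * ((a + a : ℕ) + 1)) * (16 * c * (a + 1)) * T ^ 3 := by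
  unfold qv
  have h1 : ∀ i j, |(((mv g A A i).coeff j : ℤ) : ℝ)| ≤ 16 * c * ((a + 1) * T * T) :=
    fun i j => cb_mv g c hc1 hc A A a hA T T hT hT hp hp i j
  have h2 : ∀ i j, |((((fun i => C (f i) : Fin 4 → ℤ[X]) i).coeff j : ℤ) : ℝ)| ≤ T := by
    intro i j
    show |(((C (f i) : ℤ[X]).coeff j : ℤ) : ℝ)| ≤ T
    rw [coeff_C]
    split_ifs
    · exact hq i
    · simpa using hT
  have h3 := cb_mv g c hc1 hc (mv g A A) (fun i => C (f i)) (a + a)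
    (natDegree_mv g A A a a hA hA) (16 * c * ((a + 1) * T * T)) T (by positivity) hT h1 h2 k l
  refine h3.trans (le_of_eq ?_)
  push_cast; ring

theorem rcb_core (g : ℤ[X]) (hg : g.Monic) (hirr : Irreducible g) (hd : g.natDegree = 4)
    (hrc : RatStmt g) (a : ℕ) (C0 ε : ℝ) (hC : 0 ≤ C0) (hε : 0 < ε) :
    ∃ K' : ℝ, 0 < K' ∧ ∀ Y P : ℝ, 1 ≤ Y → Y ≤ P → ∀ f1 f2 : Fin 4 → ℤ,
      (∀ i, |((f1 i : ℤ) : ℝ)| ≤ Y ^ C0) → (∀ i, |((f2 i : ℤ) : ℝ)| ≤ Y ^ C0) →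
      (∃ i j, f1 i * f2 j ≠ f1 j * f2 i) → ∀ A : Fin 4 → ℤ[X], (∀ i, (A i).natDegree ≤ a) →
      (∀ i j, |(((A i).coeff j : ℤ) : ℝ)| ≤ Y ^ C0) → ∀ (K : ℝ) (m : ℤ) {ι : Type} (T : Finset ι)
      (n : ι → ℤ) (p : ι → ℕ) (α β : ι → Fin 4 → ℤ) (u v : ι → ℤ), Set.InjOn n T →
      (∀ z ∈ T, IsSol 4 g K Y P (n z) (p z) (α z) (β z) m) →
      (∀ z ∈ T, OnSlice f1 f2 (β z) (u z) (v z)) →
      (∀ z ∈ T, ∃ s r : ℤ, (s ≠ 0 ∨ r ≠ 0) ∧ |(s : ℝ)| ≤ Y ^ C0 ∧ |(r : ℝ)| ≤ Y ^ C0 ∧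
        (∃ i, hf (A i) a s r ≠ 0) ∧ ∀ i j, α z i * hf (A j) a s r = α z j * hf (A i) a s r) →
      (T.card : ℝ) ≤ K' * Y ^ ε := by
  classical
  obtain ⟨c, hc1, hc⟩ := exists_mcoef g
  set M1 : ℝ := (16 * c * ((a + a : ℕ) + 1)) * (16 * c * (a + 1)) with hM1
  have hM1pos : 0 ≤ M1 := by positivity
  set M : ℝ := 2 * (((a + a + 0 : ℕ) + 1) * M1 * M1) with hM
  obtain ⟨B, hB⟩ := pow_unbounded_of_one_lt M (one_lt_two : (1 : ℝ) < 2)
  set C1 : ℝ := 6 * C0 + B with hC1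
  obtain ⟨K1, hK1, hcount⟩ := hrc a ((a + a + 0) + (a + a + 0)) C1 2 ε hε
  refine ⟨2 * K1 + 19, by linarith, ?_⟩
  intro Y P hY hYP f1 f2 hf1 hf2 hind A hA hAc K m ι T n p α β u v hn hsol hsl hpar
  have hY0 : 0 < Y := by linarith
  have hYε : 1 ≤ Y ^ ε := Real.one_le_rpow hY hε.le
  rcases lt_or_ge Y 4 with hY4 | hY4
  · have h1 : T.card ≤ 17 := by
      rw [← Finset.card_image_of_injOn hn]
      have h2 : T.image n ⊆ Finset.Icc (-8) 8 := by
        intro x hx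
        obtain ⟨z, hz, rfl⟩ := Finset.mem_image.1 hx
        have h3 := (hsol z hz).upper
        have h4 : |((n z : ℤ) : ℝ)| < 8 := by linarith
        rw [abs_lt] at h4
        rw [Finset.mem_Icc]
        constructor
        · have : (-8 : ℝ) < n z := h4.1
          have : (-8 : ℤ) < n z := by exact_mod_cast this
          exact this.le
        · have : (n z : ℝ) < 8 := h4.2
          have : n z < (8 : ℤ) := by exact_mod_cast this
          exact this.le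
      exact (Finset.card_le_card h2).trans (by simp)
    have h2 : (T.card : ℝ) ≤ 17 := by exact_mod_cast h1
    nlinarith
  have hYC0 : 1 ≤ Y ^ C0 := Real.one_le_rpow hY hC
  have hB0 : (0 : ℝ) ≤ B := Nat.cast_nonneg B
  have hYC1 : Y ^ C0 ≤ Y ^ C1 := Real.rpow_le_rpow_of_exponent_le hY (by rw [hC1]; linarith)
  have hMY : M * (Y ^ C0) ^ 6 ≤ Y ^ C1 := by
    have h1 : Y ^ C1 = (Y ^ C0) ^ 6 * Y ^ (B : ℝ) := by
      rw [hC1, Real.rpow_add hY0, ← Real.rpow_natCast (Y ^ C0) 6, ← Real.rpow_mul hY0.le]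
      congr 2; push_cast; ring
    rw [h1, Real.rpow_natCast]
    have h2 : (2 : ℝ) ^ B ≤ Y ^ B := pow_le_pow_left₀ (by norm_num) (by linarith) B
    have h3 : 0 < (Y ^ C0) ^ 6 := by positivity
    nlinarith
  -- the forms
  set p1 : Fin 4 → ℤ[X] := fun j => qv g A (fun i => C (f1 i)) j with hp1
  set p2 : Fin 4 → ℤ[X] := fun j => qv g A (fun i => C (f2 i)) j with hp2
  have hd1 : ∀ j, (p1 j).natDegree ≤ a + a + 0 := natDegree_qv g A a hA f1
  have hd2 : ∀ j, (p2 j).natDegree ≤ a + a + 0 := natDegree_qv g A a hA f2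
  have hc1' : ∀ j l, |(((p1 j).coeff l : ℤ) : ℝ)| ≤ M1 * (Y ^ C0) ^ 3 := fun j l =>
    cb_qv g c hc1 hc A a hA f1 _ (by linarith) hAc hf1 j l
  have hc2' : ∀ j l, |(((p2 j).coeff l : ℤ) : ℝ)| ≤ M1 * (Y ^ C0) ^ 3 := fun j l =>
    cb_qv g c hc1 hc A a hA f2 _ (by linarith) hAc hf2 j l
  have hprod : ∀ (S1 S2 S3 S4 : ℤ[X]), S1.natDegree ≤ a + a + 0 → S3.natDegree ≤ a + a + 0 →
      (∀ l, |((S1.coeff l : ℤ) : ℝ)| ≤ M1 * (Y ^ C0) ^ 3) →
      (∀ l, |((S2.coeff l : ℤ) : ℝ)| ≤ M1 * (Y ^ C0) ^ 3) →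
      (∀ l, |((S3.coeff l : ℤ) : ℝ)| ≤ M1 * (Y ^ C0) ^ 3) →
      (∀ l, |((S4.coeff l : ℤ) : ℝ)| ≤ M1 * (Y ^ C0) ^ 3) →
      ∀ l, |(((S1 * S2 - S3 * S4).coeff l : ℤ) : ℝ)| ≤ Y ^ C1 := by
    intro S1 S2 S3 S4 e1 e3 b1 b2 b3 b4 l
    have hnn : 0 ≤ M1 * (Y ^ C0) ^ 3 := by positivity
    have h1 := cb_mul S1 S2 _ e1 _ _ hnn hnn b1 b2 l
    have h2 := cb_mul S3 S4 _ e3 _ _ hnn hnn b3 b4 l
    rw [coeff_sub]
    push_cast
    refine (abs_sub _ _).trans ((add_le_add h1 h2).trans ?_)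
    refine le_trans (le_of_eq ?_) hMY
    rw [hM]; ring
  have main : ∀ k : Fin 4, (k = 2 ∨ k = 3) → ∀ S ⊆ T,
      (∀ z ∈ S, qv g (α z) f1 k ≠ 0 ∨ qv g (α z) f2 k ≠ 0) → (S.card : ℝ) ≤ K1 * Y ^ ε := by
    intro k hk S hST hSnd
    refine hcount Y hY A (p2 k * p1 0 - p1 k * p2 0) (p1 k * p2 1 - p2 k * p1 1) hA ?_ ?_
      (fun i j => (hAc i j).trans hYC1) ?_ ?_ S n (hn.mono hST) ?_
    · exact (natDegree_sub_le _ _).trans (max_le
        (natDegree_mul_le.trans (Nat.add_le_add (hd2 k) (hd1 0)))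
        (natDegree_mul_le.trans (Nat.add_le_add (hd1 k) (hd2 0))))
    · exact (natDegree_sub_le _ _).trans (max_le
        (natDegree_mul_le.trans (Nat.add_le_add (hd1 k) (hd2 1)))
        (natDegree_mul_le.trans (Nat.add_le_add (hd2 k) (hd1 1))))
    · exact hprod _ _ _ _ (hd2 k) (hd1 k) (hc2' k) (hc1' 0) (hc1' k) (hc2' 0)
    · exact hprod _ _ _ _ (hd1 k) (hd2 k) (hc1' k) (hc2' 1) (hc2' k) (hc1' 1)
    · intro z hz
      have hzT := hST hz
      obtain ⟨s, r, hsr, hs, hr, hne, hprop⟩ := hpar z hzT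
      have hs' := hsol z hzT
      -- make the parameter coprime
      have hgcd : (Int.gcd s r : ℤ) ≠ 0 := by
        intro h0
        have : Int.gcd s r = 0 := by exact_mod_cast h0
        rw [Int.gcd_eq_zero_iff] at this
        rcases hsr with h | h
        · exact h this.1
        · exact h this.2
      set D : ℤ := (Int.gcd s r : ℤ) with hD
      obtain ⟨s', hs1⟩ : D ∣ s := Int.gcd_dvd_left ..
      obtain ⟨r', hr1⟩ : D ∣ r := Int.gcd_dvd_right ..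
      have hcop : IsCoprime s' r' := by
        have h1 := Int.gcd_eq_gcd_ab s r
        rw [← hD] at h1
        refine ⟨Int.gcdA s r, Int.gcdB s r, ?_⟩
        apply mul_left_cancel₀ hgcd
        linear_combination (-Int.gcdA s r) * hs1 - Int.gcdB s r * hr1 - h1
      have hDabs : (1 : ℤ) ≤ |D| := Int.one_le_abs hgcd
      have hle : ∀ x y : ℤ, x = D * y → |(y : ℝ)| ≤ |(x : ℝ)| := by
        intro x y hxy
        have : |y| ≤ |x| := by
          rw [hxy, abs_mul]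
          nlinarith [abs_nonneg y]
        exact_mod_cast this
      have hDa : D ^ a ≠ 0 := pow_ne_zero _ hgcd
      have hsc : ∀ i, hf (A i) a s r = D ^ a * hf (A i) a s' r' := by
        intro i
        conv_lhs => rw [hs1, hr1]
        exact hf_scale _ _ _ _ _
      have hne' : ∃ i, hf (A i) a s' r' ≠ 0 := by
        obtain ⟨i, hi⟩ := hne
        exact ⟨i, fun h0 => hi (by rw [hsc, h0, mul_zero])⟩
      have hprop' : ∀ i j, α z i * hf (A j) a s' r' = α z j * hf (A i) a s' r' := by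
        intro i j
        have := hprop i j
        rw [hsc, hsc] at this
        apply mul_left_cancel₀ hDa
        linear_combination this
      have hid := point_identity hg hd hs' f1 f2 (u z) (v z) (hsl z hzT) k hk
        (fun i => hf (A i) a s' r') hne' hprop' (hSnd z hz)
      have h1 : ∀ j, hf (p1 j) (a + a + 0) s' r' = qv g (fun i => hf (A i) a s' r') f1 j :=
        fun j => hf_qv g A a hA f1 s' r' j
      have h2 : ∀ j, hf (p2 j) (a + a + 0) s' r' = qv g (fun i => hf (A i) a s' r') f2 j :=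
        fun j => hf_qv g A a hA f2 s' r' j
      have hsum : ∑ i : Fin 4, α z i * n z ^ (i : ℕ) = (pol (α z)).eval (n z) := by
        unfold pol
        rw [eval_finsetSum]
        refine Finset.sum_congr rfl fun i _ => ?_
        simp
      refine ⟨s', r', p z, α z, hcop, (hle s s' hs1).trans (hs.trans hYC1),
        (hle r r' hr1).trans (hr.trans hYC1), hne', hprop', ?_, ?_, ?_, hs'.prime, ?_, hs'.sq_dvd,
        ?_, ?_, sol_exists_coeff hg hd hs'⟩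
      · rw [hf_sub, hf_mul _ _ _ _ (hd1 k) (hd2 1), hf_mul _ _ _ _ (hd2 k) (hd1 1), h1, h1, h2, h2]
        exact hid.1
      · rw [hf_sub, hf_sub, hf_mul _ _ _ _ (hd1 k) (hd2 1), hf_mul _ _ _ _ (hd2 k) (hd1 1),
          hf_mul _ _ _ _ (hd2 k) (hd1 0), hf_mul _ _ _ _ (hd1 k) (hd2 0), h1, h1, h1, h2, h2, h2]
        exact hid.2
      · exact hs'.upper.le
      · have := hs'.ple; linarith
      · rw [hsum]; exact hs'.dvd_eval
      · rw [hsum]; exact sol_not_sq hg hd hs'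
  -- split
  set T2 := T.filter (fun z => qv g (α z) f1 2 ≠ 0 ∨ qv g (α z) f2 2 ≠ 0) with hT2
  set T3 := T.filter (fun z => qv g (α z) f1 3 ≠ 0 ∨ qv g (α z) f2 3 ≠ 0) with hT3
  set T0 := T.filter (fun z => qv g (α z) f1 2 = 0 ∧ qv g (α z) f1 3 = 0 ∧
    qv g (α z) f2 2 = 0 ∧ qv g (α z) f2 3 = 0) with hT0
  have hcov : T ⊆ T0 ∪ (T2 ∪ T3) := by
    intro z hz
    rw [Finset.mem_union, Finset.mem_union, hT0, hT2, hT3, Finset.mem_filter, Finset.mem_filter,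
      Finset.mem_filter]
    by_cases e1 : qv g (α z) f1 2 = 0
    · by_cases e2 : qv g (α z) f2 2 = 0
      · by_cases e3 : qv g (α z) f1 3 = 0
        · by_cases e4 : qv g (α z) f2 3 = 0
          · exact Or.inl ⟨hz, e1, e3, e2, e4⟩
          · exact Or.inr (Or.inr ⟨hz, Or.inr e4⟩)
        · exact Or.inr (Or.inr ⟨hz, Or.inl e3⟩)
      · exact Or.inr (Or.inl ⟨hz, Or.inr e2⟩)
    · exact Or.inr (Or.inl ⟨hz, Or.inl e1⟩)
  have c0 : T0.card ≤ 2 := degenerate_card hg hirr hd hY4 hYP f1 f2 hind m T0 n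
    (hn.mono (Finset.filter_subset _ _)) p α β
    (fun z hz => hsol z (Finset.filter_subset _ _ hz)) (fun z hz => (Finset.mem_filter.1 hz).2)
  have c2 := main 2 (Or.inl rfl) T2 (Finset.filter_subset _ _) (fun z hz => (Finset.mem_filter.1 hz).2)
  have c3 := main 3 (Or.inr rfl) T3 (Finset.filter_subset _ _) (fun z hz => (Finset.mem_filter.1 hz).2)
  have c4 : T.card ≤ T0.card + (T2.card + T3.card) :=
    (Finset.card_le_card hcov).trans ((Finset.card_union_le _ _).trans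
      (Nat.add_le_add_left (Finset.card_union_le _ _) _))
  have c5 : (T.card : ℝ) ≤ T0.card + (T2.card + T3.card) := by exact_mod_cast c4
  have c6 : (T0.card : ℝ) ≤ 2 := by exact_mod_cast c0
  nlinarith

end Pool.Agent.Lib.SQF.RCB
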