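import Pool.Agent.Lib.SQF.RCG0
import Pool.Agent.Lib.SQF.RC

/-!
# `rat_count`: solutions on a rational curve, no coprimality assumptions
-/

set_option autoImplicit false

open Polynomial

namespace Pool.Agent.Lib.SQF

open Pool.Agent.SQF4

/-- RATIONAL CURVES, no coprimality: the number of different `n`. -/
theorem rat_count (g : ℤ[X]) (hg : g.Monic) (hirr : Irreducible g) (hd : g.natDegree = 4)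
    (a k : ℕ) (C L ε : ℝ) (hε : 0 < ε) : ∃ K : ℝ, 0 < K ∧ ∀ Y : ℝ, 1 ≤ Y →
    ∀ (A : Fin 4 → ℤ[X]) (Ξ Ψ : ℤ[X]), (∀ i, (A i).natDegree ≤ a) → Ξ.natDegree ≤ k →
    Ψ.natDegree ≤ k → (∀ i j, |((A i).coeff j : ℝ)| ≤ Y ^ C) → (∀ j, |(Ξ.coeff j : ℝ)| ≤ Y ^ C) →
    (∀ j, |(Ψ.coeff j : ℝ)| ≤ Y ^ C) →
    ∀ {ι : Type} (T : Finset ι) (n : ι → ℤ), Set.InjOn n T →
    (∀ z ∈ T, ∃ (s r : ℤ) (p : ℕ) (α : Fin 4 → ℤ), IsCoprime s r ∧ |(s : ℝ)| ≤ Y ^ C ∧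
      |(r : ℝ)| ≤ Y ^ C ∧ (∃ i, hf (A i) a s r ≠ 0) ∧
      (∀ i j, α i * hf (A j) a s r = α j * hf (A i) a s r) ∧ hf Ψ k s r ≠ 0 ∧
      n z * hf Ψ k s r = hf Ξ k s r ∧ |(n z : ℝ)| ≤ L * Y ∧ p.Prime ∧ Y ≤ L * p ∧
      (p : ℤ) ^ 2 ∣ g.eval (n z) ∧ (p : ℤ) ∣ ∑ i, α i * (n z) ^ (i : ℕ) ∧
      ¬ (p : ℤ) ^ 2 ∣ ∑ i, α i * (n z) ^ (i : ℕ) ∧ ∃ i, ¬ (p : ℤ) ∣ α i) →
    (T.card : ℝ) ≤ K * Y ^ ε :=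
  rat_count_of g a k C L ε hε fun a0 k0 C1 L1 hk0 => rc_count g hg hirr hd a0 k0 hk0 C1 L1 ε hε

end Pool.Agent.Lib.SQF
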