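import Pool.Agent.Lib.SQF4.QMinor

/-!
# SQF, section S5: weighted determinant bound with rank constraints

`det_cauchy_binet`: a symmetric form of the Cauchy-Binet formula.
`det_norm_le_adm`: if the entry `(i, j)` is `∑ m ∈ I, a j m * φ m i` with `‖a j m‖ ≤ C`,
`‖φ m i‖ ≤ w m`, the coefficient minors of the non admissible sets of monomials vanish and every
product of `w` over an admissible set of `N` elements is at most `W`, then
`‖det‖ ≤ N! * |I| ^ N * C ^ N * W`.
`minor_eq_zero_of_rank`: a coefficient minor vanishes if more than `R` of its rows lie in a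
subspace of dimension at most `R`.
-/

set_option autoImplicit false

open Matrix Finset

namespace Pool.Agent.Lib.SQF

/-- Cauchy-Binet, symmetric form. -/
theorem det_cauchy_binet {N : ℕ} {k ι : Type*} [Field k] [CharZero k] [DecidableEq ι]
    (I : Finset ι) (a : Fin N → ι → k) (φ : ι → Fin N → k) :
    (N.factorial : k) * Matrix.det (Matrix.of fun i j => ∑ m ∈ I, a j m * φ m i) =
      ∑ σ ∈ (Fintype.piFinset (fun _ : Fin N => I)).filter (fun σ => Function.Injective σ),
        Matrix.det (Matrix.of fun i j => a j (σ i)) *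
          Matrix.det (Matrix.of fun i j => φ (σ j) i) := by
  classical
  set S := (Fintype.piFinset (fun _ : Fin N => I)).filter (fun σ => Function.Injective σ) with hS
  have hexp := Pool.Agent.SQF4.det_expand_inj I a φ
  -- for every permutation, reindex the sum
  have hperm : ∀ π : Equiv.Perm (Fin N),
      Matrix.det (Matrix.of fun i j => ∑ m ∈ I, a j m * φ m i) =
      ∑ σ ∈ S, (∏ j, a j (σ (π j))) *
        ((Equiv.Perm.sign π : ℤ) * Matrix.det (Matrix.of fun i j => φ (σ j) i)) := by
    intro π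
    rw [hexp]
    refine Finset.sum_bij' (fun σ _ => σ ∘ π.symm) (fun σ _ => σ ∘ π) ?_ ?_ ?_ ?_ ?_
    · intro σ hσ
      rw [Finset.mem_filter, Fintype.mem_piFinset] at hσ
      rw [hS, Finset.mem_filter, Fintype.mem_piFinset]
      exact ⟨fun j => hσ.1 _, hσ.2.comp π.symm.injective⟩
    · intro σ hσ
      rw [hS, Finset.mem_filter, Fintype.mem_piFinset] at hσ
      rw [Finset.mem_filter, Fintype.mem_piFinset]
      exact ⟨fun j => hσ.1 _, hσ.2.comp π.injective⟩
    · intro σ _
      funext j
      simp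
    · intro σ _
      funext j
      simp
    · intro σ _
      have h1 : (Matrix.of fun i j => φ ((σ ∘ π.symm) j) i) =
          (Matrix.of fun i j => φ (σ j) i).submatrix id π.symm := by
        ext i j
        simp
      rw [h1, Matrix.det_permute']
      simp only [Function.comp_apply, Equiv.symm_apply_apply]
      rw [Equiv.Perm.sign_symm]
      have h2 : ((Equiv.Perm.sign π : ℤ) : k) * ((Equiv.Perm.sign π : ℤ) : k) = 1 := by
        rw [← Int.cast_mul]
        rcases Int.units_eq_one_or (Equiv.Perm.sign π) with h3 | h3 <;> rw [h3] <;> simp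
      have h3 : ((Equiv.Perm.sign π : ℤ) : k) * (((Equiv.Perm.sign π : ℤ) : k) *
          Matrix.det (Matrix.of fun i j => φ (σ j) i)) =
          Matrix.det (Matrix.of fun i j => φ (σ j) i) := by
        rw [← mul_assoc, h2, one_mul]
      rw [h3]
  have hsum : ∑ _π : Equiv.Perm (Fin N),
      Matrix.det (Matrix.of fun i j => ∑ m ∈ I, a j m * φ m i) =
      ∑ π : Equiv.Perm (Fin N), ∑ σ ∈ S, (∏ j, a j (σ (π j))) *
        ((Equiv.Perm.sign π : ℤ) * Matrix.det (Matrix.of fun i j => φ (σ j) i)) :=
    Finset.sum_congr rfl (fun π _ => hperm π)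
  rw [Finset.sum_const, Finset.card_univ, Fintype.card_perm, Fintype.card_fin, nsmul_eq_mul] at hsum
  rw [hsum, Finset.sum_comm]
  refine Finset.sum_congr rfl ?_
  intro σ _
  rw [Matrix.det_apply' (Matrix.of fun i j => a j (σ i)), Finset.sum_mul]
  refine Finset.sum_congr rfl ?_
  intro π _
  simp only [Matrix.of_apply]
  ring

/-- A coefficient minor vanishes if more than `R` of its rows span a space of dimension `≤ R`. -/
theorem minor_eq_zero_of_rank {N : ℕ} {k : Type*} [Field k] (M : Matrix (Fin N) (Fin N) k)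
    (S : Finset (Fin N)) (U : Submodule k (Fin N → k)) (hU : ∀ i ∈ S, M i ∈ U)
    (hR : Module.finrank k U < S.card) : M.det = 0 := by
  classical
  by_contra hne
  have hunit : IsUnit M := (Matrix.isUnit_iff_isUnit_det M).2 (isUnit_iff_ne_zero.2 hne)
  have hli : LinearIndependent k M.row :=
    Matrix.linearIndependent_rows_iff_isUnit.2 hunit
  have hli2 : LinearIndependent k (fun i : S => M.row i) := hli.comp _ Subtype.val_injective
  have hli3 : LinearIndependent k (fun i : S => (⟨M.row i, hU i i.2⟩ : U)) := by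
    apply LinearIndependent.of_comp U.subtype
    exact hli2
  have := hli3.fintype_card_le_finrank
  rw [Fintype.card_coe] at this
  omega

lemma det_norm_le_prod {N : ℕ} (M : Matrix (Fin N) (Fin N) ℂ) (b : Fin N → ℝ)
    (h : ∀ i j, ‖M i j‖ ≤ b j) : ‖M.det‖ ≤ (N.factorial : ℝ) * ∏ j, b j := by
  rw [Matrix.det_apply]
  refine (norm_sum_le _ _).trans ?_
  have h1 : ∀ σ : Equiv.Perm (Fin N), ‖(Equiv.Perm.sign σ : ℤˣ) • ∏ i, M (σ i) i‖ ≤ ∏ j, b j := by
    intro σ
    have h2 : ‖(Equiv.Perm.sign σ : ℤˣ) • ∏ i, M (σ i) i‖ = ‖∏ i, M (σ i) i‖ := by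
      rcases Int.units_eq_one_or (Equiv.Perm.sign σ) with h3 | h3
      · rw [h3, one_smul]
      · rw [h3, Units.neg_smul, one_smul, norm_neg]
    rw [h2, norm_prod]
    exact Finset.prod_le_prod (fun _ _ => norm_nonneg _) (fun j _ => h _ _)
  refine (Finset.sum_le_sum (fun σ _ => h1 σ)).trans ?_
  rw [Finset.sum_const, Finset.card_univ, Fintype.card_perm, Fintype.card_fin, nsmul_eq_mul]

/-- **Weighted determinant bound with admissible sets.** -/
theorem det_norm_le_adm {N : ℕ} {ι : Type*} [DecidableEq ι] (I : Finset ι) (a : Fin N → ι → ℂ)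
    (φ : ι → Fin N → ℂ) (C : ℝ) (w : ι → ℝ) (W : ℝ) (adm : Finset ι → Prop)
    (hC : 0 ≤ C) (ha : ∀ j, ∀ m ∈ I, ‖a j m‖ ≤ C) (hφ : ∀ m ∈ I, ∀ i, ‖φ m i‖ ≤ w m)
    (hadm : ∀ σ : Fin N → ι, Function.Injective σ → (∀ i, σ i ∈ I) →
      ¬ adm (Finset.univ.image σ) → Matrix.det (Matrix.of fun i j => a j (σ i)) = 0)
    (hW : ∀ T ⊆ I, T.card = N → adm T → ∏ m ∈ T, w m ≤ W) (hW0 : 0 ≤ W) :
    ‖Matrix.det (Matrix.of fun i j => ∑ m ∈ I, a j m * φ m i)‖ ≤
      (N.factorial : ℝ) * (I.card : ℝ) ^ N * C ^ N * W := by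
  classical
  have hf : (0 : ℝ) < (N.factorial : ℝ) := by exact_mod_cast N.factorial_pos
  have hcb := det_cauchy_binet I a φ
  have hnorm : (N.factorial : ℝ) * ‖Matrix.det (Matrix.of fun i j => ∑ m ∈ I, a j m * φ m i)‖ =
      ‖∑ σ ∈ (Fintype.piFinset (fun _ : Fin N => I)).filter (fun σ => Function.Injective σ),
        Matrix.det (Matrix.of fun i j => a j (σ i)) *
          Matrix.det (Matrix.of fun i j => φ (σ j) i)‖ := by
    rw [← hcb, norm_mul]
    congr 1
    simp
  have hterm : ∀ σ ∈ (Fintype.piFinset (fun _ : Fin N => I)).filter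
      (fun σ => Function.Injective σ),
      ‖Matrix.det (Matrix.of fun i j => a j (σ i)) *
          Matrix.det (Matrix.of fun i j => φ (σ j) i)‖ ≤
        (N.factorial : ℝ) * C ^ N * ((N.factorial : ℝ) * W) := by
    intro σ hσ
    rw [Finset.mem_filter, Fintype.mem_piFinset] at hσ
    obtain ⟨hI, hinj⟩ := hσ
    by_cases had : adm (Finset.univ.image σ)
    · rw [norm_mul]
      have h1 : ‖Matrix.det (Matrix.of fun i j => a j (σ i))‖ ≤ (N.factorial : ℝ) * C ^ N := by
        have := det_norm_le_prod (Matrix.of fun i j => a j (σ i)) (fun _ => C)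
          (fun i j => ha j _ (hI i))
        simpa using this
      have h2 : ‖Matrix.det (Matrix.of fun i j => φ (σ j) i)‖ ≤ (N.factorial : ℝ) * W := by
        refine (det_norm_le_prod _ (fun j => w (σ j)) (fun i j => hφ _ (hI j) i)).trans ?_
        refine mul_le_mul_of_nonneg_left ?_ hf.le
        have h7 := hW (Finset.univ.image σ) (by
          intro m hm
          obtain ⟨j, _, rfl⟩ := Finset.mem_image.1 hm
          exact hI j) (by
          rw [Finset.card_image_of_injective _ hinj, Finset.card_univ, Fintype.card_fin]) had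
        rwa [Finset.prod_image (fun _ _ _ _ h => hinj h)] at h7
      exact mul_le_mul h1 h2 (norm_nonneg _) (by positivity)
    · rw [hadm σ hinj hI had, zero_mul, norm_zero]
      positivity
  have hsum : (N.factorial : ℝ) *
      ‖Matrix.det (Matrix.of fun i j => ∑ m ∈ I, a j m * φ m i)‖ ≤
      (I.card : ℝ) ^ N * ((N.factorial : ℝ) * C ^ N * ((N.factorial : ℝ) * W)) := by
    rw [hnorm]
    refine (norm_sum_le _ _).trans ((Finset.sum_le_sum hterm).trans ?_)
    rw [Finset.sum_const, nsmul_eq_mul]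
    refine mul_le_mul_of_nonneg_right ?_ (by positivity)
    have h12 := Finset.card_filter_le (Fintype.piFinset (fun _ : Fin N => I))
      (fun σ => Function.Injective σ)
    rw [Fintype.card_piFinset_const] at h12
    exact_mod_cast h12
  have h13 : (I.card : ℝ) ^ N * ((N.factorial : ℝ) * C ^ N * ((N.factorial : ℝ) * W)) =
      (N.factorial : ℝ) * ((N.factorial : ℝ) * (I.card : ℝ) ^ N * C ^ N * W) := by ring
  rw [h13] at hsum
  exact le_of_mul_le_mul_left hsum hf

end Pool.Agent.Lib.SQF
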