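import Mathlib

/-!
# Small integral solutions

`small_kernel`: a family of integral vectors of length `n` with entries at most `B`, all orthogonal
to one nonzero complex vector, is orthogonal to a nonzero integral vector with entries at most
`(n B)^n`. `small_kernel_two` : if the family has at most `n - 2` members there are two independent
integral solutions.
-/

set_option autoImplicit false

namespace Pool.Agent.Lib.SQF

attribute [local instance] Matrix.seminormedAddCommGroup

open Finset

/-- Siegel's lemma for at most `n - 1` rows -/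
lemma siegel_rows {α β : Type*} [Fintype α] [Fintype β] {n : ℕ} (hβ : Fintype.card β = n)
    (hcard : Fintype.card α < n)
    (A : α → β → ℤ) (B : ℝ) (hB : 1 ≤ B) (hA : ∀ i j, |(A i j : ℝ)| ≤ B) :
    ∃ x : β → ℤ, x ≠ 0 ∧ (∀ i, ∑ j, A i j * x j = 0) ∧ ∀ j, |(x j : ℝ)| ≤ (n * B) ^ n := by
  classical
  have hn : 1 ≤ n := by omega
  have hnB : (1 : ℝ) ≤ n * B := by
    have : (1 : ℝ) ≤ n := by exact_mod_cast hn
    nlinarith
  rcases Nat.eq_zero_or_pos (Fintype.card α) with h0 | hpos
  · have hemp : IsEmpty α := Fintype.card_eq_zero_iff.mp h0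
    obtain ⟨b0⟩ : Nonempty β := Fintype.card_pos_iff.mp (by omega)
    refine ⟨Pi.single b0 1, ?_, fun i => hemp.elim i, fun j => ?_⟩
    · intro h
      have := congrFun h b0
      simp at this
    · refine le_trans ?_ (one_le_pow₀ hnB)
      rw [Pi.single_apply]
      split_ifs <;> simp
  · obtain ⟨x, hx0, hx1, hx2⟩ := Int.Matrix.exists_ne_zero_int_vec_norm_le (Matrix.of A)
      (by rw [hβ]; exact hcard) hpos
    refine ⟨x, hx0, fun i => ?_, fun j => ?_⟩
    · have := congrFun hx1 i
      simpa [Matrix.mulVec, dotProduct] using this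
    · have h1 : |(x j : ℝ)| ≤ ‖x‖ := by
        have := norm_le_pi_norm x j
        rwa [Int.norm_eq_abs] at this
      refine h1.trans (hx2.trans ?_)
      have hnorm : ‖Matrix.of A‖ ≤ B := by
        rw [Matrix.norm_le_iff (by linarith)]
        intro i j
        rw [Int.norm_eq_abs]
        exact hA i j
      have h3 : (n : ℝ) * max 1 ‖Matrix.of A‖ ≤ n * B :=
        mul_le_mul_of_nonneg_left (max_le hB hnorm) (Nat.cast_nonneg n)
      have h4 : (1 : ℝ) ≤ n * max 1 ‖Matrix.of A‖ := by
        have : (1 : ℝ) ≤ n := by exact_mod_cast hn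
        have h5 : (1 : ℝ) ≤ max 1 ‖Matrix.of A‖ := le_max_left _ _
        nlinarith
      rw [hβ]
      have hexp : (Fintype.card α : ℝ) / ((n : ℝ) - Fintype.card α) ≤ n := by
        have h6 : (Fintype.card α : ℝ) + 1 ≤ n := by exact_mod_cast hcard
        have h7 : (1 : ℝ) ≤ (n : ℝ) - Fintype.card α := by linarith
        have h8 : (0 : ℝ) ≤ Fintype.card α := Nat.cast_nonneg _
        calc (Fintype.card α : ℝ) / ((n : ℝ) - Fintype.card α) ≤ Fintype.card α :=
              div_le_self h8 h7
          _ ≤ n := by linarith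
      have h9 : ((n : ℝ) * max 1 ‖Matrix.of A‖) ^
          ((Fintype.card α : ℝ) / ((n : ℝ) - Fintype.card α)) ≤
          ((n : ℝ) * max 1 ‖Matrix.of A‖) ^ (n : ℝ) :=
        Real.rpow_le_rpow_of_exponent_le h4 hexp
      refine h9.trans ?_
      rw [Real.rpow_natCast]
      exact pow_le_pow_left₀ (by linarith) h3 n

/-- small integral vector orthogonal to a family -/
theorem small_kernel {ι β : Type*} [Fintype β] {n : ℕ} (hβ : Fintype.card β = n)
    (r : ι → β → ℤ) (B : ℝ) (hB : 1 ≤ B)
    (hr : ∀ i j, |(r i j : ℝ)| ≤ B) (z : β → ℂ) (hz : z ≠ 0)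
    (hzr : ∀ i, ∑ j, (r i j : ℂ) * z j = 0) :
    ∃ x : β → ℤ, x ≠ 0 ∧ (∀ i, ∑ j, r i j * x j = 0) ∧ ∀ j, |(x j : ℝ)| ≤ (n * B) ^ n := by
  classical
  set ρ : ι → (β → ℚ) := fun i j => (r i j : ℚ) with hρ
  obtain ⟨b, hb1, hb2, hb3⟩ := exists_linearIndependent ℚ (Set.range ρ)
  -- the span is proper
  let ℓ : (β → ℚ) →ₗ[ℚ] ℂ :=
    { toFun := fun v => ∑ j, (v j : ℂ) * z j
      map_add' := by
        intro u v
        rw [← Finset.sum_add_distrib]
        apply Finset.sum_congr rfl
        intro j _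
        simp only [Pi.add_apply]
        push_cast
        ring
      map_smul' := by
        intro c v
        rw [RingHom.id_apply, Finset.smul_sum]
        apply Finset.sum_congr rfl
        intro j _
        simp only [Pi.smul_apply, smul_eq_mul, Rat.smul_def]
        push_cast
        ring }
  have hℓ : ∀ v, ℓ v = ∑ j, (v j : ℂ) * z j := fun v => rfl
  have hne : Submodule.span ℚ (Set.range ρ) ≠ ⊤ := by
    intro htop
    have hker : Submodule.span ℚ (Set.range ρ) ≤ LinearMap.ker ℓ := by
      rw [Submodule.span_le]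
      rintro _ ⟨i, rfl⟩
      show ℓ (ρ i) = 0
      rw [hℓ]
      refine Eq.trans ?_ (hzr i)
      apply Finset.sum_congr rfl
      intro j _
      simp [hρ]
    rw [htop] at hker
    apply hz
    ext j
    have h1 : ℓ (Pi.single j 1) = 0 := hker Submodule.mem_top
    rw [hℓ, Finset.sum_eq_single j] at h1
    · simpa using h1
    · intro l _ hl
      rw [Pi.single_eq_of_ne hl]; simp
    · intro h; exact absurd (Finset.mem_univ _) h
  have hlt : Module.finrank ℚ (Submodule.span ℚ (Set.range ρ)) < n := by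
    have := Submodule.finrank_lt hne
    rw [Module.finrank_pi, hβ] at this
    exact this
  have hfinb : b.Finite := hb3.setFinite
  have : Fintype b := hfinb.fintype
  have hcardb : Fintype.card b < n := by
    have h1 : Module.finrank ℚ (Submodule.span ℚ (Set.range (Subtype.val : b → (β → ℚ)))) =
      Fintype.card b := finrank_span_eq_card hb3
    rw [Subtype.range_coe, hb2] at h1
    omega
  have hidx : ∀ y : b, ∃ i, ρ i = y := fun y => hb1 y.2
  choose idx hidx' using hidx
  obtain ⟨x, hx0, hx1, hx2⟩ := siegel_rows hβ hcardb (fun y j => r (idx y) j) B hB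
    (fun y j => hr _ _)
  refine ⟨x, hx0, fun i => ?_, hx2⟩
  let m : (β → ℚ) →ₗ[ℚ] ℚ :=
    { toFun := fun v => ∑ j, v j * (x j : ℚ)
      map_add' := by
        intro u v
        rw [← Finset.sum_add_distrib]
        apply Finset.sum_congr rfl
        intro j _
        simp only [Pi.add_apply]
        ring
      map_smul' := by
        intro c v
        rw [RingHom.id_apply, smul_eq_mul, Finset.mul_sum]
        apply Finset.sum_congr rfl
        intro j _
        simp only [Pi.smul_apply, smul_eq_mul]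
        ring }
  have hm : ∀ v, m v = ∑ j, v j * (x j : ℚ) := fun v => rfl
  have hmb : Submodule.span ℚ b ≤ LinearMap.ker m := by
    rw [Submodule.span_le]
    intro y hy
    show m y = 0
    have h1 := hx1 ⟨y, hy⟩
    have h2 := hidx' ⟨y, hy⟩
    have h3 : y = ρ (idx ⟨y, hy⟩) := h2.symm
    rw [hm, h3]
    simp only [hρ]
    exact_mod_cast h1
  have h4 : ρ i ∈ LinearMap.ker m := by
    apply hmb
    rw [hb2]
    exact Submodule.subset_span ⟨i, rfl⟩
  have h5 : m (ρ i) = 0 := h4
  rw [hm] at h5
  simp only [hρ] at h5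
  exact_mod_cast h5

/-- two independent small solutions of `m ≤ n - 2` equations -/
theorem small_kernel_two {α β : Type*} [Fintype α] [Fintype β] {n : ℕ} (hβ : Fintype.card β = n)
    (hcard : Fintype.card α + 2 ≤ n)
    (A : α → β → ℤ) (B : ℝ) (hB : 1 ≤ B) (hA : ∀ i j, |(A i j : ℝ)| ≤ B) :
    ∃ x y : β → ℤ, (∀ i, ∑ j, A i j * x j = 0) ∧ (∀ i, ∑ j, A i j * y j = 0) ∧
      x ≠ 0 ∧ y ≠ 0 ∧ ∑ j, x j * y j = 0 ∧
      (∀ j, |(x j : ℝ)| ≤ (n * B) ^ n) ∧ ∀ j, |(y j : ℝ)| ≤ (n * (n * B) ^ n) ^ n := by
  have hn : 1 ≤ n := by omega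
  have hnB : (1 : ℝ) ≤ n * B := by
    have : (1 : ℝ) ≤ n := by exact_mod_cast hn
    nlinarith
  obtain ⟨x, hx0, hx1, hx2⟩ := siegel_rows hβ (show Fintype.card α < n by omega) A B hB hA
  have hBle : B ≤ (n * B) ^ n := by
    have h1 : B ≤ n * B := by
      have : (1 : ℝ) ≤ n := by exact_mod_cast hn
      nlinarith
    refine h1.trans ?_
    exact le_self_pow₀ hnB (by omega)
  obtain ⟨y, hy0, hy1, hy2⟩ := siegel_rows (α := Option α) (n := n) hβ
    (by rw [Fintype.card_option]; omega) (fun o j => o.elim (x j) (fun i => A i j))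
    ((n * B) ^ n) (one_le_pow₀ hnB) (by
      intro o j
      rcases o with _ | i
      · exact hx2 j
      · exact (hA i j).trans hBle)
  exact ⟨x, y, hx1, fun i => hy1 (some i), hx0, hy0, hy1 none, hx2, hy2⟩

end Pool.Agent.Lib.SQF
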