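import Pool.Agent.Lib.SQF.StabB

set_option autoImplicit false

namespace Pool.Agent.Lib.SQF

open Module

/-- either the rank of `T^i X` is at least `2(i+1)` for `i ≤ I`, or all ratios `x j / x j0` are
rational functions of `u/v` of degree at most `I` -/
theorem rank_one_or_rel {K : Type*} [Field K] {α : Type*} {m : ℕ} (u v : α → K)
    (x : Fin m → α → K) (I : ℕ) (C : Finset α)
    (hst : Stab (JS I 1) (FS u v x) C) (hT : 2 ≤ rk (TS u v) C)
    (j0 : Fin m) (hj0 : ∃ P ∈ C, x j0 P ≠ 0) :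
    (∀ i ≤ I, 2 * (i + 1) ≤ rk (TS u v ^ i * AS x) C) ∨
    ∀ j, ∃ a b : Fin (I + 1) → K, (∃ P ∈ C, hb b (u P) (v P) ≠ 0) ∧
      ∀ P ∈ C, hb a (u P) (v P) * x j0 P + hb b (u P) (v P) * x j P = 0 := by
  classical
  by_cases hrel : ∀ j, ∃ a b : Fin (I + 1) → K, (∃ P ∈ C, hb b (u P) (v P) ≠ 0) ∧
      ∀ P ∈ C, hb a (u P) (v P) * x j0 P + hb b (u P) (v P) * x j P = 0
  · exact Or.inr hrel
  left
  push Not at hrel
  obtain ⟨j, hj⟩ := hrel
  intro i hi
  by_contra hcon
  let L : ((Fin (i + 1) → K) × (Fin (i + 1) → K)) →ₗ[K] (α → K) :=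
    ((LinearMap.mulRight K (x j0)).comp (hbL u v i)).coprod
      ((LinearMap.mulRight K (x j)).comp (hbL u v i))
  have hL : ∀ a b, L (a, b) = hbL u v i a * x j0 + hbL u v i b * x j := fun a b => by
    simp [L]
  have hrange : LinearMap.range L ≤ TS u v ^ i * AS x := by
    rintro _ ⟨⟨a, b⟩, rfl⟩
    rw [hL]
    exact Submodule.add_mem _
      (Submodule.mul_mem_mul (hbL_mem _ _ _ _) (Submodule.subset_span ⟨j0, rfl⟩))
      (Submodule.mul_mem_mul (hbL_mem _ _ _ _) (Submodule.subset_span ⟨j, rfl⟩))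
  have h1 := rk_le_of_le hrange C
  unfold rk at h1 hcon
  rw [← LinearMap.range_comp] at h1
  have h2 := LinearMap.finrank_range_add_finrank_ker ((rs C).comp L)
  rw [Module.finrank_prod, Module.finrank_fin_fun] at h2
  have h3 : LinearMap.ker ((rs C).comp L) ≠ ⊥ := by
    intro h3
    rw [h3, finrank_bot] at h2
    omega
  obtain ⟨⟨a, b⟩, hab, hab0⟩ := Submodule.exists_mem_ne_zero_of_ne_bot h3
  rw [LinearMap.mem_ker] at hab
  have hab1 : ∀ P ∈ C, hb a (u P) (v P) * x j0 P + hb b (u P) (v P) * x j P = 0 := by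
    intro P hP
    have h4 := (rs_eq_zero C (L (a, b))).1 hab P hP
    rw [hL] at h4
    exact h4
  -- the second form is not identically zero
  have hbne : ∃ P ∈ C, hbL u v i b P ≠ 0 := by
    by_contra hb0
    push Not at hb0
    have ha0 : ∀ P ∈ C, hb a (u P) (v P) = 0 := by
      by_contra hne
      push Not at hne
      obtain ⟨P, hP, h5⟩ := hst.mul_ne (i := (i, 0)) (j := (0, 1))
        (mem_JS.2 ⟨hi, Nat.zero_le _⟩) (mem_JS.2 ⟨Nat.zero_le _, le_rfl⟩)
        (by rw [FS_zero_right]; exact hbL_mem u v i a)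
        (by rw [FS_zero_left, pow_one]; exact Submodule.subset_span ⟨j0, rfl⟩) hne hj0
      apply h5
      have h6 := hab1 P hP
      have h7 : hb b (u P) (v P) = 0 := hb0 P hP
      rw [h7, zero_mul, add_zero] at h6
      exact h6
    apply hab0
    have h5 : a = 0 := hb_eq_zero hst hT i hi a ha0
    have h6 : b = 0 := hb_eq_zero hst hT i hi b hb0
    rw [h5, h6]
    rfl
  -- `u` is not identically zero
  have hu : ∃ P ∈ C, u P ≠ 0 := by
    by_contra hu0
    push Not at hu0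
    have h5 : TS u v = LinearMap.range (hbL u v 1) := by rw [← TS_pow, pow_one]
    have h6 := eq_zero_of_rk (hbL u v 1) C (by rw [← h5]; exact hT) (![0, 1]) (fun P hP => by
      rw [hbL_apply, hb, Fin.sum_univ_two]
      simp [hu0 P hP])
    have h7 := congrFun h6 1
    simp at h7
  have hue : ∃ P ∈ C, (u ^ (I - i)) P ≠ 0 := by
    obtain ⟨P, hP, h5⟩ := hu
    exact ⟨P, hP, by rw [Pi.pow_apply]; exact pow_ne_zero _ h5⟩
  have huT : u ^ (I - i) ∈ TS u v ^ (I - i) :=
    Submodule.pow_mem_pow _ (Submodule.subset_span (by simp)) _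
  obtain ⟨P1, hP1, hne1⟩ := hst.mul_ne (i := (i, 0)) (j := (I - i, 0))
    (mem_JS.2 ⟨hi, Nat.zero_le _⟩) (mem_JS.2 ⟨Nat.sub_le _ _, Nat.zero_le _⟩)
    (by rw [FS_zero_right]; exact hbL_mem u v i b) (by rw [FS_zero_right]; exact huT) hbne hue
  have hlift : ∀ c : Fin (i + 1) → K, ∃ c' : Fin (I + 1) → K,
      hbL u v I c' = hbL u v i c * u ^ (I - i) := by
    intro c
    have h5 : hbL u v i c * u ^ (I - i) ∈ TS u v ^ I := by
      have h6 : TS u v ^ I = TS u v ^ i * TS u v ^ (I - i) := by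
        rw [← pow_add, Nat.add_sub_cancel' hi]
      rw [h6]
      exact Submodule.mul_mem_mul (hbL_mem _ _ _ _) huT
    rw [TS_pow] at h5
    exact h5
  obtain ⟨a', ha'⟩ := hlift a
  obtain ⟨b', hb'⟩ := hlift b
  obtain ⟨P, hP, h5⟩ := hj a' b' ⟨P1, hP1, by
    rw [← hbL_apply, hb']
    exact hne1⟩
  apply h5
  rw [← hbL_apply, ← hbL_apply, ha', hb']
  have h6 := hab1 P hP
  rw [← hbL_apply, ← hbL_apply] at h6
  rw [Pi.mul_apply, Pi.mul_apply]
  linear_combination ((u ^ (I - i)) P) * h6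

end Pool.Agent.Lib.SQF
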