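import Pool.Agent.Lib.SQF.StabDefs
import Pool.Agent.Lib.SQF.MinorSol

/-!
# Stable clusters: basic facts on the spaces `T^i X^b` (MP_8842b2_nt, arch70 3.4)
-/

set_option autoImplicit false

namespace Pool.Agent.Lib.SQF

open Module

section basic

variable {K : Type*} [Field K] {α : Type*}

theorem rk_le_of_le {F G : Submodule K (α → K)} (h : F ≤ G) (C : Finset α) : rk F C ≤ rk G C := by
  unfold rk
  exact Submodule.finrank_mono (Submodule.map_mono h)

theorem Stab.mono {ι : Type*} {J J' : Finset ι} {F F' : ι → Submodule K (α → K)} {C : Finset α}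
    (h : Stab J F C) (hJ : J' ⊆ J) (hF : ∀ j ∈ J', F' j ≤ F j) : Stab J' F' C :=
  fun j hj f hf hcard => h j (hJ hj) f (hF j hj hf) hcard

theorem Stab.comp {ι κ : Type*} {J : Finset ι} {J' : Finset κ} {F : ι → Submodule K (α → K)}
    {F' : κ → Submodule K (α → K)} {C : Finset α} (h : Stab J F C) (e : κ → ι)
    (hJ : ∀ k ∈ J', e k ∈ J) (hF : ∀ k ∈ J', F' k ≤ F (e k)) : Stab J' F' C :=
  fun j hj f hf hcard => h (e j) (hJ j hj) f (hF j hj hf) hcard

/-- the number of zeros of a non-zero function of a stable space -/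
theorem Stab.zeros {ι : Type*} {J : Finset ι} {F : ι → Submodule K (α → K)} {C : Finset α}
    (h : Stab J F C) {j : ι} (hj : j ∈ J) {f : α → K} (hf : f ∈ F j) (h0 : ∃ P ∈ C, f P ≠ 0) :
    open Classical in 10 * (C.filter (fun x => f x = 0)).card < C.card := by
  by_contra hcon
  obtain ⟨P, hP, hfP⟩ := h0
  exact hfP (h j hj f hf (not_lt.mp hcon) P hP)

/-- the linear map `c ↦ hb c (u, v)` -/
def hbL (u v : α → K) (i : ℕ) : (Fin (i + 1) → K) →ₗ[K] (α → K) where
  toFun c := fun P => hb c (u P) (v P)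
  map_add' c c' := by
    funext P
    simp only [hb, Pi.add_apply, add_mul, Finset.sum_add_distrib]
  map_smul' r c := by
    funext P
    simp only [hb, Pi.smul_apply, smul_eq_mul, Finset.mul_sum, RingHom.id_apply, mul_assoc]

theorem hbL_apply (u v : α → K) (i : ℕ) (c : Fin (i + 1) → K) (P : α) :
    hbL u v i c P = hb c (u P) (v P) := rfl

theorem mono_mem (u v : α → K) (a b : ℕ) : u ^ a * v ^ b ∈ TS u v ^ (a + b) := by
  rw [pow_add]
  exact Submodule.mul_mem_mul (Submodule.pow_mem_pow _ (Submodule.subset_span (by simp)) a)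
    (Submodule.pow_mem_pow _ (Submodule.subset_span (by simp)) b)

theorem hbL_mem (u v : α → K) (i : ℕ) (c : Fin (i + 1) → K) : hbL u v i c ∈ TS u v ^ i := by
  have h1 : hbL u v i c = ∑ a : Fin (i + 1), c a • (u ^ (a : ℕ) * v ^ (i - a)) := by
    funext P
    simp only [hbL_apply, hb, Finset.sum_apply, Pi.smul_apply, Pi.mul_apply, Pi.pow_apply,
      smul_eq_mul, mul_assoc]
  rw [h1]
  refine Submodule.sum_mem _ fun a _ => Submodule.smul_mem _ _ ?_
  have h2 := mono_mem u v (a : ℕ) (i - a)
  rwa [Nat.add_sub_cancel' (Nat.lt_succ_iff.mp a.2)] at h2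

theorem mono_mem_range (u v : α → K) (i a : ℕ) (ha : a ≤ i) :
    u ^ a * v ^ (i - a) ∈ LinearMap.range (hbL u v i) := by
  classical
  refine ⟨Pi.single ⟨a, Nat.lt_succ_of_le ha⟩ 1, ?_⟩
  funext P
  rw [hbL_apply, hb, Finset.sum_eq_single (⟨a, Nat.lt_succ_of_le ha⟩ : Fin (i + 1))]
  · simp
  · intro b _ hb
    rw [Pi.single_eq_of_ne hb, zero_mul, zero_mul]
  · intro h; exact absurd (Finset.mem_univ _) h

theorem TS_pow (u v : α → K) (i : ℕ) : TS u v ^ i = LinearMap.range (hbL u v i) := by
  refine le_antisymm ?_ ?_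
  · induction i with
    | zero =>
      rw [pow_zero, Submodule.one_le]
      have h1 := mono_mem_range u v 0 0 le_rfl
      simpa using h1
    | succ i ih =>
      rw [pow_succ]
      refine (Submodule.mul_le).2 ?_
      rintro f hf g hg
      obtain ⟨c, rfl⟩ := ih hf
      have h1 : hbL u v i c = ∑ a : Fin (i + 1), c a • (u ^ (a : ℕ) * v ^ (i - a)) := by
        funext P
        simp only [hbL_apply, hb, Finset.sum_apply, Pi.smul_apply, Pi.mul_apply, Pi.pow_apply,
          smul_eq_mul, mul_assoc]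
      rw [h1, Finset.sum_mul]
      refine Submodule.sum_mem _ fun a _ => ?_
      rw [smul_mul_assoc]
      refine Submodule.smul_mem _ _ ?_
      have ha : (a : ℕ) ≤ i := Nat.lt_succ_iff.mp a.2
      unfold TS at hg
      rw [Submodule.mem_span_pair] at hg
      obtain ⟨r, s, rfl⟩ := hg
      rw [mul_add, mul_smul_comm, mul_smul_comm]
      refine Submodule.add_mem _ (Submodule.smul_mem _ _ ?_) (Submodule.smul_mem _ _ ?_)
      · have h2 := mono_mem_range u v (i + 1) (a + 1) (by omega)
        have h3 : u ^ (a : ℕ) * v ^ (i - a) * u = u ^ ((a : ℕ) + 1) * v ^ (i + 1 - (a + 1)) := by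
          rw [Nat.add_sub_add_right]; ring
        rw [h3]; exact h2
      · have h2 := mono_mem_range u v (i + 1) a (by omega)
        have h3 : u ^ (a : ℕ) * v ^ (i - a) * v = u ^ (a : ℕ) * v ^ (i + 1 - a) := by
          rw [Nat.sub_add_comm ha]; ring
        rw [h3]; exact h2
  · rintro _ ⟨c, rfl⟩
    exact hbL_mem u v i c

/-- a finitely generated space of functions has rank at most the number of parameters -/
theorem rk_range_le {m : ℕ} (f : (Fin m → K) →ₗ[K] (α → K)) (C : Finset α) :
    rk (LinearMap.range f) C ≤ m := by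
  unfold rk
  rw [← LinearMap.range_comp]
  refine (LinearMap.finrank_range_le _).trans ?_
  rw [Module.finrank_fin_fun]

/-- full rank means that no non-trivial combination vanishes on `C` -/
theorem eq_zero_of_rk {m : ℕ} (f : (Fin m → K) →ₗ[K] (α → K)) (C : Finset α)
    (h : m ≤ rk (LinearMap.range f) C) (c : Fin m → K) (hc : ∀ P ∈ C, f c P = 0) : c = 0 := by
  unfold rk at h
  rw [← LinearMap.range_comp] at h
  have h1 := LinearMap.finrank_range_add_finrank_ker ((rs C).comp f)
  rw [Module.finrank_fin_fun] at h1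
  have h2 : finrank K (LinearMap.ker ((rs C).comp f)) = 0 := by omega
  have h3 : c ∈ LinearMap.ker ((rs C).comp f) := by
    rw [LinearMap.mem_ker]
    exact (rs_eq_zero C (f c)).2 hc
  rw [Submodule.finrank_eq_zero] at h2
  rw [h2] at h3
  exact (Submodule.mem_bot K).mp h3

/-- conversely, if the rank is not full some non-trivial combination vanishes on `C` -/
theorem exists_of_rk_lt {m : ℕ} (f : (Fin m → K) →ₗ[K] (α → K)) (C : Finset α)
    (h : rk (LinearMap.range f) C < m) : ∃ c : Fin m → K, c ≠ 0 ∧ ∀ P ∈ C, f c P = 0 := by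
  unfold rk at h
  rw [← LinearMap.range_comp] at h
  have h1 := LinearMap.finrank_range_add_finrank_ker ((rs C).comp f)
  rw [Module.finrank_fin_fun] at h1
  have h2 : LinearMap.ker ((rs C).comp f) ≠ ⊥ := by
    intro h3
    rw [h3, finrank_bot] at h1
    omega
  obtain ⟨c, hc, hc0⟩ := Submodule.exists_mem_ne_zero_of_ne_bot h2
  exact ⟨c, hc0, (rs_eq_zero C (f c)).1 hc⟩

variable {m : ℕ} {u v : α → K} {x : Fin m → α → K}

theorem FS_zero_right (i : ℕ) : FS u v x (i, 0) = TS u v ^ i := by
  simp [FS]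

theorem FS_zero_left (b : ℕ) : FS u v x (0, b) = AS x ^ b := by
  simp [FS]

theorem FS_one_right (i : ℕ) : FS u v x (i, 1) = TS u v ^ i * AS x := by
  simp [FS]

theorem FS_mul (p q : ℕ × ℕ) : FS u v x p * FS u v x q = FS u v x (p + q) := by
  simp only [FS, Prod.fst_add, Prod.snd_add, pow_add]
  ring

theorem mem_JS {I B : ℕ} {p : ℕ × ℕ} : p ∈ JS I B ↔ p.1 ≤ I ∧ p.2 ≤ B := by
  simp [JS]

/-- full rank of the powers of `T` -/
theorem rk_TS_pow {I B : ℕ} {C : Finset α} (hst : Stab (JS I B) (FS u v x) C)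
    (hT : 2 ≤ rk (TS u v) C) (i : ℕ) (hi : i ≤ I) : i + 1 ≤ rk (TS u v ^ i) C := by
  have hst' : Stab (Finset.range (I + 1)) (fun b => TS u v ^ b) C :=
    hst.comp (fun b => (b, 0)) (fun k hk => mem_JS.2 ⟨by simpa [Nat.lt_succ_iff] using hk,
      Nat.zero_le _⟩) (fun k _ => by rw [FS_zero_right])
  rcases Nat.eq_zero_or_pos i with h0 | h0
  · subst h0
    rw [pow_zero, zero_add, Nat.one_le_iff_ne_zero]
    intro h1
    unfold rk at h1
    rw [Submodule.finrank_eq_zero] at h1
    have hne : C.Nonempty := by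
      rw [Finset.nonempty_iff_ne_empty]
      rintro rfl
      have h3 : rk (TS u v) (∅ : Finset α) ≤ 0 := by
        unfold rk
        refine (Submodule.finrank_le _).trans ?_
        simp
      omega
    obtain ⟨P, hP⟩ := hne
    have h2 : rs C (1 : α → K) ∈ (1 : Submodule K (α → K)).map (rs C) :=
      Submodule.mem_map_of_mem (Submodule.one_le.mp le_rfl)
    rw [h1, Submodule.mem_bot] at h2
    have h3 := (rs_eq_zero C _).mp h2 P hP
    simp at h3
  · have h1 := rk_pow (TS u v) I C hst' (by omega) i h0 hi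
    have h2 : i * 2 ≤ i * rk (TS u v) C := Nat.mul_le_mul_left _ hT
    omega

/-- no non-zero binary form vanishes on `C` -/
theorem hb_eq_zero {I B : ℕ} {C : Finset α} (hst : Stab (JS I B) (FS u v x) C)
    (hT : 2 ≤ rk (TS u v) C) (i : ℕ) (hi : i ≤ I) (c : Fin (i + 1) → K)
    (hc : ∀ P ∈ C, hb c (u P) (v P) = 0) : c = 0 := by
  refine eq_zero_of_rk (hbL u v i) C ?_ c hc
  rw [← TS_pow]
  exact rk_TS_pow hst hT i hi

/-- the product of two non-zero functions of stable spaces does not vanish identically -/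
theorem Stab.mul_ne {ι : Type*} {J : Finset ι} {F : ι → Submodule K (α → K)} {C : Finset α}
    (h : Stab J F C) {i j : ι} (hi : i ∈ J) (hj : j ∈ J) {f g : α → K} (hf : f ∈ F i)
    (hg : g ∈ F j) (hf0 : ∃ P ∈ C, f P ≠ 0) (hg0 : ∃ P ∈ C, g P ≠ 0) :
    ∃ P ∈ C, f P * g P ≠ 0 := by
  classical
  by_contra hcon
  push Not at hcon
  have h1 := h.zeros hi hf hf0
  have h2 := h.zeros hj hg hg0
  have h3 : C ⊆ C.filter (fun x => f x = 0) ∪ C.filter (fun x => g x = 0) := by
    intro P hP
    rw [Finset.mem_union, Finset.mem_filter, Finset.mem_filter]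
    rcases mul_eq_zero.mp (hcon P hP) with h4 | h4
    · exact Or.inl ⟨hP, h4⟩
    · exact Or.inr ⟨hP, h4⟩
  have h4 := (Finset.card_le_card h3).trans (Finset.card_union_le _ _)
  have h5 : (C.filter (fun x => f x = 0)).card * 10 < C.card := by convert h1 using 1; ring
  have h6 : (C.filter (fun x => g x = 0)).card * 10 < C.card := by convert h2 using 1; ring
  omega

end basic

end Pool.Agent.Lib.SQF
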