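import Pool.Agent.Lib.SQF.StabI
import Pool.Agent.Lib.SQF.Plane

/-!
# Stable clusters: the conic case (MP_8842b2_nt, arch70 3.4 (b), RC2)
-/

set_option autoImplicit false

namespace Pool.Agent.Lib.SQF

open Module

/-- a stable set of integral points of the plane, not on a line, on which the quadratic forms
have rank less than `6`, lies on a nondegenerate conic -/
theorem conic_of_rk_aux {α : Type*} (x : Fin 3 → α → ℤ) (T : ℤ) (hT : 1 ≤ T) (C : Finset α)
    (hx : ∀ P ∈ C, ∀ l, |x l P| ≤ T)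
    (hst : Stab (Finset.range 3) (fun b => AS (fun l P => (x l P : ℚ)) ^ b) C)
    (h1 : rk (AS (fun l P => (x l P : ℚ))) C = 3)
    (h2 : rk (AS (fun l P => (x l P : ℚ)) ^ 2) C < 6) :
    ∃ q : Fin 3 → Fin 3 → ℤ, (∀ l l', q l l' = q l' l) ∧
      (∀ l l', |q l l'| ≤ 93312 * T ^ 12) ∧ Matrix.det (Matrix.of q) ≠ 0 ∧
      ∀ P ∈ C, ∑ l, ∑ l', q l l' * x l P * x l' P = 0 := by
  classical
  set y : Fin 3 → α → ℚ := fun l P => (x l P : ℚ) with hy
  obtain ⟨H, rfl⟩ : ∃ H : ℕ, T = H := ⟨T.toNat, by omega⟩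
  have hV : Plane.VV y = AS y := rfl
  -- no line
  have hl : Plane.NoLine y C := by
    intro c hc
    let f : (Fin 3 → ℚ) →ₗ[ℚ] (α → ℚ) := Fintype.linearCombination ℚ y
    have hf : LinearMap.range f = AS y := Fintype.range_linearCombination ℚ y
    refine eq_zero_of_rk f C (by rw [hf, h1]) c fun P hP => ?_
    have h3 : f c P = ∑ i, c i * y i P := by
      simp [f, Fintype.linearCombination_apply, Finset.sum_apply]
    rw [h3]
    exact hc P hP
  -- a conic
  have hq : ¬ Plane.NoConic y C := by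
    intro hq
    let w : Fin 6 → α → ℚ := ![y 0 * y 0, y 0 * y 1, y 0 * y 2, y 1 * y 1, y 1 * y 2, y 2 * y 2]
    let f : (Fin 6 → ℚ) →ₗ[ℚ] (α → ℚ) := Fintype.linearCombination ℚ w
    have hf : LinearMap.range f ≤ AS y ^ 2 := by
      rw [show LinearMap.range f = Submodule.span ℚ (Set.range w) from
        Fintype.range_linearCombination ℚ w, Submodule.span_le]
      have hm : ∀ i j, y i * y j ∈ AS y ^ 2 := by
        intro i j
        rw [sq]
        exact Submodule.mul_mem_mul (Submodule.subset_span ⟨i, rfl⟩)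
          (Submodule.subset_span ⟨j, rfl⟩)
      rintro _ ⟨j, rfl⟩
      fin_cases j
      · exact hm 0 0
      · exact hm 0 1
      · exact hm 0 2
      · exact hm 1 1
      · exact hm 1 2
      · exact hm 2 2
    obtain ⟨c, hc0, hc⟩ := exists_of_rk_lt f C (lt_of_le_of_lt (rk_le_of_le hf C) h2)
    have h3 := hq ![![c 0, c 1, c 2], ![0, c 3, c 4], ![0, 0, c 5]] (by
      intro P hP
      have h4 : f c P = 0 := hc P hP
      have h5 : f c P = c 0 * (y 0 P * y 0 P) + c 1 * (y 0 P * y 1 P) + c 2 * (y 0 P * y 2 P) +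
          c 3 * (y 1 P * y 1 P) + c 4 * (y 1 P * y 2 P) + c 5 * (y 2 P * y 2 P) := by
        simp [f, w, Fintype.linearCombination_apply, Finset.sum_apply, Fin.sum_univ_six]
      rw [h5] at h4
      simp only [Fin.sum_univ_three]
      simp
      linear_combination h4)
    apply hc0
    have e0 := h3 0 0
    have e1 := h3 0 1
    have e2 := h3 0 2
    have e3 := h3 1 1
    have e4 := h3 1 2
    have e5 := h3 2 2
    simp at e0 e1 e2 e3 e4 e5
    funext j
    fin_cases j
    · exact e0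
    · exact e1
    · exact e2
    · exact e3
    · exact e4
    · exact e5
  obtain ⟨M, hM1, hM2, hM3, hM4⟩ := Plane.conic_core x C 2 H (by norm_num) (by omega)
    (fun i p hp => hx p hp i) (by rw [hV]; exact hst) hl hq
  refine ⟨M, fun l l' => ?_, fun l l' => ?_, hM2, hM4⟩
  · exact (hM1.apply l l').symm
  · refine (hM3 l l').trans (le_of_eq ?_)
    push_cast
    ring

/-- linear independence of the coordinates on `C` -/
theorem noLine_of_rk {α : Type*} (y : Fin 3 → α → ℚ) (C : Finset α) (h1 : rk (AS y) C = 3) :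
    Plane.NoLine y C := by
  intro c hc
  let f : (Fin 3 → ℚ) →ₗ[ℚ] (α → ℚ) := Fintype.linearCombination ℚ y
  have hf : LinearMap.range f = AS y := Fintype.range_linearCombination ℚ y
  refine eq_zero_of_rk f C (by rw [hf, h1]) c fun P hP => ?_
  have h3 : f c P = ∑ i, c i * y i P := by
    simp [f, Fintype.linearCombination_apply, Finset.sum_apply]
  rw [h3]
  exact hc P hP

/-- the base point of a nondegenerate conic: there is `P₀ ∈ C` such that `b(P₀, P) ≠ 0` for more
than nine tenths of the points `P ∈ C` -/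
theorem conic_base {α : Type*} (x : Fin 3 → α → ℤ) (C : Finset α)
    (hst : Stab (Finset.range 3) (fun b => AS (fun l P => (x l P : ℚ)) ^ b) C)
    (h1 : rk (AS (fun l P => (x l P : ℚ))) C = 3) (q : Fin 3 → Fin 3 → ℤ)
    (hq : Matrix.det (Matrix.of q) ≠ 0) :
    ∃ P₀ ∈ C, (∃ l, x l P₀ ≠ 0) ∧
      10 * (C.filter (fun P => ∑ l, ∑ l', q l l' * x l P₀ * x l' P = 0)).card < C.card := by
  classical
  set y : Fin 3 → α → ℚ := fun l P => (x l P : ℚ) with hy
  have hl := noLine_of_rk y C h1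
  obtain ⟨P₀, hP₀, hne⟩ : ∃ P ∈ C, x 0 P ≠ 0 := by
    by_contra hcon
    push Not at hcon
    have h2 := hl (Pi.single 0 1) (by
      intro p hp
      simp [Pi.single_apply, hy, hcon p hp])
    have h3 := congrFun h2 0
    simp at h3
  refine ⟨P₀, hP₀, ⟨0, hne⟩, ?_⟩
  -- the linear form
  set c : Fin 3 → ℚ := fun l' => ∑ l, (q l l' : ℚ) * x l P₀ with hc
  have hc0 : c ≠ 0 := by
    intro h
    apply hq
    have h2 : ((Matrix.of q).map (Int.castRingHom ℚ)).det = 0 := by
      rw [← Matrix.exists_vecMul_eq_zero_iff]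
      refine ⟨fun l => (x l P₀ : ℚ), ?_, ?_⟩
      · intro h3
        have := congrFun h3 0
        simp only [Pi.zero_apply, Int.cast_eq_zero] at this
        exact hne this
      · funext l'
        have h4 := congrFun h l'
        simp only [hc, Pi.zero_apply] at h4
        simp only [Matrix.vecMul, dotProduct, Matrix.map_apply, Matrix.of_apply, eq_intCast,
          Pi.zero_apply]
        rw [← h4]
        exact Finset.sum_congr rfl fun l _ => mul_comm _ _
    rw [← RingHom.mapMatrix_apply, ← RingHom.map_det] at h2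
    exact (map_eq_zero_iff (Int.castRingHom ℚ) Int.cast_injective).1 h2
  have hmem : (fun P => ∑ l', c l' * y l' P) ∈ AS y ^ 1 := by
    rw [pow_one]
    have h2 : (fun P => ∑ i, c i * y i P) = ∑ i, c i • y i := by
      funext p
      simp [Finset.sum_apply]
    rw [h2]
    exact Submodule.sum_mem _ fun i _ => Submodule.smul_mem _ _ (Submodule.subset_span ⟨i, rfl⟩)
  have hex : ∃ P ∈ C, (fun P => ∑ l', c l' * y l' P) P ≠ 0 := by
    by_contra hcon
    push Not at hcon
    exact hc0 (hl c hcon)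
  have hz := hst.zeros (j := 1) (by simp) hmem hex
  refine lt_of_le_of_lt (le_of_eq ?_) hz
  congr 2
  ext P
  simp only [Finset.mem_filter]
  have h5 : ∑ l', c l' * y l' P = ((∑ l, ∑ l', q l l' * x l P₀ * x l' P : ℤ) : ℚ) := by
    push_cast
    rw [Finset.sum_comm]
    refine Finset.sum_congr rfl fun l' _ => ?_
    rw [hc, Finset.sum_mul]
  rw [h5, Int.cast_eq_zero]

theorem conic_of_rk : ∃ Kc : ℕ, ∀ {ι : Type*} (x : Fin 3 → ι → ℤ) (C : Finset ι) (T : ℤ) (_ : 1 ≤ T)
    (_ : ∀ P ∈ C, ∀ l, |x l P| ≤ T)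
    (_ : Stab (Finset.range 3) (fun b => AS (fun l => qf (x l)) ^ b) C)
    (_ : rk (AS (fun l => qf (x l))) C = 3) (_ : rk (AS (fun l => qf (x l)) ^ 2) C < 6),
    ∃ q : Fin 3 → Fin 3 → ℤ, (∀ l l', q l l' = q l' l) ∧ (∀ l l', |q l l'| ≤ bd Kc T) ∧
      Matrix.det (Matrix.of q) ≠ 0 ∧ ∀ P ∈ C, ∑ l, ∑ l', q l l' * x l P * x l' P = 0 := by
  refine ⟨93312, fun x C T hT hx hst h1 h2 => ?_⟩
  obtain ⟨q, hq1, hq2, hq3, hq4⟩ := conic_of_rk_aux x T hT C hx hst h1 h2
  refine ⟨q, hq1, fun l l' => (hq2 l l').trans ?_, hq3, hq4⟩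
  unfold bd
  have h3 : T ^ 12 ≤ T ^ 93312 := pow_le_pow_right₀ hT (by norm_num)
  have h4 : ((93312 : ℕ) : ℤ) = 93312 := by norm_num
  rw [h4]
  linarith

end Pool.Agent.Lib.SQF
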