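import Pool.Agent.Lib.SQF.StabB
import Pool.Agent.Lib.SQF.MinorSol

/-!
# Stable clusters: integral relations with bounded coefficients (MP_8842b2_nt, arch70 3.4)
-/

set_option autoImplicit false

namespace Pool.Agent.Lib.SQF

open Module

/-! ### bounds of the shape `K T^K` -/

/-- `K T^K` -/
def bd (K : ℕ) (T : ℤ) : ℤ := K * T ^ K

theorem bd_mono {K K' : ℕ} (h : K ≤ K') {T : ℤ} (hT : 1 ≤ T) : bd K T ≤ bd K' T := by
  unfold bd
  have h1 : T ^ K ≤ T ^ K' := pow_le_pow_right₀ hT h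
  have h2 : (K : ℤ) ≤ K' := by exact_mod_cast h
  have h3 : (0 : ℤ) ≤ T ^ K := by positivity
  exact mul_le_mul h2 h1 h3 (by positivity)

theorem bd_nonneg (K : ℕ) {T : ℤ} (hT : 1 ≤ T) : 0 ≤ bd K T := by
  unfold bd; positivity

theorem one_le_bd {K : ℕ} (hK : 1 ≤ K) {T : ℤ} (hT : 1 ≤ T) : 1 ≤ bd K T := by
  unfold bd
  have h1 : (1 : ℤ) ≤ K := by exact_mod_cast hK
  have h2 : (1 : ℤ) ≤ T ^ K := one_le_pow₀ hT
  nlinarith

theorem bd_mul {K K' : ℕ} {T : ℤ} (hT : 1 ≤ T) : bd K T * bd K' T ≤ bd (K * K' + K + K') T := by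
  unfold bd
  have h0 : (0 : ℤ) ≤ K := by positivity
  have h0' : (0 : ℤ) ≤ K' := by positivity
  have h1 : T ^ (K + K') ≤ T ^ (K * K' + K + K') := pow_le_pow_right₀ hT (by
    have := Nat.zero_le (K * K'); omega)
  have h2 : (0 : ℤ) ≤ T ^ (K + K') := by positivity
  calc (K : ℤ) * T ^ K * (K' * T ^ K') = (K * K') * T ^ (K + K') := by rw [pow_add]; ring
    _ ≤ ((K * K' + K + K' : ℕ) : ℤ) * T ^ (K * K' + K + K') := by
      push_cast
      exact mul_le_mul (by linarith) h1 h2 (by positivity)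

theorem bd_add {K K' : ℕ} {T : ℤ} (hT : 1 ≤ T) : bd K T + bd K' T ≤ bd (K + K') T := by
  have h1 : T ^ K ≤ T ^ (K + K') := pow_le_pow_right₀ hT (by omega)
  have h2 : T ^ K' ≤ T ^ (K + K') := pow_le_pow_right₀ hT (by omega)
  unfold bd
  push_cast
  have h0 : (0 : ℤ) ≤ K := by positivity
  have h0' : (0 : ℤ) ≤ K' := by positivity
  nlinarith [mul_le_mul_of_nonneg_left h1 h0, mul_le_mul_of_nonneg_left h2 h0']

theorem bd_sum {ι : Type*} (s : Finset ι) {K : ℕ} {T : ℤ} (hT : 1 ≤ T) (f : ι → ℤ)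
    (hf : ∀ i ∈ s, |f i| ≤ bd K T) (n : ℕ) (hn : s.card ≤ n) : |∑ i ∈ s, f i| ≤ bd (n * K + n + K) T := by
  refine (Finset.abs_sum_le_sum_abs _ _).trans ?_
  refine (Finset.sum_le_sum hf).trans ?_
  rw [Finset.sum_const, nsmul_eq_mul]
  have h1 : (s.card : ℤ) ≤ n := by exact_mod_cast hn
  have h2 := bd_nonneg K hT
  have h3 : (n : ℤ) ≤ bd n T := by
    unfold bd
    have h4 : (1 : ℤ) ≤ T ^ n := one_le_pow₀ hT
    have h5 : (0 : ℤ) ≤ n := by positivity
    nlinarith
  calc (s.card : ℤ) * bd K T ≤ bd n T * bd K T := mul_le_mul_of_nonneg_right (h1.trans h3) h2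
    _ ≤ bd (n * K + n + K) T := bd_mul hT

/-- a bound `n! * (T^m)^n` is at most `bd (n! + m n) T` -/
theorem bd_fact (m n : ℕ) {T : ℤ} (hT : 1 ≤ T) :
    (n.factorial : ℤ) * (T ^ m) ^ n ≤ bd (n.factorial + m * n) T := by
  unfold bd
  rw [← pow_mul]
  have h1 : T ^ (m * n) ≤ T ^ (n.factorial + m * n) := pow_le_pow_right₀ hT (by omega)
  have h2 : (0 : ℤ) ≤ T ^ (m * n) := by positivity
  push_cast
  exact mul_le_mul (by
    have : (0 : ℤ) ≤ (m : ℤ) * n := by positivity
    linarith) h1 h2 (by positivity)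

/-! ### linear relations -/

section lin

variable {ι : Type*}

/-- the rational version of integral functions -/
def qf (f : ι → ℤ) : ι → ℚ := fun P => (f P : ℚ)

/-- the linear map `c ↦ ∑ c_j x_j` -/
noncomputable def xL {K α : Type*} [Field K] {m : ℕ} (x : Fin m → α → K) :
    (Fin m → K) →ₗ[K] (α → K) := Fintype.linearCombination K x

theorem xL_apply {K α : Type*} [Field K] {m : ℕ} (x : Fin m → α → K) (c : Fin m → K) (P : α) :
    xL x c P = ∑ j, c j * x j P := by
  simp [xL, Fintype.linearCombination_apply, Finset.sum_apply]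

theorem range_xL {K α : Type*} [Field K] {m : ℕ} (x : Fin m → α → K) :
    LinearMap.range (xL x) = AS x := by
  unfold xL AS
  exact Fintype.range_linearCombination K x

theorem rk_AS_le {K α : Type*} [Field K] {m : ℕ} (x : Fin m → α → K) (C : Finset α) :
    rk (AS x) C ≤ m := by
  rw [← range_xL]
  exact rk_range_le _ _

/-- a space of functions given by `m` integral functions, of rank `< m` on `C`, has an integral
relation -/
theorem stab_int_rel {m : ℕ} (w : Fin m → ι → ℤ) (C : Finset ι) (T : ℤ) (hT : 1 ≤ T)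
    (hw : ∀ P ∈ C, ∀ j, |w j P| ≤ T) (h : rk (AS fun j => qf (w j)) C < m) :
    ∃ c : Fin m → ℤ, c ≠ 0 ∧ (∀ j, |c j| ≤ m.factorial * T ^ m) ∧
      ∀ P ∈ C, ∑ j, c j * w j P = 0 := by
  rw [← range_xL] at h
  obtain ⟨c, hc, hc0⟩ := exists_of_rk_lt _ C h
  obtain ⟨y, hy, hy1, hy2⟩ := MinorSol.exists_int_sol (ι := C) (F := ℚ) hT
    (fun P j => w j P) (fun P j => hw P P.2 j) c hc (fun P => by
      have h1 := hc0 P P.2
      rw [xL_apply] at h1
      rw [← h1]
      exact Finset.sum_congr rfl fun j _ => mul_comm _ _)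
  refine ⟨y, hy, hy1, fun P hP => ?_⟩
  rw [← hy2 ⟨P, hP⟩]
  exact Finset.sum_congr rfl fun j _ => mul_comm _ _

/-- one coordinate is a combination of the others -/
theorem exists_elim_coord {m : ℕ} (x : Fin (m + 1) → ι → ℤ) (C : Finset ι) (T : ℤ) (hT : 1 ≤ T)
    (hx : ∀ P ∈ C, ∀ j, |x j P| ≤ T) (h : rk (AS fun j => qf (x j)) C < m + 1) :
    ∃ (j1 : Fin (m + 1)) (D : ℤ) (A : Fin (m + 1) → Fin m → ℤ), D ≠ 0 ∧
      |D| ≤ (m + 1).factorial * T ^ (m + 1) ∧
      (∀ j l, |A j l| ≤ (m + 1).factorial * T ^ (m + 1)) ∧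
      ∀ P ∈ C, ∀ j, D * x j P = ∑ l, A j l * x (j1.succAbove l) P := by
  classical
  obtain ⟨c, hc, hc1, hc2⟩ := stab_int_rel x C T hT hx h
  obtain ⟨j1, hj1⟩ : ∃ j, c j ≠ 0 := by
    by_contra hcon
    push Not at hcon
    exact hc (funext hcon)
  have hb0 : (0 : ℤ) ≤ (m + 1).factorial * T ^ (m + 1) := by positivity
  refine ⟨j1, c j1, fun j l => if j = j1 then - c (j1.succAbove l) else
    if j = j1.succAbove l then c j1 else 0, hj1, hc1 _, ?_, ?_⟩
  · intro j l
    dsimp only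
    split_ifs
    · rw [abs_neg]; exact hc1 _
    · exact hc1 _
    · rw [abs_zero]; exact hb0
  · intro P hP j
    by_cases hj : j = j1
    · subst hj
      have h1 := hc2 P hP
      rw [Fin.sum_univ_succAbove _ j] at h1
      simp only [if_true, neg_mul, Finset.sum_neg_distrib]
      linarith
    · obtain ⟨l0, rfl⟩ := Fin.exists_succAbove_eq hj
      rw [Finset.sum_eq_single l0]
      · simp only [if_neg hj, if_true]
      · intro l _ hl
        have h2 : j1.succAbove l0 ≠ j1.succAbove l := fun h3 =>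
          hl (Fin.succAbove_right_injective h3).symm
        simp only [if_neg hj, if_neg h2, zero_mul]
      · intro h; exact absurd (Finset.mem_univ _) h

/-- the rank does not change when the superfluous coordinate is removed -/
theorem rk_elim {m : ℕ} (x : Fin (m + 1) → ι → ℤ) (C : Finset ι) (j1 : Fin (m + 1)) (D : ℤ)
    (hD : D ≠ 0) (A : Fin (m + 1) → Fin m → ℤ)
    (h : ∀ P ∈ C, ∀ j, D * x j P = ∑ l, A j l * x (j1.succAbove l) P) :
    rk (AS fun j => qf (x j)) C ≤ rk (AS fun l => qf (x (j1.succAbove l))) C := by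
  unfold rk
  refine Submodule.finrank_mono ?_
  unfold AS
  rw [Submodule.map_span, Submodule.span_le]
  rintro _ ⟨_, ⟨j, rfl⟩, rfl⟩
  have hD' : (D : ℚ) ≠ 0 := by exact_mod_cast hD
  have h1 : rs C (qf (x j)) = rs C (∑ l, ((A j l : ℚ) / D) • qf (x (j1.succAbove l))) := by
    funext P
    rw [rs_apply, rs_apply, Finset.sum_apply]
    have h2 := h P P.2 j
    have h3 : (D : ℚ) * x j P = ∑ l, (A j l : ℚ) * x (j1.succAbove l) P := by exact_mod_cast h2
    simp only [qf, Pi.smul_apply, smul_eq_mul]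
    rw [← mul_right_inj' hD', h3, Finset.mul_sum]
    refine Finset.sum_congr rfl fun l _ => ?_
    field_simp
  simp only
  rw [h1]
  refine Submodule.mem_map_of_mem (Submodule.sum_mem _ fun l _ => Submodule.smul_mem _ _ ?_)
  exact Submodule.subset_span ⟨l, rfl⟩

end lin

end Pool.Agent.Lib.SQF
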