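import Pool.Agent.Lib.SQF.StabB

/-!
# Stable clusters in the plane (MP_8842b2_nt, arch70 3.4 (b), plane case)

A stable set of points in the plane which lies neither on a line nor on a conic: the forms of
degree `b` have rank at least `3 b` on it.  Proof of helper48: polynomials in two variables of total
degree at most `m`; a polynomial `ψ` of minimal total degree `D ≥ 3` vanishing on the set; every
`h` of degree `e` vanishing on the set is a multiple of `ψ` (else the rank in degree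
`m = D e + D + e` is at most `D e`, against superadditivity).
-/

set_option autoImplicit false

namespace Pool.Agent.Lib.SQF

open Module MvPolynomial

section plane

variable {K : Type*} [Field K] {α : Type*}

/-- the monomials of degree at most `m` in two variables -/
private noncomputable def monoEquiv (m : ℕ) :
    {n : Fin 2 →₀ ℕ | (n.sum fun _ e => e) ≤ m} ≃ (Σ k : Fin (m + 1), Fin (k.1 + 1)) where
  toFun n := ⟨⟨n.1 0 + n.1 1, by
      have h := n.2
      simp only [Set.mem_ofPred_eq] at h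
      rw [Finsupp.sum_fintype _ _ (fun _ => rfl), Fin.sum_univ_two] at h
      omega⟩, ⟨n.1 0, by simp only; omega⟩⟩
  invFun p := ⟨Finsupp.equivFunOnFinite.symm ![p.2.1, p.1.1 - p.2.1], by
      simp only [Set.mem_ofPred_eq]
      rw [Finsupp.sum_fintype _ _ (fun _ => rfl), Fin.sum_univ_two]
      have h1 := p.1.2
      have h2 := p.2.2
      simp
      omega⟩
  left_inv n := by
    apply Subtype.ext
    ext i
    fin_cases i
    · simp
    · simp
  right_inv p := by
    obtain ⟨⟨k, hk⟩, ⟨a, ha⟩⟩ := p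
    simp only at ha
    have h1 : a + (k - a) = k := by omega
    have h2 : ∀ (k' : ℕ) (hk' : k' < m + 1) (a' : ℕ) (ha' : a' < k' + 1), k' = k → a' = a →
        (⟨⟨k', hk'⟩, ⟨a', ha'⟩⟩ : Σ k : Fin (m + 1), Fin (k.1 + 1)) = ⟨⟨k, hk⟩, ⟨a, ha⟩⟩ := by
      intro k' hk' a' ha' e1 e2
      subst e1
      subst e2
      rfl
    exact h2 _ _ _ _ h1 rfl

variable (K) in
private noncomputable abbrev Pl (m : ℕ) : Submodule K (MvPolynomial (Fin 2) K) :=
  restrictTotalDegree (Fin 2) K m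

private theorem mem_Pl {m : ℕ} {p : MvPolynomial (Fin 2) K} : p ∈ Pl K m ↔ p.totalDegree ≤ m :=
  mem_restrictTotalDegree _ _ _

private theorem finrank_Pl (m : ℕ) : 2 * finrank K (Pl K m) = (m + 1) * (m + 2) := by
  have h1 : finrank K (Pl K m) = Nat.card {n : Fin 2 →₀ ℕ | (n.sum fun _ e => e) ≤ m} :=
    finrank_eq_nat_card_basis (basisRestrictSupport K _)
  rw [h1, Nat.card_congr (monoEquiv m), Nat.card_eq_fintype_card, Fintype.card_sigma]
  simp only [Fintype.card_fin]
  rw [Fin.sum_univ_eq_sum_range (fun k => k + 1) (m + 1)]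
  induction m with
  | zero => simp
  | succ m ih =>
    rw [Finset.sum_range_succ, mul_add, ih]
    · ring
    · exact finrank_eq_nat_card_basis (basisRestrictSupport K _)

/-- the homogenised value: `x 0 ^ m * h (x 1 / x 0, x 2 / x 0)` -/
private noncomputable def Ph (x : Fin 3 → α → K) (m : ℕ) :
    MvPolynomial (Fin 2) K →ₗ[K] (α → K) :=
  (basisMonomials (Fin 2) K).constr K
    (fun s => x 0 ^ (m - (s 0 + s 1)) * x 1 ^ (s 0) * x 2 ^ (s 1))

private theorem Ph_monomial (x : Fin 3 → α → K) (m : ℕ) (s : Fin 2 →₀ ℕ) (c : K) :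
    Ph x m (monomial s c) = c • (x 0 ^ (m - (s 0 + s 1)) * x 1 ^ (s 0) * x 2 ^ (s 1)) := by
  have h : monomial s c = c • basisMonomials (Fin 2) K s := by
    simp [smul_monomial]
  rw [h, map_smul, Ph, Basis.constr_basis]

private theorem exists_sum {a : ℕ} {h : MvPolynomial (Fin 2) K} (hh : h ∈ Pl K a) :
    ∃ (S : Finset (Fin 2 →₀ ℕ)) (c : (Fin 2 →₀ ℕ) → K), (∀ s ∈ S, s 0 + s 1 ≤ a) ∧
      h = ∑ s ∈ S, monomial s (c s) := by
  refine ⟨h.support, fun s => h.coeff s, fun s hs => ?_, (support_sum_monomial_coeff h).symm⟩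
  have h1 := le_totalDegree hs
  rw [Finsupp.sum_fintype _ _ (fun _ => rfl), Fin.sum_univ_two] at h1
  exact h1.trans (mem_Pl.1 hh)

private theorem Ph_mul (x : Fin 3 → α → K) {a b : ℕ} {h g : MvPolynomial (Fin 2) K}
    (hh : h ∈ Pl K a) (hg : g ∈ Pl K b) : Ph x (a + b) (h * g) = Ph x a h * Ph x b g := by
  obtain ⟨S, c, hS, rfl⟩ := exists_sum hh
  obtain ⟨T, d, hT, rfl⟩ := exists_sum hg
  rw [Finset.sum_mul_sum, map_sum, map_sum, map_sum, Finset.sum_mul_sum]
  refine Finset.sum_congr rfl fun s hs => ?_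
  rw [map_sum]
  refine Finset.sum_congr rfl fun t ht => ?_
  rw [monomial_mul, Ph_monomial, Ph_monomial, Ph_monomial, smul_mul_smul_comm]
  congr 1
  have h1 := hS s hs
  have h2 := hT t ht
  simp only [Finsupp.add_apply]
  have h3 : a + b - (s 0 + t 0 + (s 1 + t 1)) = (a - (s 0 + s 1)) + (b - (t 0 + t 1)) := by omega
  rw [h3, pow_add, pow_add, pow_add]
  ring

private theorem one_mem_Pl (m : ℕ) : (1 : MvPolynomial (Fin 2) K) ∈ Pl K m := by
  rw [mem_Pl, totalDegree_one]
  exact Nat.zero_le _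

private theorem Ph_one (x : Fin 3 → α → K) (m : ℕ) : Ph x m 1 = x 0 ^ m := by
  have h : (1 : MvPolynomial (Fin 2) K) = monomial 0 1 := rfl
  rw [h, Ph_monomial]
  simp

private theorem mono_AS (x : Fin 3 → α → K) (i j k : ℕ) :
    x 0 ^ i * x 1 ^ j * x 2 ^ k ∈ AS x ^ (i + j + k) := by
  have h : ∀ l, x l ∈ AS x := fun l => Submodule.subset_span ⟨l, rfl⟩
  rw [pow_add, pow_add]
  exact Submodule.mul_mem_mul (Submodule.mul_mem_mul (Submodule.pow_mem_pow _ (h 0) _)
    (Submodule.pow_mem_pow _ (h 1) _)) (Submodule.pow_mem_pow _ (h 2) _)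

private theorem AS_le (x : Fin 3 → α → K) : AS x ≤ (Pl K 1).map (Ph x 1) := by
  unfold AS
  rw [Submodule.span_le]
  rintro _ ⟨l, rfl⟩
  fin_cases l
  · exact ⟨1, one_mem_Pl 1, by rw [Ph_one, pow_one]; rfl⟩
  · refine ⟨X 0, mem_Pl.2 (totalDegree_X _).le, ?_⟩
    rw [X, Ph_monomial]
    simp
  · refine ⟨X 1, mem_Pl.2 (totalDegree_X _).le, ?_⟩
    rw [X, Ph_monomial]
    simp

private theorem AS_pow (x : Fin 3 → α → K) (m : ℕ) : AS x ^ m = (Pl K m).map (Ph x m) := by
  refine le_antisymm ?_ ?_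
  · induction m with
    | zero =>
      rw [pow_zero, Submodule.one_le]
      exact ⟨1, one_mem_Pl 0, by rw [Ph_one, pow_zero]⟩
    | succ m ih =>
      rw [pow_succ, Submodule.mul_le]
      intro f hf g hg
      obtain ⟨h, hh, rfl⟩ := ih hf
      obtain ⟨g', hg', rfl⟩ := AS_le x hg
      refine ⟨h * g', ?_, Ph_mul x hh hg'⟩
      exact mem_Pl.2 ((totalDegree_mul _ _).trans (add_le_add (mem_Pl.1 hh) (mem_Pl.1 hg')))
  · rintro _ ⟨h, hh, rfl⟩
    obtain ⟨S, c, hS, rfl⟩ := exists_sum hh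
    rw [map_sum]
    refine Submodule.sum_mem _ fun s hs => ?_
    rw [Ph_monomial]
    refine Submodule.smul_mem _ _ ?_
    have h1 := mono_AS x (m - (s 0 + s 1)) (s 0) (s 1)
    have h2 : m - (s 0 + s 1) + s 0 + s 1 = m := by
      have := hS s hs
      omega
    rwa [h2] at h1

/-- the polynomials of degree at most `m` vanishing on `C` -/
private noncomputable def Va (x : Fin 3 → α → K) (C : Finset α) (m : ℕ) :
    Submodule K (MvPolynomial (Fin 2) K) :=
  Pl K m ⊓ LinearMap.ker ((rs C).comp (Ph x m))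

private theorem mem_Va {x : Fin 3 → α → K} {C : Finset α} {m : ℕ} {h : MvPolynomial (Fin 2) K} :
    h ∈ Va x C m ↔ h.totalDegree ≤ m ∧ ∀ P ∈ C, Ph x m h P = 0 := by
  unfold Va
  rw [Submodule.mem_inf, mem_Pl, LinearMap.mem_ker, LinearMap.comp_apply, rs_eq_zero]

private theorem rk_add (x : Fin 3 → α → K) (C : Finset α) (m : ℕ) :
    2 * (rk (AS x ^ m) C + finrank K (Va x C m)) = (m + 1) * (m + 2) := by
  rw [← finrank_Pl (K := K) m]
  congr 1
  unfold rk
  rw [AS_pow, ← Submodule.map_comp]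
  set f := (rs C).comp (Ph x m) with hf
  have h1 := LinearMap.finrank_range_add_finrank_ker (f.domRestrict (Pl K m))
  rw [LinearMap.range_domRestrict, LinearMap.ker_domRestrict] at h1
  rw [← h1]
  congr 1
  have h2 : Va x C m = ((LinearMap.ker f).comap (Pl K m).subtype).map (Pl K m).subtype := by
    rw [Submodule.map_comap_subtype]
    rfl
  rw [h2]
  exact LinearEquiv.finrank_eq
    (Submodule.equivMapOfInjective _ (Submodule.subtype_injective _) _).symm

private noncomputable abbrev Ml (K : Type*) [Field K] (ψ : MvPolynomial (Fin 2) K) (m : ℕ) :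
    Submodule K (MvPolynomial (Fin 2) K) := (Pl K m).map (LinearMap.mulLeft K ψ)

private theorem finrank_Ml {ψ : MvPolynomial (Fin 2) K} (hψ : ψ ≠ 0) (m : ℕ) :
    2 * finrank K (Ml K ψ m) = (m + 1) * (m + 2) := by
  rw [← finrank_Pl (K := K) m]
  congr 1
  have hinj : Function.Injective (LinearMap.mulLeft K ψ) := by
    intro a b hab
    exact mul_left_cancel₀ hψ hab
  exact LinearEquiv.finrank_eq (Submodule.equivMapOfInjective _ hinj _).symm

private theorem mem_Ml {ψ f : MvPolynomial (Fin 2) K} {m : ℕ} :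
    f ∈ Ml K ψ m ↔ ∃ r, r.totalDegree ≤ m ∧ f = ψ * r := by
  constructor
  · rintro ⟨r, hr, rfl⟩
    exact ⟨r, mem_Pl.1 hr, rfl⟩
  · rintro ⟨r, hr, rfl⟩
    exact ⟨r, mem_Pl.2 hr, rfl⟩

section stable

variable {x : Fin 3 → α → K} {C : Finset α} {N : ℕ}

private theorem Ph_mem {m : ℕ} {h : MvPolynomial (Fin 2) K} (hh : h.totalDegree ≤ m) :
    Ph x m h ∈ AS x ^ m := by
  rw [AS_pow]
  exact ⟨h, mem_Pl.2 hh, rfl⟩

/-- a product which vanishes on `C` has a factor which vanishes on `C` -/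
private theorem split (hst : Stab (Finset.range (N + 1)) (fun b => AS x ^ b) C) {a b : ℕ}
    (ha : a ≤ N) (hb : b ≤ N) {h g : MvPolynomial (Fin 2) K} (hh : h.totalDegree ≤ a)
    (hg : g.totalDegree ≤ b) (h0 : ∀ P ∈ C, Ph x (a + b) (h * g) P = 0) :
    h ∈ Va x C a ∨ g ∈ Va x C b := by
  by_contra hcon
  rw [not_or, mem_Va, mem_Va] at hcon
  obtain ⟨h1, h2⟩ := hcon
  have h3 : ∃ P ∈ C, Ph x a h P ≠ 0 := by
    by_contra hh3
    push Not at hh3
    exact h1 ⟨hh, hh3⟩
  have h4 : ∃ P ∈ C, Ph x b g P ≠ 0 := by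
    by_contra hh3
    push Not at hh3
    exact h2 ⟨hg, hh3⟩
  obtain ⟨P, hP, hne⟩ := hst.mul_ne (i := a) (j := b) (Finset.mem_range.2 (by omega))
    (Finset.mem_range.2 (by omega)) (Ph_mem hh) (Ph_mem hg) h3 h4
  apply hne
  have h5 := h0 P hP
  rw [Ph_mul x (mem_Pl.2 hh) (mem_Pl.2 hg)] at h5
  exact h5

private theorem Va_mul {a b m : ℕ} {h g : MvPolynomial (Fin 2) K} (hh : h ∈ Va x C a)
    (hg : g.totalDegree ≤ b) (hm : a + b = m) : h * g ∈ Va x C m := by
  subst hm
  rw [mem_Va] at hh ⊢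
  refine ⟨(totalDegree_mul _ _).trans (add_le_add hh.1 hg), fun P hP => ?_⟩
  rw [Ph_mul x (mem_Pl.2 hh.1) (mem_Pl.2 hg), Pi.mul_apply, hh.2 P hP, zero_mul]

private theorem Va_mono {a b : ℕ} (hab : a ≤ b) {h : MvPolynomial (Fin 2) K}
    (hh : h ∈ Va x C a) : h ∈ Va x C b := by
  have h1 := Va_mul (g := 1) (b := b - a) (m := b) hh (by rw [totalDegree_one]; omega) (by omega)
  rwa [mul_one] at h1

/-- vanishing does not depend on the degree -/
private theorem Va_down (hst : Stab (Finset.range (N + 1)) (fun b => AS x ^ b) C)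
    (hx0 : ∀ k, (1 : MvPolynomial (Fin 2) K) ∉ Va x C k) {b : ℕ} (hb : b ≤ N)
    {h : MvPolynomial (Fin 2) K} (hh : h ∈ Va x C b) : h ∈ Va x C h.totalDegree := by
  have h1 := mem_Va.1 hh
  rcases split hst (a := h.totalDegree) (b := b - h.totalDegree) (h := h) (g := 1) (by omega)
    (by omega) le_rfl (by rw [totalDegree_one]; omega) (by
      have h2 : h.totalDegree + (b - h.totalDegree) = b := by omega
      rw [h2, mul_one]
      exact h1.2) with h3 | h3
  · exact h3
  · exact absurd h3 (hx0 _)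

private theorem isUnit_of_deg {d : MvPolynomial (Fin 2) K} (hd0 : d ≠ 0)
    (hd : d.totalDegree = 0) : IsUnit d := by
  have h6 := totalDegree_eq_zero_iff_eq_C.mp hd
  rw [h6]
  refine IsUnit.map MvPolynomial.C (isUnit_iff_ne_zero.2 ?_)
  intro h8
  rw [h8, MvPolynomial.C_0] at h6
  exact hd0 h6

private theorem arith9 (D e m : ℕ) (hm : m = D * e + D + e) :
    (m + 1) * (m + 2) + (D * e + 1) * (D * e + 2) =
      (D * e + e + 1) * (D * e + e + 2) + (D * e + D + 1) * (D * e + D + 2) + 2 * (D * e) := by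
  subst hm
  ring

private theorem relPrime (hst : Stab (Finset.range (N + 1)) (fun b => AS x ^ b) C)
    {ψ : MvPolynomial (Fin 2) K} (hψ0 : ψ ≠ 0) (hψ : ψ ∈ Va x C ψ.totalDegree)
    (hmin : ∀ h : MvPolynomial (Fin 2) K, h ≠ 0 → h ∈ Va x C h.totalDegree →
      ψ.totalDegree ≤ h.totalDegree) (hDN : ψ.totalDegree ≤ N)
    {h : MvPolynomial (Fin 2) K} (hnd : ¬ ψ ∣ h) : IsRelPrime ψ h := by
  intro d hd1 hd2
  obtain ⟨ψ', hψ'⟩ := hd1
  have hd0 : d ≠ 0 := by
    rintro rfl
    rw [zero_mul] at hψ'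
    exact hψ0 hψ'
  have hψ'0 : ψ' ≠ 0 := by
    rintro rfl
    rw [mul_zero] at hψ'
    exact hψ0 hψ'
  have hdeg : ψ.totalDegree = d.totalDegree + ψ'.totalDegree := by
    rw [hψ', totalDegree_mul_of_isDomain hd0 hψ'0]
  rcases split hst (a := d.totalDegree) (b := ψ'.totalDegree) (h := d) (g := ψ') (by omega)
    (by omega) le_rfl le_rfl (by
      rw [← hψ', ← hdeg]
      exact (mem_Va.1 hψ).2) with h3 | h3
  · have h4 := hmin d hd0 h3
    have h5 : ψ'.totalDegree = 0 := by omega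
    exfalso
    apply hnd
    rw [hψ']
    exact ((isUnit_of_deg hψ'0 h5).mul_right_dvd).2 hd2
  · have h4 := hmin ψ' hψ'0 h3
    exact isUnit_of_deg hd0 (by omega)

/-- the key step: everything of degree `e ≤ B` which vanishes on `C` is a multiple of `ψ` -/
private theorem key {B : ℕ} (hN : B ^ 2 + 2 * B ≤ N)
    (hst : Stab (Finset.range (N + 1)) (fun b => AS x ^ b) C)
    (h1 : rk (AS x) C = 3)
    {ψ : MvPolynomial (Fin 2) K} (hψ0 : ψ ≠ 0) (hψ : ψ ∈ Va x C ψ.totalDegree)
    (hmin : ∀ h : MvPolynomial (Fin 2) K, h ≠ 0 → h ∈ Va x C h.totalDegree →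
      ψ.totalDegree ≤ h.totalDegree)
    {h : MvPolynomial (Fin 2) K} (hh0 : h ≠ 0) (hh : h ∈ Va x C h.totalDegree)
    (heB : h.totalDegree ≤ B) : ψ ∣ h := by
  by_contra hnd
  have hDe := hmin h hh0 hh
  have hDB : ψ.totalDegree ≤ B := hDe.trans heB
  have hNB : B ≤ N := le_trans (by nlinarith) hN
  have hrel : IsRelPrime ψ h := relPrime hst hψ0 hψ hmin (hDB.trans hNB) hnd
  have he1 : 1 ≤ h.totalDegree := by
    rw [Nat.one_le_iff_ne_zero]
    intro h8
    exact hnd (isUnit_of_deg hψ0 (by omega)).dvd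
  obtain ⟨D, hD⟩ : ∃ D, D = ψ.totalDegree := ⟨_, rfl⟩
  obtain ⟨e, he⟩ : ∃ e, e = h.totalDegree := ⟨_, rfl⟩
  rw [← hD] at hψ hDe hDB
  rw [← he] at hh hDe heB he1
  obtain ⟨m, hm⟩ : ∃ m, m = D * e + D + e := ⟨_, rfl⟩
  have hmN : m ≤ N := by
    refine le_trans ?_ hN
    have := Nat.mul_le_mul hDB heB
    rw [hm]
    nlinarith
  have hA : Ml K ψ (D * e + e) ≤ Va x C m := by
    intro f hf
    obtain ⟨r, hr, rfl⟩ := mem_Ml.1 hf
    exact Va_mul hψ hr (by rw [hm]; ring)
  have hB : Ml K h (D * e + D) ≤ Va x C m := by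
    intro f hf
    obtain ⟨r, hr, rfl⟩ := mem_Ml.1 hf
    exact Va_mul hh hr (by rw [hm]; ring)
  have hAB : Ml K ψ (D * e + e) ⊓ Ml K h (D * e + D) ≤ Ml K (ψ * h) (D * e) := by
    intro f hf
    rw [Submodule.mem_inf] at hf
    obtain ⟨p, hp, hfp⟩ := mem_Ml.1 hf.1
    obtain ⟨q, hq, hfq⟩ := mem_Ml.1 hf.2
    have h3 : h ∣ ψ * p := ⟨q, by rw [← hfp, hfq]⟩
    obtain ⟨r, hr⟩ := hrel.symm.dvd_of_dvd_mul_left h3
    rw [mem_Ml]
    refine ⟨r, ?_, by rw [hfp, hr]; ring⟩
    rcases eq_or_ne r 0 with h4 | h4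
    · rw [h4, totalDegree_zero]
      exact Nat.zero_le _
    · have h5 : p.totalDegree = h.totalDegree + r.totalDegree := by
        rw [hr, totalDegree_mul_of_isDomain hh0 h4]
      omega
  have f1 := finrank_Ml (K := K) hψ0 (D * e + e)
  have f2 := finrank_Ml (K := K) hh0 (D * e + D)
  have f3 := finrank_Ml (K := K) (mul_ne_zero hψ0 hh0) (D * e)
  have f4 := Submodule.finrank_sup_add_finrank_inf_eq (Ml K ψ (D * e + e)) (Ml K h (D * e + D))
  have f5 : finrank K ↥(Ml K ψ (D * e + e) ⊓ Ml K h (D * e + D)) ≤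
      finrank K (Ml K (ψ * h) (D * e)) := Submodule.finrank_mono hAB
  have : FiniteDimensional K (Va x C m) := by
    unfold Va
    infer_instance
  have f6 : finrank K ↥(Ml K ψ (D * e + e) ⊔ Ml K h (D * e + D)) ≤
      finrank K (Va x C m) := Submodule.finrank_mono (sup_le hA hB)
  have f7 := rk_add x C m
  have hst' : Stab (Finset.range (m + 1)) (fun b => AS x ^ b) C :=
    hst.mono (fun k hk => Finset.mem_range.2 (by have := Finset.mem_range.1 hk; omega))
      (fun _ _ => le_rfl)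
  have f8 := rk_pow (AS x) m C hst' (by omega) m (by rw [hm]; omega) le_rfl
  rw [h1] at f8
  have f9 := arith9 D e m hm
  clear hst hst' hψ hmin hh hrel hA hB hAB hnd
  generalize (m + 1) * (m + 2) = A1 at *
  generalize (D * e + 1) * (D * e + 2) = A2 at *
  generalize (D * e + e + 1) * (D * e + e + 2) = A3 at *
  generalize (D * e + D + 1) * (D * e + D + 2) = A4 at *
  omega

private theorem Va_eq_bot (hx0 : ∀ k, (1 : MvPolynomial (Fin 2) K) ∉ Va x C k) {b : ℕ}
    (hst : Stab (Finset.range (N + 1)) (fun b => AS x ^ b) C) (hb : b ≤ N)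
    (h : ∀ h : MvPolynomial (Fin 2) K, h ≠ 0 → h ∈ Va x C h.totalDegree → b < h.totalDegree) :
    Va x C b = ⊥ := by
  rw [Submodule.eq_bot_iff]
  intro g hg
  by_contra hg0
  have h1 := Va_down hst hx0 hb hg
  have h2 := h g hg0 h1
  have h3 := (mem_Va.1 hg).1
  omega

end stable

/-- a stable set in the plane, neither on a line nor on a conic: the forms of degree `b` have rank
at least `3 b` -/
theorem plane_rank (x : Fin 3 → α → K) (B : ℕ) (C : Finset α)
    (hst : Stab (Finset.range (B ^ 2 + 2 * B + 1)) (fun b => AS x ^ b) C)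
    (h1 : rk (AS x) C = 3) (h2 : rk (AS x ^ 2) C = 6) :
    ∀ b, 1 ≤ b → b ≤ B → 3 * b ≤ rk (AS x ^ b) C := by
  classical
  intro b hb1 hbB
  have g1 := rk_add x C 1
  have g2 := rk_add x C 2
  rw [pow_one, h1] at g1
  rw [h2] at g2
  have hV1 : Va x C 1 = ⊥ := by
    have : FiniteDimensional K (Va x C 1) := by
      unfold Va
      infer_instance
    apply Submodule.finrank_eq_zero.1
    omega
  have hV2 : Va x C 2 = ⊥ := by
    have : FiniteDimensional K (Va x C 2) := by
      unfold Va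
      infer_instance
    apply Submodule.finrank_eq_zero.1
    omega
  obtain ⟨P, hP, hPx⟩ : ∃ P ∈ C, x 0 P ≠ 0 := by
    by_contra hcon
    push Not at hcon
    have h3 : (1 : MvPolynomial (Fin 2) K) ∈ Va x C 1 := by
      rw [mem_Va]
      refine ⟨by rw [totalDegree_one]; omega, fun P hP => ?_⟩
      rw [Ph_one, pow_one]
      exact hcon P hP
    rw [hV1, Submodule.mem_bot] at h3
    exact one_ne_zero h3
  have hx0 : ∀ k, (1 : MvPolynomial (Fin 2) K) ∉ Va x C k := by
    intro k hk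
    have h3 := (mem_Va.1 hk).2 P hP
    rw [Ph_one, Pi.pow_apply] at h3
    exact pow_ne_zero k hPx h3
  have hBN : B ≤ B ^ 2 + 2 * B := by nlinarith
  have g3 := rk_add x C b
  by_cases hex : ∃ h : MvPolynomial (Fin 2) K, h ≠ 0 ∧ h ∈ Va x C h.totalDegree ∧
    h.totalDegree ≤ b
  · have hex' : ∃ n, ∃ h : MvPolynomial (Fin 2) K, h ≠ 0 ∧ h ∈ Va x C h.totalDegree ∧
      h.totalDegree = n := by
      obtain ⟨h, hh0, hh, _⟩ := hex
      exact ⟨_, h, hh0, hh, rfl⟩
    obtain ⟨ψ, hψ0, hψ, hψn⟩ := Nat.find_spec hex'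
    have hmin : ∀ h : MvPolynomial (Fin 2) K, h ≠ 0 → h ∈ Va x C h.totalDegree →
        ψ.totalDegree ≤ h.totalDegree := by
      intro h hh0 hh
      rw [hψn]
      exact Nat.find_min' hex' ⟨h, hh0, hh, rfl⟩
    have hDb : ψ.totalDegree ≤ b := by
      obtain ⟨h, hh0, hh, hhb⟩ := hex
      exact (hmin h hh0 hh).trans hhb
    have hD3 : 3 ≤ ψ.totalDegree := by
      by_contra hcon
      have h3 : ψ ∈ Va x C 2 := Va_mono (by omega) hψ
      rw [hV2, Submodule.mem_bot] at h3
      exact hψ0 h3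
    have hle : Va x C b ≤ Ml K ψ (b - ψ.totalDegree) := by
      intro h hh
      rcases eq_or_ne h 0 with rfl | hh0
      · exact Submodule.zero_mem _
      have h4 := Va_down hst hx0 (by omega) hh
      have h5 := (mem_Va.1 hh).1
      obtain ⟨r, hr⟩ := key (B := B) le_rfl hst h1 hψ0 hψ hmin hh0 h4 (by omega)
      rw [mem_Ml]
      refine ⟨r, ?_, hr⟩
      have hr0 : r ≠ 0 := by
        rintro rfl
        rw [mul_zero] at hr
        exact hh0 hr
      have h6 : h.totalDegree = ψ.totalDegree + r.totalDegree := by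
        rw [hr, totalDegree_mul_of_isDomain hψ0 hr0]
      omega
    have h7 := Submodule.finrank_mono hle
    have h8 := finrank_Ml (K := K) hψ0 (b - ψ.totalDegree)
    obtain ⟨c, hc⟩ := Nat.exists_eq_add_of_le hDb
    have h9 : b - ψ.totalDegree = c := by omega
    rw [h9] at h7 h8
    generalize ψ.totalDegree = D at *
    subst hc
    generalize rk (AS x ^ (D + c)) C = R at *
    generalize finrank K (Va x C (D + c)) = V at *
    generalize finrank K (Ml K ψ c) = W at *
    nlinarith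
  · have h3 : Va x C b = ⊥ := by
      refine Va_eq_bot hx0 hst (by omega) ?_
      intro h hh0 hh
      by_contra hcon
      exact hex ⟨h, hh0, hh, by omega⟩
    rw [h3, finrank_bot] at g3
    obtain ⟨c, rfl⟩ : ∃ c, b = c + 1 := ⟨b - 1, by omega⟩
    have h4 : c ≤ c * c := Nat.le_mul_self c
    nlinarith

end plane

end Pool.Agent.Lib.SQF
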