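import Pool.Agent.Lib.SQF.StabA
import Pool.Agent.Lib.SQF.StabC
import Pool.Agent.Lib.SQF.StabP
import Pool.Agent.Lib.SQF4.Thue

/-!
# Stable clusters: the alternative (MP_8842b2_nt, arch70 3.4)
-/

set_option autoImplicit false

namespace Pool.Agent.Lib.SQF

open Module

section main

variable {ι : Type*}

theorem hb_int {i : ℕ} (c : Fin (i + 1) → ℤ) (u v : ℤ) :
    ((hb c u v : ℤ) : ℚ) = hb (fun l => (c l : ℚ)) (u : ℚ) (v : ℚ) := by
  unfold hb
  push_cast
  rfl

/-- the number of zeros on `C` of a form which is not identically zero on `C` -/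
theorem zeros_int {κ : Type*} {J : Finset κ} {F : κ → Submodule ℚ (ι → ℚ)} {C : Finset ι}
    (h : Stab J F C) {j : κ} (hj : j ∈ J) {f : ι → ℤ} (hf : qf f ∈ F j) (h0 : ∃ P ∈ C, f P ≠ 0) :
    open Classical in 10 * (C.filter (fun x => f x = 0)).card < C.card := by
  classical
  have h1 := h.zeros hj hf (by
    obtain ⟨P, hP, hfP⟩ := h0
    exact ⟨P, hP, by unfold qf; exact_mod_cast hfP⟩)
  have h2 : (C.filter (fun x => qf f x = 0)) = C.filter (fun x => f x = 0) := by
    refine Finset.filter_congr fun P _ => ?_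
    unfold qf
    exact_mod_cast Iff.rfl
  convert h1 using 3
  convert h2.symm

/-- the first alternative RC1, integral form -/
theorem rc1_int (I B : ℕ) (u v : ι → ℤ) (x : Fin 4 → ι → ℤ) (T : ℤ) (hT : 1 ≤ T) (C : Finset ι)
    (hu : ∀ P ∈ C, |u P| ≤ T) (hv : ∀ P ∈ C, |v P| ≤ T) (hx : ∀ P ∈ C, ∀ j, |x j P| ≤ T)
    (hst : Stab (JS I B) (FS (qf u) (qf v) (fun j => qf (x j))) C) (hB : 1 ≤ B)
    (hrk : 2 ≤ rk (TS (qf u) (qf v)) C) (j0 : Fin 4) (hj0 : ∃ P ∈ C, x j0 P ≠ 0) (j : Fin 4)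
    (a b : Fin (I + 1) → ℚ) (hb1 : ∃ P ∈ C, hb b (qf u P) (qf v P) ≠ 0)
    (hab : ∀ P ∈ C, hb a (qf u P) (qf v P) * qf (x j0) P + hb b (qf u P) (qf v P) * qf (x j) P = 0) :
    ∃ a' b' : Fin (I + 1) → ℤ,
      (∀ l, |a' l| ≤ (2 * (I + 1)).factorial * (T ^ (I + 1)) ^ (2 * (I + 1))) ∧
      (∀ l, |b' l| ≤ (2 * (I + 1)).factorial * (T ^ (I + 1)) ^ (2 * (I + 1))) ∧
      (∃ P ∈ C, hb b' (u P) (v P) ≠ 0) ∧
      ∀ P ∈ C, hb a' (u P) (v P) * x j0 P + hb b' (u P) (v P) * x j P = 0 := by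
  classical
  let M : C → (Fin (I + 1) ⊕ Fin (I + 1)) → ℤ := fun P => Sum.elim
    (fun l => u P ^ (l : ℕ) * v P ^ (I - l) * x j0 P) (fun l => u P ^ (l : ℕ) * v P ^ (I - l) * x j P)
  have hmono : ∀ P ∈ C, ∀ (l : Fin (I + 1)) (j' : Fin 4),
      |u P ^ (l : ℕ) * v P ^ (I - l) * x j' P| ≤ T ^ (I + 1) := by
    intro P hP l j'
    rw [abs_mul, abs_mul, abs_pow, abs_pow]
    have h1 : |u P| ^ (l : ℕ) ≤ T ^ (l : ℕ) := pow_le_pow_left₀ (abs_nonneg _) (hu P hP) _
    have h2 : |v P| ^ (I - l) ≤ T ^ (I - l : ℕ) := pow_le_pow_left₀ (abs_nonneg _) (hv P hP) _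
    have h3 : T ^ (I + 1) = T ^ (l : ℕ) * T ^ (I - l : ℕ) * T := by
      rw [← pow_add, ← pow_succ, Nat.add_sub_cancel' (Nat.lt_succ_iff.mp l.2)]
    rw [h3]
    exact mul_le_mul (mul_le_mul h1 h2 (by positivity) (by positivity)) (hx P hP j')
      (abs_nonneg _) (by positivity)
  have hM : ∀ P k, |M P k| ≤ T ^ (I + 1) := by
    rintro ⟨P, hP⟩ (l | l)
    · exact hmono P hP l j0
    · exact hmono P hP l j
  obtain ⟨y, hy, hy1, hy2⟩ := MinorSol.exists_int_sol' (F := ℚ) (one_le_pow₀ hT) M hM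
    (Sum.elim a b) (by
      intro h0
      obtain ⟨P, hP, h1⟩ := hb1
      apply h1
      have h2 : b = 0 := by
        funext l
        exact congrFun h0 (Sum.inr l)
      rw [h2]
      simp [hb]) (by
      rintro ⟨P, hP⟩
      rw [Fintype.sum_sum_type, ← hab P hP]
      simp only [M, Sum.elim_inl, Sum.elim_inr, hb, qf, Finset.sum_mul]
      push_cast
      congr 1
      · refine Finset.sum_congr rfl fun l _ => ?_
        ring
      · refine Finset.sum_congr rfl fun l _ => ?_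
        ring)
  have hcard : Fintype.card (Fin (I + 1) ⊕ Fin (I + 1)) = 2 * (I + 1) := by
    rw [Fintype.card_sum, Fintype.card_fin]; ring
  rw [hcard] at hy1
  have hrel : ∀ P ∈ C, hb (fun l => y (Sum.inl l)) (u P) (v P) * x j0 P +
      hb (fun l => y (Sum.inr l)) (u P) (v P) * x j P = 0 := by
    intro P hP
    have h1 := hy2 ⟨P, hP⟩
    rw [Fintype.sum_sum_type] at h1
    rw [← h1]
    simp only [M, Sum.elim_inl, Sum.elim_inr, hb, Finset.sum_mul]
    congr 1
    · refine Finset.sum_congr rfl fun l _ => ?_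
      ring
    · refine Finset.sum_congr rfl fun l _ => ?_
      ring
  refine ⟨fun l => y (Sum.inl l), fun l => y (Sum.inr l), fun l => hy1 _, fun l => hy1 _, ?_, hrel⟩
  by_contra hcon
  push Not at hcon
  -- then the first form vanishes as well
  have hz : ∀ P ∈ C, hb (fun l => y (Sum.inl l)) (u P) (v P) = 0 := by
    by_contra hne
    push Not at hne
    have h1 : ∃ P ∈ C, hbL (qf u) (qf v) I (fun l => (y (Sum.inl l) : ℚ)) P ≠ 0 := by
      obtain ⟨P, hP, h2⟩ := hne
      refine ⟨P, hP, ?_⟩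
      rw [hbL_apply]
      unfold qf
      rw [← hb_int]
      exact_mod_cast h2
    have h2 : ∃ P ∈ C, qf (x j0) P ≠ 0 := by
      obtain ⟨P, hP, h2⟩ := hj0
      exact ⟨P, hP, by unfold qf; exact_mod_cast h2⟩
    obtain ⟨P, hP, h3⟩ := hst.mul_ne (i := (I, 0)) (j := (0, 1)) (mem_JS.2 ⟨le_rfl, Nat.zero_le _⟩)
      (mem_JS.2 ⟨Nat.zero_le _, hB⟩) (by rw [FS_zero_right]; exact hbL_mem _ _ _ _)
      (by rw [FS_zero_left, pow_one]; exact Submodule.subset_span ⟨j0, rfl⟩) h1 h2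
    apply h3
    rw [hbL_apply]
    unfold qf
    rw [← hb_int]
    have h4 := hrel P hP
    rw [hcon P hP, zero_mul, add_zero] at h4
    exact_mod_cast h4
  have h5 : (fun l => (y (Sum.inl l) : ℚ)) = 0 := by
    refine hb_eq_zero hst hrk I le_rfl _ fun P hP => ?_
    unfold qf
    rw [← hb_int, hz P hP]
    simp
  have h6 : (fun l => (y (Sum.inr l) : ℚ)) = 0 := by
    refine hb_eq_zero hst hrk I le_rfl _ fun P hP => ?_
    unfold qf
    rw [← hb_int, hcon P hP]
    simp
  apply hy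
  funext k
  rcases k with l | l
  · have h7 := congrFun h5 l
    simpa using h7
  · have h7 := congrFun h6 l
    simpa using h7


/-- the second alternative (line) -/
theorem line_case (x : Fin 4 → ι → ℤ) (T : ℤ) (hT : 1 ≤ T) (C : Finset ι)
    (hx : ∀ P ∈ C, ∀ j, |x j P| ≤ T) (j1 : Fin 4) (D : ℤ) (A : Fin 4 → Fin 3 → ℤ) (hD : D ≠ 0)
    (hDb : |D| ≤ bd 28 T) (hAb : ∀ j l, |A j l| ≤ bd 28 T)
    (hA : ∀ P ∈ C, ∀ j, D * x j P = ∑ l, A j l * x (j1.succAbove l) P)
    (h : rk (AS fun l => qf (x (j1.succAbove l))) C < 3) :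
    ∃ (j1' j2' : Fin 4) (D' : ℤ) (E0 E1 : Fin 4 → ℤ), D' ≠ 0 ∧ |D'| ≤ bd 2000 T ∧
      (∀ j, |E0 j| ≤ bd 2000 T) ∧ (∀ j, |E1 j| ≤ bd 2000 T) ∧
      ∀ P ∈ C, ∀ j, D' * x j P = x j1' P * E0 j + x j2' P * E1 j := by
  obtain ⟨j2, D2, A2, h1, h2, h3, h4⟩ := exists_elim_coord (fun l => x (j1.succAbove l)) C T hT
    (fun P hP l => hx P hP _) h
  have hb9 : ((3 : ℕ).factorial : ℤ) * T ^ 3 ≤ bd 9 T := by
    have h5 := bd_fact 1 3 hT
    have h6 : (Nat.factorial 3 + 1 * 3) = 9 := rfl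
    rw [h6, pow_one] at h5
    exact h5
  have h2' : |D2| ≤ bd 9 T := h2.trans (by simpa using hb9)
  have h3' : ∀ j l, |A2 j l| ≤ bd 9 T := fun j l => (h3 j l).trans (by simpa using hb9)
  have hprod : ∀ a b : ℤ, |a| ≤ bd 28 T → |b| ≤ bd 9 T → |a * b| ≤ bd 289 T := by
    intro a b ha hb
    rw [abs_mul]
    exact (mul_le_mul ha hb (abs_nonneg _) (bd_nonneg _ hT)).trans
      ((bd_mul hT).trans (bd_mono (by norm_num) hT))
  have hE : ∀ i : Fin 2, ∀ j, |∑ l, A j l * A2 l i| ≤ bd 2000 T := by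
    intro i j
    refine (bd_sum Finset.univ hT _ (fun l _ => hprod _ _ (hAb j l) (h3' l i)) 3 (by simp)).trans
      (bd_mono (by norm_num) hT)
  refine ⟨j1.succAbove (j2.succAbove 0), j1.succAbove (j2.succAbove 1), D * D2,
    fun j => ∑ l, A j l * A2 l 0, fun j => ∑ l, A j l * A2 l 1, mul_ne_zero hD h1,
    (hprod _ _ hDb h2').trans (bd_mono (by norm_num) hT), hE 0, hE 1, ?_⟩
  intro P hP j
  have h5 := hA P hP j
  have h6 := h4 P hP
  calc D * D2 * x j P = D2 * (D * x j P) := by ring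
    _ = ∑ l, A j l * (D2 * x (j1.succAbove l) P) := by
      rw [h5, Finset.mul_sum]
      exact Finset.sum_congr rfl fun l _ => by ring
    _ = ∑ l, (x (j1.succAbove (j2.succAbove 0)) P * (A j l * A2 l 0) +
          x (j1.succAbove (j2.succAbove 1)) P * (A j l * A2 l 1)) := by
      refine Finset.sum_congr rfl fun l _ => ?_
      rw [h6 l, Fin.sum_univ_two]
      ring
    _ = _ := by rw [Finset.sum_add_distrib, Finset.mul_sum, Finset.mul_sum]

/-- the third alternative (conic) in the form used by the callers: `q (P0) = 0`, and on at least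
half of `C` `w α = x P0 + s E0 + r E1`, `q (α) = 0`, `b (P0, α) ≠ 0` -/
theorem conic_case (x : Fin 4 → ι → ℤ) (T : ℤ) (hT : 1 ≤ T) (C : Finset ι) (Kc : ℕ)
    (hx : ∀ P ∈ C, ∀ j, |x j P| ≤ T) (j1 : Fin 4) (D : ℤ) (A : Fin 4 → Fin 3 → ℤ) (hD : D ≠ 0)
    (hDb : |D| ≤ bd 28 T) (hAb : ∀ j l, |A j l| ≤ bd 28 T)
    (hA : ∀ P ∈ C, ∀ j, D * x j P = ∑ l, A j l * x (j1.succAbove l) P)
    (hst : Stab (Finset.range 3) (fun b => AS (fun l => qf (x (j1.succAbove l))) ^ b) C)
    (h : rk (AS fun l => qf (x (j1.succAbove l))) C = 3)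
    (q : Fin 3 → Fin 3 → ℤ) (hqs : ∀ l l', q l l' = q l' l) (hqb : ∀ l l', |q l l'| ≤ bd Kc T)
    (hqd : Matrix.det (Matrix.of q) ≠ 0)
    (hq : ∀ P ∈ C, ∑ l, ∑ l', q l l' * x (j1.succAbove l) P * x (j1.succAbove l') P = 0) :
    ∃ (P0 E0 E1 : Fin 4 → ℤ) (Q : Fin 4 → Fin 4 → ℤ) (C' : Finset ι), C' ⊆ C ∧
      C.card ≤ 2 * C'.card ∧ (∀ j, |P0 j| ≤ T) ∧ (∀ j, |E0 j| ≤ bd 28 T) ∧
      (∀ j, |E1 j| ≤ bd 28 T) ∧ (∀ i j, |Q i j| ≤ bd Kc T) ∧
      ∑ i, ∑ j, Q i j * P0 i * P0 j = 0 ∧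
      ∀ P ∈ C', (∑ i, ∑ j, Q i j * x i P * x j P = 0) ∧
        (∑ i, ∑ j, (Q i j + Q j i) * P0 i * x j P ≠ 0) ∧
        ∃ w y s r : ℤ, w ≠ 0 ∧ |w| ≤ bd 57 T ∧ |y| ≤ bd 57 T ∧ |s| ≤ bd 57 T ∧ |r| ≤ bd 57 T ∧
          ∀ j, w * x j P = y * P0 j + s * E0 j + r * E1 j := by
  classical
  -- full rank: no linear form in the three coordinates vanishes on `C`
  have hfull : ∀ c : Fin 3 → ℤ, (∀ P ∈ C, ∑ l, c l * x (j1.succAbove l) P = 0) → c = 0 := by
    intro c hc
    have h1 := eq_zero_of_rk (xL fun l => qf (x (j1.succAbove l))) C (by rw [range_xL, h])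
      (fun l => (c l : ℚ)) (fun P hP => by
        rw [xL_apply]
        unfold qf
        exact_mod_cast hc P hP)
    funext l
    have h2 := congrFun h1 l
    simpa using h2
  obtain ⟨z, hz, l0, hzl⟩ : ∃ z ∈ C, ∃ l0 : Fin 3, x (j1.succAbove l0) z ≠ 0 := by
    by_contra hcon
    push Not at hcon
    have h1 := hfull (fun _ => 1) (fun P hP => by
      refine Finset.sum_eq_zero fun l _ => ?_
      rw [hcon P hP l, mul_zero])
    have h2 := congrFun h1 0
    simp at h2
  let Q : Fin 4 → Fin 4 → ℤ := j1.insertNth (α := fun _ => Fin 4 → ℤ) 0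
    (fun l => j1.insertNth (α := fun _ => ℤ) 0 (q l))
  have hQ0 : ∀ j, Q j1 j = 0 := fun j => by
    simp only [Q, Fin.insertNth_apply_same, Pi.zero_apply]
  have hQ1 : ∀ l, Q (j1.succAbove l) j1 = 0 := fun l => by
    simp only [Q, Fin.insertNth_apply_same, Fin.insertNth_apply_succAbove]
  have hQ2 : ∀ l l', Q (j1.succAbove l) (j1.succAbove l') = q l l' := fun l l' => by
    simp only [Q, Fin.insertNth_apply_succAbove]
  have hQsum : ∀ f g : Fin 4 → ℤ, ∑ i, ∑ j, Q i j * f i * g j =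
      ∑ l, ∑ l', q l l' * f (j1.succAbove l) * g (j1.succAbove l') := by
    intro f g
    rw [Fin.sum_univ_succAbove _ j1]
    have h1 : ∑ j, Q j1 j * f j1 * g j = 0 := by
      refine Finset.sum_eq_zero fun j _ => ?_
      rw [hQ0, zero_mul, zero_mul]
    rw [h1, zero_add]
    refine Finset.sum_congr rfl fun l _ => ?_
    rw [Fin.sum_univ_succAbove _ j1, hQ1, zero_mul, zero_mul, zero_add]
    refine Finset.sum_congr rfl fun l' _ => ?_
    rw [hQ2]
  have hQsum' : ∀ f g : Fin 4 → ℤ, ∑ i, ∑ j, (Q i j + Q j i) * f i * g j =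
      ∑ l', (∑ l, 2 * q l l' * f (j1.succAbove l)) * g (j1.succAbove l') := by
    intro f g
    have h1 : ∑ i, ∑ j, (Q i j + Q j i) * f i * g j
        = (∑ i, ∑ j, Q i j * f i * g j) + ∑ i, ∑ j, Q i j * g i * f j := by
      rw [Finset.sum_comm (f := fun i j => Q i j * g i * f j), ← Finset.sum_add_distrib]
      refine Finset.sum_congr rfl fun i _ => ?_
      rw [← Finset.sum_add_distrib]
      refine Finset.sum_congr rfl fun j _ => ?_
      ring
    rw [h1, hQsum, hQsum, Finset.sum_comm, ← Finset.sum_add_distrib]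
    refine Finset.sum_congr rfl fun l' _ => ?_
    rw [← Finset.sum_add_distrib, Finset.sum_mul]
    refine Finset.sum_congr rfl fun l _ => ?_
    rw [hqs l' l]
    ring
  -- the polar of the base point
  let c : Fin 3 → ℤ := fun l' => ∑ l, 2 * q l l' * x (j1.succAbove l) z
  have hc0 : c ≠ 0 := by
    intro hc
    apply hzl
    have h1 : (Matrix.of q).mulVec (fun l => x (j1.succAbove l) z) = 0 := by
      funext l'
      have h2 : ∑ l, 2 * q l l' * x (j1.succAbove l) z = 0 := congrFun hc l'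
      have h3 : 2 * ∑ l, q l' l * x (j1.succAbove l) z = 0 := by
        rw [← h2, Finset.mul_sum]
        refine Finset.sum_congr rfl fun l _ => ?_
        rw [hqs l' l]; ring
      have h4 : ∑ l, q l' l * x (j1.succAbove l) z = 0 := by omega
      exact h4
    exact congrFun (Matrix.eq_zero_of_mulVec_eq_zero hqd h1) l0
  obtain ⟨z1, hz1, hz10⟩ : ∃ P ∈ C, ∑ l, c l * x (j1.succAbove l) P ≠ 0 := by
    by_contra hcon
    push Not at hcon
    exact hc0 (hfull c hcon)
  let bf : ι → ℤ := fun P => ∑ l, c l * x (j1.succAbove l) P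
  have hbmem : qf bf ∈ (fun b => AS (fun l => qf (x (j1.succAbove l))) ^ b) 1 := by
    simp only [pow_one]
    have h1 : qf bf = ∑ l, (c l : ℚ) • qf (x (j1.succAbove l)) := by
      funext P
      simp only [qf, bf, Finset.sum_apply, Pi.smul_apply, smul_eq_mul]
      push_cast
      rfl
    rw [h1]
    exact Submodule.sum_mem _ fun l _ => Submodule.smul_mem _ _ (Submodule.subset_span ⟨l, rfl⟩)
  have hzeros := zeros_int hst (j := 1) (by simp) hbmem ⟨z1, hz1, hz10⟩
  let C' : Finset ι := C.filter (fun P => bf P ≠ 0)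
  have hC' : C.card ≤ 2 * C'.card := by
    have h1 := Finset.card_filter_add_card_filter_not (s := C) (p := fun P => bf P = 0)
    have h2 : C'.card = (C.filter (fun P => ¬ bf P = 0)).card := rfl
    have h3 : 10 * (C.filter (fun P => bf P = 0)).card < C.card := by convert hzeros
    omega
  refine ⟨fun j => x j z, fun j => A j (l0.succAbove 0), fun j => A j (l0.succAbove 1), Q, C',
    Finset.filter_subset _ _, hC', fun j => hx z hz j, fun j => hAb _ _, fun j => hAb _ _, ?_, ?_,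
    ?_⟩
  · intro i j
    have hb0 := bd_nonneg Kc hT
    rcases Fin.eq_self_or_eq_succAbove j1 i with rfl | ⟨l, rfl⟩
    · rw [hQ0, abs_zero]; exact hb0
    · rcases Fin.eq_self_or_eq_succAbove j1 j with rfl | ⟨l', rfl⟩
      · rw [hQ1, abs_zero]; exact hb0
      · rw [hQ2]; exact hqb _ _
  · rw [hQsum]
    exact hq z hz
  · intro P hP
    have hPC : P ∈ C := (Finset.mem_filter.mp hP).1
    refine ⟨?_, ?_, ?_⟩
    · rw [hQsum (fun i => x i P) (fun i => x i P)]
      exact hq P hPC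
    · rw [hQsum' (fun i => x i z) (fun i => x i P)]
      exact (Finset.mem_filter.mp hP).2
    · have hT2 : T ≤ bd 1 T := by unfold bd; simp
      have hDT : ∀ t : ℤ, |t| ≤ T → |D * t| ≤ bd 57 T := by
        intro t ht
        rw [abs_mul]
        exact (mul_le_mul hDb (ht.trans hT2) (abs_nonneg _) (bd_nonneg _ hT)).trans
          ((bd_mul hT).trans (bd_mono (by norm_num) hT))
      have hTT : ∀ a b c d : ℤ, |a| ≤ T → |b| ≤ T → |c| ≤ T → |d| ≤ T → |a * b - c * d| ≤ bd 57 T := by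
        intro a b c d ha hb hc hd
        have h1 : |a * b| ≤ T * T := by
          rw [abs_mul]; exact mul_le_mul ha hb (abs_nonneg _) (by omega)
        have h2 : |c * d| ≤ T * T := by
          rw [abs_mul]; exact mul_le_mul hc hd (abs_nonneg _) (by omega)
        have h3 : |a * b - c * d| ≤ 2 * T ^ 2 := by
          refine (abs_sub _ _).trans ?_
          nlinarith
        refine h3.trans ?_
        have h4 : bd 2 T ≤ bd 57 T := bd_mono (by norm_num) hT
        refine le_trans (le_of_eq ?_) h4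
        unfold bd; norm_num
      refine ⟨D * x (j1.succAbove l0) z, D * x (j1.succAbove l0) P,
        x (j1.succAbove l0) z * x (j1.succAbove (l0.succAbove 0)) P -
          x (j1.succAbove l0) P * x (j1.succAbove (l0.succAbove 0)) z,
        x (j1.succAbove l0) z * x (j1.succAbove (l0.succAbove 1)) P -
          x (j1.succAbove l0) P * x (j1.succAbove (l0.succAbove 1)) z,
        mul_ne_zero hD hzl, hDT _ (hx z hz _), hDT _ (hx P hPC _),
        hTT _ _ _ _ (hx z hz _) (hx P hPC _) (hx P hPC _) (hx z hz _),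
        hTT _ _ _ _ (hx z hz _) (hx P hPC _) (hx P hPC _) (hx z hz _), ?_⟩
      intro j
      have h1 := hA P hPC j
      have h2 := hA z hz j
      rw [Fin.sum_univ_succAbove _ l0, Fin.sum_univ_two] at h1 h2
      linear_combination (x (j1.succAbove l0) z) * h1 - (x (j1.succAbove l0) P) * h2


/-- the space of quadratic forms in three variables has rank at most `6` -/
theorem rk_sq_le {K α : Type*} [Field K] (y : Fin 3 → α → K) (C : Finset α) :
    rk (AS y ^ 2) C ≤ 6 := by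
  let w : Fin 6 → α → K := ![y 0 * y 0, y 1 * y 1, y 2 * y 2, y 0 * y 1, y 0 * y 2, y 1 * y 2]
  have h1 : AS y ^ 2 ≤ AS w := by
    rw [pow_two]
    unfold AS
    rw [Submodule.span_mul_span, Submodule.span_le]
    have hw : ∀ k, w k ∈ Submodule.span K (Set.range w) := fun k => Submodule.subset_span ⟨k, rfl⟩
    rintro _ ⟨_, ⟨l, rfl⟩, _, ⟨l', rfl⟩, rfl⟩
    fin_cases l <;> fin_cases l'
    · exact hw 0
    · exact hw 3
    · exact hw 4
    · have := hw 3
      rw [show w 3 = y 1 * y 0 from mul_comm _ _] at this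
      exact this
    · exact hw 1
    · exact hw 5
    · have := hw 4
      rw [show w 4 = y 2 * y 0 from mul_comm _ _] at this
      exact this
    · have := hw 5
      rw [show w 5 = y 2 * y 1 from mul_comm _ _] at this
      exact this
    · exact hw 2
  exact (rk_le_of_le h1 C).trans (rk_AS_le w C)

/-- polynomial with coefficients `c` -/
theorem hf_pol {I : ℕ} (c : Fin (I + 1) → ℤ) : ∃ p : Polynomial ℤ, p.natDegree ≤ I ∧
    (∀ k, p.coeff k = if h : k < I + 1 then c ⟨k, h⟩ else 0) ∧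
    ∀ u v, Pool.Agent.SQF4.hf p I u v = hb c u v := by
  classical
  let p : Polynomial ℤ := ∑ l : Fin (I + 1), Polynomial.C (c l) * Polynomial.X ^ (l : ℕ)
  have hcoeff : ∀ k, p.coeff k = if h : k < I + 1 then c ⟨k, h⟩ else 0 := by
    intro k
    simp only [p, Polynomial.finsetSum_coeff, Polynomial.coeff_C_mul, Polynomial.coeff_X_pow]
    split_ifs with h
    · rw [Finset.sum_eq_single (⟨k, h⟩ : Fin (I + 1))]
      · simp
      · intro l _ hl
        rw [if_neg, mul_zero]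
        intro h1
        exact hl (Fin.ext h1.symm)
      · intro h1; exact absurd (Finset.mem_univ _) h1
    · refine Finset.sum_eq_zero fun l _ => ?_
      rw [if_neg, mul_zero]
      have := l.2
      omega
  refine ⟨p, ?_, hcoeff, ?_⟩
  · rw [Polynomial.natDegree_le_iff_coeff_eq_zero]
    intro k hk
    rw [hcoeff, dif_neg (by omega)]
  · intro u v
    unfold Pool.Agent.SQF4.hf hb
    rw [Finset.sum_range]
    refine Finset.sum_congr rfl fun l _ => ?_
    rw [hcoeff, dif_pos l.2]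

/-- **The alternative for stable clusters.**  `u, v`, `x` integral functions bounded by `T`;
`C` stable for all `T^i X^b`, `i ≤ I`, `b ≤ B^2 + 2 B`; `(u : v)` not constant, `x` not
identically zero on `C`.  Either all the ranks are at least `2 i + 3 b - 2`, or (RC1) on half of
`C` all ratios of coordinates are rational functions of `u / v` of degree `≤ I`, or (line) all `x`
are in a plane through `0`, or (conic) all `x` are on a non-degenerate conic, seen from a point. -/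
theorem stab_rank (I B : ℕ) : ∃ Kst : ℕ, ∀ {ι : Type*} (u v : ι → ℤ) (x : Fin 4 → ι → ℤ)
    (T : ℤ) (C : Finset ι), 1 ≤ T → (∀ P ∈ C, |u P| ≤ T) → (∀ P ∈ C, |v P| ≤ T) →
    (∀ P ∈ C, ∀ j, |x j P| ≤ T) → 1 ≤ B →
    Stab (JS I (B ^ 2 + 2 * B)) (FS (qf u) (qf v) (fun j => qf (x j))) C →
    (∃ P ∈ C, ∃ R ∈ C, u P * v R ≠ u R * v P) → (∃ P ∈ C, ∃ j, x j P ≠ 0) →
    -- the rank bound
    (∀ i ≤ I, ∀ b, 1 ≤ b → b ≤ B →
      2 * i + 3 * b ≤ rk (FS (qf u) (qf v) (fun j => qf (x j)) (i, b)) C + 2) ∨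
    -- RC1
    (∃ (j0 : Fin 4) (aa bb : Fin 4 → Polynomial ℤ) (C' : Finset ι),
      C' ⊆ C ∧ C.card ≤ 2 * C'.card ∧ (∀ l, (aa l).natDegree ≤ I) ∧ (∀ l, (bb l).natDegree ≤ I) ∧
      (∀ l k, |(aa l).coeff k| ≤ bd Kst T) ∧ (∀ l k, |(bb l).coeff k| ≤ bd Kst T) ∧
      ∀ P ∈ C', x j0 P ≠ 0 ∧ ∀ l, Pool.Agent.SQF4.hf (bb l) I (u P) (v P) ≠ 0 ∧
        Pool.Agent.SQF4.hf (aa l) I (u P) (v P) * x j0 P +
          Pool.Agent.SQF4.hf (bb l) I (u P) (v P) * x l P = 0) ∨
    -- RC2, line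
    (∃ (j1 j2 : Fin 4) (D : ℤ) (E0 E1 : Fin 4 → ℤ), D ≠ 0 ∧ |D| ≤ bd Kst T ∧
      (∀ j, |E0 j| ≤ bd Kst T) ∧ (∀ j, |E1 j| ≤ bd Kst T) ∧
      ∀ P ∈ C, ∀ j, D * x j P = x j1 P * E0 j + x j2 P * E1 j) ∨
    -- RC2, conic
    (∃ (P0 E0 E1 : Fin 4 → ℤ) (Q : Fin 4 → Fin 4 → ℤ) (C' : Finset ι), C' ⊆ C ∧
      C.card ≤ 2 * C'.card ∧ (∀ j, |P0 j| ≤ bd Kst T) ∧ (∀ j, |E0 j| ≤ bd Kst T) ∧
      (∀ j, |E1 j| ≤ bd Kst T) ∧ (∀ i j, |Q i j| ≤ bd Kst T) ∧
      ∑ i, ∑ j, Q i j * P0 i * P0 j = 0 ∧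
      ∀ P ∈ C', (∑ i, ∑ j, Q i j * x i P * x j P = 0) ∧
        (∑ i, ∑ j, (Q i j + Q j i) * P0 i * x j P ≠ 0) ∧
        ∃ w y s r : ℤ, w ≠ 0 ∧ |w| ≤ bd Kst T ∧ |y| ≤ bd Kst T ∧ |s| ≤ bd Kst T ∧
          |r| ≤ bd Kst T ∧ ∀ j, w * x j P = y * P0 j + s * E0 j + r * E1 j) := by
  classical
  obtain ⟨Kc, hKc⟩ := conic_of_rk
  refine ⟨Kc + 2000 + ((2 * (I + 1)).factorial + (I + 1) * (2 * (I + 1))), ?_⟩
  intro ι u v x T C hT hu hv hx hB hst huv hx0
  have hBB : 1 ≤ B ^ 2 + 2 * B := by nlinarith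
  -- the rank of `T`
  have hrk : 2 ≤ rk (TS (qf u) (qf v)) C := by
    by_contra hcon
    have h1 : TS (qf u) (qf v) = LinearMap.range (hbL (qf u) (qf v) 1) := by
      rw [← TS_pow, pow_one]
    rw [h1] at hcon
    obtain ⟨c, hc, hc0⟩ := exists_of_rk_lt (hbL (qf u) (qf v) 1) C (by omega)
    obtain ⟨P, hP, R, hR, hPR⟩ := huv
    have h2 := hc0 P hP
    have h3 := hc0 R hR
    rw [hbL_apply, hb, Fin.sum_univ_two] at h2 h3
    simp only [qf, Fin.val_zero, Fin.val_one, pow_zero, pow_one, mul_one] at h2 h3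
    have hPR' : (u P : ℚ) * v R - u R * v P ≠ 0 := by
      rw [sub_ne_zero]; exact_mod_cast hPR
    apply hc
    funext l
    fin_cases l
    · have h4 : c 0 * ((u P : ℚ) * v R - u R * v P) = 0 := by
        have h5 : ((1 : ℕ) - 0) = 1 := rfl
        have h6 : ((1 : ℕ) - 1) = 0 := rfl
        simp only [Nat.sub_zero, Nat.sub_self, pow_one, pow_zero, mul_one] at h2 h3
        linear_combination (-(u R : ℚ)) * h2 + (u P : ℚ) * h3
      exact (mul_eq_zero.mp h4).resolve_right hPR'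
    · have h4 : c 1 * ((u P : ℚ) * v R - u R * v P) = 0 := by
        simp only [Nat.sub_zero, Nat.sub_self, pow_one, pow_zero, mul_one] at h2 h3
        linear_combination (v R : ℚ) * h2 - (v P : ℚ) * h3
      exact (mul_eq_zero.mp h4).resolve_right hPR'
  obtain ⟨z, hz, j0, hj0⟩ := hx0
  have hj0' : ∃ P ∈ C, qf (x j0) P ≠ 0 := ⟨z, hz, by unfold qf; exact_mod_cast hj0⟩
  rcases rank_one_or_rel (qf u) (qf v) (fun j => qf (x j)) I C
    (hst.mono (fun p hp => mem_JS.2 ⟨(mem_JS.1 hp).1, (mem_JS.1 hp).2.trans hBB⟩)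
      (fun _ _ => le_rfl)) hrk j0 hj0' with hone | hrel
  swap
  · -- RC1
    right; left
    have h1 := fun j => (hrel j)
    choose a b hb1 hab using h1
    have h2 := fun j => rc1_int I (B ^ 2 + 2 * B) u v x T hT C hu hv hx hst hBB hrk j0
      ⟨z, hz, hj0⟩ j (a j) (b j) (hb1 j) (hab j)
    choose a' b' ha' hb' hne hr using h2
    have h3 := fun j => hf_pol (a' j)
    choose aa haa1 haa2 haa3 using h3
    have h4 := fun j => hf_pol (b' j)
    choose bb hbb1 hbb2 hbb3 using h4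
    have hbnd : ((2 * (I + 1)).factorial : ℤ) * (T ^ (I + 1)) ^ (2 * (I + 1)) ≤
        bd (Kc + 2000 + ((2 * (I + 1)).factorial + (I + 1) * (2 * (I + 1)))) T :=
      (bd_fact (I + 1) (2 * (I + 1)) hT).trans (bd_mono (by omega) hT)
    let C' : Finset ι := C.filter (fun P => x j0 P ≠ 0 ∧ ∀ j, hb (b' j) (u P) (v P) ≠ 0)
    have hC' : C.card ≤ 2 * C'.card := by
      have h5 : 10 * (C.filter (fun P => x j0 P = 0)).card < C.card := by
        have h6 := zeros_int hst (j := (0, 1)) (mem_JS.2 ⟨Nat.zero_le _, hBB⟩) (f := x j0)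
          (by rw [FS_zero_left, pow_one]; exact Submodule.subset_span ⟨j0, rfl⟩) ⟨z, hz, hj0⟩
        convert h6
      have h6 : ∀ j, 10 * (C.filter (fun P => hb (b' j) (u P) (v P) = 0)).card < C.card := by
        intro j
        have h7 := zeros_int hst (j := (I, 0)) (mem_JS.2 ⟨le_rfl, Nat.zero_le _⟩)
          (f := fun P => hb (b' j) (u P) (v P)) (by
            rw [FS_zero_right]
            have h8 : qf (fun P => hb (b' j) (u P) (v P)) =
                hbL (qf u) (qf v) I (fun l => (b' j l : ℚ)) := by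
              funext P
              rw [hbL_apply]
              unfold qf
              exact hb_int _ _ _
            rw [h8]
            exact hbL_mem _ _ _ _) (hne j)
        convert h7
      have h7 : C ⊆ C' ∪ (C.filter (fun P => x j0 P = 0) ∪
          (Finset.univ : Finset (Fin 4)).biUnion
            (fun j => C.filter (fun P => hb (b' j) (u P) (v P) = 0))) := by
        intro P hP
        by_cases h8 : x j0 P = 0
        · exact Finset.mem_union_right _ (Finset.mem_union_left _ (Finset.mem_filter.2 ⟨hP, h8⟩))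
        · by_cases h9 : ∀ j, hb (b' j) (u P) (v P) ≠ 0
          · exact Finset.mem_union_left _ (Finset.mem_filter.2 ⟨hP, h8, h9⟩)
          · push Not at h9
            obtain ⟨j, hj⟩ := h9
            exact Finset.mem_union_right _ (Finset.mem_union_right _
              (Finset.mem_biUnion.2 ⟨j, Finset.mem_univ _, Finset.mem_filter.2 ⟨hP, hj⟩⟩))
      have h8 := (Finset.card_le_card h7).trans (Finset.card_union_le _ _)
      have h9 := Finset.card_union_le (C.filter (fun P => x j0 P = 0))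
        ((Finset.univ : Finset (Fin 4)).biUnion
            (fun j => C.filter (fun P => hb (b' j) (u P) (v P) = 0)))
      have h10 : ((Finset.univ : Finset (Fin 4)).biUnion
            (fun j => C.filter (fun P => hb (b' j) (u P) (v P) = 0))).card ≤
          ∑ j : Fin 4, (C.filter (fun P => hb (b' j) (u P) (v P) = 0)).card :=
        Finset.card_biUnion_le
      rw [Fin.sum_univ_four] at h10
      have h11 := h6 0
      have h12 := h6 1
      have h13 := h6 2
      have h14 := h6 3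
      omega
    refine ⟨j0, aa, bb, C', Finset.filter_subset _ _, hC', haa1, hbb1, ?_, ?_, ?_⟩
    · intro l k
      rw [haa2]
      split_ifs
      · exact (ha' l _).trans hbnd
      · rw [abs_zero]; exact bd_nonneg _ hT
    · intro l k
      rw [hbb2]
      split_ifs
      · exact (hb' l _).trans hbnd
      · rw [abs_zero]; exact bd_nonneg _ hT
    · intro P hP
      have h5 := Finset.mem_filter.1 hP
      refine ⟨h5.2.1, fun l => ?_⟩
      rw [hbb3, haa3]
      exact ⟨h5.2.2 l, hr l P h5.1⟩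
  -- the assembly of the rank bound
  have hasm : (∀ b, 1 ≤ b → b ≤ B → 3 * b ≤ rk (AS (fun j => qf (x j)) ^ b) C) →
      (∀ i ≤ I, ∀ b, 1 ≤ b → b ≤ B →
        2 * i + 3 * b ≤ rk (FS (qf u) (qf v) (fun j => qf (x j)) (i, b)) C + 2) := by
    intro h3 i hi b hb1 hb
    have h4 : 2 * (i + 1) ≤ rk (FS (qf u) (qf v) (fun j => qf (x j)) (i, 1)) C := by
      rw [FS_one_right]; exact hone i hi
    rcases Nat.eq_or_lt_of_le hb1 with h5 | h5
    · subst h5; omega
    · have h6 := h3 (b - 1) (by omega) (by omega)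
      rw [← FS_zero_left (u := qf u) (v := qf v)] at h6
      have hBle : B ≤ B ^ 2 + 2 * B := by nlinarith [Nat.zero_le (B ^ 2)]
      have h7 := rk_mul (JS I (B ^ 2 + 2 * B)) (FS (qf u) (qf v) (fun j => qf (x j))) C hst
        (i, 1) (0, b - 1) (mem_JS.2 ⟨hi, hBB⟩)
        (mem_JS.2 ⟨Nat.zero_le _, (show b - 1 ≤ B ^ 2 + 2 * B by omega)⟩) (by omega) (by omega)
      rw [FS_mul] at h7
      have h8 : ((i, 1) : ℕ × ℕ) + (0, b - 1) = (i, b) := by
        ext
        · simp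
        · simp; omega
      rw [h8] at h7
      omega
  -- the rank of `X`
  by_cases h4 : rk (AS fun j => qf (x j)) C < 4
  swap
  · left
    refine hasm fun b hb1 hb => ?_
    have hst' : Stab (Finset.range (B + 1)) (fun b => AS (fun j => qf (x j)) ^ b) C := by
      have hBle : B ≤ B ^ 2 + 2 * B := by nlinarith [Nat.zero_le (B ^ 2)]
      exact hst.comp (fun b => (0, b)) (fun k hk => mem_JS.2 ⟨Nat.zero_le _,
        (Nat.lt_succ_iff.1 (Finset.mem_range.1 hk)).trans hBle⟩) (fun k _ => by rw [FS_zero_left])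
    have h5 := rk_pow (AS fun j => qf (x j)) B C hst' (by omega) b hb1 hb
    have h6 : b * 4 ≤ b * rk (AS fun j => qf (x j)) C := Nat.mul_le_mul_left _ (by omega)
    omega
  obtain ⟨j1, D, A, hD, hDb, hAb, hA⟩ := exists_elim_coord x C T hT hx h4
  have hb28 : ((4 : ℕ).factorial : ℤ) * T ^ 4 ≤ bd 28 T := by
    have h5 := bd_fact 1 4 hT
    have h6 : (Nat.factorial 4 + 1 * 4) = 28 := rfl
    rw [h6, pow_one] at h5
    exact h5
  have hDb' : |D| ≤ bd 28 T := hDb.trans (by simpa using hb28)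
  have hAb' : ∀ j l, |A j l| ≤ bd 28 T := fun j l => (hAb j l).trans (by simpa using hb28)
  by_cases h5 : rk (AS fun l => qf (x (j1.succAbove l))) C < 3
  · -- line
    right; right; left
    obtain ⟨j1', j2', D', E0, E1, g1, g2, g3, g4, g5⟩ :=
      line_case x T hT C hx j1 D A hD hDb' hAb' hA h5
    have hm : bd 2000 T ≤ bd (Kc + 2000 + ((2 * (I + 1)).factorial + (I + 1) * (2 * (I + 1)))) T :=
      bd_mono (by omega) hT
    exact ⟨j1', j2', D', E0, E1, g1, g2.trans hm, fun j => (g3 j).trans hm,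
      fun j => (g4 j).trans hm, g5⟩
  have h6 : rk (AS fun l => qf (x (j1.succAbove l))) C = 3 :=
    le_antisymm (rk_AS_le _ C) (by omega)
  have hASle : AS (fun l => qf (x (j1.succAbove l))) ≤ AS (fun j => qf (x j)) := by
    unfold AS
    refine Submodule.span_mono ?_
    rintro _ ⟨l, rfl⟩
    exact ⟨j1.succAbove l, rfl⟩
  have hst3 : Stab (Finset.range (B ^ 2 + 2 * B + 1))
      (fun b => AS (fun l => qf (x (j1.succAbove l))) ^ b) C :=
    hst.comp (fun b => (0, b)) (fun k hk => mem_JS.2 ⟨Nat.zero_le _,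
      Nat.lt_succ_iff.1 (Finset.mem_range.1 hk)⟩) (fun k _ => by
        rw [FS_zero_left]; exact pow_le_pow_left' hASle k)
  by_cases h7 : rk (AS (fun l => qf (x (j1.succAbove l))) ^ 2) C < 6
  · -- conic
    right; right; right
    have hst4 : Stab (Finset.range 3) (fun b => AS (fun l => qf (x (j1.succAbove l))) ^ b) C :=
      hst3.mono (fun k hk => Finset.mem_range.2 (by
        have := Finset.mem_range.1 hk
        nlinarith)) (fun _ _ => le_rfl)
    obtain ⟨q, q1, q2, q3, q4⟩ := hKc (fun l => x (j1.succAbove l)) C T hT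
      (fun P hP l => hx P hP _) hst4 h6 h7
    obtain ⟨P0, E0, E1, Q, C', g1, g2, g3, g4, g5, g6, g7, g8⟩ :=
      conic_case x T hT C Kc hx j1 D A hD hDb' hAb' hA hst4 h6 q q1 q2 q3 q4
    set Kst := Kc + 2000 + ((2 * (I + 1)).factorial + (I + 1) * (2 * (I + 1))) with hKst
    have hm1 : T ≤ bd Kst T := by
      have h8 : bd 1 T ≤ bd Kst T := bd_mono (by omega) hT
      have h9 : bd 1 T = T := by unfold bd; simp
      omega
    have hm28 : bd 28 T ≤ bd Kst T := bd_mono (by omega) hT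
    have hm57 : bd 57 T ≤ bd Kst T := bd_mono (by omega) hT
    have hmc : bd Kc T ≤ bd Kst T := bd_mono (by omega) hT
    refine ⟨P0, E0, E1, Q, C', g1, g2, fun j => (g3 j).trans hm1, fun j => (g4 j).trans hm28,
      fun j => (g5 j).trans hm28, fun i j => (g6 i j).trans hmc, g7, fun P hP => ?_⟩
    obtain ⟨k1, k2, w, y, s, r, k3, k4, k5, k6, k7, k8⟩ := g8 P hP
    exact ⟨k1, k2, w, y, s, r, k3, k4.trans hm57, k5.trans hm57, k6.trans hm57, k7.trans hm57, k8⟩
  · left
    have hr6 : rk (AS (fun l => qf (x (j1.succAbove l))) ^ 2) C = 6 :=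
      le_antisymm (rk_sq_le _ C) (by omega)
    refine hasm fun b hb1 hb => ?_
    have h8 := plane_rank (fun l => qf (x (j1.succAbove l))) B C hst3 h6 hr6 b hb1 hb
    exact h8.trans (rk_le_of_le (pow_le_pow_left' hASle b) C)

end main

end Pool.Agent.Lib.SQF
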