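import Mathlib
import Pool.Agent.Lib.SQF.Ideals

/-!
# SQF: algebraic integers dividing a rational integer, with bounded conjugates

Helper file for MP_8842b2_nt (helper80).  `card_dvd_le`: in a number field of degree at most `m`,
at most `τ(N)^m * (m k + 1)^m * G_m` algebraic integers divide `N ≠ 0` and have all conjugates of
absolute value at most `2^k`.
-/

namespace Pool.Agent.Lib.SQF

open NumberField

/-- The number of algebraic integers with all conjugates at most `2`, bounded by the degree only. -/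
theorem card_house_le (m : ℕ) (K : Type*) [Field K] [NumberField K]
    (hK : Module.finrank ℚ K ≤ m) (S : Finset (𝓞 K))
    (hS : ∀ z ∈ S, ∀ φ : K →+* ℂ, ‖φ (z : K)‖ ≤ 2) :
    S.card ≤ m * (2 * 4 ^ m + 1) ^ (m + 1) := by
  classical
  set f : 𝓞 K → (Fin (m + 1) → ℤ) := fun z i => (minpoly ℤ (z : K)).coeff i with hf
  have hint : ∀ z : 𝓞 K, IsIntegral ℤ (z : K) := fun z => z.2
  have hmap : ∀ z : 𝓞 K, minpoly ℚ (z : K) = (minpoly ℤ (z : K)).map (algebraMap ℤ ℚ) :=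
    fun z => minpoly.isIntegrallyClosed_eq_field_fractions' ℚ (hint z)
  have hdeg : ∀ z : 𝓞 K, (minpoly ℤ (z : K)).natDegree ≤ m := by
    intro z
    have h1 : (minpoly ℚ (z : K)).natDegree ≤ Module.finrank ℚ K := minpoly.natDegree_le _
    rw [hmap z, Polynomial.natDegree_map_eq_of_injective (algebraMap ℤ ℚ).injective_int] at h1
    exact h1.trans hK
  have himg : S.image f ⊆ Fintype.piFinset (fun _ : Fin (m + 1) =>
      Finset.Icc (-(4 ^ m : ℤ)) (4 ^ m)) := by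
    intro g hg
    obtain ⟨z, hz, rfl⟩ := Finset.mem_image.1 hg
    rw [Fintype.mem_piFinset]
    intro i
    have hb := Embeddings.coeff_bdd_of_norm_le (A := ℂ) (B := 2) (hS z hz) (i : ℕ)
    rw [hmap z, Polynomial.coeff_map] at hb
    set d := Module.finrank ℚ K with hd
    have h2 : (max (2 : ℝ) 1) ^ d * (d.choose (d / 2)) ≤ 4 ^ m := by
      have h3 : (max (2 : ℝ) 1) = 2 := by norm_num
      rw [h3]
      have h4 : ((d.choose (d / 2) : ℕ) : ℝ) ≤ 2 ^ d := by
        exact_mod_cast Nat.choose_le_two_pow d (d / 2)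
      calc (2 : ℝ) ^ d * (d.choose (d / 2)) ≤ 2 ^ d * 2 ^ d := by
            exact mul_le_mul_of_nonneg_left h4 (by positivity)
        _ = 4 ^ d := by rw [← mul_pow]; norm_num
        _ ≤ 4 ^ m := pow_le_pow_right₀ (by norm_num) hK
    have h5 : ((|(minpoly ℤ (z : K)).coeff i| : ℤ) : ℝ) ≤ 4 ^ m := by
      have : ‖(algebraMap ℤ ℚ) ((minpoly ℤ (z : K)).coeff i)‖ =
          ((|(minpoly ℤ (z : K)).coeff i| : ℤ) : ℝ) := by
        simp [Int.norm_eq_abs]
      rw [← this]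
      exact hb.trans h2
    have h6 : |(minpoly ℤ (z : K)).coeff i| ≤ 4 ^ m := by exact_mod_cast h5
    rw [Finset.mem_Icc]
    exact abs_le.1 h6
  have hcard : (S.image f).card ≤ (2 * 4 ^ m + 1) ^ (m + 1) := by
    refine (Finset.card_le_card himg).trans ?_
    rw [Fintype.card_piFinset_const, Int.card_Icc]
    have : ((4 : ℤ) ^ m + 1 - -(4 ^ m)).toNat = 2 * 4 ^ m + 1 := by
      have : ((4 : ℤ) ^ m + 1 - -(4 ^ m)) = ((2 * 4 ^ m + 1 : ℕ) : ℤ) := by push_cast; ring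
      rw [this, Int.toNat_natCast]
    rw [this]
  refine (Finset.card_le_mul_card_image S m ?_).trans (Nat.mul_le_mul le_rfl hcard)
  intro a ha
  obtain ⟨z₀, hz₀, rfl⟩ := Finset.mem_image.1 ha
  have hroots : ((S.filter (fun x => f x = f z₀)).image (fun x : 𝓞 K => (x : K))) ⊆
      ((minpoly ℤ (z₀ : K)).map (algebraMap ℤ K)).roots.toFinset := by
    intro y hy
    obtain ⟨x, hx, rfl⟩ := Finset.mem_image.1 hy
    rw [Finset.mem_filter] at hx
    have heq : minpoly ℤ (x : K) = minpoly ℤ (z₀ : K) := by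
      ext i
      by_cases hi : i < m + 1
      · exact congrFun hx.2 ⟨i, hi⟩
      · rw [Polynomial.coeff_eq_zero_of_natDegree_lt (by have := hdeg x; omega),
          Polynomial.coeff_eq_zero_of_natDegree_lt (by have := hdeg z₀; omega)]
    rw [Multiset.mem_toFinset, Polynomial.mem_roots, Polynomial.IsRoot.def, Polynomial.eval_map,
      ← Polynomial.aeval_def, ← heq]
    · exact minpoly.aeval ℤ (x : K)
    · exact (Polynomial.Monic.map _ (minpoly.monic (hint z₀))).ne_zero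
  have hinj : Set.InjOn (fun x : 𝓞 K => (x : K)) (S.filter (fun x => f x = f z₀) : Finset (𝓞 K)) :=
    fun x _ y _ h => RingOfIntegers.ext h
  calc (S.filter (fun x => f x = f z₀)).card
      = ((S.filter (fun x => f x = f z₀)).image (fun x : 𝓞 K => (x : K))).card :=
        (Finset.card_image_of_injOn hinj).symm
    _ ≤ (((minpoly ℤ (z₀ : K)).map (algebraMap ℤ K)).roots.toFinset).card :=
        Finset.card_le_card hroots
    _ ≤ Multiset.card ((minpoly ℤ (z₀ : K)).map (algebraMap ℤ K)).roots :=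
        Multiset.toFinset_card_le _
    _ ≤ ((minpoly ℤ (z₀ : K)).map (algebraMap ℤ K)).natDegree := Polynomial.card_roots' _
    _ ≤ (minpoly ℤ (z₀ : K)).natDegree := Polynomial.natDegree_map_le
    _ ≤ m := hdeg z₀

/-- Lower bound for a conjugate of a nonzero algebraic integer. -/
theorem conj_lower (K : Type*) [Field K] [NumberField K] (x : 𝓞 K) (hx : x ≠ 0) {Y : ℝ}
    (hb : ∀ φ : K →+* ℂ, ‖φ (x : K)‖ ≤ Y) (φ : K →+* ℂ) :
    1 ≤ ‖φ (x : K)‖ * Y ^ (Module.finrank ℚ K - 1) := by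
  classical
  have hx' : (x : K) ≠ 0 := by
    intro h
    exact hx (RingOfIntegers.ext (by simpa using h))
  have hnorm : ∏ ψ : K →ₐ[ℚ] ℂ, ‖ψ (x : K)‖ = |((Algebra.norm ℚ (x : K) : ℚ) : ℝ)| := by
    have h := Algebra.norm_eq_prod_embeddings ℚ ℂ (x : K)
    have h2 := congrArg norm h
    rw [norm_prod] at h2
    rw [← h2]
    simp
  have hint : (1 : ℝ) ≤ |((Algebra.norm ℚ (x : K) : ℚ) : ℝ)| := by
    rw [← Algebra.coe_norm_int]
    have h0 : Algebra.norm ℤ x ≠ 0 := Algebra.norm_ne_zero_iff.2 hx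
    have : (1 : ℤ) ≤ |Algebra.norm ℤ x| := Int.one_le_abs h0
    exact_mod_cast this
  have hcard : Fintype.card (K →ₐ[ℚ] ℂ) = Module.finrank ℚ K := by
    rw [AlgHom.card]
  set ψ : K →ₐ[ℚ] ℂ := φ.toRatAlgHom with hψ
  have hprod : ∏ χ : K →ₐ[ℚ] ℂ, ‖χ (x : K)‖ ≤ ‖φ (x : K)‖ * Y ^ (Module.finrank ℚ K - 1) := by
    rw [← Finset.mul_prod_erase Finset.univ _ (Finset.mem_univ ψ)]
    have h1 : ‖ψ (x : K)‖ = ‖φ (x : K)‖ := rfl
    rw [h1]
    refine mul_le_mul_of_nonneg_left ?_ (norm_nonneg _)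
    calc ∏ χ ∈ Finset.univ.erase ψ, ‖χ (x : K)‖ ≤ ∏ _χ ∈ Finset.univ.erase ψ, Y :=
          Finset.prod_le_prod (fun _ _ => norm_nonneg _) (fun χ _ => hb (χ : K →+* ℂ))
      _ = Y ^ (Module.finrank ℚ K - 1) := by
          rw [Finset.prod_const, Finset.card_erase_of_mem (Finset.mem_univ ψ), Finset.card_univ,
            hcard]
  rw [← hnorm] at hint
  exact hint.trans hprod

/-- Algebraic integers dividing `N` with all conjugates at most `2^k`. -/
theorem card_dvd_le (m : ℕ) (K : Type*) [Field K] [NumberField K]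
    (hK : Module.finrank ℚ K ≤ m) (N : ℕ) (hN : N ≠ 0) (k : ℕ) (S : Finset (𝓞 K))
    (hdvd : ∀ z ∈ S, z ∣ (N : 𝓞 K))
    (hS : ∀ z ∈ S, ∀ φ : K →+* ℂ, ‖φ (z : K)‖ ≤ 2 ^ k) :
    S.card ≤ (m * (2 * 4 ^ m + 1) ^ (m + 1)) * (N.divisors.card ^ m * (m * k + 1) ^ m) := by
  classical
  set d := Module.finrank ℚ K with hd
  have hd0 : 0 < d := Module.finrank_pos
  have hNK : (N : 𝓞 K) ≠ 0 := by exact_mod_cast hN
  have hne : ∀ z ∈ S, z ≠ 0 := fun z hz h => hNK (zero_dvd_iff.1 (h ▸ hdvd z hz))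
  have hspan : Ideal.span {((N : ℕ) : 𝓞 K)} ≠ 0 := by
    rw [Ne, Ideal.zero_eq_bot, Ideal.span_singleton_eq_bot]
    exact hNK
  set f : 𝓞 K → Ideal (𝓞 K) × ((K →+* ℂ) → ℤ) :=
    fun z => (Ideal.span {z}, fun φ => Int.log 2 ‖φ (z : K)‖) with hf
  set D : Finset (Ideal (𝓞 K)) := (dvd_finite hspan).toFinset with hD
  set B : Finset ((K →+* ℂ) → ℤ) :=
    Fintype.piFinset (fun _ => Finset.Icc (-(((d - 1) * k : ℕ) : ℤ)) k) with hB
  have hpos : ∀ z ∈ S, ∀ φ : K →+* ℂ, 0 < ‖φ (z : K)‖ := by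
    intro z hz φ
    rw [norm_pos_iff, Ne, map_eq_zero]
    intro h
    exact hne z hz (RingOfIntegers.ext (by simpa using h))
  have himg : S.image f ⊆ D ×ˢ B := by
    intro g hg
    obtain ⟨z, hz, rfl⟩ := Finset.mem_image.1 hg
    rw [Finset.mem_product]
    refine ⟨?_, ?_⟩
    · rw [hD, Set.Finite.mem_toFinset]
      exact Ideal.dvd_iff_le.2 ((Ideal.span_singleton_le_span_singleton).2 (hdvd z hz))
    · rw [hB, Fintype.mem_piFinset]
      intro φ
      rw [Finset.mem_Icc]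
      have hp := hpos z hz φ
      have hlow := conj_lower K z (hne z hz) (hS z hz) φ
      rw [← pow_mul, ← hd, mul_comm k (d - 1)] at hlow
      have hu := Int.lt_zpow_succ_log_self (b := 2) (by norm_num) ‖φ (z : K)‖
      have hl := Int.zpow_log_le_self (b := 2) (by norm_num) hp
      have hP : (0 : ℝ) < 2 ^ ((d - 1) * k) := by positivity
      constructor
      · have h1 : (2 : ℝ) ^ (-(((d - 1) * k : ℕ) : ℤ)) < 2 ^ (Int.log 2 ‖φ (z : K)‖ + 1) := by
          have h2 : (2 : ℝ) ^ (-(((d - 1) * k : ℕ) : ℤ)) ≤ ‖φ (z : K)‖ := by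
            rw [zpow_neg, zpow_natCast, inv_le_iff_one_le_mul₀ hP]
            exact hlow
          exact h2.trans_lt (by exact_mod_cast hu)
        have h3 := (zpow_lt_zpow_iff_right₀ (by norm_num : (1 : ℝ) < 2)).1 h1
        show -(((d - 1) * k : ℕ) : ℤ) ≤ Int.log 2 ‖φ (z : K)‖
        omega
      · have h1 : (2 : ℝ) ^ (Int.log 2 ‖φ (z : K)‖) ≤ 2 ^ ((k : ℕ) : ℤ) := by
          rw [zpow_natCast]
          exact (show ((2 : ℝ) ^ (Int.log 2 ‖φ (z : K)‖)) ≤ ‖φ (z : K)‖ by exact_mod_cast hl).trans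
            (hS z hz φ)
        exact (zpow_le_zpow_iff_right₀ (by norm_num : (1 : ℝ) < 2)).1 h1
  have hDcard : D.card ≤ N.divisors.card ^ m := by
    have h1 : D.card = dcard (Ideal.span {((N : ℕ) : 𝓞 K)}) := by
      rw [hD, dcard, Set.ncard_eq_toFinset_card _ (dvd_finite hspan)]
    rw [h1]
    refine (dcard_span_natCast_le K hN).trans ?_
    exact Nat.pow_le_pow_right (Finset.card_pos.2 ⟨1, Nat.one_mem_divisors.2 hN⟩) hK
  have hBcard : B.card ≤ (m * k + 1) ^ m := by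
    rw [hB, Fintype.card_piFinset, Finset.prod_const, Finset.card_univ, Int.card_Icc,
      Embeddings.card, ← hd]
    have h1 : ((k : ℤ) + 1 - -(((d - 1) * k : ℕ) : ℤ)).toNat = d * k + 1 := by
      have : ((k : ℤ) + 1 - -(((d - 1) * k : ℕ) : ℤ)) = ((d * k + 1 : ℕ) : ℤ) := by
        obtain ⟨e, he⟩ : ∃ e, d = e + 1 := ⟨d - 1, by omega⟩
        rw [he, Nat.add_sub_cancel]
        push_cast
        ring
      rw [this, Int.toNat_natCast]
    rw [h1]
    calc (d * k + 1) ^ d ≤ (m * k + 1) ^ d :=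
          Nat.pow_le_pow_left (Nat.succ_le_succ (Nat.mul_le_mul_right k hK)) d
      _ ≤ (m * k + 1) ^ m := Nat.pow_le_pow_right (Nat.succ_pos _) hK
  have hcard : (S.image f).card ≤ N.divisors.card ^ m * (m * k + 1) ^ m := by
    refine (Finset.card_le_card himg).trans ?_
    rw [Finset.card_product]
    exact Nat.mul_le_mul hDcard hBcard
  refine (Finset.card_le_mul_card_image S (m * (2 * 4 ^ m + 1) ^ (m + 1)) ?_).trans
    (Nat.mul_le_mul le_rfl hcard)
  intro a ha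
  obtain ⟨z₀, hz₀, rfl⟩ := Finset.mem_image.1 ha
  -- every element of the fibre is a multiple of `z₀` by a unit of house at most `2`
  have hu : ∀ x ∈ S.filter (fun x => f x = f z₀), ∃ u : 𝓞 K, x = u * z₀ := by
    intro x hx
    rw [Finset.mem_filter] at hx
    have h1 : Ideal.span {x} = Ideal.span {z₀} := congrArg Prod.fst hx.2
    have h2 : x ∈ Ideal.span {z₀} := h1 ▸ Ideal.mem_span_singleton_self x
    obtain ⟨u, hu⟩ := Ideal.mem_span_singleton'.1 h2
    exact ⟨u, hu.symm⟩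
  choose! u hu' using hu
  have hinj : Set.InjOn u (S.filter (fun x => f x = f z₀) : Finset (𝓞 K)) := by
    intro x hx y hy h
    rw [hu' x hx, hu' y hy, h]
  rw [← Finset.card_image_of_injOn hinj]
  refine card_house_le m K hK _ ?_
  intro w hw φ
  obtain ⟨x, hx, rfl⟩ := Finset.mem_image.1 hw
  have hxu := hu' x hx
  rw [Finset.mem_filter] at hx
  have h3 : Int.log 2 ‖φ (x : K)‖ = Int.log 2 ‖φ (z₀ : K)‖ :=
    congrFun (congrArg Prod.snd hx.2) φ
  have h4 : ‖φ (x : K)‖ = ‖φ (u x : K)‖ * ‖φ (z₀ : K)‖ := by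
    conv_lhs => rw [hxu]
    rw [← norm_mul, ← map_mul]
    rfl
  have h5 : ‖φ (x : K)‖ < 2 ^ (Int.log 2 ‖φ (z₀ : K)‖ + 1) := by
    rw [← h3]
    exact_mod_cast Int.lt_zpow_succ_log_self (b := 2) (by norm_num) ‖φ (x : K)‖
  have h6 : (2 : ℝ) ^ (Int.log 2 ‖φ (z₀ : K)‖) ≤ ‖φ (z₀ : K)‖ := by
    exact_mod_cast Int.zpow_log_le_self (b := 2) (by norm_num) (hpos z₀ hz₀ φ)
  rw [zpow_add₀ (by norm_num), zpow_one, h4] at h5
  have h7 := hpos z₀ hz₀ φ
  by_contra hcon
  push Not at hcon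
  nlinarith

end Pool.Agent.Lib.SQF
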