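import Mathlib
import Pool.Agent.Lib.SQF.Units
import Pool.Agent.Lib.MP_0b15c0_nt.DivisorBound

/-!
# SQF: solutions of `Ψ(u,v) = c` for binary forms that are not powers of a linear form

Helper file for MP_8842b2_nt (helper80).
-/

namespace Pool.Agent.Lib.SQF

open NumberField Polynomial

/-- The binary form of degree `n` with dehomogenization `f`: `∑ f_i u^i v^(n-i)`. -/
def frm {R : Type*} [CommRing R] (n : ℕ) (f : R[X]) (u v : R) : R :=
  ∑ i ∈ Finset.range (n + 1), f.coeff i * u ^ i * v ^ (n - i)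

theorem map_frm {R S : Type*} [CommRing R] [CommRing S] (g : R →+* S) (n : ℕ) (f : R[X])
    (u v : R) : g (frm n f u v) = frm n (f.map g) (g u) (g v) := by
  simp [frm, map_sum]

theorem frm_eq_prod {L : Type*} [Field L] (n : ℕ) (F : L[X]) (hF : F.natDegree ≤ n)
    (hs : F.Splits) (u v : L) :
    frm n F u v = v ^ (n - F.natDegree) *
      (F.leadingCoeff * (F.roots.map (fun β => u - β * v)).prod) := by
  classical
  set d := F.natDegree with hd
  by_cases hv : v = 0
  · subst hv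
    have hL : frm n F u 0 = F.coeff n * u ^ n := by
      rw [frm, Finset.sum_range_succ]
      rw [Finset.sum_eq_zero]
      · simp
      · intro i hi
        have : n - i ≠ 0 := by
          have := Finset.mem_range.1 hi
          omega
        simp [this]
    rw [hL]
    rcases Nat.lt_or_ge d n with h | h
    · rw [Polynomial.coeff_eq_zero_of_natDegree_lt (by rw [← hd]; exact h)]
      rw [zero_pow (by omega)]
      simp
    · have hdn : d = n := le_antisymm hF h
      have hc : F.coeff n = F.leadingCoeff := by rw [Polynomial.leadingCoeff, ← hd, hdn]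
      rw [hc, hdn, Nat.sub_self, pow_zero, one_mul]
      congr 1
      have : (F.roots.map (fun β => u - β * (0 : L))) = F.roots.map (fun _ => u) := by
        simp
      rw [this, Multiset.map_const', Multiset.prod_replicate, ← hs.natDegree_eq_card_roots, ← hd,
        hdn]
  · have h1 : frm n F u v = v ^ n * F.eval (u / v) := by
      rw [Polynomial.eval_eq_sum_range' (n := n + 1) (by omega), Finset.mul_sum, frm]
      refine Finset.sum_congr rfl ?_
      intro i hi
      have hi' : i ≤ n := by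
        have := Finset.mem_range.1 hi
        omega
      have h2 : v ^ n = v ^ (n - i) * v ^ i := by rw [← pow_add, Nat.sub_add_cancel hi']
      rw [h2, div_pow]
      field_simp
    rw [h1, hs.eval_eq_prod_roots]
    have h3 : (F.roots.map (fun β => u - β * v)).prod =
        v ^ d * (F.roots.map (fun β => u / v - β)).prod := by
      have h4 : (F.roots.map (fun β => u - β * v)) =
          F.roots.map (fun β => v * (u / v - β)) := by
        refine Multiset.map_congr rfl ?_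
        intro β _
        field_simp
      rw [h4, Multiset.prod_map_mul, Multiset.map_const', Multiset.prod_replicate,
        ← hs.natDegree_eq_card_roots]
    rw [h3]
    have h5 : v ^ n = v ^ (n - d) * v ^ d := by rw [← pow_add, Nat.sub_add_cancel hF]
    rw [h5]
    ring

/-- A splitting field has degree at most `(deg f)!`. -/
theorem finrank_splittingField_le (F : ℚ[X]) (L : Type) [Field L] [Algebra ℚ L]
    [hL : IsSplittingField ℚ L F] :
    FiniteDimensional ℚ L ∧ Module.finrank ℚ L ≤ (F.natDegree).factorial := by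
  classical
  have hfd : FiniteDimensional ℚ L := IsSplittingField.finiteDimensional L F
  have hnorm : Normal ℚ L := Normal.of_isSplittingField F
  have hgal : IsGalois ℚ L := ⟨⟩
  refine ⟨hfd, ?_⟩
  rw [← IsGalois.card_aut_eq_finrank]
  have : Fact ((F.map (algebraMap ℚ L)).Splits) := ⟨IsSplittingField.splits L F⟩
  have hinj := Polynomial.Gal.galActionHom_injective F L
  have h1 : Nat.card (F.Gal) ≤ Nat.card (Equiv.Perm (F.rootSet L)) :=
    Nat.card_le_card_of_injective _ hinj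
  have h0 : Nat.card (Gal(L/ℚ)) = Nat.card (F.Gal) :=
    Nat.card_congr (AlgEquiv.autCongr (IsSplittingField.algEquiv L F)).toEquiv
  rw [h0]
  refine h1.trans ?_
  rw [Nat.card_perm]
  refine Nat.factorial_le ?_
  rw [Nat.card_coe_set_eq]
  exact Polynomial.ncard_rootSet_le _ _

theorem exists_numberField_aux (F : ℚ[X]) (L : Type) [Field L] [CharZero L] (a : Algebra ℚ L)
    (hs : @IsSplittingField ℚ L _ _ a F) : ∃ (L : Type) (_ : Field L) (_ : NumberField L),
    (F.map (algebraMap ℚ L)).Splits ∧ Module.finrank ℚ L ≤ (F.natDegree).factorial := by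
  obtain rfl : a = DivisionRing.toRatAlgebra := Subsingleton.elim _ _
  have h := finrank_splittingField_le F L
  have : FiniteDimensional ℚ L := h.1
  exact ⟨L, inferInstance, ⟨⟩, IsSplittingField.splits L F, h.2⟩

/-- There is a number field of degree at most `(deg F)!` in which `F` splits. -/
theorem exists_numberField (F : ℚ[X]) : ∃ (L : Type) (_ : Field L) (_ : NumberField L),
    (F.map (algebraMap ℚ L)).Splits ∧ Module.finrank ℚ L ≤ (F.natDegree).factorial := by
  have hch : CharZero F.SplittingField := charZero_of_injective_algebraMap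
    (algebraMap ℚ F.SplittingField).injective
  exact exists_numberField_aux F F.SplittingField _ (IsSplittingField.splittingField F)

/-- Cauchy's bound for integer polynomials. -/
private theorem thue_root_bound (f : ℤ[X]) (hf : f ≠ 0) (A : ℝ) (hA : ∀ i, |(f.coeff i : ℝ)| ≤ A) (x : ℂ)
    (hx : (f.map (Int.castRingHom ℂ)).IsRoot x) : ‖x‖ ≤ A + 1 := by
  have hf' : f.map (Int.castRingHom ℂ) ≠ 0 :=
    (Polynomial.map_ne_zero_iff (RingHom.injective_int _)).2 hf
  have h := hx.norm_lt_cauchyBound hf'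
  have hA0 : 0 ≤ A := (abs_nonneg _).trans (hA 0)
  have h2 : cauchyBound (f.map (Int.castRingHom ℂ)) ≤ A.toNNReal + 1 := by
    rw [cauchyBound]
    refine add_le_add ?_ le_rfl
    have h3 : Finset.sup (Finset.range (f.map (Int.castRingHom ℂ)).natDegree)
        (fun i => ‖(f.map (Int.castRingHom ℂ)).coeff i‖₊) ≤ A.toNNReal := by
      refine Finset.sup_le ?_
      intro i _
      rw [← NNReal.coe_le_coe, coe_nnnorm, Real.coe_toNNReal A hA0, Polynomial.coeff_map]
      have := hA i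
      simpa using this
    have h4 : 1 ≤ ‖(f.map (Int.castRingHom ℂ)).leadingCoeff‖₊ := by
      rw [Polynomial.leadingCoeff_map_of_injective (RingHom.injective_int _),
        ← NNReal.coe_le_coe, coe_nnnorm]
      have h5 : (1 : ℤ) ≤ |f.leadingCoeff| := Int.one_le_abs (leadingCoeff_ne_zero.2 hf)
      have h6 : (1 : ℝ) ≤ |(f.leadingCoeff : ℝ)| := by exact_mod_cast h5
      simpa using h6
    exact (div_le_self (zero_le) h4).trans h3
  have h7 : (‖x‖₊ : ℝ) ≤ ((A.toNNReal + 1 : NNReal) : ℝ) := by exact_mod_cast h.le.trans h2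
  rw [coe_nnnorm, NNReal.coe_add, NNReal.coe_one, Real.coe_toNNReal A hA0] at h7
  exact h7

/-- Counting by two coordinates, each dividing `N` and with bounded conjugates. -/
theorem card_pair_le (m : ℕ) (K : Type*) [Field K] [NumberField K]
    (hK : Module.finrank ℚ K ≤ m) (N : ℕ) (hN : N ≠ 0) (k : ℕ) {ι : Type*} (S : Finset ι)
    (g₁ g₂ : ι → 𝓞 K) (hinj : ∀ p ∈ S, ∀ q ∈ S, g₁ p = g₁ q → g₂ p = g₂ q → p = q)
    (h₁ : ∀ p ∈ S, g₁ p ∣ (N : 𝓞 K)) (h₂ : ∀ p ∈ S, g₂ p ∣ (N : 𝓞 K))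
    (b₁ : ∀ p ∈ S, ∀ φ : K →+* ℂ, ‖φ (g₁ p : K)‖ ≤ 2 ^ k)
    (b₂ : ∀ p ∈ S, ∀ φ : K →+* ℂ, ‖φ (g₂ p : K)‖ ≤ 2 ^ k) :
    S.card ≤ ((m * (2 * 4 ^ m + 1) ^ (m + 1)) *
      (N.divisors.card ^ m * (m * k + 1) ^ m)) ^ 2 := by
  classical
  have hc1 := card_dvd_le m K hK N hN k (S.image g₁)
    (by intro z hz; obtain ⟨p, hp, rfl⟩ := Finset.mem_image.1 hz; exact h₁ p hp)
    (by intro z hz; obtain ⟨p, hp, rfl⟩ := Finset.mem_image.1 hz; exact b₁ p hp)
  have hc2 := card_dvd_le m K hK N hN k (S.image g₂)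
    (by intro z hz; obtain ⟨p, hp, rfl⟩ := Finset.mem_image.1 hz; exact h₂ p hp)
    (by intro z hz; obtain ⟨p, hp, rfl⟩ := Finset.mem_image.1 hz; exact b₂ p hp)
  have hcard : S.card = (S.image (fun p => (g₁ p, g₂ p))).card := by
    rw [Finset.card_image_of_injOn]
    intro p hp q hq h
    exact hinj p hp q hq (congrArg Prod.fst h) (congrArg Prod.snd h)
  have hsub : S.image (fun p => (g₁ p, g₂ p)) ⊆ S.image g₁ ×ˢ S.image g₂ := by
    intro x hx
    obtain ⟨p, hp, rfl⟩ := Finset.mem_image.1 hx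
    exact Finset.mem_product.2 ⟨Finset.mem_image_of_mem g₁ hp, Finset.mem_image_of_mem g₂ hp⟩
  rw [hcard, pow_two]
  refine (Finset.card_le_card hsub).trans ?_
  rw [Finset.card_product]
  exact Nat.mul_le_mul hc1 hc2

/-- The Thue bound with explicit quantities. -/
theorem thue_finite (n : ℕ) (f : ℤ[X]) (hf : f.natDegree ≤ n)
    (hnp : ¬ ∃ k l m : ℂ, ∀ u v : ℂ,
      frm n (f.map (Int.castRingHom ℂ)) u v = k * (l * u + m * v) ^ n)
    (j : ℕ) (hj : ∀ i, |(f.coeff i : ℝ)| ≤ 2 ^ j) (c : ℤ) (hc : c ≠ 0)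
    (S : Finset (ℤ × ℤ))
    (hS : ∀ p ∈ S, |(p.1 : ℝ)| ≤ 2 ^ j ∧ |(p.2 : ℝ)| ≤ 2 ^ j ∧ frm n f p.1 p.2 = c) :
    S.card ≤ ((n.factorial * (2 * 4 ^ n.factorial + 1) ^ (n.factorial + 1)) *
      ((f.leadingCoeff.natAbs ^ n * c.natAbs).divisors.card ^ n.factorial *
        (n.factorial * (3 * j + 2) + 1) ^ n.factorial)) ^ 2 := by
  classical
  obtain ⟨L, _, _, hs, hfin⟩ := exists_numberField (f.map (Int.castRingHom ℚ))
  set a : ℤ := f.leadingCoeff with ha
  have hf0 : f ≠ 0 := by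
    rintro rfl
    exact hnp ⟨0, 0, 0, fun u v => by simp [frm]⟩
  have ha0 : a ≠ 0 := leadingCoeff_ne_zero.2 hf0
  set F : L[X] := f.map (Int.castRingHom L) with hF
  have hFs : F.Splits := by
    have : (f.map (Int.castRingHom ℚ)).map (algebraMap ℚ L) = F := by
      rw [Polynomial.map_map, hF]
      congr 1
      exact RingHom.ext_int _ _
    rw [← this]
    exact hs
  have hFdeg : F.natDegree = f.natDegree :=
    Polynomial.natDegree_map_eq_of_injective (RingHom.injective_int _) f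
  have hFlead : F.leadingCoeff = (a : L) := by
    rw [hF, Polynomial.leadingCoeff_map_of_injective (RingHom.injective_int _)]
    simp [ha]
  have hF0 : F ≠ 0 := by
    rw [← leadingCoeff_ne_zero, hFlead]
    exact_mod_cast ha0
  set d := f.natDegree with hd
  have hfin' : Module.finrank ℚ L ≤ n.factorial := by
    refine hfin.trans (Nat.factorial_le ?_)
    rw [Polynomial.natDegree_map_eq_of_injective (RingHom.injective_int _)]
    exact hf
  set N : ℕ := a.natAbs ^ n * c.natAbs with hN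
  have hN0 : N ≠ 0 := by
    rw [hN]
    exact mul_ne_zero (pow_ne_zero _ (Int.natAbs_ne_zero.2 ha0)) (Int.natAbs_ne_zero.2 hc)
  have hinteg : ∀ β ∈ F.roots, IsIntegral ℤ ((a : L) * β) := by
    intro β hβ
    have h1 : aeval β f = 0 := by
      have := (mem_roots hF0).1 hβ
      rw [IsRoot.def, hF, eval_map] at this
      rw [aeval_def, algebraMap_int_eq]
      exact this
    have h2 := isIntegral_leadingCoeff_smul f β h1
    rwa [zsmul_eq_mul] at h2
  set r : L → 𝓞 L := fun x => if h : IsIntegral ℤ ((a : L) * x) then ⟨(a : L) * x, h⟩ else 0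
    with hr
  have hr' : ∀ β ∈ F.roots, algebraMap (𝓞 L) L (r β) = (a : L) * β := by
    intro β hβ
    simp only [hr, dif_pos (hinteg β hβ)]
    rfl
  -- the product formula
  have hprod : ∀ p ∈ S, ((a : 𝓞 L) ^ d * (c : 𝓞 L)) =
      (a : 𝓞 L) * (p.2 : 𝓞 L) ^ (n - d) *
        (F.roots.map (fun β => (a : 𝓞 L) * (p.1 : 𝓞 L) - r β * (p.2 : 𝓞 L))).prod := by
    intro p hp
    have h1 : (c : L) = frm n F (p.1 : L) (p.2 : L) := by
      have := map_frm (Int.castRingHom L) n f p.1 p.2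
      rw [(hS p hp).2.2] at this
      simpa using this
    rw [frm_eq_prod n F (by rw [hFdeg]; exact hf) hFs, hFdeg, hFlead] at h1
    apply RingOfIntegers.coe_injective
    rw [map_mul, map_mul, map_mul, map_pow, map_pow, map_multiset_prod, Multiset.map_map]
    have h2 : (F.roots.map ((algebraMap (𝓞 L) L) ∘
        (fun β => (a : 𝓞 L) * (p.1 : 𝓞 L) - r β * (p.2 : 𝓞 L)))) =
        F.roots.map (fun β => (a : L) * ((p.1 : L) - β * (p.2 : L))) := by
      refine Multiset.map_congr rfl ?_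
      intro β hβ
      rw [Function.comp_apply, map_sub, map_mul, map_mul]
      have := hr' β hβ
      rw [this]
      simp only [map_intCast]
      ring
    rw [h2, Multiset.prod_map_mul, Multiset.map_const', Multiset.prod_replicate,
      ← hFs.natDegree_eq_card_roots, hFdeg]
    simp only [map_intCast]
    rw [h1]
    ring
  have hdvdN : ∀ x : 𝓞 L, x ∣ (a : 𝓞 L) ^ d * (c : 𝓞 L) → x ∣ ((N : ℕ) : 𝓞 L) := by
    intro x hx
    have h1 : x ∣ (((a ^ n * c : ℤ)) : 𝓞 L) := by
      push_cast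
      refine hx.trans (mul_dvd_mul (pow_dvd_pow _ hf) dvd_rfl)
    have h2 : N = (a ^ n * c).natAbs := by
      rw [hN, Int.natAbs_mul, Int.natAbs_pow]
    rcases Int.natAbs_eq (a ^ n * c) with h3 | h3
    · rw [h3, ← h2] at h1
      exact_mod_cast h1
    · rw [h3, ← h2] at h1
      rw [Int.cast_neg, dvd_neg] at h1
      exact_mod_cast h1
  -- the linear factors divide `N`
  have hlin : ∀ β ∈ F.roots, ∀ p ∈ S,
      ((a : 𝓞 L) * (p.1 : 𝓞 L) - r β * (p.2 : 𝓞 L)) ∣ ((N : ℕ) : 𝓞 L) := by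
    intro β hβ p hp
    refine hdvdN _ ?_
    rw [hprod p hp]
    exact (Multiset.dvd_prod (Multiset.mem_map_of_mem _ hβ)).mul_left _
  have hv : d < n → ∀ p ∈ S, (p.2 : 𝓞 L) ∣ ((N : ℕ) : 𝓞 L) := by
    intro hdn p hp
    refine hdvdN _ ?_
    rw [hprod p hp]
    exact (((dvd_pow_self _ (by omega : n - d ≠ 0)).mul_left _).mul_right _)
  -- bounds for the conjugates
  have hA1 : (1 : ℝ) ≤ 2 ^ j := one_le_pow₀ (by norm_num)
  have habs : |(a : ℝ)| ≤ 2 ^ j := by
    have := hj d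
    rwa [show f.coeff d = a from rfl] at this
  have hFφ : ∀ φ : L →+* ℂ, F.map φ = f.map (Int.castRingHom ℂ) := by
    intro φ
    rw [hF, Polynomial.map_map]
    congr 1
    exact RingHom.ext_int _ _
  have hroot : ∀ β ∈ F.roots, ∀ φ : L →+* ℂ, ‖φ β‖ ≤ 2 ^ j + 1 := by
    intro β hβ φ
    refine thue_root_bound f hf0 (2 ^ j) hj (φ β) ?_
    rw [← hFφ φ]
    exact ((mem_roots hF0).1 hβ).map
  have hblin : ∀ β ∈ F.roots, ∀ p ∈ S, ∀ φ : L →+* ℂ,
      ‖φ (((a : 𝓞 L) * (p.1 : 𝓞 L) - r β * (p.2 : 𝓞 L) : 𝓞 L) : L)‖ ≤ 2 ^ (3 * j + 2) := by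
    intro β hβ p hp φ
    have h1 : φ (((a : 𝓞 L) * (p.1 : 𝓞 L) - r β * (p.2 : 𝓞 L) : 𝓞 L) : L) =
        (a : ℂ) * (p.1 : ℂ) - (a : ℂ) * φ β * (p.2 : ℂ) := by
      have h0 : (((a : 𝓞 L) * (p.1 : 𝓞 L) - r β * (p.2 : 𝓞 L) : 𝓞 L) : L) =
          (a : L) * (p.1 : L) - (a : L) * β * (p.2 : L) := by
        show algebraMap (𝓞 L) L _ = _
        rw [map_sub, map_mul, map_mul, hr' β hβ]
        simp only [map_intCast]
      rw [h0]
      simp only [map_sub, map_mul, map_intCast]
    rw [h1]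
    have hp1 := (hS p hp).1
    have hp2 := (hS p hp).2.1
    have hβ1 := hroot β hβ φ
    have n1 : ‖(a : ℂ)‖ ≤ 2 ^ j := by simpa using habs
    have n2 : ‖((p.1 : ℤ) : ℂ)‖ ≤ 2 ^ j := by simpa using hp1
    have n3 : ‖((p.2 : ℤ) : ℂ)‖ ≤ 2 ^ j := by simpa using hp2
    have hA0 : (0 : ℝ) ≤ 2 ^ j := by positivity
    calc ‖(a : ℂ) * (p.1 : ℂ) - (a : ℂ) * φ β * (p.2 : ℂ)‖
        ≤ ‖(a : ℂ) * (p.1 : ℂ)‖ + ‖(a : ℂ) * φ β * (p.2 : ℂ)‖ := norm_sub_le _ _
      _ = ‖(a : ℂ)‖ * ‖((p.1 : ℤ) : ℂ)‖ + ‖(a : ℂ)‖ * ‖φ β‖ * ‖((p.2 : ℤ) : ℂ)‖ := by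
          rw [norm_mul, norm_mul, norm_mul]
      _ ≤ 2 ^ j * 2 ^ j + 2 ^ j * (2 ^ j + 1) * 2 ^ j := by
          refine add_le_add (mul_le_mul n1 n2 (norm_nonneg _) hA0) ?_
          refine mul_le_mul (mul_le_mul n1 hβ1 (norm_nonneg _) hA0) n3 (norm_nonneg _) ?_
          positivity
      _ ≤ 4 * (2 ^ j * 2 ^ j * 2 ^ j) := by nlinarith [mul_nonneg hA0 hA0]
      _ = 2 ^ (3 * j + 2) := by ring
  have hbv : ∀ p ∈ S, ∀ φ : L →+* ℂ, ‖φ ((p.2 : 𝓞 L) : L)‖ ≤ 2 ^ (3 * j + 2) := by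
    intro p hp φ
    have h1 : φ ((p.2 : 𝓞 L) : L) = (p.2 : ℂ) := by
      have h0 : (((p.2 : ℤ) : 𝓞 L) : L) = (p.2 : L) := by
        show algebraMap (𝓞 L) L _ = _
        simp only [map_intCast]
      rw [h0]
      simp only [map_intCast]
    rw [h1]
    have n3 : ‖((p.2 : ℤ) : ℂ)‖ ≤ 2 ^ j := by simpa using (hS p hp).2.1
    exact n3.trans (pow_le_pow_right₀ (by norm_num) (by omega))
  have haL : (a : L) ≠ 0 := by exact_mod_cast ha0
  obtain ⟨φ⟩ : Nonempty (L →+* ℂ) := inferInstance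
  have hprodC : ∀ α : L, (∀ β ∈ F.roots, β = α) → ∀ u v : ℂ,
      frm n (f.map (Int.castRingHom ℂ)) u v = v ^ (n - d) * ((a : ℂ) * (u - φ α * v) ^ d) := by
    intro α hα u v
    have h1 : F.roots = Multiset.replicate d α := by
      rw [Multiset.eq_replicate]
      exact ⟨by rw [← hFs.natDegree_eq_card_roots, hFdeg], hα⟩
    have h2 : (f.map (Int.castRingHom ℂ)).roots = Multiset.replicate d (φ α) := by
      rw [← hFφ φ, hFs.roots_map, h1, Multiset.map_replicate]
    have h3 : (f.map (Int.castRingHom ℂ)).natDegree = d :=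
      Polynomial.natDegree_map_eq_of_injective (RingHom.injective_int _) f
    have h4 : (f.map (Int.castRingHom ℂ)).leadingCoeff = (a : ℂ) := by
      rw [Polynomial.leadingCoeff_map_of_injective (RingHom.injective_int _)]
      simp [ha]
    rw [frm_eq_prod n _ (by rw [h3]; exact hf) (IsAlgClosed.splits _), h3, h4, h2,
      Multiset.map_replicate, Multiset.prod_replicate]
  rcases Nat.eq_zero_or_pos d with hd0 | hdpos
  · -- `f` constant
    exfalso
    apply hnp
    refine ⟨(a : ℂ), 0, 1, fun u v => ?_⟩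
    have hroots : F.roots = 0 := by
      rw [← Multiset.card_eq_zero, ← hFs.natDegree_eq_card_roots, hFdeg, hd0]
    rw [hprodC 0 (by rw [hroots]; intro β hβ; exact absurd hβ (Multiset.notMem_zero β)) u v, hd0]
    simp
    ring
  · obtain ⟨α, hα⟩ : ∃ α, α ∈ F.roots := by
      refine Multiset.exists_mem_of_ne_zero ?_
      intro h0
      have := hFs.natDegree_eq_card_roots
      rw [h0, hFdeg] at this
      simp at this
      omega
    rcases Nat.lt_or_ge d n with hdn | hdn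
    · refine card_pair_le n.factorial L hfin' N hN0 (3 * j + 2) S (fun p => (p.2 : 𝓞 L))
        (fun p => (a : 𝓞 L) * (p.1 : 𝓞 L) - r α * (p.2 : 𝓞 L)) ?_ (hv hdn) (hlin α hα) hbv
        (hblin α hα)
      intro p hp q hq h1 h2
      have h3 : p.2 = q.2 := by
        have : ((p.2 : ℤ) : 𝓞 L) = ((q.2 : ℤ) : 𝓞 L) := h1
        exact_mod_cast this
      have h4 : (a : 𝓞 L) * (p.1 : 𝓞 L) = (a : 𝓞 L) * (q.1 : 𝓞 L) := by
        have h5 : (a : 𝓞 L) * (p.1 : 𝓞 L) - r α * (p.2 : 𝓞 L) =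
          (a : 𝓞 L) * (q.1 : 𝓞 L) - r α * (q.2 : 𝓞 L) := h2
        rw [h3] at h5
        exact sub_left_injective h5
      have h6 : (a * p.1 : ℤ) = a * q.1 := by exact_mod_cast h4
      exact Prod.ext (mul_left_cancel₀ ha0 h6) h3
    · have hdn' : d = n := le_antisymm hf hdn
      by_cases hall : ∀ β ∈ F.roots, β = α
      · exfalso
        apply hnp
        refine ⟨(a : ℂ), 1, - φ α, fun u v => ?_⟩
        rw [hprodC α hall u v, hdn', Nat.sub_self, pow_zero, one_mul]
        ring_nf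
      · push Not at hall
        obtain ⟨β, hβ, hβα⟩ := hall
        refine card_pair_le n.factorial L hfin' N hN0 (3 * j + 2) S
          (fun p => (a : 𝓞 L) * (p.1 : 𝓞 L) - r β * (p.2 : 𝓞 L))
          (fun p => (a : 𝓞 L) * (p.1 : 𝓞 L) - r α * (p.2 : 𝓞 L)) ?_ (hlin β hβ) (hlin α hα)
          (hblin β hβ) (hblin α hα)
        intro p hp q hq h1 h2
        have e : ∀ γ ∈ F.roots, (a : 𝓞 L) * (p.1 : 𝓞 L) - r γ * (p.2 : 𝓞 L) =
            (a : 𝓞 L) * (q.1 : 𝓞 L) - r γ * (q.2 : 𝓞 L) →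
            (a : L) * (p.1 : L) - (a : L) * γ * (p.2 : L) =
            (a : L) * (q.1 : L) - (a : L) * γ * (q.2 : L) := by
          intro γ hγ h
          have h' := congrArg (algebraMap (𝓞 L) L) h
          rw [map_sub, map_sub, map_mul, map_mul, map_mul, map_mul, hr' γ hγ] at h'
          simpa only [map_intCast] using h'
        have e1 := e β hβ h1
        have e2 := e α hα h2
        have e3 : (a : L) * ((β - α) * ((p.2 : L) - (q.2 : L))) = 0 := by
          linear_combination e2 - e1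
        have e4 : (p.2 : L) - (q.2 : L) = 0 := by
          rcases mul_eq_zero.1 e3 with h | h
          · exact absurd h haL
          · rcases mul_eq_zero.1 h with h | h
            · exact absurd (sub_eq_zero.1 h) hβα
            · exact h
        have e5 : p.2 = q.2 := by
          have := sub_eq_zero.1 e4
          exact_mod_cast this
        rw [e5] at e1
        have e6 : (a : L) * (p.1 : L) = (a : L) * (q.1 : L) := sub_left_injective e1
        have e7 : p.1 = q.1 := by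
          have := mul_left_cancel₀ haL e6
          exact_mod_cast this
        exact Prod.ext e7 e5

/-- **Thue bound.**  Uniformly in all integer forms `Ψ` of degree `n` with coefficients at most
`X^C` that are not of the form `k (l u + m v)^n` over `ℂ` and all `c ≠ 0` with `|c| ≤ X^C`, the
equation `Ψ(u,v) = c` has at most `K X^ε` solutions with `|u|, |v| ≤ X^C`. -/
theorem thue (n C : ℕ) {ε : ℝ} (hε : 0 < ε) : ∃ K : ℝ, 0 < K ∧ ∀ X : ℝ, 2 ≤ X →
    ∀ f : ℤ[X], f.natDegree ≤ n → (∀ i, |(f.coeff i : ℝ)| ≤ X ^ C) →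
    (¬ ∃ k l m : ℂ, ∀ u v : ℂ,
      frm n (f.map (Int.castRingHom ℂ)) u v = k * (l * u + m * v) ^ n) →
    ∀ c : ℤ, c ≠ 0 → |(c : ℝ)| ≤ X ^ C → ∀ S : Finset (ℤ × ℤ),
    (∀ p ∈ S, |(p.1 : ℝ)| ≤ X ^ C ∧ |(p.2 : ℝ)| ≤ X ^ C ∧ frm n f p.1 p.2 = c) →
    (S.card : ℝ) ≤ K * X ^ ε := by
  classical
  set m : ℕ := n.factorial with hm
  have hm1 : 1 ≤ m := Nat.factorial_pos n
  have hm0 : (0 : ℝ) < m := by exact_mod_cast hm1
  set G : ℕ := m * (2 * 4 ^ m + 1) ^ (m + 1) with hG
  set w : ℝ := (C : ℝ) * (n + 1) + 1 with hw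
  have hw0 : 0 < w := by positivity
  set δ : ℝ := ε / (4 * m * w) with hδ
  have hδ0 : 0 < δ := by positivity
  set η : ℝ := ε / (4 * m) with hη
  have hη0 : 0 < η := by positivity
  obtain ⟨D, hD0, hD⟩ := Pool.Agent.Lib.MP0b15c0.divisor_bound hδ0
  have hlog2 : 0 < Real.log 2 := Real.log_pos (by norm_num)
  set E : ℝ := m * (3 * (C / (η * Real.log 2) + 1) + 2) + 1 with hE
  have hE0 : 0 < E := by positivity
  refine ⟨((G : ℝ) + 1) ^ 2 * (D ^ (2 * m) * E ^ (2 * m)), by positivity, ?_⟩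
  intro X hX f hf hfc hnp c hc hcX S hS
  have hX0 : 0 < X := by linarith
  have hX1 : 1 ≤ X := by linarith
  have hlogX : 0 ≤ Real.log X := Real.log_nonneg hX1
  set t : ℕ := ⌈(C : ℝ) * (Real.log X / Real.log 2)⌉₊ with ht
  have ht1 : X ^ C ≤ 2 ^ t := by
    have h1 : X ^ C = (2 : ℝ) ^ ((C : ℝ) * (Real.log X / Real.log 2)) := by
      rw [← Real.rpow_natCast X C, Real.rpow_def_of_pos hX0, Real.rpow_def_of_pos (by norm_num)]
      congr 1
      field_simp
    rw [h1, ← Real.rpow_natCast 2 t]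
    exact Real.rpow_le_rpow_of_exponent_le (by norm_num) (Nat.le_ceil _)
  have ht2 : (t : ℝ) ≤ (C : ℝ) * (Real.log X / Real.log 2) + 1 :=
    (Nat.ceil_lt_add_one (by positivity)).le
  have hf0 : f ≠ 0 := by
    rintro rfl
    exact hnp ⟨0, 0, 0, fun u v => by simp [frm]⟩
  have ha0 : f.leadingCoeff ≠ 0 := leadingCoeff_ne_zero.2 hf0
  have hmain := thue_finite n f hf hnp t (fun i => (hfc i).trans ht1) c hc S
    (fun p hp => ⟨(hS p hp).1.trans ht1, (hS p hp).2.1.trans ht1, (hS p hp).2.2⟩)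
  rw [← hm, ← hG] at hmain
  set N : ℕ := f.leadingCoeff.natAbs ^ n * c.natAbs with hN
  have hN0 : N ≠ 0 :=
    mul_ne_zero (pow_ne_zero _ (Int.natAbs_ne_zero.2 ha0)) (Int.natAbs_ne_zero.2 hc)
  have hmain' : (S.card : ℝ) ≤ ((G : ℝ) * ((N.divisors.card : ℝ) ^ m *
      ((m : ℝ) * (3 * t + 2) + 1) ^ m)) ^ 2 := by
    have := (Nat.cast_le (α := ℝ)).2 hmain
    push_cast at this
    exact this
  have hNX : (N : ℝ) ≤ X ^ (C * (n + 1)) := by
    rw [hN]
    push_cast
    have h1 : ((f.leadingCoeff.natAbs : ℕ) : ℝ) ≤ X ^ C := by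
      rw [Nat.cast_natAbs, Int.cast_abs]
      exact hfc _
    have h2 : ((c.natAbs : ℕ) : ℝ) ≤ X ^ C := by
      rw [Nat.cast_natAbs, Int.cast_abs]
      exact hcX
    calc ((f.leadingCoeff.natAbs : ℕ) : ℝ) ^ n * ((c.natAbs : ℕ) : ℝ)
        ≤ (X ^ C) ^ n * X ^ C := by
          refine mul_le_mul (pow_le_pow_left₀ (by positivity) h1 n) h2 (by positivity)
            (by positivity)
      _ = X ^ (C * (n + 1)) := by ring
  have hτ : (N.divisors.card : ℝ) ≤ D * X ^ ((C : ℝ) * (n + 1) * δ) := by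
    refine (hD N hN0).trans ?_
    refine mul_le_mul_of_nonneg_left ?_ hD0.le
    calc (N : ℝ) ^ δ ≤ (X ^ (C * (n + 1))) ^ δ :=
          Real.rpow_le_rpow (by positivity) hNX hδ0.le
      _ = X ^ ((C : ℝ) * (n + 1) * δ) := by
          rw [← Real.rpow_natCast X, ← Real.rpow_mul hX0.le]
          push_cast
          ring_nf
  have hτ2 : (N.divisors.card : ℝ) ^ (2 * m) ≤ D ^ (2 * m) * X ^ (ε / 2) := by
    calc (N.divisors.card : ℝ) ^ (2 * m) ≤ (D * X ^ ((C : ℝ) * (n + 1) * δ)) ^ (2 * m) :=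
          pow_le_pow_left₀ (by positivity) hτ _
      _ = D ^ (2 * m) * X ^ ((C : ℝ) * (n + 1) * δ * (2 * m : ℕ)) := by
          rw [mul_pow, ← Real.rpow_natCast (X ^ ((C : ℝ) * (n + 1) * δ)) (2 * m),
            ← Real.rpow_mul hX0.le]
      _ ≤ D ^ (2 * m) * X ^ (ε / 2) := by
          refine mul_le_mul_of_nonneg_left ?_ (by positivity)
          refine Real.rpow_le_rpow_of_exponent_le hX1 ?_
          push_cast
          rw [hδ]
          have h1 : (C : ℝ) * (n + 1) ≤ w := by rw [hw]; linarith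
          calc (C : ℝ) * (n + 1) * (ε / (4 * m * w)) * (2 * m)
              = ((C : ℝ) * (n + 1) / w) * (ε / 2) := by
                field_simp
                ring
            _ ≤ 1 * (ε / 2) := by
                refine mul_le_mul_of_nonneg_right ?_ (by positivity)
                exact (div_le_one hw0).2 h1
            _ = ε / 2 := one_mul _
  have hXη : 1 ≤ X ^ η := Real.one_le_rpow hX1 hη0.le
  have hlogη : Real.log X ≤ X ^ η / η := Real.log_le_rpow_div hX0.le hη0
  have ht3 : (m : ℝ) * (3 * t + 2) + 1 ≤ E * X ^ η := by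
    have h1 : (t : ℝ) ≤ (C / (η * Real.log 2) + 1) * X ^ η := by
      calc (t : ℝ) ≤ (C : ℝ) * (Real.log X / Real.log 2) + 1 := ht2
        _ ≤ (C : ℝ) * ((X ^ η / η) / Real.log 2) + X ^ η := by
            refine add_le_add ?_ hXη
            refine mul_le_mul_of_nonneg_left ?_ (by positivity)
            exact div_le_div_of_nonneg_right hlogη hlog2.le
        _ = (C / (η * Real.log 2) + 1) * X ^ η := by
            field_simp
    rw [hE]
    have h2 : (m : ℝ) * (3 * t + 2) ≤ m * ((3 * (C / (η * Real.log 2) + 1) + 2) * X ^ η) := by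
      refine mul_le_mul_of_nonneg_left ?_ hm0.le
      nlinarith
    nlinarith
  have ht4 : ((m : ℝ) * (3 * t + 2) + 1) ^ (2 * m) ≤ E ^ (2 * m) * X ^ (ε / 2) := by
    calc ((m : ℝ) * (3 * t + 2) + 1) ^ (2 * m) ≤ (E * X ^ η) ^ (2 * m) :=
          pow_le_pow_left₀ (by positivity) ht3 _
      _ = E ^ (2 * m) * X ^ (η * (2 * m : ℕ)) := by
          rw [mul_pow, ← Real.rpow_natCast (X ^ η) (2 * m), ← Real.rpow_mul hX0.le]
      _ = E ^ (2 * m) * X ^ (ε / 2) := by
          congr 2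
          push_cast
          rw [hη]
          field_simp
          ring
  calc (S.card : ℝ) ≤ ((G : ℝ) * ((N.divisors.card : ℝ) ^ m *
      ((m : ℝ) * (3 * t + 2) + 1) ^ m)) ^ 2 := hmain'
    _ = (G : ℝ) ^ 2 * ((N.divisors.card : ℝ) ^ (2 * m) *
        ((m : ℝ) * (3 * t + 2) + 1) ^ (2 * m)) := by ring
    _ ≤ ((G : ℝ) + 1) ^ 2 * ((D ^ (2 * m) * X ^ (ε / 2)) * (E ^ (2 * m) * X ^ (ε / 2))) := by
        refine mul_le_mul ?_ ?_ (by positivity) (by positivity)
        · exact pow_le_pow_left₀ (by positivity) (by linarith) 2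
        · exact mul_le_mul hτ2 ht4 (by positivity) (by positivity)
    _ = ((G : ℝ) + 1) ^ 2 * (D ^ (2 * m) * E ^ (2 * m)) * X ^ ε := by
        have : X ^ ε = X ^ (ε / 2) * X ^ (ε / 2) := by
          rw [← Real.rpow_add hX0]
          congr 1
          ring
        rw [this]
        ring

/-- The Thue bound for forms given by their coefficients `a_0, ..., a_n`. -/
theorem thue_coeff (n C : ℕ) {ε : ℝ} (hε : 0 < ε) : ∃ K : ℝ, 0 < K ∧ ∀ X : ℝ, 2 ≤ X →
    ∀ a : ℕ → ℤ, (∀ i ≤ n, |(a i : ℝ)| ≤ X ^ C) →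
    (¬ ∃ k l m : ℂ, ∀ u v : ℂ,
      ∑ i ∈ Finset.range (n + 1), (a i : ℂ) * u ^ i * v ^ (n - i) = k * (l * u + m * v) ^ n) →
    ∀ c : ℤ, c ≠ 0 → |(c : ℝ)| ≤ X ^ C → ∀ S : Finset (ℤ × ℤ),
    (∀ p ∈ S, |(p.1 : ℝ)| ≤ X ^ C ∧ |(p.2 : ℝ)| ≤ X ^ C ∧
      ∑ i ∈ Finset.range (n + 1), a i * p.1 ^ i * p.2 ^ (n - i) = c) →
    (S.card : ℝ) ≤ K * X ^ ε := by
  classical
  obtain ⟨K, hK, h⟩ := thue n C hε
  refine ⟨K, hK, ?_⟩
  intro X hX a ha hnp c hc hcX S hS
  set f : ℤ[X] := ∑ i ∈ Finset.range (n + 1), Polynomial.C (a i) * Polynomial.X ^ i with hf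
  have hcoeff : ∀ i, f.coeff i = if i ∈ Finset.range (n + 1) then a i else 0 := by
    intro i
    rw [hf, Polynomial.finsetSum_coeff]
    simp only [Polynomial.coeff_C_mul_X_pow]
    rw [Finset.sum_ite_eq]
  have hdeg : f.natDegree ≤ n := by
    rw [Polynomial.natDegree_le_iff_coeff_eq_zero]
    intro i hi
    rw [hcoeff, if_neg]
    simp only [Finset.mem_range]
    omega
  have hfrm : ∀ u v : ℂ, frm n (f.map (Int.castRingHom ℂ)) u v =
      ∑ i ∈ Finset.range (n + 1), (a i : ℂ) * u ^ i * v ^ (n - i) := by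
    intro u v
    rw [frm]
    refine Finset.sum_congr rfl ?_
    intro i hi
    rw [Polynomial.coeff_map, hcoeff, if_pos hi]
    simp
  have hfrmZ : ∀ u v : ℤ, frm n f u v =
      ∑ i ∈ Finset.range (n + 1), a i * u ^ i * v ^ (n - i) := by
    intro u v
    rw [frm]
    refine Finset.sum_congr rfl ?_
    intro i hi
    rw [hcoeff, if_pos hi]
  have hX1 : 1 ≤ X := by linarith
  refine h X hX f hdeg ?_ ?_ c hc hcX S ?_
  · intro i
    rw [hcoeff]
    by_cases hi : i ∈ Finset.range (n + 1)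
    · rw [if_pos hi]
      exact ha i (by have := Finset.mem_range.1 hi; omega)
    · rw [if_neg hi]
      simp
      positivity
  · rintro ⟨k, l, m, hklm⟩
    exact hnp ⟨k, l, m, fun u v => by rw [← hfrm, hklm]⟩
  · intro p hp
    exact ⟨(hS p hp).1, (hS p hp).2.1, by rw [hfrmZ]; exact (hS p hp).2.2⟩

end Pool.Agent.Lib.SQF
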