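import Pool.Agent.Lib.SQF.WOrd

/-!
# The spaces `W(s,T,o)` (section S6, 6.6)

`WS τ θ s T o`: the `h` in `k[t][n]` with `deg_n h ≤ s`, `deg_t h < T` and weighted order at least
`o` at the four points `(τ i, θ i)`. The slice is *balanced* if `WS 1 4 2 = 0`.
Main results for balanced slices: `exists_member` (a coprime pair `A, B` of degree at most `4`
with `A n + B` of order `≥ 2` at the four points), `WS_eq_zero` (`WS s (4s) (2s) = 0`),
`finrank_WS_le` (`dim WS s T (2s) ≤ (s+1)(T-4s)`).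
-/

set_option autoImplicit false

open Polynomial Finset Module

namespace Pool.Agent.Lib.SQF

variable {k : Type*} [Field k]

/-- the space `W(s,T,o)`, `deg_t < T` -/
noncomputable def WS (τ θ : Fin 4 → k) (s T o : ℕ) : Submodule k k[X][X] where
  carrier := {h | h.natDegree ≤ s ∧ (∀ y, (h.coeff y).degree < (T : WithBot ℕ)) ∧
    ∀ i, WO (τ i) (θ i) o h}
  zero_mem' := by
    refine ⟨by simp, fun y => by simp, fun i => wo_of_zero _ _ _⟩
  add_mem' := by
    rintro a b ⟨h1, h2, h3⟩ ⟨h4, h5, h6⟩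
    refine ⟨natDegree_add_le_of_degree_le h1 h4, fun y => ?_, fun i => (h3 i).add (h6 i)⟩
    rw [coeff_add]
    exact lt_of_le_of_lt (degree_add_le _ _) (max_lt (h2 y) (h5 y))
  smul_mem' := by
    rintro c h ⟨h1, h2, h3⟩
    refine ⟨(natDegree_smul_le c h).trans h1, fun y => ?_, fun i => (h3 i).smul c⟩
    rw [coeff_smul]
    exact lt_of_le_of_lt (degree_smul_le _ _) (h2 y)

lemma mem_WS {τ θ : Fin 4 → k} {s T o : ℕ} {h : k[X][X]} :
    h ∈ WS τ θ s T o ↔ h.natDegree ≤ s ∧ (∀ y, (h.coeff y).degree < (T : WithBot ℕ)) ∧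
      ∀ i, WO (τ i) (θ i) o h := Iff.rfl

/-- the slice is balanced -/
def Bal (τ θ : Fin 4 → k) : Prop := ∀ h ∈ WS τ θ 1 4 2, h = 0

lemma lin_mem_WS {τ θ : Fin 4 → k} {T : ℕ} {A B : k[X]} (hA : A.degree < (T : WithBot ℕ))
    (hB : B.degree < (T : WithBot ℕ)) (hd : ∀ i, (X - C (τ i)) ^ 2 ∣ A * C (θ i) + B) :
    C A * X + C B ∈ WS τ θ 1 T 2 := by
  refine ⟨natDegree_linear_le, fun y => ?_, fun i => (wo_two_iff _ _ _ _).2 (hd i)⟩
  rcases y with _ | _ | y
  · simpa using hB
  · simpa [coeff_C] using hA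
  · simp

lemma pow_dvd_iff_taylor (t : k) (p : k[X]) (n : ℕ) :
    (X - C t) ^ n ∣ p ↔ ∀ d < n, (taylor t p).coeff d = 0 := by
  rw [X_sub_C_pow_dvd_iff, X_pow_dvd_iff]
  rfl

/-- four coprime squares -/
lemma prod_pow_dvd {τ : Fin 4 → k} (hτ : Function.Injective τ) (m : ℕ) {p : k[X]}
    (h : ∀ i, (X - C (τ i)) ^ m ∣ p) : ∏ i, (X - C (τ i)) ^ m ∣ p := by
  refine Finset.prod_dvd_of_coprime ?_ fun i _ => h i
  intro i _ j _ hij
  exact (isCoprime_X_sub_C_of_isUnit_sub
    (sub_ne_zero.2 (hτ.ne hij)).isUnit).pow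

lemma eq_zero_of_pow_dvd {τ : Fin 4 → k} (hτ : Function.Injective τ) (m : ℕ) {p : k[X]}
    (h : ∀ i, (X - C (τ i)) ^ m ∣ p) (hp : p.degree < ((4 * m : ℕ) : WithBot ℕ)) : p = 0 := by
  have h1 := prod_pow_dvd hτ m h
  refine eq_zero_of_dvd_of_degree_lt h1 (lt_of_lt_of_le hp ?_)
  rw [degree_prod]
  simp [degree_pow, degree_X_sub_C]

lemma natDegree_le_of_lt_succ {p : k[X]} {n : ℕ} (h : p.degree < ((n + 1 : ℕ) : WithBot ℕ)) :
    p.natDegree ≤ n := by
  by_cases hp : p = 0
  · simp [hp]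
  rw [degree_eq_natDegree hp] at h
  have : p.natDegree < n + 1 := by exact_mod_cast h
  omega

instance instFinDegreeLT (n : ℕ) : FiniteDimensional k (degreeLT k n) :=
  Module.Finite.equiv (degreeLTEquiv k n).symm

lemma exists_notMem_four {V : Type*} [AddCommGroup V] [Module k V] [Infinite k]
    (p : Fin 4 → Submodule k V) (h : ∀ i, p i ≠ ⊤) : ∃ v, ∀ i, v ∉ p i := by
  by_contra hcon
  push Not at hcon
  have hcov : ⋃ i, (p i : Set V) = Set.univ := by
    rw [Set.eq_univ_iff_forall]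
    intro v
    obtain ⟨i, hi⟩ := hcon v
    exact Set.mem_iUnion.2 ⟨i, hi⟩
  obtain ⟨i, hi⟩ := Subspace.exists_eq_top_of_iUnion_eq_univ hcov
  exact h i hi

section pencil

variable (τ θ : Fin 4 → k)

/-- pairs `(A,B)` of polynomials of degree `< 5` -/
abbrev VP (k : Type*) [Field k] : Type _ := (degreeLT k 5) × (degreeLT k 5)

/-- the eight conditions -/
noncomputable def evP : VP k →ₗ[k] (Fin 4 → Fin 2 → k) where
  toFun v := fun i j => (taylor (τ i) ((v.1 : k[X]) * C (θ i) + (v.2 : k[X]))).coeff j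
  map_add' u v := by
    ext i j
    simp only [Prod.fst_add, Prod.snd_add, Submodule.coe_add, Pi.add_apply]
    rw [← coeff_add, ← map_add]
    congr 2
    ring
  map_smul' c v := by
    ext i j
    simp only [Prod.smul_fst, Prod.smul_snd, SetLike.val_smul, RingHom.id_apply, Pi.smul_apply]
    rw [← coeff_smul, ← map_smul]
    congr 2
    rw [smul_add, smul_mul_assoc]

lemma mem_ker_evP (v : VP k) : v ∈ LinearMap.ker (evP τ θ) ↔
    ∀ i, (X - C (τ i)) ^ 2 ∣ (v.1 : k[X]) * C (θ i) + (v.2 : k[X]) := by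
  rw [LinearMap.mem_ker]
  constructor
  · intro h i
    rw [pow_dvd_iff_taylor]
    intro d hd
    have := congrFun (congrFun h i) ⟨d, hd⟩
    simpa [evP] using this
  · intro h
    ext i j
    exact (pow_dvd_iff_taylor _ _ _).1 (h i) j j.2

lemma finrank_ker_evP : 2 ≤ finrank k (LinearMap.ker (evP τ θ)) := by
  have h1 := LinearMap.finrank_range_add_finrank_ker (evP τ θ)
  have h2 : finrank k (LinearMap.range (evP τ θ)) ≤ 8 := by
    refine (Submodule.finrank_le _).trans ?_
    simp [finrank_pi_fintype]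
  have h3 : finrank k (VP k) = 10 := by
    have : finrank k (degreeLT k 5) = 5 := by
      rw [(degreeLTEquiv k 5).finrank_eq]; simp
    rw [finrank_prod, this]
  omega

variable {τ θ}

lemma fst_ne_zero (hτ : Function.Injective τ) {v : VP k} (hv : v ∈ LinearMap.ker (evP τ θ))
    (h0 : v ≠ 0) : (v.1 : k[X]) ≠ 0 := by
  intro h1
  rw [mem_ker_evP] at hv
  have h2 : (v.2 : k[X]) = 0 := by
    refine eq_zero_of_pow_dvd hτ 2 (fun i => ?_) (lt_of_lt_of_le (mem_degreeLT.1 v.2.2) ?_)
    · simpa [h1] using hv i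
    · norm_cast
  apply h0
  ext1
  · exact Subtype.ext h1
  · exact Subtype.ext h2

/-- in the balanced case a common factor of `A` and `B` is one of the `t - τ_i` -/
lemma common_factor (hB : Bal τ θ) {v : VP k} (hv : v ∈ LinearMap.ker (evP τ θ)) (h0 : v ≠ 0)
    (hc : ¬ IsCoprime (v.1 : k[X]) (v.2 : k[X])) :
    ∃ i, (X - C (τ i)) ∣ (v.1 : k[X]) ∧ (X - C (τ i)) ∣ (v.2 : k[X]) := by
  classical
  have hne : ¬ ((v.1 : k[X]) = 0 ∧ (v.2 : k[X]) = 0) := by
    rintro ⟨h1, h2⟩
    exact h0 (by ext1 <;> apply Subtype.ext <;> assumption)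
  have hg : ¬ IsUnit (EuclideanDomain.gcd (v.1 : k[X]) (v.2 : k[X])) := by
    rwa [EuclideanDomain.gcd_isUnit_iff]
  have hg0 : EuclideanDomain.gcd (v.1 : k[X]) (v.2 : k[X]) ≠ 0 := by
    rw [Ne, EuclideanDomain.gcd_eq_zero_iff]; exact hne
  obtain ⟨π, hπ, hπd⟩ := WfDvdMonoid.exists_irreducible_factor hg hg0
  obtain ⟨a, ha⟩ := hπd.trans (EuclideanDomain.gcd_dvd_left (v.1 : k[X]) (v.2 : k[X]))
  obtain ⟨b, hb⟩ := hπd.trans (EuclideanDomain.gcd_dvd_right (v.1 : k[X]) (v.2 : k[X]))
  by_contra hcon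
  push Not at hcon
  have hnd : ∀ i, ¬ (X - C (τ i)) ∣ π := by
    intro i hi
    exact hcon i (hi.trans ⟨a, ha⟩) (hi.trans ⟨b, hb⟩)
  have hdeg : 1 ≤ π.natDegree := by
    exact Nat.one_le_iff_ne_zero.2 hπ.natDegree_pos.ne'
  have hsmall : ∀ c p : k[X], p = π * c → p.degree < ((5 : ℕ) : WithBot ℕ) →
      c.degree < ((4 : ℕ) : WithBot ℕ) := by
    intro c p hp hlt
    by_cases hc0 : c = 0
    · rw [hc0, degree_zero]; exact WithBot.bot_lt_coe _
    rw [hp, degree_mul, degree_eq_natDegree hπ.ne_zero, degree_eq_natDegree hc0] at hlt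
    rw [degree_eq_natDegree hc0]
    have : π.natDegree + c.natDegree < 5 := by exact_mod_cast hlt
    have : c.natDegree < 4 := by omega
    exact_mod_cast this
  have hmem : C a * X + C b ∈ WS τ θ 1 4 2 := by
    refine lin_mem_WS (hsmall a _ ha (mem_degreeLT.1 v.1.2))
      (hsmall b _ hb (mem_degreeLT.1 v.2.2)) fun i => ?_
    have h1 := (mem_ker_evP τ θ v).1 hv i
    rw [ha, hb, mul_assoc, ← mul_add] at h1
    exact (prime_X_sub_C (τ i)).pow_dvd_of_dvd_mul_left 2 (hnd i) h1
  have h3 := hB _ hmem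
  have ha0 : a = 0 := by
    have := congrArg (fun p => coeff p 1) h3
    simpa using this
  have hb0 : b = 0 := by
    have := congrArg (fun p => coeff p 0) h3
    simpa using this
  apply hne
  rw [ha, hb, ha0, hb0]
  simp

/-- the pairs divisible by `t - τ_i` -/
noncomputable def KI (τ θ : Fin 4 → k) (i : Fin 4) : Submodule k (LinearMap.ker (evP τ θ)) where
  carrier := {v | ((v : VP k).1 : k[X]).eval (τ i) = 0 ∧ ((v : VP k).2 : k[X]).eval (τ i) = 0}
  zero_mem' := by simp
  add_mem' := by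
    rintro a b ⟨h1, h2⟩ ⟨h3, h4⟩
    constructor <;> simp [h1, h2, h3, h4]
  smul_mem' := by
    rintro c a ⟨h1, h2⟩
    constructor <;> simp [h1, h2]

lemma KI_ne_top (hτ : Function.Injective τ) (hB : Bal τ θ) (i : Fin 4) : KI τ θ i ≠ ⊤ := by
  intro htop
  -- the functional: second Taylor coefficient of `A θ_i + B` at `τ_i`
  let ℓ : LinearMap.ker (evP τ θ) →ₗ[k] k :=
    { toFun := fun v => (taylor (τ i) (((v : VP k).1 : k[X]) * C (θ i) + ((v : VP k).2 : k[X]))).coeff 2
      map_add' := by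
        intro u v
        rw [← coeff_add, ← map_add]
        congr 2
        simp only [Submodule.coe_add, Prod.fst_add, Prod.snd_add]
        ring
      map_smul' := by
        intro c v
        simp only [RingHom.id_apply]
        rw [← coeff_smul, ← map_smul]
        congr 2
        simp only [SetLike.val_smul, Prod.smul_fst, Prod.smul_snd]
        rw [smul_add, smul_mul_assoc] }
  have hker : LinearMap.ker ℓ ≠ ⊥ := by
    refine LinearMap.ker_ne_bot_of_finrank_lt (K := k) (V := LinearMap.ker (evP τ θ)) (V₂ := k) (f := ℓ) ?_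
    have := finrank_ker_evP τ θ
    rw [finrank_self]; omega
  obtain ⟨w, hw, hw0⟩ := (Submodule.ne_bot_iff _).1 hker
  have hwK : w ∈ KI τ θ i := by rw [htop]; trivial
  obtain ⟨h1, h2⟩ := hwK
  have hmem := (mem_ker_evP τ θ (w : VP k)).1 w.2
  obtain ⟨a, ha⟩ : (X - C (τ i)) ∣ ((w : VP k).1 : k[X]) := dvd_iff_isRoot.2 h1
  obtain ⟨b, hb⟩ : (X - C (τ i)) ∣ ((w : VP k).2 : k[X]) := dvd_iff_isRoot.2 h2
  have hsmall : ∀ c p : k[X], p = (X - C (τ i)) * c → p.degree < ((5 : ℕ) : WithBot ℕ) →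
      c.degree < ((4 : ℕ) : WithBot ℕ) := by
    intro c p hp hlt
    by_cases hc0 : c = 0
    · rw [hc0, degree_zero]; exact WithBot.bot_lt_coe _
    rw [hp, degree_mul, degree_X_sub_C, degree_eq_natDegree hc0] at hlt
    rw [degree_eq_natDegree hc0]
    have : 1 + c.natDegree < 5 := by exact_mod_cast hlt
    have : c.natDegree < 4 := by omega
    exact_mod_cast this
  have hne : (X - C (τ i) : k[X]) ≠ 0 := X_sub_C_ne_zero _
  have hWS : C a * X + C b ∈ WS τ θ 1 4 2 := by
    refine lin_mem_WS (hsmall a _ ha (mem_degreeLT.1 (w : VP k).1.2))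
      (hsmall b _ hb (mem_degreeLT.1 (w : VP k).2.2)) fun j => ?_
    by_cases hij : j = i
    · subst hij
      have h3 : (X - C (τ j)) ^ 3 ∣ ((w : VP k).1 : k[X]) * C (θ j) + ((w : VP k).2 : k[X]) := by
        rw [pow_dvd_iff_taylor]
        intro d hd
        have hd2 := (pow_dvd_iff_taylor _ _ _).1 (hmem j)
        rcases Nat.lt_or_ge d 2 with hlt | hge
        · exact hd2 d hlt
        · obtain rfl : d = 2 := by omega
          exact hw
      rw [ha, hb, mul_assoc, ← mul_add, pow_succ' (X - C (τ j)) 2] at h3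
      exact (mul_dvd_mul_iff_left hne).1 h3
    · have h3 := hmem j
      rw [ha, hb, mul_assoc, ← mul_add] at h3
      refine (prime_X_sub_C (τ j)).pow_dvd_of_dvd_mul_left 2 ?_ h3
      rw [dvd_iff_isRoot, IsRoot, eval_sub, eval_X, eval_C, sub_eq_zero]
      exact hτ.ne hij
  have h3 := hB _ hWS
  have ha0 : a = 0 := by
    have := congrArg (fun p => coeff p 1) h3
    simpa using this
  have hb0 : b = 0 := by
    have := congrArg (fun p => coeff p 0) h3
    simpa using this
  apply hw0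
  apply Subtype.ext
  ext1
  · apply Subtype.ext; rw [ha, ha0]; simp
  · apply Subtype.ext; rw [hb, hb0]; simp

/-- **Pencil lemma.** -/
theorem exists_member [Infinite k] (hτ : Function.Injective τ) (hB : Bal τ θ) :
    ∃ A B : k[X], A ≠ 0 ∧ IsCoprime A B ∧ A.natDegree ≤ 4 ∧ B.natDegree ≤ 4 ∧
      ∀ i, (X - C (τ i)) ^ 2 ∣ A * C (θ i) + B := by
  classical
  obtain ⟨v, hv⟩ := exists_notMem_four (V := LinearMap.ker (evP τ θ)) (KI τ θ) (KI_ne_top hτ hB)
  have hv0 : (v : VP k) ≠ 0 := by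
    intro h
    apply hv 0
    have : v = 0 := Subtype.ext h
    rw [this]; exact Submodule.zero_mem _
  refine ⟨((v : VP k).1 : k[X]), ((v : VP k).2 : k[X]), fst_ne_zero hτ v.2 hv0, ?_, ?_, ?_,
    (mem_ker_evP τ θ _).1 v.2⟩
  · by_contra hc
    obtain ⟨i, h1, h2⟩ := common_factor hB v.2 hv0 hc
    exact hv i ⟨dvd_iff_isRoot.1 h1, dvd_iff_isRoot.1 h2⟩
  · exact natDegree_le_of_lt_succ (mem_degreeLT.1 (v : VP k).1.2)
  · exact natDegree_le_of_lt_succ (mem_degreeLT.1 (v : VP k).2.2)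

end pencil

/-! ### degree in `t` -/

lemma coeff_coeff_swap (h : k[X][X]) (x y : ℕ) :
    ((Bivariate.swap h).coeff x).coeff y = (h.coeff y).coeff x := by
  induction h using Polynomial.induction_on' with
  | add p q hp hq => simp [hp, hq]
  | monomial n f =>
    induction f using Polynomial.induction_on' with
    | add p q hp hq =>
      rw [(monomial n).map_add]
      simp only [map_add, coeff_add, hp, hq]
    | monomial m r =>
      rw [Bivariate.swap_monomial_monomial]
      simp only [coeff_monomial]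
      by_cases h1 : m = x <;> by_cases h2 : n = y <;> simp [h1, h2, coeff_monomial]

lemma tdeg_lt_iff (h : k[X][X]) (T : ℕ) :
    (∀ y, (h.coeff y).degree < (T : WithBot ℕ)) ↔
      (Bivariate.swap h).degree < (T : WithBot ℕ) := by
  rw [degree_lt_iff_coeff_zero]
  constructor
  · intro H m hm
    ext y
    rw [coeff_coeff_swap, coeff_zero]
    exact (degree_lt_iff_coeff_zero _ _).1 (H y) m hm
  · intro H y
    rw [degree_lt_iff_coeff_zero]
    intro m hm
    rw [← coeff_coeff_swap, H m hm, coeff_zero]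

lemma swap_C_natDegree (p : k[X]) : (Bivariate.swap (C p : k[X][X])).natDegree = p.natDegree := by
  rw [Bivariate.swap_C]
  exact natDegree_map_eq_of_injective (C_injective) p

lemma swap_ne_zero {h : k[X][X]} (hh : h ≠ 0) : Bivariate.swap h ≠ 0 := by
  intro h0
  apply hh
  have := congrArg Bivariate.swap h0
  rwa [Bivariate.swap_swap_apply, map_zero] at this

/-- degree in `t` of a factor -/
lemma tdeg_of_mul {g h : k[X][X]} {T e : ℕ} (hg : g ≠ 0)
    (he : (Bivariate.swap g).natDegree = e)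
    (H : ∀ y, ((g * h).coeff y).degree < (T : WithBot ℕ)) :
    ∀ y, (h.coeff y).degree < ((T - e : ℕ) : WithBot ℕ) := by
  rw [tdeg_lt_iff] at H ⊢
  by_cases hh : h = 0
  · rw [hh, map_zero, degree_zero]; exact WithBot.bot_lt_coe _
  have h1 := swap_ne_zero hg
  have h2 := swap_ne_zero hh
  rw [map_mul, degree_mul, degree_eq_natDegree h1, degree_eq_natDegree h2, he] at H
  rw [degree_eq_natDegree h2]
  have : e + (Bivariate.swap h).natDegree < T := by exact_mod_cast H
  have : (Bivariate.swap h).natDegree < T - e := by omega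
  exact_mod_cast this

lemma tdeg_mul {g h : k[X][X]} {T T' : ℕ}
    (Hg : ∀ y, (g.coeff y).degree < ((T + 1 : ℕ) : WithBot ℕ))
    (Hh : ∀ y, (h.coeff y).degree < (T' : WithBot ℕ)) :
    ∀ y, ((g * h).coeff y).degree < ((T + T' : ℕ) : WithBot ℕ) := by
  rw [tdeg_lt_iff] at *
  by_cases hg : g = 0
  · rw [hg]; simp
  by_cases hh : h = 0
  · rw [hh]; simp
  have h1 := swap_ne_zero hg
  have h2 := swap_ne_zero hh
  rw [degree_eq_natDegree h1] at Hg
  rw [degree_eq_natDegree h2] at Hh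
  have h3 : (Bivariate.swap g).natDegree < T + 1 := by exact_mod_cast Hg
  have h4 : (Bivariate.swap h).natDegree < T' := by exact_mod_cast Hh
  rw [map_mul, degree_mul, degree_eq_natDegree h1, degree_eq_natDegree h2]
  have : (Bivariate.swap g).natDegree + (Bivariate.swap h).natDegree < T + T' := by omega
  exact_mod_cast this

section main

variable {τ θ : Fin 4 → k}

lemma not_wo_three {τ θ : k} {A B : k[X]} (hAB : IsCoprime A B)
    (hd : (X - C τ) ^ 2 ∣ A * C θ + B) : ¬ WO τ θ 3 (C A * X + C B) := by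
  intro H
  rw [wo_iff] at H
  have h1 := H 1
  have h2 : (taylor (C θ) (C A * X + C B : k[X][X])).coeff 1 = A := by
    rw [map_add, taylor_C_C, taylor_mul, taylor_C_C, taylor_X]
    simp
  rw [h2] at h1
  have h3 : (X - C τ) ∣ A := by simpa using h1
  have h4 : (X - C τ) ∣ A * C θ + B := (dvd_pow_self _ two_ne_zero).trans hd
  have h5 : (X - C τ) ∣ B := (dvd_add_right (h3.mul_right _)).1 h4
  exact not_isUnit_X_sub_C τ (hAB.isUnit_of_dvd' h3 h5)

/-- **`W(s,4s-1,2s) = 0` on balanced slices.** -/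
theorem WS_eq_zero [Infinite k] (hτ : Function.Injective τ) (hB : Bal τ θ) (s : ℕ) :
    ∀ h ∈ WS τ θ s (4 * s) (2 * s), h = 0 := by
  obtain ⟨A, B, hA, hAB, hA4, hB4, hd⟩ := exists_member hτ hB
  induction s with
  | zero =>
    intro h hh
    ext1 y
    have := hh.2.1 y
    rw [mul_zero, degree_lt_iff_coeff_zero] at this
    ext1 x
    rw [this x (Nat.zero_le _)]; simp
  | succ s ih =>
    intro h hh
    set E : k[X][X] := C A * X + C B with hE
    have hE0 : E ≠ 0 := by
      intro h0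
      have := congrArg (fun p => coeff p 1) h0
      simp [hE] at this
      exact hA this
    have hEdvd : E ∣ h := by
      refine dvd_of_HE_eq_zero (s := s + 1) hh.1 hA hAB ?_
      refine eq_zero_of_pow_dvd hτ (2 * (s + 1)) (fun i => pow_dvd_HE hh.1 B hA (hh.2.2 i)
        (le_refl 2) (hd i)) ?_
      have := degree_HE_lt (s := s + 1) (h := h) (T := 4 * (s + 1)) (D := 4) hh.2.1 hA4 hB4
      refine lt_of_lt_of_le this ?_
      norm_cast
      omega
    obtain ⟨h', rfl⟩ := hEdvd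
    have hdeg4 : 4 ≤ (Bivariate.swap E).natDegree := by
      by_contra hlt
      push Not at hlt
      apply hE0
      apply hB
      refine ⟨natDegree_linear_le, ?_, fun i => (wo_two_iff _ _ _ _).2 (hd i)⟩
      rw [tdeg_lt_iff, degree_eq_natDegree (swap_ne_zero hE0)]
      exact_mod_cast hlt
    by_cases hh' : h' = 0
    · rw [hh', mul_zero]
    have h1 : h' ∈ WS τ θ s (4 * s) (2 * s) := by
      refine ⟨?_, fun y => ?_, fun i => ?_⟩
      · have h2 := hh.1
        rw [natDegree_mul hE0 hh', hE, natDegree_linear hA] at h2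
        omega
      · refine lt_of_lt_of_le (tdeg_of_mul hE0 rfl hh.2.1 y) ?_
        norm_cast
        omega
      · have := (hh.2.2 i).of_mul (μ := 2) (not_wo_three hAB (hd i))
        exact this.mono (by omega)
    rw [ih h' h1, mul_zero]

/-- **Dimension bound.** -/
theorem finrank_WS_le [Infinite k] (hτ : Function.Injective τ) (hB : Bal τ θ) (s T : ℕ) :
    FiniteDimensional k (WS τ θ s T (2 * s)) ∧
      finrank k (WS τ θ s T (2 * s)) ≤ (s + 1) * (T - 4 * s) := by
  classical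
  obtain ⟨t0, ht0⟩ := Infinite.exists_notMem_finset (Finset.univ.image τ)
  have ht : ∀ i, t0 ≠ τ i := by
    intro i hi
    exact ht0 (Finset.mem_image.2 ⟨i, Finset.mem_univ _, hi.symm⟩)
  let J : WS τ θ s T (2 * s) →ₗ[k] (Fin (s + 1) → Fin (T - 4 * s) → k) :=
    { toFun := fun h y x => (taylor t0 ((h : k[X][X]).coeff y)).coeff x
      map_add' := by
        intro u v; ext y x
        simp
      map_smul' := by
        intro c v; ext y x
        simp }
  have hJ : Function.Injective J := by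
    rw [injective_iff_map_eq_zero]
    rintro ⟨h, hh⟩ h0
    apply Subtype.ext
    show h = 0
    have h1 : ∀ y, (X - C t0) ^ (T - 4 * s) ∣ h.coeff y := by
      intro y
      rcases Nat.lt_or_ge y (s + 1) with hy | hy
      · rw [pow_dvd_iff_taylor]
        intro d hd
        have := congrFun (congrFun h0 ⟨y, hy⟩) ⟨d, hd⟩
        simpa [J] using this
      · rw [coeff_eq_zero_of_natDegree_lt (lt_of_le_of_lt hh.1 hy)]; exact dvd_zero _
    have h2 : C ((X - C t0) ^ (T - 4 * s)) ∣ h := (C_dvd_iff_dvd_coeff _ _).2 h1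
    obtain ⟨h', hh'⟩ := h2
    have hC0 : (C ((X - C t0) ^ (T - 4 * s)) : k[X][X]) ≠ 0 :=
      C_ne_zero.2 (pow_ne_zero _ (X_sub_C_ne_zero _))
    have h3 : h' ∈ WS τ θ s (4 * s) (2 * s) := by
      rw [hh'] at hh
      refine ⟨?_, fun y => ?_, fun i => ?_⟩
      · have := hh.1
        by_cases hz : h' = 0
        · simp [hz]
        rw [natDegree_mul hC0 hz, natDegree_C] at this
        omega
      · have := tdeg_of_mul hC0 (swap_C_natDegree _) hh.2.1 y
        rw [natDegree_pow, natDegree_X_sub_C, mul_one] at this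
        refine lt_of_lt_of_le this ?_
        norm_cast
        omega
      · have := (hh.2.2 i).of_mul (μ := 0) (not_wo_one_of_eval (θ i) (ht i) _)
        simpa using this
    rw [hh', WS_eq_zero hτ hB s h' h3, mul_zero]
  have : FiniteDimensional k (WS τ θ s T (2 * s)) := FiniteDimensional.of_injective J hJ
  refine ⟨this, ?_⟩
  have := LinearMap.finrank_le_finrank_of_injective hJ
  simpa [finrank_pi_fintype] using this

/-- dividing out the `t - τ_i` -/
lemma exists_div (hτ : Function.Injective τ) {s κ : ℕ} {h : k[X][X]} (hs : h.natDegree ≤ s)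
    (H : ∀ i, WO (τ i) (θ i) (2 * s + κ) h) :
    ∃ h', h = C (∏ i, (X - C (τ i)) ^ κ) * h' ∧ ∀ i, WO (τ i) (θ i) (2 * s) h' := by
  have h1 : ∀ i y, (X - C (τ i)) ^ κ ∣ h.coeff y := by
    intro i
    have h2 : C ((X - C (τ i)) ^ κ) ∣ taylor (C (θ i)) h := by
      rw [C_dvd_iff_dvd_coeff]
      intro y
      rcases Nat.lt_or_ge s y with hy | hy
      · rw [coeff_eq_zero_of_natDegree_lt (by rw [natDegree_taylor]; omega)]; exact dvd_zero _
      · exact (pow_dvd_pow _ (by omega)).trans ((wo_iff _ _ _ _).1 (H i) y)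
    have h3 : C ((X - C (τ i)) ^ κ) ∣ h := by
      obtain ⟨u, hu⟩ := h2
      refine ⟨taylor (-C (θ i)) u, ?_⟩
      have := congrArg (taylor (-C (θ i))) hu
      rw [taylor_taylor, neg_add_cancel, taylor_zero, taylor_mul, taylor_C] at this
      exact this
    exact (C_dvd_iff_dvd_coeff _ _).1 h3
  have h4 : C (∏ i, (X - C (τ i)) ^ κ) ∣ h :=
    (C_dvd_iff_dvd_coeff _ _).2 fun y => prod_pow_dvd hτ κ fun i => h1 i y
  obtain ⟨h', rfl⟩ := h4
  refine ⟨h', rfl, fun i => ?_⟩
  have h5 : ¬ WO (τ i) (θ i) (κ + 1) (C (∏ i, (X - C (τ i)) ^ κ)) := by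
    rw [wo_C_iff, ← Finset.mul_prod_erase _ _ (Finset.mem_univ i), pow_succ,
      mul_dvd_mul_iff_left (pow_ne_zero _ (X_sub_C_ne_zero _)), dvd_iff_isRoot, IsRoot,
      eval_prod]
    rw [Finset.prod_eq_zero_iff]
    rintro ⟨j, hj, h0⟩
    rw [eval_pow, eval_sub, eval_X, eval_C] at h0
    exact (sub_ne_zero.2 (hτ.ne (Finset.ne_of_mem_erase hj).symm)) (pow_eq_zero_iff'.1 h0).1
  have := (H i).of_mul h5
  simpa using this

end main

end Pool.Agent.Lib.SQF
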