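import Pool.Agent.Lib.SQF.WCal

/-!
# The dimension bound on all slices (section S6, 6.6; Lemma 6' of helper70)

`exists_E3`: on an unbalanced slice there is a coprime pair `A, B` of degree `≤ 3` with
`A n + B` of order `≥ 2` at the four points, of exact degree `3` in `t`.
`finrank_WS_le'`: `dim WS s T (2s) ≤ (s+1)(T-4s)` for all slices, if `5 s ≤ T`.
-/

set_option autoImplicit false

open Polynomial Finset Module

namespace Pool.Agent.Lib.SQF

variable {k : Type*} [Field k]

lemma finite_WS (τ θ : Fin 4 → k) (s T o : ℕ) : FiniteDimensional k (WS τ θ s T o) := by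
  let J : WS τ θ s T o →ₗ[k] (Fin (s + 1) → degreeLT k T) :=
    { toFun := fun h y => ⟨(h : k[X][X]).coeff y, mem_degreeLT.2 (h.2.2.1 y)⟩
      map_add' := by intro u v; ext y; simp
      map_smul' := by intro c v; ext y; simp }
  have hJ : Function.Injective J := by
    rw [injective_iff_map_eq_zero]
    rintro ⟨h, hh⟩ h0
    apply Subtype.ext
    show h = 0
    ext1 y
    rcases Nat.lt_or_ge y (s + 1) with hy | hy
    · have := congrArg Subtype.val (congrFun h0 ⟨y, hy⟩)
      simpa [J] using this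
    · rw [coeff_eq_zero_of_natDegree_lt (lt_of_le_of_lt hh.1 hy)]; simp
  exact FiniteDimensional.of_injective J hJ

lemma dvd_wronskian {τ θ : k} {A B : k[X]} (h : (X - C τ) ^ 2 ∣ A * C θ + B) :
    (X - C τ) ∣ wronskian A B := by
  have h1 : (X - C τ) ∣ derivative (A * C θ + B) := by
    simpa using pow_sub_one_dvd_derivative_of_pow_dvd h
  have h2 : (X - C τ) ∣ A * C θ + B := (dvd_pow_self _ two_ne_zero).trans h
  have h3 : wronskian A B = A * derivative (A * C θ + B) - derivative A * (A * C θ + B) := by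
    simp only [wronskian, derivative_add, derivative_mul, derivative_C]
    ring
  rw [h3]
  exact dvd_sub (h1.mul_left _) (h2.mul_left _)

variable {τ θ : Fin 4 → k}

lemma prod_dvd_wronskian (hτ : Function.Injective τ) {A B : k[X]}
    (hd : ∀ i, (X - C (τ i)) ^ 2 ∣ A * C (θ i) + B) : ∏ i, (X - C (τ i)) ∣ wronskian A B := by
  have := prod_pow_dvd hτ 1 (p := wronskian A B) fun i => by
    rw [pow_one]; exact dvd_wronskian (hd i)
  simpa using this

/-- the Wronskian does not vanish -/
lemma wronskian_ne_zero [CharZero k] (hτ : Function.Injective τ) (hθ : Function.Injective θ)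
    {A B : k[X]} (hA : A.natDegree ≤ 5) (hB : B.natDegree ≤ 5) (h0 : ¬ (A = 0 ∧ B = 0))
    (hd : ∀ i, (X - C (τ i)) ^ 2 ∣ A * C (θ i) + B) : wronskian A B ≠ 0 := by
  classical
  intro hw
  set g := EuclideanDomain.gcd A B with hg
  have hg0 : g ≠ 0 := by
    rw [hg, Ne, EuclideanDomain.gcd_eq_zero_iff]; exact h0
  obtain ⟨a, ha⟩ := EuclideanDomain.gcd_dvd_left A B
  obtain ⟨b, hb⟩ := EuclideanDomain.gcd_dvd_right A B
  rw [← hg] at ha hb
  have hcop : IsCoprime a b := by
    have h1 := EuclideanDomain.gcd_eq_gcd_ab A B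
    rw [← hg] at h1
    refine ⟨EuclideanDomain.gcdA A B, EuclideanDomain.gcdB A B, ?_⟩
    apply mul_left_cancel₀ hg0
    calc g * (EuclideanDomain.gcdA A B * a + EuclideanDomain.gcdB A B * b)
        = (g * a) * EuclideanDomain.gcdA A B + (g * b) * EuclideanDomain.gcdB A B := by ring
      _ = A * EuclideanDomain.gcdA A B + B * EuclideanDomain.gcdB A B := by rw [← ha, ← hb]
      _ = g * 1 := by rw [← h1, mul_one]
  have hw' : wronskian a b = 0 := by
    have : wronskian A B = g ^ 2 * wronskian a b := by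
      rw [ha, hb]
      simp only [wronskian, derivative_mul]
      ring
    rw [this] at hw
    exact (mul_eq_zero.1 hw).resolve_left (pow_ne_zero _ hg0)
  rw [hcop.wronskian_eq_zero_iff] at hw'
  obtain ⟨ha', hb'⟩ := hw'
  obtain ⟨α, hα⟩ : ∃ α, a = C α := ⟨_, eq_C_of_derivative_eq_zero ha'⟩
  obtain ⟨β, hβ⟩ : ∃ β, b = C β := ⟨_, eq_C_of_derivative_eq_zero hb'⟩
  -- at most one `i` with `α θ_i + β = 0`
  have hgd : g.natDegree ≤ 5 := by
    by_cases hα0 : α = 0
    · have hβ0 : β ≠ 0 := by
        rintro rfl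
        apply h0
        rw [ha, hb, hα, hβ, hα0]; simp
      rw [hb, hβ, mul_comm, natDegree_C_mul hβ0] at hB
      exact hB
    · rw [ha, hα, mul_comm, natDegree_C_mul hα0] at hA
      exact hA
  have hdv : ∀ i, α * θ i + β ≠ 0 → (X - C (τ i)) ^ 2 ∣ g := by
    intro i hi
    have h1 := hd i
    rw [ha, hb, hα, hβ, mul_assoc, ← mul_add, ← C_mul, ← C_add] at h1
    have hu : IsUnit (C (α * θ i + β) : k[X]) := isUnit_C.2 (isUnit_iff_ne_zero.2 hi)
    exact (hu.dvd_mul_right).1 h1
  have hcard : 3 ≤ (univ.filter fun i : Fin 4 => α * θ i + β ≠ 0).card := by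
    by_contra hlt
    push Not at hlt
    have h4 : (univ.filter fun i : Fin 4 => α * θ i + β ≠ 0).card +
        (univ.filter fun i : Fin 4 => ¬ (α * θ i + β ≠ 0)).card = 4 := by
      rw [Finset.card_filter_add_card_filter_not]; simp
    have h2 : 1 < (univ.filter fun i : Fin 4 => ¬ (α * θ i + β ≠ 0)).card := by omega
    obtain ⟨i, hi, j, hj, hij⟩ := Finset.one_lt_card.1 h2
    simp only [ne_eq, not_not, mem_filter, mem_univ, true_and] at hi hj
    have h5 : α * (θ i - θ j) = 0 := by linear_combination hi - hj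
    rcases mul_eq_zero.1 h5 with h6 | h6
    · rw [h6] at hi
      have : β = 0 := by simpa using hi
      apply h0
      rw [ha, hb, hα, hβ, h6, this]; simp
    · exact hij (hθ (sub_eq_zero.1 h6))
  have hprod : ∏ i ∈ univ.filter (fun i : Fin 4 => α * θ i + β ≠ 0), (X - C (τ i)) ^ 2 ∣ g := by
    refine Finset.prod_dvd_of_coprime ?_ fun i hi => hdv i (mem_filter.1 hi).2
    intro i _ j _ hij
    exact (isCoprime_X_sub_C_of_isUnit_sub (sub_ne_zero.2 (hτ.ne hij)).isUnit).pow
  have h7 := natDegree_le_of_dvd hprod hg0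
  rw [natDegree_prod_of_monic _ _ fun i _ => (monic_X_sub_C _).pow 2] at h7
  simp only [natDegree_pow, natDegree_X_sub_C, mul_one, sum_const, smul_eq_mul] at h7
  omega

lemma natDegree_wronskian_le {A B : k[X]} {d : ℕ} (hd : 1 ≤ d) (hA : A.natDegree ≤ d)
    (hB : B.natDegree ≤ d) : (wronskian A B).natDegree ≤ 2 * d - 2 := by
  obtain ⟨e, rfl⟩ : ∃ e, d = e + 1 := ⟨d - 1, by omega⟩
  have hA' : (derivative A).natDegree ≤ e := (natDegree_derivative_le A).trans (by omega)
  have hB' : (derivative B).natDegree ≤ e := (natDegree_derivative_le B).trans (by omega)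
  have h1 : (wronskian A B).natDegree ≤ (e + 1) + e := by
    rw [wronskian]
    refine (natDegree_sub_le _ _).trans (max_le ?_ ?_)
    · exact natDegree_mul_le.trans (by omega)
    · exact natDegree_mul_le.trans (by omega)
  have h2 : (wronskian A B).coeff ((e + 1) + e) = 0 := by
    rw [wronskian, coeff_sub, coeff_mul_add_eq_of_natDegree_le hA hB', mul_comm (derivative A),
      coeff_mul_add_eq_of_natDegree_le hB hA', coeff_derivative, coeff_derivative]
    ring
  by_contra hlt
  push Not at hlt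
  have h3 : (wronskian A B).natDegree = (e + 1) + e := by omega
  have h4 : (wronskian A B).leadingCoeff = 0 := by rw [leadingCoeff, h3, h2]
  rw [leadingCoeff_eq_zero] at h4
  rw [h4] at h3
  simp at h3
  omega

lemma coprime_of_degree_three [CharZero k] (hτ : Function.Injective τ)
    (hθ : Function.Injective θ) {A B : k[X]} (hA : A.natDegree ≤ 3) (hB : B.natDegree ≤ 3)
    (h0 : ¬ (A = 0 ∧ B = 0)) (hd : ∀ i, (X - C (τ i)) ^ 2 ∣ A * C (θ i) + B) :
    IsCoprime A B := by
  classical
  have hw := wronskian_ne_zero hτ hθ (by omega) (by omega) h0 hd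
  have hdeg := natDegree_wronskian_le (by norm_num : 1 ≤ 3) hA hB
  obtain ⟨c, hc⟩ := prod_dvd_wronskian hτ hd
  have hc0 : c ≠ 0 := by
    rintro rfl
    rw [mul_zero] at hc
    exact hw hc
  have hmon : (∏ i, (X - C (τ i))).Monic := monic_prod_of_monic _ _ fun i _ => monic_X_sub_C _
  have hpd : (∏ i, (X - C (τ i))).natDegree = 4 := by
    rw [natDegree_prod_of_monic _ _ fun i _ => monic_X_sub_C _]
    simp
  have hcd : c.natDegree = 0 := by
    have := hdeg
    rw [hc, hmon.natDegree_mul' hc0, hpd] at this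
    omega
  by_contra hcop
  have hg : ¬ IsUnit (EuclideanDomain.gcd A B) := by
    rwa [EuclideanDomain.gcd_isUnit_iff]
  have hg0 : EuclideanDomain.gcd A B ≠ 0 := by
    rw [Ne, EuclideanDomain.gcd_eq_zero_iff]; exact h0
  obtain ⟨π, hπ, hπd⟩ := WfDvdMonoid.exists_irreducible_factor hg hg0
  obtain ⟨a, ha⟩ := hπd.trans (EuclideanDomain.gcd_dvd_left A B)
  obtain ⟨b, hb⟩ := hπd.trans (EuclideanDomain.gcd_dvd_right A B)
  have h1 : π * π ∣ wronskian A B := by
    refine ⟨wronskian a b, ?_⟩
    rw [ha, hb]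
    simp only [wronskian, derivative_mul]
    ring
  have hsq : Squarefree (∏ i, (X - C (τ i))) :=
    (separable_prod_X_sub_C_iff.2 hτ).squarefree
  have hcu : IsUnit c := by
    rw [eq_C_of_natDegree_eq_zero hcd]
    refine isUnit_C.2 (isUnit_iff_ne_zero.2 ?_)
    intro h
    apply hc0
    rw [eq_C_of_natDegree_eq_zero hcd, h, C_0]
  rw [hc] at h1
  have h2 : π * π ∣ ∏ i, (X - C (τ i)) := (hcu.dvd_mul_right).1 h1
  exact hπ.not_isUnit (hsq _ h2)

/-- **Unbalanced slices.** -/
theorem exists_E3 [CharZero k] (hτ : Function.Injective τ) (hθ : Function.Injective θ)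
    (hB : ¬ Bal τ θ) :
    ∃ A B : k[X], A ≠ 0 ∧ IsCoprime A B ∧ A.natDegree ≤ 3 ∧ B.natDegree ≤ 3 ∧
      (∀ i, (X - C (τ i)) ^ 2 ∣ A * C (θ i) + B) ∧
      3 ≤ (Bivariate.swap (C A * X + C B : k[X][X])).natDegree := by
  rw [Bal] at hB
  push Not at hB
  obtain ⟨h, hh, h0⟩ := hB
  have hh1 := hh.1
  have hlin : h = C (h.coeff 1) * X + C (h.coeff 0) := eq_X_add_C_of_natDegree_le_one hh1
  set A := h.coeff 1 with hA
  set B := h.coeff 0 with hBd
  have hd : ∀ i, (X - C (τ i)) ^ 2 ∣ A * C (θ i) + B := by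
    intro i
    have := hh.2.2 i
    rw [hlin] at this
    exact (wo_two_iff _ _ _ _).1 this
  have hA3 : A.natDegree ≤ 3 := natDegree_le_of_lt_succ (hh.2.1 1)
  have hB3 : B.natDegree ≤ 3 := natDegree_le_of_lt_succ (hh.2.1 0)
  have hne : ¬ (A = 0 ∧ B = 0) := by
    rintro ⟨h1, h2⟩
    apply h0
    rw [hlin, h1, h2]; simp
  have hcop := coprime_of_degree_three hτ hθ hA3 hB3 hne hd
  have hw := wronskian_ne_zero hτ hθ (by omega) (by omega) hne hd
  refine ⟨A, B, ?_, hcop, hA3, hB3, hd, ?_⟩
  · intro hA0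
    apply hw
    simp [wronskian, hA0]
  · by_contra hlt
    push Not at hlt
    have hAd : A.natDegree ≤ 2 ∧ B.natDegree ≤ 2 := by
      have h1 : (Bivariate.swap h).degree < ((3 : ℕ) : WithBot ℕ) := by
        rw [← hlin] at hlt
        rw [degree_eq_natDegree (swap_ne_zero h0)]
        exact_mod_cast hlt
      rw [← tdeg_lt_iff] at h1
      exact ⟨natDegree_le_of_lt_succ (h1 1), natDegree_le_of_lt_succ (h1 0)⟩
    have hdeg := natDegree_wronskian_le (by norm_num : 1 ≤ 2) hAd.1 hAd.2
    have h2 := natDegree_le_of_dvd (prod_dvd_wronskian hτ hd) hw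
    rw [natDegree_prod_of_monic _ _ fun i _ => monic_X_sub_C _] at h2
    simp at h2
    omega

/-- substitution as a linear map -/
noncomputable def HEl (s : ℕ) (A B : k[X]) : k[X][X] →ₗ[k] k[X] where
  toFun h := HE s h A B
  map_add' u v := by
    rw [HE, HE, HE, ← Finset.sum_add_distrib]
    refine Finset.sum_congr rfl fun y _ => ?_
    rw [coeff_add]; ring
  map_smul' c u := by
    rw [HE, HE, RingHom.id_apply, Finset.smul_sum]
    refine Finset.sum_congr rfl fun y _ => ?_
    rw [coeff_smul, smul_mul_assoc, smul_mul_assoc]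

lemma finrank_inf_ker_add_map' {V W : Type*} [AddCommGroup V] [Module k V] [AddCommGroup W]
    [Module k W] (f : V →ₗ[k] W) (A : Submodule k V) [Module.Finite k A] :
    Module.finrank k ↥(A ⊓ LinearMap.ker f) + Module.finrank k ↥(A.map f) = Module.finrank k A := by
  have h1 := LinearMap.finrank_range_add_finrank_ker (f.domRestrict A)
  have h2 : LinearMap.range (f.domRestrict A) = A.map f := by
    rw [LinearMap.range_domRestrict]
  have h3 : Module.finrank k ↥(LinearMap.ker (f.domRestrict A)) =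
      Module.finrank k ↥(A ⊓ LinearMap.ker f) := by
    have h4 : LinearMap.ker (f.domRestrict A) = Submodule.comap A.subtype (LinearMap.ker f) := by
      rw [LinearMap.ker_domRestrict]
    rw [h4, ← Submodule.finrank_map_subtype_eq A (Submodule.comap A.subtype (LinearMap.ker f)),
      Submodule.map_comap_subtype]
  rw [h2, h3] at h1
  omega

/-- dimension bound on slices with a member of degree `3` -/
theorem finrank_WS_le_three (hτ : Function.Injective τ) {A B : k[X]} (hA : A ≠ 0)
    (hAB : IsCoprime A B) (hA3 : A.natDegree ≤ 3) (hB3 : B.natDegree ≤ 3)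
    (hd : ∀ i, (X - C (τ i)) ^ 2 ∣ A * C (θ i) + B)
    (h3 : 3 ≤ (Bivariate.swap (C A * X + C B : k[X][X])).natDegree) (s : ℕ) :
    ∀ T, 5 * s ≤ T → finrank k (WS τ θ s T (2 * s)) ≤ (s + 1) * (T - 4 * s) := by
  set E : k[X][X] := C A * X + C B with hE
  have hE0 : E ≠ 0 := by
    intro h0
    have := congrArg (fun p => coeff p 1) h0
    simp [hE] at this
    exact hA this
  induction s with
  | zero =>
    intro T _
    have : FiniteDimensional k (WS τ θ 0 T (2 * 0)) := finite_WS _ _ _ _ _
    let J : WS τ θ 0 T (2 * 0) →ₗ[k] degreeLT k T :=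
      { toFun := fun h => ⟨(h : k[X][X]).coeff 0, mem_degreeLT.2 (h.2.2.1 0)⟩
        map_add' := by intro u v; ext y; simp
        map_smul' := by intro c v; ext y; simp }
    have hJ : Function.Injective J := by
      rw [injective_iff_map_eq_zero]
      rintro ⟨h, hh⟩ h0
      apply Subtype.ext
      show h = 0
      have h1 : h = C (h.coeff 0) := eq_C_of_natDegree_le_zero hh.1
      have h2 := congrArg Subtype.val h0
      rw [h1]
      have h4 : h.coeff 0 = 0 := by simpa [J] using h2
      rw [h4, C_0]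
    have := LinearMap.finrank_le_finrank_of_injective hJ
    rw [(degreeLTEquiv k T).finrank_eq] at this
    simpa using this
  | succ s ih =>
    intro T hT
    have hfin : FiniteDimensional k (WS τ θ (s + 1) T (2 * (s + 1))) := finite_WS _ _ _ _ _
    have hfin' : FiniteDimensional k (WS τ θ s (T - 3) (2 * s)) := finite_WS _ _ _ _ _
    have h1 := finrank_inf_ker_add_map' (HEl (s + 1) A B) (WS τ θ (s + 1) T (2 * (s + 1)))
    -- the kernel
    have hker : WS τ θ (s + 1) T (2 * (s + 1)) ⊓ LinearMap.ker (HEl (s + 1) A B) ≤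
        (WS τ θ s (T - 3) (2 * s)).map (LinearMap.mulLeft k E) := by
      rintro h ⟨hh, hk⟩
      have hdv : E ∣ h := dvd_of_HE_eq_zero hh.1 hA hAB hk
      obtain ⟨h', rfl⟩ := hdv
      refine ⟨h', ?_, rfl⟩
      by_cases hh' : h' = 0
      · rw [hh']; exact Submodule.zero_mem _
      refine ⟨?_, fun y => ?_, fun i => ?_⟩
      · have h2 := hh.1
        rw [natDegree_mul hE0 hh', hE, natDegree_linear hA] at h2
        omega
      · refine lt_of_lt_of_le (tdeg_of_mul hE0 rfl hh.2.1 y) ?_
        norm_cast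
        omega
      · have := (hh.2.2 i).of_mul (μ := 2) (not_wo_three hAB (hd i))
        exact this.mono (by omega)
    have hk2 : finrank k ↥(WS τ θ (s + 1) T (2 * (s + 1)) ⊓ LinearMap.ker (HEl (s + 1) A B)) ≤
        (s + 1) * (T - 3 - 4 * s) := by
      refine (Submodule.finrank_mono hker).trans ?_
      exact (Submodule.finrank_map_le _ _).trans (ih (T - 3) (by omega))
    -- the range
    have hran : (WS τ θ (s + 1) T (2 * (s + 1))).map (HEl (s + 1) A B) ≤
        (degreeLT k (T - 5 * (s + 1))).map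
          (LinearMap.mulLeft k (∏ i, (X - C (τ i)) ^ (2 * (s + 1)))) := by
      rintro _ ⟨h, hh, rfl⟩
      have hdv : ∏ i, (X - C (τ i)) ^ (2 * (s + 1)) ∣ HE (s + 1) h A B :=
        prod_pow_dvd hτ _ fun i => pow_dvd_HE hh.1 B hA (hh.2.2 i) (le_refl 2) (hd i)
      have hdeg := degree_HE_lt (s := s + 1) (h := h) (T := T) (D := 3) hh.2.1 hA3 hB3
      obtain ⟨u, hu⟩ := hdv
      refine ⟨u, ?_, hu.symm⟩
      rw [SetLike.mem_coe, mem_degreeLT]
      by_cases hu0 : u = 0
      · rw [hu0, degree_zero]; exact WithBot.bot_lt_coe _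
      have hmon : (∏ i, (X - C (τ i)) ^ (2 * (s + 1))).Monic :=
        monic_prod_of_monic _ _ fun i _ => (monic_X_sub_C _).pow _
      have hnd : (∏ i, (X - C (τ i)) ^ (2 * (s + 1))).natDegree = 4 * (2 * (s + 1)) := by
        rw [natDegree_prod_of_monic _ _ fun i _ => (monic_X_sub_C _).pow _]
        simp
      have hne : (∏ i, (X - C (τ i)) ^ (2 * (s + 1))) * u ≠ 0 := mul_ne_zero hmon.ne_zero hu0
      rw [hu, degree_eq_natDegree hne, hmon.natDegree_mul' hu0, hnd] at hdeg
      rw [degree_eq_natDegree hu0]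
      have h4 : 4 * (2 * (s + 1)) + u.natDegree < T + (s + 1) * 3 := by exact_mod_cast hdeg
      have h5 : u.natDegree < T - 5 * (s + 1) := by omega
      exact_mod_cast h5
    have hr2 : finrank k ↥((WS τ θ (s + 1) T (2 * (s + 1))).map (HEl (s + 1) A B)) ≤
        T - 5 * (s + 1) := by
      refine (Submodule.finrank_mono hran).trans ((Submodule.finrank_map_le _ _).trans ?_)
      rw [(degreeLTEquiv k _).finrank_eq]; simp
    rw [← h1]
    refine (add_le_add hk2 hr2).trans ?_
    obtain ⟨x, rfl⟩ := Nat.exists_eq_add_of_le hT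
    have e1 : 5 * (s + 1) + x - 3 - 4 * s = s + 2 + x := by omega
    have e2 : 5 * (s + 1) + x - 5 * (s + 1) = x := by omega
    have e3 : 5 * (s + 1) + x - 4 * (s + 1) = s + 1 + x := by omega
    rw [e1, e2, e3]
    nlinarith

/-- **Dimension bound on all slices.** -/
theorem finrank_WS_le' [CharZero k] (hτ : Function.Injective τ) (hθ : Function.Injective θ)
    (s T : ℕ) (hT : 5 * s ≤ T) :
    finrank k (WS τ θ s T (2 * s)) ≤ (s + 1) * (T - 4 * s) := by
  by_cases hB : Bal τ θ
  · exact (finrank_WS_le hτ hB s T).2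
  · obtain ⟨A, B, hA, hAB, hA3, hB3, hd, h3⟩ := exists_E3 hτ hθ hB
    exact finrank_WS_le_three hτ hA hAB hA3 hB3 hd h3 s T hT

end Pool.Agent.Lib.SQF
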