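import Pool.Agent.Lib.SQF.IndA

/-!
# W-calculus on the alpha-slices (section 6.6 of the quartics paper)

`k[X][X]`: outer variable `n`, inner variable `t`. Weighted order at a point `(t_i, θ_i)` with
weights `t - t_i : 1`, `n - θ_i : 2`.
-/

set_option autoImplicit false

open Polynomial

namespace Pool.Agent.Lib.SQF.WC

section generic

variable {R : Type*} [CommRing R]

/-- `f` has weighted order at least `o` (weight 1 for `D`, weight 2 for the variable). -/
def wge (D : R) (o : ℕ) (f : R[X]) : Prop := ∀ q, D ^ (o - 2 * q) ∣ f.coeff q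

lemma wge_zero (D : R) (f : R[X]) : wge D 0 f := by
  intro q; simp

lemma wge_mono (D : R) {o o' : ℕ} (h : o' ≤ o) {f : R[X]} (hf : wge D o f) : wge D o' f := by
  intro q
  exact (pow_dvd_pow D (by omega)).trans (hf q)

lemma wge_add (D : R) {o : ℕ} {f g : R[X]} (hf : wge D o f) (hg : wge D o g) : wge D o (f + g) := by
  intro q
  rw [coeff_add]
  exact dvd_add (hf q) (hg q)

lemma wge_mul (D : R) {a b : ℕ} {f g : R[X]} (hf : wge D a f) (hg : wge D b g) :
    wge D (a + b) (f * g) := by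
  intro q
  rw [coeff_mul]
  apply Finset.dvd_sum
  rintro ⟨q1, q2⟩ hq
  have hq' : q1 + q2 = q := by simpa using hq
  simp only
  have h1 : D ^ ((a - 2 * q1) + (b - 2 * q2)) ∣ f.coeff q1 * g.coeff q2 := by
    rw [pow_add]
    exact mul_dvd_mul (hf q1) (hg q2)
  exact (pow_dvd_pow D (by omega)).trans h1

lemma wge_cancel [IsDomain R] (D : R) (hD : Prime D) {a : ℕ} {f : R[X]} (hfa : wge D a f)
    (hfa' : ¬ wge D (a + 1) f) (b : ℕ) {g : R[X]} (hfg : wge D (a + b) (f * g)) : wge D b g := by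
  classical
  induction b with
  | zero => exact wge_zero D g
  | succ b ih =>
    have hgb : wge D b g := ih (wge_mono D (by omega) hfg)
    by_contra hgb'
    -- the largest bad index of `f`
    have hS1 : (f.support.filter (fun q => ¬ D ^ (a + 1 - 2 * q) ∣ f.coeff q)).Nonempty := by
      unfold wge at hfa'
      rw [not_forall] at hfa'
      obtain ⟨q, hq⟩ := hfa'
      refine ⟨q, ?_⟩
      rw [Finset.mem_filter, mem_support_iff]
      refine ⟨?_, hq⟩
      intro h0
      rw [h0] at hq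
      exact hq (dvd_zero _)
    have hS2 : (g.support.filter (fun q => ¬ D ^ (b + 1 - 2 * q) ∣ g.coeff q)).Nonempty := by
      unfold wge at hgb'
      rw [not_forall] at hgb'
      obtain ⟨q, hq⟩ := hgb'
      refine ⟨q, ?_⟩
      rw [Finset.mem_filter, mem_support_iff]
      refine ⟨?_, hq⟩
      intro h0
      rw [h0] at hq
      exact hq (dvd_zero _)
    obtain ⟨q1, hq1, hmax1⟩ := Finset.exists_max_image _ id hS1
    obtain ⟨q2, hq2, hmax2⟩ := Finset.exists_max_image _ id hS2
    rw [Finset.mem_filter] at hq1 hq2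
    have hbig1 : ∀ q, q1 < q → D ^ (a + 1 - 2 * q) ∣ f.coeff q := by
      intro q hq
      by_contra hc
      have hm : q ∈ f.support.filter (fun q => ¬ D ^ (a + 1 - 2 * q) ∣ f.coeff q) := by
        rw [Finset.mem_filter, mem_support_iff]
        refine ⟨?_, hc⟩
        intro h0
        rw [h0] at hc
        exact hc (dvd_zero _)
      have := hmax1 q hm
      simp only [id] at this
      omega
    have hbig2 : ∀ q, q2 < q → D ^ (b + 1 - 2 * q) ∣ g.coeff q := by
      intro q hq
      by_contra hc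
      have hm : q ∈ g.support.filter (fun q => ¬ D ^ (b + 1 - 2 * q) ∣ g.coeff q) := by
        rw [Finset.mem_filter, mem_support_iff]
        refine ⟨?_, hc⟩
        intro h0
        rw [h0] at hc
        exact hc (dvd_zero _)
      have := hmax2 q hm
      simp only [id] at this
      omega
    have h2q1 : 2 * q1 ≤ a := by
      by_contra hc
      apply hq1.2
      have : a + 1 - 2 * q1 = 0 := by omega
      rw [this]; simp
    have h2q2 : 2 * q2 ≤ b := by
      by_contra hc
      apply hq2.2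
      have : b + 1 - 2 * q2 = 0 := by omega
      rw [this]; simp
    obtain ⟨f', hf'⟩ := hfa q1
    obtain ⟨g', hg'⟩ := hgb q2
    have hf'D : ¬ D ∣ f' := by
      intro hdiv
      apply hq1.2
      rw [hf']
      have e : a + 1 - 2 * q1 = (a - 2 * q1) + 1 := by omega
      rw [e, pow_succ]
      exact mul_dvd_mul_left _ hdiv
    have hg'D : ¬ D ∣ g' := by
      intro hdiv
      apply hq2.2
      rw [hg']
      have e : b + 1 - 2 * q2 = (b - 2 * q2) + 1 := by omega
      rw [e, pow_succ]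
      exact mul_dvd_mul_left _ hdiv
    have htot := hfg (q1 + q2)
    rw [coeff_mul] at htot
    rw [← Finset.add_sum_erase _ _ (show (q1, q2) ∈ Finset.HasAntidiagonal.antidiagonal (q1 + q2) by simp)] at htot
    have hrest : D ^ (a + (b + 1) - 2 * (q1 + q2)) ∣
        ∑ x ∈ (Finset.HasAntidiagonal.antidiagonal (q1 + q2)).erase (q1, q2), f.coeff x.1 * g.coeff x.2 := by
      apply Finset.dvd_sum
      rintro ⟨r1, r2⟩ hr
      rw [Finset.mem_erase] at hr
      obtain ⟨hne, hsum'⟩ := hr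
      have hsum : r1 + r2 = q1 + q2 := by simpa using hsum'
      simp only
      have hne1 : r1 ≠ q1 := by
        rintro rfl
        apply hne
        have : r2 = q2 := by omega
        rw [this]
      rcases Nat.lt_or_ge q1 r1 with hlt | hge
      · have h1 : D ^ ((a + 1 - 2 * r1) + (b - 2 * r2)) ∣ f.coeff r1 * g.coeff r2 := by
          rw [pow_add]
          exact mul_dvd_mul (hbig1 r1 hlt) (hgb r2)
        exact (pow_dvd_pow D (by omega)).trans h1
      · have h1 : D ^ ((a - 2 * r1) + (b + 1 - 2 * r2)) ∣ f.coeff r1 * g.coeff r2 := by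
          rw [pow_add]
          exact mul_dvd_mul (hfa r1) (hbig2 r2 (by omega))
        exact (pow_dvd_pow D (by omega)).trans h1
    have hmain := (dvd_add_left hrest).mp htot
    rw [hf', hg'] at hmain
    have e : a + (b + 1) - 2 * (q1 + q2) = (a - 2 * q1) + (b - 2 * q2) + 1 := by omega
    have e2 : D ^ (a - 2 * q1) * f' * (D ^ (b - 2 * q2) * g') =
        D ^ ((a - 2 * q1) + (b - 2 * q2)) * (f' * g') := by
      rw [pow_add]; ring
    rw [e, e2, pow_succ] at hmain
    have hDne : D ^ ((a - 2 * q1) + (b - 2 * q2)) ≠ 0 := pow_ne_zero _ hD.ne_zero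
    have := (mul_dvd_mul_iff_left hDne).mp hmain
    rcases hD.dvd_or_dvd this with h | h
    · exact hf'D h
    · exact hg'D h

end generic

section cancel2

variable {R : Type*} [CommRing R]

/-- order at least `o` at `(t₀, θ₀)` with weights `t - t₀ : 1`, `n - θ₀ : 2` -/
def ordGE {k : Type*} [Field k] (θ₀ t₀ : k) (o : ℕ) (h : k[X][X]) : Prop :=
  wge (X - C t₀) o (taylor (C θ₀) h)

end cancel2

section tdeg

variable {k : Type*} [Field k]

lemma coeff_coeff_swap (p : k[X][X]) (i j : ℕ) :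
    ((Polynomial.Bivariate.swap p).coeff i).coeff j = (p.coeff j).coeff i := by
  induction p using Polynomial.induction_on' with
  | add p q hp hq => simp only [map_add, coeff_add, hp, hq]
  | monomial n f =>
    induction f using Polynomial.induction_on' with
    | add f g hf hg => simp only [map_add, coeff_add, hf, hg]
    | monomial m r =>
      rw [Polynomial.Bivariate.swap_monomial_monomial]
      simp only [coeff_monomial]
      split_ifs <;> simp_all [coeff_monomial]

/-- `t`-degree -/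
noncomputable def tdeg (p : k[X][X]) : ℕ := (Polynomial.Bivariate.swap p).natDegree

lemma tdeg_mul {p q : k[X][X]} (hp : p ≠ 0) (hq : q ≠ 0) : tdeg (p * q) = tdeg p + tdeg q := by
  unfold tdeg
  rw [map_mul, natDegree_mul]
  · simpa using hp
  · simpa using hq

lemma coeff_natDegree_le_tdeg (p : k[X][X]) (q : ℕ) : (p.coeff q).natDegree ≤ tdeg p := by
  rw [natDegree_le_iff_coeff_eq_zero]
  intro N hN
  rw [← coeff_coeff_swap, coeff_eq_zero_of_natDegree_lt hN, coeff_zero]

lemma tdeg_lt_iff {p : k[X][X]} (hp : p ≠ 0) (T : ℕ) :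
    (∀ q, p.coeff q ∈ degreeLT k T) ↔ tdeg p < T := by
  constructor
  · intro h
    have hs : Polynomial.Bivariate.swap p ≠ 0 := by simpa using hp
    have hlc : (Polynomial.Bivariate.swap p).coeff (tdeg p) ≠ 0 := by
      unfold tdeg
      simpa using hs
    by_contra hc
    apply hlc
    ext j
    rw [coeff_coeff_swap, coeff_zero]
    have := h j
    rw [mem_degreeLT] at this
    apply coeff_eq_zero_of_degree_lt
    refine this.trans_le ?_
    exact_mod_cast (not_lt.mp hc)
  · intro h q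
    rw [mem_degreeLT]
    refine (degree_le_natDegree).trans_lt ?_
    have := coeff_natDegree_le_tdeg p q
    exact_mod_cast (lt_of_le_of_lt this h)

lemma mem_degreeLT_mul {P Q : k[X]} {T m : ℕ} (hP : P ∈ degreeLT k T) (hQ : Q.natDegree ≤ m) :
    P * Q ∈ degreeLT k (T + m) := by
  by_cases h0 : P = 0
  · rw [h0, zero_mul]; exact Submodule.zero_mem _
  · by_cases h1 : Q = 0
    · rw [h1, mul_zero]; exact Submodule.zero_mem _
    · rw [mem_degreeLT, degree_eq_natDegree h0] at hP
      rw [mem_degreeLT, degree_eq_natDegree (mul_ne_zero h0 h1), natDegree_mul h0 h1]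
      have : P.natDegree < T := by exact_mod_cast hP
      exact_mod_cast (by omega)

end tdeg

section W

variable {k : Type*} [Field k]

lemma ordGE_mul {θ₀ t₀ : k} {a b : ℕ} {f g : k[X][X]} (hf : ordGE θ₀ t₀ a f)
    (hg : ordGE θ₀ t₀ b g) : ordGE θ₀ t₀ (a + b) (f * g) := by
  unfold ordGE
  rw [taylor_mul]
  exact wge_mul _ hf hg

lemma ordGE_mono {θ₀ t₀ : k} {a b : ℕ} (h : b ≤ a) {f : k[X][X]} (hf : ordGE θ₀ t₀ a f) :
    ordGE θ₀ t₀ b f := wge_mono _ h hf

lemma ordGE_zero_right (θ₀ t₀ : k) (f : k[X][X]) : ordGE θ₀ t₀ 0 f := wge_zero _ _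

lemma ordGE_cancel {θ₀ t₀ : k} {a : ℕ} {f : k[X][X]} (hfa : ordGE θ₀ t₀ a f)
    (hfa' : ¬ ordGE θ₀ t₀ (a + 1) f) (b : ℕ) {g : k[X][X]} (hfg : ordGE θ₀ t₀ (a + b) (f * g)) :
    ordGE θ₀ t₀ b g := by
  unfold ordGE at hfg
  rw [taylor_mul] at hfg
  exact wge_cancel _ (prime_X_sub_C t₀) hfa hfa' b hfg

lemma ordGE_C {θ₀ t₀ : k} {a : ℕ} {c : k[X]} (hc : (X - C t₀) ^ a ∣ c) :
    ordGE θ₀ t₀ a (C c) := by
  intro q
  rw [taylor_C, coeff_C]
  split_ifs with h
  · exact (pow_dvd_pow _ (by omega)).trans hc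
  · exact dvd_zero _

lemma ordGE_C_mul_iff {θ₀ t₀ : k} {o : ℕ} {c : k[X]} (hc : ¬ (X - C t₀) ∣ c) (h : k[X][X]) :
    ordGE θ₀ t₀ o (C c * h) ↔ ordGE θ₀ t₀ o h := by
  unfold ordGE wge
  rw [taylor_mul, taylor_C]
  simp only [coeff_C_mul]
  refine forall_congr' fun q => ?_
  constructor
  · intro h1
    exact (Prime.pow_dvd_of_dvd_mul_left (prime_X_sub_C t₀) _ hc h1)
  · intro h1
    exact Dvd.dvd.mul_left h1 c

/-- `W(s,T-1,o)` -/
noncomputable def Wsub (θ t : Fin 4 → k) (s T o : ℕ) : Submodule k k[X][X] where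
  carrier := {h | h.natDegree ≤ s ∧ (∀ q, h.coeff q ∈ degreeLT k T) ∧
    ∀ i, ordGE (θ i) (t i) o h}
  zero_mem' := by
    refine ⟨by simp, fun q => by simp, fun i q => ?_⟩
    simp
  add_mem' := by
    rintro f g ⟨hf1, hf2, hf3⟩ ⟨hg1, hg2, hg3⟩
    refine ⟨(natDegree_add_le f g).trans (max_le hf1 hg1), fun q => ?_, fun i => ?_⟩
    · rw [coeff_add]; exact Submodule.add_mem _ (hf2 q) (hg2 q)
    · unfold ordGE
      rw [map_add]
      exact wge_add _ (hf3 i) (hg3 i)
  smul_mem' := by
    rintro c f ⟨hf1, hf2, hf3⟩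
    refine ⟨(natDegree_smul_le c f).trans hf1, fun q => ?_, fun i => ?_⟩
    · rw [coeff_smul]; exact Submodule.smul_mem _ _ (hf2 q)
    · intro q
      have e : c • f = C (C c) * f := by
        rw [← smul_eq_C_mul]
        ext a b
        simp
      rw [e, taylor_mul, taylor_C, coeff_C_mul]
      exact Dvd.dvd.mul_left (hf3 i q) _

lemma mem_Wsub {θ t : Fin 4 → k} {s T o : ℕ} {h : k[X][X]} :
    h ∈ Wsub θ t s T o ↔ h.natDegree ≤ s ∧ (∀ q, h.coeff q ∈ degreeLT k T) ∧
      ∀ i, ordGE (θ i) (t i) o h := Iff.rfl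

lemma mul_mem_Wsub {θ t : Fin 4 → k} {s₁ s₂ T₁ T₂ o₁ o₂ : ℕ} {f g : k[X][X]}
    (hf : f ∈ Wsub θ t s₁ (T₁ + 1) o₁) (hg : g ∈ Wsub θ t s₂ (T₂ + 1) o₂) :
    f * g ∈ Wsub θ t (s₁ + s₂) (T₁ + T₂ + 1) (o₁ + o₂) := by
  obtain ⟨hf1, hf2, hf3⟩ := hf
  obtain ⟨hg1, hg2, hg3⟩ := hg
  refine ⟨natDegree_mul_le.trans (by omega), fun q => ?_, fun i => ordGE_mul (hf3 i) (hg3 i)⟩
  rw [coeff_mul]
  apply Submodule.sum_mem
  rintro ⟨a, b⟩ _
  have h2 : (g.coeff b).natDegree ≤ T₂ := by
    have := hg2 b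
    rw [mem_degreeLT] at this
    by_cases h0 : g.coeff b = 0
    · simp [h0]
    · rw [degree_eq_natDegree h0] at this
      have h3 : (g.coeff b).natDegree < T₂ + 1 := by exact_mod_cast this
      omega
  have := mem_degreeLT_mul (hf2 a) h2
  have e : T₁ + 1 + T₂ = T₁ + T₂ + 1 := by omega
  rwa [e] at this

lemma mul_Wsub_le {θ t : Fin 4 → k} {s₁ s₂ T₁ T₂ o₁ o₂ : ℕ} :
    Wsub θ t s₁ (T₁ + 1) o₁ * Wsub θ t s₂ (T₂ + 1) o₂ ≤
      Wsub θ t (s₁ + s₂) (T₁ + T₂ + 1) (o₁ + o₂) := by
  rw [Submodule.mul_le]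
  intro f hf g hg
  exact mul_mem_Wsub hf hg

lemma tA_le_Wsub (θ t : Fin 4 → k) (r : ℕ) : tA k r ≤ Wsub θ t 0 (r + 1) 0 := by
  rw [tA, Submodule.span_le]
  rintro F ⟨a, ha, rfl⟩
  refine ⟨by simp, fun q => ?_, fun i => ordGE_zero_right _ _ _⟩
  rw [coeff_C]
  split_ifs
  · rw [mem_degreeLT]
    refine (degree_X_pow_le a).trans_lt ?_
    exact_mod_cast (by omega)
  · exact Submodule.zero_mem _

lemma vA_le_Wsub (θ t : Fin 4 → k) : vA θ t ≤ Wsub θ t 1 (6 + 1) 2 := by
  rw [vA, Submodule.span_le]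
  rintro F ⟨i, rfl⟩
  have hdeg : (∏ l ∈ Finset.univ.erase i, (X - C (t l)) ^ 2 : k[X]).natDegree ≤ 6 := by
    refine (natDegree_prod_le _ _).trans ?_
    refine (Finset.sum_le_card_nsmul _ _ 2 ?_).trans ?_
    · intro l _
      exact natDegree_pow_le.trans (by simp)
    · simp
  refine ⟨?_, fun q => ?_, fun j => ?_⟩
  · unfold xA
    refine natDegree_mul_le.trans ?_
    rw [natDegree_C, natDegree_X_sub_C]
  · unfold xA
    rw [coeff_mul_C]
    rw [mul_comm]
    have h1 : ((X - C (C (θ i)) : k[X][X]).coeff q).natDegree ≤ 0 := by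
      rw [coeff_sub, coeff_X, coeff_C]
      split_ifs <;> simp
    have h2 : (∏ l ∈ Finset.univ.erase i, (X - C (t l)) ^ 2 : k[X]) ∈ degreeLT k (6 + 1) := by
      rw [mem_degreeLT]
      refine degree_le_natDegree.trans_lt ?_
      exact_mod_cast (by omega)
    have h3 := mem_degreeLT_mul h2 h1
    rwa [add_zero] at h3
  · by_cases hij : j = i
    · subst hij
      have h1 : ordGE (θ j) (t j) 2 (X - C (C (θ j))) := by
        intro q
        rw [map_sub, taylor_X, taylor_C, add_sub_cancel_right, coeff_X]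
        split_ifs with h
        · subst h; simp
        · exact dvd_zero _
      exact ordGE_mono (by omega) (ordGE_mul h1 (ordGE_zero_right (θ j) (t j)
        (C (∏ l ∈ Finset.univ.erase j, (X - C (t l)) ^ 2))))
    · have h1 : ordGE (θ j) (t j) 2 (C (∏ l ∈ Finset.univ.erase i, (X - C (t l)) ^ 2)) := by
        apply ordGE_C
        exact Finset.dvd_prod_of_mem (fun l => (X - C (t l)) ^ 2) (by simp [hij])
      exact ordGE_mono (by omega) (ordGE_mul (ordGE_zero_right (θ j) (t j)
        (X - C (C (θ i)))) h1)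

lemma vA_pow_le_Wsub (θ t : Fin 4 → k) (s : ℕ) : vA θ t ^ s ≤ Wsub θ t s (6 * s + 1) (2 * s) := by
  induction s with
  | zero =>
    rw [pow_zero, Submodule.one_le]
    refine ⟨by simp, fun q => ?_, fun i => ordGE_zero_right _ _ _⟩
    rw [coeff_one]
    split_ifs
    · rw [mem_degreeLT]; simp
    · exact Submodule.zero_mem _
  | succ s ih =>
    rw [pow_succ]
    refine (mul_le_mul' ih (vA_le_Wsub θ t)).trans ?_
    refine mul_Wsub_le.trans (le_of_eq ?_)
    congr 1

theorem forms_le_Wsub (θ t : Fin 4 → k) (r s : ℕ) :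
    tA k r * vA θ t ^ s ≤ Wsub θ t s (6 * s + r + 1) (2 * s) := by
  refine (mul_le_mul' (tA_le_Wsub θ t r) (vA_pow_le_Wsub θ t s)).trans ?_
  refine mul_Wsub_le.trans (le_of_eq ?_)
  congr 1 <;> omega

end W

section hsub

variable {R : Type*} [CommRing R]

/-- The homogeneous substitution `n = -B/A`: `A^s h(-B/A)`. -/
noncomputable def hsub (s : ℕ) (h : R[X]) (A B : R) : R :=
  ∑ j ∈ Finset.range (s + 1), h.coeff j * (-B) ^ j * A ^ (s - j)

lemma hsub_add (s : ℕ) (f g : R[X]) (A B : R) :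
    hsub s (f + g) A B = hsub s f A B + hsub s g A B := by
  unfold hsub
  rw [← Finset.sum_add_distrib]
  apply Finset.sum_congr rfl
  intro j _
  rw [coeff_add]; ring

lemma hsub_C_mul (s : ℕ) (c : R) (f : R[X]) (A B : R) :
    hsub s (C c * f) A B = c * hsub s f A B := by
  unfold hsub
  rw [Finset.mul_sum]
  apply Finset.sum_congr rfl
  intro j _
  rw [coeff_C_mul]; ring

lemma hsub_X_pow (s n : ℕ) (hn : n ≤ s) (A B : R) :
    hsub s (X ^ n) A B = (-B) ^ n * A ^ (s - n) := by
  unfold hsub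
  rw [Finset.sum_eq_single_of_mem n (by simp; omega)]
  · simp
  · intro j _ hj
    rw [coeff_X_pow, if_neg hj]; ring

lemma hsub_taylor (s : ℕ) (θ : R) (h : R[X]) (hh : h.natDegree ≤ s) (A B : R) :
    hsub s h A B = hsub s (taylor θ h) A (B + θ * A) := by
  refine Polynomial.induction_with_natDegree_le
    (fun h => hsub s h A B = hsub s (taylor θ h) A (B + θ * A)) s ?_ ?_ ?_ h hh
  · simp [hsub]
  · intro n r _ hn
    rw [taylor_mul, taylor_C, taylor_X_pow, hsub_C_mul, hsub_C_mul, hsub_X_pow s n hn]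
    congr 1
    unfold hsub
    have e : (-B) ^ n = ∑ m ∈ Finset.range (n + 1),
        (-(B + θ * A)) ^ m * (θ * A) ^ (n - m) * (n.choose m : R) := by
      rw [← add_pow]
      congr 1
      ring
    rw [e, Finset.sum_mul]
    symm
    have hsub' : Finset.range (n + 1) ⊆ Finset.range (s + 1) := by
      intro x hx
      simp only [Finset.mem_range] at hx ⊢
      omega
    rw [← Finset.sum_subset hsub']
    · apply Finset.sum_congr rfl
      intro m hm
      rw [Finset.mem_range] at hm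
      rw [coeff_X_add_C_pow]
      have e2 : s - m = (n - m) + (s - n) := by omega
      rw [e2, pow_add, mul_pow]
      ring
    · intro m _ hm
      rw [Finset.mem_range, not_lt] at hm
      rw [coeff_X_add_C_pow, Nat.choose_eq_zero_of_lt (by omega)]
      simp
  · intro f g _ _ hf hg
    rw [map_add, hsub_add, hsub_add, hf, hg]

/-- vanishing order of the substitution -/
lemma hsub_dvd (s : ℕ) (D θ : R) (μ : ℕ) (h : R[X]) (hh : h.natDegree ≤ s)
    (hμ : wge D μ (taylor θ h)) (A B : R) (hP : D ^ 2 ∣ B + θ * A) : D ^ μ ∣ hsub s h A B := by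
  rw [hsub_taylor s θ h hh]
  unfold hsub
  apply Finset.dvd_sum
  intro q _
  have h1 : D ^ (2 * q) ∣ (-(B + θ * A)) ^ q := by
    rw [pow_mul, neg_pow]
    exact Dvd.dvd.mul_left (pow_dvd_pow_of_dvd hP q) _
  have h2 : D ^ ((μ - 2 * q) + 2 * q) ∣ (taylor θ h).coeff q * (-(B + θ * A)) ^ q := by
    rw [pow_add]
    exact mul_dvd_mul (hμ q) h1
  exact Dvd.dvd.mul_right ((pow_dvd_pow D (by omega)).trans h2) _

end hsub

section pencil

variable {R : Type*} [CommRing R] [IsDomain R]

/-- If `A^s h(-B/A) = 0` identically on a pencil without fixed part then `h = 0`. -/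
lemma pencil_zero (A1 A2 B1 B2 : R) (hA2 : A2 ≠ 0) (hΔ : A1 * B2 - A2 * B1 ≠ 0) (s : ℕ) (c : ℕ → R)
    (h : ∑ j ∈ Finset.range (s + 1), C (c j) * (-(C B1 + X * C B2)) ^ j *
      (C A1 + X * C A2 : R[X]) ^ (s - j) = 0) : ∀ j ≤ s, c j = 0 := by
  have hXdeg : (C A1 + X * C A2 : R[X]).natDegree = 1 := by
    rw [add_comm, mul_comm]
    exact natDegree_linear hA2
  have hX0 : (C A1 + X * C A2 : R[X]) ≠ 0 := by
    intro h0
    rw [h0] at hXdeg
    simp at hXdeg
  induction s with
  | zero =>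
    intro j hj
    obtain rfl : j = 0 := by omega
    simpa using h
  | succ s ih =>
    rw [Finset.sum_range_succ] at h
    have hfac : ∑ j ∈ Finset.range (s + 1), C (c j) * (-(C B1 + X * C B2)) ^ j *
        (C A1 + X * C A2 : R[X]) ^ (s + 1 - j) = (C A1 + X * C A2) *
        ∑ j ∈ Finset.range (s + 1), C (c j) * (-(C B1 + X * C B2)) ^ j *
        (C A1 + X * C A2 : R[X]) ^ (s - j) := by
      rw [Finset.mul_sum]
      apply Finset.sum_congr rfl
      intro j hj
      rw [Finset.mem_range] at hj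
      have : s + 1 - j = (s - j) + 1 := by omega
      rw [this, pow_succ]
      ring
    rw [hfac, Nat.sub_self, pow_zero, mul_one] at h
    have hlast : c (s + 1) = 0 := by
      have hd1 : (C A1 + X * C A2 : R[X]) ∣ C (c (s + 1)) * (-(C B1 + X * C B2)) ^ (s + 1) := by
        have := eq_neg_of_add_eq_zero_right h
        rw [this]
        exact Dvd.dvd.neg_right (Dvd.intro _ rfl) 
      have hd2 : (C A1 + X * C A2 : R[X]) ∣ C (c (s + 1)) * (C A2 * (-(C B1 + X * C B2))) ^ (s + 1) := by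
        rw [mul_pow]
        have := Dvd.dvd.mul_left hd1 (C A2 ^ (s + 1))
        refine dvd_trans this (dvd_of_eq ?_) 
        ring
      have hd3 : (C A1 + X * C A2 : R[X]) ∣ (C A2 * (-(C B1 + X * C B2))) ^ (s + 1) -
          (C (A1 * B2 - A2 * B1)) ^ (s + 1) := by
        refine Dvd.dvd.trans ?_ (sub_dvd_pow_sub_pow _ _ _)
        refine ⟨-C B2, ?_⟩
        simp only [map_sub, map_mul]
        ring
      have hd4 : (C A1 + X * C A2 : R[X]) ∣ C (c (s + 1) * (A1 * B2 - A2 * B1) ^ (s + 1)) := by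
        rw [map_mul, map_pow]
        have := dvd_sub hd2 (Dvd.dvd.mul_left hd3 (C (c (s + 1))))
        refine dvd_trans this (dvd_of_eq ?_)
        ring
      have h0 : C (c (s + 1) * (A1 * B2 - A2 * B1) ^ (s + 1)) = (0 : R[X]) := by
        apply eq_zero_of_dvd_of_natDegree_lt hd4
        rw [natDegree_C, hXdeg]
        exact Nat.zero_lt_one
      rw [C_eq_zero] at h0
      exact (mul_eq_zero.mp h0).resolve_right (pow_ne_zero _ hΔ)
    rw [hlast] at h
    simp only [map_zero, zero_mul, add_zero] at h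
    have h' := (mul_eq_zero.mp h).resolve_left hX0
    intro j hj
    rcases Nat.lt_or_ge j (s + 1) with hlt | hge
    · exact ih h' j (by omega)
    · obtain rfl : j = s + 1 := by omega
      exact hlast

end pencil

section balanced

variable {k : Type*} [Field k]

/-- `L` is balanced: `W(1,3,2) = 0`. -/
def Balanced (θ t : Fin 4 → k) : Prop := Wsub θ t 1 4 2 = ⊥

lemma mem_Wsub_one {θ t : Fin 4 → k} {T : ℕ} {A B : k[X]} (hA : A ∈ degreeLT k T)
    (hB : B ∈ degreeLT k T) (h : ∀ i, (X - C (t i)) ^ 2 ∣ B + C (θ i) * A) :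
    C A * X + C B ∈ Wsub θ t 1 T 2 := by
  refine ⟨natDegree_linear_le, fun q => ?_, fun i q => ?_⟩
  · rw [coeff_add, coeff_C_mul, coeff_X, coeff_C]
    refine Submodule.add_mem _ ?_ ?_
    · split_ifs
      · rwa [mul_one]
      · rw [mul_zero]; exact Submodule.zero_mem _
    · split_ifs
      · exact hB
      · exact Submodule.zero_mem _
  · rcases q with _ | q
    · have e : (taylor (C (θ i)) (C A * X + C B : k[X][X])).coeff 0 = B + C (θ i) * A := by
        rw [taylor_coeff_zero]
        simp only [eval_add, eval_mul, eval_C, eval_X]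
        ring
      rw [e]
      exact h i
    · have : 2 - 2 * (q + 1) = 0 := by omega
      rw [this, pow_zero]
      exact one_dvd _

lemma sq_dvd_of_coeff {a : k} {P : k[X]} (m : ℕ) (h : ∀ d < m, (taylor a P).coeff d = 0) :
    (X - C a) ^ m ∣ P := by
  rw [X_sub_C_pow_dvd_iff, ← taylor_apply, X_pow_dvd_iff]
  exact h

lemma mem_degreeLT_of_natDegree_le {P : k[X]} {m : ℕ} (h : P.natDegree ≤ m) :
    P ∈ degreeLT k (m + 1) := by
  rw [mem_degreeLT]
  refine degree_le_natDegree.trans_lt ?_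
  exact_mod_cast (by omega)

lemma natDegree_le_of_mem_degreeLT {P : k[X]} {m : ℕ} (h : P ∈ degreeLT k (m + 1)) :
    P.natDegree ≤ m := by
  rw [mem_degreeLT] at h
  by_cases h0 : P = 0
  · simp [h0]
  · rw [degree_eq_natDegree h0] at h
    have h3 : P.natDegree < m + 1 := by exact_mod_cast h
    omega

lemma mem_degreeLT_pred {P : k[X]} {m : ℕ} (h : P ∈ degreeLT k (m + 1)) (h0 : P.coeff m = 0) :
    P ∈ degreeLT k m := by
  rw [mem_degreeLT] at h ⊢
  rw [degree_lt_iff_coeff_zero] at h ⊢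
  intro j hj
  rcases Nat.lt_or_ge m j with h1 | h1
  · exact h j (by exact_mod_cast (by omega : m + 1 ≤ j))
  · obtain rfl : j = m := by
      have : m ≤ j := by exact_mod_cast hj
      omega
    exact h0

/-- the conditions at the four points -/
noncomputable def condL (θ t : Fin 4 → k) (T : ℕ) :
    (degreeLT k T × degreeLT k T) →ₗ[k] (Fin 4 → Fin 2 → k) :=
  LinearMap.pi fun i => LinearMap.pi fun d =>
    (lcoeff k (d : ℕ)) ∘ₗ (taylor (t i)) ∘ₗ
      ((degreeLT k T).subtype ∘ₗ LinearMap.snd k _ _ +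
        (θ i) • ((degreeLT k T).subtype ∘ₗ LinearMap.fst k _ _))

lemma condL_apply (θ t : Fin 4 → k) (T : ℕ) (z : degreeLT k T × degreeLT k T) (i : Fin 4)
    (d : Fin 2) : condL θ t T z i d =
      (taylor (t i) ((z.2 : k[X]) + C (θ i) * (z.1 : k[X]))).coeff d := by
  rw [← smul_eq_C_mul]
  rfl

lemma finrank_degreeLT (n : ℕ) : Module.finrank k (degreeLT k n) = n := by
  rw [(degreeLTEquiv k n).finrank_eq]
  simp

instance finite_degreeLT (n : ℕ) : Module.Finite k (degreeLT k n) :=
  Module.Finite.equiv (degreeLTEquiv k n).symm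

lemma mem_ker_condL {θ t : Fin 4 → k} {T : ℕ} {z : degreeLT k T × degreeLT k T}
    (hz : condL θ t T z = 0) (i : Fin 4) :
    (X - C (t i)) ^ 2 ∣ (z.2 : k[X]) + C (θ i) * (z.1 : k[X]) := by
  apply sq_dvd_of_coeff
  intro d hd
  have := congrFun (congrFun hz i) ⟨d, hd⟩
  rw [condL_apply] at this
  exact this

/-- the pencil `W(1,4,2)` of a balanced lattice -/
theorem exists_pencil {θ t : Fin 4 → k} (hbal : Balanced θ t) :
    ∃ A1 B1 A2 B2 : k[X], A1.natDegree ≤ 4 ∧ B1.natDegree ≤ 4 ∧ A2.natDegree ≤ 4 ∧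
      B2.natDegree ≤ 4 ∧ (∀ i, (X - C (t i)) ^ 2 ∣ B1 + C (θ i) * A1) ∧
      (∀ i, (X - C (t i)) ^ 2 ∣ B2 + C (θ i) * A2) ∧ A2 ≠ 0 ∧ A1 * B2 - A2 * B1 ≠ 0 := by
  set τ : LinearMap.ker (condL θ t 5) →ₗ[k] k × k :=
    ((((lcoeff k 4) ∘ₗ (degreeLT k 5).subtype).prodMap
      ((lcoeff k 4) ∘ₗ (degreeLT k 5).subtype)) ∘ₗ (LinearMap.ker (condL θ t 5)).subtype) with hτ
  have hτa : ∀ z, τ z = ((z.1.1 : k[X]).coeff 4, (z.1.2 : k[X]).coeff 4) := fun z => rfl
  have hinj : Function.Injective τ := by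
    rw [injective_iff_map_eq_zero]
    intro z hz
    rw [hτa] at hz
    have hz1 : (z.1.1 : k[X]).coeff 4 = 0 := congrArg Prod.fst hz
    have hz2 : (z.1.2 : k[X]).coeff 4 = 0 := congrArg Prod.snd hz
    have hm : C (z.1.1 : k[X]) * X + C (z.1.2 : k[X]) ∈ Wsub θ t 1 4 2 :=
      mem_Wsub_one (mem_degreeLT_pred z.1.1.2 hz1) (mem_degreeLT_pred z.1.2.2 hz2)
        (mem_ker_condL (LinearMap.mem_ker.mp z.2))
    rw [show Wsub θ t 1 4 2 = ⊥ from hbal, Submodule.mem_bot] at hm
    have e1 : (z.1.1 : k[X]) = 0 := by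
      have := congrArg (fun P : k[X][X] => P.coeff 1) hm
      simpa using this
    have e2 : (z.1.2 : k[X]) = 0 := by
      have := congrArg (fun P : k[X][X] => P.coeff 0) hm
      simpa using this
    apply Subtype.ext
    apply Prod.ext
    · exact Subtype.ext e1
    · exact Subtype.ext e2
  have hker : 2 ≤ Module.finrank k (LinearMap.ker (condL θ t 5)) := by
    have h1 := LinearMap.finrank_range_add_finrank_ker (condL θ t 5)
    have h2 : Module.finrank k (LinearMap.range (condL θ t 5)) ≤ 8 := by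
      refine (Submodule.finrank_le _).trans ?_
      rw [Module.finrank_pi_fintype]
      simp
    have h3 : Module.finrank k (degreeLT k 5 × degreeLT k 5) = 10 := by
      rw [Module.finrank_prod, finrank_degreeLT]
    omega
  have hle : Module.finrank k (LinearMap.ker (condL θ t 5)) ≤ 2 := by
    have := LinearMap.finrank_le_finrank_of_injective hinj
    simpa using this
  have hsurj : Function.Surjective τ := by
    rw [← LinearMap.range_eq_top]
    apply Submodule.eq_top_of_finrank_eq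
    rw [LinearMap.finrank_range_of_inj hinj, Module.finrank_prod, Module.finrank_self]
    omega
  obtain ⟨z1, hz1⟩ := hsurj (0, 1)
  obtain ⟨z2, hz2⟩ := hsurj (1, 0)
  rw [hτa] at hz1 hz2
  have a1 : (z1.1.1 : k[X]).coeff 4 = 0 := congrArg Prod.fst hz1
  have b1 : (z1.1.2 : k[X]).coeff 4 = 1 := congrArg Prod.snd hz1
  have a2 : (z2.1.1 : k[X]).coeff 4 = 1 := congrArg Prod.fst hz2
  have b2 : (z2.1.2 : k[X]).coeff 4 = 0 := congrArg Prod.snd hz2
  have dA1 := natDegree_le_of_mem_degreeLT z1.1.1.2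
  have dB1 := natDegree_le_of_mem_degreeLT z1.1.2.2
  have dA2 := natDegree_le_of_mem_degreeLT z2.1.1.2
  have dB2 := natDegree_le_of_mem_degreeLT z2.1.2.2
  refine ⟨z1.1.1, z1.1.2, z2.1.1, z2.1.2, dA1, dB1, dA2, dB2,
    mem_ker_condL (LinearMap.mem_ker.mp z1.2), mem_ker_condL (LinearMap.mem_ker.mp z2.2), ?_, ?_⟩
  · intro h0
    rw [h0] at a2
    simp at a2
  · intro h0
    have h1 := congrArg (fun P : k[X] => P.coeff (4 + 4)) h0
    simp only [coeff_sub, coeff_zero] at h1
    rw [coeff_mul_add_eq_of_natDegree_le dA1 dB2, coeff_mul_add_eq_of_natDegree_le dA2 dB1, a1, b1, a2, b2] at h1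
    simp at h1

lemma prod_pow_dvd {t : Fin 4 → k} (ht : Function.Injective t) (μ : Fin 4 → ℕ) {H : k[X]}
    (h : ∀ i, (X - C (t i)) ^ μ i ∣ H) : ∏ i, (X - C (t i)) ^ μ i ∣ H := by
  apply Finset.prod_dvd_of_coprime
  · intro i _ j _ hij
    apply IsCoprime.pow
    exact isCoprime_X_sub_C_of_isUnit_sub (by
      rw [isUnit_iff_ne_zero, sub_ne_zero]
      exact fun h => hij (ht h))
  · intro i _
    exact h i

lemma natDegree_prod_pow (t : Fin 4 → k) (μ : Fin 4 → ℕ) :
    (∏ i, (X - C (t i)) ^ μ i : k[X]).natDegree = ∑ i, μ i := by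
  rw [natDegree_prod_of_monic _ _ (fun i _ => (monic_X_sub_C _).pow _)]
  apply Finset.sum_congr rfl
  intro i _
  rw [natDegree_pow, natDegree_X_sub_C, mul_one]

lemma hsub_mem_degreeLT {h : k[X][X]} {a T : ℕ} (hT : ∀ q, h.coeff q ∈ degreeLT k T) {A B : k[X]}
    (hA : A.natDegree ≤ 4) (hB : B.natDegree ≤ 4) : hsub a h A B ∈ degreeLT k (T + 4 * a) := by
  unfold hsub
  apply Submodule.sum_mem
  intro j hj
  rw [Finset.mem_range] at hj
  rw [mul_assoc]
  apply mem_degreeLT_mul (hT j)
  refine natDegree_mul_le.trans ?_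
  have h1 : ((-B) ^ j).natDegree ≤ j * 4 := by
    refine natDegree_pow_le.trans ?_
    rw [natDegree_neg]
    exact Nat.mul_le_mul_left j hB
  have h2 : (A ^ (a - j)).natDegree ≤ (a - j) * 4 :=
    natDegree_pow_le.trans (Nat.mul_le_mul_left _ hA)
  omega

/-- the substitution vanishes if the orders are large -/
lemma hsub_eq_zero {θ t : Fin 4 → k} (ht : Function.Injective t) {h : k[X][X]} {a T : ℕ}
    (μ : Fin 4 → ℕ) (hdeg : h.natDegree ≤ a) (hT : ∀ q, h.coeff q ∈ degreeLT k T)
    (hμ : ∀ i, ordGE (θ i) (t i) (μ i) h) (hsum : T + 4 * a ≤ ∑ i, μ i) {A B : k[X]}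
    (hA : A.natDegree ≤ 4) (hB : B.natDegree ≤ 4)
    (hP : ∀ i, (X - C (t i)) ^ 2 ∣ B + C (θ i) * A) : hsub a h A B = 0 := by
  have h1 : ∀ i, (X - C (t i)) ^ μ i ∣ hsub a h A B := fun i =>
    hsub_dvd a (X - C (t i)) (C (θ i)) (μ i) h hdeg (hμ i) A B (hP i)
  have h2 := prod_pow_dvd ht μ h1
  have h3 := hsub_mem_degreeLT (a := a) hT hA hB
  by_contra h0
  have h4 := natDegree_le_of_dvd h2 h0
  rw [natDegree_prod_pow] at h4
  rw [mem_degreeLT, degree_eq_natDegree h0] at h3
  have h5 : (hsub a h A B).natDegree < T + 4 * a := by exact_mod_cast h3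
  omega

/-- **Lemma 6** (general form): over a balanced lattice a nonzero polynomial of `n`-degree `≤ a` and
`t`-degree `< T` has total order `< T + 4a` at the four points. -/
theorem eq_zero_of_order [Infinite k] {θ t : Fin 4 → k} (hbal : Balanced θ t)
    (ht : Function.Injective t) {h : k[X][X]} {a T : ℕ} (μ : Fin 4 → ℕ) (hdeg : h.natDegree ≤ a)
    (hT : ∀ q, h.coeff q ∈ degreeLT k T) (hμ : ∀ i, ordGE (θ i) (t i) (μ i) h)
    (hsum : T + 4 * a ≤ ∑ i, μ i) : h = 0 := by
  obtain ⟨A1, B1, A2, B2, dA1, dB1, dA2, dB2, h1, h2, hA2, hΔ⟩ := exists_pencil hbal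
  have hz : ∀ c : k, hsub a h (A1 + C c * A2) (B1 + C c * B2) = 0 := by
    intro c
    apply hsub_eq_zero ht μ hdeg hT hμ hsum
    · refine (natDegree_add_le _ _).trans (max_le dA1 ?_)
      exact (natDegree_C_mul_le _ _).trans dA2
    · refine (natDegree_add_le _ _).trans (max_le dB1 ?_)
      exact (natDegree_C_mul_le _ _).trans dB2
    · intro i
      have e : B1 + C c * B2 + C (θ i) * (A1 + C c * A2) =
          (B1 + C (θ i) * A1) + C c * (B2 + C (θ i) * A2) := by ring
      rw [e]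
      exact dvd_add (h1 i) (Dvd.dvd.mul_left (h2 i) _)
  have hpoly : ∑ j ∈ Finset.range (a + 1), C (h.coeff j) * (-(C B1 + X * C B2)) ^ j *
      (C A1 + X * C A2 : k[X][X]) ^ (a - j) = 0 := by
    apply eq_zero_of_infinite_isRoot
    have hinf : (Set.range (C : k → k[X])).Infinite := Set.infinite_range_of_injective C_injective
    refine hinf.mono ?_
    rintro _ ⟨c, rfl⟩
    rw [Set.mem_ofPred_eq, IsRoot.def, eval_finsetSum]
    refine Eq.trans ?_ (hz c)
    unfold hsub
    apply Finset.sum_congr rfl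
    intro j _
    simp only [eval_mul, eval_pow, eval_neg, eval_add, eval_C, eval_X]
  have hc := pencil_zero A1 A2 B1 B2 hA2 hΔ a h.coeff hpoly
  ext1 j
  rcases Nat.lt_or_ge a j with hlt | hge
  · rw [coeff_eq_zero_of_natDegree_lt (by omega), coeff_zero]
  · rw [hc j hge, coeff_zero]

theorem Wsub_eq_bot [Infinite k] {θ t : Fin 4 → k} (hbal : Balanced θ t)
    (ht : Function.Injective t) (s T : ℕ) (hT : T ≤ 4 * s) : Wsub θ t s T (2 * s) = ⊥ := by
  rw [Submodule.eq_bot_iff]
  rintro h ⟨h1, h2, h3⟩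
  apply eq_zero_of_order hbal ht (fun _ => 2 * s) h1 h2 h3
  simp
  omega

/-- **Lemma 6**: the dimension of `W(s,T-1,2s)` -/
theorem finrank_Wsub_le [Infinite k] {θ t : Fin 4 → k} (hbal : Balanced θ t)
    (ht : Function.Injective t) (s T : ℕ) :
    Module.finrank k (Wsub θ t s T (2 * s)) ≤ (s + 1) * (T - 4 * s) := by
  classical
  obtain ⟨t0, ht0⟩ := Infinite.exists_notMem_finset (Finset.univ.image t)
  have ht0' : ∀ i, t0 ≠ t i := by
    intro i h
    apply ht0
    rw [h]
    exact Finset.mem_image_of_mem t (Finset.mem_univ i)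
  set x := T - 4 * s with hx
  let φ : Wsub θ t s T (2 * s) →ₗ[k] (Fin (s + 1) → Fin x → k) :=
    LinearMap.pi fun j => LinearMap.pi fun d =>
      (lcoeff k (d : ℕ)) ∘ₗ (taylor t0) ∘ₗ ((lcoeff k[X] (j : ℕ)).restrictScalars k) ∘ₗ
        (Wsub θ t s T (2 * s)).subtype
  have hφ : ∀ h j d, φ h j d = (taylor t0 ((h : k[X][X]).coeff j)).coeff d := fun h j d => rfl
  have hinj : Function.Injective φ := by
    rw [injective_iff_map_eq_zero]
    rintro ⟨h, hh⟩ hφh
    obtain ⟨h1, h2, h3⟩ := hh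
    apply Subtype.ext
    show h = 0
    have hdiv : ∀ j, (X - C t0) ^ x ∣ h.coeff j := by
      intro j
      rcases Nat.lt_or_ge s j with hlt | hge
      · rw [coeff_eq_zero_of_natDegree_lt (by omega)]
        exact dvd_zero _
      · apply sq_dvd_of_coeff
        intro d hd
        have := congrFun (congrFun hφh ⟨j, by omega⟩) ⟨d, hd⟩
        rw [hφ] at this
        exact this
    have hCdvd : C ((X - C t0) ^ x) ∣ h := by
      rw [C_dvd_iff_dvd_coeff]
      exact hdiv
    obtain ⟨h', hh'⟩ := hCdvd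
    have hne : (X - C t0 : k[X]) ^ x ≠ 0 := pow_ne_zero _ (X_sub_C_ne_zero t0)
    have hbot := Wsub_eq_bot hbal ht s (4 * s) le_rfl
    have hmem : h' ∈ Wsub θ t s (4 * s) (2 * s) := by
      refine ⟨?_, fun q => ?_, fun i => ?_⟩
      · rw [hh', natDegree_C_mul hne] at h1
        exact h1
      · have h4 := h2 q
        rw [hh', coeff_C_mul] at h4
        by_cases h0 : h'.coeff q = 0
        · rw [h0]; exact Submodule.zero_mem _
        · rw [mem_degreeLT, degree_eq_natDegree (mul_ne_zero hne h0), natDegree_mul hne h0,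
            natDegree_pow, natDegree_X_sub_C] at h4
          have h5 : x * 1 + (h'.coeff q).natDegree < T := by exact_mod_cast h4
          rw [mem_degreeLT, degree_eq_natDegree h0]
          have h6 : (h'.coeff q).natDegree < 4 * s := by omega
          exact_mod_cast h6
      · have h4 := h3 i
        rw [hh', ordGE_C_mul_iff] at h4
        · exact h4
        · intro hd
          have := (prime_X_sub_C (t i)).dvd_of_dvd_pow hd
          rw [dvd_iff_isRoot] at this
          simp only [IsRoot.def, eval_sub, eval_X, eval_C, sub_eq_zero] at this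
          exact ht0' i this.symm
    rw [hbot, Submodule.mem_bot] at hmem
    rw [hh', hmem, mul_zero]
  have := LinearMap.finrank_le_finrank_of_injective hinj
  rw [Module.finrank_pi_fintype] at this
  simpa using this

end balanced

section linalg

variable {k M : Type*} [Field k] [AddCommGroup M] [Module k M]

lemma finrank_map_add_inf (V W : Submodule k M) [Module.Finite k V] :
    Module.finrank k ↥(V.map W.mkQ) + Module.finrank k ↥(V ⊓ W) = Module.finrank k V := by
  have h1 := LinearMap.finrank_range_add_finrank_ker (W.mkQ ∘ₗ V.subtype)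
  have h2 : LinearMap.range (W.mkQ ∘ₗ V.subtype) = V.map W.mkQ := by
    rw [LinearMap.range_comp, Submodule.range_subtype]
  have h3 : Module.finrank k (LinearMap.ker (W.mkQ ∘ₗ V.subtype)) = Module.finrank k ↥(V ⊓ W) := by
    rw [LinearMap.ker_comp, Submodule.ker_mkQ]
    apply LinearEquiv.finrank_eq
    exact (Submodule.comapSubtypeEquivOfLe (p := V ⊓ W) (q := V) inf_le_left).symm.trans
      (LinearEquiv.ofEq _ _ (by
        ext x
        simp)) |>.symm
  rw [h2, h3] at h1
  exact h1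

end linalg

section multiples

variable {k : Type*} [Field k]

lemma C_dvd_of_dvd_taylor {P : k[X]} {x : k[X]} {h : k[X][X]} (hd : C P ∣ taylor x h) :
    C P ∣ h := by
  obtain ⟨w, hw⟩ := hd
  have := congrArg (taylor (-x)) hw
  rw [taylor_taylor, neg_add_cancel, taylor_zero, taylor_mul, taylor_C] at this
  exact ⟨_, this⟩

lemma pow_dvd_of_ordGE {θ₀ t₀ : k} {σ m : ℕ} {h : k[X][X]} (hdeg : h.natDegree ≤ σ)
    (ho : ordGE θ₀ t₀ (2 * σ + m) h) : C ((X - C t₀) ^ m) ∣ h := by
  apply C_dvd_of_dvd_taylor (x := C θ₀)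
  rw [C_dvd_iff_dvd_coeff]
  intro q
  rcases Nat.lt_or_ge σ q with hlt | hge
  · rw [coeff_eq_zero_of_natDegree_lt (by rw [natDegree_taylor]; omega)]
    exact dvd_zero _
  · exact (pow_dvd_pow _ (by omega)).trans (ho q)

lemma exists_order {θ₀ t₀ : k} {a : ℕ} {h : k[X][X]} (hdeg : h.natDegree ≤ a)
    (hnd : ¬ C (X - C t₀) ∣ h) :
    ∃ μ ≤ 2 * a, ordGE θ₀ t₀ μ h ∧ ¬ ordGE θ₀ t₀ (μ + 1) h := by
  have h1 : ¬ ordGE θ₀ t₀ (2 * a + 1) h := by
    intro ho
    have := pow_dvd_of_ordGE hdeg ho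
    rw [pow_one] at this
    exact hnd this
  by_contra hc
  have h2 : ∀ μ ≤ 2 * a + 1, ordGE θ₀ t₀ μ h := by
    intro μ
    induction μ with
    | zero => intro _; exact ordGE_zero_right _ _ _
    | succ μ ih =>
      intro hμ
      by_contra hc2
      exact hc ⟨μ, by omega, ih (by omega), hc2⟩
  exact h1 (h2 _ le_rfl)

lemma ordGE_of_C_pow_mul {θ₀ t₀ : k} {o m : ℕ} {h : k[X][X]}
    (ho : ordGE θ₀ t₀ (o + m) (C ((X - C t₀) ^ m) * h)) : ordGE θ₀ t₀ o h := by
  intro q
  have h1 := ho q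
  rw [taylor_mul, taylor_C, coeff_C_mul] at h1
  rcases Nat.lt_or_ge o (2 * q) with hlt | hge
  · have : o - 2 * q = 0 := by omega
    rw [this, pow_zero]
    exact one_dvd _
  · have e : o + m - 2 * q = m + (o - 2 * q) := by omega
    rw [e, pow_add] at h1
    exact (mul_dvd_mul_iff_left (pow_ne_zero _ (X_sub_C_ne_zero t₀))).mp h1

lemma tdeg_C (P : k[X]) : tdeg (C P) = P.natDegree := by
  unfold tdeg
  rw [Polynomial.Bivariate.swap_C, natDegree_map_eq_of_injective C_injective]

lemma exists_factor {θ t : Fin 4 → k} (ht : Function.Injective t) {σ : ℕ} (m : Fin 4 → ℕ)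
    {h : k[X][X]} (h0 : h ≠ 0) (hdeg : h.natDegree ≤ σ)
    (ho : ∀ i, ordGE (θ i) (t i) (2 * σ + m i) h) :
    ∃ h' : k[X][X], h = C (∏ i, (X - C (t i)) ^ m i) * h' ∧ h'.natDegree ≤ σ ∧
      (∀ i, ordGE (θ i) (t i) (2 * σ) h') ∧ h' ≠ 0 ∧ ∑ i, m i + tdeg h' = tdeg h := by
  have h1 : C (∏ i, (X - C (t i)) ^ m i) ∣ h := by
    rw [C_dvd_iff_dvd_coeff]
    intro q
    apply prod_pow_dvd ht
    intro i
    have := pow_dvd_of_ordGE hdeg (ho i)
    rw [C_dvd_iff_dvd_coeff] at this
    exact this q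
  obtain ⟨h', hh'⟩ := h1
  have hPi : (∏ i, (X - C (t i)) ^ m i : k[X]) ≠ 0 :=
    Finset.prod_ne_zero_iff.mpr fun i _ => pow_ne_zero _ (X_sub_C_ne_zero _)
  have hh0 : h' ≠ 0 := by
    rintro rfl
    rw [mul_zero] at hh'
    exact h0 hh'
  refine ⟨h', hh', ?_, fun i => ?_, hh0, ?_⟩
  · rw [hh', natDegree_C_mul hPi] at hdeg
    exact hdeg
  · have h2 := ho i
    rw [hh', ← Finset.mul_prod_erase _ _ (Finset.mem_univ i), map_mul, mul_assoc] at h2
    have h3 := ordGE_of_C_pow_mul h2
    rw [ordGE_C_mul_iff] at h3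
    · exact h3
    · intro hd
      obtain ⟨j, hj, hjd⟩ := (prime_X_sub_C (t i)).exists_mem_finset_dvd hd
      have h4 := (prime_X_sub_C (t i)).dvd_of_dvd_pow hjd
      rw [dvd_iff_isRoot] at h4
      simp only [IsRoot.def, eval_sub, eval_X, eval_C, sub_eq_zero] at h4
      rw [Finset.mem_erase] at hj
      exact hj.1 (ht h4).symm
  · rw [hh', tdeg_mul (C_ne_zero.mpr hPi) hh0, tdeg_C, natDegree_prod_pow]

instance finite_Wsub (θ t : Fin 4 → k) (s T o : ℕ) : Module.Finite k (Wsub θ t s T o) := by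
  let φ : Wsub θ t s T o →ₗ[k] (Fin (s + 1) → degreeLT k T) :=
    LinearMap.pi fun j => LinearMap.codRestrict (degreeLT k T)
      (((lcoeff k[X] (j : ℕ)).restrictScalars k) ∘ₗ (Wsub θ t s T o).subtype)
      (fun h => h.2.2.1 j)
  have hφ : ∀ h j, (φ h j : k[X]) = (h : k[X][X]).coeff j := fun h j => rfl
  apply Module.Finite.of_injective φ
  rw [injective_iff_map_eq_zero]
  rintro ⟨h, hh⟩ hφh
  apply Subtype.ext
  show h = 0
  ext1 j
  rw [coeff_zero]
  rcases Nat.lt_or_ge s j with hlt | hge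
  · exact coeff_eq_zero_of_natDegree_lt (by have := hh.1; omega)
  · have := congrArg (Subtype.val) (congrFun hφh ⟨j, by omega⟩)
    rw [hφ] at this
    exact this

/-- **Lemma 7**: the multiples of `g` among the forms. `c = tdeg g + 4a - ∑ μ_i` is the class
of `g`. -/
theorem finrank_multiples_le [Infinite k] {θ t : Fin 4 → k} (hbal : Balanced θ t)
    (ht : Function.Injective t) {g : k[X][X]} (hg : g ≠ 0) (μ : Fin 4 → ℕ)
    (hμ1 : ∀ i, ordGE (θ i) (t i) (μ i) g) (hμ2 : ∀ i, ¬ ordGE (θ i) (t i) (μ i + 1) g)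
    (hμa : ∀ i, μ i ≤ 2 * g.natDegree) {c : ℕ}
    (hc : c + ∑ i, μ i = tdeg g + 4 * g.natDegree) (s r : ℕ) :
    Module.finrank k ↥(Wsub θ t s (6 * s + r + 1) (2 * s) ⊓
      (Ideal.span {g}).restrictScalars k) ≤ (s + 1 - g.natDegree) * (2 * s + r + 1 - c) := by
  rcases Nat.lt_or_ge s g.natDegree with hlt | hge
  · have hbot : Wsub θ t s (6 * s + r + 1) (2 * s) ⊓ (Ideal.span {g}).restrictScalars k = ⊥ := by
      rw [Submodule.eq_bot_iff]
      rintro F ⟨⟨h1, -, -⟩, h2⟩
      have h3 : g ∣ F := Ideal.mem_span_singleton.mp h2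
      by_contra h0
      have := natDegree_le_of_dvd h3 h0
      omega
    rw [hbot, finrank_bot]
    exact Nat.zero_le _
  set a := g.natDegree with ha
  set m : Fin 4 → ℕ := fun i => 2 * a - μ i with hm
  have hsm : ∑ i, m i + ∑ i, μ i = 8 * a := by
    rw [← Finset.sum_add_distrib]
    have : ∀ i : Fin 4, m i + μ i = 2 * a := fun i => by
      have := hμa i
      simp only [hm]
      omega
    rw [Finset.sum_congr rfl (fun i _ => this i)]
    simp
    ring
  set T' := 6 * s + r + 1 - tdeg g - ∑ i, m i with hT'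
  set PP : k[X] := ∏ i, (X - C (t i)) ^ m i with hPi
  let ψ : Wsub θ t (s - a) T' (2 * (s - a)) →ₗ[k] k[X][X] :=
    (LinearMap.mulLeft k (g * C PP)) ∘ₗ (Wsub θ t (s - a) T' (2 * (s - a))).subtype
  have hψ : ∀ h, ψ h = g * C PP * (h : k[X][X]) := fun h => rfl
  have hle : Wsub θ t s (6 * s + r + 1) (2 * s) ⊓ (Ideal.span {g}).restrictScalars k ≤
      LinearMap.range ψ := by
    rintro F ⟨⟨h1, h2, h3⟩, h4⟩
    obtain ⟨h, rfl⟩ : g ∣ F := Ideal.mem_span_singleton.mp h4
    by_cases h0 : h = 0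
    · rw [h0, mul_zero]; exact Submodule.zero_mem _
    have hgh : g * h ≠ 0 := mul_ne_zero hg h0
    rw [natDegree_mul hg h0] at h1
    rw [tdeg_lt_iff hgh, tdeg_mul hg h0] at h2
    have hordh : ∀ i, ordGE (θ i) (t i) (2 * (s - a) + m i) h := by
      intro i
      have h5 := h3 i
      have e : 2 * s = μ i + (2 * (s - a) + m i) := by
        have := hμa i
        simp only [hm]
        omega
      rw [e] at h5
      exact ordGE_cancel (hμ1 i) (hμ2 i) _ h5
    obtain ⟨h', e1, e2, e3, e4, e5⟩ := exists_factor ht m h0 (by omega) hordh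
    have hm' : h' ∈ Wsub θ t (s - a) T' (2 * (s - a)) := by
      refine ⟨e2, ?_, e3⟩
      rw [tdeg_lt_iff e4]
      omega
    refine ⟨⟨h', hm'⟩, ?_⟩
    rw [hψ, e1]
    ring
  have h6 : Module.finrank k (LinearMap.range ψ) ≤ (s - a + 1) * (T' - 4 * (s - a)) :=
    (LinearMap.finrank_range_le ψ).trans (finrank_Wsub_le hbal ht (s - a) T')
  have h7 := Submodule.finrank_mono hle
  have e8 : s - a + 1 = s + 1 - a := by omega
  have e9 : T' - 4 * (s - a) = 2 * s + r + 1 - c := by omega
  rw [e8, e9] at h6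
  exact h7.trans h6

/-- the rank of the forms of bidegree `(r,s)` on the curve `g = 0` -/
theorem le_finrank_forms_mod [Infinite k] {θ t : Fin 4 → k} (hbal : Balanced θ t)
    (hθ : Function.Injective θ) (ht : Function.Injective t) {g : k[X][X]} (hg : g ≠ 0)
    (μ : Fin 4 → ℕ)
    (hμ1 : ∀ i, ordGE (θ i) (t i) (μ i) g) (hμ2 : ∀ i, ¬ ordGE (θ i) (t i) (μ i + 1) g)
    (hμa : ∀ i, μ i ≤ 2 * g.natDegree) {c : ℕ}
    (hc : c + ∑ i, μ i = tdeg g + 4 * g.natDegree) (s r : ℕ) (hr : 1 ≤ r) :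
    (s + 1) * (2 * s + 1 + r) ≤
      Module.finrank k ↥((tA k r * vA θ t ^ s).map
        ((Ideal.span {g}).restrictScalars k).mkQ) +
      (s + 1 - g.natDegree) * (2 * s + r + 1 - c) := by
  have hfin : Module.Finite k ↥(tA k r * vA θ t ^ s) := Module.Finite.iff_fg.mpr (fg_forms θ t r s)
  have h2 := le_finrank_formsA θ t hθ ht r s hr
  have h1 := finrank_map_add_inf (tA k r * vA θ t ^ s) ((Ideal.span {g}).restrictScalars k)
  have h3 : Module.finrank k ↥(tA k r * vA θ t ^ s ⊓ (Ideal.span {g}).restrictScalars k) ≤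
      (s + 1 - g.natDegree) * (2 * s + r + 1 - c) := by
    refine le_trans ?_ (finrank_multiples_le hbal ht hg μ hμ1 hμ2 hμa hc s r)
    apply Submodule.finrank_mono
    exact inf_le_inf_right _ (forms_le_Wsub θ t r s)
  omega

end multiples

section extend

variable {k V : Type*} [Field k] [AddCommGroup V] [Module k V]

/-- extension of an independent family by elements of a spanning set -/
lemma extend_indep (S : Set V) {n : ℕ} (x : Fin n → V) (hx : LinearIndependent k x) (N : ℕ)
    (hn : n ≤ N) (hS : N ≤ Module.finrank k (Submodule.span k S)) :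
    ∃ y : Fin N → V, LinearIndependent k y ∧ (∀ (i : Fin N) (h : (i : ℕ) < n), y i = x ⟨i, h⟩) ∧
      ∀ i : Fin N, n ≤ (i : ℕ) → y i ∈ S := by
  induction N with
  | zero =>
    obtain rfl : n = 0 := by omega
    exact ⟨x, hx, fun i h => rfl, fun i => i.elim0⟩
  | succ N ih =>
    rcases Nat.lt_or_ge N n with hlt | hge
    · obtain rfl : n = N + 1 := by omega
      exact ⟨x, hx, fun i h => rfl, fun i h => absurd i.2 (by omega)⟩
    obtain ⟨y, hy1, hy2, hy3⟩ := ih hge (by omega)
    obtain ⟨z, hzS, hz⟩ : ∃ z ∈ S, z ∉ Submodule.span k (Set.range y) := by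
      by_contra hc
      have hsub : Submodule.span k S ≤ Submodule.span k (Set.range y) := by
        rw [Submodule.span_le]
        intro z hz
        by_contra hz2
        exact hc ⟨z, hz, hz2⟩
      have h1 : Module.Finite k (Submodule.span k (Set.range y)) :=
        Module.Finite.span_of_finite k (Set.finite_range y)
      have h2 := Submodule.finrank_mono hsub
      have h3 := finrank_span_eq_card hy1
      rw [Fintype.card_fin] at h3
      omega
    refine ⟨Fin.snoc y z, ?_, ?_, ?_⟩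
    · rw [linearIndependent_finSnoc]
      exact ⟨hy1, hz⟩
    · intro i h
      have hi : (i : ℕ) < N := by omega
      obtain ⟨i, rfl⟩ : ∃ j : Fin N, i = Fin.castSucc j := ⟨⟨i, hi⟩, rfl⟩
      rw [Fin.snoc_castSucc]
      exact hy2 i h
    · intro i h
      rcases Nat.lt_or_ge (i : ℕ) N with hi | hi
      · obtain ⟨i, rfl⟩ : ∃ j : Fin N, i = Fin.castSucc j := ⟨⟨i, hi⟩, rfl⟩
        rw [Fin.snoc_castSucc]
        exact hy3 i h
      · obtain rfl : i = Fin.last N := by
          apply Fin.ext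
          have := i.2
          simp only [Fin.val_last]
          omega
        rw [Fin.snoc_last]
        exact hzS

end extend

section modg

variable {k : Type*} [Field k]

/-- independent monomial forms modulo `g`, extending a given independent family -/
theorem exists_indep_monomials_mod [Infinite k] {θ t : Fin 4 → k} (hbal : Balanced θ t)
    (hθ : Function.Injective θ) (ht : Function.Injective t) {g : k[X][X]} (hg : g ≠ 0)
    (μ : Fin 4 → ℕ)
    (hμ1 : ∀ i, ordGE (θ i) (t i) (μ i) g) (hμ2 : ∀ i, ¬ ordGE (θ i) (t i) (μ i + 1) g)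
    (hμa : ∀ i, μ i ≤ 2 * g.natDegree) {c : ℕ}
    (hc : c + ∑ i, μ i = tdeg g + 4 * g.natDegree) (s r : ℕ) (hr : 1 ≤ r)
    (b : Fin 4 → k[X][X]) (hb : Submodule.span k (Set.range b) = vA θ t) {n : ℕ}
    (x : Fin n → k[X][X] ⧸ (Ideal.span {g}).restrictScalars k) (hx : LinearIndependent k x)
    (N : ℕ) (hn : n ≤ N)
    (hN : N + (s + 1 - g.natDegree) * (2 * s + r + 1 - c) ≤ (s + 1) * (2 * s + 1 + r)) :
    ∃ y : Fin N → k[X][X] ⧸ (Ideal.span {g}).restrictScalars k, LinearIndependent k y ∧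
      (∀ (i : Fin N) (h : (i : ℕ) < n), y i = x ⟨i, h⟩) ∧
      ∀ i : Fin N, n ≤ (i : ℕ) → ∃ (e : ℕ) (m : Fin 4 → ℕ), e ≤ r ∧ ∑ j, m j = s ∧
        y i = ((Ideal.span {g}).restrictScalars k).mkQ (C (X ^ e) * ∏ j, b j ^ m j) := by
  set S : Set (k[X][X] ⧸ (Ideal.span {g}).restrictScalars k) :=
    ((Ideal.span {g}).restrictScalars k).mkQ '' {F : k[X][X] | ∃ a ≤ r, ∃ m : Fin 4 → ℕ,
      ∑ j, m j = s ∧ F = C (X ^ a) * ∏ j, b j ^ m j} with hS
  have h1 := le_finrank_forms_mod hbal hθ ht hg μ hμ1 hμ2 hμa hc s r hr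
  have h2 : (tA k r * vA θ t ^ s).map ((Ideal.span {g}).restrictScalars k).mkQ =
      Submodule.span k S := by
    rw [forms_le_span θ t b hb, Submodule.map_span]
  rw [h2] at h1
  obtain ⟨y, hy1, hy2, hy3⟩ := extend_indep S x hx N hn (by omega)
  refine ⟨y, hy1, hy2, fun i hi => ?_⟩
  obtain ⟨F, ⟨a, ha, m, hm, rfl⟩, hF⟩ := hy3 i hi
  exact ⟨a, m, ha, hm, hF.symm⟩

/-- the class is non-negative -/
theorem sum_order_le [Infinite k] {θ t : Fin 4 → k} (hbal : Balanced θ t)
    (ht : Function.Injective t) {g : k[X][X]} (hg : g ≠ 0) (μ : Fin 4 → ℕ)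
    (hμ : ∀ i, ordGE (θ i) (t i) (μ i) g) : ∑ i, μ i ≤ tdeg g + 4 * g.natDegree := by
  by_contra hc
  rw [not_le] at hc
  apply hg
  apply eq_zero_of_order hbal ht μ le_rfl (T := tdeg g + 1) _ hμ (by omega)
  rw [tdeg_lt_iff hg]
  omega

end modg

section noPoint

variable {F K k : Type*} [Field F] [Field K] [Field k] [Algebra F K] [Algebra F k]

/-- the extension of scalars -/
noncomputable abbrev mapk (F k : Type*) [Field F] [Field k] [Algebra F k] : F[X][X] →+* k[X][X] :=
  mapRingHom (mapRingHom (algebraMap F k))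

/-- a primitive polynomial has no factor `t - x` even after an extension of scalars -/
lemma not_C_dvd_map {g : F[X][X]} (hg : g.IsPrimitive) (x : k) :
    ¬ C (X - C x) ∣ mapk F k g := by
  intro hd
  rw [C_dvd_iff_dvd_coeff] at hd
  set I : Ideal F[X] := Ideal.span (Set.range g.coeff) with hI
  obtain ⟨d, hdI⟩ := (IsPrincipalIdealRing.principal I).principal
  have hdd : ∀ q, d ∣ g.coeff q := by
    intro q
    have h1 : g.coeff q ∈ I := Ideal.subset_span ⟨q, rfl⟩
    rw [hdI] at h1
    exact Ideal.mem_span_singleton.mp h1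
  have hu : IsUnit d := hg d (by rw [C_dvd_iff_dvd_coeff]; exact hdd)
  have h1 : (1 : F[X]) ∈ I := by
    rw [hdI]
    exact Ideal.mem_span_singleton.mpr hu.dvd
  have h2 : I ≤ RingHom.ker ((evalRingHom x).comp (mapRingHom (algebraMap F k))) := by
    rw [hI, Ideal.span_le]
    rintro _ ⟨q, rfl⟩
    have h3 := hd q
    rw [dvd_iff_isRoot] at h3
    simpa [mapk] using h3
  have h3 := h2 h1
  rw [RingHom.mem_ker, map_one] at h3
  exact one_ne_zero h3

lemma hsub_map {R S : Type*} [CommRing R] [CommRing S] (f : R →+* S) (s : ℕ) (h : R[X]) (A B : R) :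
    hsub s (h.map f) (f A) (f B) = f (hsub s h A B) := by
  unfold hsub
  rw [map_sum]
  apply Finset.sum_congr rfl
  intro j _
  simp

/-- an irreducible polynomial of `n`-degree `≥ 2` has no root `-B/A` -/
lemma false_of_hsub_eq_zero {g : F[X][X]} (hg : Irreducible g) (hdeg : 2 ≤ g.natDegree)
    {A B : F[X]} (hAB : A ≠ 0 ∨ B ≠ 0) (h : hsub g.natDegree g A B = 0) : False := by
  have hg0 : g ≠ 0 := hg.ne_zero
  by_cases hA : A = 0
  · have hB : B ≠ 0 := hAB.resolve_left (fun h => h hA)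
    unfold hsub at h
    rw [Finset.sum_range_succ, Finset.sum_eq_zero] at h
    · rw [zero_add, Nat.sub_self, pow_zero, mul_one] at h
      rcases mul_eq_zero.mp h with h1 | h1
      · rw [coeff_natDegree, leadingCoeff_eq_zero] at h1
        exact hg0 h1
      · exact hB (neg_eq_zero.mp (pow_eq_zero_iff (by omega) |>.mp h1))
    · intro j hj
      rw [Finset.mem_range] at hj
      rw [hA, zero_pow (by omega), mul_zero]
  · have hprim := hg.isPrimitive (by omega)
    have hirr := (hprim.irreducible_iff_irreducible_map_fraction_map (K := FractionRing F[X])).mp hg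
    set f := algebraMap F[X] (FractionRing F[X]) with hf
    have hfA : f A ≠ 0 := by
      rw [hf, Ne, FaithfulSMul.algebraMap_eq_zero_iff]
      exact hA
    have hroot : IsRoot (g.map f) (-(f B) / f A) := by
      rw [IsRoot.def]
      have h1 : (f A) ^ g.natDegree * (g.map f).eval (-(f B) / f A) = 0 := by
        have h2 := congrArg f h
        rw [map_zero] at h2
        refine Eq.trans ?_ h2
        unfold hsub
        rw [eval_eq_sum_range, natDegree_map_eq_of_injective
          (FaithfulSMul.algebraMap_injective F[X] (FractionRing F[X])), Finset.mul_sum, map_sum]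
        apply Finset.sum_congr rfl
        intro j hj
        rw [Finset.mem_range] at hj
        have e : g.natDegree = j + (g.natDegree - j) := by omega
        rw [coeff_map]
        simp only [map_mul, map_pow, map_neg]
        conv_lhs => rw [e, pow_add, div_pow]
        field_simp
      exact (mul_eq_zero.mp h1).resolve_left (pow_ne_zero _ hfA)
    have h1 := degree_eq_one_of_irreducible_of_root hirr hroot
    have h2 : (g.map f).natDegree = 1 := natDegree_eq_of_degree_eq_some h1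
    rw [natDegree_map_eq_of_injective
      (FaithfulSMul.algebraMap_injective F[X] (FractionRing F[X]))] at h2
    omega

end noPoint

section noPoint2

variable {F K k : Type*} [Field F] [Field K] [Field k] [Algebra F K] [Algebra F k]

/-- the conditions on a rational `E = A n + B`: double vanishing at the point over `K` and
vanishing at the rational point `(t0, n0)` -/
noncomputable def condQ (θ0 τ0 : K) (t0 n0 : F) :
    (degreeLT F 5 × degreeLT F 5) →ₗ[F] ((Fin 2 → K) × F) :=
  LinearMap.prod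
    (LinearMap.pi fun d =>
      ((lcoeff K (d : ℕ)).restrictScalars F) ∘ₗ ((taylor τ0).restrictScalars F) ∘ₗ
        (((Polynomial.mapAlgHom (Algebra.ofId F K)).toLinearMap ∘ₗ (degreeLT F 5).subtype ∘ₗ
            LinearMap.snd F _ _) +
          (LinearMap.mulLeft F (C θ0)) ∘ₗ
            ((Polynomial.mapAlgHom (Algebra.ofId F K)).toLinearMap ∘ₗ (degreeLT F 5).subtype ∘ₗ
            LinearMap.fst F _ _)))
    ((leval t0) ∘ₗ ((degreeLT F 5).subtype ∘ₗ LinearMap.snd F _ _ +
      n0 • ((degreeLT F 5).subtype ∘ₗ LinearMap.fst F _ _)))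

lemma condQ_fst (θ0 τ0 : K) (t0 n0 : F) (z : degreeLT F 5 × degreeLT F 5) (d : Fin 2) :
    (condQ θ0 τ0 t0 n0 z).1 d = (taylor τ0 ((z.2 : F[X]).map (algebraMap F K) +
      C θ0 * (z.1 : F[X]).map (algebraMap F K))).coeff d := rfl

lemma condQ_snd (θ0 τ0 : K) (t0 n0 : F) (z : degreeLT F 5 × degreeLT F 5) :
    (condQ θ0 τ0 t0 n0 z).2 = (z.2 : F[X]).eval t0 + n0 * (z.1 : F[X]).eval t0 := by
  simp [condQ, leval_apply]

lemma exists_rational_E [FiniteDimensional F K] (hK : Module.finrank F K ≤ 4) (θ0 τ0 : K)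
    (t0 n0 : F) : ∃ A B : F[X], (A ≠ 0 ∨ B ≠ 0) ∧ A.natDegree ≤ 4 ∧ B.natDegree ≤ 4 ∧
      (X - C τ0) ^ 2 ∣ B.map (algebraMap F K) + C θ0 * A.map (algebraMap F K) ∧
      B.eval t0 + n0 * A.eval t0 = 0 := by
  have hlt : Module.finrank F ((Fin 2 → K) × F) <
      Module.finrank F (degreeLT F 5 × degreeLT F 5) := by
    rw [Module.finrank_prod, Module.finrank_prod, finrank_degreeLT, Module.finrank_pi_fintype,
      Module.finrank_self]
    simp
    omega
  have hker := LinearMap.ker_ne_bot_of_finrank_lt (f := condQ θ0 τ0 t0 n0) hlt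
  obtain ⟨z, hz, hz0⟩ := Submodule.exists_mem_ne_zero_of_ne_bot hker
  rw [LinearMap.mem_ker] at hz
  refine ⟨z.1, z.2, ?_, natDegree_le_of_mem_degreeLT z.1.2, natDegree_le_of_mem_degreeLT z.2.2,
    ?_, ?_⟩
  · by_contra hc
    rw [not_or, not_not, not_not] at hc
    apply hz0
    apply Prod.ext
    · exact Subtype.ext hc.1
    · exact Subtype.ext hc.2
  · apply sq_dvd_of_coeff
    intro d hd
    have := congrFun (congrArg Prod.fst hz) ⟨d, hd⟩
    rw [condQ_fst] at this
    exact this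
  · have := congrArg Prod.snd hz
    rw [condQ_snd] at this
    exact this

lemma mapk_injective : Function.Injective (mapk F k) :=
  map_injective _ (map_injective _ (algebraMap F k).injective)

lemma tdeg_map (g : F[X][X]) : tdeg (mapk F k g) = tdeg g := by
  by_cases h0 : g = 0
  · simp [h0, tdeg]
  have hinj : Function.Injective (mapk F k) :=
    map_injective _ (map_injective _ (algebraMap F k).injective)
  have h1 : mapk F k g ≠ 0 := by
    intro h; exact h0 (hinj (by rw [h, map_zero]))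
  have key : ∀ T, tdeg (mapk F k g) < T ↔ tdeg g < T := by
    intro T
    rw [← tdeg_lt_iff h1, ← tdeg_lt_iff h0]
    refine forall_congr' fun q => ?_
    rw [mem_degreeLT, mem_degreeLT]
    have e : (mapk F k g).coeff q = (g.coeff q).map (algebraMap F k) := by
      simp [mapk]
    rw [e, degree_map]
  have h2 := (key (tdeg g + 1)).mpr (by omega)
  have h3 := (key (tdeg (mapk F k g) + 1)).mp (by omega)
  omega

/-- **Lemma 8**: a curve of class `c = 0` and `n`-degree `≥ 2` carries no rational point. -/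
theorem no_rational_point [FiniteDimensional F K] (hK : Module.finrank F K ≤ 4)
    (σ : Fin 4 → K →ₐ[F] k) (θ0 τ0 : K) (ht : Function.Injective fun i => σ i τ0)
    {g : F[X][X]} (hg : Irreducible g) (hdeg : 2 ≤ g.natDegree) (μ : Fin 4 → ℕ)
    (hμ : ∀ i, ordGE (σ i θ0) (σ i τ0) (μ i) (mapk F k g))
    (hc : tdeg g + 4 * g.natDegree ≤ ∑ i, μ i) (t0 n0 : F)
    (ht0 : ∀ i, algebraMap F k t0 ≠ σ i τ0) (hz : (g.eval (C n0)).eval t0 = 0) : False := by
  obtain ⟨A, B, hAB, dA, dB, hdiv, hpt⟩ := exists_rational_E hK θ0 τ0 t0 n0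
  set f := algebraMap F k with hf
  have hg0 : g ≠ 0 := hg.ne_zero
  have hG0 : mapk F k g ≠ 0 := by
    intro h
    apply hg0
    exact mapk_injective (k := k) (by rw [map_zero]; exact h)
  have hGdeg : (mapk F k g).natDegree ≤ g.natDegree := natDegree_map_le
  -- the divisibilities
  have hP : ∀ i, (X - C (σ i τ0)) ^ 2 ∣ B.map f + C (σ i θ0) * A.map f := by
    intro i
    have h1 := map_dvd (mapRingHom (σ i : K →+* k)) hdiv
    have e : ∀ P : F[X], (P.map (algebraMap F K)).map (σ i : K →+* k) = P.map f := by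
      intro P
      rw [Polynomial.map_map]
      congr 1
      ext x
      simp [hf]
    simp only [map_pow, map_sub, map_add, map_mul, coe_mapRingHom, map_X, map_C, e] at h1
    exact h1
  set H := hsub g.natDegree g A B with hH
  have hHk : hsub g.natDegree (mapk F k g) (A.map f) (B.map f) = H.map f :=
    hsub_map (mapRingHom f) g.natDegree g A B
  have h1 : ∀ i, (X - C (σ i τ0)) ^ μ i ∣ H.map f := by
    intro i
    rw [← hHk]
    exact hsub_dvd _ (X - C (σ i τ0)) (C (σ i θ0)) (μ i) _ hGdeg (hμ i) _ _ (hP i)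
  have h2 := prod_pow_dvd ht μ h1
  have h3 : (X - C (f t0)) ∣ H.map f := by
    rw [dvd_iff_isRoot, IsRoot.def, eval_map, eval₂_at_apply]
    have : H.eval t0 = 0 := by
      have hB : B.eval t0 = -(n0 * A.eval t0) := by
        have := eq_neg_of_add_eq_zero_left hpt
        exact this
      rw [hH]
      unfold hsub
      rw [eval_finsetSum]
      have h5 : (A.eval t0) ^ g.natDegree * (g.eval (C n0)).eval t0 = 0 := by
        rw [hz, mul_zero]
      refine Eq.trans ?_ h5
      have e0 : g.eval (C n0) = ∑ i ∈ Finset.range (g.natDegree + 1), g.coeff i * (C n0) ^ i :=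
        eval_eq_sum_range (p := g) (C n0)
      rw [e0, eval_finsetSum, Finset.mul_sum]
      apply Finset.sum_congr rfl
      intro j hj
      rw [Finset.mem_range] at hj
      simp only [eval_mul, eval_pow, eval_neg, eval_C, hB, neg_neg]
      have e : g.natDegree = j + (g.natDegree - j) := by omega
      conv_rhs => rw [e, pow_add]
      rw [mul_pow]
      ring
    rw [this, map_zero]
  have hcop : IsCoprime (∏ i, (X - C (σ i τ0)) ^ μ i) (X - C (f t0)) := by
    apply IsCoprime.prod_left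
    intro i _
    apply IsCoprime.pow_left
    apply isCoprime_X_sub_C_of_isUnit_sub
    rw [isUnit_iff_ne_zero, sub_ne_zero]
    exact (ht0 i).symm
  have h4 := hcop.mul_dvd h2 h3
  have h5 : H.map f ∈ degreeLT k (tdeg g + 1 + 4 * g.natDegree) := by
    rw [← hHk]
    apply hsub_mem_degreeLT
    · rw [tdeg_lt_iff hG0, tdeg_map]
      omega
    · rw [natDegree_map]; exact dA
    · rw [natDegree_map]; exact dB
  have h6 : H = 0 := by
    by_contra h0
    have h0' : H.map f ≠ 0 := (Polynomial.map_ne_zero_iff f.injective).mpr h0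
    have h7 := natDegree_le_of_dvd h4 h0'
    rw [natDegree_mul (Finset.prod_ne_zero_iff.mpr fun i _ => pow_ne_zero _ (X_sub_C_ne_zero _))
      (X_sub_C_ne_zero _), natDegree_prod_pow, natDegree_X_sub_C] at h7
    rw [mem_degreeLT, degree_eq_natDegree h0'] at h5
    have h8 : (H.map f).natDegree < tdeg g + 1 + 4 * g.natDegree := by exact_mod_cast h5
    omega
  exact false_of_hsub_eq_zero hg hdeg hAB h6

end noPoint2

end Pool.Agent.Lib.SQF.WC
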