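import Pool.Agent.Lib.SQF.WRat
import Pool.Agent.Lib.SQF.Bez2

/-!
# Curves of class `≤ 1`

`class_one`: over a balanced slice every `H ∈ W(a,4a+1,2a)` is `∑ (λ_l + μ_l t) E1^l E2^(a-l)`.
`no_pair`: an irreducible `G` of `n`-degree `≥ 2` and an integral `E = A n + B` cannot meet in more
points than Bezout allows.
-/

set_option autoImplicit false

open Polynomial

namespace Pool.Agent.Lib.SQF

section classOne

variable {k : Type*} [Field k]

/-- the pencil forms of degree `a` with coefficients linear in `t` -/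
noncomputable def pencilMap (E1 E2 : k[X][X]) (a : ℕ) : (Fin (a + 1) → k × k) →ₗ[k] k[X][X] where
  toFun c := ∑ l : Fin (a + 1), C (C (c l).1 + C (c l).2 * X) * (E1 ^ (l : ℕ) * E2 ^ (a - l))
  map_add' := by
    intro c d
    rw [← Finset.sum_add_distrib]
    apply Finset.sum_congr rfl
    intro l _
    simp only [Pi.add_apply, Prod.fst_add, Prod.snd_add, map_add, map_mul]
    ring
  map_smul' := by
    intro r c
    rw [RingHom.id_apply, Finset.smul_sum]
    apply Finset.sum_congr rfl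
    intro l _
    have e : ∀ F : k[X][X], r • F = C (C r) * F := by
      intro F
      rw [← smul_eq_C_mul]
      ext a b
      simp
    rw [e]
    simp only [Pi.smul_apply, Prod.smul_fst, Prod.smul_snd, smul_eq_mul, map_mul, map_add]
    ring

lemma pencilMap_apply (E1 E2 : k[X][X]) (a : ℕ) (c : Fin (a + 1) → k × k) :
    pencilMap E1 E2 a c =
      ∑ l : Fin (a + 1), C (C (c l).1 + C (c l).2 * X) * (E1 ^ (l : ℕ) * E2 ^ (a - l)) := rfl

lemma lin_mem_Wsub (θ τ : Fin 4 → k) (p q : k) :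
    (C (C p + C q * X) : k[X][X]) ∈ WC.Wsub θ τ 0 (1 + 1) 0 := by
  refine ⟨by rw [natDegree_C], fun j => ?_, fun i => WC.ordGE_zero_right _ _ _⟩
  rw [coeff_C]
  split_ifs
  · apply WC.mem_degreeLT_of_natDegree_le
    rw [add_comm]
    exact natDegree_linear_le
  · exact Submodule.zero_mem _

lemma pencilMap_mem {θ τ : Fin 4 → k} {E1 E2 : k[X][X]} (h1 : E1 ∈ WC.Wsub θ τ 1 (4 + 1) 2)
    (h2 : E2 ∈ WC.Wsub θ τ 1 (4 + 1) 2) (a : ℕ) (c : Fin (a + 1) → k × k) :
    pencilMap E1 E2 a c ∈ WC.Wsub θ τ a (4 * a + 2) (2 * a) := by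
  rw [pencilMap_apply]
  apply Submodule.sum_mem
  intro l _
  have hl : (l : ℕ) ≤ a := by have := l.2; omega
  have h3 := WC.mul_mem_Wsub (pow_mem_Wsub h1 (l : ℕ)) (pow_mem_Wsub h2 (a - l))
  have h4 := WC.mul_mem_Wsub (lin_mem_Wsub θ τ (c l).1 (c l).2) h3
  have e1 : 0 + ((l : ℕ) + (a - l)) = a := by omega
  have e2 : 1 + (4 * (l : ℕ) + 4 * (a - l)) + 1 = 4 * a + 2 := by omega
  have e3 : 0 + (2 * (l : ℕ) + 2 * (a - l)) = 2 * a := by omega
  rw [e1, e2, e3] at h4
  exact h4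

lemma pencilMap_injective {A1 B1 A2 B2 : k[X]} (hA2 : A2 ≠ 0) (hΔ : A1 * B2 - A2 * B1 ≠ 0) (a : ℕ) :
    Function.Injective (pencilMap (C A1 * X + C B1) (C A2 * X + C B2) a) := by
  rw [injective_iff_map_eq_zero]
  intro c hc
  rw [pencilMap_apply] at hc
  set d : ℕ → k[X] := fun j => if h : j < a + 1 then
    (-1) ^ j * (C (c ⟨j, h⟩).1 + C (c ⟨j, h⟩).2 * X) else 0 with hd
  have h0 : ∑ j ∈ Finset.range (a + 1), C (d j) * (-(C B1 + X * C A1)) ^ j *
      (C B2 + X * C A2 : k[X][X]) ^ (a - j) = 0 := by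
    rw [Finset.sum_range]
    refine Eq.trans ?_ hc
    apply Finset.sum_congr rfl
    intro l _
    have e : d (l : ℕ) = (-1) ^ (l : ℕ) * (C (c l).1 + C (c l).2 * X) := by
      simp only [hd]
      rw [dif_pos l.2]
    have e2 : (-(C B1 + X * C A1) : k[X][X]) ^ (l : ℕ) =
        (-1) ^ (l : ℕ) * (C A1 * X + C B1) ^ (l : ℕ) := by
      rw [← mul_pow]
      congr 1
      ring
    have e3 : (C B2 + X * C A2 : k[X][X]) = C A2 * X + C B2 := by ring
    rw [e, e2, e3]
    have e4 : ((-1 : k[X][X]) ^ (l : ℕ)) * (-1) ^ (l : ℕ) = 1 := by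
      have e6 : ((-1 : k[X][X]) * (-1)) = 1 := by ring
      rw [← mul_pow, e6, one_pow]
    have e5 : (C ((-1 : k[X]) ^ (l : ℕ) * (C (c l).1 + C (c l).2 * X)) : k[X][X]) =
        (-1) ^ (l : ℕ) * C (C (c l).1 + C (c l).2 * X) := by
      rw [map_mul, map_pow, map_neg, map_one]
    rw [e5]
    linear_combination (C (C (c l).1 + C (c l).2 * X) * (C A1 * X + C B1) ^ (l : ℕ) *
      (C A2 * X + C B2) ^ (a - l)) * e4
  have h1 := WC.pencil_zero B2 A2 B1 A1 hA2 (by
    intro h; apply hΔ; rw [← h]; ring) a d h0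
  ext l
  · have h2 := h1 l (by have := l.2; omega)
    simp only [hd] at h2
    rw [dif_pos l.2] at h2
    have h3 := (mul_eq_zero.mp h2).resolve_left (pow_ne_zero _ (neg_ne_zero.mpr one_ne_zero))
    have h4 := congrArg (fun P : k[X] => P.coeff 0) h3
    simpa using h4
  · have h2 := h1 l (by have := l.2; omega)
    simp only [hd] at h2
    rw [dif_pos l.2] at h2
    have h3 := (mul_eq_zero.mp h2).resolve_left (pow_ne_zero _ (neg_ne_zero.mpr one_ne_zero))
    have h4 := congrArg (fun P : k[X] => P.coeff 1) h3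
    simpa using h4

/-- **class one**: `W(a,4a+1,2a)` is spanned by the pencil -/
theorem class_one [Infinite k] {θ τ : Fin 4 → k} (hbal : WC.Balanced θ τ)
    (hτ : Function.Injective τ) {A1 B1 A2 B2 : k[X]}
    (h1 : C A1 * X + C B1 ∈ WC.Wsub θ τ 1 (4 + 1) 2)
    (h2 : C A2 * X + C B2 ∈ WC.Wsub θ τ 1 (4 + 1) 2) (hA2 : A2 ≠ 0)
    (hΔ : A1 * B2 - A2 * B1 ≠ 0) (a : ℕ) {H : k[X][X]}
    (hH : H ∈ WC.Wsub θ τ a (4 * a + 2) (2 * a)) :
    ∃ c : Fin (a + 1) → k × k, H = pencilMap (C A1 * X + C B1) (C A2 * X + C B2) a c := by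
  have hinj := pencilMap_injective (B1 := B1) hA2 hΔ a
  have hdim := WC.finrank_Wsub_le hbal hτ a (4 * a + 2)
  have e : 4 * a + 2 - 4 * a = 2 := by omega
  rw [e] at hdim
  have hdom : Module.finrank k (Fin (a + 1) → k × k) = (a + 1) * 2 := by
    rw [Module.finrank_pi_fintype]
    simp
  have hle : LinearMap.range (pencilMap (C A1 * X + C B1) (C A2 * X + C B2) a) ≤
      WC.Wsub θ τ a (4 * a + 2) (2 * a) := by
    rintro _ ⟨c, rfl⟩
    exact pencilMap_mem h1 h2 a c
  have h3 := LinearMap.finrank_range_of_inj hinj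
  have heq := Submodule.eq_of_le_of_finrank_le hle (by omega)
  rw [← heq] at hH
  obtain ⟨c, hc⟩ := hH
  exact ⟨c, hc.symm⟩

end classOne

section noPair

lemma hsub_mem_degreeLT' {k : Type*} [Field k] {h : k[X][X]} {a T D : ℕ}
    (hT : ∀ q, h.coeff q ∈ degreeLT k T) {A B : k[X]}
    (hA : A.natDegree ≤ D) (hB : B.natDegree ≤ D) : WC.hsub a h A B ∈ degreeLT k (T + D * a) := by
  unfold WC.hsub
  apply Submodule.sum_mem
  intro j hj
  rw [Finset.mem_range] at hj
  rw [mul_assoc]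
  apply WC.mem_degreeLT_mul (hT j)
  refine natDegree_mul_le.trans ?_
  have h1 : ((-B) ^ j).natDegree ≤ j * D := by
    refine natDegree_pow_le.trans ?_
    rw [natDegree_neg]
    exact Nat.mul_le_mul_left j hB
  have h2 : (A ^ (a - j)).natDegree ≤ (a - j) * D :=
    natDegree_pow_le.trans (Nat.mul_le_mul_left _ hA)
  have h3 : j * D + (a - j) * D = D * a := by
    rw [← add_mul, mul_comm]
    congr 1
    omega
  omega

/-- Bezout for an irreducible `G` of `n`-degree at least 2 and an integral `A n + B` -/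
theorem no_pair {G : ℤ[X][X]} (hG : Irreducible G) (ha : 2 ≤ G.natDegree) {τ θ : Fin 4 → ℂ}
    (hτ : Function.Injective τ) {μ : Fin 4 → ℕ} (hμ : ∀ i, WO (τ i) (θ i) (μ i) (toC G)) {D : ℕ}
    (A B : ℤ[X]) (hAB : A ≠ 0 ∨ B ≠ 0) (dA : A.natDegree ≤ D) (dB : B.natDegree ≤ D)
    (hP : ∀ i, (X - C (τ i)) ^ 2 ∣ B.map (Int.castRingHom ℂ) +
      C (θ i) * A.map (Int.castRingHom ℂ))
    (hsum : (Bivariate.swap (toC G)).natDegree + D * G.natDegree < ∑ i, μ i) : False := by
  set φ := Int.castRingHom ℂ with hφ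
  have hφinj : Function.Injective φ := RingHom.injective_int _
  have hG0 : G ≠ 0 := hG.ne_zero
  have hmi : Function.Injective (mapRingHom φ) := Polynomial.map_injective _ hφinj
  have htoC0 : toC G ≠ 0 := (Polynomial.map_ne_zero_iff hmi).mpr hG0
  have hdeg : (toC G).natDegree ≤ G.natDegree := natDegree_map_le
  set H := WC.hsub G.natDegree G A B with hH
  have hHk : WC.hsub G.natDegree (toC G) (A.map φ) (B.map φ) = H.map φ :=
    WC.hsub_map (mapRingHom φ) G.natDegree G A B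
  have h1 : ∀ i, (X - C (τ i)) ^ μ i ∣ H.map φ := by
    intro i
    rw [← hHk]
    exact WC.hsub_dvd _ (X - C (τ i)) (C (θ i)) (μ i) _ hdeg ((wo_iff_ordGE _ _ _ _).mp (hμ i))
      _ _ (hP i)
  have h2 := WC.prod_pow_dvd hτ μ h1
  have h5 : H.map φ ∈ degreeLT ℂ ((Bivariate.swap (toC G)).natDegree + 1 + D * G.natDegree) := by
    rw [← hHk]
    apply hsub_mem_degreeLT'
    · rw [WC.tdeg_lt_iff htoC0]
      exact Nat.lt_succ_self _
    · exact natDegree_map_le.trans dA
    · exact natDegree_map_le.trans dB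
  have h6 : H = 0 := by
    by_contra h0
    have h0' : H.map φ ≠ 0 := (Polynomial.map_ne_zero_iff hφinj).mpr h0
    have h7 := natDegree_le_of_dvd h2 h0'
    rw [WC.natDegree_prod_pow] at h7
    rw [mem_degreeLT, degree_eq_natDegree h0'] at h5
    have h8 : (H.map φ).natDegree < (Bivariate.swap (toC G)).natDegree + 1 + D * G.natDegree := by
      exact_mod_cast h5
    omega
  -- over the rationals
  set ψ := Int.castRingHom ℚ with hψ
  have hψinj : Function.Injective ψ := RingHom.injective_int _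
  have hGQ := Bez.irreducible_map_rat hG (by omega)
  have hmiQ : Function.Injective (mapRingHom ψ) := Polynomial.map_injective _ hψinj
  have hdegQ : (G.map (mapRingHom ψ)).natDegree = G.natDegree :=
    natDegree_map_eq_of_injective hmiQ G
  have hAB' : A.map ψ ≠ 0 ∨ B.map ψ ≠ 0 := by
    rcases hAB with h | h
    · exact Or.inl ((Polynomial.map_ne_zero_iff hψinj).mpr h)
    · exact Or.inr ((Polynomial.map_ne_zero_iff hψinj).mpr h)
  have h9 : WC.hsub (G.map (mapRingHom ψ)).natDegree (G.map (mapRingHom ψ)) (A.map ψ) (B.map ψ) = 0 := by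
    rw [hdegQ]
    have := WC.hsub_map (mapRingHom ψ) G.natDegree G A B
    rw [← hH, h6, map_zero] at this
    exact this
  exact WC.false_of_hsub_eq_zero hGQ (by rw [hdegQ]; exact ha) hAB' h9

end noPair

end Pool.Agent.Lib.SQF
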