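import Mathlib

/-!
# Weighted order of a polynomial in two variables at a point (section S6, 6.6)

In `k[X][X]` the outer variable is `n`, the inner one `t`. `WO τ θ o h` says that `h` has order
at least `o` at `(τ, θ)` for the weights `t - τ : 1`, `n - θ : 2`. Main results: `wo_iff`
(coefficients in powers of `n - θ`), `WO.mul`, `WO.of_mul` (it is a valuation),
`HE` (the value at `n = -B/A`, cleared of denominators) and its divisibility `pow_dvd_HE`,
`dvd_of_HE_eq_zero` (Gauss).
-/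

set_option autoImplicit false

open Polynomial Finset

namespace Pool.Agent.Lib.SQF

variable {k : Type*} [Field k]

/-- The substitution `n = θ + (t-τ)^2 z`; the new outer variable is `z`. -/
noncomputable def wSub (τ θ : k) (h : k[X][X]) : k[X][X] :=
  h.comp (C ((X - C τ) ^ 2) * X + C (C θ))

/-- `h` has weighted order at least `o` at `(τ, θ)`. -/
def WO (τ θ : k) (o : ℕ) (h : k[X][X]) : Prop :=
  C ((X - C τ) ^ o) ∣ wSub τ θ h

lemma wSub_mul (τ θ : k) (g h : k[X][X]) : wSub τ θ (g * h) = wSub τ θ g * wSub τ θ h := by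
  simp [wSub, mul_comp]

lemma wSub_add (τ θ : k) (g h : k[X][X]) : wSub τ θ (g + h) = wSub τ θ g + wSub τ θ h := by
  simp [wSub, add_comp]

lemma wSub_coeff (τ θ : k) (h : k[X][X]) (y : ℕ) :
    (wSub τ θ h).coeff y = (taylor (C θ) h).coeff y * ((X - C τ) ^ 2) ^ y := by
  have : wSub τ θ h = (taylor (C θ) h).comp (C ((X - C τ) ^ 2) * X) := by
    rw [wSub, taylor_apply, comp_assoc]
    congr 1
    simp
  rw [this, comp_C_mul_X_coeff]

lemma wo_iff (τ θ : k) (o : ℕ) (h : k[X][X]) :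
    WO τ θ o h ↔ ∀ y, (X - C τ) ^ (o - 2 * y) ∣ (taylor (C θ) h).coeff y := by
  rw [WO, C_dvd_iff_dvd_coeff]
  refine forall_congr' fun y => ?_
  rw [wSub_coeff, ← pow_mul]
  have hne : (X - C τ : k[X]) ≠ 0 := X_sub_C_ne_zero τ
  rcases le_or_gt (2 * y) o with hy | hy
  · obtain ⟨e, rfl⟩ := Nat.exists_eq_add_of_le hy
    rw [Nat.add_sub_cancel_left, pow_add, mul_comm ((X - C τ) ^ (2 * y)) _]
    exact mul_dvd_mul_iff_right (pow_ne_zero _ hne)
  · rw [Nat.sub_eq_zero_of_le hy.le, pow_zero]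
    constructor
    · intro _; exact one_dvd _
    · intro _
      exact (pow_dvd_pow _ hy.le).trans (dvd_mul_left _ _)

lemma WO.mono {τ θ : k} {o o' : ℕ} {h : k[X][X]} (H : WO τ θ o h) (ho : o' ≤ o) :
    WO τ θ o' h := by
  rw [wo_iff] at H ⊢
  intro y
  exact (pow_dvd_pow _ (by omega)).trans (H y)

lemma wo_zero (τ θ : k) (h : k[X][X]) : WO τ θ 0 h := by
  rw [wo_iff]; intro y; simp

lemma wo_of_zero (τ θ : k) (o : ℕ) : WO τ θ o (0 : k[X][X]) := by
  simp [WO, wSub]

lemma WO.add {τ θ : k} {o : ℕ} {g h : k[X][X]} (Hg : WO τ θ o g) (Hh : WO τ θ o h) :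
    WO τ θ o (g + h) := by
  rw [WO, wSub_add]; exact dvd_add Hg Hh

lemma WO.smul {τ θ : k} {o : ℕ} {h : k[X][X]} (c : k) (H : WO τ θ o h) :
    WO τ θ o (c • h) := by
  rw [WO] at *
  have : wSub τ θ (c • h) = C (C c) * wSub τ θ h := by
    rw [show c • h = C (C c) * h by
      ext i : 1
      rw [coeff_smul, coeff_C_mul, Polynomial.smul_eq_C_mul]]
    rw [wSub_mul]
    congr 1
    simp [wSub]
  rw [this]
  exact H.trans (dvd_mul_left _ _)

lemma WO.mul {τ θ : k} {o o' : ℕ} {g h : k[X][X]} (Hg : WO τ θ o g) (Hh : WO τ θ o' h) :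
    WO τ θ (o + o') (g * h) := by
  rw [WO, wSub_mul, pow_add, C_mul]; exact mul_dvd_mul Hg Hh

/-- powers of a prime dividing a product -/
lemma prime_pow_dvd_right {R : Type*} [CommRing R] [IsDomain R] {p a b : R} (hp : Prime p)
    (o μ : ℕ) (h : p ^ o ∣ a * b) (ha : ¬ p ^ (μ + 1) ∣ a) : p ^ (o - μ) ∣ b := by
  induction μ generalizing a o with
  | zero =>
    rw [Nat.sub_zero]
    exact hp.pow_dvd_of_dvd_mul_left o (by simpa using ha) h
  | succ μ ih =>
    by_cases hpa : p ∣ a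
    · obtain ⟨a', rfl⟩ := hpa
      rcases Nat.eq_zero_or_pos o with rfl | ho
      · simp
      · obtain ⟨o', rfl⟩ := Nat.exists_eq_succ_of_ne_zero ho.ne'
        have h1 : p ^ o' ∣ a' * b := by
          rw [Nat.succ_eq_add_one, pow_succ', mul_assoc] at h
          exact (mul_dvd_mul_iff_left hp.ne_zero).1 h
        have h2 : ¬ p ^ (μ + 1) ∣ a' := by
          intro hc
          apply ha
          rw [pow_succ' p (μ + 1)]
          exact mul_dvd_mul_left _ hc
        have := ih o' h1 h2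
        simpa [Nat.succ_sub_succ] using this
    · have := hp.pow_dvd_of_dvd_mul_left o hpa h
      exact (pow_dvd_pow _ (Nat.sub_le _ _)).trans this

lemma prime_C_X_sub_C (τ : k) : Prime (C (X - C τ) : k[X][X]) :=
  Polynomial.prime_C_iff.2 (prime_X_sub_C τ)

/-- `WO` is a valuation: if `g` has order at most `μ` and `g h` order at least `o` then `h` has
order at least `o - μ`. -/
lemma WO.of_mul {τ θ : k} {o μ : ℕ} {g h : k[X][X]} (H : WO τ θ o (g * h))
    (Hg : ¬ WO τ θ (μ + 1) g) : WO τ θ (o - μ) h := by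
  rw [WO, wSub_mul] at H
  rw [WO] at Hg ⊢
  rw [C_pow] at *
  exact prime_pow_dvd_right (prime_C_X_sub_C τ) o μ H Hg

lemma taylor_C_C (θ : k) (a : k[X]) : taylor (C θ) (C a) = C a := by simp

/-- order of a polynomial in `t` alone -/
lemma wo_C_iff (τ θ : k) (o : ℕ) (a : k[X]) : WO τ θ o (C a) ↔ (X - C τ) ^ o ∣ a := by
  rw [wo_iff]
  constructor
  · intro h; simpa using h 0
  · intro h y
    rcases Nat.eq_zero_or_pos y with rfl | hy
    · simpa using h
    · rw [taylor_C_C, coeff_C_of_ne_zero hy.ne']; exact dvd_zero _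

lemma not_wo_one_of_eval {τ t0 : k} (θ : k) (h : t0 ≠ τ) (m : ℕ) :
    ¬ WO τ θ 1 (C ((X - C t0) ^ m) : k[X][X]) := by
  rw [wo_C_iff, pow_one, dvd_iff_isRoot]
  intro hr
  rw [IsRoot, eval_pow, eval_sub, eval_X, eval_C] at hr
  exact pow_ne_zero m (sub_ne_zero.2 h.symm) hr

/-- order `≥ 2` of `A n + B` -/
lemma wo_two_iff (τ θ : k) (A B : k[X]) :
    WO τ θ 2 (C A * X + C B) ↔ (X - C τ) ^ 2 ∣ A * C θ + B := by
  rw [wo_iff]
  have h0 : (taylor (C θ) (C A * X + C B : k[X][X])).coeff 0 = A * C θ + B := by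
    rw [taylor_coeff_zero]; simp
  constructor
  · intro h; have := h 0; rw [h0] at this; simpa using this
  · intro h y
    rcases Nat.eq_zero_or_pos y with rfl | hy
    · rw [h0]; simpa using h
    · rw [Nat.sub_eq_zero_of_le (by omega)]; simp

/-! ### Values at `n = -B/A` -/

/-- `A^s h(t, -B/A)` for `deg_n h ≤ s` -/
noncomputable def HE (s : ℕ) (h : k[X][X]) (A B : k[X]) : k[X] :=
  ∑ y ∈ range (s + 1), h.coeff y * (-B) ^ y * A ^ (s - y)

section frac

variable (K : Type*) [Field K] [Algebra k[X] K] [IsFractionRing k[X] K]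

lemma algebraMap_HE {s : ℕ} {h : k[X][X]} (hs : h.natDegree ≤ s) {A : k[X]} (B : k[X])
    (hA : A ≠ 0) :
    algebraMap k[X] K (HE s h A B) =
      algebraMap k[X] K A ^ s *
        (h.map (algebraMap k[X] K)).eval (-algebraMap k[X] K B / algebraMap k[X] K A) := by
  have hA' : algebraMap k[X] K A ≠ 0 := by
    simpa using (FaithfulSMul.algebraMap_injective k[X] K).ne hA
  rw [HE, map_sum, eval_eq_sum_range' (n := s + 1) (lt_of_le_of_lt (natDegree_map_le) (by omega)),
    Finset.mul_sum]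
  refine Finset.sum_congr rfl fun y hy => ?_
  have hy' : y ≤ s := by simpa [Nat.lt_succ_iff] using hy
  rw [coeff_map, map_mul, map_mul, map_pow, map_pow, map_neg, div_pow]
  obtain ⟨e, rfl⟩ := Nat.exists_eq_add_of_le hy'
  rw [Nat.add_sub_cancel_left, pow_add]
  field_simp

end frac

lemma HE_taylor {s : ℕ} {h : k[X][X]} (hs : h.natDegree ≤ s) {A : k[X]} (B : k[X])
    (hA : A ≠ 0) (θ : k) :
    HE s h A B = ∑ y ∈ range (s + 1),
      (taylor (C θ) h).coeff y * (-(A * C θ + B)) ^ y * A ^ (s - y) := by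
  have hinj := FaithfulSMul.algebraMap_injective k[X] (FractionRing k[X])
  have hA' : algebraMap k[X] (FractionRing k[X]) A ≠ 0 := by
    simpa using hinj.ne hA
  apply hinj
  have h2 : HE s (taylor (C θ) h) A (A * C θ + B) = ∑ y ∈ range (s + 1),
      (taylor (C θ) h).coeff y * (-(A * C θ + B)) ^ y * A ^ (s - y) := rfl
  rw [← h2, algebraMap_HE _ hs B hA, algebraMap_HE _ (by rwa [natDegree_taylor]) _ hA]
  congr 1
  have h3 : (taylor (C θ) h).map (algebraMap k[X] (FractionRing k[X])) =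
      taylor (algebraMap k[X] (FractionRing k[X]) (C θ))
        (h.map (algebraMap k[X] (FractionRing k[X]))) := by
    rw [taylor_apply, taylor_apply, map_comp]; simp
  rw [h3, taylor_eval]
  congr 1
  rw [map_add, map_mul]
  field_simp
  ring

/-- order of vanishing of `A^s h(t,-B/A)` at `τ` -/
lemma pow_dvd_HE {s : ℕ} {h : k[X][X]} (hs : h.natDegree ≤ s) {A : k[X]} (B : k[X])
    (hA : A ≠ 0) {τ θ : k} (H : WO τ θ (2 * s) h) {e : ℕ} (he : e ≤ 2)
    (hd : (X - C τ) ^ e ∣ A * C θ + B) : (X - C τ) ^ (e * s) ∣ HE s h A B := by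
  rw [HE_taylor hs B hA θ]
  refine Finset.dvd_sum fun y hy => ?_
  have hy' : y ≤ s := by simpa [Nat.lt_succ_iff] using hy
  rw [wo_iff] at H
  have h1 := H y
  have h2 : ((X - C τ) ^ e) ^ y ∣ (-(A * C θ + B)) ^ y := pow_dvd_pow_of_dvd ((dvd_neg).2 hd) y
  have h3 : (X - C τ) ^ (2 * s - 2 * y) * ((X - C τ) ^ e) ^ y ∣
      (taylor (C θ) h).coeff y * (-(A * C θ + B)) ^ y * A ^ (s - y) :=
    (mul_dvd_mul h1 h2).trans (dvd_mul_right _ _)
  refine Dvd.dvd.trans ?_ h3
  rw [← pow_mul, ← pow_add]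
  apply pow_dvd_pow
  obtain ⟨x, rfl⟩ := Nat.exists_eq_add_of_le hy'
  have : 2 * (y + x) - 2 * y = 2 * x := by omega
  rw [this]
  nlinarith

lemma degree_HE_lt {s T D : ℕ} {h : k[X][X]} {A B : k[X]}
    (hT : ∀ y, (h.coeff y).degree < T) (hA : A.natDegree ≤ D) (hB : B.natDegree ≤ D) :
    (HE s h A B).degree < ((T + s * D : ℕ) : WithBot ℕ) := by
  rw [HE, ← mem_degreeLT]
  refine Submodule.sum_mem _ fun y hy => mem_degreeLT.2 ?_
  have hy' : y ≤ s := by simpa [Nat.lt_succ_iff] using hy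
  by_cases h0 : h.coeff y = 0
  · rw [h0, zero_mul, zero_mul, degree_zero]; exact WithBot.bot_lt_coe _
  have hT0 : 0 < T := by
    have := hT y
    rw [degree_eq_natDegree h0] at this
    have : (h.coeff y).natDegree < T := by exact_mod_cast this
    omega
  have h1 : (h.coeff y).natDegree ≤ T - 1 := by
    have := hT y
    rw [degree_eq_natDegree h0] at this
    have : (h.coeff y).natDegree < T := by exact_mod_cast this
    omega
  have h2 : ((-B) ^ y).natDegree ≤ y * D := by
    refine natDegree_pow_le.trans ?_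
    rw [natDegree_neg]; exact Nat.mul_le_mul_left _ hB
  have h3 : (A ^ (s - y)).natDegree ≤ (s - y) * D :=
    natDegree_pow_le.trans (Nat.mul_le_mul_left _ hA)
  have h4 : (h.coeff y * (-B) ^ y * A ^ (s - y)).natDegree ≤ (T - 1) + y * D + (s - y) * D :=
    (natDegree_mul_le).trans (add_le_add ((natDegree_mul_le).trans (add_le_add h1 h2)) h3)
  have h5 : y * D + (s - y) * D = s * D := by
    rw [← Nat.add_mul]; congr 1; omega
  refine lt_of_le_of_lt degree_le_natDegree ?_
  have : (h.coeff y * (-B) ^ y * A ^ (s - y)).natDegree < T + s * D := by omega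
  exact_mod_cast this

/-- `A n + B` with coprime `A, B`, `A ≠ 0`, is irreducible, in fact prime. -/
lemma isPrimitive_lin {A B : k[X]} (hAB : IsCoprime A B) :
    (C A * X + C B : k[X][X]).IsPrimitive := by
  intro r hr
  rw [C_dvd_iff_dvd_coeff] at hr
  have h1 := hr 1
  have h0 := hr 0
  simp at h1 h0
  exact hAB.isUnit_of_dvd' h1 h0

lemma dvd_of_HE_eq_zero {s : ℕ} {h : k[X][X]} (hs : h.natDegree ≤ s) {A B : k[X]}
    (hA : A ≠ 0) (hAB : IsCoprime A B) (h0 : HE s h A B = 0) : (C A * X + C B) ∣ h := by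
  by_cases hh : h = 0
  · rw [hh]; exact dvd_zero _
  classical
  let K := FractionRing k[X]
  have hinj := FaithfulSMul.algebraMap_injective k[X] K
  have hA' : algebraMap k[X] K A ≠ 0 := by simpa using hinj.ne hA
  have h1 := algebraMap_HE K hs B hA
  rw [h0, map_zero] at h1
  have h2 : (h.map (algebraMap k[X] K)).eval (-algebraMap k[X] K B / algebraMap k[X] K A) = 0 := by
    rcases mul_eq_zero.1 h1.symm with h | h
    · exact absurd h (pow_ne_zero _ hA')
    · exact h
  have h3 : (X - C (-algebraMap k[X] K B / algebraMap k[X] K A)) ∣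
      h.map (algebraMap k[X] K) := dvd_iff_isRoot.2 h2
  have h4 : (C A * X + C B : k[X][X]).map (algebraMap k[X] K) ∣ h.map (algebraMap k[X] K) := by
    have : (C A * X + C B : k[X][X]).map (algebraMap k[X] K) =
        C (algebraMap k[X] K A) * (X - C (-algebraMap k[X] K B / algebraMap k[X] K A)) := by
      simp only [Polynomial.map_add, Polynomial.map_mul, map_C, map_X]
      rw [mul_sub, ← C_mul, mul_div_cancel₀ _ hA', C_neg]
      ring
    rw [this]
    exact (IsUnit.mul_left_dvd (isUnit_C.2 (isUnit_iff_ne_zero.2 hA'))).2 h3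
  exact (isPrimitive_lin hAB).dvd_of_fraction_map_dvd_fraction_map (K := K) h4

end Pool.Agent.Lib.SQF
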