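import Pool.Agent.Lib.SQF.WCal2
import Pool.Agent.Lib.SQF.WCalc

/-!
# Lemma 7': the rank of the forms on a curve of class `≥ 2`, all slices

`k[X][X]`: outer variable `n`, inner variable `t`; `τ` are the four roots `t_i`, `θ` the four
numbers `θ_i`. For `G` with `natDegree G = a ≥ 2` and class `c = deg_t G + 4a - ∑ μ_i ≥ 2`
(`μ_i` the exact weighted orders) the forms of bidegree `(r,s)`, `r, s ≥ 1`, have rank at least
`6s+2r` modulo `G`: `exists_indep_mod`.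
-/

set_option autoImplicit false

open Polynomial

namespace Pool.Agent.Lib.SQF

variable {k : Type*} [Field k]

lemma wo_iff_ordGE (τ θ : k) (o : ℕ) (h : k[X][X]) : WO τ θ o h ↔ WC.ordGE θ τ o h :=
  wo_iff τ θ o h

lemma WS_eq_Wsub (τ θ : Fin 4 → k) (s T o : ℕ) : WS τ θ s T o = WC.Wsub θ τ s T o := by
  ext h
  rw [mem_WS, WC.mem_Wsub]
  simp only [mem_degreeLT, wo_iff_ordGE]

lemma exists_E4 (θ τ : Fin 4 → k) : ∃ E : k[X][X], E ≠ 0 ∧ E ∈ WC.Wsub θ τ 1 (4 + 1) 2 := by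
  have hlt : Module.finrank k (Fin 4 → Fin 2 → k) <
      Module.finrank k (degreeLT k 5 × degreeLT k 5) := by
    rw [Module.finrank_prod, WC.finrank_degreeLT, Module.finrank_pi_fintype]
    simp
  have hker := LinearMap.ker_ne_bot_of_finrank_lt (f := WC.condL θ τ 5) hlt
  obtain ⟨z, hz, hz0⟩ := Submodule.exists_mem_ne_zero_of_ne_bot hker
  refine ⟨C (z.1 : k[X]) * X + C (z.2 : k[X]), ?_, ?_⟩
  · intro h
    apply hz0
    have e1 : (z.1 : k[X]) = 0 := by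
      have := congrArg (fun P : k[X][X] => P.coeff 1) h
      simpa using this
    have e2 : (z.2 : k[X]) = 0 := by
      have := congrArg (fun P : k[X][X] => P.coeff 0) h
      simpa using this
    exact Prod.ext (Subtype.ext e1) (Subtype.ext e2)
  · exact WC.mem_Wsub_one z.1.2 z.2.2 (WC.mem_ker_condL (LinearMap.mem_ker.mp hz))

lemma one_mem_Wsub (θ τ : Fin 4 → k) : (1 : k[X][X]) ∈ WC.Wsub θ τ 0 (0 + 1) 0 := by
  refine ⟨by simp, fun q => ?_, fun i => WC.ordGE_zero_right _ _ _⟩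
  rw [coeff_one]
  split_ifs
  · rw [mem_degreeLT]; simp
  · exact Submodule.zero_mem _

lemma pow_mem_Wsub {θ τ : Fin 4 → k} {E : k[X][X]} (hE : E ∈ WC.Wsub θ τ 1 (4 + 1) 2) (j : ℕ) :
    E ^ j ∈ WC.Wsub θ τ j (4 * j + 1) (2 * j) := by
  induction j with
  | zero => simpa using one_mem_Wsub θ τ
  | succ j ih =>
    rw [pow_succ]
    have := WC.mul_mem_Wsub ih hE
    exact this

lemma Wsub_mono {θ τ : Fin 4 → k} {s T T' o : ℕ} (h : T ≤ T') :
    WC.Wsub θ τ s T o ≤ WC.Wsub θ τ s T' o := by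
  rintro f ⟨h1, h2, h3⟩
  exact ⟨h1, fun q => degreeLT_mono h (h2 q), h3⟩

/-- multiplication by `E^(a-2)` -/
lemma finrank_Wsub_shift (θ τ : Fin 4 → k) {s a T' T'' : ℕ} (ha : 2 ≤ a) (hs : a ≤ s)
    (hT : 0 < T' → T' + 4 * (a - 2) ≤ T'') :
    Module.finrank k (WC.Wsub θ τ (s - a) T' (2 * (s - a))) ≤
      Module.finrank k (WC.Wsub θ τ (s - 2) T'' (2 * (s - 2))) := by
  obtain ⟨E, hE0, hE⟩ := exists_E4 θ τ
  have hM := pow_mem_Wsub hE (a - 2)
  have hM0 : E ^ (a - 2) ≠ 0 := pow_ne_zero _ hE0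
  have hmem : ∀ h : WC.Wsub θ τ (s - a) T' (2 * (s - a)),
      (h : k[X][X]) * E ^ (a - 2) ∈ WC.Wsub θ τ (s - 2) T'' (2 * (s - 2)) := by
    rintro ⟨h, hh⟩
    rcases Nat.eq_zero_or_pos T' with h0 | hpos
    · subst h0
      have hz : h = 0 := by
        ext1 q
        have := hh.2.1 q
        rw [mem_degreeLT] at this
        rw [coeff_zero]
        by_contra hne
        rw [degree_eq_natDegree hne] at this
        have h3 : (h.coeff q).natDegree < 0 := by exact_mod_cast this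
        omega
      have e : ((⟨h, hh⟩ : WC.Wsub θ τ (s - a) 0 (2 * (s - a))) : k[X][X]) * E ^ (a - 2) = 0 := by
        show h * _ = 0
        rw [hz, zero_mul]
      rw [e]
      exact Submodule.zero_mem _
    · obtain ⟨T0, rfl⟩ : ∃ T0, T' = T0 + 1 := ⟨T' - 1, by omega⟩
      have h1 := WC.mul_mem_Wsub hh hM
      have e1 : s - a + (a - 2) = s - 2 := by omega
      have e2 : 2 * (s - a) + 2 * (a - 2) = 2 * (s - 2) := by omega
      rw [e1, e2] at h1
      exact Wsub_mono (by have := hT hpos; omega) h1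
  apply LinearMap.finrank_le_finrank_of_injective
    (f := LinearMap.codRestrict (WC.Wsub θ τ (s - 2) T'' (2 * (s - 2)))
      ((LinearMap.mulRight k (E ^ (a - 2))) ∘ₗ (WC.Wsub θ τ (s - a) T' (2 * (s - a))).subtype) hmem)
  intro x y hxy
  have h1 := congrArg Subtype.val hxy
  have h2 : (x : k[X][X]) * E ^ (a - 2) = y * E ^ (a - 2) := h1
  exact Subtype.ext (mul_right_cancel₀ hM0 h2)

/-- **Lemma 7'**: multiples of `g` among the forms, class `c ≥ 2`, all slices -/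
theorem finrank_multiples_le' [CharZero k] {θ τ : Fin 4 → k} (hτ : Function.Injective τ)
    (hθ : Function.Injective θ) {g : k[X][X]} (hg : g ≠ 0) (ha2 : 2 ≤ g.natDegree) (μ : Fin 4 → ℕ)
    (hμ1 : ∀ i, WO (τ i) (θ i) (μ i) g) (hμ2 : ∀ i, ¬ WO (τ i) (θ i) (μ i + 1) g)
    (hμa : ∀ i, μ i ≤ 2 * g.natDegree) {c : ℕ} (hc2 : 2 ≤ c)
    (hc : c + ∑ i, μ i = WC.tdeg g + 4 * g.natDegree) (s r : ℕ) :
    Module.finrank k ↥(WC.Wsub θ τ s (6 * s + r + 1) (2 * s) ⊓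
      (Ideal.span {g}).restrictScalars k) ≤ (s - 1) * (2 * s + r - 1) := by
  rcases Nat.lt_or_ge s g.natDegree with hlt | hge
  · have hbot : WC.Wsub θ τ s (6 * s + r + 1) (2 * s) ⊓ (Ideal.span {g}).restrictScalars k = ⊥ := by
      rw [Submodule.eq_bot_iff]
      rintro F ⟨⟨h1, -, -⟩, h2⟩
      have h3 : g ∣ F := Ideal.mem_span_singleton.mp h2
      by_contra h0
      have := natDegree_le_of_dvd h3 h0
      omega
    rw [hbot, finrank_bot]
    exact Nat.zero_le _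
  set a := g.natDegree with ha
  set m : Fin 4 → ℕ := fun i => 2 * a - μ i with hm
  have hsm : ∑ i, m i + ∑ i, μ i = 8 * a := by
    rw [← Finset.sum_add_distrib]
    have : ∀ i : Fin 4, m i + μ i = 2 * a := fun i => by
      have := hμa i
      simp only [hm]
      omega
    rw [Finset.sum_congr rfl (fun i _ => this i)]
    simp
    ring
  set T' := 6 * s + r + 1 - WC.tdeg g - ∑ i, m i with hT'
  set PP : k[X] := ∏ i, (X - C (τ i)) ^ m i with hPi
  let ψ : WC.Wsub θ τ (s - a) T' (2 * (s - a)) →ₗ[k] k[X][X] :=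
    (LinearMap.mulLeft k (g * C PP)) ∘ₗ (WC.Wsub θ τ (s - a) T' (2 * (s - a))).subtype
  have hψ : ∀ h, ψ h = g * C PP * (h : k[X][X]) := fun h => rfl
  have hle : WC.Wsub θ τ s (6 * s + r + 1) (2 * s) ⊓ (Ideal.span {g}).restrictScalars k ≤
      LinearMap.range ψ := by
    rintro F ⟨⟨h1, h2, h3⟩, h4⟩
    obtain ⟨h, rfl⟩ : g ∣ F := Ideal.mem_span_singleton.mp h4
    by_cases h0 : h = 0
    · rw [h0, mul_zero]; exact Submodule.zero_mem _
    have hgh : g * h ≠ 0 := mul_ne_zero hg h0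
    rw [natDegree_mul hg h0] at h1
    rw [WC.tdeg_lt_iff hgh, WC.tdeg_mul hg h0] at h2
    have hordh : ∀ i, WC.ordGE (θ i) (τ i) (2 * (s - a) + m i) h := by
      intro i
      have h5 := h3 i
      have e : 2 * s = μ i + (2 * (s - a) + m i) := by
        have := hμa i
        simp only [hm]
        omega
      rw [e] at h5
      exact WC.ordGE_cancel ((wo_iff_ordGE _ _ _ _).mp (hμ1 i))
        (fun h => hμ2 i ((wo_iff_ordGE _ _ _ _).mpr h)) _ h5
    obtain ⟨h', e1, e2, e3, e4, e5⟩ := WC.exists_factor hτ m h0 (by omega) hordh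
    have hm' : h' ∈ WC.Wsub θ τ (s - a) T' (2 * (s - a)) := by
      refine ⟨e2, ?_, e3⟩
      rw [WC.tdeg_lt_iff e4]
      omega
    refine ⟨⟨h', hm'⟩, ?_⟩
    rw [hψ, e1]
    ring
  have h6 := (Submodule.finrank_mono hle).trans (LinearMap.finrank_range_le ψ)
  have h7 := finrank_Wsub_shift θ τ (T' := T') (T'' := 4 * (s - 2) + (2 * s + r - 1)) ha2 hge
    (by omega)
  have h8 := finrank_WS_le' (τ := τ) (θ := θ) hτ hθ (s - 2) (4 * (s - 2) + (2 * s + r - 1))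
    (by omega)
  rw [WS_eq_Wsub] at h8
  have e9 : (s - 2 + 1) * (4 * (s - 2) + (2 * s + r - 1) - 4 * (s - 2)) =
      (s - 1) * (2 * s + r - 1) := by
    have e10 : s - 2 + 1 = s - 1 := by omega
    rw [e10, Nat.add_sub_cancel_left]
  rw [e9] at h8
  exact h6.trans (h7.trans h8)

/-- the rank of the forms modulo `g` -/
theorem le_finrank_forms_mod_of {θ τ : Fin 4 → k} (hτ : Function.Injective τ)
    (hθ : Function.Injective θ) (g : k[X][X]) (s r : ℕ) (hr : 1 ≤ r) {D : ℕ}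
    (hD : Module.finrank k ↥(WC.Wsub θ τ s (6 * s + r + 1) (2 * s) ⊓
      (Ideal.span {g}).restrictScalars k) ≤ D) :
    (s + 1) * (2 * s + 1 + r) ≤
      Module.finrank k ↥((tA k r * vA θ τ ^ s).map
        ((Ideal.span {g}).restrictScalars k).mkQ) + D := by
  have hfin : Module.Finite k ↥(tA k r * vA θ τ ^ s) := Module.Finite.iff_fg.mpr (fg_forms θ τ r s)
  have h2 := le_finrank_formsA θ τ hθ hτ r s hr
  have h1 := WC.finrank_map_add_inf (tA k r * vA θ τ ^ s) ((Ideal.span {g}).restrictScalars k)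
  have h3 : Module.finrank k ↥(tA k r * vA θ τ ^ s ⊓ (Ideal.span {g}).restrictScalars k) ≤ D := by
    refine le_trans ?_ hD
    apply Submodule.finrank_mono
    exact inf_le_inf_right _ (WC.forms_le_Wsub θ τ r s)
  omega

/-- `N(r,s) - (s-1)(2s+r-1) = 6s+2r` -/
lemma rank_arith (s r : ℕ) (hs : 1 ≤ s) :
    (s + 1) * (2 * s + 1 + r) = (s - 1) * (2 * s + r - 1) + (6 * s + 2 * r) := by
  obtain ⟨u, rfl⟩ : ∃ u, s = u + 1 := ⟨s - 1, by omega⟩
  have e1 : u + 1 - 1 = u := by omega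
  have e2 : 2 * (u + 1) + r - 1 = 2 * u + r + 1 := by omega
  rw [e1, e2]
  ring

/-- **Lemma 7'**: a curve of `n`-degree and class at least 2 carries `6s+2r` independent monomial
forms of bidegree `(r,s)`; they can be chosen to extend a given independent family. All slices. -/
theorem exists_indep_mod [CharZero k] {θ τ : Fin 4 → k} (hτ : Function.Injective τ)
    (hθ : Function.Injective θ) {g : k[X][X]} (hg : g ≠ 0) (ha2 : 2 ≤ g.natDegree) (μ : Fin 4 → ℕ)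
    (hμ1 : ∀ i, WO (τ i) (θ i) (μ i) g) (hμ2 : ∀ i, ¬ WO (τ i) (θ i) (μ i + 1) g)
    (hμa : ∀ i, μ i ≤ 2 * g.natDegree) {c : ℕ} (hc2 : 2 ≤ c)
    (hc : c + ∑ i, μ i = (Bivariate.swap g).natDegree + 4 * g.natDegree) (s r : ℕ) (hs : 1 ≤ s)
    (hr : 1 ≤ r)
    (b : Fin 4 → k[X][X]) (hb : Submodule.span k (Set.range b) = vA θ τ) {n : ℕ}
    (x : Fin n → k[X][X] ⧸ (Ideal.span {g}).restrictScalars k) (hx : LinearIndependent k x)
    (N : ℕ) (hn : n ≤ N) (hN : N ≤ 6 * s + 2 * r) :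
    ∃ y : Fin N → k[X][X] ⧸ (Ideal.span {g}).restrictScalars k, LinearIndependent k y ∧
      (∀ (i : Fin N) (h : (i : ℕ) < n), y i = x ⟨i, h⟩) ∧
      ∀ i : Fin N, n ≤ (i : ℕ) → ∃ (e : ℕ) (m : Fin 4 → ℕ), e ≤ r ∧ ∑ j, m j = s ∧
        y i = ((Ideal.span {g}).restrictScalars k).mkQ (C (X ^ e) * ∏ j, b j ^ m j) := by
  set S : Set (k[X][X] ⧸ (Ideal.span {g}).restrictScalars k) :=
    ((Ideal.span {g}).restrictScalars k).mkQ '' {F : k[X][X] | ∃ a ≤ r, ∃ m : Fin 4 → ℕ,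
      ∑ j, m j = s ∧ F = C (X ^ a) * ∏ j, b j ^ m j} with hS
  have h1 := le_finrank_forms_mod_of hτ hθ g s r hr
    (finrank_multiples_le' hτ hθ hg ha2 μ hμ1 hμ2 hμa hc2 hc s r)
  have h2 : (tA k r * vA θ τ ^ s).map ((Ideal.span {g}).restrictScalars k).mkQ =
      Submodule.span k S := by
    rw [forms_le_span θ τ b hb, Submodule.map_span]
  rw [h2, rank_arith s r hs] at h1
  obtain ⟨y, hy1, hy2, hy3⟩ := WC.extend_indep S x hx N hn (by omega)
  refine ⟨y, hy1, hy2, fun i hi => ?_⟩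
  obtain ⟨F, ⟨a, ha, m, hm, rfl⟩, hF⟩ := hy3 i hi
  exact ⟨a, m, ha, hm, hF.symm⟩

/-- exact orders exist for polynomials without a factor `t - t_i` -/
theorem exists_orders {θ τ : Fin 4 → k} {g : k[X][X]} (hnd : ∀ i, ¬ C (X - C (τ i)) ∣ g) :
    ∃ μ : Fin 4 → ℕ, (∀ i, μ i ≤ 2 * g.natDegree) ∧ (∀ i, WO (τ i) (θ i) (μ i) g) ∧
      ∀ i, ¬ WO (τ i) (θ i) (μ i + 1) g := by
  have h : ∀ i, ∃ μ ≤ 2 * g.natDegree, WO (τ i) (θ i) μ g ∧ ¬ WO (τ i) (θ i) (μ + 1) g := by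
    intro i
    obtain ⟨μ, h1, h2, h3⟩ := WC.exists_order (θ₀ := θ i) (t₀ := τ i) (h := g) le_rfl (hnd i)
    exact ⟨μ, h1, (wo_iff_ordGE _ _ _ _).mpr h2, fun h => h3 ((wo_iff_ordGE _ _ _ _).mp h)⟩
  choose μ h1 h2 h3 using h
  exact ⟨μ, h1, h2, h3⟩

end Pool.Agent.Lib.SQF
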