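import Pool.Agent.Lib.SQF.ADefs
import Pool.Agent.Lib.SQF.WRank
import Pool.Agent.Lib.SQF.SmallKer

/-!
# Rational members of `W(1,D,2)` with small coefficients

For a slice `(e1, e2)` the condition `(X - t_σ)^2 ∣ B + θ_σ A` (all `σ`), for `A, B` of degree
at most `D`, is a system of 8 linear equations with integral coefficients `≤ C E^D`.
-/

set_option autoImplicit false

open Polynomial

namespace Pool.Agent.Lib.SQF

/-! ### heights -/

/-- degree at most `d`, coefficients at most `T` -/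
def HB (p : ℤ[X]) (d : ℕ) (T : ℝ) : Prop := p.natDegree ≤ d ∧ ∀ i, |(p.coeff i : ℝ)| ≤ T

lemma HB.nonneg {p : ℤ[X]} {d : ℕ} {T : ℝ} (h : HB p d T) : 0 ≤ T := (abs_nonneg _).trans (h.2 0)

lemma HB.mono {p : ℤ[X]} {d d' : ℕ} {T T' : ℝ} (h : HB p d T) (hd : d ≤ d') (hT : T ≤ T') :
    HB p d' T' := ⟨h.1.trans hd, fun i => (h.2 i).trans hT⟩

lemma HB.neg {p : ℤ[X]} {d : ℕ} {T : ℝ} (h : HB p d T) : HB (-p) d T := by
  refine ⟨by rw [natDegree_neg]; exact h.1, fun i => ?_⟩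
  rw [coeff_neg]
  push_cast
  rw [abs_neg]
  exact h.2 i

lemma HB.mul {p q : ℤ[X]} {d d' : ℕ} {T T' : ℝ} (h : HB p d T) (h' : HB q d' T') :
    HB (p * q) (d + d') ((d + 1) * (T * T')) := by
  refine ⟨natDegree_mul_le.trans (add_le_add h.1 h'.1), fun i => ?_⟩
  rw [coeff_mul, Finset.Nat.sum_antidiagonal_eq_sum_range_succ (fun a b => p.coeff a * q.coeff b)]
  push_cast
  refine (Finset.abs_sum_le_sum_abs _ _).trans ?_
  have hT := h.nonneg
  have hT' := h'.nonneg
  calc ∑ x ∈ Finset.range (i + 1), |(p.coeff x : ℝ) * (q.coeff (i - x) : ℝ)|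
      ≤ ∑ x ∈ Finset.range (d + 1), T * T' := by
        rw [← Finset.sum_filter_add_sum_filter_not (Finset.range (i + 1)) (fun x => x ≤ d)]
        have h0 : ∑ x ∈ (Finset.range (i + 1)).filter (fun x => ¬ x ≤ d),
            |(p.coeff x : ℝ) * (q.coeff (i - x) : ℝ)| = 0 := by
          apply Finset.sum_eq_zero
          intro x hx
          rw [Finset.mem_filter] at hx
          rw [coeff_eq_zero_of_natDegree_lt (by have := h.1; omega)]
          simp
        rw [h0, add_zero]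
        calc ∑ x ∈ (Finset.range (i + 1)).filter (fun x => x ≤ d),
              |(p.coeff x : ℝ) * (q.coeff (i - x) : ℝ)|
            ≤ ∑ x ∈ (Finset.range (i + 1)).filter (fun x => x ≤ d), T * T' := by
              apply Finset.sum_le_sum
              intro x _
              rw [abs_mul]
              exact mul_le_mul (h.2 x) (h'.2 _) (abs_nonneg _) hT
          _ ≤ ∑ x ∈ Finset.range (d + 1), T * T' := by
              apply Finset.sum_le_sum_of_subset_of_nonneg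
              · intro x hx
                rw [Finset.mem_filter] at hx
                rw [Finset.mem_range]
                omega
              · intro _ _ _; positivity
    _ = (d + 1) * (T * T') := by
        rw [Finset.sum_const, Finset.card_range, nsmul_eq_mul]
        push_cast
        ring

lemma HB.one : HB 1 0 1 := by
  refine ⟨by simp, fun i => ?_⟩
  rw [coeff_one]
  split_ifs <;> simp

lemma HB.pow {p : ℤ[X]} {d : ℕ} {T : ℝ} (h : HB p d T) (j : ℕ) :
    HB (p ^ j) (d * j) (((d + 1) * T) ^ j) := by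
  induction j with
  | zero => simpa using HB.one
  | succ j ih =>
    rw [pow_succ']
    refine (h.mul ih).mono (by rw [Nat.mul_succ]; omega) (le_of_eq ?_)
    rw [pow_succ]
    ring

lemma HB.X : HB (X : ℤ[X]) 1 1 := by
  refine ⟨natDegree_X_le, fun i => ?_⟩
  rw [coeff_X]
  split_ifs <;> simp

/-- reduction modulo a monic polynomial -/
lemma exists_mod_bound {g : ℤ[X]} (hg : g.Monic) (d : ℕ) :
    ∃ C : ℝ, 1 ≤ C ∧ ∀ (p : ℤ[X]) (T : ℝ), HB p d T → ∀ i, |((p %ₘ g).coeff i : ℝ)| ≤ C * T := by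
  refine ⟨1 + ∑ j ∈ Finset.range (d + 1), ∑ i ∈ Finset.range (g.natDegree + 1),
    |(((X ^ j : ℤ[X]) %ₘ g).coeff i : ℝ)|, ?_, ?_⟩
  · have : (0 : ℝ) ≤ ∑ j ∈ Finset.range (d + 1), ∑ i ∈ Finset.range (g.natDegree + 1),
      |(((X ^ j : ℤ[X]) %ₘ g).coeff i : ℝ)| :=
      Finset.sum_nonneg fun _ _ => Finset.sum_nonneg fun _ _ => abs_nonneg _
    linarith
  intro p T hp i
  have hT := hp.nonneg
  have e : p %ₘ g = ∑ j ∈ Finset.range (d + 1), C (p.coeff j) * ((X ^ j : ℤ[X]) %ₘ g) := by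
    conv_lhs => rw [as_sum_range' p (d + 1) (by have := hp.1; omega)]
    have h1 := map_sum (modByMonicHom g) (fun j => monomial j (p.coeff j)) (Finset.range (d + 1))
    change (∑ j ∈ Finset.range (d + 1), monomial j (p.coeff j)) %ₘ g = _ at h1
    rw [h1]
    apply Finset.sum_congr rfl
    intro j _
    rw [← C_mul_X_pow_eq_monomial, ← smul_eq_C_mul, ← smul_eq_C_mul, map_smul]
    rfl
  rw [e, finsetSum_coeff]
  push_cast
  refine (Finset.abs_sum_le_sum_abs _ _).trans ?_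
  have hle : ∀ j ∈ Finset.range (d + 1), |((C (p.coeff j) * ((X ^ j : ℤ[X]) %ₘ g)).coeff i : ℝ)| ≤
      T * ∑ i ∈ Finset.range (g.natDegree + 1), |(((X ^ j : ℤ[X]) %ₘ g).coeff i : ℝ)| := by
    intro j _
    rw [coeff_C_mul]
    push_cast
    rw [abs_mul]
    apply mul_le_mul (hp.2 j) _ (abs_nonneg _) hT
    by_cases hi : i < g.natDegree + 1
    · exact Finset.single_le_sum (f := fun i => |(((X ^ j : ℤ[X]) %ₘ g).coeff i : ℝ)|)
        (fun _ _ => abs_nonneg _) (Finset.mem_range.mpr hi)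
    · rw [coeff_eq_zero_of_natDegree_lt]
      · simp only [Int.cast_zero, abs_zero]
        exact Finset.sum_nonneg fun _ _ => abs_nonneg _
      · have := natDegree_modByMonic_le (X ^ j : ℤ[X]) hg
        omega
  refine (Finset.sum_le_sum hle).trans ?_
  rw [← Finset.mul_sum, mul_comm]
  apply mul_le_mul_of_nonneg_right _ hT
  linarith

/-! ### the polynomial of a vector -/

lemma coeff_pol (a : Fin 4 → ℤ) (i : ℕ) :
    (pol a).coeff i = if h : i < 4 then a ⟨i, h⟩ else 0 := by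
  unfold pol
  rw [finsetSum_coeff]
  simp only [coeff_C_mul, coeff_X_pow]
  split_ifs with h
  · rw [Finset.sum_eq_single (⟨i, h⟩ : Fin 4)]
    · simp
    · intro j _ hj
      rw [if_neg, mul_zero]
      intro hij
      exact hj (Fin.ext hij.symm)
    · intro hc; exact absurd (Finset.mem_univ _) hc
  · apply Finset.sum_eq_zero
    intro j _
    rw [if_neg, mul_zero]
    intro hij
    exact h (by omega)

lemma HB_pol {a : Fin 4 → ℤ} {T : ℝ} (hT : 0 ≤ T) (h : ∀ j, |(a j : ℝ)| ≤ T) : HB (pol a) 3 T := by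
  refine ⟨?_, fun i => ?_⟩
  · rw [natDegree_le_iff_coeff_eq_zero]
    intro N hN
    rw [coeff_pol, dif_neg (by omega)]
  · rw [coeff_pol]
    split_ifs with h1
    · exact h _
    · simpa using hT


/-! ### the integral system -/

/-- `(-e2)^j e1^(D-j)` and its derivative version -/
noncomputable def Wp (e1 e2 : Fin 4 → ℤ) (D : ℕ) (ε : Fin 2) (j : ℕ) : ℤ[X] :=
  if ε = 0 then (-(pol e2)) ^ j * (pol e1) ^ (D - j)
  else C (j : ℤ) * ((-(pol e2)) ^ (j - 1) * (pol e1) ^ (D - j))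

/-- the rows of the system -/
noncomputable def crow (g : ℤ[X]) (e1 e2 : Fin 4 → ℤ) (D : ℕ) (i : Fin 2 × Fin 4)
    (x : Fin 2 × Fin (D + 1)) : ℤ :=
  ((X ^ (x.1 : ℕ) * Wp e1 e2 D i.1 x.2) %ₘ g).coeff i.2

lemma HB_Wp {e1 e2 : Fin 4 → ℤ} {T : ℝ} (hT : 1 ≤ T) (h1 : ∀ j, |(e1 j : ℝ)| ≤ T)
    (h2 : ∀ j, |(e2 j : ℝ)| ≤ T) (D : ℕ) (ε : Fin 2) (j : ℕ) (hj : j ≤ D) :
    HB (Wp e1 e2 D ε j) (3 * D) ((D + 1) * ((3 * D + 1) * (4 * T) ^ D)) := by
  have hT0 : 0 ≤ T := by linarith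
  have h4T : (1 : ℝ) ≤ 4 * T := by linarith
  have hp1 := HB_pol hT0 h1
  have hp2 := (HB_pol hT0 h2).neg
  have hc : ((3 : ℕ) : ℝ) + 1 = 4 := by norm_num
  have key : ∀ l : ℕ, l ≤ D → HB ((-(pol e2)) ^ l * (pol e1) ^ (D - j)) (3 * l + 3 * (D - j))
      ((3 * D + 1) * ((4 * T) ^ (l + (D - j)))) := by
    intro l hl
    have := (hp2.pow l).mul (hp1.pow (D - j))
    rw [hc] at this
    refine this.mono le_rfl ?_
    rw [← pow_add]
    apply mul_le_mul_of_nonneg_right _ (by positivity)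
    have : (l : ℝ) ≤ D := by exact_mod_cast hl
    push_cast
    linarith
  have hD0 : (0 : ℝ) ≤ D := Nat.cast_nonneg D
  unfold Wp
  split_ifs with hε
  · refine (key j hj).mono (by omega) ?_
    have e : j + (D - j) = D := by omega
    rw [e]
    have h5 : 0 ≤ (3 * (D : ℝ) + 1) * (4 * T) ^ D := by positivity
    nlinarith
  · rcases Nat.eq_zero_or_pos j with h0 | hpos
    · subst h0
      have e : (C ((0 : ℕ) : ℤ) * ((-(pol e2)) ^ (0 - 1) * (pol e1) ^ (D - 0)) : ℤ[X]) = 0 := by simp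
      rw [e]
      refine ⟨by simp, fun i => ?_⟩
      simp only [coeff_zero, Int.cast_zero, abs_zero]
      positivity
    · have hC : HB (C (j : ℤ)) 0 D := by
        refine ⟨by simp, fun i => ?_⟩
        rw [coeff_C]
        split_ifs
        · have : (j : ℝ) ≤ D := by exact_mod_cast hj
          simpa using this
        · simp
      refine (hC.mul (key (j - 1) (by omega))).mono (by omega) ?_
      have h5 : (4 * T) ^ (j - 1 + (D - j)) ≤ (4 * T) ^ D :=
        pow_le_pow_right₀ h4T (by omega)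
      have h6 : (3 * (D : ℝ) + 1) * (4 * T) ^ (j - 1 + (D - j)) ≤ (3 * D + 1) * (4 * T) ^ D :=
        mul_le_mul_of_nonneg_left h5 (by positivity)
      have h7 : 0 ≤ (3 * (D : ℝ) + 1) * (4 * T) ^ D := by positivity
      have h8 : (D : ℝ) * ((3 * (D : ℝ) + 1) * (4 * T) ^ (j - 1 + (D - j))) ≤
          D * ((3 * D + 1) * (4 * T) ^ D) := mul_le_mul_of_nonneg_left h6 hD0
      push_cast
      linarith

lemma crow_bound {g : ℤ[X]} (hg : g.Monic) (D : ℕ) :
    ∃ C : ℝ, 1 ≤ C ∧ ∀ (e1 e2 : Fin 4 → ℤ) (T : ℝ), 1 ≤ T → (∀ j, |(e1 j : ℝ)| ≤ T) →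
      (∀ j, |(e2 j : ℝ)| ≤ T) → ∀ i x, |(crow g e1 e2 D i x : ℝ)| ≤ C * T ^ D := by
  obtain ⟨C0, hC0, h0⟩ := exists_mod_bound hg (1 + 3 * D)
  have hD0 : (0 : ℝ) ≤ D := Nat.cast_nonneg D
  refine ⟨C0 * (4 * ((D + 1) * ((3 * D + 1) * 4 ^ D))), ?_, ?_⟩
  · have h1 : (1 : ℝ) ≤ 4 ^ D := one_le_pow₀ (by norm_num)
    have h2 : (1 : ℝ) ≤ (3 * D + 1) * 4 ^ D := by nlinarith
    have h3 : (1 : ℝ) ≤ (D + 1) * ((3 * D + 1) * 4 ^ D) := by nlinarith
    nlinarith
  intro e1 e2 T hT h1 h2 i x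
  unfold crow
  have hX : HB ((X : ℤ[X]) ^ (x.1 : ℕ)) 1 2 := by
    have h3 := HB.X.pow (x.1 : ℕ)
    have h4 : (x.1 : ℕ) ≤ 1 := by have := x.1.2; omega
    refine h3.mono (by omega) ?_
    calc ((((1 : ℕ) : ℝ) + 1) * 1) ^ (x.1 : ℕ) = 2 ^ (x.1 : ℕ) := by norm_num
      _ ≤ 2 ^ 1 := pow_le_pow_right₀ (by norm_num) h4
      _ = 2 := by norm_num
  have hW := HB_Wp hT h1 h2 D i.1 x.2 (by have := x.2.2; omega)
  have h5 := h0 _ _ (hX.mul hW) i.2
  refine h5.trans (le_of_eq ?_)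
  rw [mul_pow]
  push_cast
  ring

/-- the polynomials `A`, `B` of a vector -/
noncomputable def Apol {R : Type*} [CommRing R] (D : ℕ) (z : Fin 2 × Fin (D + 1) → R) : R[X] :=
  ∑ j : Fin (D + 1), C (z (1, j)) * X ^ (j : ℕ)

/-- the polynomials `A`, `B` of a vector -/
noncomputable def Bpol {R : Type*} [CommRing R] (D : ℕ) (z : Fin 2 × Fin (D + 1) → R) : R[X] :=
  ∑ j : Fin (D + 1), C (z (0, j)) * X ^ (j : ℕ)

lemma eval_pol_C (a : Fin 4 → ℤ) (z : ℂ) :
    ((pol a).map (Int.castRingHom ℂ)).eval z = ev a z := by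
  rw [← aeval_pol, aeval_def, eval_map]
  rfl

lemma eval_mod {g : ℤ[X]} (hg : g.Monic) {z : ℂ} (hz : aeval z g = 0) (p : ℤ[X]) :
    ((p %ₘ g).map (Int.castRingHom ℂ)).eval z = (p.map (Int.castRingHom ℂ)).eval z := by
  have h1 : aeval z (p %ₘ g) = aeval z p := by
    conv_rhs => rw [← modByMonic_add_div p g]
    rw [map_add, map_mul, hz, zero_mul, add_zero]
  rw [eval_map, eval_map]
  exact h1

lemma aux_pow {a : ℂ} (b : ℂ) (ha : a ≠ 0) {D j : ℕ} (hj : j ≤ D) :
    a ^ D * (-b / a) ^ j = (-b) ^ j * a ^ (D - j) := by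
  obtain ⟨q, rfl⟩ := Nat.exists_eq_add_of_le hj
  rw [div_pow, Nat.add_sub_cancel_left, pow_add]
  field_simp

lemma aux_pow' {a : ℂ} (b : ℂ) (ha : a ≠ 0) {D j : ℕ} (hj : j ≤ D) (hpos : 1 ≤ j) :
    a ^ D * (-b / a) ^ (j - 1) = a * ((-b) ^ (j - 1) * a ^ (D - j)) := by
  obtain ⟨l, rfl⟩ : ∃ l, j = l + 1 := ⟨j - 1, by omega⟩
  obtain ⟨q, rfl⟩ := Nat.exists_eq_add_of_le hj
  have e3 : l + 1 + q - (l + 1) = q := by omega
  have e4 : l + 1 - 1 = l := by omega
  rw [e3, e4, div_pow, pow_add, pow_succ]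
  field_simp

lemma crow_iff {g : ℤ[X]} {θ : Fin 4 → ℂ} (hg : Roots4 g θ) {e1 e2 : Fin 4 → ℤ}
    (h1 : ∀ σ, ev e1 (θ σ) ≠ 0) (D : ℕ) (z : Fin 2 × Fin (D + 1) → ℂ) :
    (∀ i, ∑ x, (crow g e1 e2 D i x : ℂ) * z x = 0) ↔
      ∀ σ, (X - C (tt θ e1 e2 σ)) ^ 2 ∣ Bpol D z + C (θ σ) * Apol D z := by
  set R : Fin 2 → ℂ[X] := fun ε => ∑ x : Fin 2 × Fin (D + 1), C (z x) *
    ((X ^ (x.1 : ℕ) * Wp e1 e2 D ε x.2) %ₘ g).map (Int.castRingHom ℂ) with hR
  have hRdeg : ∀ ε, (R ε).natDegree < 4 := by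
    intro ε
    have h2 : (R ε).natDegree ≤ 3 := by
      apply natDegree_sum_le_of_forall_le
      intro x _
      refine (natDegree_C_mul_le _ _).trans (natDegree_map_le.trans ?_)
      have h3 := natDegree_modByMonic_lt (X ^ (x.1 : ℕ) * Wp e1 e2 D ε x.2) hg.monic (by
        intro h; have := hg.deg; rw [h] at this; simp at this)
      rw [hg.deg] at h3
      omega
    omega
  have hRcoeff : ∀ ε (c : Fin 4), (R ε).coeff c = ∑ x, (crow g e1 e2 D (ε, c) x : ℂ) * z x := by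
    intro ε c
    simp only [hR]
    rw [finsetSum_coeff]
    apply Finset.sum_congr rfl
    intro x _
    rw [coeff_C_mul, coeff_map, mul_comm]
    rfl
  have hrows : (∀ i, ∑ x, (crow g e1 e2 D i x : ℂ) * z x = 0) ↔ ∀ ε, R ε = 0 := by
    constructor
    · intro h ε
      ext c
      rw [coeff_zero]
      by_cases hc : c < 4
      · have := hRcoeff ε ⟨c, hc⟩
        simp only at this
        rw [this]
        exact h _
      · exact coeff_eq_zero_of_natDegree_lt (by have := hRdeg ε; omega)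
    · intro h i
      rw [← hRcoeff i.1 i.2, h]
      exact coeff_zero _
  have hRzero : ∀ ε, R ε = 0 ↔ ∀ σ, (R ε).eval (θ σ) = 0 := by
    intro ε
    constructor
    · intro h σ; rw [h, eval_zero]
    · intro h
      apply eq_zero_of_natDegree_lt_card_of_eval_eq_zero _ hg.inj h
      simpa using hRdeg ε
  have hReval : ∀ ε σ, (R ε).eval (θ σ) = ∑ x : Fin 2 × Fin (D + 1), z x *
      (θ σ ^ (x.1 : ℕ) * ((Wp e1 e2 D ε x.2).map (Int.castRingHom ℂ)).eval (θ σ)) := by
    intro ε σ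
    simp only [hR]
    rw [eval_finsetSum]
    apply Finset.sum_congr rfl
    intro x _
    rw [eval_mul, eval_C, eval_mod hg.monic (hg.root σ)]
    congr 1
    simp
  have hsplit : ∀ (f : Fin 2 × Fin (D + 1) → ℂ), ∑ x, f x = ∑ j : Fin (D + 1), (f (0, j) + f (1, j)) := by
    intro f
    rw [Fintype.sum_prod_type, Fin.sum_univ_two, ← Finset.sum_add_distrib]
  have hE0 : ∀ σ, (R 0).eval (θ σ) = (ev e1 (θ σ)) ^ D *
      (Bpol D z + C (θ σ) * Apol D z).eval (tt θ e1 e2 σ) := by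
    intro σ
    rw [hReval, hsplit]
    simp only [Bpol, Apol, eval_add, eval_mul, eval_C, eval_finsetSum, eval_pow, eval_X]
    rw [Finset.mul_sum, ← Finset.sum_add_distrib, Finset.mul_sum]
    apply Finset.sum_congr rfl
    intro j _
    have hj : (j : ℕ) ≤ D := by have := j.2; omega
    have e : (ev e1 (θ σ)) ^ D * (tt θ e1 e2 σ) ^ (j : ℕ) =
        (-(ev e2 (θ σ))) ^ (j : ℕ) * (ev e1 (θ σ)) ^ (D - j) := by
      exact aux_pow _ (h1 σ) hj
    simp only [Wp, if_true, Polynomial.map_mul, Polynomial.map_pow, Polynomial.map_neg, eval_mul,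
      eval_pow, eval_neg, eval_pol_C, Fin.val_zero, Fin.val_one, pow_zero, pow_one, one_mul]
    rw [← e]
    ring
  have hE1 : ∀ σ, ev e1 (θ σ) * (R 1).eval (θ σ) = (ev e1 (θ σ)) ^ D *
      (derivative (Bpol D z + C (θ σ) * Apol D z)).eval (tt θ e1 e2 σ) := by
    intro σ
    rw [hReval, hsplit]
    simp only [Bpol, Apol, derivative_add, derivative_mul, derivative_C, derivative_sum,
      derivative_X_pow, zero_mul, zero_add, eval_add, eval_mul, eval_C, eval_finsetSum, eval_pow,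
      eval_X, map_natCast, eval_natCast]
    rw [Finset.mul_sum, Finset.mul_sum, ← Finset.sum_add_distrib, Finset.mul_sum]
    apply Finset.sum_congr rfl
    intro j _
    have hj : (j : ℕ) ≤ D := by have := j.2; omega
    rcases Nat.eq_zero_or_pos (j : ℕ) with h0 | hpos
    · have hW : ∀ s : ℕ, ((Wp e1 e2 D 1 (j : ℕ)).map (Int.castRingHom ℂ)).eval (θ σ) = 0 := by
        intro s
        rw [h0]
        simp [Wp]
      rw [hW 0, h0]
      simp
    · have e : (ev e1 (θ σ)) ^ D * (tt θ e1 e2 σ) ^ ((j : ℕ) - 1) =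
          ev e1 (θ σ) * ((-(ev e2 (θ σ))) ^ ((j : ℕ) - 1) * (ev e1 (θ σ)) ^ (D - j)) := by
        exact aux_pow' _ (h1 σ) hj hpos
      have hne : ¬ ((1 : Fin 2) = 0) := by decide
      simp only [Wp, if_neg hne, Polynomial.map_mul, Polynomial.map_pow, Polynomial.map_neg,
        eval_mul, eval_pow, eval_neg, eval_pol_C, Fin.val_zero, Fin.val_one, map_natCast,
        Polynomial.map_natCast, eval_natCast,
        pow_zero, pow_one, one_mul]
      linear_combination (-(z (0, j) + θ σ * z (1, j)) * (j : ℂ)) * e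
  rw [hrows]
  have hfin : (∀ ε, R ε = 0) ↔ ∀ σ, (R 0).eval (θ σ) = 0 ∧ (R 1).eval (θ σ) = 0 := by
    constructor
    · intro h σ
      rw [h, h]; simp
    · intro h ε
      rw [hRzero]
      intro σ
      fin_cases ε
      · exact (h σ).1
      · exact (h σ).2
  rw [hfin]
  refine forall_congr' fun σ => ?_
  have hpow := pow_ne_zero D (h1 σ)
  rw [pow_dvd_iff_taylor]
  constructor
  · rintro ⟨ha, hb⟩ d hd
    have ha' : (Bpol D z + C (θ σ) * Apol D z).eval (tt θ e1 e2 σ) = 0 := by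
      have := hE0 σ
      rw [ha] at this
      exact (mul_eq_zero.mp this.symm).resolve_left hpow
    have hb' : (derivative (Bpol D z + C (θ σ) * Apol D z)).eval (tt θ e1 e2 σ) = 0 := by
      have := hE1 σ
      rw [hb, mul_zero] at this
      exact (mul_eq_zero.mp this.symm).resolve_left hpow
    rcases d with _ | _ | d
    · rw [taylor_coeff_zero]; exact ha'
    · rw [taylor_coeff_one]; exact hb'
    · omega
  · intro h
    have ha' := h 0 (by norm_num)
    have hb' := h 1 (by norm_num)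
    rw [taylor_coeff_zero] at ha'
    rw [taylor_coeff_one] at hb'
    constructor
    · rw [hE0, ha', mul_zero]
    · have := hE1 σ
      rw [hb', mul_zero] at this
      exact (mul_eq_zero.mp this).resolve_left (h1 σ)


/-! ### vectors and polynomials -/

section vectors

variable {R : Type*} [CommRing R]

lemma natDegree_Apol (D : ℕ) (z : Fin 2 × Fin (D + 1) → R) : (Apol D z).natDegree ≤ D := by
  apply natDegree_sum_le_of_forall_le
  intro j _
  refine (natDegree_C_mul_X_pow_le _ _).trans ?_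
  have := j.2
  omega

lemma natDegree_Bpol (D : ℕ) (z : Fin 2 × Fin (D + 1) → R) : (Bpol D z).natDegree ≤ D := by
  apply natDegree_sum_le_of_forall_le
  intro j _
  refine (natDegree_C_mul_X_pow_le _ _).trans ?_
  have := j.2
  omega

lemma coeff_Apol (D : ℕ) (z : Fin 2 × Fin (D + 1) → R) (j : Fin (D + 1)) :
    (Apol D z).coeff j = z (1, j) := by
  unfold Apol
  rw [finsetSum_coeff, Finset.sum_eq_single j]
  · simp
  · intro l _ hl
    rw [coeff_C_mul, coeff_X_pow, if_neg (fun h => hl (Fin.ext h.symm)), mul_zero]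
  · intro h; exact absurd (Finset.mem_univ _) h

lemma coeff_Bpol (D : ℕ) (z : Fin 2 × Fin (D + 1) → R) (j : Fin (D + 1)) :
    (Bpol D z).coeff j = z (0, j) := by
  unfold Bpol
  rw [finsetSum_coeff, Finset.sum_eq_single j]
  · simp
  · intro l _ hl
    rw [coeff_C_mul, coeff_X_pow, if_neg (fun h => hl (Fin.ext h.symm)), mul_zero]
  · intro h; exact absurd (Finset.mem_univ _) h

lemma pair_ne_zero (D : ℕ) {z : Fin 2 × Fin (D + 1) → R} (hz : z ≠ 0) :
    Apol D z ≠ 0 ∨ Bpol D z ≠ 0 := by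
  by_contra hc
  rw [not_or, not_not, not_not] at hc
  apply hz
  ext ⟨s, j⟩
  fin_cases s
  · have := coeff_Bpol D z j
    rw [hc.2, coeff_zero] at this
    exact this.symm
  · have := coeff_Apol D z j
    rw [hc.1, coeff_zero] at this
    exact this.symm

lemma map_Apol (D : ℕ) (x : Fin 2 × Fin (D + 1) → ℤ) :
    Apol D (fun i => (x i : ℂ)) = (Apol D x).map (Int.castRingHom ℂ) := by
  unfold Apol
  rw [Polynomial.map_sum]
  apply Finset.sum_congr rfl
  intro j _
  simp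

lemma map_Bpol (D : ℕ) (x : Fin 2 × Fin (D + 1) → ℤ) :
    Bpol D (fun i => (x i : ℂ)) = (Bpol D x).map (Int.castRingHom ℂ) := by
  unfold Bpol
  rw [Polynomial.map_sum]
  apply Finset.sum_congr rfl
  intro j _
  simp

lemma abs_coeff_Apol {D : ℕ} {x : Fin 2 × Fin (D + 1) → ℤ} {T : ℝ} (hT : 0 ≤ T)
    (h : ∀ i, |(x i : ℝ)| ≤ T) (j : ℕ) : |((Apol D x).coeff j : ℝ)| ≤ T := by
  by_cases hj : j < D + 1
  · have := coeff_Apol D x ⟨j, hj⟩
    simp only at this
    rw [this]; exact h _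
  · rw [coeff_eq_zero_of_natDegree_lt (by have := natDegree_Apol D x; omega)]
    simpa using hT

lemma abs_coeff_Bpol {D : ℕ} {x : Fin 2 × Fin (D + 1) → ℤ} {T : ℝ} (hT : 0 ≤ T)
    (h : ∀ i, |(x i : ℝ)| ≤ T) (j : ℕ) : |((Bpol D x).coeff j : ℝ)| ≤ T := by
  by_cases hj : j < D + 1
  · have := coeff_Bpol D x ⟨j, hj⟩
    simp only at this
    rw [this]; exact h _
  · rw [coeff_eq_zero_of_natDegree_lt (by have := natDegree_Bpol D x; omega)]
    simpa using hT

end vectors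

/-- an integral solution of the system gives an element of `W(1,D,2)` -/
lemma double_of_rows {g : ℤ[X]} {θ : Fin 4 → ℂ} (hg : Roots4 g θ) {e1 e2 : Fin 4 → ℤ}
    (h1 : ∀ σ, ev e1 (θ σ) ≠ 0) {D : ℕ} {x : Fin 2 × Fin (D + 1) → ℤ}
    (hx : ∀ i, ∑ y, crow g e1 e2 D i y * x y = 0) (σ : Fin 4) :
    (X - C (tt θ e1 e2 σ)) ^ 2 ∣ (Bpol D x).map (Int.castRingHom ℂ) +
      C (θ σ) * (Apol D x).map (Int.castRingHom ℂ) := by
  rw [← map_Apol, ← map_Bpol]
  apply (crow_iff hg h1 D _).mp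
  intro i
  have := hx i
  exact_mod_cast congrArg (Int.cast : ℤ → ℂ) this

/-- `A n + B` in `WS` -/
lemma pair_mem_WS {τ θ : Fin 4 → ℂ} {D : ℕ} {A B : ℂ[X]} (hA : A.natDegree ≤ D)
    (hB : B.natDegree ≤ D) (h : ∀ σ, (X - C (τ σ)) ^ 2 ∣ B + C (θ σ) * A) :
    C A * X + C B ∈ WS τ θ 1 (D + 1) 2 := by
  apply lin_mem_WS
  · exact (degree_le_natDegree).trans_lt (by exact_mod_cast Nat.lt_succ_of_le hA)
  · exact (degree_le_natDegree).trans_lt (by exact_mod_cast Nat.lt_succ_of_le hB)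
  · intro i
    have := h i
    rw [add_comm, mul_comm] at this
    exact this

/-- an unbalanced slice has an integral member of `W(1,3,2)` -/
theorem exists_unbal {g : ℤ[X]} {θ : Fin 4 → ℂ} (hg : Roots4 g θ) {e1 e2 : Fin 4 → ℤ}
    (h1 : ∀ σ, ev e1 (θ σ) ≠ 0) (hnb : ¬ Bal (tt θ e1 e2) θ) :
    ∃ x : Fin 2 × Fin (3 + 1) → ℤ, x ≠ 0 ∧
      ∀ σ, (X - C (tt θ e1 e2 σ)) ^ 2 ∣ (Bpol 3 x).map (Int.castRingHom ℂ) +
        C (θ σ) * (Apol 3 x).map (Int.castRingHom ℂ) := by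
  rw [Bal] at hnb
  push Not at hnb
  obtain ⟨h, hh, h0⟩ := hnb
  obtain ⟨hh1, hh2, hh3⟩ := hh
  set z : Fin 2 × Fin (3 + 1) → ℂ := fun i => (h.coeff (i.1 : ℕ)).coeff (i.2 : ℕ) with hz
  have hdeg : ∀ q, (h.coeff q).natDegree ≤ 3 := fun q => natDegree_le_of_lt_succ (hh2 q)
  have hA : Apol 3 z = h.coeff 1 := by
    ext j
    by_cases hj : j < 3 + 1
    · have := coeff_Apol 3 z ⟨j, hj⟩
      simp only at this
      rw [this]; simp [hz]
    · rw [coeff_eq_zero_of_natDegree_lt (by have := natDegree_Apol 3 z; omega),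
        coeff_eq_zero_of_natDegree_lt (by have := hdeg 1; omega)]
  have hB : Bpol 3 z = h.coeff 0 := by
    ext j
    by_cases hj : j < 3 + 1
    · have := coeff_Bpol 3 z ⟨j, hj⟩
      simp only at this
      rw [this]; simp [hz]
    · rw [coeff_eq_zero_of_natDegree_lt (by have := natDegree_Bpol 3 z; omega),
        coeff_eq_zero_of_natDegree_lt (by have := hdeg 0; omega)]
  have hlin : h = C (h.coeff 1) * X + C (h.coeff 0) := eq_X_add_C_of_natDegree_le_one hh1
  have hz0 : z ≠ 0 := by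
    intro hz0
    apply h0
    have e1 : Apol 3 z = 0 := by rw [hz0]; simp [Apol]
    have e2 : Bpol 3 z = 0 := by rw [hz0]; simp [Bpol]
    rw [hlin, ← hA, ← hB, e1, e2]
    simp
  have hd : ∀ σ, (X - C (tt θ e1 e2 σ)) ^ 2 ∣ Bpol 3 z + C (θ σ) * Apol 3 z := by
    intro σ
    rw [hA, hB]
    have := hh3 σ
    rw [hlin, wo_two_iff] at this
    rw [add_comm, mul_comm]
    exact this
  have hrows := (crow_iff hg h1 3 z).mpr hd
  obtain ⟨Bd, hBd⟩ : ∃ B : ℝ, 1 ≤ B ∧ ∀ i y, |(crow g e1 e2 3 i y : ℝ)| ≤ B := by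
    refine ⟨1 + ∑ i, ∑ y, |(crow g e1 e2 3 i y : ℝ)|, ?_, fun i y => ?_⟩
    · have : (0 : ℝ) ≤ ∑ i, ∑ y, |(crow g e1 e2 3 i y : ℝ)| :=
        Finset.sum_nonneg fun _ _ => Finset.sum_nonneg fun _ _ => abs_nonneg _
      linarith
    · have h2 : |(crow g e1 e2 3 i y : ℝ)| ≤ ∑ y, |(crow g e1 e2 3 i y : ℝ)| :=
        Finset.single_le_sum (f := fun y => |(crow g e1 e2 3 i y : ℝ)|)
          (fun _ _ => abs_nonneg _) (Finset.mem_univ y)
      have h3 : ∑ y, |(crow g e1 e2 3 i y : ℝ)| ≤ ∑ i, ∑ y, |(crow g e1 e2 3 i y : ℝ)| :=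
        Finset.single_le_sum (f := fun i => ∑ y, |(crow g e1 e2 3 i y : ℝ)|)
          (fun _ _ => Finset.sum_nonneg fun _ _ => abs_nonneg _) (Finset.mem_univ i)
      linarith
  obtain ⟨x, hx0, hx1, -⟩ := small_kernel rfl (crow g e1 e2 3) Bd hBd.1 hBd.2 z hz0 hrows
  exact ⟨x, hx0, double_of_rows hg h1 hx1⟩

/-- **The rational pencil.** -/
theorem exists_small_pencil {g : ℤ[X]} {θ : Fin 4 → ℂ} (hg : Roots4 g θ) :
    ∃ (K : ℝ) (κ : ℕ), 1 ≤ K ∧ ∀ (e1 e2 : Fin 4 → ℤ) (T : ℝ), 1 ≤ T → (∀ j, |(e1 j : ℝ)| ≤ T) →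
      (∀ j, |(e2 j : ℝ)| ≤ T) → (∀ σ, ev e1 (θ σ) ≠ 0) → Function.Injective (tt θ e1 e2) →
      Bal (tt θ e1 e2) θ → ∃ x y : Fin 2 × Fin (4 + 1) → ℤ,
        (∀ i, |(x i : ℝ)| ≤ K * T ^ κ) ∧ (∀ i, |(y i : ℝ)| ≤ K * T ^ κ) ∧
        (∀ σ, (X - C (tt θ e1 e2 σ)) ^ 2 ∣ (Bpol 4 x).map (Int.castRingHom ℂ) +
          C (θ σ) * (Apol 4 x).map (Int.castRingHom ℂ)) ∧
        (∀ σ, (X - C (tt θ e1 e2 σ)) ^ 2 ∣ (Bpol 4 y).map (Int.castRingHom ℂ) +
          C (θ σ) * (Apol 4 y).map (Int.castRingHom ℂ)) ∧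
        Apol 4 x * Bpol 4 y - Apol 4 y * Bpol 4 x ≠ 0 ∧ Apol 4 y ≠ 0 := by
  obtain ⟨K0, hK0, hrow⟩ := crow_bound hg.monic 4
  set K1 : ℝ := (10 * (10 * K0) ^ 10) ^ 10 with hK1
  have hbase : (1 : ℝ) ≤ 10 * K0 := by linarith
  have hb10 : (1 : ℝ) ≤ (10 * K0) ^ 10 := one_le_pow₀ hbase
  refine ⟨K1, 400, one_le_pow₀ (by linarith), ?_⟩
  intro e1 e2 T hT h1 h2 hne hinj hbal
  have hT4 : (1 : ℝ) ≤ T ^ 4 := one_le_pow₀ hT
  have hT0 : (0 : ℝ) < T := by linarith
  obtain ⟨x, y, hx1, hy1, hx0, hy0, hxy, hx2, hy2⟩ := small_kernel_two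
    (α := Fin 2 × Fin 4) (β := Fin 2 × Fin (4 + 1)) (n := 10) (by simp) (by simp)
    (crow g e1 e2 4) (K0 * T ^ 4) (by nlinarith) (hrow e1 e2 T hT h1 h2)
  have hxd := double_of_rows hg hne hx1
  have hyd := double_of_rows hg hne hy1
  have hsz1 : (((10 : ℕ) : ℝ) * (K0 * T ^ 4)) ^ 10 ≤ K1 * T ^ 400 := by
    have e : (((10 : ℕ) : ℝ) * (K0 * T ^ 4)) ^ 10 = (10 * K0) ^ 10 * T ^ 40 := by
      push_cast; ring
    rw [e]
    have h3 : T ^ 40 ≤ T ^ 400 := pow_le_pow_right₀ hT (by norm_num)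
    have h4 : (10 * K0) ^ 10 ≤ K1 := by
      have h5 : (10 * K0) ^ 10 ≤ 10 * (10 * K0) ^ 10 := by linarith
      refine h5.trans (le_self_pow₀ (by linarith) (by norm_num))
    exact mul_le_mul h4 h3 (by positivity) (by linarith)
  have hsz2 : (((10 : ℕ) : ℝ) * (((10 : ℕ) : ℝ) * (K0 * T ^ 4)) ^ 10) ^ 10 ≤ K1 * T ^ 400 := by
    apply le_of_eq
    rw [hK1]
    push_cast
    ring
  have memE : ∀ p q : ℤ, (p * (Apol 4 x).coeff 4 + q * (Apol 4 y).coeff 4 = 0) →
      (p * (Bpol 4 x).coeff 4 + q * (Bpol 4 y).coeff 4 = 0) → ∀ i, p * x i + q * y i = 0 := by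
    intro p q hA hB
    set z : Fin 2 × Fin (4 + 1) → ℤ := fun i => p * x i + q * y i with hz
    have hrows : ∀ i, ∑ w, crow g e1 e2 4 i w * z w = 0 := by
      intro i
      have e : ∑ w, crow g e1 e2 4 i w * z w = p * ∑ w, crow g e1 e2 4 i w * x w +
          q * ∑ w, crow g e1 e2 4 i w * y w := by
        rw [Finset.mul_sum, Finset.mul_sum, ← Finset.sum_add_distrib]
        apply Finset.sum_congr rfl
        intro w _
        simp only [hz]
        ring
      rw [e, hx1, hy1]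
      ring
    have hzd := double_of_rows hg hne hrows
    have hA4 : (Apol 4 z).coeff 4 = 0 := by
      have e1 := coeff_Apol 4 z 4
      have e2 := coeff_Apol 4 x 4
      have e3 := coeff_Apol 4 y 4
      have e4 : ((4 : Fin (4 + 1)) : ℕ) = 4 := rfl
      rw [e4] at e1 e2 e3
      rw [e2, e3] at hA
      rw [e1]
      exact hA
    have hB4 : (Bpol 4 z).coeff 4 = 0 := by
      have e1 := coeff_Bpol 4 z 4
      have e2 := coeff_Bpol 4 x 4
      have e3 := coeff_Bpol 4 y 4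
      have e4 : ((4 : Fin (4 + 1)) : ℕ) = 4 := rfl
      rw [e4] at e1 e2 e3
      rw [e2, e3] at hB
      rw [e1]
      exact hB
    have hdeg : ∀ P : ℤ[X], P.natDegree ≤ 4 → P.coeff 4 = 0 →
        (P.map (Int.castRingHom ℂ)).natDegree ≤ 3 := by
      intro P hP h0
      refine natDegree_map_le.trans ?_
      rw [natDegree_le_iff_coeff_eq_zero]
      intro N hN
      rcases Nat.lt_or_ge 4 N with h | h
      · exact coeff_eq_zero_of_natDegree_lt (by omega)
      · obtain rfl : N = 4 := by omega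
        exact h0
    have hmem := pair_mem_WS (D := 3) (hdeg _ (natDegree_Apol 4 z) hA4)
      (hdeg _ (natDegree_Bpol 4 z) hB4) hzd
    have hzero := hbal _ hmem
    have hAz : (Apol 4 z).map (Int.castRingHom ℂ) = 0 := by
      have := congrArg (fun P : ℂ[X][X] => P.coeff 1) hzero
      simpa using this
    have hBz : (Bpol 4 z).map (Int.castRingHom ℂ) = 0 := by
      have := congrArg (fun P : ℂ[X][X] => P.coeff 0) hzero
      simpa using this
    have hinjc : Function.Injective (Int.castRingHom ℂ) := RingHom.injective_int _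
    have hAz' : Apol 4 z = 0 := (Polynomial.map_eq_zero_iff hinjc).mp hAz
    have hBz' : Bpol 4 z = 0 := (Polynomial.map_eq_zero_iff hinjc).mp hBz
    intro i
    by_contra hne'
    have hz0 : z ≠ 0 := fun h => hne' (congrFun h i)
    rcases pair_ne_zero 4 hz0 with h | h
    · exact h hAz'
    · exact h hBz'
  have selfdot : ∀ w : Fin 2 × Fin (4 + 1) → ℤ, ∑ j, w j * w j = 0 → w = 0 := by
    intro w hw
    ext j
    have := (Finset.sum_eq_zero_iff_of_nonneg (fun j _ => mul_self_nonneg (w j))).mp hw j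
      (Finset.mem_univ j)
    exact mul_self_eq_zero.mp this
  -- a relation `p x + q y = 0` is trivial
  have rel : ∀ p q : ℤ, (∀ i, p * x i + q * y i = 0) → p = 0 ∧ q = 0 := by
    intro p q h
    have hq : q * ∑ j, y j * y j = 0 := by
      have : ∑ j, (p * x j + q * y j) * y j = 0 :=
        Finset.sum_eq_zero fun j _ => by rw [h j, zero_mul]
      have e : ∑ j, (p * x j + q * y j) * y j = p * ∑ j, x j * y j + q * ∑ j, y j * y j := by
        rw [Finset.mul_sum, Finset.mul_sum, ← Finset.sum_add_distrib]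
        apply Finset.sum_congr rfl; intro j _; ring
      rw [e, hxy] at this
      linarith
    have hp : p * ∑ j, x j * x j = 0 := by
      have : ∑ j, (p * x j + q * y j) * x j = 0 :=
        Finset.sum_eq_zero fun j _ => by rw [h j, zero_mul]
      have e : ∑ j, (p * x j + q * y j) * x j = p * ∑ j, x j * x j + q * ∑ j, x j * y j := by
        rw [Finset.mul_sum, Finset.mul_sum, ← Finset.sum_add_distrib]
        apply Finset.sum_congr rfl; intro j _; ring
      rw [e, hxy] at this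
      linarith
    constructor
    · rcases mul_eq_zero.mp hp with h1 | h1
      · exact h1
      · exact absurd (selfdot x h1) hx0
    · rcases mul_eq_zero.mp hq with h1 | h1
      · exact h1
      · exact absurd (selfdot y h1) hy0
  refine ⟨x, y, fun i => (hx2 i).trans hsz1, fun i => (hy2 i).trans hsz2, hxd, hyd, ?_, ?_⟩
  · intro h0
    have h8 := congrArg (fun P : ℤ[X] => P.coeff (4 + 4)) h0
    simp only [coeff_sub, coeff_zero] at h8
    rw [coeff_mul_add_eq_of_natDegree_le (natDegree_Apol 4 x) (natDegree_Bpol 4 y),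
      coeff_mul_add_eq_of_natDegree_le (natDegree_Apol 4 y) (natDegree_Bpol 4 x)] at h8
    have hr1 := memE ((Apol 4 y).coeff 4) (-(Apol 4 x).coeff 4) (by ring) (by linarith)
    have hr2 := memE ((Bpol 4 y).coeff 4) (-(Bpol 4 x).coeff 4) (by linarith) (by ring)
    obtain ⟨a1, a2⟩ := rel _ _ hr1
    obtain ⟨b1, b2⟩ := rel _ _ hr2
    have hr3 := memE 1 0 (by linarith) (by linarith)
    have := (rel _ _ hr3).1
    exact one_ne_zero this
  · intro h0
    have hB : (Bpol 4 y).map (Int.castRingHom ℂ) = 0 := by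
      apply eq_zero_of_pow_dvd hinj 2
      · intro i
        have := hyd i
        rw [h0, Polynomial.map_zero, mul_zero, add_zero] at this
        exact this
      · refine (degree_le_natDegree).trans_lt ?_
        have : ((Bpol 4 y).map (Int.castRingHom ℂ)).natDegree ≤ 4 :=
          natDegree_map_le.trans (natDegree_Bpol 4 y)
        exact_mod_cast (by omega)
    have hB' : Bpol 4 y = 0 := (Polynomial.map_eq_zero_iff (RingHom.injective_int _)).mp hB
    rcases pair_ne_zero 4 hy0 with h | h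
    · exact h h0
    · exact h hB'

end Pool.Agent.Lib.SQF
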